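import Pool.Agent.Lib.H83.Defs

/-!
Chunk AI: the inequality behind region A.

For `τ ≥ 0.62`, `0 ≤ x ≤ τ`, `q = exp(-2τ²/3)`, `κ = 1/√(1+q) + 1/(1+q)`:
`2x² EE(τ-x) + x e^{-(τ-x)²} ≤ κ (e^{x²} EE(τ) - EE(τ-x))`.

Proof. With `s = τ - x`, `z = 2 s x`, `Q = ∫_0^1 (1 + x²(1-v²)) e^{-zv} dv`:
`RHS - LHS ≥ x [ EE(s) (κ x³/2 - (2-κ) x) + e^{-s²} (κ Q - 1) ]` (`core`).
Since `2 - κ ≤ (3/4) κ q` (`kap_q`, an identity `(y-1)²(y+3) ≥ 0` for `y = 1/√(1+q)`), AM-GM gives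
`κ x³/2 - (2-κ) x ≥ -0.35356 κ e^{-τ²}`, so it is enough that
`κ (Q - 0.35356 EE(s) e^{-(z+x²)}) ≥ 1` (`fin2`), or that `2 - κ ≤ κx²/2` and `κ Q ≥ 1` (`fin1`).
For `τ ≤ 2.4` one of the two holds: rational check of 229 cells (`tab_ok`); `τ ≥ 2.4`: `large_tau`.
-/

open MeasureTheory Set
open scoped Real

namespace GCube

noncomputable def kapB (τ : ℝ) : ℝ := 1 / Real.sqrt (1 + qB τ) + 1 / (1 + qB τ)

namespace AIneq

/-- partial sums of `exp(-w)` -/
noncomputable def ps (n : ℕ) (w : ℝ) : ℝ := ∑ k ∈ Finset.range n, (-w) ^ k / (k.factorial : ℝ)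

theorem ps_deriv (n : ℕ) (w : ℝ) : HasDerivAt (ps (n + 1)) (-(ps n w)) w := by
  unfold ps
  have h : ∀ k ∈ Finset.range (n + 1), HasDerivAt (fun w : ℝ => (-w) ^ k / (k.factorial : ℝ))
      (-((k : ℝ) * (-w) ^ (k - 1) / (k.factorial : ℝ))) w := by
    intro k _
    have h1 := ((hasDerivAt_neg w).pow k).div_const (k.factorial : ℝ)
    refine h1.congr_deriv ?_
    ring
  refine (HasDerivAt.fun_sum h).congr_deriv ?_
  rw [Finset.sum_range_succ']
  simp only [Finset.sum_neg_distrib, Nat.cast_zero, zero_mul, zero_div, neg_zero, add_zero]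
  congr 1
  refine Finset.sum_congr rfl fun k _ => ?_
  rw [Nat.factorial_succ]
  push_cast
  have : (k.factorial : ℝ) ≠ 0 := by positivity
  have h3 : ((k : ℝ) + 1) ≠ 0 := by positivity
  field_simp

theorem ps_sign (n : ℕ) : ∀ w : ℝ, 0 ≤ w → 0 ≤ (-1 : ℝ) ^ n * (Real.exp (-w) - ps n w) := by
  induction n with
  | zero =>
    intro w _
    simp [ps]
    positivity
  | succ n ih =>
    have hd : ∀ w : ℝ, HasDerivAt (fun w => (-1 : ℝ) ^ (n + 1) * (Real.exp (-w) - ps (n + 1) w))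
        ((-1 : ℝ) ^ n * (Real.exp (-w) - ps n w)) w := by
      intro w
      have h1 : HasDerivAt (fun w : ℝ => Real.exp (-w)) (Real.exp (-w) * (-1)) w :=
        (Real.hasDerivAt_exp (-w)).comp w (hasDerivAt_neg w)
      refine ((h1.sub (ps_deriv n w)).const_mul ((-1 : ℝ) ^ (n + 1))).congr_deriv ?_
      ring
    have hm : MonotoneOn (fun w => (-1 : ℝ) ^ (n + 1) * (Real.exp (-w) - ps (n + 1) w)) (Ici 0) := by
      apply monotoneOn_of_deriv_nonneg (convex_Ici 0)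
      · exact fun w _ => (hd w).continuousAt.continuousWithinAt
      · exact fun w _ => (hd w).differentiableAt.differentiableWithinAt
      · intro w hw
        rw [interior_Ici] at hw
        rw [(hd w).deriv]
        exact ih w (le_of_lt hw)
    intro w hw
    have h0 : (-1 : ℝ) ^ (n + 1) * (Real.exp (-(0 : ℝ)) - ps (n + 1) 0) = 0 := by
      unfold ps
      rw [Finset.sum_range_succ']
      simp
    have := hm (mem_Ici.mpr le_rfl) (mem_Ici.mpr hw) hw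
    simp only at this
    rw [h0] at this
    exact this

theorem ps_le_exp {n : ℕ} (hn : Even n) {w : ℝ} (hw : 0 ≤ w) : ps n w ≤ Real.exp (-w) := by
  have := ps_sign n w hw
  rw [hn.neg_one_pow] at this
  linarith

theorem exp_le_ps {n : ℕ} (hn : Odd n) {w : ℝ} (hw : 0 ≤ w) : Real.exp (-w) ≤ ps n w := by
  have := ps_sign n w hw
  rw [hn.neg_one_pow] at this
  linarith

theorem int_poly (n : ℕ) (c : ℕ → ℝ) (s : ℝ) :
    ∫ u in (0 : ℝ)..s, ∑ k ∈ Finset.range n, c k * u ^ k =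
      ∑ k ∈ Finset.range n, c k * s ^ (k + 1) / ((k : ℝ) + 1) := by
  rw [intervalIntegral.integral_finsetSum]
  · refine Finset.sum_congr rfl fun k _ => ?_
    rw [intervalIntegral.integral_const_mul, integral_pow]
    simp
    ring
  · intro k _
    exact (Continuous.intervalIntegrable (by fun_prop) _ _)

theorem exp_sq_int (_s : ℝ) (a b : ℝ) : IntervalIntegrable (fun u : ℝ => Real.exp (-(u ^ 2))) volume a b :=
  Continuous.intervalIntegrable (by fun_prop) _ _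

/-- upper polynomial bound for `EE` -/
noncomputable def EEup (s : ℝ) : ℝ := s - s ^ 3 / 3 + s ^ 5 / 10 - s ^ 7 / 42 + s ^ 9 / 216

theorem EE_le_poly {s : ℝ} (hs : 0 ≤ s) : EE s ≤ EEup s := by
  unfold EE EEup
  have h1 : ∫ u in (0 : ℝ)..s, Real.exp (-(u ^ 2)) ≤ ∫ u in (0 : ℝ)..s,
      (1 - u ^ 2 + u ^ 4 / 2 - u ^ 6 / 6 + u ^ 8 / 24) := by
    apply intervalIntegral.integral_mono_on hs
    · exact exp_sq_int s 0 s
    · exact Continuous.intervalIntegrable (by fun_prop) _ _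
    · intro u hu
      have := exp_le_ps (n := 5) (by decide) (sq_nonneg u)
      refine this.trans (le_of_eq ?_)
      simp [ps, Finset.sum_range_succ, Nat.factorial]
      ring
  refine h1.trans (le_of_eq ?_)
  have h2 : ∀ u : ℝ, (1 - u ^ 2 + u ^ 4 / 2 - u ^ 6 / 6 + u ^ 8 / 24) =
      ∑ k ∈ Finset.range 9, ((fun k : ℕ => if k = 0 then (1:ℝ) else if k = 2 then -1 else if k = 4 then 1/2
        else if k = 6 then -1/6 else if k = 8 then 1/24 else 0) k) * u ^ k := by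
    intro u
    simp [Finset.sum_range_succ]
    ring
  simp only [h2]
  rw [int_poly]
  simp [Finset.sum_range_succ]
  ring

/-- lower polynomial bound for `EE` -/
theorem poly_le_EE {s : ℝ} (hs : 0 ≤ s) :
    s - s ^ 3 / 3 + s ^ 5 / 10 - s ^ 7 / 42 + s ^ 9 / 216 - s ^ 11 / 1320 ≤ EE s := by
  unfold EE
  have h1 : ∫ u in (0 : ℝ)..s,
      (1 - u ^ 2 + u ^ 4 / 2 - u ^ 6 / 6 + u ^ 8 / 24 - u ^ 10 / 120) ≤
      ∫ u in (0 : ℝ)..s, Real.exp (-(u ^ 2)) := by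
    apply intervalIntegral.integral_mono_on hs
    · exact Continuous.intervalIntegrable (by fun_prop) _ _
    · exact exp_sq_int s 0 s
    · intro u hu
      have := ps_le_exp (n := 6) (by decide) (sq_nonneg u)
      refine le_trans (le_of_eq ?_) this
      simp [ps, Finset.sum_range_succ, Nat.factorial]
      ring
  refine le_trans (le_of_eq ?_) h1
  have h2 : ∀ u : ℝ, (1 - u ^ 2 + u ^ 4 / 2 - u ^ 6 / 6 + u ^ 8 / 24 - u ^ 10 / 120) =
      ∑ k ∈ Finset.range 11, ((fun k : ℕ => if k = 0 then (1:ℝ) else if k = 2 then -1 else if k = 4 then 1/2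
        else if k = 6 then -1/6 else if k = 8 then 1/24 else if k = 10 then -1/120 else 0) k) * u ^ k := by
    intro u
    simp [Finset.sum_range_succ]
    ring
  simp only [h2]
  rw [int_poly]
  simp [Finset.sum_range_succ]
  ring

theorem EE_mono {a b : ℝ} (h : a ≤ b) : EE a ≤ EE b := by
  unfold EE
  rw [← intervalIntegral.integral_add_adjacent_intervals (exp_sq_int 0 0 a) (exp_sq_int 0 a b)]
  have : 0 ≤ ∫ u in a..b, Real.exp (-(u ^ 2)) :=
    intervalIntegral.integral_nonneg h fun u _ => (Real.exp_pos _).le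
  linarith

theorem EE_nonneg {s : ℝ} (hs : 0 ≤ s) : 0 ≤ EE s :=
  intervalIntegral.integral_nonneg hs fun u _ => (Real.exp_pos _).le

theorem EE_le_const {s : ℝ} (hs : 0 ≤ s) : EE s ≤ 8863 / 10000 := by
  unfold EE
  rw [intervalIntegral.integral_of_le hs]
  have h1 : ∫ u in Ioc 0 s, Real.exp (-(u ^ 2)) ≤ ∫ u in Ioi (0:ℝ), Real.exp (-(u ^ 2)) := by
    apply setIntegral_mono_set
    · have := integrableOn_Ici_iff_integrableOn_Ioi (f := fun u : ℝ => Real.exp (-(u^2))) (b := (0:ℝ)) (μ := volume)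
      have h := (integrable_exp_neg_mul_sq (b := 1) one_pos)
      simp only [neg_mul, one_mul] at h
      exact h.integrableOn
    · exact Filter.Eventually.of_forall fun u => (Real.exp_pos _).le
    · exact (Ioc_subset_Ioi_self).eventuallyLE
  have h2 := integral_gaussian_Ioi 1
  simp only [neg_mul, one_mul, div_one] at h2
  rw [h2] at h1
  refine h1.trans ?_
  have h3 : Real.sqrt π ≤ 17726 / 10000 := by
    rw [Real.sqrt_le_left (by norm_num)]
    have := Real.pi_lt_d4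
    norm_num at this ⊢
    linarith
  linarith

theorem s_exp_le_EE {s : ℝ} (hs : 0 ≤ s) : s * Real.exp (-(s ^ 2)) ≤ EE s := by
  unfold EE
  have h1 : ∫ u in (0 : ℝ)..s, Real.exp (-(s ^ 2)) ≤ ∫ u in (0 : ℝ)..s, Real.exp (-(u ^ 2)) := by
    apply intervalIntegral.integral_mono_on hs
    · exact Continuous.intervalIntegrable (by fun_prop) _ _
    · exact exp_sq_int s 0 s
    · intro u hu
      apply Real.exp_le_exp.mpr
      have := pow_le_pow_left₀ hu.1 hu.2 2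
      linarith
  simpa using h1


/-- the weighted average `Q` -/
noncomputable def Q (z X : ℝ) : ℝ :=
  ∫ v in (0 : ℝ)..1, (1 + X * (1 - v ^ 2)) * Real.exp (-(z * v))

theorem EE_diff {s x : ℝ} (hx : 0 ≤ x) :
    Real.exp (-(s ^ 2)) * (x * Q (2 * s * x) (x ^ 2)) ≤ Real.exp (x ^ 2) * (EE (s + x) - EE s) := by
  have h1 : EE (s + x) - EE s = x * ∫ v in (0 : ℝ)..1, Real.exp (-((x * v + s) ^ 2)) := by
    have h := intervalIntegral.mul_integral_comp_mul_add (a := 0) (b := 1)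
      (f := fun u : ℝ => Real.exp (-(u ^ 2))) x s
    rw [h]
    simp only [mul_zero, zero_add, mul_one]
    unfold EE
    rw [← intervalIntegral.integral_add_adjacent_intervals (exp_sq_int 0 0 s)
      (exp_sq_int 0 s (s + x)), add_comm x s]
    ring
  rw [h1]
  have h2 : Real.exp (-(s ^ 2)) * Q (2 * s * x) (x ^ 2) ≤
      Real.exp (x ^ 2) * ∫ v in (0 : ℝ)..1, Real.exp (-((x * v + s) ^ 2)) := by
    unfold Q
    rw [← intervalIntegral.integral_const_mul, ← intervalIntegral.integral_const_mul]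
    apply intervalIntegral.integral_mono_on zero_le_one
    · exact Continuous.intervalIntegrable (by fun_prop) _ _
    · exact Continuous.intervalIntegrable (by fun_prop) _ _
    · intro v hv
      have e1 : Real.exp (x ^ 2) * Real.exp (-((x * v + s) ^ 2)) =
          Real.exp (-(s ^ 2)) * (Real.exp (x ^ 2 * (1 - v ^ 2)) * Real.exp (-(2 * s * x * v))) := by
        rw [← Real.exp_add, ← Real.exp_add, ← Real.exp_add]
        congr 1
        ring
      rw [e1]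
      apply mul_le_mul_of_nonneg_left _ (Real.exp_pos _).le
      apply mul_le_mul_of_nonneg_right _ (Real.exp_pos _).le
      have := Real.add_one_le_exp (x ^ 2 * (1 - v ^ 2))
      linarith
  calc Real.exp (-(s ^ 2)) * (x * Q (2 * s * x) (x ^ 2))
      = x * (Real.exp (-(s ^ 2)) * Q (2 * s * x) (x ^ 2)) := by ring
    _ ≤ x * (Real.exp (x ^ 2) * ∫ v in (0 : ℝ)..1, Real.exp (-((x * v + s) ^ 2))) :=
        mul_le_mul_of_nonneg_left h2 hx
    _ = _ := by ring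

/-- polynomial lower bound of `Q` -/
def EQ (z X : ℚ) : ℚ :=
  (1 - z / 2 + z ^ 2 / 6 - z ^ 3 / 24 + z ^ 4 / 120 - z ^ 5 / 720 + z ^ 6 / 5040 - z ^ 7 / 40320) +
  2 * X * (1 / 3 - z / 8 + z ^ 2 / 30 - z ^ 3 / 144 + z ^ 4 / 840 - z ^ 5 / 5760 + z ^ 6 / 45360 -
    z ^ 7 / 403200)

theorem Q_poly (z X : ℝ) : ∫ v in (0 : ℝ)..1, (1 + X * (1 - v ^ 2)) * ps 8 (z * v) =
    (1 - z / 2 + z ^ 2 / 6 - z ^ 3 / 24 + z ^ 4 / 120 - z ^ 5 / 720 + z ^ 6 / 5040 - z ^ 7 / 40320) +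
    2 * X * (1 / 3 - z / 8 + z ^ 2 / 30 - z ^ 3 / 144 + z ^ 4 / 840 - z ^ 5 / 5760 + z ^ 6 / 45360 -
    z ^ 7 / 403200) := by
  have h2 : ∀ v : ℝ, (1 + X * (1 - v ^ 2)) * ps 8 (z * v) =
      ∑ k ∈ Finset.range 10, ((fun k : ℕ =>
        (if k < 8 then (1 + X) * ((-z) ^ k / (k.factorial : ℝ)) else 0) +
        (if 2 ≤ k then (-X) * ((-z) ^ (k - 2) / ((k - 2).factorial : ℝ)) else 0)) k) * v ^ k := by
    intro v
    simp [Finset.sum_range_succ, ps, Nat.factorial]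
    ring
  simp only [h2]
  rw [int_poly]
  simp [Finset.sum_range_succ, Nat.factorial]
  ring

theorem Q_ge {z X : ℝ} {zb X1 : ℚ} (hz : z ≤ zb) (hzb : 0 ≤ zb) (hX1 : 0 ≤ X1) (hX : (X1 : ℝ) ≤ X) :
    ((EQ zb X1 : ℚ) : ℝ) ≤ Q z X := by
  have h0 : ((EQ zb X1 : ℚ) : ℝ) = ∫ v in (0 : ℝ)..1, (1 + (X1 : ℝ) * (1 - v ^ 2)) * ps 8 ((zb : ℝ) * v) := by
    rw [Q_poly]
    unfold EQ
    push_cast
    ring
  rw [h0]
  unfold Q
  have hc : Continuous (ps 8) := by
    unfold ps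
    fun_prop
  apply intervalIntegral.integral_mono_on zero_le_one
  · exact Continuous.intervalIntegrable (by fun_prop) _ _
  · exact Continuous.intervalIntegrable (by fun_prop) _ _
  · intro v hv
    have hzb' : (0 : ℝ) ≤ zb := by exact_mod_cast hzb
    have hX1' : (0 : ℝ) ≤ X1 := by exact_mod_cast hX1
    have hv2 : 0 ≤ 1 - v ^ 2 := by nlinarith [hv.1, hv.2]
    have h1 : ps 8 ((zb : ℝ) * v) ≤ Real.exp (-(z * v)) := by
      refine (ps_le_exp (by decide) (mul_nonneg hzb' hv.1)).trans ?_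
      apply Real.exp_le_exp.mpr
      nlinarith [mul_le_mul_of_nonneg_right hz hv.1]
    have h2 : 0 ≤ (X1 : ℝ) * (1 - v ^ 2) := mul_nonneg hX1' hv2
    have h3 : (X1 : ℝ) * (1 - v ^ 2) ≤ X * (1 - v ^ 2) := mul_le_mul_of_nonneg_right hX hv2
    calc (1 + (X1 : ℝ) * (1 - v ^ 2)) * ps 8 ((zb : ℝ) * v)
        ≤ (1 + (X1 : ℝ) * (1 - v ^ 2)) * Real.exp (-(z * v)) :=
          mul_le_mul_of_nonneg_left h1 (by linarith)
      _ ≤ _ := mul_le_mul_of_nonneg_right (by linarith) (Real.exp_pos _).le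

/-- lower bound for the exponential -/
def Tq (w : ℚ) : ℚ :=
  1 + w * (1 + w / 2 * (1 + w / 3 * (1 + w / 4 * (1 + w / 5 * (1 + w / 6 * (1 + w / 7 * (1 + w / 8 *
    (1 + w / 9 * (1 + w / 10 * (1 + w / 11 * (1 + w / 12)))))))))))

theorem Tq_le {w : ℚ} {y : ℝ} (hw : 0 ≤ w) (h : (w : ℝ) ≤ y) : ((Tq w : ℚ) : ℝ) ≤ Real.exp y := by
  have hw' : (0 : ℝ) ≤ w := by exact_mod_cast hw
  refine le_trans ?_ (Real.exp_le_exp.mpr h)
  refine le_trans (le_of_eq ?_) (Real.sum_le_exp_of_nonneg hw' 13)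
  unfold Tq
  push_cast
  simp [Finset.sum_range_succ, Nat.factorial]
  ring

theorem one_le_Tq {w : ℚ} (hw : 0 ≤ w) : 1 ≤ Tq w := by
  unfold Tq
  have : 0 ≤ w * (1 + w / 2 * (1 + w / 3 * (1 + w / 4 * (1 + w / 5 * (1 + w / 6 * (1 + w / 7 * (1 + w / 8 *
    (1 + w / 9 * (1 + w / 10 * (1 + w / 11 * (1 + w / 12))))))))))) := by positivity
  linarith


/-- the main reduction -/
theorem core {s x κ : ℝ} (hs : 0 ≤ s) (hx : 0 ≤ x) (hκ : 0 ≤ κ) :
    x * (EE s * (κ * x ^ 3 / 2 - (2 - κ) * x) +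
      Real.exp (-(s ^ 2)) * (κ * Q (2 * s * x) (x ^ 2) - 1)) ≤
    κ * (Real.exp (x ^ 2) * EE (s + x) - EE s) -
      (2 * x ^ 2 * EE s + x * Real.exp (-(s ^ 2))) := by
  have h1 := EE_diff (s := s) hx
  have h2 : 1 + x ^ 2 + (x ^ 2) ^ 2 / 2 ≤ Real.exp (x ^ 2) := Real.quadratic_le_exp_of_nonneg (sq_nonneg x)
  have h3 := EE_nonneg hs
  have h4 : (x ^ 2 + (x ^ 2) ^ 2 / 2) * EE s ≤ (Real.exp (x ^ 2) - 1) * EE s :=
    mul_le_mul_of_nonneg_right (by linarith) h3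
  have h5 : (x ^ 2 + (x ^ 2) ^ 2 / 2) * EE s + Real.exp (-(s ^ 2)) * (x * Q (2 * s * x) (x ^ 2)) ≤
      Real.exp (x ^ 2) * EE (s + x) - EE s := by linarith
  have h6 := mul_le_mul_of_nonneg_left h5 hκ
  linarith

theorem kap_q {τ : ℝ} : 2 - kapB τ ≤ 3 / 4 * kapB τ * qB τ := by
  have hq : 0 < qB τ := Real.exp_pos _
  have h1 : (0 : ℝ) < 1 + qB τ := by linarith
  set y : ℝ := 1 / Real.sqrt (1 + qB τ) with hy
  have hypos : 0 < y := by positivity
  have hy2 : y ^ 2 = 1 / (1 + qB τ) := by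
    rw [hy, div_pow, Real.sq_sqrt h1.le, one_pow]
  have hk : kapB τ = y + y ^ 2 := by
    unfold kapB
    rw [← hy, hy2]
  have hq2 : y ^ 2 * (1 + qB τ) = 1 := by
    rw [hy2]
    field_simp
  rw [hk]
  have h3 : y * (2 - (y + y ^ 2)) ≤ y * (3 / 4 * (y + y ^ 2) * qB τ) := by
    have h4 : y * (3 / 4 * (y + y ^ 2) * qB τ) = 3 / 4 * (1 + y) * (1 - y ^ 2) := by
      have : y ^ 2 * qB τ = 1 - y ^ 2 := by linarith
      calc y * (3 / 4 * (y + y ^ 2) * qB τ) = 3 / 4 * (1 + y) * (y ^ 2 * qB τ) := by ring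
        _ = _ := by rw [this]
    rw [h4]
    nlinarith [mul_nonneg (sq_nonneg (y - 1)) (by linarith : (0:ℝ) ≤ y + 3)]
  exact le_of_mul_le_mul_left h3 hypos

theorem kap_pos {τ : ℝ} : 0 < kapB τ := by
  unfold kapB
  have hq : 0 < qB τ := Real.exp_pos _
  positivity

/-- first criterion -/
theorem fin1 {s x κ : ℝ} (hs : 0 ≤ s) (hx : 0 ≤ x) (hκ : 0 ≤ κ) (hb : 2 - κ ≤ κ * x ^ 2 / 2)
    (hQ : 1 ≤ κ * Q (2 * s * x) (x ^ 2)) :
    2 * x ^ 2 * EE s + x * Real.exp (-(s ^ 2)) ≤ κ * (Real.exp (x ^ 2) * EE (s + x) - EE s) := by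
  have h := core hs hx hκ
  have h1 : 0 ≤ EE s * (κ * x ^ 3 / 2 - (2 - κ) * x) := by
    apply mul_nonneg (EE_nonneg hs)
    have := mul_le_mul_of_nonneg_right hb hx
    nlinarith
  have h2 : 0 ≤ Real.exp (-(s ^ 2)) * (κ * Q (2 * s * x) (x ^ 2) - 1) :=
    mul_nonneg (Real.exp_pos _).le (by linarith)
  have h3 := mul_nonneg hx (add_nonneg h1 h2)
  linarith

/-- second criterion -/
theorem fin2 {s x : ℝ} (hs : 0 ≤ s) (hx : 0 ≤ x)
    (hQ : 1 ≤ kapB (s + x) * (Q (2 * s * x) (x ^ 2) -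
      35356 / 100000 * EE s * Real.exp (-(2 * s * x + x ^ 2)))) :
    2 * x ^ 2 * EE s + x * Real.exp (-(s ^ 2)) ≤
      kapB (s + x) * (Real.exp (x ^ 2) * EE (s + x) - EE s) := by
  set κ := kapB (s + x) with hκdef
  have hκ : 0 < κ := kap_pos
  have h := core hs hx hκ.le
  set T : ℝ := Real.exp (-((s + x) ^ 2 / 3)) with hT
  have hTpos : 0 < T := Real.exp_pos _
  have hq : qB (s + x) = T ^ 2 := by
    rw [hT, ← Real.exp_nat_mul]
    unfold qB
    congr 1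
    push_cast
    ring
  have hT3 : T ^ 3 = Real.exp (-(s ^ 2)) * Real.exp (-(2 * s * x + x ^ 2)) := by
    rw [hT, ← Real.exp_nat_mul, ← Real.exp_add]
    congr 1
    push_cast
    ring
  have hk := kap_q (τ := s + x)
  rw [← hκdef, hq] at hk
  -- AM-GM
  have h1 : -(κ * (35356 / 100000) * T ^ 3) ≤ κ * x ^ 3 / 2 - (2 - κ) * x := by
    have h2 : (2 - κ) * x ≤ 3 / 4 * κ * T ^ 2 * x := mul_le_mul_of_nonneg_right hk hx
    have h3 : 3 / 4 * T ^ 2 * x ≤ x ^ 3 / 2 + 35356 / 100000 * T ^ 3 := by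
      have h4 : 0 ≤ (x - 70711 / 100000 * T) ^ 2 * (x + 2 * (70711 / 100000 * T)) := by positivity
      have h5 : 0 ≤ T ^ 2 * x := by positivity
      have h6 : 0 ≤ T ^ 3 := by positivity
      nlinarith
    have h4 := mul_le_mul_of_nonneg_left h3 hκ.le
    linarith
  have h2 : -(EE s * (κ * (35356 / 100000) * T ^ 3)) ≤ EE s * (κ * x ^ 3 / 2 - (2 - κ) * x) := by
    have := mul_le_mul_of_nonneg_left h1 (EE_nonneg hs)
    linarith
  have h3 : 0 ≤ EE s * (κ * x ^ 3 / 2 - (2 - κ) * x) +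
      Real.exp (-(s ^ 2)) * (κ * Q (2 * s * x) (x ^ 2) - 1) := by
    have h4 : 0 ≤ Real.exp (-(s ^ 2)) * (κ * (Q (2 * s * x) (x ^ 2) -
      35356 / 100000 * EE s * Real.exp (-(2 * s * x + x ^ 2))) - 1) :=
      mul_nonneg (Real.exp_pos _).le (by linarith)
    rw [hT3] at h2
    nlinarith
  have h4 := mul_nonneg hx h3
  linarith

theorem kap_ge {τ : ℝ} {t1 r : ℚ} (h0 : 0 ≤ t1) (h1 : (t1 : ℝ) ≤ τ) (hr : 0 ≤ r)
    (hc : r ^ 2 * (1 + 1 / Tq (2 * t1 ^ 2 / 3)) ≤ 1) : ((r + r ^ 2 : ℚ) : ℝ) ≤ kapB τ := by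
  have h0' : (0 : ℝ) ≤ t1 := by exact_mod_cast h0
  have hr' : (0 : ℝ) ≤ r := by exact_mod_cast hr
  have hw : 0 ≤ 2 * t1 ^ 2 / 3 := by positivity
  have hT1 : 1 ≤ Tq (2 * t1 ^ 2 / 3) := one_le_Tq hw
  have hT : ((Tq (2 * t1 ^ 2 / 3) : ℚ) : ℝ) ≤ Real.exp (2 * τ ^ 2 / 3) := by
    apply Tq_le hw
    push_cast
    have := mul_self_le_mul_self h0' h1
    nlinarith
  have hTpos : (0 : ℝ) < ((Tq (2 * t1 ^ 2 / 3) : ℚ) : ℝ) := by
    have : (0 : ℚ) < Tq (2 * t1 ^ 2 / 3) := by linarith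
    exact_mod_cast this
  have hq : qB τ ≤ 1 / ((Tq (2 * t1 ^ 2 / 3) : ℚ) : ℝ) := by
    have : qB τ = 1 / Real.exp (2 * τ ^ 2 / 3) := by
      unfold qB
      rw [one_div, ← Real.exp_neg]
      congr 1
      ring
    rw [this]
    exact one_div_le_one_div_of_le hTpos hT
  have hqpos : 0 < qB τ := Real.exp_pos _
  have hc' : (r : ℝ) ^ 2 * (1 + 1 / ((Tq (2 * t1 ^ 2 / 3) : ℚ) : ℝ)) ≤ 1 := by
    have := (Rat.cast_le (K := ℝ)).mpr hc
    push_cast at this ⊢
    exact this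
  have h2 : (r : ℝ) ^ 2 * (1 + qB τ) ≤ 1 :=
    (mul_le_mul_of_nonneg_left (by linarith) (sq_nonneg _)).trans hc'
  have h3 : (r : ℝ) ≤ 1 / Real.sqrt (1 + qB τ) := by
    rw [le_div_iff₀ (by positivity)]
    have h4 : ((r : ℝ) * Real.sqrt (1 + qB τ)) ^ 2 ≤ 1 ^ 2 := by
      rw [mul_pow, Real.sq_sqrt (by linarith)]
      linarith
    exact (pow_le_pow_iff_left₀ (by positivity) zero_le_one two_ne_zero).mp h4
  have h5 : (r : ℝ) ^ 2 ≤ 1 / (1 + qB τ) := by
    rw [le_div_iff₀ (by linarith)]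
    exact h2
  unfold kapB
  push_cast
  linarith


def EEupq (s : ℚ) : ℚ := s - s ^ 3 / 3 + s ^ 5 / 10 - s ^ 7 / 42 + s ^ 9 / 216

def zbar (t2 x1 x2 : ℚ) : ℚ :=
  if x2 ≤ t2 / 2 then 2 * x2 * (t2 - x2) else if t2 / 2 ≤ x1 then 2 * x1 * (t2 - x1) else t2 ^ 2 / 2

def wlow (t1 x1 : ℚ) : ℚ := if x1 ≤ t1 then 2 * t1 * x1 - x1 ^ 2 else x1 ^ 2

def cellOK (t1 t2 k x1 x2 : ℚ) : Bool :=
  decide (0 ≤ zbar t2 x1 x2) &&
  (if 2 - k ≤ k * x1 ^ 2 / 2 then decide (1 ≤ k * EQ (zbar t2 x1 x2) (x1 ^ 2))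
  else decide (1 ≤ k * (EQ (zbar t2 x1 x2) (x1 ^ 2) -
    35356 / 100000 * min (EEupq (t2 - x1)) (8863 / 10000) / Tq (wlow t1 x1))))

theorem zbar_ge {t2 x1 x2 : ℚ} {τ x : ℝ} (hτ2 : τ ≤ t2) (hx1 : (x1 : ℝ) ≤ x)
    (hx2 : x ≤ x2) (hx0 : 0 ≤ x) : 2 * (τ - x) * x ≤ zbar t2 x1 x2 := by
  have h1 : 2 * (τ - x) * x ≤ 2 * (t2 - x) * x := by
    have := mul_le_mul_of_nonneg_right hτ2 hx0
    linarith
  refine h1.trans ?_
  unfold zbar
  split_ifs with h h'
  · have h2 : (x2 : ℝ) ≤ t2 / 2 := by exact_mod_cast (Rat.cast_le (K := ℝ)).mpr h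
    push_cast
    nlinarith [mul_nonneg (sub_nonneg.mpr hx2) (by linarith : (0 : ℝ) ≤ t2 - x - x2)]
  · have h2 : (t2 : ℝ) / 2 ≤ x1 := by exact_mod_cast (Rat.cast_le (K := ℝ)).mpr h'
    push_cast
    nlinarith [mul_nonneg (sub_nonneg.mpr hx1) (by linarith : (0 : ℝ) ≤ x + x1 - t2)]
  · push_cast
    nlinarith [sq_nonneg (x - t2 / 2)]

theorem wlow_nonneg {t1 x1 : ℚ} (h0 : 0 ≤ t1) (hx1 : 0 ≤ x1) : 0 ≤ wlow t1 x1 := by
  unfold wlow
  split_ifs with h
  · nlinarith [mul_nonneg hx1 (by linarith : 0 ≤ 2 * t1 - x1)]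
  · positivity

theorem wlow_le {t1 x1 : ℚ} {τ x : ℝ} (hτ1 : (t1 : ℝ) ≤ τ) (h0 : 0 ≤ x1)
    (hx1 : (x1 : ℝ) ≤ x) (hxτ : x ≤ τ) : (wlow t1 x1 : ℝ) ≤ 2 * (τ - x) * x + x ^ 2 := by
  have h0' : (0 : ℝ) ≤ x1 := by exact_mod_cast h0
  unfold wlow
  split_ifs with h
  · push_cast
    nlinarith [mul_nonneg (sub_nonneg.mpr hx1) (by linarith : (0 : ℝ) ≤ 2 * τ - x - x1),
      mul_le_mul_of_nonneg_right hτ1 h0']
  · push_cast
    nlinarith [mul_nonneg (sub_nonneg.mpr hxτ) (h0'.trans hx1), mul_self_le_mul_self h0' hx1]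

theorem cell_spec {t1 t2 r x1 x2 : ℚ} {τ x : ℝ} (h0 : 0 ≤ t1) (hr : 0 ≤ r)
    (hc : r ^ 2 * (1 + 1 / Tq (2 * t1 ^ 2 / 3)) ≤ 1)
    (hcell : cellOK t1 t2 (r + r ^ 2) x1 x2 = true)
    (hτ1 : (t1 : ℝ) ≤ τ) (hτ2 : τ ≤ t2) (h1 : 0 ≤ x1) (hx1 : (x1 : ℝ) ≤ x) (hx2 : x ≤ x2)
    (hxτ : x ≤ τ) :
    2 * x ^ 2 * EE (τ - x) + x * Real.exp (-((τ - x) ^ 2)) ≤
      kapB τ * (Real.exp (x ^ 2) * EE τ - EE (τ - x)) := by
  have h1' : (0 : ℝ) ≤ x1 := by exact_mod_cast h1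
  have hx0 : 0 ≤ x := h1'.trans hx1
  have hs : 0 ≤ τ - x := by linarith
  have hk := kap_ge h0 hτ1 hr hc
  have hk0 : (0 : ℝ) ≤ ((r + r ^ 2 : ℚ) : ℝ) := by
    have : 0 ≤ r + r ^ 2 := by positivity
    exact_mod_cast this
  have hκ : 0 < kapB τ := kap_pos
  have hz := zbar_ge hτ2 hx1 hx2 hx0
  unfold cellOK at hcell
  rw [Bool.and_eq_true, decide_eq_true_eq] at hcell
  obtain ⟨hzb, hcell⟩ := hcell
  have hX : (((x1 ^ 2 : ℚ)) : ℝ) ≤ x ^ 2 := by
    push_cast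
    nlinarith [mul_self_le_mul_self h1' hx1]
  have hQ := Q_ge (X := x ^ 2) hz hzb (sq_nonneg x1) hX
  have hsum : (τ - x) + x = τ := by ring
  split_ifs at hcell with hb
  · rw [decide_eq_true_eq] at hcell
    have hcell' : (1 : ℝ) ≤ ((r + r ^ 2 : ℚ) : ℝ) * ((EQ (zbar t2 x1 x2) (x1 ^ 2) : ℚ) : ℝ) := by
      exact_mod_cast hcell
    have hb' : (2 : ℝ) - ((r + r ^ 2 : ℚ) : ℝ) ≤ ((r + r ^ 2 : ℚ) : ℝ) * (x1 : ℝ) ^ 2 / 2 := by
      exact_mod_cast hb
    have hQpos : 0 ≤ Q (2 * (τ - x) * x) (x ^ 2) := by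
      refine le_trans ?_ hQ
      by_contra hneg
      push Not at hneg
      have := mul_nonpos_of_nonneg_of_nonpos hk0 hneg.le
      linarith
    have h := fin1 (s := τ - x) (x := x) (κ := kapB τ) hs hx0 hκ.le ?_ ?_
    · rw [hsum] at h
      exact h
    · have e1 : ((r + r ^ 2 : ℚ) : ℝ) * (x1 : ℝ) ^ 2 ≤ kapB τ * x ^ 2 := by
        apply mul_le_mul hk _ (by positivity) hκ.le
        nlinarith [mul_self_le_mul_self h1' hx1]
      linarith
    · calc (1 : ℝ) ≤ ((r + r ^ 2 : ℚ) : ℝ) * ((EQ (zbar t2 x1 x2) (x1 ^ 2) : ℚ) : ℝ) := hcell'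
        _ ≤ ((r + r ^ 2 : ℚ) : ℝ) * Q (2 * (τ - x) * x) (x ^ 2) := mul_le_mul_of_nonneg_left hQ hk0
        _ ≤ _ := mul_le_mul_of_nonneg_right hk hQpos
  · rw [decide_eq_true_eq] at hcell
    have hw0 := wlow_nonneg h0 h1
    have hw := wlow_le hτ1 h1 hx1 hxτ
    have hT := Tq_le hw0 hw
    have hT1 : (1 : ℝ) ≤ ((Tq (wlow t1 x1) : ℚ) : ℝ) := by exact_mod_cast one_le_Tq hw0
    have hE : EE (τ - x) ≤ ((min (EEupq (t2 - x1)) (8863 / 10000) : ℚ) : ℝ) := by
      push_cast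
      apply le_min
      · have hs2 : (0 : ℝ) ≤ (t2 : ℝ) - x1 := by linarith
        refine (EE_mono (by linarith : τ - x ≤ (t2 : ℝ) - x1)).trans ((EE_le_poly hs2).trans ?_)
        unfold EEup EEupq
        push_cast
        exact le_rfl
      · exact EE_le_const hs
    have hexp : Real.exp (-(2 * (τ - x) * x + x ^ 2)) ≤ 1 / ((Tq (wlow t1 x1) : ℚ) : ℝ) := by
      rw [Real.exp_neg, ← one_div]
      exact one_div_le_one_div_of_le (by linarith) hT
    have hE0 := EE_nonneg hs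
    have hprod : 35356 / 100000 * EE (τ - x) * Real.exp (-(2 * (τ - x) * x + x ^ 2)) ≤
        35356 / 100000 * ((min (EEupq (t2 - x1)) (8863 / 10000) : ℚ) : ℝ) /
          ((Tq (wlow t1 x1) : ℚ) : ℝ) := by
      have := mul_le_mul hE hexp (Real.exp_pos _).le (hE0.trans hE)
      calc 35356 / 100000 * EE (τ - x) * Real.exp (-(2 * (τ - x) * x + x ^ 2))
          = 35356 / 100000 * (EE (τ - x) * Real.exp (-(2 * (τ - x) * x + x ^ 2))) := by ring
        _ ≤ 35356 / 100000 * (((min (EEupq (t2 - x1)) (8863 / 10000) : ℚ) : ℝ) *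
          (1 / ((Tq (wlow t1 x1) : ℚ) : ℝ))) := mul_le_mul_of_nonneg_left this (by norm_num)
        _ = _ := by ring
    have hcell' : (1 : ℝ) ≤ ((r + r ^ 2 : ℚ) : ℝ) * (((EQ (zbar t2 x1 x2) (x1 ^ 2) : ℚ) : ℝ) -
        35356 / 100000 * ((min (EEupq (t2 - x1)) (8863 / 10000) : ℚ) : ℝ) /
          ((Tq (wlow t1 x1) : ℚ) : ℝ)) := by
      have h9 := (Rat.cast_le (K := ℝ)).mpr hcell
      push_cast at h9 ⊢
      exact h9
    set U := ((EQ (zbar t2 x1 x2) (x1 ^ 2) : ℚ) : ℝ) -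
        35356 / 100000 * ((min (EEupq (t2 - x1)) (8863 / 10000) : ℚ) : ℝ) /
          ((Tq (wlow t1 x1) : ℚ) : ℝ) with hU
    have hUpos : 0 ≤ U := by
      by_contra hneg
      push Not at hneg
      have := mul_nonpos_of_nonneg_of_nonpos hk0 hneg.le
      linarith
    have hUle : U ≤ Q (2 * (τ - x) * x) (x ^ 2) -
        35356 / 100000 * EE (τ - x) * Real.exp (-(2 * (τ - x) * x + x ^ 2)) := by
      rw [hU]
      linarith
    have h := fin2 (s := τ - x) (x := x) hs hx0 ?_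
    · rw [hsum] at h
      exact h
    · rw [hsum]
      calc (1 : ℝ) ≤ ((r + r ^ 2 : ℚ) : ℝ) * U := hcell'
        _ ≤ kapB τ * U := mul_le_mul_of_nonneg_right hk hUpos
        _ ≤ _ := mul_le_mul_of_nonneg_left hUle hκ.le

def chainOK (t1 t2 k : ℚ) : ℚ → List ℚ → Bool
  | x0, [] => decide (t2 < x0)
  | x0, x1 :: l => decide (x0 ≤ x1) && (cellOK t1 t2 k x0 x1 && chainOK t1 t2 k x1 l)

theorem chain_spec {t1 t2 r : ℚ} {τ x : ℝ} (h0 : 0 ≤ t1) (hr : 0 ≤ r)
    (hc : r ^ 2 * (1 + 1 / Tq (2 * t1 ^ 2 / 3)) ≤ 1)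
    (hτ1 : (t1 : ℝ) ≤ τ) (hτ2 : τ ≤ t2) (hxτ : x ≤ τ) :
    ∀ (l : List ℚ) (x0 : ℚ), chainOK t1 t2 (r + r ^ 2) x0 l = true → 0 ≤ x0 → (x0 : ℝ) ≤ x →
    2 * x ^ 2 * EE (τ - x) + x * Real.exp (-((τ - x) ^ 2)) ≤
      kapB τ * (Real.exp (x ^ 2) * EE τ - EE (τ - x)) := by
  intro l
  induction l with
  | nil =>
    intro x0 h h1 h2
    simp only [chainOK, decide_eq_true_eq] at h
    have : (t2 : ℝ) < x0 := by exact_mod_cast h
    linarith
  | cons x1 l ih =>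
    intro x0 h h1 h2
    simp only [chainOK, Bool.and_eq_true, decide_eq_true_eq] at h
    obtain ⟨ha, hb, hd⟩ := h
    rcases le_total x (x1 : ℝ) with h3 | h3
    · exact cell_spec h0 hr hc hb hτ1 hτ2 h1 h2 h3 hxτ
    · exact ih x1 hd (h1.trans ha) h3

def tab : List (ℚ × ℚ × ℚ × List ℚ) := [
  (31/50, 7/10, 1877/2500, [1/25, 3/40, 11/100, 4/25, 11/40, 18/25]),
  (7/10, 39/50, 7621/10000, [7/200, 3/50, 17/200, 11/100, 27/200, 17/100, 23/100, 73/100, 4/5]),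
  (39/50, 43/50, 3873/5000, [7/200, 3/50, 2/25, 1/10, 3/25, 7/50, 33/200, 1/5, 13/50, 19/25, 22/25]),
  (43/50, 47/50, 7879/10000, [7/200, 3/50, 2/25, 1/10, 3/25, 27/200, 31/200, 7/40, 1/5, 6/25, 63/200, 163/200, 24/25]),
  (47/50, 51/50, 8019/10000, [1/25, 7/100, 19/200, 23/200, 27/200, 31/200, 7/40, 1/5, 23/100, 11/40, 3/8, 7/8, 26/25]),
  (51/50, 11/10, 1633/2000, [9/200, 2/25, 11/100, 27/200, 31/200, 7/40, 1/5, 23/100, 27/100, 67/200, 167/200, 28/25]),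
  (11/10, 6/5, 1663/2000, [1/20, 17/200, 23/200, 7/50, 4/25, 9/50, 1/5, 11/50, 49/200, 11/40, 63/200, 39/100, 89/100, 61/50]),
  (6/5, 13/10, 8503/10000, [11/200, 19/200, 13/100, 4/25, 37/200, 21/100, 47/200, 53/200, 3/10, 7/20, 9/20, 19/20, 33/25]),
  (13/10, 7/5, 869/1000, [3/50, 21/200, 29/200, 9/50, 21/100, 6/25, 11/40, 63/200, 37/100, 47/100, 97/100, 71/50]),
  (7/5, 3/2, 8871/10000, [13/200, 23/200, 31/200, 19/100, 9/40, 13/50, 3/10, 69/200, 41/100, 27/50, 26/25, 38/25]),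
  (3/2, 8/5, 9041/10000, [7/100, 1/8, 17/100, 21/100, 49/200, 7/25, 8/25, 37/100, 11/25, 23/40, 43/40, 63/40, 81/50]),
  (8/5, 17/10, 23/25, [2/25, 7/50, 19/100, 23/100, 53/200, 3/10, 17/50, 39/100, 91/200, 23/40, 43/40, 63/40, 43/25]),
  (17/10, 9/5, 4671/5000, [17/200, 3/20, 41/200, 1/4, 29/100, 13/40, 73/200, 41/100, 47/100, 97/100, 147/100, 91/50]),
  (9/5, 19/10, 2367/2500, [17/200, 31/200, 21/100, 51/200, 59/200, 33/100, 73/200, 2/5, 11/25, 4/5, 13/10, 9/5, 48/25]),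
  (19/10, 2, 9577/10000, [17/200, 31/200, 21/100, 51/200, 59/200, 33/100, 9/25, 39/100, 63/100, 113/100, 163/100, 101/50]),
  (2, 21/10, 9669/10000, [17/200, 31/200, 21/100, 51/200, 29/100, 8/25, 69/200, 109/200, 31/40, 51/40, 71/40, 53/25]),
  (21/10, 11/5, 1949/2000, [17/200, 31/200, 21/100, 1/4, 57/200, 12/25, 31/50, 41/50, 33/25, 91/50, 111/50]),
  (11/5, 23/10, 9807/10000, [17/200, 31/200, 21/100, 1/4, 11/25, 109/200, 127/200, 151/200, 251/200, 351/200, 451/200, 58/25]),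
  (23/10, 12/5, 616/625, [17/200, 3/20, 1/5, 6/25, 83/200, 99/200, 11/20, 119/200, 16/25, 69/100, 19/25, 177/200, 277/200, 377/200, 477/200, 121/50])]

def rowOK (p : ℚ × ℚ × ℚ × List ℚ) : Bool :=
  decide (0 ≤ p.1) && (decide (0 ≤ p.2.2.1) &&
    (decide (p.2.2.1 ^ 2 * (1 + 1 / Tq (2 * p.1 ^ 2 / 3)) ≤ 1) &&
      chainOK p.1 p.2.1 (p.2.2.1 + p.2.2.1 ^ 2) 0 p.2.2.2))

theorem tab_ok : ∀ p ∈ tab, rowOK p = true := by
  decide +kernel


theorem small_tau {τ x : ℝ} (hτ : (62 / 100 : ℝ) ≤ τ) (hτ' : τ ≤ 24 / 10) (hx0 : 0 ≤ x) (hxτ : x ≤ τ) :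
    2 * x ^ 2 * EE (τ - x) + x * Real.exp (-((τ - x) ^ 2)) ≤
      kapB τ * (Real.exp (x ^ 2) * EE τ - EE (τ - x)) := by
  have key : ∀ p ∈ tab, ((p.1 : ℚ) : ℝ) ≤ τ → τ ≤ ((p.2.1 : ℚ) : ℝ) →
      2 * x ^ 2 * EE (τ - x) + x * Real.exp (-((τ - x) ^ 2)) ≤
      kapB τ * (Real.exp (x ^ 2) * EE τ - EE (τ - x)) := by
    intro p hp h1 h2
    have h := tab_ok p hp
    simp only [rowOK, Bool.and_eq_true, decide_eq_true_eq] at h
    obtain ⟨ha, hb, hc, hd⟩ := h
    exact chain_spec ha hb hc h1 h2 hxτ _ 0 hd le_rfl (by simpa using hx0)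
  have cover : ∃ p ∈ tab, ((p.1 : ℚ) : ℝ) ≤ τ ∧ τ ≤ ((p.2.1 : ℚ) : ℝ) := by
    by_contra hne
    push Not at hne
    simp only [tab, List.mem_cons, List.not_mem_nil, or_false, forall_eq_or_imp, forall_eq] at hne
    obtain ⟨a1, a2, a3, a4, a5, a6, a7, a8, a9, a10, a11, a12, a13, a14, a15, a16, a17, a18, a19⟩ := hne
    push_cast at a1 a2 a3 a4 a5 a6 a7 a8 a9 a10 a11 a12 a13 a14 a15 a16 a17 a18 a19
    have b1 := a1 (by linarith)
    have b2 := a2 (by linarith)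
    have b3 := a3 (by linarith)
    have b4 := a4 (by linarith)
    have b5 := a5 (by linarith)
    have b6 := a6 (by linarith)
    have b7 := a7 (by linarith)
    have b8 := a8 (by linarith)
    have b9 := a9 (by linarith)
    have b10 := a10 (by linarith)
    have b11 := a11 (by linarith)
    have b12 := a12 (by linarith)
    have b13 := a13 (by linarith)
    have b14 := a14 (by linarith)
    have b15 := a15 (by linarith)
    have b16 := a16 (by linarith)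
    have b17 := a17 (by linarith)
    have b18 := a18 (by linarith)
    have b19 := a19 (by linarith)
    linarith
  obtain ⟨p, hp, h1, h2⟩ := cover
  exact key p hp h1 h2

/-- a cell in the variable `z = 2 s x` -/
theorem zcell {s x : ℝ} {k z1 z2 : ℚ} (hs : 0 ≤ s) (hx : 0 ≤ x) (hk0 : 0 ≤ k)
    (hk : (k : ℝ) ≤ kapB (s + x)) (h0 : 0 ≤ z1) (h1 : (z1 : ℝ) ≤ 2 * s * x) (h2 : 2 * s * x ≤ z2)
    (hc : 1 ≤ k * (EQ z2 0 - 35356 / 100000 * (8863 / 10000) / Tq z1)) :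
    2 * x ^ 2 * EE s + x * Real.exp (-(s ^ 2)) ≤
      kapB (s + x) * (Real.exp (x ^ 2) * EE (s + x) - EE s) := by
  have h0' : (0 : ℝ) ≤ z1 := by exact_mod_cast h0
  have hk0' : (0 : ℝ) ≤ k := by exact_mod_cast hk0
  have hz2 : (0 : ℚ) ≤ z2 := by
    have : (z1 : ℝ) ≤ z2 := h1.trans h2
    have : z1 ≤ z2 := by exact_mod_cast this
    linarith
  have hQ := Q_ge (z := 2 * s * x) (X := x ^ 2) (X1 := 0) h2 hz2 le_rfl (by simpa using sq_nonneg x)
  have hT := Tq_le h0 (by nlinarith [sq_nonneg x] : (z1 : ℝ) ≤ 2 * s * x + x ^ 2)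
  have hT1 : (1 : ℝ) ≤ ((Tq z1 : ℚ) : ℝ) := by exact_mod_cast one_le_Tq h0
  have hexp : Real.exp (-(2 * s * x + x ^ 2)) ≤ 1 / ((Tq z1 : ℚ) : ℝ) := by
    rw [Real.exp_neg, ← one_div]
    exact one_div_le_one_div_of_le (by linarith) hT
  have hE0 := EE_nonneg hs
  have hE := EE_le_const hs
  have hprod := mul_le_mul hE hexp (Real.exp_pos _).le (by norm_num)
  have hc' : (1 : ℝ) ≤ (k : ℝ) * (((EQ z2 0 : ℚ) : ℝ) -
      35356 / 100000 * (8863 / 10000) / ((Tq z1 : ℚ) : ℝ)) := by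
    have h9 := (Rat.cast_le (K := ℝ)).mpr hc
    push_cast at h9 ⊢
    exact h9
  set U := ((EQ z2 0 : ℚ) : ℝ) - 35356 / 100000 * (8863 / 10000) / ((Tq z1 : ℚ) : ℝ) with hU
  have hUpos : 0 ≤ U := by
    by_contra hneg
    push Not at hneg
    have := mul_nonpos_of_nonneg_of_nonpos hk0' hneg.le
    linarith
  have hUle : U ≤ Q (2 * s * x) (x ^ 2) -
      35356 / 100000 * EE s * Real.exp (-(2 * s * x + x ^ 2)) := by
    rw [hU]
    have : 35356 / 100000 * EE s * Real.exp (-(2 * s * x + x ^ 2)) ≤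
        35356 / 100000 * (8863 / 10000) / ((Tq z1 : ℚ) : ℝ) := by
      calc 35356 / 100000 * EE s * Real.exp (-(2 * s * x + x ^ 2))
          = 35356 / 100000 * (EE s * Real.exp (-(2 * s * x + x ^ 2))) := by ring
        _ ≤ 35356 / 100000 * (8863 / 10000 * (1 / ((Tq z1 : ℚ) : ℝ))) :=
            mul_le_mul_of_nonneg_left hprod (by norm_num)
        _ = _ := by ring
    linarith
  apply fin2 hs hx
  calc (1 : ℝ) ≤ (k : ℝ) * U := hc'
    _ ≤ kapB (s + x) * U := mul_le_mul_of_nonneg_right hk hUpos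
    _ ≤ _ := mul_le_mul_of_nonneg_left hUle kap_pos.le

theorem big_exp {s x : ℝ} (hs : 14 / 10 ≤ s) (hz : 3 / 2 ≤ 2 * s * x) (hsum : 24 / 10 ≤ s + x)
    (hx0 : 0 ≤ x) : 19 / 10 ≤ Real.exp (s ^ 2) * x ^ 3 := by
  have pw : ∀ (a b : ℚ), 0 ≤ a → (a : ℝ) ≤ s → s ≤ (b : ℝ) → b ≤ 24 / 10 →
      19 / 10 ≤ Tq (a ^ 2) * (24 / 10 - b) ^ 3 → 19 / 10 ≤ Real.exp (s ^ 2) * x ^ 3 := by
    intro a b ha h1 h2 hb h3
    have ha' : (0 : ℝ) ≤ a := by exact_mod_cast ha
    have hb' : (b : ℝ) ≤ 24 / 10 := by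
      have h9 := (Rat.cast_le (K := ℝ)).mpr hb
      push_cast at h9
      exact h9
    have hT : ((Tq (a ^ 2) : ℚ) : ℝ) ≤ Real.exp (s ^ 2) := by
      apply Tq_le (sq_nonneg a)
      push_cast
      nlinarith
    have hT1 : (1 : ℝ) ≤ ((Tq (a ^ 2) : ℚ) : ℝ) := by exact_mod_cast one_le_Tq (sq_nonneg a)
    have hx : (24 / 10 - (b : ℝ)) ≤ x := by linarith
    have hx3 : (24 / 10 - (b : ℝ)) ^ 3 ≤ x ^ 3 := pow_le_pow_left₀ (by linarith) hx 3
    have h3' : (19 / 10 : ℝ) ≤ ((Tq (a ^ 2) : ℚ) : ℝ) * (24 / 10 - (b : ℝ)) ^ 3 := by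
      have h9 := (Rat.cast_le (K := ℝ)).mpr h3
      push_cast at h9 ⊢
      exact h9
    refine h3'.trans (mul_le_mul hT hx3 ?_ (Real.exp_pos _).le)
    exact pow_nonneg (by linarith) 3
  rcases le_total s (19 / 10) with h | h
  · rcases le_total s (16 / 10) with h1 | h1
    · exact pw (14 / 10) (16 / 10) (by norm_num) (by push_cast; linarith) (by push_cast; linarith)
        (by norm_num) (by decide +kernel)
    · rcases le_total s (18 / 10) with h2 | h2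
      · exact pw (16 / 10) (18 / 10) (by norm_num) (by push_cast; linarith) (by push_cast; linarith)
          (by norm_num) (by decide +kernel)
      · exact pw (18 / 10) (19 / 10) (by norm_num) (by push_cast; linarith) (by push_cast; linarith)
          (by norm_num) (by decide +kernel)
  · have hs0 : 0 < s := by linarith
    -- e^{s²} ≥ 36.9 (s/1.9)^3
    have h1 : ((Tq (361 / 100) : ℚ) : ℝ) ≤ Real.exp (361 / 100) := Tq_le (by norm_num) (by norm_num)
    have h1' : (369 / 10 : ℝ) ≤ ((Tq (361 / 100) : ℚ) : ℝ) := by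
      have h9 : (369 / 10 : ℚ) ≤ Tq (361 / 100) := by decide +kernel
      have h8 := (Rat.cast_le (K := ℝ)).mpr h9
      push_cast at h8 ⊢
      exact h8
    have h2 : s / (19 / 10) ≤ Real.exp (s / (19 / 10) - 1) := by
      have := Real.add_one_le_exp (s / (19 / 10) - 1)
      linarith
    have h3 : (s / (19 / 10)) ^ 3 ≤ Real.exp (s / (19 / 10) - 1) ^ 3 :=
      pow_le_pow_left₀ (by positivity) h2 3
    rw [← Real.exp_nat_mul] at h3
    have h4 : Real.exp (((3 : ℕ) : ℝ) * (s / (19 / 10) - 1)) ≤ Real.exp (s ^ 2 - 361 / 100) := by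
      apply Real.exp_le_exp.mpr
      push_cast
      nlinarith
    have h5 : Real.exp (s ^ 2) = Real.exp (361 / 100) * Real.exp (s ^ 2 - 361 / 100) := by
      rw [← Real.exp_add]
      congr 1
      ring
    have h6 : 369 / 10 * (s / (19 / 10)) ^ 3 ≤ Real.exp (s ^ 2) := by
      rw [h5]
      exact mul_le_mul (h1'.trans h1) (h3.trans h4) (by positivity) (Real.exp_pos _).le
    have h7 : (3 / 4) ^ 3 ≤ (s * x) ^ 3 := pow_le_pow_left₀ (by norm_num) (by linarith) 3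
    have h8 : 369 / 10 * (s / (19 / 10)) ^ 3 * x ^ 3 ≤ Real.exp (s ^ 2) * x ^ 3 :=
      mul_le_mul_of_nonneg_right h6 (by positivity)
    have h9 : 369 / 10 * (s / (19 / 10)) ^ 3 * x ^ 3 = 369 / 10 / (19 / 10) ^ 3 * (s * x) ^ 3 := by
      ring
    rw [h9] at h8
    norm_num at h7 h8 ⊢
    linarith

theorem large_tau {s x : ℝ} (hs : 0 ≤ s) (hx : 0 ≤ x) (hτ : (24 / 10 : ℝ) ≤ s + x) :
    2 * x ^ 2 * EE s + x * Real.exp (-(s ^ 2)) ≤
      kapB (s + x) * (Real.exp (x ^ 2) * EE (s + x) - EE s) := by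
  set τ := s + x with hτdef
  have hκ : 0 < kapB τ := kap_pos
  have hk : ((1968 / 1000 : ℚ) : ℝ) ≤ kapB τ := by
    have h := kap_ge (τ := τ) (t1 := 24 / 10) (r := 9894 / 10000) (by norm_num)
      (by push_cast; linarith) (by norm_num) (by decide +kernel)
    refine le_trans ?_ h
    norm_num
  have hk' : (1968 / 1000 : ℝ) ≤ kapB τ := by
    push_cast at hk
    exact hk
  have hkq := kap_q (τ := τ)
  set q := qB τ with hq
  have hqpos : 0 < q := Real.exp_pos _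
  have hτ2 : 576 / 100 ≤ τ ^ 2 := by nlinarith
  have hqτ : τ ^ 2 * q ≤ 1 / 8 := by
    have h1 : ((Tq (384 / 100) : ℚ) : ℝ) ≤ Real.exp (384 / 100) := Tq_le (by norm_num) (by norm_num)
    have h1' : (4608 / 100 : ℝ) ≤ ((Tq (384 / 100) : ℚ) : ℝ) := by
      have h9 : (4608 / 100 : ℚ) ≤ Tq (384 / 100) := by decide +kernel
      have h8 := (Rat.cast_le (K := ℝ)).mpr h9
      push_cast at h8 ⊢
      exact h8
    have h2 : Real.exp (2 * τ ^ 2 / 3) = Real.exp (384 / 100) * Real.exp (2 * τ ^ 2 / 3 - 384 / 100) := by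
      rw [← Real.exp_add]
      congr 1
      ring
    have h3 := Real.add_one_le_exp (2 * τ ^ 2 / 3 - 384 / 100)
    have h4 : 4608 / 100 * (2 * τ ^ 2 / 3 - 384 / 100 + 1) ≤ Real.exp (2 * τ ^ 2 / 3) := by
      rw [h2]
      exact mul_le_mul (h1'.trans h1) h3 (by linarith) (Real.exp_pos _).le
    have h5 : 8 * τ ^ 2 ≤ Real.exp (2 * τ ^ 2 / 3) := by linarith
    have h6 : q * Real.exp (2 * τ ^ 2 / 3) = 1 := by
      rw [hq]
      unfold qB
      rw [← Real.exp_add, show -(2 * τ ^ 2) / 3 + 2 * τ ^ 2 / 3 = 0 by ring, Real.exp_zero]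
    have h7 := mul_le_mul_of_nonneg_left h5 hqpos.le
    rw [h6] at h7
    linarith
  rcases lt_or_ge (x ^ 2) (3 / 2 * q) with hxq | hxq
  · -- small z
    have hz : (2 * s * x) ^ 2 ≤ 3 / 4 := by
      have h1 : s ^ 2 ≤ τ ^ 2 := pow_le_pow_left₀ hs (by linarith) 2
      have h2 : s ^ 2 * x ^ 2 ≤ τ ^ 2 * (3 / 2 * q) :=
        mul_le_mul h1 hxq.le (sq_nonneg x) (sq_nonneg τ)
      nlinarith
    have hz2 : 2 * s * x ≤ 8661 / 10000 := by
      by_contra hne
      push Not at hne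
      nlinarith
    have hz0 : 0 ≤ 2 * s * x := by positivity
    rcases le_total (2 * s * x) (15 / 100) with h1 | h1
    · exact zcell (k := 1968 / 1000) (z1 := 0) (z2 := 15 / 100) hs hx (by norm_num) hk le_rfl
        (by push_cast; linarith) (by push_cast; linarith) (by decide +kernel)
    · rcases le_total (2 * s * x) (35 / 100) with h2 | h2
      · exact zcell (k := 1968 / 1000) (z1 := 15 / 100) (z2 := 35 / 100) hs hx (by norm_num) hk
          (by norm_num) (by push_cast; linarith) (by push_cast; linarith) (by decide +kernel)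
      · rcases le_total (2 * s * x) (60 / 100) with h3 | h3
        · exact zcell (k := 1968 / 1000) (z1 := 35 / 100) (z2 := 60 / 100) hs hx (by norm_num) hk
            (by norm_num) (by push_cast; linarith) (by push_cast; linarith) (by decide +kernel)
        · rcases le_total (2 * s * x) (80 / 100) with h4 | h4
          · exact zcell (k := 1968 / 1000) (z1 := 60 / 100) (z2 := 80 / 100) hs hx (by norm_num) hk
              (by norm_num) (by push_cast; linarith) (by push_cast; linarith) (by decide +kernel)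
          · exact zcell (k := 1968 / 1000) (z1 := 80 / 100) (z2 := 8661 / 10000) hs hx (by norm_num) hk
              (by norm_num) (by push_cast; linarith) (by push_cast; linarith) (by decide +kernel)
  · have hb : 2 - kapB τ ≤ kapB τ * x ^ 2 / 2 := by
      have := mul_le_mul_of_nonneg_left hxq hκ.le
      linarith
    rcases le_total (2 * s * x) (3 / 2) with hz | hz
    · -- kappa Q ≥ 1
      apply fin1 hs hx hκ.le hb
      have hQ := Q_ge (z := 2 * s * x) (X := x ^ 2) (X1 := 0) (zb := 3 / 2) (by push_cast; linarith)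
        (by norm_num) le_rfl (by simpa using sq_nonneg x)
      have h9 : (1 : ℚ) ≤ 1968 / 1000 * EQ (3 / 2) 0 := by decide +kernel
      have h8 : (1 : ℝ) ≤ 1968 / 1000 * ((EQ (3 / 2) 0 : ℚ) : ℝ) := by
        have h7 := (Rat.cast_le (K := ℝ)).mpr h9
        push_cast at h7 ⊢
        exact h7
      have hE : (0 : ℝ) ≤ ((EQ (3 / 2) 0 : ℚ) : ℝ) := by
        by_contra hne
        push Not at hne
        linarith
      calc (1 : ℝ) ≤ 1968 / 1000 * ((EQ (3 / 2) 0 : ℚ) : ℝ) := h8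
        _ ≤ kapB τ * ((EQ (3 / 2) 0 : ℚ) : ℝ) := mul_le_mul_of_nonneg_right hk' hE
        _ ≤ _ := mul_le_mul_of_nonneg_left hQ hκ.le
    · -- large z
      have hcore := core hs hx hκ.le
      have hxpos : 0 < x := by
        rcases hx.eq_or_lt with h | h
        · rw [← h] at hz
          norm_num at hz
        · exact h
      have hQ0 : 0 ≤ Q (2 * s * x) (x ^ 2) := by
        unfold Q
        apply intervalIntegral.integral_nonneg zero_le_one
        intro v hv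
        have : 0 ≤ 1 - v ^ 2 := by nlinarith [hv.1, hv.2]
        have := mul_nonneg (sq_nonneg x) this
        exact mul_nonneg (by linarith) (Real.exp_pos _).le
      have hes : Real.exp (s ^ 2) * Real.exp (-(s ^ 2)) = 1 := by
        rw [← Real.exp_add]
        simp
      have hep := Real.exp_pos (s ^ 2)
      have hen := Real.exp_pos (-(s ^ 2))
      suffices h : 0 ≤ EE s * (kapB τ * x ^ 3 / 2 - (2 - kapB τ) * x) +
          Real.exp (-(s ^ 2)) * (kapB τ * Q (2 * s * x) (x ^ 2) - 1) by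
        have := mul_nonneg hx h
        linarith
      rcases le_total x 1 with hx1 | hx1
      · -- x ≤ 1
        have hs14 : 14 / 10 ≤ s := by linarith
        have hEs : 83 / 100 ≤ EE s := by
          refine le_trans ?_ (EE_mono hs14)
          refine le_trans ?_ (poly_le_EE (by norm_num))
          norm_num
        have hxx : q ≤ 2 / 9 * x ^ 2 := by
          have h1 : 9 / 16 ≤ τ ^ 2 * x ^ 2 := by
            have : 3 / 4 ≤ τ * x := by nlinarith
            nlinarith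
          have h2 : τ ^ 2 * q ≤ τ ^ 2 * (2 / 9 * x ^ 2) := by linarith
          exact le_of_mul_le_mul_left h2 (by linarith)
        have h1 : 656 / 1000 * x ^ 3 ≤ kapB τ * x ^ 3 / 2 - (2 - kapB τ) * x := by
          have h2 : (2 - kapB τ) * x ≤ 3 / 4 * kapB τ * q * x := mul_le_mul_of_nonneg_right hkq hx
          have h3 : 3 / 4 * kapB τ * q * x ≤ 3 / 4 * kapB τ * (2 / 9 * x ^ 2) * x := by
            apply mul_le_mul_of_nonneg_right _ hx
            exact mul_le_mul_of_nonneg_left hxx (by linarith)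
          have h4 : 1968 / 1000 * x ^ 3 ≤ kapB τ * x ^ 3 :=
            mul_le_mul_of_nonneg_right hk' (by positivity)
          nlinarith
        have h2 : 83 / 100 * (656 / 1000 * x ^ 3) ≤
            EE s * (kapB τ * x ^ 3 / 2 - (2 - kapB τ) * x) :=
          mul_le_mul hEs h1 (by positivity) (by linarith)
        have h3 := big_exp hs14 hz hτ hx
        have h4 : 19 / 10 * Real.exp (-(s ^ 2)) ≤ x ^ 3 := by
          have := mul_le_mul_of_nonneg_right h3 hen.le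
          calc 19 / 10 * Real.exp (-(s ^ 2)) ≤ Real.exp (s ^ 2) * x ^ 3 * Real.exp (-(s ^ 2)) := this
            _ = (Real.exp (s ^ 2) * Real.exp (-(s ^ 2))) * x ^ 3 := by ring
            _ = x ^ 3 := by rw [hes, one_mul]
        have h5 : 0 ≤ Real.exp (-(s ^ 2)) * (kapB τ * Q (2 * s * x) (x ^ 2)) := by positivity
        nlinarith
      · -- x ≥ 1
        have h1 : 952 / 1000 * x ≤ kapB τ * x ^ 3 / 2 - (2 - kapB τ) * x := by
          have h2 : 1 * x ≤ x ^ 2 * x := mul_le_mul_of_nonneg_right (by nlinarith) hx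
          have h3 : 1968 / 1000 * (x ^ 3 / 2 + x) ≤ kapB τ * (x ^ 3 / 2 + x) :=
            mul_le_mul_of_nonneg_right hk' (by positivity)
          nlinarith
        have hEs := s_exp_le_EE hs
        have h2 : (s * Real.exp (-(s ^ 2))) * (952 / 1000 * x) ≤
            EE s * (kapB τ * x ^ 3 / 2 - (2 - kapB τ) * x) :=
          mul_le_mul hEs h1 (by positivity) (EE_nonneg hs)
        have h3 : 0 ≤ Real.exp (-(s ^ 2)) * (476 / 1000 * (2 * s * x) + kapB τ * Q (2 * s * x) (x ^ 2) - 1) := by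
          apply mul_nonneg hen.le
          rcases le_total (2 * s * x) (22 / 10) with hz2 | hz2
          · have hQ := Q_ge (z := 2 * s * x) (X := x ^ 2) (X1 := 0) (zb := 22 / 10)
              (by push_cast; linarith) (by norm_num) le_rfl (by simpa using sq_nonneg x)
            have h9 : (4 / 10 : ℚ) ≤ EQ (22 / 10) 0 := by decide +kernel
            have h8 : (4 / 10 : ℝ) ≤ ((EQ (22 / 10) 0 : ℚ) : ℝ) := by
              have h7 := (Rat.cast_le (K := ℝ)).mpr h9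
              push_cast at h7 ⊢
              exact h7
            have h10 : 1968 / 1000 * (4 / 10) ≤ kapB τ * Q (2 * s * x) (x ^ 2) :=
              mul_le_mul hk' (h8.trans hQ) (by norm_num) hκ.le
            linarith
          · have := mul_nonneg hκ.le hQ0
            linarith
        nlinarith

end AIneq

theorem A_ineq {τ x : ℝ} (hτ : (62 / 100 : ℝ) ≤ τ) (hx0 : 0 ≤ x) (hxτ : x ≤ τ) :
    2 * x ^ 2 * EE (τ - x) + x * Real.exp (-((τ - x) ^ 2)) ≤
      kapB τ * (Real.exp (x ^ 2) * EE τ - EE (τ - x)) := by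
  rcases le_total τ (24 / 10) with h | h
  · exact AIneq.small_tau hτ h hx0 hxτ
  · have h1 := AIneq.large_tau (s := τ - x) (x := x) (by linarith) hx0 (by linarith)
    have h2 : τ - x + x = τ := by ring
    rw [h2] at h1
    exact h1

end GCube
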