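import Pool.Agent.Lib.H83.CFDefs

/-!
Chunk CB1: basic facts on the normalised functions.

`psi τ s = ∫_{-τ}^{τ} E(t) cos(st) dt = 2τ ∫_0^1 E(τξ) cos(τsξ) dξ`, `chi τ s = 2 τ³ ∫_0^1 ξ² E(τξ) sinc(τsξ) dξ`.
`Pn_eq`: divide `psi_eq` by `psi τ 0`: `psi = 2 τ E(τ) sinc(τ s) + chi`, `chi τ 0 = sg τ · psi τ 0`
(`psi_eq` at `s = 0`), `2 τ E(τ)/psi τ 0 = E τ/Nm τ 0 = hn τ`.
`sg τ = τ² m2 τ`: `N_0 - E τ = ∫ τ²ξ² E(τξ)` (integrate `(ξ E(τξ))' = E(τξ) - τ²ξ² E(τξ)`).
`mom`: integrate `(ξ³ E(τξ))'`. `mu τ < 1` since `ξ⁴ < ξ²` on `(0,1)`.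
`hasDerivAt_Pn`: from `hasDerivAt_psi` (or differentiate under the integral):
`Pn' = -(1/ψ0)(1/τ)(v/τ) χ(v/τ) = -(χ0/(τ²ψ0)) v Xn = - m2 v Xn`.
-/

open MeasureTheory Set
open scoped Real

namespace GCube

lemma CFBasic_cont (τ : ℝ) (j : ℕ) : Continuous (fun ξ : ℝ => ξ ^ j * E (τ * ξ)) := by
  have := E_continuous
  fun_prop

theorem Nm_pos (τ : ℝ) (j : ℕ) : 0 < Nm τ j := by
  unfold Nm
  apply intervalIntegral.intervalIntegral_pos_of_pos_on
  · exact (CFBasic_cont τ j).intervalIntegrable _ _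
  · intro x hx
    exact mul_pos (pow_pos hx.1 _) (E_pos _)
  · norm_num

lemma CFBasic_hasDerivAt_E (τ ξ : ℝ) :
    HasDerivAt (fun ξ => E (τ * ξ)) (-(τ ^ 2 * ξ * E (τ * ξ))) ξ := by
  have h1 := psi_hasDerivAt_E (τ * ξ)
  have h2 : HasDerivAt (fun ξ => τ * ξ) τ ξ :=
    ((hasDerivAt_id' ξ).const_mul τ).congr_deriv (by ring)
  exact (h1.comp ξ h2).congr_deriv (by ring)

theorem mom {τ : ℝ} : 3 * Nm τ 2 = E τ + τ ^ 2 * Nm τ 4 := by
  have hd : ∀ t ∈ uIcc (0 : ℝ) 1, HasDerivAt (fun t => t ^ 3 * E (τ * t))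
      (3 * (t ^ 2 * E (τ * t)) - τ ^ 2 * (t ^ 4 * E (τ * t))) t := by
    intro t _
    have := (hasDerivAt_pow 3 t).mul (CFBasic_hasDerivAt_E τ t)
    exact this.congr_deriv (by norm_num; ring)
  have hi : IntervalIntegrable
      (fun t => 3 * (t ^ 2 * E (τ * t)) - τ ^ 2 * (t ^ 4 * E (τ * t))) volume 0 1 :=
    (((CFBasic_cont τ 2).const_mul 3).sub ((CFBasic_cont τ 4).const_mul _)).intervalIntegrable _ _
  have h := intervalIntegral.integral_eq_sub_of_hasDerivAt hd hi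
  rw [intervalIntegral.integral_sub
    (((CFBasic_cont τ 2).const_mul 3).intervalIntegrable _ _)
    (((CFBasic_cont τ 4).const_mul _).intervalIntegrable _ _),
    intervalIntegral.integral_const_mul, intervalIntegral.integral_const_mul] at h
  unfold Nm
  simp only [one_pow, one_mul, mul_one, ne_eq, OfNat.ofNat_ne_zero, not_false_eq_true, zero_pow,
    zero_mul, sub_zero] at h
  linarith

lemma CFBasic_mom0 (τ : ℝ) : Nm τ 0 = E τ + τ ^ 2 * Nm τ 2 := by
  have hd : ∀ t ∈ uIcc (0 : ℝ) 1, HasDerivAt (fun t => t * E (τ * t))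
      (t ^ 0 * E (τ * t) - τ ^ 2 * (t ^ 2 * E (τ * t))) t := by
    intro t _
    have := (hasDerivAt_id' t).mul (CFBasic_hasDerivAt_E τ t)
    exact this.congr_deriv (by norm_num; ring)
  have h := intervalIntegral.integral_eq_sub_of_hasDerivAt hd
    (((CFBasic_cont τ 0).sub ((CFBasic_cont τ 2).const_mul _)).intervalIntegrable _ _)
  rw [intervalIntegral.integral_sub ((CFBasic_cont τ 0).intervalIntegrable _ _)
    (((CFBasic_cont τ 2).const_mul _).intervalIntegrable _ _),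
    intervalIntegral.integral_const_mul] at h
  unfold Nm
  simp only [one_mul, mul_one, zero_mul, sub_zero] at h
  linarith

theorem sg_eq (τ : ℝ) : sg τ = τ ^ 2 * m2 τ := by
  have h0 := (Nm_pos τ 0).ne'
  unfold sg m2 hn
  have := CFBasic_mom0 τ
  field_simp
  linarith

theorem hn_pos (τ : ℝ) : 0 < hn τ := div_pos (E_pos _) (Nm_pos _ _)

theorem m2_pos (τ : ℝ) : 0 < m2 τ := div_pos (Nm_pos _ _) (Nm_pos _ _)

theorem sg_pos {τ : ℝ} (hτ : 0 < τ) : 0 < sg τ := by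
  rw [sg_eq]
  exact mul_pos (pow_pos hτ 2) (m2_pos τ)

theorem hn_lt_one {τ : ℝ} (hτ : 0 < τ) : hn τ < 1 := by
  have := sg_pos hτ
  unfold sg at this
  linarith

theorem mu_pos (τ : ℝ) : 0 < mu τ := div_pos (Nm_pos _ _) (Nm_pos _ _)

theorem mu_lt_one (τ : ℝ) : mu τ < 1 := by
  unfold mu
  rw [div_lt_one (Nm_pos _ _)]
  have h : 0 < ∫ ξ in (0 : ℝ)..1, (ξ ^ 2 * E (τ * ξ) - ξ ^ 4 * E (τ * ξ)) := by
    apply intervalIntegral.intervalIntegral_pos_of_pos_on
    · exact ((CFBasic_cont τ 2).sub (CFBasic_cont τ 4)).intervalIntegrable _ _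
    · intro x hx
      have h1 : 0 < x ^ 2 - x ^ 4 := by
        have : x ^ 2 - x ^ 4 = x ^ 2 * ((1 - x) * (1 + x)) := by ring
        rw [this]
        exact mul_pos (pow_pos hx.1 _) (mul_pos (by linarith [hx.2]) (by linarith [hx.1]))
      have := mul_pos h1 (E_pos (τ * x))
      linarith [this, sub_mul (x ^ 2) (x ^ 4) (E (τ * x))]
    · norm_num
  rw [intervalIntegral.integral_sub ((CFBasic_cont τ 2).intervalIntegrable _ _)
    ((CFBasic_cont τ 4).intervalIntegrable _ _)] at h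
  unfold Nm
  linarith

theorem Pn_zero (τ : ℝ) : Pn τ 0 = 1 := by
  unfold Pn
  have h0 := (Nm_pos τ 0).ne'
  rw [div_eq_one_iff_eq h0]
  unfold Nm
  simp

theorem Xn_zero (τ : ℝ) : Xn τ 0 = 1 := by
  unfold Xn
  have h0 := (Nm_pos τ 2).ne'
  rw [div_eq_one_iff_eq h0]
  unfold Nm
  simp

theorem Pn_cont (τ : ℝ) : Continuous (Pn τ) := by
  unfold Pn
  apply Continuous.div_const
  apply intervalIntegral.continuous_parametric_intervalIntegral_of_continuous'
  have := E_continuous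
  unfold Function.uncurry
  fun_prop

theorem Xn_cont (τ : ℝ) : Continuous (Xn τ) := by
  unfold Xn
  apply Continuous.div_const
  apply intervalIntegral.continuous_parametric_intervalIntegral_of_continuous'
  have := E_continuous
  have := Real.continuous_sinc
  unfold Function.uncurry
  fun_prop

theorem abs_Pn_le_one (τ v : ℝ) : |Pn τ v| ≤ 1 := by
  unfold Pn
  rw [abs_div, abs_of_pos (Nm_pos τ 0), div_le_one (Nm_pos τ 0)]
  refine (intervalIntegral.abs_integral_le_integral_abs (by norm_num)).trans ?_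
  unfold Nm
  apply intervalIntegral.integral_mono_on (by norm_num)
  · apply Continuous.intervalIntegrable
    have := E_continuous
    fun_prop
  · exact (CFBasic_cont τ 0).intervalIntegrable _ _
  · intro x _
    rw [abs_mul, abs_of_pos (E_pos _), pow_zero, one_mul]
    have := Real.abs_cos_le_one (v * x)
    nlinarith [E_pos (τ * x)]

theorem abs_Xn_le_one (τ v : ℝ) : |Xn τ v| ≤ 1 := by
  unfold Xn
  rw [abs_div, abs_of_pos (Nm_pos τ 2), div_le_one (Nm_pos τ 2)]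
  refine (intervalIntegral.abs_integral_le_integral_abs (by norm_num)).trans ?_
  unfold Nm
  apply intervalIntegral.integral_mono_on (by norm_num)
  · apply Continuous.intervalIntegrable
    have := E_continuous
    have := Real.continuous_sinc
    fun_prop
  · exact (CFBasic_cont τ 2).intervalIntegrable _ _
  · intro x _
    have h0 : 0 ≤ x ^ 2 * E (τ * x) := mul_nonneg (sq_nonneg x) (E_pos _).le
    rw [abs_mul, abs_of_nonneg h0]
    have := Real.abs_sinc_le_one (v * x)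
    nlinarith

theorem Pn_even (τ v : ℝ) : Pn τ (-v) = Pn τ v := by
  unfold Pn
  simp only [neg_mul, Real.cos_neg]

theorem Xn_even (τ v : ℝ) : Xn τ (-v) = Xn τ v := by
  unfold Xn
  simp only [neg_mul, Real.sinc_neg]

lemma CFBasic_psi (τ s : ℝ) :
    psi τ s = 2 * τ * ∫ ξ in (0 : ℝ)..1, E (τ * ξ) * Real.cos (τ * s * ξ) := by
  unfold psi
  rw [psi_symm_even (psi_integrand_cont s) (by
    intro x
    rw [E_neg, mul_neg, Real.cos_neg])]
  have h := intervalIntegral.smul_integral_comp_mul_left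
    (f := fun t => E t * Real.cos (s * t)) (a := 0) (b := 1) τ
  simp only [mul_zero, mul_one, smul_eq_mul] at h
  rw [← h]
  rw [show (fun ξ : ℝ => E (τ * ξ) * Real.cos (τ * s * ξ)) =
    fun x => E (τ * x) * Real.cos (s * (τ * x)) from by
      ext x
      rw [show τ * s * x = s * (τ * x) by ring]]
  ring

lemma CFBasic_chi (τ s : ℝ) :
    chi τ s = 2 * τ ^ 3 * ∫ ξ in (0 : ℝ)..1, ξ ^ 2 * E (τ * ξ) * Real.sinc (τ * s * ξ) := by
  unfold chi
  rw [psi_symm_even (psi_chi_integrand_cont s) (by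
    intro x
    rw [E_neg, mul_neg, Real.sinc_neg, neg_sq])]
  have h := intervalIntegral.smul_integral_comp_mul_left
    (f := fun t => t ^ 2 * E t * Real.sinc (s * t)) (a := 0) (b := 1) τ
  simp only [mul_zero, mul_one, smul_eq_mul] at h
  rw [← h]
  rw [show (fun x : ℝ => (τ * x) ^ 2 * E (τ * x) * Real.sinc (s * (τ * x))) =
    fun ξ => τ ^ 2 * (ξ ^ 2 * E (τ * ξ) * Real.sinc (τ * s * ξ)) from by
      ext x
      rw [show τ * s * x = s * (τ * x) by ring]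
      ring]
  rw [intervalIntegral.integral_const_mul]
  ring

lemma CFBasic_psi0 (τ : ℝ) : psi τ 0 = 2 * τ * Nm τ 0 := by
  rw [CFBasic_psi]
  unfold Nm
  simp

lemma CFBasic_chi0 (τ : ℝ) : chi τ 0 = 2 * τ ^ 3 * Nm τ 2 := by
  rw [CFBasic_chi]
  unfold Nm
  simp

theorem psi_eq_Pn {τ : ℝ} (hτ : 0 < τ) (s : ℝ) : psi τ s = psi τ 0 * Pn τ (τ * s) := by
  have h0 := (Nm_pos τ 0).ne'
  rw [CFBasic_psi0, CFBasic_psi]
  unfold Pn
  generalize (∫ ξ in (0 : ℝ)..1, E (τ * ξ) * Real.cos (τ * s * ξ)) = I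
  field_simp

theorem chi_zero_eq {τ : ℝ} (hτ : 0 < τ) : chi τ 0 = sg τ * psi τ 0 := by
  rw [CFBasic_chi0, CFBasic_psi0, sg_eq]
  unfold m2
  have h0 := (Nm_pos τ 0).ne'
  field_simp

theorem chi_eq_Xn {τ : ℝ} (hτ : 0 < τ) (s : ℝ) : chi τ s = chi τ 0 * Xn τ (τ * s) := by
  have h0 := (Nm_pos τ 2).ne'
  rw [CFBasic_chi0, CFBasic_chi]
  unfold Xn
  generalize (∫ ξ in (0 : ℝ)..1, ξ ^ 2 * E (τ * ξ) * Real.sinc (τ * s * ξ)) = I
  field_simp

theorem Pn_eq {τ : ℝ} (hτ : 0 < τ) (v : ℝ) : Pn τ v = hn τ * Real.sinc v + sg τ * Xn τ v := by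
  have h := psi_eq τ (v / τ)
  rw [psi_eq_Pn hτ, chi_eq_Xn hτ, chi_zero_eq hτ] at h
  rw [mul_div_cancel₀ v hτ.ne'] at h
  have h0 := psi_zero_pos hτ
  have hh : hn τ * psi τ 0 = 2 * τ * E τ := by
    rw [CFBasic_psi0]
    unfold hn
    have h0 := (Nm_pos τ 0).ne'
    field_simp
  have : psi τ 0 * Pn τ v = psi τ 0 * (hn τ * Real.sinc v + sg τ * Xn τ v) := by
    rw [h, ← hh]
    ring
  exact mul_left_cancel₀ h0.ne' this

theorem hasDerivAt_Pn {τ : ℝ} (hτ : 0 < τ) (v : ℝ) :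
    HasDerivAt (Pn τ) (-(m2 τ * v * Xn τ v)) v := by
  have h0 := psi_zero_pos hτ
  have h1 := hasDerivAt_psi τ (v / τ)
  have h2 : HasDerivAt (fun v : ℝ => v / τ) (1 / τ) v := (hasDerivAt_id' v).div_const τ
  have h3 : HasDerivAt (fun v : ℝ => psi τ (v / τ)) (-(v / τ * chi τ (v / τ)) * (1 / τ)) v :=
    HasDerivAt.comp (h₂ := psi τ) v h1 h2
  have h4 := h3.div_const (psi τ 0)
  have h5 : Pn τ = fun v : ℝ => psi τ (v / τ) / psi τ 0 := by
    ext w
    rw [psi_eq_Pn hτ (w / τ), mul_div_cancel₀ w hτ.ne']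
    field_simp
  rw [h5]
  refine h4.congr_deriv ?_
  rw [chi_eq_Xn hτ (v / τ), chi_zero_eq hτ, mul_div_cancel₀ v hτ.ne', sg_eq]
  field_simp

end GCube
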