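import Pool.Agent.Lib.H83.CFBasic

/-!
Chunk CT1: monotonicity in `τ`.

`Nm` antitone: clear. `1/hn τ = ∫_0^1 exp(τ²(1-ξ²)/2) dξ` increasing; `Nm τ 2/E τ = ∫ ξ² exp(τ²(1-ξ²)/2)` increasing.
`m2`, `mu`: Chebyshev: for `τ ≤ τ'` the ratio `E(τ'ξ)/E(τξ) = exp(-(τ'²-τ²)ξ²/2)` is antitone in `ξ`, hence
`N_{j+2}(τ') N_j(τ) ≤ N_{j+2}(τ) N_j(τ')` (symmetrise the double integral
`∫∫ ξ^j η^j E(τξ) E(τη) (ξ² - η²)(r(ξ) - r(η)) ≤ 0`).
`TVb/Nm 2`: for `t2² ≤ 3`, `1 - (1-τ²)E(τ)` is nondecreasing (derivative `τ(3-τ²)E(τ)`), and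
`TVb τ ≤ 1.9` always.
-/

open MeasureTheory Set
open scoped Real

namespace GCube

theorem CT1_cont (t : ℝ) (j : ℕ) : Continuous (fun ξ : ℝ => ξ ^ j * E (t * ξ)) := by
  have := E_continuous
  fun_prop

theorem Nm_anti {j : ℕ} {s t : ℝ} (hs : 0 ≤ s) (h : s ≤ t) : Nm t j ≤ Nm s j := by
  unfold Nm
  refine intervalIntegral.integral_mono_on (by norm_num) ((CT1_cont t j).intervalIntegrable _ _)
    ((CT1_cont s j).intervalIntegrable _ _) fun x hx => ?_
  refine mul_le_mul_of_nonneg_left ?_ (pow_nonneg hx.1 j)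
  unfold E
  rw [Real.exp_le_exp]
  have h1 : s * x ≤ t * x := mul_le_mul_of_nonneg_right h hx.1
  have h2 : 0 ≤ s * x := mul_nonneg hs hx.1
  nlinarith

theorem CT1_E {j : ℕ} {s t : ℝ} (hs : 0 ≤ s) (h : s ≤ t) : E t / Nm t j ≤ E s / Nm s j := by
  rw [div_le_div_iff₀ (Nm_pos t j) (Nm_pos s j)]
  unfold Nm
  rw [← intervalIntegral.integral_const_mul, ← intervalIntegral.integral_const_mul]
  refine intervalIntegral.integral_mono_on (by norm_num)
    (((CT1_cont s j).const_mul (E t)).intervalIntegrable _ _)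
    (((CT1_cont t j).const_mul (E s)).intervalIntegrable _ _) fun x hx => ?_
  have h1 : E t * E (s * x) ≤ E s * E (t * x) := by
    unfold E
    rw [← Real.exp_add, ← Real.exp_add, Real.exp_le_exp]
    have h2 : s ^ 2 ≤ t ^ 2 := pow_le_pow_left₀ hs h 2
    have h3 : x ^ 2 ≤ 1 := pow_le_one₀ hx.1 hx.2
    nlinarith
  have h2 : 0 ≤ x ^ j := pow_nonneg hx.1 j
  calc E t * (x ^ j * E (s * x)) = x ^ j * (E t * E (s * x)) := by ring
    _ ≤ x ^ j * (E s * E (t * x)) := mul_le_mul_of_nonneg_left h1 h2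
    _ = E s * (x ^ j * E (t * x)) := by ring

theorem hn_anti {s t : ℝ} (hs : 0 ≤ s) (h : s ≤ t) : hn t ≤ hn s := CT1_E hs h

/-- Chebyshev -/
theorem CT1_cheb {j : ℕ} {s t : ℝ} (hs : 0 ≤ s) (h : s ≤ t) :
    Nm t (j + 2) / Nm t j ≤ Nm s (j + 2) / Nm s j := by
  set m : ℝ := Nm t (j + 2) / Nm t j with hm
  rw [le_div_iff₀ (Nm_pos s j)]
  have hm' : m * Nm t j = Nm t (j + 2) := by
    rw [hm, div_mul_cancel₀ _ (Nm_pos t j).ne']
  have hst : 0 ≤ t ^ 2 - s ^ 2 := by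
    have := pow_le_pow_left₀ hs h 2
    linarith
  set R : ℝ → ℝ := fun u => Real.exp ((t ^ 2 - s ^ 2) * u / 2) with hR
  have hRm : Monotone R := by
    intro u v huv
    simp only [hR]
    rw [Real.exp_le_exp]
    nlinarith
  have hpt : ∀ x ∈ Icc (0 : ℝ) 1,
      R m * (x ^ (j + 2) * E (t * x) - m * (x ^ j * E (t * x))) ≤
      x ^ (j + 2) * E (s * x) - m * (x ^ j * E (s * x)) := by
    intro x hx
    have h1 : E (s * x) = R (x ^ 2) * E (t * x) := by
      simp only [hR, E]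
      rw [← Real.exp_add]
      congr 1
      ring
    have h2 : 0 ≤ (x ^ 2 - m) * (R (x ^ 2) - R m) := by
      rcases le_total (x ^ 2) m with h3 | h3
      · exact mul_nonneg_of_nonpos_of_nonpos (by linarith) (by linarith [hRm h3])
      · exact mul_nonneg (by linarith) (by linarith [hRm h3])
    have h4 : 0 ≤ x ^ j * E (t * x) := mul_nonneg (pow_nonneg hx.1 j) (E_pos _).le
    have h5 : x ^ (j + 2) * E (s * x) - m * (x ^ j * E (s * x)) -
        R m * (x ^ (j + 2) * E (t * x) - m * (x ^ j * E (t * x))) =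
        (x ^ j * E (t * x)) * ((x ^ 2 - m) * (R (x ^ 2) - R m)) := by
      rw [h1]; ring
    have h6 := mul_nonneg h4 h2
    linarith
  have hi1 : IntervalIntegrable (fun x : ℝ => R m * (x ^ (j + 2) * E (t * x) - m * (x ^ j * E (t * x))))
      volume 0 1 :=
    (((CT1_cont t (j + 2)).sub ((CT1_cont t j).const_mul m)).const_mul (R m)).intervalIntegrable _ _
  have hi2 : IntervalIntegrable (fun x : ℝ => x ^ (j + 2) * E (s * x) - m * (x ^ j * E (s * x)))
      volume 0 1 :=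
    ((CT1_cont s (j + 2)).sub ((CT1_cont s j).const_mul m)).intervalIntegrable _ _
  have hint := intervalIntegral.integral_mono_on (by norm_num) hi1 hi2 hpt
  rw [intervalIntegral.integral_const_mul, intervalIntegral.integral_sub
    ((CT1_cont t (j + 2)).intervalIntegrable _ _)
    (((CT1_cont t j).const_mul m).intervalIntegrable _ _),
    intervalIntegral.integral_sub ((CT1_cont s (j + 2)).intervalIntegrable _ _)
    (((CT1_cont s j).const_mul m).intervalIntegrable _ _),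
    intervalIntegral.integral_const_mul, intervalIntegral.integral_const_mul] at hint
  change R m * (Nm t (j + 2) - m * Nm t j) ≤ Nm s (j + 2) - m * Nm s j at hint
  rw [hm', sub_self, mul_zero] at hint
  linarith

theorem m2_anti {s t : ℝ} (hs : 0 ≤ s) (h : s ≤ t) : m2 t ≤ m2 s := CT1_cheb (j := 0) hs h

theorem mu_anti {s t : ℝ} (hs : 0 ≤ s) (h : s ≤ t) : mu t ≤ mu s := CT1_cheb (j := 2) hs h

theorem EN2_anti {s t : ℝ} (hs : 0 ≤ s) (h : s ≤ t) : E t / Nm t 2 ≤ E s / Nm s 2 := CT1_E hs h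

theorem TVb_le {s t : ℝ} (hs : 0 < s) (h : s ≤ t) (ht : t ^ 2 ≤ 3) :
    TVb s ≤ 1 - (1 - t ^ 2) * E t := by
  have hs3 : s ^ 2 ≤ 3 := (pow_le_pow_left₀ hs.le h 2).trans ht
  rw [TVb, if_pos hs3]
  have hd : ∀ x : ℝ, HasDerivAt (fun x => (1 - x ^ 2) * E x) (-(x * (3 - x ^ 2) * E x)) x := by
    intro x
    have h1 : HasDerivAt (fun x : ℝ => 1 - x ^ 2) (-(2 * x)) x := by
      have := (hasDerivAt_pow 2 x).const_sub 1
      simpa using this
    exact (h1.fun_mul (psi_hasDerivAt_E x)).congr_deriv (by ring)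
  have hanti : AntitoneOn (fun x => (1 - x ^ 2) * E x) (Icc 0 t) := by
    refine antitoneOn_of_deriv_nonpos (convex_Icc 0 t)
      (fun x _ => (hd x).continuousAt.continuousWithinAt)
      (fun x _ => (hd x).differentiableAt.differentiableWithinAt) fun x hx => ?_
    rw [interior_Icc] at hx
    rw [(hd x).deriv]
    have h1 : x ^ 2 ≤ 3 := (pow_le_pow_left₀ hx.1.le hx.2.le 2).trans ht
    have h2 : 0 ≤ x * (3 - x ^ 2) * E x :=
      mul_nonneg (mul_nonneg hx.1.le (by linarith)) (E_pos x).le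
    linarith
  have := hanti ⟨hs.le, h⟩ ⟨hs.le.trans h, le_rfl⟩ h
  simp only at this
  linarith

theorem TVb_le' (t : ℝ) : TVb t ≤ 19 / 10 := by
  unfold TVb
  split_ifs with h
  · have h1 : (t ^ 2 - 1) * E t ≤ 9 / 10 := by
      have h2 : 1 + t ^ 2 / 2 + (t ^ 2 / 2) ^ 2 / 2 ≤ Real.exp (t ^ 2 / 2) :=
        Real.quadratic_le_exp_of_nonneg (by positivity)
      have h3 : E t * Real.exp (t ^ 2 / 2) = 1 := by
        unfold E
        rw [← Real.exp_add, show -(t ^ 2) / 2 + t ^ 2 / 2 = 0 by ring, Real.exp_zero]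
      have h4 : 0 < Real.exp (t ^ 2 / 2) := Real.exp_pos _
      have h5 : (t ^ 2 - 1) ≤ 9 / 10 * Real.exp (t ^ 2 / 2) := by nlinarith [sq_nonneg (t ^ 2 - 2)]
      have h6 : 0 < E t := E_pos t
      calc (t ^ 2 - 1) * E t ≤ (9 / 10 * Real.exp (t ^ 2 / 2)) * E t :=
            mul_le_mul_of_nonneg_right h5 h6.le
        _ = 9 / 10 * (E t * Real.exp (t ^ 2 / 2)) := by ring
        _ = 9 / 10 := by rw [h3, mul_one]
    linarith
  · exact le_rfl

end GCube
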