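import Pool.Agent.Lib.H83.CFPrim
import Pool.Agent.Lib.H83.CFMono

/-!
Chunk CT2: soundness of `okT`, `okQ`, and of the primitive values as bounds of `TOk`. Short assembly of `CFPrim` and `CFMono`:
e.g. `hn τ ≤ hn t1 = E t1/Nm t1 0 ≤ emU (t1²/2)/nmL 0 t1 ≤ hU`. (`E t = exp(-(t²/2))`.)
-/

open MeasureTheory Set
open scoped Real

namespace GCube

theorem ct2_rd_ge (q : ℚ) : q - 1 / 100000000 ≤ CF.rd q := by
  unfold CF.rd
  have h := Int.lt_floor_add_one (q * 100000000)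
  rw [le_div_iff₀ (by norm_num)]
  linarith

theorem ct2_nmS_succ (j : ℕ) (w : ℚ) (cnt : ℕ) : ∀ n : ℕ, CF.nmS j w n (cnt + 1) =
    CF.nmS j w n cnt + (-w) ^ cnt * (n.factorial : ℚ) /
      (((n + cnt).factorial : ℚ) * (2 * ((n : ℚ) + cnt) + j + 1)) := by
  induction cnt with
  | zero =>
    intro n
    have h1 : (n.factorial : ℚ) ≠ 0 := by exact_mod_cast n.factorial_ne_zero
    have h2 : (2 * (n : ℚ) + j + 1) ≠ 0 := by positivity
    simp only [CF.nmS, Nat.cast_zero, add_zero, pow_zero]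
    field_simp
    ring
  | succ cnt ih =>
    intro n
    have e1 : CF.nmS j w n (cnt + 1 + 1) =
        1 / (2 * n + j + 1) - w / (n + 1) * CF.nmS j w (n + 1) (cnt + 1) := rfl
    have e2 : CF.nmS j w n (cnt + 1) =
        1 / (2 * n + j + 1) - w / (n + 1) * CF.nmS j w (n + 1) cnt := rfl
    rw [e1, e2, ih (n + 1)]
    have h3 : n + 1 + cnt = n + (cnt + 1) := by ring
    rw [h3, Nat.factorial_succ n]
    have h4 : ((n + (cnt + 1)).factorial : ℚ) ≠ 0 := by exact_mod_cast Nat.factorial_ne_zero _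
    have h5 : (2 * ((n : ℚ) + ((cnt : ℚ) + 1)) + j + 1) ≠ 0 := by positivity
    have h6 : ((n : ℚ) + 1) ≠ 0 := by positivity
    push_cast
    have h7 : (2 * ((n : ℚ) + 1 + cnt) + j + 1) = 2 * ((n : ℚ) + ((cnt : ℚ) + 1)) + j + 1 := by ring
    rw [h7, pow_succ]
    field_simp
    ring

/-- the error of the lower bound -/
theorem ct2_nmL_ge (j : ℕ) {t : ℚ} (ht : 0 ≤ t) (ht4 : t ≤ 4) :
    Nm t j - 3 / 100000000 ≤ ((CF.nmL j t : ℚ) : ℝ) := by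
  have h1 := CF.le_nmU j ht
  have h2 : CF.nmU j t ≤ CF.nmS j (t ^ 2 / 2) 0 41 + 1 / 100000000 := by
    have h3 := ct2_rd_ge (-(CF.nmS j (t ^ 2 / 2) 0 41))
    unfold CF.nmU CF.ru
    linarith
  have h3 := ct2_nmS_succ j (t ^ 2 / 2) 40 0
  have h4 : (-(t ^ 2 / 2)) ^ 40 * (Nat.factorial 0 : ℚ) /
      (((0 + 40).factorial : ℚ) * (2 * (((0 : ℕ) : ℚ) + (40 : ℕ)) + j + 1)) ≤ 1 / 100000000 := by
    have h5 : (-(t ^ 2 / 2)) ^ 40 = (t ^ 2 / 2) ^ 40 := by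
      rw [Even.neg_pow (by decide)]
    have h6 : (t ^ 2 / 2) ^ 40 ≤ (8 : ℚ) ^ 40 := by
      apply pow_le_pow_left₀ (by positivity)
      nlinarith
    have h7 : (0 + 40).factorial = 815915283247897734345611269596115894272000000000 := by
      decide +kernel
    have h8 : (0 : ℚ) ≤ j := by positivity
    rw [h5, h7, div_le_iff₀ (by positivity)]
    have h9 : (8 : ℚ) ^ 40 ≤ 1 / 100000000 * (815915283247897734345611269596115894272000000000 * 1) := by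
      norm_num
    have h10 : ((815915283247897734345611269596115894272000000000 : ℕ) : ℚ) =
      815915283247897734345611269596115894272000000000 := by norm_num
    rw [h10]
    simp only [Nat.factorial_zero, Nat.cast_one, mul_one, Nat.cast_zero, zero_add]
    refine le_trans h6 (le_trans h9 ?_)
    have h11 : (1 : ℚ) ≤ 2 * ((40 : ℕ) : ℚ) + j + 1 := by
      push_cast
      linarith
    nlinarith
  have h5 := ct2_rd_ge (CF.nmS j (t ^ 2 / 2) 0 40)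
  have h6 : CF.nmU j t ≤ CF.nmL j t + 3 / 100000000 := by
    unfold CF.nmL
    linarith
  have h7 : ((CF.nmU j t : ℚ) : ℝ) ≤ ((CF.nmL j t + 3 / 100000000 : ℚ) : ℝ) := by
    exact_mod_cast h6
  push_cast at h7
  linarith

theorem ct2_Nm4 (j : ℕ) (hj : (1 : ℚ) / 1000 ≤ CF.nmL j 4) {t : ℝ} (ht : 0 ≤ t) (ht4 : t ≤ 4) :
    (1 : ℝ) / 1000 ≤ Nm t j := by
  have h1 := CF.nmL_le j (t := 4) (by norm_num)
  have h2 : Nm (((4 : ℚ)) : ℝ) j ≤ Nm t j := Nm_anti ht (by push_cast; exact ht4)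
  have h3 : (((1 : ℚ) / 1000 : ℚ) : ℝ) ≤ ((CF.nmL j 4 : ℚ) : ℝ) := by exact_mod_cast hj
  push_cast at h3
  linarith

theorem ct2_nmL_pos (j : ℕ) (hj : (1 : ℚ) / 1000 ≤ CF.nmL j 4) {t : ℚ} (ht : 0 ≤ t)
    (ht4 : t ≤ 4) : (0 : ℝ) < ((CF.nmL j t : ℚ) : ℝ) := by
  have h1 := ct2_nmL_ge j ht ht4
  have h2 := ct2_Nm4 j hj (t := (t : ℝ)) (by exact_mod_cast ht) (by exact_mod_cast ht4)
  linarith

theorem ct2_four0 : (1 : ℚ) / 1000 ≤ CF.nmL 0 4 := by decide +kernel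

theorem ct2_four2 : (1 : ℚ) / 1000 ≤ CF.nmL 2 4 := by decide +kernel

theorem ct2_E (t : ℝ) : E t = Real.exp (-(t ^ 2 / 2)) := by
  unfold E
  congr 1
  ring

theorem ct2_emL {t : ℚ} : ((CF.emL (t ^ 2 / 2) : ℚ) : ℝ) ≤ E t := by
  have h := CF.emL_le (w := t ^ 2 / 2) (by positivity)
  rw [ct2_E]
  push_cast at h ⊢
  exact h

theorem ct2_emU {t : ℚ} : E t ≤ ((CF.emU (t ^ 2 / 2) : ℚ) : ℝ) := by
  have h := CF.le_emU (w := t ^ 2 / 2) (by positivity)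
  rw [ct2_E]
  push_cast at h ⊢
  exact h

theorem ct2_E_pos (t : ℝ) : 0 < E t := Real.exp_pos _

theorem ct2_E_le_one (t : ℝ) : E t ≤ 1 := by
  rw [ct2_E]
  exact Real.exp_le_one_iff.mpr (by nlinarith [sq_nonneg t])

theorem TOk_of_okT {T : CF.Tb} (h : CF.okT T = true) {τ : ℝ} (h1 : (T.t1 : ℝ) ≤ τ) (h2 : τ ≤ T.t2) :
    TOk T τ := by
  simp only [CF.okT, Bool.and_eq_true, decide_eq_true_eq] at h
  obtain ⟨⟨⟨⟨⟨⟨⟨⟨⟨⟨⟨⟨⟨⟨⟨a1, a2⟩, a3⟩, a4⟩, a5⟩, a6⟩, a7⟩, a8⟩, a9⟩, a10⟩, a11⟩, a12⟩, a13⟩, a14⟩,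
    a15⟩, a16⟩ := h
  have ht1 : (0 : ℝ) < T.t1 := by exact_mod_cast a1
  have hτ : 0 < τ := lt_of_lt_of_le ht1 h1
  have q1 : (0 : ℚ) ≤ T.t1 := a1.le
  have q2 : (0 : ℚ) ≤ T.t2 := (a1.trans a2).le
  have q14 : T.t1 ≤ 4 := a2.le.trans a3
  have p01 := ct2_nmL_pos 0 ct2_four0 q1 q14
  have p21 := ct2_nmL_pos 2 ct2_four2 q1 q14
  have p22 := ct2_nmL_pos 2 ct2_four2 q2 a3
  have hN01 := Nm_pos (T.t1 : ℝ) 0
  have hN21 := Nm_pos (T.t1 : ℝ) 2
  have hN02 := Nm_pos (T.t2 : ℝ) 0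
  have hN22 := Nm_pos (T.t2 : ℝ) 2
  have hNτ := Nm_pos τ 2
  have b9 : (T.hL : ℝ) * CF.nmU 0 T.t2 ≤ CF.emL (T.t2 ^ 2 / 2) := by exact_mod_cast a9
  have b10 : ((CF.emU (T.t1 ^ 2 / 2) : ℚ) : ℝ) ≤ T.hU * CF.nmL 0 T.t1 := by exact_mod_cast a10
  have b11 : ((CF.nmU 4 T.t1 : ℚ) : ℝ) ≤ T.muU * CF.nmL 2 T.t1 := by exact_mod_cast a11
  have b12 : (T.muL : ℝ) * CF.nmU 2 T.t2 ≤ CF.nmL 4 T.t2 := by exact_mod_cast a12
  have b13 : (T.mL : ℝ) * CF.nmU 0 T.t2 ≤ CF.nmL 2 T.t2 := by exact_mod_cast a13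
  have b14 : ((CF.emU (T.t1 ^ 2 / 2) : ℚ) : ℝ) ≤ T.G1 * CF.nmL 2 T.t1 := by exact_mod_cast a14
  have c4 : (0 : ℝ) < T.hL := by exact_mod_cast a4
  have c6 : (0 : ℝ) < T.muL := by exact_mod_cast a6
  have c8 : (0 : ℝ) < T.mL := by exact_mod_cast a8
  have eL1 := @ct2_emL T.t1
  have eL2 := @ct2_emL T.t2
  have eU1 := @ct2_emU T.t1
  have eU2 := @ct2_emU T.t2
  have E1 := ct2_E_pos (T.t1 : ℝ)
  have E2 := ct2_E_pos (T.t2 : ℝ)
  have hUpos : (0 : ℝ) < T.hU := by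
    by_contra hc
    push Not at hc
    nlinarith [mul_nonneg_of_nonpos_of_nonpos hc (neg_nonpos.mpr p01.le)]
  have hG1pos : (0 : ℝ) < T.G1 := by
    by_contra hc
    push Not at hc
    nlinarith [mul_nonneg_of_nonpos_of_nonpos hc (neg_nonpos.mpr p21.le)]
  have hN41 := Nm_pos (T.t1 : ℝ) 4
  have u41 := CF.le_nmU 4 q1
  have hmuUpos : (0 : ℝ) < T.muU := by
    by_contra hc
    push Not at hc
    nlinarith [mul_nonneg_of_nonpos_of_nonpos hc (neg_nonpos.mpr p21.le)]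
  have l01 := CF.nmL_le 0 q1
  have l21 := CF.nmL_le 2 q1
  have l22 := CF.nmL_le 2 q2
  have l42 := CF.nmL_le 4 q2
  have u02 := CF.le_nmU 0 q2
  have u22 := CF.le_nmU 2 q2
  have hEN : E τ / Nm τ 2 ≤ T.G1 := by
    refine le_trans (EN2_anti ht1.le h1) ?_
    rw [div_le_iff₀ hN21]
    have := mul_le_mul_of_nonneg_left l21 hG1pos.le
    linarith
  refine ⟨hτ, a4, a5, ?_, ?_, a6, a7, ?_, ?_, a8, ?_, hEN, ?_, ?_⟩
  · -- hL
    refine le_trans ?_ (hn_anti hτ.le h2)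
    unfold hn
    rw [le_div_iff₀ hN02]
    have := mul_le_mul_of_nonneg_left u02 c4.le
    linarith
  · -- hU
    refine le_trans (hn_anti ht1.le h1) ?_
    unfold hn
    rw [div_le_iff₀ hN01]
    have := mul_le_mul_of_nonneg_left l01 hUpos.le
    linarith
  · -- muL
    refine le_trans ?_ (mu_anti hτ.le h2)
    unfold mu
    rw [le_div_iff₀ hN22]
    have := mul_le_mul_of_nonneg_left u22 c6.le
    linarith
  · -- muU
    refine le_trans (mu_anti ht1.le h1) ?_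
    unfold mu
    rw [div_le_iff₀ hN21]
    have := mul_le_mul_of_nonneg_left l21 hmuUpos.le
    linarith
  · -- mL
    refine le_trans ?_ (m2_anti hτ.le h2)
    unfold m2
    rw [le_div_iff₀ hN02]
    have := mul_le_mul_of_nonneg_left u02 c8.le
    linarith
  · -- G2
    have hm : |1 - τ ^ 2| ≤ max |1 - (T.t1 : ℝ) ^ 2| |1 - (T.t2 : ℝ) ^ 2| := by
      have s1 : (T.t1 : ℝ) ^ 2 ≤ τ ^ 2 := pow_le_pow_left₀ ht1.le h1 2
      have s2 : τ ^ 2 ≤ (T.t2 : ℝ) ^ 2 := pow_le_pow_left₀ hτ.le h2 2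
      have s3 : 1 - τ ^ 2 ≤ |1 - (T.t1 : ℝ) ^ 2| := le_trans (by linarith) (le_abs_self _)
      have s4 : -(1 - τ ^ 2) ≤ |1 - (T.t2 : ℝ) ^ 2| := le_trans (by linarith) (neg_le_abs _)
      rw [abs_le']
      exact ⟨s3.trans (le_max_left _ _), s4.trans (le_max_right _ _)⟩
    have b15 : max |1 - (T.t1 : ℝ) ^ 2| |1 - (T.t2 : ℝ) ^ 2| * (T.G1 : ℝ) ≤ (T.G2 : ℝ) := by
      exact_mod_cast a15
    rw [mul_div_assoc]
    refine le_trans ?_ b15
    refine mul_le_mul hm hEN (div_nonneg (ct2_E_pos τ).le hNτ.le) ?_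
    exact le_trans (abs_nonneg _) (le_max_left _ _)
  · -- G3
    have hTV0 : 0 ≤ TVb τ := by
      unfold TVb
      split_ifs
      · nlinarith [ct2_E_pos τ, ct2_E_le_one τ, mul_nonneg (sq_nonneg τ) (ct2_E_pos τ).le]
      · norm_num
    have hTV : TVb τ ≤ T.G3 * CF.nmL 2 T.t2 := by
      by_cases c : T.t2 ^ 2 ≤ 3
      · rw [if_pos c] at a16
        have c' : (T.t2 : ℝ) ^ 2 ≤ 3 := by exact_mod_cast c
        have hle := TVb_le hτ h2 c'
        by_cases d : T.t2 ≤ 1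
        · rw [if_pos d] at a16
          have d' : (T.t2 : ℝ) ≤ 1 := by exact_mod_cast d
          have b16 : 1 - (1 - (T.t2 : ℝ) ^ 2) * CF.emL (T.t2 ^ 2 / 2) ≤ T.G3 * CF.nmL 2 T.t2 := by
            exact_mod_cast a16
          have hd : 0 ≤ 1 - (T.t2 : ℝ) ^ 2 := by
            have : (0 : ℝ) ≤ T.t2 := by exact_mod_cast q2
            nlinarith
          have := mul_le_mul_of_nonneg_left eL2 hd
          linarith
        · rw [if_neg d] at a16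
          have d' : (1 : ℝ) < (T.t2 : ℝ) := by exact_mod_cast not_le.mp d
          have b16 : 1 - (1 - (T.t2 : ℝ) ^ 2) * CF.emU (T.t2 ^ 2 / 2) ≤ T.G3 * CF.nmL 2 T.t2 := by
            exact_mod_cast a16
          have hd : 1 - (T.t2 : ℝ) ^ 2 ≤ 0 := by nlinarith
          have := mul_le_mul_of_nonpos_left eU2 hd
          linarith
      · rw [if_neg c] at a16
        have b16 : (19 / 10 : ℝ) ≤ T.G3 * CF.nmL 2 T.t2 := by
          have : (((19 / 10 : ℚ)) : ℝ) ≤ ((T.G3 * CF.nmL 2 T.t2 : ℚ) : ℝ) := by exact_mod_cast a16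
          push_cast at this
          exact this
        exact (TVb_le' τ).trans b16
    have hG3 : (0 : ℝ) ≤ T.G3 := by
      by_contra hc
      push Not at hc
      nlinarith
    rw [div_le_iff₀ hNτ]
    have hmono : Nm (T.t2 : ℝ) 2 ≤ Nm τ 2 := Nm_anti hτ.le h2
    have := mul_le_mul_of_nonneg_left (l22.trans hmono) hG3
    linarith

theorem Q_le_of_okQ {T : CF.Tb} (h0 : 0 < T.t1) (h : CF.okQ T = true) {τ : ℝ} (h1 : (T.t1 : ℝ) ≤ τ)
    (h2 : τ ≤ T.t2) : (T.Q : ℝ) ≤ qB τ := by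
  simp only [CF.okQ, Bool.and_eq_true, decide_eq_true_eq] at h
  have ht1 : (0 : ℝ) < T.t1 := by exact_mod_cast h0
  have hτ : 0 < τ := lt_of_lt_of_le ht1 h1
  have b : (T.Q : ℝ) ≤ CF.emL (2 * T.t2 ^ 2 / 3) := by exact_mod_cast h.2
  have e := CF.emL_le (w := 2 * T.t2 ^ 2 / 3) (by positivity)
  refine b.trans (e.trans ?_)
  unfold qB
  refine Real.exp_le_exp.mpr ?_
  have s2 : τ ^ 2 ≤ (T.t2 : ℝ) ^ 2 := pow_le_pow_left₀ hτ.le h2 2
  push_cast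
  linarith

end GCube
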