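import Pool.Agent.Lib.H83.CFTail
import Pool.Agent.Lib.H83.CFTab

/-!
Chunk BK (short): soundness of a block and of a row.

`∫_0^∞ = ∫_0^π + cells + tail ≥ (Msum - sumC - … - tail) ρ^k > 0`. `K ≤ k`: `K = 2 ≤ k`, or
`K y2² < 2Q ≤ (k+1) y² ≤ (k+1) y2²`. `cov`: some block of the list contains `y`.
-/

open MeasureTheory Set
open scoped Real

namespace GCube

open CF

theorem bk_K_le {T : CF.Tb} {b : CF.Bk} {y : ℝ} {k : ℕ} (hg : okG T b = true)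
    (h1 : (b.y1 : ℝ) ≤ y) (h2 : y ≤ b.y2) (hy : 0 < y) (hk : 2 ≤ k)
    (hQ : 2 * (T.Q : ℝ) ≤ (k + 1) * y ^ 2) : b.K ≤ k := by
  have _ := h1
  simp only [okG, Bool.and_eq_true, Bool.or_eq_true, decide_eq_true_eq] at hg
  have h5 : b.K = 2 ∨ (b.K : ℚ) * b.y2 ^ 2 < 2 * T.Q := by tauto
  rcases h5 with h5 | h5
  · omega
  · have h6 : (b.K : ℝ) * (b.y2 : ℝ) ^ 2 < 2 * (T.Q : ℝ) := by exact_mod_cast h5
    have h7 : y ^ 2 ≤ (b.y2 : ℝ) ^ 2 := pow_le_pow_left₀ hy.le h2 2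
    have h8 : (0 : ℝ) < (b.y2 : ℝ) ^ 2 := by
      have : (0 : ℝ) < b.y2 := lt_of_lt_of_le hy h2
      positivity
    have h9 : ((k : ℝ) + 1) * y ^ 2 ≤ (k + 1) * (b.y2 : ℝ) ^ 2 :=
      mul_le_mul_of_nonneg_left h7 (by positivity)
    have h10 : (b.K : ℝ) * (b.y2 : ℝ) ^ 2 < (k + 1) * (b.y2 : ℝ) ^ 2 := by linarith
    have h11 : (b.K : ℝ) < k + 1 := lt_of_mul_lt_mul_right h10 h8.le
    have h12 : b.K < k + 1 := by exact_mod_cast h11
    omega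

theorem block_pos {T : CF.Tb} {b : CF.Bk} {τ y : ℝ} {k : ℕ} (hT : TOk T τ) (hb : okB T b = true)
    (h1 : (b.y1 : ℝ) ≤ y) (h2 : y ≤ b.y2) (hy : 0 < y) (hk : 2 ≤ k)
    (hQ : 2 * (T.Q : ℝ) ≤ (k + 1) * y ^ 2) :
    0 < ∫ x in Ioi (0 : ℝ), kap τ y x * Pn τ (y * x) ^ k := by
  have hb' := hb
  rw [okB, Bool.and_eq_true] at hb'
  obtain ⟨hg, hrest⟩ := hb'
  have h : BOk T b τ y k := ⟨hT, h1, h2, hy, bk_K_le hg h1 h2 hy hk hQ, hQ, hg⟩
  obtain ⟨hr0, hr⟩ := rho_ge h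
  have hr0' : (0 : ℝ) < ((rL T b : ℚ) : ℝ) := by exact_mod_cast hr0
  have hρ : 0 < Pn τ (y * π) ^ k := pow_pos (lt_of_lt_of_le hr0' hr) k
  have hint := CD1_integrable hT.τpos hy k
  have hM := int_M h
  have hadd : ∀ a c : ℝ, (∫ x in a..c, kap τ y x * Pn τ (y * x) ^ k) +
      ∫ x in Ioi c, kap τ y x * Pn τ (y * x) ^ k =
      ∫ x in Ioi a, kap τ y x * Pn τ (y * x) ^ k := fun a c =>
    intervalIntegral.integral_interval_add_Ioi hint.integrableOn hint.integrableOn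
  have s0 := hadd 0 π
  by_cases hkB : b.kB = true
  · rw [if_pos hkB] at hrest
    simp only [Bool.and_eq_true, decide_eq_true_eq] at hrest
    obtain ⟨⟨⟨⟨⟨a1, _⟩, a3⟩, a4⟩, a5⟩, a6⟩ := hrest
    have c1 := int_C h (w := 1) (by norm_num) 16 16 (by norm_num) a4
    have c2 := int_C h (w := 2) (by norm_num) 16 32 (by norm_num) a5
    have e1 : π * ((16 : ℕ) : ℝ) / 16 = π := by push_cast; ring
    have e2 : π * ((16 + 1 * 16 : ℕ) : ℝ) / 16 = 2 * π := by push_cast; ring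
    have e3 : π * ((32 : ℕ) : ℝ) / 16 = 2 * π := by push_cast; ring
    have e4 : π * ((32 + 2 * 16 : ℕ) : ℝ) / 16 = 4 * π := by push_cast; ring
    rw [e1, e2] at c1
    rw [e3, e4] at c2
    have ct := tail_B h a1 a3
    have s1 := hadd π (2 * π)
    have s2 := hadd (2 * π) (4 * π)
    have a6' : ((sumC T b 1 16 16 : ℚ) : ℝ) + ((sumC T b 2 32 16 : ℚ) : ℝ) +
        ((tailB1 T b + tailB2 T b : ℚ) : ℝ) < ((Msum T b : ℚ) : ℝ) := by
      have : ((sumC T b 1 16 16 + sumC T b 2 32 16 + tailB1 T b + tailB2 T b : ℚ) : ℝ) <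
        ((Msum T b : ℚ) : ℝ) := by exact_mod_cast a6
      push_cast at this ⊢
      linarith
    have hfin := mul_lt_mul_of_pos_right a6' hρ
    rw [add_mul, add_mul] at hfin
    linarith
  · rw [if_neg hkB] at hrest
    simp only [Bool.and_eq_true, decide_eq_true_eq] at hrest
    obtain ⟨⟨⟨⟨⟨⟨⟨a1, a2⟩, a3⟩, a4⟩, a5⟩, a6⟩, a7⟩, a8⟩ := hrest
    have c1 := int_C h (w := 1) (by norm_num) 16 16 (by norm_num) a5
    have c2 := int_C h (w := 2) (by norm_num) 16 32 (by norm_num) a6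
    have c3 := int_C h (w := 4) (by norm_num) ((b.nend - 64) / 4) 64 (by norm_num) a7
    have e1 : π * ((16 : ℕ) : ℝ) / 16 = π := by push_cast; ring
    have e2 : π * ((16 + 1 * 16 : ℕ) : ℝ) / 16 = 2 * π := by push_cast; ring
    have e3 : π * ((32 : ℕ) : ℝ) / 16 = 2 * π := by push_cast; ring
    have e4 : π * ((32 + 2 * 16 : ℕ) : ℝ) / 16 = 4 * π := by push_cast; ring
    have e5 : π * ((64 : ℕ) : ℝ) / 16 = 4 * π := by push_cast; ring
    have e6 : 64 + 4 * ((b.nend - 64) / 4) = b.nend := by omega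
    rw [e1, e2] at c1
    rw [e3, e4] at c2
    rw [e5, e6] at c3
    have ct := tail_A h a1 a2 a4
    have s1 := hadd π (2 * π)
    have s2 := hadd (2 * π) (4 * π)
    have s3 := hadd (4 * π) (π * b.nend / 16)
    have a8' : ((sumC T b 1 16 16 : ℚ) : ℝ) + ((sumC T b 2 32 16 : ℚ) : ℝ) +
        ((sumC T b 4 64 ((b.nend - 64) / 4) : ℚ) : ℝ) +
        ((tailA T b : ℚ) : ℝ) < ((Msum T b : ℚ) : ℝ) := by
      exact_mod_cast a8
    have hfin := mul_lt_mul_of_pos_right a8' hρ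
    rw [add_mul, add_mul, add_mul] at hfin
    linarith

theorem bk_cov (l : List CF.Bk) : ∀ (y0 Y : ℚ), cov y0 l Y = true → ∀ y : ℝ, (y0 : ℝ) < y →
    y ≤ Y → ∃ b ∈ l, (b.y1 : ℝ) ≤ y ∧ y ≤ b.y2 := by
  induction l with
  | nil =>
    intro y0 Y h y h1 h2
    simp only [cov, decide_eq_true_eq] at h
    have h' : (Y : ℝ) ≤ y0 := by exact_mod_cast h
    linarith
  | cons b l ih =>
    intro y0 Y h y h1 h2
    simp only [cov, Bool.and_eq_true, decide_eq_true_eq] at h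
    have h3 : (b.y1 : ℝ) ≤ y0 := by exact_mod_cast h.1
    rcases le_or_gt y (b.y2 : ℝ) with h4 | h4
    · exact ⟨b, by simp, by linarith, h4⟩
    · obtain ⟨b', hb', h5⟩ := ih b.y2 Y h.2 y h4 h2
      exact ⟨b', List.mem_cons_of_mem _ hb', h5⟩

theorem row_pos {r : CF.Tb × ℚ × List CF.Bk} (hr : okRow r = true) {τ y : ℝ} {k : ℕ}
    (h1 : (r.1.t1 : ℝ) ≤ τ) (h2 : τ ≤ r.1.t2) (hy : 0 < y) (hY : y ≤ r.2.1) (hk : 2 ≤ k)
    (hQ : 2 * (r.1.Q : ℝ) ≤ (k + 1) * y ^ 2) : 0 < D τ y (1 :: List.replicate k y) := by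
  rw [okRow, Bool.and_eq_true, Bool.and_eq_true] at hr
  obtain ⟨⟨a1, a2⟩, a3⟩ := hr
  have hT := TOk_of_okT a1 h1 h2
  obtain ⟨b, hb, hb1, hb2⟩ := bk_cov r.2.2 0 r.2.1 a2 y (by simpa using hy) hY
  have hok : okB r.1 b = true := List.all_eq_true.mp a3 b hb
  exact D_pos_of_kap hT.τpos hy (block_pos hT hok hb1 hb2 hy hk hQ)

end GCube
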