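import Pool.Agent.Lib.H83.CFBasic

/-!
Chunk CS6: `|x Xn(x)|` for large `x`.

`Nm τ 2 · x Xn(x) = ∫_0^1 ξ E(τξ) sin(xξ) dξ` `= -E(τ) cos x/x + (1/x) ∫_0^1 φ(ξ) cos(xξ) dξ`, `φ(ξ) = (1-τ²ξ²) E(τξ)`,
`= -E(τ) cos x/x + (1-τ²) E(τ) sin x/x² - (1/x²) ∫_0^1 φ'(ξ) sin(xξ) dξ`, and `∫_0^1 |φ'| ≤ TVb τ`:
`φ' = -τ²ξ(3-τ²ξ²) E(τξ)`, so for `τ² ≤ 3` `φ` is antitone and `∫|φ'| = 1 - (1-τ²)E(τ)`; for `τ² > 3` it
decreases from `1` to `-2e^{-3/2}` (at `τξ = √3`) and then increases to `(1-τ²)E(τ) < 0`: total `≤ 1 + 4 e^{-3/2} < 1.9`.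
-/

open MeasureTheory Set
open scoped Real

namespace GCube

/-- the derivative of `(1-τ²ξ²) E(τξ)` -/
noncomputable def CS6_psi (τ ξ : ℝ) : ℝ := -(τ ^ 2 * ξ * (3 - τ ^ 2 * ξ ^ 2) * E (τ * ξ))

noncomputable def CS6_phi (τ ξ : ℝ) : ℝ := (1 - τ ^ 2 * ξ ^ 2) * E (τ * ξ)

theorem CS6_cont (τ : ℝ) : Continuous (CS6_psi τ) := by
  have := E_continuous
  unfold CS6_psi
  fun_prop

theorem CS6_E (τ ξ : ℝ) : HasDerivAt (fun ξ => E (τ * ξ)) (-(τ ^ 2 * ξ * E (τ * ξ))) ξ := by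
  have h1 : HasDerivAt (fun ξ : ℝ => τ * ξ) τ ξ := by
    simpa using (hasDerivAt_id ξ).const_mul τ
  have h2 := (psi_hasDerivAt_E (τ * ξ)).comp ξ h1
  exact h2.congr_deriv (by ring)

theorem CS6_u (τ ξ : ℝ) : HasDerivAt (fun ξ => ξ * E (τ * ξ)) (CS6_phi τ ξ) ξ := by
  have h := (hasDerivAt_id' ξ).fun_mul (CS6_E τ ξ)
  exact h.congr_deriv (by unfold CS6_phi; ring)

theorem CS6_hphi (τ ξ : ℝ) : HasDerivAt (CS6_phi τ) (CS6_psi τ ξ) ξ := by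
  have h1 : HasDerivAt (fun ξ : ℝ => 1 - τ ^ 2 * ξ ^ 2) (-(τ ^ 2 * (2 * ξ))) ξ := by
    have := ((hasDerivAt_pow 2 ξ).const_mul (τ ^ 2)).const_sub 1
    simpa using this
  have h2 := h1.fun_mul (CS6_E τ ξ)
  exact h2.congr_deriv (by unfold CS6_psi; ring)

theorem CS6_int (τ a b : ℝ) : ∫ ξ in a..b, CS6_psi τ ξ = CS6_phi τ b - CS6_phi τ a :=
  intervalIntegral.integral_eq_sub_of_hasDerivAt (fun ξ _ => CS6_hphi τ ξ)
    ((CS6_cont τ).intervalIntegrable _ _)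

theorem CS6_abs_neg {τ a b : ℝ} (hab : a ≤ b) (h : ∀ ξ ∈ Icc a b, CS6_psi τ ξ ≤ 0) :
    ∫ ξ in a..b, |CS6_psi τ ξ| = CS6_phi τ a - CS6_phi τ b := by
  have h1 : ∫ ξ in a..b, |CS6_psi τ ξ| = ∫ ξ in a..b, -CS6_psi τ ξ := by
    refine intervalIntegral.integral_congr fun ξ hξ => ?_
    rw [uIcc_of_le hab] at hξ
    exact abs_of_nonpos (h ξ hξ)
  rw [h1, intervalIntegral.integral_neg, CS6_int]
  ring

theorem CS6_abs_pos {τ a b : ℝ} (hab : a ≤ b) (h : ∀ ξ ∈ Icc a b, 0 ≤ CS6_psi τ ξ) :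
    ∫ ξ in a..b, |CS6_psi τ ξ| = CS6_phi τ b - CS6_phi τ a := by
  have h1 : ∫ ξ in a..b, |CS6_psi τ ξ| = ∫ ξ in a..b, CS6_psi τ ξ := by
    refine intervalIntegral.integral_congr fun ξ hξ => ?_
    rw [uIcc_of_le hab] at hξ
    exact abs_of_nonneg (h ξ hξ)
  rw [h1, CS6_int]

theorem CS6_exp : 4 * Real.exp (-(3 / 2)) ≤ 9 / 10 := by
  have h1 : (2.7182818283 : ℝ) < Real.exp 1 := Real.exp_one_gt_d9
  have h2 : Real.exp (3 / 2) ^ 2 = Real.exp 1 ^ 3 := by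
    rw [← Real.exp_nat_mul, ← Real.exp_nat_mul]
    norm_num
  have h3 : (20 : ℝ) < Real.exp 1 ^ 3 := by
    calc (20 : ℝ) < 2.7182818283 ^ 3 := by norm_num
      _ < Real.exp 1 ^ 3 := pow_lt_pow_left₀ h1 (by norm_num) (by norm_num)
  have h4 : 0 < Real.exp (3 / 2) := Real.exp_pos _
  have h5 : (40 / 9 : ℝ) < Real.exp (3 / 2) := by
    rw [← h2] at h3
    nlinarith
  rw [Real.exp_neg]
  rw [← div_eq_mul_inv, div_le_iff₀ h4]
  linarith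

theorem CS6_TV {τ : ℝ} (hτ : 0 < τ) : ∫ ξ in (0 : ℝ)..1, |CS6_psi τ ξ| ≤ TVb τ := by
  unfold TVb
  have hphi0 : CS6_phi τ 0 = 1 := by simp [CS6_phi, E]
  have hphi1 : CS6_phi τ 1 = (1 - τ ^ 2) * E τ := by simp [CS6_phi]
  split_ifs with h
  · rw [CS6_abs_neg zero_le_one, hphi0, hphi1]
    intro ξ hξ
    unfold CS6_psi
    have h1 : ξ ^ 2 ≤ 1 := pow_le_one₀ hξ.1 hξ.2
    have h2 : 0 ≤ 3 - τ ^ 2 * ξ ^ 2 := by nlinarith [sq_nonneg τ]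
    have h3 : 0 ≤ τ ^ 2 * ξ * (3 - τ ^ 2 * ξ ^ 2) * E (τ * ξ) :=
      mul_nonneg (mul_nonneg (mul_nonneg (sq_nonneg τ) hξ.1) h2) (E_pos _).le
    linarith
  · push Not at h
    set c : ℝ := Real.sqrt 3 / τ with hc
    have hc0 : 0 ≤ c := by positivity
    have hs3 : Real.sqrt 3 ^ 2 = 3 := Real.sq_sqrt (by norm_num)
    have hc2 : τ ^ 2 * c ^ 2 = 3 := by
      rw [hc, div_pow, hs3]
      field_simp
    have hc1 : c ≤ 1 := by
      rw [hc, div_le_one hτ]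
      exact Real.sqrt_le_iff.2 ⟨hτ.le, h.le⟩
    have hspl : ∫ ξ in (0 : ℝ)..1, |CS6_psi τ ξ| =
        (∫ ξ in (0 : ℝ)..c, |CS6_psi τ ξ|) + ∫ ξ in c..1, |CS6_psi τ ξ| :=
      (intervalIntegral.integral_add_adjacent_intervals
        ((CS6_cont τ).abs.intervalIntegrable _ _) ((CS6_cont τ).abs.intervalIntegrable _ _)).symm
    have hneg : ∀ ξ ∈ Icc 0 c, CS6_psi τ ξ ≤ 0 := by
      intro ξ hξ
      unfold CS6_psi
      have h1 : ξ ^ 2 ≤ c ^ 2 := pow_le_pow_left₀ hξ.1 hξ.2 2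
      have h2 : 0 ≤ 3 - τ ^ 2 * ξ ^ 2 := by nlinarith [sq_nonneg τ]
      have h3 : 0 ≤ τ ^ 2 * ξ * (3 - τ ^ 2 * ξ ^ 2) * E (τ * ξ) :=
        mul_nonneg (mul_nonneg (mul_nonneg (sq_nonneg τ) hξ.1) h2) (E_pos _).le
      linarith
    have hpos : ∀ ξ ∈ Icc c 1, 0 ≤ CS6_psi τ ξ := by
      intro ξ hξ
      unfold CS6_psi
      have h1 : c ^ 2 ≤ ξ ^ 2 := pow_le_pow_left₀ hc0 hξ.1 2
      have h2 : 0 ≤ τ ^ 2 * ξ ^ 2 - 3 := by nlinarith [sq_nonneg τ]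
      have h3 : 0 ≤ τ ^ 2 * ξ * (τ ^ 2 * ξ ^ 2 - 3) * E (τ * ξ) :=
        mul_nonneg (mul_nonneg (mul_nonneg (sq_nonneg τ) (hc0.trans hξ.1)) h2) (E_pos _).le
      nlinarith
    rw [hspl, CS6_abs_neg hc0 hneg, CS6_abs_pos hc1 hpos, hphi0, hphi1]
    have hpc : CS6_phi τ c = -2 * Real.exp (-(3 / 2)) := by
      unfold CS6_phi E
      rw [hc2, show -((τ * c) ^ 2) / 2 = -(τ ^ 2 * c ^ 2) / 2 by ring, hc2]
      norm_num
    rw [hpc]
    have h5 : (1 - τ ^ 2) * E τ ≤ 0 := mul_nonpos_of_nonpos_of_nonneg (by linarith) (E_pos τ).le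
    have h6 := CS6_exp
    linarith

theorem xXn_bound {τ x : ℝ} (hτ : 0 < τ) (hx : 0 < x) :
    |x * Xn τ x| ≤ (E τ / Nm τ 2 * |Real.cos x| +
      (|1 - τ ^ 2| * E τ / Nm τ 2 * |Real.sin x| + TVb τ / Nm τ 2) / x) / x := by
  have hN : 0 < Nm τ 2 := Nm_pos τ 2
  have hEc := E_continuous
  have h1 : Nm τ 2 * (x * Xn τ x) = ∫ ξ in (0 : ℝ)..1, ξ * E (τ * ξ) * Real.sin (x * ξ) := by
    unfold Xn
    rw [← intervalIntegral.integral_div, ← intervalIntegral.integral_const_mul,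
      ← intervalIntegral.integral_const_mul]
    refine intervalIntegral.integral_congr fun ξ _ => ?_
    rw [← psi_mul_sinc (x * ξ)]
    field_simp
  have hderiv : ∀ ξ : ℝ, HasDerivAt
      (fun ξ => -(ξ * E (τ * ξ)) * Real.cos (x * ξ) / x + CS6_phi τ ξ * Real.sin (x * ξ) / x ^ 2)
      (ξ * E (τ * ξ) * Real.sin (x * ξ) + CS6_psi τ ξ * Real.sin (x * ξ) / x ^ 2) ξ := by
    intro ξ
    have hlin : HasDerivAt (fun ξ : ℝ => x * ξ) x ξ := by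
      simpa using (hasDerivAt_id ξ).const_mul x
    have hcos : HasDerivAt (fun ξ => Real.cos (x * ξ)) (-Real.sin (x * ξ) * x) ξ :=
      (Real.hasDerivAt_cos (x * ξ)).comp ξ hlin
    have hsin : HasDerivAt (fun ξ => Real.sin (x * ξ)) (Real.cos (x * ξ) * x) ξ :=
      (Real.hasDerivAt_sin (x * ξ)).comp ξ hlin
    have ha := (((CS6_u τ ξ).fun_neg).fun_mul hcos).div_const x
    have hb := ((CS6_hphi τ ξ).fun_mul hsin).div_const (x ^ 2)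
    refine (ha.fun_add hb).congr_deriv ?_
    field_simp
    ring
  have hint1 : IntervalIntegrable (fun ξ : ℝ => ξ * E (τ * ξ) * Real.sin (x * ξ)) volume 0 1 :=
    (by fun_prop : Continuous (fun ξ : ℝ => ξ * E (τ * ξ) * Real.sin (x * ξ))).intervalIntegrable _ _
  have hc2 : Continuous (fun ξ : ℝ => CS6_psi τ ξ * Real.sin (x * ξ)) := by
    have := CS6_cont τ
    fun_prop
  have hint2 : IntervalIntegrable (fun ξ : ℝ => CS6_psi τ ξ * Real.sin (x * ξ) / x ^ 2) volume 0 1 :=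
    (hc2.div_const _).intervalIntegrable _ _
  have hFTC := intervalIntegral.integral_eq_sub_of_hasDerivAt (a := 0) (b := 1)
    (fun ξ _ => hderiv ξ) (hint1.add hint2)
  rw [intervalIntegral.integral_add hint1 hint2, intervalIntegral.integral_div, ← h1] at hFTC
  have hv : -(1 * E (τ * 1)) * Real.cos (x * 1) / x + CS6_phi τ 1 * Real.sin (x * 1) / x ^ 2 -
      (-(0 * E (τ * 0)) * Real.cos (x * 0) / x + CS6_phi τ 0 * Real.sin (x * 0) / x ^ 2) =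
      -(E τ * Real.cos x / x) + (1 - τ ^ 2) * E τ * Real.sin x / x ^ 2 := by
    simp only [CS6_phi, mul_one, mul_zero, zero_mul, Real.sin_zero, one_mul, one_pow]
    ring
  rw [hv] at hFTC
  set J : ℝ := ∫ ξ in (0 : ℝ)..1, CS6_psi τ ξ * Real.sin (x * ξ) with hJ
  have hJb : |J| ≤ TVb τ := by
    refine le_trans ?_ (CS6_TV hτ)
    rw [hJ]
    refine (intervalIntegral.abs_integral_le_integral_abs zero_le_one).trans ?_
    refine intervalIntegral.integral_mono_on zero_le_one (hc2.abs.intervalIntegrable _ _)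
      ((CS6_cont τ).abs.intervalIntegrable _ _) fun ξ _ => ?_
    rw [abs_mul]
    exact mul_le_of_le_one_right (abs_nonneg _) (Real.abs_sin_le_one _)
  have hmain : Nm τ 2 * (x * Xn τ x) =
      -(E τ * Real.cos x / x) + (1 - τ ^ 2) * E τ * Real.sin x / x ^ 2 - J / x ^ 2 := by
    linarith
  have hE : 0 < E τ := E_pos τ
  have hb1 : |Nm τ 2 * (x * Xn τ x)| ≤
      E τ * |Real.cos x| / x + |1 - τ ^ 2| * E τ * |Real.sin x| / x ^ 2 + TVb τ / x ^ 2 := by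
    rw [hmain]
    refine (abs_sub _ _).trans (add_le_add ((abs_add_le _ _).trans (add_le_add ?_ ?_)) ?_)
    · rw [abs_neg, abs_div, abs_mul, abs_of_pos hE, abs_of_pos hx]
    · rw [abs_div, abs_mul, abs_mul, abs_of_pos hE, abs_of_pos (pow_pos hx 2)]
    · rw [abs_div, abs_of_pos (pow_pos hx 2)]
      gcongr
  rw [abs_mul, abs_of_pos hN] at hb1
  have hb2 : |x * Xn τ x| ≤ (E τ * |Real.cos x| / x + |1 - τ ^ 2| * E τ * |Real.sin x| / x ^ 2 +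
      TVb τ / x ^ 2) / Nm τ 2 := by
    rw [le_div_iff₀ hN]
    linarith
  refine hb2.trans (le_of_eq ?_)
  field_simp
  ring

end GCube
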