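import Pool.Agent.Lib.H83.CFKap
import Pool.Agent.Lib.H83.CFFar

/-!
Chunk CD1: integrability of `kap τ y x * Pn τ (y x)^k` on `(0,∞)`, and `D` as this integral.

`|x Pn| ≤ C`, `|x² Xn| ≤ C` for `x ≥ 1` (`xXn_bound`, `Pn_eq`), so `|kap| ≤ C(1/x)·…`: `x² P (X S_y - S X_y) = O(x^{-2})`.
`D τ y (1 :: replicate k y) = ∫ s² W(s) ψ(s) ψ(ys)^k ds`, even in `s`; substitute `x = τ s`; with `ψ = ψ0 Pn`,
`χ = χ0 Xn`, `Pn = hn sinc + sg Xn`: `W = χ0 ψ0 hn (X S_y - S X_y)`. So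
`D = (2/τ³) ψ0^(k+2) χ0 hn ∫_0^∞ kap Pn_y^k`.
-/

open MeasureTheory Set
open scoped Real

namespace GCube

theorem kap_cont (τ y : ℝ) : Continuous (kap τ y) := by
  have h1 := Pn_cont τ
  have h2 := Xn_cont τ
  have h3 := Real.continuous_sinc
  unfold kap
  fun_prop

/-- the integrand of `D` in terms of `kap` -/
theorem CD1_point {τ y : ℝ} (hτ : 0 < τ) (k : ℕ) (s : ℝ) :
    s ^ 2 * W τ y s * psiProd τ (1 :: List.replicate k y) s =
      (psi τ 0 ^ (k + 2) * chi τ 0 * hn τ / τ ^ 2) *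
        (kap τ y (τ * s) * Pn τ (y * (τ * s)) ^ k) := by
  have hprod : psiProd τ (1 :: List.replicate k y) s = psi τ s * psi τ (y * s) ^ k := by
    rw [psi_psiProd_cons, one_mul]
    congr 1
    simp [psiProd]
  have h1 : psi τ s = psi τ 0 * Pn τ (τ * s) := psi_eq_Pn hτ s
  have h2 : psi τ (y * s) = psi τ 0 * Pn τ (y * (τ * s)) := by
    rw [psi_eq_Pn hτ (y * s)]
    congr 2
    ring
  have h3 : chi τ s = chi τ 0 * Xn τ (τ * s) := chi_eq_Xn hτ s
  have h4 : chi τ (y * s) = chi τ 0 * Xn τ (y * (τ * s)) := by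
    rw [chi_eq_Xn hτ (y * s)]
    congr 2
    ring
  have h5 : Xn τ (τ * s) * Pn τ (y * (τ * s)) - Pn τ (τ * s) * Xn τ (y * (τ * s)) =
      hn τ * (Xn τ (τ * s) * Real.sinc (y * (τ * s)) - Real.sinc (τ * s) * Xn τ (y * (τ * s))) := by
    rw [Pn_eq hτ (y * (τ * s)), Pn_eq hτ (τ * s)]
    ring
  have hW : W τ y s = chi τ 0 * psi τ 0 * (hn τ *
      (Xn τ (τ * s) * Real.sinc (y * (τ * s)) - Real.sinc (τ * s) * Xn τ (y * (τ * s)))) := by
    rw [← h5]
    unfold W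
    rw [h1, h2, h3, h4]
    ring
  rw [hprod, hW, h1, h2]
  unfold kap
  field_simp
  ring

theorem CD1_const_pos {τ : ℝ} (hτ : 0 < τ) (k : ℕ) :
    0 < psi τ 0 ^ (k + 2) * chi τ 0 * hn τ := by
  have h1 := psi_zero_pos hτ
  have h2 : 0 < chi τ 0 := by
    rw [chi_zero_eq hτ]
    exact mul_pos (sg_pos hτ) h1
  have h3 := hn_pos τ
  positivity

theorem CD1_integrable {τ y : ℝ} (hτ : 0 < τ) (hy : 0 < y) (k : ℕ) :
    Integrable (fun x => kap τ y x * Pn τ (y * x) ^ k) := by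
  have h0 := D_integrable hτ hy (l := 1 :: List.replicate k y) ⟨1, by simp, one_ne_zero⟩
  have hc := CD1_const_pos hτ k
  set c : ℝ := psi τ 0 ^ (k + 2) * chi τ 0 * hn τ / τ ^ 2 with hcdef
  have hc0 : c ≠ 0 := by
    rw [hcdef]
    positivity
  have h1 : (fun s => s ^ 2 * W τ y s * psiProd τ (1 :: List.replicate k y) s) =
      fun s => c * ((fun x => kap τ y x * Pn τ (y * x) ^ k) (τ * s)) := by
    funext s
    exact CD1_point hτ k s
  rw [h1] at h0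
  have h2 := h0.const_mul c⁻¹
  have h3 : (fun s => c⁻¹ * (c * ((fun x => kap τ y x * Pn τ (y * x) ^ k) (τ * s)))) =
      fun s => (fun x => kap τ y x * Pn τ (y * x) ^ k) (τ * s) := by
    funext s
    rw [inv_mul_cancel_left₀ hc0]
  rw [h3] at h2
  exact (integrable_comp_mul_left_iff _ hτ.ne').1 h2

theorem kap_integrable {τ y : ℝ} (hτ : 0 < τ) (hy : 0 < y) (k : ℕ) :
    IntegrableOn (fun x => kap τ y x * Pn τ (y * x) ^ k) (Ioi 0) :=
  (CD1_integrable hτ hy k).integrableOn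

theorem D_eq_kap {τ y : ℝ} (hτ : 0 < τ) (hy : 0 < y) (k : ℕ) :
    D τ y (1 :: List.replicate k y) = 2 / τ ^ 3 * psi τ 0 ^ (k + 2) * chi τ 0 * hn τ *
      ∫ x in Ioi (0 : ℝ), kap τ y x * Pn τ (y * x) ^ k := by
  have heven : ∀ x, kap τ y x * Pn τ (y * x) ^ k = kap τ y |x| * Pn τ (y * |x|) ^ k := by
    intro x
    rcases le_total 0 x with h | h
    · rw [abs_of_nonneg h]
    · rw [abs_of_nonpos h]
      unfold kap
      rw [show y * -x = -(y * x) by ring, Pn_even, Xn_even, Pn_even, Xn_even, Real.sinc_neg,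
        Real.sinc_neg]
      ring
  have h1 : ∫ x : ℝ, kap τ y x * Pn τ (y * x) ^ k =
      2 * ∫ x in Ioi (0 : ℝ), kap τ y x * Pn τ (y * x) ^ k := by
    have := integral_comp_abs (f := fun x => kap τ y x * Pn τ (y * x) ^ k)
    rw [← this]
    exact integral_congr_ae (Filter.Eventually.of_forall fun x => heven x)
  unfold D
  have h2 : (∫ s : ℝ, s ^ 2 * W τ y s * psiProd τ (1 :: List.replicate k y) s) =
      ∫ s : ℝ, (psi τ 0 ^ (k + 2) * chi τ 0 * hn τ / τ ^ 2) *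
        (fun x => kap τ y x * Pn τ (y * x) ^ k) (τ * s) :=
    integral_congr_ae (Filter.Eventually.of_forall fun s => CD1_point hτ k s)
  rw [h2, integral_const_mul, Measure.integral_comp_mul_left (fun x => kap τ y x * Pn τ (y * x) ^ k) τ, h1,
    abs_of_pos (inv_pos.2 hτ), smul_eq_mul]
  field_simp

theorem D_pos_of_kap {τ y : ℝ} (hτ : 0 < τ) (hy : 0 < y) {k : ℕ}
    (h : 0 < ∫ x in Ioi (0 : ℝ), kap τ y x * Pn τ (y * x) ^ k) :
    0 < D τ y (1 :: List.replicate k y) := by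
  rw [D_eq_kap hτ hy k]
  have h1 := CD1_const_pos hτ k
  have h2 : 2 / τ ^ 3 * psi τ 0 ^ (k + 2) * chi τ 0 * hn τ =
      2 / τ ^ 3 * (psi τ 0 ^ (k + 2) * chi τ 0 * hn τ) := by ring
  rw [h2]
  positivity

end GCube
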