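import Pool.Agent.Lib.H83.CFSinc

/-!
Chunk CJ: the universal tables `J1`, `J2`, `W1`, `S1`, `C1` of `CFCheck.lean`.

* `J1`, `J2`: `x sin x j2(x) = x² sinc(x) j2(x) ≥ x² p(x) q(x)` on `[0, π]` with polynomials `p ≤ sinc`, `q ≤ j2` (truncated
  series, `snC`, `jC`, at most `10` terms; clip the last cell at `3.1415` where `p ≥ 0`, using that the integrand is `≥ 0`), the
  integral of a polynomial between rational points is exact; `π i/16` is replaced by rational inner points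
  (`3.141592 i/16`, `3.141593 i/16`) since the integrands are `≥ 0`. The tables are rounded down by at
  least `2e-7`.
* `W1`: `∫_a^b sin² = (b-a)/2 - (sin 2b - sin 2a)/4`, `sin(π n/8)` is algebraic (`Real.cos_pi_div_eight`, …), periodicity mod `16`
  by `sin²(x+π) = sin² x`. `S1`, `C1`: monotonicity of `sin`, `cos` on quarter periods and `Real.cos_pi_div_sixteen`, ….
-/

open MeasureTheory Set
open scoped Real

namespace GCube

namespace CF

/-! ### polynomials given by lists of coefficients -/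

/-- value of a polynomial -/
noncomputable def CFTrig_hr : List ℚ → ℝ → ℝ
  | [], _ => 0
  | c :: l, z => (c : ℝ) + z * CFTrig_hr l z

/-- sum of two polynomials -/
def CFTrig_add : List ℚ → List ℚ → List ℚ
  | [], l => l
  | a :: l, [] => a :: l
  | a :: l, b :: m => (a + b) :: CFTrig_add l m

/-- product of two polynomials -/
def CFTrig_mul : List ℚ → List ℚ → List ℚ
  | [], _ => []
  | a :: l, m => CFTrig_add (m.map (a * ·)) (0 :: CFTrig_mul l m)

/-- `∫_a^b x^k l(x²) dx` -/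
def CFTrig_int : ℕ → List ℚ → ℚ → ℚ → ℚ
  | _, [], _, _ => 0
  | k, c :: l, a, b => c * ((b ^ (k + 1) - a ^ (k + 1)) / (k + 1)) + CFTrig_int (k + 2) l a b

/-- `∫_0^1 x^k l(v² x²) dx` as a polynomial in `v²` -/
def CFTrig_div : ℕ → List ℚ → List ℚ
  | _, [] => []
  | k, c :: l => c / (k + 1) :: CFTrig_div (k + 2) l

theorem CFTrig_hr_add (l m : List ℚ) (z : ℝ) :
    CFTrig_hr (CFTrig_add l m) z = CFTrig_hr l z + CFTrig_hr m z := by
  induction l generalizing m with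
  | nil => simp [CFTrig_add, CFTrig_hr]
  | cons a l ih =>
    cases m with
    | nil => simp [CFTrig_add, CFTrig_hr]
    | cons b m =>
      simp only [CFTrig_add, CFTrig_hr, ih]
      push_cast
      ring

theorem CFTrig_hr_map (a : ℚ) (l : List ℚ) (z : ℝ) :
    CFTrig_hr (l.map (a * ·)) z = a * CFTrig_hr l z := by
  induction l with
  | nil => simp [CFTrig_hr]
  | cons b l ih =>
    simp only [List.map_cons, CFTrig_hr, ih]
    push_cast
    ring

theorem CFTrig_hr_mul (l m : List ℚ) (z : ℝ) :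
    CFTrig_hr (CFTrig_mul l m) z = CFTrig_hr l z * CFTrig_hr m z := by
  induction l with
  | nil => simp [CFTrig_mul, CFTrig_hr]
  | cons a l ih =>
    simp only [CFTrig_mul, CFTrig_hr_add, CFTrig_hr_map, CFTrig_hr, ih]
    push_cast
    ring

theorem CFTrig_hr_cont (l : List ℚ) : Continuous (CFTrig_hr l) := by
  induction l with
  | nil => exact continuous_const
  | cons c l ih =>
    show Continuous fun z => (c : ℝ) + z * CFTrig_hr l z
    exact continuous_const.add (continuous_id.mul ih)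

theorem CFTrig_hr_cont' (l : List ℚ) (k : ℕ) (v : ℝ) :
    Continuous fun x : ℝ => x ^ k * CFTrig_hr l (v * x ^ 2) :=
  (continuous_pow k).mul ((CFTrig_hr_cont l).comp (continuous_const.mul (continuous_pow 2)))

theorem CFTrig_hr_cont2 (l : List ℚ) (k : ℕ) :
    Continuous fun x : ℝ => x ^ k * CFTrig_hr l (x ^ 2) :=
  (continuous_pow k).mul ((CFTrig_hr_cont l).comp (continuous_pow 2))

theorem CFTrig_int_eq (l : List ℚ) (k : ℕ) (a b : ℚ) :
    ∫ x in (a : ℝ)..b, x ^ k * CFTrig_hr l (x ^ 2) = ((CFTrig_int k l a b : ℚ) : ℝ) := by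
  induction l generalizing k with
  | nil => simp [CFTrig_hr, CFTrig_int]
  | cons c l ih =>
    have e : (fun x : ℝ => x ^ k * CFTrig_hr (c :: l) (x ^ 2)) =
        fun x : ℝ => (c : ℝ) * x ^ k + x ^ (k + 2) * CFTrig_hr l (x ^ 2) := by
      funext x
      simp only [CFTrig_hr]
      ring
    rw [e, intervalIntegral.integral_add, intervalIntegral.integral_const_mul, integral_pow, ih]
    · simp only [CFTrig_int]
      push_cast
      ring
    · exact (continuous_const.mul (continuous_pow k)).intervalIntegrable _ _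
    · exact (CFTrig_hr_cont2 l (k + 2)).intervalIntegrable _ _

theorem CFTrig_div_eq (l : List ℚ) (k : ℕ) (v : ℝ) :
    ∫ x in (0 : ℝ)..1, x ^ k * CFTrig_hr l (v * x ^ 2) = CFTrig_hr (CFTrig_div k l) v := by
  induction l generalizing k with
  | nil => simp [CFTrig_hr, CFTrig_div]
  | cons c l ih =>
    have e : (fun x : ℝ => x ^ k * CFTrig_hr (c :: l) (v * x ^ 2)) =
        fun x : ℝ => (c : ℝ) * x ^ k + v * (x ^ (k + 2) * CFTrig_hr l (v * x ^ 2)) := by
      funext x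
      simp only [CFTrig_hr]
      ring
    rw [e, intervalIntegral.integral_add, intervalIntegral.integral_const_mul,
      intervalIntegral.integral_const_mul, integral_pow, ih]
    · simp only [CFTrig_div, CFTrig_hr]
      push_cast
      simp
      ring
    · exact (continuous_const.mul (continuous_pow k)).intervalIntegrable _ _
    · exact (continuous_const.mul (CFTrig_hr_cont' l (k + 2) v)).intervalIntegrable _ _

/-! ### truncated series of `sin` -/

noncomputable def CFTrig_sp (n : ℕ) (x : ℝ) : ℝ :=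
  ∑ k ∈ Finset.range n, (-1 : ℝ) ^ k * x ^ (2 * k + 1) / ((2 * k + 1).factorial : ℝ)

noncomputable def CFTrig_cp (n : ℕ) (x : ℝ) : ℝ :=
  ∑ k ∈ Finset.range n, (-1 : ℝ) ^ k * x ^ (2 * k) / ((2 * k).factorial : ℝ)

theorem CFTrig_sp_deriv (n : ℕ) (x : ℝ) : HasDerivAt (CFTrig_sp n) (CFTrig_cp n x) x := by
  unfold CFTrig_sp CFTrig_cp
  apply HasDerivAt.fun_sum
  intro k _
  have h := ((hasDerivAt_pow (2 * k + 1) x).const_mul ((-1 : ℝ) ^ k)).div_const
    ((2 * k + 1).factorial : ℝ)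
  refine h.congr_deriv ?_
  rw [Nat.add_sub_cancel, Nat.factorial_succ]
  push_cast
  have h1 : ((2 * k).factorial : ℝ) ≠ 0 := by positivity
  have h2 : (2 * (k : ℝ) + 1) ≠ 0 := by positivity
  field_simp

theorem CFTrig_cp_deriv (n : ℕ) (x : ℝ) : HasDerivAt (CFTrig_cp (n + 1)) (-(CFTrig_sp n x)) x := by
  have e : CFTrig_cp (n + 1) = fun x : ℝ => (∑ k ∈ Finset.range n, (-1 : ℝ) ^ (k + 1) *
      x ^ (2 * k + 2) / ((2 * k + 2).factorial : ℝ)) + 1 := by
    funext x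
    unfold CFTrig_cp
    rw [Finset.sum_range_succ']
    simp [mul_add]
  rw [e]
  have h : HasDerivAt (fun x : ℝ => ∑ k ∈ Finset.range n, (-1 : ℝ) ^ (k + 1) *
      x ^ (2 * k + 2) / ((2 * k + 2).factorial : ℝ)) (-(CFTrig_sp n x)) x := by
    unfold CFTrig_sp
    rw [← Finset.sum_neg_distrib]
    apply HasDerivAt.fun_sum
    intro k _
    have h := ((hasDerivAt_pow (2 * k + 2) x).const_mul ((-1 : ℝ) ^ (k + 1))).div_const
      ((2 * k + 2).factorial : ℝ)
    refine h.congr_deriv ?_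
    rw [show 2 * k + 2 - 1 = 2 * k + 1 from rfl, Nat.factorial_succ (2 * k + 1)]
    push_cast
    have h1 : ((2 * k + 1).factorial : ℝ) ≠ 0 := by positivity
    have h2 : (2 * (k : ℝ) + 1 + 1) ≠ 0 := by positivity
    field_simp
    ring
  exact h.add_const 1

theorem CFTrig_mono {f f' : ℝ → ℝ} (hd : ∀ x, HasDerivAt f (f' x) x) (h0 : f 0 = 0)
    (hf : ∀ x, 0 ≤ x → 0 ≤ f' x) {x : ℝ} (hx : 0 ≤ x) : 0 ≤ f x := by
  have hm : MonotoneOn f (Ici 0) := by
    apply monotoneOn_of_deriv_nonneg (convex_Ici 0)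
    · exact fun w _ => (hd w).continuousAt.continuousWithinAt
    · exact fun w _ => (hd w).differentiableAt.differentiableWithinAt
    · intro w hw
      rw [interior_Ici] at hw
      rw [(hd w).deriv]
      exact hf w (le_of_lt hw)
  have := hm (mem_Ici.mpr le_rfl) (mem_Ici.mpr hx) hx
  rwa [h0] at this

theorem CFTrig_cp_zero (n : ℕ) : CFTrig_cp (n + 1) 0 = 1 := by
  unfold CFTrig_cp
  rw [Finset.sum_range_succ']
  simp

theorem CFTrig_sp_zero (n : ℕ) : CFTrig_sp n 0 = 0 := by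
  unfold CFTrig_sp
  simp

theorem CFTrig_sign (n : ℕ) :
    (∀ x : ℝ, 0 ≤ x → 0 ≤ (-1 : ℝ) ^ (n + 1) * (Real.cos x - CFTrig_cp (n + 1) x)) ∧
    ∀ x : ℝ, 0 ≤ x → 0 ≤ (-1 : ℝ) ^ (n + 1) * (Real.sin x - CFTrig_sp (n + 1) x) := by
  have hstep : ∀ n : ℕ,
      (∀ x : ℝ, 0 ≤ x → 0 ≤ (-1 : ℝ) ^ (n + 1) * (Real.cos x - CFTrig_cp (n + 1) x)) →
      ∀ x : ℝ, 0 ≤ x → 0 ≤ (-1 : ℝ) ^ (n + 1) * (Real.sin x - CFTrig_sp (n + 1) x) := by
    intro n hc x hx
    refine CFTrig_mono (f := fun x => (-1 : ℝ) ^ (n + 1) * (Real.sin x - CFTrig_sp (n + 1) x))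
      (f' := fun x => (-1 : ℝ) ^ (n + 1) * (Real.cos x - CFTrig_cp (n + 1) x)) ?_ ?_ hc hx
    · intro x
      exact ((Real.hasDerivAt_sin x).sub (CFTrig_sp_deriv (n + 1) x)).const_mul _
    · simp only [CFTrig_sp_zero, Real.sin_zero, sub_zero, mul_zero]
  induction n with
  | zero =>
    have h0 : ∀ x : ℝ, 0 ≤ x → 0 ≤ (-1 : ℝ) ^ (0 + 1) * (Real.cos x - CFTrig_cp (0 + 1) x) := by
      intro x _
      have h1 : CFTrig_cp (0 + 1) x = 1 := by
        unfold CFTrig_cp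
        simp
      rw [h1]
      have := Real.cos_le_one x
      simp
      linarith
    exact ⟨h0, hstep 0 h0⟩
  | succ n ih =>
    have h0 : ∀ x : ℝ, 0 ≤ x →
        0 ≤ (-1 : ℝ) ^ (n + 1 + 1) * (Real.cos x - CFTrig_cp (n + 1 + 1) x) := by
      intro x hx
      refine CFTrig_mono
        (f := fun x => (-1 : ℝ) ^ (n + 1 + 1) * (Real.cos x - CFTrig_cp (n + 1 + 1) x))
        (f' := fun x => (-1 : ℝ) ^ (n + 1) * (Real.sin x - CFTrig_sp (n + 1) x)) ?_ ?_ ih.2 hx
      · intro x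
        have h := ((Real.hasDerivAt_cos x).sub (CFTrig_cp_deriv (n + 1) x)).const_mul
          ((-1 : ℝ) ^ (n + 1 + 1))
        refine h.congr_deriv ?_
        ring
      · simp only [CFTrig_cp_zero, Real.cos_zero, sub_self, mul_zero]
    exact ⟨h0, hstep (n + 1) h0⟩

/-- 8 terms of the series of `sinc` -/
def CFTrig_L : List ℚ := [1, -1/6, 1/120, -1/5040, 1/362880, -1/39916800, 1/6227020800,
  -1/1307674368000]
/-- 7 terms of the series of `sinc` -/
def CFTrig_U : List ℚ := [1, -1/6, 1/120, -1/5040, 1/362880, -1/39916800, 1/6227020800]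
/-- 8 terms of the series of `j2 v/v²` -/
def CFTrig_q : List ℚ := CFTrig_div 4 (CFTrig_div 2 CFTrig_L)

theorem CFTrig_sin_ge {x : ℝ} (hx : 0 ≤ x) : x * CFTrig_hr CFTrig_L (x ^ 2) ≤ Real.sin x := by
  have h := (CFTrig_sign 7).2 x hx
  have e : CFTrig_sp 8 x = x * CFTrig_hr CFTrig_L (x ^ 2) := by
    simp only [CFTrig_sp, Finset.sum_range_succ, Finset.sum_range_zero, CFTrig_hr, CFTrig_L,
      Nat.factorial]
    push_cast
    ring
  rw [← e]
  norm_num at h
  exact h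

theorem CFTrig_sin_le {x : ℝ} (hx : 0 ≤ x) : Real.sin x ≤ x * CFTrig_hr CFTrig_U (x ^ 2) := by
  have h := (CFTrig_sign 6).2 x hx
  have e : CFTrig_sp 7 x = x * CFTrig_hr CFTrig_U (x ^ 2) := by
    simp only [CFTrig_sp, Finset.sum_range_succ, Finset.sum_range_zero, CFTrig_hr, CFTrig_U,
      Nat.factorial]
    push_cast
    ring
  rw [← e]
  norm_num at h
  exact h

theorem CFTrig_sinc_mul (x : ℝ) : x * Real.sinc x = Real.sin x := by
  by_cases hx : x = 0
  · subst hx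
    simp
  · rw [Real.sinc_of_ne_zero hx]
    field_simp

theorem CFTrig_sinc_ge {x : ℝ} (hx : 0 ≤ x) : CFTrig_hr CFTrig_L (x ^ 2) ≤ Real.sinc x := by
  rcases eq_or_lt_of_le hx with h | h
  · rw [← h]
    simp [CFTrig_hr, CFTrig_L]
  · have h1 := CFTrig_sin_ge hx
    rw [← CFTrig_sinc_mul x] at h1
    exact le_of_mul_le_mul_left h1 h

theorem CFTrig_lift {f : ℝ → ℝ} (hf : Continuous f) {l : List ℚ}
    (h : ∀ x : ℝ, 0 ≤ x → CFTrig_hr l (x ^ 2) ≤ f x) (k : ℕ) {v : ℝ} (hv : 0 ≤ v) :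
    CFTrig_hr (CFTrig_div k l) (v ^ 2) ≤ ∫ x in (0 : ℝ)..1, x ^ k * f (v * x) := by
  rw [← CFTrig_div_eq]
  apply intervalIntegral.integral_mono_on zero_le_one
  · exact (CFTrig_hr_cont' l k (v ^ 2)).intervalIntegrable _ _
  · exact ((continuous_pow k).mul (hf.comp (continuous_const.mul continuous_id))).intervalIntegrable
      _ _
  · intro x hx
    refine mul_le_mul_of_nonneg_left ?_ (pow_nonneg hx.1 k)
    have := h (v * x) (mul_nonneg hv hx.1)
    rwa [mul_pow] at this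

theorem CFTrig_j2_ge {v : ℝ} (hv : 0 ≤ v) : v ^ 2 * CFTrig_hr CFTrig_q (v ^ 2) ≤ j2 v := by
  have h1 : ∀ x : ℝ, 0 ≤ x → CFTrig_hr (CFTrig_div 2 CFTrig_L) (x ^ 2) ≤ Xz x / 3 := by
    intro x hx
    have := CFTrig_lift Real.continuous_sinc (fun y hy => CFTrig_sinc_ge hy) 2 hx
    unfold Xz
    linarith
  have h2 := CFTrig_lift (Xz_cont.div_const 3) h1 4 hv
  have h3 : ∫ x in (0 : ℝ)..1, x ^ 4 * (Xz (v * x) / 3) = Yz v / 15 := by
    unfold Yz
    have e : (fun x : ℝ => x ^ 4 * (Xz (v * x) / 3)) = fun x : ℝ => 1 / 3 * (x ^ 4 * Xz (v * x)) := by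
      funext x
      ring
    rw [e, intervalIntegral.integral_const_mul]
    ring
  rw [h3] at h2
  rw [j2_eq]
  have h4 : v ^ 2 / 15 * Yz v = v ^ 2 * (Yz v / 15) := by ring
  rw [h4]
  exact mul_le_mul_of_nonneg_left h2 (sq_nonneg v)

/-- criterion for a polynomial to be nonnegative on `[0, 10]` -/
def CFTrig_pos : List ℚ → Bool
  | [] => true
  | [c] => decide (0 ≤ c)
  | c :: d :: l => decide (0 ≤ c) && decide (0 ≤ c + 10 * d) && CFTrig_pos l

theorem CFTrig_hr_nonneg : ∀ (l : List ℚ), CFTrig_pos l = true → ∀ {z : ℝ}, 0 ≤ z → z ≤ 10 →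
    0 ≤ CFTrig_hr l z
  | [], _, _, _, _ => le_refl _
  | [c], h, z, _, _ => by
    simp only [CFTrig_pos, decide_eq_true_eq] at h
    have : (0 : ℝ) ≤ c := by exact_mod_cast h
    simpa [CFTrig_hr] using this
  | c :: d :: l, h, z, h0, h1 => by
    simp only [CFTrig_pos, Bool.and_eq_true, decide_eq_true_eq] at h
    have hc : (0 : ℝ) ≤ c := by exact_mod_cast h.1.1
    have hd : (0 : ℝ) ≤ c + 10 * d := by exact_mod_cast h.1.2
    have hl := CFTrig_hr_nonneg l h.2 h0 h1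
    have e : CFTrig_hr (c :: d :: l) z = ((c : ℝ) + z * d) + z ^ 2 * CFTrig_hr l z := by
      simp only [CFTrig_hr]
      ring
    rw [e]
    have h2 : 0 ≤ (c : ℝ) + z * d := by
      have : (c : ℝ) + z * d = (1 - z / 10) * c + z / 10 * (c + 10 * d) := by ring
      rw [this]
      have h3 : 0 ≤ 1 - z / 10 := by linarith
      have h4 : 0 ≤ z / 10 := by linarith
      exact add_nonneg (mul_nonneg h3 hc) (mul_nonneg h4 hd)
    exact add_nonneg h2 (mul_nonneg (sq_nonneg z) hl)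

theorem CFTrig_q_nonneg {x : ℝ} (h0 : 0 ≤ x) (h1 : x ≤ π) : 0 ≤ CFTrig_hr CFTrig_q (x ^ 2) := by
  apply CFTrig_hr_nonneg _ (by decide +kernel) (sq_nonneg x)
  have := Real.pi_lt_d2
  nlinarith

/-! ### the tables `J1`, `J2` -/

theorem CFTrig_clip {f : ℝ → ℝ} (hf : Continuous f) (hpos : ∀ x ∈ Icc 0 π, 0 ≤ f x) {i : ℕ}
    (hi : i < 16) (l : List ℚ) (k : ℕ)
    (hl : ∀ x ∈ Icc 0 π, x ^ k * CFTrig_hr l (x ^ 2) ≤ f x) (c : ℚ)
    (hc : c ≤ CFTrig_int k l (31415927 * i / 160000000) (31415926 * (i + 1) / 160000000)) :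
    (c : ℝ) ≤ ∫ x in (π * i / 16)..(π * (i + 1 : ℕ) / 16), f x := by
  have hp1 := Real.pi_gt_d20
  have hp2 := Real.pi_lt_d20
  have hi' : (i : ℝ) ≤ 15 := by exact_mod_cast Nat.lt_succ_iff.mp hi
  have hi0 : (0 : ℝ) ≤ i := Nat.cast_nonneg i
  set a : ℚ := 31415927 * i / 160000000 with ha
  set b : ℚ := 31415926 * (i + 1) / 160000000 with hb
  have ha' : (a : ℝ) = 31415927 * i / 160000000 := by
    rw [ha]
    push_cast
    ring
  have hb' : (b : ℝ) = 31415926 * (i + 1) / 160000000 := by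
    rw [hb]
    push_cast
    ring
  have h1 : π * i / 16 ≤ a := by
    rw [ha']
    nlinarith
  have h2 : (b : ℝ) ≤ π * (i + 1 : ℕ) / 16 := by
    rw [hb']
    push_cast
    nlinarith
  have h3 : (a : ℝ) ≤ b := by
    rw [ha', hb']
    linarith
  have h4 : π * (i + 1 : ℕ) / 16 ≤ π := by
    push_cast
    nlinarith
  have h0 : 0 ≤ π * i / 16 := by positivity
  have hsub : ∀ x ∈ Icc (a : ℝ) b, x ∈ Icc 0 π := fun x hx =>
    ⟨h0.trans (h1.trans hx.1), hx.2.trans (h2.trans h4)⟩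
  calc (c : ℝ) ≤ ((CFTrig_int k l a b : ℚ) : ℝ) := by exact_mod_cast hc
    _ = ∫ x in (a : ℝ)..b, x ^ k * CFTrig_hr l (x ^ 2) := (CFTrig_int_eq l k a b).symm
    _ ≤ ∫ x in (a : ℝ)..b, f x := by
        apply intervalIntegral.integral_mono_on h3
        · exact (CFTrig_hr_cont2 l k).intervalIntegrable _ _
        · exact hf.intervalIntegrable _ _
        · exact fun x hx => hl x (hsub x hx)
    _ ≤ ∫ x in (π * i / 16)..(π * (i + 1 : ℕ) / 16), f x := by
        apply intervalIntegral.integral_mono_interval h1 h3 h2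
        · refine (ae_restrict_iff' measurableSet_Ioc).mpr (ae_of_all _ fun x hx => ?_)
          exact hpos x ⟨h0.trans hx.1.le, hx.2.trans h4⟩
        · exact hf.intervalIntegrable _ _

theorem CFTrig_tabJ : ∀ i ∈ List.range 16,
    J1.getD i 0 ≤ CFTrig_int 4 (CFTrig_mul CFTrig_L CFTrig_q) (31415927 * i / 160000000)
      (31415926 * (i + 1) / 160000000) ∧
    J2.getD i 0 ≤ CFTrig_int 6 (CFTrig_mul CFTrig_q CFTrig_q) (31415927 * i / 160000000)
      (31415926 * (i + 1) / 160000000) := by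
  decide +kernel

theorem J1_le {i : ℕ} (hi : i < 16) : ((J1.getD i 0 : ℚ) : ℝ) ≤
    ∫ x in (π * i / 16)..(π * (i + 1 : ℕ) / 16), x * Real.sin x * j2 x := by
  have h44 : π ≤ 44 / 10 := by
    have := Real.pi_lt_d2
    linarith
  have hs : ∀ x : ℝ, x * Real.sin x * j2 x = x ^ 2 * (Real.sinc x * j2 x) := by
    intro x
    rw [← CFTrig_sinc_mul x]
    ring
  refine CFTrig_clip (f := fun x => x * Real.sin x * j2 x) ?_ ?_ hi _ 4 ?_ _
    (CFTrig_tabJ i (List.mem_range.mpr hi)).1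
  · exact (continuous_id.mul Real.continuous_sin).mul j2_cont
  · intro x hx
    simp only [hs]
    exact mul_nonneg (sq_nonneg x) (mul_nonneg (sinc_nonneg hx.1 hx.2)
      (j2_nonneg hx.1 (hx.2.trans h44)))
  · intro x hx
    simp only [hs]
    rw [CFTrig_hr_mul]
    have h1 := CFTrig_sinc_ge hx.1
    have h2 := CFTrig_j2_ge hx.1
    have h3 := CFTrig_q_nonneg hx.1 hx.2
    have h4 : 0 ≤ x ^ 2 * CFTrig_hr CFTrig_q (x ^ 2) := mul_nonneg (sq_nonneg x) h3
    calc x ^ 4 * (CFTrig_hr CFTrig_L (x ^ 2) * CFTrig_hr CFTrig_q (x ^ 2))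
        = x ^ 2 * (CFTrig_hr CFTrig_L (x ^ 2) * (x ^ 2 * CFTrig_hr CFTrig_q (x ^ 2))) := by ring
      _ ≤ x ^ 2 * (Real.sinc x * j2 x) := by
          refine mul_le_mul_of_nonneg_left ?_ (sq_nonneg x)
          exact mul_le_mul h1 h2 h4 (sinc_nonneg hx.1 hx.2)

theorem J2_le {i : ℕ} (hi : i < 16) : ((J2.getD i 0 : ℚ) : ℝ) ≤
    ∫ x in (π * i / 16)..(π * (i + 1 : ℕ) / 16), x ^ 2 * j2 x ^ 2 := by
  refine CFTrig_clip (f := fun x => x ^ 2 * j2 x ^ 2) ?_ ?_ hi _ 6 ?_ _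
    (CFTrig_tabJ i (List.mem_range.mpr hi)).2
  · exact (continuous_pow 2).mul (j2_cont.pow 2)
  · intro x _
    exact mul_nonneg (sq_nonneg _) (sq_nonneg _)
  · intro x hx
    rw [CFTrig_hr_mul]
    have h2 := CFTrig_j2_ge hx.1
    have h3 := CFTrig_q_nonneg hx.1 hx.2
    have h4 : 0 ≤ x ^ 2 * CFTrig_hr CFTrig_q (x ^ 2) := mul_nonneg (sq_nonneg x) h3
    calc x ^ 6 * (CFTrig_hr CFTrig_q (x ^ 2) * CFTrig_hr CFTrig_q (x ^ 2))
        = x ^ 2 * (x ^ 2 * CFTrig_hr CFTrig_q (x ^ 2)) ^ 2 := by ring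
      _ ≤ x ^ 2 * j2 x ^ 2 := by
          refine mul_le_mul_of_nonneg_left ?_ (sq_nonneg x)
          exact pow_le_pow_left₀ h4 h2 2

theorem CFTrig_getD_nonneg (l : List ℚ) (h : ∀ x ∈ l, 0 ≤ x) (i : ℕ) : 0 ≤ l.getD i 0 := by
  rw [List.getD_eq_getElem?_getD]
  by_cases hi : i < l.length
  · rw [List.getElem?_eq_getElem hi, Option.getD_some]
    exact h _ (List.getElem_mem hi)
  · rw [List.getElem?_eq_none (not_lt.mp hi), Option.getD_none]

theorem J_nonneg {i : ℕ} : 0 ≤ J1.getD i 0 ∧ 0 ≤ J2.getD i 0 :=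
  ⟨CFTrig_getD_nonneg _ (by decide +kernel) i, CFTrig_getD_nonneg _ (by decide +kernel) i⟩

/-! ### the tables `W1`, `S1`, `C1` -/

theorem CFTrig_tabW : ∀ i ∈ List.range 16,
    CFTrig_int 2 (CFTrig_mul CFTrig_U CFTrig_U) (31415926 * i / 160000000)
      (31415927 * (i + 1) / 160000000) ≤ W1.getD i 0 := by
  decide +kernel

theorem CFTrig_W1 {i : ℕ} (hi : i < 16) :
    ∫ x in (π * i / 16)..(π * (i + 1 : ℕ) / 16), Real.sin x ^ 2 ≤ ((W1.getD i 0 : ℚ) : ℝ) := by
  have hp1 := Real.pi_gt_d20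
  have hp2 := Real.pi_lt_d20
  have hi' : (i : ℝ) ≤ 15 := by exact_mod_cast Nat.lt_succ_iff.mp hi
  have hi0 : (0 : ℝ) ≤ i := Nat.cast_nonneg i
  have hc := CFTrig_tabW i (List.mem_range.mpr hi)
  set a : ℚ := 31415926 * i / 160000000 with ha
  set b : ℚ := 31415927 * (i + 1) / 160000000 with hb
  have ha' : (a : ℝ) = 31415926 * i / 160000000 := by
    rw [ha]
    push_cast
    ring
  have hb' : (b : ℝ) = 31415927 * (i + 1) / 160000000 := by
    rw [hb]
    push_cast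
    ring
  have h1 : (a : ℝ) ≤ π * i / 16 := by
    rw [ha']
    nlinarith
  have h2 : π * (i + 1 : ℕ) / 16 ≤ (b : ℝ) := by
    rw [hb']
    push_cast
    nlinarith
  have h3 : π * i / 16 ≤ π * (i + 1 : ℕ) / 16 := by
    push_cast
    nlinarith
  have h4 : π * (i + 1 : ℕ) / 16 ≤ π := by
    push_cast
    nlinarith
  have h0 : 0 ≤ π * i / 16 := by positivity
  calc ∫ x in (π * i / 16)..(π * (i + 1 : ℕ) / 16), Real.sin x ^ 2
      ≤ ∫ x in (π * i / 16)..(π * (i + 1 : ℕ) / 16),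
        x ^ 2 * CFTrig_hr (CFTrig_mul CFTrig_U CFTrig_U) (x ^ 2) := by
        apply intervalIntegral.integral_mono_on h3
        · exact (Real.continuous_sin.pow 2).intervalIntegrable _ _
        · exact (CFTrig_hr_cont2 _ 2).intervalIntegrable _ _
        · intro x hx
          have hx0 : 0 ≤ x := h0.trans hx.1
          have hs := CFTrig_sin_le hx0
          have hs0 : 0 ≤ Real.sin x := Real.sin_nonneg_of_nonneg_of_le_pi hx0 (hx.2.trans h4)
          rw [CFTrig_hr_mul]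
          have := pow_le_pow_left₀ hs0 hs 2
          calc Real.sin x ^ 2 ≤ (x * CFTrig_hr CFTrig_U (x ^ 2)) ^ 2 := this
            _ = _ := by ring
    _ ≤ ∫ x in (a : ℝ)..b, x ^ 2 * CFTrig_hr (CFTrig_mul CFTrig_U CFTrig_U) (x ^ 2) := by
        apply intervalIntegral.integral_mono_interval h1 h3 h2
        · refine ae_of_all _ fun x => ?_
          simp only [Pi.zero_apply]
          rw [CFTrig_hr_mul]
          exact mul_nonneg (sq_nonneg x) (mul_self_nonneg _)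
        · exact (CFTrig_hr_cont2 _ 2).intervalIntegrable _ _
    _ = ((CFTrig_int 2 (CFTrig_mul CFTrig_U CFTrig_U) a b : ℚ) : ℝ) := CFTrig_int_eq _ _ _ _
    _ ≤ _ := by exact_mod_cast hc

theorem CFTrig_sin_sub_sq (x : ℝ) (q : ℕ) : Real.sin (x - q * π) ^ 2 = Real.sin x ^ 2 := by
  rw [Real.sin_sub_nat_mul_pi, mul_pow, ← pow_mul, mul_comm q 2, pow_mul]
  norm_num

theorem CFTrig_W1' (n : ℕ) :
    ∫ x in (π * n / 16)..(π * (n + 1 : ℕ) / 16), Real.sin x ^ 2 ≤
      ((W1.getD (n % 16) 0 : ℚ) : ℝ) := by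
  refine le_trans (le_of_eq ?_) (CFTrig_W1 (Nat.mod_lt n (by norm_num)))
  have hn : ((n / 16 : ℕ) : ℝ) * 16 + ((n % 16 : ℕ) : ℝ) = n := by
    exact_mod_cast Nat.div_add_mod' n 16
  have e : (fun x : ℝ => Real.sin x ^ 2) =
      fun x : ℝ => (fun y : ℝ => Real.sin y ^ 2) (x - ((n / 16 : ℕ) : ℝ) * π) := by
    funext x
    exact (CFTrig_sin_sub_sq x _).symm
  conv_lhs => rw [e]
  rw [intervalIntegral.integral_comp_sub_right (fun y : ℝ => Real.sin y ^ 2)]
  congr 1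
  · rw [← hn]
    ring
  · push_cast
    rw [← hn]
    push_cast
    ring

theorem cW_le (n w : ℕ) : ∫ x in (π * n / 16)..(π * (n + w : ℕ) / 16), Real.sin x ^ 2 ≤
    ((cW n w : ℚ) : ℝ) := by
  induction w with
  | zero => simp [cW]
  | succ w ih =>
    have h1 : cW n (w + 1) = cW n w + W1.getD ((n + w) % 16) 0 := by
      unfold cW
      rw [List.range_succ, List.map_append, List.sum_append]
      simp
    have h2 : ∫ x in (π * n / 16)..(π * (n + (w + 1) : ℕ) / 16), Real.sin x ^ 2 =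
        (∫ x in (π * n / 16)..(π * (n + w : ℕ) / 16), Real.sin x ^ 2) +
        ∫ x in (π * (n + w : ℕ) / 16)..(π * ((n + w) + 1 : ℕ) / 16), Real.sin x ^ 2 := by
      rw [intervalIntegral.integral_add_adjacent_intervals]
      · rfl
      · exact (Real.continuous_sin.pow 2).intervalIntegrable _ _
      · exact (Real.continuous_sin.pow 2).intervalIntegrable _ _
    rw [h1, h2]
    push_cast
    have h3 := CFTrig_W1' (n + w)
    push_cast at h3 ih
    exact add_le_add ih h3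

theorem CFTrig_tabS : ∀ i ∈ List.range 7,
    (31415927 * (i + 1) / 160000000 : ℚ) *
      hor CFTrig_U ((31415927 * (i + 1) / 160000000) ^ 2) ≤ S1.getD i 0 := by
  decide +kernel

theorem CFTrig_hor_eq (l : List ℚ) (z : ℚ) : ((hor l z : ℚ) : ℝ) = CFTrig_hr l z := by
  induction l with
  | nil => simp [hor, CFTrig_hr]
  | cons c l ih =>
    simp only [hor, CFTrig_hr, ← ih]
    push_cast
    ring

theorem CFTrig_S1a {i : ℕ} (hi : i < 8) {x : ℝ} (h1 : π * i / 16 ≤ x)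
    (h2 : x ≤ π * (i + 1 : ℕ) / 16) : |Real.sin x| ≤ ((S1.getD i 0 : ℚ) : ℝ) := by
  rcases Nat.lt_succ_iff_lt_or_eq.mp hi with hi | hi
  · have hp1 := Real.pi_gt_d20
    have hp2 := Real.pi_lt_d20
    have hi' : (i : ℝ) ≤ 6 := by exact_mod_cast Nat.lt_succ_iff.mp hi
    have hi0 : (0 : ℝ) ≤ i := Nat.cast_nonneg i
    have hc := CFTrig_tabS i (List.mem_range.mpr hi)
    set b : ℚ := 31415927 * (i + 1) / 160000000 with hb
    have hb' : (b : ℝ) = 31415927 * (i + 1) / 160000000 := by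
      rw [hb]
      push_cast
      ring
    have hx0 : 0 ≤ x := le_trans (by positivity) h1
    have hxb : x ≤ b := by
      rw [hb']
      push_cast at h2
      nlinarith
    have hb2 : (b : ℝ) ≤ π / 2 := by
      rw [hb']
      nlinarith
    have hb0 : (0 : ℝ) ≤ b := hx0.trans hxb
    rw [abs_of_nonneg (Real.sin_nonneg_of_nonneg_of_le_pi hx0 (by linarith))]
    calc Real.sin x ≤ Real.sin b :=
          Real.sin_le_sin_of_le_of_le_pi_div_two (by linarith) hb2 hxb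
      _ ≤ b * CFTrig_hr CFTrig_U ((b : ℝ) ^ 2) := CFTrig_sin_le hb0
      _ = ((b * hor CFTrig_U (b ^ 2) : ℚ) : ℝ) := by
          have := CFTrig_hor_eq CFTrig_U (b ^ 2)
          push_cast at this ⊢
          rw [this]
      _ ≤ _ := by exact_mod_cast hc
  · subst hi
    have e : S1.getD 7 0 = 1 := rfl
    rw [e]
    simpa using Real.abs_sin_le_one x

theorem CFTrig_S1_symm : ∀ i ∈ List.range 16, S1.getD (15 - i) 0 = S1.getD i 0 := by
  decide +kernel

theorem CFTrig_S1 {i : ℕ} (hi : i < 16) {x : ℝ} (h1 : π * i / 16 ≤ x)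
    (h2 : x ≤ π * (i + 1 : ℕ) / 16) : |Real.sin x| ≤ ((S1.getD i 0 : ℚ) : ℝ) := by
  by_cases h8 : i < 8
  · exact CFTrig_S1a h8 h1 h2
  · rw [← CFTrig_S1_symm i (List.mem_range.mpr hi), ← Real.sin_pi_sub x]
    have e1 : ((15 - i : ℕ) : ℝ) = 15 - (i : ℝ) := by
      rw [Nat.cast_sub (by omega)]
      norm_num
    refine CFTrig_S1a (by omega) ?_ ?_
    · rw [e1]
      push_cast at h2
      linarith
    · push_cast
      rw [e1]
      linarith

theorem CFTrig_S1' {n : ℕ} {x : ℝ} (h1 : π * n / 16 ≤ x)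
    (h2 : x ≤ π * (n + 1 : ℕ) / 16) : |Real.sin x| ≤ ((S1.getD (n % 16) 0 : ℚ) : ℝ) := by
  have hn : ((n / 16 : ℕ) : ℝ) * 16 + ((n % 16 : ℕ) : ℝ) = n := by
    exact_mod_cast Nat.div_add_mod' n 16
  have e : |Real.sin x| = |Real.sin (x - ((n / 16 : ℕ) : ℝ) * π)| := by
    rw [← sq_eq_sq₀ (abs_nonneg _) (abs_nonneg _), sq_abs, sq_abs]
    exact (CFTrig_sin_sub_sq x _).symm
  rw [e]
  refine CFTrig_S1 (Nat.mod_lt n (by norm_num)) ?_ ?_
  · rw [← hn] at h1
    linarith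
  · push_cast at h2 ⊢
    rw [← hn] at h2
    linarith

theorem CFTrig_le_foldr (l : List ℚ) : ∀ a ∈ l, a ≤ l.foldr max 0 := by
  induction l with
  | nil => simp
  | cons b l ih =>
    intro a ha
    rw [List.foldr_cons]
    rcases List.mem_cons.mp ha with h | h
    · rw [h]
      exact le_max_left _ _
    · exact (ih a h).trans (le_max_right _ _)

theorem CFTrig_foldr_nonneg (l : List ℚ) : 0 ≤ l.foldr max 0 := by
  induction l with
  | nil => simp
  | cons b l ih =>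
    rw [List.foldr_cons]
    exact ih.trans (le_max_right _ _)

theorem CFTrig_cS_ge {n w j : ℕ} (hj : j < w) : S1.getD ((n + j) % 16) 0 ≤ cS n w := by
  unfold cS
  apply CFTrig_le_foldr
  exact List.mem_map.mpr ⟨j, List.mem_range.mpr hj, rfl⟩

theorem CFTrig_cell (n : ℕ) : ∀ w : ℕ, 0 < w → ∀ x : ℝ, π * n / 16 ≤ x →
    x ≤ π * (n + w : ℕ) / 16 →
    ∃ j, j < w ∧ π * (n + j : ℕ) / 16 ≤ x ∧ x ≤ π * (n + j + 1 : ℕ) / 16 := by
  intro w
  induction w with
  | zero => intro h; exact absurd h (lt_irrefl _)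
  | succ w ih =>
    intro _ x h1 h2
    by_cases hw : w = 0
    · subst hw
      exact ⟨0, by norm_num, h1, h2⟩
    · by_cases hx : x ≤ π * (n + w : ℕ) / 16
      · obtain ⟨j, hj, h3, h4⟩ := ih (Nat.pos_of_ne_zero hw) x h1 hx
        exact ⟨j, by omega, h3, h4⟩
      · exact ⟨w, by omega, (not_le.mp hx).le, h2⟩

theorem cS_le {n w : ℕ} {x : ℝ} (h1 : π * n / 16 ≤ x) (h2 : x ≤ π * (n + w : ℕ) / 16) (hw : 0 < w) :
    |Real.sin x| ≤ ((cS n w : ℚ) : ℝ) := by
  obtain ⟨j, hj, h3, h4⟩ := CFTrig_cell n w hw x h1 h2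
  refine (CFTrig_S1' h3 h4).trans ?_
  exact_mod_cast CFTrig_cS_ge (n := n) hj

theorem CFTrig_C1_eq : ∀ i ∈ List.range 16, C1.getD i 0 = S1.getD ((i + 8) % 16) 0 := by
  decide +kernel

theorem CFTrig_cC_eq (n w : ℕ) : cC n w = cS (n + 8) w := by
  unfold cC cS
  congr 1
  apply List.map_congr_left
  intro j _
  have h := CFTrig_C1_eq ((n + j) % 16) (List.mem_range.mpr (Nat.mod_lt _ (by norm_num)))
  rw [h]
  congr 1
  omega

theorem cC_le {n w : ℕ} {x : ℝ} (h1 : π * n / 16 ≤ x) (h2 : x ≤ π * (n + w : ℕ) / 16) (hw : 0 < w) :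
    |Real.cos x| ≤ ((cC n w : ℚ) : ℝ) := by
  rw [CFTrig_cC_eq, ← Real.sin_add_pi_div_two]
  refine cS_le ?_ ?_ hw
  · push_cast
    linarith
  · push_cast at h2 ⊢
    linarith

theorem cS_nonneg (n w : ℕ) : 0 ≤ cS n w := CFTrig_foldr_nonneg _

theorem cC_nonneg (n w : ℕ) : 0 ≤ cC n w := CFTrig_foldr_nonneg _

theorem cW_nonneg (n w : ℕ) : 0 ≤ cW n w := by
  unfold cW
  apply List.sum_nonneg
  intro x hx
  obtain ⟨j, _, rfl⟩ := List.mem_map.mp hx
  exact CFTrig_getD_nonneg _ (by decide +kernel) _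

end CF

end GCube
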