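import Pool.Agent.Lib.H83.CFPt
import Pool.Agent.Lib.H83.CFTrig
import Pool.Agent.Lib.H83.CFInt

/-!
Chunk CC: the cells. `ρ = Pn τ (yπ)`.

* `rho_ge`: `yπ ≤ y2 pU`, `Plo_le`.
* `cA_le`: `m2 k y²/2 ≥ mL K y1²/2`, and `≥ mL (Q - y2²/2)` from `(k+1)y² ≥ 2Q`.
* `cL_le` (`x ≤ π n/16`, `n ≤ 16`): exponential form from `Pn_exp_anti` (between `yx` and `yπ`): `P(yx)/ρ ≥ exp(m2 y²(π²-x²)/2)`, power `k`,
  `≥ exp(A(π² - x²)) ≥ Tq(A pL²(1-(n/16)²))`; power form: `P(yx)/ρ ≥ P(yb)/P(yπ) ≥ P(y1 b)/P(y1 π)` (`Pn_anti`, `Pn_cross`,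
  `b = π n/16`), this ratio is `≥ 1`, so the power `k` is `≥` the power `K`, and it is `≥ Plo/Pup`.
* `le_cU` (`x ≥ π n/16`, `n ≥ 16`, `yx ≤ π`): the same with `≤`.
* `int_M`: on cell `i < 16`: `kap_lower` with `sinc(yx) ≥ sinc(y2 b) ≥ snL`, `1-μ`, `sg(1-μ)` bounded below by `c2`, `c1`, and `cL`; then
  `J1_le`, `J2_le` (`x sin x j2 ≥ 0` on `[0,π]`). Sum over the 16 cells.
* `int_C`: one cell: near (`kap_amgm`, `Pup`, `snL`, `cU`, `cW_le`; here `ru (y2 aUp) ≤ UC ≤ 3 < π`) or far (`kap_abs`,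
  `xXn_bound`, `cS_le`, `cC_le`, `Pn_eq` for `|xP| ≤ hU cS + (1-hL) xX`, `sinc_le_sF`, `Xn_le_XF`; the factor `|P_y|^k`: `cU` if
  `u2 ≤ 3.1415`, else `|P_y| ≤ pF ≤ rL ≤ ρ`, so `(|P_y|/ρ)^k ≤ (pF/rL)^K`). Induction on `cnt`.
-/

open MeasureTheory Set
open scoped Real

namespace GCube

open CF

/-- hypotheses on a block -/
structure BOk (T : CF.Tb) (b : CF.Bk) (τ y : ℝ) (k : ℕ) : Prop where
  hT : TOk T τ
  hy1 : (b.y1 : ℝ) ≤ y
  hy2 : y ≤ b.y2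
  ypos : 0 < y
  hk : b.K ≤ k
  hQ : 2 * (T.Q : ℝ) ≤ (k + 1) * y ^ 2
  hg : okG T b = true

variable {T : CF.Tb} {b : CF.Bk} {τ y : ℝ} {k : ℕ}

/-! ### auxiliary -/

private theorem CCE_rd_nonneg {q : ℚ} (h : 0 ≤ q) : 0 ≤ rd q := by
  unfold rd
  apply div_nonneg _ (by norm_num)
  exact_mod_cast Int.floor_nonneg.2 (mul_nonneg h (by norm_num))

private theorem CCE_ru_le (q : ℚ) : ru q ≤ q + 1 / 100000000 := by
  have h := Int.lt_floor_add_one (-q * 100000000)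
  have h2 : ru q = -((⌊-q * 100000000⌋ : ℚ) / 100000000) := rfl
  rw [h2]
  rw [neg_le, le_div_iff₀ (by norm_num)]
  linarith

private theorem CCE_rd_le' (q : ℚ) : ((rd q : ℚ) : ℝ) ≤ (q : ℝ) := by
  exact_mod_cast rd_le q

private theorem CCE_le_ru' (q : ℚ) : (q : ℝ) ≤ ((ru q : ℚ) : ℝ) := by
  exact_mod_cast le_ru q

private theorem CCE_okG (h : okG T b = true) : 0 ≤ b.y1 ∧ b.y1 < b.y2 ∧ b.y2 ≤ 9 / 10 ∧ 2 ≤ b.K ∧
    (b.K = 2 ∨ b.K * b.y2 ^ 2 < 2 * T.Q) ∧ b.UC ≤ 3 ∧ 0 < rL T b ∧ 0 < Plo T (ru (b.y1 * pU)) ∧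
    0 ≤ cA T b ∧ (b.pw = false ∨ 0 < b.y1) := by
  simp only [okG, Bool.and_eq_true, Bool.or_eq_true, decide_eq_true_eq] at h
  tauto

private theorem CCE_pU : ((pU : ℚ) : ℝ) = 3141593 / 1000000 := by
  simp only [pU]; norm_num

private theorem CCE_pL : ((pL : ℚ) : ℝ) = 3141592 / 1000000 := by
  simp only [pL]; norm_num

private theorem CCE_ru3 {q : ℚ} (h : q ≤ 29 / 10) : ((ru q : ℚ) : ℝ) ≤ 3 := by
  have h1 := CCE_ru_le q
  have h2 : ru q ≤ 3 := by linarith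
  exact_mod_cast h2

private theorem CCE_ylt (h : BOk T b τ y k) : y ≤ 9 / 10 := by
  obtain ⟨g1, g2, g3, g4, g5, g6, g7, g8, g9, g10⟩ := CCE_okG h.hg
  have : ((b.y2 : ℚ) : ℝ) ≤ ((9 / 10 : ℚ) : ℝ) := by exact_mod_cast g3
  have h2 := h.hy2
  push_cast at this
  linarith

private theorem CCE_yπ (h : BOk T b τ y k) : y * π ≤ π := by
  have := CCE_ylt h
  nlinarith [Real.pi_pos]

private theorem CCE_ρpos (h : BOk T b τ y k) : 0 < Pn τ (y * π) :=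
  Pn_pos h.hT.τpos (mul_nonneg h.ypos.le Real.pi_pos.le) (CCE_yπ h)

theorem rho_ge (h : BOk T b τ y k) : 0 < rL T b ∧ ((rL T b : ℚ) : ℝ) ≤ Pn τ (y * π) := by
  obtain ⟨g1, g2, g3, g4, g5, g6, g7, g8, g9, g10⟩ := CCE_okG h.hg
  refine ⟨g7, ?_⟩
  have hpU := lt_pU
  have hy0 := h.ypos
  have hy2 := h.hy2
  have hq : b.y2 * pU ≤ 29 / 10 := by
    simp only [pU]
    linarith
  apply Plo_le h.hT (mul_nonneg hy0.le Real.pi_pos.le)
  · calc y * π ≤ b.y2 * pU := mul_le_mul hy2 hpU.le Real.pi_pos.le (by linarith)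
      _ = ((b.y2 * pU : ℚ) : ℝ) := by push_cast; rfl
      _ ≤ _ := CCE_le_ru' _
  · have := CCE_ru3 hq
    linarith [Real.pi_gt_three]

theorem cA_le (h : BOk T b τ y k) : 0 ≤ cA T b ∧ ((cA T b : ℚ) : ℝ) ≤ m2 τ * k * y ^ 2 / 2 := by
  obtain ⟨g1, g2, g3, g4, g5, g6, g7, g8, g9, g10⟩ := CCE_okG h.hg
  refine ⟨g9, ?_⟩
  have hm0 : (0 : ℝ) < T.mL := by exact_mod_cast h.hT.mL0
  have hm := h.hT.mL
  have e1 : ((cA T b : ℚ) : ℝ) ≤
      T.mL * max ((b.K : ℝ) * (b.y1 : ℝ) ^ 2 / 2) ((T.Q : ℝ) - (b.y2 : ℝ) ^ 2 / 2) := by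
    have h2 := CCE_rd_le' (T.mL * max (b.K * b.y1 ^ 2 / 2) (T.Q - b.y2 ^ 2 / 2))
    push_cast at h2
    exact h2
  have e2 : max ((b.K : ℝ) * (b.y1 : ℝ) ^ 2 / 2) ((T.Q : ℝ) - (b.y2 : ℝ) ^ 2 / 2) ≤ k * y ^ 2 / 2 := by
    apply max_le
    · have h3 : (b.y1 : ℝ) ^ 2 ≤ y ^ 2 := pow_le_pow_left₀ (by exact_mod_cast g1) h.hy1 2
      have hk : (b.K : ℝ) ≤ k := by exact_mod_cast h.hk
      have := mul_le_mul hk h3 (by positivity) (by positivity)
      linarith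
    · have h3 := h.hQ
      have h4 : y ^ 2 ≤ (b.y2 : ℝ) ^ 2 := pow_le_pow_left₀ h.ypos.le h.hy2 2
      linarith
  have e3 : (0 : ℝ) ≤ k * y ^ 2 / 2 := by positivity
  calc ((cA T b : ℚ) : ℝ) ≤
      T.mL * max ((b.K : ℝ) * (b.y1 : ℝ) ^ 2 / 2) ((T.Q : ℝ) - (b.y2 : ℝ) ^ 2 / 2) := e1
    _ ≤ T.mL * (k * y ^ 2 / 2) := mul_le_mul_of_nonneg_left e2 hm0.le
    _ ≤ m2 τ * (k * y ^ 2 / 2) := mul_le_mul_of_nonneg_right hm e3
    _ = m2 τ * k * y ^ 2 / 2 := by ring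

private theorem CCE_exp_pow {u v : ℝ} (hτ : 0 < τ) (h0 : 0 ≤ u) (h1 : u ≤ v) (h2 : v ≤ π) (k : ℕ) :
    Pn τ v ^ k * Real.exp (m2 τ * k / 2 * (v ^ 2 - u ^ 2)) ≤ Pn τ u ^ k := by
  have hanti := Pn_exp_anti hτ ⟨h0, h1.trans h2⟩ ⟨h0.trans h1, h2⟩ h1
  simp only at hanti
  have hPv := (Pn_pos hτ (h0.trans h1) h2).le
  have hb : Pn τ v * Real.exp (m2 τ * v ^ 2 / 2 - m2 τ * u ^ 2 / 2) ≤ Pn τ u := by
    rw [Real.exp_sub, ← mul_div_assoc, div_le_iff₀ (Real.exp_pos _)]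
    exact hanti
  have h3 := pow_le_pow_left₀ (by positivity) hb k
  rw [mul_pow, ← Real.exp_nat_mul] at h3
  have h4 : m2 τ * k / 2 * (v ^ 2 - u ^ 2) = (k : ℝ) * (m2 τ * v ^ 2 / 2 - m2 τ * u ^ 2 / 2) := by
    ring
  rw [h4]
  exact h3

private theorem CCE_aUp (n : ℕ) : π * n / 16 ≤ ((aUp n : ℚ) : ℝ) := by
  have h := lt_pU
  have hn : (0 : ℝ) ≤ n := Nat.cast_nonneg n
  unfold aUp
  push_cast
  have := mul_le_mul_of_nonneg_right h.le hn
  linarith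

private theorem CCE_aLo (n : ℕ) : ((aLo n : ℚ) : ℝ) ≤ π * n / 16 := by
  have h := pL_lt
  have hn : (0 : ℝ) ≤ n := Nat.cast_nonneg n
  unfold aLo
  push_cast
  have := mul_le_mul_of_nonneg_right h.le hn
  linarith

private theorem CCE_aLo_nonneg (n : ℕ) : 0 ≤ aLo n := by
  unfold aLo pL
  positivity

private theorem CCE_aUp_nonneg (n : ℕ) : 0 ≤ aUp n := by
  unfold aUp pU
  positivity

private theorem CCE_cL_nonneg (h : BOk T b τ y k) {n : ℕ} (hn : n ≤ 16) : 0 ≤ cL T b n := by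
  obtain ⟨g1, g2, g3, g4, g5, g6, g7, g8, g9, g10⟩ := CCE_okG h.hg
  unfold cL
  split_ifs with hp
  · apply CCE_rd_nonneg
    apply pow_nonneg
    apply div_nonneg (le_max_left _ _)
    apply (Pup_pos h.hT _).le
    apply CCE_rd_nonneg
    exact mul_nonneg g1 (by norm_num [pL])
  · apply CCE_rd_nonneg
    have hn' : (n : ℚ) / 16 ≤ 1 := by
      rw [div_le_one (by norm_num)]
      exact_mod_cast hn
    have h0 : (0 : ℚ) ≤ (n : ℚ) / 16 := by positivity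
    have h1 : 0 ≤ 1 - ((n : ℚ) / 16) ^ 2 := by nlinarith
    have h2 := one_le_Tq (w := cA T b * pL ^ 2 * (1 - (n / 16) ^ 2)) (by positivity)
    linarith

theorem cL_le (h : BOk T b τ y k) {n : ℕ} (hn : n ≤ 16) {x : ℝ} (h0 : 0 ≤ x) (h1 : x ≤ π * n / 16) :
    ((cL T b n : ℚ) : ℝ) * Pn τ (y * π) ^ k ≤ Pn τ (y * x) ^ k := by
  obtain ⟨g1, g2, g3, g4, g5, g6, g7, g8, g9, g10⟩ := CCE_okG h.hg
  have hτ := h.hT.τpos
  have hy0 := h.ypos
  have hy9 := CCE_ylt h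
  have hπ := Real.pi_pos
  have hn' : (n : ℝ) ≤ 16 := by exact_mod_cast hn
  have hbπ : π * n / 16 ≤ π := by
    have := mul_le_mul_of_nonneg_left hn' hπ.le
    linarith
  have hb0 : 0 ≤ π * n / 16 := by positivity
  have hxπ : x ≤ π := h1.trans hbπ
  have hyπ := CCE_yπ h
  have hρ := CCE_ρpos h
  have hy1 : (0 : ℝ) ≤ b.y1 := by exact_mod_cast g1
  unfold cL
  split_ifs with hp
  · have hy1π : (b.y1 : ℝ) * π ≤ π := (mul_le_mul_of_nonneg_right h.hy1 hπ.le).trans hyπ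
    have hP1 : 0 < Pn τ (b.y1 * π) := Pn_pos hτ (by positivity) hy1π
    have hcross := Pn_cross hτ hy1 h.hy1 hb0 hbπ hyπ
    have hanti : Pn τ (y * (π * n / 16)) ≤ Pn τ (y * x) := by
      apply Pn_anti hτ
      · exact ⟨by positivity, by nlinarith [Real.pi_lt_d2]⟩
      · exact ⟨by positivity, by nlinarith [Real.pi_lt_d2]⟩
      · exact mul_le_mul_of_nonneg_left h1 hy0.le
    have hyb : (b.y1 : ℝ) * (π * n / 16) ≤ b.y1 * π := mul_le_mul_of_nonneg_left hbπ hy1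
    have hR : Pn τ (b.y1 * π) ≤ Pn τ (b.y1 * (π * n / 16)) := by
      apply Pn_anti hτ
      · exact ⟨by positivity, by nlinarith [Real.pi_lt_d2]⟩
      · exact ⟨by positivity, by nlinarith [Real.pi_lt_d2]⟩
      · exact hyb
    -- the lower bound
    have hLo : ((Plo T (ru (b.y1 * aUp n)) : ℚ) : ℝ) ≤ Pn τ (b.y1 * (π * n / 16)) := by
      apply Plo_le h.hT (by positivity)
      · calc (b.y1 : ℝ) * (π * n / 16) ≤ b.y1 * aUp n := mul_le_mul_of_nonneg_left (CCE_aUp n) hy1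
          _ = ((b.y1 * aUp n : ℚ) : ℝ) := by push_cast; rfl
          _ ≤ _ := CCE_le_ru' _
      · have hq : b.y1 * aUp n ≤ 29 / 10 := by
          have hnq : (n : ℚ) ≤ 16 := by exact_mod_cast hn
          have h5 : aUp n ≤ pU := by
            unfold aUp pU
            linarith
          have h6 : b.y1 * aUp n ≤ 9 / 10 * pU :=
            mul_le_mul (by linarith) h5 (CCE_aUp_nonneg n) (by norm_num)
          have h7 : (9 : ℚ) / 10 * pU ≤ 29 / 10 := by norm_num [pU]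
          linarith
        have := CCE_ru3 hq
        linarith [Real.pi_gt_three]
    have hUp : Pn τ (b.y1 * π) ≤ ((Pup T (rd (b.y1 * pL)) : ℚ) : ℝ) := by
      apply le_Pup h.hT
      · exact CCE_rd_nonneg (mul_nonneg g1 (by norm_num [pL]))
      · calc ((rd (b.y1 * pL) : ℚ) : ℝ) ≤ ((b.y1 * pL : ℚ) : ℝ) := CCE_rd_le' _
          _ = b.y1 * pL := by push_cast; rfl
          _ ≤ b.y1 * π := mul_le_mul_of_nonneg_left pL_lt.le hy1
      · exact hy1π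
    have hUp0 : (0 : ℝ) < ((Pup T (rd (b.y1 * pL)) : ℚ) : ℝ) := lt_of_lt_of_le hP1 hUp
    have hM0 : (0 : ℝ) ≤ max 0 ((Plo T (ru (b.y1 * aUp n)) : ℚ) : ℝ) := le_max_left _ _
    have hLo' : max 0 ((Plo T (ru (b.y1 * aUp n)) : ℚ) : ℝ) ≤ Pn τ (b.y1 * (π * n / 16)) :=
      max_le (hP1.le.trans hR) hLo
    set r0 : ℝ := max 0 ((Plo T (ru (b.y1 * aUp n)) : ℚ) : ℝ) / ((Pup T (rd (b.y1 * pL)) : ℚ) : ℝ)
      with hr0
    have hr00 : 0 ≤ r0 := div_nonneg hM0 hUp0.le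
    have hr0R : r0 ≤ Pn τ (b.y1 * (π * n / 16)) / Pn τ (b.y1 * π) := by
      rw [hr0]
      exact div_le_div₀ (hP1.le.trans hR) hLo' hP1 hUp
    set R : ℝ := Pn τ (b.y1 * (π * n / 16)) / Pn τ (b.y1 * π) with hRdef
    have hR1 : 1 ≤ R := by
      rw [hRdef, one_le_div hP1]
      exact hR
    have hRρ : R * Pn τ (y * π) ≤ Pn τ (y * x) := by
      rw [hRdef, div_mul_eq_mul_div, div_le_iff₀ hP1]
      exact hcross.trans (mul_le_mul_of_nonneg_right hanti hP1.le)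
    have hcast : (((rd ((max 0 (Plo T (ru (b.y1 * aUp n))) / Pup T (rd (b.y1 * pL))) ^ b.K) : ℚ)) : ℝ) ≤
        r0 ^ b.K := by
      refine (CCE_rd_le' _).trans (le_of_eq ?_)
      push_cast
      rfl
    calc _ ≤ r0 ^ b.K * Pn τ (y * π) ^ k := mul_le_mul_of_nonneg_right hcast (by positivity)
      _ ≤ R ^ b.K * Pn τ (y * π) ^ k :=
        mul_le_mul_of_nonneg_right (pow_le_pow_left₀ hr00 hr0R _) (by positivity)
      _ ≤ R ^ k * Pn τ (y * π) ^ k :=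
        mul_le_mul_of_nonneg_right (pow_le_pow_right₀ hR1 h.hk) (by positivity)
      _ = (R * Pn τ (y * π)) ^ k := by rw [mul_pow]
      _ ≤ Pn τ (y * x) ^ k := pow_le_pow_left₀ (by positivity) hRρ k
  · obtain ⟨hA0, hA⟩ := cA_le h
    have hA0' : (0 : ℝ) ≤ cA T b := by exact_mod_cast hA0
    have hexp := CCE_exp_pow hτ (u := y * x) (v := y * π) (by positivity)
      (mul_le_mul_of_nonneg_left hxπ hy0.le) hyπ k
    have hnq : (n : ℚ) / 16 ≤ 1 := by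
      rw [div_le_one (by norm_num)]
      exact_mod_cast hn
    have hnq0 : (0 : ℚ) ≤ (n : ℚ) / 16 := by positivity
    have hw0 : (0 : ℚ) ≤ cA T b * pL ^ 2 * (1 - (n / 16) ^ 2) := by
      have : (0 : ℚ) ≤ 1 - ((n : ℚ) / 16) ^ 2 := by nlinarith
      positivity
    have hT := Tq_le_exp hw0
    have hw : (((cA T b * pL ^ 2 * (1 - (n / 16) ^ 2) : ℚ)) : ℝ) ≤
        m2 τ * k / 2 * ((y * π) ^ 2 - (y * x) ^ 2) := by
      push_cast
      have hx2 : x ^ 2 ≤ (π * n / 16) ^ 2 := pow_le_pow_left₀ h0 h1 2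
      have hnr : (0 : ℝ) ≤ 1 - ((n : ℝ) / 16) ^ 2 := by
        have h5 : (n : ℝ) / 16 ≤ 1 := by
          rw [div_le_one (by norm_num)]
          exact hn'
        have h6 : (0 : ℝ) ≤ (n : ℝ) / 16 := by positivity
        nlinarith
      have h7 : ((pL : ℚ) : ℝ) ^ 2 ≤ π ^ 2 :=
        pow_le_pow_left₀ (by rw [CCE_pL]; norm_num) pL_lt.le 2
      have h8 : ((pL : ℚ) : ℝ) ^ 2 * (1 - ((n : ℝ) / 16) ^ 2) ≤ π ^ 2 - x ^ 2 := by
        have h9 := mul_le_mul_of_nonneg_right h7 hnr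
        have h10 : π ^ 2 * (1 - ((n : ℝ) / 16) ^ 2) = π ^ 2 - (π * n / 16) ^ 2 := by ring
        linarith
      have h11 : (0 : ℝ) ≤ ((pL : ℚ) : ℝ) ^ 2 * (1 - ((n : ℝ) / 16) ^ 2) := by positivity
      calc (cA T b : ℝ) * (pL : ℝ) ^ 2 * (1 - ((n : ℝ) / 16) ^ 2)
          = (cA T b : ℝ) * ((pL : ℝ) ^ 2 * (1 - ((n : ℝ) / 16) ^ 2)) := by ring
        _ ≤ (m2 τ * k * y ^ 2 / 2) * (π ^ 2 - x ^ 2) :=
          mul_le_mul hA h8 h11 (hA0'.trans hA)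
        _ = _ := by ring
    have hcast : (((rd (Tq (cA T b * pL ^ 2 * (1 - (n / 16) ^ 2)))) : ℚ) : ℝ) ≤
        Real.exp (m2 τ * k / 2 * ((y * π) ^ 2 - (y * x) ^ 2)) :=
      (CCE_rd_le' _).trans (hT.trans (Real.exp_le_exp.2 hw))
    calc _ ≤ Real.exp (m2 τ * k / 2 * ((y * π) ^ 2 - (y * x) ^ 2)) * Pn τ (y * π) ^ k :=
          mul_le_mul_of_nonneg_right hcast (by positivity)
      _ = Pn τ (y * π) ^ k * Real.exp (m2 τ * k / 2 * ((y * π) ^ 2 - (y * x) ^ 2)) := mul_comm _ _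
      _ ≤ _ := hexp

theorem le_cU (h : BOk T b τ y k) {n : ℕ} (hn : 16 ≤ n) {x : ℝ} (h1 : π * n / 16 ≤ x) (h2 : y * x ≤ π) :
    Pn τ (y * x) ^ k ≤ ((cU T b n : ℚ) : ℝ) * Pn τ (y * π) ^ k := by
  obtain ⟨g1, g2, g3, g4, g5, g6, g7, g8, g9, g10⟩ := CCE_okG h.hg
  have hτ := h.hT.τpos
  have hy0 := h.ypos
  have hy9 := CCE_ylt h
  have hπ := Real.pi_pos
  have hn' : (16 : ℝ) ≤ n := by exact_mod_cast hn
  have hbπ : π ≤ π * n / 16 := by
    have := mul_le_mul_of_nonneg_left hn' hπ.le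
    linarith
  have hxπ : π ≤ x := hbπ.trans h1
  have hx0 : 0 < x := hπ.trans_le hxπ
  have hyπ := CCE_yπ h
  have hρ := CCE_ρpos h
  have hy1 : (0 : ℝ) ≤ b.y1 := by exact_mod_cast g1
  have hyx : 0 < Pn τ (y * x) := Pn_pos hτ (by positivity) h2
  unfold cU
  split_ifs with hp
  · have hy1π : (b.y1 : ℝ) * π ≤ π := (mul_le_mul_of_nonneg_right h.hy1 hπ.le).trans hyπ
    have hP1 : 0 < Pn τ (b.y1 * π) := Pn_pos hτ (by positivity) hy1π
    have hybx : y * (π * n / 16) ≤ π := (mul_le_mul_of_nonneg_left h1 hy0.le).trans h2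
    have hy1b : (b.y1 : ℝ) * (π * n / 16) ≤ π :=
      (mul_le_mul_of_nonneg_right h.hy1 (by positivity)).trans hybx
    have hcross := Pn_cross hτ hy1 h.hy1 hπ.le hbπ hybx
    have hanti : Pn τ (y * x) ≤ Pn τ (y * (π * n / 16)) := by
      apply Pn_anti hτ
      · exact ⟨by positivity, by linarith [Real.pi_lt_d2]⟩
      · exact ⟨by positivity, by linarith [Real.pi_lt_d2]⟩
      · exact mul_le_mul_of_nonneg_left h1 hy0.le
    have hR : Pn τ (b.y1 * (π * n / 16)) ≤ Pn τ (b.y1 * π) := by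
      apply Pn_anti hτ
      · exact ⟨by positivity, by linarith [Real.pi_lt_d2]⟩
      · exact ⟨by positivity, by linarith [Real.pi_lt_d2]⟩
      · exact mul_le_mul_of_nonneg_left hbπ hy1
    have hPb : 0 < Pn τ (b.y1 * (π * n / 16)) := Pn_pos hτ (by positivity) hy1b
    have hLo : ((Plo T (ru (b.y1 * pU)) : ℚ) : ℝ) ≤ Pn τ (b.y1 * π) := by
      apply Plo_le h.hT (by positivity)
      · calc (b.y1 : ℝ) * π ≤ b.y1 * pU := mul_le_mul_of_nonneg_left lt_pU.le hy1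
          _ = ((b.y1 * pU : ℚ) : ℝ) := by push_cast; rfl
          _ ≤ _ := CCE_le_ru' _
      · have hq : b.y1 * pU ≤ 29 / 10 := by
          simp only [pU]
          linarith
        have := CCE_ru3 hq
        linarith [Real.pi_gt_three]
    have hLo0 : (0 : ℝ) < ((Plo T (ru (b.y1 * pU)) : ℚ) : ℝ) := by exact_mod_cast g8
    have hUp : Pn τ (b.y1 * (π * n / 16)) ≤ ((Pup T (rd (b.y1 * aLo n)) : ℚ) : ℝ) := by
      apply le_Pup h.hT
      · exact CCE_rd_nonneg (mul_nonneg g1 (CCE_aLo_nonneg n))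
      · calc ((rd (b.y1 * aLo n) : ℚ) : ℝ) ≤ ((b.y1 * aLo n : ℚ) : ℝ) := CCE_rd_le' _
          _ = b.y1 * aLo n := by push_cast; rfl
          _ ≤ b.y1 * (π * n / 16) := mul_le_mul_of_nonneg_left (CCE_aLo n) hy1
      · exact hy1b
    set r0 : ℝ := ((Pup T (rd (b.y1 * aLo n)) : ℚ) : ℝ) / ((Plo T (ru (b.y1 * pU)) : ℚ) : ℝ) with hr0
    set R : ℝ := Pn τ (b.y1 * (π * n / 16)) / Pn τ (b.y1 * π) with hRdef
    have hR0 : 0 < R := div_pos hPb hP1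
    have hRr0 : R ≤ r0 := by
      rw [hr0, hRdef]
      exact div_le_div₀ (hPb.le.trans hUp) hUp hLo0 hLo
    have hR1 : R ≤ 1 := by
      rw [hRdef, div_le_one hP1]
      exact hR
    have hRρ : Pn τ (y * x) ≤ R * Pn τ (y * π) := by
      rw [hRdef, div_mul_eq_mul_div, le_div_iff₀ hP1]
      calc Pn τ (y * x) * Pn τ (b.y1 * π) ≤ Pn τ (y * (π * n / 16)) * Pn τ (b.y1 * π) :=
            mul_le_mul_of_nonneg_right hanti hP1.le
        _ = Pn τ (b.y1 * π) * Pn τ (y * (π * n / 16)) := mul_comm _ _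
        _ ≤ Pn τ (y * π) * Pn τ (b.y1 * (π * n / 16)) := hcross
        _ = Pn τ (b.y1 * (π * n / 16)) * Pn τ (y * π) := mul_comm _ _
    have hcast : r0 ^ b.K ≤
        (((ru ((Pup T (rd (b.y1 * aLo n)) / Plo T (ru (b.y1 * pU))) ^ b.K) : ℚ)) : ℝ) := by
      refine le_trans (le_of_eq ?_) (CCE_le_ru' _)
      push_cast
      rfl
    calc Pn τ (y * x) ^ k ≤ (R * Pn τ (y * π)) ^ k := pow_le_pow_left₀ hyx.le hRρ k
      _ = R ^ k * Pn τ (y * π) ^ k := by rw [mul_pow]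
      _ ≤ R ^ b.K * Pn τ (y * π) ^ k :=
        mul_le_mul_of_nonneg_right (pow_le_pow_of_le_one hR0.le hR1 h.hk) (by positivity)
      _ ≤ r0 ^ b.K * Pn τ (y * π) ^ k :=
        mul_le_mul_of_nonneg_right (pow_le_pow_left₀ hR0.le hRr0 _) (by positivity)
      _ ≤ _ := mul_le_mul_of_nonneg_right hcast (by positivity)
  · obtain ⟨hA0, hA⟩ := cA_le h
    have hA0' : (0 : ℝ) ≤ cA T b := by exact_mod_cast hA0
    have hexp := CCE_exp_pow hτ (u := y * π) (v := y * x) (by positivity)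
      (mul_le_mul_of_nonneg_left hxπ hy0.le) h2 k
    have hnq : (1 : ℚ) ≤ (n : ℚ) / 16 := by
      rw [one_le_div (by norm_num)]
      exact_mod_cast hn
    have hw0 : (0 : ℚ) ≤ cA T b * pL ^ 2 * ((n / 16) ^ 2 - 1) := by
      have : (0 : ℚ) ≤ ((n : ℚ) / 16) ^ 2 - 1 := by nlinarith
      positivity
    have hw : (((cA T b * pL ^ 2 * ((n / 16) ^ 2 - 1) : ℚ)) : ℝ) ≤
        m2 τ * k / 2 * ((y * x) ^ 2 - (y * π) ^ 2) := by
      push_cast
      have hx2 : (π * n / 16) ^ 2 ≤ x ^ 2 := pow_le_pow_left₀ (by positivity) h1 2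
      have hnr : (0 : ℝ) ≤ ((n : ℝ) / 16) ^ 2 - 1 := by
        have h5 : (1 : ℝ) ≤ (n : ℝ) / 16 := by
          rw [one_le_div (by norm_num)]
          exact hn'
        nlinarith
      have h7 : ((pL : ℚ) : ℝ) ^ 2 ≤ π ^ 2 :=
        pow_le_pow_left₀ (by rw [CCE_pL]; norm_num) pL_lt.le 2
      have h8 : ((pL : ℚ) : ℝ) ^ 2 * (((n : ℝ) / 16) ^ 2 - 1) ≤ x ^ 2 - π ^ 2 := by
        have h9 := mul_le_mul_of_nonneg_right h7 hnr
        have h10 : π ^ 2 * (((n : ℝ) / 16) ^ 2 - 1) = (π * n / 16) ^ 2 - π ^ 2 := by ring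
        linarith
      have h11 : (0 : ℝ) ≤ ((pL : ℚ) : ℝ) ^ 2 * (((n : ℝ) / 16) ^ 2 - 1) := by positivity
      calc (cA T b : ℝ) * (pL : ℝ) ^ 2 * (((n : ℝ) / 16) ^ 2 - 1)
          = (cA T b : ℝ) * ((pL : ℝ) ^ 2 * (((n : ℝ) / 16) ^ 2 - 1)) := by ring
        _ ≤ (m2 τ * k * y ^ 2 / 2) * (x ^ 2 - π ^ 2) :=
          mul_le_mul hA h8 h11 (hA0'.trans hA)
        _ = _ := by ring
    have hT := exp_neg_le hw0 hw
    have hcast : Real.exp (-(m2 τ * k / 2 * ((y * x) ^ 2 - (y * π) ^ 2))) ≤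
        (((ru (1 / Tq (cA T b * pL ^ 2 * ((n / 16) ^ 2 - 1)))) : ℚ) : ℝ) :=
      hT.trans (CCE_le_ru' _)
    calc Pn τ (y * x) ^ k
        = Real.exp (-(m2 τ * k / 2 * ((y * x) ^ 2 - (y * π) ^ 2))) *
          (Pn τ (y * x) ^ k * Real.exp (m2 τ * k / 2 * ((y * x) ^ 2 - (y * π) ^ 2))) := by
          rw [mul_left_comm, ← Real.exp_add]
          simp
      _ ≤ Real.exp (-(m2 τ * k / 2 * ((y * x) ^ 2 - (y * π) ^ 2))) * Pn τ (y * π) ^ k :=
          mul_le_mul_of_nonneg_left hexp (Real.exp_pos _).le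
      _ ≤ _ := mul_le_mul_of_nonneg_right hcast (by positivity)

private theorem CCE_cont (τ y : ℝ) (k : ℕ) : Continuous fun x => kap τ y x * Pn τ (y * x) ^ k :=
  (kap_cont τ y).mul (((Pn_cont τ).comp (continuous_const.mul continuous_id)).pow k)

private theorem CCE_sinc_ge {u2 : ℚ} (hu : ((u2 : ℚ) : ℝ) ≤ 3) {v : ℝ} (h0 : 0 ≤ v) (h1 : v ≤ u2) :
    ((snL u2 : ℚ) : ℝ) ≤ Real.sinc v := by
  have hu0 : (0 : ℝ) ≤ u2 := h0.trans h1
  have hu0' : (0 : ℚ) ≤ u2 := by exact_mod_cast hu0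
  refine (snL_le hu0').trans ?_
  apply sinc_anti
  · exact ⟨h0, by linarith⟩
  · exact ⟨hu0, by linarith⟩
  · exact h1

private theorem CCE_u2 (h : BOk T b τ y k) {m : ℕ} {x : ℝ} (h0 : 0 ≤ x) (hx : x ≤ π * m / 16) :
    y * x ≤ ((ru (b.y2 * aUp m) : ℚ) : ℝ) := by
  have hy0 := h.ypos
  calc y * x ≤ b.y2 * aUp m := mul_le_mul h.hy2 (hx.trans (CCE_aUp m)) h0 (hy0.le.trans h.hy2)
    _ = ((b.y2 * aUp m : ℚ) : ℝ) := by push_cast; rfl
    _ ≤ _ := CCE_le_ru' _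

private theorem CCE_u1 (h : BOk T b τ y k) {m : ℕ} {x : ℝ} (hx : π * m / 16 ≤ x) :
    ((rd (b.y1 * aLo m) : ℚ) : ℝ) ≤ y * x := by
  obtain ⟨g1, g2, g3, g4, g5, g6, g7, g8, g9, g10⟩ := CCE_okG h.hg
  have hy0 := h.ypos
  have hlo0 : (0 : ℝ) ≤ aLo m := by exact_mod_cast CCE_aLo_nonneg m
  calc ((rd (b.y1 * aLo m) : ℚ) : ℝ) ≤ ((b.y1 * aLo m : ℚ) : ℝ) := CCE_rd_le' _
    _ = b.y1 * aLo m := by push_cast; rfl
    _ ≤ y * x := mul_le_mul h.hy1 ((CCE_aLo m).trans hx) hlo0 hy0.le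

private theorem CCE_kap_low (h : BOk T b τ y k) {m : ℕ} (hm : m ≤ 16) {x : ℝ} (h0 : 0 ≤ x)
    (hx : x ≤ π * m / 16) :
    (1 - (b.y2 : ℝ) ^ 2) * c2 T * max ((snL (ru (b.y2 * aUp m)) : ℚ) : ℝ) 0 *
      (x * Real.sin x * j2 x + c1 T * (x ^ 2 * j2 x ^ 2)) ≤ kap τ y x := by
  obtain ⟨g1, g2, g3, g4, g5, g6, g7, g8, g9, g10⟩ := CCE_okG h.hg
  have hy0 := h.ypos
  have hy9 := CCE_ylt h
  have hπ := Real.pi_pos
  have hmr : (m : ℝ) ≤ 16 := by exact_mod_cast hm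
  have hxπ : x ≤ π := by
    have := mul_le_mul_of_nonneg_left hmr hπ.le
    linarith
  have hlow := kap_lower h.hT.τpos hy0.le (by linarith) h0 hxπ
  refine le_trans ?_ hlow
  have hc2 := c2_le h.hT
  have hc2p : (0 : ℝ) < c2 T := by exact_mod_cast c2_pos h.hT
  have hc1 := c1_le h.hT
  have hc1p : (0 : ℝ) < c1 T := by exact_mod_cast c1_pos h.hT
  have hj : 0 ≤ j2 x := j2_nonneg h0 (by linarith [Real.pi_lt_d2])
  have hsin : 0 ≤ Real.sin x := Real.sin_nonneg_of_nonneg_of_le_pi h0 hxπ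
  have hA : 0 ≤ x * Real.sin x * j2 x := by positivity
  have hB : 0 ≤ x ^ 2 * j2 x ^ 2 := by positivity
  have hy2 : (b.y2 : ℝ) ≤ 9 / 10 := by
    have : ((b.y2 : ℚ) : ℝ) ≤ ((9 / 10 : ℚ) : ℝ) := by exact_mod_cast g3
    push_cast at this
    exact this
  have hy20 : 0 < (b.y2 : ℝ) := hy0.trans_le h.hy2
  have h1y2 : (0 : ℝ) ≤ 1 - (b.y2 : ℝ) ^ 2 := by nlinarith
  have h1y : (1 : ℝ) - (b.y2 : ℝ) ^ 2 ≤ 1 - y ^ 2 := by
    have := pow_le_pow_left₀ hy0.le h.hy2 2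
    linarith
  have hyx : y * x ≤ π := by nlinarith
  have hs : max ((snL (ru (b.y2 * aUp m)) : ℚ) : ℝ) 0 ≤ Real.sinc (y * x) := by
    apply max_le
    · apply CCE_sinc_ge _ (by positivity) (CCE_u2 h h0 hx)
      apply CCE_ru3
      have hmq : (m : ℚ) ≤ 16 := by exact_mod_cast hm
      have h5 : aUp m ≤ pU := by
        unfold aUp pU
        linarith
      have hy2q : 0 < b.y2 := lt_of_le_of_lt g1 g2
      have h6 : b.y2 * aUp m ≤ 9 / 10 * pU := mul_le_mul g3 h5 (CCE_aUp_nonneg m) (by norm_num)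
      have h7 : (9 : ℚ) / 10 * pU ≤ 29 / 10 := by norm_num [pU]
      linarith
    · exact sinc_nonneg (by positivity) hyx
  have hs0 : 0 ≤ max ((snL (ru (b.y2 * aUp m)) : ℚ) : ℝ) 0 := le_max_right _ _
  apply mul_le_mul
  · apply mul_le_mul
    · exact mul_le_mul h1y hc2 hc2p.le (h1y2.trans h1y)
    · exact hs
    · exact hs0
    · exact mul_nonneg (h1y2.trans h1y) (hc2p.le.trans hc2)
  · have := mul_le_mul_of_nonneg_right hc1 hB
    linarith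
  · positivity
  · exact mul_nonneg (mul_nonneg (h1y2.trans h1y) (hc2p.le.trans hc2)) (hs0.trans hs)

private theorem CCE_cellM (h : BOk T b τ y k) {i : ℕ} (hi : i < 16) :
    ((rd ((1 - b.y2 ^ 2) * c2 T * snL (ru (b.y2 * aUp (i + 1))) *
      (J1.getD i 0 + c1 T * J2.getD i 0) * cL T b (i + 1)) : ℚ) : ℝ) * Pn τ (y * π) ^ k ≤
    ∫ x in (π * i / 16)..(π * (i + 1 : ℕ) / 16), kap τ y x * Pn τ (y * x) ^ k := by
  obtain ⟨g1, g2, g3, g4, g5, g6, g7, g8, g9, g10⟩ := CCE_okG h.hg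
  have hy0 := h.ypos
  have hπ := Real.pi_pos
  have hρ := CCE_ρpos h
  have hc2p : (0 : ℝ) < c2 T := by exact_mod_cast c2_pos h.hT
  have hc1p : (0 : ℝ) < c1 T := by exact_mod_cast c1_pos h.hT
  have hy2 : (b.y2 : ℝ) ≤ 9 / 10 := by
    have : ((b.y2 : ℚ) : ℝ) ≤ ((9 / 10 : ℚ) : ℝ) := by exact_mod_cast g3
    push_cast at this
    exact this
  have hy20 : 0 < (b.y2 : ℝ) := hy0.trans_le h.hy2
  have h1y2 : (0 : ℝ) ≤ 1 - (b.y2 : ℝ) ^ 2 := by nlinarith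
  have hcL0 : (0 : ℝ) ≤ cL T b (i + 1) := by exact_mod_cast CCE_cL_nonneg h (by omega)
  have hJ := @J_nonneg i
  have hJ1 : (0 : ℝ) ≤ J1.getD i 0 := by exact_mod_cast hJ.1
  have hJ2 : (0 : ℝ) ≤ J2.getD i 0 := by exact_mod_cast hJ.2
  have hJ1' := J1_le hi
  have hJ2' := J2_le hi
  have hmax : ((snL (ru (b.y2 * aUp (i + 1))) : ℚ) : ℝ) ≤
    max ((snL (ru (b.y2 * aUp (i + 1))) : ℚ) : ℝ) 0 := le_max_left _ _
  have hs0 : 0 ≤ max ((snL (ru (b.y2 * aUp (i + 1))) : ℚ) : ℝ) 0 := le_max_right _ _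
  -- the pointwise bound
  have hpt : ∀ x ∈ Icc (π * i / 16) (π * (i + 1 : ℕ) / 16),
      (1 - (b.y2 : ℝ) ^ 2) * c2 T * max ((snL (ru (b.y2 * aUp (i + 1))) : ℚ) : ℝ) 0 *
        (cL T b (i + 1) * Pn τ (y * π) ^ k) *
        (x * Real.sin x * j2 x + c1 T * (x ^ 2 * j2 x ^ 2)) ≤ kap τ y x * Pn τ (y * x) ^ k := by
    intro x hx
    have hx0 : 0 ≤ x := le_trans (by positivity) hx.1
    have e1 := CCE_kap_low h (m := i + 1) (by omega) hx0 hx.2
    have e2 := cL_le h (n := i + 1) (by omega) hx0 hx.2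
    have hmr : ((i + 1 : ℕ) : ℝ) ≤ 16 := by exact_mod_cast (by omega : i + 1 ≤ 16)
    have hxπ : x ≤ π := by
      have := mul_le_mul_of_nonneg_left hmr hπ.le
      linarith [hx.2]
    have hj : 0 ≤ j2 x := j2_nonneg hx0 (by linarith [Real.pi_lt_d2])
    have hsin : 0 ≤ Real.sin x := Real.sin_nonneg_of_nonneg_of_le_pi hx0 hxπ
    have hnn : 0 ≤ (1 - (b.y2 : ℝ) ^ 2) * c2 T * max ((snL (ru (b.y2 * aUp (i + 1))) : ℚ) : ℝ) 0 *
      (x * Real.sin x * j2 x + c1 T * (x ^ 2 * j2 x ^ 2)) := by positivity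
    have e3 := mul_le_mul e1 e2 (by positivity) (hnn.trans e1)
    refine le_trans (le_of_eq ?_) e3
    ring
  have hc1c : Continuous fun x : ℝ => x * Real.sin x * j2 x :=
    (continuous_id.mul Real.continuous_sin).mul j2_cont
  have hc2c : Continuous fun x : ℝ => x ^ 2 * j2 x ^ 2 := (continuous_id.pow 2).mul (j2_cont.pow 2)
  have hle : π * i / 16 ≤ π * (i + 1 : ℕ) / 16 := by
    push_cast
    have : π * i ≤ π * (i + 1) := mul_le_mul_of_nonneg_left (by linarith) hπ.le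
    linarith
  have hc3c : Continuous fun x : ℝ => (c1 T : ℝ) * (x ^ 2 * j2 x ^ 2) := continuous_const.mul hc2c
  have hc4c : Continuous fun x : ℝ => (1 - (b.y2 : ℝ) ^ 2) * c2 T *
      max ((snL (ru (b.y2 * aUp (i + 1))) : ℚ) : ℝ) 0 * (cL T b (i + 1) * Pn τ (y * π) ^ k) *
      (x * Real.sin x * j2 x + c1 T * (x ^ 2 * j2 x ^ 2)) :=
    continuous_const.mul (hc1c.add hc3c)
  have hint := intervalIntegral.integral_mono_on (μ := volume) hle
    (hc4c.intervalIntegrable _ _) ((CCE_cont τ y k).intervalIntegrable _ _) hpt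
  refine le_trans ?_ hint
  rw [intervalIntegral.integral_const_mul, intervalIntegral.integral_add
    (hc1c.intervalIntegrable _ _) (hc3c.intervalIntegrable _ _),
    intervalIntegral.integral_const_mul]
  have hrd := CCE_rd_le' ((1 - b.y2 ^ 2) * c2 T * snL (ru (b.y2 * aUp (i + 1))) *
      (J1.getD i 0 + c1 T * J2.getD i 0) * cL T b (i + 1))
  push_cast at hrd
  have hρk : 0 < Pn τ (y * π) ^ k := pow_pos hρ k
  calc _ ≤ ((1 - (b.y2 : ℝ) ^ 2) * c2 T * ((snL (ru (b.y2 * aUp (i + 1))) : ℚ) : ℝ) *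
        (((J1.getD i 0 : ℚ) : ℝ) + c1 T * ((J2.getD i 0 : ℚ) : ℝ)) * cL T b (i + 1)) *
          Pn τ (y * π) ^ k := mul_le_mul_of_nonneg_right hrd hρk.le
    _ ≤ ((1 - (b.y2 : ℝ) ^ 2) * c2 T * max ((snL (ru (b.y2 * aUp (i + 1))) : ℚ) : ℝ) 0 *
        (((J1.getD i 0 : ℚ) : ℝ) + c1 T * ((J2.getD i 0 : ℚ) : ℝ)) * cL T b (i + 1)) *
          Pn τ (y * π) ^ k := by
        gcongr
    _ = (1 - (b.y2 : ℝ) ^ 2) * c2 T * max ((snL (ru (b.y2 * aUp (i + 1))) : ℚ) : ℝ) 0 *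
        (cL T b (i + 1) * Pn τ (y * π) ^ k) *
        (((J1.getD i 0 : ℚ) : ℝ) + c1 T * ((J2.getD i 0 : ℚ) : ℝ)) := by ring
    _ ≤ _ := by
        apply mul_le_mul_of_nonneg_left _ (by positivity)
        have := mul_le_mul_of_nonneg_left hJ2' hc1p.le
        linarith

private theorem CCE_sum_adj (f : ℝ → ℝ) (hf : Continuous f) (N : ℕ) :
    ∑ i ∈ Finset.range N, ∫ x in (π * i / 16)..(π * (i + 1 : ℕ) / 16), f x =
      ∫ x in (0 : ℝ)..(π * N / 16), f x := by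
  have := intervalIntegral.sum_integral_adjacent_intervals (f := f) (μ := volume)
    (a := fun i : ℕ => π * (i : ℝ) / 16) (n := N) (fun i _ => hf.intervalIntegrable _ _)
  simpa using this

theorem int_M (h : BOk T b τ y k) : ((Msum T b : ℚ) : ℝ) * Pn τ (y * π) ^ k ≤
    ∫ x in (0 : ℝ)..π, kap τ y x * Pn τ (y * x) ^ k := by
  have h1 := CCE_sum_adj _ (CCE_cont τ y k) 16
  have h2 : π * ((16 : ℕ) : ℝ) / 16 = π := by push_cast; ring
  rw [h2] at h1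
  rw [← h1]
  have h3 : Msum T b = ∑ i ∈ Finset.range 16, rd ((1 - b.y2 ^ 2) * c2 T *
      snL (ru (b.y2 * aUp (i + 1))) * (J1.getD i 0 + c1 T * J2.getD i 0) * cL T b (i + 1)) := by
    unfold Msum
    rw [Finset.sum_range]
    rw [← List.sum_ofFn, List.ofFn_eq_map]
    rfl
  rw [h3, Rat.cast_sum, Finset.sum_mul]
  apply Finset.sum_le_sum
  intro i hi
  exact CCE_cellM h (Finset.mem_range.1 hi)

private theorem CCE_near (h : BOk T b τ y k) {w n : ℕ} (hw : 0 < w) (hn : 16 ≤ n)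
    (hu : ru (b.y2 * aUp (n + w)) ≤ b.UC) (hs : 0 < snL (ru (b.y2 * aUp (n + w)))) :
    -(((vN T b n w : ℚ) : ℝ) * Pn τ (y * π) ^ k) ≤
    ∫ x in (π * n / 16)..(π * (n + w : ℕ) / 16), kap τ y x * Pn τ (y * x) ^ k := by
  obtain ⟨g1, g2, g3, g4, g5, g6, g7, g8, g9, g10⟩ := CCE_okG h.hg
  have hy0 := h.ypos
  have hτ := h.hT.τpos
  have hπ := Real.pi_pos
  have hρ := CCE_ρpos h
  have hρk : 0 < Pn τ (y * π) ^ k := pow_pos hρ k
  have hu3 : ((ru (b.y2 * aUp (n + w)) : ℚ) : ℝ) ≤ 3 := by exact_mod_cast hu.trans g6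
  have hs' : (0 : ℝ) < ((snL (ru (b.y2 * aUp (n + w))) : ℚ) : ℝ) := by exact_mod_cast hs
  obtain ⟨hsg1, hsg2, hsg3⟩ := sg_bounds h.hT
  have hle : π * n / 16 ≤ π * (n + w : ℕ) / 16 := by
    push_cast
    have : π * n ≤ π * (n + w) := mul_le_mul_of_nonneg_left (by
      have : (0 : ℝ) ≤ w := Nat.cast_nonneg w
      linarith) hπ.le
    linarith
  have hU0 : 0 ≤ rd (b.y1 * aLo n) := CCE_rd_nonneg (mul_nonneg g1 (CCE_aLo_nonneg n))
  have hcU0 : (0 : ℝ) ≤ cU T b n := by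
    have e := le_cU h hn (x := π * n / 16) le_rfl (by
      have := CCE_u2 h (m := n + w) (x := π * n / 16) (by positivity) hle
      linarith [Real.pi_gt_three])
    have e2 : 0 < Pn τ (y * (π * n / 16)) := Pn_pos hτ (by positivity) (by
      have := CCE_u2 h (m := n + w) (x := π * n / 16) (by positivity) hle
      linarith [Real.pi_gt_three])
    have e3 : 0 < Pn τ (y * (π * n / 16)) ^ k := pow_pos e2 k
    by_contra hc
    push Not at hc
    have := mul_neg_of_neg_of_pos hc hρk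
    linarith
  set U : ℝ := ((Pup T (rd (b.y1 * aLo n)) : ℚ) : ℝ) with hU
  set s : ℝ := ((snL (ru (b.y2 * aUp (n + w))) : ℚ) : ℝ) with hsdef
  -- pointwise
  have hpt : ∀ x ∈ Icc (π * n / 16) (π * (n + w : ℕ) / 16),
      -(U ^ 2 * cU T b n / (4 * (1 - T.hU) * s) * Pn τ (y * π) ^ k) * Real.sin x ^ 2 ≤
        kap τ y x * Pn τ (y * x) ^ k := by
    intro x hx
    have hx0 : 0 ≤ x := le_trans (by positivity) hx.1
    have hyx3 : y * x ≤ 3 := (CCE_u2 h hx0 hx.2).trans hu3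
    have hyxπ : y * x < π := by linarith [Real.pi_gt_three]
    have hyx0 : 0 ≤ y * x := by positivity
    have hP := Pn_pos hτ hyx0 hyxπ.le
    have hPU : Pn τ (y * x) ≤ U := le_Pup h.hT hU0 (CCE_u1 h hx.1) hyxπ.le
    have hS : s ≤ Real.sinc (y * x) := CCE_sinc_ge hu3 hyx0 (CCE_u2 h hx0 hx.2)
    have hcU := le_cU h hn hx.1 hyxπ.le
    have hamgm := kap_amgm hτ hyx0 hyxπ
    have hsg : 0 < sg τ := lt_of_lt_of_le hsg3 hsg1
    have e1 : Real.sin x ^ 2 * Pn τ (y * x) ^ 2 / (4 * sg τ * Real.sinc (y * x)) ≤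
        Real.sin x ^ 2 * U ^ 2 / (4 * (1 - T.hU) * s) := by
      have hden : 0 < 4 * (1 - (T.hU : ℝ)) * s := by positivity
      apply div_le_div₀ (by positivity) _ hden _
      · exact mul_le_mul_of_nonneg_left (pow_le_pow_left₀ hP.le hPU 2) (by positivity)
      · apply mul_le_mul (by linarith) hS hs'.le (by positivity)
    have e2 : -(Real.sin x ^ 2 * U ^ 2 / (4 * (1 - T.hU) * s)) ≤ kap τ y x := by linarith
    have hPk : 0 < Pn τ (y * x) ^ k := pow_pos hP k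
    have e3 : -(Real.sin x ^ 2 * U ^ 2 / (4 * (1 - T.hU) * s)) * Pn τ (y * x) ^ k ≤
        kap τ y x * Pn τ (y * x) ^ k := mul_le_mul_of_nonneg_right e2 hPk.le
    have e4 : 0 ≤ Real.sin x ^ 2 * U ^ 2 / (4 * (1 - T.hU) * s) := by positivity
    have e5 := mul_le_mul_of_nonneg_left hcU e4
    have e6 : -(U ^ 2 * cU T b n / (4 * (1 - T.hU) * s) * Pn τ (y * π) ^ k) * Real.sin x ^ 2 =
        -(Real.sin x ^ 2 * U ^ 2 / (4 * (1 - T.hU) * s) * (cU T b n * Pn τ (y * π) ^ k)) := by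
      ring
    rw [e6]
    linarith
  have hcc : Continuous fun x : ℝ =>
      -(U ^ 2 * cU T b n / (4 * (1 - T.hU) * s) * Pn τ (y * π) ^ k) * Real.sin x ^ 2 :=
    continuous_const.mul (Real.continuous_sin.pow 2)
  have hint := intervalIntegral.integral_mono_on (μ := volume) hle
    (hcc.intervalIntegrable _ _) ((CCE_cont τ y k).intervalIntegrable _ _) hpt
  refine le_trans ?_ hint
  rw [intervalIntegral.integral_const_mul]
  have hW := cW_le n w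
  have hru := CCE_le_ru' (cW n w * (Pup T (rd (b.y1 * aLo n))) ^ 2 * cU T b n /
    (4 * (1 - T.hU) * snL (ru (b.y2 * aUp (n + w)))))
  push_cast at hru
  have hv : ((vN T b n w : ℚ) : ℝ) = ((ru (cW n w * (Pup T (rd (b.y1 * aLo n))) ^ 2 * cU T b n /
    (4 * (1 - T.hU) * snL (ru (b.y2 * aUp (n + w))))) : ℚ) : ℝ) := rfl
  rw [hv]
  have hK0 : 0 ≤ U ^ 2 * cU T b n / (4 * (1 - T.hU) * s) * Pn τ (y * π) ^ k := by positivity
  have e7 := mul_le_mul_of_nonneg_left hW hK0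
  have e8 := mul_le_mul_of_nonneg_right hru hρk.le
  have e9 : ((cW n w : ℚ) : ℝ) * U ^ 2 * cU T b n / (4 * (1 - T.hU) * s) * Pn τ (y * π) ^ k =
      U ^ 2 * cU T b n / (4 * (1 - T.hU) * s) * Pn τ (y * π) ^ k * ((cW n w : ℚ) : ℝ) := by ring
  rw [e9] at e8
  linarith

private theorem CCE_xX (h : BOk T b τ y k) {w n : ℕ} (hw : 0 < w) (hn : 16 ≤ n) {x : ℝ}
    (h1 : π * n / 16 ≤ x) (h2 : x ≤ π * (n + w : ℕ) / 16) :
    |x * Xn τ x| ≤ ((xX T n w : ℚ) : ℝ) := by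
  have hn' : (16 : ℝ) ≤ n := by exact_mod_cast hn
  have hπ := Real.pi_pos
  have hx0 : 0 < x := lt_of_lt_of_le (by positivity) h1
  have hlo : ((aLo n : ℚ) : ℝ) ≤ x := (CCE_aLo n).trans h1
  have hlo0 : (0 : ℝ) < ((aLo n : ℚ) : ℝ) := by
    unfold aLo
    push_cast
    rw [CCE_pL]
    positivity
  have hS := cS_le h1 h2 hw
  have hC := cC_le h1 h2 hw
  obtain ⟨hG1, hG2, hG3⟩ := G_nonneg h.hT
  have hG1' : (0 : ℝ) ≤ T.G1 := by exact_mod_cast hG1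
  have hG2' : (0 : ℝ) ≤ T.G2 := by exact_mod_cast hG2
  have hG3' : (0 : ℝ) ≤ T.G3 := by exact_mod_cast hG3
  refine (xXn_bound h.hT.τpos hx0).trans ?_
  unfold xX
  push_cast
  have e1 : E τ / Nm τ 2 * |Real.cos x| ≤ T.G1 * cC n w :=
    mul_le_mul h.hT.G1 hC (abs_nonneg _) hG1'
  have e2 : |1 - τ ^ 2| * E τ / Nm τ 2 * |Real.sin x| ≤ T.G2 * cS n w :=
    mul_le_mul h.hT.G2 hS (abs_nonneg _) hG2'
  have e3 := h.hT.G3
  have hcS : (0 : ℝ) ≤ cS n w := by exact_mod_cast cS_nonneg n w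
  have hcC : (0 : ℝ) ≤ cC n w := by exact_mod_cast cC_nonneg n w
  have e4 : (|1 - τ ^ 2| * E τ / Nm τ 2 * |Real.sin x| + TVb τ / Nm τ 2) / x ≤
      (T.G2 * cS n w + T.G3) / aLo n :=
    div_le_div₀ (by positivity) (by linarith) hlo0 hlo
  exact div_le_div₀ (by positivity) (by linarith) hlo0 hlo

private theorem CCE_xP (h : BOk T b τ y k) {w n : ℕ} (hw : 0 < w) (h16 : 16 ≤ n) {x : ℝ}
    (h1 : π * n / 16 ≤ x) (h2 : x ≤ π * (n + w : ℕ) / 16) :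
    |x * Pn τ x| ≤ ((xP T n w : ℚ) : ℝ) := by
  have hn' : (16 : ℝ) ≤ n := by exact_mod_cast h16
  have hπ := Real.pi_pos
  have hx0 : 0 < x := lt_of_lt_of_le (by positivity) h1
  have hX := CCE_xX h hw h16 h1 h2
  have hS := cS_le h1 h2 hw
  obtain ⟨hsg1, hsg2, hsg3⟩ := sg_bounds h.hT
  have hsg : 0 < sg τ := lt_of_lt_of_le hsg3 hsg1
  have e : x * Pn τ x = hn τ * Real.sin x + sg τ * (x * Xn τ x) := by
    rw [Pn_eq h.hT.τpos, Real.sinc_of_ne_zero hx0.ne']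
    field_simp
  rw [e]
  have hhn := hn_pos τ
  have hhU := h.hT.hU
  have e1 : |hn τ * Real.sin x| ≤ T.hU * cS n w := by
    rw [abs_mul, abs_of_pos hhn]
    exact mul_le_mul hhU hS (abs_nonneg _) (hhn.le.trans hhU)
  have e2 : |sg τ * (x * Xn τ x)| ≤ (1 - T.hL) * xX T n w := by
    rw [abs_mul, abs_of_pos hsg]
    exact mul_le_mul hsg2 hX (abs_nonneg _) (hsg.le.trans hsg2)
  unfold xP
  push_cast
  exact (abs_add_le _ _).trans (add_le_add e1 e2)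

private theorem CCE_far (h : BOk T b τ y k) {w n : ℕ} (hw : 0 < w) (hn : 16 ≤ n)
    (hok : okF T b n w = true) :
    -(((vF T b n w : ℚ) : ℝ) * Pn τ (y * π) ^ k) ≤
    ∫ x in (π * n / 16)..(π * (n + w : ℕ) / 16), kap τ y x * Pn τ (y * x) ^ k := by
  obtain ⟨g1, g2, g3, g4, g5, g6, g7, g8, g9, g10⟩ := CCE_okG h.hg
  have hy0 := h.ypos
  have hτ := h.hT.τpos
  have hπ := Real.pi_pos
  have hρ := CCE_ρpos h
  have hρk : 0 < Pn τ (y * π) ^ k := pow_pos hρ k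
  obtain ⟨hrL0, hrL⟩ := rho_ge h
  have hrL0' : (0 : ℝ) < ((rL T b : ℚ) : ℝ) := by exact_mod_cast hrL0
  simp only [okF, Bool.and_eq_true, Bool.or_eq_true, decide_eq_true_eq] at hok
  have hle : π * n / 16 ≤ π * (n + w : ℕ) / 16 := by
    push_cast
    have : π * n ≤ π * (n + w) := mul_le_mul_of_nonneg_left (by
      have : (0 : ℝ) ≤ w := Nat.cast_nonneg w
      linarith) hπ.le
    linarith
  set u1 : ℚ := rd (b.y1 * aLo n) with hu1
  set u2 : ℚ := ru (b.y2 * aUp (n + w)) with hu2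
  set r : ℚ := if u2 ≤ 31415 / 10000 then cU T b n else ru ((pF T u1 u2 / rL T b) ^ b.K) with hr
  have hv : vF T b n w = ru (pU * w / 16 * xP T n w * (xX T n w * sF u1 u2 + cS n w * XF T u1 u2) * r) :=
    rfl
  obtain ⟨hu10, hok⟩ := hok
  -- pointwise
  have hpt : ∀ x, π * n / 16 ≤ x → x ≤ π * (n + w : ℕ) / 16 →
      |kap τ y x * Pn τ (y * x) ^ k| ≤
        ((xP T n w * (xX T n w * sF u1 u2 + cS n w * XF T u1 u2) * r : ℚ) : ℝ) * Pn τ (y * π) ^ k ∧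
      (0 : ℝ) ≤ ((xP T n w * (xX T n w * sF u1 u2 + cS n w * XF T u1 u2) * r : ℚ) : ℝ) := by
    intro x hx1 hx2
    have hx0 : 0 ≤ x := le_trans (by positivity) hx1
    have hv1 : ((u1 : ℚ) : ℝ) ≤ y * x := CCE_u1 h hx1
    have hv2 : y * x ≤ ((u2 : ℚ) : ℝ) := CCE_u2 h hx0 hx2
    have hxX := CCE_xX h hw hn hx1 hx2
    have hxP := CCE_xP h hw hn hx1 hx2
    have hsin := cS_le hx1 hx2 hw
    have hsF := sinc_le_sF hu10 hv1 hv2
    have hXF := Xn_le_XF h.hT hu10 hv1 hv2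
    have hyx0 : 0 ≤ y * x := by positivity
    have hPr : |Pn τ (y * x)| ^ k ≤ ((r : ℚ) : ℝ) * Pn τ (y * π) ^ k := by
      rw [hr]
      split_ifs with hc
      · have hc' : ((u2 : ℚ) : ℝ) ≤ ((31415 / 10000 : ℚ) : ℝ) := by exact_mod_cast hc
        push_cast at hc'
        have hyxπ : y * x ≤ π := by linarith [Real.pi_gt_d4]
        rw [abs_of_pos (Pn_pos hτ hyx0 hyxπ)]
        exact le_cU h hn hx1 hyxπ
      · have hc' := not_le.1 hc
        rcases hok with hok | ⟨hok1, hok2⟩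
        · exact absurd hok hc
        · have hpF := Pn_le_pF h.hT hu10 hv1 hv2 hc' hok1
          have hpF0 : (0 : ℝ) ≤ ((pF T u1 u2 : ℚ) : ℝ) := (abs_nonneg _).trans hpF
          have hok2' : ((pF T u1 u2 : ℚ) : ℝ) ≤ ((rL T b : ℚ) : ℝ) := by exact_mod_cast hok2
          have hq0 : 0 ≤ ((pF T u1 u2 : ℚ) : ℝ) / ((rL T b : ℚ) : ℝ) := div_nonneg hpF0 hrL0'.le
          have hq1 : ((pF T u1 u2 : ℚ) : ℝ) / ((rL T b : ℚ) : ℝ) ≤ 1 := by
            rw [div_le_one hrL0']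
            exact hok2'
          have hru := CCE_le_ru' ((pF T u1 u2 / rL T b) ^ b.K)
          push_cast at hru
          calc |Pn τ (y * x)| ^ k ≤ ((pF T u1 u2 : ℚ) : ℝ) ^ k :=
                pow_le_pow_left₀ (abs_nonneg _) hpF k
            _ = (((pF T u1 u2 : ℚ) : ℝ) / ((rL T b : ℚ) : ℝ)) ^ k * ((rL T b : ℚ) : ℝ) ^ k := by
                rw [← mul_pow, div_mul_cancel₀ _ hrL0'.ne']
            _ ≤ (((pF T u1 u2 : ℚ) : ℝ) / ((rL T b : ℚ) : ℝ)) ^ b.K * Pn τ (y * π) ^ k := by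
                apply mul_le_mul
                · exact pow_le_pow_of_le_one hq0 hq1 h.hk
                · exact pow_le_pow_left₀ hrL0'.le hrL k
                · positivity
                · positivity
            _ ≤ _ := mul_le_mul_of_nonneg_right hru hρk.le
    have hkap := kap_abs (τ := τ) (y := y) hx0
    have hxP0 : (0 : ℝ) ≤ ((xP T n w : ℚ) : ℝ) := (abs_nonneg _).trans hxP
    have hxX0 : (0 : ℝ) ≤ ((xX T n w : ℚ) : ℝ) := (abs_nonneg _).trans hxX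
    have hsF0 : (0 : ℝ) ≤ ((sF u1 u2 : ℚ) : ℝ) := (abs_nonneg _).trans hsF
    have hXF0 : (0 : ℝ) ≤ ((XF T u1 u2 : ℚ) : ℝ) := (abs_nonneg _).trans hXF
    have hcS0 : (0 : ℝ) ≤ ((cS n w : ℚ) : ℝ) := (abs_nonneg _).trans hsin
    have hr0 : (0 : ℝ) ≤ ((r : ℚ) : ℝ) := by
      by_contra hc
      push Not at hc
      have h5 := mul_neg_of_neg_of_pos hc hρk
      have h6 : 0 ≤ |Pn τ (y * x)| ^ k := by positivity
      linarith
    have e1 : |x * Pn τ x| * (|x * Xn τ x| * |Real.sinc (y * x)| + |Real.sin x| * |Xn τ (y * x)|) ≤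
        ((xP T n w : ℚ) : ℝ) * (((xX T n w : ℚ) : ℝ) * ((sF u1 u2 : ℚ) : ℝ) +
          ((cS n w : ℚ) : ℝ) * ((XF T u1 u2 : ℚ) : ℝ)) := by
      gcongr
    constructor
    · rw [abs_mul, abs_pow]
      have e2 := mul_le_mul (hkap.trans e1) hPr (by positivity) (by positivity)
      refine e2.trans (le_of_eq ?_)
      push_cast
      ring
    · push_cast
      positivity
  have hC0 := (hpt _ le_rfl hle).2
  have hnorm := intervalIntegral.norm_integral_le_of_norm_le_const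
    (a := π * n / 16) (b := π * (n + w : ℕ) / 16) (f := fun x => kap τ y x * Pn τ (y * x) ^ k)
    (C := ((xP T n w * (xX T n w * sF u1 u2 + cS n w * XF T u1 u2) * r : ℚ) : ℝ) * Pn τ (y * π) ^ k)
    (by
      intro x hx
      rw [uIoc_of_le hle] at hx
      rw [Real.norm_eq_abs]
      exact (hpt x hx.1.le hx.2).1)
  rw [Real.norm_eq_abs] at hnorm
  have hlen : |π * (n + w : ℕ) / 16 - π * n / 16| ≤ pU * w / 16 := by
    rw [abs_of_nonneg (by linarith)]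
    push_cast
    have := mul_le_mul_of_nonneg_right lt_pU.le (Nat.cast_nonneg (α := ℝ) w)
    linarith
  have hC0' : 0 ≤ ((xP T n w * (xX T n w * sF u1 u2 + cS n w * XF T u1 u2) * r : ℚ) : ℝ) *
    Pn τ (y * π) ^ k := mul_nonneg hC0 hρk.le
  have e3 := hnorm.trans (mul_le_mul_of_nonneg_left hlen hC0')
  have e4 := neg_abs_le (∫ x in (π * n / 16)..(π * (n + w : ℕ) / 16), kap τ y x * Pn τ (y * x) ^ k)
  have hru := CCE_le_ru' (pU * w / 16 * xP T n w * (xX T n w * sF u1 u2 + cS n w * XF T u1 u2) * r)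
  rw [← hv] at hru
  have e5 := mul_le_mul_of_nonneg_right hru hρk.le
  have e6 : ((pU * w / 16 * xP T n w * (xX T n w * sF u1 u2 + cS n w * XF T u1 u2) * r : ℚ) : ℝ) *
      Pn τ (y * π) ^ k =
      ((xP T n w * (xX T n w * sF u1 u2 + cS n w * XF T u1 u2) * r : ℚ) : ℝ) *
        Pn τ (y * π) ^ k * (pU * w / 16) := by
    push_cast
    ring
  rw [e6] at e5
  linarith

theorem int_C1 (h : BOk T b τ y k) {w n : ℕ} (hw : 0 < w) (hn : 16 ≤ n) (hok : okC T b n w = true) :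
    -(((vC T b n w : ℚ) : ℝ) * Pn τ (y * π) ^ k) ≤
    ∫ x in (π * n / 16)..(π * (n + w : ℕ) / 16), kap τ y x * Pn τ (y * x) ^ k := by
  unfold vC
  unfold okC at hok
  split_ifs at hok ⊢ with hc
  · exact CCE_near h hw hn hc (by simpa using hok)
  · exact CCE_far h hw hn hok

theorem int_C (h : BOk T b τ y k) {w : ℕ} (hw : 0 < w) (cnt n : ℕ) (hn : 16 ≤ n)
    (hok : okS T b w n cnt = true) : -(((sumC T b w n cnt : ℚ) : ℝ) * Pn τ (y * π) ^ k) ≤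
    ∫ x in (π * n / 16)..(π * (n + w * cnt : ℕ) / 16), kap τ y x * Pn τ (y * x) ^ k := by
  induction cnt generalizing n with
  | zero => simp [sumC]
  | succ c ih =>
    simp only [okS, Bool.and_eq_true] at hok
    have e1 := int_C1 h hw hn hok.1
    have e2 := ih (n + w) (by omega) hok.2
    have hc := CCE_cont τ y k
    have e3 := intervalIntegral.integral_add_adjacent_intervals (μ := volume)
      (hc.intervalIntegrable (π * n / 16) (π * (n + w : ℕ) / 16))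
      (hc.intervalIntegrable (π * (n + w : ℕ) / 16) (π * (n + w + w * c : ℕ) / 16))
    have e4 : n + w * (c + 1) = n + w + w * c := by ring
    rw [e4, ← e3]
    simp only [sumC]
    push_cast at e1 e2 ⊢
    linarith

end GCube
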