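import Pool.Agent.Lib.H83.CFDefs

/-!
Chunk CS1: `sinc`, `Xz = 3 j_1(v)/v`, `j2`.

`sinc' = -(v/3) Xz` : `sinc v = ∫_0^1 cos(vξ) dξ`, derivative `-∫ ξ sin(vξ) = -v ∫ ξ² sinc(vξ)` (or closed forms:
`Xz v = 3 (sin v - v cos v)/v³` for `v ≠ 0`). `Xz' = -(v/5) Yz` (differentiate `3∫ξ² sinc(vξ)` under the
integral: `3 ∫ ξ³ (-(vξ/3) Xz(vξ))`). `j2 = (v²/15) Yz`: integrate by parts `3∫ξ² sinc(vξ) = sinc v + ∫ ξ³ v (vξ/3) Xz(vξ)`.
`Xz ≥ 0` on `[0, 4.4]`: on `[0,π]` from `sinc ≥ 0`; on `[π, 4.4]`: `sin v - v cos v` has derivative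
`v sin v ≤ 0`, and at `4.4 = π + w`, `w = 1.2584…`: `-sin w + 4.4 cos w > 0` (e.g. `cos w = sin(π/2 - w)`,
`π/2 - w = 3π/2 - 4.4 ≥ 0.31`). Then `Yz ≥ 0` on `[0,4.4]`, so `Xz` antitone and `j2 ≥ 0` there; `sinc` antitone.
`|sinc u| ≤ 0.22` for `u ≥ π`: `1/u ≤ 0.22` for `u ≥ 4.5455`; else `u = π + w`, `|sin u| = sin w`, `w ≤ w·1 ≤ 0.22(π+w)`
for `w ≤ 0.886`, and for `w ∈ [0.886, 1.41]` the tangent line of `sin` at `1.35`:
`sin w ≤ sin 1.35 + cos 1.35 (w - 1.35) ≤ 0.9758 + 0.2191 (w-1.35)` (use sharp bounds; or `sin w = cos(π/2 - w) ≤ 1 - z²/2 + z⁴/24`).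
-/

open MeasureTheory Set
open scoped Real

namespace GCube

/-- differentiation under the integral for integrands `w ξ * g (v * ξ)` -/
lemma cs1_hasDerivAt {g g' w : ℝ → ℝ} (hg : ∀ x, HasDerivAt g (g' x) x) (hg' : Continuous g')
    (hw : Continuous w) (v : ℝ) :
    HasDerivAt (fun v => ∫ ξ in (0 : ℝ)..1, w ξ * g (v * ξ))
      (∫ ξ in (0 : ℝ)..1, w ξ * (g' (v * ξ) * ξ)) v := by
  have hgc : Continuous g := continuous_iff_continuousAt.mpr fun x => (hg x).continuousAt
  have hc : Continuous (fun p : ℝ × ℝ => w p.2 * (g' (p.1 * p.2) * p.2)) := by fun_prop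
  obtain ⟨C, hC⟩ := (isCompact_Icc.prod isCompact_Icc :
    IsCompact (Icc (v - 1) (v + 1) ×ˢ Icc (0 : ℝ) 1)).exists_bound_of_continuousOn hc.continuousOn
  have key := intervalIntegral.hasDerivAt_integral_of_dominated_loc_of_deriv_le
    (μ := volume) (a := 0) (b := 1) (x₀ := v) (s := Ioo (v - 1) (v + 1))
    (F := fun v ξ => w ξ * g (v * ξ))
    (F' := fun v ξ => w ξ * (g' (v * ξ) * ξ)) (bound := fun _ => C)
    (Ioo_mem_nhds (by linarith) (by linarith))
    (Filter.Eventually.of_forall fun x => by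
      have : Continuous (fun ξ => w ξ * g (x * ξ)) := by fun_prop
      exact this.aestronglyMeasurable)
    (by
      have : Continuous (fun ξ => w ξ * g (v * ξ)) := by fun_prop
      exact this.intervalIntegrable _ _)
    (by
      have : Continuous (fun ξ => w ξ * (g' (v * ξ) * ξ)) := by fun_prop
      exact this.aestronglyMeasurable)
    (by
      apply Filter.Eventually.of_forall
      intro t ht x hx
      rw [uIoc_of_le (zero_le_one)] at ht
      exact hC (x, t) ⟨⟨hx.1.le, hx.2.le⟩, ⟨ht.1.le, ht.2⟩⟩)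
    (continuous_const.intervalIntegrable _ _)
    (by
      apply Filter.Eventually.of_forall
      intro t _ x _
      have h1 : HasDerivAt (fun x => x * t) t x := by
        simpa using (hasDerivAt_id' x).mul_const t
      exact ((hg (x * t)).comp x h1).const_mul (w t))
  exact key.2

lemma cs1_mul_sinc (x : ℝ) : x * Real.sinc x = Real.sin x := psi_mul_sinc x

lemma cs1_sinc_int (v : ℝ) : Real.sinc v = ∫ ξ in (0 : ℝ)..1, 1 * Real.cos (v * ξ) := by
  have hd : ∀ t ∈ uIcc (0 : ℝ) 1, HasDerivAt (fun t => t * Real.sinc (v * t))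
      (1 * Real.cos (v * t)) t := by
    intro t _
    exact (psi_hasDerivAt_mul_sinc v t).congr_deriv (by ring)
  have hc : Continuous (fun t => 1 * Real.cos (v * t)) := by fun_prop
  rw [intervalIntegral.integral_eq_sub_of_hasDerivAt hd (hc.intervalIntegrable _ _)]
  simp

theorem hasDerivAt_sinc' (v : ℝ) : HasDerivAt Real.sinc (-(v / 3 * Xz v)) v := by
  have h := cs1_hasDerivAt (g := Real.cos) (g' := fun x => -Real.sin x) (w := fun _ => 1)
    (fun x => Real.hasDerivAt_cos x) (by fun_prop) continuous_const v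
  have e : Real.sinc = fun v => ∫ ξ in (0 : ℝ)..1, 1 * Real.cos (v * ξ) := by
    ext v
    exact cs1_sinc_int v
  rw [e]
  refine h.congr_deriv ?_
  unfold Xz
  have e2 : v / 3 * (3 * ∫ ξ in (0 : ℝ)..1, ξ ^ 2 * Real.sinc (v * ξ)) =
      v * ∫ ξ in (0 : ℝ)..1, ξ ^ 2 * Real.sinc (v * ξ) := by ring
  rw [e2, ← intervalIntegral.integral_const_mul, ← intervalIntegral.integral_neg]
  apply intervalIntegral.integral_congr
  intro t _
  simp only
  rw [← cs1_mul_sinc (v * t)]
  ring

lemma cs1_param_cont {g w : ℝ → ℝ} (hg : Continuous g) (hw : Continuous w) :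
    Continuous (fun v => ∫ ξ in (0 : ℝ)..1, w ξ * g (v * ξ)) := by
  apply intervalIntegral.continuous_parametric_intervalIntegral_of_continuous'
  unfold Function.uncurry
  fun_prop

theorem Xz_cont : Continuous Xz := by
  unfold Xz
  exact continuous_const.mul (cs1_param_cont (w := fun ξ => ξ ^ 2) Real.continuous_sinc (by fun_prop))

theorem Yz_cont : Continuous Yz := by
  unfold Yz
  exact continuous_const.mul (cs1_param_cont (w := fun ξ => ξ ^ 4) Xz_cont (by fun_prop))

theorem hasDerivAt_Xz (v : ℝ) : HasDerivAt Xz (-(v / 5 * Yz v)) v := by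
  have hc : Continuous (fun x => -(x / 3 * Xz x)) := by
    have := Xz_cont
    fun_prop
  have h := cs1_hasDerivAt (g := Real.sinc) (g' := fun x => -(x / 3 * Xz x)) (w := fun ξ => ξ ^ 2)
    hasDerivAt_sinc' hc (by fun_prop) v
  have h2 := h.const_mul 3
  have e : Xz = fun v => 3 * ∫ ξ in (0 : ℝ)..1, ξ ^ 2 * Real.sinc (v * ξ) := by
    ext v
    rfl
  rw [e]
  refine h2.congr_deriv ?_
  unfold Yz
  have e2 : v / 5 * (5 * ∫ ξ in (0 : ℝ)..1, ξ ^ 4 * Xz (v * ξ)) =
      v * ∫ ξ in (0 : ℝ)..1, ξ ^ 4 * Xz (v * ξ) := by ring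
  rw [e2, ← intervalIntegral.integral_const_mul, ← intervalIntegral.integral_const_mul,
    ← intervalIntegral.integral_neg]
  apply intervalIntegral.integral_congr
  intro t _
  simp only
  ring

theorem Xz_eq {v : ℝ} (hv : v ≠ 0) : Xz v = 3 * (Real.sin v - v * Real.cos v) / v ^ 3 := by
  have hd : ∀ t ∈ uIcc (0 : ℝ) 1, HasDerivAt
      (fun t => (Real.sin (v * t) - v * t * Real.cos (v * t)) / v ^ 3)
      (t ^ 2 * Real.sinc (v * t)) t := by
    intro t _
    have h0 : HasDerivAt (fun t => v * t) v t := by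
      simpa using (hasDerivAt_id' t).const_mul v
    have h1 := h0.sin
    have h2 := h0.cos
    have h3 := ((h1.sub (h0.mul h2)).div_const (v ^ 3))
    refine h3.congr_deriv ?_
    have h4 := cs1_mul_sinc (v * t)
    rw [div_eq_iff (by positivity)]
    have : t ^ 2 * Real.sinc (v * t) * v ^ 3 = v ^ 2 * t * (v * t * Real.sinc (v * t)) := by ring
    rw [this, h4]
    ring
  have hc : Continuous (fun t => t ^ 2 * Real.sinc (v * t)) := by
    have := Real.continuous_sinc
    fun_prop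
  unfold Xz
  rw [intervalIntegral.integral_eq_sub_of_hasDerivAt hd (hc.intervalIntegrable _ _)]
  simp
  ring

theorem j2_eq (v : ℝ) : j2 v = v ^ 2 / 15 * Yz v := by
  have hd : ∀ t ∈ uIcc (0 : ℝ) 1, HasDerivAt (fun t => t ^ 3 * Real.sinc (v * t))
      (3 * (t ^ 2 * Real.sinc (v * t)) - v ^ 2 / 3 * (t ^ 4 * Xz (v * t))) t := by
    intro t _
    have h0 : HasDerivAt (fun t => v * t) v t := by
      simpa using (hasDerivAt_id' t).const_mul v
    have h1 : HasDerivAt (fun t => Real.sinc (v * t)) (-(v * t / 3 * Xz (v * t)) * v) t :=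
      (hasDerivAt_sinc' (v * t)).comp t h0
    refine ((hasDerivAt_pow 3 t).mul h1).congr_deriv ?_
    simp
    ring
  have hc1 : Continuous (fun t => t ^ 2 * Real.sinc (v * t)) := by
    have := Real.continuous_sinc
    fun_prop
  have hc2 : Continuous (fun t => t ^ 4 * Xz (v * t)) := by
    have := Xz_cont
    fun_prop
  have hc3 : Continuous (fun t => 3 * (t ^ 2 * Real.sinc (v * t))) := by fun_prop
  have hc4 : Continuous (fun t => v ^ 2 / 3 * (t ^ 4 * Xz (v * t))) := by fun_prop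
  have h := intervalIntegral.integral_eq_sub_of_hasDerivAt hd
    ((hc3.sub hc4).intervalIntegrable _ _)
  rw [intervalIntegral.integral_sub (hc3.intervalIntegrable _ _)
    (hc4.intervalIntegrable _ _), intervalIntegral.integral_const_mul,
    intervalIntegral.integral_const_mul] at h
  simp only [one_pow, mul_one, one_mul, ne_eq, OfNat.ofNat_ne_zero, not_false_eq_true, zero_pow,
    zero_mul, sub_zero] at h
  unfold j2 Yz
  conv_lhs => unfold Xz
  linarith

theorem sinc_nonneg {v : ℝ} (h0 : 0 ≤ v) (h1 : v ≤ π) : 0 ≤ Real.sinc v := by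
  rcases h0.eq_or_lt with h | h
  · rw [← h]
    simp
  · rw [Real.sinc_of_ne_zero h.ne']
    exact div_nonneg (Real.sin_nonneg_of_nonneg_of_le_pi h0 h1) h0

theorem sinc_pos {v : ℝ} (h0 : 0 ≤ v) (h1 : v < π) : 0 < Real.sinc v := by
  rcases h0.eq_or_lt with h | h
  · rw [← h]
    simp
  · rw [Real.sinc_of_ne_zero h.ne']
    exact div_pos (Real.sin_pos_of_pos_of_lt_pi h h1) h

theorem sinc_nonpos {v : ℝ} (h0 : π ≤ v) (h1 : v ≤ 44 / 10) : Real.sinc v ≤ 0 := by
  have hp := Real.pi_gt_three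
  have h : 0 < v := by linarith
  rw [Real.sinc_of_ne_zero h.ne']
  have h2 : Real.sin v = -Real.sin (v - π) := by
    rw [Real.sin_sub_pi]
    ring
  have h3 : 0 ≤ Real.sin (v - π) :=
    Real.sin_nonneg_of_nonneg_of_le_pi (by linarith) (by linarith)
  rw [h2]
  exact div_nonpos_of_nonpos_of_nonneg (by linarith) h.le

theorem Xz_nonneg {v : ℝ} (h0 : 0 ≤ v) (h1 : v ≤ 44 / 10) : 0 ≤ Xz v := by
  rcases le_total v π with h | h
  · unfold Xz
    apply mul_nonneg (by norm_num)
    apply intervalIntegral.integral_nonneg (by norm_num)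
    intro t ht
    apply mul_nonneg (sq_nonneg _)
    apply sinc_nonneg (mul_nonneg h0 ht.1)
    calc v * t ≤ v * 1 := by gcongr; exact ht.2
      _ ≤ π := by linarith
  · have hp := Real.pi_gt_d4
    have hp2 := Real.pi_lt_d4
    have hv : 0 < v := by linarith
    rw [Xz_eq hv.ne']
    apply div_nonneg _ (by positivity)
    apply mul_nonneg (by norm_num)
    set z := 3 * π / 2 - v with hz
    have hz1 : (312 / 1000 : ℝ) ≤ z := by rw [hz]; norm_num at hp ⊢; linarith
    have hz2 : z ≤ π / 2 := by rw [hz]; linarith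
    have ev : v = (π / 2 - z) + π := by rw [hz]; ring
    have e1 : Real.sin v = -Real.cos z := by
      rw [ev, Real.sin_add_pi, Real.sin_pi_div_two_sub]
    have e2 : Real.cos v = -Real.sin z := by
      rw [ev, Real.cos_add_pi, Real.cos_pi_div_two_sub]
    rw [e1, e2]
    have h2 : Real.sin (312 / 1000) ≤ Real.sin z :=
      Real.sin_le_sin_of_le_of_le_pi_div_two (by linarith) hz2 hz1
    have h3 : Real.cos z ≤ Real.cos (312 / 1000) :=
      Real.cos_le_cos_of_nonneg_of_le_pi (by norm_num) (by linarith) hz1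
    have h4 := Real.sin_gt_sub_cube (x := 312 / 1000) (by norm_num)
    have h5 := abs_le.mp (Real.cos_bound (x := 312 / 1000) (by rw [abs_of_pos] <;> norm_num))
    have h6 : (3044 / 10000 : ℝ) ≤ Real.sin z := by
      refine le_trans ?_ (h4.le.trans h2)
      norm_num
    have h7 : Real.cos z ≤ 952 / 1000 := by
      have h8 := h5.2
      rw [abs_of_pos (by norm_num : (0 : ℝ) < 312 / 1000)] at h8
      have : Real.cos (312 / 1000) ≤ 952 / 1000 := by
        norm_num at h8 ⊢
        linarith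
      linarith
    have h9 : (3.1415 : ℝ) * (3044 / 10000) ≤ v * Real.sin z := by
      apply mul_le_mul (by linarith) h6 (by norm_num) hv.le
    norm_num at h9
    nlinarith

lemma Yz_nonneg {v : ℝ} (h0 : 0 ≤ v) (h1 : v ≤ 44 / 10) : 0 ≤ Yz v := by
  unfold Yz
  apply mul_nonneg (by norm_num)
  apply intervalIntegral.integral_nonneg (by norm_num)
  intro t ht
  apply mul_nonneg (by positivity)
  apply Xz_nonneg (mul_nonneg h0 ht.1)
  calc v * t ≤ v * 1 := by gcongr; exact ht.2
    _ ≤ 44 / 10 := by linarith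

theorem sinc_anti : AntitoneOn Real.sinc (Icc 0 (44 / 10)) := by
  apply antitoneOn_of_deriv_nonpos (convex_Icc _ _) Real.continuous_sinc.continuousOn
  · intro x _
    exact (hasDerivAt_sinc' x).differentiableAt.differentiableWithinAt
  · intro x hx
    rw [interior_Icc] at hx
    rw [(hasDerivAt_sinc' x).deriv]
    have := Xz_nonneg hx.1.le hx.2.le
    have := hx.1
    have : 0 ≤ x / 3 * Xz x := by positivity
    linarith

theorem Xz_anti : AntitoneOn Xz (Icc 0 (44 / 10)) := by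
  apply antitoneOn_of_deriv_nonpos (convex_Icc _ _) Xz_cont.continuousOn
  · intro x _
    exact (hasDerivAt_Xz x).differentiableAt.differentiableWithinAt
  · intro x hx
    rw [interior_Icc] at hx
    rw [(hasDerivAt_Xz x).deriv]
    have := Yz_nonneg hx.1.le hx.2.le
    have := hx.1
    have : 0 ≤ x / 5 * Yz x := by positivity
    linarith

theorem j2_nonneg {v : ℝ} (h0 : 0 ≤ v) (h1 : v ≤ 44 / 10) : 0 ≤ j2 v := by
  rw [j2_eq]
  have := Yz_nonneg h0 h1
  positivity

theorem j2_cont : Continuous j2 := by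
  unfold j2
  exact Xz_cont.sub Real.continuous_sinc

theorem abs_sinc_inv {u : ℝ} (hu : 0 < u) : |Real.sinc u| ≤ 1 / u := by
  rw [Real.sinc_of_ne_zero hu.ne', abs_div, abs_of_pos hu]
  gcongr
  exact Real.abs_sin_le_one u

theorem abs_sinc_lin {u : ℝ} (hu : π ≤ u) : |Real.sinc u| ≤ (u - π) / u := by
  have hp := Real.pi_pos
  have h : 0 < u := by linarith
  rw [Real.sinc_of_ne_zero h.ne', abs_div, abs_of_pos h]
  gcongr
  have h2 : Real.sin u = -Real.sin (u - π) := by
    rw [Real.sin_sub_pi]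
    ring
  rw [h2, abs_neg]
  have h3 := Real.abs_sin_le_abs (x := u - π)
  rwa [abs_of_nonneg (by linarith : 0 ≤ u - π)] at h3

/-! ### truncated alternating series -/

/-- partial sums of the cosine series -/
noncomputable def cs1C (n : ℕ) (x : ℝ) : ℝ :=
  ∑ i ∈ Finset.range n, (-1) ^ i * x ^ (2 * i) / (2 * i).factorial
/-- partial sums of the sine series -/
noncomputable def cs1S (n : ℕ) (x : ℝ) : ℝ :=
  ∑ i ∈ Finset.range n, (-1) ^ i * x ^ (2 * i + 1) / (2 * i + 1).factorial

lemma cs1S_deriv (n : ℕ) (x : ℝ) : HasDerivAt (cs1S n) (cs1C n x) x := by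
  unfold cs1S cs1C
  have : ∀ i ∈ Finset.range n, HasDerivAt
      (fun x : ℝ => (-1) ^ i * x ^ (2 * i + 1) / ((2 * i + 1).factorial : ℝ))
      ((-1) ^ i * x ^ (2 * i) / ((2 * i).factorial : ℝ)) x := by
    intro i _
    have h := ((hasDerivAt_pow (2 * i + 1) x).const_mul ((-1 : ℝ) ^ i)).div_const
      ((2 * i + 1).factorial : ℝ)
    refine h.congr_deriv ?_
    have h2 : ((2 * i + 1).factorial : ℝ) = (2 * i + 1) * (2 * i).factorial := by
      rw [Nat.factorial_succ]
      push_cast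
      ring
    have h3 : ((2 * i).factorial : ℝ) ≠ 0 := by positivity
    have h4 : (2 * (i : ℝ) + 1) ≠ 0 := by positivity
    rw [h2]
    simp only [Nat.add_sub_cancel]
    push_cast
    field_simp
  exact HasDerivAt.fun_sum this

lemma cs1C_deriv (n : ℕ) (x : ℝ) : HasDerivAt (cs1C (n + 1)) (-(cs1S n x)) x := by
  have e : cs1C (n + 1) = fun x : ℝ => 1 + ∑ i ∈ Finset.range n,
      (-1) ^ (i + 1) * x ^ (2 * i + 2) / ((2 * i + 2).factorial : ℝ) := by
    ext x
    unfold cs1C
    rw [Finset.sum_range_succ', add_comm]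
    congr 1
    simp
  rw [e]
  unfold cs1S
  have : ∀ i ∈ Finset.range n, HasDerivAt
      (fun x : ℝ => (-1) ^ (i + 1) * x ^ (2 * i + 2) / ((2 * i + 2).factorial : ℝ))
      (-((-1) ^ i * x ^ (2 * i + 1) / ((2 * i + 1).factorial : ℝ))) x := by
    intro i _
    have h := ((hasDerivAt_pow (2 * i + 2) x).const_mul ((-1 : ℝ) ^ (i + 1))).div_const
      ((2 * i + 2).factorial : ℝ)
    refine h.congr_deriv ?_
    have h2 : ((2 * i + 2).factorial : ℝ) = (2 * i + 2) * (2 * i + 1).factorial := by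
      rw [Nat.factorial_succ]
      push_cast
      ring
    have h3 : ((2 * i + 1).factorial : ℝ) ≠ 0 := by positivity
    have h4 : (2 * (i : ℝ) + 2) ≠ 0 := by positivity
    rw [h2]
    have h5 : 2 * i + 2 - 1 = 2 * i + 1 := by omega
    rw [h5]
    push_cast
    field_simp
    ring
  have h := (HasDerivAt.fun_sum this).const_add 1
  refine h.congr_deriv ?_
  rw [Finset.sum_neg_distrib]

lemma cs1_mono {f f' : ℝ → ℝ} (hf : ∀ x, HasDerivAt f (f' x) x) (h0 : f 0 = 0)
    (h : ∀ x, 0 ≤ x → 0 ≤ f' x) {x : ℝ} (hx : 0 ≤ x) : 0 ≤ f x := by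
  have hm : MonotoneOn f (Ici 0) := by
    apply monotoneOn_of_deriv_nonneg (convex_Ici 0)
    · intro y _
      exact (hf y).continuousAt.continuousWithinAt
    · intro y _
      exact (hf y).differentiableAt.differentiableWithinAt
    · intro y hy
      rw [interior_Ici] at hy
      rw [(hf y).deriv]
      exact h y (le_of_lt hy)
  have := hm (mem_Ici.mpr le_rfl) hx hx
  rwa [h0] at this

lemma cs1_trig (n : ℕ) : (∀ x : ℝ, 0 ≤ x → 0 ≤ (-1) ^ (n + 1) * (Real.cos x - cs1C (n + 1) x)) ∧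
    (∀ x : ℝ, 0 ≤ x → 0 ≤ (-1) ^ (n + 1) * (Real.sin x - cs1S (n + 1) x)) := by
  have step : ∀ n : ℕ, (∀ x : ℝ, 0 ≤ x → 0 ≤ (-1) ^ (n + 1) * (Real.cos x - cs1C (n + 1) x)) →
      (∀ x : ℝ, 0 ≤ x → 0 ≤ (-1) ^ (n + 1) * (Real.sin x - cs1S (n + 1) x)) := by
    intro n h x hx
    apply cs1_mono (f := fun x => (-1) ^ (n + 1) * (Real.sin x - cs1S (n + 1) x))
      (f' := fun x => (-1) ^ (n + 1) * (Real.cos x - cs1C (n + 1) x)) _ _ h hx
    · intro y
      exact ((Real.hasDerivAt_sin y).sub (cs1S_deriv (n + 1) y)).const_mul _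
    · simp [cs1S]
  induction n with
  | zero =>
    have h1 : ∀ x : ℝ, 0 ≤ x → 0 ≤ (-1) ^ (0 + 1) * (Real.cos x - cs1C (0 + 1) x) := by
      intro x _
      simp only [cs1C]
      have := Real.cos_le_one x
      simp
      linarith
    exact ⟨h1, step 0 h1⟩
  | succ n ih =>
    have h1 : ∀ x : ℝ, 0 ≤ x → 0 ≤ (-1) ^ (n + 1 + 1) * (Real.cos x - cs1C (n + 1 + 1) x) := by
      intro x hx
      apply cs1_mono (f := fun x => (-1) ^ (n + 1 + 1) * (Real.cos x - cs1C (n + 1 + 1) x))
        (f' := fun x => (-1) ^ (n + 1) * (Real.sin x - cs1S (n + 1) x)) _ _ ih.2 hx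
      · intro y
        refine (((Real.hasDerivAt_cos y).sub (cs1C_deriv (n + 1) y)).const_mul _).congr_deriv ?_
        ring
      · have : cs1C (n + 1 + 1) 0 = 1 := by
          unfold cs1C
          rw [Finset.sum_range_succ']
          simp
        simp [this]
    exact ⟨h1, step (n + 1) h1⟩

lemma cs1_cos_le (z : ℝ) (hz : 0 ≤ z) : Real.cos z ≤ 1 - z ^ 2 / 2 + z ^ 4 / 24 := by
  have h := (cs1_trig 2).1 z hz
  simp only [cs1C, Finset.sum_range_succ, Finset.sum_range_zero] at h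
  norm_num [Nat.factorial] at h
  linarith

theorem abs_sinc_22 {u : ℝ} (hu : π ≤ u) : |Real.sinc u| ≤ 22 / 100 := by
  have hp := Real.pi_gt_d4
  have hp2 := Real.pi_lt_d4
  have h : 0 < u := by linarith
  rcases le_total (50 / 11) u with h1 | h1
  · refine (abs_sinc_inv h).trans ?_
    rw [div_le_iff₀ h]
    linarith
  · rw [Real.sinc_of_ne_zero h.ne', abs_div, abs_of_pos h, div_le_iff₀ h]
    have h2 : Real.sin u = -Real.sin (u - π) := by
      rw [Real.sin_sub_pi]
      ring
    have h3 : 0 ≤ Real.sin (u - π) :=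
      Real.sin_nonneg_of_nonneg_of_le_pi (by linarith) (by linarith)
    rw [h2, abs_neg, abs_of_nonneg h3]
    set z := 3 * π / 2 - u with hz
    have e : Real.sin (u - π) = Real.cos z := by
      rw [← Real.sin_pi_div_two_sub]
      congr 1
      rw [hz]
      ring
    have hz0 : 0 ≤ z := by rw [hz]; norm_num at hp ⊢; linarith
    have hz2 : z ≤ 1571 / 1000 := by rw [hz]; norm_num at hp2 ⊢; linarith
    have h4 := cs1_cos_le z hz0
    rw [e]
    have hu2 : u = 3 * π / 2 - z := by rw [hz]; ring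
    rw [hu2]
    have h5 : z ^ 4 ≤ (1571 / 1000) ^ 2 * z ^ 2 := by
      have : z ^ 2 ≤ (1571 / 1000) ^ 2 := by gcongr
      nlinarith [sq_nonneg z]
    norm_num at hp h5
    nlinarith [sq_nonneg (z - 277 / 1000)]

end GCube
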