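import Pool.Agent.Lib.H83.CFBasic
import Pool.Agent.Lib.H83.CFSinc

/-!
Chunk CS3: `Xn - sinc ≥ (5/2)(1-μ) j2` on `[0,π]`.

Let `ρ(ξ) = (sinc(vξ) - sinc v)/(1-ξ²)` for `ξ ∈ [0,1)`, `0 < v ≤ π`. `z ↦ sinc √z` is convex on `[0, π²]` (its derivative is
`-Xz(√z)/6`, `Xz` antitone), so `ρ` is nonincreasing in `ξ` (slopes of a convex function between `v²ξ²` and `v²`) and `≥ 0`.
Let `λ(ξ) = E(τξ)/(3 Nm τ 2)` (density with respect to `3ξ²dξ`), antitone, `κ = (5/2)(1-μ)`. Then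
`Xn - sinc v = ∫ 3ξ² λ (1-ξ²) ρ`, `j2 v = ∫ 3ξ² (1-ξ²) ρ`, `∫ 3ξ² λ (1-ξ²) = 1 - μ`, `∫ 3ξ²(1-ξ²) = 2/5`, so
`Xn - sinc - κ j2 = ∫ 3ξ²(1-ξ²)(λ - κ) ρ` with `∫ 3ξ²(1-ξ²)(λ-κ) = 0`. Since `λ - κ` is continuous antitone with zero mean it
changes sign at some `ξ*` (from `≥ 0` to `≤ 0`), and `(λ - κ)(ρ - ρ(ξ*)) ≥ 0` pointwise; integrate.
(One can avoid the singular quotient: use `sinc(vξ) - sinc v ≥ ρ* (1-ξ²)` for `ξ ≤ ξ*` and `≤` for `ξ ≥ ξ*`, `ρ* = ρ(ξ*)`, which is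
convexity of `sinc √z` on the three points `v²ξ², v²ξ*², v²`; if `ξ* = 1` the slope is `ρ* = v² Xz(v)/6`.)
-/

open MeasureTheory Set
open scoped Real

namespace GCube

theorem CFCheb_up {a b : ℝ} (h0 : 0 ≤ a) (hab : a ≤ b) (hb : b ≤ 44 / 10) :
    Real.sinc a - Real.sinc b ≤ (b ^ 2 - a ^ 2) / 6 * Xz a := by
  have hd : ∀ x : ℝ, HasDerivAt (fun x => Real.sinc x + x ^ 2 / 6 * Xz a)
      (-(x / 3 * Xz x) + x / 3 * Xz a) x := by
    intro x
    have e1 : HasDerivAt (fun x : ℝ => x ^ 2 / 6 * Xz a) (x / 3 * Xz a) x := by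
      have := ((hasDerivAt_pow 2 x).div_const 6).mul_const (Xz a)
      refine this.congr_deriv ?_
      simp only [Nat.cast_ofNat, Nat.add_one_sub_one, pow_one]
      ring
    exact (hasDerivAt_sinc' x).add e1
  have hm : MonotoneOn (fun x => Real.sinc x + x ^ 2 / 6 * Xz a) (Icc a b) := by
    apply monotoneOn_of_deriv_nonneg (convex_Icc a b)
    · exact fun x _ => (hd x).continuousAt.continuousWithinAt
    · exact fun x _ => (hd x).differentiableAt.differentiableWithinAt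
    · intro x hx
      rw [interior_Icc] at hx
      rw [(hd x).deriv]
      have h1 : Xz x ≤ Xz a := Xz_anti ⟨h0, hab.trans hb⟩ ⟨h0.trans hx.1.le, hx.2.le.trans hb⟩ hx.1.le
      have h2 : 0 ≤ x / 3 := by linarith [h0.trans hx.1.le]
      nlinarith [mul_le_mul_of_nonneg_left h1 h2]
  have := hm ⟨le_rfl, hab⟩ ⟨hab, le_rfl⟩ hab
  simp only at this
  linarith

theorem CFCheb_lo {a b : ℝ} (h0 : 0 ≤ a) (hab : a ≤ b) (hb : b ≤ 44 / 10) :
    (b ^ 2 - a ^ 2) / 6 * Xz b ≤ Real.sinc a - Real.sinc b := by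
  have hd : ∀ x : ℝ, HasDerivAt (fun x => Real.sinc x + x ^ 2 / 6 * Xz b)
      (-(x / 3 * Xz x) + x / 3 * Xz b) x := by
    intro x
    have e1 : HasDerivAt (fun x : ℝ => x ^ 2 / 6 * Xz b) (x / 3 * Xz b) x := by
      have := ((hasDerivAt_pow 2 x).div_const 6).mul_const (Xz b)
      refine this.congr_deriv ?_
      simp only [Nat.cast_ofNat, Nat.add_one_sub_one, pow_one]
      ring
    exact (hasDerivAt_sinc' x).add e1
  have hm : AntitoneOn (fun x => Real.sinc x + x ^ 2 / 6 * Xz b) (Icc a b) := by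
    apply antitoneOn_of_deriv_nonpos (convex_Icc a b)
    · exact fun x _ => (hd x).continuousAt.continuousWithinAt
    · exact fun x _ => (hd x).differentiableAt.differentiableWithinAt
    · intro x hx
      rw [interior_Icc] at hx
      rw [(hd x).deriv]
      have h1 : Xz b ≤ Xz x := Xz_anti ⟨h0.trans hx.1.le, hx.2.le.trans hb⟩ ⟨h0.trans hab, hb⟩ hx.2.le
      have h2 : 0 ≤ x / 3 := by linarith [h0.trans hx.1.le]
      nlinarith [mul_le_mul_of_nonneg_left h1 h2]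
  have := hm ⟨le_rfl, hab⟩ ⟨hab, le_rfl⟩ hab
  simp only at this
  linarith

/-- convexity of `sinc √z` on three points -/
theorem CFCheb_three {a m b : ℝ} (h0 : 0 ≤ a) (ham : a ≤ m) (hmb : m ≤ b) (hb : b ≤ 44 / 10) :
    (Real.sinc m - Real.sinc b) * (b ^ 2 - a ^ 2) ≤ (b ^ 2 - m ^ 2) * (Real.sinc a - Real.sinc b) := by
  have h1 := CFCheb_up (h0.trans ham) hmb hb
  have h2 := CFCheb_lo h0 ham (hmb.trans hb)
  have h3 : 0 ≤ m ^ 2 - a ^ 2 := by nlinarith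
  have h4 : 0 ≤ b ^ 2 - m ^ 2 := by nlinarith [h0.trans ham]
  have h5 := mul_le_mul_of_nonneg_right h1 h3
  have h6 := mul_le_mul_of_nonneg_left h2 h4
  nlinarith

theorem CFCheb_f {v x y : ℝ} (hv0 : 0 < v) (hv : v ≤ 44 / 10) (hx : 0 ≤ x) (hxy : x ≤ y) (hy : y ≤ 1) :
    (Real.sinc (v * y) - Real.sinc v) * (1 - x ^ 2) ≤
      (1 - y ^ 2) * (Real.sinc (v * x) - Real.sinc v) := by
  have h := CFCheb_three (a := v * x) (m := v * y) (b := v) (mul_nonneg hv0.le hx)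
    (mul_le_mul_of_nonneg_left hxy hv0.le) (mul_le_of_le_one_right hv0.le hy) hv
  have h2 : v ^ 2 * ((Real.sinc (v * y) - Real.sinc v) * (1 - x ^ 2)) ≤
      v ^ 2 * ((1 - y ^ 2) * (Real.sinc (v * x) - Real.sinc v)) := by
    calc _ = (Real.sinc (v * y) - Real.sinc v) * (v ^ 2 - (v * x) ^ 2) := by ring
      _ ≤ _ := h
      _ = _ := by ring
  exact le_of_mul_le_mul_left h2 (by positivity)

theorem CFCheb_E_anti (τ : ℝ) {x y : ℝ} (hx : 0 ≤ x) (hxy : x ≤ y) : E (τ * y) ≤ E (τ * x) := by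
  unfold E
  apply Real.exp_le_exp.mpr
  have : x ^ 2 ≤ y ^ 2 := pow_le_pow_left₀ hx hxy 2
  have h2 : τ ^ 2 * x ^ 2 ≤ τ ^ 2 * y ^ 2 := mul_le_mul_of_nonneg_left this (sq_nonneg τ)
  have h3 : (τ * x) ^ 2 = τ ^ 2 * x ^ 2 := by ring
  have h4 : (τ * y) ^ 2 = τ ^ 2 * y ^ 2 := by ring
  rw [h3, h4]
  linarith

theorem CFCheb_E_cont (τ : ℝ) : Continuous fun ξ : ℝ => E (τ * ξ) := by
  unfold E
  fun_prop

theorem Xn_sub_sinc {τ v : ℝ} (h0 : 0 ≤ v) (h1 : v ≤ π) :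
    5 / 2 * (1 - mu τ) * j2 v ≤ Xn τ v - Real.sinc v := by
  rcases eq_or_lt_of_le h0 with hv | hv
  · rw [← hv, Xn_zero, j2_eq]
    simp
  have hv4 : v ≤ 44 / 10 := by
    have := Real.pi_lt_d2
    linarith
  have hE := CFCheb_E_cont τ
  have hs : Continuous fun ξ : ℝ => Real.sinc (v * ξ) :=
    Real.continuous_sinc.comp (continuous_const.mul continuous_id)
  set N2 := Nm τ 2 with hN2
  set N4 := Nm τ 4 with hN4
  have hN2p : 0 < N2 := Nm_pos τ 2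
  have hN2e : N2 = ∫ ξ in (0 : ℝ)..1, ξ ^ 2 * E (τ * ξ) := rfl
  have hN4e : N4 = ∫ ξ in (0 : ℝ)..1, ξ ^ 4 * E (τ * ξ) := rfl
  set K := 15 / 2 * (N2 - N4) with hK
  have hi3 : ∫ ξ in (0 : ℝ)..1, ξ ^ 2 = 1 / 3 := by
    rw [integral_pow]
    norm_num
  have hi5 : ∫ ξ in (0 : ℝ)..1, ξ ^ 4 = 1 / 5 := by
    rw [integral_pow]
    norm_num
  -- the weight has zero mean
  have hzero : ∫ ξ in (0 : ℝ)..1, ξ ^ 2 * (E (τ * ξ) - K) * (1 - ξ ^ 2) = 0 := by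
    have e : (fun ξ : ℝ => ξ ^ 2 * (E (τ * ξ) - K) * (1 - ξ ^ 2)) =
        fun ξ : ℝ => (ξ ^ 2 * E (τ * ξ) - ξ ^ 4 * E (τ * ξ)) - (K * ξ ^ 2 - K * ξ ^ 4) := by
      funext ξ
      ring
    rw [e, intervalIntegral.integral_sub, intervalIntegral.integral_sub,
      intervalIntegral.integral_sub, intervalIntegral.integral_const_mul,
      intervalIntegral.integral_const_mul, hi3, hi5, ← hN2e, ← hN4e, hK]
    · ring
    all_goals
      apply Continuous.intervalIntegrable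
      fun_prop
  have hcont : Continuous fun ξ : ℝ => ξ ^ 2 * (E (τ * ξ) - K) * (1 - ξ ^ 2) := by fun_prop
  obtain ⟨c, hc, hc0⟩ : ∃ c ∈ Ioo (0 : ℝ) 1, c ^ 2 * (E (τ * c) - K) * (1 - c ^ 2) = 0 := by
    apply exists_hasDerivAt_eq_zero
      (f := fun x => ∫ ξ in (0 : ℝ)..x, ξ ^ 2 * (E (τ * ξ) - K) * (1 - ξ ^ 2)) zero_lt_one
    · exact fun x _ => (hcont.integral_hasStrictDerivAt 0 x).hasDerivAt.continuousAt.continuousWithinAt
    · simp only [intervalIntegral.integral_same]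
      exact hzero.symm
    · exact fun x _ => (hcont.integral_hasStrictDerivAt 0 x).hasDerivAt
  have hc1 : 0 < 1 - c ^ 2 := by nlinarith [hc.1, hc.2]
  have hEc : E (τ * c) = K := by
    have h2 : c ^ 2 ≠ 0 := pow_ne_zero 2 (ne_of_gt hc.1)
    rcases mul_eq_zero.mp hc0 with h | h
    · rcases mul_eq_zero.mp h with h | h
      · exact absurd h h2
      · linarith
    · exact absurd h (ne_of_gt hc1)
  set ρ := (Real.sinc (v * c) - Real.sinc v) / (1 - c ^ 2) with hρ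
  have hρc : ρ * (1 - c ^ 2) = Real.sinc (v * c) - Real.sinc v := by
    rw [hρ]
    field_simp
  -- the main pointwise inequality
  have hpt : ∀ ξ ∈ Icc (0 : ℝ) 1, 0 ≤ ξ ^ 2 * ((E (τ * ξ) - K) *
      (Real.sinc (v * ξ) - Real.sinc v - ρ * (1 - ξ ^ 2))) := by
    intro ξ hξ
    refine mul_nonneg (sq_nonneg ξ) ?_
    rcases le_total ξ c with h | h
    · have e1 : K ≤ E (τ * ξ) := hEc ▸ CFCheb_E_anti τ hξ.1 h
      have e2 := CFCheb_f hv hv4 hξ.1 h hc.2.le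
      have e3 : 0 ≤ Real.sinc (v * ξ) - Real.sinc v - ρ * (1 - ξ ^ 2) := by
        rw [← hρc] at e2
        have e4 : (1 - c ^ 2) * (ρ * (1 - ξ ^ 2)) ≤ (1 - c ^ 2) * (Real.sinc (v * ξ) - Real.sinc v) := by
          linarith
        linarith [le_of_mul_le_mul_left e4 hc1]
      exact mul_nonneg (by linarith) e3
    · have e1 : E (τ * ξ) ≤ K := hEc ▸ CFCheb_E_anti τ hc.1.le h
      have e2 := CFCheb_f hv hv4 hc.1.le h hξ.2
      have e3 : Real.sinc (v * ξ) - Real.sinc v - ρ * (1 - ξ ^ 2) ≤ 0 := by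
        rw [← hρc] at e2
        have e4 : (1 - c ^ 2) * (Real.sinc (v * ξ) - Real.sinc v) ≤ (1 - c ^ 2) * (ρ * (1 - ξ ^ 2)) := by
          linarith
        linarith [le_of_mul_le_mul_left e4 hc1]
      exact mul_nonneg_of_nonpos_of_nonpos (by linarith) e3
  have hint : 0 ≤ ∫ ξ in (0 : ℝ)..1, ξ ^ 2 * ((E (τ * ξ) - K) *
      (Real.sinc (v * ξ) - Real.sinc v - ρ * (1 - ξ ^ 2))) :=
    intervalIntegral.integral_nonneg zero_le_one hpt
  have hX : Xn τ v - Real.sinc v =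
      (∫ ξ in (0 : ℝ)..1, ξ ^ 2 * E (τ * ξ) * (Real.sinc (v * ξ) - Real.sinc v)) / N2 := by
    have e : (fun ξ : ℝ => ξ ^ 2 * E (τ * ξ) * (Real.sinc (v * ξ) - Real.sinc v)) =
        fun ξ : ℝ => ξ ^ 2 * E (τ * ξ) * Real.sinc (v * ξ) - Real.sinc v * (ξ ^ 2 * E (τ * ξ)) := by
      funext ξ
      ring
    rw [e, intervalIntegral.integral_sub, intervalIntegral.integral_const_mul, ← hN2e]
    · unfold Xn
      rw [← hN2, sub_div, mul_div_assoc, div_self hN2p.ne', mul_one]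
    all_goals
      apply Continuous.intervalIntegrable
      fun_prop
  have hj : j2 v = 3 * ∫ ξ in (0 : ℝ)..1, ξ ^ 2 * (Real.sinc (v * ξ) - Real.sinc v) := by
    have e : (fun ξ : ℝ => ξ ^ 2 * (Real.sinc (v * ξ) - Real.sinc v)) =
        fun ξ : ℝ => ξ ^ 2 * Real.sinc (v * ξ) - Real.sinc v * ξ ^ 2 := by
      funext ξ
      ring
    rw [e, intervalIntegral.integral_sub, intervalIntegral.integral_const_mul, hi3]
    · unfold j2 Xz
      ring
    all_goals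
      apply Continuous.intervalIntegrable
      fun_prop
  have hsplit : ∫ ξ in (0 : ℝ)..1, ξ ^ 2 * ((E (τ * ξ) - K) *
      (Real.sinc (v * ξ) - Real.sinc v - ρ * (1 - ξ ^ 2))) =
      (∫ ξ in (0 : ℝ)..1, ξ ^ 2 * E (τ * ξ) * (Real.sinc (v * ξ) - Real.sinc v)) -
        K * (∫ ξ in (0 : ℝ)..1, ξ ^ 2 * (Real.sinc (v * ξ) - Real.sinc v)) -
        ρ * ∫ ξ in (0 : ℝ)..1, ξ ^ 2 * (E (τ * ξ) - K) * (1 - ξ ^ 2) := by
    rw [← intervalIntegral.integral_const_mul, ← intervalIntegral.integral_const_mul,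
      ← intervalIntegral.integral_sub, ← intervalIntegral.integral_sub]
    · congr 1
      funext ξ
      ring
    all_goals
      apply Continuous.intervalIntegrable
      fun_prop
  rw [hsplit, hzero, mul_zero, sub_zero] at hint
  rw [hX, hj, le_div_iff₀ hN2p]
  have hmu : mu τ = N4 / N2 := rfl
  have hmu2 : 5 / 2 * (1 - mu τ) * N2 * 3 = K := by
    rw [hmu, hK]
    field_simp
    ring
  calc 5 / 2 * (1 - mu τ) * (3 * ∫ ξ in (0 : ℝ)..1, ξ ^ 2 * (Real.sinc (v * ξ) - Real.sinc v)) * N2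
      = (5 / 2 * (1 - mu τ) * N2 * 3) *
        ∫ ξ in (0 : ℝ)..1, ξ ^ 2 * (Real.sinc (v * ξ) - Real.sinc v) := by ring
    _ = K * ∫ ξ in (0 : ℝ)..1, ξ ^ 2 * (Real.sinc (v * ξ) - Real.sinc v) := by rw [hmu2]
    _ ≤ _ := by linarith

end GCube
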