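import Mathlib

/-!
The rational checker of the Fourier blocks (definitions only; soundness in other files).

A block is `τ ∈ [T.t1, T.t2]`, `y ∈ [b.y1, b.y2]`, `k ≥ b.K`, `(k+1) y² ≥ 2 T.Q`; everything is divided by
`P(yπ)^k`. Cells have endpoints in units of `π/16`.
-/

namespace GCube

namespace CF

/-- rounding down / up to 8 digits -/
def rd (q : ℚ) : ℚ := (⌊q * 100000000⌋ : ℚ) / 100000000
def ru (q : ℚ) : ℚ := -rd (-q)

/-- `Tq w ≤ exp w` for `w ≥ 0` -/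
def Tq (w : ℚ) : ℚ :=
  1 + w * (1 + w / 2 * (1 + w / 3 * (1 + w / 4 * (1 + w / 5 * (1 + w / 6 * (1 + w / 7 * (1 + w / 8 *
    (1 + w / 9 * (1 + w / 10 * (1 + w / 11 * (1 + w / 12)))))))))))

/-- polynomial evaluation `∑ c_i w^i` -/
def hor : List ℚ → ℚ → ℚ
  | [], _ => 0
  | c :: l, w => c + w * hor l w

/-- coefficients `(-1)^n/(2n+1)!`, `n < 10` -/
def snC : List ℚ := [1, -1/6, 1/120, -1/5040, 1/362880, -1/39916800, 1/6227020800, -1/1307674368000,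
  1/355687428096000, -1/121645100408832000]

/-- coefficients `(-1)^n/((2n+1)! (2n+3)(2n+5))`, `n < 10` -/
def jC : List ℚ := [1/15, -1/210, 1/7560, -1/498960, 1/51891840, -1/7783776000, 1/1587890304000,
  -1/422378820864000, 1/141919283810304000, -1/58754583497465856000]

/-- `snL u ≤ sinc u ≤ snU u` for `u ≥ 0` -/
def snL (u : ℚ) : ℚ := hor snC (u ^ 2)
def snU (u : ℚ) : ℚ := hor (snC.take 9) (u ^ 2)
/-- `jL u ≤ j2 u` for `u ≥ 0` -/
def jL (u : ℚ) : ℚ := u ^ 2 * hor jC (u ^ 2)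

def pL : ℚ := 3141592 / 1000000
def pU : ℚ := 3141593 / 1000000

/-- constants of a block of `τ` -/
structure Tb where
  t1 : ℚ
  t2 : ℚ
  hL : ℚ
  hU : ℚ
  muL : ℚ
  muU : ℚ
  mL : ℚ
  G1 : ℚ
  G2 : ℚ
  G3 : ℚ
  Q : ℚ

/-- a block of `y`: `kB` = kind B (small `y`); `UC` = border between the two estimates;
`pw` = power form (else exponential form); `nend` = end of the cells -/
structure Bk where
  y1 : ℚ
  y2 : ℚ
  K : ℕ
  kB : Bool
  UC : ℚ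
  pw : Bool
  nend : ℕ

def c2 (T : Tb) : ℚ := 5 / 2 * (1 - T.muU)
def c1 (T : Tb) : ℚ := (1 - T.hU) * c2 T
/-- `Pn τ u ≤ Pup T u0`, `u0 ≤ u ≤ π` -/
def Pup (T : Tb) (u : ℚ) : ℚ := ru (T.hU * max (snU u) 0 + (1 - T.hL) / Tq (T.muL * u ^ 2 / 6))
/-- `Plo T u ≤ Pn τ u`, `0 ≤ u ≤ π` -/
def Plo (T : Tb) (u : ℚ) : ℚ := rd (snL u + c1 T * jL u)
/-- `|Xn τ u| ≤ cX T u0`, `u0 ≤ u` -/
def cX (T : Tb) (u : ℚ) : ℚ := (T.G1 + (T.G2 + T.G3) / u) / u ^ 2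

/-- lower bounds of `∫ x sin x j2(x) dx`, `∫ x² j2(x)² dx` over `[π i/16, π (i+1)/16]` -/
def J1 : List ℚ := [3/1000000, 117/1000000, 769/1000000, 2693/1000000, 6715/1000000, 13493/1000000,
  23255/1000000, 35597/1000000, 49392/1000000, 62837/1000000, 73637/1000000, 79325/1000000,
  77646/1000000, 66975/1000000, 46667/1000000, 17298/1000000]
def J2 : List ℚ := [0, 0, 13/1000000, 94/1000000, 391/1000000, 1211/1000000, 3049/1000000,
  6598/1000000, 12694/1000000, 22212/1000000, 35909/1000000, 54247/1000000, 77213/1000000,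
  104178/1000000, 133833/1000000, 164215/1000000]

/-- upper bounds, over `[π n/16, π (n+1)/16]`, of `∫ sin²`, `sup |sin|`, `sup |cos|` -/
def W1 : List ℚ := [2505/1000000, 17070/1000000, 43982/1000000, 79145/1000000, 117206/1000000,
  152369/1000000, 179281/1000000, 193846/1000000, 193846/1000000, 179281/1000000, 152369/1000000,
  117206/1000000, 79145/1000000, 43982/1000000, 17070/1000000, 2505/1000000]
def S1 : List ℚ := [195091/1000000, 382684/1000000, 555571/1000000, 707107/1000000, 831470/1000000,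
  923880/1000000, 980786/1000000, 1, 1, 980786/1000000, 923880/1000000, 831470/1000000,
  707107/1000000, 555571/1000000, 382684/1000000, 195091/1000000]
def C1 : List ℚ := [1, 980786/1000000, 923880/1000000, 831470/1000000, 707107/1000000,
  555571/1000000, 382684/1000000, 195091/1000000, 195091/1000000, 382684/1000000, 555571/1000000,
  707107/1000000, 831470/1000000, 923880/1000000, 980786/1000000, 1]

/-- cell `[π n/16, π (n+w)/16]` -/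
def cW (n w : ℕ) : ℚ := ((List.range w).map fun j => W1.getD ((n + j) % 16) 0).sum
def cS (n w : ℕ) : ℚ := ((List.range w).map fun j => S1.getD ((n + j) % 16) 0).foldr max 0
def cC (n w : ℕ) : ℚ := ((List.range w).map fun j => C1.getD ((n + j) % 16) 0).foldr max 0

/-- lower end and upper end of a cell -/
def aLo (n : ℕ) : ℚ := pL * n / 16
def aUp (n : ℕ) : ℚ := pU * n / 16

/-- `A ≤ m₂ k y²/2` -/
def cA (T : Tb) (b : Bk) : ℚ := rd (T.mL * max (b.K * b.y1 ^ 2 / 2) (T.Q - b.y2 ^ 2 / 2))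

/-- lower bound of `(P(yx)/P(yπ))^k` for `x ≤ π n/16` (`n ≤ 16`) -/
def cL (T : Tb) (b : Bk) (n : ℕ) : ℚ :=
  if b.pw then rd ((max 0 (Plo T (ru (b.y1 * aUp n))) / Pup T (rd (b.y1 * pL))) ^ b.K)
  else rd (Tq (cA T b * pL ^ 2 * (1 - (n / 16) ^ 2)))

/-- upper bound of `(P(yx)/P(yπ))^k` for `x ≥ π n/16` (`n ≥ 16`), `yx ≤ π` -/
def cU (T : Tb) (b : Bk) (n : ℕ) : ℚ :=
  if b.pw then ru ((Pup T (rd (b.y1 * aLo n)) / Plo T (ru (b.y1 * pU))) ^ b.K)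
  else ru (1 / Tq (cA T b * pL ^ 2 * ((n / 16) ^ 2 - 1)))

/-- lower bound of the integral over `[0, π]` -/
def Msum (T : Tb) (b : Bk) : ℚ :=
  ((List.range 16).map fun i => rd ((1 - b.y2 ^ 2) * c2 T * snL (ru (b.y2 * aUp (i + 1))) *
    (J1.getD i 0 + c1 T * J2.getD i 0) * cL T b (i + 1))).sum

/-- near estimate on a cell -/
def vN (T : Tb) (b : Bk) (n w : ℕ) : ℚ :=
  ru (cW n w * (Pup T (rd (b.y1 * aLo n))) ^ 2 * cU T b n / (4 * (1 - T.hU) * snL (ru (b.y2 * aUp (n + w)))))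

/-- `|x Xn τ x|` on the cell -/
def xX (T : Tb) (n w : ℕ) : ℚ := (T.G1 * cC n w + (T.G2 * cS n w + T.G3) / aLo n) / aLo n
/-- `|x Pn τ x|` on the cell -/
def xP (T : Tb) (n w : ℕ) : ℚ := T.hU * cS n w + (1 - T.hL) * xX T n w
/-- `|sinc u|`, `u ∈ [u1, u2]` beyond `π` -/
def sB (u1 u2 : ℚ) : ℚ := min (min ((u2 - 314 / 100) / u2) (22 / 100)) (1 / u1)
def sF (u1 u2 : ℚ) : ℚ :=
  max (if u1 < pU then max (snU u1) 0 else 0) (if 31415 / 10000 < u2 then sB u1 u2 else 0)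
/-- `|Xn τ u|`, `u ∈ [u1, u2]` -/
def XF (T : Tb) (u1 u2 : ℚ) : ℚ :=
  if u2 ≤ 44 / 10 then 1 / Tq (T.muL * u1 ^ 2 / 6)
  else if u1 ≤ 44 / 10 then max (1 / Tq (T.muL * u1 ^ 2 / 6)) (cX T (44 / 10)) else cX T u1
/-- `|Pn τ u|`, `u ∈ [u1, u2]`, when `u2 > 3.1415` -/
def pF (T : Tb) (u1 u2 : ℚ) : ℚ :=
  if u1 ≤ pU then max (Pup T u1) (max (T.hU * sB u1 u2) ((1 - T.hL) * XF T u1 u2))
  else if u2 ≤ 44 / 10 then max (T.hU * sF u1 u2) ((1 - T.hL) * XF T u1 u2)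
  else T.hU * sF u1 u2 + (1 - T.hL) * XF T u1 u2
/-- `ρ_L ≤ Pn τ (y π)` -/
def rL (T : Tb) (b : Bk) : ℚ := Plo T (ru (b.y2 * pU))

/-- far estimate on a cell -/
def vF (T : Tb) (b : Bk) (n w : ℕ) : ℚ :=
  let u1 := rd (b.y1 * aLo n)
  let u2 := ru (b.y2 * aUp (n + w))
  let r := if u2 ≤ 31415 / 10000 then cU T b n else ru ((pF T u1 u2 / rL T b) ^ b.K)
  ru (pU * w / 16 * xP T n w * (xX T n w * sF u1 u2 + cS n w * XF T u1 u2) * r)

/-- validity of the far estimate -/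
def okF (T : Tb) (b : Bk) (n w : ℕ) : Bool :=
  let u1 := rd (b.y1 * aLo n)
  let u2 := ru (b.y2 * aUp (n + w))
  decide (0 < u1) && (decide (u2 ≤ 31415 / 10000) || ((decide (pU < u1) || decide (u2 ≤ 44 / 10)) &&
    decide (pF T u1 u2 ≤ rL T b)))

/-- one cell: near estimate if `y2 b ≤ UC`, else far estimate -/
def vC (T : Tb) (b : Bk) (n w : ℕ) : ℚ :=
  if ru (b.y2 * aUp (n + w)) ≤ b.UC then vN T b n w else vF T b n w
def okC (T : Tb) (b : Bk) (n w : ℕ) : Bool :=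
  if ru (b.y2 * aUp (n + w)) ≤ b.UC then decide (0 < snL (ru (b.y2 * aUp (n + w)))) else okF T b n w

/-- sum over `cnt` cells of width `w` starting at `n` -/
def sumC (T : Tb) (b : Bk) (w : ℕ) : ℕ → ℕ → ℚ
  | _, 0 => 0
  | n, cnt + 1 => vC T b n w + sumC T b w (n + w) cnt
def okS (T : Tb) (b : Bk) (w : ℕ) : ℕ → ℕ → Bool
  | _, 0 => true
  | n, cnt + 1 => okC T b n w && okS T b w (n + w) cnt

/-- tail beyond `π nend/16`, kind A -/
def tailA (T : Tb) (b : Bk) : ℚ :=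
  let X := aLo b.nend
  let ue := rd (b.y1 * X)
  let z := (T.G1 + (T.G2 + T.G3) / X) / X
  let T2 := T.hU + (1 - T.hL) * z
  let kp := T.hU + (1 - T.hL) * (cX T ue * ue)
  ru (1 / b.y1 * (kp / ue / rL T b) ^ (b.K - 2) * kp ^ 2 *
    (T2 * z / (2 * ue ^ 2) + T2 * cX T ue / (3 * ue)) / rL T b ^ 2)
def okTailA (T : Tb) (b : Bk) : Bool :=
  let X := aLo b.nend
  let ue := rd (b.y1 * X)
  let kp := T.hU + (1 - T.hL) * (cX T ue * ue)
  decide (44 / 10 ≤ ue) && decide (kp / ue ≤ rL T b)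

/-- `sup_{u ≤ 2.9} P²/S` -/
def CPS (T : Tb) : ℚ :=
  ((List.range 29).map fun j => Pup T (j / 10) ^ 2 / snL ((j + 1) / 10)).foldr max 0

/-- tails of kind B: near part beyond `4π`, and far part `y x ≥ 2.9` -/
def tailB1 (T : Tb) (b : Bk) : ℚ :=
  ru (CPS T / (4 * (1 - T.hU)) / Tq (cA T b * pL ^ 2 * 15) / (8 * cA T b * pL))
def zB (T : Tb) (b : Bk) : ℚ := (T.G1 + (T.G2 + T.G3) * b.y2 / (29 / 10)) * b.y2 / (29 / 10)
def pmB (T : Tb) : ℚ := max (Pup T (29 / 10)) (22 / 100 * T.hU + (1 - T.hL) * cX T (44 / 10))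
def FB (T : Tb) (b : Bk) : ℚ :=
  let z := zB T b
  let T2 := T.hU + (1 - T.hL) * z
  let Xc := max (1 / Tq (T.muL * (29 / 10) ^ 2 / 6)) (cX T (44 / 10))
  let kp := T.hU + (1 - T.hL) * (cX T 6 * 6)
  31 / 10 * T2 * (z / (29 / 10) + Xc) * pmB T ^ 2 + kp ^ 2 * (T2 * z / 72 + T2 * cX T 6 / 18)
/-- `sq² ≥ (K+1)/(2Q)`, computed with `Nat.sqrt` -/
def sqB (T : Tb) (b : Bk) : ℚ := ((Nat.sqrt (⌈(b.K + 1) / (2 * T.Q) * 10000⌉).toNat + 1 : ℕ) : ℚ) / 100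
def tailB2 (T : Tb) (b : Bk) : ℚ :=
  ru (sqB T b * (pmB T / rL T b) ^ (b.K - 2) * FB T b / rL T b ^ 2)
def okTailB (T : Tb) (b : Bk) : Bool :=
  decide (b.y2 * aUp 64 ≤ 29 / 10) && decide ((pmB T / rL T b) ^ 2 * (b.K + 2) ≤ b.K + 1) &&
    decide (b.K + 1 ≤ sqB T b ^ 2 * (2 * T.Q)) && decide (0 < cA T b)

/-- general sanity of the block -/
def okG (T : Tb) (b : Bk) : Bool :=
  decide (0 ≤ b.y1) && decide (b.y1 < b.y2) && decide (b.y2 ≤ 9 / 10) && decide (2 ≤ b.K) &&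
    (decide (b.K = 2) || decide (b.K * b.y2 ^ 2 < 2 * T.Q)) && decide (b.UC ≤ 3) &&
    decide (0 < rL T b) && decide (0 < Plo T (ru (b.y1 * pU))) && decide (0 ≤ cA T b) && (decide (b.pw = false) || decide (0 < b.y1))

/-- the complete check of a block -/
def okB (T : Tb) (b : Bk) : Bool :=
  okG T b &&
  if b.kB then
    decide (b.pw = false) && decide (b.UC = 29 / 10) && okTailB T b &&
      okS T b 1 16 16 && okS T b 2 32 16 &&
      decide (sumC T b 1 16 16 + sumC T b 2 32 16 + tailB1 T b + tailB2 T b < Msum T b)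
  else
    decide (0 < b.y1) && decide (64 ≤ b.nend) && decide ((b.nend - 64) % 4 = 0) && okTailA T b &&
      okS T b 1 16 16 && okS T b 2 32 16 && okS T b 4 64 ((b.nend - 64) / 4) &&
      decide (sumC T b 1 16 16 + sumC T b 2 32 16 + sumC T b 4 64 ((b.nend - 64) / 4) + tailA T b < Msum T b)

/-- ratio (for tests) -/
def ratio (T : Tb) (b : Bk) : ℚ :=
  if b.kB then (sumC T b 1 16 16 + sumC T b 2 32 16 + tailB1 T b + tailB2 T b) / Msum T b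
  else (sumC T b 1 16 16 + sumC T b 2 32 16 + sumC T b 4 64 ((b.nend - 64) / 4) + tailA T b) / Msum T b

/-- `∑_{i < cnt} (-w)^i n!/((n+i)! (2(n+i)+j+1))`: for `n = 0` a lower (`cnt` even) or upper (`cnt` odd)
bound of `∫_0^1 ξ^j exp(-w ξ²) dξ` -/
def nmS (j : ℕ) (w : ℚ) : ℕ → ℕ → ℚ
  | _, 0 => 0
  | n, cnt + 1 => 1 / (2 * n + j + 1) - w / (n + 1) * nmS j w (n + 1) cnt
def nmL (j : ℕ) (t : ℚ) : ℚ := rd (nmS j (t ^ 2 / 2) 0 40)
def nmU (j : ℕ) (t : ℚ) : ℚ := ru (nmS j (t ^ 2 / 2) 0 41)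
/-- the same for `exp(-w)` -/
def emS (w : ℚ) : ℕ → ℕ → ℚ
  | _, 0 => 0
  | n, cnt + 1 => 1 - w / (n + 1) * emS w (n + 1) cnt
def emL (w : ℚ) : ℚ := rd (emS w 0 40)
def emU (w : ℚ) : ℚ := ru (emS w 0 41)

/-- verification of the constants of a `τ` block (without `Q`) -/
def okT (T : Tb) : Bool :=
  decide (0 < T.t1) && decide (T.t1 < T.t2) && decide (T.t2 ≤ 4) && decide (0 < T.hL) && decide (T.hU < 1) &&
    decide (0 < T.muL) && decide (T.muU < 1) && decide (0 < T.mL) &&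
    decide (T.hL * nmU 0 T.t2 ≤ emL (T.t2 ^ 2 / 2)) &&
    decide (emU (T.t1 ^ 2 / 2) ≤ T.hU * nmL 0 T.t1) &&
    decide (nmU 4 T.t1 ≤ T.muU * nmL 2 T.t1) && decide (T.muL * nmU 2 T.t2 ≤ nmL 4 T.t2) &&
    decide (T.mL * nmU 0 T.t2 ≤ nmL 2 T.t2) &&
    decide (emU (T.t1 ^ 2 / 2) ≤ T.G1 * nmL 2 T.t1) &&
    decide (max |1 - T.t1 ^ 2| |1 - T.t2 ^ 2| * T.G1 ≤ T.G2) &&
    decide ((if T.t2 ^ 2 ≤ 3 then 1 - (1 - T.t2 ^ 2) *
      (if T.t2 ≤ 1 then emL (T.t2 ^ 2 / 2) else emU (T.t2 ^ 2 / 2)) else 19 / 10) ≤ T.G3 * nmL 2 T.t2)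

/-- `Q ≤ q_B(τ)` -/
def okQ (T : Tb) : Bool := decide (0 < T.Q) && decide (T.Q ≤ emL (2 * T.t2 ^ 2 / 3))

/-- the list covers `[0, Y]` (`y > 0`) -/
def cov : ℚ → List Bk → ℚ → Bool
  | y, [], Y => decide (Y ≤ y)
  | y, b :: l, Y => decide (b.y1 ≤ y) && cov b.y2 l Y

def okRow (r : Tb × ℚ × List Bk) : Bool :=
  okT r.1 && cov 0 r.2.2 r.2.1 && r.2.2.all (okB r.1)

/-- `Kap τ Y` for `τ ∈ [t1,t2]`, by `n` subintervals: `(1+Y) N_1(s1) ≤ Y N_0((1-Y) s2)` -/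
def okY (t1 t2 Y : ℚ) (n : ℕ) : Bool :=
  decide (0 < t1) && decide (t1 ≤ t2) && decide (0 < Y) && decide (Y < 1) && decide (0 < n) &&
  (List.range n).all fun i => decide ((1 + Y) * nmU 1 (t1 + (t2 - t1) * i / n) ≤
    Y * nmL 0 ((1 - Y) * (t1 + (t2 - t1) * (i + 1) / n)))

end CF

end GCube
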