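import Pool.Agent.Lib.H83.Psi
import Pool.Agent.Lib.H83.CFCheck

/-!
Normalised functions for the Fourier part. `x = τ s`.
`Pn = ψ/ψ(0)`, `Xn = χ/χ(0)` in the variable `x`, `Xz(v) = 3 j_1(v)/v`, `j2 = Xz - sinc`.
-/

open MeasureTheory Set
open scoped Real

namespace GCube

/-- moments `N_j = ∫_0^1 ξ^j E(τξ) dξ` -/
noncomputable def Nm (τ : ℝ) (j : ℕ) : ℝ := ∫ ξ in (0 : ℝ)..1, ξ ^ j * E (τ * ξ)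
noncomputable def hn (τ : ℝ) : ℝ := E τ / Nm τ 0
noncomputable def sg (τ : ℝ) : ℝ := 1 - hn τ
noncomputable def m2 (τ : ℝ) : ℝ := Nm τ 2 / Nm τ 0
noncomputable def mu (τ : ℝ) : ℝ := Nm τ 4 / Nm τ 2
noncomputable def Xz (v : ℝ) : ℝ := 3 * ∫ ξ in (0 : ℝ)..1, ξ ^ 2 * Real.sinc (v * ξ)
noncomputable def Yz (v : ℝ) : ℝ := 5 * ∫ ξ in (0 : ℝ)..1, ξ ^ 4 * Xz (v * ξ)
noncomputable def j2 (v : ℝ) : ℝ := Xz v - Real.sinc v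
noncomputable def Pn (τ v : ℝ) : ℝ := (∫ ξ in (0 : ℝ)..1, E (τ * ξ) * Real.cos (v * ξ)) / Nm τ 0
noncomputable def Xn (τ v : ℝ) : ℝ :=
  (∫ ξ in (0 : ℝ)..1, ξ ^ 2 * E (τ * ξ) * Real.sinc (v * ξ)) / Nm τ 2
noncomputable def Xt (τ v : ℝ) : ℝ :=
  (∫ ξ in (0 : ℝ)..1, ξ ^ 4 * E (τ * ξ) * Xz (v * ξ)) / Nm τ 4
/-- the kernel of `D(y; 1 :: y^k)` -/
noncomputable def kap (τ y x : ℝ) : ℝ :=
  x ^ 2 * Pn τ x * (Xn τ x * Real.sinc (y * x) - Real.sinc x * Xn τ (y * x))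
/-- total variation of `(1 - τ²ξ²) E(τξ)` on `[0,1]` (bound) -/
noncomputable def TVb (τ : ℝ) : ℝ := if τ ^ 2 ≤ 3 then 1 - (1 - τ ^ 2) * E τ else 19 / 10

/-- the constants of the table are valid at `τ` -/
structure TOk (T : CF.Tb) (τ : ℝ) : Prop where
  τpos : 0 < τ
  hL0 : 0 < T.hL
  hU1 : T.hU < 1
  hL : (T.hL : ℝ) ≤ hn τ
  hU : hn τ ≤ T.hU
  muL0 : 0 < T.muL
  muU1 : T.muU < 1
  muL : (T.muL : ℝ) ≤ mu τ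
  muU : mu τ ≤ T.muU
  mL0 : 0 < T.mL
  mL : (T.mL : ℝ) ≤ m2 τ
  G1 : E τ / Nm τ 2 ≤ T.G1
  G2 : |1 - τ ^ 2| * E τ / Nm τ 2 ≤ T.G2
  G3 : TVb τ / Nm τ 2 ≤ T.G3

end GCube
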