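import Pool.Agent.Lib.H83.CFBasic
import Pool.Agent.Lib.H83.CFSinc

/-!
Chunk CS4: `(Xn/sinc - 1)/x²` is nondecreasing on `(0,π)`; cross multiplied form.

For `ξ ∈ [0,1]`, Euler's product (`Real.tendsto_euler_sin_prod`) gives, for `0 < x < π`,
`sinc(ξx)/sinc x = lim ∏_{j<N} (1 - ξ²x²/((j+1)²π²))/(1 - x²/((j+1)²π²)) = lim ∏ (1 + z a_j(z))`, `z = x²`,
`a_j(z) = (1-ξ²)/((j+1)²π² - z) ≥ 0` nondecreasing in `z`. By induction `∏_{j<N}(1 + z a_j(z)) = 1 + z b_N(z)` with `b_N ≥ 0`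
nondecreasing (`(1+zb)(1+za) = 1 + z(a+b+zab)`). So for `0 < y ≤ 1`, `0 < x < π`:
`sinc(ξyx)/sinc(yx) - 1 = y²x² b(y²x²) ≤ y² (x² b(x²)) = y² (sinc(ξx)/sinc x - 1)`, i.e. multiplied by the positive
`sinc x · sinc(yx)`: `(sinc(ξyx) - sinc(yx)) sinc x ≤ y² (sinc(ξx) - sinc x) sinc(yx)`; by continuity also for `x = π`.
Integrate against `ξ² E(τξ)/Nm τ 2`.
-/

open MeasureTheory Set Filter
open scoped Real Topology

namespace GCube

/-- finite Euler product for `sinc` -/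
noncomputable def cs4P (N : ℕ) (w : ℝ) : ℝ :=
  ∏ j ∈ Finset.range N, ((1 : ℝ) - w / (π ^ 2 * ((j : ℝ) + 1) ^ 2))

theorem cs4P_tendsto (v : ℝ) : Tendsto (fun N => cs4P N (v ^ 2)) atTop (𝓝 (Real.sinc v)) := by
  have hπ := Real.pi_ne_zero
  rcases eq_or_ne v 0 with rfl | hv
  · have : (fun N : ℕ => cs4P N ((0 : ℝ) ^ 2)) = fun _ => 1 := by
      funext N
      simp [cs4P]
    rw [this, Real.sinc_zero]
    exact tendsto_const_nhds
  · have h := Real.tendsto_euler_sin_prod (v / π)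
    have h2 := h.div_const v
    rw [show π * (v / π) = v by field_simp] at h2
    rw [Real.sinc_of_ne_zero hv]
    refine h2.congr fun N => ?_
    rw [mul_div_assoc, mul_comm, div_mul_cancel₀ _ hv]
    unfold cs4P
    refine Finset.prod_congr rfl fun j _ => ?_
    have hj : ((j : ℝ) + 1) ≠ 0 := by positivity
    field_simp

theorem cs4P_ineq (N : ℕ) {u q z : ℝ} (hu0 : 0 ≤ u) (hu1 : u ≤ 1) (hq0 : 0 ≤ q) (hq1 : q ≤ 1)
    (hz0 : 0 ≤ z) (hz1 : z ≤ π ^ 2) :
    0 ≤ cs4P N (q * z) ∧ cs4P N (q * z) ≤ cs4P N (u * (q * z)) ∧ 0 ≤ cs4P N z ∧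
      (cs4P N (u * (q * z)) - cs4P N (q * z)) * cs4P N z ≤
        q * (cs4P N (u * z) - cs4P N z) * cs4P N (q * z) := by
  induction N with
  | zero => simp [cs4P]
  | succ N ih =>
    obtain ⟨hB, hAB, hD, hI⟩ := ih
    have hs : ∀ w, cs4P (N + 1) w = cs4P N w * (1 - w / (π ^ 2 * ((N : ℝ) + 1) ^ 2)) := by
      intro w
      unfold cs4P
      rw [Finset.prod_range_succ]
    rw [hs, hs, hs, hs]
    set A := cs4P N (u * (q * z))
    set B := cs4P N (q * z)
    set D := cs4P N z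
    set Cc := cs4P N (u * z)
    set a : ℝ := 1 / (π ^ 2 * ((N : ℝ) + 1) ^ 2) with ha
    have hpos : 0 < π ^ 2 * ((N : ℝ) + 1) ^ 2 := by positivity
    have ha0 : 0 ≤ a := by positivity
    have haz : a * z ≤ 1 := by
      rw [ha, one_div, inv_mul_le_iff₀ hpos, mul_one]
      have h1 : (1 : ℝ) ≤ ((N : ℝ) + 1) ^ 2 := by
        have : (0 : ℝ) ≤ N := Nat.cast_nonneg N
        nlinarith
      nlinarith [sq_nonneg π]
    have e : ∀ w, w / (π ^ 2 * ((N : ℝ) + 1) ^ 2) = a * w := by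
      intro w
      rw [ha]
      ring
    rw [e, e, e, e]
    have hz' : 0 ≤ a * z := mul_nonneg ha0 hz0
    have huq0 : 0 ≤ u * q := mul_nonneg hu0 hq0
    have huq1 : u * q ≤ 1 := mul_le_one₀ hu1 hq0 hq1
    have f1 : 0 ≤ 1 - a * z := by linarith
    have f2 : 0 ≤ 1 - a * (q * z) := by nlinarith
    have f3 : 0 ≤ 1 - a * (u * z) := by nlinarith
    have f4 : 0 ≤ 1 - a * (u * (q * z)) := by
      have : a * (u * (q * z)) = (u * q) * (a * z) := by ring
      rw [this]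
      nlinarith
    have hqz : 0 ≤ a * (q * z) := by positivity
    have g1 : 1 - a * (q * z) ≤ 1 - a * (u * (q * z)) := by nlinarith
    have hA0 : 0 ≤ A := hB.trans hAB
    refine ⟨mul_nonneg hB f2, mul_le_mul hAB g1 f2 hA0, mul_nonneg hD f1, ?_⟩
    have key1 : (1 - a * (u * (q * z))) * (1 - a * z) ≤ (1 - a * (u * z)) * (1 - a * (q * z)) := by
      have : (1 - a * (u * z)) * (1 - a * (q * z)) - (1 - a * (u * (q * z))) * (1 - a * z)
          = (a * z) * ((1 - u) * (1 - q)) := by ring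
      have h2 : 0 ≤ (a * z) * ((1 - u) * (1 - q)) :=
        mul_nonneg hz' (mul_nonneg (by linarith) (by linarith))
      linarith
    have t1 : (A - B) * D * ((1 - a * (u * (q * z))) * (1 - a * z)) ≤
        q * (Cc - D) * B * ((1 - a * (u * z)) * (1 - a * (q * z))) := by
      have h0 : 0 ≤ (A - B) * D := mul_nonneg (by linarith) hD
      calc (A - B) * D * ((1 - a * (u * (q * z))) * (1 - a * z))
          ≤ (A - B) * D * ((1 - a * (u * z)) * (1 - a * (q * z))) :=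
            mul_le_mul_of_nonneg_left key1 h0
        _ ≤ _ := mul_le_mul_of_nonneg_right hI (mul_nonneg f3 f2)
    have t2 : B * D * (a * (q * z) * (1 - u)) * (1 - a * z) ≤
        B * D * (a * (q * z) * (1 - u)) * (1 - a * (q * z)) := by
      refine mul_le_mul_of_nonneg_left ?_ ?_
      · nlinarith
      · exact mul_nonneg (mul_nonneg hB hD) (mul_nonneg hqz (by linarith))
    calc (A * (1 - a * (u * (q * z))) - B * (1 - a * (q * z))) * (D * (1 - a * z))
        = (A - B) * D * ((1 - a * (u * (q * z))) * (1 - a * z)) +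
            B * D * (a * (q * z) * (1 - u)) * (1 - a * z) := by ring
      _ ≤ q * (Cc - D) * B * ((1 - a * (u * z)) * (1 - a * (q * z))) +
            B * D * (a * (q * z) * (1 - u)) * (1 - a * (q * z)) := add_le_add t1 t2
      _ = q * (Cc * (1 - a * (u * z)) - D * (1 - a * z)) * (B * (1 - a * (q * z))) := by ring

theorem cs4_pointwise {ξ y x : ℝ} (hξ0 : 0 ≤ ξ) (hξ1 : ξ ≤ 1) (hy0 : 0 ≤ y) (hy1 : y ≤ 1)
    (h0 : 0 ≤ x) (h1 : x ≤ π) :
    (Real.sinc (y * x * ξ) - Real.sinc (y * x)) * Real.sinc x ≤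
      y ^ 2 * (Real.sinc (x * ξ) - Real.sinc x) * Real.sinc (y * x) := by
  have l1 := cs4P_tendsto (y * x * ξ)
  have l2 := cs4P_tendsto (y * x)
  have l3 := cs4P_tendsto x
  have l4 := cs4P_tendsto (x * ξ)
  have L := (l1.sub l2).mul l3
  have R := (((l4.sub l3).const_mul (y ^ 2)).mul l2)
  refine le_of_tendsto_of_tendsto' L R fun N => ?_
  have := (cs4P_ineq N (u := ξ ^ 2) (q := y ^ 2) (z := x ^ 2) (by positivity)
    (pow_le_one₀ hξ0 hξ1) (by positivity) (pow_le_one₀ hy0 hy1) (by positivity)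
    (pow_le_pow_left₀ h0 h1 2)).2.2.2
  have e1 : (y * x * ξ) ^ 2 = ξ ^ 2 * (y ^ 2 * x ^ 2) := by ring
  have e2 : (y * x) ^ 2 = y ^ 2 * x ^ 2 := by ring
  have e3 : (x * ξ) ^ 2 = ξ ^ 2 * x ^ 2 := by ring
  rw [e1, e2, e3]
  exact this

theorem Xn_ratio {τ y x : ℝ} (hy0 : 0 ≤ y) (hy1 : y ≤ 1) (h0 : 0 ≤ x) (h1 : x ≤ π) :
    (Xn τ (y * x) - Real.sinc (y * x)) * Real.sinc x ≤
      y ^ 2 * (Xn τ x - Real.sinc x) * Real.sinc (y * x) := by
  have hN := Nm_pos τ 2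
  have hE := E_continuous
  have hsc := Real.continuous_sinc
  have hNm : Nm τ 2 = ∫ ξ in (0 : ℝ)..1, ξ ^ 2 * E (τ * ξ) := rfl
  have hX : ∀ v, (Xn τ v - Real.sinc v) * Nm τ 2 =
      ∫ ξ in (0 : ℝ)..1, ξ ^ 2 * E (τ * ξ) * (Real.sinc (v * ξ) - Real.sinc v) := by
    intro v
    have i1 : IntervalIntegrable (fun ξ : ℝ => ξ ^ 2 * E (τ * ξ) * Real.sinc (v * ξ)) volume 0 1 :=
      (by fun_prop : Continuous fun ξ : ℝ => ξ ^ 2 * E (τ * ξ) * Real.sinc (v * ξ)).intervalIntegrable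
        _ _
    have i2 : IntervalIntegrable (fun ξ : ℝ => ξ ^ 2 * E (τ * ξ) * Real.sinc v) volume 0 1 :=
      (by fun_prop : Continuous fun ξ : ℝ => ξ ^ 2 * E (τ * ξ) * Real.sinc v).intervalIntegrable _ _
    have e : (fun ξ : ℝ => ξ ^ 2 * E (τ * ξ) * (Real.sinc (v * ξ) - Real.sinc v)) =
        fun ξ : ℝ => ξ ^ 2 * E (τ * ξ) * Real.sinc (v * ξ) - ξ ^ 2 * E (τ * ξ) * Real.sinc v := by
      funext ξ
      ring
    rw [e, intervalIntegral.integral_sub i1 i2, intervalIntegral.integral_mul_const, ← hNm]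
    unfold Xn
    rw [sub_mul, div_mul_cancel₀ _ hN.ne']
    ring
  have key : (∫ ξ in (0 : ℝ)..1, ξ ^ 2 * E (τ * ξ) * (Real.sinc (y * x * ξ) - Real.sinc (y * x))) *
      Real.sinc x ≤
      y ^ 2 * Real.sinc (y * x) *
        ∫ ξ in (0 : ℝ)..1, ξ ^ 2 * E (τ * ξ) * (Real.sinc (x * ξ) - Real.sinc x) := by
    rw [← intervalIntegral.integral_mul_const, ← intervalIntegral.integral_const_mul]
    refine intervalIntegral.integral_mono_on zero_le_one ?_ ?_ ?_
    · exact Continuous.intervalIntegrable (by fun_prop) _ _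
    · exact Continuous.intervalIntegrable (by fun_prop) _ _
    · intro ξ hξ
      have hp := cs4_pointwise hξ.1 hξ.2 hy0 hy1 h0 h1
      have hw : 0 ≤ ξ ^ 2 * E (τ * ξ) := mul_nonneg (sq_nonneg ξ) (E_pos _).le
      calc ξ ^ 2 * E (τ * ξ) * (Real.sinc (y * x * ξ) - Real.sinc (y * x)) * Real.sinc x
          = ξ ^ 2 * E (τ * ξ) * ((Real.sinc (y * x * ξ) - Real.sinc (y * x)) * Real.sinc x) := by
            ring
        _ ≤ ξ ^ 2 * E (τ * ξ) *
            (y ^ 2 * (Real.sinc (x * ξ) - Real.sinc x) * Real.sinc (y * x)) :=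
            mul_le_mul_of_nonneg_left hp hw
        _ = _ := by ring
  rw [← hX, ← hX] at key
  have h2 : (Xn τ (y * x) - Real.sinc (y * x)) * Real.sinc x * Nm τ 2 ≤
      y ^ 2 * (Xn τ x - Real.sinc x) * Real.sinc (y * x) * Nm τ 2 := by
    calc _ = (Xn τ (y * x) - Real.sinc (y * x)) * Nm τ 2 * Real.sinc x := by ring
      _ ≤ _ := key
      _ = _ := by ring
  exact le_of_mul_le_mul_right h2 hN

end GCube
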