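import Pool.Agent.Lib.H83.CFShape
import Pool.Agent.Lib.H83.CFCheb
import Pool.Agent.Lib.H83.CFEuler

/-!
Chunk CS5: bounds of the kernel `kap` and the cross ratio of `Pn`. (`S = sinc x`, `S_y = sinc(yx)`, `P = Pn τ x`, …)

* `kap_lower`, `0 ≤ x ≤ π`: `X S_y - S X_y = (1-y²) S_y (X - S) + [y² S_y (X-S) - S (X_y - S_y)] ≥ (1-y²) S_y (X-S)`
  by `Xn_ratio`, `X - S ≥ c j2` (`Xn_sub_sinc`, `c = (5/2)(1-μ)`), and `P = S + sg (X - S) ≥ S + sg c j2`; `x² S = x sin x`.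
* `kap_amgm`: `sg kap = t² S_y - t sin x P_y`, `t = x P` (`Pn_eq`), and `a t² - b t ≥ -b²/(4a)`.
* `kap_abs`: `|kap| ≤ |x P| (|x X| |S_y| + |sin x| |X_y|)`.
* `Pn_cross`: `0 ≤ y1 ≤ y`, `0 ≤ a ≤ b`, `y b ≤ π`: `P(y1 a) P(y b) ≤ P(y a) P(y1 b)`. The function
  `v ↦ v (-P'/P)(v) = m2 v² X/P` is nondecreasing on `[0,π]`: `X/P = X/(hS + sg X)` and `S/X` is nonincreasing
  (`Xn_ratio` without the factor `y²`, or with it). `d/dy log (P(ya)/P(yb)) = (1/y)(v(-P'/P)|_{yb} - |_{ya}) ≥ 0`.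
-/

open MeasureTheory Set
open scoped Real

namespace GCube

theorem CFKap_pi_le : π ≤ 44 / 10 := by
  have := Real.pi_lt_d2
  linarith

theorem CFKap_sinc_mul (x : ℝ) : x * Real.sinc x = Real.sin x := by
  by_cases hx : x = 0
  · subst hx
    simp
  · rw [Real.sinc_of_ne_zero hx]
    field_simp

theorem CFKap_wr {τ : ℝ} (hτ : 0 < τ) (u v : ℝ) :
    sg τ * (Xn τ u * Real.sinc v - Real.sinc u * Xn τ v) =
      Pn τ u * Real.sinc v - Real.sinc u * Pn τ v := by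
  rw [Pn_eq hτ u, Pn_eq hτ v]
  ring

theorem kap_lower {τ y x : ℝ} (hτ : 0 < τ) (hy0 : 0 ≤ y) (hy1 : y ≤ 1) (h0 : 0 ≤ x) (h1 : x ≤ π) :
    (1 - y ^ 2) * (5 / 2 * (1 - mu τ)) * Real.sinc (y * x) *
      (x * Real.sin x * j2 x + sg τ * (5 / 2 * (1 - mu τ)) * (x ^ 2 * j2 x ^ 2)) ≤ kap τ y x := by
  have hyx0 : 0 ≤ y * x := mul_nonneg hy0 h0
  have hyx1 : y * x ≤ π := (mul_le_of_le_one_left h0 hy1).trans h1
  have hS : 0 ≤ Real.sinc x := sinc_nonneg h0 h1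
  have hSy : 0 ≤ Real.sinc (y * x) := sinc_nonneg hyx0 hyx1
  have hr := Xn_ratio (τ := τ) hy0 hy1 h0 h1
  have hc := Xn_sub_sinc (τ := τ) h0 h1
  have hj : 0 ≤ j2 x := j2_nonneg h0 (h1.trans CFKap_pi_le)
  have hmu := mu_lt_one τ
  have hsg := sg_pos hτ
  have hy2 : 0 ≤ 1 - y ^ 2 := by nlinarith
  have hP : Pn τ x = Real.sinc x + sg τ * (Xn τ x - Real.sinc x) := by
    rw [Pn_eq hτ]
    unfold sg
    ring
  have hcj : 0 ≤ 5 / 2 * (1 - mu τ) * j2 x := mul_nonneg (by linarith) hj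
  rw [← CFKap_sinc_mul x]
  unfold kap
  set c := 5 / 2 * (1 - mu τ) with hcdef
  set S := Real.sinc x
  set Sy := Real.sinc (y * x)
  set X := Xn τ x
  set Xy := Xn τ (y * x)
  set j := j2 x
  have hW : (1 - y ^ 2) * Sy * (c * j) ≤ X * Sy - S * Xy := by
    have e1 : (1 - y ^ 2) * Sy * (c * j) ≤ (1 - y ^ 2) * Sy * (X - S) :=
      mul_le_mul_of_nonneg_left hc (mul_nonneg hy2 hSy)
    have e2 : (1 - y ^ 2) * Sy * (X - S) ≤ X * Sy - S * Xy := by nlinarith [hr]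
    exact e1.trans e2
  have hW0 : 0 ≤ (1 - y ^ 2) * Sy * (c * j) := mul_nonneg (mul_nonneg hy2 hSy) hcj
  have hP1 : S + sg τ * (c * j) ≤ Pn τ x := by
    rw [hP]
    have := mul_le_mul_of_nonneg_left hc hsg.le
    linarith
  have hP0 : 0 ≤ S + sg τ * (c * j) := add_nonneg hS (mul_nonneg hsg.le hcj)
  calc (1 - y ^ 2) * c * Sy * (x * (x * S) * j + sg τ * c * (x ^ 2 * j ^ 2))
      = x ^ 2 * (S + sg τ * (c * j)) * ((1 - y ^ 2) * Sy * (c * j)) := by ring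
    _ ≤ x ^ 2 * Pn τ x * (X * Sy - S * Xy) := by
        apply mul_le_mul _ hW hW0
        · exact mul_nonneg (sq_nonneg x) (hP0.trans hP1)
        · exact mul_le_mul_of_nonneg_left hP1 (sq_nonneg x)

theorem kap_amgm {τ y x : ℝ} (hτ : 0 < τ) (h0 : 0 ≤ y * x) (h1 : y * x < π) :
    -(Real.sin x ^ 2 * Pn τ (y * x) ^ 2 / (4 * sg τ * Real.sinc (y * x))) ≤ kap τ y x := by
  have hsg := sg_pos hτ
  have hS : 0 < Real.sinc (y * x) := sinc_pos h0 h1
  have hk : sg τ * kap τ y x = (x * Pn τ x) ^ 2 * Real.sinc (y * x) -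
      (x * Pn τ x) * (Real.sin x * Pn τ (y * x)) := by
    have e := CFKap_wr hτ x (y * x)
    unfold kap
    calc sg τ * (x ^ 2 * Pn τ x * (Xn τ x * Real.sinc (y * x) - Real.sinc x * Xn τ (y * x)))
        = x ^ 2 * Pn τ x * (sg τ * (Xn τ x * Real.sinc (y * x) -
          Real.sinc x * Xn τ (y * x))) := by ring
      _ = (x * Pn τ x) ^ 2 * Real.sinc (y * x) -
          (x * Pn τ x) * ((x * Real.sinc x) * Pn τ (y * x)) := by
          rw [e]
          ring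
      _ = _ := by rw [CFKap_sinc_mul]
  set t := x * Pn τ x
  set b := Real.sin x * Pn τ (y * x)
  have h4 : 0 < 4 * sg τ * Real.sinc (y * x) := by positivity
  rw [neg_le_iff_add_nonneg', ← mul_pow]
  have h5 : 0 ≤ (4 * sg τ * Real.sinc (y * x)) * (b ^ 2 / (4 * sg τ * Real.sinc (y * x)) + kap τ y x) := by
    rw [mul_add, mul_div_cancel₀ _ (ne_of_gt h4)]
    have : 4 * sg τ * Real.sinc (y * x) * kap τ y x = 4 * Real.sinc (y * x) * (sg τ * kap τ y x) := by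
      ring
    rw [this, hk]
    nlinarith [sq_nonneg (2 * t * Real.sinc (y * x) - b)]
  exact nonneg_of_mul_nonneg_right h5 h4

theorem kap_abs {τ y x : ℝ} (h0 : 0 ≤ x) : |kap τ y x| ≤
    |x * Pn τ x| * (|x * Xn τ x| * |Real.sinc (y * x)| + |Real.sin x| * |Xn τ (y * x)|) := by
  have e : kap τ y x = (x * Pn τ x) * ((x * Xn τ x) * Real.sinc (y * x) - Real.sin x * Xn τ (y * x)) := by
    rw [← CFKap_sinc_mul x]
    unfold kap
    ring
  rw [e, abs_mul]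
  refine mul_le_mul_of_nonneg_left ?_ (abs_nonneg _)
  refine (abs_sub _ _).trans ?_
  rw [abs_mul (x * Xn τ x), abs_mul (Real.sin x)]

theorem CFKap_XS {τ u v : ℝ} (h0 : 0 ≤ u) (huv : u ≤ v) (h1 : v ≤ π) :
    Xn τ u * Real.sinc v ≤ Xn τ v * Real.sinc u := by
  by_cases hv : v = 0
  · have hu : u = 0 := le_antisymm (hv ▸ huv) h0
    rw [hu, hv]
  · have hv0 : 0 < v := lt_of_le_of_ne (h0.trans huv) (Ne.symm hv)
    have e : u / v * v = u := by field_simp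
    have hy0 : 0 ≤ u / v := div_nonneg h0 hv0.le
    have hy1 : u / v ≤ 1 := (div_le_one hv0).mpr huv
    have hr := Xn_ratio (τ := τ) hy0 hy1 hv0.le h1
    rw [e] at hr
    have hS : 0 ≤ Real.sinc u := sinc_nonneg h0 (huv.trans h1)
    have hX : Real.sinc v ≤ Xn τ v := Xn_ge_sinc hv0.le (h1.trans CFKap_pi_le)
    have h2 : (u / v) ^ 2 * (Xn τ v - Real.sinc v) * Real.sinc u ≤
        (Xn τ v - Real.sinc v) * Real.sinc u := by
      refine mul_le_mul_of_nonneg_right ?_ hS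
      refine mul_le_of_le_one_left (by linarith) ?_
      nlinarith
    nlinarith

theorem CFKap_XP {τ u v : ℝ} (hτ : 0 < τ) (h0 : 0 ≤ u) (huv : u ≤ v) (h1 : v ≤ π) :
    u ^ 2 * (Xn τ u * Pn τ v) ≤ v ^ 2 * (Xn τ v * Pn τ u) := by
  have h := CFKap_XS (τ := τ) h0 huv h1
  have hh := hn_pos τ
  have h2 : Xn τ u * Pn τ v ≤ Xn τ v * Pn τ u := by
    rw [Pn_eq hτ u, Pn_eq hτ v]
    nlinarith
  have h3 : 0 ≤ Xn τ v * Pn τ u :=
    mul_nonneg (Xn_nonneg (h0.trans huv) (h1.trans CFKap_pi_le)) (Pn_pos hτ h0 (huv.trans h1)).le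
  calc u ^ 2 * (Xn τ u * Pn τ v) ≤ u ^ 2 * (Xn τ v * Pn τ u) :=
        mul_le_mul_of_nonneg_left h2 (sq_nonneg u)
    _ ≤ v ^ 2 * (Xn τ v * Pn τ u) :=
        mul_le_mul_of_nonneg_right (pow_le_pow_left₀ h0 huv 2) h3

theorem Pn_cross {τ y1 y a b : ℝ} (hτ : 0 < τ) (h1 : 0 ≤ y1) (h2 : y1 ≤ y) (ha : 0 ≤ a) (hab : a ≤ b)
    (hb : y * b ≤ π) : Pn τ (y1 * a) * Pn τ (y * b) ≤ Pn τ (y * a) * Pn τ (y1 * b) := by
  by_cases hb0 : b = 0
  · have ha0 : a = 0 := le_antisymm (hb0 ▸ hab) ha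
    rw [ha0, hb0]
    simp
  have hbp : 0 < b := lt_of_le_of_ne (ha.trans hab) (Ne.symm hb0)
  have hy : 0 ≤ y := h1.trans h2
  have hin : ∀ z ∈ Icc 0 y, 0 ≤ z * a ∧ z * a ≤ z * b ∧ z * b ≤ π := by
    intro z hz
    refine ⟨mul_nonneg hz.1 ha, mul_le_mul_of_nonneg_left hab hz.1, ?_⟩
    exact (mul_le_mul_of_nonneg_right hz.2 hbp.le).trans hb
  have hd : ∀ c z : ℝ, HasDerivAt (fun z => Pn τ (z * c)) (-(m2 τ * (z * c) * Xn τ (z * c)) * c) z := by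
    intro c z
    have e : HasDerivAt (fun z : ℝ => z * c) c z := by
      simpa using (hasDerivAt_id z).mul_const c
    exact (hasDerivAt_Pn hτ (z * c)).comp z e
  have hpos : ∀ z ∈ Icc 0 y, 0 < Pn τ (z * b) := fun z hz =>
    Pn_pos hτ ((hin z hz).1.trans (hin z hz).2.1) (hin z hz).2.2
  have hm : MonotoneOn (fun z => Pn τ (z * a) / Pn τ (z * b)) (Icc 0 y) := by
    apply monotoneOn_of_deriv_nonneg (convex_Icc 0 y)
    · intro z hz
      exact ((hd a z).div (hd b z) (ne_of_gt (hpos z hz))).continuousAt.continuousWithinAt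
    · intro z hz
      have hz' := interior_subset hz
      exact ((hd a z).div (hd b z) (ne_of_gt (hpos z hz'))).differentiableAt.differentiableWithinAt
    · intro z hz
      rw [interior_Icc] at hz
      have hz' : z ∈ Icc 0 y := ⟨hz.1.le, hz.2.le⟩
      have hdz := (hd a z).div (hd b z) (ne_of_gt (hpos z hz'))
      have hdz' := hdz.deriv
      have e : deriv (fun z => Pn τ (z * a) / Pn τ (z * b)) z =
        (-(m2 τ * (z * a) * Xn τ (z * a)) * a * Pn τ (z * b) -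
          Pn τ (z * a) * (-(m2 τ * (z * b) * Xn τ (z * b)) * b)) / Pn τ (z * b) ^ 2 := hdz'
      rw [e]
      apply div_nonneg _ (sq_nonneg _)
      have hXP := CFKap_XP hτ (hin z hz').1 (hin z hz').2.1 (hin z hz').2.2
      have h3 : 0 ≤ m2 τ * (z * ((z * b) ^ 2 * (Xn τ (z * b) * Pn τ (z * a)) -
          (z * a) ^ 2 * (Xn τ (z * a) * Pn τ (z * b)))) :=
        mul_nonneg (m2_pos τ).le (mul_nonneg hz.1.le (by linarith))
      have h4 : m2 τ * (z * ((z * b) ^ 2 * (Xn τ (z * b) * Pn τ (z * a)) -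
          (z * a) ^ 2 * (Xn τ (z * a) * Pn τ (z * b)))) = z ^ 2 *
          (-(m2 τ * (z * a) * Xn τ (z * a)) * a * Pn τ (z * b) -
          Pn τ (z * a) * (-(m2 τ * (z * b) * Xn τ (z * b)) * b)) := by
        ring
      rw [h4] at h3
      exact nonneg_of_mul_nonneg_right h3 (by have := hz.1; positivity)
  have hmem1 : y1 ∈ Icc 0 y := ⟨h1, h2⟩
  have hmem2 : y ∈ Icc 0 y := ⟨hy, le_rfl⟩
  have h5 := hm hmem1 hmem2 h2
  rw [div_le_div_iff₀ (hpos _ hmem1) (hpos _ hmem2)] at h5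
  exact h5

end GCube
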