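import Pool.Agent.Lib.H83.CFSinc
import Pool.Agent.Lib.H83.CFBasic
import Pool.Agent.Lib.H83.AIneq

/-!
Chunk CP: soundness of the primitives of the checker (`CFCheck.lean`).

Truncated alternating series are bounds for all arguments `≥ 0`: for `exp(-w)` see `AIneq.ps_sign`
(`ps_le_exp`, `exp_le_ps`); for `cos`, `sin`: `cos x ≤ 1`, integrate, … ; hence for `sinc u` (`u ≥ 0`), then for
`Xz(v) = 3∫ξ² sinc(vξ)`, `Yz = 5∫ξ⁴ Xz(vξ)` (integrate the polynomial bounds), `j2 = v²/15 Yz`.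
`nmS j w 0 cnt = ∑_{i<cnt} (-w)^i/(i! (2i+j+1)) = ∫_0^1 ξ^j ∑_{i<cnt} (-wξ²)^i/i!`.
-/

open MeasureTheory Set
open scoped Real

namespace GCube

namespace CF

theorem rd_le (q : ℚ) : rd q ≤ q := by
  unfold rd
  rw [div_le_iff₀ (by norm_num)]
  exact Int.floor_le _

theorem le_ru (q : ℚ) : q ≤ ru q := by
  unfold ru
  have := rd_le (-q)
  linarith

lemma cpr_rd (q : ℚ) : ((rd q : ℚ) : ℝ) ≤ (q : ℝ) := by
  exact_mod_cast rd_le q

lemma cpr_ru (q : ℚ) : (q : ℝ) ≤ ((ru q : ℚ) : ℝ) := by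
  exact_mod_cast le_ru q

theorem Tq_le_exp {w : ℚ} (hw : 0 ≤ w) : ((Tq w : ℚ) : ℝ) ≤ Real.exp w := by
  have hw' : (0 : ℝ) ≤ (w : ℝ) := by exact_mod_cast hw
  refine le_trans (le_of_eq ?_) (Real.sum_le_exp_of_nonneg hw' 13)
  simp only [Finset.sum_range_succ, Finset.sum_range_zero, Nat.factorial, Tq]
  push_cast
  ring

theorem one_le_Tq {w : ℚ} (hw : 0 ≤ w) : 1 ≤ Tq w := by
  unfold Tq
  have : 0 ≤ w * (1 + w / 2 * (1 + w / 3 * (1 + w / 4 * (1 + w / 5 * (1 + w / 6 * (1 + w / 7 * (1 + w / 8 *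
    (1 + w / 9 * (1 + w / 10 * (1 + w / 11 * (1 + w / 12))))))))))) := by positivity
  linarith

/-- `exp(-z) ≤ 1/Tq w` for `w ≤ z` -/
theorem exp_neg_le {w : ℚ} {z : ℝ} (hw : 0 ≤ w) (h : (w : ℝ) ≤ z) :
    Real.exp (-z) ≤ ((1 / Tq w : ℚ) : ℝ) := by
  have h1 := one_le_Tq hw
  have h1' : (1 : ℝ) ≤ ((Tq w : ℚ) : ℝ) := by exact_mod_cast h1
  have h2 := (Tq_le_exp hw).trans (Real.exp_le_exp.mpr h)
  rw [Real.exp_neg]
  push_cast
  rw [one_div]
  exact inv_anti₀ (by linarith) h2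

theorem pL_lt : ((pL : ℚ) : ℝ) < π := by
  have := Real.pi_gt_d6
  unfold pL
  push_cast
  norm_num at this ⊢
  linarith

theorem lt_pU : π < ((pU : ℚ) : ℝ) := by
  have := Real.pi_lt_d6
  unfold pU
  push_cast
  norm_num at this ⊢
  linarith

/-! ### `sinc`, `j2` -/

/-- partial sums of `sinc`, `Xz/3`, `j2/v²` -/
noncomputable def cprP (n : ℕ) (x : ℝ) : ℝ :=
  ∑ i ∈ Finset.range n, (-1) ^ i * x ^ (2 * i) / (2 * i + 1).factorial
noncomputable def cprQ (n : ℕ) (x : ℝ) : ℝ :=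
  ∑ i ∈ Finset.range n, (-1) ^ i * x ^ (2 * i) / ((2 * i + 1).factorial * (2 * i + 3))
noncomputable def cprR (n : ℕ) (x : ℝ) : ℝ :=
  ∑ i ∈ Finset.range n, (-1) ^ i * x ^ (2 * i) / ((2 * i + 1).factorial * (2 * i + 3) * (2 * i + 5))

lemma cpr_S_eq (n : ℕ) (x : ℝ) : cs1S n x = x * cprP n x := by
  unfold cs1S cprP
  rw [Finset.mul_sum]
  apply Finset.sum_congr rfl
  intro i _
  ring

lemma cpr_sinc_even {n : ℕ} (hn : Even n) (hn0 : 0 < n) {x : ℝ} (hx : 0 ≤ x) :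
    cprP n x ≤ Real.sinc x := by
  obtain ⟨m, rfl⟩ : ∃ m, n = m + 1 := ⟨n - 1, by omega⟩
  rcases hx.eq_or_lt with h | h
  · rw [← h]
    unfold cprP
    rw [Finset.sum_range_succ']
    simp
  · have h1 := (cs1_trig m).2 x hx
    rw [hn.neg_one_pow, cpr_S_eq] at h1
    rw [Real.sinc_of_ne_zero h.ne', le_div_iff₀ h]
    linarith

lemma cpr_sinc_odd {n : ℕ} (hn : Odd n) {x : ℝ} (hx : 0 ≤ x) :
    Real.sinc x ≤ cprP n x := by
  obtain ⟨m, rfl⟩ : ∃ m, n = m + 1 := ⟨n - 1, by have := hn.pos; omega⟩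
  rcases hx.eq_or_lt with h | h
  · rw [← h]
    unfold cprP
    rw [Finset.sum_range_succ']
    simp
  · have h1 := (cs1_trig m).2 x hx
    rw [hn.neg_one_pow, cpr_S_eq] at h1
    rw [Real.sinc_of_ne_zero h.ne', div_le_iff₀ h]
    linarith

lemma cprQ_deriv (n : ℕ) (x : ℝ) :
    HasDerivAt (fun x => x ^ 3 * cprQ n x) (x ^ 2 * cprP n x) x := by
  have e : (fun x : ℝ => x ^ 3 * cprQ n x) = fun x => ∑ i ∈ Finset.range n,
      (-1) ^ i * x ^ (2 * i + 3) / (((2 * i + 1).factorial : ℝ) * (2 * i + 3)) := by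
    ext x
    unfold cprQ
    rw [Finset.mul_sum]
    apply Finset.sum_congr rfl
    intro i _
    ring
  have e2 : x ^ 2 * cprP n x = ∑ i ∈ Finset.range n,
      (-1) ^ i * x ^ (2 * i + 2) / ((2 * i + 1).factorial : ℝ) := by
    unfold cprP
    rw [Finset.mul_sum]
    apply Finset.sum_congr rfl
    intro i _
    ring
  rw [e, e2]
  apply HasDerivAt.fun_sum
  intro i _
  have h := ((hasDerivAt_pow (2 * i + 3) x).const_mul ((-1 : ℝ) ^ i)).div_const
    ((2 * i + 1).factorial * (2 * i + 3) : ℝ)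
  refine h.congr_deriv ?_
  have h3 : ((2 * i + 1).factorial : ℝ) ≠ 0 := by positivity
  have h4 : (2 * (i : ℝ) + 3) ≠ 0 := by positivity
  have h5 : 2 * i + 3 - 1 = 2 * i + 2 := by omega
  rw [h5]
  push_cast
  field_simp

lemma cprR_deriv (n : ℕ) (x : ℝ) :
    HasDerivAt (fun x => x ^ 5 * cprR n x) (x ^ 4 * cprQ n x) x := by
  have e : (fun x : ℝ => x ^ 5 * cprR n x) = fun x => ∑ i ∈ Finset.range n,
      (-1) ^ i * x ^ (2 * i + 5) / (((2 * i + 1).factorial : ℝ) * (2 * i + 3) * (2 * i + 5)) := by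
    ext x
    unfold cprR
    rw [Finset.mul_sum]
    apply Finset.sum_congr rfl
    intro i _
    ring
  have e2 : x ^ 4 * cprQ n x = ∑ i ∈ Finset.range n,
      (-1) ^ i * x ^ (2 * i + 4) / ((2 * i + 1).factorial * (2 * i + 3) : ℝ) := by
    unfold cprQ
    rw [Finset.mul_sum]
    apply Finset.sum_congr rfl
    intro i _
    ring
  rw [e, e2]
  apply HasDerivAt.fun_sum
  intro i _
  have h := ((hasDerivAt_pow (2 * i + 5) x).const_mul ((-1 : ℝ) ^ i)).div_const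
    ((2 * i + 1).factorial * (2 * i + 3) * (2 * i + 5) : ℝ)
  refine h.congr_deriv ?_
  have h3 : ((2 * i + 1).factorial : ℝ) ≠ 0 := by positivity
  have h4 : (2 * (i : ℝ) + 3) ≠ 0 := by positivity
  have h6 : (2 * (i : ℝ) + 5) ≠ 0 := by positivity
  have h5 : 2 * i + 5 - 1 = 2 * i + 4 := by omega
  rw [h5]
  push_cast
  field_simp

lemma cpr_Xz_ge {n : ℕ} (hn : Even n) (hn0 : 0 < n) {x : ℝ} (hx : 0 ≤ x) :
    0 ≤ x ^ 3 * (Xz x - 3 * cprQ n x) := by
  have hd : ∀ x, HasDerivAt (fun x => x ^ 3 * (Xz x - 3 * cprQ n x))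
      (3 * x ^ 2 * (Real.sinc x - cprP n x)) x := by
    intro x
    have h1 := ((hasDerivAt_pow 3 x).mul (hasDerivAt_Xz x)).sub ((cprQ_deriv n x).const_mul 3)
    have e : (fun x => x ^ 3 * (Xz x - 3 * cprQ n x)) =
        (fun x => x ^ 3) * Xz - fun x => 3 * (x ^ 3 * cprQ n x) := by
      ext y
      simp
      ring
    rw [e]
    refine h1.congr_deriv ?_
    have h2 := j2_eq x
    unfold j2 at h2
    have h3 : Real.sinc x = Xz x - x ^ 2 / 15 * Yz x := by linarith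
    rw [h3]
    simp
    ring
  apply cs1_mono hd (by simp) _ hx
  intro y hy
  have := cpr_sinc_even hn hn0 hy
  have h3 : 0 ≤ Real.sinc y - cprP n y := by linarith
  positivity

lemma cpr_j2_deriv (x : ℝ) : HasDerivAt (fun x => x ^ 3 * j2 x) (x ^ 4 / 3 * Xz x) x := by
  have h1 := (hasDerivAt_pow 3 x).mul ((hasDerivAt_Xz x).sub (hasDerivAt_sinc' x))
  have e : (fun x => x ^ 3 * j2 x) = (fun x => x ^ 3) * (Xz - Real.sinc) := by
    ext y
    simp [j2]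
  rw [e]
  refine h1.congr_deriv ?_
  have h2 := j2_eq x
  have h3 : Xz x - Real.sinc x = x ^ 2 / 15 * Yz x := h2
  simp only [Pi.sub_apply, h3]
  simp
  ring

lemma cpr_j2_ge {n : ℕ} (hn : Even n) (hn0 : 0 < n) {x : ℝ} (hx : 0 ≤ x) :
    x ^ 2 * cprR n x ≤ j2 x := by
  have hd : ∀ x, HasDerivAt (fun x => x ^ 3 * j2 x - x ^ 5 * cprR n x)
      (x ^ 4 / 3 * Xz x - x ^ 4 * cprQ n x) x := fun x => (cpr_j2_deriv x).sub (cprR_deriv n x)
  have h := cs1_mono hd (by simp) (by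
    intro y hy
    have h1 := cpr_Xz_ge hn hn0 hy
    have : y ^ 4 / 3 * Xz y - y ^ 4 * cprQ n y = y / 3 * (y ^ 3 * (Xz y - 3 * cprQ n y)) := by ring
    rw [this]
    positivity) hx
  rcases hx.eq_or_lt with h0 | h0
  · rw [← h0]
    rw [j2_eq]
    simp
  · have h2 : 0 ≤ x ^ 3 * (j2 x - x ^ 2 * cprR n x) := by
      have : x ^ 3 * (j2 x - x ^ 2 * cprR n x) = x ^ 3 * j2 x - x ^ 5 * cprR n x := by ring
      rw [this]
      exact h
    have h3 := nonneg_of_mul_nonneg_right h2 (by positivity)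
    linarith

theorem snL_le {u : ℚ} (hu : 0 ≤ u) : ((snL u : ℚ) : ℝ) ≤ Real.sinc u := by
  have hu' : (0 : ℝ) ≤ (u : ℝ) := by exact_mod_cast hu
  refine le_trans (le_of_eq ?_) (cpr_sinc_even (n := 10) (by decide) (by norm_num) hu')
  simp only [cprP, Finset.sum_range_succ, Finset.sum_range_zero, snL, hor, snC]
  push_cast
  norm_num [Nat.factorial]
  ring

theorem le_snU {u : ℚ} (hu : 0 ≤ u) : Real.sinc u ≤ ((snU u : ℚ) : ℝ) := by
  have hu' : (0 : ℝ) ≤ (u : ℝ) := by exact_mod_cast hu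
  refine le_trans (cpr_sinc_odd (n := 9) (by decide) hu') (le_of_eq ?_)
  simp only [cprP, Finset.sum_range_succ, Finset.sum_range_zero, snU, hor, snC, List.take]
  push_cast
  norm_num [Nat.factorial]
  ring

theorem jL_le {u : ℚ} (hu : 0 ≤ u) : ((jL u : ℚ) : ℝ) ≤ j2 u := by
  have hu' : (0 : ℝ) ≤ (u : ℝ) := by exact_mod_cast hu
  refine le_trans (le_of_eq ?_) (cpr_j2_ge (n := 10) (by decide) (by norm_num) hu')
  simp only [cprR, Finset.sum_range_succ, Finset.sum_range_zero, jL, hor, jC]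
  push_cast
  norm_num [Nat.factorial]
  left
  ring

/-! ### moments and `exp(-w)` -/

noncomputable def cprEm (w : ℝ) : ℕ → ℕ → ℝ
  | _, 0 => 0
  | n, cnt + 1 => 1 - w / (n + 1) * cprEm w (n + 1) cnt

lemma cpr_em_cast (w : ℚ) (cnt : ℕ) : ∀ n : ℕ, ((emS w n cnt : ℚ) : ℝ) = cprEm (w : ℝ) n cnt := by
  induction cnt with
  | zero => intro n; simp [emS, cprEm]
  | succ cnt ih =>
    intro n
    simp only [emS, cprEm]
    push_cast
    rw [ih (n + 1)]

lemma cpr_em_sum (w : ℝ) (cnt : ℕ) : ∀ n : ℕ, cprEm w n cnt =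
    ∑ i ∈ Finset.range cnt, (-w) ^ i * (n.factorial / (n + i).factorial) := by
  induction cnt with
  | zero => intro n; simp [cprEm]
  | succ cnt ih =>
    intro n
    rw [Finset.sum_range_succ']
    simp only [cprEm, ih (n + 1), Finset.mul_sum]
    have h0 : (n.factorial : ℝ) ≠ 0 := by positivity
    rw [sub_eq_add_neg, add_comm, ← Finset.sum_neg_distrib]
    congr 1
    · apply Finset.sum_congr rfl
      intro i _
      have h1 : n + 1 + i = n + (i + 1) := by ring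
      rw [h1, Nat.factorial_succ n]
      push_cast
      have h2 : ((n + (i + 1)).factorial : ℝ) ≠ 0 := by positivity
      have h3 : ((n : ℝ) + 1) ≠ 0 := by positivity
      field_simp
      ring
    · simp [h0]

lemma cpr_em_ps (w : ℝ) (cnt : ℕ) : cprEm w 0 cnt = AIneq.ps cnt w := by
  rw [cpr_em_sum]
  unfold AIneq.ps
  apply Finset.sum_congr rfl
  intro i _
  simp [div_eq_mul_inv]

lemma cprEm_cont (cnt : ℕ) : ∀ n : ℕ, Continuous (fun w => cprEm w n cnt) := by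
  induction cnt with
  | zero => intro n; simp only [cprEm]; exact continuous_const
  | succ cnt ih =>
    intro n
    simp only [cprEm]
    have := ih (n + 1)
    fun_prop

lemma cpr_nm_int (j : ℕ) (w : ℚ) (cnt : ℕ) : ∀ n : ℕ, ((nmS j w n cnt : ℚ) : ℝ) =
    ∫ ξ in (0 : ℝ)..1, ξ ^ (2 * n + j) * cprEm (w * ξ ^ 2) n cnt := by
  induction cnt with
  | zero => intro n; simp [nmS, cprEm]
  | succ cnt ih =>
    intro n
    simp only [nmS, cprEm]
    push_cast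
    rw [ih (n + 1)]
    have hc := cprEm_cont cnt (n + 1)
    have hc2 : Continuous (fun ξ : ℝ => cprEm (w * ξ ^ 2) (n + 1) cnt) :=
      hc.comp (by fun_prop : Continuous (fun ξ : ℝ => (w : ℝ) * ξ ^ 2))
    have e : (fun ξ : ℝ => ξ ^ (2 * n + j) * (1 - w * ξ ^ 2 / (n + 1) * cprEm (w * ξ ^ 2) (n + 1) cnt)) =
        fun ξ => ξ ^ (2 * n + j) -
          w / (n + 1) * (ξ ^ (2 * (n + 1) + j) * cprEm (w * ξ ^ 2) (n + 1) cnt) := by
      ext ξ
      ring
    rw [e, intervalIntegral.integral_sub, intervalIntegral.integral_const_mul, integral_pow]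
    · congr 1
      simp
    · exact (by fun_prop : Continuous fun ξ : ℝ => ξ ^ (2 * n + j)).intervalIntegrable _ _
    · exact (by fun_prop : Continuous fun ξ : ℝ => (w : ℝ) / (n + 1) *
        (ξ ^ (2 * (n + 1) + j) * cprEm (w * ξ ^ 2) (n + 1) cnt)).intervalIntegrable _ _

lemma cpr_E (t ξ : ℝ) : E (t * ξ) = Real.exp (-(t ^ 2 / 2 * ξ ^ 2)) := by
  unfold E
  congr 1
  ring

theorem nmL_le (j : ℕ) {t : ℚ} (ht : 0 ≤ t) : ((nmL j t : ℚ) : ℝ) ≤ Nm t j := by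
  unfold nmL Nm
  refine le_trans (cpr_rd _) ?_
  rw [cpr_nm_int]
  have hE := E_continuous
  have hc := cprEm_cont 40 0
  apply intervalIntegral.integral_mono_on zero_le_one
  · have hc2 : Continuous (fun ξ : ℝ => cprEm (((t ^ 2 / 2 : ℚ) : ℝ) * ξ ^ 2) 0 40) :=
      hc.comp (by fun_prop : Continuous (fun ξ : ℝ => ((t ^ 2 / 2 : ℚ) : ℝ) * ξ ^ 2))
    exact (by fun_prop : Continuous fun ξ : ℝ => ξ ^ (2 * 0 + j) *
      cprEm (((t ^ 2 / 2 : ℚ) : ℝ) * ξ ^ 2) 0 40).intervalIntegrable _ _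
  · exact (by fun_prop : Continuous fun ξ : ℝ => ξ ^ j * E (t * ξ)).intervalIntegrable _ _
  · intro ξ hξ
    have e : 2 * 0 + j = j := by omega
    rw [e, cpr_em_ps, cpr_E]
    apply mul_le_mul_of_nonneg_left _ (pow_nonneg hξ.1 j)
    push_cast
    exact AIneq.ps_le_exp (by decide) (by positivity)

theorem le_nmU (j : ℕ) {t : ℚ} (ht : 0 ≤ t) : Nm t j ≤ ((nmU j t : ℚ) : ℝ) := by
  unfold nmU Nm
  refine le_trans ?_ (cpr_ru _)
  rw [cpr_nm_int]
  have hE := E_continuous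
  have hc := cprEm_cont 41 0
  apply intervalIntegral.integral_mono_on zero_le_one
  · exact (by fun_prop : Continuous fun ξ : ℝ => ξ ^ j * E (t * ξ)).intervalIntegrable _ _
  · have hc2 : Continuous (fun ξ : ℝ => cprEm (((t ^ 2 / 2 : ℚ) : ℝ) * ξ ^ 2) 0 41) :=
      hc.comp (by fun_prop : Continuous (fun ξ : ℝ => ((t ^ 2 / 2 : ℚ) : ℝ) * ξ ^ 2))
    exact (by fun_prop : Continuous fun ξ : ℝ => ξ ^ (2 * 0 + j) *
      cprEm (((t ^ 2 / 2 : ℚ) : ℝ) * ξ ^ 2) 0 41).intervalIntegrable _ _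
  · intro ξ hξ
    have e : 2 * 0 + j = j := by omega
    rw [e, cpr_em_ps, cpr_E]
    apply mul_le_mul_of_nonneg_left _ (pow_nonneg hξ.1 j)
    push_cast
    exact AIneq.exp_le_ps (by decide) (by positivity)

theorem emL_le {w : ℚ} (hw : 0 ≤ w) : ((emL w : ℚ) : ℝ) ≤ Real.exp (-w) := by
  have hw' : (0 : ℝ) ≤ (w : ℝ) := by exact_mod_cast hw
  unfold emL
  refine le_trans (cpr_rd _) ?_
  rw [cpr_em_cast, cpr_em_ps]
  exact AIneq.ps_le_exp (by decide) hw'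

theorem le_emU {w : ℚ} (hw : 0 ≤ w) : Real.exp (-w) ≤ ((emU w : ℚ) : ℝ) := by
  have hw' : (0 : ℝ) ≤ (w : ℝ) := by exact_mod_cast hw
  unfold emU
  refine le_trans ?_ (cpr_ru _)
  rw [cpr_em_cast, cpr_em_ps]
  exact AIneq.exp_le_ps (by decide) hw'

end CF

end GCube
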