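import Pool.Agent.Lib.H83.CFPrim
import Pool.Agent.Lib.H83.CFKap
import Pool.Agent.Lib.H83.CFFar

/-!
Chunk CPW: pointwise soundness of `Pup`, `Plo`, `cX`, … for constants with `TOk T τ`. All short.

* `Pup`: `Pn τ u ≤ Pn τ u0 = hn sinc u0 + sg Xn u0 ≤ hU max(snU u0, 0) + (1-hL) exp(-μ u0²/6)` (`Pn_anti`, `Pn_eq`, `Xn_exp`).
* `Plo`: `Pn τ u ≥ Pn τ u0 = sinc u0 + sg (Xn - sinc)(u0) ≥ sinc u0 + sg (5/2)(1-μ) j2 u0` (`Xn_sub_sinc`), `c1 ≤ sg (5/2)(1-μ)`.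
* `cX`: `xXn_bound` divided by `u²`, and monotonicity in `u`.
-/

open MeasureTheory Set
open scoped Real

namespace GCube

open CF

variable {T : CF.Tb} {τ : ℝ}

theorem c2_le (h : TOk T τ) : ((c2 T : ℚ) : ℝ) ≤ 5 / 2 * (1 - mu τ) := by
  have := h.muU
  unfold c2
  push_cast
  linarith

theorem c2_pos (h : TOk T τ) : 0 < c2 T := by
  have := h.muU1
  unfold c2
  linarith

theorem sg_bounds (h : TOk T τ) : (1 : ℝ) - T.hU ≤ sg τ ∧ sg τ ≤ 1 - T.hL ∧ (0 : ℝ) < 1 - T.hU := by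
  have h1 := h.hU
  have h2 := h.hL
  have h3 : ((T.hU : ℚ) : ℝ) < 1 := by exact_mod_cast h.hU1
  unfold sg
  refine ⟨by linarith, by linarith, by linarith⟩

theorem c1_le (h : TOk T τ) : ((c1 T : ℚ) : ℝ) ≤ sg τ * (5 / 2 * (1 - mu τ)) := by
  have h1 := sg_bounds h
  have h2 := c2_le h
  have h3 : (0 : ℝ) < ((c2 T : ℚ) : ℝ) := by exact_mod_cast c2_pos h
  unfold c1
  push_cast
  apply mul_le_mul h1.1 h2 h3.le
  linarith [h1.1, h1.2.2]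

theorem c1_pos (h : TOk T τ) : 0 < c1 T := by
  have h1 := h.hU1
  have h2 := c2_pos h
  unfold c1
  apply mul_pos (by linarith) h2

lemma cpw_pi : π ≤ 44 / 10 := by
  have := Real.pi_lt_d2
  linarith

lemma cpw_Xn_exp (h : TOk T τ) {u0 : ℚ} {u : ℝ} (h0 : 0 ≤ u0) (h1 : (u0 : ℝ) ≤ u) (h2 : u ≤ 44 / 10) :
    Xn τ u ≤ ((1 / Tq (T.muL * u0 ^ 2 / 6) : ℚ) : ℝ) := by
  have h0' : (0 : ℝ) ≤ (u0 : ℝ) := by exact_mod_cast h0
  have hm0 := h.muL0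
  have hm0' : (0 : ℝ) < ((T.muL : ℚ) : ℝ) := by exact_mod_cast hm0
  have hm := h.muL
  refine (Xn_exp (h0'.trans h1) h2).trans (exp_neg_le (by positivity) ?_)
  push_cast
  have h3 : (u0 : ℝ) ^ 2 ≤ u ^ 2 := pow_le_pow_left₀ h0' h1 2
  have h4 : ((T.muL : ℚ) : ℝ) * (u0 : ℝ) ^ 2 ≤ mu τ * u ^ 2 :=
    mul_le_mul hm h3 (by positivity) (by linarith)
  linarith

theorem le_Pup (h : TOk T τ) {u0 : ℚ} {u : ℝ} (h0 : 0 ≤ u0) (h1 : (u0 : ℝ) ≤ u) (h2 : u ≤ π) :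
    Pn τ u ≤ ((Pup T u0 : ℚ) : ℝ) := by
  have h0' : (0 : ℝ) ≤ (u0 : ℝ) := by exact_mod_cast h0
  have hp := cpw_pi
  have ha := Pn_anti h.τpos (a := (u0 : ℝ)) (b := u) ⟨h0', by linarith⟩ ⟨by linarith, by linarith⟩ h1
  refine ha.trans ?_
  rw [Pn_eq h.τpos]
  unfold Pup
  refine le_trans ?_ (cpr_ru _)
  push_cast
  have hs := le_snU h0
  have hs0 := sinc_nonneg h0' (h1.trans h2)
  have hX := cpw_Xn_exp h h0 le_rfl (by linarith : (u0 : ℝ) ≤ 44 / 10)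
  have hX0 := Xn_nonneg (τ := τ) h0' (by linarith : (u0 : ℝ) ≤ 44 / 10)
  have hsg := sg_bounds h
  have hh := h.hU
  have hh0 := hn_pos τ
  have e1 : hn τ * Real.sinc u0 ≤ T.hU * max ((snU u0 : ℚ) : ℝ) 0 :=
    mul_le_mul hh (hs.trans (le_max_left _ _)) hs0 (hh0.le.trans hh)
  have e2 : sg τ * Xn τ u0 ≤ (1 - T.hL) * ((1 / Tq (T.muL * u0 ^ 2 / 6) : ℚ) : ℝ) :=
    mul_le_mul hsg.2.1 hX hX0 (by linarith [hsg.1, hsg.2.1, hsg.2.2])
  push_cast at e2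
  rw [mul_one_div] at e2
  linarith

theorem Pup_pos (h : TOk T τ) {u0 : ℚ} (h0 : 0 ≤ u0) : 0 < Pup T u0 := by
  unfold Pup
  refine lt_of_lt_of_le ?_ (le_ru _)
  have hm0 := h.muL0
  have h1 : 1 ≤ Tq (T.muL * u0 ^ 2 / 6) := one_le_Tq (by positivity)
  have h2 : (0 : ℚ) < 1 - T.hL := by
    have h3 := h.hL
    have h4 := hn_lt_one h.τpos
    have : ((T.hL : ℚ) : ℝ) < 1 := by linarith
    have : T.hL < 1 := by exact_mod_cast this
    linarith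
  have h3 : (0 : ℚ) < T.hU := by
    have h3 := h.hU
    have h4 := hn_pos τ
    have : (0 : ℝ) < ((T.hU : ℚ) : ℝ) := by linarith
    exact_mod_cast this
  have h4 : 0 ≤ T.hU * max (snU u0) 0 := mul_nonneg h3.le (le_max_right _ _)
  have h5 : 0 < (1 - T.hL) / Tq (T.muL * u0 ^ 2 / 6) := div_pos h2 (by linarith)
  linarith

theorem Plo_le (h : TOk T τ) {u0 : ℚ} {u : ℝ} (h0 : 0 ≤ u) (h1 : u ≤ u0) (h2 : (u0 : ℝ) ≤ π) :
    ((Plo T u0 : ℚ) : ℝ) ≤ Pn τ u := by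
  have hp := cpw_pi
  have hu0 : (0 : ℝ) ≤ (u0 : ℝ) := h0.trans h1
  have hu0' : 0 ≤ u0 := by exact_mod_cast hu0
  have ha := Pn_anti h.τpos (a := u) (b := (u0 : ℝ)) ⟨h0, by linarith⟩ ⟨by linarith, by linarith⟩ h1
  refine le_trans ?_ ha
  unfold Plo
  refine le_trans (cpr_rd _) ?_
  push_cast
  have h3 := snL_le hu0'
  have h4 := jL_le hu0'
  have h5 := Xn_sub_sinc (τ := τ) hu0 h2
  have h6 := c1_le h
  have h7 : (0 : ℝ) < ((c1 T : ℚ) : ℝ) := by exact_mod_cast c1_pos h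
  have h8 := j2_nonneg hu0 (h2.trans hp)
  have h9 := sg_pos h.τpos
  have e1 : ((c1 T : ℚ) : ℝ) * ((jL u0 : ℚ) : ℝ) ≤ sg τ * (5 / 2 * (1 - mu τ)) * j2 u0 :=
    (mul_le_mul_of_nonneg_left h4 h7.le).trans (mul_le_mul_of_nonneg_right h6 h8)
  have e2 : sg τ * (5 / 2 * (1 - mu τ) * j2 u0) ≤ sg τ * (Xn τ u0 - Real.sinc u0) :=
    mul_le_mul_of_nonneg_left h5 h9.le
  have e3 : Pn τ u0 = Real.sinc u0 + sg τ * (Xn τ u0 - Real.sinc u0) := by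
    rw [Pn_eq h.τpos]
    unfold sg
    ring
  rw [e3]
  linarith

theorem Xn_le_exp (h : TOk T τ) {u0 : ℚ} {u : ℝ} (h0 : 0 ≤ u0) (h1 : (u0 : ℝ) ≤ u) (h2 : u ≤ 44 / 10) :
    |Xn τ u| ≤ ((1 / Tq (T.muL * u0 ^ 2 / 6) : ℚ) : ℝ) := by
  have h0' : (0 : ℝ) ≤ (u0 : ℝ) := by exact_mod_cast h0
  rw [abs_of_nonneg (Xn_nonneg (h0'.trans h1) h2)]
  exact cpw_Xn_exp h h0 h1 h2

theorem G_nonneg (h : TOk T τ) : 0 ≤ T.G1 ∧ 0 ≤ T.G2 ∧ 0 ≤ T.G3 := by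
  have hN := Nm_pos τ 2
  have hE := E_pos τ
  have hE1 := psi_E_le_one τ
  have hTV : 0 ≤ TVb τ := by
    unfold TVb
    split_ifs with h1
    · have : τ ^ 2 * E τ ≥ 0 := by positivity
      nlinarith
    · norm_num
  have h1 : (0 : ℝ) ≤ ((T.G1 : ℚ) : ℝ) := le_trans (by positivity) h.G1
  have h2 : (0 : ℝ) ≤ ((T.G2 : ℚ) : ℝ) := le_trans (by positivity) h.G2
  have h3 : (0 : ℝ) ≤ ((T.G3 : ℚ) : ℝ) := le_trans (by positivity) h.G3
  refine ⟨by exact_mod_cast h1, by exact_mod_cast h2, by exact_mod_cast h3⟩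

theorem Xn_le_cX (h : TOk T τ) {u0 : ℚ} {u : ℝ} (h0 : 0 < u0) (h1 : (u0 : ℝ) ≤ u) :
    |Xn τ u| ≤ ((cX T u0 : ℚ) : ℝ) := by
  have h0' : (0 : ℝ) < (u0 : ℝ) := by exact_mod_cast h0
  have hu : 0 < u := by linarith
  obtain ⟨g1, g2, g3⟩ := G_nonneg h
  have g1' : (0 : ℝ) ≤ ((T.G1 : ℚ) : ℝ) := by exact_mod_cast g1
  have g2' : (0 : ℝ) ≤ ((T.G2 : ℚ) : ℝ) := by exact_mod_cast g2
  have g3' : (0 : ℝ) ≤ ((T.G3 : ℚ) : ℝ) := by exact_mod_cast g3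
  have hb := xXn_bound h.τpos hu
  have hc : |Real.cos u| ≤ 1 := Real.abs_cos_le_one u
  have hs : |Real.sin u| ≤ 1 := Real.abs_sin_le_one u
  have e1 : E τ / Nm τ 2 * |Real.cos u| ≤ T.G1 * 1 :=
    mul_le_mul h.G1 hc (abs_nonneg _) g1'
  have e2 : |1 - τ ^ 2| * E τ / Nm τ 2 * |Real.sin u| ≤ T.G2 * 1 :=
    mul_le_mul h.G2 hs (abs_nonneg _) g2'
  have e3 := h.G3
  have e4 : |u * Xn τ u| ≤ (T.G1 + (T.G2 + T.G3) / u) / u := by
    refine hb.trans ?_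
    gcongr
    · linarith
    · linarith
  rw [abs_mul, abs_of_pos hu] at e4
  have e5 : |Xn τ u| ≤ (T.G1 + (T.G2 + T.G3) / u) / u ^ 2 := by
    rw [le_div_iff₀ (by positivity)]
    rw [le_div_iff₀ hu] at e4
    linarith
  refine e5.trans ?_
  unfold cX
  push_cast
  gcongr

theorem cX_nonneg (h : TOk T τ) {u0 : ℚ} (h0 : 0 < u0) : 0 ≤ cX T u0 := by
  obtain ⟨g1, g2, g3⟩ := G_nonneg h
  unfold cX
  positivity

/-- `|Xn|` on `[u1,u2]` -/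
theorem Xn_le_XF (h : TOk T τ) {u1 u2 : ℚ} {u : ℝ} (h0 : 0 < u1) (h1 : (u1 : ℝ) ≤ u) (h2 : u ≤ u2) :
    |Xn τ u| ≤ ((XF T u1 u2 : ℚ) : ℝ) := by
  unfold XF
  split_ifs with a b
  · have a' : ((u2 : ℚ) : ℝ) ≤ 44 / 10 := by
      have : ((u2 : ℚ) : ℝ) ≤ ((44 / 10 : ℚ) : ℝ) := by exact_mod_cast a
      push_cast at this
      exact this
    exact Xn_le_exp h h0.le h1 (h2.trans a')
  · rcases le_total u (44 / 10) with c | c
    · have := Xn_le_exp h h0.le h1 c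
      refine this.trans ?_
      exact_mod_cast le_max_left _ _
    · have := Xn_le_cX h (u0 := 44 / 10) (by norm_num) (by push_cast; exact c)
      refine this.trans ?_
      exact_mod_cast le_max_right _ _
  · exact Xn_le_cX h h0 h1

lemma cpw_sB {u1 u2 : ℚ} {u : ℝ} (h0 : 0 < u1) (h1 : (u1 : ℝ) ≤ u) (h2 : u ≤ u2) (h3 : π ≤ u) :
    |Real.sinc u| ≤ ((sB u1 u2 : ℚ) : ℝ) := by
  have h0' : (0 : ℝ) < (u1 : ℝ) := by exact_mod_cast h0
  have hp := Real.pi_gt_d2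
  have hu : 0 < u := by linarith
  unfold sB
  push_cast
  refine le_min (le_min ?_ ?_) ?_
  · refine (abs_sinc_lin h3).trans ?_
    have hu2 : (0 : ℝ) < u2 := by linarith
    rw [div_le_div_iff₀ hu hu2]
    norm_num at hp
    have e1 : (157 / 50 : ℝ) * u ≤ π * u2 := mul_le_mul hp.le h2 hu.le (by linarith)
    nlinarith
  · exact (abs_sinc_22 h3).trans (by norm_num)
  · refine (abs_sinc_inv hu).trans ?_
    exact one_div_le_one_div_of_le h0' h1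

/-- `|sinc|` on `[u1,u2]` -/
theorem sinc_le_sF {u1 u2 : ℚ} {u : ℝ} (h0 : 0 < u1) (h1 : (u1 : ℝ) ≤ u) (h2 : u ≤ u2) :
    |Real.sinc u| ≤ ((sF u1 u2 : ℚ) : ℝ) := by
  have h0' : (0 : ℝ) < (u1 : ℝ) := by exact_mod_cast h0
  have hp := Real.pi_gt_d4
  unfold sF
  rcases le_total u π with c | c
  · have a : u1 < pU := by
      have : ((u1 : ℚ) : ℝ) < ((pU : ℚ) : ℝ) := lt_of_le_of_lt (h1.trans c) lt_pU
      exact_mod_cast this
    rw [if_pos a]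
    rw [abs_of_nonneg (sinc_nonneg (h0'.le.trans h1) c)]
    have e1 := sinc_anti (a := (u1 : ℝ)) (b := u) ⟨h0'.le, (h1.trans c).trans cpw_pi⟩
      ⟨h0'.le.trans h1, c.trans cpw_pi⟩ h1
    refine (e1.trans (le_snU h0.le)).trans ?_
    push_cast
    exact (le_max_left _ _).trans (le_max_left _ _)
  · have a : 31415 / 10000 < u2 := by
      have : ((31415 / 10000 : ℚ) : ℝ) < ((u2 : ℚ) : ℝ) := by
        push_cast
        norm_num at hp ⊢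
        linarith
      exact_mod_cast this
    rw [if_pos a]
    refine (cpw_sB h0 h1 h2 c).trans ?_
    push_cast
    exact le_max_right _ _

lemma cpw_opp {a b A B : ℝ} (ha : |a| ≤ A) (ha0 : a ≤ 0) (hb : |b| ≤ B) (hb0 : 0 ≤ b) :
    |a + b| ≤ max A B := by
  rw [abs_of_nonpos ha0] at ha
  rw [abs_of_nonneg hb0] at hb
  rw [abs_le]
  constructor
  · have := le_max_left A B
    linarith
  · have := le_max_right A B
    linarith

/-- `|Pn|` on `[u1,u2]`, `u2 > 3.1415` -/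
theorem Pn_le_pF (h : TOk T τ) {u1 u2 : ℚ} {u : ℝ} (h0 : 0 < u1) (h1 : (u1 : ℝ) ≤ u) (h2 : u ≤ u2)
    (h3 : 31415 / 10000 < u2) (h4 : pU < u1 ∨ u2 ≤ 44 / 10) : |Pn τ u| ≤ ((pF T u1 u2 : ℚ) : ℝ) := by
  have h0' : (0 : ℝ) < (u1 : ℝ) := by exact_mod_cast h0
  have hu : 0 < u := by linarith
  have hsg := sg_bounds h
  have hsg0 := sg_pos h.τpos
  have hh := h.hU
  have hh0 := hn_pos τ
  have hX := Xn_le_XF h h0 h1 h2
  have eX : |sg τ * Xn τ u| ≤ (1 - T.hL) * ((XF T u1 u2 : ℚ) : ℝ) := by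
    rw [abs_mul, abs_of_pos hsg0]
    exact mul_le_mul hsg.2.1 hX (abs_nonneg _) (by linarith [hsg.1, hsg.2.1, hsg.2.2])
  have eS : ∀ {B : ℝ}, |Real.sinc u| ≤ B → |hn τ * Real.sinc u| ≤ T.hU * B := by
    intro B hB
    rw [abs_mul, abs_of_pos hh0]
    exact mul_le_mul hh hB (abs_nonneg _) (hh0.le.trans hh)
  unfold pF
  by_cases a : u1 ≤ pU
  · rw [if_pos a]
    have b : u2 ≤ 44 / 10 := by
      rcases h4 with h4 | h4
      · exact absurd h4 (not_lt.mpr a)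
      · exact h4
    have b' : ((u2 : ℚ) : ℝ) ≤ 44 / 10 := by
      have : ((u2 : ℚ) : ℝ) ≤ ((44 / 10 : ℚ) : ℝ) := by exact_mod_cast b
      push_cast at this
      exact this
    rcases le_total u π with c | c
    · rw [abs_of_pos (Pn_pos h.τpos hu.le c)]
      refine (le_Pup h h0.le h1 c).trans ?_
      push_cast
      exact le_max_left _ _
    · rw [Pn_eq h.τpos]
      have e1 := cpw_opp (eS (cpw_sB h0 h1 h2 c))
        (mul_nonpos_of_nonneg_of_nonpos hh0.le (sinc_nonpos c (h2.trans b'))) eX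
        (mul_nonneg hsg0.le (Xn_nonneg hu.le (h2.trans b')))
      refine e1.trans ?_
      push_cast
      exact le_max_right _ _
  · rw [if_neg a]
    have c : π ≤ u := by
      have : ((pU : ℚ) : ℝ) < ((u1 : ℚ) : ℝ) := by exact_mod_cast not_le.mp a
      have := lt_pU
      linarith
    have eSF := eS (sinc_le_sF h0 h1 h2)
    by_cases b : u2 ≤ 44 / 10
    · rw [if_pos b]
      have b' : ((u2 : ℚ) : ℝ) ≤ 44 / 10 := by
        have : ((u2 : ℚ) : ℝ) ≤ ((44 / 10 : ℚ) : ℝ) := by exact_mod_cast b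
        push_cast at this
        exact this
      rw [Pn_eq h.τpos]
      have e1 := cpw_opp eSF
        (mul_nonpos_of_nonneg_of_nonpos hh0.le (sinc_nonpos c (h2.trans b'))) eX
        (mul_nonneg hsg0.le (Xn_nonneg hu.le (h2.trans b')))
      refine e1.trans ?_
      push_cast
      exact le_rfl
    · rw [if_neg b]
      rw [Pn_eq h.τpos]
      refine (abs_add_le _ _).trans ?_
      push_cast
      linarith

end GCube
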