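import Pool.Agent.Lib.H83.CFTabs

/-!
Rows of the Fourier tables (kernel computations).
-/

set_option maxRecDepth 100000

namespace GCube

namespace CF

theorem b1_10_0_ok : okB t1_10 b1_10_0 = true := by decide +kernel
theorem b1_10_1_ok : okB t1_10 b1_10_1 = true := by decide +kernel
theorem b1_10_2_ok : okB t1_10 b1_10_2 = true := by decide +kernel
theorem b1_10_3_ok : okB t1_10 b1_10_3 = true := by decide +kernel
theorem b1_10_4_ok : okB t1_10 b1_10_4 = true := by decide +kernel
theorem b1_10_5_ok : okB t1_10 b1_10_5 = true := by decide +kernel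
theorem b1_10_6_ok : okB t1_10 b1_10_6 = true := by decide +kernel
theorem b1_10_7_ok : okB t1_10 b1_10_7 = true := by decide +kernel
theorem b1_10_8_ok : okB t1_10 b1_10_8 = true := by decide +kernel
theorem t1_10_ok : okT t1_10 = true := by decide +kernel
theorem c1_10_ok : cov 0 r1_10.2.2 r1_10.2.1 = true := by decide +kernel
theorem r1_10_ok : okRow r1_10 = true := by
  have hc := c1_10_ok
  have ht := t1_10_ok
  unfold okRow
  rw [hc]
  simp only [r1_10, List.all_cons, List.all_nil, Bool.and_true, ht,
    b1_10_0_ok, b1_10_1_ok, b1_10_2_ok, b1_10_3_ok, b1_10_4_ok, b1_10_5_ok, b1_10_6_ok, b1_10_7_ok,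
    b1_10_8_ok]
theorem r1_10_Q : okQ r1_10.1 = true := by decide +kernel
theorem r1_10_Y : okY r1_10.1.t1 r1_10.1.t2 r1_10.2.1 8 = true := by decide +kernel

end CF

end GCube
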