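import Pool.Agent.Lib.H83.CFTabs

/-!
Rows of the Fourier tables (kernel computations).
-/

set_option maxRecDepth 100000

namespace GCube

namespace CF

theorem b1_3_0_ok : okB t1_3 b1_3_0 = true := by decide +kernel
theorem b1_3_1_ok : okB t1_3 b1_3_1 = true := by decide +kernel
theorem b1_3_2_ok : okB t1_3 b1_3_2 = true := by decide +kernel
theorem b1_3_3_ok : okB t1_3 b1_3_3 = true := by decide +kernel
theorem b1_3_4_ok : okB t1_3 b1_3_4 = true := by decide +kernel
theorem b1_3_5_ok : okB t1_3 b1_3_5 = true := by decide +kernel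
theorem b1_3_6_ok : okB t1_3 b1_3_6 = true := by decide +kernel
theorem b1_3_7_ok : okB t1_3 b1_3_7 = true := by decide +kernel
theorem b1_3_8_ok : okB t1_3 b1_3_8 = true := by decide +kernel
theorem t1_3_ok : okT t1_3 = true := by decide +kernel
theorem c1_3_ok : cov 0 r1_3.2.2 r1_3.2.1 = true := by decide +kernel
theorem r1_3_ok : okRow r1_3 = true := by
  have hc := c1_3_ok
  have ht := t1_3_ok
  unfold okRow
  rw [hc]
  simp only [r1_3, List.all_cons, List.all_nil, Bool.and_true, ht,
    b1_3_0_ok, b1_3_1_ok, b1_3_2_ok, b1_3_3_ok, b1_3_4_ok, b1_3_5_ok, b1_3_6_ok, b1_3_7_ok, b1_3_8_ok]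
theorem r1_3_Q : okQ r1_3.1 = true := by decide +kernel
theorem r1_3_Y : okY r1_3.1.t1 r1_3.1.t2 r1_3.2.1 6 = true := by decide +kernel

end CF

end GCube
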