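import Pool.Agent.Lib.H83.CFTabs

/-!
Rows of the Fourier tables (kernel computations).
-/

set_option maxRecDepth 100000

namespace GCube

namespace CF

theorem b2_1_0_ok : okB t2_1 b2_1_0 = true := by decide +kernel
theorem b2_1_1_ok : okB t2_1 b2_1_1 = true := by decide +kernel
theorem b2_1_2_ok : okB t2_1 b2_1_2 = true := by decide +kernel
theorem t2_1_ok : okT t2_1 = true := by decide +kernel
theorem c2_1_ok : cov 0 r2_1.2.2 r2_1.2.1 = true := by decide +kernel
theorem r2_1_ok : okRow r2_1 = true := by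
  have hc := c2_1_ok
  have ht := t2_1_ok
  unfold okRow
  rw [hc]
  simp only [r2_1, List.all_cons, List.all_nil, Bool.and_true, ht,
    b2_1_0_ok, b2_1_1_ok, b2_1_2_ok]
theorem r2_1_Y : okY r2_1.1.t1 r2_1.1.t2 r2_1.2.1 20 = true := by decide +kernel

end CF

end GCube
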