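import Pool.Agent.Lib.H83.CFBasic
import Pool.Agent.Lib.H83.CFSinc

/-!
Chunk CS2: shape of `Xn` and `Pn`.

* `Xn' = -(μ v/3) Xt`: differentiate `∫ ξ² E(τξ) sinc(vξ)` under the integral, `sinc(vξ)' = -(vξ²/3) Xz(vξ)`.
* `Xn ≥ sinc` on `[0,4.4]`: average of `sinc(vξ)`, `sinc` antitone.
* `Xn = w Xz + (1-w) Xt`, `w = hn/(3 m2)`, `1 - w = τ² μ/3` (`mom`): integrate by parts, `(ξ³ Xz(vξ)/3)' = ξ² sinc(vξ)`.
  `Xt ≥ Xz` on `[0,4.4]` (`Xz` antitone), so `0 ≤ Xz ≤ Xn ≤ Xt`.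
* Hence `(Xn e^{μv²/6})' = (μv/3) e^{..} (Xn - Xt) ≤ 0`, `Xn ≤ e^{-μ v²/6}` on `[0,4.4]`; `Xn` antitone on `[0,4.4]` and `≥ 0`.
* `Pn = hn sinc + sg Xn > 0` on `[0,π]`, `Pn' = -m2 v Xn ≤ 0` on `[0,4.4]`, and `Xn ≥ Pn` there
  (`Xn ≥ sinc`), so `Pn e^{m2 v²/2}` is antitone on `[0,4.4]`.
-/

open MeasureTheory Set
open scoped Real

namespace GCube

lemma cs2_E_comp (τ : ℝ) : Continuous (fun ξ => E (τ * ξ)) := by
  have := E_continuous
  fun_prop

theorem hasDerivAt_Xn {τ : ℝ} (v : ℝ) : HasDerivAt (Xn τ) (-(mu τ * v / 3 * Xt τ v)) v := by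
  have hE := cs2_E_comp τ
  have hc : Continuous (fun x => -(x / 3 * Xz x)) := by
    have := Xz_cont
    fun_prop
  have h := cs1_hasDerivAt (g := Real.sinc) (g' := fun x => -(x / 3 * Xz x))
    (w := fun ξ => ξ ^ 2 * E (τ * ξ)) hasDerivAt_sinc' hc (by fun_prop) v
  have h2 := h.div_const (Nm τ 2)
  refine h2.congr_deriv ?_
  have hN2 := (Nm_pos τ 2).ne'
  have hN4 := (Nm_pos τ 4).ne'
  unfold mu Xt
  have e2 : Nm τ 4 / Nm τ 2 * v / 3 * ((∫ ξ in (0 : ℝ)..1, ξ ^ 4 * E (τ * ξ) * Xz (v * ξ)) / Nm τ 4) =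
      (v / 3 * ∫ ξ in (0 : ℝ)..1, ξ ^ 4 * E (τ * ξ) * Xz (v * ξ)) / Nm τ 2 := by
    generalize (∫ ξ in (0 : ℝ)..1, ξ ^ 4 * E (τ * ξ) * Xz (v * ξ)) = J
    field_simp
  rw [e2, ← intervalIntegral.integral_const_mul, ← neg_div, ← intervalIntegral.integral_neg]
  congr 1
  apply intervalIntegral.integral_congr
  intro t _
  simp only
  ring

lemma cs2_mul_le {v t : ℝ} (h0 : 0 ≤ v) (ht : t ∈ Icc (0 : ℝ) 1) : v * t ≤ v := by
  calc v * t ≤ v * 1 := by gcongr; exact ht.2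
    _ = v := mul_one v

theorem Xn_ge_sinc {τ v : ℝ} (h0 : 0 ≤ v) (h1 : v ≤ 44 / 10) : Real.sinc v ≤ Xn τ v := by
  have hE := cs2_E_comp τ
  have hs := Real.continuous_sinc
  unfold Xn
  rw [le_div_iff₀ (Nm_pos τ 2)]
  unfold Nm
  rw [← intervalIntegral.integral_const_mul]
  apply intervalIntegral.integral_mono_on zero_le_one
  · have : Continuous (fun ξ => Real.sinc v * (ξ ^ 2 * E (τ * ξ))) := by fun_prop
    exact this.intervalIntegrable _ _
  · have : Continuous (fun ξ => ξ ^ 2 * E (τ * ξ) * Real.sinc (v * ξ)) := by fun_prop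
    exact this.intervalIntegrable _ _
  · intro t ht
    have h2 := sinc_anti (a := v * t) (b := v) ⟨mul_nonneg h0 ht.1, (cs2_mul_le h0 ht).trans h1⟩
      ⟨h0, h1⟩ (cs2_mul_le h0 ht)
    have h3 : 0 ≤ t ^ 2 * E (τ * t) := mul_nonneg (sq_nonneg _) (E_pos _).le
    nlinarith

lemma cs2_Xt_ge {τ v : ℝ} (h0 : 0 ≤ v) (h1 : v ≤ 44 / 10) : Xz v ≤ Xt τ v := by
  have hE := cs2_E_comp τ
  have hs := Xz_cont
  unfold Xt
  rw [le_div_iff₀ (Nm_pos τ 4)]
  unfold Nm
  rw [← intervalIntegral.integral_const_mul]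
  apply intervalIntegral.integral_mono_on zero_le_one
  · have : Continuous (fun ξ => Xz v * (ξ ^ 4 * E (τ * ξ))) := by fun_prop
    exact this.intervalIntegrable _ _
  · have : Continuous (fun ξ => ξ ^ 4 * E (τ * ξ) * Xz (v * ξ)) := by fun_prop
    exact this.intervalIntegrable _ _
  · intro t ht
    have h2 := Xz_anti (a := v * t) (b := v) ⟨mul_nonneg h0 ht.1, (cs2_mul_le h0 ht).trans h1⟩
      ⟨h0, h1⟩ (cs2_mul_le h0 ht)
    have h3 : 0 ≤ t ^ 4 * E (τ * t) := mul_nonneg (by positivity) (E_pos _).le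
    nlinarith

lemma cs2_parts (τ v : ℝ) :
    3 * (Nm τ 2 * Xn τ v) = E τ * Xz v + τ ^ 2 * (Nm τ 4 * Xt τ v) := by
  have hE := cs2_E_comp τ
  have hs := Real.continuous_sinc
  have hX := Xz_cont
  have hd : ∀ t ∈ uIcc (0 : ℝ) 1, HasDerivAt (fun t => t ^ 3 * Xz (v * t) * E (τ * t))
      (3 * (t ^ 2 * E (τ * t) * Real.sinc (v * t)) - τ ^ 2 * (t ^ 4 * E (τ * t) * Xz (v * t))) t := by
    intro t _
    have h0 : HasDerivAt (fun t => v * t) v t := by
      simpa using (hasDerivAt_id' t).const_mul v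
    have h0' : HasDerivAt (fun t => τ * t) τ t := by
      simpa using (hasDerivAt_id' t).const_mul τ
    have h1 : HasDerivAt (fun t => Xz (v * t)) (-(v * t / 5 * Yz (v * t)) * v) t :=
      (hasDerivAt_Xz (v * t)).comp t h0
    have h2 : HasDerivAt (fun t => E (τ * t)) (-(τ * t * E (τ * t)) * τ) t :=
      (psi_hasDerivAt_E (τ * t)).comp t h0'
    refine (((hasDerivAt_pow 3 t).mul h1).mul h2).congr_deriv ?_
    have h3 := j2_eq (v * t)
    have h4 : Real.sinc (v * t) = Xz (v * t) - (v * t) ^ 2 / 15 * Yz (v * t) := by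
      unfold j2 at h3
      linarith
    rw [h4]
    simp
    ring
  have hc3 : Continuous (fun t => 3 * (t ^ 2 * E (τ * t) * Real.sinc (v * t))) := by fun_prop
  have hc4 : Continuous (fun t => τ ^ 2 * (t ^ 4 * E (τ * t) * Xz (v * t))) := by fun_prop
  have h := intervalIntegral.integral_eq_sub_of_hasDerivAt hd
    ((hc3.sub hc4).intervalIntegrable _ _)
  rw [intervalIntegral.integral_sub (hc3.intervalIntegrable _ _)
    (hc4.intervalIntegrable _ _), intervalIntegral.integral_const_mul,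
    intervalIntegral.integral_const_mul] at h
  simp only [one_pow, mul_one, one_mul, ne_eq, OfNat.ofNat_ne_zero, not_false_eq_true, zero_pow,
    zero_mul, sub_zero] at h
  have e1 : Nm τ 2 * Xn τ v = ∫ ξ in (0 : ℝ)..1, ξ ^ 2 * E (τ * ξ) * Real.sinc (v * ξ) := by
    unfold Xn
    rw [mul_div_cancel₀ _ (Nm_pos τ 2).ne']
  have e2 : Nm τ 4 * Xt τ v = ∫ ξ in (0 : ℝ)..1, ξ ^ 4 * E (τ * ξ) * Xz (v * ξ) := by
    unfold Xt
    rw [mul_div_cancel₀ _ (Nm_pos τ 4).ne']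
  rw [e1, e2]
  linarith

theorem Xn_le_Xt {τ v : ℝ} (h0 : 0 ≤ v) (h1 : v ≤ 44 / 10) : Xn τ v ≤ Xt τ v := by
  have h := cs2_parts τ v
  have h2 := mom (τ := τ)
  have h3 := cs2_Xt_ge (τ := τ) h0 h1
  have h4 := Nm_pos τ 2
  have h5 := E_pos τ
  have h6 : 0 ≤ E τ * (Xt τ v - Xz v) := mul_nonneg h5.le (by linarith)
  have h7 : 0 ≤ Nm τ 2 * (Xt τ v - Xn τ v) := by
    have : 3 * (Nm τ 2 * (Xt τ v - Xn τ v)) = E τ * (Xt τ v - Xz v) := by
      have h8 : 3 * Nm τ 2 * Xt τ v = (E τ + τ ^ 2 * Nm τ 4) * Xt τ v := by rw [h2]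
      linear_combination h8 - h
    linarith
  have h8 := nonneg_of_mul_nonneg_right h7 h4
  linarith

theorem Xn_nonneg {τ v : ℝ} (h0 : 0 ≤ v) (h1 : v ≤ 44 / 10) : 0 ≤ Xn τ v := by
  have h := cs2_parts τ v
  have h3 := cs2_Xt_ge (τ := τ) h0 h1
  have h4 := Nm_pos τ 2
  have h5 := E_pos τ
  have h6 := Xz_nonneg h0 h1
  have h7 := Nm_pos τ 4
  have h8 : 0 ≤ Xt τ v := h6.trans h3
  have h9 : 0 ≤ Nm τ 2 * Xn τ v := by
    have : 0 ≤ E τ * Xz v + τ ^ 2 * (Nm τ 4 * Xt τ v) := by positivity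
    linarith
  exact nonneg_of_mul_nonneg_right h9 h4

/-- `Xn > 0` on `[0, π]` -/
theorem Xn_pos {τ v : ℝ} (h0 : 0 ≤ v) (h1 : v ≤ π) : 0 < Xn τ v := by
  have hE := cs2_E_comp τ
  have hs := Real.continuous_sinc
  unfold Xn
  apply div_pos _ (Nm_pos τ 2)
  apply intervalIntegral.intervalIntegral_pos_of_pos_on
  · have : Continuous (fun ξ => ξ ^ 2 * E (τ * ξ) * Real.sinc (v * ξ)) := by fun_prop
    exact this.intervalIntegrable _ _
  · intro t ht
    have h2 : v * t < π := by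
      rcases h0.eq_or_lt with h | h
      · rw [← h]
        simpa using Real.pi_pos
      · calc v * t < v * 1 := by
              apply mul_lt_mul_of_pos_left ht.2 h
          _ ≤ π := by linarith
    have h3 := sinc_pos (mul_nonneg h0 ht.1.le) h2
    have h4 := E_pos (τ * t)
    have h5 := ht.1
    positivity
  · norm_num

theorem Xn_anti {τ : ℝ} : AntitoneOn (Xn τ) (Icc 0 (44 / 10)) := by
  apply antitoneOn_of_deriv_nonpos (convex_Icc _ _) (Xn_cont τ).continuousOn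
  · intro x _
    exact (hasDerivAt_Xn x).differentiableAt.differentiableWithinAt
  · intro x hx
    rw [interior_Icc] at hx
    rw [(hasDerivAt_Xn x).deriv]
    have h1 := Xz_nonneg hx.1.le hx.2.le
    have h2 := cs2_Xt_ge (τ := τ) hx.1.le hx.2.le
    have h3 := mu_pos τ
    have h4 := hx.1
    have h5 : 0 ≤ Xt τ x := h1.trans h2
    have : 0 ≤ mu τ * x / 3 * Xt τ x := by positivity
    linarith

lemma cs2_exp_deriv (c v : ℝ) : HasDerivAt (fun v => Real.exp (c * v ^ 2)) (Real.exp (c * v ^ 2) * (2 * c * v)) v := by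
  have h : HasDerivAt (fun v => c * v ^ 2) (2 * c * v) v :=
    ((hasDerivAt_pow 2 v).const_mul c).congr_deriv (by simp; ring)
  exact h.exp

theorem Xn_exp {τ v : ℝ} (h0 : 0 ≤ v) (h1 : v ≤ 44 / 10) :
    Xn τ v ≤ Real.exp (-(mu τ * v ^ 2 / 6)) := by
  have hd : ∀ x, HasDerivAt (fun x => Xn τ x * Real.exp (mu τ / 6 * x ^ 2))
      (mu τ * x / 3 * Real.exp (mu τ / 6 * x ^ 2) * (Xn τ x - Xt τ x)) x := by
    intro x
    refine ((hasDerivAt_Xn x).mul (cs2_exp_deriv (mu τ / 6) x)).congr_deriv ?_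
    ring
  have ha : AntitoneOn (fun x => Xn τ x * Real.exp (mu τ / 6 * x ^ 2)) (Icc 0 (44 / 10)) := by
    apply antitoneOn_of_deriv_nonpos (convex_Icc _ _)
    · intro x _
      exact (hd x).continuousAt.continuousWithinAt
    · intro x _
      exact (hd x).differentiableAt.differentiableWithinAt
    · intro x hx
      rw [interior_Icc] at hx
      rw [(hd x).deriv]
      have h2 := Xn_le_Xt (τ := τ) hx.1.le hx.2.le
      have h3 := mu_pos τ
      have h4 := hx.1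
      have h5 := Real.exp_pos (mu τ / 6 * x ^ 2)
      exact mul_nonpos_of_nonneg_of_nonpos (by positivity) (by linarith)
  have h2 := ha (a := 0) (b := v) ⟨le_rfl, by norm_num⟩ ⟨h0, h1⟩ h0
  simp only [Xn_zero] at h2
  have h3 : Xn τ v * Real.exp (mu τ / 6 * v ^ 2) ≤ 1 := by simpa using h2
  rw [Real.exp_neg, ← one_div, le_div_iff₀ (Real.exp_pos _)]
  refine le_trans (le_of_eq ?_) h3
  congr 2
  ring

theorem Pn_pos {τ v : ℝ} (hτ : 0 < τ) (h0 : 0 ≤ v) (h1 : v ≤ π) : 0 < Pn τ v := by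
  rw [Pn_eq hτ]
  have h2 := sinc_nonneg h0 h1
  have h3 := Xn_pos (τ := τ) h0 h1
  have h4 := hn_pos τ
  have h5 := sg_pos hτ
  positivity

theorem Pn_anti {τ : ℝ} (hτ : 0 < τ) : AntitoneOn (Pn τ) (Icc 0 (44 / 10)) := by
  apply antitoneOn_of_deriv_nonpos (convex_Icc _ _) (Pn_cont τ).continuousOn
  · intro x _
    exact (hasDerivAt_Pn hτ x).differentiableAt.differentiableWithinAt
  · intro x hx
    rw [interior_Icc] at hx
    rw [(hasDerivAt_Pn hτ x).deriv]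
    have h1 := Xn_nonneg (τ := τ) hx.1.le hx.2.le
    have h3 := m2_pos τ
    have h4 := hx.1
    have : 0 ≤ m2 τ * x * Xn τ x := by positivity
    linarith

theorem Pn_exp_anti {τ : ℝ} (hτ : 0 < τ) :
    AntitoneOn (fun v => Pn τ v * Real.exp (m2 τ * v ^ 2 / 2)) (Icc 0 π) := by
  have hp2 := Real.pi_lt_d2
  have e : ∀ v : ℝ, m2 τ * v ^ 2 / 2 = m2 τ / 2 * v ^ 2 := by
    intro v
    ring
  simp_rw [e]
  have hd : ∀ x, HasDerivAt (fun x => Pn τ x * Real.exp (m2 τ / 2 * x ^ 2))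
      (m2 τ * x * Real.exp (m2 τ / 2 * x ^ 2) * (Pn τ x - Xn τ x)) x := by
    intro x
    refine ((hasDerivAt_Pn hτ x).mul (cs2_exp_deriv (m2 τ / 2) x)).congr_deriv ?_
    ring
  apply antitoneOn_of_deriv_nonpos (convex_Icc _ _)
  · intro x _
    exact (hd x).continuousAt.continuousWithinAt
  · intro x _
    exact (hd x).differentiableAt.differentiableWithinAt
  · intro x hx
    rw [interior_Icc] at hx
    rw [(hd x).deriv]
    have h2 := Xn_ge_sinc (τ := τ) hx.1.le (by linarith [hx.2])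
    have h3 := m2_pos τ
    have h4 := hx.1
    have h5 := Real.exp_pos (m2 τ / 2 * x ^ 2)
    have h6 := hn_pos τ
    have h7 : Pn τ x - Xn τ x = hn τ * (Real.sinc x - Xn τ x) := by
      rw [Pn_eq hτ]
      unfold sg
      ring
    rw [h7]
    apply mul_nonpos_of_nonneg_of_nonpos (by positivity)
    exact mul_nonpos_of_nonneg_of_nonpos h6.le (by linarith)

end GCube
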