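import Pool.Agent.Lib.H83.CFCheck

/-!
Tables of Fourier blocks. `r1_i`: `Q ≤ q_B`; `r2_i`: `Q = 0.32`.
-/

namespace GCube

namespace CF

def t1_0 : Tb :=
  ⟨620/1000, 650/1000, 86693/100000, 87832/100000, 58538/100000, 58672/100000,
    31494/100000, 277447/100000, 170797/100000, 181050/100000, 75452/100000⟩
def b1_0_0 : Bk := ⟨0/1000, 230/1000, 28, true, 29/10, false, 0⟩
def b1_0_1 : Bk := ⟨230/1000, 310/1000, 15, false, 27/10, false, 124⟩
def b1_0_2 : Bk := ⟨310/1000, 430/1000, 8, false, 27/10, false, 92⟩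
def b1_0_3 : Bk := ⟨430/1000, 570/1000, 4, false, 27/10, false, 68⟩
def b1_0_4 : Bk := ⟨570/1000, 690/1000, 3, false, 27/10, true, 64⟩
def b1_0_5 : Bk := ⟨690/1000, 740/1000, 2, false, 28/10, true, 72⟩
def b1_0_6 : Bk := ⟨740/1000, 780/1000, 2, false, 28/10, true, 64⟩
def b1_0_7 : Bk := ⟨780/1000, 805/1000, 2, false, 29/10, true, 64⟩
def b1_0_8 : Bk := ⟨805/1000, 820/1000, 2, false, 29/10, true, 64⟩
def b1_0_9 : Bk := ⟨820/1000, 830/1000, 2, false, 30/10, true, 64⟩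
def b1_0_10 : Bk := ⟨830/1000, 836/1000, 2, false, 30/10, true, 64⟩
def b1_0_11 : Bk := ⟨836/1000, 838/1000, 2, false, 30/10, true, 64⟩
def r1_0 : Tb × ℚ × List Bk :=
  (t1_0, 838/1000,
    [b1_0_0, b1_0_1, b1_0_2, b1_0_3, b1_0_4, b1_0_5, b1_0_6, b1_0_7, b1_0_8, b1_0_9, b1_0_10, b1_0_11])

def t1_1 : Tb :=
  ⟨650/1000, 730/1000, 83465/100000, 86694/100000, 58152/100000, 58539/100000,
    31026/100000, 275268/100000, 158968/100000, 225491/100000, 70098/100000⟩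
def b1_1_0 : Bk := ⟨0/1000, 230/1000, 26, true, 29/10, false, 0⟩
def b1_1_1 : Bk := ⟨230/1000, 310/1000, 14, false, 27/10, false, 124⟩
def b1_1_2 : Bk := ⟨310/1000, 430/1000, 7, false, 27/10, false, 92⟩
def b1_1_3 : Bk := ⟨430/1000, 550/1000, 4, false, 27/10, false, 68⟩
def b1_1_4 : Bk := ⟨550/1000, 640/1000, 3, false, 27/10, false, 64⟩
def b1_1_5 : Bk := ⟨640/1000, 685/1000, 2, false, 27/10, true, 64⟩
def b1_1_6 : Bk := ⟨685/1000, 730/1000, 2, false, 28/10, true, 64⟩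
def b1_1_7 : Bk := ⟨730/1000, 765/1000, 2, false, 28/10, true, 64⟩
def b1_1_8 : Bk := ⟨765/1000, 790/1000, 2, false, 28/10, true, 64⟩
def b1_1_9 : Bk := ⟨790/1000, 805/1000, 2, false, 29/10, true, 64⟩
def b1_1_10 : Bk := ⟨805/1000, 815/1000, 2, false, 29/10, true, 64⟩
def b1_1_11 : Bk := ⟨815/1000, 821/1000, 2, false, 30/10, true, 64⟩
def b1_1_12 : Bk := ⟨821/1000, 824/1000, 2, false, 30/10, true, 64⟩
def r1_1 : Tb × ℚ × List Bk :=
  (t1_1, 824/1000,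
    [b1_1_0, b1_1_1, b1_1_2, b1_1_3, b1_1_4, b1_1_5, b1_1_6, b1_1_7, b1_1_8, b1_1_9, b1_1_10, b1_1_11,
      b1_1_12])

def t1_2 : Tb :=
  ⟨730/1000, 880/1000, 76749/100000, 83466/100000, 57303/100000, 58153/100000,
    30024/100000, 269011/100000, 125656/100000, 318828/100000, 59674/100000⟩
def b1_2_0 : Bk := ⟨0/1000, 230/1000, 22, true, 29/10, false, 0⟩
def b1_2_1 : Bk := ⟨230/1000, 310/1000, 12, false, 27/10, false, 124⟩
def b1_2_2 : Bk := ⟨310/1000, 430/1000, 6, false, 27/10, false, 92⟩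
def b1_2_3 : Bk := ⟨430/1000, 510/1000, 4, false, 27/10, false, 68⟩
def b1_2_4 : Bk := ⟨510/1000, 560/1000, 3, false, 27/10, false, 64⟩
def b1_2_5 : Bk := ⟨560/1000, 630/1000, 3, false, 27/10, false, 64⟩
def b1_2_6 : Bk := ⟨630/1000, 655/1000, 2, false, 27/10, true, 64⟩
def b1_2_7 : Bk := ⟨655/1000, 685/1000, 2, false, 27/10, true, 64⟩
def b1_2_8 : Bk := ⟨685/1000, 715/1000, 2, false, 27/10, true, 64⟩
def b1_2_9 : Bk := ⟨715/1000, 745/1000, 2, false, 28/10, true, 64⟩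
def b1_2_10 : Bk := ⟨745/1000, 765/1000, 2, false, 29/10, true, 64⟩
def b1_2_11 : Bk := ⟨765/1000, 780/1000, 2, false, 30/10, true, 64⟩
def b1_2_12 : Bk := ⟨780/1000, 789/1000, 2, false, 28/10, true, 64⟩
def r1_2 : Tb × ℚ × List Bk :=
  (t1_2, 789/1000,
    [b1_2_0, b1_2_1, b1_2_2, b1_2_3, b1_2_4, b1_2_5, b1_2_6, b1_2_7, b1_2_8, b1_2_9, b1_2_10, b1_2_11,
      b1_2_12])

def t1_3 : Tb :=
  ⟨880/1000, 1000/1000, 70887/100000, 76750/100000, 56504/100000, 57304/100000,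
    29112/100000, 255625/100000, 57670/100000, 401456/100000, 51341/100000⟩
def b1_3_0 : Bk := ⟨0/1000, 230/1000, 19, true, 29/10, false, 0⟩
def b1_3_1 : Bk := ⟨230/1000, 310/1000, 10, false, 27/10, false, 124⟩
def b1_3_2 : Bk := ⟨310/1000, 430/1000, 5, false, 27/10, false, 92⟩
def b1_3_3 : Bk := ⟨430/1000, 510/1000, 3, false, 27/10, false, 68⟩
def b1_3_4 : Bk := ⟨510/1000, 580/1000, 3, false, 27/10, false, 64⟩
def b1_3_5 : Bk := ⟨580/1000, 610/1000, 2, false, 27/10, true, 84⟩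
def b1_3_6 : Bk := ⟨610/1000, 650/1000, 2, false, 27/10, true, 64⟩
def b1_3_7 : Bk := ⟨650/1000, 695/1000, 2, false, 28/10, true, 64⟩
def b1_3_8 : Bk := ⟨695/1000, 721/1000, 2, false, 29/10, true, 64⟩
def r1_3 : Tb × ℚ × List Bk :=
  (t1_3, 721/1000,
    [b1_3_0, b1_3_1, b1_3_2, b1_3_3, b1_3_4, b1_3_5, b1_3_6, b1_3_7, b1_3_8])

def t1_4 : Tb :=
  ⟨1000/1000, 1100/1000, 65773/100000, 70888/100000, 55757/100000, 56506/100000,
    28285/100000, 243496/100000, 51135/100000, 474660/100000, 44634/100000⟩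
def b1_4_0 : Bk := ⟨0/1000, 230/1000, 16, true, 29/10, false, 0⟩
def b1_4_1 : Bk := ⟨230/1000, 310/1000, 9, false, 27/10, false, 124⟩
def b1_4_2 : Bk := ⟨310/1000, 430/1000, 4, false, 27/10, false, 92⟩
def b1_4_3 : Bk := ⟨430/1000, 500/1000, 3, false, 27/10, false, 68⟩
def b1_4_4 : Bk := ⟨500/1000, 545/1000, 3, false, 27/10, false, 64⟩
def b1_4_5 : Bk := ⟨545/1000, 580/1000, 2, false, 27/10, false, 64⟩
def b1_4_6 : Bk := ⟨580/1000, 625/1000, 2, false, 27/10, false, 64⟩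
def b1_4_7 : Bk := ⟨625/1000, 669/1000, 2, false, 28/10, true, 80⟩
def r1_4 : Tb × ℚ × List Bk :=
  (t1_4, 669/1000,
    [b1_4_0, b1_4_1, b1_4_2, b1_4_3, b1_4_4, b1_4_5, b1_4_6, b1_4_7])

def t1_5 : Tb :=
  ⟨1100/1000, 1250/1000, 57895/100000, 65775/100000, 54495/100000, 55758/100000,
    26946/100000, 232534/100000, 130801/100000, 590133/100000, 35286/100000⟩
def b1_5_0 : Bk := ⟨0/1000, 230/1000, 13, true, 29/10, false, 0⟩
def b1_5_1 : Bk := ⟨230/1000, 310/1000, 7, false, 27/10, false, 124⟩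
def b1_5_2 : Bk := ⟨310/1000, 390/1000, 4, false, 27/10, false, 92⟩
def b1_5_3 : Bk := ⟨390/1000, 440/1000, 3, false, 30/10, false, 100⟩
def b1_5_4 : Bk := ⟨440/1000, 485/1000, 3, false, 27/10, false, 64⟩
def b1_5_5 : Bk := ⟨485/1000, 495/1000, 2, false, 30/10, false, 100⟩
def b1_5_6 : Bk := ⟨495/1000, 510/1000, 2, false, 27/10, false, 100⟩
def b1_5_7 : Bk := ⟨510/1000, 530/1000, 2, false, 27/10, false, 96⟩
def b1_5_8 : Bk := ⟨530/1000, 555/1000, 2, false, 27/10, false, 64⟩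
def b1_5_9 : Bk := ⟨555/1000, 585/1000, 2, false, 27/10, false, 64⟩
def b1_5_10 : Bk := ⟨585/1000, 625/1000, 2, false, 27/10, false, 64⟩
def b1_5_11 : Bk := ⟨625/1000, 629/1000, 2, false, 28/10, false, 64⟩
def r1_5 : Tb × ℚ × List Bk :=
  (t1_5, 629/1000,
    [b1_5_0, b1_5_1, b1_5_2, b1_5_3, b1_5_4, b1_5_5, b1_5_6, b1_5_7, b1_5_8, b1_5_9, b1_5_10, b1_5_11])

def t1_6 : Tb :=
  ⟨1250/1000, 1400/1000, 49999/100000, 57896/100000, 53064/100000, 54496/100000,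
    25510/100000, 214852/100000, 206259/100000, 710372/100000, 27071/100000⟩
def b1_6_0 : Bk := ⟨0/1000, 230/1000, 10, true, 29/10, false, 0⟩
def b1_6_1 : Bk := ⟨230/1000, 310/1000, 5, false, 27/10, false, 124⟩
def b1_6_2 : Bk := ⟨310/1000, 370/1000, 3, false, 27/10, false, 92⟩
def b1_6_3 : Bk := ⟨370/1000, 420/1000, 3, false, 29/10, false, 76⟩
def b1_6_4 : Bk := ⟨420/1000, 435/1000, 2, false, 30/10, false, 92⟩
def b1_6_5 : Bk := ⟨435/1000, 455/1000, 2, false, 29/10, false, 88⟩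
def b1_6_6 : Bk := ⟨455/1000, 480/1000, 2, false, 30/10, false, 108⟩
def b1_6_7 : Bk := ⟨480/1000, 505/1000, 2, false, 27/10, false, 100⟩
def b1_6_8 : Bk := ⟨505/1000, 535/1000, 2, false, 27/10, false, 96⟩
def b1_6_9 : Bk := ⟨535/1000, 573/1000, 2, false, 27/10, false, 64⟩
def r1_6 : Tb × ℚ × List Bk :=
  (t1_6, 573/1000,
    [b1_6_0, b1_6_1, b1_6_2, b1_6_3, b1_6_4, b1_6_5, b1_6_6, b1_6_7, b1_6_8, b1_6_9])

def t1_7 : Tb :=
  ⟨1400/1000, 1520/1000, 43835/100000, 50000/100000, 51799/100000, 53065/100000,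
    24309/100000, 195995/100000, 256833/100000, 808756/100000, 21432/100000⟩
def b1_7_0 : Bk := ⟨0/1000, 230/1000, 8, true, 29/10, false, 0⟩
def b1_7_1 : Bk := ⟨230/1000, 300/1000, 4, false, 27/10, false, 124⟩
def b1_7_2 : Bk := ⟨300/1000, 350/1000, 3, false, 27/10, false, 96⟩
def b1_7_3 : Bk := ⟨350/1000, 380/1000, 2, false, 27/10, false, 84⟩
def b1_7_4 : Bk := ⟨380/1000, 410/1000, 2, false, 28/10, false, 128⟩
def b1_7_5 : Bk := ⟨410/1000, 450/1000, 2, false, 29/10, false, 96⟩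
def b1_7_6 : Bk := ⟨450/1000, 490/1000, 2, false, 29/10, false, 108⟩
def b1_7_7 : Bk := ⟨490/1000, 523/1000, 2, false, 27/10, false, 64⟩
def r1_7 : Tb × ℚ × List Bk :=
  (t1_7, 523/1000,
    [b1_7_0, b1_7_1, b1_7_2, b1_7_3, b1_7_4, b1_7_5, b1_7_6, b1_7_7])

def t1_8 : Tb :=
  ⟨1520/1000, 1620/1000, 38892/100000, 43836/100000, 50666/100000, 51800/100000,
    23284/100000, 180323/100000, 292917/100000, 891736/100000, 17384/100000⟩
def b1_8_0 : Bk := ⟨0/1000, 230/1000, 6, true, 29/10, false, 0⟩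
def b1_8_1 : Bk := ⟨230/1000, 290/1000, 4, false, 27/10, false, 124⟩
def b1_8_2 : Bk := ⟨290/1000, 340/1000, 3, false, 27/10, false, 100⟩
def b1_8_3 : Bk := ⟨340/1000, 370/1000, 2, false, 27/10, false, 84⟩
def b1_8_4 : Bk := ⟨370/1000, 415/1000, 2, false, 28/10, false, 132⟩
def b1_8_5 : Bk := ⟨415/1000, 465/1000, 2, false, 29/10, false, 96⟩
def b1_8_6 : Bk := ⟨465/1000, 487/1000, 2, false, 30/10, false, 104⟩
def r1_8 : Tb × ℚ × List Bk :=
  (t1_8, 487/1000,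
    [b1_8_0, b1_8_1, b1_8_2, b1_8_3, b1_8_4, b1_8_5, b1_8_6])

def t1_9 : Tb :=
  ⟨1620/1000, 1720/1000, 34185/100000, 38893/100000, 49463/100000, 50667/100000,
    22246/100000, 167032/100000, 327116/100000, 975454/100000, 13913/100000⟩
def b1_9_0 : Bk := ⟨0/1000, 200/1000, 6, true, 29/10, false, 0⟩
def b1_9_1 : Bk := ⟨200/1000, 260/1000, 4, false, 27/10, false, 144⟩
def b1_9_2 : Bk := ⟨260/1000, 300/1000, 3, false, 30/10, false, 188⟩
def b1_9_3 : Bk := ⟨300/1000, 315/1000, 2, false, 27/10, false, 96⟩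
def b1_9_4 : Bk := ⟨315/1000, 345/1000, 2, false, 27/10, false, 92⟩
def b1_9_5 : Bk := ⟨345/1000, 395/1000, 2, false, 28/10, false, 112⟩
def b1_9_6 : Bk := ⟨395/1000, 455/1000, 2, false, 29/10, false, 100⟩
def b1_9_7 : Bk := ⟨455/1000, 460/1000, 2, false, 29/10, false, 84⟩
def r1_9 : Tb × ℚ × List Bk :=
  (t1_9, 460/1000,
    [b1_9_0, b1_9_1, b1_9_2, b1_9_3, b1_9_4, b1_9_5, b1_9_6, b1_9_7])

def t1_10 : Tb :=
  ⟨1720/1000, 1800/1000, 30622/100000, 34186/100000, 48453/100000, 49464/100000,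
    21412/100000, 153668/100000, 344217/100000, 1373031/100000, 11532/100000⟩
def b1_10_0 : Bk := ⟨0/1000, 160/1000, 9, true, 29/10, false, 0⟩
def b1_10_1 : Bk := ⟨160/1000, 210/1000, 5, true, 29/10, false, 0⟩
def b1_10_2 : Bk := ⟨210/1000, 255/1000, 3, false, 27/10, false, 136⟩
def b1_10_3 : Bk := ⟨255/1000, 275/1000, 3, false, 27/10, false, 112⟩
def b1_10_4 : Bk := ⟨275/1000, 290/1000, 2, false, 28/10, false, 140⟩
def b1_10_5 : Bk := ⟨290/1000, 310/1000, 2, false, 30/10, false, 132⟩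
def b1_10_6 : Bk := ⟨310/1000, 350/1000, 2, false, 27/10, false, 92⟩
def b1_10_7 : Bk := ⟨350/1000, 410/1000, 2, false, 28/10, false, 84⟩
def b1_10_8 : Bk := ⟨410/1000, 435/1000, 2, false, 30/10, false, 72⟩
def r1_10 : Tb × ℚ × List Bk :=
  (t1_10, 435/1000,
    [b1_10_0, b1_10_1, b1_10_2, b1_10_3, b1_10_4, b1_10_5, b1_10_6, b1_10_7, b1_10_8])

def t2_0 : Tb :=
  ⟨1800/1000, 2200/1000, 16055/100000, 30623/100000, 42857/100000, 48454/100000,
    17343/100000, 143012/100000, 549167/100000, 1977955/100000, 32/100⟩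
def b2_0_0 : Bk := ⟨0/1000, 230/1000, 12, true, 29/10, false, 0⟩
def b2_0_1 : Bk := ⟨230/1000, 310/1000, 6, false, 27/10, false, 124⟩
def b2_0_2 : Bk := ⟨310/1000, 390/1000, 4, false, 28/10, false, 92⟩
def b2_0_3 : Bk := ⟨390/1000, 417/1000, 3, false, 28/10, false, 72⟩
def r2_0 : Tb × ℚ × List Bk :=
  (t2_0, 417/1000,
    [b2_0_0, b2_0_1, b2_0_2, b2_0_3])

def t2_1 : Tb :=
  ⟨2200/1000, 2600/1000, 7129/100000, 16056/100000, 36701/100000, 42858/100000,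
    13738/100000, 92571/100000, 533210/100000, 2896040/100000, 32/100⟩
def b2_1_0 : Bk := ⟨0/1000, 230/1000, 12, true, 29/10, false, 0⟩
def b2_1_1 : Bk := ⟨230/1000, 310/1000, 6, false, 27/10, false, 124⟩
def b2_1_2 : Bk := ⟨310/1000, 344/1000, 5, false, 27/10, false, 92⟩
def r2_1 : Tb × ℚ × List Bk :=
  (t2_1, 344/1000,
    [b2_1_0, b2_1_1, b2_1_2])

def t2_2 : Tb :=
  ⟨2600/1000, 3000/1000, 2666/100000, 7130/100000, 30593/100000, 36702/100000,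
    10814/100000, 51897/100000, 415177/100000, 4216662/100000, 32/100⟩
def b2_2_0 : Bk := ⟨0/1000, 230/1000, 12, true, 29/10, false, 0⟩
def b2_2_1 : Bk := ⟨230/1000, 292/1000, 7, false, 27/10, false, 124⟩
def r2_2 : Tb × ℚ × List Bk :=
  (t2_2, 292/1000,
    [b2_2_0, b2_2_1])

def t2_3 : Tb :=
  ⟨3000/1000, 3400/1000, 838/100000, 2667/100000, 25105/100000, 30595/100000,
    8577/100000, 24655/100000, 260357/100000, 6012851/100000, 32/100⟩
def b2_3_0 : Bk := ⟨0/1000, 230/1000, 12, true, 29/10, false, 0⟩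
def b2_3_1 : Bk := ⟨230/1000, 254/1000, 9, false, 27/10, false, 124⟩
def r2_3 : Tb × ℚ × List Bk :=
  (t2_3, 254/1000,
    [b2_3_0, b2_3_1])

def t2_4 : Tb :=
  ⟨3400/1000, 3600/1000, 440/100000, 839/100000, 22705/100000, 25107/100000,
    7681/100000, 9775/100000, 116910/100000, 7106538/100000, 32/100⟩
def b2_4_0 : Bk := ⟨0/1000, 225/1000, 12, true, 29/10, false, 0⟩
def r2_4 : Tb × ℚ × List Bk :=
  (t2_4, 225/1000,
    [b2_4_0])

end CF

end GCube
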