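import Pool.Agent.Lib.H83.CFTailA

/-!
Chunk TB: the tail of kind B (see `CFTail.lean`).
-/

open MeasureTheory Set
open scoped Real

namespace GCube

open CF

variable {T : CF.Tb} {b : CF.Bk} {τ y : ℝ} {k : ℕ}

theorem TB_snL : ∀ j < 29, 0 < snL (((j : ℕ) + 1 : ℚ) / 10) := by
  decide +kernel

theorem TB_foldr {l : List ℚ} {a : ℚ} (h : a ∈ l) : a ≤ l.foldr max 0 := by
  induction l with
  | nil => simp at h
  | cons c l ih =>
    rw [List.foldr_cons]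
    rcases List.mem_cons.1 h with rfl | h
    · exact le_max_left _ _
    · exact (ih h).trans (le_max_right _ _)

theorem TB_foldr0 (l : List ℚ) : 0 ≤ l.foldr max 0 := by
  induction l with
  | nil => simp
  | cons c l ih =>
    rw [List.foldr_cons]
    exact ih.trans (le_max_right _ _)

theorem TB_CPS0 (T : CF.Tb) : 0 ≤ CPS T := TB_foldr0 _

theorem TB_cps (h : TOk T τ) {u : ℝ} (h0 : 0 ≤ u) (h1 : u ≤ 29 / 10) :
    Pn τ u ^ 2 ≤ ((CPS T : ℚ) : ℝ) * Real.sinc u := by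
  have hπ : (3.1415 : ℝ) < π := Real.pi_gt_d4
  obtain ⟨j, hj, hj1, hj2⟩ : ∃ j : ℕ, j < 29 ∧ ((j : ℕ) : ℝ) / 10 ≤ u ∧ u ≤ ((j : ℝ) + 1) / 10 := by
    by_cases hc : u < 29 / 10
    · refine ⟨⌊u * 10⌋₊, ?_, ?_, ?_⟩
      · rw [Nat.floor_lt (by positivity)]
        push_cast
        linarith
      · have := Nat.floor_le (a := u * 10) (by positivity)
        linarith
      · have := Nat.lt_floor_add_one (u * 10)
        linarith
    · refine ⟨28, by norm_num, ?_, ?_⟩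
      · push_cast
        linarith
      · push_cast
        linarith
  have hj' : ((j : ℝ) + 1) / 10 ≤ 29 / 10 := by
    have : ((j : ℕ) : ℝ) + 1 ≤ 29 := by exact_mod_cast hj
    linarith
  have hP : Pn τ u ≤ ((Pup T ((j : ℚ) / 10) : ℚ) : ℝ) :=
    le_Pup h (by positivity) (by push_cast; exact hj1) (by linarith)
  have hP0 : 0 < Pn τ u := Pn_pos h.τpos h0 (by linarith)
  have hsn := TB_snL j hj
  have hsn' : (0 : ℝ) < ((snL (((j : ℕ) + 1 : ℚ) / 10) : ℚ) : ℝ) := by exact_mod_cast hsn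
  have hs1 : ((snL (((j : ℕ) + 1 : ℚ) / 10) : ℚ) : ℝ) ≤ Real.sinc u := by
    have h2 := snL_le (u := ((j : ℕ) + 1 : ℚ) / 10) (by positivity)
    refine h2.trans ?_
    push_cast
    exact sinc_anti ⟨h0, by linarith⟩ ⟨by positivity, by linarith⟩ hj2
  have hmem : Pup T ((j : ℚ) / 10) ^ 2 / snL (((j : ℚ) + 1) / 10) ≤ CPS T := by
    refine TB_foldr ?_
    rw [List.mem_map]
    refine ⟨(j : ℚ), ?_, rfl⟩
    simp only [List.bind_eq_flatMap, List.mem_flatMap, List.mem_range]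
    exact ⟨j, hj, by simp⟩
  have hmem' : ((Pup T ((j : ℚ) / 10) : ℚ) : ℝ) ^ 2 / ((snL (((j : ℚ) + 1) / 10) : ℚ) : ℝ) ≤
      ((CPS T : ℚ) : ℝ) := by exact_mod_cast hmem
  have hC0 : (0 : ℝ) ≤ ((CPS T : ℚ) : ℝ) := by exact_mod_cast TB_CPS0 T
  rw [div_le_iff₀ hsn'] at hmem'
  calc Pn τ u ^ 2 ≤ ((Pup T ((j : ℚ) / 10) : ℚ) : ℝ) ^ 2 := pow_le_pow_left₀ hP0.le hP 2
    _ ≤ ((CPS T : ℚ) : ℝ) * ((snL (((j : ℚ) + 1) / 10) : ℚ) : ℝ) := hmem'
    _ ≤ ((CPS T : ℚ) : ℝ) * Real.sinc u := mul_le_mul_of_nonneg_left hs1 hC0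

theorem TB_pow {pm rl ρ sq Q : ℝ} {K : ℕ} (hpm : 0 ≤ pm) (hl : 0 < rl) (hρ : rl ≤ ρ)
    (hr : (pm / rl) ^ 2 * (K + 2) ≤ K + 1) (hsq0 : 0 ≤ sq) (hsq : (K : ℝ) + 1 ≤ sq ^ 2 * (2 * Q))
    (hQ : 2 * Q ≤ (k + 1) * y ^ 2) (hy : 0 < y) (hK : 2 ≤ K) (hk : K ≤ k) :
    1 / y * pm ^ (k - 2) ≤ sq * (pm / rl) ^ (K - 2) * (ρ ^ k / rl ^ 2) := by
  set r : ℝ := pm / rl with hrdef
  have hr0 : 0 ≤ r := div_nonneg hpm hl.le
  have hKR : (0 : ℝ) ≤ (K : ℝ) := Nat.cast_nonneg K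
  have hQ0 : 0 < 2 * Q := by
    by_contra hc
    push Not at hc
    have := mul_nonpos_of_nonneg_of_nonpos (sq_nonneg sq) hc
    linarith
  have key : ∀ n : ℕ, ((K + n : ℕ) + 1 : ℝ) * (r ^ (K + n - 2)) ^ 2 ≤ ((K : ℝ) + 1) * (r ^ (K - 2)) ^ 2 := by
    intro n
    induction n with
    | zero => simp
    | succ n ih =>
      refine le_trans ?_ ih
      have e : K + (n + 1) - 2 = (K + n - 2) + 1 := by omega
      rw [e, pow_succ r, mul_pow]
      have h1 : r ^ 2 * (K + 2 + n) ≤ K + 1 + n := by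
        have hr1 : r ^ 2 ≤ 1 := by
          by_contra hc
          push Not at hc
          nlinarith
        have : r ^ 2 * n ≤ 1 * n := mul_le_mul_of_nonneg_right hr1 (Nat.cast_nonneg n)
        nlinarith
      have h2 : 0 ≤ (r ^ (K + n - 2)) ^ 2 := sq_nonneg _
      push_cast
      have h3 := mul_le_mul_of_nonneg_right h1 h2
      linarith
  obtain ⟨n, rfl⟩ := Nat.exists_eq_add_of_le hk
  have hkey := key n
  have hQy : 1 / y ^ 2 ≤ (((K + n : ℕ) : ℝ) + 1) / (2 * Q) := by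
    rw [div_le_div_iff₀ (by positivity) hQ0]
    linarith
  have hsqr : (1 / y * r ^ (K + n - 2)) ^ 2 ≤ (sq * r ^ (K - 2)) ^ 2 := by
    have h4 : 0 ≤ (r ^ (K + n - 2)) ^ 2 := sq_nonneg _
    calc (1 / y * r ^ (K + n - 2)) ^ 2 = 1 / y ^ 2 * (r ^ (K + n - 2)) ^ 2 := by
          rw [mul_pow]; congr 1; rw [div_pow, one_pow]
      _ ≤ (((K + n : ℕ) : ℝ) + 1) / (2 * Q) * (r ^ (K + n - 2)) ^ 2 :=
          mul_le_mul_of_nonneg_right hQy h4
      _ = ((((K + n : ℕ) : ℝ) + 1) * (r ^ (K + n - 2)) ^ 2) / (2 * Q) := by ring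
      _ ≤ (((K : ℝ) + 1) * (r ^ (K - 2)) ^ 2) / (2 * Q) := by gcongr
      _ ≤ (sq ^ 2 * (2 * Q) * (r ^ (K - 2)) ^ 2) / (2 * Q) := by gcongr
      _ = (sq * r ^ (K - 2)) ^ 2 := by
          rw [mul_pow, div_eq_iff hQ0.ne']
          ring
  have h5 : 1 / y * r ^ (K + n - 2) ≤ sq * r ^ (K - 2) :=
    (pow_le_pow_iff_left₀ (by positivity) (by positivity) two_ne_zero).1 hsqr
  have h6 : pm ^ (K + n - 2) = r ^ (K + n - 2) * rl ^ (K + n - 2) := by
    rw [hrdef, div_pow, div_mul_cancel₀ _ (pow_pos hl _).ne']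
  have h7 : rl ^ (K + n - 2) ≤ ρ ^ (K + n) / rl ^ 2 := by
    rw [le_div_iff₀ (pow_pos hl 2), ← pow_add]
    have : K + n - 2 + 2 = K + n := by omega
    rw [this]
    exact pow_le_pow_left₀ hl.le hρ _
  calc 1 / y * pm ^ (K + n - 2) = (1 / y * r ^ (K + n - 2)) * rl ^ (K + n - 2) := by rw [h6]; ring
    _ ≤ (sq * r ^ (K - 2)) * (ρ ^ (K + n) / rl ^ 2) :=
        mul_le_mul h5 h7 (by positivity) (by positivity)

theorem TB_pmB0 (h : TOk T τ) : (0 : ℝ) < ((pmB T : ℚ) : ℝ) := by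
  have h1 : 0 < Pup T (29 / 10) := Pup_pos h (by norm_num)
  have : 0 < pmB T := lt_of_lt_of_le h1 (le_max_left _ _)
  exact_mod_cast this

/-- `|Pn u| ≤ pmB` for `u ≥ 2.9` -/
theorem TB_pm (h : TOk T τ) {u : ℝ} (hu : 29 / 10 ≤ u) : |Pn τ u| ≤ ((pmB T : ℚ) : ℝ) := by
  have hπ : (3.1415 : ℝ) < π := Real.pi_gt_d4
  have hπ2 : π < 3.15 := Real.pi_lt_d2
  obtain ⟨s1, s2, s3⟩ := sg_bounds h
  have hs := sg_pos h.τpos
  have hh := hn_pos τ
  have hhU := h.hU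
  have hU0 : (0 : ℝ) < T.hU := hh.trans_le hhU
  have hL0 : (0 : ℝ) ≤ 1 - T.hL := hs.le.trans s2
  have hpm : ((pmB T : ℚ) : ℝ) = max ((Pup T (29 / 10) : ℚ) : ℝ)
      (22 / 100 * (T.hU : ℝ) + (1 - T.hL) * ((cX T (44 / 10) : ℚ) : ℝ)) := by
    unfold pmB
    push_cast
    rfl
  have hcX0 : (0 : ℝ) ≤ ((cX T (44 / 10) : ℚ) : ℝ) := by
    exact_mod_cast cX_nonneg h (u0 := 44 / 10) (by norm_num)
  have hL1 : ((Pup T (29 / 10) : ℚ) : ℝ) ≤ ((pmB T : ℚ) : ℝ) := by rw [hpm]; exact le_max_left _ _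
  have hR1 : 22 / 100 * (T.hU : ℝ) + (1 - T.hL) * ((cX T (44 / 10) : ℚ) : ℝ) ≤ ((pmB T : ℚ) : ℝ) := by
    rw [hpm]; exact le_max_right _ _
  rcases le_or_gt u π with h1 | h1
  · have h2 : 0 < Pn τ u := Pn_pos h.τpos (by linarith) h1
    rw [abs_of_pos h2]
    exact (le_Pup h (u0 := 29 / 10) (by norm_num) (by push_cast; linarith) h1).trans hL1
  · have hP := Pn_eq h.τpos u
    have hs22 := abs_sinc_22 h1.le
    rcases le_or_gt u (44 / 10) with h2 | h2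
    · have a1 : Real.sinc u ≤ 0 := sinc_nonpos h1.le h2
      have a2 : 0 ≤ Xn τ u := Xn_nonneg (by linarith) h2
      have a3 := Xn_le_exp h (u0 := 29 / 10) (u := u) (by norm_num) (by push_cast; linarith) h2
      have a4 : (1 - T.hL) * ((1 / Tq (T.muL * (29 / 10) ^ 2 / 6) : ℚ) : ℝ) ≤
          ((Pup T (29 / 10) : ℚ) : ℝ) := by
        have c1 : (1 - T.hL) * (1 / Tq (T.muL * (29 / 10) ^ 2 / 6)) ≤ Pup T (29 / 10) := by
          unfold Pup
          refine le_trans ?_ (le_ru _)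
          have c2 : 0 ≤ T.hU * max (snU (29 / 10)) 0 := by
            have : (0 : ℚ) < T.hU := by exact_mod_cast hU0
            exact mul_nonneg this.le (le_max_right _ _)
          have c3 : (1 - T.hL) * (1 / Tq (T.muL * (29 / 10) ^ 2 / 6)) =
              (1 - T.hL) / Tq (T.muL * (29 / 10) ^ 2 / 6) := by ring
          rw [c3]
          linarith
        exact_mod_cast c1
      rw [abs_of_nonneg a2] at a3
      rw [abs_of_nonpos a1] at hs22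
      rw [hP, abs_le]
      constructor
      · have c1 : 0 ≤ sg τ * Xn τ u := mul_nonneg hs.le a2
        have c2 : hn τ * (-Real.sinc u) ≤ T.hU * (22 / 100) :=
          mul_le_mul hhU hs22 (by linarith) hU0.le
        have c3 : 0 ≤ (1 - T.hL) * ((cX T (44 / 10) : ℚ) : ℝ) := mul_nonneg hL0 hcX0
        linarith
      · have c1 : hn τ * Real.sinc u ≤ 0 := mul_nonpos_of_nonneg_of_nonpos hh.le a1
        have c2 : sg τ * Xn τ u ≤ (1 - T.hL) * ((1 / Tq (T.muL * (29 / 10) ^ 2 / 6) : ℚ) : ℝ) :=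
          mul_le_mul s2 a3 a2 hL0
        linarith
    · have a3 := Xn_le_cX h (u0 := 44 / 10) (u := u) (by norm_num) (by push_cast; linarith)
      rw [hP]
      calc |hn τ * Real.sinc u + sg τ * Xn τ u| ≤ |hn τ * Real.sinc u| + |sg τ * Xn τ u| :=
            abs_add_le _ _
        _ = hn τ * |Real.sinc u| + sg τ * |Xn τ u| := by
            rw [abs_mul, abs_mul, abs_of_pos hh, abs_of_pos hs]
        _ ≤ T.hU * (22 / 100) + (1 - T.hL) * ((cX T (44 / 10) : ℚ) : ℝ) :=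
            add_le_add (mul_le_mul hhU hs22 (abs_nonneg _) hU0.le)
              (mul_le_mul s2 a3 (abs_nonneg _) hL0)
        _ ≤ ((pmB T : ℚ) : ℝ) := by linarith

/-- first piece -/
theorem TB_near (h : BOk T b τ y k) (hA : 0 < cA T b) (ha : 4 * π ≤ 29 / 10 / y) :
    -(((tailB1 T b : ℚ) : ℝ) * Pn τ (y * π) ^ k) ≤
    ∫ x in (4 * π)..(29 / 10 / y), kap τ y x * Pn τ (y * x) ^ k := by
  have hπ : (3.1415 : ℝ) < π := Real.pi_gt_d4
  have hπ0 := Real.pi_pos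
  obtain ⟨hrl, hρ⟩ := rho_ge h
  have hrl' : (0 : ℝ) < ((rL T b : ℚ) : ℝ) := by exact_mod_cast hrl
  set ρ : ℝ := Pn τ (y * π) with hρdef
  have hρ0 : 0 < ρ := hrl'.trans_le hρ
  have hy0 := h.ypos
  obtain ⟨_, hAle⟩ := cA_le h
  have hA' : (0 : ℝ) < ((cA T b : ℚ) : ℝ) := by exact_mod_cast hA
  set A : ℝ := ((cA T b : ℚ) : ℝ) with hAdef
  obtain ⟨s1, s2, s3⟩ := sg_bounds h.hT
  have hC0 : (0 : ℝ) ≤ ((CPS T : ℚ) : ℝ) := by exact_mod_cast TB_CPS0 T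
  set c : ℝ := ((CPS T : ℚ) : ℝ) / (4 * (1 - T.hU)) with hc
  have hc0 : 0 ≤ c := div_nonneg hC0 (by linarith)
  clear_value c A
  set g : ℝ → ℝ := fun x => c * ρ ^ k * Real.exp (-(A * (15 * π ^ 2 + 8 * π * (x - 4 * π)))) with hg
  have hpt : ∀ x ∈ Icc (4 * π) (29 / 10 / y), -g x ≤ kap τ y x * Pn τ (y * x) ^ k := by
    intro x hx
    have hx0 : 0 < x := by linarith [hx.1]
    have hu0 : 0 ≤ y * x := (mul_pos hy0 hx0).le
    have hu1 : y * x ≤ 29 / 10 := by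
      have := hx.2
      rw [le_div_iff₀ hy0] at this
      linarith
    have hPp : 0 < Pn τ (y * x) := Pn_pos h.hT.τpos hu0 (by linarith)
    have hSp : 0 < Real.sinc (y * x) := sinc_pos hu0 (by linarith)
    have hs := sg_pos h.hT.τpos
    have k1 : -c ≤ kap τ y x := by
      refine le_trans ?_ (kap_amgm h.hT.τpos hu0 (by linarith))
      rw [neg_le_neg_iff, div_le_iff₀ (by positivity)]
      have d1 := TB_cps h.hT hu0 hu1
      have d2 : Real.sin x ^ 2 ≤ 1 := Real.sin_sq_le_one x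
      have d3 : 0 ≤ Pn τ (y * x) ^ 2 := sq_nonneg _
      calc Real.sin x ^ 2 * Pn τ (y * x) ^ 2 ≤ 1 * Pn τ (y * x) ^ 2 :=
            mul_le_mul_of_nonneg_right d2 d3
        _ ≤ ((CPS T : ℚ) : ℝ) * Real.sinc (y * x) := by rw [one_mul]; exact d1
        _ = c * (4 * (1 - T.hU) * Real.sinc (y * x)) := by
            rw [hc]; field_simp
        _ ≤ c * (4 * sg τ * Real.sinc (y * x)) := by gcongr
    have k2 : Pn τ (y * x) ≤ ρ * Real.exp (-(m2 τ * y ^ 2 / 2 * (x ^ 2 - π ^ 2))) := by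
      have e1 := Pn_exp_anti h.hT.τpos (show y * π ∈ Icc 0 π from ⟨by positivity, by
          have : y * (4 * π) ≤ 29 / 10 := by
            rw [le_div_iff₀ hy0] at ha
            linarith
          linarith⟩)
        (show y * x ∈ Icc 0 π from ⟨hu0, by linarith⟩)
        (mul_le_mul_of_nonneg_left (by linarith [hx.1]) hy0.le)
      simp only at e1
      have e2 : 0 < Real.exp (m2 τ * (y * x) ^ 2 / 2) := Real.exp_pos _
      rw [← le_div_iff₀ e2] at e1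
      refine e1.trans (le_of_eq ?_)
      rw [mul_div_assoc, ← Real.exp_sub]
      congr 2
      ring
    have k3 : Pn τ (y * x) ^ k ≤ ρ ^ k * Real.exp (-(A * (15 * π ^ 2 + 8 * π * (x - 4 * π)))) := by
      refine (pow_le_pow_left₀ hPp.le k2 k).trans ?_
      rw [mul_pow, ← Real.exp_nat_mul]
      refine mul_le_mul_of_nonneg_left ?_ (by positivity)
      rw [Real.exp_le_exp]
      have f1 : 15 * π ^ 2 + 8 * π * (x - 4 * π) ≤ x ^ 2 - π ^ 2 := by nlinarith [sq_nonneg (x - 4 * π)]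
      have f2 : 0 ≤ 15 * π ^ 2 + 8 * π * (x - 4 * π) := by
        have := hx.1
        have : 0 ≤ x - 4 * π := by linarith
        positivity
      have f3 : A * (15 * π ^ 2 + 8 * π * (x - 4 * π)) ≤ (m2 τ * k * y ^ 2 / 2) * (x ^ 2 - π ^ 2) :=
        mul_le_mul hAle f1 f2 (hA'.le.trans hAle)
      nlinarith
    have k4 : 0 ≤ Pn τ (y * x) ^ k := (pow_pos hPp k).le
    have k5 : -c * Pn τ (y * x) ^ k ≤ kap τ y x * Pn τ (y * x) ^ k :=
      mul_le_mul_of_nonneg_right k1 k4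
    refine le_trans ?_ k5
    have k6 := mul_le_mul_of_nonneg_left k3 hc0
    simp only [hg]
    linarith
  have hgc : Continuous g := by
    simp only [hg]
    fun_prop
  have hfc : Continuous (fun x => kap τ y x * Pn τ (y * x) ^ k) := by
    have h1 := kap_cont τ y
    have h2 := Pn_cont τ
    fun_prop
  have hgn : Continuous (fun x => -g x) := continuous_neg.comp hgc
  have hmono := intervalIntegral.integral_mono_on (μ := volume) ha (hgn.intervalIntegrable _ _)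
    (hfc.intervalIntegrable _ _) hpt
  refine le_trans ?_ hmono
  have hgi : ∫ x in (4 * π)..(29 / 10 / y), g x ≤ ((tailB1 T b : ℚ) : ℝ) * ρ ^ k := by
    have hder : ∀ x : ℝ, HasDerivAt
        (fun x => -(c * ρ ^ k * Real.exp (-(A * (15 * π ^ 2 + 8 * π * (x - 4 * π)))) / (8 * π * A)))
        (g x) x := by
      intro x
      have e1 : HasDerivAt (fun x : ℝ => -(A * (15 * π ^ 2 + 8 * π * (x - 4 * π))))
          (-(A * (8 * π))) x := by
        have := (((((hasDerivAt_id x).sub_const (4 * π)).const_mul (8 * π)).const_add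
          (15 * π ^ 2)).const_mul A).fun_neg
        simpa using this
      have e2 := (((e1.exp.const_mul (c * ρ ^ k)).div_const (8 * π * A)).neg)
      refine e2.congr_deriv ?_
      simp only [hg]
      field_simp
    rw [intervalIntegral.integral_eq_sub_of_hasDerivAt (fun x _ => hder x)
      (hgc.intervalIntegrable _ _)]
    have e3 : 0 ≤ c * ρ ^ k * Real.exp (-(A * (15 * π ^ 2 + 8 * π * (29 / 10 / y - 4 * π)))) /
        (8 * π * A) := by positivity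
    have e4 : Real.exp (-(A * (15 * π ^ 2))) ≤ ((1 / Tq (cA T b * pL ^ 2 * 15) : ℚ) : ℝ) := by
      refine exp_neg_le (by positivity) ?_
      have := pL_lt
      have hp0 : (0 : ℝ) < ((pL : ℚ) : ℝ) := by
        have : (0 : ℚ) < pL := by unfold pL; norm_num
        exact_mod_cast this
      push_cast
      rw [← hAdef]
      have : ((pL : ℚ) : ℝ) ^ 2 ≤ π ^ 2 := pow_le_pow_left₀ hp0.le this.le 2
      nlinarith
    have e5 : c * ρ ^ k * Real.exp (-(A * (15 * π ^ 2))) / (8 * π * A) ≤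
        ((tailB1 T b : ℚ) : ℝ) * ρ ^ k := by
      have hp0 : (0 : ℝ) < ((pL : ℚ) : ℝ) := by
        have : (0 : ℚ) < pL := by unfold pL; norm_num
        exact_mod_cast this
      have f1 := le_ru (CPS T / (4 * (1 - T.hU)) / Tq (cA T b * pL ^ 2 * 15) / (8 * cA T b * pL))
      have f2 : ((CPS T / (4 * (1 - T.hU)) / Tq (cA T b * pL ^ 2 * 15) / (8 * cA T b * pL) : ℚ) : ℝ) ≤
          ((tailB1 T b : ℚ) : ℝ) := by
        unfold tailB1
        exact_mod_cast f1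
      have f3 : c * ρ ^ k * Real.exp (-(A * (15 * π ^ 2))) / (8 * π * A) ≤
          c * ρ ^ k * ((1 / Tq (cA T b * pL ^ 2 * 15) : ℚ) : ℝ) / (8 * ((pL : ℚ) : ℝ) * A) := by
        have hpl := pL_lt
        revert e4 hpl hp0
        generalize ((1 / Tq (cA T b * pL ^ 2 * 15) : ℚ) : ℝ) = W0
        generalize ((pL : ℚ) : ℝ) = p0
        intro e4 hp0 hpl
        have hT0 : (0 : ℝ) ≤ W0 := (Real.exp_pos _).le.trans e4
        have hck : 0 ≤ c * ρ ^ k := by positivity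
        exact div_le_div₀ (mul_nonneg hck hT0) (mul_le_mul_of_nonneg_left e4 hck) (by positivity)
          (by nlinarith)
      refine f3.trans ?_
      have f4 : c * ρ ^ k * ((1 / Tq (cA T b * pL ^ 2 * 15) : ℚ) : ℝ) / (8 * ((pL : ℚ) : ℝ) * A) =
        ((CPS T / (4 * (1 - T.hU)) / Tq (cA T b * pL ^ 2 * 15) / (8 * cA T b * pL) : ℚ) : ℝ) * ρ ^ k := by
        push_cast
        rw [← hAdef, ← hc]
        ring
      rw [f4]
      exact mul_le_mul_of_nonneg_right f2 (by positivity)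
    have e6 : 15 * π ^ 2 + 8 * π * (4 * π - 4 * π) = 15 * π ^ 2 := by ring
    rw [e6]
    linarith
  rw [intervalIntegral.integral_neg]
  linarith

theorem TB_y2 (h : BOk T b τ y k) : (0 : ℝ) < b.y2 := h.ypos.trans_le h.hy2

theorem TB_zB (h : BOk T b τ y k) : ((zB T b : ℚ) : ℝ) =
    ((T.G1 : ℝ) + (T.G2 + T.G3) / (29 / 10 / b.y2)) / (29 / 10 / b.y2) := by
  have := TB_y2 h
  unfold zB
  push_cast
  field_simp

/-- bound of the kernel for `x ≥ 2.9 / y` -/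
theorem TB_kap (h : BOk T b τ y k) {x : ℝ} (hx : 29 / 10 / y ≤ x) :
    (0 : ℝ) ≤ ((zB T b : ℚ) : ℝ) ∧ (0 : ℝ) ≤ (T.hU : ℝ) + (1 - T.hL) * ((zB T b : ℚ) : ℝ) ∧
    |kap τ y x| ≤ ((T.hU : ℝ) + (1 - T.hL) * ((zB T b : ℚ) : ℝ)) *
      (((zB T b : ℚ) : ℝ) * |Real.sinc (y * x)| + |Xn τ (y * x)|) := by
  have hy0 := h.ypos
  have hy2 := TB_y2 h
  have hx0 : 0 < x := (by positivity : (0 : ℝ) < 29 / 10 / y).trans_le hx
  have hX : 29 / 10 / (b.y2 : ℝ) ≤ x := by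
    refine le_trans ?_ hx
    have := h.hy2
    gcongr
  have hX0 : (0 : ℝ) < 29 / 10 / (b.y2 : ℝ) := by positivity
  have b1 := TA_xX h.hT hX0 hX
  rw [← TB_zB h] at b1
  have b2 := TA_xP h.hT b1
  have hz0 : (0 : ℝ) ≤ ((zB T b : ℚ) : ℝ) := (abs_nonneg _).trans b1
  have hT0 : (0 : ℝ) ≤ (T.hU : ℝ) + (1 - T.hL) * ((zB T b : ℚ) : ℝ) := (abs_nonneg _).trans b2
  refine ⟨hz0, hT0, ?_⟩
  refine (kap_abs hx0.le).trans ?_
  refine mul_le_mul b2 ?_ (by positivity) hT0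
  refine add_le_add (mul_le_mul_of_nonneg_right b1 (abs_nonneg _)) ?_
  calc |Real.sin x| * |Xn τ (y * x)| ≤ 1 * |Xn τ (y * x)| :=
        mul_le_mul_of_nonneg_right (Real.abs_sin_le_one x) (abs_nonneg _)
    _ = |Xn τ (y * x)| := one_mul _

theorem TB_mid (h : BOk T b τ y k) (hK : 2 ≤ k) {Xc : ℝ}
    (hXc1 : ((1 / Tq (T.muL * (29 / 10) ^ 2 / 6) : ℚ) : ℝ) ≤ Xc) (hXc2 : ((cX T (44 / 10) : ℚ) : ℝ) ≤ Xc) :
    |∫ x in (29 / 10 / y)..(6 / y), kap τ y x * Pn τ (y * x) ^ k| ≤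
    1 / y * ((pmB T : ℚ) : ℝ) ^ (k - 2) * (31 / 10 * ((T.hU : ℝ) + (1 - T.hL) * ((zB T b : ℚ) : ℝ)) *
      (((zB T b : ℚ) : ℝ) / (29 / 10) + Xc) * ((pmB T : ℚ) : ℝ) ^ 2) := by
  have hy0 := h.ypos
  have hpm0 := TB_pmB0 h.hT
  have hle : 29 / 10 / y ≤ 6 / y := by gcongr; norm_num
  have hXc0 : 0 ≤ Xc := le_trans (by exact_mod_cast cX_nonneg h.hT (u0 := 44 / 10) (by norm_num)) hXc2
  set M : ℝ := ((T.hU : ℝ) + (1 - T.hL) * ((zB T b : ℚ) : ℝ)) *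
      (((zB T b : ℚ) : ℝ) / (29 / 10) + Xc) * ((pmB T : ℚ) : ℝ) ^ k with hM
  have hpt : ∀ x ∈ Set.uIoc (29 / 10 / y) (6 / y), ‖kap τ y x * Pn τ (y * x) ^ k‖ ≤ M := by
    intro x hx
    rw [uIoc_of_le hle] at hx
    obtain ⟨hz0, hT0, hk⟩ := TB_kap h hx.1.le
    have hu : 29 / 10 ≤ y * x := by
      have := hx.1.le
      rw [div_le_iff₀ hy0] at this
      linarith
    have hu0 : 0 < y * x := by linarith
    have hP := TB_pm h.hT hu
    have hS : |Real.sinc (y * x)| ≤ 1 / (29 / 10) :=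
      (abs_sinc_inv hu0).trans (one_div_le_one_div_of_le (by norm_num) hu)
    have hX : |Xn τ (y * x)| ≤ Xc := by
      rcases le_or_gt (y * x) (44 / 10) with h1 | h1
      · exact (Xn_le_exp h.hT (u0 := 29 / 10) (by norm_num) (by push_cast; linarith) h1).trans hXc1
      · exact (Xn_le_cX h.hT (u0 := 44 / 10) (by norm_num) (by push_cast; linarith)).trans hXc2
    rw [Real.norm_eq_abs, abs_mul, abs_pow, hM]
    refine mul_le_mul (hk.trans (mul_le_mul_of_nonneg_left ?_ hT0)) (pow_le_pow_left₀ (abs_nonneg _) hP k)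
      (by positivity) (mul_nonneg hT0 (add_nonneg (div_nonneg hz0 (by norm_num)) hXc0))
    calc ((zB T b : ℚ) : ℝ) * |Real.sinc (y * x)| + |Xn τ (y * x)|
        ≤ ((zB T b : ℚ) : ℝ) * (1 / (29 / 10)) + Xc :=
          add_le_add (mul_le_mul_of_nonneg_left hS hz0) hX
      _ = ((zB T b : ℚ) : ℝ) / (29 / 10) + Xc := by ring
  have h1 := intervalIntegral.norm_integral_le_of_norm_le_const hpt
  rw [Real.norm_eq_abs] at h1
  refine h1.trans (le_of_eq ?_)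
  have h2 : |6 / y - 29 / 10 / y| = 31 / 10 / y := by
    rw [abs_of_nonneg (by linarith)]
    field_simp
    norm_num
  have h3 : ((pmB T : ℚ) : ℝ) ^ k = ((pmB T : ℚ) : ℝ) ^ (k - 2) * ((pmB T : ℚ) : ℝ) ^ 2 := by
    rw [← pow_add]; congr 1; omega
  rw [h2, hM, h3]
  ring

theorem TB_far (h : BOk T b τ y k) (hK : 2 ≤ k) :
    |∫ x in Ioi (6 / y), kap τ y x * Pn τ (y * x) ^ k| ≤
    1 / y * ((pmB T : ℚ) : ℝ) ^ (k - 2) *
      (((T.hU : ℝ) + (1 - T.hL) * (((cX T 6 : ℚ) : ℝ) * 6)) ^ 2 *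
      (((T.hU : ℝ) + (1 - T.hL) * ((zB T b : ℚ) : ℝ)) * ((zB T b : ℚ) : ℝ) / 72 +
       ((T.hU : ℝ) + (1 - T.hL) * ((zB T b : ℚ) : ℝ)) * ((cX T 6 : ℚ) : ℝ) / 18)) := by
  have hy0 := h.ypos
  have hpm0 := TB_pmB0 h.hT
  have hX0 : 0 < 6 / y := by positivity
  obtain ⟨hz0, hT0, -⟩ := TB_kap h (x := 29 / 10 / y) le_rfl
  set z : ℝ := ((zB T b : ℚ) : ℝ) with hz
  set T2 : ℝ := (T.hU : ℝ) + (1 - T.hL) * z with hT2
  set c : ℝ := (T.G1 : ℝ) + (T.G2 + T.G3) / 6 with hc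
  have hcX : ((cX T 6 : ℚ) : ℝ) = c / 36 := by
    unfold cX
    push_cast
    rw [hc]
    norm_num
  have hcX0 : (0 : ℝ) ≤ ((cX T 6 : ℚ) : ℝ) := by
    exact_mod_cast cX_nonneg h.hT (u0 := 6) (by norm_num)
  have hc0 : 0 ≤ c := by linarith
  have hhU : (0 : ℝ) < T.hU := (hn_pos τ).trans_le h.hT.hU
  obtain ⟨s1, s2, s3⟩ := sg_bounds h.hT
  have hhL : (0 : ℝ) ≤ 1 - T.hL := (sg_pos h.hT.τpos).le.trans s2
  set kp : ℝ := (T.hU : ℝ) + (1 - T.hL) * (c / 6) with hkp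
  have hkp0 : 0 ≤ kp := by positivity
  have hkpe : (T.hU : ℝ) + (1 - T.hL) * (((cX T 6 : ℚ) : ℝ) * 6) = kp := by
    rw [hkp, hcX]; ring
  set C : ℝ := kp ^ 2 * ((pmB T : ℚ) : ℝ) ^ (k - 2) with hC
  have hC0 : 0 ≤ C := by positivity
  have hpt : ∀ x ∈ Ioi (6 / y), |kap τ y x * Pn τ (y * x) ^ k| ≤
      C * (T2 * z / (y * x) ^ 3 + T2 * c / (y * x) ^ 4) := by
    intro x hx
    have hx' : 6 / y < x := hx
    have hx0 : 0 < x := hX0.trans hx'
    have hu : 6 ≤ y * x := by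
      have := hx'.le
      rw [div_le_iff₀ hy0] at this
      linarith
    have hu0 : 0 < y * x := by linarith
    obtain ⟨-, -, hk⟩ := TB_kap h (x := x) ((by gcongr; norm_num : 29 / 10 / y ≤ 6 / y).trans hx'.le)
    rw [← hz, ← hT2] at hk
    have hS := abs_sinc_inv hu0
    have hX := TA_Xu h.hT (by norm_num : (0 : ℝ) < 6) hu
    have hP := TA_Pu h.hT (by norm_num : (0 : ℝ) < 6) hu
    rw [← hc] at hX
    rw [← hc, ← hkp] at hP
    have hP2 := TB_pm h.hT (by linarith : 29 / 10 ≤ y * x)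
    have hk2 : |kap τ y x| ≤ T2 * (z / (y * x) + c / (y * x) ^ 2) := by
      refine hk.trans (mul_le_mul_of_nonneg_left ?_ hT0)
      calc z * |Real.sinc (y * x)| + |Xn τ (y * x)| ≤ z * (1 / (y * x)) + c / (y * x) ^ 2 :=
            add_le_add (mul_le_mul_of_nonneg_left hS hz0) hX
        _ = z / (y * x) + c / (y * x) ^ 2 := by ring
    have hP3 : |Pn τ (y * x)| ^ k ≤ (kp / (y * x)) ^ 2 * ((pmB T : ℚ) : ℝ) ^ (k - 2) := by
      have c1 : |Pn τ (y * x)| ^ k = |Pn τ (y * x)| ^ 2 * |Pn τ (y * x)| ^ (k - 2) := by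
        rw [← pow_add]; congr 1; omega
      rw [c1]
      exact mul_le_mul (pow_le_pow_left₀ (abs_nonneg _) hP 2) (pow_le_pow_left₀ (abs_nonneg _) hP2 _)
        (by positivity) (by positivity)
    rw [abs_mul, abs_pow]
    calc |kap τ y x| * |Pn τ (y * x)| ^ k
        ≤ (T2 * (z / (y * x) + c / (y * x) ^ 2)) * ((kp / (y * x)) ^ 2 *
          ((pmB T : ℚ) : ℝ) ^ (k - 2)) := mul_le_mul hk2 hP3 (by positivity) (by positivity)
      _ = C * (T2 * z / (y * x) ^ 3 + T2 * c / (y * x) ^ 4) := by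
          rw [hC]
          generalize ((pmB T : ℚ) : ℝ) ^ (k - 2) = W0
          field_simp
  obtain ⟨i1, i2⟩ := TA_int (y := y) (X := 6 / y) (A := T2 * z) (B := T2 * c) hy0 hX0
  have hi0 : IntegrableOn (fun x => kap τ y x * Pn τ (y * x) ^ k) (Ioi (6 / y)) :=
    (kap_integrable h.hT.τpos hy0 k).mono_set (Ioi_subset_Ioi hX0.le)
  have hle : |∫ x in Ioi (6 / y), kap τ y x * Pn τ (y * x) ^ k| ≤
      C * (1 / y * (T2 * z / (2 * (y * (6 / y)) ^ 2) + T2 * c / (3 * (y * (6 / y)) ^ 3))) := by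
    rw [← i2, ← integral_const_mul]
    refine (abs_integral_le_integral_abs).trans ?_
    exact setIntegral_mono_on hi0.abs (i1.const_mul C) measurableSet_Ioi hpt
  refine hle.trans (le_of_eq ?_)
  rw [mul_div_cancel₀ _ hy0.ne', hkpe, hcX, hC]
  ring

theorem tail_B (h : BOk T b τ y k) (hpw : b.pw = false) (hok : okTailB T b = true) :
    -(((tailB1 T b + tailB2 T b : ℚ) : ℝ) * Pn τ (y * π) ^ k) ≤
    ∫ x in Ioi (4 * π), kap τ y x * Pn τ (y * x) ^ k := by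
  have _hpw := hpw
  unfold okTailB at hok
  simp only [Bool.and_eq_true, decide_eq_true_eq] at hok
  obtain ⟨⟨⟨o1, o2⟩, o3⟩, o4⟩ := hok
  have hy0 := h.ypos
  have hπ0 := Real.pi_pos
  have hK : 2 ≤ b.K := by
    have := h.hg
    unfold okG at this
    simp only [Bool.and_eq_true, decide_eq_true_eq] at this
    tauto
  have hk := h.hk
  obtain ⟨hrl, hρ⟩ := rho_ge h
  have hrl' : (0 : ℝ) < ((rL T b : ℚ) : ℝ) := by exact_mod_cast hrl
  have ha : 4 * π ≤ 29 / 10 / y := by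
    rw [le_div_iff₀ hy0]
    have e1 : ((b.y2 * aUp 64 : ℚ) : ℝ) ≤ ((29 / 10 : ℚ) : ℝ) := by exact_mod_cast o1
    unfold aUp at e1
    push_cast at e1
    have e2 := lt_pU
    have e3 := h.hy2
    have e4 : y * π ≤ (b.y2 : ℝ) * ((pU : ℚ) : ℝ) :=
      mul_le_mul e3 e2.le hπ0.le (TB_y2 h).le
    linarith
  have hnear := TB_near h o4 ha
  have hXc1 : ((1 / Tq (T.muL * (29 / 10) ^ 2 / 6) : ℚ) : ℝ) ≤
      ((max (1 / Tq (T.muL * (29 / 10) ^ 2 / 6)) (cX T (44 / 10)) : ℚ) : ℝ) := by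
    exact_mod_cast le_max_left _ _
  have hXc2 : ((cX T (44 / 10) : ℚ) : ℝ) ≤
      ((max (1 / Tq (T.muL * (29 / 10) ^ 2 / 6)) (cX T (44 / 10)) : ℚ) : ℝ) := by
    exact_mod_cast le_max_right _ _
  have hmid := TB_mid h (hK.trans hk) hXc1 hXc2
  have hfar := TB_far h (hK.trans hk)
  have hpm0 := TB_pmB0 h.hT
  have hpow := TB_pow (k := k) (y := y) (pm := ((pmB T : ℚ) : ℝ)) (rl := ((rL T b : ℚ) : ℝ))
    (ρ := Pn τ (y * π)) (sq := ((sqB T b : ℚ) : ℝ)) (Q := (T.Q : ℝ)) (K := b.K) hpm0.le hrl' hρ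
    (by exact_mod_cast o2)
    (by
      have : (0 : ℚ) ≤ sqB T b := by
        unfold sqB
        exact div_nonneg (Nat.cast_nonneg _) (by norm_num)
      exact_mod_cast this)
    (by exact_mod_cast o3) h.hQ hy0 hK hk
  have hFB : ((FB T b : ℚ) : ℝ) =
      31 / 10 * ((T.hU : ℝ) + (1 - T.hL) * ((zB T b : ℚ) : ℝ)) *
      (((zB T b : ℚ) : ℝ) / (29 / 10) +
        ((max (1 / Tq (T.muL * (29 / 10) ^ 2 / 6)) (cX T (44 / 10)) : ℚ) : ℝ)) *
        ((pmB T : ℚ) : ℝ) ^ 2 +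
      (((T.hU : ℝ) + (1 - T.hL) * (((cX T 6 : ℚ) : ℝ) * 6)) ^ 2 *
      (((T.hU : ℝ) + (1 - T.hL) * ((zB T b : ℚ) : ℝ)) * ((zB T b : ℚ) : ℝ) / 72 +
       ((T.hU : ℝ) + (1 - T.hL) * ((zB T b : ℚ) : ℝ)) * ((cX T 6 : ℚ) : ℝ) / 18)) := by
    unfold FB
    push_cast
    ring
  have hFB0 : 0 ≤ ((FB T b : ℚ) : ℝ) := by
    rw [hFB]
    obtain ⟨hz0, hT0, -⟩ := TB_kap h (x := 29 / 10 / y) le_rfl
    have hcX0 : (0 : ℝ) ≤ ((cX T 6 : ℚ) : ℝ) := by
      exact_mod_cast cX_nonneg h.hT (u0 := 6) (by norm_num)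
    have hXc0 : (0 : ℝ) ≤ ((max (1 / Tq (T.muL * (29 / 10) ^ 2 / 6)) (cX T (44 / 10)) : ℚ) : ℝ) :=
      le_trans (by exact_mod_cast cX_nonneg h.hT (u0 := 44 / 10) (by norm_num)) hXc2
    have t1 : 0 ≤ 31 / 10 * ((T.hU : ℝ) + (1 - T.hL) * ((zB T b : ℚ) : ℝ)) *
      (((zB T b : ℚ) : ℝ) / (29 / 10) +
        ((max (1 / Tq (T.muL * (29 / 10) ^ 2 / 6)) (cX T (44 / 10)) : ℚ) : ℝ)) *
        ((pmB T : ℚ) : ℝ) ^ 2 :=
      mul_nonneg (mul_nonneg (mul_nonneg (by norm_num) hT0)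
        (add_nonneg (div_nonneg hz0 (by norm_num)) hXc0)) (sq_nonneg _)
    have t2 : 0 ≤ (((T.hU : ℝ) + (1 - T.hL) * (((cX T 6 : ℚ) : ℝ) * 6)) ^ 2 *
      (((T.hU : ℝ) + (1 - T.hL) * ((zB T b : ℚ) : ℝ)) * ((zB T b : ℚ) : ℝ) / 72 +
       ((T.hU : ℝ) + (1 - T.hL) * ((zB T b : ℚ) : ℝ)) * ((cX T 6 : ℚ) : ℝ) / 18)) :=
      mul_nonneg (sq_nonneg _) (add_nonneg (div_nonneg (mul_nonneg hT0 hz0) (by norm_num))
        (div_nonneg (mul_nonneg hT0 hcX0) (by norm_num)))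
    exact add_nonneg t1 t2
  -- the far part
  have hB2 : 1 / y * ((pmB T : ℚ) : ℝ) ^ (k - 2) * ((FB T b : ℚ) : ℝ) ≤
      ((tailB2 T b : ℚ) : ℝ) * Pn τ (y * π) ^ k := by
    have f1 := le_ru (sqB T b * (pmB T / rL T b) ^ (b.K - 2) * FB T b / rL T b ^ 2)
    have f2 : ((sqB T b * (pmB T / rL T b) ^ (b.K - 2) * FB T b / rL T b ^ 2 : ℚ) : ℝ) ≤
        ((tailB2 T b : ℚ) : ℝ) := by
      unfold tailB2
      exact_mod_cast f1
    have f3 : 1 / y * ((pmB T : ℚ) : ℝ) ^ (k - 2) * ((FB T b : ℚ) : ℝ) ≤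
        ((sqB T b * (pmB T / rL T b) ^ (b.K - 2) * FB T b / rL T b ^ 2 : ℚ) : ℝ) *
          Pn τ (y * π) ^ k := by
      refine (mul_le_mul_of_nonneg_right hpow hFB0).trans (le_of_eq ?_)
      push_cast
      ring
    refine f3.trans (mul_le_mul_of_nonneg_right f2 ?_)
    exact pow_nonneg (hrl'.le.trans hρ) k
  -- splitting of the integral
  have hi0 : IntegrableOn (fun x => kap τ y x * Pn τ (y * x) ^ k) (Ioi (4 * π)) :=
    (kap_integrable h.hT.τpos hy0 k).mono_set (Ioi_subset_Ioi (by positivity))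
  have hi1 : IntegrableOn (fun x => kap τ y x * Pn τ (y * x) ^ k) (Ioi (29 / 10 / y)) :=
    (kap_integrable h.hT.τpos hy0 k).mono_set (Ioi_subset_Ioi (by positivity))
  have hi2 : IntegrableOn (fun x => kap τ y x * Pn τ (y * x) ^ k) (Ioi (6 / y)) :=
    (kap_integrable h.hT.τpos hy0 k).mono_set (Ioi_subset_Ioi (by positivity))
  have hs1 := intervalIntegral.integral_interval_add_Ioi hi0 hi1
  have hs2 := intervalIntegral.integral_interval_add_Ioi hi1 hi2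
  rw [← hs1, ← hs2]
  have g1 := neg_abs_le (∫ x in (29 / 10 / y)..(6 / y), kap τ y x * Pn τ (y * x) ^ k)
  have g2 := neg_abs_le (∫ x in Ioi (6 / y), kap τ y x * Pn τ (y * x) ^ k)
  have g3 : 1 / y * ((pmB T : ℚ) : ℝ) ^ (k - 2) * ((FB T b : ℚ) : ℝ) =
      1 / y * ((pmB T : ℚ) : ℝ) ^ (k - 2) * (31 / 10 * ((T.hU : ℝ) + (1 - T.hL) * ((zB T b : ℚ) : ℝ)) *
      (((zB T b : ℚ) : ℝ) / (29 / 10) +
        ((max (1 / Tq (T.muL * (29 / 10) ^ 2 / 6)) (cX T (44 / 10)) : ℚ) : ℝ)) *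
        ((pmB T : ℚ) : ℝ) ^ 2) +
      1 / y * ((pmB T : ℚ) : ℝ) ^ (k - 2) *
      (((T.hU : ℝ) + (1 - T.hL) * (((cX T 6 : ℚ) : ℝ) * 6)) ^ 2 *
      (((T.hU : ℝ) + (1 - T.hL) * ((zB T b : ℚ) : ℝ)) * ((zB T b : ℚ) : ℝ) / 72 +
       ((T.hU : ℝ) + (1 - T.hL) * ((zB T b : ℚ) : ℝ)) * ((cX T 6 : ℚ) : ℝ) / 18)) := by
    rw [hFB]
    ring
  rw [g3] at hB2
  have g4 : ((tailB1 T b + tailB2 T b : ℚ) : ℝ) * Pn τ (y * π) ^ k =
      ((tailB1 T b : ℚ) : ℝ) * Pn τ (y * π) ^ k + ((tailB2 T b : ℚ) : ℝ) * Pn τ (y * π) ^ k := by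
    push_cast
    ring
  rw [g4]
  linarith

end GCube
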