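import Pool.Agent.Lib.H83.CFTailA
import Pool.Agent.Lib.H83.CFTailB

/-!
Chunks TA, TB: the tails. `ρ = Pn τ (yπ)`, `u = yx`.

Common: for `x ≥ X > 0`: `|xX| ≤ z = (G1 + (G2+G3)/X)/X` (`xXn_bound`, `|cos|, |sin| ≤ 1`), `|xP| ≤ T2 = hU + (1-hL) z` (`Pn_eq`),
`|kap| ≤ T2 (z |S_y| + |X_y|)` (`kap_abs`); for `u ≥ ue`: `|S_y| ≤ 1/u`, `|X_y| ≤ cX(u) ≤ cX(ue) ue²/u²`,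
`|P_y| ≤ kp/u`, `kp = hU + (1-hL) cX(ue) ue`.

`tail_A`: `X = π nend/16 ≥ aLo nend`, `ue = rd (y1 aLo nend)`, `yx ≥ ue` on the tail. `∫_X^∞ |kap| |P_y|^k dx = (1/y) ∫_{yX}^∞ … du`
`≤ (1/y1) ∫_{ue}^∞ T2 (z/u + cX(ue) ue²/u²) (kp/u)² ((kp/ue)^(k-2)) du`, `kp/ue ≤ rL ≤ ρ`,
`∫_{ue}^∞ u^{-3} = 1/(2ue²)`, `∫ u^{-4} = 1/(3 ue³)`.

`tail_B`: on `4π ≤ x ≤ 2.9/y`: `kap ≥ -(sin² x) P_y²/(4 sg S_y) ≥ -CPS/(4(1-hU))` (for `u ∈ [j/10,(j+1)/10]`: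
`P_y ≤ Pup(j/10)`, `S_y ≥ snL((j+1)/10) > 0`), `P_y^k ≤ ρ^k exp(-A(x²-π²))` (as in `le_cU`, exponential form),
`∫_{4π}^∞ exp(-A(x²-π²)) ≤ exp(-15Aπ²)/(8πA)`. On `x ≥ 2.9/y`: `|kap P_y^k|`; `u ∈ [2.9, 6]`: `|S_y| ≤ 1/2.9`,
`|X_y| ≤ Xc`, `|P_y| ≤ pmB` (on `[2.9,π]`: `Pup(2.9)`; on `[π,4.4]`: `max(0.22 hU, (1-hL) X_y)`; beyond `0.22 hU + (1-hL) cX(4.4)`);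
`u ≥ 6`: `|P_y| ≤ min(pmB, kp/u)`. So `≤ (1/y) pmB^(k-2) FB`, and `(1/y) (pmB/rL)^(k-2) ≤ sqB (pmB/rL)^(K-2)` since
`1/y ≤ √((k+1)/(2Q))` and `r² (j+2) ≤ j+1` for `j ≥ K`.
-/
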