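import Pool.Agent.Lib.H83.CFCell

/-!
Chunk TA: the tail of kind A (see `CFTail.lean`).
-/

open MeasureTheory Set
open scoped Real

namespace GCube

open CF

variable {T : CF.Tb} {b : CF.Bk} {τ y : ℝ} {k : ℕ}

/-- common estimate: `|x Xn|` for `x ≥ X` -/
theorem TA_xX (h : TOk T τ) {X x : ℝ} (hX : 0 < X) (hx : X ≤ x) :
    |x * Xn τ x| ≤ ((T.G1 : ℝ) + (T.G2 + T.G3) / X) / X := by
  have hx0 : 0 < x := hX.trans_le hx
  have h1 := xXn_bound h.τpos hx0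
  obtain ⟨g1, g2, g3⟩ := G_nonneg h
  have g1' : (0 : ℝ) ≤ T.G1 := by exact_mod_cast g1
  have g2' : (0 : ℝ) ≤ T.G2 := by exact_mod_cast g2
  have g3' : (0 : ℝ) ≤ T.G3 := by exact_mod_cast g3
  refine h1.trans ?_
  have e1 : E τ / Nm τ 2 * |Real.cos x| ≤ T.G1 := by
    have : 0 ≤ E τ / Nm τ 2 := div_nonneg (E_pos τ).le (Nm_pos τ 2).le
    calc E τ / Nm τ 2 * |Real.cos x| ≤ E τ / Nm τ 2 * 1 :=
          mul_le_mul_of_nonneg_left (Real.abs_cos_le_one x) this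
      _ ≤ T.G1 := by rw [mul_one]; exact h.G1
  have e2 : |1 - τ ^ 2| * E τ / Nm τ 2 * |Real.sin x| ≤ T.G2 := by
    have : 0 ≤ |1 - τ ^ 2| * E τ / Nm τ 2 :=
      div_nonneg (mul_nonneg (abs_nonneg _) (E_pos τ).le) (Nm_pos τ 2).le
    calc |1 - τ ^ 2| * E τ / Nm τ 2 * |Real.sin x| ≤ |1 - τ ^ 2| * E τ / Nm τ 2 * 1 :=
          mul_le_mul_of_nonneg_left (Real.abs_sin_le_one x) this
      _ ≤ T.G2 := by rw [mul_one]; exact h.G2
  have e3 : TVb τ / Nm τ 2 ≤ T.G3 := h.G3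
  have e4 : (|1 - τ ^ 2| * E τ / Nm τ 2 * |Real.sin x| + TVb τ / Nm τ 2) / x ≤ (T.G2 + T.G3) / X := by
    calc (|1 - τ ^ 2| * E τ / Nm τ 2 * |Real.sin x| + TVb τ / Nm τ 2) / x
        ≤ ((T.G2 : ℝ) + T.G3) / x := by gcongr
      _ ≤ ((T.G2 : ℝ) + T.G3) / X := by gcongr
  calc (E τ / Nm τ 2 * |Real.cos x| +
      (|1 - τ ^ 2| * E τ / Nm τ 2 * |Real.sin x| + TVb τ / Nm τ 2) / x) / x
      ≤ ((T.G1 : ℝ) + (T.G2 + T.G3) / X) / x := by gcongr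
    _ ≤ ((T.G1 : ℝ) + (T.G2 + T.G3) / X) / X := by gcongr

/-- common estimate: `|x Pn|` -/
theorem TA_xP (h : TOk T τ) {x z : ℝ} (hz : |x * Xn τ x| ≤ z) :
    |x * Pn τ x| ≤ (T.hU : ℝ) + (1 - T.hL) * z := by
  obtain ⟨s1, s2, s3⟩ := sg_bounds h
  have hz0 : 0 ≤ z := (abs_nonneg _).trans hz
  have h1 : x * Pn τ x = hn τ * (x * Real.sinc x) + sg τ * (x * Xn τ x) := by
    rw [Pn_eq h.τpos x]; ring
  rw [h1, psi_mul_sinc]
  have hh := hn_pos τ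
  have hs := sg_pos h.τpos
  calc |hn τ * Real.sin x + sg τ * (x * Xn τ x)|
      ≤ |hn τ * Real.sin x| + |sg τ * (x * Xn τ x)| := abs_add_le _ _
    _ = hn τ * |Real.sin x| + sg τ * |x * Xn τ x| := by
        rw [abs_mul, abs_mul, abs_of_pos hh, abs_of_pos hs]
    _ ≤ hn τ * 1 + (1 - T.hL) * z := by
        have a1 := Real.abs_sin_le_one x
        have a2 : sg τ * |x * Xn τ x| ≤ (1 - T.hL) * z :=
          mul_le_mul s2 hz (abs_nonneg _) (hs.le.trans s2)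
        have a3 : hn τ * |Real.sin x| ≤ hn τ * 1 := mul_le_mul_of_nonneg_left a1 hh.le
        linarith
    _ ≤ (T.hU : ℝ) + (1 - T.hL) * z := by
        have := h.hU
        linarith

/-- common estimate: `|Xn u|` for `u ≥ u0`, with decay -/
theorem TA_Xu (h : TOk T τ) {u0 u : ℝ} (hu0 : 0 < u0) (hu : u0 ≤ u) :
    |Xn τ u| ≤ ((T.G1 : ℝ) + (T.G2 + T.G3) / u0) / u ^ 2 := by
  have hu' : 0 < u := hu0.trans_le hu
  obtain ⟨g1, g2, g3⟩ := G_nonneg h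
  have g1' : (0 : ℝ) ≤ T.G1 := by exact_mod_cast g1
  have g2' : (0 : ℝ) ≤ T.G2 := by exact_mod_cast g2
  have g3' : (0 : ℝ) ≤ T.G3 := by exact_mod_cast g3
  have h1 := TA_xX h hu' le_rfl
  rw [abs_mul, abs_of_pos hu'] at h1
  rw [le_div_iff₀ (by positivity)]
  have h2 : |Xn τ u| * u ^ 2 = u * (u * |Xn τ u|) := by ring
  rw [h2]
  calc u * (u * |Xn τ u|) ≤ u * (((T.G1 : ℝ) + (T.G2 + T.G3) / u) / u) :=
        mul_le_mul_of_nonneg_left h1 hu'.le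
    _ = (T.G1 : ℝ) + (T.G2 + T.G3) / u := by field_simp
    _ ≤ (T.G1 : ℝ) + (T.G2 + T.G3) / u0 := by gcongr

/-- common estimate: `|Pn u|` for `u ≥ u0`, with decay -/
theorem TA_Pu (h : TOk T τ) {u0 u : ℝ} (hu0 : 0 < u0) (hu : u0 ≤ u) :
    |Pn τ u| ≤ ((T.hU : ℝ) + (1 - T.hL) * (((T.G1 : ℝ) + (T.G2 + T.G3) / u0) / u0)) / u := by
  have hu' : 0 < u := hu0.trans_le hu
  have h1 := TA_xP h (TA_xX h hu0 hu)
  rw [abs_mul, abs_of_pos hu'] at h1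
  rw [le_div_iff₀ hu']
  linarith

/-- integral of the majorant -/
theorem TA_int {y X A B : ℝ} (hy : 0 < y) (hX : 0 < X) :
    IntegrableOn (fun x : ℝ => A / (y * x) ^ 3 + B / (y * x) ^ 4) (Ioi X) ∧
    ∫ x in Ioi X, (A / (y * x) ^ 3 + B / (y * x) ^ 4) =
      1 / y * (A / (2 * (y * X) ^ 2) + B / (3 * (y * X) ^ 3)) := by
  have i3 : IntegrableOn (fun x : ℝ => x ^ (-3 : ℝ)) (Ioi X) := integrableOn_Ioi_rpow_of_lt (by norm_num) hX
  have i4 : IntegrableOn (fun x : ℝ => x ^ (-4 : ℝ)) (Ioi X) := integrableOn_Ioi_rpow_of_lt (by norm_num) hX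
  have v3 : ∫ x in Ioi X, x ^ (-3 : ℝ) = 1 / (2 * X ^ 2) := by
    rw [integral_Ioi_rpow_of_lt (by norm_num) hX]
    have : X ^ ((-3 : ℝ) + 1) = (X ^ 2)⁻¹ := by
      rw [show (-3 : ℝ) + 1 = -((2 : ℕ) : ℝ) by norm_num, Real.rpow_neg hX.le, Real.rpow_natCast]
    rw [this]
    field_simp
    norm_num
  have v4 : ∫ x in Ioi X, x ^ (-4 : ℝ) = 1 / (3 * X ^ 3) := by
    rw [integral_Ioi_rpow_of_lt (by norm_num) hX]
    have : X ^ ((-4 : ℝ) + 1) = (X ^ 3)⁻¹ := by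
      rw [show (-4 : ℝ) + 1 = -((3 : ℕ) : ℝ) by norm_num, Real.rpow_neg hX.le, Real.rpow_natCast]
    rw [this]
    field_simp
    norm_num
  have hpt : ∀ x ∈ Ioi X, A / (y * x) ^ 3 + B / (y * x) ^ 4 =
      A / y ^ 3 * x ^ (-3 : ℝ) + B / y ^ 4 * x ^ (-4 : ℝ) := by
    intro x hx
    have hx0 : 0 < x := hX.trans hx
    rw [show (-3 : ℝ) = -((3 : ℕ) : ℝ) by norm_num, show (-4 : ℝ) = -((4 : ℕ) : ℝ) by norm_num,
      Real.rpow_neg hx0.le, Real.rpow_neg hx0.le, Real.rpow_natCast, Real.rpow_natCast]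
    field_simp
  have i5 : IntegrableOn (fun x : ℝ => A / y ^ 3 * x ^ (-3 : ℝ) + B / y ^ 4 * x ^ (-4 : ℝ)) (Ioi X) :=
    (i3.const_mul _).add (i4.const_mul _)
  refine ⟨(integrableOn_congr_fun hpt measurableSet_Ioi).2 i5, ?_⟩
  rw [setIntegral_congr_fun measurableSet_Ioi hpt, integral_add (i3.const_mul _) (i4.const_mul _),
    integral_const_mul, integral_const_mul, v3, v4]
  field_simp


theorem TA_pow {r rl ρ : ℝ} {K k : ℕ} (hr : 0 ≤ r) (hrl : r ≤ rl) (hl : 0 < rl) (hρ : rl ≤ ρ)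
    (hK : 2 ≤ K) (hk : K ≤ k) : r ^ (k - 2) ≤ (r / rl) ^ (K - 2) * (ρ ^ k / rl ^ 2) := by
  have h1 : r ^ (k - 2) = (r / rl) ^ (k - 2) * rl ^ (k - 2) := by
    rw [div_pow, div_mul_cancel₀ _ (pow_pos hl _).ne']
  have h2 : (r / rl) ^ (k - 2) ≤ (r / rl) ^ (K - 2) :=
    pow_le_pow_of_le_one (div_nonneg hr hl.le) ((div_le_one hl).2 hrl) (by omega)
  have h3 : rl ^ (k - 2) = rl ^ k / rl ^ 2 := by
    rw [eq_div_iff (pow_pos hl 2).ne', ← pow_add]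
    congr 1
    omega
  have h4 : rl ^ k ≤ ρ ^ k := pow_le_pow_left₀ hl.le hρ k
  have h5 : 0 < rl ^ 2 := pow_pos hl 2
  rw [h1, h3]
  have h6 : rl ^ k / rl ^ 2 ≤ ρ ^ k / rl ^ 2 := by gcongr
  exact mul_le_mul h2 h6 (by positivity) (pow_nonneg (div_nonneg hr hl.le) _)

theorem tail_A (h : BOk T b τ y k) (h1 : 0 < b.y1) (h64 : 64 ≤ b.nend) (hok : okTailA T b = true) :
    -(((tailA T b : ℚ) : ℝ) * Pn τ (y * π) ^ k) ≤
    ∫ x in Ioi (π * b.nend / 16), kap τ y x * Pn τ (y * x) ^ k := by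
  obtain ⟨hrl, hρ⟩ := rho_ge h
  have hrl' : (0 : ℝ) < ((rL T b : ℚ) : ℝ) := by exact_mod_cast hrl
  set ρ : ℝ := Pn τ (y * π) with hρdef
  set X : ℚ := aLo b.nend with hX
  set ue : ℚ := rd (b.y1 * X) with hue
  have hy0 := h.ypos
  have hy1 : (0 : ℝ) < (b.y1 : ℝ) := by exact_mod_cast h1
  have hn64 : (64 : ℝ) ≤ (b.nend : ℝ) := by exact_mod_cast h64
  have hXpos : (0 : ℚ) < X := by
    have : (64 : ℚ) ≤ (b.nend : ℚ) := by exact_mod_cast h64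
    rw [hX]
    unfold aLo pL
    positivity
  have hXpos' : (0 : ℝ) < (X : ℝ) := by exact_mod_cast hXpos
  have hXle : (X : ℝ) ≤ π * b.nend / 16 := by
    rw [hX]
    unfold aLo
    push_cast
    have := pL_lt
    have h2 : ((pL : ℚ) : ℝ) * (b.nend : ℝ) ≤ π * b.nend :=
      mul_le_mul_of_nonneg_right this.le (by positivity)
    linarith
  -- the check
  have hok' := hok
  unfold okTailA at hok'
  simp only [Bool.and_eq_true, decide_eq_true_eq] at hok'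
  obtain ⟨hue44, hkpe⟩ := hok'
  rw [← hX, ← hue] at hue44 hkpe
  have hue0 : (0 : ℝ) < (ue : ℝ) := by
    have : (0 : ℚ) < ue := by linarith
    exact_mod_cast this
  have hueX : (ue : ℝ) ≤ b.y1 * X := by
    have := rd_le (b.y1 * X)
    rw [← hue] at this
    exact_mod_cast this
  -- real constants
  obtain ⟨g1, g2, g3⟩ := G_nonneg h.hT
  have g1' : (0 : ℝ) ≤ T.G1 := by exact_mod_cast g1
  have g2' : (0 : ℝ) ≤ T.G2 := by exact_mod_cast g2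
  have g3' : (0 : ℝ) ≤ T.G3 := by exact_mod_cast g3
  have hhU : (0 : ℝ) < T.hU := (hn_pos τ).trans_le h.hT.hU
  obtain ⟨s1, s2, s3⟩ := sg_bounds h.hT
  have hhL : (0 : ℝ) ≤ 1 - T.hL := (sg_pos h.hT.τpos).le.trans s2
  set z : ℝ := ((T.G1 : ℝ) + (T.G2 + T.G3) / X) / X with hz
  set T2 : ℝ := (T.hU : ℝ) + (1 - T.hL) * z with hT2
  set c : ℝ := (T.G1 : ℝ) + (T.G2 + T.G3) / ue with hc
  set kp : ℝ := (T.hU : ℝ) + (1 - T.hL) * (c / ue) with hkp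
  have hz0 : 0 ≤ z := by positivity
  have hT20 : 0 ≤ T2 := by positivity
  have hc0 : 0 ≤ c := by positivity
  have hkp0 : 0 ≤ kp := by positivity
  have hcX : ((cX T ue : ℚ) : ℝ) = c / ue ^ 2 := by
    unfold cX
    push_cast
    rw [hc]
  have hkpq : (((T.hU + (1 - T.hL) * (cX T ue * ue) : ℚ)) : ℝ) = kp := by
    push_cast
    rw [hcX, hkp]
    congr 2
    field_simp
  have hkpe' : kp / ue ≤ ((rL T b : ℚ) : ℝ) := by
    rw [← hkpq]
    exact_mod_cast hkpe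
  have hK : 2 ≤ b.K := by
    have := h.hg
    unfold okG at this
    simp only [Bool.and_eq_true, decide_eq_true_eq] at this
    tauto
  have hk := h.hk
  set C : ℝ := kp ^ 2 * ((kp / ue / ((rL T b : ℚ) : ℝ)) ^ (b.K - 2) * (ρ ^ k / ((rL T b : ℚ) : ℝ) ^ 2)) with hC
  have hρ0 : 0 < ρ := hrl'.trans_le hρ
  have hC0 : 0 ≤ C := by positivity
  -- pointwise bound
  have hpt : ∀ x ∈ Ioi (π * b.nend / 16), |kap τ y x * Pn τ (y * x) ^ k| ≤
      C * (T2 * z / (y * x) ^ 3 + T2 * c / (y * x) ^ 4) := by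
    intro x hx
    have hxX : (X : ℝ) ≤ x := hXle.trans (le_of_lt hx)
    have hx0 : 0 < x := hXpos'.trans_le hxX
    have hu : (ue : ℝ) ≤ y * x := hueX.trans (mul_le_mul h.hy1 hxX hXpos'.le hy0.le)
    have hu0 : 0 < y * x := mul_pos hy0 hx0
    have b1 := TA_xX h.hT hXpos' hxX
    have b2 := TA_xP h.hT b1
    have b3 := TA_Xu h.hT hue0 hu
    have b4 := TA_Pu h.hT hue0 hu
    rw [← hz] at b1
    rw [← hz, ← hT2] at b2
    rw [← hc] at b3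
    rw [← hc, ← hkp] at b4
    have b5 := abs_sinc_inv hu0
    have b6 : |kap τ y x| ≤ T2 * (z / (y * x) + c / (y * x) ^ 2) := by
      refine (kap_abs hx0.le).trans ?_
      have c1 : |x * Xn τ x| * |Real.sinc (y * x)| ≤ z * (1 / (y * x)) :=
        mul_le_mul b1 b5 (abs_nonneg _) hz0
      have c2 : |Real.sin x| * |Xn τ (y * x)| ≤ 1 * (c / (y * x) ^ 2) :=
        mul_le_mul (Real.abs_sin_le_one x) b3 (abs_nonneg _) zero_le_one
      refine mul_le_mul b2 ?_ (by positivity) hT20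
      calc |x * Xn τ x| * |Real.sinc (y * x)| + |Real.sin x| * |Xn τ (y * x)|
          ≤ z * (1 / (y * x)) + 1 * (c / (y * x) ^ 2) := add_le_add c1 c2
        _ = z / (y * x) + c / (y * x) ^ 2 := by ring
    have b7 : |Pn τ (y * x)| ^ k ≤ (kp / (y * x)) ^ 2 *
        ((kp / ue / ((rL T b : ℚ) : ℝ)) ^ (b.K - 2) * (ρ ^ k / ((rL T b : ℚ) : ℝ) ^ 2)) := by
      have c1 : |Pn τ (y * x)| ^ k = |Pn τ (y * x)| ^ 2 * |Pn τ (y * x)| ^ (k - 2) := by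
        rw [← pow_add]; congr 1; omega
      rw [c1]
      have c2 : |Pn τ (y * x)| ≤ kp / ue := b4.trans (by gcongr)
      refine mul_le_mul (pow_le_pow_left₀ (abs_nonneg _) b4 2) ?_ (by positivity) (by positivity)
      exact (pow_le_pow_left₀ (abs_nonneg _) c2 _).trans
        (TA_pow (by positivity) hkpe' hrl' hρ hK hk)
    rw [abs_mul, abs_pow]
    calc |kap τ y x| * |Pn τ (y * x)| ^ k
        ≤ (T2 * (z / (y * x) + c / (y * x) ^ 2)) * ((kp / (y * x)) ^ 2 *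
          ((kp / ue / ((rL T b : ℚ) : ℝ)) ^ (b.K - 2) * (ρ ^ k / ((rL T b : ℚ) : ℝ) ^ 2))) :=
          mul_le_mul b6 b7 (by positivity) (by positivity)
      _ = C * (T2 * z / (y * x) ^ 3 + T2 * c / (y * x) ^ 4) := by
          rw [hC]
          field_simp
  have hX'0 : 0 < π * b.nend / 16 := hXpos'.trans_le hXle
  obtain ⟨i1, i2⟩ := TA_int (y := y) (X := π * b.nend / 16) (A := T2 * z) (B := T2 * c) hy0 hX'0
  have hi0 : IntegrableOn (fun x => kap τ y x * Pn τ (y * x) ^ k) (Ioi (π * b.nend / 16)) :=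
    (kap_integrable h.hT.τpos hy0 k).mono_set (Ioi_subset_Ioi hX'0.le)
  have hle : |∫ x in Ioi (π * b.nend / 16), kap τ y x * Pn τ (y * x) ^ k| ≤
      C * (1 / y * (T2 * z / (2 * (y * (π * b.nend / 16)) ^ 2) +
        T2 * c / (3 * (y * (π * b.nend / 16)) ^ 3))) := by
    rw [← i2, ← integral_const_mul]
    refine (abs_integral_le_integral_abs).trans ?_
    exact setIntegral_mono_on hi0.abs (i1.const_mul C) measurableSet_Ioi hpt
  have hyX : (ue : ℝ) ≤ y * (π * b.nend / 16) := hueX.trans (mul_le_mul h.hy1 hXle hXpos'.le hy0.le)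
  have hle2 : C * (1 / y * (T2 * z / (2 * (y * (π * b.nend / 16)) ^ 2) +
        T2 * c / (3 * (y * (π * b.nend / 16)) ^ 3))) ≤
      C * (1 / b.y1 * (T2 * z / (2 * (ue : ℝ) ^ 2) + T2 * c / (3 * (ue : ℝ) ^ 3))) := by
    have := h.hy1
    gcongr
  have htail : C * (1 / b.y1 * (T2 * z / (2 * (ue : ℝ) ^ 2) + T2 * c / (3 * (ue : ℝ) ^ 3))) ≤
      ((tailA T b : ℚ) : ℝ) * ρ ^ k := by
    have e1 : ((1 / b.y1 * ((T.hU + (1 - T.hL) * (cX T ue * ue)) / ue / rL T b) ^ (b.K - 2) *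
        (T.hU + (1 - T.hL) * (cX T ue * ue)) ^ 2 *
        ((T.hU + (1 - T.hL) * ((T.G1 + (T.G2 + T.G3) / X) / X)) *
          ((T.G1 + (T.G2 + T.G3) / X) / X) / (2 * ue ^ 2) +
          (T.hU + (1 - T.hL) * ((T.G1 + (T.G2 + T.G3) / X) / X)) * cX T ue / (3 * ue)) /
        rL T b ^ 2 : ℚ) : ℝ) ≤ ((tailA T b : ℚ) : ℝ) := by
      have := le_ru (1 / b.y1 * ((T.hU + (1 - T.hL) * (cX T ue * ue)) / ue / rL T b) ^ (b.K - 2) *
        (T.hU + (1 - T.hL) * (cX T ue * ue)) ^ 2 *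
        ((T.hU + (1 - T.hL) * ((T.G1 + (T.G2 + T.G3) / X) / X)) *
          ((T.G1 + (T.G2 + T.G3) / X) / X) / (2 * ue ^ 2) +
          (T.hU + (1 - T.hL) * ((T.G1 + (T.G2 + T.G3) / X) / X)) * cX T ue / (3 * ue)) /
        rL T b ^ 2)
      exact_mod_cast this
    have e2 : C * (1 / b.y1 * (T2 * z / (2 * (ue : ℝ) ^ 2) + T2 * c / (3 * (ue : ℝ) ^ 3))) =
      ((1 / b.y1 * ((T.hU + (1 - T.hL) * (cX T ue * ue)) / ue / rL T b) ^ (b.K - 2) *
        (T.hU + (1 - T.hL) * (cX T ue * ue)) ^ 2 *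
        ((T.hU + (1 - T.hL) * ((T.G1 + (T.G2 + T.G3) / X) / X)) *
          ((T.G1 + (T.G2 + T.G3) / X) / X) / (2 * ue ^ 2) +
          (T.hU + (1 - T.hL) * ((T.G1 + (T.G2 + T.G3) / X) / X)) * cX T ue / (3 * ue)) /
        rL T b ^ 2 : ℚ) : ℝ) * ρ ^ k := by
      have hkpq' := hkpq
      push_cast at hkpq' ⊢
      rw [hkpq', hcX, ← hz, ← hT2, hC]
      generalize (kp / ue / ((rL T b : ℚ) : ℝ)) ^ (b.K - 2) = W0
      field_simp
    rw [e2]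
    exact mul_le_mul_of_nonneg_right e1 (by positivity)
  have hfin := hle.trans (hle2.trans htail)
  have := neg_abs_le (∫ x in Ioi (π * b.nend / 16), kap τ y x * Pn τ (y * x) ^ k)
  linarith

end GCube
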