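import Mathlib

/-!
Abel inequality (layer cake), auxiliary file for `ClassP`.
-/

open MeasureTheory Set
open scoped Real

namespace GCube

/-- the level sets of an antitone function on `(0,L]` are initial intervals -/
theorem classP_level {L : ℝ} (hL : 0 < L) {f : ℝ → ℝ} (hf : AntitoneOn f (Ioc 0 L)) (s : ℝ) :
    ∃ ρ : ℝ, 0 ≤ ρ ∧ ρ ≤ L ∧ Ioo 0 ρ ⊆ {x | x ∈ Ioc 0 L ∧ s < f x} ∧
      {x | x ∈ Ioc 0 L ∧ s < f x} ⊆ Ioc 0 ρ := by
  set A : Set ℝ := {x | x ∈ Ioc 0 L ∧ s < f x} with hA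
  rcases A.eq_empty_or_nonempty with h | h
  · exact ⟨0, le_rfl, hL.le, by simp, by rw [h]; exact empty_subset _⟩
  · have hb : BddAbove A := ⟨L, fun x hx => hx.1.2⟩
    refine ⟨sSup A, ?_, ?_, ?_, ?_⟩
    · obtain ⟨x, hx⟩ := h
      exact hx.1.1.le.trans (le_csSup hb hx)
    · exact csSup_le h fun x hx => hx.1.2
    · intro x hx
      obtain ⟨y, hy, hxy⟩ := exists_lt_of_lt_csSup h hx.2
      have hxL : x ∈ Ioc 0 L := ⟨hx.1, hxy.le.trans hy.1.2⟩
      exact ⟨hxL, hy.2.trans_le (hf hxL hy.1 hxy.le)⟩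
    · intro x hx
      exact ⟨hx.1.1, le_csSup hb hx⟩

theorem classP_level_int {g : ℝ → ℝ} {A : Set ℝ} {ρ : ℝ} (hρ : 0 ≤ ρ) (h1 : Ioo 0 ρ ⊆ A)
    (h2 : A ⊆ Ioc 0 ρ) : ∫ x in A, g x = ∫ x in (0 : ℝ)..ρ, g x := by
  rw [intervalIntegral.integral_of_le hρ]
  apply setIntegral_congr_set
  have h3 : (Ioo 0 ρ : Set ℝ) =ᵐ[volume] Ioc 0 ρ := Ioo_ae_eq_Ioc
  refine Filter.EventuallyLE.antisymm ?_ ?_
  · exact h2.eventuallyLE
  · exact h3.symm.le.trans h1.eventuallyLE

/-- layer cake formula -/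
theorem classP_layer {L : ℝ} (hL : 0 < L) {f g : ℝ → ℝ} (hf : AntitoneOn f (Ioc 0 L))
    (hf0 : ∀ x ∈ Ioc 0 L, 0 ≤ f x) (hg : IntervalIntegrable g volume 0 L)
    (hfg : IntervalIntegrable (fun x => f x * g x) volume 0 L) :
    IntegrableOn (fun s => ∫ x in {x | x ∈ Ioc 0 L ∧ s < f x}, g x) (Ioi 0) ∧
      ∫ x in (0 : ℝ)..L, f x * g x = ∫ s in Ioi 0, ∫ x in {x | x ∈ Ioc 0 L ∧ s < f x}, g x := by
  classical
  have hgi : IntegrableOn g (Ioc 0 L) := (intervalIntegrable_iff_integrableOn_Ioc_of_le hL.le).1 hg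
  have hfgi : IntegrableOn (fun x => f x * g x) (Ioc 0 L) :=
    (intervalIntegrable_iff_integrableOn_Ioc_of_le hL.le).1 hfg
  set f' : ℝ → ℝ := (Ioc 0 L).indicator f with hf'
  have hf'm : Measurable f' := by
    apply measurable_of_restrict_of_restrict_compl (s := Ioc 0 L) measurableSet_Ioc
    · have h1 : (Ioc 0 L).domRestrict f' = (Ioc 0 L).domRestrict f := by
        ext x
        simp only [Set.domRestrict_apply, hf', indicator_of_mem x.2]
      rw [h1]
      have h2 : Antitone ((Ioc 0 L).domRestrict f) := fun x y hxy => hf x.2 y.2 hxy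
      exact h2.measurable
    · have h1 : ((Ioc 0 L)ᶜ).domRestrict f' = fun _ => 0 := by
        ext x
        simp only [Set.domRestrict_apply, hf', indicator_of_notMem x.2]
      rw [h1]
      exact measurable_const
  set F : ℝ → ℝ → ℝ := fun x s => ({z : ℝ × ℝ | z.2 < f' z.1}).indicator (fun z => g z.1) (x, s)
    with hF
  have hSm : MeasurableSet {z : ℝ × ℝ | z.2 < f' z.1} :=
    measurableSet_lt measurable_snd (hf'm.comp measurable_fst)
  have hsm : AEStronglyMeasurable (Function.uncurry F)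
      ((volume.restrict (Ioc 0 L)).prod (volume.restrict (Ioi 0))) := by
    have h1 : AEStronglyMeasurable (fun z : ℝ × ℝ => g z.1)
        ((volume.restrict (Ioc 0 L)).prod (volume.restrict (Ioi 0))) :=
      hgi.aestronglyMeasurable.comp_fst
    exact h1.indicator hSm
  have hFx : ∀ x, ∀ s, F x s = (Iio (f' x)).indicator (fun _ => g x) s := by
    intro x s
    simp only [hF, indicator, mem_ofPred_eq, mem_Iio]
  have hFi : ∀ x, IntegrableOn (F x) (Ioi 0) := by
    intro x
    have h1 : F x = (Iio (f' x)).indicator (fun _ => g x) := funext (hFx x)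
    rw [h1, IntegrableOn, integrable_indicator_iff measurableSet_Iio]
    unfold IntegrableOn
    rw [Measure.restrict_restrict measurableSet_Iio]
    apply integrable_const_iff.2
    right
    rw [isFiniteMeasure_restrict]
    have h2 : Iio (f' x) ∩ Ioi 0 = Ioo 0 (f' x) := by
      ext y; simp [and_comm]
    rw [h2]
    simp
  have hval : ∀ x ∈ Ioc 0 L, ∀ c : ℝ, ∫ s in Ioi 0, (Iio (f' x)).indicator (fun _ => c) s =
      f x * c := by
    intro x hx c
    rw [integral_indicator measurableSet_Iio, Measure.restrict_restrict measurableSet_Iio]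
    have h2 : Iio (f' x) ∩ Ioi 0 = Ioo 0 (f' x) := by
      ext y; simp [and_comm]
    have h3 : f' x = f x := indicator_of_mem hx f
    rw [h2, h3, setIntegral_const, smul_eq_mul, Measure.real, Real.volume_Ioo, sub_zero,
      ENNReal.toReal_ofReal (hf0 x hx)]
  have hint : Integrable (Function.uncurry F)
      ((volume.restrict (Ioc 0 L)).prod (volume.restrict (Ioi 0))) := by
    rw [integrable_prod_iff hsm]
    refine ⟨Filter.Eventually.of_forall fun x => hFi x, ?_⟩
    have h1 : IntegrableOn (fun x => f x * |g x|) (Ioc 0 L) := by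
      refine (hfgi.norm).congr ?_
      rw [Filter.EventuallyEq, ae_restrict_iff' measurableSet_Ioc]
      refine Filter.Eventually.of_forall fun x hx => ?_
      simp only [Real.norm_eq_abs, abs_mul, abs_of_nonneg (hf0 x hx)]
    refine h1.congr ?_
    rw [Filter.EventuallyEq, ae_restrict_iff' measurableSet_Ioc]
    refine Filter.Eventually.of_forall fun x hx => ?_
    rw [← hval x hx]
    refine integral_congr_ae (Filter.Eventually.of_forall fun s => ?_)
    simp only [Function.uncurry, hFx, norm_indicator_eq_indicator_norm, Real.norm_eq_abs]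
  have hI : ∀ s, ∫ x in Ioc 0 L, F x s = ∫ x in {x | x ∈ Ioc 0 L ∧ s < f x}, g x := by
    intro s
    have h1 : ∀ x, F x s = ({x | s < f' x}).indicator g x := by
      intro x
      simp only [hF, indicator, mem_ofPred_eq]
    simp only [h1]
    have hm : MeasurableSet {x | s < f' x} := measurableSet_lt measurable_const hf'm
    rw [integral_indicator hm, Measure.restrict_restrict hm]
    congr 2
    ext x
    simp only [mem_inter_iff, mem_ofPred_eq]
    constructor
    · rintro ⟨h2, h3⟩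
      rw [hf', indicator_of_mem h3] at h2
      exact ⟨h3, h2⟩
    · rintro ⟨h3, h2⟩
      refine ⟨?_, h3⟩
      rw [hf', indicator_of_mem h3]
      exact h2
  constructor
  · have h1 := hint.integral_prod_right
    refine h1.congr (Filter.Eventually.of_forall fun s => ?_)
    exact hI s
  · rw [intervalIntegral.integral_of_le hL.le]
    calc ∫ x in Ioc 0 L, f x * g x = ∫ x in Ioc 0 L, ∫ s in Ioi 0, F x s := by
          refine setIntegral_congr_fun measurableSet_Ioc fun x hx => ?_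
          simp only [hFx]
          rw [hval x hx]
      _ = ∫ s in Ioi 0, ∫ x in Ioc 0 L, F x s := integral_integral_swap hint
      _ = _ := by simp only [hI]

/-- Abel inequality: `f` nonincreasing and nonnegative on `(0,L]`, `∫_0^ρ g ≥ 0` for all `ρ ≤ L`, then
`∫_0^L f g ≥ 0` (layer cake for `f`). -/
theorem abel_nonneg {L : ℝ} (hL : 0 < L) {f g : ℝ → ℝ} (hf : AntitoneOn f (Ioc 0 L))
    (hf0 : ∀ x ∈ Ioc 0 L, 0 ≤ f x) (hg : IntervalIntegrable g volume 0 L)
    (hfg : IntervalIntegrable (fun x => f x * g x) volume 0 L)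
    (hG : ∀ ρ, 0 ≤ ρ → ρ ≤ L → 0 ≤ ∫ x in (0 : ℝ)..ρ, g x) :
    0 ≤ ∫ x in (0 : ℝ)..L, f x * g x := by
  rw [(classP_layer hL hf hf0 hg hfg).2]
  refine setIntegral_nonneg measurableSet_Ioi fun s _ => ?_
  obtain ⟨ρ, h1, h2, h3, h4⟩ := classP_level hL hf s
  rw [classP_level_int h1 h3 h4]
  exact hG ρ h1 h2

/-- strict Abel inequality -/
theorem abel_pos {L ε : ℝ} (hε : 0 < ε) (hεL : ε ≤ L) {f g : ℝ → ℝ} (hf : AntitoneOn f (Ioc 0 L))
    (hfs : StrictAntiOn f (Ioc 0 ε))
    (hf0 : ∀ x ∈ Ioc 0 L, 0 ≤ f x) (hg : IntervalIntegrable g volume 0 L)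
    (hfg : IntervalIntegrable (fun x => f x * g x) volume 0 L)
    (hG : ∀ ρ, 0 ≤ ρ → ρ ≤ L → 0 ≤ ∫ x in (0 : ℝ)..ρ, g x)
    (hGp : ∀ ρ, 0 < ρ → ρ < ε → 0 < ∫ x in (0 : ℝ)..ρ, g x) :
    0 < ∫ x in (0 : ℝ)..L, f x * g x := by
  have hL : 0 < L := hε.trans_le hεL
  obtain ⟨hi, he⟩ := classP_layer hL hf hf0 hg hfg
  rw [he, setIntegral_pos_iff_support_of_nonneg_ae ?_ hi]
  · have h4 : ε / 4 ∈ Ioc 0 ε := ⟨by linarith, by linarith⟩
    have h2 : ε / 2 ∈ Ioc 0 ε := ⟨by linarith, by linarith⟩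
    have hlt : f (ε / 2) < f (ε / 4) := hfs h4 h2 (by linarith)
    have h20 : 0 ≤ f (ε / 2) := hf0 _ ⟨by linarith, by linarith⟩
    have hsub : Ioo (f (ε / 2)) (f (ε / 4)) ⊆
        Function.support (fun s => ∫ x in {x | x ∈ Ioc 0 L ∧ s < f x}, g x) ∩ Ioi 0 := by
      intro s hs
      refine ⟨?_, lt_of_le_of_lt h20 hs.1⟩
      rw [Function.mem_support]
      obtain ⟨ρ, h1, h3, h5, h6⟩ := classP_level hL hf s
      rw [classP_level_int h1 h5 h6]
      apply ne_of_gt
      have h7 : ε / 4 ≤ ρ := by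
        have : ε / 4 ∈ {x | x ∈ Ioc 0 L ∧ s < f x} := ⟨⟨by linarith, by linarith⟩, hs.2⟩
        exact (h6 this).2
      have h8 : ρ ≤ ε / 2 := by
        by_contra hcon
        have : ε / 2 ∈ Ioo 0 ρ := ⟨by linarith, not_le.1 hcon⟩
        exact absurd (h5 this).2 (not_lt.2 hs.1.le)
      exact hGp ρ (by linarith) (by linarith)
    refine lt_of_lt_of_le ?_ (measure_mono hsub)
    rw [Real.volume_Ioo, ENNReal.ofReal_pos]
    linarith
  · rw [Filter.EventuallyLE, ae_restrict_iff' measurableSet_Ioi]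
    refine Filter.Eventually.of_forall fun s _ => ?_
    obtain ⟨ρ, h1, h2, h3, h4⟩ := classP_level hL hf s
    simp only [Pi.zero_apply]
    rw [classP_level_int h1 h3 h4]
    exact hG ρ h1 h2

end GCube
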