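import Pool.Agent.Lib.H83.UTwo

/-!
Chunk U3: the sum of three truncated Gaussians is `R³`-unimodal.

`eta3(x) = ∫ E(t) etaX^{odd}(x-t) dt = x r3(x)/3 + g Δ(x)`, `Δ(x) = rX(x-τ) - rX(x+τ)` (integration by parts),
`r3(x) = ∫_{-τ}^τ E(t) rX(x-t) dt`. Claim: `eta3(x)/x` is nonincreasing on `(0,3τ)`.
`r3' = -eta3 ≤ 0`. For `x ≥ τ`, `Δ(x) = rX(x-τ)` is nonincreasing. For `x < τ`:
`Δ'' (x) = q(τ-x) - q(τ+x) - 3 g x E(x)`, `q(v) = (v²/4 - 1/2) rX(v)`, hence
`Δ''(x) ≤ 2 κ x + g (τ²-1)/2 G(x) - (7/2) g x E(x)` as soon as `(v/2)(v²/4-3/2) rX(v) ≤ κ`.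
For `τ² ≤ 3/2` this is `≤ 0` (`κ = 0`), for `τ² ≥ 3/2` (`κ = 0.4 (τ - √(3/2))`) it is at most `2 M x` with
`6 g M ≤ r3(τ) ≤ (4τ/3) e^{-τ²/4} EE(τ/2)`.
-/

open MeasureTheory Set
open scoped Real

namespace GCube

noncomputable def r3 (τ x : ℝ) : ℝ := ∫ t in (-τ)..τ, E t * rX τ (x - t)

noncomputable def eta3 (τ x : ℝ) : ℝ := x * r3 τ x / 3 + E τ * (rX τ (x - τ) - rX τ (x + τ))

/-! ### elementary facts on `rX` -/

lemma UThree_EE_zero : EE 0 = 0 := by simp [EE]

lemma UThree_EE_continuous : Continuous EE :=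
  continuous_iff_continuousAt.2 fun r => (UTwo_EE_hasDerivAt r).continuousAt

lemma UThree_EE_mono : Monotone EE :=
  monotone_of_deriv_nonneg (fun r => (UTwo_EE_hasDerivAt r).differentiableAt)
    (fun r => by rw [(UTwo_EE_hasDerivAt r).deriv]; exact (Real.exp_pos _).le)

lemma UThree_EE_strictMono : StrictMono EE :=
  strictMono_of_deriv_pos (fun r => by rw [(UTwo_EE_hasDerivAt r).deriv]; exact Real.exp_pos _)

lemma UThree_EE_nonneg {r : ℝ} (hr : 0 ≤ r) : 0 ≤ EE r := by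
  have := UThree_EE_mono hr
  rwa [UThree_EE_zero] at this

lemma UThree_EE_le {r : ℝ} (hr : 0 ≤ r) : EE r ≤ r := by
  have hd : ∀ x : ℝ, HasDerivAt (fun x => x - EE x) (1 - Real.exp (-(x ^ 2))) x :=
    fun x => (hasDerivAt_id' x).sub (UTwo_EE_hasDerivAt x)
  have hm : Monotone (fun x => x - EE x) :=
    monotone_of_deriv_nonneg (fun x => (hd x).differentiableAt) (fun x => by
      rw [(hd x).deriv]
      have : Real.exp (-(x ^ 2)) ≤ 1 := Real.exp_le_one_iff.2 (by nlinarith [sq_nonneg x])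
      linarith)
  have := hm hr
  simp only [UThree_EE_zero] at this
  linarith

/-- the smooth function that equals `rX` on `[0, 2τ]` -/
noncomputable def UThree_S (τ v : ℝ) : ℝ := 2 * Real.exp (-(v ^ 2) / 4) * EE (τ - v / 2)

lemma UThree_S_hasDerivAt (τ v : ℝ) :
    HasDerivAt (UThree_S τ) (-(v / 2 * UThree_S τ v + E τ * E (τ - v))) v := UTwo_smooth τ v

lemma UThree_rX_eq {τ v : ℝ} (h0 : 0 ≤ v) (h1 : v ≤ 2 * τ) : rX τ v = UThree_S τ v :=
  UTwo_rX_eq h0 h1

lemma UThree_rX_even (τ v : ℝ) : rX τ (-v) = rX τ v := by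
  simp [rX]

lemma UThree_rX_zero {τ v : ℝ} (h : 2 * τ ≤ |v|) : rX τ v = 0 := by
  unfold rX
  split_ifs with h1
  · have h2 : |v| = 2 * τ := le_antisymm h1 h
    rw [h2]
    have : τ - 2 * τ / 2 = 0 := by ring
    rw [this, UThree_EE_zero]
    ring
  · rfl

lemma UThree_rX_max (τ v : ℝ) :
    rX τ v = 2 * Real.exp (-(v ^ 2) / 4) * EE (max (τ - |v| / 2) 0) := by
  rcases le_total (|v|) (2 * τ) with h | h
  · rw [max_eq_left (by linarith)]
    simp [rX, h]
  · rw [max_eq_right (by linarith), UThree_EE_zero, UThree_rX_zero h]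
    ring

lemma UThree_rX_continuous (τ : ℝ) : Continuous (rX τ) := by
  have h : rX τ = fun v => 2 * Real.exp (-(v ^ 2) / 4) * EE (max (τ - |v| / 2) 0) :=
    funext (UThree_rX_max τ)
  rw [h]
  have h1 : Continuous fun v : ℝ => EE (max (τ - |v| / 2) 0) :=
    UThree_EE_continuous.comp (by fun_prop)
  have h2 : Continuous fun v : ℝ => 2 * Real.exp (-(v ^ 2) / 4) := by fun_prop
  exact h2.mul h1

lemma UThree_rX_nonneg (τ v : ℝ) : 0 ≤ rX τ v := by
  rw [UThree_rX_max]
  exact mul_nonneg (by positivity) (UThree_EE_nonneg (le_max_right _ _))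

lemma UThree_rX_anti {τ u v : ℝ} (h : |u| ≤ |v|) : rX τ v ≤ rX τ u := by
  rw [UThree_rX_max, UThree_rX_max]
  have hsq : u ^ 2 ≤ v ^ 2 := sq_le_sq.2 h
  have h1 : Real.exp (-(v ^ 2) / 4) ≤ Real.exp (-(u ^ 2) / 4) := Real.exp_le_exp.2 (by linarith)
  have h2 : EE (max (τ - |v| / 2) 0) ≤ EE (max (τ - |u| / 2) 0) :=
    UThree_EE_mono (max_le_max (by linarith) le_rfl)
  exact mul_le_mul (by linarith) h2 (UThree_EE_nonneg (le_max_right _ _)) (by positivity)

lemma UThree_rX_strict {τ u v : ℝ} (hu : |u| < 2 * τ) (h : |u| < |v|) : rX τ v < rX τ u := by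
  rw [UThree_rX_max, UThree_rX_max]
  have hsq : u ^ 2 ≤ v ^ 2 := sq_le_sq.2 h.le
  have h1 : Real.exp (-(v ^ 2) / 4) ≤ Real.exp (-(u ^ 2) / 4) := Real.exp_le_exp.2 (by linarith)
  have h2 : EE (max (τ - |v| / 2) 0) < EE (max (τ - |u| / 2) 0) := by
    apply UThree_EE_strictMono
    rw [max_eq_left (a := τ - |u| / 2) (by linarith)]
    exact max_lt (by linarith) (by linarith)
  calc 2 * Real.exp (-(v ^ 2) / 4) * EE (max (τ - |v| / 2) 0)
      ≤ 2 * Real.exp (-(u ^ 2) / 4) * EE (max (τ - |v| / 2) 0) :=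
        mul_le_mul_of_nonneg_right (by linarith) (UThree_EE_nonneg (le_max_right _ _))
    _ < 2 * Real.exp (-(u ^ 2) / 4) * EE (max (τ - |u| / 2) 0) :=
        mul_lt_mul_of_pos_left h2 (by positivity)

/-! ### convolution -/

noncomputable def UThree_b (τ t : ℝ) : ℝ := (Icc (-τ) τ).indicator E t

lemma UThree_b_neg (τ t : ℝ) : UThree_b τ (-t) = UThree_b τ t := by
  unfold UThree_b
  by_cases h : t ∈ Icc (-τ) τ
  · rw [indicator_of_mem h, indicator_of_mem (by constructor <;> linarith [h.1, h.2]), E_neg]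
  · rw [indicator_of_notMem h, indicator_of_notMem]
    intro h2
    exact h ⟨by linarith [h2.2], by linarith [h2.1]⟩

lemma UThree_b_measurable (τ : ℝ) : Measurable (UThree_b τ) :=
  E_continuous.measurable.indicator measurableSet_Icc

lemma UThree_b_bound (τ t : ℝ) : ‖UThree_b τ t‖ ≤ 1 := by
  unfold UThree_b
  refine (norm_indicator_le_norm_self E t).trans ?_
  rw [Real.norm_eq_abs, abs_of_pos (E_pos t)]
  exact Real.exp_le_one_iff.2 (by nlinarith [sq_nonneg t])

lemma UThree_b_mul_integrable (τ : ℝ) {f : ℝ → ℝ} (hf : Continuous f) :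
    Integrable (fun t => UThree_b τ t * f t) := by
  have h : (fun t => UThree_b τ t * f t) = (Icc (-τ) τ).indicator (fun t => E t * f t) := by
    funext t
    unfold UThree_b
    by_cases h : t ∈ Icc (-τ) τ
    · simp [indicator_of_mem h]
    · simp [indicator_of_notMem h]
  rw [h, integrable_indicator_iff measurableSet_Icc]
  exact (E_continuous.mul hf).continuousOn.integrableOn_compact isCompact_Icc

lemma UThree_integral_b {τ : ℝ} (hτ : 0 < τ) (f : ℝ → ℝ) :
    ∫ t in (-τ)..τ, E t * f t = ∫ t, UThree_b τ t * f t := by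
  have h : (fun t => UThree_b τ t * f t) = (Icc (-τ) τ).indicator (fun t => E t * f t) := by
    funext t
    unfold UThree_b
    by_cases h : t ∈ Icc (-τ) τ
    · simp [indicator_of_mem h]
    · simp [indicator_of_notMem h]
  rw [h, integral_indicator measurableSet_Icc, intervalIntegral.integral_of_le (by linarith),
    integral_Icc_eq_integral_Ioc]

/-- `rX` is the convolution square of the truncated Gaussian -/
lemma UThree_conv {τ : ℝ} (_hτ : 0 < τ) (v : ℝ) :
    ∫ t, UThree_b τ t * UThree_b τ (v - t) = rX τ v := by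
  -- nonnegative v
  have main : ∀ v : ℝ, 0 ≤ v → ∫ t, UThree_b τ t * UThree_b τ (v - t) = rX τ v := by
    intro v hv
    rcases le_total v (2 * τ) with h2 | h2
    · have h : (fun t => UThree_b τ t * UThree_b τ (v - t)) =
          (Icc (v - τ) τ).indicator (fun t => Real.exp (-(v ^ 2) / 4) *
            Real.exp (-((t - v / 2) ^ 2))) := by
        funext t
        unfold UThree_b
        by_cases h : t ∈ Icc (v - τ) τ
        · have h10 : t ∈ Icc (-τ) τ := ⟨by linarith [h.1], h.2⟩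
          have h11 : v - t ∈ Icc (-τ) τ := ⟨by linarith [h.2], by linarith [h.1]⟩
          rw [indicator_of_mem h, indicator_of_mem h10, indicator_of_mem h11]
          unfold E
          rw [← Real.exp_add, ← Real.exp_add]
          congr 1
          ring
        · rw [indicator_of_notMem h]
          by_cases h3 : t ∈ Icc (-τ) τ
          · rw [indicator_of_notMem (s := Icc (-τ) τ) (a := v - t), mul_zero]
            intro h4
            exact h ⟨by linarith [h4.2], h3.2⟩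
          · rw [indicator_of_notMem h3, zero_mul]
      rw [h, integral_indicator measurableSet_Icc, integral_Icc_eq_integral_Ioc,
        ← intervalIntegral.integral_of_le (by linarith), intervalIntegral.integral_const_mul,
        intervalIntegral.integral_comp_sub_right (fun u => Real.exp (-(u ^ 2)))]
      have hc : Continuous fun u : ℝ => Real.exp (-(u ^ 2)) := by fun_prop
      have h5 : ∫ u in (v - τ - v / 2)..(τ - v / 2), Real.exp (-(u ^ 2)) =
          2 * EE (τ - v / 2) := by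
        have h6 := intervalIntegral.integral_add_adjacent_intervals
          (hc.intervalIntegrable (μ := volume) (v - τ - v / 2) 0)
          (hc.intervalIntegrable (μ := volume) 0 (τ - v / 2))
        rw [← h6]
        have h7 : ∫ u in (v - τ - v / 2)..0, Real.exp (-(u ^ 2)) =
            ∫ u in (0 : ℝ)..(τ - v / 2), Real.exp (-(u ^ 2)) := by
          have h8 := intervalIntegral.integral_comp_neg (a := 0) (b := τ - v / 2)
            (fun u : ℝ => Real.exp (-(u ^ 2)))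
          simp only [neg_sq, neg_zero] at h8
          rw [h8]
          congr 1
          ring
        rw [h7]
        unfold EE
        ring
      rw [h5, UTwo_rX_eq hv h2]
      ring
    · rw [UThree_rX_zero (by rw [abs_of_nonneg hv]; exact h2)]
      have h3 : ∀ᵐ t : ℝ, UThree_b τ t * UThree_b τ (v - t) = 0 := by
        have h4 : ∀ᵐ t : ℝ, t ≠ τ := by simp [ae_iff, measure_singleton]
        filter_upwards [h4] with t ht
        unfold UThree_b
        by_cases h5 : t ∈ Icc (-τ) τ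
        · rw [indicator_of_notMem (s := Icc (-τ) τ) (a := v - t), mul_zero]
          intro h6
          exact ht (le_antisymm h5.2 (by linarith [h6.2]))
        · rw [indicator_of_notMem h5, zero_mul]
      rw [integral_congr_ae h3, integral_zero]
  rcases le_total 0 v with hv | hv
  · exact main v hv
  · have h1 := main (-v) (by linarith)
    rw [UThree_rX_even] at h1
    rw [← h1, ← integral_neg_eq_self]
    congr 1
    funext t
    rw [UThree_b_neg, ← UThree_b_neg τ (v - -t)]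
    congr 2
    ring

lemma UThree_bb_integrable (τ v : ℝ) {f : ℝ → ℝ} (hf : Continuous f) :
    Integrable (fun t => UThree_b τ t * f t * UThree_b τ (v - t)) := by
  refine (UThree_b_mul_integrable τ hf).mul_bdd (c := 1) ?_ ?_
  · exact ((UThree_b_measurable τ).comp (measurable_const.sub measurable_id)).aestronglyMeasurable
  · exact Filter.Eventually.of_forall fun t => UThree_b_bound τ _

/-- first moment of the convolution square -/
lemma UThree_conv_one {τ : ℝ} (hτ : 0 < τ) (v : ℝ) :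
    ∫ t, UThree_b τ t * t * UThree_b τ (v - t) = v / 2 * rX τ v := by
  have h1 : ∫ t, UThree_b τ t * t * UThree_b τ (v - t) =
      ∫ t, (v * (UThree_b τ t * 1 * UThree_b τ (v - t)) -
        UThree_b τ t * t * UThree_b τ (v - t)) := by
    rw [← integral_sub_left_eq_self (fun t => UThree_b τ t * t * UThree_b τ (v - t)) volume v]
    congr 1
    funext t
    have : v - (v - t) = t := by ring
    rw [this]
    ring
  rw [integral_sub ((UThree_bb_integrable τ v continuous_const).const_mul v)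
    (UThree_bb_integrable τ v continuous_id'), integral_const_mul] at h1
  have h2 : ∫ t, UThree_b τ t * 1 * UThree_b τ (v - t) = rX τ v := by
    rw [← UThree_conv hτ v]
    congr 1
    funext t
    ring
  rw [h2] at h1
  linarith

/-- the first moment integral of `r3` -/
noncomputable def UThree_A (τ x : ℝ) : ℝ := ∫ t in (-τ)..τ, t * E t * rX τ (x - t)

lemma UThree_A_eq {τ : ℝ} (hτ : 0 < τ) (x : ℝ) : UThree_A τ x = x * r3 τ x / 3 := by
  have hrc := UThree_rX_continuous τ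
  have hcx : Continuous fun t : ℝ => rX τ (x - t) := hrc.comp (by fun_prop)
  have hr3 : r3 τ x = ∫ t, UThree_b τ t * rX τ (x - t) := UThree_integral_b hτ _
  have hA : UThree_A τ x = ∫ t, UThree_b τ t * (t * rX τ (x - t)) := by
    rw [← UThree_integral_b hτ]
    unfold UThree_A
    congr 1
    funext t
    ring
  -- Fubini
  have hswap : ∫ t, (∫ s, UThree_b τ t * t * (UThree_b τ s * UThree_b τ (x - t - s))) =
      ∫ s, (∫ t, UThree_b τ t * t * (UThree_b τ s * UThree_b τ (x - t - s))) := by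
    apply integral_integral_swap
    have h1 : Integrable (fun p : ℝ × ℝ => (UThree_b τ p.1 * p.1) * (UThree_b τ p.2 * 1))
        (volume.prod volume) :=
      (UThree_b_mul_integrable τ continuous_id').mul_prod
        (UThree_b_mul_integrable τ continuous_const)
    have h2 : Measurable (fun p : ℝ × ℝ => UThree_b τ (x - p.1 - p.2)) :=
      (UThree_b_measurable τ).comp ((measurable_const.sub measurable_fst).sub measurable_snd)
    have h3 := h1.mul_bdd (c := 1) h2.aestronglyMeasurable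
      (Filter.Eventually.of_forall fun p => UThree_b_bound τ _)
    refine h3.congr (Filter.Eventually.of_forall fun p => ?_)
    simp only [Function.uncurry]
    ring
  have hL : ∫ t, (∫ s, UThree_b τ t * t * (UThree_b τ s * UThree_b τ (x - t - s))) =
      UThree_A τ x := by
    rw [hA]
    congr 1
    funext t
    rw [integral_const_mul, UThree_conv hτ (x - t)]
    ring
  have hR : ∫ s, (∫ t, UThree_b τ t * t * (UThree_b τ s * UThree_b τ (x - t - s))) =
      x / 2 * r3 τ x - UThree_A τ x / 2 := by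
    have h4 : ∀ s, ∫ t, UThree_b τ t * t * (UThree_b τ s * UThree_b τ (x - t - s)) =
        x / 2 * (UThree_b τ s * rX τ (x - s)) - 1 / 2 * (UThree_b τ s * (s * rX τ (x - s))) := by
      intro s
      have h5 : ∫ t, UThree_b τ t * t * (UThree_b τ s * UThree_b τ (x - t - s)) =
          UThree_b τ s * ∫ t, UThree_b τ t * t * UThree_b τ (x - s - t) := by
        rw [← integral_const_mul]
        congr 1
        funext t
        have : x - t - s = x - s - t := by ring
        rw [this]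
        ring
      rw [h5, UThree_conv_one hτ]
      ring
    simp only [h4]
    have hi2 : Integrable (fun s => UThree_b τ s * (s * rX τ (x - s))) :=
      UThree_b_mul_integrable τ (f := fun s => s * rX τ (x - s)) (continuous_id'.mul hcx)
    rw [integral_sub ((UThree_b_mul_integrable τ hcx).const_mul _)
      (hi2.const_mul _), integral_const_mul,
      integral_const_mul, ← hr3, ← hA]
    ring
  rw [hL, hR] at hswap
  linarith

/-! ### derivative of `r3` -/

/-- primitive of `rX` -/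
noncomputable def UThree_P (τ v : ℝ) : ℝ := ∫ u in (0 : ℝ)..v, rX τ u

lemma UThree_P_hasDerivAt (τ v : ℝ) : HasDerivAt (UThree_P τ) (rX τ v) v :=
  ((UThree_rX_continuous τ).integral_hasStrictDerivAt 0 v).hasDerivAt

lemma UThree_P_continuous (τ : ℝ) : Continuous (UThree_P τ) :=
  continuous_iff_continuousAt.2 fun r => (UThree_P_hasDerivAt τ r).continuousAt

lemma UThree_E_hasDerivAt (t : ℝ) : HasDerivAt E (-(t * E t)) t := by
  have := ((hasDerivAt_pow 2 t).neg.div_const 2).exp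
  refine this.congr_deriv ?_
  unfold E
  norm_num
  ring

lemma UThree_r3_eq (τ x : ℝ) :
    r3 τ x = E τ * (UThree_P τ (x + τ) - UThree_P τ (x - τ)) -
      ∫ t in (-τ)..τ, t * E t * UThree_P τ (x - t) := by
  have hu : ∀ t ∈ uIcc (-τ) τ, HasDerivAt E (-(t * E t)) t := fun t _ => UThree_E_hasDerivAt t
  have hv : ∀ t ∈ uIcc (-τ) τ, HasDerivAt (fun t => -UThree_P τ (x - t)) (rX τ (x - t)) t := by
    intro t _
    have h1 : HasDerivAt (fun t : ℝ => x - t) (-1) t := by
      simpa using (hasDerivAt_id t).const_sub x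
    have h2 := ((UThree_P_hasDerivAt τ (x - t)).comp t h1).neg
    refine h2.congr_deriv ?_
    ring
  have hEc : Continuous E := E_continuous
  have h := intervalIntegral.integral_mul_deriv_eq_deriv_mul hu hv
    ((continuous_id'.mul hEc).neg.intervalIntegrable _ _)
    (((UThree_rX_continuous τ).comp (continuous_const.sub continuous_id')).intervalIntegrable _ _)
  unfold r3
  rw [h, E_neg]
  have h3 : ∫ t in (-τ)..τ, -(t * E t) * -UThree_P τ (x - t) =
      ∫ t in (-τ)..τ, t * E t * UThree_P τ (x - t) := by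
    congr 1
    funext t
    ring
  rw [h3]
  have h4 : x - -τ = x + τ := by ring
  rw [h4]
  ring

lemma UThree_r3_hasDerivAt {τ : ℝ} (hτ : 0 < τ) (x : ℝ) : HasDerivAt (r3 τ) (-(eta3 τ x)) x := by
  have hrc := UThree_rX_continuous τ
  have hEc : Continuous E := E_continuous
  have hPc := UThree_P_continuous τ
  have h1 : HasDerivAt (fun x => UThree_P τ (x + τ)) (rX τ (x + τ)) x := by
    have h0 : HasDerivAt (fun y : ℝ => y + τ) 1 x := (hasDerivAt_id x).add_const τ
    exact ((UThree_P_hasDerivAt τ (x + τ)).comp x h0).congr_deriv (by ring)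
  have h2 : HasDerivAt (fun x => UThree_P τ (x - τ)) (rX τ (x - τ)) x := by
    have h0 : HasDerivAt (fun y : ℝ => y - τ) 1 x := (hasDerivAt_id x).sub_const τ
    exact ((UThree_P_hasDerivAt τ (x - τ)).comp x h0).congr_deriv (by ring)
  have h3 : HasDerivAt (fun x => ∫ t in (-τ)..τ, t * E t * UThree_P τ (x - t))
      (∫ t in (-τ)..τ, t * E t * rX τ (x - t)) x := by
    have hb : ∀ v, |rX τ v| ≤ rX τ 0 := fun v => by
      rw [abs_of_nonneg (UThree_rX_nonneg τ v)]
      exact UThree_rX_anti (by simp)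
    refine (intervalIntegral.hasDerivAt_integral_of_dominated_loc_of_deriv_le
      (F := fun x t => t * E t * UThree_P τ (x - t)) (F' := fun x t => t * E t * rX τ (x - t))
      (s := univ) (bound := fun t => |t * E t| * rX τ 0) Filter.univ_mem ?_ ?_ ?_ ?_ ?_ ?_).2
    · refine Filter.Eventually.of_forall fun y => Continuous.aestronglyMeasurable ?_
      exact (continuous_id'.mul hEc).mul (hPc.comp (continuous_const.sub continuous_id'))
    · exact ((continuous_id'.mul hEc).mul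
        (hPc.comp (continuous_const.sub continuous_id'))).intervalIntegrable _ _
    · exact ((continuous_id'.mul hEc).mul
        (hrc.comp (continuous_const.sub continuous_id'))).aestronglyMeasurable
    · refine Filter.Eventually.of_forall fun t _ y _ => ?_
      rw [Real.norm_eq_abs, abs_mul]
      exact mul_le_mul_of_nonneg_left (hb _) (abs_nonneg _)
    · exact ((continuous_id'.mul hEc).abs.mul continuous_const).intervalIntegrable _ _
    · refine Filter.Eventually.of_forall fun t _ y _ => ?_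
      have h4 : HasDerivAt (fun y : ℝ => y - t) 1 y := (hasDerivAt_id y).sub_const t
      have h5 := ((UThree_P_hasDerivAt τ (y - t)).comp y h4).const_mul (t * E t)
      refine h5.congr_deriv ?_
      ring
  have h6 := ((h1.sub h2).const_mul (E τ)).sub h3
  have h7 : r3 τ = fun x => E τ * (UThree_P τ (x + τ) - UThree_P τ (x - τ)) -
      ∫ t in (-τ)..τ, t * E t * UThree_P τ (x - t) := funext (UThree_r3_eq τ)
  rw [h7]
  refine h6.congr_deriv ?_
  have h8 := UThree_A_eq hτ x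
  unfold UThree_A at h8
  rw [h8]
  unfold eta3
  ring

lemma UThree_r3_nonneg {τ : ℝ} (hτ : 0 < τ) (x : ℝ) : 0 ≤ r3 τ x :=
  intervalIntegral.integral_nonneg (by linarith)
    (fun t _ => mul_nonneg (E_pos t).le (UThree_rX_nonneg τ _))

lemma UThree_delta_nonneg {τ x : ℝ} (hτ : 0 < τ) (hx : 0 ≤ x) :
    0 ≤ rX τ (x - τ) - rX τ (x + τ) := by
  have : rX τ (x + τ) ≤ rX τ (x - τ) := by
    apply UThree_rX_anti
    rw [abs_of_nonneg (by linarith : (0 : ℝ) ≤ x + τ), abs_le]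
    constructor <;> linarith
  linarith

lemma UThree_eta3_nonneg {τ x : ℝ} (hτ : 0 < τ) (hx : 0 ≤ x) : 0 ≤ eta3 τ x := by
  unfold eta3
  have h1 := UThree_r3_nonneg hτ x
  have h2 := UThree_delta_nonneg hτ hx
  have h3 := E_pos τ
  positivity

lemma UThree_r3_continuous {τ : ℝ} (hτ : 0 < τ) : Continuous (r3 τ) :=
  continuous_iff_continuousAt.2 fun x => (UThree_r3_hasDerivAt hτ x).continuousAt

lemma UThree_r3_anti {τ : ℝ} (hτ : 0 < τ) : AntitoneOn (r3 τ) (Ici 0) := by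
  refine antitoneOn_of_deriv_nonpos (convex_Ici 0) (UThree_r3_continuous hτ).continuousOn
    (fun x _ => (UThree_r3_hasDerivAt hτ x).differentiableAt.differentiableWithinAt) ?_
  intro x hx
  rw [interior_Ici] at hx
  rw [(UThree_r3_hasDerivAt hτ x).deriv]
  have := UThree_eta3_nonneg hτ (le_of_lt hx)
  linarith

/-! ### the function `Δ` on `[0, τ]` -/

lemma UThree_Erefl_hasDerivAt (τ v : ℝ) :
    HasDerivAt (fun v => E (τ - v)) ((τ - v) * E (τ - v)) v := by
  have h1 : HasDerivAt (fun v : ℝ => τ - v) (-1) v := by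
    simpa using (hasDerivAt_id v).const_sub τ
  exact ((UThree_E_hasDerivAt (τ - v)).comp v h1).congr_deriv (by ring)

/-- `e = -S'` -/
noncomputable def UThree_e (τ v : ℝ) : ℝ := v / 2 * UThree_S τ v + E τ * E (τ - v)

/-- `q(v) = (v²/4 - 1/2) S(v)` -/
noncomputable def UThree_q (τ v : ℝ) : ℝ := (v ^ 2 / 4 - 1 / 2) * UThree_S τ v

lemma UThree_e_hasDerivAt (τ v : ℝ) : HasDerivAt (UThree_e τ)
    (-(UThree_q τ v) + E τ * E (τ - v) * (τ - 3 * v / 2)) v := by
  have h1 : HasDerivAt (fun v : ℝ => v / 2) (1 / 2) v := (hasDerivAt_id v).div_const 2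
  have h2 := (h1.mul (UThree_S_hasDerivAt τ v)).add
    ((UThree_Erefl_hasDerivAt τ v).const_mul (E τ))
  refine h2.congr_deriv ?_
  unfold UThree_q
  ring

lemma UThree_q_hasDerivAt (τ v : ℝ) : HasDerivAt (UThree_q τ)
    (v / 2 * (3 / 2 - v ^ 2 / 4) * UThree_S τ v - (v ^ 2 / 4 - 1 / 2) * (E τ * E (τ - v))) v := by
  have h1 : HasDerivAt (fun v : ℝ => v ^ 2 / 4 - 1 / 2) (v / 2) v := by
    have := ((hasDerivAt_pow 2 v).div_const 4).sub_const (1 / 2)
    refine this.congr_deriv ?_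
    norm_num
    ring
  refine (h1.mul (UThree_S_hasDerivAt τ v)).congr_deriv ?_
  ring

lemma UThree_refl {f : ℝ → ℝ} {f' τ x : ℝ} (h : HasDerivAt f f' (τ - x)) :
    HasDerivAt (fun x => f (τ - x)) (-f') x := by
  have h1 : HasDerivAt (fun v : ℝ => τ - v) (-1) x := by
    simpa using (hasDerivAt_id x).const_sub τ
  exact (h.comp x h1).congr_deriv (by ring)

lemma UThree_tran {f : ℝ → ℝ} {f' τ x : ℝ} (h : HasDerivAt f f' (τ + x)) :
    HasDerivAt (fun x => f (τ + x)) f' x := by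
  have h1 : HasDerivAt (fun v : ℝ => τ + v) 1 x := by
    simpa using (hasDerivAt_id x).const_add τ
  exact (h.comp x h1).congr_deriv (by ring)

/-- `Δ` on `[0,τ]` -/
noncomputable def UThree_D0 (τ x : ℝ) : ℝ := UThree_S τ (τ - x) - UThree_S τ (τ + x)

noncomputable def UThree_D1 (τ x : ℝ) : ℝ := UThree_e τ (τ - x) + UThree_e τ (τ + x)

noncomputable def UThree_D2 (τ x : ℝ) : ℝ :=
  UThree_q τ (τ - x) - UThree_q τ (τ + x) - 3 * E τ * (x * E x)

lemma UThree_D0_hasDerivAt (τ x : ℝ) : HasDerivAt (UThree_D0 τ) (UThree_D1 τ x) x := by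
  have h1 := UThree_refl (UThree_S_hasDerivAt τ (τ - x))
  have h2 := UThree_tran (UThree_S_hasDerivAt τ (τ + x))
  refine (h1.sub h2).congr_deriv ?_
  unfold UThree_D1 UThree_e
  ring

lemma UThree_D1_hasDerivAt (τ x : ℝ) : HasDerivAt (UThree_D1 τ) (UThree_D2 τ x) x := by
  have h1 := UThree_refl (UThree_e_hasDerivAt τ (τ - x))
  have h2 := UThree_tran (UThree_e_hasDerivAt τ (τ + x))
  refine (h1.add h2).congr_deriv ?_
  have e1 : τ - (τ - x) = x := by ring
  have e2 : τ - (τ + x) = -x := by ring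
  rw [e1, e2, E_neg]
  unfold UThree_D2
  ring

lemma UThree_xE_hasDerivAt (x : ℝ) : HasDerivAt (fun x => x * E x) ((1 - x ^ 2) * E x) x := by
  refine ((hasDerivAt_id' x).mul (UThree_E_hasDerivAt x)).congr_deriv ?_
  ring

lemma UThree_D2_hasDerivAt (τ x : ℝ) : HasDerivAt (UThree_D2 τ)
    ((τ - x) / 2 * ((τ - x) ^ 2 / 4 - 3 / 2) * UThree_S τ (τ - x) +
      (τ + x) / 2 * ((τ + x) ^ 2 / 4 - 3 / 2) * UThree_S τ (τ + x) +
      E τ * E x * ((τ ^ 2 + x ^ 2) / 2 - 1 - 3 * (1 - x ^ 2))) x := by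
  have h1 := UThree_refl (UThree_q_hasDerivAt τ (τ - x))
  have h2 := UThree_tran (UThree_q_hasDerivAt τ (τ + x))
  have h3 := (UThree_xE_hasDerivAt x).const_mul (3 * E τ)
  refine ((h1.sub h2).sub h3).congr_deriv ?_
  have e1 : τ - (τ - x) = x := by ring
  have e2 : τ - (τ + x) = -x := by ring
  rw [e1, e2, E_neg]
  ring

lemma UThree_G_hasDerivAt (x : ℝ) : HasDerivAt G (E x) x :=
  (E_continuous.integral_hasStrictDerivAt 0 x).hasDerivAt

lemma UThree_G_nonneg {x : ℝ} (hx : 0 ≤ x) : 0 ≤ G x :=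
  intervalIntegral.integral_nonneg hx (fun u _ => (E_pos u).le)

lemma UThree_E_le_one (x : ℝ) : E x ≤ 1 := Real.exp_le_one_iff.2 (by nlinarith [sq_nonneg x])

lemma UThree_G_le {x : ℝ} (hx : 0 ≤ x) : G x ≤ x := by
  have hd : ∀ x : ℝ, HasDerivAt (fun x => x - G x) (1 - E x) x :=
    fun x => (hasDerivAt_id' x).sub (UThree_G_hasDerivAt x)
  have hm : Monotone (fun x => x - G x) :=
    monotone_of_deriv_nonneg (fun x => (hd x).differentiableAt) (fun x => by
      rw [(hd x).deriv]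
      have := UThree_E_le_one x
      linarith)
  have := hm hx
  have h0 : G 0 = 0 := by simp [G]
  simp only [h0] at this
  linarith

/-- bound of `Δ''` -/
lemma UThree_D2_le {τ κ : ℝ} (hτ : 0 < τ)
    (hκ : ∀ v, 0 ≤ v → v ≤ 2 * τ → v / 2 * (v ^ 2 / 4 - 3 / 2) * UThree_S τ v ≤ κ)
    {x : ℝ} (hx : 0 ≤ x) (hxτ : x ≤ τ) :
    UThree_D2 τ x ≤ 2 * κ * x + E τ * (τ ^ 2 - 1) / 2 * G x - 7 / 2 * E τ * (x * E x) := by
  have hd : ∀ x : ℝ, HasDerivAt (fun x => 2 * κ * x + E τ * (τ ^ 2 - 1) / 2 * G x -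
      7 / 2 * E τ * (x * E x) - UThree_D2 τ x)
      (2 * κ - ((τ - x) / 2 * ((τ - x) ^ 2 / 4 - 3 / 2) * UThree_S τ (τ - x) +
      (τ + x) / 2 * ((τ + x) ^ 2 / 4 - 3 / 2) * UThree_S τ (τ + x))) x := by
    intro x
    have h1 := (((hasDerivAt_id' x).const_mul (2 * κ)).add
      ((UThree_G_hasDerivAt x).const_mul (E τ * (τ ^ 2 - 1) / 2))).sub
      ((UThree_xE_hasDerivAt x).const_mul (7 / 2 * E τ))
    refine (h1.sub (UThree_D2_hasDerivAt τ x)).congr_deriv ?_
    ring
  have hm : MonotoneOn (fun x => 2 * κ * x + E τ * (τ ^ 2 - 1) / 2 * G x -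
      7 / 2 * E τ * (x * E x) - UThree_D2 τ x) (Icc 0 τ) := by
    refine monotoneOn_of_deriv_nonneg (convex_Icc 0 τ)
      (fun x _ => (hd x).continuousAt.continuousWithinAt)
      (fun x _ => (hd x).differentiableAt.differentiableWithinAt) ?_
    intro x hx
    rw [interior_Icc] at hx
    rw [(hd x).deriv]
    have h1 := hκ (τ - x) (by linarith [hx.2]) (by linarith [hx.1])
    have h2 := hκ (τ + x) (by linarith [hx.1]) (by linarith [hx.2])
    linarith
  have h := hm ⟨le_rfl, hτ.le⟩ ⟨hx, hxτ⟩ hx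
  have h0 : G 0 = 0 := by simp [G]
  have h1 : UThree_D2 τ 0 = 0 := by
    unfold UThree_D2
    simp
  simp only [h0, h1] at h
  linarith

/-- `Ψ = x Δ' - Δ` -/
noncomputable def UThree_Psi (τ x : ℝ) : ℝ := x * UThree_D1 τ x - UThree_D0 τ x

lemma UThree_Psi_hasDerivAt (τ x : ℝ) : HasDerivAt (UThree_Psi τ) (x * UThree_D2 τ x) x := by
  refine (((hasDerivAt_id' x).mul (UThree_D1_hasDerivAt τ x)).sub
    (UThree_D0_hasDerivAt τ x)).congr_deriv ?_
  ring

lemma UThree_Psi_le {τ M : ℝ} (hτ : 0 < τ) (hM : ∀ x, 0 ≤ x → x ≤ τ → UThree_D2 τ x ≤ 2 * M * x)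
    {x : ℝ} (hx : 0 ≤ x) (hxτ : x ≤ τ) : UThree_Psi τ x ≤ 2 / 3 * M * x ^ 3 := by
  have hd : ∀ x : ℝ, HasDerivAt (fun x => 2 / 3 * M * x ^ 3 - UThree_Psi τ x)
      (2 * M * x ^ 2 - x * UThree_D2 τ x) x := by
    intro x
    refine (((hasDerivAt_pow 3 x).const_mul (2 / 3 * M)).sub
      (UThree_Psi_hasDerivAt τ x)).congr_deriv ?_
    norm_num
    ring
  have hm : MonotoneOn (fun x => 2 / 3 * M * x ^ 3 - UThree_Psi τ x) (Icc 0 τ) := by
    refine monotoneOn_of_deriv_nonneg (convex_Icc 0 τ)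
      (fun x _ => (hd x).continuousAt.continuousWithinAt)
      (fun x _ => (hd x).differentiableAt.differentiableWithinAt) ?_
    intro x hx
    rw [interior_Icc] at hx
    rw [(hd x).deriv]
    have h1 := hM x hx.1.le hx.2.le
    nlinarith [hx.1]
  have h := hm ⟨le_rfl, hτ.le⟩ ⟨hx, hxτ⟩ hx
  have h1 : UThree_Psi τ 0 = 0 := by
    unfold UThree_Psi UThree_D0
    simp
  simp only [h1] at h
  linarith

/-! ### numerical part -/

lemma UThree_S_nonneg {τ v : ℝ} (h0 : 0 ≤ v) (h1 : v ≤ 2 * τ) : 0 ≤ UThree_S τ v := by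
  rw [← UThree_rX_eq h0 h1]
  exact UThree_rX_nonneg τ v

lemma UThree_caseA {τ : ℝ} (hτ : 0 < τ) (hτ2 : τ ^ 2 ≤ 3 / 2) {x : ℝ} (hx : 0 ≤ x) (hxτ : x ≤ τ) :
    UThree_D2 τ x ≤ 2 * 0 * x := by
  have hκ : ∀ v, 0 ≤ v → v ≤ 2 * τ → v / 2 * (v ^ 2 / 4 - 3 / 2) * UThree_S τ v ≤ 0 := by
    intro v h0 h1
    have h2 : v ^ 2 / 4 - 3 / 2 ≤ 0 := by nlinarith
    have h3 := UThree_S_nonneg h0 h1
    have h4 : v / 2 * (v ^ 2 / 4 - 3 / 2) ≤ 0 := mul_nonpos_of_nonneg_of_nonpos (by linarith) h2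
    exact mul_nonpos_of_nonpos_of_nonneg h4 h3
  refine (UThree_D2_le hτ hκ hx hxτ).trans ?_
  have hg := E_pos τ
  have hE := E_pos x
  have hG0 := UThree_G_nonneg hx
  have hG1 := UThree_G_le hx
  have h1 : (τ ^ 2 - 1) / 2 * G x ≤ 7 / 2 * (x * E x) := by
    rcases le_total (τ ^ 2) 1 with h | h
    · have h2 : (τ ^ 2 - 1) / 2 * G x ≤ 0 :=
        mul_nonpos_of_nonpos_of_nonneg (by linarith) hG0
      have h3 : 0 ≤ 7 / 2 * (x * E x) := by positivity
      linarith
    · have h2 : (τ ^ 2 - 1) / 2 * G x ≤ 1 / 4 * x :=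
        mul_le_mul (by linarith) hG1 hG0 (by norm_num)
      have h3 : 1 / 4 ≤ E x := by
        unfold E
        have h4 : -(x ^ 2) / 2 ≥ -(3 / 4) := by nlinarith
        have h5 : Real.exp (-(3 / 4)) ≤ Real.exp (-(x ^ 2) / 2) := Real.exp_le_exp.2 h4
        have h6 := Real.add_one_le_exp (-(3 / 4) : ℝ)
        linarith
      nlinarith
  have h2 : E τ * (τ ^ 2 - 1) / 2 * G x - 7 / 2 * E τ * (x * E x) =
      E τ * ((τ ^ 2 - 1) / 2 * G x - 7 / 2 * (x * E x)) := by ring
  have h3 : E τ * ((τ ^ 2 - 1) / 2 * G x - 7 / 2 * (x * E x)) ≤ 0 :=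
    mul_nonpos_of_nonneg_of_nonpos hg.le (by linarith)
  linarith

lemma UThree_exp_a : (3.49 : ℝ) ≤ Real.exp 1.25 := by
  have h := Real.sum_le_exp_of_nonneg (x := (1.25 : ℝ)) (by norm_num) 10
  refine le_trans ?_ h
  simp only [Finset.sum_range_succ, Finset.sum_range_zero, Nat.factorial]
  norm_num

lemma UThree_exp_b : (5.7 : ℝ) ≤ Real.exp 1.75 := by
  have h := Real.sum_le_exp_of_nonneg (x := (1.75 : ℝ)) (by norm_num) 10
  refine le_trans ?_ h
  simp only [Finset.sum_range_succ, Finset.sum_range_zero, Nat.factorial]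
  norm_num

lemma UThree_exp_c : (2.459 : ℝ) ≤ Real.exp 0.9 := by
  have h := Real.sum_le_exp_of_nonneg (x := (0.9 : ℝ)) (by norm_num) 10
  refine le_trans ?_ h
  simp only [Finset.sum_range_succ, Finset.sum_range_zero, Nat.factorial]
  norm_num

/-- `w (w² - 3/2) e^{-w²} ≤ 1/5` -/
lemma UThree_w {w : ℝ} (hw : 0 ≤ w) (hw2 : 3 / 2 ≤ w ^ 2) :
    w * (w ^ 2 - 3 / 2) * Real.exp (-(w ^ 2)) ≤ 1 / 5 := by
  have h1 : 3.49 * (w ^ 2 / 2 - 1 / 4) ≤ Real.exp (w ^ 2 / 2) := by
    have h2 := Real.add_one_le_exp (w ^ 2 / 2 - 1.25)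
    have h3 : Real.exp (w ^ 2 / 2) = Real.exp 1.25 * Real.exp (w ^ 2 / 2 - 1.25) := by
      rw [← Real.exp_add]
      congr 1
      ring
    rw [h3]
    have h4 : w ^ 2 / 2 - 1 / 4 ≤ Real.exp (w ^ 2 / 2 - 1.25) := by
      norm_num at h2 ⊢
      linarith
    exact mul_le_mul UThree_exp_a h4 (by linarith) (Real.exp_pos _).le
  have h5 : Real.exp (w ^ 2) = Real.exp (w ^ 2 / 2) ^ 2 := by
    rw [← Real.exp_nat_mul]
    congr 1
    push_cast
    ring
  have h6 : (3.49 * (w ^ 2 / 2 - 1 / 4)) ^ 2 ≤ Real.exp (w ^ 2) := by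
    rw [h5]
    exact pow_le_pow_left₀ (by nlinarith) h1 2
  have h7 : w * (w ^ 2 - 3 / 2) ≤ 1 / 5 * (3.49 * (w ^ 2 / 2 - 1 / 4)) ^ 2 := by
    have hw1 : 1.2 ≤ w := by
      by_contra h
      push Not at h
      nlinarith
    norm_num
    nlinarith [sq_nonneg (w ^ 2 - 5 / 4 * w), sq_nonneg (w - 5 / 4), sq_nonneg (w ^ 2 - 3 / 2),
      mul_nonneg hw (sq_nonneg (w - 5 / 4))]
  rw [Real.exp_neg, ← div_eq_mul_inv, div_le_iff₀ (Real.exp_pos _)]
  linarith

lemma UThree_kappa {τ s : ℝ} (_hs0 : 0 < s) (hs : s ^ 2 = 3 / 2) (hsτ : s ≤ τ) :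
    ∀ v, 0 ≤ v → v ≤ 2 * τ → v / 2 * (v ^ 2 / 4 - 3 / 2) * UThree_S τ v ≤ 2 / 5 * (τ - s) := by
  intro v h0 h1
  have h3 := UThree_S_nonneg h0 h1
  rcases le_total ((v / 2) ^ 2) (3 / 2) with h | h
  · have h4 : v / 2 * (v ^ 2 / 4 - 3 / 2) ≤ 0 :=
      mul_nonpos_of_nonneg_of_nonpos (by linarith) (by nlinarith)
    have h5 := mul_nonpos_of_nonpos_of_nonneg h4 h3
    linarith
  · have h4 := UThree_w (w := v / 2) (by linarith) h
    have h5 : s ≤ v / 2 := by
      apply le_of_sq_le_sq _ (by linarith)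
      linarith
    have h6 : EE (τ - v / 2) ≤ τ - s := (UThree_EE_le (by linarith)).trans (by linarith)
    have h7 : 0 ≤ EE (τ - v / 2) := UThree_EE_nonneg (by linarith)
    have h8 : v / 2 * (v ^ 2 / 4 - 3 / 2) * UThree_S τ v =
        2 * (v / 2 * ((v / 2) ^ 2 - 3 / 2) * Real.exp (-((v / 2) ^ 2))) * EE (τ - v / 2) := by
      unfold UThree_S
      have : -(v ^ 2) / 4 = -((v / 2) ^ 2) := by ring
      rw [this]
      ring
    rw [h8]
    calc 2 * (v / 2 * ((v / 2) ^ 2 - 3 / 2) * Real.exp (-((v / 2) ^ 2))) * EE (τ - v / 2)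
        ≤ 2 * (1 / 5) * EE (τ - v / 2) := mul_le_mul_of_nonneg_right (by linarith) h7
      _ ≤ 2 * (1 / 5) * (τ - s) := mul_le_mul_of_nonneg_left h6 (by norm_num)
      _ = 2 / 5 * (τ - s) := by ring

lemma UThree_caseB {τ s : ℝ} (hs0 : 0 < s) (hs : s ^ 2 = 3 / 2) (hsτ : s ≤ τ) {x : ℝ}
    (hx : 0 ≤ x) (hxτ : x ≤ τ) :
    UThree_D2 τ x ≤ 2 * (2 / 5 * (τ - s) + E τ * (τ ^ 2 - 1) / 4) * x := by
  have hτ : 0 < τ := lt_of_lt_of_le hs0 hsτ
  refine (UThree_D2_le hτ (UThree_kappa hs0 hs hsτ) hx hxτ).trans ?_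
  have hg := E_pos τ
  have hE := E_pos x
  have hG1 := UThree_G_le hx
  have h1 : 0 ≤ τ ^ 2 - 1 := by nlinarith
  have h2 : E τ * (τ ^ 2 - 1) / 2 * G x ≤ E τ * (τ ^ 2 - 1) / 2 * x :=
    mul_le_mul_of_nonneg_left hG1 (by positivity)
  have h3 : 0 ≤ 7 / 2 * E τ * (x * E x) := by positivity
  nlinarith

lemma UThree_r3_lower {τ : ℝ} (hτ : 0 < τ) :
    4 * τ / 3 * (Real.exp (-(τ ^ 2) / 4) * EE (τ / 2)) ≤ r3 τ τ := by
  have hrc := UThree_rX_continuous τ
  have hc : Continuous fun t : ℝ => E t * rX τ (τ - t) :=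
    E_continuous.mul (hrc.comp (continuous_const.sub continuous_id'))
  have h1 : ∫ t in (0 : ℝ)..(2 * τ / 3), E t * rX τ (τ - t) ≤ r3 τ τ := by
    unfold r3
    apply intervalIntegral.integral_mono_interval (by linarith) (by linarith) (by linarith)
    · exact Filter.Eventually.of_forall fun t => mul_nonneg (E_pos t).le (UThree_rX_nonneg τ _)
    · exact hc.intervalIntegrable _ _
  have h2 : ∫ t in (0 : ℝ)..(2 * τ / 3), (2 * (Real.exp (-(τ ^ 2) / 4) * EE (τ / 2))) ≤
      ∫ t in (0 : ℝ)..(2 * τ / 3), E t * rX τ (τ - t) := by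
    apply intervalIntegral.integral_mono_on (by linarith) (by simp)
      (hc.intervalIntegrable _ _)
    intro t ht
    have ht0 := ht.1
    have ht1 := ht.2
    rw [UThree_rX_eq (by linarith) (by linarith)]
    unfold UThree_S E
    have h3 : Real.exp (-(t ^ 2) / 2) * (2 * Real.exp (-((τ - t) ^ 2) / 4) *
        EE (τ - (τ - t) / 2)) = 2 * (Real.exp (-(t ^ 2) / 2 + -((τ - t) ^ 2) / 4) *
        EE (τ - (τ - t) / 2)) := by
      rw [Real.exp_add]
      ring
    rw [h3]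
    have h4 : Real.exp (-(τ ^ 2) / 4) ≤ Real.exp (-(t ^ 2) / 2 + -((τ - t) ^ 2) / 4) := by
      apply Real.exp_le_exp.2
      nlinarith
    have h5 : EE (τ / 2) ≤ EE (τ - (τ - t) / 2) := UThree_EE_mono (by linarith)
    have h6 : 0 ≤ EE (τ / 2) := UThree_EE_nonneg (by linarith)
    have h7 := mul_le_mul h4 h5 h6 (Real.exp_pos _).le
    linarith
  rw [intervalIntegral.integral_const, smul_eq_mul] at h2
  have h8 : (2 * τ / 3 - 0) * (2 * (Real.exp (-(τ ^ 2) / 4) * EE (τ / 2))) =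
      4 * τ / 3 * (Real.exp (-(τ ^ 2) / 4) * EE (τ / 2)) := by ring
  linarith

lemma UThree_EE_six : (0.51 : ℝ) ≤ EE 0.6 := by
  have h := UTwo_EE_lower (r := 0.6) (by norm_num)
  have h1 : (0.91 : ℝ) ^ 4 ≤ Real.exp (-(0.6 ^ 2)) := by
    have h2 : Real.exp (-(0.6 ^ 2)) = Real.exp (-0.09) ^ 4 := by
      rw [← Real.exp_nat_mul]
      congr 1
      norm_num
    rw [h2]
    apply pow_le_pow_left₀ (by norm_num)
    have h3 := Real.add_one_le_exp (-0.09 : ℝ)
    norm_num at h3 ⊢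
    linarith
  have h4 : (0.744 : ℝ) * 0.91 ^ 4 ≤ (0.6 + 2 / 3 * 0.6 ^ 3) * Real.exp (-(0.6 ^ 2)) := by
    have h5 : (0.6 + 2 / 3 * 0.6 ^ 3 : ℝ) = 0.744 := by norm_num
    rw [h5]
    exact mul_le_mul_of_nonneg_left h1 (by norm_num)
  have h6 : (0.51 : ℝ) ≤ 0.744 * 0.91 ^ 4 := by norm_num
  linarith

lemma UThree_numeric {τ s : ℝ} (hs0 : 0 < s) (hs : s ^ 2 = 3 / 2) (hsτ : s ≤ τ) :
    6 * E τ * (2 / 5 * (τ - s) + E τ * (τ ^ 2 - 1) / 4) ≤ r3 τ τ := by
  have hτ : 0 < τ := lt_of_lt_of_le hs0 hsτ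
  have hs1 : 1.2247 ≤ s := by
    by_contra h
    push Not at h
    nlinarith
  have hτ2 : 3 / 2 ≤ τ ^ 2 := by nlinarith
  refine le_trans ?_ (UThree_r3_lower hτ)
  set a := Real.exp (-(τ ^ 2) / 4) with ha
  have ha0 : 0 < a := Real.exp_pos _
  have hEa : E τ = a ^ 2 := by
    unfold E
    rw [ha, ← Real.exp_nat_mul]
    congr 1
    push_cast
    ring
  -- first term
  have hT1 : 2.4 * a * (τ - s) ≤ 0.393 * τ := by
    have h1 := Real.add_one_le_exp (τ ^ 2 / 4 - 0.9)
    have h2 : Real.exp (τ ^ 2 / 4) = Real.exp 0.9 * Real.exp (τ ^ 2 / 4 - 0.9) := by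
      rw [← Real.exp_add]
      congr 1
      ring
    have h3 : 2.459 * (τ ^ 2 / 4 + 0.1) ≤ Real.exp (τ ^ 2 / 4) := by
      rw [h2]
      refine mul_le_mul UThree_exp_c ?_ (by positivity) (Real.exp_pos _).le
      norm_num at h1 ⊢
      linarith
    have h4 : a * Real.exp (τ ^ 2 / 4) = 1 := by
      rw [ha, ← Real.exp_add]
      have : -(τ ^ 2) / 4 + τ ^ 2 / 4 = 0 := by ring
      rw [this, Real.exp_zero]
    have h5 : 2.4 * (τ - s) ≤ 0.393 * τ * (2.459 * (τ ^ 2 / 4 + 0.1)) := by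
      have h6 : 0 ≤ (τ + 3.56) * (τ - 1.78) ^ 2 := by positivity
      norm_num at h6 ⊢
      nlinarith
    have h7 : 0.393 * τ * (2.459 * (τ ^ 2 / 4 + 0.1)) ≤ 0.393 * τ * Real.exp (τ ^ 2 / 4) :=
      mul_le_mul_of_nonneg_left h3 (by positivity)
    have h8 : a * (2.4 * (τ - s)) ≤ a * (0.393 * τ * Real.exp (τ ^ 2 / 4)) :=
      mul_le_mul_of_nonneg_left (h5.trans h7) ha0.le
    have h9 : a * (0.393 * τ * Real.exp (τ ^ 2 / 4)) = 0.393 * τ * (a * Real.exp (τ ^ 2 / 4)) := by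
      ring
    rw [h9, h4] at h8
    linarith
  -- second term
  have hT2 : 1.5 * a ^ 3 * (τ ^ 2 - 1) ≤ 0.287 * τ := by
    have h1 := Real.add_one_le_exp (3 * τ ^ 2 / 4 - 1.75)
    have h2 : Real.exp (3 * τ ^ 2 / 4) = Real.exp 1.75 * Real.exp (3 * τ ^ 2 / 4 - 1.75) := by
      rw [← Real.exp_add]
      congr 1
      ring
    have h3 : 5.7 * (3 / 4 * (τ ^ 2 - 1)) ≤ Real.exp (3 * τ ^ 2 / 4) := by
      rw [h2]
      refine mul_le_mul UThree_exp_b ?_ (by nlinarith) (Real.exp_pos _).le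
      norm_num at h1 ⊢
      linarith
    have h4 : a ^ 3 * Real.exp (3 * τ ^ 2 / 4) = 1 := by
      rw [ha, ← Real.exp_nat_mul, ← Real.exp_add]
      have : ((3 : ℕ) : ℝ) * (-(τ ^ 2) / 4) + 3 * τ ^ 2 / 4 = 0 := by push_cast; ring
      rw [this, Real.exp_zero]
    have h5 : a ^ 3 * (5.7 * (3 / 4 * (τ ^ 2 - 1))) ≤ a ^ 3 * Real.exp (3 * τ ^ 2 / 4) :=
      mul_le_mul_of_nonneg_left h3 (by positivity)
    rw [h4] at h5
    norm_num at h5 ⊢
    nlinarith
  -- the integral
  have hEE : 0.51 ≤ EE (τ / 2) := UThree_EE_six.trans (UThree_EE_mono (by linarith))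
  rw [hEa]
  have h1 : 6 * a ^ 2 * (2 / 5 * (τ - s) + a ^ 2 * (τ ^ 2 - 1) / 4) =
      a * (2.4 * a * (τ - s) + 1.5 * a ^ 3 * (τ ^ 2 - 1)) := by
    norm_num
    ring
  have h2 : 4 * τ / 3 * (a * EE (τ / 2)) = a * (4 * τ / 3 * EE (τ / 2)) := by ring
  rw [h1, h2]
  apply mul_le_mul_of_nonneg_left _ ha0.le
  have h3 : 4 * τ / 3 * 0.51 ≤ 4 * τ / 3 * EE (τ / 2) :=
    mul_le_mul_of_nonneg_left hEE (by positivity)
  norm_num at h3 hT1 hT2 ⊢
  linarith

/-- common form of both cases -/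
lemma UThree_exists_M {τ : ℝ} (hτ : 0 < τ) : ∃ M : ℝ, 0 ≤ M ∧ 6 * E τ * M ≤ r3 τ τ ∧
    ∀ x, 0 ≤ x → x ≤ τ → UThree_D2 τ x ≤ 2 * M * x := by
  rcases le_total (τ ^ 2) (3 / 2) with h | h
  · exact ⟨0, le_rfl, by simpa using UThree_r3_nonneg hτ τ, fun x h0 h1 => UThree_caseA hτ h h0 h1⟩
  · have hs0 : 0 < Real.sqrt (3 / 2) := Real.sqrt_pos.2 (by norm_num)
    have hs : Real.sqrt (3 / 2) ^ 2 = 3 / 2 := Real.sq_sqrt (by norm_num)
    have hsτ : Real.sqrt (3 / 2) ≤ τ := by
      apply le_of_sq_le_sq _ hτ.le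
      linarith
    refine ⟨2 / 5 * (τ - Real.sqrt (3 / 2)) + E τ * (τ ^ 2 - 1) / 4, ?_,
      UThree_numeric hs0 hs hsτ, fun x h0 h1 => UThree_caseB hs0 hs hsτ h0 h1⟩
    have hg := E_pos τ
    have h1 : 0 ≤ E τ * (τ ^ 2 - 1) := mul_nonneg hg.le (by linarith)
    linarith

/-! ### conclusion -/

lemma UThree_near_eq {τ x : ℝ} (hx : 0 < x) (hxτ : x ≤ τ) :
    eta3 τ x / x = r3 τ x / 3 + E τ * (UThree_D0 τ x / x) := by
  unfold eta3 UThree_D0
  have h1 : rX τ (x - τ) = UThree_S τ (τ - x) := by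
    rw [← UThree_rX_even, ← UThree_rX_eq (by linarith) (by linarith)]
    congr 1
    ring
  have h2 : rX τ (x + τ) = UThree_S τ (τ + x) := by
    rw [← UThree_rX_eq (by linarith) (by linarith)]
    congr 1
    ring
  rw [h1, h2]
  field_simp

lemma UThree_strict {τ : ℝ} (hτ : 0 < τ) :
    StrictAntiOn (fun x => eta3 τ x / x) (Ioc 0 τ) := by
  obtain ⟨M, hM0, hM1, hM2⟩ := UThree_exists_M hτ
  have hd : ∀ x : ℝ, 0 < x → HasDerivAt (fun x => r3 τ x / 3 + E τ * (UThree_D0 τ x / x))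
      (-(eta3 τ x) / 3 + E τ * (UThree_Psi τ x / x ^ 2)) x := by
    intro x hx
    have h1 := (UThree_r3_hasDerivAt hτ x).div_const 3
    have h2 := ((UThree_D0_hasDerivAt τ x).div (hasDerivAt_id' x) hx.ne').const_mul (E τ)
    refine (h1.add h2).congr_deriv ?_
    unfold UThree_Psi
    ring
  refine strictAntiOn_of_deriv_neg (convex_Ioc 0 τ) ?_ ?_
  · exact ContinuousOn.congr (fun x hx => (hd x hx.1).continuousAt.continuousWithinAt)
      (fun x hx => UThree_near_eq hx.1 hx.2)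
  · intro x hx
    rw [interior_Ioc] at hx
    have hev : (fun x => eta3 τ x / x) =ᶠ[nhds x]
        fun x => r3 τ x / 3 + E τ * (UThree_D0 τ x / x) := by
      filter_upwards [Ioo_mem_nhds hx.1 hx.2] with y hy
      exact UThree_near_eq hy.1 hy.2.le
    rw [hev.deriv_eq, (hd x hx.1).deriv]
    have hx0 : 0 < x := hx.1
    have hg := E_pos τ
    have hPsi := UThree_Psi_le hτ hM2 hx.1.le hx.2.le
    have h1 : UThree_Psi τ x / x ^ 2 ≤ 2 / 3 * M * x := by
      rw [div_le_iff₀ (by positivity)]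
      linarith [hPsi, (by ring : 2 / 3 * M * x * x ^ 2 = 2 / 3 * M * x ^ 3)]
    have h2 : E τ * (UThree_Psi τ x / x ^ 2) ≤ E τ * (2 / 3 * M * x) :=
      mul_le_mul_of_nonneg_left h1 hg.le
    have h3 : 6 * E τ * M ≤ r3 τ x :=
      hM1.trans (UThree_r3_anti hτ hx.1.le (hτ.le) hx.2.le)
    have h4 : 0 < rX τ (x - τ) - rX τ (x + τ) := by
      have h5 : |x - τ| = τ - x := by
        rw [abs_of_nonpos (by linarith [hx.2])]
        ring
      have h6 : |x + τ| = x + τ := abs_of_nonneg (by linarith)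
      have := UThree_rX_strict (τ := τ) (u := x - τ) (v := x + τ) (by rw [h5]; linarith)
        (by rw [h5, h6]; linarith)
      linarith
    have h7 : 0 < E τ * (rX τ (x - τ) - rX τ (x + τ)) := mul_pos hg h4
    have h8 : x * (6 * E τ * M) ≤ x * r3 τ x := mul_le_mul_of_nonneg_left h3 hx0.le
    unfold eta3
    nlinarith

theorem U3_anti {τ : ℝ} (hτ : 0 < τ) : AntitoneOn (fun x => eta3 τ x / x) (Ioc 0 (3 * τ)) := by
  have hnear := (UThree_strict hτ).antitoneOn
  have hfar : AntitoneOn (fun x => eta3 τ x / x) (Icc τ (3 * τ)) := by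
    intro x hx y hy hxy
    have hx0 : 0 < x := lt_of_lt_of_le hτ hx.1
    have hy0 : 0 < y := lt_of_lt_of_le hτ hy.1
    have hg := E_pos τ
    have e1 : ∀ z, 0 < z → τ ≤ z → eta3 τ z / z = r3 τ z / 3 + E τ * (rX τ (z - τ) / z) := by
      intro z hz hzτ
      have h1 : rX τ (z + τ) = 0 := UThree_rX_zero (by
        rw [abs_of_nonneg (by linarith)]
        linarith)
      unfold eta3
      rw [h1]
      field_simp
      ring
    simp only
    rw [e1 x hx0 hx.1, e1 y hy0 hy.1]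
    have h2 : r3 τ y ≤ r3 τ x := UThree_r3_anti hτ hx0.le hy0.le hxy
    have h3 : rX τ (y - τ) ≤ rX τ (x - τ) := by
      apply UThree_rX_anti
      rw [abs_of_nonneg (by linarith [hx.1]), abs_of_nonneg (by linarith [hy.1])]
      linarith
    have h4 : rX τ (y - τ) / y ≤ rX τ (x - τ) / x :=
      div_le_div₀ (UThree_rX_nonneg τ _) h3 hx0 hxy
    have h5 : E τ * (rX τ (y - τ) / y) ≤ E τ * (rX τ (x - τ) / x) :=
      mul_le_mul_of_nonneg_left h4 hg.le
    linarith
  intro x hx y hy hxy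
  rcases le_total y τ with h1 | h1
  · exact hnear ⟨hx.1, hxy.trans h1⟩ ⟨hy.1, h1⟩ hxy
  · rcases le_total x τ with h2 | h2
    · have h3 := hnear ⟨hx.1, h2⟩ ⟨hτ, le_rfl⟩ h2
      have h4 := hfar ⟨le_rfl, by linarith⟩ ⟨h1, hy.2⟩ h1
      exact h4.trans h3
    · exact hfar ⟨h2, hx.2⟩ ⟨h1, hy.2⟩ hxy

/-- near `0` (needed for strict positivity) -/
theorem U3_strict {τ : ℝ} (hτ : 0 < τ) : ∃ ε, 0 < ε ∧ ε ≤ 3 * τ ∧
    StrictAntiOn (fun x => eta3 τ x / x) (Ioc 0 ε) :=
  ⟨τ, hτ, by linarith, UThree_strict hτ⟩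

end GCube
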