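import Pool.Agent.Lib.H83.ClassPConv
import Pool.Agent.Lib.H83.UThree

/-!
Formulas for `Lf` of iterated averages, auxiliary file for `ClassP`.
-/

open MeasureTheory Set
open scoped Real

namespace GCube

variable {τ : ℝ}

theorem classP_k_int (hτ : 0 ≤ τ) (g : ℝ → ℝ) :
    ∫ t, classP_k τ t * g t = ∫ t in (-τ)..τ, E t * g t := by
  rw [intervalIntegral.integral_of_le (by linarith), ← integral_Icc_eq_integral_Ioc,
    ← integral_indicator measurableSet_Icc]
  refine integral_congr_ae (Filter.Eventually.of_forall fun t => ?_)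
  simp only [classP_k]
  by_cases h : t ∈ Icc (-τ) τ
  · rw [indicator_of_mem h, indicator_of_mem h]
  · rw [indicator_of_notMem h, indicator_of_notMem h, zero_mul]

theorem classP_r3 (hτ : 0 ≤ τ) (v : ℝ) :
    ∫ t, classP_k τ t * rX τ (v - t) = r3 τ v := by
  rw [classP_k_int hτ fun t => rX τ (v - t)]
  rfl

theorem classP_conv_integrable {a b : ℝ → ℝ} (ha : CNice a) (hb : CNice b) (v : ℝ) :
    Integrable fun t => a t * b (v - t) := by
  obtain ⟨M, hM0, hM⟩ := ha.bdd
  obtain ⟨R, hR0, hR⟩ := ha.supp
  obtain ⟨M', hM0', hM'⟩ := hb.bdd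
  refine classP_line_integrable (M := M * M') (R := R) ?_ ?_ ?_
  · have := ha.meas
    have := hb.meas
    fun_prop
  · intro t
    rw [abs_mul]
    exact mul_le_mul (hM _) (hM' _) (abs_nonneg _) hM0
  · intro t ht
    exact CNice.ne hR (left_ne_zero_of_mul ht)

theorem classP_conv_comm (a b : ℝ → ℝ) (v : ℝ) :
    ∫ t, a t * b (v - t) = ∫ t, b t * a (v - t) := by
  have h1 := integral_sub_left_eq_self (fun t => a t * b (v - t)) (volume : Measure ℝ) v
  rw [← h1]
  refine integral_congr_ae (Filter.Eventually.of_forall fun t => ?_)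
  simp only [sub_sub_cancel]
  ring

/-- associativity of the convolution at a point, three nice functions -/
theorem classP_conv_swap {a b c : ℝ → ℝ} (ha : CNice a) (hb : CNice b) (hc : CNice c) (v : ℝ) :
    ∫ t, a t * (∫ s, b s * c (v - t - s)) = ∫ s, b s * (∫ t, a t * c (v - s - t)) := by
  obtain ⟨Ma, hMa0, hMa⟩ := ha.bdd
  obtain ⟨Ra, hRa0, hRa⟩ := ha.supp
  obtain ⟨Mb, hMb0, hMb⟩ := hb.bdd
  obtain ⟨Rb, hRb0, hRb⟩ := hb.supp
  obtain ⟨Mc, hMc0, hMc⟩ := hc.bdd
  have hint : Integrable (Function.uncurry fun t s => a t * (b s * c (v - t - s)))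
      (volume.prod volume) := by
    refine classP_box_integrable (M := Ma * (Mb * Mc)) (R1 := Ra) (R2 := Rb) ?_ ?_ ?_
    · have := ha.meas
      have := hb.meas
      have := hc.meas
      unfold Function.uncurry
      fun_prop
    · intro z
      simp only [Function.uncurry]
      rw [abs_mul, abs_mul]
      exact mul_le_mul (hMa _) (mul_le_mul (hMb _) (hMc _) (abs_nonneg _) hMb0)
        (by positivity) hMa0
    · intro z hz
      simp only [Function.uncurry] at hz
      exact ⟨CNice.ne hRa (left_ne_zero_of_mul hz),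
        CNice.ne hRb (left_ne_zero_of_mul (right_ne_zero_of_mul hz))⟩
  have h := integral_integral_swap hint
  simp only [integral_const_mul] at h
  rw [h]
  refine integral_congr_ae (Filter.Eventually.of_forall fun s => ?_)
  simp only
  rw [← integral_const_mul]
  refine integral_congr_ae (Filter.Eventually.of_forall fun t => ?_)
  simp only
  have : v - t - s = v - s - t := by ring
  rw [this]
  ring

theorem classP_tkr (hτ : 0 ≤ τ) (v : ℝ) :
    ∫ t, classP_tk τ t * rX τ (v - t) = v / 3 * r3 τ v := by
  have hk := classP_k_nice hτ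
  have ht := classP_tk_nice hτ
  have hr := classP_rX_nice hτ
  have hi1 := classP_conv_integrable ht hr v
  have hi2 := classP_conv_integrable hk (hr.mul_cont continuous_id) v
  -- v r3 = P1 + ∫ k(t) (v-t) rX(v-t)
  have h1 : v * r3 τ v = (∫ t, classP_tk τ t * rX τ (v - t)) +
      ∫ t, classP_k τ t * (rX τ (v - t) * id (v - t)) := by
    rw [← integral_add hi1 hi2, ← classP_r3 hτ, ← integral_const_mul]
    refine integral_congr_ae (Filter.Eventually.of_forall fun t => ?_)
    simp only [classP_tk, id]
    ring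
  have h2 : ∫ t, classP_k τ t * (rX τ (v - t) * id (v - t)) =
      2 * ∫ t, classP_tk τ t * rX τ (v - t) := by
    have h3 : ∀ t, classP_k τ t * (rX τ (v - t) * id (v - t)) =
        2 * (classP_k τ t * ∫ s, classP_tk τ s * classP_k τ (v - t - s)) := by
      intro t
      rw [classP_tkk hτ]
      simp only [id]
      ring
    simp only [h3]
    rw [integral_const_mul, classP_conv_swap hk ht hk v]
    simp only [classP_kk]
  rw [h2] at h1
  linarith

theorem classP_r3_even (x : ℝ) : r3 τ (-x) = r3 τ x := by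
  unfold r3
  have h := intervalIntegral.integral_comp_neg (fun t => E t * rX τ (x - t))
    (a := -τ) (b := τ)
  rw [neg_neg] at h
  rw [← h]
  refine intervalIntegral.integral_congr fun t _ => ?_
  rw [E_neg, ← classP_rX_even (x - -t)]
  congr 2
  ring

theorem classP_r3_zero (hτ : 0 ≤ τ) {x : ℝ} (hx : 3 * τ < |x|) : r3 τ x = 0 := by
  unfold r3
  rw [intervalIntegral.integral_congr (g := fun _ => (0 : ℝ))]
  · simp
  · intro t ht
    rw [uIcc_of_le (by linarith)] at ht
    simp only
    rw [classP_rX_zero, mul_zero]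
    have h1 : |t| ≤ τ := abs_le.2 ht
    have h2 := abs_sub_abs_le_abs_sub x t
    linarith

theorem classP_r3_nonneg (hτ : 0 ≤ τ) (x : ℝ) : 0 ≤ r3 τ x := by
  unfold r3
  exact intervalIntegral.integral_nonneg (by linarith)
    fun t _ => mul_nonneg (E_pos t).le (classP_rX_nonneg _)

theorem classP_r3_nice (hτ : 0 ≤ τ) : CNice (r3 τ) := by
  have hk := classP_k_nice hτ
  have hr := classP_rX_nice hτ
  obtain ⟨Mb, hMb0, hMb⟩ := hr.bdd
  have e : r3 τ = fun v => ∫ t, classP_k τ t * rX τ (v - t) := by
    funext v; rw [classP_r3 hτ]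
  have hint : Integrable (fun t => |classP_k τ t| * Mb) := (hk.integrable.abs).mul_const _
  refine ⟨?_, ⟨∫ t, |classP_k τ t| * Mb, integral_nonneg fun t => by positivity, fun v => ?_⟩,
    ⟨3 * τ, by linarith, fun x hx => classP_r3_zero hτ hx⟩⟩
  · rw [e]
    have h1 : StronglyMeasurable (Function.uncurry fun v t => classP_k τ t * rX τ (v - t)) := by
      have := hk.meas
      have := hr.meas
      apply Measurable.stronglyMeasurable
      unfold Function.uncurry
      fun_prop
    exact (h1.integral_prod_right).measurable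
  · rw [← classP_r3 hτ]
    have e0 := norm_integral_le_of_norm_le (f := fun t => classP_k τ t * rX τ (v - t))
      hint (Filter.Eventually.of_forall fun t => by
        rw [Real.norm_eq_abs, abs_mul]
        exact mul_le_mul_of_nonneg_left (hMb _) (abs_nonneg _))
    exact e0

theorem classP_eta3_nice (hτ : 0 ≤ τ) : CNice (eta3 τ) := by
  have h3 := classP_r3_nice hτ
  have hr := classP_rX_nice hτ
  have h4 := h3.mul_cont (h := fun x => x / 3) (by fun_prop)
  obtain ⟨M1, hM10, hM1⟩ := h4.bdd
  obtain ⟨M2, hM20, hM2⟩ := hr.bdd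
  refine ⟨?_, ⟨M1 + E τ * (M2 + M2), by have := (E_pos τ).le; positivity, fun x => ?_⟩,
    ⟨3 * τ, by linarith, fun x hx => ?_⟩⟩
  · have := h3.meas
    have := hr.meas
    unfold eta3
    fun_prop
  · unfold eta3
    have e1 : |x * r3 τ x / 3| ≤ M1 := by
      have := hM1 x
      have e : x * r3 τ x / 3 = r3 τ x * (x / 3) := by ring
      rw [e]; exact this
    have e2 : |E τ * (rX τ (x - τ) - rX τ (x + τ))| ≤ E τ * (M2 + M2) := by
      rw [abs_mul, abs_of_pos (E_pos τ)]
      apply mul_le_mul_of_nonneg_left _ (E_pos τ).le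
      exact (abs_sub _ _).trans (add_le_add (hM2 _) (hM2 _))
    exact (abs_add_le _ _).trans (add_le_add e1 e2)
  · unfold eta3
    have h5 := abs_sub_abs_le_abs_sub x τ
    rw [abs_of_nonneg hτ] at h5
    have h6 : |x| ≤ |x + τ| + τ := by
      have h7 := abs_sub_abs_le_abs_sub x (x + τ)
      have h8 : |x - (x + τ)| = τ := by
        rw [sub_add_cancel_left, abs_neg, abs_of_nonneg hτ]
      linarith
    rw [classP_r3_zero hτ hx, classP_rX_zero (by linarith), classP_rX_zero (by linarith)]
    ring

theorem classP_eta3_nonneg (hτ : 0 ≤ τ) {x : ℝ} (hx : 0 ≤ x) : 0 ≤ eta3 τ x := by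
  unfold eta3
  have h1 := classP_r3_nonneg hτ x
  have h2 : rX τ (x + τ) ≤ rX τ (x - τ) := by
    apply classP_rX_anti
    rw [abs_of_nonneg (by linarith : (0 : ℝ) ≤ x + τ), abs_le]
    constructor <;> linarith
  have h3 := E_pos τ
  have h4 : 0 ≤ rX τ (x - τ) - rX τ (x + τ) := by linarith
  positivity

theorem classP_etaX_nonneg (x : ℝ) : 0 ≤ etaX τ x := by
  unfold etaX
  split_ifs with h
  · have h1 := classP_rX_nonneg (τ := τ) x
    have h2 := h.1
    have h3 := E_pos τ
    have h4 := E_pos (τ - x)
    positivity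
  · exact le_rfl

theorem classP_etaX_nice (hτ : 0 ≤ τ) : CNice (etaX τ) := by
  have hr := classP_rX_nice hτ
  have h4 := hr.mul_cont (h := fun x => x / 2) (by fun_prop)
  obtain ⟨M1, hM10, hM1⟩ := h4.bdd
  have hE1 : ∀ x, E x ≤ 1 := by
    intro x
    unfold E
    rw [Real.exp_le_one_iff]
    nlinarith [sq_nonneg x]
  refine ⟨?_, ⟨M1 + 1, by linarith, fun x => ?_⟩, ⟨2 * τ, by linarith, fun x hx => ?_⟩⟩
  · have := hr.meas
    have := E_continuous.measurable
    unfold etaX
    apply Measurable.ite
    · exact measurableSet_Ioc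
    · fun_prop
    · exact measurable_const
  · rw [abs_of_nonneg (classP_etaX_nonneg x)]
    unfold etaX
    split_ifs with h
    · have e1 : x / 2 * rX τ x ≤ M1 := by
        have := (le_abs_self _).trans (hM1 x)
        linarith
      have e2 : E τ * E (τ - x) ≤ 1 := mul_le_one₀ (hE1 _) (E_pos _).le (hE1 _)
      linarith
    · linarith
  · unfold etaX
    rw [if_neg]
    rintro ⟨h1, h2⟩
    rw [abs_of_pos h1] at hx
    linarith

/-! ### the operator `Yop` -/

theorem classP_Yop_continuous (b : ℝ) {f : ℝ → ℝ} (hf : Continuous f) : Continuous (Yop τ b f) := by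
  unfold Yop
  apply intervalIntegral.continuous_parametric_intervalIntegral_of_continuous'
  have := E_continuous
  unfold Function.uncurry
  fun_prop

theorem classP_Yop_odd (b : ℝ) {f : ℝ → ℝ} (ho : ∀ x, f (-x) = - f x) (x : ℝ) :
    Yop τ b f (-x) = - Yop τ b f x := by
  unfold Yop
  have h := intervalIntegral.integral_comp_neg (fun t => E t * f (x + b * t))
    (a := -τ) (b := τ)
  rw [neg_neg] at h
  rw [← h, ← intervalIntegral.integral_neg]
  refine intervalIntegral.integral_congr fun t _ => ?_
  rw [E_neg, ← mul_neg, ← ho]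
  congr 2
  ring

theorem classP_Yop_one_eq (hτ : 0 ≤ τ) (f : ℝ → ℝ) (x : ℝ) :
    Yop τ 1 f x = ∫ t, classP_k τ t * f (x + t) := by
  rw [classP_k_int hτ fun t => f (x + t)]
  unfold Yop
  simp only [one_mul]

/-- `Lf` in terms of the symmetric integral -/
theorem classP_Lf_eq (hτ : 0 ≤ τ) {F : ℝ → ℝ} (hc : Continuous F) (ho : ∀ x, F (-x) = - F x) :
    Lf τ 1 F = E τ * F τ + (∫ t, classP_tk τ t * F t) / 2 := by
  have hn := (classP_tk_nice hτ).mul_cont hc
  have h1 := classP_fold hn.integrable hτ (fun x hx => by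
    unfold classP_tk
    rw [classP_k_zero hx]
    simp)
  rw [h1]
  unfold Lf
  have h2 : ∫ x in (0 : ℝ)..τ, (classP_tk τ x * F x + classP_tk τ (-x) * F (-x)) =
      ∫ x in (0 : ℝ)..τ, 2 * (x * E x * F (1 * x)) := by
    refine intervalIntegral.integral_congr fun x hx => ?_
    rw [uIcc_of_le hτ] at hx
    simp only [classP_tk]
    rw [ho, classP_k_even, classP_k_of (abs_le.2 ⟨by linarith [hx.1], hx.2⟩), one_mul]
    ring
  rw [h2, intervalIntegral.integral_const_mul, one_mul]
  ring

/-- `L_1(Y_1 f) = ∫_0^{2τ} etaX f`. -/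
theorem Lf_Y1 {τ : ℝ} (hτ : 0 < τ) {f : ℝ → ℝ} (hc : Continuous f) (ho : ∀ x, f (-x) = - f x) :
    Lf τ 1 (Yop τ 1 f) = ∫ x in (0 : ℝ)..(2 * τ), etaX τ x * f x := by
  have hk := classP_k_nice hτ.le
  have ht := classP_tk_nice hτ.le
  have hr := classP_rX_nice hτ.le
  rw [classP_Lf_eq hτ.le (classP_Yop_continuous 1 hc) (classP_Yop_odd 1 ho)]
  -- the second term
  have h1 : ∫ t, classP_tk τ t * Yop τ 1 f t = ∫ x in (0 : ℝ)..(2 * τ), x * rX τ x * f x := by
    simp only [classP_Yop_one_eq hτ.le]
    rw [classP_conv ht hk hc]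
    simp only [classP_tkk hτ.le]
    have hn : Integrable fun v => v / 2 * rX τ v * f v := by
      have := ((hr.mul_cont (h := fun v => v / 2) (by fun_prop)).mul_cont hc).integrable
      refine this.congr (Filter.Eventually.of_forall fun v => ?_)
      simp only; ring
    rw [classP_fold hn (R := 2 * τ) (by linarith) (fun x hx => by rw [classP_rX_zero hx]; simp)]
    refine intervalIntegral.integral_congr fun x _ => ?_
    rw [ho, classP_rX_even]
    ring
  -- the first term
  have h2 : Yop τ 1 f τ = ∫ x in (0 : ℝ)..(2 * τ), E (τ - x) * f x := by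
    unfold Yop
    have h3 := intervalIntegral.integral_comp_add_left (fun x => E (τ - x) * f x) τ
      (a := -τ) (b := τ)
    have e1 : τ + -τ = 0 := by ring
    have e2 : τ + τ = 2 * τ := by ring
    rw [e1, e2] at h3
    rw [← h3]
    refine intervalIntegral.integral_congr fun x _ => ?_
    simp only [one_mul]
    congr 1
    rw [← E_neg]
    congr 1
    ring
  rw [h1, h2]
  have hE := E_continuous
  have hi1 : IntervalIntegrable (fun x => E τ * (E (τ - x) * f x)) volume 0 (2 * τ) :=
    Continuous.intervalIntegrable (by fun_prop) _ _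
  have hi2 : IntervalIntegrable (fun x => x * rX τ x * f x / 2) volume 0 (2 * τ) := by
    have := ((hr.mul_cont (h := fun v => v / 2) (by fun_prop)).mul_cont hc).integrable
    refine (this.congr (Filter.Eventually.of_forall fun v => ?_)).intervalIntegrable
    simp only; ring
  rw [← intervalIntegral.integral_const_mul, ← intervalIntegral.integral_div,
    ← intervalIntegral.integral_add hi1 hi2]
  rw [intervalIntegral.integral_of_le (by linarith), intervalIntegral.integral_of_le (by linarith)]
  refine setIntegral_congr_fun measurableSet_Ioc fun x hx => ?_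
  simp only [etaX]
  rw [if_pos ⟨hx.1, hx.2⟩]
  ring

/-- `Y_1 Y_1 f (x) = ∫ rX(v) f(x+v) dv` -/
theorem classP_YY_eq (hτ : 0 ≤ τ) {f : ℝ → ℝ} (hc : Continuous f) (x : ℝ) :
    Yop τ 1 (Yop τ 1 f) x = ∫ v, rX τ v * f (x + v) := by
  have hk := classP_k_nice hτ
  rw [classP_Yop_one_eq hτ]
  simp only [classP_Yop_one_eq hτ]
  have h := classP_conv hk hk (h := fun u => f (x + u)) (by fun_prop)
  simp only [classP_kk] at h
  rw [← h]
  refine integral_congr_ae (Filter.Eventually.of_forall fun t => ?_)
  simp only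
  congr 1
  refine integral_congr_ae (Filter.Eventually.of_forall fun u => ?_)
  simp only
  rw [add_assoc]

/-- `L_1(Y_1 Y_1 f) = ∫_0^{3τ} eta3 f`. -/
theorem Lf_Y1Y1 {τ : ℝ} (hτ : 0 < τ) {f : ℝ → ℝ} (hc : Continuous f) (ho : ∀ x, f (-x) = - f x) :
    Lf τ 1 (Yop τ 1 (Yop τ 1 f)) = ∫ x in (0 : ℝ)..(3 * τ), eta3 τ x * f x := by
  have hk := classP_k_nice hτ.le
  have ht := classP_tk_nice hτ.le
  have hr := classP_rX_nice hτ.le
  rw [classP_Lf_eq hτ.le (classP_Yop_continuous 1 (classP_Yop_continuous 1 hc)) (classP_Yop_odd 1 (classP_Yop_odd 1 ho))]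
  have hi3 : Integrable fun v => v / 3 * r3 τ v * f v := by
    have := (((classP_r3_nice hτ.le).mul_cont (h := fun v => v / 3) (by fun_prop)).mul_cont hc).integrable
    refine this.congr (Filter.Eventually.of_forall fun v => ?_)
    simp only; ring
  -- the second term
  have h1 : ∫ t, classP_tk τ t * Yop τ 1 (Yop τ 1 f) t =
      ∫ x in (0 : ℝ)..(3 * τ), 2 * (x * r3 τ x / 3 * f x) := by
    simp only [classP_YY_eq hτ.le hc]
    rw [classP_conv ht hr hc]
    simp only [classP_tkr hτ.le]
    rw [classP_fold hi3 (R := 3 * τ) (by linarith) (fun x hx => by rw [classP_r3_zero hτ.le hx]; simp)]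
    refine intervalIntegral.integral_congr fun x _ => ?_
    rw [ho, classP_r3_even]
    ring
  -- the first term
  have hi4 : Integrable fun x => rX τ (x - τ) * f x := by
    have h0 := ((hr.mul_cont (h := fun v => f (v + τ)) (by fun_prop)).integrable).comp_sub_right τ
    refine h0.congr (Filter.Eventually.of_forall fun x => ?_)
    simp only [sub_add_cancel]
  have h2 : Yop τ 1 (Yop τ 1 f) τ =
      ∫ x in (0 : ℝ)..(3 * τ), (rX τ (x - τ) - rX τ (x + τ)) * f x := by
    rw [classP_YY_eq hτ.le hc]
    have h3 : ∫ v, rX τ v * f (τ + v) = ∫ x, rX τ (x - τ) * f x := by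
      rw [← integral_sub_right_eq_self (μ := (volume : Measure ℝ))
        (fun v : ℝ => rX τ v * f (τ + v)) τ]
      refine integral_congr_ae (Filter.Eventually.of_forall fun x => ?_)
      simp
    rw [h3, classP_fold hi4 (R := 3 * τ) (by linarith)]
    · refine intervalIntegral.integral_congr fun x _ => ?_
      rw [ho]
      have : rX τ (-x - τ) = rX τ (x + τ) := by
        rw [← classP_rX_even]
        congr 1
        ring
      rw [this]
      ring
    · intro x hx
      rw [classP_rX_zero, zero_mul]
      have h4 := abs_sub_abs_le_abs_sub x τ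
      rw [abs_of_pos hτ] at h4
      linarith
  rw [h1, h2]
  have hi5 : IntervalIntegrable (fun x => E τ * ((rX τ (x - τ) - rX τ (x + τ)) * f x)) volume
      0 (3 * τ) := by
    have h0 := ((hr.mul_cont (h := fun v => f (v - τ)) (by fun_prop)).integrable).comp_add_right τ
    have h00 : Integrable fun x => rX τ (x + τ) * f x := by
      refine h0.congr (Filter.Eventually.of_forall fun x => ?_)
      simp only [add_sub_cancel_right]
    refine (((hi4.sub h00).const_mul (E τ)).congr
      (Filter.Eventually.of_forall fun x => ?_)).intervalIntegrable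
    simp only [Pi.sub_apply]
    ring
  have hi6 : IntervalIntegrable (fun x => 2 * (x * r3 τ x / 3 * f x) / 2) volume
      0 (3 * τ) := by
    refine (hi3.congr (Filter.Eventually.of_forall fun x => ?_)).intervalIntegrable
    simp only
    ring
  rw [← intervalIntegral.integral_const_mul, ← intervalIntegral.integral_div,
    ← intervalIntegral.integral_add hi5 hi6]
  refine intervalIntegral.integral_congr fun x _ => ?_
  simp only [eta3]
  ring

end GCube
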