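import Pool.Agent.Lib.H83.ClassS
import Pool.Agent.Lib.H83.UThree
import Pool.Agent.Lib.H83.ClassPAbel
import Pool.Agent.Lib.H83.ClassPConv2

/-!
Chunk CP: class `P` and blocks of equal coordinates.

`abel_nonneg`, `abel_pos` are in `ClassPAbel`, `Lf_Y1`, `Lf_Y1Y1` in `ClassPConv2`.
-/

open MeasureTheory Set
open scoped Real

namespace GCube

theorem classP_K_cont {f : ℝ → ℝ} (hc : Continuous f) (a b : ℝ) :
    IntervalIntegrable (fun x => x * f x) volume a b :=
  Continuous.intervalIntegrable (by fun_prop) a b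

theorem InP.Lf2 {τ : ℝ} (hτ : 0 < τ) {f : ℝ → ℝ} (hf : InP f) : 0 < Lf τ 1 (Yop τ 1 f) := by
  obtain ⟨ε, hε, hKp⟩ := hf.Kpos
  rw [Lf_Y1 hτ hf.cont hf.odd]
  have hanti := U2_anti hτ
  have h1 : ∫ x in (0 : ℝ)..(2 * τ), etaX τ x * f x =
      ∫ x in (0 : ℝ)..(2 * τ), etaX τ x / x * (x * f x) := by
    rw [intervalIntegral.integral_of_le (by linarith),
      intervalIntegral.integral_of_le (by linarith)]
    refine setIntegral_congr_fun measurableSet_Ioc fun x hx => ?_
    have := hx.1.ne'
    field_simp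
  have hi : IntervalIntegrable (fun x => etaX τ x / x * (x * f x)) volume 0 (2 * τ) := by
    have h2 : IntervalIntegrable (fun x => etaX τ x * f x) volume 0 (2 * τ) :=
      ((classP_etaX_nice hτ.le).mul_cont hf.cont).integrable.intervalIntegrable
    rw [intervalIntegrable_iff_integrableOn_Ioc_of_le (by linarith)] at h2 ⊢
    refine h2.congr_fun (fun x hx => ?_) measurableSet_Ioc
    have := hx.1.ne'
    simp only
    field_simp
  rw [h1]
  have hε' : 0 < min ε (2 * τ) := by positivity
  refine abel_pos hε' (min_le_right _ _) hanti.antitoneOn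
    (hanti.mono (Ioc_subset_Ioc_right (min_le_right _ _)))
    (fun x hx => div_nonneg (classP_etaX_nonneg x) hx.1.le) (classP_K_cont hf.cont _ _) hi
    (fun ρ hρ _ => hf.Knn ρ hρ) (fun ρ hρ hρ2 => hKp ρ hρ (hρ2.trans_le (min_le_left _ _)))

theorem InP.Lf3 {τ : ℝ} (hτ : 0 < τ) {f : ℝ → ℝ} (hf : InP f) :
    0 < Lf τ 1 (Yop τ 1 (Yop τ 1 f)) := by
  obtain ⟨ε, hε, hKp⟩ := hf.Kpos
  obtain ⟨ε2, hε2, hε2τ, hstrict⟩ := U3_strict hτ
  rw [Lf_Y1Y1 hτ hf.cont hf.odd]
  have hanti := U3_anti hτ
  have h1 : ∫ x in (0 : ℝ)..(3 * τ), eta3 τ x * f x =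
      ∫ x in (0 : ℝ)..(3 * τ), eta3 τ x / x * (x * f x) := by
    rw [intervalIntegral.integral_of_le (by linarith),
      intervalIntegral.integral_of_le (by linarith)]
    refine setIntegral_congr_fun measurableSet_Ioc fun x hx => ?_
    have := hx.1.ne'
    field_simp
  have hi : IntervalIntegrable (fun x => eta3 τ x / x * (x * f x)) volume 0 (3 * τ) := by
    have h2 : IntervalIntegrable (fun x => eta3 τ x * f x) volume 0 (3 * τ) :=
      ((classP_eta3_nice hτ.le).mul_cont hf.cont).integrable.intervalIntegrable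
    rw [intervalIntegrable_iff_integrableOn_Ioc_of_le (by linarith)] at h2 ⊢
    refine h2.congr_fun (fun x hx => ?_) measurableSet_Ioc
    have := hx.1.ne'
    simp only
    field_simp
  rw [h1]
  have hε' : 0 < min ε ε2 := by positivity
  refine abel_pos hε' ((min_le_right _ _).trans hε2τ) hanti
    (hstrict.mono (Ioc_subset_Ioc_right (min_le_right _ _)))
    (fun x hx => div_nonneg (classP_eta3_nonneg hτ.le hx.1.le) hx.1.le) (classP_K_cont hf.cont _ _) hi
    (fun ρ hρ _ => hf.Knn ρ hρ) (fun ρ hρ hρ2 => hKp ρ hρ (hρ2.trans_le (min_le_left _ _)))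

/-! ### the two-variable function `U_w f (x)` -/

/-- primitive -/
noncomputable def classP_A (f : ℝ → ℝ) (y : ℝ) : ℝ := ∫ u in (0 : ℝ)..y, f u

theorem classP_A_cont {f : ℝ → ℝ} (hc : Continuous f) : Continuous (classP_A f) := by
  unfold classP_A
  exact intervalIntegral.continuous_primitive (fun a b => hc.intervalIntegrable a b) 0

theorem classP_A_even {f : ℝ → ℝ} (ho : ∀ x, f (-x) = - f x) (y : ℝ) :
    classP_A f (-y) = classP_A f y := by
  unfold classP_A
  have h := intervalIntegral.integral_comp_neg (fun u => f u) (a := 0) (b := y)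
  simp only [neg_zero] at h
  rw [intervalIntegral.integral_symm, ← h]
  simp only [ho, intervalIntegral.integral_neg, neg_neg]

theorem classP_U_eq {f : ℝ → ℝ} (hc : Continuous f) (a b : ℝ) :
    ∫ u in a..b, f u = classP_A f b - classP_A f a := by
  unfold classP_A
  rw [intervalIntegral.integral_interval_sub_left (hc.intervalIntegrable _ _)
    (hc.intervalIntegrable _ _)]

theorem classP_U_symm {f : ℝ → ℝ} (hc : Continuous f) (ho : ∀ x, f (-x) = - f x) (x w : ℝ) :
    ∫ u in (x - w)..(x + w), f u = ∫ u in (w - x)..(w + x), f u := by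
  rw [classP_U_eq hc, classP_U_eq hc, add_comm x w, ← classP_A_even ho (x - w), neg_sub]

theorem classP_U_cont {f : ℝ → ℝ} (hc : Continuous f) :
    Continuous (fun z : ℝ × ℝ => ∫ u in (z.1 - z.2)..(z.1 + z.2), f u) := by
  have hA := classP_A_cont hc
  have e : (fun z : ℝ × ℝ => ∫ u in (z.1 - z.2)..(z.1 + z.2), f u) =
      fun z => classP_A f (z.1 + z.2) - classP_A f (z.1 - z.2) := by
    funext z; rw [classP_U_eq hc]
  rw [e]
  fun_prop

/-- commutation of `U_w` and `Y_1` -/
theorem classP_comm {τ : ℝ} {f : ℝ → ℝ} (hc : Continuous f) (x w : ℝ) :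
    ∫ u in (x - w)..(x + w), Yop τ 1 f u =
      Yop τ 1 (fun w => ∫ u in (x - w)..(x + w), f u) w := by
  have hA := classP_A_cont hc
  have hE := E_continuous
  have h1 : ∫ u in (x - w)..(x + w), Yop τ 1 f u =
      ∫ t in (-τ)..τ, ∫ u in (x - w)..(x + w), E t * f (u + 1 * t) := by
    unfold Yop
    apply intervalIntegral_intervalIntegral_swap
    have hcont : Continuous (Function.uncurry fun u t => E t * f (u + 1 * t)) := by
      unfold Function.uncurry
      fun_prop
    exact (hcont.continuousOn.integrableOn_compact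
      (isCompact_uIcc.prod isCompact_uIcc)).mono_set (prod_mono uIoc_subset_uIcc uIoc_subset_uIcc)
  rw [h1]
  have h2 : ∀ t, ∫ u in (x - w)..(x + w), E t * f (u + 1 * t) =
      E t * classP_A f (x + w + t) - E t * classP_A f (x - w + t) := by
    intro t
    rw [intervalIntegral.integral_const_mul]
    have h3 := intervalIntegral.integral_comp_add_right (fun u => f u) t
      (a := x - w) (b := x + w)
    simp only [one_mul]
    rw [h3, classP_U_eq hc]
    ring
  simp only [h2]
  have hi1 : IntervalIntegrable (fun t => E t * classP_A f (x + w + t)) volume (-τ) τ :=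
    Continuous.intervalIntegrable (by fun_prop) _ _
  have hi2 : IntervalIntegrable (fun t => E t * classP_A f (x - w + t)) volume (-τ) τ :=
    Continuous.intervalIntegrable (by fun_prop) _ _
  have hi3 : IntervalIntegrable (fun t => E t * classP_A f (x - w - t)) volume (-τ) τ :=
    Continuous.intervalIntegrable (by fun_prop) _ _
  have h4 : ∫ t in (-τ)..τ, E t * classP_A f (x - w + t) =
      ∫ t in (-τ)..τ, E t * classP_A f (x - w - t) := by
    have h5 := intervalIntegral.integral_comp_neg (fun t => E t * classP_A f (x - w + t))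
      (a := -τ) (b := τ)
    rw [neg_neg] at h5
    rw [← h5]
    refine intervalIntegral.integral_congr fun t _ => ?_
    rw [E_neg, ← sub_eq_add_neg]
  rw [intervalIntegral.integral_sub hi1 hi2, h4, ← intervalIntegral.integral_sub hi1 hi3]
  unfold Yop
  refine intervalIntegral.integral_congr fun t _ => ?_
  simp only
  rw [classP_U_eq hc]
  have e1 : x + (w + 1 * t) = x + w + t := by ring
  have e2 : x - (w + 1 * t) = x - w - t := by ring
  rw [e1, e2]
  ring

/-- `Y_1 Y_1 f (x) = ∫_0^{2τ} etaX(w) U_w f (x) dw` -/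
theorem classP_YY {τ : ℝ} (hτ : 0 < τ) {f : ℝ → ℝ} (hc : Continuous f)
    (x : ℝ) : Yop τ 1 (Yop τ 1 f) x =
      ∫ w in (0 : ℝ)..(2 * τ), etaX τ w * ∫ u in (x - w)..(x + w), f u := by
  have h1 := Yop_layer hτ one_pos (classP_Yop_continuous (τ := τ) 1 hc) x
  rw [one_mul] at h1
  rw [h1]
  have hφc : Continuous (fun w : ℝ => ∫ u in (x - w)..(x + w), f u) :=
    (classP_U_cont hc).comp (Continuous.prodMk_right x)
  have hφo : ∀ w : ℝ, (∫ u in (x - -w)..(x + -w), f u) = - ∫ u in (x - w)..(x + w), f u := by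
    intro w
    rw [intervalIntegral.integral_symm]
    have e1 : x - -w = x + w := by ring
    have e2 : x + -w = x - w := by ring
    rw [e1, e2]
  have h2 := Lf_Y1 hτ hφc hφo
  rw [← h2]
  unfold Lf
  congr 1
  · rw [classP_comm hc]
  · refine intervalIntegral.integral_congr fun t _ => ?_
    rw [classP_comm hc]

theorem classP_K_swap {τ : ℝ} (hτ : 0 < τ) {f : ℝ → ℝ} (hc : Continuous f)
    {t : ℝ} : K (Yop τ 1 (Yop τ 1 f)) t =
      ∫ w in (0 : ℝ)..(2 * τ), etaX τ w * K (fun x => ∫ u in (x - w)..(x + w), f u) t := by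
  have hU := classP_U_cont hc
  obtain ⟨M, hM0, hM⟩ := (classP_etaX_nice hτ.le).bdd
  unfold K
  have h1 : ∫ x in (0 : ℝ)..t, x * Yop τ 1 (Yop τ 1 f) x =
      ∫ x in (0 : ℝ)..t, ∫ w in (0 : ℝ)..(2 * τ),
        etaX τ w * (x * ∫ u in (x - w)..(x + w), f u) := by
    refine intervalIntegral.integral_congr fun x _ => ?_
    rw [classP_YY hτ hc, ← intervalIntegral.integral_const_mul]
    refine intervalIntegral.integral_congr fun w _ => ?_
    ring
  rw [h1, intervalIntegral_intervalIntegral_swap]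
  · refine intervalIntegral.integral_congr fun w _ => ?_
    simp only
    rw [intervalIntegral.integral_const_mul]
  · have hcont : Continuous (fun z : ℝ × ℝ => z.1 * ∫ u in (z.1 - z.2)..(z.1 + z.2), f u) := by
      fun_prop
    obtain ⟨C, hC⟩ := (isCompact_uIcc (a := (0 : ℝ)) (b := t) |>.prod
      (isCompact_uIcc (a := (0 : ℝ)) (b := 2 * τ))).exists_bound_of_continuousOn
        hcont.continuousOn
    apply Measure.integrableOn_of_bounded (M := M * C)
    · rw [Measure.volume_eq_prod, Measure.prod_prod]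
      exact ENNReal.mul_ne_top (by simp [uIoc]) (by simp [uIoc])
    · have h2 := (classP_etaX_nice hτ.le).meas
      have h3 := hcont.measurable
      apply Measurable.aestronglyMeasurable
      exact (h2.comp measurable_snd).mul h3
    · rw [ae_restrict_iff' (measurableSet_uIoc.prod measurableSet_uIoc)]
      refine Filter.Eventually.of_forall fun z hz => ?_
      have h2 : z ∈ uIcc 0 t ×ˢ uIcc 0 (2 * τ) :=
        ⟨uIoc_subset_uIcc hz.1, uIoc_subset_uIcc hz.2⟩
      have h3 := hC z h2
      simp only [Function.uncurry, norm_mul]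
      rw [← norm_mul z.1]
      exact mul_le_mul (hM _) h3 (norm_nonneg _) hM0

theorem classP_KU_cont {f : ℝ → ℝ} (hc : Continuous f) (t : ℝ) :
    Continuous (fun w : ℝ => K (fun x => ∫ u in (x - w)..(x + w), f u) t) := by
  unfold K
  apply intervalIntegral.continuous_parametric_intervalIntegral_of_continuous'
  have hU := classP_U_cont hc
  have : Continuous (fun z : ℝ × ℝ => ∫ u in (z.2 - z.1)..(z.2 + z.1), f u) :=
    hU.comp continuous_swap
  unfold Function.uncurry
  fun_prop

/-- symmetry of `∫_0^ρ w K_{U_w f}(t) dw` -/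
theorem classP_M_symm {f : ℝ → ℝ} (hc : Continuous f) (ho : ∀ x, f (-x) = - f x) (ρ t : ℝ) :
    ∫ w in (0 : ℝ)..ρ, w * K (fun x => ∫ u in (x - w)..(x + w), f u) t =
      ∫ w in (0 : ℝ)..t, w * K (fun x => ∫ u in (x - w)..(x + w), f u) ρ := by
  have hU := classP_U_cont hc
  unfold K
  have h0 : ∀ ρ t : ℝ, ∫ w in (0 : ℝ)..ρ, w * ∫ x in (0 : ℝ)..t, x * ∫ u in (x - w)..(x + w), f u =
      ∫ w in (0 : ℝ)..ρ, ∫ x in (0 : ℝ)..t, w * (x * ∫ u in (x - w)..(x + w), f u) := by
    intro ρ t
    refine intervalIntegral.integral_congr fun w _ => ?_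
    rw [← intervalIntegral.integral_const_mul]
  rw [h0, h0, intervalIntegral_intervalIntegral_swap]
  · refine intervalIntegral.integral_congr fun x _ => ?_
    refine intervalIntegral.integral_congr fun w _ => ?_
    rw [classP_U_symm hc ho]
    ring
  · have hcont : Continuous (Function.uncurry fun w x : ℝ =>
        w * (x * ∫ u in (x - w)..(x + w), f u)) := by
      have : Continuous (fun z : ℝ × ℝ => ∫ u in (z.2 - z.1)..(z.2 + z.1), f u) :=
        hU.comp continuous_swap
      unfold Function.uncurry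
      fun_prop
    exact (hcont.continuousOn.integrableOn_compact
      (isCompact_uIcc.prod isCompact_uIcc)).mono_set (prod_mono uIoc_subset_uIcc uIoc_subset_uIcc)

theorem classP_M_nonneg {f : ℝ → ℝ} (hf : InP f) {ρ t : ℝ} (hρ : 0 ≤ ρ) (ht : 0 ≤ t) :
    0 ≤ ∫ w in (0 : ℝ)..ρ, w * K (fun x => ∫ u in (x - w)..(x + w), f u) t := by
  have key : ∀ {ρ t : ℝ}, 0 ≤ ρ → ρ ≤ t →
      0 ≤ ∫ w in (0 : ℝ)..ρ, w * K (fun x => ∫ u in (x - w)..(x + w), f u) t := by
    intro ρ t hρ hρt
    refine intervalIntegral.integral_nonneg hρ fun w hw => ?_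
    exact mul_nonneg hw.1 (K_box_nonneg hf.cont hf.odd hf.Knn hw.1 (hw.2.trans hρt))
  rcases le_total ρ t with h | h
  · exact key hρ h
  · rw [classP_M_symm hf.cont hf.odd]
    exact key ht h

theorem classP_Yop_supp {τ b : ℝ} (hτ : 0 ≤ τ) {f : ℝ → ℝ} {R : ℝ} (hR : ∀ x, R ≤ |x| → f x = 0)
    (x : ℝ) (hx : R + |b| * τ ≤ |x|) : Yop τ b f x = 0 := by
  unfold Yop
  rw [intervalIntegral.integral_congr (g := fun _ => (0 : ℝ))]
  · simp
  · intro t ht
    rw [uIcc_of_le (by linarith)] at ht
    simp only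
    rw [hR, mul_zero]
    have h1 : |t| ≤ τ := abs_le.2 ht
    have h2 : |b * t| ≤ |b| * τ := by
      rw [abs_mul]
      exact mul_le_mul_of_nonneg_left h1 (abs_nonneg _)
    have h3 := abs_sub_abs_le_abs_sub x (-(b * t))
    rw [abs_neg, sub_neg_eq_add] at h3
    linarith

/-- `K_{Y_1Y_1 f}(t) = ∫_0^{2τ} (etaX(w)/w) · w K_{U_w f}(t) dw`, and `∫_0^ρ w K_{U_wf}(t) dw` is symmetric in
`(ρ,t)`, hence `≥ 0` by `K_box_nonneg`. -/
theorem InP.Y1Y1 {τ : ℝ} (hτ : 0 < τ) {f : ℝ → ℝ} (hf : InP f) : InP (Yop τ 1 (Yop τ 1 f)) := by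
  have hanti := U2_anti hτ
  have hKU := fun t => classP_KU_cont hf.cont t
  have hK : ∀ t, K (Yop τ 1 (Yop τ 1 f)) t = ∫ w in (0 : ℝ)..(2 * τ), etaX τ w / w *
      (w * K (fun x => ∫ u in (x - w)..(x + w), f u) t) := by
    intro t
    rw [classP_K_swap hτ hf.cont, intervalIntegral.integral_of_le (by linarith),
      intervalIntegral.integral_of_le (by linarith)]
    refine setIntegral_congr_fun measurableSet_Ioc fun x hx => ?_
    have := hx.1.ne'
    field_simp
  have hi : ∀ t, IntervalIntegrable (fun w => etaX τ w / w *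
      (w * K (fun x => ∫ u in (x - w)..(x + w), f u) t)) volume 0 (2 * τ) := by
    intro t
    have h2 : IntervalIntegrable (fun w => etaX τ w *
        K (fun x => ∫ u in (x - w)..(x + w), f u) t) volume 0 (2 * τ) :=
      ((classP_etaX_nice hτ.le).mul_cont (hKU t)).integrable.intervalIntegrable
    rw [intervalIntegrable_iff_integrableOn_Ioc_of_le (by linarith)] at h2 ⊢
    refine h2.congr_fun (fun x hx => ?_) measurableSet_Ioc
    have := hx.1.ne'
    simp only
    field_simp
  have hg : ∀ t, IntervalIntegrable (fun w => w * K (fun x => ∫ u in (x - w)..(x + w), f u) t)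
      volume 0 (2 * τ) := by
    intro t
    have := hKU t
    exact Continuous.intervalIntegrable (by fun_prop) _ _
  have h2τ : 0 < 2 * τ := by linarith
  refine ⟨classP_Yop_continuous 1 (classP_Yop_continuous 1 hf.cont), classP_Yop_odd 1 (classP_Yop_odd 1 hf.odd), ?_, ?_, ?_⟩
  · obtain ⟨R, hR⟩ := hf.supp
    exact ⟨R + |1| * τ + |1| * τ, fun x hx => classP_Yop_supp hτ.le (classP_Yop_supp hτ.le hR) x hx⟩
  · intro t ht
    rw [hK]
    exact abel_nonneg h2τ hanti.antitoneOn
      (fun x hx => div_nonneg (classP_etaX_nonneg x) hx.1.le) (hg t) (hi t)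
      (fun ρ hρ _ => classP_M_nonneg hf hρ ht)
  · obtain ⟨ε, hε, hKp⟩ := hf.Kpos
    refine ⟨ε / 2, by linarith, fun t ht htε => ?_⟩
    rw [hK]
    have hε' : 0 < min t (2 * τ) := by positivity
    refine abel_pos hε' (min_le_right _ _) hanti.antitoneOn
      (hanti.mono (Ioc_subset_Ioc_right (min_le_right _ _)))
      (fun x hx => div_nonneg (classP_etaX_nonneg x) hx.1.le) (hg t) (hi t)
      (fun ρ hρ _ => classP_M_nonneg hf hρ ht.le) (fun ρ hρ hρ2 => ?_)
    have hρt : ρ < t := hρ2.trans_le (min_le_left _ _)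
    refine intervalIntegral.intervalIntegral_pos_of_pos_on ?_ (fun w hw => ?_) hρ
    · have := hKU t
      exact Continuous.intervalIntegrable (by fun_prop) _ _
    · exact mul_pos hw.1 (K_box_pos hf.cont hf.odd hf.Knn hKp hw.1 (hw.2.trans hρt)
        (by linarith [hw.2]))

/-- scaling -/
theorem InP.scale {c : ℝ} (hc : 0 < c) {f : ℝ → ℝ} (hf : InP f) : InP (fun x => f (c * x)) := by
  have hK : ∀ x, K (fun x => f (c * x)) x = K f (c * x) / c ^ 2 := by
    intro x
    unfold K
    have h := intervalIntegral.integral_comp_mul_left (fun u => u * f u) hc.ne'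
      (a := 0) (b := x)
    rw [mul_zero, smul_eq_mul] at h
    have h2 : ∫ u in (0 : ℝ)..x, c * u * f (c * u) = c * ∫ u in (0 : ℝ)..x, u * f (c * u) := by
      rw [← intervalIntegral.integral_const_mul]
      refine intervalIntegral.integral_congr fun u _ => ?_
      ring
    rw [h2] at h
    have hc2 : c ^ 2 ≠ 0 := by positivity
    rw [eq_div_iff hc2]
    have hc1 : c ≠ 0 := hc.ne'
    have h3 : c * (c * ∫ u in (0 : ℝ)..x, u * f (c * u)) = ∫ u in (0 : ℝ)..c * x, u * f u := by
      rw [h, ← mul_assoc, mul_inv_cancel₀ hc1, one_mul]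
    rw [← h3]
    ring
  refine ⟨?_, ?_, ?_, ?_, ?_⟩
  · have := hf.cont
    fun_prop
  · intro x
    rw [mul_neg, hf.odd]
  · obtain ⟨R, hR⟩ := hf.supp
    refine ⟨R / c, fun x hx => hR _ ?_⟩
    rw [abs_mul, abs_of_pos hc]
    rw [div_le_iff₀ hc] at hx
    linarith
  · intro x hx
    rw [hK]
    exact div_nonneg (hf.Knn _ (by positivity)) (by positivity)
  · obtain ⟨ε, hε, hKp⟩ := hf.Kpos
    refine ⟨ε / c, by positivity, fun x hx hx2 => ?_⟩
    rw [hK]
    rw [lt_div_iff₀ hc] at hx2
    exact div_pos (hKp _ (by positivity) (by linarith)) (by positivity)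

theorem classP_Yl_scale (τ c : ℝ) (f : ℝ → ℝ) (j : ℕ) (x : ℝ) :
    Yl τ (List.replicate j c) f (c * x) = Yl τ (List.replicate j 1) (fun x => f (c * x)) x := by
  induction j generalizing x with
  | zero => simp [Yl]
  | succ j ih =>
    simp only [List.replicate_succ, Yl, List.foldr_cons] at ih ⊢
    unfold Yop
    refine intervalIntegral.integral_congr fun t _ => ?_
    rw [← mul_add, one_mul]
    congr 1
    exact ih (x + t)

theorem classP_even_pow {τ : ℝ} (hτ : 0 < τ) {f : ℝ → ℝ} (hf : InP f) (k : ℕ) :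
    InP (Yl τ (List.replicate (2 * k) 1) f) := by
  induction k with
  | zero => simpa [Yl] using hf
  | succ k ih =>
    have h : Yl τ (List.replicate (2 * (k + 1)) 1) f =
        Yop τ 1 (Yop τ 1 (Yl τ (List.replicate (2 * k) 1) f)) := by
      have e : 2 * (k + 1) = 2 * k + 1 + 1 := by ring
      rw [e]
      simp only [List.replicate_succ, Yl, List.foldr_cons]
    rw [h]
    exact InP.Y1Y1 hτ ih

/-- blocks of `m ≥ 2` equal coordinates `c > 0`. -/
theorem InP.block {τ c : ℝ} (hτ : 0 < τ) (hc : 0 < c) {f : ℝ → ℝ} (hf : InP f) (m : ℕ) :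
    0 < Lf τ c (Yl τ (List.replicate (m + 1) c) f) := by
  have hf' := InP.scale hc hf
  have h1 : Lf τ c (Yl τ (List.replicate (m + 1) c) f) =
      Lf τ 1 (Yl τ (List.replicate (m + 1) 1) (fun x => f (c * x))) := by
    unfold Lf
    rw [classP_Yl_scale, one_mul]
    congr 1
    refine intervalIntegral.integral_congr fun t _ => ?_
    rw [classP_Yl_scale, one_mul]
  rw [h1]
  rcases Nat.even_or_odd' m with ⟨k, hk | hk⟩
  · have h2 : Yl τ (List.replicate (m + 1) 1) (fun x => f (c * x)) =
        Yop τ 1 (Yl τ (List.replicate (2 * k) 1) (fun x => f (c * x))) := by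
      rw [hk]
      simp only [List.replicate_succ, Yl, List.foldr_cons]
    rw [h2]
    exact InP.Lf2 hτ (classP_even_pow hτ hf' k)
  · have h2 : Yl τ (List.replicate (m + 1) 1) (fun x => f (c * x)) =
        Yop τ 1 (Yop τ 1 (Yl τ (List.replicate (2 * k) 1) (fun x => f (c * x)))) := by
      rw [hk]
      simp only [List.replicate_succ, Yl, List.foldr_cons]
    rw [h2]
    exact InP.Lf3 hτ (classP_even_pow hτ hf' k)

end GCube
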