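import Pool.Agent.Lib.H83.Psi

/-!
Convolution formulas, auxiliary file for `ClassP`.
-/

open MeasureTheory Set
open scoped Real

namespace GCube

/-- bounded measurable functions with bounded support -/
structure CNice (a : ℝ → ℝ) : Prop where
  meas : Measurable a
  bdd : ∃ M, 0 ≤ M ∧ ∀ x, |a x| ≤ M
  supp : ∃ R, 0 ≤ R ∧ ∀ x, R < |x| → a x = 0

theorem classP_box_integrable {F : ℝ × ℝ → ℝ} (hm : Measurable F) {M R1 R2 : ℝ}
    (hb : ∀ z, |F z| ≤ M) (hs : ∀ z, F z ≠ 0 → |z.1| ≤ R1 ∧ |z.2| ≤ R2) :
    Integrable F (volume.prod volume) := by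
  have h1 : IntegrableOn F (Icc (-R1) R1 ×ˢ Icc (-R2) R2) (volume.prod volume) := by
    apply Measure.integrableOn_of_bounded (M := M)
    · rw [Measure.prod_prod]
      exact ENNReal.mul_ne_top (by simp) (by simp)
    · exact hm.aestronglyMeasurable
    · exact Filter.Eventually.of_forall fun z => hb z
  rw [integrableOn_iff_integrable_of_support_subset] at h1
  · exact h1
  · intro z hz
    obtain ⟨h2, h3⟩ := hs z hz
    exact ⟨abs_le.1 h2, abs_le.1 h3⟩

theorem classP_line_integrable {F : ℝ → ℝ} (hm : Measurable F) {M R : ℝ}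
    (hb : ∀ z, |F z| ≤ M) (hs : ∀ z, F z ≠ 0 → |z| ≤ R) : Integrable F := by
  have h1 : IntegrableOn F (Icc (-R) R) := by
    apply Measure.integrableOn_of_bounded (M := M)
    · simp
    · exact hm.aestronglyMeasurable
    · exact Filter.Eventually.of_forall fun z => hb z
  rw [integrableOn_iff_integrable_of_support_subset] at h1
  · exact h1
  · intro z hz
    exact abs_le.1 (hs z hz)

theorem CNice.integrable {a : ℝ → ℝ} (ha : CNice a) : Integrable a := by
  obtain ⟨M, hM0, hM⟩ := ha.bdd
  obtain ⟨R, hR0, hR⟩ := ha.supp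
  refine classP_line_integrable ha.meas hM (R := R) fun z hz => ?_
  by_contra hcon
  exact hz (hR z (not_le.1 hcon))

theorem CNice.mul_cont {a h : ℝ → ℝ} (ha : CNice a) (hh : Continuous h) :
    CNice (fun x => a x * h x) := by
  obtain ⟨M, hM0, hM⟩ := ha.bdd
  obtain ⟨R, hR0, hR⟩ := ha.supp
  obtain ⟨C, hC⟩ := (isCompact_Icc (a := -R) (b := R)).exists_bound_of_continuousOn
    hh.continuousOn
  have hC0 : 0 ≤ C := (norm_nonneg _).trans (hC 0 ⟨by linarith, hR0⟩)
  refine ⟨ha.meas.mul hh.measurable, ⟨M * C, by positivity, fun x => ?_⟩, ⟨R, hR0, fun x hx => ?_⟩⟩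
  · rcases lt_or_ge R |x| with h1 | h1
    · rw [hR x h1, zero_mul, abs_zero]; positivity
    · rw [abs_mul]
      exact mul_le_mul (hM x) (hC x (abs_le.1 h1)) (abs_nonneg _) hM0
  · rw [hR x hx, zero_mul]

theorem CNice.ne {a : ℝ → ℝ} {R : ℝ} (hR : ∀ x, R < |x| → a x = 0) {x : ℝ} (hx : a x ≠ 0) :
    |x| ≤ R := by
  by_contra hcon
  exact hx (hR x (not_le.1 hcon))

/-- the convolution formula -/
theorem classP_conv {a b h : ℝ → ℝ} (ha : CNice a) (hb : CNice b) (hh : Continuous h) :
    ∫ t, a t * ∫ u, b u * h (t + u) = ∫ v, (∫ t, a t * b (v - t)) * h v := by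
  obtain ⟨Ma, hMa0, hMa⟩ := ha.bdd
  obtain ⟨Ra, hRa0, hRa⟩ := ha.supp
  obtain ⟨Mb, hMb0, hMb⟩ := hb.bdd
  obtain ⟨Rb, hRb0, hRb⟩ := hb.supp
  obtain ⟨C, hC⟩ := (isCompact_Icc (a := -(Ra + Rb)) (b := Ra + Rb)).exists_bound_of_continuousOn
    hh.continuousOn
  have hC0 : 0 ≤ C := (norm_nonneg _).trans (hC 0 ⟨by linarith, by linarith⟩)
  have h1 : ∀ t, a t * ∫ u, b u * h (t + u) = ∫ v, a t * (b (v - t) * h v) := by
    intro t
    rw [integral_const_mul]
    congr 1
    have h2 := integral_sub_right_eq_self (fun u => b u * h (t + u)) t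
      (μ := (volume : Measure ℝ))
    rw [← h2]
    refine integral_congr_ae (Filter.Eventually.of_forall fun v => ?_)
    simp
  simp only [h1]
  have hint : Integrable (Function.uncurry fun t v => a t * (b (v - t) * h v))
      (volume.prod volume) := by
    have hsup : ∀ z : ℝ × ℝ, a z.1 * (b (z.2 - z.1) * h z.2) ≠ 0 →
        |z.1| ≤ Ra ∧ |z.2| ≤ Ra + Rb := by
      intro z hz
      have e1 := CNice.ne hRa (left_ne_zero_of_mul hz)
      have e2 := CNice.ne hRb (left_ne_zero_of_mul (right_ne_zero_of_mul hz))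
      refine ⟨e1, ?_⟩
      rw [abs_le] at e1 e2 ⊢
      constructor <;> linarith [e1.1, e1.2, e2.1, e2.2]
    refine classP_box_integrable (M := Ma * (Mb * C)) (R1 := Ra) (R2 := Ra + Rb) ?_ ?_ hsup
    · have := ha.meas
      have := hb.meas
      have := hh.measurable
      unfold Function.uncurry
      fun_prop
    · intro z
      simp only [Function.uncurry]
      by_cases hz : a z.1 * (b (z.2 - z.1) * h z.2) = 0
      · rw [hz, abs_zero]; positivity
      · have e1 := (hsup z hz).2
        rw [abs_mul, abs_mul]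
        have e2 : |h z.2| ≤ C := hC z.2 (abs_le.1 e1)
        exact mul_le_mul (hMa _) (mul_le_mul (hMb _) e2 (abs_nonneg _) hMb0) (by positivity) hMa0
  rw [integral_integral_swap hint]
  refine integral_congr_ae (Filter.Eventually.of_forall fun v => ?_)
  simp only
  rw [← integral_mul_const]
  refine integral_congr_ae (Filter.Eventually.of_forall fun t => ?_)
  simp only
  ring

/-- folding at `0` -/
theorem classP_fold {g : ℝ → ℝ} (hg : Integrable g) {R : ℝ} (hR : 0 ≤ R)
    (hs : ∀ x, R < |x| → g x = 0) : ∫ x, g x = ∫ x in (0 : ℝ)..R, (g x + g (-x)) := by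
  have h1 : ∫ x, g x = ∫ x in (-R)..R, g x := by
    rw [intervalIntegral.integral_of_le (by linarith), ← integral_Icc_eq_integral_Ioc]
    symm
    apply setIntegral_eq_integral_of_forall_compl_eq_zero
    intro x hx
    apply hs
    by_contra hcon
    exact hx (abs_le.1 (not_lt.1 hcon))
  have h2 : ∫ x in (-R)..(0 : ℝ), g x = ∫ x in (0 : ℝ)..R, g (-x) := by
    rw [intervalIntegral.integral_comp_neg]
    simp
  have hi : ∀ a b : ℝ, IntervalIntegrable g volume a b := fun a b => hg.intervalIntegrable
  have hi2 : IntervalIntegrable (fun x => g (-x)) volume 0 R := by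
    exact (hg.comp_neg).intervalIntegrable
  rw [h1, ← intervalIntegral.integral_add_adjacent_intervals (hi (-R) 0) (hi 0 R), h2,
    intervalIntegral.integral_add (hi 0 R) hi2, add_comm]

section

variable {τ : ℝ}

/-- truncated Gaussian weight -/
noncomputable def classP_k (τ : ℝ) : ℝ → ℝ := (Icc (-τ) τ).indicator E

theorem classP_k_of {x : ℝ} (h : |x| ≤ τ) : classP_k τ x = E x :=
  indicator_of_mem (show x ∈ Icc (-τ) τ from abs_le.1 h) E

theorem classP_k_zero {x : ℝ} (h : τ < |x|) : classP_k τ x = 0 := by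
  apply indicator_of_notMem
  intro h2
  exact absurd (abs_le.2 h2) (not_le.2 h)

theorem classP_k_even (x : ℝ) : classP_k τ (-x) = classP_k τ x := by
  rcases le_or_gt |x| τ with h | h
  · rw [classP_k_of h, classP_k_of (by rwa [abs_neg]), E_neg]
  · rw [classP_k_zero h, classP_k_zero (by rwa [abs_neg])]

theorem classP_k_nice (hτ : 0 ≤ τ) : CNice (classP_k τ) := by
  refine ⟨E_continuous.measurable.indicator measurableSet_Icc, ⟨1, zero_le_one, fun x => ?_⟩,
    ⟨τ, hτ, fun x hx => classP_k_zero hx⟩⟩
  rcases le_or_gt |x| τ with h | h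
  · rw [classP_k_of h, abs_of_pos (E_pos x)]
    unfold E
    rw [Real.exp_le_one_iff]
    nlinarith [sq_nonneg x]
  · rw [classP_k_zero h, abs_zero]; exact zero_le_one

/-- the weight `t k(t)` -/
noncomputable def classP_tk (τ : ℝ) (t : ℝ) : ℝ := t * classP_k τ t

theorem classP_tk_nice (hτ : 0 ≤ τ) : CNice (classP_tk τ) := by
  have h := (classP_k_nice hτ).mul_cont continuous_id
  have e : classP_tk τ = fun x => classP_k τ x * id x := by
    funext x; unfold classP_tk; simp only [id]; ring
  rw [e]; exact h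

theorem classP_EE_even_int (c : ℝ) : ∫ u in (-c)..c, Real.exp (-(u ^ 2)) = 2 * EE c := by
  have hi : ∀ a b : ℝ, IntervalIntegrable (fun u : ℝ => Real.exp (-(u ^ 2))) volume a b :=
    fun a b => Continuous.intervalIntegrable (by fun_prop) a b
  have h2 : ∫ x in (-c)..(0 : ℝ), Real.exp (-(x ^ 2)) = EE c := by
    have h3 := intervalIntegral.integral_comp_neg (fun x : ℝ => Real.exp (-(x ^ 2)))
      (a := 0) (b := c)
    simp only [neg_zero] at h3
    rw [← h3]
    unfold EE
    congr 1
    funext x
    congr 1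
    ring
  rw [← intervalIntegral.integral_add_adjacent_intervals (hi (-c) 0) (hi 0 c), h2]
  unfold EE
  ring

theorem classP_sets (v t : ℝ) : (|t| ≤ τ ∧ |v - t| ≤ τ) ↔ |t - v / 2| ≤ τ - |v| / 2 := by
  constructor
  · rintro ⟨h1, h2⟩
    rw [abs_le] at h1 h2
    rcases le_total 0 v with hv | hv
    · rw [abs_of_nonneg hv, abs_le]
      constructor <;> linarith
    · rw [abs_of_nonpos hv, abs_le]
      constructor <;> linarith
  · intro h
    rw [abs_le] at h
    rcases le_total 0 v with hv | hv
    · rw [abs_of_nonneg hv] at h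
      rw [abs_le, abs_le]
      refine ⟨⟨?_, ?_⟩, ?_, ?_⟩ <;> linarith
    · rw [abs_of_nonpos hv] at h
      rw [abs_le, abs_le]
      refine ⟨⟨?_, ?_⟩, ?_, ?_⟩ <;> linarith

theorem classP_kk (v : ℝ) : ∫ t, classP_k τ t * classP_k τ (v - t) = rX τ v := by
  set c : ℝ := τ - |v| / 2 with hc
  have h1 : ∀ t, classP_k τ t * classP_k τ (v - t) =
      (Icc (v / 2 - c) (v / 2 + c)).indicator
        (fun t => Real.exp (-(v ^ 2) / 4) * Real.exp (-((t - v / 2) ^ 2))) t := by
    intro t
    by_cases h : |t - v / 2| ≤ c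
    · have h2 := (classP_sets v t).2 h
      rw [classP_k_of h2.1, classP_k_of h2.2, indicator_of_mem]
      · unfold E
        rw [← Real.exp_add, ← Real.exp_add]
        congr 1
        ring
      · rw [abs_le] at h
        constructor <;> linarith
    · rw [indicator_of_notMem]
      · by_cases h3 : |t| ≤ τ
        · have h4 : τ < |v - t| := by
            by_contra hcon
            exact h ((classP_sets v t).1 ⟨h3, not_lt.1 hcon⟩)
          rw [classP_k_zero h4, mul_zero]
        · rw [classP_k_zero (not_le.1 h3), zero_mul]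
      · intro h3
        apply h
        rw [abs_le]
        constructor <;> linarith [h3.1, h3.2]
  simp only [h1]
  rw [integral_indicator measurableSet_Icc]
  unfold rX
  by_cases hv : |v| ≤ 2 * τ
  · rw [if_pos hv]
    have hc0 : 0 ≤ c := by rw [hc]; linarith
    rw [integral_Icc_eq_integral_Ioc, ← intervalIntegral.integral_of_le (by linarith),
      intervalIntegral.integral_const_mul]
    have h2 := intervalIntegral.integral_comp_sub_right (fun u : ℝ => Real.exp (-(u ^ 2))) (v / 2)
      (a := v / 2 - c) (b := v / 2 + c)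
    rw [h2]
    have e1 : v / 2 - c - v / 2 = -c := by ring
    have e2 : v / 2 + c - v / 2 = c := by ring
    rw [e1, e2, classP_EE_even_int]
    ring
  · rw [if_neg hv]
    have hc0 : c < 0 := by rw [hc]; linarith [not_le.1 hv]
    rw [Icc_eq_empty (by linarith)]
    simp

theorem classP_rX_even (v : ℝ) : rX τ (-v) = rX τ v := by
  unfold rX
  rw [abs_neg, neg_sq]

theorem classP_EE_nonneg {c : ℝ} (hc : 0 ≤ c) : 0 ≤ EE c :=
  intervalIntegral.integral_nonneg hc fun _ _ => (Real.exp_pos _).le

theorem classP_EE_mono {c d : ℝ} (hc : 0 ≤ c) (hcd : c ≤ d) : EE c ≤ EE d := by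
  have hi : ∀ a b : ℝ, IntervalIntegrable (fun u : ℝ => Real.exp (-(u ^ 2))) volume a b :=
    fun a b => Continuous.intervalIntegrable (by fun_prop) a b
  unfold EE
  rw [← intervalIntegral.integral_add_adjacent_intervals (hi 0 c) (hi c d)]
  have : 0 ≤ ∫ u in c..d, Real.exp (-(u ^ 2)) :=
    intervalIntegral.integral_nonneg hcd fun _ _ => (Real.exp_pos _).le
  linarith

theorem classP_rX_nonneg (v : ℝ) : 0 ≤ rX τ v := by
  unfold rX
  split_ifs with h
  · have : 0 ≤ EE (τ - |v| / 2) := classP_EE_nonneg (by linarith)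
    positivity
  · exact le_rfl

theorem classP_rX_anti {v w : ℝ} (h : |v| ≤ |w|) : rX τ w ≤ rX τ v := by
  unfold rX
  by_cases h1 : |w| ≤ 2 * τ
  · rw [if_pos h1, if_pos (h.trans h1)]
    have h2 : 0 ≤ EE (τ - |w| / 2) := classP_EE_nonneg (by linarith)
    have h3 : EE (τ - |w| / 2) ≤ EE (τ - |v| / 2) := classP_EE_mono (by linarith) (by linarith)
    have h4 : Real.exp (-(w ^ 2) / 4) ≤ Real.exp (-(v ^ 2) / 4) := by
      rw [Real.exp_le_exp]
      have := sq_le_sq.2 h
      linarith
    gcongr
  · rw [if_neg h1]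
    split_ifs with h2
    · have : 0 ≤ EE (τ - |v| / 2) := classP_EE_nonneg (by linarith)
      positivity
    · exact le_rfl

theorem classP_rX_zero {v : ℝ} (h : 2 * τ < |v|) : rX τ v = 0 := by
  unfold rX
  rw [if_neg (not_le.2 h)]

theorem classP_rX_nice (hτ : 0 ≤ τ) : CNice (rX τ) := by
  have hEE : Continuous EE := by
    unfold EE
    exact intervalIntegral.continuous_primitive
      (fun a b => Continuous.intervalIntegrable (by fun_prop) a b) 0
  refine ⟨?_, ⟨rX τ 0, classP_rX_nonneg 0, fun x => ?_⟩, ⟨2 * τ, by linarith, fun x hx => classP_rX_zero hx⟩⟩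
  · unfold rX
    apply Measurable.ite
    · exact measurableSet_le (by fun_prop) measurable_const
    · have := hEE.measurable
      fun_prop
    · exact measurable_const
  · rw [abs_of_nonneg (classP_rX_nonneg x)]
    exact classP_rX_anti (by simp)

theorem classP_tkk (hτ : 0 ≤ τ) (v : ℝ) :
    ∫ t, classP_tk τ t * classP_k τ (v - t) = v / 2 * rX τ v := by
  have hk := classP_k_nice hτ
  have h1 := integral_sub_left_eq_self (fun t => classP_tk τ t * classP_k τ (v - t))
    (volume : Measure ℝ) v
  have h2 : ∀ t, classP_tk τ (v - t) * classP_k τ (v - (v - t)) =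
      v * (classP_k τ t * classP_k τ (v - t)) - classP_tk τ t * classP_k τ (v - t) := by
    intro t
    unfold classP_tk
    have : v - (v - t) = t := by ring
    rw [this]
    ring
  simp only [h2] at h1
  have hi1 : Integrable fun t => classP_k τ t * classP_k τ (v - t) := by
    refine classP_line_integrable (M := 1) (R := τ) ?_ ?_ ?_
    · have := hk.meas
      fun_prop
    · intro t
      rw [abs_mul]
      have e : ∀ x, |classP_k τ x| ≤ 1 := by
        intro x
        rcases le_or_gt |x| τ with h | h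
        · rw [classP_k_of h, abs_of_pos (E_pos x)]
          unfold E
          rw [Real.exp_le_one_iff]
          nlinarith [sq_nonneg x]
        · rw [classP_k_zero h, abs_zero]; exact zero_le_one
      exact mul_le_one₀ (e _) (abs_nonneg _) (e _)
    · intro t ht
      exact CNice.ne (fun x hx => classP_k_zero hx) (left_ne_zero_of_mul ht)
  have hi2 : Integrable fun t => classP_tk τ t * classP_k τ (v - t) := by
    obtain ⟨M, hM0, hM⟩ := (classP_tk_nice hτ).bdd
    obtain ⟨M', hM0', hM'⟩ := hk.bdd
    refine classP_line_integrable (M := M * M') (R := τ) ?_ ?_ ?_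
    · have := hk.meas
      have := (classP_tk_nice hτ).meas
      fun_prop
    · intro t
      rw [abs_mul]
      exact mul_le_mul (hM _) (hM' _) (abs_nonneg _) hM0
    · intro t ht
      have h3 := left_ne_zero_of_mul ht
      unfold classP_tk at h3
      exact CNice.ne (fun x hx => classP_k_zero hx) (right_ne_zero_of_mul h3)
  rw [integral_sub (hi1.const_mul v) hi2, integral_const_mul, classP_kk] at h1
  linarith

end

end GCube
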