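import Pool.Agent.Lib.H83.Psi

/-!
Chunk CS: the class `S_α` is closed under `Y_b`, `b τ ≤ α`.

Notation: `(U_w f)(x) = ∫_{x-w}^{x+w} f`. For `f` odd, `(U_w f)(x) = ∫_{|x-w|}^{x+w} f = (U_x f)(w)`.
With `Φ'' = f`, `Φ` odd, `T(x,v,w) = U_v U_w f (x) = Φ(x+v+w) - Φ(x+v-w) - Φ(x-v+w) + Φ(x-v-w)` is
totally symmetric in `x,v,w` and `T(x,v,w) = ∫_{|x-v|}^{x+v} (U_w f)(r) dr`.
* if `x,v,w` satisfy the triangle inequalities then `T ≥ 0` follows from `K_f ≥ 0`
  (`K_f ≥ 0` iff `Φ(x)/x` is nondecreasing on `(0,∞)`, so `Φ(s_1)+Φ(s_2)+Φ(s_3) ≤ Φ(s_1+s_2+s_3)`).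
* if e.g. `x ≥ v + w` then `T = ∫_{|v-w|}^{v+w} (U_r f)(x) dr ≥ 0` by `box` (as `r ≤ v + w ≤ x ≤ α`).
`K_{U_w f}(t) = t (Φ(t+w) - Φ(t-w)) - ∫_{t-w}^{t+w} Φ ≥ t (t-w) (φ(t+w) - φ(t-w)) ≥ 0` for `t ≥ w`,
`φ(x) = Φ(x)/x`; for `t ≤ w ≤ α` it is an integral of nonnegative `(U_w f)(s) s`, `s ≤ t`.
`Y_b f (x) = (1/b) ( g U_{bτ} f (x) + ∫_0^τ t E(t) U_{bt} f (x) dt )` (layer cake for `E`).
-/

open MeasureTheory Set
open scoped Real

namespace GCube

/-! ### primitives -/

/-- First primitive. -/
noncomputable def csF1 (f : ℝ → ℝ) (x : ℝ) : ℝ := ∫ u in (0 : ℝ)..x, f u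

/-- Second primitive. -/
noncomputable def csF2 (f : ℝ → ℝ) (x : ℝ) : ℝ := ∫ u in (0 : ℝ)..x, csF1 f u

/-- The window integral. -/
noncomputable def csU (w : ℝ) (f : ℝ → ℝ) (x : ℝ) : ℝ := ∫ u in (x - w)..(x + w), f u

theorem ClassS_swap {k : ℝ → ℝ → ℝ} (hk : Continuous (Function.uncurry k)) (a b c d : ℝ) :
    ∫ x in a..b, ∫ y in c..d, k x y = ∫ y in c..d, ∫ x in a..b, k x y := by
  apply intervalIntegral_intervalIntegral_swap
  apply (hk.continuousOn (s := uIcc a b ×ˢ uIcc c d)).integrableOn_compact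
    (isCompact_uIcc.prod isCompact_uIcc) |>.mono_set
  exact prod_mono uIoc_subset_uIcc uIoc_subset_uIcc

section

variable {f : ℝ → ℝ}

theorem csF1_deriv (hf : Continuous f) (x : ℝ) : HasDerivAt (csF1 f) (f x) x :=
  (hf.integral_hasStrictDerivAt 0 x).hasDerivAt

theorem csF1_cont (hf : Continuous f) : Continuous (csF1 f) :=
  continuous_iff_continuousAt.2 fun x => (csF1_deriv hf x).continuousAt

theorem csF2_deriv (hf : Continuous f) (x : ℝ) : HasDerivAt (csF2 f) (csF1 f x) x :=
  ((csF1_cont hf).integral_hasStrictDerivAt 0 x).hasDerivAt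

theorem csF2_cont (hf : Continuous f) : Continuous (csF2 f) :=
  continuous_iff_continuousAt.2 fun x => (csF2_deriv hf x).continuousAt

theorem csF1_zero : csF1 f 0 = 0 := by simp [csF1]

theorem csF2_zero : csF2 f 0 = 0 := by simp [csF2]

theorem csF1_even (ho : ∀ x, f (-x) = -f x) (x : ℝ) : csF1 f (-x) = csF1 f x := by
  unfold csF1
  have h := intervalIntegral.integral_comp_neg (a := 0) (b := x) f
  simp only [ho, intervalIntegral.integral_neg, neg_zero] at h
  rw [intervalIntegral.integral_symm (-x) 0, ← h, neg_neg]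

theorem csF2_odd (ho : ∀ x, f (-x) = -f x) (x : ℝ) : csF2 f (-x) = -csF2 f x := by
  unfold csF2
  have h := intervalIntegral.integral_comp_neg (a := 0) (b := x) (csF1 f)
  simp only [csF1_even ho, neg_zero] at h
  rw [h, intervalIntegral.integral_symm]

theorem csU_eq (hf : Continuous f) (w x : ℝ) : csU w f x = csF1 f (x + w) - csF1 f (x - w) := by
  unfold csU
  exact intervalIntegral.integral_eq_sub_of_hasDerivAt (fun u _ => csF1_deriv hf u)
    (hf.intervalIntegrable _ _)

theorem csU_cont2 (hf : Continuous f) : Continuous (fun p : ℝ × ℝ => csU p.1 f p.2) := by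
  simp only [csU_eq hf]
  have := csF1_cont hf
  fun_prop

theorem csU_cont (hf : Continuous f) (w : ℝ) : Continuous (csU w f) := by
  have := csU_cont2 hf
  exact this.comp (by fun_prop : Continuous fun x : ℝ => (w, x))

theorem csU_odd (hf : Continuous f) (ho : ∀ x, f (-x) = -f x) (w x : ℝ) :
    csU w f (-x) = - csU w f x := by
  rw [csU_eq hf, csU_eq hf, show -x + w = -(x - w) by ring, show -x - w = -(x + w) by ring,
    csF1_even ho, csF1_even ho]
  ring

/-- The triple difference. -/
theorem csU_csU (hf : Continuous f) (v w x : ℝ) :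
    csU v (csU w f) x = csF2 f (x + v + w) - csF2 f (x + v - w) - csF2 f (x - v + w) +
      csF2 f (x - v - w) := by
  have hd : ∀ r, HasDerivAt (fun r => csF2 f (r + w) - csF2 f (r - w)) (csU w f r) r := by
    intro r
    rw [csU_eq hf]
    exact ((csF2_deriv hf (r + w)).comp_add_const r w).sub ((csF2_deriv hf (r - w)).comp_sub_const r w)
  unfold csU at hd ⊢
  rw [intervalIntegral.integral_eq_sub_of_hasDerivAt (fun u _ => hd u)
    ((csU_cont hf w).intervalIntegrable _ _)]
  ring

theorem ClassS_K_eq (hf : Continuous f) (x : ℝ) : K f x = x * csF1 f x - csF2 f x := by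
  have hd : ∀ r, HasDerivAt (fun r => r * csF1 f r - csF2 f r) (r * f r) r := by
    intro r
    have := ((hasDerivAt_id r).mul (csF1_deriv hf r)).sub (csF2_deriv hf r)
    refine this.congr_deriv ?_
    simp
  unfold K
  rw [intervalIntegral.integral_eq_sub_of_hasDerivAt (fun u _ => hd u)
    ((by fun_prop : Continuous fun u => u * f u).intervalIntegrable _ _)]
  simp [csF2_zero]

/-- The quotient `Φ(x)/x` is monotone. -/
theorem csF2_div_mono (hf : Continuous f) (hK : ∀ x, 0 ≤ x → 0 ≤ K f x) {s t : ℝ} (hs : 0 < s)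
    (hst : s ≤ t) : csF2 f s / s ≤ csF2 f t / t := by
  have hd : ∀ r, 0 < r → HasDerivAt (fun r => csF2 f r / r) (K f r / r ^ 2) r := by
    intro r hr
    have := (csF2_deriv hf r).div (hasDerivAt_id r) hr.ne'
    refine this.congr_deriv ?_
    rw [ClassS_K_eq hf]
    simp only [id]
    ring
  have hmono : MonotoneOn (fun r => csF2 f r / r) (Icc s t) := by
    apply monotoneOn_of_deriv_nonneg (convex_Icc s t)
    · intro r hr
      exact (hd r (by linarith [hr.1])).continuousAt.continuousWithinAt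
    · intro r hr
      rw [interior_Icc] at hr
      exact (hd r (by linarith [hr.1])).differentiableAt.differentiableWithinAt
    · intro r hr
      rw [interior_Icc] at hr
      have hr0 : 0 < r := by linarith [hr.1]
      rw [(hd r hr0).deriv]
      exact div_nonneg (hK r hr0.le) (by positivity)
  exact hmono (left_mem_Icc.2 hst) (right_mem_Icc.2 hst) hst

theorem csF2_div_strict (hf : Continuous f) {ε : ℝ} (hKp : ∀ x, 0 < x → x < ε → 0 < K f x)
    {s t : ℝ} (hs : 0 < s) (hst : s < t) (ht : t < ε) : csF2 f s / s < csF2 f t / t := by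
  have hd : ∀ r, 0 < r → HasDerivAt (fun r => csF2 f r / r) (K f r / r ^ 2) r := by
    intro r hr
    have := (csF2_deriv hf r).div (hasDerivAt_id r) hr.ne'
    refine this.congr_deriv ?_
    rw [ClassS_K_eq hf]
    simp only [id]
    ring
  have hmono : StrictMonoOn (fun r => csF2 f r / r) (Icc s t) := by
    apply strictMonoOn_of_deriv_pos (convex_Icc s t)
    · intro r hr
      exact (hd r (by linarith [hr.1])).continuousAt.continuousWithinAt
    · intro r hr
      rw [interior_Icc] at hr
      have hr0 : 0 < r := by linarith [hr.1]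
      rw [(hd r hr0).deriv]
      exact div_pos (hKp r hr0 (by linarith [hr.2])) (by positivity)
  exact hmono (left_mem_Icc.2 hst.le) (right_mem_Icc.2 hst.le) hst

theorem csF2_le_frac (hf : Continuous f) (hK : ∀ x, 0 ≤ x → 0 ≤ K f x) {s t : ℝ} (hs : 0 ≤ s)
    (hst : s ≤ t) : t * csF2 f s ≤ s * csF2 f t := by
  rcases hs.eq_or_lt with rfl | hs0
  · simp [csF2_zero]
  have h := csF2_div_mono hf hK hs0 hst
  rw [div_le_div_iff₀ hs0 (hs0.trans_le hst)] at h
  linarith

/-- superadditivity with three terms -/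
theorem csF2_three (hf : Continuous f) (hK : ∀ x, 0 ≤ x → 0 ≤ K f x) {a b c : ℝ} (ha : 0 ≤ a)
    (hb : 0 ≤ b) (hc : 0 ≤ c) : csF2 f a + csF2 f b + csF2 f c ≤ csF2 f (a + b + c) := by
  have h1 := csF2_le_frac hf hK ha (show a ≤ a + b + c by linarith)
  have h2 := csF2_le_frac hf hK hb (show b ≤ a + b + c by linarith)
  have h3 := csF2_le_frac hf hK hc (show c ≤ a + b + c by linarith)
  rcases (show 0 ≤ a + b + c by positivity).eq_or_lt with h0 | h0
  · have ea : a = 0 := by linarith
    have eb : b = 0 := by linarith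
    have ec : c = 0 := by linarith
    subst ea; subst eb; subst ec
    simp [csF2_zero]
  · have : (a + b + c) * (csF2 f a + csF2 f b + csF2 f c) ≤ (a + b + c) * csF2 f (a + b + c) := by
      nlinarith
    exact le_of_mul_le_mul_left this h0

end

/-- layer cake formula for `Y_b`. -/
theorem ClassS_Yop_half {τ b : ℝ} {f : ℝ → ℝ} (hf : Continuous f) (x : ℝ) :
    Yop τ b f x = ∫ t in (0 : ℝ)..τ, E t * (f (x + b * t) + f (x - b * t)) := by
  have hE := E_continuous
  have hc : Continuous fun t => E t * f (x + b * t) := by fun_prop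
  have hc' : Continuous fun t => E t * f (x - b * t) := by fun_prop
  have h := intervalIntegral.integral_comp_neg (a := 0) (b := τ) (fun t => E t * f (x + b * t))
  simp only [E_neg, mul_neg, ← sub_eq_add_neg, neg_zero] at h
  unfold Yop
  rw [← intervalIntegral.integral_add_adjacent_intervals (b := 0)
    (hc.intervalIntegrable _ _) (hc.intervalIntegrable _ _), ← h,
    ← intervalIntegral.integral_add (hc'.intervalIntegrable _ _) (hc.intervalIntegrable _ _)]
  congr 1
  ext t
  ring

theorem ClassS_E_deriv (x : ℝ) : HasDerivAt E (-(x * E x)) x := by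
  unfold E
  have h : HasDerivAt (fun x : ℝ => -(x ^ 2) / 2) (-x) x := by
    have := ((hasDerivAt_pow 2 x).neg).div_const 2
    refine this.congr_deriv ?_
    simp
    ring
  refine h.exp.congr_deriv ?_
  ring

theorem Yop_layer {τ b : ℝ} (hτ : 0 < τ) (hb : 0 < b) {f : ℝ → ℝ} (hf : Continuous f) (x : ℝ) :
    b * Yop τ b f x = E τ * (∫ u in (x - b * τ)..(x + b * τ), f u) +
      ∫ t in (0 : ℝ)..τ, t * E t * (∫ u in (x - b * t)..(x + b * t), f u) := by
  change b * Yop τ b f x = E τ * csU (b * τ) f x + ∫ t in (0 : ℝ)..τ, t * E t * csU (b * t) f x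
  have hE := E_continuous
  have hF := csF1_cont hf
  simp only [csU_eq hf]
  have hd : ∀ t, HasDerivAt (fun t => E t * (csF1 f (x + b * t) - csF1 f (x - b * t)))
      (-(t * E t) * (csF1 f (x + b * t) - csF1 f (x - b * t)) +
        E t * (f (x + b * t) * b - f (x - b * t) * (-b))) t := by
    intro t
    have h1 : HasDerivAt (fun t : ℝ => x + b * t) b t := by
      simpa using ((hasDerivAt_id t).const_mul b).const_add x
    have h2 : HasDerivAt (fun t : ℝ => x - b * t) (-b) t := by
      simpa using ((hasDerivAt_id t).const_mul b).const_sub x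
    exact (ClassS_E_deriv t).mul (((csF1_deriv hf _).comp t h1).sub ((csF1_deriv hf _).comp t h2))
  have hI := intervalIntegral.integral_eq_sub_of_hasDerivAt (a := 0) (b := τ) (fun u _ => hd u)
    ((by fun_prop : Continuous fun t => (-(t * E t) * (csF1 f (x + b * t) - csF1 f (x - b * t)) +
        E t * (f (x + b * t) * b - f (x - b * t) * (-b)))).intervalIntegrable _ _)
  rw [intervalIntegral.integral_add
    ((by fun_prop : Continuous _).intervalIntegrable _ _)
    ((by fun_prop : Continuous _).intervalIntegrable _ _)] at hI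
  have e1 : ∫ t in (0 : ℝ)..τ, E t * (f (x + b * t) * b - f (x - b * t) * (-b)) =
      b * Yop τ b f x := by
    rw [ClassS_Yop_half hf, ← intervalIntegral.integral_const_mul]
    congr 1
    ext t
    ring
  have e2 : ∫ t in (0 : ℝ)..τ, -(t * E t) * (csF1 f (x + b * t) - csF1 f (x - b * t)) =
      -∫ t in (0 : ℝ)..τ, t * E t * (csF1 f (x + b * t) - csF1 f (x - b * t)) := by
    rw [← intervalIntegral.integral_neg]
    congr 1
    ext t
    ring
  rw [e1, e2] at hI
  simp only [mul_zero, add_zero, sub_zero, sub_self] at hI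
  linarith


/-! ### the key facts on windows -/

theorem ClassS_Kbox_eq {f : ℝ → ℝ} (hf : Continuous f) (ho : ∀ x, f (-x) = - f x) (w t : ℝ) :
    K (csU w f) t = t * (csF2 f (t + w) - csF2 f (t - w)) - ∫ u in (t - w)..(t + w), csF2 f u := by
  have hF := csF2_cont hf
  have hU := csU_cont hf w
  have hF2 : ∀ x, HasDerivAt (csF1 (csF2 f)) (csF2 f x) x := fun x => csF1_deriv hF x
  have hd : ∀ s, HasDerivAt (fun s => s * (csF2 f (s + w) - csF2 f (s - w)) -
      (csF1 (csF2 f) (s + w) - csF1 (csF2 f) (s - w))) (s * csU w f s) s := by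
    intro s
    rw [csU_eq hf]
    have h1 := ((csF2_deriv hf (s + w)).comp_add_const s w).sub
      ((csF2_deriv hf (s - w)).comp_sub_const s w)
    have h2 := ((hF2 (s + w)).comp_add_const s w).sub ((hF2 (s - w)).comp_sub_const s w)
    refine (((hasDerivAt_id s).mul h1).sub h2).congr_deriv ?_
    simp only [id, Pi.sub_apply]
    ring
  unfold K
  rw [intervalIntegral.integral_eq_sub_of_hasDerivAt (fun u _ => hd u)
    ((by fun_prop : Continuous fun u => u * csU w f u).intervalIntegrable _ _)]
  have e0 : csF1 (csF2 f) (0 + w) = csF1 (csF2 f) (0 - w) := by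
    rw [zero_add, zero_sub, csF1_even (csF2_odd ho)]
  have e1 : ∫ u in (t - w)..(t + w), csF2 f u = csF1 (csF2 f) (t + w) - csF1 (csF2 f) (t - w) :=
    intervalIntegral.integral_eq_sub_of_hasDerivAt (fun u _ => hF2 u) (hF.intervalIntegrable _ _)
  rw [e0, e1]
  ring

theorem ClassS_Kbox_bound {f : ℝ → ℝ} (hf : Continuous f) (ho : ∀ x, f (-x) = - f x)
    (hK : ∀ x, 0 ≤ x → 0 ≤ K f x) {w t : ℝ} (hw : 0 ≤ w) (hwt : w ≤ t) (ht : 0 < t) :
    t * ((t - w) * (csF2 f (t + w) / (t + w)) - csF2 f (t - w)) ≤ K (csU w f) t := by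
  have hF := csF2_cont hf
  have htw : 0 < t + w := by linarith
  rw [ClassS_Kbox_eq hf ho]
  have h1 : ∫ u in (t - w)..(t + w), csF2 f u ≤
      ∫ u in (t - w)..(t + w), (csF2 f (t + w) / (t + w)) * u := by
    apply intervalIntegral.integral_mono_on (by linarith) (hF.intervalIntegrable _ _)
      ((by fun_prop : Continuous fun u : ℝ => (csF2 f (t + w) / (t + w)) * u).intervalIntegrable _ _)
    intro u hu
    have hu0 : 0 ≤ u := by linarith [hu.1]
    have := csF2_le_frac hf hK hu0 hu.2
    rw [div_mul_eq_mul_div, le_div_iff₀ htw]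
    linarith
  have h2 : ∫ u in (t - w)..(t + w), (csF2 f (t + w) / (t + w)) * u =
      (csF2 f (t + w) / (t + w)) * (2 * t * w) := by
    rw [intervalIntegral.integral_const_mul, integral_id]
    ring
  have h3 : csF2 f (t + w) = (csF2 f (t + w) / (t + w)) * (t + w) := by
    field_simp
  rw [h2] at h1
  set q := csF2 f (t + w) / (t + w) with hq
  rw [h3]
  nlinarith

/-- `K_{U_w f}(t) ≥ 0` for `w ≤ t` whenever `K_f ≥ 0` (key general fact, used everywhere). -/
theorem K_box_nonneg {f : ℝ → ℝ} (hc : Continuous f) (ho : ∀ x, f (-x) = - f x)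
    (hK : ∀ x, 0 ≤ x → 0 ≤ K f x) {w t : ℝ} (hw : 0 ≤ w) (hwt : w ≤ t) :
    0 ≤ K (fun x => ∫ u in (x - w)..(x + w), f u) t := by
  change 0 ≤ K (csU w f) t
  rcases (hw.trans hwt).eq_or_lt with h0 | h0
  · rw [← h0]; simp [K]
  refine le_trans ?_ (ClassS_Kbox_bound hc ho hK hw hwt h0)
  apply mul_nonneg h0.le
  have htw : 0 < t + w := by linarith
  have := csF2_le_frac hc hK (show 0 ≤ t - w by linarith) (show t - w ≤ t + w by linarith)
  rw [sub_nonneg, ← mul_div_assoc, le_div_iff₀ htw]
  linarith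

/-- strict version: if `K_f > 0` on `(0,ε)`, and `0 < w < t`, `t + w < ε`. -/
theorem K_box_pos {f : ℝ → ℝ} (hc : Continuous f) (ho : ∀ x, f (-x) = - f x)
    (hK : ∀ x, 0 ≤ x → 0 ≤ K f x) {ε : ℝ} (hKp : ∀ x, 0 < x → x < ε → 0 < K f x)
    {w t : ℝ} (hw : 0 < w) (hwt : w < t) (ht : t + w < ε) :
    0 < K (fun x => ∫ u in (x - w)..(x + w), f u) t := by
  change 0 < K (csU w f) t
  have h0 : 0 < t := hw.trans hwt
  refine lt_of_lt_of_le ?_ (ClassS_Kbox_bound hc ho hK hw.le hwt.le h0)
  apply mul_pos h0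
  have htw : 0 < t + w := by linarith
  have htw' : 0 < t - w := by linarith
  have := csF2_div_strict hc hKp htw' (show t - w < t + w by linarith) ht
  rw [div_lt_iff₀ htw'] at this
  rw [sub_pos]
  linarith

/-- windows of functions in the class. -/
theorem ClassS_T_nonneg {α : ℝ} {f : ℝ → ℝ} (hf : InS α f) {x v w : ℝ} (hx : 0 ≤ x) (hxα : x ≤ α)
    (hv : 0 ≤ v) (hvα : v ≤ α) (hw : 0 ≤ w) (hwα : w ≤ α) : 0 ≤ csU v (csU w f) x := by
  have hc := hf.cont
  -- the basic case: `x` is the largest
  have key : ∀ x v w : ℝ, 0 ≤ x → x ≤ α → 0 ≤ v → 0 ≤ w → v ≤ x → w ≤ x →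
      0 ≤ csU v (csU w f) x := by
    intro x v w hx hxα hv hw hvx hwx
    rw [csU_csU hc]
    rcases le_total x (v + w) with h | h
    · have h3 := csF2_three hc hf.Knn (show 0 ≤ x + v - w by linarith) (show 0 ≤ x - v + w by linarith)
        (show 0 ≤ v + w - x by linarith)
      have e : x + v - w + (x - v + w) + (v + w - x) = x + v + w := by ring
      rw [e] at h3
      have e2 : csF2 f (x - v - w) = - csF2 f (v + w - x) := by
        rw [← csF2_odd hf.odd]; congr 1; ring
      rw [e2]
      linarith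
    · -- integral of `U_r f (x)` over `r ∈ [|v - w|, v + w]`
      have hd : ∀ r, HasDerivAt (fun r => csF2 f (x + r) + csF2 f (x - r)) (csU r f x) r := by
        intro r
        rw [csU_eq hc]
        have h1 : HasDerivAt (fun r : ℝ => x + r) 1 r := (hasDerivAt_id r).const_add x
        have h2 : HasDerivAt (fun r : ℝ => x - r) (-1) r := (hasDerivAt_id r).const_sub x
        refine (((csF2_deriv hc (x + r)).comp r h1).add ((csF2_deriv hc (x - r)).comp r h2)).congr_deriv ?_
        ring
      have hci : Continuous fun r => csU r f x := by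
        have := csU_cont2 hc
        exact this.comp (by fun_prop : Continuous fun r : ℝ => (r, x))
      rcases le_total w v with hwv | hwv
      · have hI := intervalIntegral.integral_eq_sub_of_hasDerivAt (a := v - w) (b := v + w)
          (fun u _ => hd u) (hci.intervalIntegrable _ _)
        have hnn : 0 ≤ ∫ r in (v - w)..(v + w), csU r f x := by
          apply intervalIntegral.integral_nonneg (by linarith)
          intro r hr
          exact hf.box x r hx hxα (by linarith [hr.1]) (by linarith [hr.2])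
        rw [hI] at hnn
        have e1 : x + (v + w) = x + v + w := by ring
        have e2 : x - (v + w) = x - v - w := by ring
        have e3 : x + (v - w) = x + v - w := by ring
        have e4 : x - (v - w) = x - v + w := by ring
        rw [e1, e2, e3, e4] at hnn
        linarith
      · have hI := intervalIntegral.integral_eq_sub_of_hasDerivAt (a := w - v) (b := v + w)
          (fun u _ => hd u) (hci.intervalIntegrable _ _)
        have hnn : 0 ≤ ∫ r in (w - v)..(v + w), csU r f x := by
          apply intervalIntegral.integral_nonneg (by linarith)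
          intro r hr
          exact hf.box x r hx hxα (by linarith [hr.1]) (by linarith [hr.2])
        rw [hI] at hnn
        have e1 : x + (v + w) = x + v + w := by ring
        have e2 : x - (v + w) = x - v - w := by ring
        have e3 : x + (w - v) = x - v + w := by ring
        have e4 : x - (w - v) = x + v - w := by ring
        rw [e1, e2, e3, e4] at hnn
        linarith
  have hoF := csF2_odd hf.odd
  rcases le_total v x with h1 | h1
  · rcases le_total w x with h2 | h2
    · exact key x v w hx hxα hv hw h1 h2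
    · -- `w` largest
      have h3 := key w v x hw hwα hv hx (h1.trans h2) h2
      rw [csU_csU hc] at h3 ⊢
      have e1 : csF2 f (w + v + x) = csF2 f (x + v + w) := by congr 1; ring
      have e2 : csF2 f (w + v - x) = - csF2 f (x - v - w) := by rw [← hoF]; congr 1; ring
      have e3 : csF2 f (w - v + x) = csF2 f (x - v + w) := by congr 1; ring
      have e4 : csF2 f (w - v - x) = - csF2 f (x + v - w) := by rw [← hoF]; congr 1; ring
      rw [e1, e2, e3, e4] at h3
      linarith
  · rcases le_total w v with h2 | h2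
    · -- `v` largest
      have h3 := key v x w hv hvα hx hw h1 h2
      rw [csU_csU hc] at h3 ⊢
      have e1 : csF2 f (v + x + w) = csF2 f (x + v + w) := by congr 1; ring
      have e2 : csF2 f (v + x - w) = csF2 f (x + v - w) := by congr 1; ring
      have e3 : csF2 f (v - x + w) = - csF2 f (x - v - w) := by rw [← hoF]; congr 1; ring
      have e4 : csF2 f (v - x - w) = - csF2 f (x - v + w) := by rw [← hoF]; congr 1; ring
      rw [e1, e2, e3, e4] at h3
      linarith
    · have h3 := key w v x hw hwα hv hx h2 (h1.trans h2)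
      rw [csU_csU hc] at h3 ⊢
      have e1 : csF2 f (w + v + x) = csF2 f (x + v + w) := by congr 1; ring
      have e2 : csF2 f (w + v - x) = - csF2 f (x - v - w) := by rw [← hoF]; congr 1; ring
      have e3 : csF2 f (w - v + x) = csF2 f (x - v + w) := by congr 1; ring
      have e4 : csF2 f (w - v - x) = - csF2 f (x + v - w) := by rw [← hoF]; congr 1; ring
      rw [e1, e2, e3, e4] at h3
      linarith

theorem ClassS_Kbox_nonneg {α : ℝ} {f : ℝ → ℝ} (hf : InS α f) {t w : ℝ} (ht : 0 ≤ t)
    (hw : 0 ≤ w) (hwα : w ≤ α) : 0 ≤ K (csU w f) t := by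
  rcases le_total w t with h | h
  · exact K_box_nonneg hf.cont hf.odd hf.Knn hw h
  · apply intervalIntegral.integral_nonneg ht
    intro s hs
    exact mul_nonneg hs.1 (hf.box s w hs.1 (hs.2.trans (h.trans hwα)) hw hwα)

theorem ClassS_Yop_continuous {τ b : ℝ} {f : ℝ → ℝ} (hf : Continuous f) : Continuous (Yop τ b f) := by
  have hE := E_continuous
  unfold Yop
  fun_prop

theorem ClassS_Yop_odd {τ b : ℝ} {f : ℝ → ℝ} (hf : Continuous f) (ho : ∀ x, f (-x) = - f x) (x : ℝ) :
    Yop τ b f (-x) = - Yop τ b f x := by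
  rw [ClassS_Yop_half hf, ClassS_Yop_half hf, ← intervalIntegral.integral_neg]
  congr 1
  ext t
  rw [show -x + b * t = -(x - b * t) by ring, show -x - b * t = -(x + b * t) by ring, ho, ho]
  ring

theorem ClassS_Yop_zero_eq {τ : ℝ} {f : ℝ → ℝ} (x : ℝ) :
    Yop τ 0 f x = (∫ t in (-τ)..τ, E t) * f x := by
  unfold Yop
  simp only [zero_mul, add_zero]
  rw [intervalIntegral.integral_mul_const]

theorem ClassS_E_int_pos {τ : ℝ} (hτ : 0 < τ) : 0 < ∫ t in (-τ)..τ, E t :=
  intervalIntegral.intervalIntegral_pos_of_pos (E_continuous.intervalIntegrable _ _) E_pos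
    (by linarith)

/-- windows and `Y_b` commute -/
theorem csU_Yop {τ b : ℝ} {f : ℝ → ℝ} (hf : Continuous f) (v x : ℝ) :
    csU v (Yop τ b f) x = Yop τ b (csU v f) x := by
  have hE := E_continuous
  unfold csU Yop
  rw [ClassS_swap (k := fun u t => E t * f (u + b * t)) (by unfold Function.uncurry; fun_prop)]
  congr 1
  ext t
  rw [intervalIntegral.integral_const_mul, intervalIntegral.integral_comp_add_right]
  congr 2 <;> ring

theorem ClassS_Yop_layer' {τ b : ℝ} (hτ : 0 < τ) (hb : 0 < b) {f : ℝ → ℝ} (hf : Continuous f)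
    (x : ℝ) : b * Yop τ b f x = E τ * csU (b * τ) f x +
      ∫ t in (0 : ℝ)..τ, t * E t * csU (b * t) f x := Yop_layer hτ hb hf x

theorem ClassS_K_Yop {τ b : ℝ} (hτ : 0 < τ) (hb : 0 < b) {f : ℝ → ℝ} (hf : Continuous f)
    (x : ℝ) : b * K (Yop τ b f) x = E τ * K (csU (b * τ) f) x +
      ∫ t in (0 : ℝ)..τ, t * E t * K (csU (b * t) f) x := by
  have hE := E_continuous
  have hY := ClassS_Yop_continuous (τ := τ) (b := b) hf
  have hU := csU_cont hf (b * τ)
  have hF := csF1_cont hf
  have hU2 : Continuous fun p : ℝ × ℝ => csU (b * p.2) f p.1 := by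
    simp only [csU_eq hf]; fun_prop
  unfold K
  rw [← intervalIntegral.integral_const_mul]
  have e : ∀ s, b * (s * Yop τ b f s) = E τ * (s * csU (b * τ) f s) +
      ∫ t in (0 : ℝ)..τ, t * E t * (s * csU (b * t) f s) := by
    intro s
    have h1 := ClassS_Yop_layer' hτ hb hf s
    have h2 : ∫ t in (0 : ℝ)..τ, t * E t * (s * csU (b * t) f s) =
        s * ∫ t in (0 : ℝ)..τ, t * E t * csU (b * t) f s := by
      rw [← intervalIntegral.integral_const_mul]
      congr 1
      ext t
      ring
    rw [h2]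
    calc b * (s * Yop τ b f s) = s * (b * Yop τ b f s) := by ring
      _ = _ := by rw [h1]; ring
  simp only [e]
  have hk : Continuous (Function.uncurry fun s t : ℝ => t * E t * (s * csU (b * t) f s)) := by
    unfold Function.uncurry
    fun_prop
  rw [intervalIntegral.integral_add
    ((by fun_prop : Continuous fun s => E τ * (s * csU (b * τ) f s)).intervalIntegrable _ _)
    ((intervalIntegral.continuous_parametric_intervalIntegral_of_continuous' hk 0 τ).intervalIntegrable
      _ _), intervalIntegral.integral_const_mul, ClassS_swap hk]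
  congr 1
  congr 1
  ext t
  rw [intervalIntegral.integral_const_mul]

theorem InS.b_zero_case {τ α : ℝ} (hτ : 0 < τ) {f : ℝ → ℝ} (hf : InS α f) :
    InS α (GCube.Yop τ 0 f) := by
  have hc0 := ClassS_E_int_pos hτ
  set c := ∫ t in (-τ)..τ, E t
  have he : GCube.Yop τ 0 f = fun x => c * f x := funext fun x => ClassS_Yop_zero_eq x
  rw [he]
  refine ⟨by have := hf.cont; fun_prop, fun x => by rw [hf.odd]; ring, ?_, ?_, ?_, ?_⟩
  · obtain ⟨R, hR⟩ := hf.supp
    exact ⟨R, fun x hx => by rw [hR x hx, mul_zero]⟩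
  · intro x h0 h1
    exact mul_pos hc0 (hf.pos x h0 h1)
  · intro x v h0 h1 h2 h3
    rw [intervalIntegral.integral_const_mul]
    exact mul_nonneg hc0.le (hf.box x v h0 h1 h2 h3)
  · intro x hx
    have : K (fun x => c * f x) x = c * K f x := by
      unfold K
      rw [← intervalIntegral.integral_const_mul]
      congr 1
      ext u
      ring
    rw [this]
    exact mul_nonneg hc0.le (hf.Knn x hx)

/-- closure of the class. -/
theorem InS.Yop {τ α b : ℝ} (hτ : 0 < τ) (hα : 0 < α) (hb : 0 ≤ b) (hbα : b * τ ≤ α) {f : ℝ → ℝ}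
    (hf : InS α f) : InS α (GCube.Yop τ b f) := by
  rcases hb.eq_or_lt with rfl | hb0
  · exact hf.b_zero_case hτ
  have hc := hf.cont
  have hE := E_continuous
  have hF := csF1_cont hc
  have hbt : ∀ t, t ∈ Icc 0 τ → 0 ≤ b * t ∧ b * t ≤ α := fun t ht =>
    ⟨mul_nonneg hb ht.1, (mul_le_mul_of_nonneg_left ht.2 hb).trans hbα⟩
  have hU2 : ∀ x, Continuous fun t => csU (b * t) f x := by
    intro x; simp only [csU_eq hc]; fun_prop
  refine ⟨ClassS_Yop_continuous hc, ClassS_Yop_odd hc hf.odd, ?_, ?_, ?_, ?_⟩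
  · obtain ⟨R, hR⟩ := hf.supp
    refine ⟨R + b * τ, fun x hx => ?_⟩
    unfold GCube.Yop
    rw [show (0 : ℝ) = ∫ t in (-τ)..τ, (0 : ℝ) by simp]
    apply intervalIntegral.integral_congr
    intro t ht
    rw [uIcc_of_le (by linarith)] at ht
    have h1 : |b * t| ≤ b * τ := by
      rw [abs_mul, abs_of_pos hb0]
      gcongr
      exact abs_le.2 ht
    have h2 : R ≤ |x + b * t| := by
      have h3 := abs_sub_abs_le_abs_sub x (-(b * t))
      rw [abs_neg, sub_neg_eq_add] at h3
      linarith
    simp only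
    rw [hR _ h2, mul_zero]
  · intro x h0 h1
    have h2 := ClassS_Yop_layer' hτ hb0 hc x
    have h3 : 0 ≤ E τ * csU (b * τ) f x :=
      mul_nonneg (E_pos τ).le (hf.box x _ h0.le h1.le (hbt τ ⟨hτ.le, le_rfl⟩).1 hbα)
    have h4 : 0 < ∫ t in (0 : ℝ)..τ, t * E t * csU (b * t) f x := by
      apply intervalIntegral.integral_pos hτ
      · have := hU2 x
        exact (by fun_prop : Continuous fun t => t * E t * csU (b * t) f x).continuousOn
      · intro t ht
        exact mul_nonneg (mul_nonneg ht.1.le (E_pos t).le)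
          (hf.box x _ h0.le h1.le (hbt t ⟨ht.1.le, ht.2⟩).1 (hbt t ⟨ht.1.le, ht.2⟩).2)
      · -- a small window
        set δ := min τ (min x (α - x) / (2 * b)) with hδ
        have hm : 0 < min x (α - x) := lt_min h0 (by linarith)
        have hδ0 : 0 < δ := by positivity
        refine ⟨δ, ⟨hδ0.le, min_le_left _ _⟩, ?_⟩
        have hbδ : b * δ ≤ min x (α - x) / 2 := by
          have : δ ≤ min x (α - x) / (2 * b) := min_le_right _ _
          calc b * δ ≤ b * (min x (α - x) / (2 * b)) := by gcongr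
            _ = min x (α - x) / 2 := by field_simp
        have hx1 := min_le_left x (α - x)
        have hx2 := min_le_right x (α - x)
        have hbδ0 : 0 < b * δ := mul_pos hb0 hδ0
        apply mul_pos (mul_pos hδ0 (E_pos δ))
        unfold csU
        apply intervalIntegral.intervalIntegral_pos_of_pos_on (hc.intervalIntegrable _ _)
        · intro u hu
          exact hf.pos u (by linarith [hu.1]) (by linarith [hu.2])
        · linarith
    have h5 : 0 < b * GCube.Yop τ b f x := by rw [h2]; linarith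
    exact (mul_pos_iff_of_pos_left hb0).1 h5
  · intro x v h0 h1 h2 h3
    change 0 ≤ csU v (GCube.Yop τ b f) x
    rw [csU_Yop hc]
    have hV := csU_cont hc v
    have h4 := ClassS_Yop_layer' hτ hb0 hV x
    have h5 : 0 ≤ E τ * csU (b * τ) (csU v f) x :=
      mul_nonneg (E_pos τ).le
        (ClassS_T_nonneg hf h0 h1 (hbt τ ⟨hτ.le, le_rfl⟩).1 hbα h2 h3)
    have h6 : 0 ≤ ∫ t in (0 : ℝ)..τ, t * E t * csU (b * t) (csU v f) x := by
      apply intervalIntegral.integral_nonneg hτ.le
      intro t ht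
      exact mul_nonneg (mul_nonneg ht.1 (E_pos t).le)
        (ClassS_T_nonneg hf h0 h1 (hbt t ht).1 (hbt t ht).2 h2 h3)
    have h7 : 0 ≤ b * GCube.Yop τ b (csU v f) x := by rw [h4]; linarith
    exact nonneg_of_mul_nonneg_right h7 hb0
  · intro x hx
    have h4 := ClassS_K_Yop hτ hb0 hc x
    have h5 : 0 ≤ E τ * K (csU (b * τ) f) x :=
      mul_nonneg (E_pos τ).le (ClassS_Kbox_nonneg hf hx (hbt τ ⟨hτ.le, le_rfl⟩).1 hbα)
    have h6 : 0 ≤ ∫ t in (0 : ℝ)..τ, t * E t * K (csU (b * t) f) x := by
      apply intervalIntegral.integral_nonneg hτ.le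
      intro t ht
      exact mul_nonneg (mul_nonneg ht.1 (E_pos t).le)
        (ClassS_Kbox_nonneg hf hx (hbt t ht).1 (hbt t ht).2)
    have h7 : 0 ≤ b * K (GCube.Yop τ b f) x := by rw [h4]; linarith
    exact nonneg_of_mul_nonneg_right h7 hb0

theorem InS.Yl {τ α : ℝ} (hτ : 0 < τ) (hα : 0 < α) {l : List ℝ} (hl : ∀ b ∈ l, 0 ≤ b ∧ b * τ ≤ α)
    {f : ℝ → ℝ} (hf : InS α f) : InS α (GCube.Yl τ l f) := by
  induction l with
  | nil => simpa [GCube.Yl] using hf
  | cons b l ih =>
      have h1 := hl b (by simp)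
      have h2 := ih (fun c hc => hl c (by simp [hc]))
      simpa [GCube.Yl] using InS.Yop hτ hα h1.1 h1.2 h2

theorem InS.Lf_pos {τ α b : ℝ} (hτ : 0 < τ) (hα : 0 < α) (hb : 0 < b) (hbα : b * τ ≤ α) {f : ℝ → ℝ}
    (hf : InS α f) : 0 < Lf τ b f := by
  have hc := hf.cont
  have hE := E_continuous
  have h1 : 0 ≤ f (b * τ) := by
    rcases hbα.eq_or_lt with h | h
    · rw [h]
      have hcw : Filter.Tendsto f (nhdsWithin α (Iio α)) (nhds (f α)) :=
        hc.continuousAt.mono_left nhdsWithin_le_nhds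
      refine ge_of_tendsto hcw ?_
      have : Ioo 0 α ∈ nhdsWithin α (Iio α) := Ioo_mem_nhdsLT hα
      filter_upwards [this] with y hy
      exact (hf.pos y hy.1 hy.2).le
    · exact (hf.pos _ (mul_pos hb hτ) h).le
  have h2 : 0 < ∫ t in (0 : ℝ)..τ, t * E t * f (b * t) := by
    apply intervalIntegral.intervalIntegral_pos_of_pos_on
      ((by fun_prop : Continuous fun t => t * E t * f (b * t)).intervalIntegrable _ _) _ hτ
    intro t ht
    have h3 : b * t < α := (mul_lt_mul_of_pos_left ht.2 hb).trans_le hbα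
    exact mul_pos (mul_pos ht.1 (E_pos t)) (hf.pos _ (mul_pos hb ht.1) h3)
  have h3 := mul_nonneg (E_pos τ).le h1
  unfold Lf
  linarith

theorem InS.toInP {α : ℝ} (hα : 0 < α) {f : ℝ → ℝ} (hf : InS α f) : InP f := by
  refine ⟨hf.cont, hf.odd, hf.supp, hf.Knn, α, hα, fun x h0 h1 => ?_⟩
  have hc := hf.cont
  apply intervalIntegral.intervalIntegral_pos_of_pos_on
    ((by fun_prop : Continuous fun t => t * f t).intervalIntegrable _ _) _ h0
  intro t ht
  exact mul_pos ht.1 (hf.pos t ht.1 (ht.2.trans h1))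

end GCube
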