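import Pool.Agent.Lib.H83.LAGauss

/-!
Chunk LA4: the part `[2.7/y, ∞)` for `τ ≥ 3.6`. `ρ = Pn τ (1.6yτ)`, `u = yx ≥ 2.7`, `P̂ = Pn τ 2.7`, `g = E τ`, `t = 1/(yτ) ≥ 1/0.82`.

* `|x X| ≤ 0.0103 + z`, `z = 1.524 τ³/x²`: `xXn_bound` with `τ³ N_2 ≥ 1.247` (`la_N2`), `TVb ≤ 1.9` (`τ² > 3`).
* `|x P| ≤ hn + |x X| ≤ 0.0148 + z`; `|kap| ≤ |xP| (|xX|/2.7 + 1) ≤ 0.015 + 1.01 z + 0.371 z²`.
* `|P(u)| ≤ P̂` for `u ≥ 2.7`: on `[2.7,4.4]` `Pn_anti` and `P ≥ E(u/τ) - g > 0`; beyond: `|P(u)| ≤ E(4.4/τ) + g ≤ E(2.7/τ) - g ≤ P̂`.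
* `P̂^k exp(e) ≤ ρ^k`, `e ≥ 0.3723 (7.29 t² - 2.56)` (`LA_pow`, `LA_A`), `exp e ≥ e³ (e - 2)`: `P̂^k ≤ ρ^k/20`, `P̂^k/y ≤ 0.061 τ ρ^k`.
* `|P_y|^k ≤ P̂^(k-2) (0.8 τ/u)²` for the constant part, `P̂ ≥ 0.717`.
-/

open MeasureTheory Set
open scoped Real

namespace GCube

theorem LA4_E_lower {s c : ℝ} (h : s ^ 2 ≤ c) : 1 - c / 2 ≤ E s := by
  unfold E
  have := Real.add_one_le_exp (-(s ^ 2) / 2)
  linarith

theorem LA4_Phat {τ : ℝ} (hτ : 36 / 10 ≤ τ) : 717 / 1000 ≤ Pn τ (27 / 10) := by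
  have h1 := la_P hτ (27 / 10)
  have h2 := la_E hτ
  have h3 : (27 / 10 / τ) ^ 2 ≤ 9 / 16 := by
    have hτ0 : 0 < τ := by linarith
    rw [div_pow, div_le_iff₀ (by positivity)]
    nlinarith
  have h4 := LA4_E_lower h3
  have h5 := (abs_le.1 h1).1
  linarith

theorem LA4_abs {τ : ℝ} (hτ : 36 / 10 ≤ τ) {u : ℝ} (hu : 27 / 10 ≤ u) :
    |Pn τ u| ≤ Pn τ (27 / 10) := by
  have hτ0 : 0 < τ := by linarith
  have hE := la_E hτ
  have hE3 := la_E3 hτ
  have hE0 := E_pos τ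
  rcases le_or_gt u (44 / 10) with h1 | h1
  · have h2 : (u / τ) ^ 2 ≤ 15 / 10 := by
      rw [div_pow, div_le_iff₀ (by positivity)]
      nlinarith
    have h3 := LA4_E_lower h2
    have h4 := (abs_le.1 (la_P hτ u)).1
    have h5 : 0 < Pn τ u := by linarith
    rw [abs_of_pos h5]
    exact Pn_anti hτ0 ⟨by norm_num, by norm_num⟩ ⟨by linarith, h1⟩ hu
  · have h2 : |Pn τ u| ≤ E (44 / 10 / τ) + E τ := by
      have h3 := la_P hτ u
      have h4 : E (u / τ) ≤ E (44 / 10 / τ) := by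
        unfold E
        rw [Real.exp_le_exp]
        have : (44 / 10 / τ) ^ 2 ≤ (u / τ) ^ 2 := by
          apply pow_le_pow_left₀ (by positivity)
          gcongr
        linarith
      have h5 := abs_sub_abs_le_abs_sub (Pn τ u) (E (u / τ))
      rw [abs_of_pos (E_pos (u / τ))] at h5
      linarith
    refine h2.trans ?_
    have h6 := (abs_le.1 (la_P hτ (27 / 10))).1
    have h7 : E (44 / 10 / τ) * (1 + 6 / τ ^ 2) ≤ E (27 / 10 / τ) := by
      have e1 : E (27 / 10 / τ) = E (44 / 10 / τ) * Real.exp (6035 / 1000 / τ ^ 2) := by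
        unfold E
        rw [← Real.exp_add]
        congr 1
        field_simp
        ring
      rw [e1]
      refine mul_le_mul_of_nonneg_left ?_ (E_pos _).le
      have e2 := Real.add_one_le_exp (6035 / 1000 / τ ^ 2)
      have e3 : 6 / τ ^ 2 ≤ 6035 / 1000 / τ ^ 2 := by
        gcongr
        norm_num
      linarith
    have h8 : (44 / 10 / τ) ^ 2 ≤ 15 / 10 := by
      rw [div_pow, div_le_iff₀ (by positivity)]
      nlinarith
    have h9 := LA4_E_lower h8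
    have h10 : 2 * E τ ≤ E (44 / 10 / τ) * (6 / τ ^ 2) := by
      have e1 : 1 / 4 * (6 / τ ^ 2) ≤ E (44 / 10 / τ) * (6 / τ ^ 2) :=
        mul_le_mul_of_nonneg_right (by linarith) (by positivity)
      refine le_trans ?_ e1
      have e2 : 1 / 4 * (6 / τ ^ 2) = (3 / 2) / τ ^ 2 := by ring
      rw [e2, le_div_iff₀ (by positivity)]
      have e3 : τ ^ 2 * E τ * (36 / 10) ≤ τ ^ 3 * E τ := by
        have : τ ^ 3 * E τ = τ ^ 2 * E τ * τ := by ring
        rw [this]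
        exact mul_le_mul_of_nonneg_left hτ (by positivity)
      linarith
    have h11 : E (44 / 10 / τ) * (1 + 6 / τ ^ 2) = E (44 / 10 / τ) + E (44 / 10 / τ) * (6 / τ ^ 2) := by
      ring
    linarith

theorem LA4_xX {τ x : ℝ} (hτ : 36 / 10 ≤ τ) (hx : 329 / 100 * τ ≤ x) :
    |x * Xn τ x| ≤ 103 / 10000 + 1524 / 1000 * τ ^ 3 / x ^ 2 := by
  have hτ0 : 0 < τ := by linarith
  have hx0 : 0 < x := lt_of_lt_of_le (by positivity) hx
  have hN := Nm_pos τ 2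
  have hN2 := la_N2 hτ
  have hE3 := la_E3 hτ
  have hE0 := E_pos τ
  refine (xXn_bound hτ0 hx0).trans ?_
  have a1 : E τ / Nm τ 2 ≤ 5775 / 100000 := by
    rw [div_le_iff₀ hN]
    have : 0 < τ ^ 3 := by positivity
    by_contra hc
    push Not at hc
    have h1 : τ ^ 3 * (5775 / 100000 * Nm τ 2) < τ ^ 3 * E τ := mul_lt_mul_of_pos_left hc this
    nlinarith
  have a0 : 0 ≤ E τ / Nm τ 2 := div_nonneg hE0.le hN.le
  have a2 : |1 - τ ^ 2| * E τ / Nm τ 2 ≤ 5775 / 100000 * τ ^ 2 := by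
    have : |1 - τ ^ 2| ≤ τ ^ 2 := by
      rw [abs_le]
      constructor <;> nlinarith
    calc |1 - τ ^ 2| * E τ / Nm τ 2 = |1 - τ ^ 2| * (E τ / Nm τ 2) := by ring
      _ ≤ τ ^ 2 * (5775 / 100000) := mul_le_mul this a1 a0 (by positivity)
      _ = 5775 / 100000 * τ ^ 2 := by ring
  have a3 : TVb τ / Nm τ 2 ≤ 1524 / 1000 * τ ^ 3 := by
    have : TVb τ = 19 / 10 := by
      unfold TVb
      rw [if_neg]
      nlinarith
    rw [this, div_le_iff₀ hN]
    nlinarith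
  have b1 : E τ / Nm τ 2 * |Real.cos x| ≤ 5775 / 100000 := by
    calc E τ / Nm τ 2 * |Real.cos x| ≤ 5775 / 100000 * 1 :=
          mul_le_mul a1 (Real.abs_cos_le_one x) (abs_nonneg _) (by norm_num)
      _ = 5775 / 100000 := mul_one _
  have b2 : |1 - τ ^ 2| * E τ / Nm τ 2 * |Real.sin x| ≤ 5775 / 100000 * τ ^ 2 := by
    calc |1 - τ ^ 2| * E τ / Nm τ 2 * |Real.sin x| ≤ (5775 / 100000 * τ ^ 2) * 1 :=
          mul_le_mul a2 (Real.abs_sin_le_one x) (abs_nonneg _) (by positivity)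
      _ = 5775 / 100000 * τ ^ 2 := mul_one _
  have b3 : (E τ / Nm τ 2 * |Real.cos x| +
      (|1 - τ ^ 2| * E τ / Nm τ 2 * |Real.sin x| + TVb τ / Nm τ 2) / x) / x ≤
      (5775 / 100000 + (5775 / 100000 * τ ^ 2 + 1524 / 1000 * τ ^ 3) / x) / x := by
    gcongr
  refine b3.trans ?_
  have c1 : (5775 / 100000 + (5775 / 100000 * τ ^ 2 + 1524 / 1000 * τ ^ 3) / x) / x =
      5775 / 100000 * (1 / x) + 5775 / 100000 * (τ / x) ^ 2 + 1524 / 1000 * τ ^ 3 / x ^ 2 := by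
    field_simp
    ring
  rw [c1]
  have c2 : 1 / x ≤ 1 / (1184 / 100) := by
    apply one_div_le_one_div_of_le (by norm_num)
    linarith
  have c3 : τ / x ≤ 1 / (329 / 100) := by
    rw [div_le_div_iff₀ hx0 (by norm_num)]
    linarith
  have c4 : (τ / x) ^ 2 ≤ (1 / (329 / 100)) ^ 2 := pow_le_pow_left₀ (by positivity) c3 2
  nlinarith

theorem LA4_kap {τ y x : ℝ} (hτ : 36 / 10 ≤ τ) (hx : 329 / 100 * τ ≤ x) (hu : 27 / 10 ≤ y * x) :
    |kap τ y x| ≤ 15 / 1000 + 101 / 100 * (1524 / 1000 * τ ^ 3 / x ^ 2) +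
      371 / 1000 * (1524 / 1000 * τ ^ 3 / x ^ 2) ^ 2 := by
  have hτ0 : 0 < τ := by linarith
  have hx0 : 0 < x := lt_of_lt_of_le (by positivity) hx
  have h1 := LA4_xX hτ hx
  set z : ℝ := 1524 / 1000 * τ ^ 3 / x ^ 2 with hz
  have hz0 : 0 ≤ z := by positivity
  have hh := la_hn hτ
  have hh0 := hn_pos τ
  have hs0 := sg_pos hτ0
  have hs1 : sg τ ≤ 1 := by
    unfold sg
    linarith
  have h2 : |x * Pn τ x| ≤ 148 / 10000 + z := by
    have e1 : x * Pn τ x = hn τ * Real.sin x + sg τ * (x * Xn τ x) := by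
      rw [Pn_eq hτ0 x, ← psi_mul_sinc]; ring
    rw [e1]
    calc |hn τ * Real.sin x + sg τ * (x * Xn τ x)|
        ≤ |hn τ * Real.sin x| + |sg τ * (x * Xn τ x)| := abs_add_le _ _
      _ = hn τ * |Real.sin x| + sg τ * |x * Xn τ x| := by
          rw [abs_mul, abs_mul, abs_of_pos hh0, abs_of_pos hs0]
      _ ≤ 45 / 10000 * 1 + 1 * (103 / 10000 + z) :=
          add_le_add (mul_le_mul hh (Real.abs_sin_le_one x) (abs_nonneg _) (by norm_num))
            (mul_le_mul hs1 h1 (abs_nonneg _) zero_le_one)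
      _ = 148 / 10000 + z := by ring
  refine (kap_abs hx0.le).trans ?_
  have h3 : |Real.sinc (y * x)| ≤ 1 / (27 / 10) :=
    (abs_sinc_inv (by linarith)).trans (one_div_le_one_div_of_le (by norm_num) hu)
  have h4 : |x * Xn τ x| * |Real.sinc (y * x)| + |Real.sin x| * |Xn τ (y * x)| ≤
      (103 / 10000 + z) * (1 / (27 / 10)) + 1 * 1 :=
    add_le_add (mul_le_mul h1 h3 (abs_nonneg _) (by positivity))
      (mul_le_mul (Real.abs_sin_le_one x) (abs_Xn_le_one τ _) (abs_nonneg _) zero_le_one)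
  have h5 := mul_le_mul h2 h4 (by positivity) (by positivity)
  refine h5.trans ?_
  nlinarith [mul_nonneg hz0 hz0]

theorem LA4_int {X A B : ℝ} (hX : 0 < X) :
    IntegrableOn (fun x : ℝ => A / x ^ 2 + B / x ^ 4) (Ioi X) ∧
    ∫ x in Ioi X, (A / x ^ 2 + B / x ^ 4) = A / X + B / (3 * X ^ 3) := by
  have i2 : IntegrableOn (fun x : ℝ => x ^ (-2 : ℝ)) (Ioi X) := integrableOn_Ioi_rpow_of_lt (by norm_num) hX
  have i4 : IntegrableOn (fun x : ℝ => x ^ (-4 : ℝ)) (Ioi X) := integrableOn_Ioi_rpow_of_lt (by norm_num) hX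
  have v2 : ∫ x in Ioi X, x ^ (-2 : ℝ) = 1 / X := by
    rw [integral_Ioi_rpow_of_lt (by norm_num) hX]
    have : X ^ ((-2 : ℝ) + 1) = X⁻¹ := by
      rw [show (-2 : ℝ) + 1 = -1 by norm_num, Real.rpow_neg_one]
    rw [this]
    field_simp
    norm_num
  have v4 : ∫ x in Ioi X, x ^ (-4 : ℝ) = 1 / (3 * X ^ 3) := by
    rw [integral_Ioi_rpow_of_lt (by norm_num) hX]
    have : X ^ ((-4 : ℝ) + 1) = (X ^ 3)⁻¹ := by
      rw [show (-4 : ℝ) + 1 = -((3 : ℕ) : ℝ) by norm_num, Real.rpow_neg hX.le, Real.rpow_natCast]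
    rw [this]
    field_simp
    norm_num
  have hpt : ∀ x ∈ Ioi X, A / x ^ 2 + B / x ^ 4 = A * x ^ (-2 : ℝ) + B * x ^ (-4 : ℝ) := by
    intro x hx
    have hx0 : 0 < x := hX.trans hx
    rw [show (-2 : ℝ) = -((2 : ℕ) : ℝ) by norm_num, show (-4 : ℝ) = -((4 : ℕ) : ℝ) by norm_num,
      Real.rpow_neg hx0.le, Real.rpow_neg hx0.le, Real.rpow_natCast, Real.rpow_natCast]
    field_simp
  have i5 : IntegrableOn (fun x : ℝ => A * x ^ (-2 : ℝ) + B * x ^ (-4 : ℝ)) (Ioi X) :=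
    (i2.const_mul _).add (i4.const_mul _)
  refine ⟨(integrableOn_congr_fun hpt measurableSet_Ioi).2 i5, ?_⟩
  rw [setIntegral_congr_fun measurableSet_Ioi hpt, integral_add (i2.const_mul _) (i4.const_mul _),
    integral_const_mul, integral_const_mul, v2, v4]
  field_simp

/-- the ratio `P̂^k / ρ^k` -/
theorem LA4_ratio {τ y : ℝ} {k : ℕ} (h : LAH τ y k) :
    Pn τ (27 / 10) ^ k ≤ 1 / 20 * Pn τ (y * (16 / 10 * τ)) ^ k ∧
    1 / y * Pn τ (27 / 10) ^ k ≤ 61 / 1000 * τ * Pn τ (y * (16 / 10 * τ)) ^ k := by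
  have hτ := h.hτ
  have hy0 := h.hy0
  have hτ0 : 0 < τ := by linarith
  have hyt := h.hyt
  have hπ : (3 : ℝ) < π := Real.pi_gt_three
  have hyτ0 : 0 < y * τ := by positivity
  have hxx : 16 / 10 * τ ≤ 27 / 10 / y := by
    rw [le_div_iff₀ hy0]
    nlinarith
  have hcan : y * (27 / 10 / y) = 27 / 10 := by field_simp
  have hpow := LA_pow h (x := 16 / 10 * τ) (x' := 27 / 10 / y) (by positivity) hxx
    (by rw [hcan]; linarith)
  rw [hcan] at hpow
  have hA := LA_A h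
  set t : ℝ := 1 / (y * τ) with ht
  have ht0 : 0 < t := by positivity
  have ht1 : 1 / (82 / 100) ≤ t := one_div_le_one_div_of_le hyτ0 hyt
  have ht2 : (1 / (82 / 100)) ^ 2 ≤ t ^ 2 := pow_le_pow_left₀ (by norm_num) ht1 2
  set e : ℝ := m2 τ * k * y ^ 2 / 2 * ((27 / 10 / y) ^ 2 - (16 / 10 * τ) ^ 2) with he
  have he1 : e = (τ ^ 2 * (m2 τ * k * y ^ 2 / 2)) * (729 / 100 * t ^ 2 - 256 / 100) := by
    rw [he, ht]
    field_simp
    ring
  have he2 : 3723 / 10000 * (729 / 100 * t ^ 2 - 256 / 100) ≤ e := by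
    rw [he1]
    exact mul_le_mul_of_nonneg_right hA (by nlinarith)
  have hexp : 2008 / 100 * (e - 2) ≤ Real.exp e := by
    have e1 : (2.7182818283 : ℝ) < Real.exp 1 := Real.exp_one_gt_d9
    have e2 : Real.exp e = Real.exp 1 ^ 3 * Real.exp (e - 3) := by
      rw [← Real.exp_nat_mul, ← Real.exp_add]
      congr 1
      push_cast
      ring
    have e3 : (2008 / 100 : ℝ) ≤ Real.exp 1 ^ 3 := by
      calc (2008 / 100 : ℝ) ≤ 2.7182818283 ^ 3 := by norm_num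
        _ ≤ Real.exp 1 ^ 3 := pow_le_pow_left₀ (by norm_num) e1.le 3
    have e4 : e - 2 ≤ Real.exp (e - 3) := by
      have := Real.add_one_le_exp (e - 3)
      linarith
    rw [e2]
    exact mul_le_mul e3 e4 (by nlinarith) (by positivity)
  have hP0 : 0 < Pn τ (27 / 10) := by
    have := LA4_Phat hτ
    linarith
  have hPk : 0 < Pn τ (27 / 10) ^ k := pow_pos hP0 k
  constructor
  · have h1 : (20 : ℝ) ≤ Real.exp e := by
      refine le_trans ?_ hexp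
      nlinarith
    have h2 := (mul_le_mul_of_nonneg_left h1 hPk.le).trans hpow
    linarith
  · have h1 : t ≤ 61 / 1000 * Real.exp e := by
      have h3 : t ≤ 61 / 1000 * (2008 / 100 * (e - 2)) := by nlinarith
      linarith
    have hyt' : 1 / y = τ * t := by
      rw [ht]
      field_simp
    have h2 := (mul_le_mul_of_nonneg_left h1 hPk.le)
    rw [hyt']
    calc τ * t * Pn τ (27 / 10) ^ k = τ * (Pn τ (27 / 10) ^ k * t) := by ring
      _ ≤ τ * (Pn τ (27 / 10) ^ k * (61 / 1000 * Real.exp e)) := mul_le_mul_of_nonneg_left h2 hτ0.le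
      _ = 61 / 1000 * τ * (Pn τ (27 / 10) ^ k * Real.exp e) := by ring
      _ ≤ 61 / 1000 * τ * Pn τ (y * (16 / 10 * τ)) ^ k :=
          mul_le_mul_of_nonneg_left hpow (by positivity)

theorem LA_F {τ y : ℝ} {k : ℕ} (h : LAH τ y k) :
    -(1 / 100 * τ ^ 3 * Pn τ (y * (16 / 10 * τ)) ^ k) ≤
      ∫ x in Ioi (27 / 10 / y), kap τ y x * Pn τ (y * x) ^ k := by
  have hτ := h.hτ
  have hy0 := h.hy0
  have hτ0 : 0 < τ := by linarith
  have hyt := h.hyt
  have hk2 : 2 ≤ k := by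
    by_contra hc
    push Not at hc
    have h1 : (k : ℝ) ≤ 1 := by
      have : k ≤ 1 := by omega
      exact_mod_cast this
    have h2 : y ≤ 1 / 4 := by nlinarith
    have h3 := h.hk
    have h4 : y ^ 2 ≤ (1 / 4) ^ 2 := pow_le_pow_left₀ hy0.le h2 2
    nlinarith
  have hX0 : 0 < 27 / 10 / y := by positivity
  have hP := LA4_Phat hτ
  obtain ⟨r1, r2⟩ := LA4_ratio h
  set ph : ℝ := Pn τ (27 / 10) with hph
  set rk : ℝ := Pn τ (y * (16 / 10 * τ)) ^ k with hrk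
  have hph0 : 0 < ph := by linarith
  have hrk0 : 0 ≤ rk := by
    have : 0 < ph ^ k := pow_pos hph0 k
    nlinarith
  have hXτ : 329 / 100 * τ ≤ 27 / 10 / y := by
    rw [le_div_iff₀ hy0]
    nlinarith
  set A : ℝ := 15 / 1000 * (64 / 100 * τ ^ 2 / y ^ 2) * ph ^ (k - 2) +
    101 / 100 * (1524 / 1000 * τ ^ 3) * ph ^ k with hA
  set B : ℝ := 371 / 1000 * (1524 / 1000 * τ ^ 3) ^ 2 * ph ^ k with hB
  have hpt : ∀ x ∈ Ioi (27 / 10 / y), |kap τ y x * Pn τ (y * x) ^ k| ≤ A / x ^ 2 + B / x ^ 4 := by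
    intro x hx
    have hx' : 27 / 10 / y < x := hx
    have hx0 : 0 < x := hX0.trans hx'
    have hu : 27 / 10 ≤ y * x := by
      have := hx'.le
      rw [div_le_iff₀ hy0] at this
      linarith
    have hu0 : 0 < y * x := by linarith
    have b1 := LA4_kap hτ (hXτ.trans hx'.le) hu
    have b2 := LA4_abs hτ hu
    rw [← hph] at b2
    have b3 := la_P_inv hτ hu0
    have c1 : |Pn τ (y * x)| ^ k ≤ (8 / 10 * τ / (y * x)) ^ 2 * ph ^ (k - 2) := by
      have : |Pn τ (y * x)| ^ k = |Pn τ (y * x)| ^ 2 * |Pn τ (y * x)| ^ (k - 2) := by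
        rw [← pow_add]; congr 1; omega
      rw [this]
      exact mul_le_mul (pow_le_pow_left₀ (abs_nonneg _) b3 2) (pow_le_pow_left₀ (abs_nonneg _) b2 _)
        (by positivity) (by positivity)
    have c2 : |Pn τ (y * x)| ^ k ≤ ph ^ k := pow_le_pow_left₀ (abs_nonneg _) b2 k
    have c0 : 0 ≤ |Pn τ (y * x)| ^ k := by positivity
    set z : ℝ := 1524 / 1000 * τ ^ 3 / x ^ 2 with hz
    have hz0 : 0 ≤ z := by positivity
    rw [abs_mul, abs_pow]
    calc |kap τ y x| * |Pn τ (y * x)| ^ k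
        ≤ (15 / 1000 + 101 / 100 * z + 371 / 1000 * z ^ 2) * |Pn τ (y * x)| ^ k :=
          mul_le_mul_of_nonneg_right b1 c0
      _ = 15 / 1000 * |Pn τ (y * x)| ^ k + (101 / 100 * z + 371 / 1000 * z ^ 2) * |Pn τ (y * x)| ^ k := by
          ring
      _ ≤ 15 / 1000 * ((8 / 10 * τ / (y * x)) ^ 2 * ph ^ (k - 2)) +
          (101 / 100 * z + 371 / 1000 * z ^ 2) * ph ^ k :=
          add_le_add (mul_le_mul_of_nonneg_left c1 (by norm_num))
            (mul_le_mul_of_nonneg_left c2 (by positivity))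
      _ = A / x ^ 2 + B / x ^ 4 := by
          rw [hA, hB, hz]
          generalize ph ^ (k - 2) = p2
          generalize ph ^ k = pk
          field_simp
          ring
  obtain ⟨i1, i2⟩ := LA4_int (X := 27 / 10 / y) (A := A) (B := B) hX0
  have hi0 : IntegrableOn (fun x => kap τ y x * Pn τ (y * x) ^ k) (Ioi (27 / 10 / y)) :=
    (kap_integrable hτ0 hy0 k).mono_set (Ioi_subset_Ioi hX0.le)
  have hle : |∫ x in Ioi (27 / 10 / y), kap τ y x * Pn τ (y * x) ^ k| ≤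
      A / (27 / 10 / y) + B / (3 * (27 / 10 / y) ^ 3) := by
    rw [← i2]
    refine (abs_integral_le_integral_abs).trans ?_
    exact setIntegral_mono_on hi0.abs i1 measurableSet_Ioi hpt
  -- final estimate
  have hphk : ph ^ (k - 2) = ph ^ k / ph ^ 2 := by
    rw [eq_div_iff (pow_pos hph0 2).ne', ← pow_add]
    congr 1
    omega
  have hinv : ph ^ (k - 2) ≤ 195 / 100 * ph ^ k := by
    rw [hphk, div_le_iff₀ (pow_pos hph0 2)]
    have h1 : (717 / 1000 : ℝ) ^ 2 ≤ ph ^ 2 := pow_le_pow_left₀ (by norm_num) hP 2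
    have h2 : 0 < ph ^ k := pow_pos hph0 k
    nlinarith
  have hpk0 : 0 < ph ^ k := pow_pos hph0 k
  have e1 : A / (27 / 10 / y) + B / (3 * (27 / 10 / y) ^ 3) =
      15 / 1000 * (64 / 100) / (27 / 10) * τ ^ 2 * (1 / y * ph ^ (k - 2)) +
      101 / 100 * (1524 / 1000) / (27 / 10) * τ ^ 2 * (y * τ) * ph ^ k +
      371 / 1000 * (1524 / 1000) ^ 2 / (3 * (27 / 10) ^ 3) * τ ^ 3 * (y * τ) ^ 3 * ph ^ k := by
    rw [hA, hB]
    generalize ph ^ (k - 2) = p2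
    generalize ph ^ k = pk
    field_simp
  rw [e1] at hle
  have t1 : 15 / 1000 * (64 / 100) / (27 / 10) * τ ^ 2 * (1 / y * ph ^ (k - 2)) ≤
      43 / 100000 * τ ^ 3 * rk := by
    have f1 : 1 / y * ph ^ (k - 2) ≤ 195 / 100 * (61 / 1000 * τ * rk) := by
      have : 0 ≤ 1 / y := by positivity
      calc 1 / y * ph ^ (k - 2) ≤ 1 / y * (195 / 100 * ph ^ k) := mul_le_mul_of_nonneg_left hinv this
        _ = 195 / 100 * (1 / y * ph ^ k) := by ring
        _ ≤ 195 / 100 * (61 / 1000 * τ * rk) := mul_le_mul_of_nonneg_left r2 (by norm_num)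
    have f2 : 0 ≤ 15 / 1000 * (64 / 100) / (27 / 10) * τ ^ 2 := by positivity
    refine (mul_le_mul_of_nonneg_left f1 f2).trans ?_
    have f3 : 15 / 1000 * (64 / 100) / (27 / 10) * τ ^ 2 * (195 / 100 * (61 / 1000 * τ * rk)) =
      (15 / 1000 * (64 / 100) / (27 / 10) * (195 / 100) * (61 / 1000)) * (τ ^ 3 * rk) := by ring
    rw [f3]
    have f4 : 0 ≤ τ ^ 3 * rk := by positivity
    nlinarith
  have t2 : 101 / 100 * (1524 / 1000) / (27 / 10) * τ ^ 2 * (y * τ) * ph ^ k ≤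
      24 / 1000 * τ ^ 2 * rk := by
    have f1 : (y * τ) * ph ^ k ≤ 82 / 100 * (1 / 20 * rk) :=
      mul_le_mul hyt r1 hpk0.le (by norm_num)
    have f2 : 0 ≤ 101 / 100 * (1524 / 1000) / (27 / 10) * τ ^ 2 := by positivity
    have f3 := mul_le_mul_of_nonneg_left f1 f2
    have f4 : 0 ≤ τ ^ 2 * rk := by positivity
    nlinarith
  have t3 : 371 / 1000 * (1524 / 1000) ^ 2 / (3 * (27 / 10) ^ 3) * τ ^ 3 * (y * τ) ^ 3 * ph ^ k ≤
      41 / 100000 * τ ^ 3 * rk := by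
    have f0 : (y * τ) ^ 3 ≤ (82 / 100) ^ 3 := pow_le_pow_left₀ (by positivity) hyt 3
    have f1 : (y * τ) ^ 3 * ph ^ k ≤ (82 / 100) ^ 3 * (1 / 20 * rk) :=
      mul_le_mul f0 r1 hpk0.le (by norm_num)
    have f2 : 0 ≤ 371 / 1000 * (1524 / 1000) ^ 2 / (3 * (27 / 10) ^ 3) * τ ^ 3 := by positivity
    have f3 := mul_le_mul_of_nonneg_left f1 f2
    have f4 : 0 ≤ τ ^ 3 * rk := by positivity
    nlinarith
  have t4 : 24 / 1000 * τ ^ 2 * rk ≤ 24 / 3600 * τ ^ 3 * rk := by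
    have : 0 ≤ τ ^ 2 * rk * (τ - 36 / 10) := mul_nonneg (by positivity) (by linarith)
    nlinarith
  have t5 : 0 ≤ τ ^ 3 * rk := by positivity
  have := neg_abs_le (∫ x in Ioi (27 / 10 / y), kap τ y x * Pn τ (y * x) ^ k)
  nlinarith

end GCube
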