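import Pool.Agent.Lib.H83.LAGauss
import Pool.Agent.Lib.H83.CFPrim

/-!
Chunk LA3: the part `[1.6τ, 2.7/y]` for `τ ≥ 3.6`. `s = x/τ`, `ρ = Pn τ (1.6 yτ)`, `u = yx ≤ min(0.82 s, 2.7)`.

`kap ≥ -sin²x P_y²/(4 sg sinc u) ≥ -1/(4 · 0.9955 · sinc u)` (`kap_amgm`, `|P_y| ≤ 1`), `P_y^k ≤ ρ^k exp(-A(x² - (1.6τ)²))`,
`A τ² ≥ 0.3723` (`LA_pow`, `LA_A`). `2.7/y ≥ 3.29 τ`.
* `s ∈ [1.6, 2]`: `sinc u ≥ sinc(1.64) ≥ .6082`, weight `≤ 1`: `≤ 0.4 τ/(4·.9955·.6082) ≤ 0.1652 τ`;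
* `s ∈ [2, 2.4]`: `sinc u ≥ sinc(1.968) ≥ .4685`, weight `≤ exp(-.3723·1.44) ≤ .5851`: `≤ 0.1255 τ`;
* `s ≥ 2.4` up to `2.7/y`: `sinc u ≥ sinc(2.7) ≥ .1582`, `∫_{2.4τ}^∞ exp(-A(x²-(1.6τ)²)) dx ≤ τ exp(-.3723·3.2)/(2·.3723·2.4) ≤ .1701 τ` (use
  `A(x²-(1.6τ)²) ≥ .3723(s² - 2.56)`, `s² ≥ 2.4² + 4.8(s-2.4)`): `≤ 0.27 τ`.
Sum `≤ 0.5607 τ ≤ 0.57 τ`.
-/

open MeasureTheory Set
open scoped Real

namespace GCube

private theorem LA3_cont (τ y : ℝ) (k : ℕ) : Continuous fun x => kap τ y x * Pn τ (y * x) ^ k :=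
  (kap_cont τ y).mul (((Pn_cont τ).comp (continuous_const.mul continuous_id)).pow k)

private theorem LA3_sinc_ge {q u0 : ℚ} (h : q ≤ CF.snL u0) (h0 : 0 ≤ u0) (h1 : u0 ≤ 3) {u : ℝ}
    (hu0 : 0 ≤ u) (hu : u ≤ u0) : ((q : ℚ) : ℝ) ≤ Real.sinc u := by
  have e1 : ((q : ℚ) : ℝ) ≤ ((CF.snL u0 : ℚ) : ℝ) := by exact_mod_cast h
  refine e1.trans ((CF.snL_le h0).trans ?_)
  have h1' : (u0 : ℝ) ≤ 3 := by exact_mod_cast h1
  apply sinc_anti
  · exact ⟨hu0, by linarith⟩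
  · exact ⟨by exact_mod_cast h0, by linarith⟩
  · exact hu

private theorem LA3_exp_le {q w : ℚ} (hw : 0 ≤ w) (h : 1 / CF.Tq w ≤ q) {z : ℝ} (hz : (w : ℝ) ≤ z) :
    Real.exp (-z) ≤ ((q : ℚ) : ℝ) := by
  refine (CF.exp_neg_le hw hz).trans ?_
  exact_mod_cast h

private theorem LA3_pt {τ y : ℝ} {k : ℕ} (h : LAH τ y k) {x : ℝ} (hx : 16 / 10 * τ ≤ x)
    (hyx : y * x ≤ 27 / 10) :
    -(Real.exp (-(3723 / 10000 * ((x / τ) ^ 2 - 256 / 100))) /
      (4 * (9955 / 10000) * Real.sinc (y * x)) * Pn τ (y * (16 / 10 * τ)) ^ k) ≤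
      kap τ y x * Pn τ (y * x) ^ k := by
  have hτ := h.hτ
  have hy0 := h.hy0
  have hτ0 : 0 < τ := by linarith
  have hx0 : 0 < x := lt_of_lt_of_le (by positivity) hx
  have hπ := Real.pi_gt_three
  have hu0 : 0 ≤ y * x := by positivity
  have huπ : y * x < π := by linarith
  have hS : 0 < Real.sinc (y * x) := sinc_pos hu0 huπ
  have hP : 0 < Pn τ (y * x) := Pn_pos hτ0 hu0 huπ.le
  have hPk : 0 < Pn τ (y * x) ^ k := pow_pos hP k
  have hsg : 9955 / 10000 ≤ sg τ := by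
    rw [sg_eq]
    exact la_m2 hτ
  have hamgm := kap_amgm hτ0 hu0 huπ
  have e1 : Real.sin x ^ 2 * Pn τ (y * x) ^ 2 ≤ 1 := by
    have h1 : Real.sin x ^ 2 ≤ 1 := Real.sin_sq_le_one x
    have h2 : Pn τ (y * x) ^ 2 ≤ 1 := by
      have h3 := abs_Pn_le_one τ (y * x)
      rw [abs_of_pos hP] at h3
      exact pow_le_one₀ hP.le h3
    calc Real.sin x ^ 2 * Pn τ (y * x) ^ 2 ≤ 1 * 1 := mul_le_mul h1 h2 (by positivity) (by norm_num)
      _ = 1 := by norm_num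
  have e2 : Real.sin x ^ 2 * Pn τ (y * x) ^ 2 / (4 * sg τ * Real.sinc (y * x)) ≤
      1 / (4 * (9955 / 10000) * Real.sinc (y * x)) := by
    apply div_le_div₀ (by norm_num) e1 (by positivity)
    apply mul_le_mul_of_nonneg_right _ hS.le
    linarith
  have hpow := LA_pow h (x := 16 / 10 * τ) (x' := x) (by positivity) hx huπ.le
  have hA := LA_A h
  have e3 : 3723 / 10000 * ((x / τ) ^ 2 - 256 / 100) ≤
      m2 τ * k * y ^ 2 / 2 * (x ^ 2 - (16 / 10 * τ) ^ 2) := by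
    have h1 : 0 ≤ (x / τ) ^ 2 - 256 / 100 := by
      have : 16 / 10 ≤ x / τ := by
        rw [le_div_iff₀ hτ0]
        exact hx
      nlinarith
    have h2 : m2 τ * k * y ^ 2 / 2 * (x ^ 2 - (16 / 10 * τ) ^ 2) =
        (τ ^ 2 * (m2 τ * k * y ^ 2 / 2)) * ((x / τ) ^ 2 - 256 / 100) := by
      field_simp
      ring
    rw [h2]
    exact mul_le_mul_of_nonneg_right hA h1
  have e4 : Pn τ (y * x) ^ k ≤
      Real.exp (-(3723 / 10000 * ((x / τ) ^ 2 - 256 / 100))) * Pn τ (y * (16 / 10 * τ)) ^ k := by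
    have h1 : Real.exp (3723 / 10000 * ((x / τ) ^ 2 - 256 / 100)) ≤
        Real.exp (m2 τ * k * y ^ 2 / 2 * (x ^ 2 - (16 / 10 * τ) ^ 2)) := Real.exp_le_exp.2 e3
    have h2 := (mul_le_mul_of_nonneg_left h1 hPk.le).trans hpow
    rw [Real.exp_neg, inv_mul_eq_div, le_div_iff₀ (Real.exp_pos _)]
    exact h2
  have e5 : 0 < 1 / (4 * (9955 / 10000) * Real.sinc (y * x)) := by positivity
  have e6 : -(1 / (4 * (9955 / 10000) * Real.sinc (y * x))) ≤ kap τ y x := by linarith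
  have e7 := mul_le_mul_of_nonneg_right e6 hPk.le
  have e8 := mul_le_mul_of_nonneg_left e4 e5.le
  have e9 : Real.exp (-(3723 / 10000 * ((x / τ) ^ 2 - 256 / 100))) /
      (4 * (9955 / 10000) * Real.sinc (y * x)) * Pn τ (y * (16 / 10 * τ)) ^ k =
      1 / (4 * (9955 / 10000) * Real.sinc (y * x)) *
      (Real.exp (-(3723 / 10000 * ((x / τ) ^ 2 - 256 / 100))) * Pn τ (y * (16 / 10 * τ)) ^ k) := by
    ring
  rw [e9]
  linarith

/-- constant lower bound on an interval `[a τ, b τ]` -/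
private theorem LA3_const {τ y : ℝ} {k : ℕ} (h : LAH τ y k) {a b w : ℝ} {q r : ℚ} (ha : 16 / 10 ≤ a)
    (hab : a ≤ b) (hb : 82 / 100 * b ≤ 27 / 10) (hq : 0 < q)
    (hS : ∀ u : ℝ, 0 ≤ u → u ≤ 82 / 100 * b → ((q : ℚ) : ℝ) ≤ Real.sinc u)
    (hw : w = 3723 / 10000 * (a ^ 2 - 256 / 100)) (hr : Real.exp (-w) ≤ ((r : ℚ) : ℝ)) :
    -(((r : ℚ) : ℝ) / (4 * (9955 / 10000) * ((q : ℚ) : ℝ)) * (b - a) * τ *
      Pn τ (y * (16 / 10 * τ)) ^ k) ≤ ∫ x in (a * τ)..(b * τ), kap τ y x * Pn τ (y * x) ^ k := by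
  have hτ := h.hτ
  have hy0 := h.hy0
  have hyt := h.hyt
  have hτ0 : 0 < τ := by linarith
  have hq' : (0 : ℝ) < ((q : ℚ) : ℝ) := by exact_mod_cast hq
  have hρ : 0 < Pn τ (y * (16 / 10 * τ)) ^ k :=
    pow_pos (Pn_pos hτ0 (by positivity) (by nlinarith [Real.pi_gt_three])) k
  have hr0 : 0 ≤ ((r : ℚ) : ℝ) := (Real.exp_pos _).le.trans hr
  have hle : a * τ ≤ b * τ := mul_le_mul_of_nonneg_right hab hτ0.le
  have hpt : ∀ x ∈ Icc (a * τ) (b * τ),
      -(((r : ℚ) : ℝ) / (4 * (9955 / 10000) * ((q : ℚ) : ℝ)) * Pn τ (y * (16 / 10 * τ)) ^ k) ≤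
        kap τ y x * Pn τ (y * x) ^ k := by
    intro x hx
    have hx1 : 16 / 10 * τ ≤ x := (mul_le_mul_of_nonneg_right ha hτ0.le).trans hx.1
    have hx0 : 0 < x := lt_of_lt_of_le (by positivity) hx1
    have hyx : y * x ≤ 82 / 100 * b := by
      calc y * x ≤ y * (b * τ) := mul_le_mul_of_nonneg_left hx.2 hy0.le
        _ = y * τ * b := by ring
        _ ≤ 82 / 100 * b := mul_le_mul_of_nonneg_right hyt (by linarith)
    have h1 := LA3_pt h hx1 (hyx.trans hb)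
    have h2 := hS (y * x) (by positivity) hyx
    refine le_trans (neg_le_neg ?_) h1
    apply mul_le_mul_of_nonneg_right _ hρ.le
    apply div_le_div₀ hr0 _ (by positivity) (by linarith)
    refine le_trans (Real.exp_le_exp.2 ?_) hr
    rw [hw]
    apply neg_le_neg
    apply mul_le_mul_of_nonneg_left _ (by norm_num)
    have h3 : a ≤ x / τ := by
      rw [le_div_iff₀ hτ0]
      exact hx.1
    have h4 : a ^ 2 ≤ (x / τ) ^ 2 := pow_le_pow_left₀ (by linarith) h3 2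
    linarith
  have hint := intervalIntegral.integral_mono_on (μ := volume) hle
    (continuous_const.intervalIntegrable _ _) ((LA3_cont τ y k).intervalIntegrable _ _) hpt
  refine le_trans (le_of_eq ?_) hint
  rw [intervalIntegral.integral_const, smul_eq_mul]
  ring

/-- the exponential tail -/
private theorem LA3_tail {τ y : ℝ} {k : ℕ} (h : LAH τ y k) {q r : ℚ} (hq : 0 < q)
    (hS : ∀ u : ℝ, 0 ≤ u → u ≤ 27 / 10 → ((q : ℚ) : ℝ) ≤ Real.sinc u)
    (hr : Real.exp (-(3723 / 10000 * (32 / 10))) ≤ ((r : ℚ) : ℝ)) :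
    -(((r : ℚ) : ℝ) / (4 * (9955 / 10000) * ((q : ℚ) : ℝ)) / (3723 / 10000 * (48 / 10)) * τ *
      Pn τ (y * (16 / 10 * τ)) ^ k) ≤
      ∫ x in (24 / 10 * τ)..(27 / 10 / y), kap τ y x * Pn τ (y * x) ^ k := by
  have hτ := h.hτ
  have hy0 := h.hy0
  have hyt := h.hyt
  have hτ0 : 0 < τ := by linarith
  have hq' : (0 : ℝ) < ((q : ℚ) : ℝ) := by exact_mod_cast hq
  have hρ : 0 < Pn τ (y * (16 / 10 * τ)) ^ k :=
    pow_pos (Pn_pos hτ0 (by positivity) (by nlinarith [Real.pi_gt_three])) k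
  have hr0 : 0 ≤ ((r : ℚ) : ℝ) := (Real.exp_pos _).le.trans hr
  have hle : 24 / 10 * τ ≤ 27 / 10 / y := by
    rw [le_div_iff₀ hy0]
    nlinarith
  set K : ℝ := ((r : ℚ) : ℝ) / (4 * (9955 / 10000) * ((q : ℚ) : ℝ)) *
    Pn τ (y * (16 / 10 * τ)) ^ k with hK
  have hK0 : 0 ≤ K := by positivity
  have hpt : ∀ x ∈ Icc (24 / 10 * τ) (27 / 10 / y),
      -K * Real.exp (-(3723 / 10000 * (48 / 10) * (x / τ - 24 / 10))) ≤
        kap τ y x * Pn τ (y * x) ^ k := by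
    intro x hx
    have hx1 : 16 / 10 * τ ≤ x := by nlinarith [hx.1]
    have hx0 : 0 < x := lt_of_lt_of_le (by positivity) hx1
    have hyx : y * x ≤ 27 / 10 := by
      have := hx.2
      rw [le_div_iff₀ hy0] at this
      linarith
    have h1 := LA3_pt h hx1 hyx
    have h2 := hS (y * x) (by positivity) hyx
    refine le_trans ?_ h1
    rw [neg_mul]
    apply neg_le_neg
    have h3 : Real.exp (-(3723 / 10000 * ((x / τ) ^ 2 - 256 / 100))) ≤
        ((r : ℚ) : ℝ) * Real.exp (-(3723 / 10000 * (48 / 10) * (x / τ - 24 / 10))) := by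
      refine le_trans (Real.exp_le_exp.2 (?_ : _ ≤ -(3723 / 10000 * (32 / 10)) +
        -(3723 / 10000 * (48 / 10) * (x / τ - 24 / 10)))) ?_
      · nlinarith [sq_nonneg (x / τ - 24 / 10)]
      · rw [Real.exp_add]
        exact mul_le_mul_of_nonneg_right hr (Real.exp_pos _).le
    have h4 : Real.exp (-(3723 / 10000 * ((x / τ) ^ 2 - 256 / 100))) /
        (4 * (9955 / 10000) * Real.sinc (y * x)) ≤
        ((r : ℚ) : ℝ) * Real.exp (-(3723 / 10000 * (48 / 10) * (x / τ - 24 / 10))) /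
        (4 * (9955 / 10000) * ((q : ℚ) : ℝ)) :=
      div_le_div₀ (by positivity) h3 (by positivity) (by linarith)
    have h5 := mul_le_mul_of_nonneg_right h4 hρ.le
    refine h5.trans (le_of_eq ?_)
    rw [hK]
    ring
  have hc : Continuous fun x : ℝ =>
      -K * Real.exp (-(3723 / 10000 * (48 / 10) * (x / τ - 24 / 10))) := by fun_prop
  have hint := intervalIntegral.integral_mono_on (μ := volume) hle
    (hc.intervalIntegrable _ _) ((LA3_cont τ y k).intervalIntegrable _ _) hpt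
  refine le_trans ?_ hint
  have hder : ∀ x ∈ uIcc (24 / 10 * τ) (27 / 10 / y),
      HasDerivAt (fun x : ℝ => K * (τ / (3723 / 10000 * (48 / 10))) *
        Real.exp (-(3723 / 10000 * (48 / 10) * (x / τ - 24 / 10))))
        (-K * Real.exp (-(3723 / 10000 * (48 / 10) * (x / τ - 24 / 10)))) x := by
    intro x _
    have h1 : HasDerivAt (fun x : ℝ => -(3723 / 10000 * (48 / 10) * (x / τ - 24 / 10)))
        (-(3723 / 10000 * (48 / 10) * (1 / τ))) x :=
      ((((hasDerivAt_id x).div_const τ).sub_const _).const_mul _).neg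
    have h2 := (h1.exp).const_mul (K * (τ / (3723 / 10000 * (48 / 10))))
    have h3 : -K * Real.exp (-(3723 / 10000 * (48 / 10) * (x / τ - 24 / 10))) =
        K * (τ / (3723 / 10000 * (48 / 10))) *
        (Real.exp (-(3723 / 10000 * (48 / 10) * (x / τ - 24 / 10))) *
          -(3723 / 10000 * (48 / 10) * (1 / τ))) := by
      generalize Real.exp (-(3723 / 10000 * (48 / 10) * (x / τ - 24 / 10))) = e
      field_simp
    rw [h3]
    exact h2
  rw [intervalIntegral.integral_eq_sub_of_hasDerivAt hder (hc.intervalIntegrable _ _)]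
  have e1 : Real.exp (-(3723 / 10000 * (48 / 10) * (24 / 10 * τ / τ - 24 / 10))) = 1 := by
    rw [mul_div_assoc, div_self hτ0.ne']
    norm_num
  rw [e1]
  have e2 : 0 ≤ K * (τ / (3723 / 10000 * (48 / 10))) *
      Real.exp (-(3723 / 10000 * (48 / 10) * (27 / 10 / y / τ - 24 / 10))) := by positivity
  have e3 : ((r : ℚ) : ℝ) / (4 * (9955 / 10000) * ((q : ℚ) : ℝ)) / (3723 / 10000 * (48 / 10)) * τ *
      Pn τ (y * (16 / 10 * τ)) ^ k = K * (τ / (3723 / 10000 * (48 / 10))) * 1 := by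
    rw [hK]
    ring
  rw [e3]
  linarith

theorem LA_N {τ y : ℝ} {k : ℕ} (h : LAH τ y k) :
    -(57 / 100 * τ * Pn τ (y * (16 / 10 * τ)) ^ k) ≤
      ∫ x in (16 / 10 * τ)..(27 / 10 / y), kap τ y x * Pn τ (y * x) ^ k := by
  have hτ := h.hτ
  have hy0 := h.hy0
  have hyt := h.hyt
  have hτ0 : 0 < τ := by linarith
  have hρ : 0 < Pn τ (y * (16 / 10 * τ)) ^ k :=
    pow_pos (Pn_pos hτ0 (by positivity) (by nlinarith [Real.pi_gt_three])) k
  have hc := LA3_cont τ y k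
  have h1 := LA3_const h (a := 16 / 10) (b := 2) (w := 3723 / 10000 * ((16 / 10) ^ 2 - 256 / 100))
    (q := 608 / 1000) (r := 1) le_rfl (by norm_num) (by norm_num) (by norm_num)
    (fun u hu0 hu => LA3_sinc_ge (u0 := 164 / 100) (by decide +kernel) (by norm_num) (by norm_num) hu0
      (by push_cast; linarith)) rfl (by norm_num)
  have h2 := LA3_const h (a := 2) (b := 24 / 10) (w := 3723 / 10000 * (2 ^ 2 - 256 / 100))
    (q := 4685 / 10000) (r := 5851 / 10000) (by norm_num) (by norm_num) (by norm_num) (by norm_num)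
    (fun u hu0 hu => LA3_sinc_ge (u0 := 1968 / 1000) (by decide +kernel) (by norm_num) (by norm_num) hu0
      (by push_cast; linarith)) rfl
    (LA3_exp_le (w := 3723 / 10000 * (2 ^ 2 - 256 / 100)) (by norm_num) (by decide +kernel)
      (by push_cast; exact le_rfl))
  have h3 := LA3_tail h (q := 1582 / 10000) (r := 3039 / 10000) (by norm_num)
    (fun u hu0 hu => LA3_sinc_ge (u0 := 27 / 10) (by decide +kernel) (by norm_num) (by norm_num) hu0
      (by push_cast; linarith))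
    (LA3_exp_le (w := 3723 / 10000 * (32 / 10)) (by norm_num) (by decide +kernel)
      (by push_cast; exact le_rfl))
  have e1 := intervalIntegral.integral_add_adjacent_intervals (μ := volume)
    (hc.intervalIntegrable (16 / 10 * τ) (2 * τ)) (hc.intervalIntegrable (2 * τ) (24 / 10 * τ))
  have e2 := intervalIntegral.integral_add_adjacent_intervals (μ := volume)
    (hc.intervalIntegrable (16 / 10 * τ) (24 / 10 * τ))
    (hc.intervalIntegrable (24 / 10 * τ) (27 / 10 / y))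
  rw [← e2, ← e1]
  push_cast at h1 h2 h3
  have hτρ : 0 < τ * Pn τ (y * (16 / 10 * τ)) ^ k := by positivity
  linarith

end GCube
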