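import Pool.Agent.Lib.H83.LAM
import Pool.Agent.Lib.H83.LAN
import Pool.Agent.Lib.H83.LAF

/-!
Chunk LA5 (short): assembly for `τ ≥ 3.6`: `∫_0^∞ ≥ (0.08 τ³ - 0.57 τ - 0.01 τ³) ρ^k > 0`, `D_pos_of_kap`.
-/

open MeasureTheory Set
open scoped Real

namespace GCube

theorem LA_pos {τ y : ℝ} {k : ℕ} (hτ : 36 / 10 ≤ τ) (hy0 : 0 < y) (hyt : y * τ ≤ 82 / 100)
    (hk : 8 / 10 ≤ (k + 1) * y ^ 2) : 0 < D τ y (1 :: List.replicate k y) := by
  have h : LAH τ y k := ⟨hτ, hy0, hyt, hk⟩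
  have hτ0 : 0 < τ := by linarith
  apply D_pos_of_kap hτ0 hy0
  have hM := LA_M h
  have hN := LA_N h
  have hF := LA_F h
  have hi0 : IntegrableOn (fun x => kap τ y x * Pn τ (y * x) ^ k) (Ioi 0) :=
    kap_integrable hτ0 hy0 k
  have hi1 : IntegrableOn (fun x => kap τ y x * Pn τ (y * x) ^ k) (Ioi (16 / 10 * τ)) :=
    hi0.mono_set (Ioi_subset_Ioi (by positivity))
  have hi2 : IntegrableOn (fun x => kap τ y x * Pn τ (y * x) ^ k) (Ioi (27 / 10 / y)) :=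
    hi0.mono_set (Ioi_subset_Ioi (by positivity))
  rw [← intervalIntegral.integral_interval_add_Ioi hi0 hi1,
    ← intervalIntegral.integral_interval_add_Ioi hi1 hi2]
  have hπ : (3 : ℝ) < π := Real.pi_gt_three
  have hρ : 0 < Pn τ (y * (16 / 10 * τ)) := by
    refine Pn_pos hτ0 (by positivity) ?_
    nlinarith
  have hρk : 0 < Pn τ (y * (16 / 10 * τ)) ^ k := pow_pos hρ k
  set r := Pn τ (y * (16 / 10 * τ)) ^ k
  have h1 : 0 < (7 / 100 * τ ^ 3 - 57 / 100 * τ) * r := by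
    refine mul_pos ?_ hρk
    have h2 : (36 / 10 : ℝ) ^ 2 ≤ τ ^ 2 := pow_le_pow_left₀ (by norm_num) hτ 2
    have h3 : 0 < τ * (7 / 100 * τ ^ 2 - 57 / 100) := mul_pos hτ0 (by nlinarith)
    nlinarith
  nlinarith

end GCube
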