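import Pool.Agent.Lib.H83.Psi

/-!
Chunk FD: differentiating the section function along an exchange path.

For `0 < x < c`: `d/dx ∫ ψ(√x s) ψ(√(c-x) s) P(s) ds = -(1/2) ∫ s² [χ(√x s)ψ(√(c-x)s) - ψ(√x s)χ(√(c-x)s)] P(s) ds`
(`hasDerivAt_integral_of_dominated_loc_of_deriv_le`, dominated by `C/(1+s²)` via `W_bound_unif` and
`|ψ(bs)| ≤ 2/(b|s|)` for one more nonzero coordinate `b`). With `√x = A`, `√(c-x) = yA` the integral is
`A^{-3} D τ y (others / A)`.
-/

open MeasureTheory Set
open scoped Real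

namespace GCube

/-- the coordinates different from `i` and `j`, as a list -/
noncomputable def others {n : ℕ} (a : Fin n → ℝ) (i j : Fin n) : List ℝ :=
  (((Finset.univ.erase i).erase j).toList.map a)

lemma psiProd_others {τ : ℝ} {n : ℕ} (a : Fin n → ℝ) {i j : Fin n} (hij : i ≠ j) (s : ℝ) :
    ∏ k, psi τ (a k * s) = psi τ (a i * s) * psi τ (a j * s) * psiProd τ (others a i j) s := by
  unfold psiProd others
  rw [List.map_map, ← Finset.mul_prod_erase Finset.univ _ (Finset.mem_univ i),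
    ← Finset.mul_prod_erase (Finset.univ.erase i) _ (Finset.mem_erase.2 ⟨hij.symm, Finset.mem_univ j⟩),
    mul_assoc]
  congr 2
  exact (Finset.prod_map_toList _ _).symm

lemma FD_others_update {n : ℕ} (a : Fin n → ℝ) (i j : Fin n) (u v : ℝ) :
    others (Function.update (Function.update a i u) j v) i j = others a i j := by
  unfold others
  refine List.map_congr_left fun k hk => ?_
  rw [Finset.mem_toList, Finset.mem_erase, Finset.mem_erase] at hk
  rw [Function.update_of_ne hk.1, Function.update_of_ne hk.2.1]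

lemma FD_mem_others {n : ℕ} (a : Fin n → ℝ) {i j : Fin n}
    (hk : ∃ k, k ≠ i ∧ k ≠ j ∧ a k ≠ 0) : ∃ b ∈ others a i j, b ≠ 0 := by
  obtain ⟨k, h1, h2, h3⟩ := hk
  refine ⟨a k, ?_, h3⟩
  unfold others
  rw [List.mem_map]
  exact ⟨k, by simp [h1, h2], rfl⟩

/-- the integral along the path -/
noncomputable def FDp (τ c : ℝ) (l : List ℝ) (x : ℝ) : ℝ :=
  ∫ s : ℝ, psi τ (Real.sqrt x * s) * psi τ (Real.sqrt (c - x) * s) * psiProd τ l s

lemma FD_Phi {τ : ℝ} {n : ℕ} (a : Fin n → ℝ) {i j : Fin n} (hij : i ≠ j) (u v : ℝ) :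
    Phi τ (Function.update (Function.update a i u) j v) =
      ∫ s : ℝ, psi τ (u * s) * psi τ (v * s) * psiProd τ (others a i j) s := by
  unfold Phi
  congr 1
  funext s
  rw [psiProd_others _ hij, FD_others_update]
  simp [hij]

lemma FD_sq {n : ℕ} (a : Fin n → ℝ) {i j : Fin n} (hij : i ≠ j) (u v : ℝ) :
    ∑ k, (Function.update (Function.update a i u) j v) k ^ 2 =
      u ^ 2 + v ^ 2 + ∑ k ∈ (Finset.univ.erase i).erase j, a k ^ 2 := by
  rw [← Finset.add_sum_erase Finset.univ _ (Finset.mem_univ i),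
    ← Finset.add_sum_erase (Finset.univ.erase i) _
      (Finset.mem_erase.2 ⟨hij.symm, Finset.mem_univ j⟩)]
  have h1 : ∑ x ∈ (Finset.univ.erase i).erase j,
      (Function.update (Function.update a i u) j v) x ^ 2 =
      ∑ k ∈ (Finset.univ.erase i).erase j, a k ^ 2 := by
    refine Finset.sum_congr rfl fun k hk => ?_
    rw [Finset.mem_erase, Finset.mem_erase] at hk
    rw [Function.update_of_ne hk.1, Function.update_of_ne hk.2.1]
  rw [h1]
  simp [hij]
  ring

lemma FD_self {n : ℕ} (a : Fin n → ℝ) (i j : Fin n) :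
    Function.update (Function.update a i (a i)) j (a j) = a := by
  simp

/-- decay of one factor -/
lemma FD_psi_bound {τ : ℝ} (hτ : 0 < τ) {b : ℝ} (hb : b ≠ 0) (s : ℝ) :
    |s| * |psi τ (b * s)| ≤ 2 / |b| := by
  have hb' : 0 < |b| := abs_pos.2 hb
  rcases eq_or_ne s 0 with h | h
  · subst h
    simp
    positivity
  · have h1 := abs_psi_le_inv hτ (mul_ne_zero hb h)
    have hs : 0 < |s| := abs_pos.2 h
    rw [abs_mul] at h1
    calc |s| * |psi τ (b * s)| ≤ |s| * (2 / (|b| * |s|)) := by gcongr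
      _ = 2 / |b| := by field_simp

/-- decay of the product -/
lemma FD_prod_bound {τ : ℝ} (hτ : 0 < τ) {l : List ℝ} (hl : ∃ b ∈ l, b ≠ 0) :
    ∃ c, 0 < c ∧ ∀ s, |psiProd τ l s| ≤ c ∧ |s| * |psiProd τ l s| ≤ c := by
  have h0 := psi_zero_pos hτ
  induction l with
  | nil => obtain ⟨b, hb, _⟩ := hl; simp at hb
  | cons a l ih =>
    have hcons : ∀ s, psiProd τ (a :: l) s = psi τ (a * s) * psiProd τ l s := fun s => by
      unfold psiProd; simp
    have h1 := abs_psiProd_le hτ l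
    obtain ⟨b, hb, hb0⟩ := hl
    rcases List.mem_cons.1 hb with h | h
    · subst h
      refine ⟨psi τ 0 * psi τ 0 ^ l.length + 2 / |b| * psi τ 0 ^ l.length, by positivity,
        fun s => ?_⟩
      rw [hcons, abs_mul]
      have h2 := abs_psi_le hτ (b * s)
      have h3 := FD_psi_bound hτ hb0 s
      have h4 : 0 < |b| := abs_pos.2 hb0
      constructor
      · have : |psi τ (b * s)| * |psiProd τ l s| ≤ psi τ 0 * psi τ 0 ^ l.length := by
          gcongr
          exact h1 s
        have h5 : 0 ≤ 2 / |b| * psi τ 0 ^ l.length := by positivity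
        linarith
      · have : |s| * (|psi τ (b * s)| * |psiProd τ l s|) ≤ 2 / |b| * psi τ 0 ^ l.length := by
          rw [← mul_assoc]
          gcongr
          exact h1 s
        have h5 : 0 ≤ psi τ 0 * psi τ 0 ^ l.length := by positivity
        linarith
    · obtain ⟨c, hc, hc1⟩ := ih ⟨b, h, hb0⟩
      refine ⟨psi τ 0 * c, by positivity, fun s => ?_⟩
      rw [hcons, abs_mul]
      have h2 := abs_psi_le hτ (a * s)
      constructor
      · gcongr
        exact (hc1 s).1
      · calc |s| * (|psi τ (a * s)| * |psiProd τ l s|) =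
              |psi τ (a * s)| * (|s| * |psiProd τ l s|) := by ring
          _ ≤ _ := by
            gcongr
            exact (hc1 s).2

/-- the bracket -/
noncomputable def FDB (τ u v s : ℝ) : ℝ :=
  chi τ (u * s) * psi τ (v * s) - psi τ (u * s) * chi τ (v * s)

lemma FDB_eq {τ u v : ℝ} (hu : 0 < u) (s : ℝ) : FDB τ u v s = W τ (v / u) (u * s) := by
  unfold FDB W
  have h : v / u * (u * s) = v * s := by field_simp
  rw [h]

lemma FDB_symm (τ u v s : ℝ) : FDB τ u v s = - FDB τ v u s := by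
  unfold FDB; ring

/-- uniform decay of the bracket -/
lemma FDB_bound {τ m M : ℝ} (hτ : 0 < τ) (hm : 0 < m) (hmM : m ≤ M) :
    ∃ c : ℝ, 0 < c ∧ ∀ u v s, m ≤ u → u ≤ M → m ≤ v → v ≤ M →
      |FDB τ u v s| ≤ c ∧ |s| ^ 3 * |FDB τ u v s| ≤ c := by
  have hM : 0 < M := lt_of_lt_of_le hm hmM
  obtain ⟨c, hc, h⟩ := W_bound_unif (τ := τ) (y₀ := m / M) hτ (by positivity)
  refine ⟨c + c / m ^ 3, by positivity, ?_⟩
  have key : ∀ u v s, m ≤ u → u ≤ M → m ≤ v → v ≤ u →
      |FDB τ u v s| ≤ c + c / m ^ 3 ∧ |s| ^ 3 * |FDB τ u v s| ≤ c + c / m ^ 3 := by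
    intro u v s hu1 hu2 hv1 hv2
    have hu : 0 < u := lt_of_lt_of_le hm hu1
    have hv : 0 < v := lt_of_lt_of_le hm hv1
    have hy1 : m / M ≤ v / u := by gcongr
    have hy2 : v / u ≤ 1 := by rw [div_le_one hu]; exact hv2
    obtain ⟨h1, h2⟩ := h (v / u) (u * s) hy1 hy2
    rw [← FDB_eq hu] at h1 h2
    have h3 : 0 ≤ c / m ^ 3 := by positivity
    refine ⟨by linarith, ?_⟩
    have h4 : m ^ 3 * (|s| ^ 3 * |FDB τ u v s|) ≤ c := by
      calc m ^ 3 * (|s| ^ 3 * |FDB τ u v s|) ≤ u ^ 3 * (|s| ^ 3 * |FDB τ u v s|) := by gcongr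
        _ = |u * s| ^ 3 * |FDB τ u v s| := by rw [abs_mul, abs_of_pos hu]; ring
        _ ≤ c := h2
    have h5 : |s| ^ 3 * |FDB τ u v s| ≤ c / m ^ 3 := by
      rw [le_div_iff₀ (by positivity)]
      linarith
    linarith
  intro u v s hu1 hu2 hv1 hv2
  rcases le_total v u with h1 | h1
  · exact key u v s hu1 hu2 hv1 h1
  · rw [FDB_symm, abs_neg]
    exact key v u s hv1 hv2 hu1 h1

lemma FD_integrand_bound {τ m M : ℝ} (hτ : 0 < τ) (hm : 0 < m) (hmM : m ≤ M)
    {l : List ℝ} (hl : ∃ b ∈ l, b ≠ 0) :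
    ∃ c : ℝ, 0 < c ∧ ∀ u v s, m ≤ u → u ≤ M → m ≤ v → v ≤ M →
      |s ^ 2 * FDB τ u v s * psiProd τ l s| ≤ c * (1 + s ^ 2)⁻¹ := by
  obtain ⟨c0, hc0, h0⟩ := FDB_bound (τ := τ) hτ hm hmM
  obtain ⟨c1, hc1, h1⟩ := FD_prod_bound hτ hl
  refine ⟨3 * c0 * c1, by positivity, ?_⟩
  intro u v s hu1 hu2 hv1 hv2
  obtain ⟨hB1, hB2⟩ := h0 u v s hu1 hu2 hv1 hv2
  obtain ⟨hP1, hP2⟩ := h1 s
  rw [← div_eq_mul_inv, le_div_iff₀ (by positivity), abs_mul, abs_mul, abs_of_nonneg (sq_nonneg s)]
  set B := |FDB τ u v s|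
  set p := |psiProd τ l s|
  have hB0 : 0 ≤ B := abs_nonneg _
  have hp0 : 0 ≤ p := abs_nonneg _
  have hs0 : 0 ≤ |s| := abs_nonneg s
  have e1 : s ^ 2 = |s| ^ 2 := (sq_abs s).symm
  have e2 : |s| ^ 2 ≤ 1 + |s| ^ 3 := by
    rcases le_total |s| 1 with h | h
    · have : |s| ^ 2 ≤ 1 := pow_le_one₀ hs0 h
      have : 0 ≤ |s| ^ 3 := by positivity
      linarith
    · have : |s| ^ 2 ≤ |s| ^ 3 := pow_le_pow_right₀ h (by norm_num)
      linarith
  have h3 : |s| ^ 2 * B ≤ 2 * c0 := by
    calc |s| ^ 2 * B ≤ (1 + |s| ^ 3) * B := by gcongr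
      _ = B + |s| ^ 3 * B := by ring
      _ ≤ _ := by linarith
  have h4 : |s| ^ 2 * B * p ≤ 2 * c0 * c1 := by gcongr
  have h5 : (|s| ^ 3 * B) * (|s| * p) ≤ c0 * c1 := by gcongr
  calc s ^ 2 * B * p * (1 + s ^ 2) = |s| ^ 2 * B * p + (|s| ^ 3 * B) * (|s| * p) := by
        rw [e1]; ring
    _ ≤ 2 * c0 * c1 + c0 * c1 := by linarith
    _ = _ := by ring

/-- bound of the integrand itself -/
lemma FD_fn_bound {τ m : ℝ} (hτ : 0 < τ) (hm : 0 < m)
    {l : List ℝ} (hl : ∃ b ∈ l, b ≠ 0) :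
    ∃ c : ℝ, 0 < c ∧ ∀ u v s, m ≤ u →
      |psi τ (u * s) * psi τ (v * s) * psiProd τ l s| ≤ c * (1 + s ^ 2)⁻¹ := by
  obtain ⟨c1, hc1, h1⟩ := FD_prod_bound hτ hl
  have hp0 := psi_zero_pos hτ
  refine ⟨psi τ 0 * (psi τ 0 * c1 + 2 / m * c1), by positivity, ?_⟩
  intro u v s hu
  have hu0 : 0 < u := lt_of_lt_of_le hm hu
  obtain ⟨hP1, hP2⟩ := h1 s
  have h2 := abs_psi_le hτ (v * s)
  have h3 := abs_psi_le hτ (u * s)
  have h4 : |s| * |psi τ (u * s)| ≤ 2 / m := by
    refine (FD_psi_bound hτ hu0.ne' s).trans ?_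
    rw [abs_of_pos hu0]
    gcongr
  rw [← div_eq_mul_inv, le_div_iff₀ (by positivity), abs_mul, abs_mul]
  set p := |psiProd τ l s|
  set a := |psi τ (u * s)|
  set b := |psi τ (v * s)|
  have ha0 : 0 ≤ a := abs_nonneg _
  have hb0 : 0 ≤ b := abs_nonneg _
  have hpp : 0 ≤ p := abs_nonneg _
  have e1 : s ^ 2 = |s| ^ 2 := (sq_abs s).symm
  calc a * b * p * (1 + s ^ 2) = b * (a * p + (|s| * a) * (|s| * p)) := by rw [e1]; ring
    _ ≤ psi τ 0 * (psi τ 0 * c1 + 2 / m * c1) := by gcongr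

lemma FD_int_bound (c : ℝ) : Integrable (fun s : ℝ => c * (1 + s ^ 2)⁻¹) :=
  integrable_inv_one_add_sq.const_mul c

lemma FD_cont (τ u v : ℝ) (l : List ℝ) :
    Continuous fun s : ℝ => psi τ (u * s) * psi τ (v * s) * psiProd τ l s := by
  have h1 := psi_continuous τ
  have h2 := psiProd_continuous τ l
  exact ((h1.comp (continuous_const_mul u)).mul (h1.comp (continuous_const_mul v))).mul h2

lemma FDB_cont (τ u v : ℝ) : Continuous (FDB τ u v) := by
  have h1 := psi_continuous τ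
  have h2 := chi_continuous τ
  exact ((h2.comp (continuous_const_mul u)).mul (h1.comp (continuous_const_mul v))).sub
    ((h1.comp (continuous_const_mul u)).mul (h2.comp (continuous_const_mul v)))

/-- derivative along the path (general form). -/
theorem hasDerivAt_path {τ : ℝ} (hτ : 0 < τ) {c x : ℝ} (hx : 0 < x) (hxc : c / 2 ≤ x) (hxc' : x < c)
    {l : List ℝ} (hl : ∃ b ∈ l, b ≠ 0) :
    HasDerivAt (fun x => ∫ s : ℝ, psi τ (Real.sqrt x * s) * psi τ (Real.sqrt (c - x) * s) * psiProd τ l s)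
      (-(1 / 2) * (Real.sqrt x)⁻¹ ^ 3 *
        D τ (Real.sqrt (c - x) / Real.sqrt x) (l.map (fun b => (Real.sqrt x)⁻¹ * b))) x := by
  have hc : 0 < c := hx.trans hxc'
  set r : ℝ := min (x / 2) ((c - x) / 2) with hr
  have hr0 : 0 < r := lt_min (by linarith) (by linarith)
  have hr1 : r ≤ x / 2 := min_le_left _ _
  have hr2 : r ≤ (c - x) / 2 := min_le_right _ _
  set m : ℝ := Real.sqrt r with hm
  have hm0 : 0 < m := Real.sqrt_pos.2 hr0
  have hmem : ∀ x' ∈ Ioo (x - r) (x + r), m ≤ Real.sqrt x' ∧ Real.sqrt x' ≤ Real.sqrt c ∧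
      m ≤ Real.sqrt (c - x') ∧ Real.sqrt (c - x') ≤ Real.sqrt c := by
    intro x' hx'
    refine ⟨Real.sqrt_le_sqrt ?_, Real.sqrt_le_sqrt ?_, Real.sqrt_le_sqrt ?_,
      Real.sqrt_le_sqrt ?_⟩ <;> linarith [hx'.1, hx'.2]
  have hx0 : x ∈ Ioo (x - r) (x + r) := ⟨by linarith, by linarith⟩
  have hmM : m ≤ Real.sqrt c := (hmem x hx0).1.trans (hmem x hx0).2.1
  obtain ⟨K, hK, hKb⟩ := FD_integrand_bound (τ := τ) hτ hm0 hmM hl
  obtain ⟨K2, hK2, hKb2⟩ := FD_fn_bound (τ := τ) hτ hm0 hl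
  have hmain := hasDerivAt_integral_of_dominated_loc_of_deriv_le (μ := volume)
    (F := fun x s => psi τ (Real.sqrt x * s) * psi τ (Real.sqrt (c - x) * s) * psiProd τ l s)
    (F' := fun x s => -(1 / 2) * (s ^ 2 * FDB τ (Real.sqrt x) (Real.sqrt (c - x)) s *
      psiProd τ l s)) (x₀ := x) (s := Ioo (x - r) (x + r)) (bound := fun s => K * (1 + s ^ 2)⁻¹)
    (Ioo_mem_nhds (by linarith) (by linarith))
    (Filter.Eventually.of_forall fun x' => (FD_cont τ _ _ l).aestronglyMeasurable)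
    ((FD_int_bound K2).mono' (FD_cont τ _ _ l).aestronglyMeasurable
      (Filter.Eventually.of_forall fun s => hKb2 _ _ s (hmem x hx0).1))
    (by
      have h1 := (FDB_cont τ (Real.sqrt x) (Real.sqrt (c - x)))
      have h2 := psiProd_continuous τ l
      have h3 : Continuous fun s : ℝ => -(1 / 2) * (s ^ 2 * FDB τ (Real.sqrt x)
          (Real.sqrt (c - x)) s * psiProd τ l s) := by fun_prop
      exact h3.aestronglyMeasurable)
    (Filter.Eventually.of_forall fun s x' hx' => by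
      obtain ⟨h1, h2, h3, h4⟩ := hmem x' hx'
      have h5 := hKb _ _ s h1 h2 h3 h4
      rw [Real.norm_eq_abs, abs_mul]
      have h6 : |(-(1 / 2) : ℝ)| = 1 / 2 := by rw [abs_neg, abs_of_pos]; norm_num
      rw [h6]
      have h7 := abs_nonneg (s ^ 2 * FDB τ (Real.sqrt x') (Real.sqrt (c - x')) s * psiProd τ l s)
      linarith)
    (FD_int_bound K)
    (Filter.Eventually.of_forall fun s x' hx' => by
      have hx1 : 0 < x' := by linarith [hx'.1]
      have hx2 : 0 < c - x' := by linarith [hx'.2]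
      have hs1 : 0 < Real.sqrt x' := Real.sqrt_pos.2 hx1
      have hs2 : 0 < Real.sqrt (c - x') := Real.sqrt_pos.2 hx2
      have d1 : HasDerivAt (fun x => Real.sqrt x * s) (1 / (2 * Real.sqrt x') * s) x' :=
        (Real.hasDerivAt_sqrt hx1.ne').mul_const s
      have d2 : HasDerivAt (fun x => Real.sqrt (c - x) * s)
          (-(1 / (2 * Real.sqrt (c - x'))) * s) x' := by
        have h1 : HasDerivAt (fun x => c - x) (-1) x' := by
          simpa using (hasDerivAt_id x').const_sub c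
        have h2 := h1.sqrt hx2.ne'
        have h3 : (-1 : ℝ) / (2 * Real.sqrt (c - x')) = -(1 / (2 * Real.sqrt (c - x'))) := by ring
        rw [h3] at h2
        exact h2.mul_const s
      have e1 := (hasDerivAt_psi τ (Real.sqrt x' * s)).comp x' d1
      have e2 := (hasDerivAt_psi τ (Real.sqrt (c - x') * s)).comp x' d2
      have e3 := (e1.mul e2).mul_const (psiProd τ l s)
      have e4 : (-(Real.sqrt x' * s * chi τ (Real.sqrt x' * s)) * (1 / (2 * Real.sqrt x') * s) *
            (psi τ ∘ fun x => Real.sqrt (c - x) * s) x' +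
          (psi τ ∘ fun x => Real.sqrt x * s) x' *
            (-(Real.sqrt (c - x') * s * chi τ (Real.sqrt (c - x') * s)) *
              (-(1 / (2 * Real.sqrt (c - x'))) * s))) * psiProd τ l s =
          -(1 / 2) * (s ^ 2 * FDB τ (Real.sqrt x') (Real.sqrt (c - x')) s * psiProd τ l s) := by
        simp only [Function.comp]
        unfold FDB
        field_simp
        ring
      rw [e4] at e3
      exact e3)
  have hderiv := hmain.2
  have hs1 : 0 < Real.sqrt x := Real.sqrt_pos.2 hx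
  set A : ℝ := Real.sqrt x with hA
  set y : ℝ := Real.sqrt (c - x) / A with hy
  have hval : ∫ s : ℝ, -(1 / 2) * (s ^ 2 * FDB τ A (Real.sqrt (c - x)) s * psiProd τ l s) =
      -(1 / 2) * A⁻¹ ^ 3 * D τ y (l.map (fun b => A⁻¹ * b)) := by
    rw [integral_const_mul, mul_assoc]
    congr 1
    unfold D
    have h1 : (fun s : ℝ => s ^ 2 * FDB τ A (Real.sqrt (c - x)) s * psiProd τ l s) =
        fun s : ℝ => A⁻¹ ^ 2 * ((fun s' : ℝ => s' ^ 2 * W τ y s' *
          psiProd τ (l.map (fun b => A⁻¹ * b)) s') (A * s)) := by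
      funext s
      have h2 : psiProd τ (l.map (fun b => A⁻¹ * b)) (A * s) = psiProd τ l s := by
        unfold psiProd
        rw [List.map_map]
        congr 1
        refine List.map_congr_left fun b _ => ?_
        simp only [Function.comp]
        congr 1
        field_simp
      simp only
      rw [h2, FDB_eq hs1, ← hy]
      generalize W τ y (A * s) = w
      generalize psiProd τ l s = p
      field_simp
    rw [h1, integral_const_mul, Measure.integral_comp_mul_left (fun s' : ℝ => s' ^ 2 * W τ y s' *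
          psiProd τ (l.map (fun b => A⁻¹ * b)) s') A, smul_eq_mul, abs_of_pos (by positivity)]
    ring
  rw [hval] at hderiv
  exact hderiv

lemma FD_S_pos {n : ℕ} (a : Fin n → ℝ) {i : Fin n} (hi : a i = 1) :
    0 < Real.sqrt (∑ k, a k ^ 2) := by
  apply Real.sqrt_pos.2
  have h1 : a i ^ 2 ≤ ∑ k, a k ^ 2 :=
    Finset.single_le_sum (f := fun k => a k ^ 2) (fun k _ => sq_nonneg _) (Finset.mem_univ i)
  rw [hi] at h1
  linarith

lemma FD_F0_path {τ : ℝ} {n : ℕ} {a : Fin n → ℝ} {i j : Fin n} (hij : i ≠ j)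
    (hi : a i = 1) {x : ℝ} (hx : 0 ≤ x) (hxc : x ≤ 1 + a j ^ 2) :
    F0 τ (Function.update (Function.update a i (Real.sqrt x)) j (Real.sqrt (1 + a j ^ 2 - x))) =
      Real.sqrt (∑ k, a k ^ 2) * FDp τ (1 + a j ^ 2) (others a i j) x := by
  unfold F0
  rw [FD_Phi a hij, FD_sq a hij, Real.sq_sqrt hx, Real.sq_sqrt (by linarith)]
  have h1 := FD_sq a hij (a i) (a j)
  rw [FD_self, hi] at h1
  rw [h1]
  unfold FDp
  congr 2
  ring

/-- local consequence for a maximiser. -/
theorem FD_local {τ : ℝ} (hτ : 0 < τ) {n : ℕ} {a : Fin n → ℝ} (hm : IsMx τ a) {i j : Fin n} (hij : i ≠ j)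
    (hi : a i = 1) (hj0 : 0 < a j) (hj1 : a j < 1) (hk : ∃ k, k ≠ i ∧ k ≠ j ∧ a k ≠ 0) :
    D τ (a j) (others a i j) ≤ 0 := by
  set y := a j with hy
  set c : ℝ := 1 + y ^ 2 with hc
  have hS := FD_S_pos a hi
  have hl := FD_mem_others a hk
  have hd := hasDerivAt_path hτ (c := c) (x := 1) one_pos (by nlinarith) (by nlinarith) hl
  have hmax : IsLocalMax (FDp τ c (others a i j)) 1 := by
    have h1 : ∀ᶠ x in nhds (1 : ℝ), 0 < x ∧ x < c :=
      (eventually_gt_nhds one_pos).and (eventually_lt_nhds (by nlinarith : (1 : ℝ) < c))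
    filter_upwards [h1] with x hx
    have h2 := hm.2 (Function.update (Function.update a i (Real.sqrt x)) j (Real.sqrt (c - x))) (by
      obtain ⟨k, hk1, hk2, hk3⟩ := hk
      refine ⟨i, k, hk1.symm, ?_, ?_⟩
      · rw [Function.update_of_ne hij, Function.update_self]
        exact (Real.sqrt_pos.2 hx.1).ne'
      · rw [Function.update_of_ne hk2, Function.update_of_ne hk1]
        exact hk3)
    rw [FD_F0_path hij hi hx.1.le hx.2.le] at h2
    have h3 := FD_F0_path (τ := τ) (a := a) hij hi (x := 1) zero_le_one (by nlinarith)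
    have h4 : Function.update (Function.update a i (Real.sqrt 1)) j
        (Real.sqrt (1 + a j ^ 2 - 1)) = a := by
      rw [Real.sqrt_one, add_sub_cancel_left, Real.sqrt_sq hj0.le]
      rw [← hi]
      exact FD_self a i j
    rw [h4] at h3
    rw [h3] at h2
    exact le_of_mul_le_mul_left h2 hS
  have h5 := hmax.hasDerivAt_eq_zero hd
  rw [Real.sqrt_one, inv_one, one_pow, hc, add_sub_cancel_left, Real.sqrt_sq hj0.le, div_one] at h5
  simp only [one_mul, List.map_id'] at h5
  linarith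

/-- global consequence: if the exchange derivative is positive on the whole path, then replacing
`a i = 1` and `a j < 1` by their quadratic mean increases the section function. -/
theorem FD_path {τ : ℝ} (hτ : 0 < τ) {n : ℕ} {a : Fin n → ℝ} {i j : Fin n} (hij : i ≠ j)
    (hi : a i = 1) (hj0 : 0 ≤ a j) (hj1 : a j < 1)
    (hk : ∃ k, k ≠ i ∧ k ≠ j ∧ a k ≠ 0)
    (hz : a j = 0 → ∃ k l, k ≠ l ∧ k ≠ i ∧ k ≠ j ∧ l ≠ i ∧ l ≠ j ∧ a k ≠ 0 ∧ a l ≠ 0)
    (hD : ∀ y c : ℝ, a j < y → y < 1 → 1 < c → c * a j ≤ y →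
      0 < D τ y ((others a i j).map (fun b => c * b))) :
    F0 τ a < F0 τ (Function.update (Function.update a i (Real.sqrt ((1 + a j ^ 2) / 2))) j
      (Real.sqrt ((1 + a j ^ 2) / 2))) := by
  set y := a j with hy
  set c : ℝ := 1 + y ^ 2 with hc
  have hc1 : 1 ≤ c := by nlinarith
  have hc2 : c < 2 := by nlinarith
  have hS := FD_S_pos a hi
  have hl := FD_mem_others a hk
  have hanti : StrictAntiOn (FDp τ c (others a i j)) (Icc (c / 2) 1) := by
    refine strictAntiOn_of_deriv_neg (convex_Icc _ _) ?_ ?_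
    · have hm0 : 0 < Real.sqrt (c / 2) := Real.sqrt_pos.2 (by linarith)
      obtain ⟨K2, hK2, hKb2⟩ := FD_fn_bound (τ := τ) hτ hm0 hl
      refine continuousOn_of_dominated (bound := fun s => K2 * (1 + s ^ 2)⁻¹)
        (fun x _ => (FD_cont τ _ _ _).aestronglyMeasurable)
        (fun x hx => Filter.Eventually.of_forall fun s => ?_) (FD_int_bound K2)
        (Filter.Eventually.of_forall fun s => ?_)
      · exact hKb2 _ _ s (Real.sqrt_le_sqrt hx.1)
      · have h1 := psi_continuous τ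
        refine Continuous.continuousOn ?_
        refine Continuous.mul (Continuous.mul ?_ ?_) continuous_const
        · exact h1.comp (Real.continuous_sqrt.mul continuous_const)
        · exact h1.comp ((Real.continuous_sqrt.comp (continuous_const.sub continuous_id)).mul
            continuous_const)
    · intro x hx
      rw [interior_Icc] at hx
      have hx0 : 0 < x := by linarith [hx.1]
      have hxc : x < c := lt_of_lt_of_le hx.2 hc1
      have hd := hasDerivAt_path hτ (c := c) (x := x) hx0 hx.1.le hxc hl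
      have hd' : deriv (FDp τ c (others a i j)) x = _ := hd.deriv
      rw [hd']
      have hs0 : 0 < Real.sqrt x := Real.sqrt_pos.2 hx0
      have hs1 : Real.sqrt x < 1 := by
        rw [Real.sqrt_lt' one_pos]; linarith [hx.2]
      have hs2 : 0 < Real.sqrt (c - x) := Real.sqrt_pos.2 (by linarith)
      have hs3 : y ≤ Real.sqrt (c - x) := by
        apply Real.le_sqrt_of_sq_le
        linarith [hx.2]
      have hDD := hD (Real.sqrt (c - x) / Real.sqrt x) (Real.sqrt x)⁻¹
        (by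
          rw [lt_div_iff₀ hs0]
          rcases eq_or_lt_of_le hj0 with h | h
          · rw [← h, zero_mul]; exact hs2
          · calc y * Real.sqrt x < y * 1 := by gcongr
              _ ≤ _ := by linarith)
        (by
          rw [div_lt_one hs0]
          exact Real.sqrt_lt_sqrt (by linarith) (by linarith [hx.1]))
        ((one_lt_inv₀ hs0).2 hs1)
        (by
          rw [inv_mul_eq_div]
          gcongr)
      have h1 : 0 < (Real.sqrt x)⁻¹ ^ 3 := by positivity
      have h2 := mul_pos h1 hDD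
      linarith
  have hlt : FDp τ c (others a i j) 1 < FDp τ c (others a i j) (c / 2) :=
    hanti ⟨le_refl _, by linarith⟩ ⟨by linarith, le_refl _⟩ (by linarith)
  have h3 := FD_F0_path (τ := τ) (a := a) hij hi (x := 1) zero_le_one (by nlinarith)
  have h4 : Function.update (Function.update a i (Real.sqrt 1)) j
      (Real.sqrt (1 + a j ^ 2 - 1)) = a := by
    rw [Real.sqrt_one, add_sub_cancel_left, Real.sqrt_sq hj0]
    rw [← hi]
    exact FD_self a i j
  rw [h4] at h3
  have h5 := FD_F0_path (τ := τ) (a := a) hij hi (x := c / 2) (by linarith) (by linarith)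
  have h6 : 1 + a j ^ 2 - c / 2 = c / 2 := by linarith
  rw [h6] at h5
  rw [h3, h5]
  exact mul_lt_mul_of_pos_left hlt hS

end GCube
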