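import Pool.Agent.Lib.H83.Inv

/-!
Chunk G3: the exchange derivative as a physical quantity.
-/

open MeasureTheory Set
open scoped Real

namespace GCube

/-- Fubini for a continuous weight on an interval and a bounded continuous kernel. -/
lemma Gthree_swap {H : ℝ → ℝ} (hH : Integrable H) {w : ℝ → ℝ} (hw : Continuous w)
    {φ : ℝ → ℝ → ℝ} (hφ : Continuous (Function.uncurry φ)) (hb : ∀ t s, |φ t s| ≤ 1) {a b : ℝ}
    (hab : a ≤ b) :
    ∫ t in a..b, w t * (∫ s, H s * φ t s) = ∫ s, H s * (∫ t in a..b, w t * φ t s) := by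
  have h1 : ∀ t, w t * (∫ s, H s * φ t s) = ∫ s, w t * (H s * φ t s) := fun t =>
    (integral_const_mul _ _).symm
  have h2 : ∀ s, H s * (∫ t in a..b, w t * φ t s) = ∫ t in a..b, w t * (H s * φ t s) := by
    intro s
    rw [← intervalIntegral.integral_const_mul]
    congr 1
    funext t
    ring
  simp only [h1, h2]
  refine intervalIntegral_integral_swap ?_
  have hwi : Integrable w (volume.restrict (uIoc a b)) := by
    rw [uIoc_of_le hab]
    exact (hw.integrableOn_Icc (a := a) (b := b)).mono_set Ioc_subset_Icc_self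
  refine Integrable.mono' ((hwi.norm).mul_prod hH.norm) ?_ ?_
  · have e1 : AEStronglyMeasurable (fun p : ℝ × ℝ => w p.1)
        ((volume.restrict (uIoc a b)).prod volume) := (hw.comp continuous_fst).aestronglyMeasurable
    have e2 : AEStronglyMeasurable (fun p : ℝ × ℝ => H p.2)
        ((volume.restrict (uIoc a b)).prod volume) := hH.aestronglyMeasurable.comp_snd
    have e3 : AEStronglyMeasurable (fun p : ℝ × ℝ => φ p.1 p.2)
        ((volume.restrict (uIoc a b)).prod volume) := hφ.aestronglyMeasurable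
    exact e1.mul (e2.mul e3)
  · refine Filter.Eventually.of_forall fun p => ?_
    simp only [Function.uncurry]
    rw [norm_mul, norm_mul]
    have h3 : ‖φ p.1 p.2‖ ≤ 1 := by rw [Real.norm_eq_abs]; exact hb _ _
    have h4 : ‖H p.2‖ * ‖φ p.1 p.2‖ ≤ ‖H p.2‖ := mul_le_of_le_one_right (norm_nonneg _) h3
    exact mul_le_mul_of_nonneg_left h4 (norm_nonneg _)

/-- The operators `Y_b` act on a Fourier type integral by multiplication. -/
lemma Gthree_Yl {τ : ℝ} (hτ : 0 < τ) {φ : ℝ → ℝ} (hφ : Continuous φ) (hb : ∀ u, |φ u| ≤ 1)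
    (hY : ∀ b s x, ∫ t in (-τ)..τ, E t * φ (s * (x + b * t)) = psi τ (b * s) * φ (s * x))
    {H : ℝ → ℝ} (hH : Integrable H) {f : ℝ → ℝ}
    (hf : ∀ x, f x = (1 / (2 * π)) * ∫ s : ℝ, H s * φ (s * x)) (l : List ℝ) :
    ∀ x, Yl τ l f x = (1 / (2 * π)) * ∫ s : ℝ, H s * psiProd τ l s * φ (s * x) := by
  induction l with
  | nil =>
    intro x
    simp only [Yl, List.foldr_nil, psiProd, List.map_nil, List.prod_nil, mul_one]
    exact hf x
  | cons b l ih =>
    intro x
    have e1 : Yl τ (b :: l) f x = ∫ t in (-τ)..τ, E t * Yl τ l f (x + b * t) := rfl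
    rw [e1]
    simp only [ih]
    have hHl : Integrable (fun s => H s * psiProd τ l s) := by
      refine (hH.norm.mul_const (psi τ 0 ^ l.length)).mono'
        (hH.aestronglyMeasurable.mul (psiProd_continuous τ l).aestronglyMeasurable) ?_
      refine Filter.Eventually.of_forall fun s => ?_
      rw [norm_mul]
      refine mul_le_mul_of_nonneg_left ?_ (norm_nonneg _)
      rw [Real.norm_eq_abs]
      exact abs_psiProd_le hτ l s
    have e2 : ∀ t, E t * ((1 / (2 * π)) * ∫ s : ℝ, H s * psiProd τ l s * φ (s * (x + b * t))) =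
        (1 / (2 * π)) * (E t * ∫ s : ℝ, H s * psiProd τ l s * φ (s * (x + b * t))) := by
      intro t; ring
    simp only [e2]
    rw [intervalIntegral.integral_const_mul]
    congr 1
    rw [Gthree_swap (φ := fun t s => φ (s * (x + b * t))) hHl E_continuous
      (hφ.comp (by fun_prop)) (fun t s => hb _) (by linarith)]
    congr 1
    funext s
    rw [hY]
    simp only [psiProd, List.map_cons, List.prod_cons]
    ring

lemma Gthree_sin_odd (τ c : ℝ) : ∫ t in (-τ)..τ, E t * Real.sin (c * t) = 0 := by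
  have h := intervalIntegral.integral_comp_neg (a := -τ) (b := τ) fun t => E t * Real.sin (c * t)
  rw [neg_neg] at h
  have h2 : ∀ t, E (-t) * Real.sin (c * -t) = -(E t * Real.sin (c * t)) := by
    intro t
    rw [E_neg, mul_neg, Real.sin_neg]
    ring
  simp only [h2] at h
  rw [intervalIntegral.integral_neg] at h
  linarith

lemma Gthree_Ysin (τ b s x : ℝ) :
    ∫ t in (-τ)..τ, E t * Real.sin (s * (x + b * t)) = psi τ (b * s) * Real.sin (s * x) := by
  have h1 : ∀ t, E t * Real.sin (s * (x + b * t)) =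
      Real.sin (s * x) * (E t * Real.cos ((b * s) * t)) +
        Real.cos (s * x) * (E t * Real.sin ((b * s) * t)) := by
    intro t
    rw [show s * (x + b * t) = s * x + b * s * t by ring, Real.sin_add]
    ring
  simp only [h1]
  rw [intervalIntegral.integral_add, intervalIntegral.integral_const_mul,
    intervalIntegral.integral_const_mul, Gthree_sin_odd]
  · unfold psi
    ring
  · exact (continuous_const.mul (E_continuous.mul (by fun_prop))).intervalIntegrable _ _
  · exact (continuous_const.mul (E_continuous.mul (by fun_prop))).intervalIntegrable _ _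

lemma Gthree_Ycos (τ b s x : ℝ) :
    ∫ t in (-τ)..τ, E t * Real.cos (s * (x + b * t)) = psi τ (b * s) * Real.cos (s * x) := by
  have h1 : ∀ t, E t * Real.cos (s * (x + b * t)) =
      Real.cos (s * x) * (E t * Real.cos ((b * s) * t)) -
        Real.sin (s * x) * (E t * Real.sin ((b * s) * t)) := by
    intro t
    rw [show s * (x + b * t) = s * x + b * s * t by ring, Real.cos_add]
    ring
  simp only [h1]
  rw [intervalIntegral.integral_sub, intervalIntegral.integral_const_mul,
    intervalIntegral.integral_const_mul, Gthree_sin_odd]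
  · unfold psi
    ring
  · exact (continuous_const.mul (E_continuous.mul (by fun_prop))).intervalIntegrable _ _
  · exact (continuous_const.mul (E_continuous.mul (by fun_prop))).intervalIntegrable _ _

/-- The sine transform of `C_y` is integrable. -/
lemma Gthree_int {τ y : ℝ} (hτ : 0 < τ) (hy0 : 0 < y) : Integrable fun s : ℝ =>
    2 * Real.sin (y * τ * s) * psi τ s - 2 * y * Real.sin (τ * s) * psi τ (y * s) := by
  obtain ⟨c, hc, hW⟩ := W_bound hτ hy0
  have hcont : Continuous fun s : ℝ =>
      2 * Real.sin (y * τ * s) * psi τ s - 2 * y * Real.sin (τ * s) * psi τ (y * s) := by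
    have h1 := psi_continuous τ
    have h2 : Continuous fun s : ℝ => psi τ (y * s) := h1.comp (by fun_prop)
    fun_prop
  refine ((integrable_inv_one_add_sq).const_mul (y / E τ * (2 * c))).mono'
    hcont.aestronglyMeasurable ?_
  refine Filter.Eventually.of_forall fun s => ?_
  have hE := E_pos τ
  have h1 := W_eq τ y s
  have h2 : 2 * Real.sin (y * τ * s) * psi τ s - 2 * y * Real.sin (τ * s) * psi τ (y * s) =
      y / E τ * (s * W τ y s) := by
    field_simp
    linarith
  rw [h2, norm_mul, Real.norm_eq_abs, abs_of_pos (div_pos hy0 hE), mul_assoc]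
  refine mul_le_mul_of_nonneg_left ?_ (div_pos hy0 hE).le
  rw [norm_mul, Real.norm_eq_abs, Real.norm_eq_abs]
  obtain ⟨h3, h4⟩ := hW s
  have h5 : (1 + s ^ 2) * (|s| * |W τ y s|) ≤ 2 * c := by
    have hs0 := abs_nonneg s
    have hw0 := abs_nonneg (W τ y s)
    have hsq : s ^ 2 = |s| ^ 2 := (sq_abs s).symm
    rw [hsq]
    have h6 : |s| * |W τ y s| ≤ c := by
      by_cases h : |s| ≤ 1
      · calc |s| * |W τ y s| ≤ 1 * |W τ y s| := mul_le_mul_of_nonneg_right h hw0
          _ ≤ c := by rw [one_mul]; exact h3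
      · rw [not_le] at h
        calc |s| * |W τ y s| ≤ |s| ^ 3 * |W τ y s| := by
              refine mul_le_mul_of_nonneg_right ?_ hw0
              nlinarith [sq_nonneg (|s| - 1), mul_pos (lt_trans one_pos h) (lt_trans one_pos h)]
          _ ≤ c := h4
    nlinarith
  have h6 : (0 : ℝ) < 1 + s ^ 2 := by positivity
  rw [show 2 * c * (1 + s ^ 2)⁻¹ = 2 * c / (1 + s ^ 2) from rfl, le_div_iff₀ h6]
  linarith

/-- `Y_l C_y (x) = (1/2π) ∫ Ĉ(s) ∏ ψ(c s) sin(s x) ds` (Fubini, `Y_b [sin(s ·)](x) = ψ(bs) sin(s x)`). -/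
theorem inv_Yl_C {τ y : ℝ} (hτ : 0 < τ) (hy0 : 0 < y) (hy1 : y < 1) (l : List ℝ) (x : ℝ) :
    Yl τ l (C τ y) x = (1 / (2 * π)) *
      ∫ s : ℝ, (2 * Real.sin (y * τ * s) * psi τ s - 2 * y * Real.sin (τ * s) * psi τ (y * s))
        * psiProd τ l s * Real.sin (s * x) :=
  Gthree_Yl hτ Real.continuous_sin Real.abs_sin_le_one (Gthree_Ysin τ) (Gthree_int hτ hy0)
    (fun x => inv_C hτ hy0 hy1 x) l x

/-- For even data: `Y_l rX (0) = (1/2π) ∫ ψ(s)² ∏ ψ(c s) ds`. -/
theorem inv_Yl_rho {τ a b : ℝ} (hτ : 0 < τ) (ha : 0 < a) (hb : 0 < b) (l : List ℝ) (x : ℝ) :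
    Yl τ l (rho τ a b) x = (1 / (2 * π)) *
      ∫ s : ℝ, psi τ (a * s) * psi τ (b * s) * psiProd τ l s * Real.cos (s * x) := by
  have hI : Integrable fun s : ℝ => psi τ (a * s) * psi τ (b * s) := by
    have h := Phi_integrable hτ (n := 2) (a := ![a, b]) ⟨0, 1, by decide, ha.ne', hb.ne'⟩
    simpa [Fin.prod_univ_two] using h
  exact Gthree_Yl hτ Real.continuous_cos Real.abs_cos_le_one (Gthree_Ycos τ) hI
    (fun x => inv_rho hτ ha hb x) l x

/-- **G3.** `D(y; b::l) = 4πg/(y b) · L_b(Y_l C_y)`. Use `mul_psi` and `W_eq`. -/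
theorem D_cons {τ y b : ℝ} (hτ : 0 < τ) (hy0 : 0 < y) (hy1 : y < 1) (hb : 0 < b) (l : List ℝ) :
    D τ y (b :: l) = 4 * π * E τ / (y * b) * Lf τ b (Yl τ l (C τ y)) := by
  obtain ⟨H, hHdef⟩ : ∃ H : ℝ → ℝ, H = fun s =>
    (2 * Real.sin (y * τ * s) * psi τ s - 2 * y * Real.sin (τ * s) * psi τ (y * s)) *
      psiProd τ l s := ⟨_, rfl⟩
  have hH : Integrable H := by
    rw [hHdef]
    refine ((Gthree_int hτ hy0).norm.mul_const (psi τ 0 ^ l.length)).mono'
      ((Gthree_int hτ hy0).aestronglyMeasurable.mul (psiProd_continuous τ l).aestronglyMeasurable) ?_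
    refine Filter.Eventually.of_forall fun s => ?_
    rw [norm_mul]
    refine mul_le_mul_of_nonneg_left ?_ (norm_nonneg _)
    rw [Real.norm_eq_abs]
    exact abs_psiProd_le hτ l s
  have hf : ∀ x, Yl τ l (C τ y) x = (1 / (2 * π)) * ∫ s : ℝ, H s * Real.sin (s * x) := by
    intro x
    rw [inv_Yl_C hτ hy0 hy1 l x, hHdef]
  have hE := E_pos τ
  have hpt : ∀ s, s ^ 2 * W τ y s * psiProd τ (b :: l) s =
      2 * E τ / (y * b) * (E τ * (H s * Real.sin (s * (b * τ))) +
        H s * ∫ t in (0 : ℝ)..τ, (t * E t) * Real.sin (s * (b * t))) := by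
    intro s
    have h1 := W_eq τ y s
    have h2 := mul_psi τ b s
    have h3 : psiProd τ (b :: l) s = psi τ (b * s) * psiProd τ l s := by
      simp only [psiProd, List.map_cons, List.prod_cons]
    have e1 : ∀ t, t * E t * Real.sin (b * t * s) = t * E t * Real.sin (s * (b * t)) := by
      intro t; rw [show b * t * s = s * (b * t) by ring]
    rw [show b * τ * s = s * (b * τ) by ring] at h2
    simp only [e1] at h2
    rw [h3, hHdef]
    have h4 : s ^ 2 * W τ y s * (psi τ (b * s) * psiProd τ l s) =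
        (y * s * W τ y s) * (b * s * psi τ (b * s)) * psiProd τ l s / (y * b) := by
      field_simp
    rw [h4, h1, h2]
    field_simp
  have hi1 : Integrable fun s => E τ * (H s * Real.sin (s * (b * τ))) := by
    refine Integrable.const_mul ?_ _
    refine hH.norm.mono' (hH.aestronglyMeasurable.mul
      (by fun_prop : Continuous fun s : ℝ => Real.sin (s * (b * τ))).aestronglyMeasurable) ?_
    refine Filter.Eventually.of_forall fun s => ?_
    rw [norm_mul]
    refine mul_le_of_le_one_right (norm_nonneg _) ?_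
    rw [Real.norm_eq_abs]
    exact Real.abs_sin_le_one _
  have hcI : Continuous fun s : ℝ => ∫ t in (0 : ℝ)..τ, (t * E t) * Real.sin (s * (b * t)) := by
    refine intervalIntegral.continuous_parametric_intervalIntegral_of_continuous' ?_ _ _
    have := E_continuous
    unfold Function.uncurry
    fun_prop
  have hi2 : Integrable fun s => H s * ∫ t in (0 : ℝ)..τ, (t * E t) * Real.sin (s * (b * t)) := by
    refine (hH.norm.mul_const (τ * τ)).mono'
      (hH.aestronglyMeasurable.mul hcI.aestronglyMeasurable) ?_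
    refine Filter.Eventually.of_forall fun s => ?_
    rw [norm_mul]
    refine mul_le_mul_of_nonneg_left ?_ (norm_nonneg _)
    have h := intervalIntegral.norm_integral_le_of_norm_le_const (a := 0) (b := τ) (C := τ)
      (f := fun t => (t * E t) * Real.sin (s * (b * t))) (fun t ht => by
        rw [uIoc_of_le hτ.le] at ht
        rw [norm_mul, norm_mul, Real.norm_eq_abs, Real.norm_eq_abs, Real.norm_eq_abs,
          abs_of_pos ht.1, abs_of_pos (E_pos t)]
        have hE1 : E t ≤ 1 := by
          unfold E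
          rw [Real.exp_le_one_iff]
          nlinarith [sq_nonneg t]
        have hs := Real.abs_sin_le_one (s * (b * t))
        have hs0 := abs_nonneg (Real.sin (s * (b * t)))
        calc t * E t * |Real.sin (s * (b * t))| ≤ t * 1 * 1 := by
              refine mul_le_mul (mul_le_mul_of_nonneg_left hE1 ht.1.le) hs hs0 ?_
              linarith [ht.1]
          _ ≤ τ := by linarith [ht.2])
    rw [sub_zero, abs_of_pos hτ] at h
    exact h
  unfold D
  simp only [hpt]
  rw [integral_const_mul, integral_add hi1 hi2, integral_const_mul]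
  have hsw := Gthree_swap (φ := fun t s => Real.sin (s * (b * t))) hH
    (w := fun t => t * E t) (continuous_id.mul E_continuous) (by
      unfold Function.uncurry
      fun_prop) (fun t s => Real.abs_sin_le_one _) hτ.le
  rw [← hsw]
  unfold Lf
  simp only [hf]
  have e2 : ∀ t, t * E t * ((1 / (2 * π)) * ∫ s : ℝ, H s * Real.sin (s * (b * t))) =
      (1 / (2 * π)) * (t * E t * ∫ s : ℝ, H s * Real.sin (s * (b * t))) := by
    intro t; ring
  simp only [e2]
  rw [intervalIntegral.integral_const_mul]
  have hpi := Real.pi_pos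
  generalize (∫ s : ℝ, H s * Real.sin (s * (b * τ))) = I1
  generalize (∫ t in (0 : ℝ)..τ, t * E t * ∫ s : ℝ, H s * Real.sin (s * (b * t))) = I2
  field_simp
  ring

end GCube
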