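import Pool.Agent.Lib.H83.Gthree
import Pool.Agent.Lib.H83.FD

/-!
Chunk TWO: the case of two nonzero coordinates.
-/

open MeasureTheory Set
open scoped Real

namespace GCube

theorem F0_two {τ : ℝ} (hτ : 0 < τ) {n : ℕ} {a : Fin n → ℝ} {i j : Fin n} (hij : i ≠ j)
    (hi : a i = 1) (hj0 : 0 < a j) (hj1 : a j ≤ 1) (hk : ∀ k, k ≠ i → k ≠ j → a k = 0) :
    F0 τ a = 4 * π * (2 * G τ) ^ (n - 2) * G (τ * Real.sqrt (1 + a j ^ 2)) := by
  have hmem : j ∈ Finset.univ.erase i := Finset.mem_erase.2 ⟨hij.symm, Finset.mem_univ j⟩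
  have hsum : ∑ k, a k ^ 2 = 1 + a j ^ 2 := by
    rw [← Finset.add_sum_erase Finset.univ _ (Finset.mem_univ i),
      ← Finset.add_sum_erase (Finset.univ.erase i) _ hmem, hi]
    rw [Finset.sum_eq_zero (s := (Finset.univ.erase i).erase j)]
    · ring
    · intro k hk'
      rw [Finset.mem_erase, Finset.mem_erase] at hk'
      rw [hk k hk'.2.1 hk'.1]
      ring
  have hprod : ∀ s, ∏ k, psi τ (a k * s) =
      (2 * G τ) ^ (n - 2) * (psi τ (1 * s) * psi τ (a j * s) * Real.cos (s * 0)) := by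
    intro s
    rw [← Finset.mul_prod_erase Finset.univ _ (Finset.mem_univ i),
      ← Finset.mul_prod_erase (Finset.univ.erase i) _ hmem, hi]
    have h1 : ∏ k ∈ (Finset.univ.erase i).erase j, psi τ (a k * s) = (2 * G τ) ^ (n - 2) := by
      have h2 : ∏ k ∈ (Finset.univ.erase i).erase j, psi τ (a k * s) =
          ∏ _k ∈ (Finset.univ.erase i).erase j, (2 * G τ) := by
        refine Finset.prod_congr rfl fun k hk' => ?_
        rw [Finset.mem_erase, Finset.mem_erase] at hk'
        rw [hk k hk'.2.1 hk'.1, zero_mul, psi_zero_eq]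
      rw [h2, Finset.prod_const, Finset.card_erase_of_mem hmem,
        Finset.card_erase_of_mem (Finset.mem_univ i), Finset.card_univ, Fintype.card_fin]
      congr 1
    rw [h1, mul_zero, Real.cos_zero]
    ring
  have hrho := inv_rho hτ one_pos hj0 0
  rw [rho_zero hτ hj0 hj1] at hrho
  unfold F0 Phi
  rw [hsum]
  simp only [hprod]
  rw [integral_const_mul]
  have hpos : 0 < Real.sqrt (1 + a j ^ 2) := Real.sqrt_pos.2 (by positivity)
  have hpi := Real.pi_pos
  have h3 : ∫ s : ℝ, psi τ (1 * s) * psi τ (a j * s) * Real.cos (s * 0) =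
      2 * π * (2 * G (τ * Real.sqrt (1 + a j ^ 2)) / Real.sqrt (1 + a j ^ 2)) := by
    rw [hrho]
    generalize (∫ s : ℝ, psi τ (1 * s) * psi τ (a j * s) * Real.cos (s * 0)) = I0
    field_simp
  rw [h3]
  field_simp
  ring

end GCube
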