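import Pool.Agent.Lib.H83.AIneq
import Pool.Agent.Lib.H83.Gthree
import Pool.Agent.Lib.H83.FD
import Pool.Agent.Lib.H83.Two

/-!
Chunk RA: a maximiser `(1,1,b)` cannot have `0 < T² = (1/2) Σ b² < q_B`.

Let `r(v) = rX(v)/rX(0)`, `V = Σ b_j Y_j` (`Y_j` i.i.d. with the normalised truncated Gaussian law),
`F0(1,1,λb)/F0(1,1,0) = √(1+λ²T²) E r(λV)` (`inv_Yl_rho` at `0`).
`A_ineq` with `x = v/2` says `v etaX(v) ≤ κ_B (rX(0) - rX(v))` for `0 ≤ v ≤ 2τ`, hence
`λ ↦ (1 - r(λv)) λ^{-κ_B}` is nonincreasing (constant `rX = 0` beyond `2τ`), so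
`E r(λV) ≥ 1 - λ^κ (1 - R)`, `R = E r(V)`, `λ ≥ 1`. Maximality gives `√(1+T²) R ≥ 1` (compare with `(1,1,0)`) and
`√(1+λ²T²)(1 - λ^κ(1-R)) ≤ √(1+T²) R` for all `λ ≥ 1`; the derivative at `λ = 1` gives
`T²/(1+T²) R ≤ κ(1-R)`, so with `ζ = √(1+T²)`: `κ_B ≥ (T²/ζ²)/(ζ-1) = 1/ζ + 1/ζ²`, contradicting `T² < q_B`.
-/

open MeasureTheory Set
open scoped Real

namespace GCube

lemma RegionA_Yop_continuous (τ b : ℝ) {f : ℝ → ℝ} (hf : Continuous f) : Continuous (Yop τ b f) := by
  unfold Yop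
  have hE := E_continuous
  apply intervalIntegral.continuous_parametric_intervalIntegral_of_continuous'
  unfold Function.uncurry
  fun_prop

lemma RegionA_Yl_continuous (τ : ℝ) (l : List ℝ) {f : ℝ → ℝ} (hf : Continuous f) :
    Continuous (Yl τ l f) := by
  induction l with
  | nil => exact hf
  | cons b l ih => exact RegionA_Yop_continuous τ b ih

lemma RegionA_Yl_mono {τ : ℝ} (hτ : 0 < τ) (l : List ℝ) {f g : ℝ → ℝ} (hf : Continuous f)
    (hg : Continuous g) (h : ∀ x, f x ≤ g x) (x : ℝ) : Yl τ l f x ≤ Yl τ l g x := by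
  induction l generalizing x with
  | nil => exact h x
  | cons b l ih =>
    have hE := E_continuous
    have c1 := RegionA_Yl_continuous τ l hf
    have c2 := RegionA_Yl_continuous τ l hg
    change ∫ t in (-τ)..τ, E t * Yl τ l f (x + b * t) ≤ ∫ t in (-τ)..τ, E t * Yl τ l g (x + b * t)
    apply intervalIntegral.integral_mono_on (by linarith)
    · exact Continuous.intervalIntegrable (by fun_prop) _ _
    · exact Continuous.intervalIntegrable (by fun_prop) _ _
    · intro t _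
      exact mul_le_mul_of_nonneg_left (ih _) (E_pos t).le

lemma RegionA_psi_zero (τ : ℝ) : psi τ 0 = ∫ t in (-τ)..τ, E t := by
  unfold psi
  simp

lemma RegionA_Yl_affine {τ : ℝ} (l : List ℝ) {f : ℝ → ℝ} (hf : Continuous f)
    (α β x : ℝ) : Yl τ l (fun v => α + β * f v) x = α * psi τ 0 ^ l.length + β * Yl τ l f x := by
  induction l generalizing x with
  | nil => simp [Yl]
  | cons b l ih =>
    have hE := E_continuous
    have c1 := RegionA_Yl_continuous τ l hf
    change ∫ t in (-τ)..τ, E t * Yl τ l (fun v => α + β * f v) (x + b * t) =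
      α * psi τ 0 ^ (l.length + 1) + β * ∫ t in (-τ)..τ, E t * Yl τ l f (x + b * t)
    have e1 : ∀ t, E t * Yl τ l (fun v => α + β * f v) (x + b * t) =
        (α * psi τ 0 ^ l.length) * E t + β * (E t * Yl τ l f (x + b * t)) := by
      intro t
      rw [ih]; ring
    simp only [e1]
    rw [intervalIntegral.integral_add (Continuous.intervalIntegrable (by fun_prop) _ _)
      (Continuous.intervalIntegrable (by fun_prop) _ _), intervalIntegral.integral_const_mul,
      intervalIntegral.integral_const_mul, ← RegionA_psi_zero]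
    ring

lemma RegionA_Yl_scale (τ c : ℝ) (l : List ℝ) (f : ℝ → ℝ) (x : ℝ) :
    Yl τ (l.map (fun b => c * b)) f (c * x) = Yl τ l (fun v => f (c * v)) x := by
  induction l generalizing x with
  | nil => rfl
  | cons b l ih =>
    change ∫ t in (-τ)..τ, E t * Yl τ (l.map (fun b => c * b)) f (c * x + c * b * t) =
      ∫ t in (-τ)..τ, E t * Yl τ l (fun v => f (c * v)) (x + b * t)
    congr 1
    funext t
    rw [← ih, show c * x + c * b * t = c * (x + b * t) by ring]

lemma RegionA_rX_continuous {τ : ℝ} (hτ : 0 < τ) : Continuous (rX τ) := by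
  have h : rX τ = rho τ 1 1 := by
    funext x; exact (rho_one hτ x).symm
  rw [h]
  exact rho_continuous hτ one_pos one_pos

lemma RegionA_EE_deriv (x : ℝ) : HasDerivAt EE (Real.exp (-(x ^ 2))) x := by
  unfold EE
  have hc : Continuous fun u : ℝ => Real.exp (-(u ^ 2)) := by fun_prop
  exact intervalIntegral.integral_hasDerivAt_right (hc.intervalIntegrable _ _)
    (hc.stronglyMeasurableAtFilter _ _) hc.continuousAt

lemma RegionA_EE_pos {τ : ℝ} (hτ : 0 < τ) : 0 < EE τ := by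
  unfold EE
  apply intervalIntegral.intervalIntegral_pos_of_pos
  · exact Continuous.intervalIntegrable (by fun_prop) _ _
  · intro x; positivity
  · exact hτ

lemma RegionA_rX_zero {τ : ℝ} (hτ : 0 < τ) : rX τ 0 = 2 * EE τ := by
  unfold rX
  rw [if_pos (by simp; linarith)]
  simp

lemma RegionA_rX_big {τ v : ℝ} (hτ : 0 < τ) (hv : 2 * τ ≤ v) : rX τ v = 0 := by
  unfold rX
  by_cases h : |v| ≤ 2 * τ
  · have hv0 : |v| = v := abs_of_nonneg (by linarith)
    rw [if_pos h]
    rw [hv0] at h ⊢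
    have : v = 2 * τ := le_antisymm h hv
    rw [this, show τ - 2 * τ / 2 = 0 by ring]
    simp [EE]
  · rw [if_neg h]

lemma RegionA_rX_neg (τ v : ℝ) : rX τ (-v) = rX τ v := by
  unfold rX
  rw [abs_neg, neg_sq]

lemma RegionA_rX_deriv {τ v : ℝ} (hv0 : 0 < v) (hv : v < 2 * τ) :
    HasDerivAt (rX τ) (-(v / 2 * rX τ v + Real.exp (-(v ^ 2) / 4) * Real.exp (-((τ - v / 2) ^ 2)))) v := by
  have h1 : HasDerivAt (fun v : ℝ => 2 * Real.exp (-(v ^ 2) / 4) * EE (τ - v / 2))
      (-(v / 2 * (2 * Real.exp (-(v ^ 2) / 4) * EE (τ - v / 2)) +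
        Real.exp (-(v ^ 2) / 4) * Real.exp (-((τ - v / 2) ^ 2)))) v := by
    have hi : HasDerivAt (fun v : ℝ => τ - v / 2) (-(1 / 2)) v := by
      simpa using ((hasDerivAt_id v).div_const 2).const_sub τ
    have hE := (RegionA_EE_deriv (τ - v / 2)).comp v hi
    have hg : HasDerivAt (fun v : ℝ => 2 * Real.exp (-(v ^ 2) / 4))
        (2 * (Real.exp (-(v ^ 2) / 4) * (-(v / 2)))) v := by
      have : HasDerivAt (fun v : ℝ => -(v ^ 2) / 4) (-(v / 2)) v := by
        have h := ((hasDerivAt_pow 2 v).neg).div_const 4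
        exact h.congr_deriv (by norm_num; ring)
      exact (this.exp).const_mul 2
    have h := hg.mul hE
    exact h.congr_deriv (by simp only [Function.comp]; ring)
  have h2 : rX τ v = 2 * Real.exp (-(v ^ 2) / 4) * EE (τ - v / 2) := by
    unfold rX
    rw [abs_of_pos hv0, if_pos hv.le]
  rw [h2]
  apply h1.congr_of_eventuallyEq
  filter_upwards [Ioo_mem_nhds hv0 hv] with w hw
  unfold rX
  rw [abs_of_pos hw.1, if_pos hw.2.le]

lemma RegionA_hineq {τ v : ℝ} (hτ : (62 / 100 : ℝ) ≤ τ) (hv0 : 0 < v) (hv : v < 2 * τ) :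
    v * (v / 2 * rX τ v + Real.exp (-(v ^ 2) / 4) * Real.exp (-((τ - v / 2) ^ 2))) ≤
      kapB τ * (rX τ 0 - rX τ v) := by
  have h := A_ineq (x := v / 2) hτ (by linarith) (by linarith)
  have hτ0 : 0 < τ := by linarith
  have h2 : rX τ v = 2 * Real.exp (-(v ^ 2) / 4) * EE (τ - v / 2) := by
    unfold rX
    rw [abs_of_pos hv0, if_pos hv.le]
  have hpos : 0 < 2 * Real.exp (-(v ^ 2) / 4) := by positivity
  have h3 := mul_le_mul_of_nonneg_left h hpos.le
  have he : Real.exp (-(v ^ 2) / 4) * Real.exp ((v / 2) ^ 2) = 1 := by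
    rw [← Real.exp_add]
    rw [show -(v ^ 2) / 4 + (v / 2) ^ 2 = 0 by ring, Real.exp_zero]
  rw [h2, RegionA_rX_zero hτ0]
  calc v * (v / 2 * (2 * Real.exp (-(v ^ 2) / 4) * EE (τ - v / 2)) +
        Real.exp (-(v ^ 2) / 4) * Real.exp (-((τ - v / 2) ^ 2))) =
      2 * Real.exp (-(v ^ 2) / 4) * (2 * (v / 2) ^ 2 * EE (τ - v / 2) +
        v / 2 * Real.exp (-((τ - v / 2) ^ 2))) := by ring
    _ ≤ _ := h3
    _ = kapB τ * (2 * (Real.exp (-(v ^ 2) / 4) * Real.exp ((v / 2) ^ 2)) * EE τ -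
        2 * Real.exp (-(v ^ 2) / 4) * EE (τ - v / 2)) := by ring
    _ = _ := by rw [he]; ring

lemma RegionA_kapB_pos (τ : ℝ) : 0 < kapB τ := by
  have hq : 0 < qB τ := Real.exp_pos _
  have h1 : 0 < 1 + qB τ := by linarith
  have h2 : 0 < Real.sqrt (1 + qB τ) := Real.sqrt_pos.2 h1
  unfold kapB
  have h3 : 0 < 1 / Real.sqrt (1 + qB τ) := div_pos one_pos h2
  have h4 : 0 < 1 / (1 + qB τ) := div_pos one_pos h1
  linarith

/-- `h(v) v^{-κ}` is nonincreasing. -/
lemma RegionA_anti {τ : ℝ} (hτ : (62 / 100 : ℝ) ≤ τ) {v w : ℝ} (hv : 0 < v) (hvw : v ≤ w) :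
    (rX τ 0 - rX τ w) * w ^ (-(kapB τ)) ≤ (rX τ 0 - rX τ v) * v ^ (-(kapB τ)) := by
  have hτ0 : 0 < τ := by linarith
  have hanti : AntitoneOn (fun v : ℝ => (rX τ 0 - rX τ v) * v ^ (-(kapB τ))) (Ioc 0 (2 * τ)) := by
    apply antitoneOn_of_deriv_nonpos (convex_Ioc _ _)
    · apply ContinuousOn.mul
      · exact (continuous_const.sub (RegionA_rX_continuous hτ0)).continuousOn
      · intro x hx
        exact (Real.continuousAt_rpow_const x _ (Or.inl hx.1.ne')).continuousWithinAt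
    · rw [interior_Ioc]
      intro x hx
      apply DifferentiableAt.differentiableWithinAt
      apply DifferentiableAt.mul
      · exact (RegionA_rX_deriv hx.1 hx.2).differentiableAt.const_sub _
      · exact (Real.hasDerivAt_rpow_const (Or.inl hx.1.ne')).differentiableAt
    · rw [interior_Ioc]
      intro x hx
      have hd := ((RegionA_rX_deriv hx.1 hx.2).const_sub (rX τ 0)).mul
        (Real.hasDerivAt_rpow_const (x := x) (p := -(kapB τ)) (Or.inl hx.1.ne'))
      have hd' := hd.deriv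
      have e : deriv (fun v : ℝ => (rX τ 0 - rX τ v) * v ^ (-(kapB τ))) x = _ := hd'
      rw [e]
      have hineq := RegionA_hineq hτ hx.1 hx.2
      have hxp : x ^ (-(kapB τ)) = x * x ^ (-(kapB τ) - 1) := by
        have := Real.rpow_add hx.1 1 (-(kapB τ) - 1)
        rw [Real.rpow_one] at this
        rw [← this]; congr 1; ring
      rw [hxp]
      have hpos : 0 < x ^ (-(kapB τ) - 1) := Real.rpow_pos_of_pos hx.1 _
      have : (-(-(x / 2 * rX τ x + Real.exp (-(x ^ 2) / 4) * Real.exp (-((τ - x / 2) ^ 2)))) *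
          (x * x ^ (-(kapB τ) - 1)) + (rX τ 0 - rX τ x) * (-(kapB τ) * x ^ (-(kapB τ) - 1))) =
          (x * (x / 2 * rX τ x + Real.exp (-(x ^ 2) / 4) * Real.exp (-((τ - x / 2) ^ 2))) -
            kapB τ * (rX τ 0 - rX τ x)) * x ^ (-(kapB τ) - 1) := by ring
      rw [this]
      exact mul_nonpos_of_nonpos_of_nonneg (by linarith) hpos.le
  have hbig : ∀ v w : ℝ, 2 * τ ≤ v → v ≤ w →
      (rX τ 0 - rX τ w) * w ^ (-(kapB τ)) ≤ (rX τ 0 - rX τ v) * v ^ (-(kapB τ)) := by
    intro v w hv hvw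
    rw [RegionA_rX_big hτ0 hv, RegionA_rX_big hτ0 (hv.trans hvw), sub_zero]
    have h0 : 0 ≤ rX τ 0 := by
      rw [RegionA_rX_zero hτ0]
      have := RegionA_EE_pos hτ0
      linarith
    apply mul_le_mul_of_nonneg_left _ h0
    exact Real.rpow_le_rpow_of_nonpos (by linarith) hvw (by have := RegionA_kapB_pos τ; linarith)
  rcases le_total (2 * τ) v with h | h
  · exact hbig v w h hvw
  · rcases le_total (2 * τ) w with h' | h'
    · exact (hbig (2 * τ) w le_rfl h').trans (hanti ⟨hv, h⟩ ⟨by linarith, le_rfl⟩ h)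
    · exact hanti ⟨hv, h⟩ ⟨by linarith, h'⟩ hvw

/-- the pointwise inequality -/
lemma RegionA_pt {τ : ℝ} (hτ : (62 / 100 : ℝ) ≤ τ) {c : ℝ} (hc : 1 ≤ c) (v : ℝ) :
    (1 - c ^ kapB τ) * rX τ 0 + c ^ kapB τ * rX τ v ≤ rX τ (c * v) := by
  have key : ∀ v, 0 ≤ v → (1 - c ^ kapB τ) * rX τ 0 + c ^ kapB τ * rX τ v ≤ rX τ (c * v) := by
    intro v hv
    rcases hv.eq_or_lt with rfl | hv
    · rw [mul_zero]; linarith
    · have hc0 : 0 < c := by linarith
      have h := RegionA_anti hτ hv (w := c * v) (by nlinarith)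
      rw [Real.mul_rpow hc0.le hv.le, Real.rpow_neg hc0.le] at h
      have hvp : 0 < v ^ (-(kapB τ)) := Real.rpow_pos_of_pos hv _
      have hcp : 0 < c ^ kapB τ := Real.rpow_pos_of_pos hc0 _
      have h2 : (rX τ 0 - rX τ (c * v)) * (c ^ kapB τ)⁻¹ ≤ rX τ 0 - rX τ v := by
        apply le_of_mul_le_mul_right _ hvp
        calc (rX τ 0 - rX τ (c * v)) * (c ^ kapB τ)⁻¹ * v ^ (-(kapB τ)) =
          (rX τ 0 - rX τ (c * v)) * ((c ^ kapB τ)⁻¹ * v ^ (-(kapB τ))) := by ring
          _ ≤ _ := h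
      rw [mul_inv_le_iff₀ hcp] at h2
      linarith
  rcases le_total 0 v with h | h
  · exact key v h
  · have := key (-v) (by linarith)
    rw [RegionA_rX_neg, mul_neg, RegionA_rX_neg] at this
    exact this

/-- the vector `(1,1,c·b)` -/
noncomputable def RegionA_vec {n : ℕ} (a : Fin n → ℝ) (i j : Fin n) (c : ℝ) : Fin n → ℝ :=
  fun k => if k = i ∨ k = j then 1 else c * a k

lemma RegionA_others {n : ℕ} (a : Fin n → ℝ) (i j : Fin n) (c : ℝ) :
    others (RegionA_vec a i j c) i j = (others a i j).map (fun b => c * b) := by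
  unfold others
  rw [List.map_map]
  apply List.map_congr_left
  intro k hk
  simp only [Finset.mem_toList, Finset.mem_erase, Finset.mem_univ, and_true] at hk
  unfold RegionA_vec
  rw [if_neg (by tauto)]
  rfl

lemma RegionA_F0 {τ : ℝ} (hτ : 0 < τ) {n : ℕ} (a : Fin n → ℝ) {i j : Fin n} (hij : i ≠ j) (c : ℝ) :
    F0 τ (RegionA_vec a i j c) =
      Real.sqrt (2 + c ^ 2 * ∑ k ∈ (Finset.univ.erase i).erase j, a k ^ 2) *
        (2 * π * Yl τ (others a i j) (fun v => rX τ (c * v)) 0) := by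
  have hi : RegionA_vec a i j c i = 1 := by unfold RegionA_vec; simp
  have hj : RegionA_vec a i j c j = 1 := by unfold RegionA_vec; simp
  unfold F0
  congr 1
  · congr 1
    rw [← Finset.add_sum_erase _ (fun k => RegionA_vec a i j c k ^ 2) (Finset.mem_univ i),
      ← Finset.add_sum_erase _ (fun k => RegionA_vec a i j c k ^ 2)
        (show j ∈ Finset.univ.erase i by simp [hij.symm]), hi, hj, Finset.mul_sum]
    have : ∑ k ∈ (Finset.univ.erase i).erase j, RegionA_vec a i j c k ^ 2 =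
        ∑ k ∈ (Finset.univ.erase i).erase j, c ^ 2 * a k ^ 2 := by
      apply Finset.sum_congr rfl
      intro k hk
      simp only [Finset.mem_erase, Finset.mem_univ, and_true] at hk
      unfold RegionA_vec
      rw [if_neg (by tauto)]
      ring
    rw [this]; ring
  · unfold Phi
    have h1 := inv_Yl_rho hτ one_pos one_pos ((others a i j).map (fun b => c * b)) (c * 0)
    rw [RegionA_Yl_scale] at h1
    have h2 : (fun v => rho τ 1 1 (c * v)) = fun v => rX τ (c * v) := by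
      funext v; exact rho_one hτ _
    rw [h2] at h1
    rw [h1]
    rw [← mul_assoc, show 2 * π * (1 / (2 * π)) = 1 by field_simp, one_mul]
    congr 1
    funext s
    rw [psiProd_others _ hij, hi, hj, RegionA_others]
    simp

lemma RegionA_deriv_le {f : ℝ → ℝ} {d : ℝ} (hd : HasDerivAt f d 1) (h : ∀ c, 1 ≤ c → f c ≤ f 1) :
    d ≤ 0 := by
  have h1 : HasDerivWithinAt f d (Ioi 1) 1 := hd.hasDerivWithinAt
  rw [hasDerivWithinAt_iff_tendsto_slope' (by simp)] at h1
  apply le_of_tendsto h1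
  filter_upwards [self_mem_nhdsWithin] with c hc
  rw [slope_def_field]
  apply div_nonpos_of_nonpos_of_nonneg
  · have := h c (le_of_lt hc)
    linarith
  · have : (1 : ℝ) < c := hc
    linarith

theorem regionA {τ : ℝ} (hτ : (62 / 100 : ℝ) ≤ τ) {n : ℕ} {a : Fin n → ℝ} (hm : IsMx τ a)
    (h0 : ∀ k, 0 ≤ a k) (h1 : ∀ k, a k ≤ 1) {i j : Fin n} (hij : i ≠ j) (hi : a i = 1) (hj : a j = 1)
    (hT0 : 0 < ∑ k ∈ (Finset.univ.erase i).erase j, a k ^ 2)
    (hT : ∑ k ∈ (Finset.univ.erase i).erase j, a k ^ 2 < 2 * qB τ) : False := by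
  have hτ0 : 0 < τ := by linarith
  obtain ⟨S, hS⟩ : ∃ S, S = ∑ k ∈ (Finset.univ.erase i).erase j, a k ^ 2 := ⟨_, rfl⟩
  rw [← hS] at hT0 hT
  obtain ⟨J, hJ⟩ : ∃ J : ℝ → ℝ, J = fun c => Yl τ (others a i j) (fun v => rX τ (c * v)) 0 := ⟨_, rfl⟩
  obtain ⟨κ, hκ⟩ : ∃ κ, κ = kapB τ := ⟨_, rfl⟩
  have hF : ∀ c, F0 τ (RegionA_vec a i j c) = Real.sqrt (2 + c ^ 2 * S) * (2 * π * J c) := by
    intro c
    rw [RegionA_F0 hτ0 a hij c, hS, hJ]
  have ha1 : RegionA_vec a i j 1 = a := by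
    funext k
    unfold RegionA_vec
    by_cases hk : k = i ∨ k = j
    · rw [if_pos hk]
      rcases hk with rfl | rfl
      · exact hi.symm
      · exact hj.symm
    · rw [if_neg hk, one_mul]
  have hmax : ∀ c, Real.sqrt (2 + c ^ 2 * S) * J c ≤ Real.sqrt (2 + S) * J 1 := by
    intro c
    have h2 := hm.2 (RegionA_vec a i j c) ⟨i, j, hij, by unfold RegionA_vec; simp, by unfold RegionA_vec; simp⟩
    rw [← ha1, hF 1] at h2
    rw [show RegionA_vec (RegionA_vec a i j 1) i j c = RegionA_vec a i j c by rw [ha1], hF c] at h2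
    have hπ : 0 < 2 * π := by positivity
    rw [one_pow, one_mul] at h2
    apply le_of_mul_le_mul_left _ hπ
    calc 2 * π * (Real.sqrt (2 + c ^ 2 * S) * J c) = Real.sqrt (2 + c ^ 2 * S) * (2 * π * J c) := by ring
      _ ≤ Real.sqrt (2 + S) * (2 * π * J 1) := h2
      _ = _ := by ring
  have hcont := RegionA_rX_continuous hτ0
  -- `J 0`
  obtain ⟨A, hA⟩ : ∃ A, A = rX τ 0 * psi τ 0 ^ (others a i j).length := ⟨_, rfl⟩
  have hJ0 : J 0 = A := by
    rw [hJ, hA]
    have := RegionA_Yl_affine (τ := τ) (others a i j) hcont (rX τ 0) 0 0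
    simp only [zero_mul, add_zero] at this
    simpa using this
  have hApos : 0 < A := by
    rw [hA, RegionA_rX_zero hτ0]
    have h3 := RegionA_EE_pos hτ0
    have h4 := psi_zero_pos hτ0
    have h5 := pow_pos h4 (others a i j).length
    exact mul_pos (by linarith) h5
  have hJc : ∀ c, 1 ≤ c → (1 - c ^ κ) * A + c ^ κ * J 1 ≤ J c := by
    intro c hc
    have h3 := RegionA_Yl_mono hτ0 (others a i j)
      (f := fun v => (1 - c ^ kapB τ) * rX τ 0 + c ^ kapB τ * rX τ v)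
      (g := fun v => rX τ (c * v)) (by fun_prop) (by fun_prop) (RegionA_pt hτ hc) 0
    rw [RegionA_Yl_affine _ hcont] at h3
    rw [hJ, hA, hκ]
    simp only [one_mul]
    calc _ = (1 - c ^ kapB τ) * rX τ 0 * psi τ 0 ^ (others a i j).length +
        c ^ kapB τ * Yl τ (others a i j) (fun v => rX τ v) 0 := by ring
      _ ≤ _ := h3
  obtain ⟨B, hB⟩ : ∃ B, B = J 1 := ⟨_, rfl⟩
  rw [← hB] at hJc hmax
  -- the function
  have hphi : ∀ c, 1 ≤ c → Real.sqrt (2 + c ^ 2 * S) * ((1 - c ^ κ) * A + c ^ κ * B) ≤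
      Real.sqrt (2 + 1 ^ 2 * S) * ((1 - 1 ^ κ) * A + 1 ^ κ * B) := by
    intro c hc
    have h3 := mul_le_mul_of_nonneg_left (hJc c hc) (Real.sqrt_nonneg (2 + c ^ 2 * S))
    rw [Real.one_rpow]
    have h4 := hmax c
    rw [one_pow, one_mul, sub_self, zero_mul, zero_add, one_mul]
    linarith
  obtain ⟨s, hs⟩ : ∃ s, s = Real.sqrt (2 + S) := ⟨_, rfl⟩
  have hspos : 0 < s := by rw [hs]; exact Real.sqrt_pos.2 (by linarith)
  have hs2 : s ^ 2 = 2 + S := by rw [hs]; exact Real.sq_sqrt (by linarith)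
  have hder : HasDerivAt (fun c : ℝ => Real.sqrt (2 + c ^ 2 * S) * ((1 - c ^ κ) * A + c ^ κ * B))
      ((2 * S) / (2 * s) * B + s * (κ * (B - A))) 1 := by
    have d1 : HasDerivAt (fun c : ℝ => 2 + c ^ 2 * S) (2 * S) 1 := by
      have := ((hasDerivAt_pow 2 (1 : ℝ)).mul_const S).const_add 2
      simpa using this
    have d2 : HasDerivAt (fun c : ℝ => Real.sqrt (2 + c ^ 2 * S)) ((2 * S) / (2 * s)) 1 := by
      have := d1.sqrt (by rw [one_pow, one_mul]; linarith)
      rw [hs]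
      simpa using this
    have d3 : HasDerivAt (fun c : ℝ => c ^ κ) κ 1 := by
      have := Real.hasDerivAt_rpow_const (x := 1) (p := κ) (Or.inl one_ne_zero)
      simpa using this
    have d4 : HasDerivAt (fun c : ℝ => (1 - c ^ κ) * A + c ^ κ * B) (κ * (B - A)) 1 := by
      have h := ((d3.const_sub 1).mul_const A).add (d3.mul_const B)
      exact h.congr_deriv (by ring)
    have h := d2.mul d4
    exact h.congr_deriv (by rw [Real.one_rpow, one_pow, one_mul, one_mul, ← hs]; ring)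
  have hd := RegionA_deriv_le hder hphi
  have hmax0 := hmax 0
  rw [hJ0, zero_pow two_ne_zero, zero_mul, add_zero, ← hs] at hmax0
  have hr2 : (Real.sqrt 2) ^ 2 = 2 := Real.sq_sqrt (by norm_num)
  have hr2pos : 0 < Real.sqrt 2 := Real.sqrt_pos.2 (by norm_num)
  have hBpos : 0 < B := by
    have : 0 < s * B := lt_of_lt_of_le (mul_pos hr2pos hApos) hmax0
    exact (pos_iff_pos_of_mul_pos this).1 hspos
  -- `ζ = s/√2`
  obtain ⟨z, hz⟩ : ∃ z, z = s / Real.sqrt 2 := ⟨_, rfl⟩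
  have hzs : s = z * Real.sqrt 2 := by rw [hz]; field_simp
  have hz2 : z ^ 2 = 1 + S / 2 := by
    have : s ^ 2 = z ^ 2 * (Real.sqrt 2) ^ 2 := by rw [hzs]; ring
    rw [hs2, hr2] at this
    linarith
  have hzpos : 0 < z := by rw [hz]; exact div_pos hspos hr2pos
  have hz1 : 1 < z := by
    by_contra hle
    push Not at hle
    have : z ^ 2 ≤ 1 := by nlinarith
    linarith
  have hAB : A ≤ z * B := by
    rw [hzs] at hmax0
    apply le_of_mul_le_mul_left _ hr2pos
    calc _ ≤ _ := hmax0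
      _ = _ := by ring
  have hκpos : 0 < κ := by rw [hκ]; exact RegionA_kapB_pos τ
  -- `S B ≤ s² κ (A - B)`
  have hd2 : S * B ≤ s ^ 2 * (κ * (A - B)) := by
    have h5 : S / s * B + s * (κ * (B - A)) ≤ 0 := by
      have e : (2 * S) / (2 * s) = S / s := by field_simp
      rw [e] at hd; exact hd
    have h6 := mul_le_mul_of_nonneg_left h5 hspos.le
    rw [mul_zero] at h6
    have e2 : s * (S / s * B + s * (κ * (B - A))) = S * B + s ^ 2 * (κ * (B - A)) := by
      field_simp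
    rw [e2] at h6
    nlinarith
  have hd3 : S * B ≤ s ^ 2 * (κ * ((z - 1) * B)) := by
    have h7 : κ * (A - B) ≤ κ * ((z - 1) * B) := mul_le_mul_of_nonneg_left (by linarith) hκpos.le
    exact hd2.trans (mul_le_mul_of_nonneg_left h7 (by positivity))
  have hd4 : S ≤ s ^ 2 * (κ * (z - 1)) := by
    apply le_of_mul_le_mul_right _ hBpos
    calc _ ≤ _ := hd3
      _ = _ := by ring
  have hSz : S = 2 * (z ^ 2 - 1) := by linarith
  have hsz : s ^ 2 = 2 * z ^ 2 := by rw [hs2]; linarith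
  have hd5 : z + 1 ≤ κ * z ^ 2 := by
    rw [hSz, hsz] at hd4
    have hz1' : 0 < z - 1 := by linarith
    apply le_of_mul_le_mul_right _ hz1'
    nlinarith
  -- contradiction
  obtain ⟨w, hw⟩ : ∃ w, w = Real.sqrt (1 + qB τ) := ⟨_, rfl⟩
  have hq : 0 < qB τ := Real.exp_pos _
  have hw2 : w ^ 2 = 1 + qB τ := by rw [hw]; exact Real.sq_sqrt (by linarith)
  have hwpos : 0 < w := by rw [hw]; exact Real.sqrt_pos.2 (by linarith)
  have hzw : z < w := by
    apply lt_of_pow_lt_pow_left₀ 2 hwpos.le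
    rw [hz2, hw2]
    linarith
  have hκw : κ = 1 / w + 1 / w ^ 2 := by
    rw [hκ, hw2, hw]
    rfl
  have hκ2 : κ * w ^ 2 = w + 1 := by
    rw [hκw]; field_simp
  have : κ * w ^ 2 * z ^ 2 < (z + 1) * w ^ 2 := by
    rw [hκ2]
    nlinarith [mul_pos hzpos hwpos, mul_pos (sub_pos.2 hzw) (mul_pos hzpos hwpos)]
  nlinarith
end GCube
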