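import Pool.Agent.Lib.H83.PMDefs
import Pool.Agent.Lib.H83.CFBasic
import Pool.Agent.Lib.H83.RegionA
import Pool.Agent.Lib.H83.ClassS

/-!
Chunk PMO1: iterated averages of odd functions and of polynomials.

* `PM_odd`: if `h` is continuous, odd and `≥ 0` on `[0,∞)` then so is `Yop τ y h`:
  `Y_y h(x) = (1/y) ∫_0^∞ h(u) (κ(u-x) - κ(u+x)) du`, `κ(u) = E(u/y) 1_{|u| ≤ yτ}` even and nonincreasing in `|u|`. Induction for `Yl`.
* moments: `∫_{-τ}^τ E = psi τ 0`, `∫ t E = ∫ t³ E = 0`, `∫ t² E = sg τ · psi τ 0` (`chi_zero_eq` or `sg = τ² m2`). Induction on `k`.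
-/

open MeasureTheory Set
open scoped Real

namespace GCube

lemma PMMom_csU_nonneg {h : ℝ → ℝ} (hc : Continuous h) (ho : ∀ x, h (-x) = - h x)
    (hp : ∀ x, 0 ≤ x → 0 ≤ h x) {x w : ℝ} (hx : 0 ≤ x) (hw : 0 ≤ w) : 0 ≤ csU w h x := by
  rw [csU_eq hc]
  have h1 : csF1 h (x - w) = csF1 h |x - w| := by
    rcases abs_cases (x - w) with ⟨h, _⟩ | ⟨h, _⟩
    · rw [h]
    · rw [h, csF1_even ho]
  have h2 : |x - w| ≤ x + w := abs_le.2 ⟨by linarith, by linarith⟩
  have h3 : csF1 h (x + w) - csF1 h |x - w| = ∫ u in |x - w|..(x + w), h u := by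
    unfold csF1
    rw [intervalIntegral.integral_interval_sub_left (hc.intervalIntegrable _ _)
      (hc.intervalIntegrable _ _)]
  rw [h1, h3]
  exact intervalIntegral.integral_nonneg h2 (fun u hu => hp u ((abs_nonneg _).trans hu.1))

lemma PMMom_Yop_nonneg {τ y : ℝ} (hτ : 0 < τ) (hy0 : 0 < y) {h : ℝ → ℝ} (hc : Continuous h)
    (ho : ∀ x, h (-x) = - h x) (hp : ∀ x, 0 ≤ x → 0 ≤ h x) {x : ℝ} (hx : 0 ≤ x) :
    0 ≤ Yop τ y h x := by
  have h1 := ClassS_Yop_layer' hτ hy0 hc x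
  have h2 : 0 ≤ E τ * csU (y * τ) h x :=
    mul_nonneg (E_pos τ).le (PMMom_csU_nonneg hc ho hp hx (mul_pos hy0 hτ).le)
  have h3 : 0 ≤ ∫ t in (0 : ℝ)..τ, t * E t * csU (y * t) h x :=
    intervalIntegral.integral_nonneg hτ.le (fun t ht => mul_nonneg (mul_nonneg ht.1 (E_pos t).le)
      (PMMom_csU_nonneg hc ho hp hx (mul_nonneg hy0.le ht.1)))
  have h4 : 0 ≤ y * Yop τ y h x := by rw [h1]; linarith
  exact nonneg_of_mul_nonneg_right h4 hy0

lemma PMMom_Yl_succ (τ y : ℝ) (k : ℕ) (f : ℝ → ℝ) (x : ℝ) :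
    Yl τ (List.replicate (k + 1) y) f x =
      ∫ t in (-τ)..τ, E t * Yl τ (List.replicate k y) f (x + y * t) := rfl

lemma PMMom_Yl_odd {τ : ℝ} (l : List ℝ) {f : ℝ → ℝ} (hf : Continuous f)
    (ho : ∀ x, f (-x) = - f x) (x : ℝ) : Yl τ l f (-x) = - Yl τ l f x := by
  induction l generalizing x with
  | nil => exact ho x
  | cons b l ih =>
    exact ClassS_Yop_odd (RegionA_Yl_continuous τ l hf) ih x

theorem PM_odd {τ y : ℝ} (hτ : 0 < τ) (hy0 : 0 < y) {h : ℝ → ℝ} (hc : Continuous h)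
    (ho : ∀ x, h (-x) = - h x) (hp : ∀ x, 0 ≤ x → 0 ≤ h x) (k : ℕ) {x : ℝ} (hx : 0 ≤ x) :
    0 ≤ Yl τ (List.replicate k y) h x := by
  induction k generalizing x with
  | zero => exact hp x hx
  | succ k ih =>
    exact PMMom_Yop_nonneg hτ hy0 (RegionA_Yl_continuous τ _ hc) (PMMom_Yl_odd _ hc ho)
      (fun x hx => ih hx) hx

lemma PMMom_m1 (τ : ℝ) : ∫ t in (-τ)..τ, t * E t = 0 := by
  have h := intervalIntegral.integral_comp_neg (a := -τ) (b := τ) (fun t => t * E t)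
  simp only [neg_neg, E_neg] at h
  have h2 : ∫ t in (-τ)..τ, -t * E t = - ∫ t in (-τ)..τ, t * E t := by
    rw [← intervalIntegral.integral_neg]
    congr 1
    ext t
    ring
  linarith

lemma PMMom_m3 (τ : ℝ) : ∫ t in (-τ)..τ, t ^ 3 * E t = 0 := by
  have h := intervalIntegral.integral_comp_neg (a := -τ) (b := τ) (fun t => t ^ 3 * E t)
  simp only [neg_neg, E_neg] at h
  have h2 : ∫ t in (-τ)..τ, (-t) ^ 3 * E t = - ∫ t in (-τ)..τ, t ^ 3 * E t := by
    rw [← intervalIntegral.integral_neg]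
    congr 1
    ext t
    ring
  linarith

lemma PMMom_m2 {τ : ℝ} (hτ : 0 < τ) : ∫ t in (-τ)..τ, t ^ 2 * E t = sg τ * psi τ 0 := by
  rw [← chi_zero_eq hτ]
  unfold chi
  simp

lemma PMMom_poly {τ : ℝ} (hτ : 0 < τ) (A B C D : ℝ) :
    ∫ t in (-τ)..τ, E t * (A + B * t + C * t ^ 2 + D * t ^ 3) =
      psi τ 0 * (A + C * sg τ) := by
  have hE := E_continuous
  have e1 : ∀ t, E t * (A + B * t + C * t ^ 2 + D * t ^ 3) =
      A * E t + (B * (t * E t) + (C * (t ^ 2 * E t) + D * (t ^ 3 * E t))) := by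
    intro t; ring
  simp only [e1]
  rw [intervalIntegral.integral_add (Continuous.intervalIntegrable (by fun_prop) _ _)
      (Continuous.intervalIntegrable (by fun_prop) _ _),
    intervalIntegral.integral_add (Continuous.intervalIntegrable (by fun_prop) _ _)
      (Continuous.intervalIntegrable (by fun_prop) _ _),
    intervalIntegral.integral_add (Continuous.intervalIntegrable (by fun_prop) _ _)
      (Continuous.intervalIntegrable (by fun_prop) _ _), intervalIntegral.integral_const_mul,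
    intervalIntegral.integral_const_mul, intervalIntegral.integral_const_mul,
    intervalIntegral.integral_const_mul, PMMom_m1, PMMom_m2 hτ, PMMom_m3, ← RegionA_psi_zero]
  ring

theorem PM_cubic {τ : ℝ} (hτ : 0 < τ) (y a c : ℝ) (k : ℕ) (x : ℝ) :
    Yl τ (List.replicate k y) (fun v => a * v + c * v ^ 3) x =
      psi τ 0 ^ k * (a * x + c * (x ^ 3 + 3 * k * sg τ * y ^ 2 * x)) := by
  induction k generalizing x with
  | zero => simp [Yl]
  | succ k ih =>
    rw [PMMom_Yl_succ]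
    simp only [ih]
    have e1 : ∀ t, E t * (psi τ 0 ^ k * (a * (x + y * t) + c * ((x + y * t) ^ 3 +
        3 * k * sg τ * y ^ 2 * (x + y * t)))) = E t * (psi τ 0 ^ k * (a * x + c * (x ^ 3 +
        3 * k * sg τ * y ^ 2 * x)) + psi τ 0 ^ k * (a * y + c * (3 * x ^ 2 * y +
        3 * k * sg τ * y ^ 2 * y)) * t + psi τ 0 ^ k * (c * (3 * x * y ^ 2)) * t ^ 2 +
        psi τ 0 ^ k * (c * y ^ 3) * t ^ 3) := by
      intro t; ring
    simp only [e1]
    rw [PMMom_poly hτ]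
    push_cast
    ring

theorem PM_quad {τ : ℝ} (hτ : 0 < τ) (y a c : ℝ) (k : ℕ) (x : ℝ) :
    Yl τ (List.replicate k y) (fun v => a + c * v ^ 2) x =
      psi τ 0 ^ k * (a + c * (x ^ 2 + k * sg τ * y ^ 2)) := by
  induction k generalizing x with
  | zero => simp [Yl]
  | succ k ih =>
    rw [PMMom_Yl_succ]
    simp only [ih]
    have e1 : ∀ t, E t * (psi τ 0 ^ k * (a + c * ((x + y * t) ^ 2 + k * sg τ * y ^ 2))) =
        E t * (psi τ 0 ^ k * (a + c * (x ^ 2 + k * sg τ * y ^ 2)) +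
        psi τ 0 ^ k * (c * (2 * x * y)) * t + psi τ 0 ^ k * (c * y ^ 2) * t ^ 2 +
        0 * t ^ 3) := by
      intro t; ring
    simp only [e1]
    rw [PMMom_poly hτ]
    push_cast
    ring

end GCube
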