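import Pool.Agent.Lib.H83.PMForm
import Pool.Agent.Lib.H83.PMMom

/-!
Chunk PMO2: the polynomial-majorant criterion.

* `fX` is bounded, measurable, `fX ≤ b0 + b2 v²` (for `|v| > 2τ` it is `0`), so `Yl(y^(k+1)) fX 0 ≤ Yl(y^(k+1)) (b0 + b2 v²) 0` (the inner
  `Yop τ y fX` is continuous, or use integrability of piecewise continuous functions at each stage; `RegionA_Yl_mono` for the outer
  ones).
* `PM_core`: by `D_eq_PM` and `phiX(v) ≥ a0 v - a2 v³` (`v ≥ 0`): `Yl phiX (yτ) ≥ psi0^k yτ (a0 - a2(y²τ² + 3k sg y²))`,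
  `Yl fX 0 ≤ psi0^(k+1) (b0 + b2 (k+1) y² sg)`, `psi0 = 2 τ Nm τ 0`.
-/

open MeasureTheory Set
open scoped Real

namespace GCube

lemma PMCore_int_mono {a b : ℝ} (hab : a ≤ b) {f g : ℝ → ℝ}
    (hg : IntervalIntegrable g volume a b) (h0 : ∀ x ∈ Icc a b, 0 ≤ g x)
    (h : ∀ x ∈ Icc a b, f x ≤ g x) : ∫ x in a..b, f x ≤ ∫ x in a..b, g x := by
  by_cases hf : IntervalIntegrable f volume a b
  · exact intervalIntegral.integral_mono_on hab hf hg h
  · rw [intervalIntegral.integral_undef hf]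
    exact intervalIntegral.integral_nonneg hab h0

lemma PMCore_Yl_nonneg {τ : ℝ} (hτ : 0 < τ) (l : List ℝ) {g : ℝ → ℝ} (h0 : ∀ x, 0 ≤ g x)
    (x : ℝ) : 0 ≤ Yl τ l g x := by
  induction l generalizing x with
  | nil => exact h0 x
  | cons b l ih =>
    change 0 ≤ ∫ t in (-τ)..τ, E t * Yl τ l g (x + b * t)
    exact intervalIntegral.integral_nonneg (by linarith)
      (fun t _ => mul_nonneg (E_pos t).le (ih _))

lemma PMCore_Yl_mono {τ : ℝ} (hτ : 0 < τ) (l : List ℝ) {f g : ℝ → ℝ} (hg : Continuous g)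
    (h0 : ∀ x, 0 ≤ g x) (h : ∀ x, f x ≤ g x) (x : ℝ) : Yl τ l f x ≤ Yl τ l g x := by
  induction l generalizing x with
  | nil => exact h x
  | cons b l ih =>
    have hE := E_continuous
    have c2 := RegionA_Yl_continuous τ l hg
    change ∫ t in (-τ)..τ, E t * Yl τ l f (x + b * t) ≤ ∫ t in (-τ)..τ, E t * Yl τ l g (x + b * t)
    apply PMCore_int_mono (by linarith)
    · exact Continuous.intervalIntegrable (by fun_prop) _ _
    · intro t _
      exact mul_nonneg (E_pos t).le (PMCore_Yl_nonneg hτ l h0 _)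
    · intro t _
      exact mul_le_mul_of_nonneg_left (ih _) (E_pos t).le

lemma PMCore_Yl_sub {τ : ℝ} (l : List ℝ) {f g : ℝ → ℝ} (hf : Continuous f) (hg : Continuous g)
    (x : ℝ) : Yl τ l (fun v => f v - g v) x = Yl τ l f x - Yl τ l g x := by
  induction l generalizing x with
  | nil => rfl
  | cons b l ih =>
    have hE := E_continuous
    have c1 := RegionA_Yl_continuous τ l hf
    have c2 := RegionA_Yl_continuous τ l hg
    change ∫ t in (-τ)..τ, E t * Yl τ l (fun v => f v - g v) (x + b * t) =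
      (∫ t in (-τ)..τ, E t * Yl τ l f (x + b * t)) - ∫ t in (-τ)..τ, E t * Yl τ l g (x + b * t)
    rw [← intervalIntegral.integral_sub (Continuous.intervalIntegrable (by fun_prop) _ _)
      (Continuous.intervalIntegrable (by fun_prop) _ _)]
    congr 1
    ext t
    rw [ih]
    ring

theorem PM_fX {τ y b0 b2 : ℝ} (hτ : 0 < τ) (hy0 : 0 < y) (h0 : 0 ≤ b0) (h2 : 0 ≤ b2)
    (hb : ∀ v, 0 ≤ v → v ≤ 2 * τ → v * E (τ - v) ≤ b0 + b2 * v ^ 2) (k : ℕ) :
    Yl τ (List.replicate (k + 1) y) (fX τ) 0 ≤ psi τ 0 ^ (k + 1) * (b0 + b2 * ((k + 1) * sg τ * y ^ 2)) := by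
  have h1 : ∀ v, fX τ v ≤ b0 + b2 * v ^ 2 := by
    intro v
    unfold fX
    split_ifs with h
    · have := hb |v| (abs_nonneg v) h
      rwa [sq_abs] at this
    · positivity
  have h3 := PMCore_Yl_mono hτ (List.replicate (k + 1) y) (f := fX τ)
    (g := fun v => b0 + b2 * v ^ 2) (by fun_prop) (fun x => by positivity) h1 0
  rw [PM_quad hτ] at h3
  refine h3.trans (le_of_eq ?_)
  push_cast
  ring

theorem PM_core {τ y a0 a2 b0 b2 : ℝ} (hτ : 0 < τ) (hy0 : 0 < y)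
    (ha : ∀ v, 0 ≤ v → a0 - a2 * v ^ 2 ≤ rX τ v) (h0 : 0 ≤ b0) (h2 : 0 ≤ b2)
    (hb : ∀ v, 0 ≤ v → v ≤ 2 * τ → v * E (τ - v) ≤ b0 + b2 * v ^ 2) {k : ℕ}
    (h : Nm τ 0 * (b0 + b2 * ((k + 1) * sg τ * y ^ 2)) <
      (k + 1) * y ^ 2 / 2 * (a0 - a2 * (y ^ 2 * τ ^ 2 + 3 * k * sg τ * y ^ 2))) :
    0 < D τ y (1 :: List.replicate k y) := by
  rw [D_eq_PM hτ hy0 k]
  have hk : (0 : ℝ) < (k : ℝ) + 1 := by positivity
  have h1 : 0 < 2 * π * E τ / ((k + 1) * y ^ 2) := by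
    have := E_pos τ
    positivity
  apply mul_pos h1
  have h3 := PM_fX hτ hy0 h0 h2 hb k
  have hyt : 0 < y * τ := mul_pos hy0 hτ
  have hcr := RegionA_rX_continuous hτ
  have hcp : Continuous (phiX τ) := by
    unfold phiX
    fun_prop
  have h4 : psi τ 0 ^ k * (a0 * (y * τ) + (-a2) * ((y * τ) ^ 3 + 3 * k * sg τ * y ^ 2 * (y * τ))) ≤
      Yl τ (List.replicate k y) (phiX τ) (y * τ) := by
    have h5 := PM_odd hτ hy0 (h := fun v => phiX τ v - (a0 * v + (-a2) * v ^ 3)) (by fun_prop)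
      (fun x => by
        unfold phiX
        rw [RegionA_rX_neg]
        ring)
      (fun x hx => by
        unfold phiX
        have := mul_le_mul_of_nonneg_left (ha x hx) hx
        linarith [this, show x * (a0 - a2 * x ^ 2) = a0 * x + (-a2) * x ^ 3 by ring]) k hyt.le
    rw [PMCore_Yl_sub _ hcp (by fun_prop), PM_cubic hτ] at h5
    linarith
  have h5 := psi_zero_pos hτ
  have h6 : psi τ 0 = 2 * τ * Nm τ 0 := CFBasic_psi0 τ
  have h7 : 0 < psi τ 0 ^ k := pow_pos h5 k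
  have h8 : (k + 1) * y * (psi τ 0 ^ k * (a0 * (y * τ) + (-a2) * ((y * τ) ^ 3 +
      3 * k * sg τ * y ^ 2 * (y * τ)))) ≤
      (k + 1) * y * Yl τ (List.replicate k y) (phiX τ) (y * τ) :=
    mul_le_mul_of_nonneg_left h4 (by positivity)
  have h9 : psi τ 0 ^ (k + 1) * (b0 + b2 * ((k + 1) * sg τ * y ^ 2)) =
      psi τ 0 ^ k * (2 * τ) * (Nm τ 0 * (b0 + b2 * ((k + 1) * sg τ * y ^ 2))) := by
    rw [pow_succ]
    nth_rewrite 2 [h6]
    ring
  have h10 : (k + 1) * y * (psi τ 0 ^ k * (a0 * (y * τ) + (-a2) * ((y * τ) ^ 3 +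
      3 * k * sg τ * y ^ 2 * (y * τ)))) = psi τ 0 ^ k * (2 * τ) *
      ((k + 1) * y ^ 2 / 2 * (a0 - a2 * (y ^ 2 * τ ^ 2 + 3 * k * sg τ * y ^ 2))) := by
    ring
  have h11 := mul_lt_mul_of_pos_left h (show 0 < psi τ 0 ^ k * (2 * τ) by positivity)
  linarith

end GCube
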