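import Pool.Agent.Lib.H83.CFPrim
import Pool.Agent.Lib.H83.CFMono

/-!
Chunk YK: `¬ Kap τ y` forces `y` small.

`Kap τ y` : `(1-y²)(1-E τ) ≤ y τ G((1-y)τ)`. With `1 - E τ = τ² N_1(τ)` and `G(u) = u N_0(u)` it is (divide by `(1-y) τ² > 0`)
`(1+y) N_1(τ) ≤ y N_0((1-y)τ)` (`Kap_iff`), i.e. `(1 + 1/y) N_1(τ) ≤ N_0((1-y)τ)`: monotone in `y`. On a subinterval `[s1,s2]`
the left side is largest at `s1`, the right side smallest at `s2` (`Nm_anti`).

`YK_tail`: table (checked in Python; 4 subintervals each; `Y = 0.82/t2` rounded down, so `y < Y` gives `yτ < 0.82`):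
(1.4,1.55,.529) (1.55,1.7,.4823) (1.7,1.85,.4432) (1.85,2,.41) (2,2.15,.3813) (2.15,2.3,.3565) (2.3,2.45,.3346) (2.45,2.6,.3153)
(2.6,2.75,.2981) (2.75,2.9,.2827) (2.9,3.1,.2645) (3.1,3.3,.2484) (3.3,3.5,.2342) (3.5,3.6,.2277); for `τ ≥ 3.6`:
`0.82 G(τ-0.82) ≥ 0.82 G(2.78) ≥ 1.02 > 1` (`G(2.78) = 2.78 N_0(2.78)`, `nmL`).
`YK_sq` (`Y² ≤ q_B(t2)`): (.62,.72,.841) (.72,.82,.799) (.82,.92,.754) (.92,1.02,.706) (1.02,1.1,.667) (1.1,1.16,.638)
(1.16,1.22,.608) (1.22,1.27,.584) (1.27,1.3,.569) (1.3,1.32,.559) (1.32,1.34,.549) (1.34,1.35,.544).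
`YK_sq2` (`Y² ≤ 2 q_B(t2)`): (.62,1.22,.86) (1.22,1.62,.589) (1.62,1.8,.48).
-/

open MeasureTheory Set
open scoped Real

namespace GCube

lemma YK_G_eq (u : ℝ) : G u = u * Nm u 0 := by
  unfold G Nm
  have h := intervalIntegral.mul_integral_comp_mul_left (a := 0) (b := 1) (f := E) (c := u)
  simp only [mul_zero, mul_one] at h
  rw [← h]
  simp

lemma YK_N1_eq (τ : ℝ) : 1 - E τ = τ ^ 2 * Nm τ 1 := by
  rw [← psi_int_tE τ]
  unfold Nm
  have h := intervalIntegral.mul_integral_comp_mul_left (a := 0) (b := 1)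
    (f := fun t => t * E t) (c := τ)
  simp only [mul_zero, mul_one] at h
  rw [← h, pow_two, mul_assoc, ← intervalIntegral.integral_const_mul τ (fun ξ => ξ ^ 1 * E (τ * ξ))]
  congr 1
  apply intervalIntegral.integral_congr
  intro ξ _
  simp only
  ring

theorem Kap_iff {τ y : ℝ} (hτ : 0 < τ) (hy1 : y < 1) :
    Kap τ y ↔ (1 + y) * Nm τ 1 ≤ y * Nm ((1 - y) * τ) 0 := by
  unfold Kap
  rw [YK_N1_eq, YK_G_eq]
  have h1 : 0 < (1 - y) * τ ^ 2 := by
    have : 0 < 1 - y := by linarith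
    positivity
  have e1 : (1 - y ^ 2) * (τ ^ 2 * Nm τ 1) = (1 - y) * τ ^ 2 * ((1 + y) * Nm τ 1) := by ring
  have e2 : y * τ * ((1 - y) * τ * Nm ((1 - y) * τ) 0) =
      (1 - y) * τ ^ 2 * (y * Nm ((1 - y) * τ) 0) := by ring
  rw [e1, e2]
  exact mul_le_mul_iff_right₀ h1

theorem Kap_mono {τ y y' : ℝ} (hτ : 0 < τ) (hy : 0 < y) (h : y ≤ y') (hy' : y' < 1) (hK : Kap τ y) :
    Kap τ y' := by
  rw [Kap_iff hτ (by linarith)] at hK
  rw [Kap_iff hτ hy']
  have h1 : Nm ((1 - y) * τ) 0 ≤ Nm ((1 - y') * τ) 0 := by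
    apply Nm_anti
    · have : 0 < 1 - y' := by linarith
      positivity
    · nlinarith
  have hN := Nm_pos τ 1
  have h2 : y * ((1 + y') * Nm τ 1) ≤ y * (y' * Nm ((1 - y') * τ) 0) := by
    calc y * ((1 + y') * Nm τ 1) ≤ y' * ((1 + y) * Nm τ 1) := by nlinarith
      _ ≤ y' * (y * Nm ((1 - y) * τ) 0) := by
          apply mul_le_mul_of_nonneg_left hK (by linarith)
      _ ≤ y' * (y * Nm ((1 - y') * τ) 0) := by
          apply mul_le_mul_of_nonneg_left _ (by linarith)
          exact mul_le_mul_of_nonneg_left h1 hy.le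
      _ = y * (y' * Nm ((1 - y') * τ) 0) := by ring
  exact le_of_mul_le_mul_left h2 hy

lemma YK_grid {t1 t2 τ : ℝ} {n : ℕ} (hn : 0 < n) (h1 : t1 ≤ τ) (h2 : τ ≤ t2) :
    ∃ i < n, t1 + (t2 - t1) * i / n ≤ τ ∧ τ ≤ t1 + (t2 - t1) * (i + 1) / n := by
  classical
  have hex : ∃ i : ℕ, τ ≤ t1 + (t2 - t1) * (i + 1) / n := by
    refine ⟨n - 1, ?_⟩
    have hn' : (n : ℝ) ≠ 0 := by positivity
    have e : ((n - 1 : ℕ) : ℝ) + 1 = n := by
      have : n - 1 + 1 = n := by omega
      exact_mod_cast this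
    rw [e, mul_div_assoc, div_self hn']
    linarith
  have hlt : Nat.find hex < n := by
    have : Nat.find hex ≤ n - 1 := by
      apply Nat.find_min'
      have hn' : (n : ℝ) ≠ 0 := by positivity
      have e : ((n - 1 : ℕ) : ℝ) + 1 = n := by
        have : n - 1 + 1 = n := by omega
        exact_mod_cast this
      rw [e, mul_div_assoc, div_self hn']
      linarith
    omega
  refine ⟨Nat.find hex, hlt, ?_, Nat.find_spec hex⟩
  rcases Nat.eq_zero_or_pos (Nat.find hex) with h0 | hpos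
  · rw [h0]
    simpa using h1
  · have hm := Nat.find_min hex (m := Nat.find hex - 1) (by omega)
    have e : ((Nat.find hex - 1 : ℕ) : ℝ) + 1 = (Nat.find hex : ℕ) := by
      have : Nat.find hex - 1 + 1 = Nat.find hex := by omega
      exact_mod_cast this
    rw [e] at hm
    linarith

theorem okY_lt {t1 t2 Y : ℚ} {n : ℕ} (h : CF.okY t1 t2 Y n = true) {τ y : ℝ} (h1 : (t1 : ℝ) ≤ τ)
    (h2 : τ ≤ t2) (hy1 : y < 1) (hK : ¬ Kap τ y) : y < Y := by
  by_contra hcon
  rw [not_lt] at hcon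
  unfold CF.okY at h
  simp only [Bool.and_eq_true, decide_eq_true_eq, List.all_eq_true, List.mem_range] at h
  obtain ⟨⟨⟨⟨⟨ht1, ht12⟩, hY0⟩, hY1⟩, hn⟩, hall⟩ := h
  have ht1' : (0 : ℝ) < t1 := by exact_mod_cast ht1
  have ht12' : (t1 : ℝ) ≤ t2 := by exact_mod_cast ht12
  have hY0' : (0 : ℝ) < Y := by exact_mod_cast hY0
  have hY1' : (Y : ℝ) < 1 := by exact_mod_cast hY1
  have hτ : 0 < τ := by linarith
  apply hK
  apply Kap_mono hτ hY0' hcon hy1
  rw [Kap_iff hτ hY1']
  obtain ⟨i, hi, hs1, hs2⟩ := YK_grid hn h1 h2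
  have hc := hall i hi
  have hnr : (0 : ℚ) < n := by exact_mod_cast hn
  have hs1nn : 0 ≤ t1 + (t2 - t1) * i / n := by
    have : 0 ≤ (t2 - t1) * i / n := by
      have : 0 ≤ t2 - t1 := by linarith
      positivity
    linarith
  have hs2nn : 0 ≤ (1 - Y) * (t1 + (t2 - t1) * (i + 1) / n) := by
    have h3 : 0 ≤ (t2 - t1) * (i + 1) / n := by
      have : 0 ≤ t2 - t1 := by linarith
      positivity
    have h4 : 0 < 1 - Y := by linarith
    have h5 : 0 ≤ t1 + (t2 - t1) * (i + 1) / n := by linarith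
    positivity
  have a1 := CF.le_nmU 1 hs1nn
  have a2 := CF.nmL_le 0 hs2nn
  have hc' : ((1 + Y) * CF.nmU 1 (t1 + (t2 - t1) * i / n) : ℝ) ≤
      Y * (CF.nmL 0 ((1 - Y) * (t1 + (t2 - t1) * (i + 1) / n)) : ℝ) := by exact_mod_cast hc
  push_cast at a1 a2
  have b1 : Nm τ 1 ≤ Nm ((t1 : ℝ) + (t2 - t1) * i / n) 1 := by
    apply Nm_anti _ hs1
    have : ((0 : ℚ) : ℝ) ≤ ((t1 + (t2 - t1) * i / n : ℚ) : ℝ) := by exact_mod_cast hs1nn
    push_cast at this
    exact this
  have b2 : Nm ((1 - (Y : ℝ)) * ((t1 : ℝ) + (t2 - t1) * (i + 1) / n)) 0 ≤ Nm ((1 - (Y : ℝ)) * τ) 0 := by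
    apply Nm_anti
    · have : 0 < 1 - (Y : ℝ) := by linarith
      positivity
    · apply mul_le_mul_of_nonneg_left hs2
      linarith
  calc (1 + (Y : ℝ)) * Nm τ 1 ≤ (1 + Y) * (CF.nmU 1 (t1 + (t2 - t1) * i / n) : ℝ) := by
        apply mul_le_mul_of_nonneg_left (b1.trans a1)
        linarith
    _ ≤ Y * (CF.nmL 0 ((1 - Y) * (t1 + (t2 - t1) * (i + 1) / n)) : ℝ) := hc'
    _ ≤ Y * Nm ((1 - (Y : ℝ)) * τ) 0 := by
        apply mul_le_mul_of_nonneg_left (a2.trans b2)
        linarith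

lemma YK_tail_block {t1 t2 Y : ℚ} (h : CF.okY t1 t2 Y 4 = true) (hY : Y * t2 ≤ 82 / 100)
    {τ y : ℝ} (h1 : (t1 : ℝ) ≤ τ)
    (h2 : τ ≤ t2) (hy0 : 0 < y) (hy1 : y < 1) (hK : ¬ Kap τ y) : y * τ ≤ 82 / 100 := by
  have h3 := okY_lt h h1 h2 hy1 hK
  have ht1 : (0 : ℚ) < t1 := by
    unfold CF.okY at h
    simp only [Bool.and_eq_true, decide_eq_true_eq] at h
    exact h.1.1.1.1.1
  have ht1' : (0 : ℝ) < t1 := by exact_mod_cast ht1
  have hY' : (Y : ℝ) * t2 ≤ 82 / 100 := by
    have : ((Y * t2 : ℚ) : ℝ) ≤ ((82 / 100 : ℚ) : ℝ) := by exact_mod_cast hY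
    push_cast at this
    exact this
  have hτ : 0 < τ := by linarith
  nlinarith [mul_le_mul h3.le h2 hτ.le (by linarith)]

lemma YK_G_mono {a b : ℝ} (h : a ≤ b) : G a ≤ G b := by
  unfold G
  have h1 : (∫ u in (0 : ℝ)..a, E u) + ∫ u in a..b, E u = ∫ u in (0 : ℝ)..b, E u :=
    intervalIntegral.integral_add_adjacent_intervals (E_continuous.intervalIntegrable _ _)
      (E_continuous.intervalIntegrable _ _)
  have h2 : 0 ≤ ∫ u in a..b, E u :=
    intervalIntegral.integral_nonneg h fun u _ => (E_pos u).le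
  linarith

lemma YK_tail_far {τ y : ℝ} (hτ : 36 / 10 ≤ τ) (hy0 : 0 < y) (hy1 : y < 1) (hK : ¬ Kap τ y) :
    y * τ ≤ 82 / 100 := by
  by_contra hcon
  rw [not_le] at hcon
  have hτ0 : 0 < τ := by linarith
  apply hK
  have hY0 : 0 < 82 / 100 / τ := by positivity
  have hY : 82 / 100 / τ ≤ y := by
    rw [div_le_iff₀ hτ0]
    exact hcon.le
  apply Kap_mono hτ0 hY0 hY hy1
  unfold Kap
  have e1 : 82 / 100 / τ * τ = 82 / 100 := by field_simp
  have e2 : (1 - 82 / 100 / τ) * τ = τ - 82 / 100 := by field_simp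
  rw [e1, e2]
  have h1 : G (278 / 100) ≤ G (τ - 82 / 100) := YK_G_mono (by linarith)
  have h2 : (1 : ℝ) ≤ 82 / 100 * G (278 / 100) := by
    rw [YK_G_eq]
    have h3 := CF.nmL_le 0 (t := 278 / 100) (by norm_num)
    have h4 : (1 : ℚ) ≤ 82 / 100 * (278 / 100 * CF.nmL 0 (278 / 100)) := by decide +kernel
    have h5 := (Rat.cast_le (K := ℝ)).mpr h4
    push_cast at h5
    have e3 : (((278 / 100 : ℚ)) : ℝ) = 278 / 100 := by push_cast; rfl
    rw [e3] at h3
    linarith
  have h6 : (1 - (82 / 100 / τ) ^ 2) * (1 - E τ) ≤ 1 := by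
    have h7 := E_pos τ
    have h8 := psi_E_le_one τ
    have h9 : 82 / 100 / τ ≤ 1 := by linarith
    have h10 : (82 / 100 / τ) ^ 2 ≤ 1 := by nlinarith
    have h11 : 0 ≤ (82 / 100 / τ) ^ 2 := sq_nonneg _
    nlinarith
  linarith

theorem YK_tail {τ y : ℝ} (hτ : 14 / 10 ≤ τ) (hy0 : 0 < y) (hy1 : y < 1) (hK : ¬ Kap τ y) :
    y * τ ≤ 82 / 100 := by
  rcases le_or_gt (36 / 10) τ with h | h
  · exact YK_tail_far h hy0 hy1 hK
  have key : ∀ t1 t2 Y : ℚ, CF.okY t1 t2 Y 4 = true → Y * t2 ≤ 82 / 100 → (t1 : ℝ) ≤ τ → τ ≤ t2 →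
      y * τ ≤ 82 / 100 := fun t1 t2 Y h1 h2 h3 h4 => YK_tail_block h1 h2 h3 h4 hy0 hy1 hK
  rcases le_or_gt τ (155 / 100) with h1 | h1
  · exact key (14 / 10) (155 / 100) (529 / 1000) (by decide +kernel) (by norm_num)
      (by push_cast; linarith) (by push_cast; linarith)
  rcases le_or_gt τ (17 / 10) with h2 | h2
  · exact key (155 / 100) (17 / 10) (4823 / 10000) (by decide +kernel) (by norm_num)
      (by push_cast; linarith) (by push_cast; linarith)
  rcases le_or_gt τ (185 / 100) with h3 | h3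
  · exact key (17 / 10) (185 / 100) (4432 / 10000) (by decide +kernel) (by norm_num)
      (by push_cast; linarith) (by push_cast; linarith)
  rcases le_or_gt τ 2 with h4 | h4
  · exact key (185 / 100) 2 (41 / 100) (by decide +kernel) (by norm_num)
      (by push_cast; linarith) (by push_cast; linarith)
  rcases le_or_gt τ (215 / 100) with h5 | h5
  · exact key 2 (215 / 100) (3813 / 10000) (by decide +kernel) (by norm_num)
      (by push_cast; linarith) (by push_cast; linarith)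
  rcases le_or_gt τ (23 / 10) with h6 | h6
  · exact key (215 / 100) (23 / 10) (3565 / 10000) (by decide +kernel) (by norm_num)
      (by push_cast; linarith) (by push_cast; linarith)
  rcases le_or_gt τ (245 / 100) with h7 | h7
  · exact key (23 / 10) (245 / 100) (3346 / 10000) (by decide +kernel) (by norm_num)
      (by push_cast; linarith) (by push_cast; linarith)
  rcases le_or_gt τ (26 / 10) with h8 | h8
  · exact key (245 / 100) (26 / 10) (3153 / 10000) (by decide +kernel) (by norm_num)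
      (by push_cast; linarith) (by push_cast; linarith)
  rcases le_or_gt τ (275 / 100) with h9 | h9
  · exact key (26 / 10) (275 / 100) (2981 / 10000) (by decide +kernel) (by norm_num)
      (by push_cast; linarith) (by push_cast; linarith)
  rcases le_or_gt τ (29 / 10) with h10 | h10
  · exact key (275 / 100) (29 / 10) (2827 / 10000) (by decide +kernel) (by norm_num)
      (by push_cast; linarith) (by push_cast; linarith)
  rcases le_or_gt τ (31 / 10) with h11 | h11
  · exact key (29 / 10) (31 / 10) (2645 / 10000) (by decide +kernel) (by norm_num)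
      (by push_cast; linarith) (by push_cast; linarith)
  rcases le_or_gt τ (33 / 10) with h12 | h12
  · exact key (31 / 10) (33 / 10) (2484 / 10000) (by decide +kernel) (by norm_num)
      (by push_cast; linarith) (by push_cast; linarith)
  rcases le_or_gt τ (35 / 10) with h13 | h13
  · exact key (33 / 10) (35 / 10) (2342 / 10000) (by decide +kernel) (by norm_num)
      (by push_cast; linarith) (by push_cast; linarith)
  · exact key (35 / 10) (36 / 10) (2277 / 10000) (by decide +kernel) (by norm_num)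
      (by push_cast; linarith) (by push_cast; linarith)

lemma YK_qB_anti {τ t : ℝ} (hτ : 0 ≤ τ) (h : τ ≤ t) : qB t ≤ qB τ := by
  unfold qB
  apply Real.exp_le_exp.mpr
  nlinarith

lemma YK_sq_block {t1 t2 Y : ℚ} (c : ℕ) (h : CF.okY t1 t2 Y 4 = true)
    (hY : Y ^ 2 ≤ c * CF.emL (2 * t2 ^ 2 / 3))
    {τ y : ℝ} (h1 : (t1 : ℝ) ≤ τ)
    (h2 : τ ≤ t2) (hy0 : 0 < y) (hy1 : y < 1) (hK : ¬ Kap τ y) : y ^ 2 < c * qB τ := by
  have h3 := okY_lt h h1 h2 hy1 hK
  have ht1 : (0 : ℚ) < t1 := by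
    unfold CF.okY at h
    simp only [Bool.and_eq_true, decide_eq_true_eq] at h
    exact h.1.1.1.1.1
  have ht1' : (0 : ℝ) < t1 := by exact_mod_cast ht1
  have hY' : (Y : ℝ) ^ 2 ≤ c * (CF.emL (2 * t2 ^ 2 / 3) : ℝ) := by
    exact_mod_cast hY
  have hw : (0 : ℚ) ≤ 2 * t2 ^ 2 / 3 := by positivity
  have h4 := CF.emL_le hw
  have h5 : Real.exp (-((2 * t2 ^ 2 / 3 : ℚ) : ℝ)) = qB t2 := by
    unfold qB
    congr 1
    push_cast
    ring
  rw [h5] at h4
  have hτ : 0 ≤ τ := by linarith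
  have h6 := YK_qB_anti hτ h2
  have h7 : y ^ 2 < (Y : ℝ) ^ 2 := by nlinarith
  have h8 : (c : ℝ) * (CF.emL (2 * t2 ^ 2 / 3) : ℝ) ≤ c * qB τ := by
    apply mul_le_mul_of_nonneg_left (h4.trans h6)
    positivity
  linarith

theorem YK_sq {τ y : ℝ} (hτ : 62 / 100 ≤ τ) (hτ2 : τ ≤ 135 / 100) (hy0 : 0 < y) (hy1 : y < 1)
    (hK : ¬ Kap τ y) : y ^ 2 < qB τ := by
  have key : ∀ t1 t2 Y : ℚ, CF.okY t1 t2 Y 4 = true → Y ^ 2 ≤ (1 : ℕ) * CF.emL (2 * t2 ^ 2 / 3) →
      (t1 : ℝ) ≤ τ → τ ≤ t2 → y ^ 2 < qB τ := by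
    intro t1 t2 Y h1 h2 h3 h4
    have := YK_sq_block 1 h1 h2 h3 h4 hy0 hy1 hK
    simpa using this
  rcases le_or_gt τ (72 / 100) with h1 | h1
  · exact key (62 / 100) (72 / 100) (841 / 1000) (by decide +kernel) (by decide +kernel)
      (by push_cast; linarith) (by push_cast; linarith)
  rcases le_or_gt τ (82 / 100) with h2 | h2
  · exact key (72 / 100) (82 / 100) (799 / 1000) (by decide +kernel) (by decide +kernel)
      (by push_cast; linarith) (by push_cast; linarith)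
  rcases le_or_gt τ (92 / 100) with h3 | h3
  · exact key (82 / 100) (92 / 100) (754 / 1000) (by decide +kernel) (by decide +kernel)
      (by push_cast; linarith) (by push_cast; linarith)
  rcases le_or_gt τ (102 / 100) with h4 | h4
  · exact key (92 / 100) (102 / 100) (706 / 1000) (by decide +kernel) (by decide +kernel)
      (by push_cast; linarith) (by push_cast; linarith)
  rcases le_or_gt τ (110 / 100) with h5 | h5
  · exact key (102 / 100) (110 / 100) (667 / 1000) (by decide +kernel) (by decide +kernel)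
      (by push_cast; linarith) (by push_cast; linarith)
  rcases le_or_gt τ (116 / 100) with h6 | h6
  · exact key (110 / 100) (116 / 100) (638 / 1000) (by decide +kernel) (by decide +kernel)
      (by push_cast; linarith) (by push_cast; linarith)
  rcases le_or_gt τ (122 / 100) with h7 | h7
  · exact key (116 / 100) (122 / 100) (608 / 1000) (by decide +kernel) (by decide +kernel)
      (by push_cast; linarith) (by push_cast; linarith)
  rcases le_or_gt τ (127 / 100) with h8 | h8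
  · exact key (122 / 100) (127 / 100) (584 / 1000) (by decide +kernel) (by decide +kernel)
      (by push_cast; linarith) (by push_cast; linarith)
  rcases le_or_gt τ (130 / 100) with h9 | h9
  · exact key (127 / 100) (130 / 100) (569 / 1000) (by decide +kernel) (by decide +kernel)
      (by push_cast; linarith) (by push_cast; linarith)
  rcases le_or_gt τ (132 / 100) with h10 | h10
  · exact key (130 / 100) (132 / 100) (559 / 1000) (by decide +kernel) (by decide +kernel)
      (by push_cast; linarith) (by push_cast; linarith)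
  rcases le_or_gt τ (134 / 100) with h11 | h11
  · exact key (132 / 100) (134 / 100) (549 / 1000) (by decide +kernel) (by decide +kernel)
      (by push_cast; linarith) (by push_cast; linarith)
  · exact key (134 / 100) (135 / 100) (544 / 1000) (by decide +kernel) (by decide +kernel)
      (by push_cast; linarith) (by push_cast; linarith)

theorem YK_sq2 {τ y : ℝ} (hτ : 62 / 100 ≤ τ) (hτ2 : τ ≤ 18 / 10) (hy0 : 0 < y) (hy1 : y < 1)
    (hK : ¬ Kap τ y) : y ^ 2 < 2 * qB τ := by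
  have key : ∀ t1 t2 Y : ℚ, CF.okY t1 t2 Y 4 = true → Y ^ 2 ≤ (2 : ℕ) * CF.emL (2 * t2 ^ 2 / 3) →
      (t1 : ℝ) ≤ τ → τ ≤ t2 → y ^ 2 < 2 * qB τ := by
    intro t1 t2 Y h1 h2 h3 h4
    have := YK_sq_block 2 h1 h2 h3 h4 hy0 hy1 hK
    simpa using this
  rcases le_or_gt τ (122 / 100) with h1 | h1
  · exact key (62 / 100) (122 / 100) (86 / 100) (by decide +kernel) (by decide +kernel)
      (by push_cast; linarith) (by push_cast; linarith)
  rcases le_or_gt τ (162 / 100) with h2 | h2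
  · exact key (122 / 100) (162 / 100) (589 / 1000) (by decide +kernel) (by decide +kernel)
      (by push_cast; linarith) (by push_cast; linarith)
  · exact key (162 / 100) (18 / 10) (48 / 100) (by decide +kernel) (by decide +kernel)
      (by push_cast; linarith) (by push_cast; linarith)

end GCube
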