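import Pool.Agent.Lib.H83.PMTab
import Pool.Agent.Lib.H83.PMCore
import Pool.Agent.Lib.H83.YK
import Pool.Agent.Lib.H83.UThree

/-!
Chunk PMS: soundness of the checker `okMid`, `okTwo` (`PMCheck.lean`).

* `EEL_le`: `EE r = r ∫_0^1 exp(-r²ξ²) dξ` and `nmS 0 w 0 60 = ∑_{i<60} (-w)^i/(i!(2i+1)) ≤ ∫_0^1 exp(-wξ²) dξ` (`ps_le_exp`, even number
  of terms; the same lemma as for `nmL` in `CFPrim`).
* `okV_sound`: for `τ ≥ t1`: `rX τ v ≥ rX t1 v` (`UThree_rX_max`, `EE` monotone), on `[v,w]`: `rX t1 ≥ rX t1 w ≥ rXL` (`UThree_rX_anti`).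
* `okU_sound`: for `v ≤ t1`: `v E(τ-v) ≤ v E(t1-v) ≤ w E(t1-w)` on `[u,w]`; for `v ≥ t1`: `v E ≤ v ≤ b2 v²` (`b2 t1 ≥ 1`).
* `okMid_pos`: `PM_core` with `z = (k+1)y²/2`, `y²τ² + 3k sg y² = 6 z sg + y²τ²(1 - 3 m2) ≤ 0.6724 (1 - 3 m2(t2)) + 6 z σ` (`sg = τ² m2`, `m2 ≤ 1/3`,
  `m2_anti`, `sg ≤ pSg` by `hn_anti`), `Nm τ 0 ≤ Nm t1 0 ≤ nmU 0 t1`, `z ≥ qB τ ≥ qB t2 ≥ pQ`, and the quadratic
  `Fmid` is concave in `z` and positive at both ends `pQ`, `0.32`.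
* `okTwo_pos`: `k = 1`, `z = y²`, `y²τ² + 3 sg y² = z(τ² + 3 sg)`, `y < Y` by `okY_lt`.
-/

open MeasureTheory Set
open scoped Real

namespace GCube

open CF

lemma PMSound_EE_eq (r : ℝ) : EE r = r * ∫ ξ in (0 : ℝ)..1, Real.exp (-(r ^ 2 * ξ ^ 2)) := by
  unfold EE
  have h := intervalIntegral.mul_integral_comp_mul_left (a := 0) (b := 1)
    (f := fun u : ℝ => Real.exp (-(u ^ 2))) (c := r)
  simp only [mul_zero, mul_one] at h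
  rw [← h]
  congr 2
  ext ξ
  congr 1
  ring

theorem EEL_le {r : ℚ} (hr : 0 ≤ r) : ((EEL r : ℚ) : ℝ) ≤ EE r := by
  have hr' : (0 : ℝ) ≤ (r : ℝ) := by exact_mod_cast hr
  unfold EEL
  refine le_trans (cpr_rd _) ?_
  push_cast
  rw [cpr_nm_int, PMSound_EE_eq]
  apply mul_le_mul_of_nonneg_left _ hr'
  have hc := cprEm_cont 60 0
  apply intervalIntegral.integral_mono_on zero_le_one
  · have hc2 : Continuous (fun ξ : ℝ => cprEm (((r ^ 2 : ℚ) : ℝ) * ξ ^ 2) 0 60) :=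
      hc.comp (by fun_prop : Continuous (fun ξ : ℝ => ((r ^ 2 : ℚ) : ℝ) * ξ ^ 2))
    exact (by fun_prop : Continuous fun ξ : ℝ => ξ ^ (2 * 0 + 0) *
      cprEm (((r ^ 2 : ℚ) : ℝ) * ξ ^ 2) 0 60).intervalIntegrable _ _
  · exact (by fun_prop : Continuous fun ξ : ℝ => Real.exp (-((r : ℝ) ^ 2 * ξ ^ 2))).intervalIntegrable _ _
  · intro ξ _
    have e : 2 * 0 + 0 = 0 := by omega
    rw [e, cpr_em_ps, pow_zero, one_mul]
    push_cast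
    exact AIneq.ps_le_exp (by decide) (by positivity)

lemma PMSound_rXL_le {t v : ℚ} (ht : 0 < t) (hv : 0 ≤ v) (hv2 : v ≤ 2 * t) :
    ((rXL t v : ℚ) : ℝ) ≤ rX t v := by
  have ht' : (0 : ℝ) < (t : ℝ) := by exact_mod_cast ht
  have hv' : (0 : ℝ) ≤ (v : ℝ) := by exact_mod_cast hv
  have hv2' : (v : ℝ) ≤ 2 * t := by exact_mod_cast hv2
  unfold rXL
  refine le_trans (cpr_rd _) ?_
  have h1 : ((emL (v ^ 2 / 4) : ℚ) : ℝ) ≤ Real.exp (-((v ^ 2 / 4 : ℚ) : ℝ)) := emL_le (by positivity)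
  have h2 : ((EEL (t - v / 2) : ℚ) : ℝ) ≤ EE ((t - v / 2 : ℚ) : ℝ) := EEL_le (by linarith)
  have h3 : rX t v = 2 * Real.exp (-((v : ℝ) ^ 2) / 4) * EE (t - v / 2) := by
    unfold rX
    rw [abs_of_nonneg hv', if_pos hv2']
  rw [h3]
  push_cast at h1 h2 ⊢
  have e1 : -((v : ℝ) ^ 2) / 4 = -((v : ℝ) ^ 2 / 4) := by ring
  rw [e1]
  have h4 : max 0 ((emL (v ^ 2 / 4) : ℚ) : ℝ) ≤ Real.exp (-((v : ℝ) ^ 2 / 4)) :=
    max_le (Real.exp_pos _).le h1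
  have h5 : 0 ≤ EE ((t : ℝ) - v / 2) := UThree_EE_nonneg (by linarith)
  calc 2 * max 0 ((emL (v ^ 2 / 4) : ℚ) : ℝ) * ((EEL (t - v / 2) : ℚ) : ℝ)
      ≤ 2 * max 0 ((emL (v ^ 2 / 4) : ℚ) : ℝ) * EE ((t : ℝ) - v / 2) :=
        mul_le_mul_of_nonneg_left h2 (by positivity)
    _ ≤ 2 * Real.exp (-((v : ℝ) ^ 2 / 4)) * EE ((t : ℝ) - v / 2) :=
        mul_le_mul_of_nonneg_right (by linarith) h5

lemma PMSound_rX_mono {t τ v : ℝ} (h : t ≤ τ) : rX t v ≤ rX τ v := by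
  rw [UThree_rX_max, UThree_rX_max]
  apply mul_le_mul_of_nonneg_left _ (by positivity)
  exact UThree_EE_mono (max_le_max (by linarith) le_rfl)

lemma PMSound_V (r : PRow) (ht1 : 0 < r.t1) (ha2 : 0 ≤ r.a2) (l : List ℕ) :
    ∀ (v0 : ℕ), okV r v0 l = true → ∀ v : ℝ, (v0 : ℝ) / 1000 ≤ v →
      (r.a0 : ℝ) - r.a2 * v ^ 2 ≤ rX r.t1 v := by
  have ha2' : (0 : ℝ) ≤ r.a2 := by exact_mod_cast ha2
  induction l with
  | nil =>
    intro v0 h v hv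
    simp only [okV, decide_eq_true_eq] at h
    have h' := (Rat.cast_le (K := ℝ)).mpr h
    push_cast at h'
    have h2 : ((v0 : ℝ) / 1000) ^ 2 ≤ v ^ 2 := pow_le_pow_left₀ (by positivity) hv 2
    have h3 := mul_le_mul_of_nonneg_left h2 ha2'
    have h4 := UThree_rX_nonneg r.t1 v
    linarith
  | cons w l ih =>
    intro v0 h v hv
    simp only [okV, Bool.and_eq_true, decide_eq_true_eq] at h
    obtain ⟨⟨⟨_, hw2⟩, hx⟩, hl⟩ := h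
    rcases le_total v ((w : ℝ) / 1000) with hvw | hvw
    · have h1 : ((rXL r.t1 ((w : ℚ) / 1000) : ℚ) : ℝ) ≤ rX r.t1 (((w : ℚ) / 1000 : ℚ) : ℝ) :=
        PMSound_rXL_le ht1 (by positivity) hw2
      have h2 := (Rat.cast_le (K := ℝ)).mpr hx
      push_cast at h2
      have h3 : ((v0 : ℝ) / 1000) ^ 2 ≤ v ^ 2 := pow_le_pow_left₀ (by positivity) hv 2
      have h4 := mul_le_mul_of_nonneg_left h3 ha2'
      have hv0 : 0 ≤ v := le_trans (by positivity) hv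
      have h5 : rX r.t1 (((w : ℚ) / 1000 : ℚ) : ℝ) ≤ rX r.t1 v := by
        apply UThree_rX_anti
        push_cast
        rw [abs_of_nonneg hv0, abs_of_nonneg (by positivity)]
        exact hvw
      linarith
    · exact ih w hl v hvw

theorem okV_sound {r : PRow} (h : okP r = true) {τ v : ℝ} (h1 : (r.t1 : ℝ) ≤ τ) (hv : 0 ≤ v) :
    (r.a0 : ℝ) - r.a2 * v ^ 2 ≤ rX τ v := by
  unfold okP at h
  simp only [Bool.and_eq_true, decide_eq_true_eq] at h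
  obtain ⟨⟨⟨⟨⟨⟨⟨⟨ht1, _⟩, _⟩, ha2⟩, _⟩, _⟩, _⟩, hV⟩, _⟩ := h
  have h2 := PMSound_V r ht1 ha2 r.vs 0 hV v (by simpa using hv)
  exact h2.trans (PMSound_rX_mono h1)

lemma PMSound_E_mono {x y : ℝ} (hx : 0 ≤ x) (h : x ≤ y) : E y ≤ E x := by
  unfold E
  rw [Real.exp_le_exp]
  nlinarith

lemma PMSound_U (r : PRow) (hb2 : 0 ≤ r.b2) (l : List ℕ) :
    ∀ (u0 : ℕ), okU r u0 l = true → ∀ v : ℝ, (u0 : ℝ) / 1000 ≤ v → v < r.t1 →
      v * E (r.t1 - v) ≤ r.b0 + r.b2 * v ^ 2 := by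
  have hb2' : (0 : ℝ) ≤ r.b2 := by exact_mod_cast hb2
  induction l with
  | nil =>
    intro u0 h v hv hv1
    simp only [okU, decide_eq_true_eq] at h
    have h' := (Rat.cast_le (K := ℝ)).mpr h
    push_cast at h'
    linarith
  | cons w l ih =>
    intro u0 h v hv hv1
    simp only [okU, Bool.and_eq_true, decide_eq_true_eq] at h
    obtain ⟨⟨⟨_, hw2⟩, hx⟩, hl⟩ := h
    rcases le_total v ((w : ℝ) / 1000) with hvw | hvw
    · have hw2' := (Rat.cast_le (K := ℝ)).mpr hw2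
      push_cast at hw2'
      have h1 : Real.exp (-(((r.t1 - (w : ℚ) / 1000) ^ 2 / 2 : ℚ) : ℝ)) ≤
          ((emU ((r.t1 - (w : ℚ) / 1000) ^ 2 / 2) : ℚ) : ℝ) := le_emU (by positivity)
      have h2 := (Rat.cast_le (K := ℝ)).mpr hx
      push_cast at h2
      have h3 : ((u0 : ℝ) / 1000) ^ 2 ≤ v ^ 2 := pow_le_pow_left₀ (by positivity) hv 2
      have h4 := mul_le_mul_of_nonneg_left h3 hb2'
      have hv0 : 0 ≤ v := le_trans (by positivity) hv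
      have h5 : E (r.t1 - v) ≤ E (r.t1 - (w : ℝ) / 1000) :=
        PMSound_E_mono (by linarith) (by linarith)
      have h6 : E (r.t1 - (w : ℝ) / 1000) ≤ ((emU ((r.t1 - (w : ℚ) / 1000) ^ 2 / 2) : ℚ) : ℝ) := by
        refine le_trans (le_of_eq ?_) h1
        unfold E
        congr 1
        push_cast
        ring
      have h7 : v * E (r.t1 - v) ≤ (w : ℝ) / 1000 * ((emU ((r.t1 - (w : ℚ) / 1000) ^ 2 / 2) : ℚ) : ℝ) :=
        mul_le_mul hvw (h5.trans h6) (E_pos _).le (by positivity)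
      linarith
    · exact ih w hl v hvw hv1

theorem okU_sound {r : PRow} (h : okP r = true) {τ v : ℝ} (h1 : (r.t1 : ℝ) ≤ τ) (hv : 0 ≤ v) :
    v * E (τ - v) ≤ r.b0 + r.b2 * v ^ 2 := by
  unfold okP at h
  simp only [Bool.and_eq_true, decide_eq_true_eq] at h
  obtain ⟨⟨⟨⟨⟨⟨⟨⟨ht1, _⟩, _⟩, _⟩, hb0⟩, hb2⟩, hbt⟩, _⟩, hU⟩ := h
  have hb0' : (0 : ℝ) ≤ r.b0 := by exact_mod_cast hb0
  have hb2' : (0 : ℝ) ≤ r.b2 := by exact_mod_cast hb2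
  have hbt' : (1 : ℝ) ≤ r.b2 * r.t1 := by exact_mod_cast hbt
  rcases lt_or_ge v (r.t1 : ℝ) with hv1 | hv1
  · have h2 := PMSound_U r hb2 r.us 0 hU v (by simpa using hv) hv1
    have h3 : E (τ - v) ≤ E (r.t1 - v) := PMSound_E_mono (by linarith) (by linarith)
    exact (mul_le_mul_of_nonneg_left h3 hv).trans h2
  · have h2 : E (τ - v) ≤ 1 := psi_E_le_one _
    have h3 : v * E (τ - v) ≤ v := by nlinarith
    have h4 : 1 ≤ r.b2 * v := hbt'.trans (mul_le_mul_of_nonneg_left hv1 hb2')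
    nlinarith

lemma PMSound_m2_le (τ : ℝ) (hτ : 0 ≤ τ) : m2 τ ≤ 1 / 3 := by
  refine (m2_anti le_rfl hτ).trans (le_of_eq ?_)
  unfold m2 Nm E
  simp
  norm_num

/-- bounds of the parameters of a row -/
lemma PMSound_par {r : PRow} (h : okP r = true) {τ : ℝ} (h1 : (r.t1 : ℝ) ≤ τ) (h2 : τ ≤ r.t2) :
    0 < τ ∧ sg τ ≤ pSg r ∧ (pM2 r : ℝ) ≤ m2 τ ∧ (pQ r : ℝ) ≤ qB τ ∧ Nm τ 0 ≤ (nmU 0 r.t1 : ℚ) ∧
      (0 : ℝ) ≤ r.a0 ∧ (0 : ℝ) ≤ r.a2 ∧ (0 : ℝ) ≤ r.b0 ∧ (0 : ℝ) ≤ r.b2 := by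
  unfold okP at h
  simp only [Bool.and_eq_true, decide_eq_true_eq] at h
  obtain ⟨⟨⟨⟨⟨⟨⟨⟨ht1, ht2⟩, ha0⟩, ha2⟩, hb0⟩, hb2⟩, _⟩, _⟩, _⟩ := h
  have ht1' : (0 : ℝ) < r.t1 := by exact_mod_cast ht1
  have hτ : 0 < τ := by linarith
  have ht2' : (0 : ℝ) < r.t2 := by linarith
  have ht2q : (0 : ℚ) ≤ r.t2 := by exact_mod_cast ht2'.le
  have hN : Nm r.t2 0 ≤ ((nmU 0 r.t2 : ℚ) : ℝ) := le_nmU 0 ht2q
  have hN0 : 0 < Nm r.t2 0 := Nm_pos _ _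
  have hNU : (0 : ℝ) < ((nmU 0 r.t2 : ℚ) : ℝ) := by linarith
  refine ⟨hτ, ?_, ?_, ?_, ?_, by exact_mod_cast ha0, by exact_mod_cast ha2, by exact_mod_cast hb0,
    by exact_mod_cast hb2⟩
  · unfold pSg
    refine le_trans ?_ (cpr_ru _)
    have h3 : hn r.t2 ≤ hn τ := hn_anti hτ.le h2
    have h4 : ((emL (r.t2 ^ 2 / 2) : ℚ) : ℝ) ≤ E r.t2 := by
      refine (emL_le (by positivity)).trans (le_of_eq ?_)
      unfold E
      congr 1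
      push_cast
      ring
    have h5 : ((emL (r.t2 ^ 2 / 2) : ℚ) : ℝ) / ((nmU 0 r.t2 : ℚ) : ℝ) ≤ hn r.t2 := by
      unfold hn
      calc ((emL (r.t2 ^ 2 / 2) : ℚ) : ℝ) / ((nmU 0 r.t2 : ℚ) : ℝ) ≤ E r.t2 / ((nmU 0 r.t2 : ℚ) : ℝ) :=
            div_le_div_of_nonneg_right h4 hNU.le
        _ ≤ E r.t2 / Nm r.t2 0 := div_le_div_of_nonneg_left (E_pos _).le hN0 hN
    unfold sg
    push_cast
    linarith
  · unfold pM2
    refine (cpr_rd _).trans ?_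
    refine le_trans ?_ (m2_anti hτ.le h2)
    unfold m2
    push_cast
    calc ((nmL 2 r.t2 : ℚ) : ℝ) / ((nmU 0 r.t2 : ℚ) : ℝ) ≤ Nm r.t2 2 / ((nmU 0 r.t2 : ℚ) : ℝ) :=
            div_le_div_of_nonneg_right (nmL_le 2 ht2q) hNU.le
        _ ≤ Nm r.t2 2 / Nm r.t2 0 := div_le_div_of_nonneg_left (Nm_pos _ _).le hN0 hN
  · unfold pQ
    refine (emL_le (by positivity)).trans ?_
    refine le_trans (le_of_eq ?_) (YK_qB_anti hτ.le h2)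
    unfold qB
    congr 1
    push_cast
    ring
  · exact (Nm_anti ht1'.le h1).trans (le_nmU 0 ht1.le)

/-- a concave quadratic -/
lemma PMSound_concave {A B C z p q : ℝ} (hB : 0 ≤ B) (hpz : p ≤ z) (hzq : z ≤ q)
    (hp : 0 < A * p - B * p ^ 2 - C) (hq : 0 < A * q - B * q ^ 2 - C) :
    0 < A * z - B * z ^ 2 - C := by
  rcases hpz.eq_or_lt with rfl | hpz'
  · exact hp
  · have hpq : 0 < q - p := by linarith
    have h1 : (q - p) * (A * z - B * z ^ 2 - C) = (q - z) * (A * p - B * p ^ 2 - C) +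
        (z - p) * (A * q - B * q ^ 2 - C) + B * ((z - p) * (q - z) * (q - p)) := by ring
    have h2 : 0 < (q - p) * (A * z - B * z ^ 2 - C) := by
      rw [h1]
      have h3 : 0 ≤ (q - z) * (A * p - B * p ^ 2 - C) := mul_nonneg (by linarith) hp.le
      have h4 : 0 < (z - p) * (A * q - B * q ^ 2 - C) := mul_pos (by linarith) hq
      have h5 : 0 ≤ B * ((z - p) * (q - z) * (q - p)) :=
        mul_nonneg hB (mul_nonneg (mul_nonneg (by linarith) (by linarith)) (by linarith))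
      linarith
    exact pos_of_mul_pos_right h2 hpq.le

theorem okMid_pos {r : PRow} (h : okMid r = true) {τ y : ℝ} {k : ℕ} (h1 : (r.t1 : ℝ) ≤ τ)
    (h2 : τ ≤ r.t2) (hy0 : 0 < y) (hy1 : y < 1) (hyt : y * τ ≤ 82 / 100) (hq : qB τ ≤ (k + 1) * y ^ 2 / 2)
    (hz : (k + 1) * y ^ 2 / 2 ≤ 32 / 100) : 0 < D τ y (1 :: List.replicate k y) := by
  unfold okMid at h
  simp only [Bool.and_eq_true, decide_eq_true_eq] at h
  obtain ⟨⟨⟨hP, _⟩, hF1⟩, hF2⟩ := h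
  obtain ⟨hτ, hsg, hm2, hQ, hN, ha0, ha2, hb0, hb2⟩ := PMSound_par hP h1 h2
  apply PM_core hτ hy0 (a0 := r.a0) (a2 := r.a2) (b0 := r.b0) (b2 := r.b2)
    (fun v hv => okV_sound hP h1 hv) hb0 hb2 (fun v hv _ => okU_sound hP h1 hv)
  obtain ⟨z, hzdef⟩ : ∃ z : ℝ, z = (k + 1) * y ^ 2 / 2 := ⟨_, rfl⟩
  have hz1 : (pQ r : ℝ) ≤ z := by rw [hzdef]; linarith
  have hz2 : z ≤ 32 / 100 := by rw [hzdef]; exact hz
  have hz0 : 0 < z := by rw [hzdef]; positivity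
  have hs0 : 0 < sg τ := sg_pos hτ
  have hsp : (0 : ℝ) ≤ pSg r := by linarith
  -- the checker
  have hF1' : (0 : ℝ) < pQ r * (r.a0 - r.a2 * (6724 / 10000 * (1 - 3 * pM2 r) + 6 * pQ r * pSg r)) -
      (nmU 0 r.t1 : ℚ) * (r.b0 + 2 * r.b2 * pQ r * pSg r) := by
    unfold Fmid at hF1
    have h := (Rat.cast_lt (K := ℝ)).mpr hF1
    push_cast at h
    exact h
  have hF2' : (0 : ℝ) < 32 / 100 * (r.a0 - r.a2 * (6724 / 10000 * (1 - 3 * pM2 r) +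
      6 * (32 / 100) * pSg r)) - (nmU 0 r.t1 : ℚ) * (r.b0 + 2 * r.b2 * (32 / 100) * pSg r) := by
    unfold Fmid at hF2
    have h := (Rat.cast_lt (K := ℝ)).mpr hF2
    push_cast at h
    exact h
  have hF := PMSound_concave (A := (r.a0 : ℝ) - r.a2 * (6724 / 10000 * (1 - 3 * pM2 r)) -
      (nmU 0 r.t1 : ℚ) * (2 * r.b2 * pSg r)) (B := (r.a2 : ℝ) * (6 * pSg r))
      (C := ((nmU 0 r.t1 : ℚ) : ℝ) * r.b0) (z := z) (p := pQ r) (q := 32 / 100) (by positivity) hz1 hz2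
      (by linarith) (by linarith)
  -- left side
  have hNU : (0 : ℝ) ≤ ((nmU 0 r.t1 : ℚ) : ℝ) := (Nm_pos τ 0).le.trans hN
  have e1 : ((k : ℝ) + 1) * sg τ * y ^ 2 = 2 * z * sg τ := by rw [hzdef]; ring
  have hL : Nm τ 0 * (r.b0 + r.b2 * ((k + 1) * sg τ * y ^ 2)) ≤
      (nmU 0 r.t1 : ℚ) * (r.b0 + 2 * r.b2 * z * pSg r) := by
    rw [e1]
    apply mul_le_mul hN _ (by positivity) hNU
    have := mul_le_mul_of_nonneg_left hsg (show (0 : ℝ) ≤ 2 * r.b2 * z by positivity)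
    linarith
  -- right side
  have e2 : y ^ 2 * τ ^ 2 + 3 * k * sg τ * y ^ 2 = y ^ 2 * τ ^ 2 * (1 - 3 * m2 τ) + 6 * z * sg τ := by
    rw [hzdef, sg_eq]
    ring
  have h3 : y ^ 2 * τ ^ 2 ≤ 6724 / 10000 := by
    have : 0 < y * τ := mul_pos hy0 hτ
    nlinarith
  have h4 : 0 ≤ 1 - 3 * m2 τ := by
    have := PMSound_m2_le τ hτ.le
    linarith
  have h5 : y ^ 2 * τ ^ 2 * (1 - 3 * m2 τ) ≤ 6724 / 10000 * (1 - 3 * pM2 r) :=
    calc y ^ 2 * τ ^ 2 * (1 - 3 * m2 τ) ≤ 6724 / 10000 * (1 - 3 * m2 τ) :=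
          mul_le_mul_of_nonneg_right h3 h4
      _ ≤ _ := by linarith
  have h6 : 6 * z * sg τ ≤ 6 * z * pSg r := mul_le_mul_of_nonneg_left hsg (by positivity)
  have h7 : z * (r.a0 - r.a2 * (6724 / 10000 * (1 - 3 * pM2 r) + 6 * z * pSg r)) ≤
      (k + 1) * y ^ 2 / 2 * (r.a0 - r.a2 * (y ^ 2 * τ ^ 2 + 3 * k * sg τ * y ^ 2)) := by
    rw [← hzdef, e2]
    apply mul_le_mul_of_nonneg_left _ hz0.le
    have := mul_le_mul_of_nonneg_left (add_le_add h5 h6) ha2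
    linarith
  linarith

theorem okTwo_pos {r : PRow} {Y : ℚ} {n : ℕ} (h : okTwo r Y n = true) {τ y : ℝ} (h1 : (r.t1 : ℝ) ≤ τ)
    (h2 : τ ≤ r.t2) (hy0 : 0 < y) (hy1 : y < 1) (hK : ¬ Kap τ y) (hq : qB τ ≤ y ^ 2) :
    0 < D τ y (1 :: List.replicate 1 y) := by
  unfold okTwo at h
  simp only [Bool.and_eq_true, decide_eq_true_eq] at h
  obtain ⟨⟨⟨hP, hY⟩, hF1⟩, hF2⟩ := h
  obtain ⟨hτ, hsg, _, hQ, hN, ha0, ha2, hb0, hb2⟩ := PMSound_par hP h1 h2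
  have hyY : y < Y := okY_lt hY h1 h2 hy1 hK
  apply PM_core hτ hy0 (a0 := r.a0) (a2 := r.a2) (b0 := r.b0) (b2 := r.b2)
    (fun v hv => okV_sound hP h1 hv) hb0 hb2 (fun v hv _ => okU_sound hP h1 hv)
  obtain ⟨z, hzdef⟩ : ∃ z : ℝ, z = y ^ 2 := ⟨_, rfl⟩
  have hz1 : (pQ r : ℝ) ≤ z := by rw [hzdef]; linarith
  have hz2 : z ≤ (Y : ℝ) ^ 2 := by rw [hzdef]; exact pow_le_pow_left₀ hy0.le hyY.le 2
  have hz0 : 0 < z := by rw [hzdef]; positivity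
  have hs0 : 0 < sg τ := sg_pos hτ
  have hsp : (0 : ℝ) ≤ pSg r := by linarith
  have hF1' : (0 : ℝ) < pQ r * (r.a0 - r.a2 * pQ r * (r.t2 ^ 2 + 3 * pSg r)) -
      (nmU 0 r.t1 : ℚ) * (r.b0 + 2 * r.b2 * pQ r * pSg r) := by
    unfold Ftwo at hF1
    exact_mod_cast hF1
  have hF2' : (0 : ℝ) < Y ^ 2 * (r.a0 - r.a2 * Y ^ 2 * (r.t2 ^ 2 + 3 * pSg r)) -
      (nmU 0 r.t1 : ℚ) * (r.b0 + 2 * r.b2 * Y ^ 2 * pSg r) := by
    unfold Ftwo at hF2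
    exact_mod_cast hF2
  have hF := PMSound_concave (A := (r.a0 : ℝ) - (nmU 0 r.t1 : ℚ) * (2 * r.b2 * pSg r))
      (B := (r.a2 : ℝ) * (r.t2 ^ 2 + 3 * pSg r))
      (C := ((nmU 0 r.t1 : ℚ) : ℝ) * r.b0) (z := z) (p := pQ r) (q := (Y : ℝ) ^ 2) (by positivity) hz1 hz2
      (by linarith) (by linarith)
  have hNU : (0 : ℝ) ≤ ((nmU 0 r.t1 : ℚ) : ℝ) := (Nm_pos τ 0).le.trans hN
  push_cast
  have e1 : ((1 : ℝ) + 1) * sg τ * y ^ 2 = 2 * z * sg τ := by rw [hzdef]; ring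
  have hL : Nm τ 0 * (r.b0 + r.b2 * ((1 + 1) * sg τ * y ^ 2)) ≤
      (nmU 0 r.t1 : ℚ) * (r.b0 + 2 * r.b2 * z * pSg r) := by
    rw [e1]
    apply mul_le_mul hN _ (by positivity) hNU
    have := mul_le_mul_of_nonneg_left hsg (show (0 : ℝ) ≤ 2 * r.b2 * z by positivity)
    linarith
  have h3 : τ ^ 2 ≤ (r.t2 : ℝ) ^ 2 := pow_le_pow_left₀ hτ.le h2 2
  have h7 : z * (r.a0 - r.a2 * z * (r.t2 ^ 2 + 3 * pSg r)) ≤
      (1 + 1) * y ^ 2 / 2 * (r.a0 - r.a2 * (y ^ 2 * τ ^ 2 + 3 * 1 * sg τ * y ^ 2)) := by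
    have e3 : (1 + 1) * y ^ 2 / 2 * (r.a0 - r.a2 * (y ^ 2 * τ ^ 2 + 3 * 1 * sg τ * y ^ 2)) =
        z * (r.a0 - r.a2 * z * (τ ^ 2 + 3 * sg τ)) := by
      rw [hzdef]
      ring
    rw [e3]
    apply mul_le_mul_of_nonneg_left _ hz0.le
    have := mul_le_mul_of_nonneg_left (show τ ^ 2 + 3 * sg τ ≤ (r.t2 : ℝ) ^ 2 + 3 * pSg r by linarith)
      (show (0 : ℝ) ≤ r.a2 * z by positivity)
    linarith
  linarith

end GCube
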