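import Pool.Agent.Lib.H83.PMCore
import Pool.Agent.Lib.H83.PMSound

/-!
Chunk PMB: the criterion for `τ ≥ 3`.

`PM_core` with `a0 = 1.7`, `a2 = 0.45`, `b0 = 0.15 qB τ`, `b2 = 1.3/τ`, `z = (k+1)y²/2`:
* `rX τ v ≥ 1.7 - 0.45 v²` for `τ ≥ 3`, `v ≥ 0`: monotone in `τ`; at `τ = 3` for `v ≤ 1.944` use `rX = 2 e^{-v²/4} EE(3 - v/2) ≥ 2 (1 - v²/4) EE(2.02)`,
  `EE(2.02) ≥ 0.8824`, for `v²/4 ≤ 1`: `1.7648 (1 - v²/4) ≥ 1.7 - 0.45v²`; for larger `v` the right side is `≤ 0`.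
* `v E(τ-v) ≤ 1.3 v²/τ` if `θ = v/τ ≥ 0.065`: `E(τ-v) ≤ exp(-4.5(1-θ)²) ≤ 1.3 θ` on `[.065,.2], [.2,.4], [.4,.6], [.6,.7], [.7,.77], [.77,∞)`:
  values `.0561 ≤ .0845`, `.198 ≤ .26`, `.487 ≤ .52`, `.667 ≤ .78`, `.788 ≤ .91`, `1 ≤ 1.001`. If `θ ≤ 0.065`: `E(τ-v) ≤ ε = exp(-0.437 τ²)`
  (`0.935²/2 = 0.43711`), `v ε - 1.3 v²/τ ≤ ε² τ/5.2 ≤ 0.15 qB τ`, i.e. `τ exp(-0.2073 τ²) ≤ 0.78` (at `τ = 3`: `0.465`; decreasing).
* `y²τ² + 3k sg y² = 6 z sg + y²τ²(1 - 3m2) ≤ 6z + 0.6724` (`sg ≤ 1`, `sg = τ² m2`), `Nm τ 0 = G τ/τ ≤ √(π/2)/τ ≤ 1.2534/τ`, `qB ≤ z`: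
  it is enough that `(1.2534/τ)(0.15 + 2.6/τ) < 1.7 - 0.45(0.6724 + 6z)`; `τ ≥ 3`, `z ≤ 0.32`: `0.4248 < 0.533`;
  `τ ≥ 3.6`, `z ≤ 0.4`: `0.3037 < 0.3174`.
-/

open MeasureTheory Set
open scoped Real

namespace GCube

open CF

lemma PMBig_EE : (88 / 100 : ℝ) ≤ EE (202 / 100) := by
  have h1 := EEL_le (r := 202 / 100) (by norm_num)
  have h2 : (88 / 100 : ℚ) ≤ EEL (202 / 100) := by decide +kernel
  have h3 := (Rat.cast_le (K := ℝ)).mpr h2
  push_cast at h1 h3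
  linarith

lemma PMBig_rX {τ v : ℝ} (hτ : 3 ≤ τ) (hv : 0 ≤ v) : 17 / 10 - 45 / 100 * v ^ 2 ≤ rX τ v := by
  refine le_trans ?_ (PMSound_rX_mono hτ)
  rcases le_or_gt (196 / 100) v with h | h
  · have h1 := UThree_rX_nonneg 3 v
    nlinarith
  · have h1 : rX 3 v = 2 * Real.exp (-(v ^ 2) / 4) * EE (3 - v / 2) := by
      unfold rX
      rw [abs_of_nonneg hv, if_pos (by linarith)]
    rw [h1]
    have h2 : EE (202 / 100) ≤ EE (3 - v / 2) := UThree_EE_mono (by linarith)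
    have h3 := PMBig_EE
    have h4 : 1 - v ^ 2 / 4 ≤ Real.exp (-(v ^ 2) / 4) := by
      have := Real.add_one_le_exp (-(v ^ 2) / 4)
      linarith
    have h5 : 0 ≤ 1 - v ^ 2 / 4 := by nlinarith
    have h6 : 2 * (1 - v ^ 2 / 4) * (88 / 100) ≤ 2 * Real.exp (-(v ^ 2) / 4) * EE (3 - v / 2) :=
      mul_le_mul (by linarith) (by linarith) (by norm_num) (by positivity)
    nlinarith

lemma PMBig_exp {x c : ℚ} (hx : 0 ≤ x) (h : emU x ≤ c) : Real.exp (-(x : ℝ)) ≤ c :=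
  (le_emU hx).trans ((Rat.cast_le (K := ℝ)).mpr h)

lemma PMBig_step {τ v : ℝ} (hτ : 3 ≤ τ) (hv : 0 ≤ v) {a b : ℚ} (hb0 : b ≤ 1)
    (h : emU (9 / 2 * (1 - b) ^ 2) ≤ 13 / 10 * a) (h1 : (a : ℝ) * τ ≤ v) (h2 : v ≤ b * τ) :
    v * E (τ - v) ≤ 13 / 10 / τ * v ^ 2 := by
  have hτ0 : 0 < τ := by linarith
  have hb0' : (b : ℝ) ≤ 1 := by exact_mod_cast hb0
  have h3 := PMBig_exp (x := 9 / 2 * (1 - b) ^ 2) (by positivity) h
  push_cast at h3
  have h4 : E (τ - v) ≤ Real.exp (-(9 / 2 * (1 - (b : ℝ)) ^ 2)) := by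
    unfold E
    rw [Real.exp_le_exp]
    have h5 : (1 - (b : ℝ)) * 3 ≤ τ - v := by
      have : (1 - (b : ℝ)) * 3 ≤ (1 - (b : ℝ)) * τ := mul_le_mul_of_nonneg_left hτ (by linarith)
      nlinarith
    have h6 : ((1 - (b : ℝ)) * 3) ^ 2 ≤ (τ - v) ^ 2 := pow_le_pow_left₀ (by nlinarith) h5 2
    nlinarith
  have h5 : E (τ - v) ≤ 13 / 10 * (v / τ) := by
    have : (a : ℝ) ≤ v / τ := by rw [le_div_iff₀ hτ0]; exact h1
    linarith
  calc v * E (τ - v) ≤ v * (13 / 10 * (v / τ)) := mul_le_mul_of_nonneg_left h5 hv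
    _ = 13 / 10 / τ * v ^ 2 := by field_simp

lemma PMBig_small {τ v : ℝ} (hτ : 3 ≤ τ) (h2 : v ≤ 65 / 1000 * τ) (hv : 0 ≤ v) :
    v * E (τ - v) ≤ 15 / 100 * qB τ + 13 / 10 / τ * v ^ 2 := by
  have hτ0 : 0 < τ := by linarith
  obtain ⟨ε, hε⟩ : ∃ ε : ℝ, ε = Real.exp (-(437 / 1000 * τ ^ 2)) := ⟨_, rfl⟩
  have hε0 : 0 < ε := by rw [hε]; exact Real.exp_pos _
  have h3 : E (τ - v) ≤ ε := by
    rw [hε]
    unfold E
    rw [Real.exp_le_exp]
    have h4 : (935 / 1000 * τ) ^ 2 ≤ (τ - v) ^ 2 := pow_le_pow_left₀ (by positivity) (by linarith) 2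
    nlinarith
  have h4 : v * E (τ - v) ≤ v * ε := mul_le_mul_of_nonneg_left h3 hv
  -- v ε ≤ 1.3 v²/τ + ε² τ / 5.2
  have h5 : v * ε ≤ 13 / 10 / τ * v ^ 2 + ε ^ 2 * τ / (52 / 10) := by
    have h6 : 0 ≤ 13 / 10 / τ * (v - ε * τ / (26 / 10)) ^ 2 := by positivity
    have h7 : 13 / 10 / τ * (v - ε * τ / (26 / 10)) ^ 2 =
        13 / 10 / τ * v ^ 2 - v * ε + ε ^ 2 * τ / (52 / 10) := by
      field_simp
      ring
    linarith
  have h6 : ε ^ 2 * τ / (52 / 10) ≤ 15 / 100 * qB τ := by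
    have h7 : ε ^ 2 = Real.exp (-(874 / 1000 * τ ^ 2)) := by
      rw [hε, ← Real.exp_nat_mul]
      congr 1
      push_cast
      ring
    have h8 : Real.exp (-(874 / 1000 * τ ^ 2)) * Real.exp (2073 / 10000 * τ ^ 2) ≤ qB τ := by
      rw [← Real.exp_add]
      unfold qB
      rw [Real.exp_le_exp]
      nlinarith [sq_nonneg τ]
    have h9 : τ ≤ 78 / 100 * Real.exp (2073 / 10000 * τ ^ 2) := by
      have h10 := Real.quadratic_le_exp_of_nonneg (x := 2073 / 10000 * τ ^ 2) (by positivity)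
      have h11 : 6219 / 10000 * τ ≤ 2073 / 10000 * τ ^ 2 := by nlinarith
      have h12 : (6219 / 10000 * τ) ^ 2 ≤ (2073 / 10000 * τ ^ 2) ^ 2 :=
        pow_le_pow_left₀ (by positivity) h11 2
      nlinarith [sq_nonneg (τ - 1707 / 1000)]
    have h10 : 0 < Real.exp (-(874 / 1000 * τ ^ 2)) := Real.exp_pos _
    rw [h7]
    have h11 : Real.exp (-(874 / 1000 * τ ^ 2)) * τ ≤ Real.exp (-(874 / 1000 * τ ^ 2)) *
        (78 / 100 * Real.exp (2073 / 10000 * τ ^ 2)) := mul_le_mul_of_nonneg_left h9 h10.le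
    linarith
  linarith

lemma PMBig_U {τ v : ℝ} (hτ : 3 ≤ τ) (hv : 0 ≤ v) :
    v * E (τ - v) ≤ 15 / 100 * qB τ + 13 / 10 / τ * v ^ 2 := by
  have hτ0 : 0 < τ := by linarith
  have hq : 0 < qB τ := Real.exp_pos _
  rcases le_or_gt v (65 / 1000 * τ) with h1 | h1
  · exact PMBig_small hτ h1 hv
  suffices h : v * E (τ - v) ≤ 13 / 10 / τ * v ^ 2 by linarith
  rcases le_or_gt v (2 / 10 * τ) with h2 | h2
  · exact PMBig_step hτ hv (a := 65 / 1000) (b := 2 / 10) (by norm_num) (by decide +kernel)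
      (by push_cast; linarith) (by push_cast; linarith)
  rcases le_or_gt v (4 / 10 * τ) with h3 | h3
  · exact PMBig_step hτ hv (a := 2 / 10) (b := 4 / 10) (by norm_num) (by decide +kernel)
      (by push_cast; linarith) (by push_cast; linarith)
  rcases le_or_gt v (6 / 10 * τ) with h4 | h4
  · exact PMBig_step hτ hv (a := 4 / 10) (b := 6 / 10) (by norm_num) (by decide +kernel)
      (by push_cast; linarith) (by push_cast; linarith)
  rcases le_or_gt v (7 / 10 * τ) with h5 | h5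
  · exact PMBig_step hτ hv (a := 6 / 10) (b := 7 / 10) (by norm_num) (by decide +kernel)
      (by push_cast; linarith) (by push_cast; linarith)
  rcases le_or_gt v (77 / 100 * τ) with h6 | h6
  · exact PMBig_step hτ hv (a := 7 / 10) (b := 77 / 100) (by norm_num) (by decide +kernel)
      (by push_cast; linarith) (by push_cast; linarith)
  have h7 : E (τ - v) ≤ 13 / 10 * (v / τ) := by
    have h8 := psi_E_le_one (τ - v)
    have h9 : 77 / 100 ≤ v / τ := by rw [le_div_iff₀ hτ0]; exact h6.le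
    linarith
  calc v * E (τ - v) ≤ v * (13 / 10 * (v / τ)) := mul_le_mul_of_nonneg_left h7 hv
    _ = 13 / 10 / τ * v ^ 2 := by field_simp

lemma PMBig_G {τ : ℝ} (hτ : 0 ≤ τ) : G τ ≤ 12534 / 10000 := by
  have h1 := integral_gaussian_Ioi (1 / 2)
  have h2 : G τ ≤ ∫ x in Ioi (0 : ℝ), Real.exp (-(1 / 2) * x ^ 2) := by
    unfold G
    rw [intervalIntegral.integral_of_le hτ]
    have e1 : ∀ x, E x = Real.exp (-(1 / 2) * x ^ 2) := by
      intro x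
      unfold E
      congr 1
      ring
    simp only [e1]
    apply setIntegral_mono_set
    · exact (integrable_exp_neg_mul_sq (by norm_num)).integrableOn
    · exact Filter.Eventually.of_forall fun x => (Real.exp_pos _).le
    · exact (Ioc_subset_Ioi_self).eventuallyLE
  rw [h1] at h2
  have h3 : Real.sqrt (π / (1 / 2)) ≤ 25068 / 10000 := by
    rw [Real.sqrt_le_left (by norm_num)]
    have := Real.pi_lt_d4
    norm_num
    linarith
  linarith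

lemma PMBig_Nm {τ : ℝ} (hτ : 0 < τ) : Nm τ 0 ≤ 12534 / 10000 / τ := by
  rw [le_div_iff₀ hτ, mul_comm, ← YK_G_eq]
  exact PMBig_G hτ.le

theorem PM_big {τ y : ℝ} {k : ℕ} (hτ : 3 ≤ τ) (hy0 : 0 < y) (hyt : y * τ ≤ 82 / 100)
    (hq : qB τ ≤ (k + 1) * y ^ 2 / 2)
    (hz : (k + 1) * y ^ 2 / 2 ≤ 32 / 100 ∨ (36 / 10 ≤ τ ∧ (k + 1) * y ^ 2 / 2 ≤ 4 / 10)) :
    0 < D τ y (1 :: List.replicate k y) := by
  have hτ0 : 0 < τ := by linarith
  have hqp : 0 < qB τ := Real.exp_pos _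
  apply PM_core hτ0 hy0 (a0 := 17 / 10) (a2 := 45 / 100) (b0 := 15 / 100 * qB τ) (b2 := 13 / 10 / τ)
    (fun v hv => PMBig_rX hτ hv) (by positivity) (by positivity) (fun v hv _ => PMBig_U hτ hv)
  obtain ⟨z, hzdef⟩ : ∃ z : ℝ, z = (k + 1) * y ^ 2 / 2 := ⟨_, rfl⟩
  rw [← hzdef] at hq hz ⊢
  have hz0 : 0 < z := by linarith
  have hs0 : 0 < sg τ := sg_pos hτ0
  have hs1 : sg τ ≤ 1 := by
    unfold sg
    have := hn_pos τ
    linarith
  have e1 : ((k : ℝ) + 1) * sg τ * y ^ 2 = 2 * z * sg τ := by rw [hzdef]; ring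
  have e2 : y ^ 2 * τ ^ 2 + 3 * k * sg τ * y ^ 2 = y ^ 2 * τ ^ 2 * (1 - 3 * m2 τ) + 6 * z * sg τ := by
    rw [hzdef, sg_eq]
    ring
  rw [e1, e2]
  have hN := PMBig_Nm hτ0
  have hN0 := Nm_pos τ 0
  have h3 : y ^ 2 * τ ^ 2 ≤ 6724 / 10000 := by
    have : 0 < y * τ := mul_pos hy0 hτ0
    nlinarith
  have h4 : y ^ 2 * τ ^ 2 * (1 - 3 * m2 τ) ≤ 6724 / 10000 := by
    have h5 := m2_pos τ
    have h6 : 0 ≤ y ^ 2 * τ ^ 2 := by positivity
    nlinarith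
  have h5 : 6 * z * sg τ ≤ 6 * z := by nlinarith
  have h6 : z * (17 / 10 - 45 / 100 * (6724 / 10000 + 6 * z)) ≤
      z * (17 / 10 - 45 / 100 * (y ^ 2 * τ ^ 2 * (1 - 3 * m2 τ) + 6 * z * sg τ)) :=
    mul_le_mul_of_nonneg_left (by linarith) hz0.le
  have h7 : 15 / 100 * qB τ + 13 / 10 / τ * (2 * z * sg τ) ≤ z * (15 / 100 + 26 / 10 / τ) := by
    have h8 : 13 / 10 / τ * (2 * z * sg τ) ≤ 13 / 10 / τ * (2 * z) :=
      mul_le_mul_of_nonneg_left (by nlinarith) (by positivity)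
    have h9 : z * (15 / 100 + 26 / 10 / τ) = 15 / 100 * z + 13 / 10 / τ * (2 * z) := by ring
    linarith
  have h8 : Nm τ 0 * (15 / 100 * qB τ + 13 / 10 / τ * (2 * z * sg τ)) ≤
      12534 / 10000 / τ * (z * (15 / 100 + 26 / 10 / τ)) :=
    mul_le_mul hN h7 (by positivity) (by positivity)
  have h9 : 12534 / 10000 / τ * (15 / 100 + 26 / 10 / τ) < 17 / 10 - 45 / 100 * (6724 / 10000 + 6 * z) := by
    rcases hz with hz | ⟨hτ2, hz⟩
    · have a1 : 12534 / 10000 / τ ≤ 12534 / 10000 / 3 :=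
        div_le_div_of_nonneg_left (by norm_num) (by norm_num) hτ
      have a2 : 26 / 10 / τ ≤ 26 / 10 / 3 :=
        div_le_div_of_nonneg_left (by norm_num) (by norm_num) hτ
      have a3 : 12534 / 10000 / τ * (15 / 100 + 26 / 10 / τ) ≤
          12534 / 10000 / 3 * (15 / 100 + 26 / 10 / 3) :=
        mul_le_mul a1 (by linarith) (by positivity) (by norm_num)
      have a4 : (12534 / 10000 / 3 * (15 / 100 + 26 / 10 / 3) : ℝ) ≤ 43 / 100 := by norm_num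
      linarith
    · have a1 : 12534 / 10000 / τ ≤ 12534 / 10000 / (36 / 10) :=
        div_le_div_of_nonneg_left (by norm_num) (by norm_num) hτ2
      have a2 : 26 / 10 / τ ≤ 26 / 10 / (36 / 10) :=
        div_le_div_of_nonneg_left (by norm_num) (by norm_num) hτ2
      have a3 : 12534 / 10000 / τ * (15 / 100 + 26 / 10 / τ) ≤
          12534 / 10000 / (36 / 10) * (15 / 100 + 26 / 10 / (36 / 10)) :=
        mul_le_mul a1 (by linarith) (by positivity) (by norm_num)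
      have a4 : (12534 / 10000 / (36 / 10) * (15 / 100 + 26 / 10 / (36 / 10)) : ℝ) ≤ 304 / 1000 := by
        norm_num
      linarith
  have h10 := mul_lt_mul_of_pos_left h9 hz0
  have h11 : 12534 / 10000 / τ * (z * (15 / 100 + 26 / 10 / τ)) =
      z * (12534 / 10000 / τ * (15 / 100 + 26 / 10 / τ)) := by ring
  linarith

end GCube
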