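import Pool.Agent.Lib.H83.PMTab

/-!
Rows of the `PM` tables (kernel computations).
-/

set_option maxRecDepth 100000

namespace GCube

namespace CF

theorem pTwo0_ok : okTwo pTwo0 (538/1000) 8 = true := by decide +kernel
theorem pTwo1_ok : okTwo pTwo1 (532/1000) 8 = true := by decide +kernel

end CF

end GCube
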