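import Pool.Agent.Lib.H83.CFBlock
import Pool.Agent.Lib.H83.PMSound
import Pool.Agent.Lib.H83.PMBig
import Pool.Agent.Lib.H83.LA
import Pool.Agent.Lib.H83.CFRow1_0
import Pool.Agent.Lib.H83.CFRow1_1
import Pool.Agent.Lib.H83.CFRow1_2
import Pool.Agent.Lib.H83.CFRow1_3
import Pool.Agent.Lib.H83.CFRow1_4
import Pool.Agent.Lib.H83.CFRow1_5
import Pool.Agent.Lib.H83.CFRow1_6
import Pool.Agent.Lib.H83.CFRow1_7
import Pool.Agent.Lib.H83.CFRow1_8
import Pool.Agent.Lib.H83.CFRow1_9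
import Pool.Agent.Lib.H83.CFRow1_10
import Pool.Agent.Lib.H83.CFRow2_0
import Pool.Agent.Lib.H83.CFRow2_1
import Pool.Agent.Lib.H83.CFRow2_2
import Pool.Agent.Lib.H83.CFRow2_3
import Pool.Agent.Lib.H83.CFRow2_4
import Pool.Agent.Lib.H83.PMRow1
import Pool.Agent.Lib.H83.PMRow2
import Pool.Agent.Lib.H83.PMRow3
import Pool.Agent.Lib.H83.PMRow4
import Pool.Agent.Lib.H83.PMRow5
import Pool.Agent.Lib.H83.PMRow6
import Pool.Agent.Lib.H83.PMRow7

/-!
Chunk DAL (helper83): `D τ y (1 :: y^k) > 0` for `¬ Kap τ y`, `(k+1) y² ≥ 2 q_B(τ)`, `τ ≥ 0.62`.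
-/

open MeasureTheory Set
open scoped Real

namespace GCube

open CF

theorem DAll_row1 {r : Tb × ℚ × List Bk} {n : ℕ} (hr : okRow r = true) (hQ : okQ r.1 = true)
    (hY : okY r.1.t1 r.1.t2 r.2.1 n = true) {τ y : ℝ} {k : ℕ} (ht : 0 < r.1.t1) (h1 : (r.1.t1 : ℝ) ≤ τ)
    (h2 : τ ≤ r.1.t2) (hy0 : 0 < y) (hy1 : y < 1) (hK : ¬ Kap τ y) (hk : 2 ≤ k)
    (hT : 2 * qB τ ≤ (k + 1) * y ^ 2) : 0 < D τ y (1 :: List.replicate k y) := by
  have hQ' := Q_le_of_okQ ht hQ h1 h2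
  have hY' := okY_lt hY h1 h2 hy1 hK
  exact row_pos hr h1 h2 hy0 hY'.le hk (by linarith)

theorem DAll_row2 {r : Tb × ℚ × List Bk} {n : ℕ} (hr : okRow r = true)
    (hY : okY r.1.t1 r.1.t2 r.2.1 n = true) (hQ : r.1.Q = 32 / 100) (hYs : (r.2.1 : ℝ) ≤ 417 / 1000)
    {τ y : ℝ} {k : ℕ} (h1 : (r.1.t1 : ℝ) ≤ τ)
    (h2 : τ ≤ r.1.t2) (hy0 : 0 < y) (hy1 : y < 1) (hK : ¬ Kap τ y)
    (hT : 64 / 100 ≤ (k + 1) * y ^ 2) : 0 < D τ y (1 :: List.replicate k y) := by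
  have hY' := okY_lt hY h1 h2 hy1 hK
  have hyy : y ≤ 417 / 1000 := by linarith
  have hk : 2 ≤ k := by
    by_contra hcon
    push Not at hcon
    have hk1 : (k : ℝ) ≤ 1 := by exact_mod_cast Nat.lt_succ_iff.1 hcon
    nlinarith
  refine row_pos hr h1 h2 hy0 hY'.le hk ?_
  rw [hQ]
  push_cast
  linarith

/-- `τ ∈ [0.62, 1.8]`, `k ≥ 2` -/
theorem DAll_A {τ y : ℝ} {k : ℕ} (hτ : 62 / 100 ≤ τ) (hτ2 : τ ≤ 18 / 10) (hy0 : 0 < y) (hy1 : y < 1)
    (hK : ¬ Kap τ y) (hk : 2 ≤ k) (hT : 2 * qB τ ≤ (k + 1) * y ^ 2) :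
    0 < D τ y (1 :: List.replicate k y) := by
  rcases le_total τ (650 / 1000) with h | h0
  · exact DAll_row1 r1_0_ok r1_0_Q r1_0_Y (by norm_num [r1_0, t1_0]) (by norm_num [r1_0, t1_0]; linarith)
      (by norm_num [r1_0, t1_0]; linarith) hy0 hy1 hK hk hT
  rcases le_total τ (730 / 1000) with h | h1
  · exact DAll_row1 r1_1_ok r1_1_Q r1_1_Y (by norm_num [r1_1, t1_1]) (by norm_num [r1_1, t1_1]; linarith)
      (by norm_num [r1_1, t1_1]; linarith) hy0 hy1 hK hk hT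
  rcases le_total τ (880 / 1000) with h | h2
  · exact DAll_row1 r1_2_ok r1_2_Q r1_2_Y (by norm_num [r1_2, t1_2]) (by norm_num [r1_2, t1_2]; linarith)
      (by norm_num [r1_2, t1_2]; linarith) hy0 hy1 hK hk hT
  rcases le_total τ 1 with h | h3
  · exact DAll_row1 r1_3_ok r1_3_Q r1_3_Y (by norm_num [r1_3, t1_3]) (by norm_num [r1_3, t1_3]; linarith)
      (by norm_num [r1_3, t1_3]; linarith) hy0 hy1 hK hk hT
  rcases le_total τ (1100 / 1000) with h | h4
  · exact DAll_row1 r1_4_ok r1_4_Q r1_4_Y (by norm_num [r1_4, t1_4]) (by norm_num [r1_4, t1_4]; linarith)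
      (by norm_num [r1_4, t1_4]; linarith) hy0 hy1 hK hk hT
  rcases le_total τ (1250 / 1000) with h | h5
  · exact DAll_row1 r1_5_ok r1_5_Q r1_5_Y (by norm_num [r1_5, t1_5]) (by norm_num [r1_5, t1_5]; linarith)
      (by norm_num [r1_5, t1_5]; linarith) hy0 hy1 hK hk hT
  rcases le_total τ (1400 / 1000) with h | h6
  · exact DAll_row1 r1_6_ok r1_6_Q r1_6_Y (by norm_num [r1_6, t1_6]) (by norm_num [r1_6, t1_6]; linarith)
      (by norm_num [r1_6, t1_6]; linarith) hy0 hy1 hK hk hT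
  rcases le_total τ (1520 / 1000) with h | h7
  · exact DAll_row1 r1_7_ok r1_7_Q r1_7_Y (by norm_num [r1_7, t1_7]) (by norm_num [r1_7, t1_7]; linarith)
      (by norm_num [r1_7, t1_7]; linarith) hy0 hy1 hK hk hT
  rcases le_total τ (1620 / 1000) with h | h8
  · exact DAll_row1 r1_8_ok r1_8_Q r1_8_Y (by norm_num [r1_8, t1_8]) (by norm_num [r1_8, t1_8]; linarith)
      (by norm_num [r1_8, t1_8]; linarith) hy0 hy1 hK hk hT
  rcases le_total τ (1720 / 1000) with h | h9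
  · exact DAll_row1 r1_9_ok r1_9_Q r1_9_Y (by norm_num [r1_9, t1_9]) (by norm_num [r1_9, t1_9]; linarith)
      (by norm_num [r1_9, t1_9]; linarith) hy0 hy1 hK hk hT
  · exact DAll_row1 r1_10_ok r1_10_Q r1_10_Y (by norm_num [r1_10, t1_10]) (by norm_num [r1_10, t1_10]; linarith)
      (by norm_num [r1_10, t1_10]; linarith) hy0 hy1 hK hk hT

/-- `τ ∈ [1.35, 1.8]`, `k = 1` -/
theorem DAll_B {τ y : ℝ} (hτ : 135 / 100 ≤ τ) (hτ2 : τ ≤ 18 / 10) (hy0 : 0 < y) (hy1 : y < 1)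
    (hK : ¬ Kap τ y) (hq : qB τ ≤ y ^ 2) : 0 < D τ y (1 :: List.replicate 1 y) := by
  rcases le_total τ (137 / 100) with h | h0
  · exact okTwo_pos pTwo0_ok (by norm_num [pTwo0]; linarith) (by norm_num [pTwo0]; linarith) hy0 hy1 hK hq
  rcases le_total τ (139 / 100) with h | h1
  · exact okTwo_pos pTwo1_ok (by norm_num [pTwo1]; linarith) (by norm_num [pTwo1]; linarith) hy0 hy1 hK hq
  rcases le_total τ (142 / 100) with h | h2
  · exact okTwo_pos pTwo2_ok (by norm_num [pTwo2]; linarith) (by norm_num [pTwo2]; linarith) hy0 hy1 hK hq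
  rcases le_total τ (145 / 100) with h | h3
  · exact okTwo_pos pTwo3_ok (by norm_num [pTwo3]; linarith) (by norm_num [pTwo3]; linarith) hy0 hy1 hK hq
  rcases le_total τ (150 / 100) with h | h4
  · exact okTwo_pos pTwo4_ok (by norm_num [pTwo4]; linarith) (by norm_num [pTwo4]; linarith) hy0 hy1 hK hq
  rcases le_total τ (155 / 100) with h | h5
  · exact okTwo_pos pTwo5_ok (by norm_num [pTwo5]; linarith) (by norm_num [pTwo5]; linarith) hy0 hy1 hK hq
  rcases le_total τ (160 / 100) with h | h6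
  · exact okTwo_pos pTwo6_ok (by norm_num [pTwo6]; linarith) (by norm_num [pTwo6]; linarith) hy0 hy1 hK hq
  rcases le_total τ (170 / 100) with h | h7
  · exact okTwo_pos pTwo7_ok (by norm_num [pTwo7]; linarith) (by norm_num [pTwo7]; linarith) hy0 hy1 hK hq
  · exact okTwo_pos pTwo8_ok (by norm_num [pTwo8]; linarith) (by norm_num [pTwo8]; linarith) hy0 hy1 hK hq

/-- `τ ∈ [1.8, 3.6]`, `(k+1) y² ≤ 0.64` -/
theorem DAll_C {τ y : ℝ} {k : ℕ} (hτ : 18 / 10 ≤ τ) (hy0 : 0 < y) (hy1 : y < 1)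
    (hyt : y * τ ≤ 82 / 100) (hq : qB τ ≤ (k + 1) * y ^ 2 / 2) (hz : (k + 1) * y ^ 2 / 2 ≤ 32 / 100) :
    0 < D τ y (1 :: List.replicate k y) := by
  rcases le_total τ (190 / 100) with h | h0
  · exact okMid_pos pMid0_ok (by norm_num [pMid0]; linarith) (by norm_num [pMid0]; linarith) hy0 hy1 hyt hq hz
  rcases le_total τ 2 with h | h1
  · exact okMid_pos pMid1_ok (by norm_num [pMid1]; linarith) (by norm_num [pMid1]; linarith) hy0 hy1 hyt hq hz
  rcases le_total τ (220 / 100) with h | h2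
  · exact okMid_pos pMid2_ok (by norm_num [pMid2]; linarith) (by norm_num [pMid2]; linarith) hy0 hy1 hyt hq hz
  rcases le_total τ (240 / 100) with h | h3
  · exact okMid_pos pMid3_ok (by norm_num [pMid3]; linarith) (by norm_num [pMid3]; linarith) hy0 hy1 hyt hq hz
  rcases le_total τ (270 / 100) with h | h4
  · exact okMid_pos pMid4_ok (by norm_num [pMid4]; linarith) (by norm_num [pMid4]; linarith) hy0 hy1 hyt hq hz
  rcases le_total τ 3 with h | h5
  · exact okMid_pos pMid5_ok (by norm_num [pMid5]; linarith) (by norm_num [pMid5]; linarith) hy0 hy1 hyt hq hz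
  · exact PM_big h5 hy0 hyt hq (Or.inl hz)

/-- `τ ∈ [1.8, 3.6]`, `(k+1) y² ≥ 0.64` -/
theorem DAll_D {τ y : ℝ} {k : ℕ} (hτ : 18 / 10 ≤ τ) (hτ2 : τ ≤ 36 / 10) (hy0 : 0 < y) (hy1 : y < 1)
    (hK : ¬ Kap τ y) (hT : 64 / 100 ≤ (k + 1) * y ^ 2) : 0 < D τ y (1 :: List.replicate k y) := by
  rcases le_total τ (220 / 100) with h | h0
  · exact DAll_row2 r2_0_ok r2_0_Y (by norm_num [r2_0, t2_0]) (by norm_num [r2_0])
      (by norm_num [r2_0, t2_0]; linarith) (by norm_num [r2_0, t2_0]; linarith) hy0 hy1 hK hT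
  rcases le_total τ (260 / 100) with h | h1
  · exact DAll_row2 r2_1_ok r2_1_Y (by norm_num [r2_1, t2_1]) (by norm_num [r2_1])
      (by norm_num [r2_1, t2_1]; linarith) (by norm_num [r2_1, t2_1]; linarith) hy0 hy1 hK hT
  rcases le_total τ 3 with h | h2
  · exact DAll_row2 r2_2_ok r2_2_Y (by norm_num [r2_2, t2_2]) (by norm_num [r2_2])
      (by norm_num [r2_2, t2_2]; linarith) (by norm_num [r2_2, t2_2]; linarith) hy0 hy1 hK hT
  rcases le_total τ (340 / 100) with h | h3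
  · exact DAll_row2 r2_3_ok r2_3_Y (by norm_num [r2_3, t2_3]) (by norm_num [r2_3])
      (by norm_num [r2_3, t2_3]; linarith) (by norm_num [r2_3, t2_3]; linarith) hy0 hy1 hK hT
  · exact DAll_row2 r2_4_ok r2_4_Y (by norm_num [r2_4, t2_4]) (by norm_num [r2_4])
      (by norm_num [r2_4, t2_4]; linarith) (by norm_num [r2_4, t2_4]; linarith) hy0 hy1 hK hT

theorem D_pos_equal {τ y : ℝ} (hτ : 62 / 100 ≤ τ) (hy0 : 0 < y) (hy1 : y < 1) (hK : ¬ Kap τ y) {k : ℕ}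
    (hT : 2 * qB τ ≤ (k + 1) * y ^ 2) : 0 < D τ y (1 :: List.replicate k y) := by
  rcases le_total τ (18 / 10) with h18 | h18
  · rcases Nat.lt_or_ge k 2 with hk | hk
    · interval_cases k
      · have := YK_sq2 hτ h18 hy0 hy1 hK
        norm_num at hT
        linarith
      · norm_num at hT
        have hq : qB τ ≤ y ^ 2 := by linarith
        rcases le_total τ (135 / 100) with h135 | h135
        · have := YK_sq hτ h135 hy0 hy1 hK
          linarith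
        · exact DAll_B h135 h18 hy0 hy1 hK hq
    · exact DAll_A hτ h18 hy0 hy1 hK hk hT
  · have hyt := YK_tail (by linarith) hy0 hy1 hK
    have hq : qB τ ≤ (k + 1) * y ^ 2 / 2 := by linarith
    rcases le_total ((k + 1) * y ^ 2 / 2) (32 / 100) with hz | hz
    · exact DAll_C h18 hy0 hy1 hyt hq hz
    rcases le_total τ (36 / 10) with h36 | h36
    · exact DAll_D h18 h36 hy0 hy1 hK (by linarith)
    rcases le_total ((k + 1) * y ^ 2 / 2) (4 / 10) with hz4 | hz4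
    · exact PM_big (by linarith) hy0 hyt hq (Or.inr ⟨h36, hz4⟩)
    · exact LA_pos h36 hy0 hyt (by linarith)

end GCube
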