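import Pool.Agent.Lib.H83.Exch
import Pool.Agent.Lib.H83.Two

/-!
Chunk EXI: existence of a maximiser in normal form.

Compact set `S = {a ∈ [0,1]^n : ∃ i ≠ j, a i = a j = 1}`; `F0` is continuous on `S` (dominated convergence, bound
`C/(1+s²)`; split into the finitely many closed sets `a i = a j = 1`). Every `b` with two nonzero
coordinates can be moved into `S` without decreasing `F0`: take absolute values, scale so that the maximum is `1`;
if only one coordinate equals `1`, let `j` be an index of the second largest coordinate and use `FD_path`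
with `D_pos_S` (all other coordinates are `≤ a j`), or `F0_two` if all others vanish.
-/

open MeasureTheory Set
open scoped Real

namespace GCube

/-- the compact pieces -/
def ExistS {n : ℕ} (i j : Fin n) : Set (Fin n → ℝ) :=
  {a | (∀ k, a k ∈ Icc (0 : ℝ) 1) ∧ a i = 1 ∧ a j = 1}

lemma ExistS_compact {n : ℕ} (i j : Fin n) : IsCompact (ExistS i j) := by
  have h1 : IsCompact (Set.pi univ (fun _ : Fin n => Icc (0 : ℝ) 1)) :=
    isCompact_univ_pi (fun _ => isCompact_Icc)
  have h2 : IsClosed {a : Fin n → ℝ | a i = 1 ∧ a j = 1} :=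
    (isClosed_eq (continuous_apply i) continuous_const).inter
      (isClosed_eq (continuous_apply j) continuous_const)
  have h3 : ExistS i j = Set.pi univ (fun _ : Fin n => Icc (0 : ℝ) 1) ∩
      {a : Fin n → ℝ | a i = 1 ∧ a j = 1} := by
    ext a
    simp only [ExistS, Set.mem_ofPred_eq, Set.mem_inter_iff, Set.mem_pi, Set.mem_univ, true_implies]
  rw [h3]
  exact h1.inter_right h2

lemma Exist_psi_zero_nonneg {τ : ℝ} (hτ : 0 < τ) : 0 ≤ psi τ 0 := (psi_zero_pos hτ).le

/-- the dominating function -/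
lemma Exist_bound {τ : ℝ} (hτ : 0 < τ) {n : ℕ} {i j : Fin n} (hij : i ≠ j) :
    Integrable (fun s : ℝ => |psi τ s| * |psi τ s| * psi τ 0 ^ ((Finset.univ.erase i).erase j).card) := by
  classical
  have h1 : TwoNz (fun k : Fin n => if k = i ∨ k = j then (1 : ℝ) else 0) :=
    ⟨i, j, hij, by simp, by simp⟩
  have h2 := (Phi_integrable hτ h1).abs
  refine h2.congr (Filter.Eventually.of_forall fun s => ?_)
  simp only
  have hj : j ∈ Finset.univ.erase i := Finset.mem_erase.2 ⟨hij.symm, Finset.mem_univ j⟩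
  rw [← Finset.mul_prod_erase Finset.univ _ (Finset.mem_univ i), ← Finset.mul_prod_erase _ _ hj,
    abs_mul, abs_mul]
  have h3 : ∏ k ∈ (Finset.univ.erase i).erase j,
      psi τ ((if k = i ∨ k = j then (1 : ℝ) else 0) * s) =
      psi τ 0 ^ ((Finset.univ.erase i).erase j).card := by
    rw [← Finset.prod_const]
    apply Finset.prod_congr rfl
    intro k hk
    have hk1 : k ≠ j := (Finset.mem_erase.1 hk).1
    have hk2 : k ≠ i := (Finset.mem_erase.1 (Finset.mem_erase.1 hk).2).1
    simp [hk1, hk2]
  rw [h3, abs_of_nonneg (pow_nonneg (Exist_psi_zero_nonneg hτ) _)]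
  simp only [true_or, or_true, if_true, one_mul]
  ring

lemma Exist_continuousOn {τ : ℝ} (hτ : 0 < τ) {n : ℕ} {i j : Fin n} (hij : i ≠ j) :
    ContinuousOn (fun a : Fin n → ℝ => F0 τ a) (ExistS i j) := by
  unfold F0
  apply ContinuousOn.mul
  · exact (Real.continuous_sqrt.comp (continuous_finsetSum _
      (fun k _ => (continuous_apply k).pow 2))).continuousOn
  · unfold Phi
    apply continuousOn_of_dominated
      (bound := fun s : ℝ => |psi τ s| * |psi τ s| * psi τ 0 ^ ((Finset.univ.erase i).erase j).card)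
    · intro a _
      exact (continuous_finsetProd _ (fun k _ =>
        (psi_continuous τ).comp (continuous_const.mul continuous_id))).aestronglyMeasurable
    · intro a ha
      refine Filter.Eventually.of_forall fun s => ?_
      have hj : j ∈ Finset.univ.erase i := Finset.mem_erase.2 ⟨hij.symm, Finset.mem_univ j⟩
      rw [Real.norm_eq_abs, ← Finset.mul_prod_erase Finset.univ _ (Finset.mem_univ i),
        ← Finset.mul_prod_erase _ _ hj, abs_mul, abs_mul, ha.2.1, ha.2.2, one_mul, ← mul_assoc]
      apply mul_le_mul_of_nonneg_left _ (by positivity)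
      rw [Finset.abs_prod, ← Finset.prod_const]
      exact Finset.prod_le_prod (fun k _ => abs_nonneg _) (fun k _ => abs_psi_le hτ _)
    · exact Exist_bound hτ hij
    · refine Filter.Eventually.of_forall fun s => ?_
      exact (continuous_finsetProd _ (fun k _ =>
        (psi_continuous τ).comp ((continuous_apply k).mul continuous_const))).continuousOn

/-- every vector can be moved into one of the compact pieces -/
lemma Exist_move {τ : ℝ} (hτ : 0 < τ) {n : ℕ} {b : Fin n → ℝ} (hb : TwoNz b) :
    ∃ i j : Fin n, i ≠ j ∧ ∃ a ∈ ExistS i j, F0 τ b ≤ F0 τ a := by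
  classical
  -- absolute values
  obtain ⟨p, q, hpq, hp, hq⟩ := hb
  obtain ⟨i, -, hi⟩ := Finset.exists_max_image (Finset.univ : Finset (Fin n)) (fun k => |b k|)
    ⟨p, Finset.mem_univ p⟩
  have hM : 0 < |b i| := lt_of_lt_of_le (abs_pos.2 hp) (hi p (Finset.mem_univ p))
  set c : Fin n → ℝ := fun k => |b i|⁻¹ * |b k| with hc
  have hF1 : F0 τ c = F0 τ b := by
    rw [hc, F0_smul (fun k => |b k|) (inv_pos.2 hM), F0_abs]
  have hc0 : ∀ k, 0 ≤ c k := fun k => by positivity
  have hc1 : ∀ k, c k ≤ 1 := fun k => by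
    have := hi k (Finset.mem_univ k)
    simp only [hc]
    rw [inv_mul_le_iff₀ hM]
    linarith
  have hci : c i = 1 := by
    simp only [hc]
    exact inv_mul_cancel₀ hM.ne'
  have hcpos : ∀ k, b k ≠ 0 → 0 < c k := fun k hk => by
    have := abs_pos.2 hk
    simp only [hc]
    positivity
  -- another nonzero coordinate
  obtain ⟨r, hri, hr⟩ : ∃ r, r ≠ i ∧ 0 < c r := by
    by_cases hpi : p = i
    · exact ⟨q, fun h => hpq (hpi.trans h.symm), hcpos q hq⟩
    · exact ⟨p, hpi, hcpos p hp⟩
  obtain ⟨j, hj, hjmax⟩ := Finset.exists_max_image (Finset.univ.erase i : Finset (Fin n)) c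
    ⟨r, Finset.mem_erase.2 ⟨hri, Finset.mem_univ r⟩⟩
  have hji : j ≠ i := (Finset.mem_erase.1 hj).1
  have hcj : 0 < c j := lt_of_lt_of_le hr (hjmax r (Finset.mem_erase.2 ⟨hri, Finset.mem_univ r⟩))
  have hjm : ∀ k, k ≠ i → c k ≤ c j := fun k hk =>
    hjmax k (Finset.mem_erase.2 ⟨hk, Finset.mem_univ k⟩)
  rcases (hc1 j).eq_or_lt with hj1 | hj1
  · exact ⟨i, j, hji.symm, c, ⟨fun k => ⟨hc0 k, hc1 k⟩, hci, hj1⟩, hF1.ge⟩
  by_cases hex : ∃ k, k ≠ i ∧ k ≠ j ∧ c k ≠ 0
  · -- exchange path
    have hpath := FD_path hτ hji.symm hci hcj.le hj1 hex (fun h => absurd h hcj.ne') (by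
      intro y e hy0 hy1 he hey
      apply D_pos_S hτ (hcj.trans hy0) hy1
      · intro x hx
        rw [List.mem_map] at hx
        obtain ⟨z, hz, rfl⟩ := hx
        simp only [others, List.mem_map, Finset.mem_toList, Finset.mem_erase, Finset.mem_univ,
          and_true] at hz
        obtain ⟨k, ⟨hk1, hk2⟩, rfl⟩ := hz
        refine ⟨mul_nonneg (by linarith) (hc0 k), le_trans ?_ hey⟩
        exact mul_le_mul_of_nonneg_left (hjm k hk2) (by linarith)
      · obtain ⟨k, hk1, hk2, hk3⟩ := hex
        refine ⟨e * c k, ?_, mul_pos (by linarith) (lt_of_le_of_ne (hc0 k) (Ne.symm hk3))⟩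
        rw [List.mem_map]
        refine ⟨c k, ?_, rfl⟩
        simp only [others, List.mem_map, Finset.mem_toList, Finset.mem_erase, Finset.mem_univ,
          and_true]
        exact ⟨k, ⟨hk2, hk1⟩, rfl⟩)
    set m : ℝ := Real.sqrt ((1 + c j ^ 2) / 2) with hm
    have hm2 : m ^ 2 = (1 + c j ^ 2) / 2 := Real.sq_sqrt (by positivity)
    have hm0 : 0 < m := Real.sqrt_pos.2 (by positivity)
    have hcjm : c j ≤ m := by
      apply le_of_sq_le_sq _ hm0.le
      rw [hm2]
      nlinarith
    set d : Fin n → ℝ := Function.update (Function.update c i m) j m with hd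
    refine ⟨i, j, hji.symm, fun k => m⁻¹ * d k, ⟨?_, ?_, ?_⟩, ?_⟩
    · intro k
      by_cases hkj : k = j
      · subst hkj
        simp [hd, inv_mul_cancel₀ hm0.ne']
      · by_cases hki : k = i
        · subst hki
          simp [hd, hkj, inv_mul_cancel₀ hm0.ne']
        · simp only [hd, Function.update_of_ne hkj, Function.update_of_ne hki]
          refine ⟨mul_nonneg (inv_nonneg.2 hm0.le) (hc0 k), ?_⟩
          rw [inv_mul_le_iff₀ hm0, mul_one]
          exact (hjm k hki).trans hcjm
    · simp [hd, Function.update_of_ne hji.symm, inv_mul_cancel₀ hm0.ne']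
    · simp [hd, inv_mul_cancel₀ hm0.ne']
    · rw [F0_smul d (inv_pos.2 hm0), ← hF1]
      exact hpath.le
  · -- only two nonzero coordinates
    push Not at hex
    have h1 := F0_two hτ hji.symm hci hcj hj1.le hex
    have hupi : Function.update c j 1 i = 1 := by
      rw [Function.update_of_ne hji.symm]; exact hci
    have h2 := F0_two hτ (a := Function.update c j 1) hji.symm hupi (by simp) (by simp) (by
      intro k hk1 hk2
      rw [Function.update_of_ne hk2]
      exact hex k hk1 hk2)
    refine ⟨i, j, hji.symm, Function.update c j 1, ⟨?_, hupi, by simp⟩, ?_⟩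
    · intro k
      by_cases hkj : k = j
      · subst hkj
        simp
      · rw [Function.update_of_ne hkj]
        exact ⟨hc0 k, hc1 k⟩
    · rw [← hF1, h1, h2]
      have hG0 : 0 ≤ 2 * G τ := by
        rw [← psi_zero_eq]
        exact Exist_psi_zero_nonneg hτ
      have hEi : ∀ x y : ℝ, IntervalIntegrable E volume x y := fun x y =>
        E_continuous.intervalIntegrable x y
      have hGm : ∀ x y : ℝ, x ≤ y → G x ≤ G y := by
        intro x y hxy
        unfold G
        have h3 := intervalIntegral.integral_add_adjacent_intervals (hEi 0 x) (hEi x y)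
        have h4 : 0 ≤ ∫ u in x..y, E u :=
          intervalIntegral.integral_nonneg hxy (fun u _ => (E_pos u).le)
        linarith
      apply mul_le_mul_of_nonneg_left _ (by positivity)
      apply hGm
      apply mul_le_mul_of_nonneg_left _ hτ.le
      apply Real.sqrt_le_sqrt
      have : Function.update c j (1 : ℝ) j = 1 := by simp
      rw [this]
      nlinarith

theorem exists_IsMx {τ : ℝ} (hτ : 0 < τ) {n : ℕ} (hn : 2 ≤ n) :
    ∃ a : Fin n → ℝ, IsMx τ a := by
  classical
  -- maximisers on the pieces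
  have hpiece : ∀ p : Fin n × Fin n, p.1 ≠ p.2 →
      ∃ a ∈ ExistS p.1 p.2, ∀ b ∈ ExistS p.1 p.2, F0 τ b ≤ F0 τ a := by
    intro p hp
    have hne : (ExistS p.1 p.2).Nonempty := ⟨fun _ => 1, fun k => by simp, rfl, rfl⟩
    obtain ⟨a, ha, hmax⟩ := (ExistS_compact p.1 p.2).exists_isMaxOn hne (Exist_continuousOn hτ hp)
    exact ⟨a, ha, fun b hb => hmax hb⟩
  choose! f hf hfm using hpiece
  have hne : ((Finset.univ : Finset (Fin n × Fin n)).filter (fun p => p.1 ≠ p.2)).Nonempty := by
    refine ⟨(⟨0, by omega⟩, ⟨1, by omega⟩), ?_⟩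
    simp
  obtain ⟨p, hp, hpmax⟩ := Finset.exists_max_image _ (fun p => F0 τ (f p)) hne
  simp only [Finset.mem_filter, Finset.mem_univ, true_and] at hp hpmax
  refine ⟨f p, ⟨p.1, p.2, hp, ?_, ?_⟩, ?_⟩
  · rw [(hf p hp).2.1]; norm_num
  · rw [(hf p hp).2.2]; norm_num
  · intro b hb
    obtain ⟨i, j, hij, a, ha, hle⟩ := Exist_move hτ hb
    exact hle.trans ((hfm (i, j) hij a ha).trans (hpmax (i, j) hij))

end GCube
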