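import Pool.Agent.Lib.H83.Triple
import Pool.Agent.Lib.H83.DAll
import Pool.Agent.Lib.H83.FD
import Pool.Agent.Lib.H83.Exist

/-!
Chunk C2T: a maximiser with exactly two largest coordinates `1` and `¬ Kap`: contradiction.

* `Two_equal`: suppose some other coordinate is `< a j =: y`. Let `k0` be the index of the largest coordinate `< y`, `b = a k0`. Scale: `a' = a/y` is again a
  maximiser (`F0_smul`), `a' j = 1`, `a' i = a' i' = 1/y`. Others of `a'` with respect to `(j, k0)` are, up to permutation,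
  `1/y :: 1/y :: (replicate r 1 ++ l)`, all elements of `l` in `[0, b/y]` (split off the ones as in `Classify_split`).
  If `b > 0`: `FD_local` (for `a'`, `i := j`, `j := k0`) gives `D τ (b/y) … ≤ 0`, contradiction to `D_pos_triple` (`e = 1`, `y0 = y`).
  If `b = 0`: `FD_path` (for `a'`): for `0 < y' < 1 < c` the scaled others are `c/y :: c/y :: (replicate r c ++ l')`, `l'` zeros, `D_pos_triple` with
  `e = c`; contradiction to maximality as in `Classify_norm` (case `a j = 0`).
* `Classify_two`: by `U3cond_of_notKap`, `U3c`, `Two_equal` all other coordinates are `y = a j`; others of `a` with respect to `(i,j)` are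
  `1 :: replicate k y` up to permutation, `∑ = (k+1) y²`; `FD_local` against `D_pos_equal`.
-/

open MeasureTheory Set
open scoped Real

namespace GCube

lemma ClassifyTwo_split (l : List ℝ) :
    l.Perm (List.replicate (l.count 1) 1 ++ l.filter (fun b => !decide (b = 1))) := by
  have h := (List.filter_append_perm (fun b : ℝ => decide (b = 1)) l).symm
  rwa [List.filter_eq] at h

lemma ClassifyTwo_toList {n : ℕ} (s : Finset (Fin n)) {i : Fin n} (hi : i ∈ s) :
    s.toList.Perm (i :: (s.erase i).toList) := by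
  have h := Finset.toList_insert (Finset.notMem_erase i s)
  rwa [Finset.insert_erase hi] at h

theorem Two_equal {τ : ℝ} (hτ : 0 < τ) {n : ℕ} {a : Fin n → ℝ} (hm : IsMx τ a) (h0 : ∀ k, 0 ≤ a k)
    {i i' j : Fin n} (hii : i ≠ i') (hij : i ≠ j) (hij' : i' ≠ j) (hi : a i = 1) (hi' : a i' = 1)
    (hj0 : 0 < a j) (hj1 : a j < 1) (hmax : ∀ k, k ≠ i → k ≠ i' → a k ≤ a j) (hU : U3ok τ (a j)) :
    ∀ k, k ≠ i → k ≠ i' → a k = a j := by
  by_contra hcon
  push Not at hcon
  obtain ⟨k1, hk1i, hk1i', hk1⟩ := hcon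
  have hk1lt : a k1 < a j := lt_of_le_of_ne (hmax k1 hk1i hk1i') hk1
  obtain ⟨k0, hk0, hk0max⟩ := Finset.exists_max_image (Finset.univ.filter (fun k => a k < a j)) a
    ⟨k1, by simpa using hk1lt⟩
  have hk0lt : a k0 < a j := by simpa using hk0
  have hk0m : ∀ k, a k < a j → a k ≤ a k0 := fun k hk => hk0max k (by simpa using hk)
  have hk0i : i ≠ k0 := by
    rintro rfl
    rw [hi] at hk0lt
    linarith
  have hk0i' : i' ≠ k0 := by
    rintro rfl
    rw [hi'] at hk0lt
    linarith
  have hjk0 : j ≠ k0 := by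
    rintro rfl
    exact lt_irrefl _ hk0lt
  have hinv : 0 < (a j)⁻¹ := inv_pos.2 hj0
  obtain ⟨a', ha'⟩ : ∃ a' : Fin n → ℝ, a' = fun k => (a j)⁻¹ * a k := ⟨_, rfl⟩
  have ha'k : ∀ k, a' k = (a j)⁻¹ * a k := fun k => by rw [ha']
  have hm' : IsMx τ a' := by
    constructor
    · refine ⟨i, i', hii, ?_, ?_⟩
      · rw [ha'k, hi, mul_one]; exact hinv.ne'
      · rw [ha'k, hi', mul_one]; exact hinv.ne'
    · intro b hb
      rw [ha', F0_smul a hinv]
      exact hm.2 b hb
  have h1j : a' j = 1 := by rw [ha'k]; exact inv_mul_cancel₀ hj0.ne'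
  have h1i : a' i = 1 / a j := by rw [ha'k, hi, mul_one, one_div]
  have h1i' : a' i' = 1 / a j := by rw [ha'k, hi', mul_one, one_div]
  have hnn : ∀ k, 0 ≤ a' k := fun k => by rw [ha'k]; exact mul_nonneg hinv.le (h0 k)
  have hk0n : a' k0 < 1 := by
    rw [ha'k, inv_mul_lt_iff₀ hj0, mul_one]
    exact hk0lt
  have hne : (1 : ℝ) / a j ≠ 0 := by rw [one_div]; exact hinv.ne'
  -- the permutation
  obtain ⟨rest, hrest⟩ : ∃ rest : List ℝ, rest =
      (((((Finset.univ.erase j).erase k0).erase i).erase i').toList.map a') := ⟨_, rfl⟩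
  have hperm1 : (others a' j k0).Perm (1 / a j :: 1 / a j :: rest) := by
    unfold others
    have e1 := ClassifyTwo_toList ((Finset.univ.erase j).erase k0) (i := i) (by simp [hij, hk0i])
    have e2 := ClassifyTwo_toList (((Finset.univ.erase j).erase k0).erase i) (i := i')
      (by simp [hij', hk0i', hii.symm])
    have e3 := (e1.trans (e2.cons i)).map a'
    rw [List.map_cons, List.map_cons, h1i, h1i'] at e3
    rw [hrest]
    exact e3
  obtain ⟨l, hl⟩ : ∃ l, l = rest.filter (fun b => !decide (b = 1)) := ⟨_, rfl⟩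
  have hperm : (others a' j k0).Perm
      (1 / a j :: 1 / a j :: (List.replicate (rest.count 1) 1 ++ l)) := by
    rw [hl]
    exact hperm1.trans (((ClassifyTwo_split rest).cons _).cons _)
  have hlmem : ∀ b ∈ l, 0 ≤ b ∧ b ≤ a' k0 := by
    intro b hb
    rw [hl, List.mem_filter] at hb
    obtain ⟨hb1, hb2⟩ := hb
    rw [hrest, List.mem_map] at hb1
    obtain ⟨k, hk, rfl⟩ := hb1
    rw [Finset.mem_toList] at hk
    simp only [Finset.mem_erase, Finset.mem_univ, and_true] at hk
    have hb2' : a' k ≠ 1 := by simpa using hb2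
    refine ⟨hnn k, ?_⟩
    rw [ha'k, ha'k]
    refine mul_le_mul_of_nonneg_left (hk0m k (lt_of_le_of_ne (hmax k hk.2.1 hk.1) ?_)) hinv.le
    intro he
    apply hb2'
    rw [ha'k, he]
    exact inv_mul_cancel₀ hj0.ne'
  have key := FD_path hτ hjk0 h1j (hnn k0) hk0n
    ⟨i, hij, hk0i, by rw [h1i]; exact hne⟩
    (fun _ => ⟨i, i', hii, hij, hk0i, hij', hk0i', by rw [h1i]; exact hne,
      by rw [h1i']; exact hne⟩)
    (fun y c hy0 hy1 hc hcy => by
      have hc0 : 0 < c := by linarith
      have hy00 : 0 < y := lt_of_le_of_lt (hnn k0) hy0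
      have hp2 : ((others a' j k0).map (fun b => c * b)).Perm
          (c / a j :: c / a j :: (List.replicate (rest.count 1) c ++ l.map (fun b => c * b))) := by
        have h3 := hperm.map (fun b => c * b)
        rw [List.map_cons, List.map_cons, List.map_append, List.map_replicate, mul_one,
          mul_one_div] at h3
        exact h3
      rw [D_perm hp2]
      refine D_pos_triple hτ hj0 hU hy00 hy1 hc0 _ ?_
      intro b hb
      rw [List.mem_map] at hb
      obtain ⟨b', hb', rfl⟩ := hb
      obtain ⟨h3, h4⟩ := hlmem b' hb'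
      exact ⟨mul_nonneg hc0.le h3, (mul_le_mul_of_nonneg_left h4 hc0.le).trans hcy⟩)
  have hle := hm'.2 (Function.update (Function.update a' j (Real.sqrt ((1 + a' k0 ^ 2) / 2))) k0
      (Real.sqrt ((1 + a' k0 ^ 2) / 2))) (by
    refine ⟨i, i', hii, ?_, ?_⟩
    · rw [Function.update_of_ne hk0i, Function.update_of_ne hij, h1i]; exact hne
    · rw [Function.update_of_ne hk0i', Function.update_of_ne hij', h1i']; exact hne)
  exact absurd key (not_lt.2 hle)

theorem Classify_two {τ : ℝ} (hτ : 62 / 100 ≤ τ) {n : ℕ} {a : Fin n → ℝ} (hm : IsMx τ a)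
    (h0 : ∀ k, 0 ≤ a k) {i i' j : Fin n} (hii : i ≠ i') (hij : i ≠ j) (hij' : i' ≠ j) (hi : a i = 1)
    (hi' : a i' = 1) (hj0 : 0 < a j) (hj1 : a j < 1) (hmax : ∀ k, k ≠ i → k ≠ i' → a k ≤ a j)
    (hK : ¬ Kap τ (a j)) (hS : 2 * qB τ ≤ ∑ k ∈ (Finset.univ.erase i).erase i', a k ^ 2) : False := by
  have hτ0 : 0 < τ := by linarith
  have hU : U3ok τ (a j) := U3c hτ0 hj0 hj1 (U3cond_of_notKap hτ hj0 hj1 hK)
  have hall := Two_equal hτ0 hm h0 hii hij hij' hi hi' hj0 hj1 hmax hU
  obtain ⟨s, hs⟩ : ∃ s : Finset (Fin n), s = ((Finset.univ.erase i).erase j).erase i' := ⟨_, rfl⟩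
  have hperm : (others a i j).Perm (1 :: List.replicate s.card (a j)) := by
    unfold others
    have e1 := ClassifyTwo_toList ((Finset.univ.erase i).erase j) (i := i') (by simp [hij', hii.symm])
    have e3 := e1.map a
    rw [List.map_cons, hi', ← hs] at e3
    have e4 : s.toList.map a = List.replicate s.card (a j) := by
      rw [← Finset.length_toList, ← List.map_const']
      refine List.map_congr_left fun k hk => ?_
      rw [Finset.mem_toList, hs] at hk
      simp only [Finset.mem_erase, Finset.mem_univ, and_true] at hk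
      exact hall k hk.2.2 hk.1
    rw [e4] at e3
    exact e3
  have hsum : ∑ k ∈ (Finset.univ.erase i).erase i', a k ^ 2 = (s.card + 1) * a j ^ 2 := by
    have hmem : j ∈ (Finset.univ.erase i).erase i' := by simp [hij.symm, hij'.symm]
    rw [← Finset.add_sum_erase _ (fun k => a k ^ 2) hmem]
    have hseq : ((Finset.univ.erase i).erase i').erase j = s := by
      rw [hs]
      exact Finset.erase_right_comm
    rw [hseq]
    have e1 : ∑ k ∈ s, a k ^ 2 = ∑ _k ∈ s, a j ^ 2 := by
      refine Finset.sum_congr rfl fun k hk => ?_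
      rw [hs] at hk
      simp only [Finset.mem_erase, Finset.mem_univ, and_true] at hk
      rw [hall k hk.2.2 hk.1]
    rw [e1, Finset.sum_const, nsmul_eq_mul]
    ring
  rw [hsum] at hS
  have hD := FD_local hτ0 hm hij hi hj0 hj1 ⟨i', hii.symm, hij', by rw [hi']; exact one_ne_zero⟩
  rw [D_perm hperm] at hD
  have := D_pos_equal hτ hj0 hj1 hK hS
  linarith

end GCube
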