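import Pool.Agent.Lib.H83.Exist
import Pool.Agent.Lib.H83.ClassifyTwo
import Pool.Agent.Lib.H83.RegionA

/-!
Chunk CL (assembly): maximisers of `F0` are, up to permutation, signs and scaling, `(1,1,0,…,0)` or `(1,…,1)`.

Normalise: `a ≥ 0`, `max a = 1` (`F0_abs`, `F0_smul`). Let `M = {i : a i = 1}`, `N = |M|`.
* `N = 1`: `j` = index of the second largest value `y ∈ (0,1)`; others vanish: `F0_two` and strict monotonicity of `G`;
  otherwise `FD_local` and `D_pos_S`.
* `N ≥ 3` and some coordinate `< 1`: `j` = index of the largest coordinate `< 1`. If `a j > 0`: `FD_local` and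
  `D_pos_P` with `c = 1` (others = `N-1 ≥ 2` ones and numbers `≤ a j`, up to permutation, `D_perm`). If `a j = 0`: `FD_path` and
  `D_pos_P`.
* `N = 2` and some other coordinate nonzero: `j` = index of the largest coordinate `< 1`; `T² ≥ q_B`
  by `regionA`; `FD_local` with `D_pos_LS`, or `Classify_two`.
-/

open MeasureTheory Set
open scoped Real

namespace GCube

lemma Classify_split (l : List ℝ) :
    l.Perm (List.replicate (l.count 1) 1 ++ l.filter (fun b => !decide (b = 1))) := by
  have h := (List.filter_append_perm (fun b : ℝ => decide (b = 1)) l).symm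
  rwa [List.filter_eq] at h

lemma Classify_count {n : ℕ} (a : Fin n → ℝ) (i j : Fin n) :
    (others a i j).count 1 = (((Finset.univ.erase i).erase j).filter (fun k => a k = 1)).card := by
  unfold others
  rw [List.count_eq_countP, List.countP_map, List.countP_eq_length_filter]
  rw [Finset.card_filter]
  rw [← Finset.sum_map_toList]
  generalize ((Finset.univ.erase i).erase j).toList = l
  induction l with
  | nil => simp
  | cons x l ih =>
    simp only [List.filter_cons, List.map_cons, List.sum_cons]
    rw [← ih]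
    by_cases hx : a x = 1
    · simp [hx]; ring
    · simp [hx]

lemma Classify_mem {n : ℕ} (a : Fin n → ℝ) {i j : Fin n} {b : ℝ} :
    b ∈ others a i j ↔ ∃ k, k ≠ i ∧ k ≠ j ∧ a k = b := by
  unfold others
  simp only [List.mem_map, Finset.mem_toList, Finset.mem_erase, Finset.mem_univ, and_true]
  constructor
  · rintro ⟨k, ⟨h1, h2⟩, h3⟩; exact ⟨k, h2, h1, h3⟩
  · rintro ⟨k, h1, h2, h3⟩; exact ⟨k, ⟨h2, h1⟩, h3⟩

lemma Classify_sum {n : ℕ} (a : Fin n → ℝ) (i j : Fin n) :
    ((others a i j).map (fun b => b ^ 2)).sum = ∑ k ∈ (Finset.univ.erase i).erase j, a k ^ 2 := by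
  unfold others
  rw [List.map_map, ← Finset.sum_map_toList]
  rfl

lemma Classify_G_lt {x y : ℝ} (h : x < y) : G x < G y := by
  have h1 : G y - G x = ∫ u in x..y, E u := by
    unfold G
    exact intervalIntegral.integral_interval_sub_left (E_continuous.intervalIntegrable _ _)
      (E_continuous.intervalIntegrable _ _)
  have h2 : 0 < ∫ u in x..y, E u :=
    intervalIntegral.intervalIntegral_pos_of_pos (E_continuous.intervalIntegrable _ _)
      (fun u => E_pos u) h
  linarith

lemma Classify_norm {τ : ℝ} (hτ : (62 / 100 : ℝ) ≤ τ) {n : ℕ} {a : Fin n → ℝ}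
    (hm : IsMx τ a) (h0 : ∀ k, 0 ≤ a k) (h1 : ∀ k, a k ≤ 1) {i : Fin n} (hi : a i = 1) :
    (∀ k, a k = 1) ∨ (∃ j, i ≠ j ∧ a j = 1 ∧ ∀ k, k ≠ i → k ≠ j → a k = 0) := by
  have hτ0 : 0 < τ := by linarith
  by_contra hcon
  push Not at hcon
  obtain ⟨⟨k0, hk0⟩, h2⟩ := hcon
  obtain ⟨j, hj, hjmax⟩ := Finset.exists_max_image (Finset.univ.filter (fun k => a k < 1)) a
    ⟨k0, by simpa using lt_of_le_of_ne (h1 k0) hk0⟩
  have hjlt : a j < 1 := by simpa using hj
  have hmax : ∀ k, a k < 1 → a k ≤ a j := fun k hk => hjmax k (by simpa using hk)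
  have hij : i ≠ j := by
    rintro rfl
    rw [hi] at hjlt
    exact lt_irrefl _ hjlt
  obtain ⟨m, hmdef⟩ : ∃ m, m = (others a i j).count 1 := ⟨_, rfl⟩
  obtain ⟨l', hl'⟩ : ∃ l', l' = (others a i j).filter (fun b => !decide (b = 1)) := ⟨_, rfl⟩
  have hperm : (others a i j).Perm (List.replicate m 1 ++ l') := by
    rw [hmdef, hl']; exact Classify_split _
  have hl'mem : ∀ b ∈ l', 0 ≤ b ∧ b ≤ a j := by
    intro b hb
    rw [hl', List.mem_filter] at hb
    obtain ⟨hb1, hb2⟩ := hb
    obtain ⟨k, hki, hkj, rfl⟩ := (Classify_mem a).1 hb1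
    have : a k ≠ 1 := by simpa using hb2
    exact ⟨h0 k, hmax k (lt_of_le_of_ne (h1 k) this)⟩
  have hcard : m = (((Finset.univ.erase i).erase j).filter (fun k => a k = 1)).card := by
    rw [hmdef, Classify_count]
  rcases (h0 j).eq_or_lt with hj0 | hj0
  · -- `a j = 0`
    have hj0 : a j = 0 := hj0.symm
    have hz : ∀ k, a k ≠ 1 → a k = 0 := fun k hk =>
      le_antisymm (hj0 ▸ hmax k (lt_of_le_of_ne (h1 k) hk)) (h0 k)
    rcases Nat.lt_or_ge 1 m with hm2 | hm2
    · rw [hcard, Finset.one_lt_card] at hm2
      obtain ⟨k, hk, l, hl, hkl⟩ := hm2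
      simp only [Finset.mem_filter, Finset.mem_erase, Finset.mem_univ, and_true] at hk hl
      obtain ⟨m', hm'⟩ : ∃ m', m = m' + 2 := by
        refine ⟨m - 2, ?_⟩
        have : 1 < m := by
          rw [hcard, Finset.one_lt_card]
          exact ⟨k, by simpa using hk, l, by simpa using hl, hkl⟩
        omega
      have hne1 : (1 : ℝ) ≠ 0 := one_ne_zero
      have key := FD_path hτ0 hij hi (h0 j) hjlt
        ⟨k, hk.1.2, hk.1.1, by rw [hk.2]; exact hne1⟩
        (fun _ => ⟨k, l, hkl, hk.1.2, hk.1.1, hl.1.2, hl.1.1, by rw [hk.2]; exact hne1,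
          by rw [hl.2]; exact hne1⟩)
        (fun y c hy0 hy1 hc _ => by
          have hp2 : ((others a i j).map (fun b => c * b)).Perm
              (List.replicate (m' + 2) c ++ l'.map (fun b => c * b)) := by
            have := hperm.map (fun b => c * b)
            rw [List.map_append, List.map_replicate, mul_one, hm'] at this
            exact this
          rw [D_perm hp2]
          refine D_pos_P hτ0 (by rw [hj0] at hy0; exact hy0) hy1 (by linarith) m' ?_
          intro b hb
          rw [List.mem_map] at hb
          obtain ⟨b', hb', rfl⟩ := hb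
          obtain ⟨h3, h4⟩ := hl'mem b' hb'
          have : b' = 0 := le_antisymm (hj0 ▸ h4) h3
          rw [this, mul_zero]
          rw [hj0] at hy0
          exact ⟨le_refl _, hy0.le⟩)
      have hle := hm.2 (Function.update (Function.update a i (Real.sqrt ((1 + a j ^ 2) / 2))) j
          (Real.sqrt ((1 + a j ^ 2) / 2))) (by
        refine ⟨k, l, hkl, ?_, ?_⟩
        · rw [Function.update_of_ne hk.1.1, Function.update_of_ne hk.1.2, hk.2]; exact hne1
        · rw [Function.update_of_ne hl.1.1, Function.update_of_ne hl.1.2, hl.2]; exact hne1)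
      exact absurd key (not_lt.2 hle)
    · -- `m ≤ 1`
      rw [hcard] at hm2
      rcases Nat.lt_or_ge (((Finset.univ.erase i).erase j).filter (fun k => a k = 1)).card 1 with hm1 | hm1
      · have hemp : ((Finset.univ.erase i).erase j).filter (fun k => a k = 1) = ∅ := by
          rw [← Finset.card_eq_zero]; omega
        have hall : ∀ k, k ≠ i → a k = 0 := by
          intro k hki
          by_cases hkj : k = j
          · rw [hkj, hj0]
          · apply hz
            intro hk1
            have : k ∈ ((Finset.univ.erase i).erase j).filter (fun k => a k = 1) := by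
              simp [hkj, hki, hk1]
            rw [hemp] at this
            simp at this
        obtain ⟨k, l, hkl, hk, hl⟩ := hm.1
        by_cases hki : k = i
        · exact hl (hall l (by rintro rfl; exact hkl hki))
        · exact hk (hall k hki)
      · obtain ⟨i', hi'⟩ := Finset.card_eq_one.1 (le_antisymm hm2 hm1)
        have hi'm : i' ∈ ((Finset.univ.erase i).erase j).filter (fun k => a k = 1) := by
          rw [hi']; simp
        simp only [Finset.mem_filter, Finset.mem_erase, Finset.mem_univ, and_true] at hi'm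
        obtain ⟨k, hki, hki', hk⟩ := h2 i' (Ne.symm hi'm.1.2) hi'm.2
        apply hk
        by_cases hkj : k = j
        · rw [hkj, hj0]
        · apply hz
          intro hk1
          have : k ∈ ((Finset.univ.erase i).erase j).filter (fun k => a k = 1) := by
            simp [hkj, hki, hk1]
          rw [hi'] at this
          exact hki' (by simpa using this)
  · -- `0 < a j`
    rcases Nat.lt_or_ge m 1 with hm0 | hm1
    · -- `m = 0`
      have hm0 : m = 0 := by omega
      have hall1 : ∀ b ∈ others a i j, 0 ≤ b ∧ b ≤ a j := by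
        intro b hb
        have := hperm.mem_iff.1 hb
        rw [hm0] at this
        exact hl'mem b (by simpa using this)
      by_cases hex : ∃ k, k ≠ i ∧ k ≠ j ∧ a k ≠ 0
      · have hD := FD_local hτ0 hm hij hi hj0 hjlt hex
        obtain ⟨k, hki, hkj, hk⟩ := hex
        have := D_pos_S hτ0 hj0 hjlt hall1 ⟨a k, (Classify_mem a).2 ⟨k, hki, hkj, rfl⟩,
          lt_of_le_of_ne (h0 k) (Ne.symm hk)⟩
        linarith
      · push Not at hex
        have e1 := F0_two hτ0 hij hi hj0 (h1 j) hex
        have e2 := F0_two hτ0 (a := Function.update a j 1) hij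
          (by rw [Function.update_of_ne hij]; exact hi)
          (by rw [Function.update_self]; exact one_pos) (by rw [Function.update_self])
          (fun k hki hkj => by rw [Function.update_of_ne hkj]; exact hex k hki hkj)
        have hle := hm.2 (Function.update a j 1) ⟨i, j, hij,
          by rw [Function.update_of_ne hij, hi]; exact one_ne_zero,
          by rw [Function.update_self]; exact one_ne_zero⟩
        rw [e1, e2, Function.update_self] at hle
        have hG0 : 0 < G τ := by
          have := Classify_G_lt hτ0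
          have h00 : G 0 = 0 := by simp [G]
          linarith
        have hpos : 0 < 4 * π * (2 * G τ) ^ (n - 2) := by positivity
        have hle2 := le_of_mul_le_mul_left hle hpos
        have hlt : G (τ * Real.sqrt (1 + a j ^ 2)) < G (τ * Real.sqrt (1 + 1 ^ 2)) := by
          apply Classify_G_lt
          apply mul_lt_mul_of_pos_left _ hτ0
          apply Real.sqrt_lt_sqrt (by positivity)
          nlinarith
        linarith
    · rcases Nat.lt_or_ge m 2 with hm2 | hm2
      · -- `m = 1`
        have hm1 : m = 1 := by omega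
        obtain ⟨i', hi'⟩ := Finset.card_eq_one.1 (hcard.symm.trans hm1)
        have hi'm : i' ∈ ((Finset.univ.erase i).erase j).filter (fun k => a k = 1) := by
          rw [hi']; simp
        simp only [Finset.mem_filter, Finset.mem_erase, Finset.mem_univ, and_true] at hi'm
        have hii' : i ≠ i' := Ne.symm hi'm.1.2
        have hsum1 : ∑ k ∈ (Finset.univ.erase i).erase i', a k ^ 2 =
            a j ^ 2 + (l'.map (fun b => b ^ 2)).sum := by
          have e1 : ∑ k, a k ^ 2 = a i ^ 2 + (a i' ^ 2 + ∑ k ∈ (Finset.univ.erase i).erase i', a k ^ 2) := by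
            rw [Finset.add_sum_erase _ (fun k => a k ^ 2) (show i' ∈ Finset.univ.erase i by simp [hi'm.1.2]),
              Finset.add_sum_erase _ (fun k => a k ^ 2) (Finset.mem_univ i)]
          have e2 : ∑ k, a k ^ 2 = a i ^ 2 + (a j ^ 2 + ∑ k ∈ (Finset.univ.erase i).erase j, a k ^ 2) := by
            rw [Finset.add_sum_erase _ (fun k => a k ^ 2) (show j ∈ Finset.univ.erase i by simp [hij.symm]),
              Finset.add_sum_erase _ (fun k => a k ^ 2) (Finset.mem_univ i)]
          have e3 := Classify_sum a i j
          have e4 := (hperm.map (fun b => b ^ 2)).sum_eq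
          rw [hm1] at e4
          simp at e4
          rw [hi'm.2] at e1
          linarith
        have hex : ∃ k, k ≠ i ∧ k ≠ j ∧ a k ≠ 0 := ⟨i', hi'm.1.2, hi'm.1.1, by rw [hi'm.2]; exact one_ne_zero⟩
        have hD := FD_local hτ0 hm hij hi hj0 hjlt hex
        have hperm' : (others a i j).Perm (1 :: l') := by
          rw [hm1] at hperm; simpa using hperm
        rw [D_perm hperm'] at hD
        by_cases hK : Kap τ (a j)
        · have := D_pos_LS hτ0 hj0 hjlt hK hl'mem
          linarith
        · have hS : 2 * qB τ ≤ ∑ k ∈ (Finset.univ.erase i).erase i', a k ^ 2 := by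
            by_contra hlt
            push Not at hlt
            refine regionA hτ hm h0 h1 hii' hi hi'm.2 ?_ hlt
            rw [hsum1]
            have hnn : 0 ≤ (l'.map (fun b => b ^ 2)).sum := by
              apply List.sum_nonneg
              intro x hx
              rw [List.mem_map] at hx
              obtain ⟨b, _, rfl⟩ := hx
              positivity
            positivity
          have hmx : ∀ k, k ≠ i → k ≠ i' → a k ≤ a j := by
            intro k hki hki'
            by_cases hkj : k = j
            · rw [hkj]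
            · apply hmax
              refine lt_of_le_of_ne (h1 k) fun hk1 => hki' ?_
              have : k ∈ ((Finset.univ.erase i).erase j).filter (fun k => a k = 1) := by
                simp [hkj, hki, hk1]
              rw [hi'] at this
              simpa using this
          exact (Classify_two hτ hm h0 hii' hij hi'm.1.1 hi hi'm.2 hj0 hjlt hmx hK hS).elim
      · -- `m ≥ 2`
        obtain ⟨m', hm'⟩ : ∃ m', m = m' + 2 := ⟨m - 2, by omega⟩
        have hex : ∃ k, k ≠ i ∧ k ≠ j ∧ a k ≠ 0 := by
          have : (1 : ℝ) ∈ others a i j := by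
            rw [hperm.mem_iff, hm']
            simp
          obtain ⟨k, h3, h4, h5⟩ := (Classify_mem a).1 this
          exact ⟨k, h3, h4, by rw [h5]; exact one_ne_zero⟩
        have hD := FD_local hτ0 hm hij hi hj0 hjlt hex
        rw [D_perm hperm, hm'] at hD
        have := D_pos_P hτ0 hj0 hjlt one_pos m' hl'mem
        linarith

theorem classify {τ : ℝ} (hτ : (62 / 100 : ℝ) ≤ τ) {n : ℕ} (hn : 2 ≤ n) {a : Fin n → ℝ} (hm : IsMx τ a) :
    (∃ c : ℝ, 0 < c ∧ ∀ i, |a i| = c) ∨
    (∃ c : ℝ, 0 < c ∧ ∃ i j : Fin n, i ≠ j ∧ |a i| = c ∧ |a j| = c ∧ ∀ k, k ≠ i → k ≠ j → a k = 0) := by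
  haveI : Nonempty (Fin n) := ⟨⟨0, by omega⟩⟩
  obtain ⟨i, hi⟩ := Finite.exists_max (fun k => |a k|)
  have hpos : 0 < |a i| := by
    obtain ⟨k, l, _, hk, _⟩ := hm.1
    exact lt_of_lt_of_le (abs_pos.2 hk) (hi k)
  have hb : IsMx τ (fun k => |a i|⁻¹ * |a k|) := by
    constructor
    · obtain ⟨k, l, hkl, hk, hl⟩ := hm.1
      refine ⟨k, l, hkl, ?_, ?_⟩
      · have := abs_pos.2 hk
        positivity
      · have := abs_pos.2 hl
        positivity
    · intro b hb
      have e1 : F0 τ (fun k => |a i|⁻¹ * |a k|) = F0 τ a := by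
        rw [F0_smul (fun k => |a k|) (inv_pos.2 hpos), F0_abs]
      rw [e1]
      exact hm.2 b hb
  have hall1 : ∀ k, |a i|⁻¹ * |a k| ≤ 1 := fun k => by
    rw [inv_mul_le_iff₀ hpos, mul_one]
    exact hi k
  have key := Classify_norm hτ hb (fun k => by positivity) hall1 (i := i) (inv_mul_cancel₀ hpos.ne')
  have hconv : ∀ k, |a i|⁻¹ * |a k| = 1 → |a k| = |a i| := by
    intro k hk
    rw [inv_mul_eq_iff_eq_mul₀ hpos.ne', mul_one] at hk
    exact hk
  rcases key with h | ⟨j, hij, hj, hk⟩
  · exact Or.inl ⟨|a i|, hpos, fun k => hconv k (h k)⟩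
  · refine Or.inr ⟨|a i|, hpos, i, j, hij, rfl, hconv j hj, fun k hki hkj => ?_⟩
    have := hk k hki hkj
    rcases mul_eq_zero.1 this with h | h
    · exact absurd h (inv_ne_zero hpos.ne')
    · exact abs_eq_zero.1 h

end GCube
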