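import Pool.Agent.Lib.H83.Inv
import Pool.Agent.Lib.H83.ClassS

/-!
Chunk CC: `C_y` belongs to the class `S_{yτ}`.

* sign: `C_y > 0` on `(0, z_c)`, `C_y ≤ 0` on `[z_c, ∞)`, `z_c = τ(1+y²)/(1+y) ≥ yτ`.
* `K ≥ 0`: increasing then decreasing, total `∫_0^∞ z C_y = 0`.
* box: by symmetry `x ≥ v`. If `x + v ≤ z_c` trivial. Otherwise put `v' = x + v - yτ ∈ (0, v]`; the
  interval `[x-v, x+v]` is `[x-v, 2yτ-x-v] ∪ [yτ-v', yτ+v']`, the first part carries positive `C_y`
  (`2yτ - x - v ≤ 2yτ - z_c ≤ z_c`), so it is enough that `H(v) = ∫_{yτ-v}^{yτ+v} C_y ≥ 0`, `0 ≤ v ≤ yτ`.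
  With `d = (1-y)τ`, `w = (v-d)/y`:
  - if `yτ - v ≥ d`: `H = 2G(v) - y(G(..)-G(..)) ≥ 2 G(v) - 2 y G(v/y) ≥ 0`;
  - if `yτ + v ≤ d`: `C_y > 0` on the interval;
  - otherwise `H(v) = 2G(v) + G(2yτ-v) - (1+y)G(τ) - yG(w)` and all four points lie in `[-τ,τ]`;
    concavity of `G` on `[0,∞)` gives `H ≥ 0`: if `w ≥ 0` use the chord between `w` and `τ` for
    `v, 2yτ-v ∈ [w,τ]`, what remains is `2(1-y)(τ G(w) - w G(τ))/(τ-w) ≥ 0`; if `w < 0` use
    `G(x) ≥ (x/τ) G(τ)` for `x = v, 2yτ - v, |w|`.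
-/

open MeasureTheory Set
open scoped Real

namespace GCube

lemma cm_hasDerivAt_E (x : ℝ) : HasDerivAt E (-(x * E x)) x := by
  have h : HasDerivAt (fun x : ℝ => -(x ^ 2) / 2) (-x) x := by
    have := ((hasDerivAt_pow 2 x).neg.div_const 2)
    refine this.congr_deriv ?_
    norm_num
    ring
  have := h.exp
  refine this.congr_deriv ?_
  unfold E
  ring

lemma cm_hasDerivAt_G (x : ℝ) : HasDerivAt G (E x) x :=
  intervalIntegral.integral_hasDerivAt_right (E_continuous.intervalIntegrable _ _)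
    (E_continuous.stronglyMeasurableAtFilter _ _) E_continuous.continuousAt

lemma cm_G_zero : G 0 = 0 := by simp [G]

lemma cm_G_neg (x : ℝ) : G (-x) = - G x := by
  have h : ∀ x, HasDerivAt (fun x => G (-x) + G x) 0 x := by
    intro x
    have h1 : HasDerivAt (fun x : ℝ => -x) (-1) x := hasDerivAt_neg x
    have := ((cm_hasDerivAt_G (-x)).comp x h1).add (cm_hasDerivAt_G x)
    refine this.congr_deriv ?_
    rw [E_neg]; ring
  have := is_const_of_deriv_eq_zero (fun x => (h x).differentiableAt) (fun x => (h x).deriv) x 0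
  simp only [neg_zero, cm_G_zero, add_zero] at this
  linarith

lemma cm_E_le {x y : ℝ} (h : |x| ≤ |y|) : E y ≤ E x := by
  unfold E
  apply Real.exp_le_exp.mpr
  have := sq_le_sq.mpr h
  linarith

lemma cm_E_lt {x y : ℝ} (h : |x| < |y|) : E y < E x := by
  unfold E
  apply Real.exp_lt_exp.mpr
  have := sq_lt_sq.mpr h
  linarith

lemma cm_G_concave : ConcaveOn ℝ (Ici 0) G := by
  refine AntitoneOn.concaveOn_of_deriv (convex_Ici 0)
    (fun x _ => (cm_hasDerivAt_G x).continuousAt.continuousWithinAt)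
    (fun x _ => (cm_hasDerivAt_G x).differentiableAt.differentiableWithinAt) ?_
  intro a ha b hb hab
  rw [interior_Ici, mem_Ioi] at ha hb
  rw [(cm_hasDerivAt_G a).deriv, (cm_hasDerivAt_G b).deriv]
  apply cm_E_le
  rw [abs_of_pos ha, abs_of_pos hb]
  exact hab

/-- Chords of `G`. -/
lemma cm_chord {w t r : ℝ} (hw : 0 ≤ w) (hwt : w ≤ t) (htr : t ≤ r) (hwr : w < r) :
    (r - t) * G w + (t - w) * G r ≤ (r - w) * G t := by
  have h0 : 0 < r - w := by linarith
  have ha : 0 ≤ (r - t) / (r - w) := div_nonneg (by linarith) h0.le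
  have hb : 0 ≤ (t - w) / (r - w) := div_nonneg (by linarith) h0.le
  have hab : (r - t) / (r - w) + (t - w) / (r - w) = 1 := by
    field_simp
    ring
  have h := cm_G_concave.2 (mem_Ici.mpr hw) (mem_Ici.mpr (hw.trans (hwt.trans htr))) ha hb hab
  have e : (r - t) / (r - w) * w + (t - w) / (r - w) * r = t := by
    field_simp
    ring
  simp only [smul_eq_mul] at h
  rw [e] at h
  have h2 := mul_le_mul_of_nonneg_left h h0.le
  have e2 : (r - w) * ((r - t) / (r - w) * G w + (t - w) / (r - w) * G r) =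
      (r - t) * G w + (t - w) * G r := by
    field_simp
  rw [e2] at h2
  exact h2

/-- `G(x)/x` is decreasing. -/
lemma cm_ray {x r : ℝ} (hx : 0 ≤ x) (hxr : x ≤ r) : x * G r ≤ r * G x := by
  rcases eq_or_lt_of_le (hx.trans hxr) with h | h
  · have : x = 0 := by linarith
    rw [this, ← h]
  · have := cm_chord (w := 0) (t := x) (r := r) le_rfl hx hxr h
    rw [cm_G_zero] at this
    linarith

lemma cm_unimodal {r c : ℝ} (hr : 0 ≤ r) (hc : 0 ≤ c) : G (r + c) + G (r - c) ≤ 2 * G r := by
  have hd : ∀ c, HasDerivAt (fun c => G (r + c) + G (r - c)) (E (r + c) - E (r - c)) c := by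
    intro c
    have h1 : HasDerivAt (fun c => r + c) 1 c := (hasDerivAt_id c).const_add r
    have h2 : HasDerivAt (fun c => r - c) (-1) c := (hasDerivAt_id c).const_sub r
    have := ((cm_hasDerivAt_G (r + c)).comp c h1).add ((cm_hasDerivAt_G (r - c)).comp c h2)
    refine this.congr_deriv ?_
    ring
  have hm : AntitoneOn (fun c => G (r + c) + G (r - c)) (Ici 0) := by
    refine antitoneOn_of_deriv_nonpos (convex_Ici 0)
      (fun x _ => (hd x).continuousAt.continuousWithinAt)
      (fun x _ => (hd x).differentiableAt.differentiableWithinAt) ?_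
    intro x hx
    rw [interior_Ici, mem_Ioi] at hx
    rw [(hd x).deriv]
    have : E (r + x) ≤ E (r - x) := by
      apply cm_E_le
      rw [abs_of_nonneg (by linarith : 0 ≤ r + x), abs_le]
      constructor <;> linarith
    linarith
  have h := hm (mem_Ici.mpr le_rfl) (mem_Ici.mpr hc) hc
  simp only [add_zero, sub_zero] at h
  linarith

section

variable {τ y : ℝ}

lemma cm_C1 {z : ℝ} (hz : 0 ≤ z) (hz1 : z ≤ (1 - y) * τ) :
    C τ y z = E (z - y * τ) - E (z + y * τ) := by
  unfold C; rw [if_pos hz]; unfold Cpos; rw [if_pos hz1]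

lemma cm_C2 (hτ : 0 < τ) (hy0 : 0 < y) (hy1 : y < 1) {z : ℝ} (hz1 : (1 - y) * τ ≤ z)
    (hz2 : z ≤ (1 + y) * τ) : C τ y z = E (z - y * τ) - E ((z - τ) / y) := by
  have hz : 0 ≤ z := le_trans (by nlinarith) hz1
  rcases eq_or_lt_of_le hz1 with h | h
  · rw [cm_C1 hz h.ge, ← h]
    congr 1
    rw [show ((1 - y) * τ - τ) / y = -((1 - y) * τ + y * τ) by field_simp; ring, E_neg]
  · unfold C; rw [if_pos hz]; unfold Cpos; rw [if_neg (not_le.mpr h), if_pos hz2]

/-- the comparison of the two arguments -/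
lemma cm_cmp (z : ℝ) : (z - τ) ^ 2 - y ^ 2 * (z - y * τ) ^ 2 =
    (1 - y) * ((1 + y) * τ - z) * ((1 + y ^ 2) * τ - (1 + y) * z) := by
  ring

lemma cm_C_pos (hτ : 0 < τ) (hy0 : 0 < y) (hy1 : y < 1) {z : ℝ} (hz : 0 < z)
    (hz1 : (1 + y) * z < (1 + y ^ 2) * τ) : 0 < C τ y z := by
  have hyτ : 0 < y * τ := by positivity
  rcases le_total z ((1 - y) * τ) with h | h
  · rw [cm_C1 hz.le h, sub_pos]
    apply cm_E_lt
    rw [abs_of_pos (by linarith : 0 < z + y * τ), abs_lt]
    constructor <;> linarith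
  · have h2 : z < (1 + y) * τ := by
      by_contra hcon
      push Not at hcon
      nlinarith
    rw [cm_C2 hτ hy0 hy1 h h2.le, sub_pos]
    apply cm_E_lt
    rw [← sq_lt_sq, div_pow, lt_div_iff₀ (by positivity)]
    have h3 := cm_cmp (τ := τ) (y := y) z
    have h4 : 0 < (1 - y) * ((1 + y) * τ - z) * ((1 + y ^ 2) * τ - (1 + y) * z) :=
      mul_pos (mul_pos (by linarith) (by linarith)) (by linarith)
    nlinarith

lemma cm_C_nonpos (hτ : 0 < τ) (hy0 : 0 < y) (hy1 : y < 1) {z : ℝ}
    (hz1 : (1 + y ^ 2) * τ ≤ (1 + y) * z) : C τ y z ≤ 0 := by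
  have h : (1 - y) * τ ≤ z := by
    by_contra hcon
    push Not at hcon
    nlinarith [mul_pos hτ (sq_pos_of_pos hy0)]
  rcases le_total z ((1 + y) * τ) with h2 | h2
  · rw [cm_C2 hτ hy0 hy1 h h2, sub_nonpos]
    apply cm_E_le
    rw [← sq_le_sq, div_pow, div_le_iff₀ (by positivity)]
    have h3 := cm_cmp (τ := τ) (y := y) z
    have h4 : 0 ≤ (1 - y) * ((1 + y) * τ - z) * ((1 + y) * z - (1 + y ^ 2) * τ) :=
      mul_nonneg (mul_nonneg (by linarith) (by linarith)) (by linarith)
    nlinarith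
  · rw [C_supp hτ hy0 hy1 (h2.trans (le_abs_self z))]

/-- integral over a part of the middle interval -/
lemma cm_int1 (hτ : 0 < τ) (hy0 : 0 < y) {a b : ℝ} (ha : 0 ≤ a) (hab : a ≤ b)
    (hb : b ≤ (1 - y) * τ) : ∫ z in a..b, C τ y z =
      (G (b - y * τ) - G (b + y * τ)) - (G (a - y * τ) - G (a + y * τ)) := by
  have hE := E_continuous
  have h1 : ∫ z in a..b, C τ y z = ∫ z in a..b, (E (z - y * τ) - E (z + y * τ)) := by
    apply intervalIntegral.integral_congr
    intro z hz
    rw [uIcc_of_le hab] at hz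
    exact cm_C1 (ha.trans hz.1) (hz.2.trans hb)
  rw [h1]
  refine intervalIntegral.integral_eq_sub_of_hasDerivAt
    (f := fun z => G (z - y * τ) - G (z + y * τ)) ?_
    ((by fun_prop : Continuous fun z => E (z - y * τ) - E (z + y * τ)).intervalIntegrable _ _)
  intro z _
  have h1 : HasDerivAt (fun z => z - y * τ) 1 z := (hasDerivAt_id z).sub_const _
  have h2 : HasDerivAt (fun z => z + y * τ) 1 z := (hasDerivAt_id z).add_const _
  have := ((cm_hasDerivAt_G (z - y * τ)).comp z h1).sub ((cm_hasDerivAt_G (z + y * τ)).comp z h2)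
  refine this.congr_deriv ?_
  ring

lemma cm_int2 (hτ : 0 < τ) (hy0 : 0 < y) (hy1 : y < 1) {a b : ℝ} (ha : (1 - y) * τ ≤ a)
    (hab : a ≤ b) (hb : b ≤ (1 + y) * τ) : ∫ z in a..b, C τ y z =
      (G (b - y * τ) - y * G ((b - τ) / y)) - (G (a - y * τ) - y * G ((a - τ) / y)) := by
  have hE := E_continuous
  have h1 : ∫ z in a..b, C τ y z = ∫ z in a..b, (E (z - y * τ) - E ((z - τ) / y)) := by
    apply intervalIntegral.integral_congr
    intro z hz
    rw [uIcc_of_le hab] at hz
    exact cm_C2 hτ hy0 hy1 (ha.trans hz.1) (hz.2.trans hb)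
  rw [h1]
  refine intervalIntegral.integral_eq_sub_of_hasDerivAt
    (f := fun z => G (z - y * τ) - y * G ((z - τ) / y)) ?_
    ((by fun_prop : Continuous fun z => E (z - y * τ) - E ((z - τ) / y)).intervalIntegrable _ _)
  intro z _
  have h1 : HasDerivAt (fun z => z - y * τ) 1 z := (hasDerivAt_id z).sub_const _
  have h2 : HasDerivAt (fun z => (z - τ) / y) (1 / y) z :=
    ((hasDerivAt_id z).sub_const _).div_const y
  have := ((cm_hasDerivAt_G (z - y * τ)).comp z h1).sub
    (((cm_hasDerivAt_G ((z - τ) / y)).comp z h2).const_mul y)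
  refine this.congr_deriv ?_
  field_simp

/-- `H(v) ≥ 0` -/
lemma cm_H (hτ : 0 < τ) (hy0 : 0 < y) (hy1 : y < 1) {v : ℝ} (hv0 : 0 ≤ v) (hv : v ≤ y * τ)
    (hd : (1 - y) * τ ≤ y * τ + v) : 0 ≤ ∫ z in (y * τ - v)..(y * τ + v), C τ y z := by
  have hyτ : 0 < y * τ := by positivity
  have hvτ : v ≤ τ := hv.trans (by nlinarith)
  have hc : Continuous (C τ y) := C_continuous hτ hy0 hy1
  rcases le_total ((1 - y) * τ) (y * τ - v) with h | h
  · rw [cm_int2 hτ hy0 hy1 h (by linarith) (by nlinarith)]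
    have e1 : y * τ + v - y * τ = v := by ring
    have e2 : y * τ - v - y * τ = -v := by ring
    have e3 : (y * τ + v - τ) / y = v / y - (1 - y) * τ / y := by field_simp; ring
    have e4 : (y * τ - v - τ) / y = -(v / y + (1 - y) * τ / y) := by field_simp; ring
    rw [e1, e2, e3, e4, cm_G_neg, cm_G_neg]
    have h1 := cm_unimodal (r := v / y) (c := (1 - y) * τ / y) (by positivity)
      (div_nonneg (mul_nonneg (by linarith) hτ.le) hy0.le)
    have h2 : v * G (v / y) ≤ v / y * G v :=
      cm_ray hv0 (by rw [le_div_iff₀ hy0]; nlinarith)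
    have h3 : y * G (v / y) ≤ G v := by
      rcases eq_or_lt_of_le hv0 with h4 | h4
      · rw [← h4, zero_div, cm_G_zero, mul_zero]
      · have h5 : v / y * G v = v * (G v / y) := by ring
        rw [h5] at h2
        have h6 := le_of_mul_le_mul_left h2 h4
        rw [le_div_iff₀ hy0] at h6
        linarith
    nlinarith
  · have hsplit : ∫ z in (y * τ - v)..(y * τ + v), C τ y z =
        (∫ z in (y * τ - v)..((1 - y) * τ), C τ y z) + ∫ z in ((1 - y) * τ)..(y * τ + v), C τ y z :=
      (intervalIntegral.integral_add_adjacent_intervals (hc.intervalIntegrable _ _)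
        (hc.intervalIntegrable _ _)).symm
    rw [hsplit, cm_int1 hτ hy0 (by linarith) h le_rfl, cm_int2 hτ hy0 hy1 le_rfl hd (by nlinarith)]
    set w : ℝ := (v - (1 - y) * τ) / y with hw
    have e1 : y * τ + v - y * τ = v := by ring
    have e2 : y * τ - v - y * τ = -v := by ring
    have e3 : (y * τ + v - τ) / y = w := by rw [hw]; congr 1; ring
    have e4 : ((1 - y) * τ - τ) / y = -τ := by field_simp; ring
    have e5 : (1 - y) * τ + y * τ = τ := by ring
    have e6 : y * τ - v + y * τ = 2 * (y * τ) - v := by ring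
    rw [e1, e2, e3, e4, e5, e6, cm_G_neg, cm_G_neg]
    have hyw : y * w = v - (1 - y) * τ := by rw [hw]; field_simp
    have h2v : 2 * (y * τ) - v ≤ τ := by nlinarith
    have hG : 0 ≤ G τ := by
      have := cm_ray (x := 0) (r := τ) le_rfl hτ.le
      rw [cm_G_zero] at this
      have h7 := cm_chord (w := 0) (t := τ) (r := 2 * τ) le_rfl hτ.le (by linarith) (by linarith)
      rw [cm_G_zero] at h7
      have h8 : G 0 ≤ G τ := by
        have hm : Monotone G := monotone_of_deriv_nonneg
          (fun x => (cm_hasDerivAt_G x).differentiableAt)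
          (fun x => by rw [(cm_hasDerivAt_G x).deriv]; exact (E_pos x).le)
        exact hm hτ.le
      rw [cm_G_zero] at h8
      exact h8
    rcases le_total 0 w with hw0 | hw0
    · -- the chord between `w` and `τ`
      have hwv : w ≤ v := by
        rw [hw, div_le_iff₀ hy0]
        nlinarith
      rcases eq_or_lt_of_le (hwv.trans hvτ) with hwτ | hwτ
      · have hvv : v = τ := le_antisymm hvτ (hwτ ▸ hwv)
        nlinarith
      · have c1 := cm_chord hw0 hwv hvτ hwτ
        have c2 := cm_chord (t := 2 * (y * τ) - v) hw0 (by linarith) h2v hwτ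
        have c3 := cm_ray hw0 hwτ.le
        have h9 : 0 ≤ (τ - w) * ((2 * G v + G (2 * (y * τ) - v)) - (1 + y) * G τ - y * G w) := by
          have h10 : (τ - w) * ((1 + y) * G τ + y * G w) + 2 * (1 - y) * (τ * G w - w * G τ) =
              2 * ((τ - v) * G w + (v - w) * G τ) +
              ((τ - (2 * (y * τ) - v)) * G w + (2 * (y * τ) - v - w) * G τ) := by
            have h11 : v = y * w + (1 - y) * τ := by linarith
            rw [h11]; ring
          have h12 : 0 ≤ 2 * (1 - y) * (τ * G w - w * G τ) :=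
            mul_nonneg (by linarith) (by linarith)
          nlinarith
        have h13 : 0 ≤ (2 * G v + G (2 * (y * τ) - v)) - (1 + y) * G τ - y * G w :=
          nonneg_of_mul_nonneg_right h9 (by linarith)
        linarith
    · have c1 := cm_ray hv0 hvτ
      have c2 := cm_ray (x := 2 * (y * τ) - v) (by linarith) h2v
      have hwn : -w ≤ τ := by
        have : -(y * w) ≤ y * τ := by linarith
        by_contra hcon
        push Not at hcon
        nlinarith
      have c3 := cm_ray (x := -w) (by linarith) hwn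
      rw [cm_G_neg] at c3
      have h9 : 0 ≤ τ * ((2 * G v + G (2 * (y * τ) - v)) - (1 + y) * G τ - y * G w) := by
        have h14 := mul_le_mul_of_nonneg_left c3 hy0.le
        have h15 : y * (-w * G τ) = -(v - (1 - y) * τ) * G τ := by rw [← hyw]; ring
        nlinarith
      have h13 : 0 ≤ (2 * G v + G (2 * (y * τ) - v)) - (1 + y) * G τ - y * G w :=
        nonneg_of_mul_nonneg_right h9 hτ
      linarith

lemma cm_K_total (hτ : 0 < τ) (hy0 : 0 < y) (hy1 : y < 1) : K (C τ y) ((1 + y) * τ) = 0 := by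
  have hE := E_continuous
  have hc : Continuous fun u => u * C τ y u := continuous_id.mul (C_continuous hτ hy0 hy1)
  have h0 : 0 ≤ (1 - y) * τ := by nlinarith
  have hle : (1 - y) * τ ≤ (1 + y) * τ := by nlinarith
  have hsplit : K (C τ y) ((1 + y) * τ) = (∫ z in (0 : ℝ)..((1 - y) * τ), z * C τ y z) +
      ∫ z in ((1 - y) * τ)..((1 + y) * τ), z * C τ y z := by
    unfold K
    rw [intervalIntegral.integral_add_adjacent_intervals (hc.intervalIntegrable _ _)
      (hc.intervalIntegrable _ _)]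
  have h1 : ∫ z in (0 : ℝ)..((1 - y) * τ), z * C τ y z =
      ∫ z in (0 : ℝ)..((1 - y) * τ), z * (E (z - y * τ) - E (z + y * τ)) := by
    apply intervalIntegral.integral_congr
    intro z hz
    rw [uIcc_of_le h0] at hz
    simp only
    rw [cm_C1 hz.1 hz.2]
  have h2 : ∫ z in ((1 - y) * τ)..((1 + y) * τ), z * C τ y z =
      ∫ z in ((1 - y) * τ)..((1 + y) * τ), z * (E (z - y * τ) - E ((z - τ) / y)) := by
    apply intervalIntegral.integral_congr
    intro z hz
    rw [uIcc_of_le hle] at hz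
    simp only
    rw [cm_C2 hτ hy0 hy1 hz.1 hz.2]
  have h3 : ∫ z in (0 : ℝ)..((1 - y) * τ), z * (E (z - y * τ) - E (z + y * τ)) =
      (y * τ * (G ((1 - y) * τ - y * τ) + G ((1 - y) * τ + y * τ)) -
        (E ((1 - y) * τ - y * τ) - E ((1 - y) * τ + y * τ))) -
      (y * τ * (G (0 - y * τ) + G (0 + y * τ)) - (E (0 - y * τ) - E (0 + y * τ))) := by
    refine intervalIntegral.integral_eq_sub_of_hasDerivAt
      (f := fun z => y * τ * (G (z - y * τ) + G (z + y * τ)) - (E (z - y * τ) - E (z + y * τ)))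
      ?_ ((by fun_prop : Continuous fun z =>
        z * (E (z - y * τ) - E (z + y * τ))).intervalIntegrable _ _)
    intro z _
    have h1 : HasDerivAt (fun z => z - y * τ) 1 z := (hasDerivAt_id z).sub_const _
    have h2 : HasDerivAt (fun z => z + y * τ) 1 z := (hasDerivAt_id z).add_const _
    have a1 := (cm_hasDerivAt_G (z - y * τ)).comp z h1
    have a2 := (cm_hasDerivAt_G (z + y * τ)).comp z h2
    have a3 := (cm_hasDerivAt_E (z - y * τ)).comp z h1
    have a4 := (cm_hasDerivAt_E (z + y * τ)).comp z h2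
    have := ((a1.add a2).const_mul (y * τ)).sub (a3.sub a4)
    refine this.congr_deriv ?_
    ring
  have h4 : ∫ z in ((1 - y) * τ)..((1 + y) * τ), z * (E (z - y * τ) - E ((z - τ) / y)) =
      (y * τ * (G ((1 + y) * τ - y * τ) - G (((1 + y) * τ - τ) / y)) -
        (1 - y ^ 2) * (E (((1 + y) * τ - τ) / y) - E τ) -
        (E ((1 + y) * τ - y * τ) - E (((1 + y) * τ - τ) / y))) -
      (y * τ * (G ((1 - y) * τ - y * τ) - G (((1 - y) * τ - τ) / y)) -
        (1 - y ^ 2) * (E (((1 - y) * τ - τ) / y) - E τ) -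
        (E ((1 - y) * τ - y * τ) - E (((1 - y) * τ - τ) / y))) := by
    refine intervalIntegral.integral_eq_sub_of_hasDerivAt
      (f := fun x => y * τ * (G (x - y * τ) - G ((x - τ) / y)) -
        (1 - y ^ 2) * (E ((x - τ) / y) - E τ) - (E (x - y * τ) - E ((x - τ) / y)))
      ?_ ((by fun_prop : Continuous fun z =>
        z * (E (z - y * τ) - E ((z - τ) / y))).intervalIntegrable _ _)
    intro z _
    have h1 : HasDerivAt (fun z => z - y * τ) 1 z := (hasDerivAt_id z).sub_const _
    have h2 : HasDerivAt (fun z => (z - τ) / y) (1 / y) z :=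
      ((hasDerivAt_id z).sub_const _).div_const y
    have a1 := (cm_hasDerivAt_G (z - y * τ)).comp z h1
    have a2 := (cm_hasDerivAt_G ((z - τ) / y)).comp z h2
    have a3 := (cm_hasDerivAt_E (z - y * τ)).comp z h1
    have a4 := (cm_hasDerivAt_E ((z - τ) / y)).comp z h2
    have := ((((a1.sub a2).const_mul (y * τ)).sub ((a4.sub_const (E τ)).const_mul (1 - y ^ 2)))).sub
      (a3.sub a4)
    refine this.congr_deriv ?_
    field_simp
    ring
  rw [hsplit, h1, h2, h3, h4]
  have e1 : ((1 - y) * τ - τ) / y = -τ := by field_simp; ring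
  have e2 : (1 - y) * τ + y * τ = τ := by ring
  have e3 : ((1 + y) * τ - τ) / y = τ := by field_simp; ring
  have e4 : (1 + y) * τ - y * τ = τ := by ring
  rw [e1, e2, e3, e4, zero_sub, zero_add, cm_G_neg, cm_G_neg, E_neg, E_neg]
  ring

lemma cm_Knn (hτ : 0 < τ) (hy0 : 0 < y) (hy1 : y < 1) {x : ℝ} (hx : 0 ≤ x) :
    0 ≤ K (C τ y) x := by
  have hc : Continuous fun u => u * C τ y u := continuous_id.mul (C_continuous hτ hy0 hy1)
  rcases le_total ((1 + y) * x) ((1 + y ^ 2) * τ) with h | h
  · unfold K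
    apply intervalIntegral.integral_nonneg hx
    intro u hu
    have h1 : 0 ≤ C τ y u := by
      rcases eq_or_lt_of_le hu.1 with h2 | h2
      · have := C_odd τ y 0 hτ hy0 hy1
        rw [neg_zero] at this
        rw [← h2]
        linarith
      · rcases lt_or_ge ((1 + y) * u) ((1 + y ^ 2) * τ) with h3 | h3
        · exact (cm_C_pos hτ hy0 hy1 h2 h3).le
        · -- then `u = x = z_c`; continuity
          have h4 : ∀ z ∈ Ioo (0 : ℝ) u, 0 ≤ C τ y z := fun z hz =>
            (cm_C_pos hτ hy0 hy1 hz.1 (by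
              have : (1 + y) * z < (1 + y) * u := mul_lt_mul_of_pos_left hz.2 (by linarith)
              have : (1 + y) * u ≤ (1 + y) * x := mul_le_mul_of_nonneg_left hu.2 (by linarith)
              linarith)).le
          have h5 : u ∈ closure (Ioo (0 : ℝ) u) := by
            rw [closure_Ioo h2.ne]
            exact ⟨h2.le, le_rfl⟩
          have h6 : IsClosed {z | 0 ≤ C τ y z} :=
            isClosed_le continuous_const (C_continuous hτ hy0 hy1)
          exact (closure_minimal h4 h6) h5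
    exact mul_nonneg hu.1 h1
  · have hR : ∀ R, x ≤ R → K (C τ y) R ≤ K (C τ y) x := by
      intro R hR
      have h1 : K (C τ y) x + ∫ u in x..R, u * C τ y u = K (C τ y) R := by
        unfold K
        rw [intervalIntegral.integral_add_adjacent_intervals (hc.intervalIntegrable _ _)
          (hc.intervalIntegrable _ _)]
      have h2 : 0 ≤ ∫ u in x..R, -(u * C τ y u) := by
        apply intervalIntegral.integral_nonneg hR
        intro u hu
        have h3 : C τ y u ≤ 0 := cm_C_nonpos hτ hy0 hy1 (h.trans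
          (mul_le_mul_of_nonneg_left hu.1 (by linarith)))
        have h4 : 0 ≤ u := hx.trans hu.1
        nlinarith
      rw [intervalIntegral.integral_neg] at h2
      linarith
    have h7 : ∀ R, (1 + y) * τ ≤ R → K (C τ y) R = 0 := by
      intro R hR
      have h1 : K (C τ y) ((1 + y) * τ) + ∫ u in ((1 + y) * τ)..R, u * C τ y u = K (C τ y) R := by
        unfold K
        rw [intervalIntegral.integral_add_adjacent_intervals (hc.intervalIntegrable _ _)
          (hc.intervalIntegrable _ _)]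
      have h2 : ∫ z in ((1 + y) * τ)..R, z * C τ y z = 0 := by
        rw [intervalIntegral.integral_congr (g := fun _ => (0:ℝ))]
        · simp
        · intro z hz
          rw [uIcc_of_le hR] at hz
          simp only
          rw [C_supp hτ hy0 hy1 (hz.1.trans (le_abs_self z)), mul_zero]
      rw [h2, cm_K_total hτ hy0 hy1] at h1
      linarith
    have h8 := hR (max x ((1 + y) * τ)) (le_max_left _ _)
    rw [h7 _ (le_max_right _ _)] at h8
    exact h8

/-- The box inequality for `v ≤ x`. -/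
lemma cm_box (hτ : 0 < τ) (hy0 : 0 < y) (hy1 : y < 1) {x v : ℝ} (hv : 0 ≤ v) (hvx : v ≤ x)
    (hx : x ≤ y * τ) : 0 ≤ ∫ u in (x - v)..(x + v), C τ y u := by
  have hc : Continuous (C τ y) := C_continuous hτ hy0 hy1
  have hnn : ∀ z, 0 < z → (1 + y) * z < (1 + y ^ 2) * τ → 0 ≤ C τ y z := fun z h1 h2 =>
    (cm_C_pos hτ hy0 hy1 h1 h2).le
  have hpos : ∀ a b : ℝ, 0 ≤ a → a ≤ b → (1 + y) * b ≤ (1 + y ^ 2) * τ →
      0 ≤ ∫ u in a..b, C τ y u := by
    intro a b ha hab hb
    rw [intervalIntegral.integral_of_le hab, MeasureTheory.integral_Ioc_eq_integral_Ioo]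
    apply MeasureTheory.setIntegral_nonneg measurableSet_Ioo
    intro z hz
    exact hnn z (lt_of_le_of_lt ha hz.1) (lt_of_lt_of_le
      (mul_lt_mul_of_pos_left hz.2 (by linarith)) hb)
  rcases le_total ((1 + y) * (x + v)) ((1 + y ^ 2) * τ) with h | h
  · exact hpos _ _ (by linarith) (by linarith) h
  · -- split at `2 y τ - x - v`
    have h1 : (1 + y) * (2 * (y * τ) - (x + v)) ≤ (1 + y ^ 2) * τ := by
      nlinarith [mul_nonneg hτ.le (sq_nonneg (1 - y))]
    have hsplit : ∫ u in (x - v)..(x + v), C τ y u =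
        (∫ u in (x - v)..(2 * (y * τ) - (x + v)), C τ y u) +
          ∫ u in (2 * (y * τ) - (x + v))..(x + v), C τ y u :=
      (intervalIntegral.integral_add_adjacent_intervals (hc.intervalIntegrable _ _)
        (hc.intervalIntegrable _ _)).symm
    rw [hsplit]
    apply add_nonneg (hpos _ _ (by linarith) (by linarith) h1)
    have g1 : 0 ≤ x + v - y * τ := by
      have g2 : 0 ≤ (1 + y) * (x + v - y * τ) := by
        have := mul_nonneg hτ.le (sub_nonneg.mpr hy1.le)
        nlinarith
      exact nonneg_of_mul_nonneg_right g2 (by linarith)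
    have g3 : (1 - y) * τ ≤ x + v := by
      have g4 : 0 ≤ (1 + y) * (x + v - (1 - y) * τ) := by
        have := mul_nonneg hτ.le (sq_nonneg y)
        nlinarith
      have := nonneg_of_mul_nonneg_right g4 (by linarith)
      linarith
    have h2 := cm_H hτ hy0 hy1 (v := x + v - y * τ) g1 (by linarith) (by linarith)
    have e1 : y * τ - (x + v - y * τ) = 2 * (y * τ) - (x + v) := by ring
    have e2 : y * τ + (x + v - y * τ) = x + v := by ring
    rw [e1, e2] at h2
    exact h2

end

theorem C_inS {τ y : ℝ} (hτ : 0 < τ) (hy0 : 0 < y) (hy1 : y < 1) : InS (y * τ) (C τ y) := by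
  have hc : Continuous (C τ y) := C_continuous hτ hy0 hy1
  refine ⟨hc, fun x => C_odd τ y x hτ hy0 hy1, ⟨(1 + y) * τ, fun x hx => C_supp hτ hy0 hy1 hx⟩,
    fun x hx hxα => cm_C_pos hτ hy0 hy1 hx ?_, ?_, fun x hx => cm_Knn hτ hy0 hy1 hx⟩
  · have h1 : (1 + y) * x < (1 + y) * (y * τ) := mul_lt_mul_of_pos_left hxα (by linarith)
    nlinarith [mul_pos hτ (sub_pos.mpr hy1)]
  · intro x v hx hxα hv hvα
    rcases le_total v x with h | h
    · exact cm_box hτ hy0 hy1 hv h hxα
    · have h1 := cm_box hτ hy0 hy1 hx h hvα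
      have h2 := csU_eq hc v x
      have h3 := csU_eq hc x v
      have h4 := csF1_even (fun x => C_odd τ y x hτ hy0 hy1) (x - v)
      unfold csU at h2 h3
      rw [h2]
      rw [h3] at h1
      rw [neg_sub] at h4
      rw [← h4, add_comm x v]
      exact h1

end GCube
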