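import Mathlib

/-!
# Gaussian measure of hyperplane sections of the cube (MP_8ad8d2_gt): basic definitions

Throughout `τ = t/2 > 0` is the half side of the cube.
-/

open MeasureTheory Set
open scoped Real

namespace GCube

/-- `E(x) = exp(-x^2/2)`. -/
noncomputable def E (x : ℝ) : ℝ := Real.exp (-(x ^ 2) / 2)

/-- `G(x) = ∫_0^x exp(-u^2/2) du`. -/
noncomputable def G (x : ℝ) : ℝ := ∫ u in (0 : ℝ)..x, E u

/-- `EE(x) = ∫_0^x exp(-u^2) du`. -/
noncomputable def EE (x : ℝ) : ℝ := ∫ u in (0 : ℝ)..x, Real.exp (-(u ^ 2))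

/-- Cosine transform of the truncated Gaussian weight. -/
noncomputable def psi (τ s : ℝ) : ℝ := ∫ t in (-τ)..τ, E t * Real.cos (s * t)

/-- `chi(s) = -psi'(s)/s`. -/
noncomputable def chi (τ s : ℝ) : ℝ := ∫ t in (-τ)..τ, t ^ 2 * E t * Real.sinc (s * t)

/-- Wronskian type kernel. -/
noncomputable def W (τ y s : ℝ) : ℝ := chi τ s * psi τ (y * s) - psi τ s * chi τ (y * s)

/-- product of `psi (b s)` over a list. -/
noncomputable def psiProd (τ : ℝ) (l : List ℝ) (s : ℝ) : ℝ := (l.map (fun b => psi τ (b * s))).prod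

/-- Fourier form of the exchange derivative. -/
noncomputable def D (τ y : ℝ) (l : List ℝ) : ℝ := ∫ s : ℝ, s ^ 2 * W τ y s * psiProd τ l s

/-- The operator `(Y_b f)(x) = ∫_{-τ}^{τ} E(t) f(x + b t) dt`. -/
noncomputable def Yop (τ b : ℝ) (f : ℝ → ℝ) (x : ℝ) : ℝ := ∫ t in (-τ)..τ, E t * f (x + b * t)

/-- Iterated operator. -/
noncomputable def Yl (τ : ℝ) (l : List ℝ) (f : ℝ → ℝ) : ℝ → ℝ := l.foldr (Yop τ) f

/-- Half of the derivative at `0` of `Y_b f` times `b`, for `f` odd. -/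
noncomputable def Lf (τ b : ℝ) (f : ℝ → ℝ) : ℝ :=
  E τ * f (b * τ) + ∫ t in (0 : ℝ)..τ, t * E t * f (b * t)

/-- right half of the odd continuous function `C_y`. -/
noncomputable def Cpos (τ y z : ℝ) : ℝ :=
  if z ≤ (1 - y) * τ then E (z - y * τ) - E (z + y * τ)
  else if z ≤ (1 + y) * τ then E (z - y * τ) - E ((z - τ) / y) else 0

/-- The odd continuous function `C_y`, with sine transform
`2 sin(yτs) psi(s) - 2 y sin(τs) psi(ys)`. -/
noncomputable def C (τ y z : ℝ) : ℝ := if 0 ≤ z then Cpos τ y z else - Cpos τ y (-z)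

/-- `K_f(x) = ∫_0^x u f(u) du`. -/
noncomputable def K (f : ℝ → ℝ) (x : ℝ) : ℝ := ∫ u in (0 : ℝ)..x, u * f u

/-- Class `S_α` (strict form). -/
structure InS (α : ℝ) (f : ℝ → ℝ) : Prop where
  cont : Continuous f
  odd : ∀ x, f (-x) = - f x
  supp : ∃ R : ℝ, ∀ x, R ≤ |x| → f x = 0
  pos : ∀ x, 0 < x → x < α → 0 < f x
  box : ∀ x v, 0 ≤ x → x ≤ α → 0 ≤ v → v ≤ α → 0 ≤ ∫ u in (x - v)..(x + v), f u
  Knn : ∀ x, 0 ≤ x → 0 ≤ K f x

/-- Class `P` : `K_f ≥ 0`, and `K_f > 0` near `0+`. -/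
structure InP (f : ℝ → ℝ) : Prop where
  cont : Continuous f
  odd : ∀ x, f (-x) = - f x
  supp : ∃ R : ℝ, ∀ x, R ≤ |x| → f x = 0
  Knn : ∀ x, 0 ≤ x → 0 ≤ K f x
  Kpos : ∃ ε : ℝ, 0 < ε ∧ ∀ x, 0 < x → x < ε → 0 < K f x

/-- density of the sum of two truncated Gaussians (unnormalised), right half, `0 ≤ v ≤ 2τ`. -/
noncomputable def rX (τ v : ℝ) : ℝ := if |v| ≤ 2 * τ then 2 * Real.exp (-(v ^ 2) / 4) * EE (τ - |v| / 2) else 0

/-- `-rX'` on `(0, 2τ)`, zero outside. -/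
noncomputable def etaX (τ v : ℝ) : ℝ :=
  if 0 < v ∧ v ≤ 2 * τ then v / 2 * rX τ v + E τ * E (τ - v) else 0

/-- Fourier form of the section function (unnormalised), `a : Fin n → ℝ`. -/
noncomputable def Phi (τ : ℝ) {n : ℕ} (a : Fin n → ℝ) : ℝ := ∫ s : ℝ, ∏ i, psi τ (a i * s)

/-- Scale invariant section function. -/
noncomputable def F0 (τ : ℝ) {n : ℕ} (a : Fin n → ℝ) : ℝ := Real.sqrt (∑ i, a i ^ 2) * Phi τ a

/-- at least two nonzero coordinates -/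
def TwoNz {n : ℕ} (a : Fin n → ℝ) : Prop := ∃ i j : Fin n, i ≠ j ∧ a i ≠ 0 ∧ a j ≠ 0

/-- `a` maximises the section function among all vectors with at least two nonzero coordinates. -/
def IsMx (τ : ℝ) {n : ℕ} (a : Fin n → ℝ) : Prop := TwoNz a ∧ ∀ b : Fin n → ℝ, TwoNz b → F0 τ b ≤ F0 τ a

/-- The threshold `T_B^2 = exp(-2τ²/3)`. -/
noncomputable def qB (τ : ℝ) : ℝ := Real.exp (-(2 * τ ^ 2) / 3)

/-- Condition under which the `S`-lemma applies to the pair `(1,y)`. -/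
def Kap (τ y : ℝ) : Prop := (1 - y ^ 2) * (1 - E τ) ≤ y * τ * G ((1 - y) * τ)

end GCube
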