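import Pool.Agent.Lib.H83.LemmaS1

/-!
Chunk LS: if `yτ G((1-y)τ) ≥ (1-y²)(1-g)` then `Y_1 C_y` is in the class `S_{yτ}`.

Write `C = C_y`, `𝔈(s) = ∫_{τ-s}^{τ+s} C`, `V(s) = ∫_0^τ w (U_w C)(s) dw = K_{U_s C}(τ)`, `𝔉 = V + 𝔈`.
Computation: `𝔉'(s) = Ξ(s) - s 𝔈(s)`, `Ξ(s) = κ(τ-s) + κ(τ+s)`, `κ = K_C + C`.
`κ(x) = yτ (G(x-yτ) + G(x+yτ))` for `0 ≤ x ≤ (1-y)τ`, and
`κ(x) = yτ (G(x-yτ) - G(u)) - (1-y²)(E(u) - g)`, `u = (x-τ)/y`, for `(1-y)τ ≤ x ≤ (1+y)τ`, `0` beyond.
So for `s ≤ yτ`: `Ξ(s) = yτ(G(a-s)+G(a+s)) - 2(1-y²)(E(s/y)-g)`, `a = (1-y)τ`, and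
`G(a-s)+G(a+s) ≥ 2 E(s) G(a)`, `E(s/y) - g ≤ (1-g) E(s)`, hence `Ξ ≥ 2E(s)[yτG(a)-(1-y²)(1-g)] ≥ 0`.
For `yτ ≤ s ≤ τ` clear. As `V ≥ 0` on `[0,τ]` (`K_box_nonneg`), `𝔈 ≤ 𝔉` and `𝔉' + s 𝔉 ≥ Ξ ≥ 0`, so
`𝔉 ≥ 0` on `[0,τ]`.

Then for `x, v ≤ yτ` (`T(x,v,w)` as in `ClassS`): `U_v Y_1 C (x) = ∫_0^τ w E(w) T(x,v,w) dw + g T(x,v,τ)`;
let `Γ(ρ) = ∫_0^ρ w T(x,v,w) dw`. `Γ(ρ) ≥ 0` for `ρ ≤ x+v` since `T ≥ 0` there, and for `ρ ≥ x + v`
`Γ(ρ) = ∫_{|x-v|}^{x+v} K_{U_r C}(ρ) dr ≥ 0` (`r ≤ x+v ≤ ρ`). Integrating by parts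
`U_v Y_1 C(x) = ∫ w E(w) Γ(w) dw + g (Γ(τ) + T(x,v,τ))`; if `x + v ≥ τ`, `T(x,v,τ) ≥ 0`; if `x+v < τ` then
`Γ(τ) + T(x,v,τ) = ∫_{|x-v|}^{x+v} 𝔉 ≥ 0`. The same with `K` in place of the box
(`K_{Y_1C}(t)`, `Γ(ρ) = ∫_0^ρ w K_{U_w C}(t) dw`). Positivity: `Y_1 C (x) ≥ g 𝔉(x) + ∫ w E K_{U_xC}(w) dw > 0`.
-/

open MeasureTheory Set
open scoped Real

namespace GCube

theorem LemmaS_csU_comm {f : ℝ → ℝ} (hf : Continuous f) (v w x : ℝ) :
    csU v (csU w f) x = csU w (csU v f) x := by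
  rw [csU_csU hf, csU_csU hf, show x + w + v = x + v + w by ring, show x + w - v = x - v + w by ring,
    show x - w + v = x + v - w by ring, show x - w - v = x - v - w by ring]
  ring

theorem LemmaS_csU_swap {f : ℝ → ℝ} (hf : Continuous f) (ho : ∀ x, f (-x) = - f x) (w x : ℝ) :
    csU w f x = csU x f w := by
  rw [csU_eq hf, csU_eq hf, show w - x = -(x - w) by ring, csF1_even ho, add_comm w x]

theorem LemmaS_K_deriv {h : ℝ → ℝ} (hh : Continuous h) (x : ℝ) : HasDerivAt (K h) (x * h x) x := by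
  have hc : Continuous fun u => u * h u := by fun_prop
  exact (hc.integral_hasStrictDerivAt 0 x).hasDerivAt

theorem LemmaS_K_cont {h : ℝ → ℝ} (hh : Continuous h) : Continuous (K h) :=
  continuous_iff_continuousAt.2 fun x => (LemmaS_K_deriv hh x).continuousAt

/-- integration by parts -/
theorem LemmaS_parts {τ : ℝ} {h : ℝ → ℝ} (hh : Continuous h) :
    ∫ t in (0 : ℝ)..τ, t * E t * h t = E τ * K h τ + ∫ t in (0 : ℝ)..τ, t * E t * K h t := by
  have hE := E_continuous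
  have hKc := LemmaS_K_cont hh
  have hd : ∀ t, HasDerivAt (fun t => E t * K h t) (-(t * E t) * K h t + E t * (t * h t)) t :=
    fun t => (ClassS_E_deriv t).mul (LemmaS_K_deriv hh t)
  have hI := intervalIntegral.integral_eq_sub_of_hasDerivAt (a := 0) (b := τ) (fun u _ => hd u)
    ((by fun_prop : Continuous fun t => -(t * E t) * K h t + E t * (t * h t)).intervalIntegrable _ _)
  rw [intervalIntegral.integral_add
    ((by fun_prop : Continuous fun t => -(t * E t) * K h t).intervalIntegrable _ _)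
    ((by fun_prop : Continuous fun t => E t * (t * h t)).intervalIntegrable _ _)] at hI
  have e1 : ∫ t in (0 : ℝ)..τ, -(t * E t) * K h t = -∫ t in (0 : ℝ)..τ, t * E t * K h t := by
    rw [← intervalIntegral.integral_neg]
    congr 1
    ext t
    ring
  have e2 : ∫ t in (0 : ℝ)..τ, E t * (t * h t) = ∫ t in (0 : ℝ)..τ, t * E t * h t := by
    congr 1
    ext t
    ring
  have e3 : K h 0 = 0 := by simp [K]
  rw [e1, e2, e3] at hI
  linarith

theorem LemmaS_KU_cont {f : ℝ → ℝ} (hf : Continuous f) (t : ℝ) : Continuous fun r => K (csU r f) t := by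
  have hF := csF1_cont hf
  unfold K
  simp only [csU_eq hf]
  fun_prop

theorem LemmaS_KT_eq {f : ℝ → ℝ} (hf : Continuous f) (ho : ∀ x, f (-x) = - f x) (v x ρ : ℝ) :
    K (fun w => csU w (csU v f) x) ρ = ∫ r in (x - v)..(x + v), K (csU r f) ρ := by
  have hF := csF1_cont hf
  unfold K
  have hk : Continuous (Function.uncurry fun r w : ℝ => w * csU r f w) := by
    unfold Function.uncurry
    simp only [csU_eq hf]
    fun_prop
  rw [ClassS_swap hk]
  congr 1
  ext w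
  rw [intervalIntegral.integral_const_mul]
  show w * csU w (csU v f) x = _
  rw [LemmaS_csU_comm hf]
  congr 1
  show ∫ r in (x - v)..(x + v), csU w f r = _
  congr 1
  ext r
  exact LemmaS_csU_swap hf ho w r

theorem LemmaS_KK_eq {f : ℝ → ℝ} (hf : Continuous f) (ho : ∀ x, f (-x) = - f x) (t ρ : ℝ) :
    K (fun w => K (csU w f) t) ρ = ∫ s in (0 : ℝ)..t, s * K (csU s f) ρ := by
  have hF := csF1_cont hf
  have e : ∀ s, s * K (csU s f) ρ = ∫ w in (0 : ℝ)..ρ, s * (w * csU s f w) := by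
    intro s
    unfold K
    rw [intervalIntegral.integral_const_mul]
  have hk : Continuous (Function.uncurry fun s w : ℝ => s * (w * csU s f w)) := by
    unfold Function.uncurry
    simp only [csU_eq hf]
    fun_prop
  simp only [e]
  rw [ClassS_swap hk]
  unfold K
  congr 1
  ext w
  rw [← intervalIntegral.integral_const_mul]
  congr 1
  ext s
  rw [LemmaS_csU_swap hf ho w s]
  ring

/-- triangle case of the triple difference -/
theorem LemmaS_tri {f : ℝ → ℝ} (hf : Continuous f) (ho : ∀ x, f (-x) = - f x)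
    (hK : ∀ x, 0 ≤ x → 0 ≤ K f x) {x v w : ℝ} (h1 : w ≤ x + v) (h2 : v ≤ x + w) (h3 : x ≤ v + w) :
    0 ≤ csU w (csU v f) x := by
  rw [csU_csU hf]
  have h4 := csF2_three hf hK (show 0 ≤ x + w - v by linarith) (show 0 ≤ x - w + v by linarith)
    (show 0 ≤ v + w - x by linarith)
  have e : x + w - v + (x - w + v) + (v + w - x) = x + w + v := by ring
  rw [e] at h4
  have e2 : csF2 f (x - w - v) = - csF2 f (v + w - x) := by
    rw [← csF2_odd ho]; congr 1; ring
  rw [e2]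
  linarith

section

variable {τ y : ℝ}

/-- the box inequality for `v ≤ x` -/
theorem LemmaS_box_aux (hτ : 0 < τ) (hy0 : 0 < y) (hy1 : y < 1) (h : Kap τ y) {x v : ℝ}
    (hv0 : 0 ≤ v) (hvx : v ≤ x) (hx : x ≤ y * τ) {ρ : ℝ} (hρ0 : 0 ≤ ρ) (hρ : ρ ≤ τ) :
    0 ≤ K (fun w => csU w (csU v (C τ y)) x) ρ ∧
      0 ≤ csU τ (csU v (C τ y)) x + K (fun w => csU w (csU v (C τ y)) x) τ := by
  have hS := C_inS hτ hy0 hy1
  have hc := hS.cont
  have ho := hS.odd
  have hK := hS.Knn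
  have hx0 : 0 ≤ x := hv0.trans hvx
  have hxτ : y * τ ≤ τ := by nlinarith
  -- `T ≥ 0` for `w ≤ x + v`
  have hT : ∀ w, 0 ≤ w → w ≤ x + v → 0 ≤ csU w (csU v (C τ y)) x := by
    intro w hw0 hw
    rcases le_total w (y * τ) with hwα | hwα
    · exact ClassS_T_nonneg hS hx0 hx hw0 hwα hv0 (hvx.trans hx)
    · exact LemmaS_tri hc ho hK hw (by linarith) (by linarith)
  -- `Γ ≥ 0`
  have hΓ : ∀ ρ, 0 ≤ ρ → 0 ≤ K (fun w => csU w (csU v (C τ y)) x) ρ := by
    intro ρ hρ0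
    rcases le_total ρ (x + v) with hρx | hρx
    · apply intervalIntegral.integral_nonneg hρ0
      intro w hw
      exact mul_nonneg hw.1 (hT w hw.1 (hw.2.trans hρx))
    · rw [LemmaS_KT_eq hc ho]
      apply intervalIntegral.integral_nonneg (by linarith)
      intro r hr
      exact K_box_nonneg hc ho hK (by linarith [hr.1]) (hr.2.trans hρx)
  refine ⟨hΓ ρ hρ0, ?_⟩
  rcases le_total τ (x + v) with hτx | hτx
  · exact add_nonneg (hT τ hτ.le hτx) (hΓ τ hτ.le)
  · rw [LemmaS_KT_eq hc ho, LemmaS_csU_comm hc]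
    have hKc := LemmaS_KU_cont hc τ
    have hUc := csU_cont hc τ
    have e : csU v (csU τ (C τ y)) x = ∫ r in (x - v)..(x + v), csU τ (C τ y) r := rfl
    rw [e, ← intervalIntegral.integral_add (hUc.intervalIntegrable _ _) (hKc.intervalIntegrable _ _)]
    apply intervalIntegral.integral_nonneg (by linarith)
    intro r hr
    have h1 := ls_F_nonneg hτ hy0 hy1 h (s := r) (by linarith [hr.1]) (hr.2.trans hτx)
    change 0 ≤ K (csU r (C τ y)) τ + csU r (C τ y) τ at h1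
    rw [LemmaS_csU_swap hc ho τ r]
    linarith

theorem LemmaS_box (hτ : 0 < τ) (hy0 : 0 < y) (hy1 : y < 1) (h : Kap τ y) {x v : ℝ}
    (hx0 : 0 ≤ x) (hx : x ≤ y * τ) (hv0 : 0 ≤ v) (hv : v ≤ y * τ) :
    0 ≤ csU v (Yop τ 1 (C τ y)) x := by
  have hS := C_inS hτ hy0 hy1
  have hc := hS.cont
  have ho := hS.odd
  have hE := E_continuous
  have hF := csF1_cont hc
  have hF2 := csF2_cont hc
  -- symmetric in `x, v`
  have key : ∀ ρ, 0 ≤ ρ → ρ ≤ τ → 0 ≤ K (fun w => csU w (csU v (C τ y)) x) ρ ∧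
      0 ≤ csU τ (csU v (C τ y)) x + K (fun w => csU w (csU v (C τ y)) x) τ := by
    intro ρ hρ0 hρ
    rcases le_total v x with hvx | hvx
    · exact LemmaS_box_aux hτ hy0 hy1 h hv0 hvx hx hρ0 hρ
    · have h1 := LemmaS_box_aux hτ hy0 hy1 h hx0 hvx hv hρ0 hρ
      have e : ∀ w, csU w (csU x (C τ y)) v = csU w (csU v (C τ y)) x := by
        intro w
        rw [csU_csU hc, csU_csU hc, show v + w + x = x + w + v by ring,
          show v + w - x = -(x - w - v) by ring, show v - w + x = x - w + v by ring,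
          show v - w - x = -(x + w - v) by ring, csF2_odd ho, csF2_odd ho]
        ring
      simpa only [e] using h1
  rw [csU_Yop hc]
  have hV := csU_cont hc v
  have h4 := ClassS_Yop_layer' hτ one_pos hV x
  have hT : Continuous fun w => csU w (csU v (C τ y)) x := by
    simp only [csU_csU hc]
    fun_prop
  simp only [one_mul] at h4
  rw [LemmaS_parts (h := fun w => csU w (csU v (C τ y)) x) hT] at h4
  rw [h4]
  have h5 := (key τ hτ.le le_rfl).2
  have h6 : 0 ≤ ∫ t in (0 : ℝ)..τ, t * E t * K (fun w => csU w (csU v (C τ y)) x) t := by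
    apply intervalIntegral.integral_nonneg hτ.le
    intro t ht
    exact mul_nonneg (mul_nonneg ht.1 (E_pos t).le) (key t ht.1 ht.2).1
  have h7 := mul_nonneg (E_pos τ).le h5
  nlinarith

theorem LemmaS_Knn (hτ : 0 < τ) (hy0 : 0 < y) (hy1 : y < 1) (h : Kap τ y) {t : ℝ}
    (ht : 0 ≤ t) : 0 ≤ K (Yop τ 1 (C τ y)) t := by
  have hS := C_inS hτ hy0 hy1
  have hc := hS.cont
  have ho := hS.odd
  have hK := hS.Knn
  have hKc := LemmaS_KU_cont hc t
  have h4 := ClassS_K_Yop hτ one_pos hc t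
  simp only [one_mul] at h4
  rw [LemmaS_parts (h := fun w => K (csU w (C τ y)) t) hKc] at h4
  rw [h4]
  have hΓ : ∀ ρ, 0 ≤ ρ → ρ ≤ τ → 0 ≤ K (fun w => K (csU w (C τ y)) t) ρ := by
    intro ρ hρ0 hρ
    rcases le_total ρ t with hρt | hρt
    · apply intervalIntegral.integral_nonneg hρ0
      intro w hw
      exact mul_nonneg hw.1 (K_box_nonneg hc ho hK hw.1 (hw.2.trans hρt))
    · rw [LemmaS_KK_eq hc ho]
      apply intervalIntegral.integral_nonneg ht
      intro s hs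
      exact mul_nonneg hs.1 (K_box_nonneg hc ho hK hs.1 (hs.2.trans hρt))
  have h5 : 0 ≤ K (csU τ (C τ y)) t + K (fun w => K (csU w (C τ y)) t) τ := by
    rcases le_total τ t with hτt | hτt
    · exact add_nonneg (K_box_nonneg hc ho hK hτ.le hτt) (hΓ τ hτ.le le_rfl)
    · rw [LemmaS_KK_eq hc ho]
      have e : K (csU τ (C τ y)) t = ∫ s in (0 : ℝ)..t, s * csU τ (C τ y) s := rfl
      have hUc := csU_cont hc τ
      have hKc' := LemmaS_KU_cont hc τ
      rw [e, ← intervalIntegral.integral_add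
        ((by fun_prop : Continuous fun s => s * csU τ (C τ y) s).intervalIntegrable _ _)
        ((by fun_prop : Continuous fun s => s * K (csU s (C τ y)) τ).intervalIntegrable _ _)]
      apply intervalIntegral.integral_nonneg ht
      intro s hs
      have h1 := ls_F_nonneg hτ hy0 hy1 h (s := s) hs.1 (hs.2.trans hτt)
      change 0 ≤ K (csU s (C τ y)) τ + csU s (C τ y) τ at h1
      rw [LemmaS_csU_swap hc ho τ s]
      have := mul_nonneg hs.1 h1
      linarith
  have h6 : 0 ≤ ∫ s in (0 : ℝ)..τ, s * E s * K (fun w => K (csU w (C τ y)) t) s := by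
    apply intervalIntegral.integral_nonneg hτ.le
    intro s hs
    exact mul_nonneg (mul_nonneg hs.1 (E_pos s).le) (hΓ s hs.1 hs.2)
  have h7 := mul_nonneg (E_pos τ).le h5
  nlinarith

theorem LemmaS_pos (hτ : 0 < τ) (hy0 : 0 < y) (hy1 : y < 1) (h : Kap τ y) {x : ℝ}
    (hx0 : 0 < x) (hx : x < y * τ) : 0 < Yop τ 1 (C τ y) x := by
  have hS := C_inS hτ hy0 hy1
  have hc := hS.cont
  have ho := hS.odd
  have hE := E_continuous
  have hxτ : y * τ < τ := by nlinarith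
  have hUx := csU_cont hc x
  have hKc := LemmaS_K_cont hUx
  have h4 := ClassS_Yop_layer' hτ one_pos hc x
  simp only [one_mul] at h4
  have e : ∀ t, csU t (C τ y) x = csU x (C τ y) t := fun t => LemmaS_csU_swap hc ho t x
  simp only [e] at h4
  rw [LemmaS_parts hUx] at h4
  have h5 := ls_F_nonneg hτ hy0 hy1 h (s := x) hx0.le (hx.trans hxτ).le
  change 0 ≤ K (csU x (C τ y)) τ + csU x (C τ y) τ at h5
  have hKn : ∀ w, 0 ≤ w → 0 ≤ K (csU x (C τ y)) w := fun w hw =>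
    ClassS_Kbox_nonneg hS hw hx0.le hx.le
  have h6 : 0 < ∫ t in (0 : ℝ)..τ, t * E t * K (csU x (C τ y)) t := by
    apply intervalIntegral.integral_pos hτ
    · exact (by fun_prop : Continuous fun t => t * E t * K (csU x (C τ y)) t).continuousOn
    · intro t ht
      exact mul_nonneg (mul_nonneg ht.1.le (E_pos t).le) (hKn t ht.1.le)
    · set δ := min x (y * τ - x) / 2 with hδ
      have hm : 0 < min x (y * τ - x) := lt_min hx0 (by linarith)
      have hδ0 : 0 < δ := by positivity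
      have hδ1 : δ < x := by have := min_le_left x (y * τ - x); linarith
      have hδ2 : δ < y * τ - x := by have := min_le_right x (y * τ - x); linarith
      refine ⟨δ, ⟨hδ0.le, by linarith⟩, mul_pos (mul_pos hδ0 (E_pos δ)) ?_⟩
      unfold K
      apply intervalIntegral.intervalIntegral_pos_of_pos_on
        ((by fun_prop : Continuous fun u => u * csU x (C τ y) u).intervalIntegrable _ _) _ hδ0
      intro s hs
      apply mul_pos hs.1
      rw [← e]
      unfold csU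
      apply intervalIntegral.intervalIntegral_pos_of_pos_on (hc.intervalIntegrable _ _)
      · intro u hu
        exact hS.pos u (by linarith [hu.1, hs.2]) (by linarith [hu.2, hs.2])
      · linarith [hs.1]
  have h7 := mul_nonneg (E_pos τ).le h5
  nlinarith

end

theorem lemmaS {τ y : ℝ} (hτ : 0 < τ) (hy0 : 0 < y) (hy1 : y < 1) (h : Kap τ y) :
    InS (y * τ) (Yop τ 1 (C τ y)) := by
  have hS := C_inS hτ hy0 hy1
  have hc := hS.cont
  refine ⟨ClassS_Yop_continuous hc, ClassS_Yop_odd hc hS.odd, ?_, ?_, ?_, ?_⟩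
  · obtain ⟨R, hR⟩ := hS.supp
    refine ⟨R + 1 * τ, fun x hx => ?_⟩
    unfold GCube.Yop
    rw [show (0 : ℝ) = ∫ t in (-τ)..τ, (0 : ℝ) by simp]
    apply intervalIntegral.integral_congr
    intro t ht
    rw [uIcc_of_le (by linarith)] at ht
    have h1 : |1 * t| ≤ 1 * τ := by
      rw [one_mul, one_mul]
      exact abs_le.2 ht
    have h2 : R ≤ |x + 1 * t| := by
      have h3 := abs_sub_abs_le_abs_sub x (-(1 * t))
      rw [abs_neg, sub_neg_eq_add] at h3
      linarith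
    simp only
    rw [hR _ h2, mul_zero]
  · intro x h0 h1
    exact LemmaS_pos hτ hy0 hy1 h h0 h1
  · intro x v h0 h1 h2 h3
    exact LemmaS_box hτ hy0 hy1 h h0 h1 h2 h3
  · intro x hx
    exact LemmaS_Knn hτ hy0 hy1 h hx

theorem LemmaS_kap {τ y : ℝ} (hτ : 0 < τ) (hy0 : 0 < y) (hy1 : y < 1) (h : Kap τ y) :
    0 ≤ K (C τ y) τ + C τ y τ := by
  have hS := C_inS hτ hy0 hy1
  have hc := hS.cont
  have ho := hS.odd
  have hF2c := csF2_cont hc
  -- derivative of `s ↦ K (U_s C) τ + U_s C τ` at `0`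
  have hd : HasDerivAt (fun s => K (csU s (C τ y)) τ + csU s (C τ y) τ)
      (2 * (K (C τ y) τ + C τ y τ)) 0 := by
    have e : (fun s => K (csU s (C τ y)) τ + csU s (C τ y) τ) = fun s =>
        τ * (csF2 (C τ y) (τ + s) - csF2 (C τ y) (τ - s)) -
          (csF1 (csF2 (C τ y)) (τ + s) - csF1 (csF2 (C τ y)) (τ - s)) +
          (csF1 (C τ y) (τ + s) - csF1 (C τ y) (τ - s)) := by
      funext s
      rw [ClassS_Kbox_eq hc ho, csU_eq hc]
      congr 2
      exact intervalIntegral.integral_eq_sub_of_hasDerivAt (fun u _ => csF1_deriv hF2c u)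
        (hF2c.intervalIntegrable _ _)
    rw [e]
    have p1 : HasDerivAt (fun s : ℝ => τ + s) 1 0 := (hasDerivAt_id (0 : ℝ)).const_add τ
    have p2 : HasDerivAt (fun s : ℝ => τ - s) (-1) 0 := (hasDerivAt_id (0 : ℝ)).const_sub τ
    have q0 : τ + 0 = τ := add_zero τ
    have q1 : τ - 0 = τ := sub_zero τ
    have a1 : HasDerivAt (fun s => csF2 (C τ y) (τ + s)) (csF1 (C τ y) τ * 1) 0 := by
      have := (csF2_deriv hc (τ + 0)).comp (0 : ℝ) p1
      rwa [q0] at this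
    have a2 : HasDerivAt (fun s => csF2 (C τ y) (τ - s)) (csF1 (C τ y) τ * (-1)) 0 := by
      have := (csF2_deriv hc (τ - 0)).comp (0 : ℝ) p2
      rwa [q1] at this
    have b1 : HasDerivAt (fun s => csF1 (csF2 (C τ y)) (τ + s)) (csF2 (C τ y) τ * 1) 0 := by
      have := (csF1_deriv hF2c (τ + 0)).comp (0 : ℝ) p1
      rwa [q0] at this
    have b2 : HasDerivAt (fun s => csF1 (csF2 (C τ y)) (τ - s)) (csF2 (C τ y) τ * (-1)) 0 := by
      have := (csF1_deriv hF2c (τ - 0)).comp (0 : ℝ) p2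
      rwa [q1] at this
    have c1 : HasDerivAt (fun s => csF1 (C τ y) (τ + s)) (C τ y τ * 1) 0 := by
      have := (csF1_deriv hc (τ + 0)).comp (0 : ℝ) p1
      rwa [q0] at this
    have c2 : HasDerivAt (fun s => csF1 (C τ y) (τ - s)) (C τ y τ * (-1)) 0 := by
      have := (csF1_deriv hc (τ - 0)).comp (0 : ℝ) p2
      rwa [q1] at this
    refine ((((a1.sub a2).const_mul τ).sub (b1.sub b2)).add (c1.sub c2)).congr_deriv ?_
    rw [ClassS_K_eq hc]
    ring
  by_contra hneg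
  rw [not_le] at hneg
  have hlim := hd.tendsto_slope_zero_right
  have h2 : ∀ᶠ t in nhdsWithin (0 : ℝ) (Ioi 0), t⁻¹ • ((K (csU (0 + t) (C τ y)) τ + csU (0 + t) (C τ y) τ) -
      (K (csU 0 (C τ y)) τ + csU 0 (C τ y) τ)) < 0 :=
    hlim.eventually_lt_const (by linarith)
  have h3 : ∀ᶠ t in nhdsWithin (0 : ℝ) (Ioi 0), t ∈ Ioo 0 τ := Ioo_mem_nhdsGT hτ
  obtain ⟨t, ht1, ht2⟩ := (h2.and h3).exists
  have h5 := ls_F_nonneg hτ hy0 hy1 h (s := t) ht2.1.le ht2.2.le
  change 0 ≤ K (csU t (C τ y)) τ + csU t (C τ y) τ at h5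
  have e0 : csU 0 (C τ y) = fun _ => 0 := by
    funext u; simp [csU]
  have e1 : K (csU 0 (C τ y)) τ + csU 0 (C τ y) τ = 0 := by
    rw [e0]; simp [K]
  rw [e1, zero_add, sub_zero, smul_eq_mul] at ht1
  have := mul_nonneg (inv_pos.2 ht2.1).le h5
  linarith

theorem lemmaS_three {τ y : ℝ} (hτ : 0 < τ) (hy0 : 0 < y) (hy1 : y < 1) (h : Kap τ y) :
    0 < Lf τ 1 (C τ y) := by
  have hS := C_inS hτ hy0 hy1
  have hc := hS.cont
  have hE := E_continuous
  have hKc := LemmaS_K_cont hc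
  have hxτ : y * τ < τ := by nlinarith
  have hα : 0 < y * τ := by positivity
  unfold Lf
  simp only [one_mul]
  rw [LemmaS_parts hc]
  have h5 := mul_nonneg (E_pos τ).le (LemmaS_kap hτ hy0 hy1 h)
  obtain ⟨ε, hε, hKp⟩ := (hS.toInP hα).Kpos
  have h6 : 0 < ∫ t in (0 : ℝ)..τ, t * E t * K (C τ y) t := by
    apply intervalIntegral.integral_pos hτ
    · exact (by fun_prop : Continuous fun t => t * E t * K (C τ y) t).continuousOn
    · intro t ht
      exact mul_nonneg (mul_nonneg ht.1.le (E_pos t).le) (hS.Knn t ht.1.le)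
    · have hm : 0 < min ε τ := lt_min hε hτ
      refine ⟨min ε τ / 2, ⟨by positivity, ?_⟩, ?_⟩
      · have := min_le_right ε τ; linarith
      · apply mul_pos (mul_pos (by positivity) (E_pos _))
        apply hKp _ (by positivity)
        have := min_le_left ε τ; linarith
  nlinarith

end GCube
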