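import Pool.Agent.Lib.H83.Gthree
import Pool.Agent.Lib.H83.LemmaS
import Pool.Agent.Lib.H83.ClassP
import Pool.Agent.Lib.H83.FD

/-!
Chunk EX (easy): positivity of `D` in the four situations.
-/

open MeasureTheory Set
open scoped Real

namespace GCube

lemma Exch_const_pos {τ y b : ℝ} (hy0 : 0 < y) (hb : 0 < b) : 0 < 4 * π * E τ / (y * b) := by
  have h1 : 0 < E τ := Real.exp_pos _
  have h2 : 0 < π := Real.pi_pos
  positivity

theorem D_pos_S {τ y : ℝ} (hτ : 0 < τ) (hy0 : 0 < y) (hy1 : y < 1) {l : List ℝ}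
    (hl : ∀ b ∈ l, 0 ≤ b ∧ b ≤ y) (hp : ∃ b ∈ l, 0 < b) : 0 < D τ y l := by
  obtain ⟨b, hbl, hb⟩ := hp
  obtain ⟨s, t, hst⟩ := List.append_of_mem hbl
  have hperm : l.Perm (b :: (s ++ t)) := by
    rw [hst]; exact List.perm_middle
  rw [D_perm hperm, D_cons hτ hy0 hy1 hb]
  have hα : 0 < y * τ := mul_pos hy0 hτ
  refine mul_pos (Exch_const_pos hy0 hb) ?_
  refine InS.Lf_pos hτ hα hb ?_ (InS.Yl hτ hα ?_ (C_inS hτ hy0 hy1))
  · exact mul_le_mul_of_nonneg_right (hl b hbl).2 hτ.le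
  · intro c hc
    have hc' : c ∈ l := by
      rw [hst]
      rcases List.mem_append.1 hc with h | h
      · exact List.mem_append_left _ h
      · exact List.mem_append_right _ (List.mem_cons_of_mem _ h)
    exact ⟨(hl c hc').1, mul_le_mul_of_nonneg_right (hl c hc').2 hτ.le⟩

theorem D_pos_P {τ y c : ℝ} (hτ : 0 < τ) (hy0 : 0 < y) (hy1 : y < 1) (hc : 0 < c) (m : ℕ) {l : List ℝ}
    (hl : ∀ b ∈ l, 0 ≤ b ∧ b ≤ y) : 0 < D τ y (List.replicate (m + 2) c ++ l) := by
  have e1 : List.replicate (m + 2) c ++ l = c :: (List.replicate (m + 1) c ++ l) := by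
    rw [List.replicate_succ, List.cons_append]
  rw [e1, D_cons hτ hy0 hy1 hc]
  have hα : 0 < y * τ := mul_pos hy0 hτ
  refine mul_pos (Exch_const_pos hy0 hc) ?_
  have e2 : Yl τ (List.replicate (m + 1) c ++ l) (C τ y) =
      Yl τ (List.replicate (m + 1) c) (Yl τ l (C τ y)) := by
    unfold Yl
    rw [List.foldr_append]
  rw [e2]
  refine InP.block hτ hc ?_ m
  refine InS.toInP hα (InS.Yl hτ hα ?_ (C_inS hτ hy0 hy1))
  intro b hb
  exact ⟨(hl b hb).1, mul_le_mul_of_nonneg_right (hl b hb).2 hτ.le⟩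

lemma Exch_zero {τ y : ℝ} {l : List ℝ} (hl : ∀ b ∈ l, b = 0) :
    D τ y (1 :: l) = psi τ 0 ^ l.length * D τ y [1] := by
  unfold D
  rw [← integral_const_mul]
  congr 1
  funext s
  have h1 : psiProd τ (1 :: l) s = psi τ 0 ^ l.length * psiProd τ [1] s := by
    unfold psiProd
    have h2 : (l.map (fun b => psi τ (b * s))).prod = psi τ 0 ^ l.length := by
      have h3 : l.length = (l.map (fun b => psi τ (b * s))).length := by rw [List.length_map]
      rw [h3]
      apply List.prod_eq_pow_card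
      intro x hx
      rw [List.mem_map] at hx
      obtain ⟨b, hb, rfl⟩ := hx
      rw [hl b hb, zero_mul]
    rw [List.map_cons, List.prod_cons, h2]
    simp [mul_comm]
  rw [h1]
  ring

theorem D_pos_LS {τ y : ℝ} (hτ : 0 < τ) (hy0 : 0 < y) (hy1 : y < 1) (hK : Kap τ y) {l : List ℝ}
    (hl : ∀ b ∈ l, 0 ≤ b ∧ b ≤ y) : 0 < D τ y (1 :: l) := by
  have hα : 0 < y * τ := mul_pos hy0 hτ
  by_cases hp : ∃ b ∈ l, 0 < b
  · obtain ⟨b, hbl, hb⟩ := hp
    obtain ⟨s, t, hst⟩ := List.append_of_mem hbl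
    have hperm : (1 :: l).Perm (b :: ((s ++ t) ++ [1])) := by
      have h1 : l.Perm (b :: (s ++ t)) := by rw [hst]; exact List.perm_middle
      have h2 : (1 :: l).Perm (l ++ [1]) := (List.perm_append_singleton 1 l).symm
      exact h2.trans (h1.append_right [1])
    rw [D_perm hperm, D_cons hτ hy0 hy1 hb]
    refine mul_pos (Exch_const_pos hy0 hb) ?_
    have e2 : Yl τ ((s ++ t) ++ [1]) (C τ y) = Yl τ (s ++ t) (Yop τ 1 (C τ y)) := by
      unfold Yl
      rw [List.foldr_append]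
      rfl
    rw [e2]
    refine InS.Lf_pos hτ hα hb ?_ (InS.Yl hτ hα ?_ (lemmaS hτ hy0 hy1 hK))
    · exact mul_le_mul_of_nonneg_right (hl b hbl).2 hτ.le
    · intro c hc
      have hc' : c ∈ l := by
        rw [hst]
        rcases List.mem_append.1 hc with h | h
        · exact List.mem_append_left _ h
        · exact List.mem_append_right _ (List.mem_cons_of_mem _ h)
      exact ⟨(hl c hc').1, mul_le_mul_of_nonneg_right (hl c hc').2 hτ.le⟩
  · have h0 : ∀ b ∈ l, b = 0 := by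
      intro b hb
      by_contra hne
      exact hp ⟨b, hb, lt_of_le_of_ne (hl b hb).1 (Ne.symm hne)⟩
    rw [Exch_zero h0, D_cons hτ hy0 hy1 one_pos]
    refine mul_pos (pow_pos (psi_zero_pos hτ) _) (mul_pos (Exch_const_pos hy0 one_pos) ?_)
    exact lemmaS_three hτ hy0 hy1 hK

end GCube
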