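import Pool.Agent.Lib.H83.Gthree
import Pool.Agent.Lib.H83.FD

/-!
Chunk GEO: the Gaussian measure of a hyperplane section in terms of `Phi`.

Approach: let `H = aᗮ`, `|a| = 1`, `I(r) = ∫_H 1_{box}(x + r a) e^{-|x|²/2} dx`. Fubini on `ℝ^n = H ⊕ ℝ a` (measure preserving isometry)
gives `∫ φ(r) I(r) e^{-r²/2} dr = ∫_{box} φ(⟨a,x⟩) e^{-|x|²/2} dx` for bounded continuous `φ`; the right side is
`∫ φ(r) f(r) dr` with the continuous density `f = Yl τ (others) (rho τ |a i| |a j|)` of `Σ a_k Y_k`. So `I(r) e^{-r²/2} = f(r)`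
for a.e. `r`; both sides are continuous at `0` (dominated convergence; the faces `{x ∈ H : x_k = ±τ}` are null because
`e_k ∉ ℝ a` as `a` has two nonzero coordinates), so `I(0) = f(0) = Phi/(2π)` by `inv_Yl_rho`.
-/

open MeasureTheory Set
open scoped Real

namespace GCube

/-- The standard Gaussian measure on a subspace `H` of `ℝ^n`. -/
noncomputable def gaussOn {n : ℕ} (H : Submodule ℝ (EuclideanSpace ℝ (Fin n))) : Measure H :=
  (volume : Measure H).withDensity
    (fun x => ENNReal.ofReal ((2 * π) ^ (-(Module.finrank ℝ H : ℝ) / 2) * Real.exp (-‖x‖ ^ 2 / 2)))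

/-- Gaussian measure of the section of the cube `[-t/2,t/2]^n` by the hyperplane `a^⊥`. -/
noncomputable def secMeas {n : ℕ} (t : ℝ) (a : EuclideanSpace ℝ (Fin n)) : ℝ :=
  ((gaussOn (ℝ ∙ a)ᗮ) {x | ∀ i, |(x : EuclideanSpace ℝ (Fin n)) i| ≤ t / 2}).toReal

/-- truncated weight -/
noncomputable def Geo_h (τ y : ℝ) : ℝ := if |y| ≤ τ then E y else 0

/-- weight of the box -/
noncomputable def Geo_F (τ : ℝ) {n : ℕ} (x : EuclideanSpace ℝ (Fin n)) : ℝ := ∏ i, Geo_h τ (x i)

lemma Geo_h_eq (τ : ℝ) : Geo_h τ = (Icc (-τ) τ).indicator E := by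
  funext y
  unfold Geo_h
  by_cases h : |y| ≤ τ
  · rw [if_pos h, indicator_of_mem (show y ∈ Icc (-τ) τ from abs_le.1 h)]
  · rw [if_neg h, indicator_of_notMem (show y ∉ Icc (-τ) τ from fun h' => h (abs_le.2 h'))]

lemma Geo_h_meas (τ : ℝ) : Measurable (Geo_h τ) := by
  rw [Geo_h_eq]
  exact E_continuous.measurable.indicator measurableSet_Icc

lemma Geo_h_integrable (τ : ℝ) : Integrable (Geo_h τ) := by
  rw [Geo_h_eq, integrable_indicator_iff measurableSet_Icc]
  exact E_continuous.continuousOn.integrableOn_Icc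

lemma Geo_h_nonneg (τ y : ℝ) : 0 ≤ Geo_h τ y := by
  unfold Geo_h
  split_ifs
  · exact (E_pos y).le
  · exact le_rfl

lemma Geo_h_cexp_integrable (τ c : ℝ) :
    Integrable (fun y : ℝ => (Geo_h τ y : ℂ) * Complex.exp (-(c * y : ℝ) * Complex.I)) := by
  refine (Geo_h_integrable τ).ofReal.mul_bdd (c := 1) ?_ ?_
  · exact (by fun_prop : Continuous fun y : ℝ => Complex.exp (-(c * y : ℝ) * Complex.I)).aestronglyMeasurable
  · refine Filter.Eventually.of_forall fun y => ?_
    have : -((c * y : ℝ) : ℂ) * Complex.I = ((-(c * y) : ℝ) : ℂ) * Complex.I := by push_cast; ring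
    rw [this, Complex.norm_exp_ofReal_mul_I]

lemma Geo_fourier_one {τ : ℝ} (hτ : 0 < τ) (c : ℝ) :
    ∫ y : ℝ, (Geo_h τ y : ℂ) * Complex.exp (-(c * y : ℝ) * Complex.I) = (psi τ c : ℂ) := by
  have h1 : ∀ y : ℝ, (Geo_h τ y : ℂ) * Complex.exp (-(c * y : ℝ) * Complex.I) =
      (Icc (-τ) τ).indicator (fun y : ℝ => (E y * Real.cos (c * y) : ℝ) -
        (E y * Real.sin (c * y) : ℝ) * Complex.I) y := by
    intro y
    rw [Geo_h_eq]
    by_cases h : y ∈ Icc (-τ) τ
    · rw [indicator_of_mem h, indicator_of_mem h]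
      have : -((c * y : ℝ) : ℂ) * Complex.I = ((-(c * y) : ℝ) : ℂ) * Complex.I := by
        push_cast; ring
      rw [this, Complex.exp_mul_I, ← Complex.ofReal_cos, ← Complex.ofReal_sin, Real.cos_neg,
        Real.sin_neg]
      push_cast
      ring
    · rw [indicator_of_notMem h, indicator_of_notMem h]
      simp
  simp only [h1]
  have hE := E_continuous
  rw [integral_indicator measurableSet_Icc, integral_Icc_eq_integral_Ioc,
    ← intervalIntegral.integral_of_le (by linarith), intervalIntegral.integral_sub]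
  · rw [intervalIntegral.integral_mul_const, intervalIntegral.integral_ofReal,
      intervalIntegral.integral_ofReal, Gthree_sin_odd]
    simp [psi]
  · exact (by fun_prop : Continuous fun y : ℝ => ((E y * Real.cos (c * y) : ℝ) : ℂ)).intervalIntegrable _ _
  · exact (by fun_prop : Continuous fun y : ℝ => ((E y * Real.sin (c * y) : ℝ) : ℂ) * Complex.I).intervalIntegrable _ _

lemma Geo_F_nonneg (τ : ℝ) {n : ℕ} (x : EuclideanSpace ℝ (Fin n)) : 0 ≤ Geo_F τ x :=
  Finset.prod_nonneg fun i _ => Geo_h_nonneg τ (x i)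

lemma Geo_F_meas (τ : ℝ) {n : ℕ} : Measurable (Geo_F τ (n := n)) := by
  unfold Geo_F
  refine Finset.measurable_prod _ fun i _ => (Geo_h_meas τ).comp ?_
  exact (by fun_prop : Continuous fun x : EuclideanSpace ℝ (Fin n) => x i).measurable

lemma Geo_F_eq (τ : ℝ) {n : ℕ} (x : EuclideanSpace ℝ (Fin n)) :
    Geo_F τ x = if ∀ i, |x i| ≤ τ then Real.exp (-‖x‖ ^ 2 / 2) else 0 := by
  unfold Geo_F
  split_ifs with h
  · rw [EuclideanSpace.norm_sq_eq]
    have : ∀ i ∈ Finset.univ, Geo_h τ (x i) = Real.exp (-(x i) ^ 2 / 2) := by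
      intro i _
      unfold Geo_h E
      rw [if_pos (h i)]
    rw [Finset.prod_congr rfl this, ← Real.exp_sum]
    congr 1
    simp only [Real.norm_eq_abs, sq_abs]
    rw [← Finset.sum_div, Finset.sum_neg_distrib]
  · push Not at h
    obtain ⟨i, hi⟩ := h
    refine Finset.prod_eq_zero (Finset.mem_univ i) ?_
    unfold Geo_h
    rw [if_neg (not_le.2 hi)]

lemma Geo_F_integrable (τ : ℝ) (n : ℕ) : Integrable (Geo_F τ (n := n)) := by
  rw [← (PiLp.volume_preserving_toLp (Fin n)).integrable_comp_emb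
    (MeasurableEquiv.toLp 2 _).measurableEmbedding]
  exact Integrable.fintype_prod (f := fun (_ : Fin n) y => Geo_h τ y) fun _ => Geo_h_integrable τ

lemma Geo_F_integral {τ : ℝ} (hτ : 0 < τ) (n : ℕ) :
    ∫ x : EuclideanSpace ℝ (Fin n), Geo_F τ x = (2 * G τ) ^ n := by
  rw [← (PiLp.volume_preserving_toLp (Fin n)).integral_comp
    (MeasurableEquiv.toLp 2 _).measurableEmbedding]
  have h1 : ∫ y : ℝ, Geo_h τ y = 2 * G τ := by
    rw [Geo_h_eq, integral_indicator measurableSet_Icc, integral_Icc_eq_integral_Ioc,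
      ← intervalIntegral.integral_of_le (by linarith), ← psi_zero_eq]
    simp [psi]
  have := integral_fintype_prod_volume_eq_pow (ι := Fin n) (Geo_h τ)
  rw [h1, Fintype.card_fin] at this
  exact this

lemma Geo_F_fourier {τ : ℝ} (hτ : 0 < τ) {n : ℕ} (a : EuclideanSpace ℝ (Fin n)) (s : ℝ) :
    ∫ x : EuclideanSpace ℝ (Fin n), (Geo_F τ x : ℂ) *
      Complex.exp (-(s * inner ℝ a x : ℝ) * Complex.I) = ∏ i, (psi τ (a i * s) : ℂ) := by
  rw [← (PiLp.volume_preserving_toLp (Fin n)).integral_comp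
    (MeasurableEquiv.toLp 2 _).measurableEmbedding]
  have h := integral_fintype_prod_volume_eq_prod (ι := Fin n)
    (fun i (y : ℝ) => (Geo_h τ y : ℂ) * Complex.exp (-(a i * s * y : ℝ) * Complex.I))
  rw [Finset.prod_congr rfl (fun i _ => Geo_fourier_one hτ (a i * s))] at h
  rw [← h]
  congr 1
  funext x
  rw [Finset.prod_mul_distrib, ← Complex.exp_sum]
  congr 1
  · unfold Geo_F
    push_cast
    rfl
  · congr 1
    rw [← Finset.sum_mul]
    congr 1
    simp only [PiLp.inner_apply, RCLike.inner_apply, conj_trivial]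
    push_cast
    rw [Finset.mul_sum, ← Finset.sum_neg_distrib]
    refine Finset.sum_congr rfl fun i _ => ?_
    ring


/-! ### the orthogonal decomposition -/

/-- `(r, x) ↦ r a + x`. -/
noncomputable def Geo_equiv {n : ℕ} (a : EuclideanSpace ℝ (Fin n)) (ha : ‖a‖ = 1) :
    (ℝ × (ℝ ∙ a)ᗮ) ≃ᵐ EuclideanSpace ℝ (Fin n) :=
  ((MeasurableEquiv.prodCongr
      (LinearIsometryEquiv.toSpanUnitSingleton (𝕜 := ℝ) a ha).toHomeomorph.toMeasurableEquiv
      (MeasurableEquiv.refl _)).trans (MeasurableEquiv.toLp 2 ((ℝ ∙ a) × (ℝ ∙ a)ᗮ))).trans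
    (ℝ ∙ a).orthogonalDecomposition.symm.toHomeomorph.toMeasurableEquiv

lemma Geo_equiv_apply {n : ℕ} (a : EuclideanSpace ℝ (Fin n)) (ha : ‖a‖ = 1)
    (p : ℝ × (ℝ ∙ a)ᗮ) : Geo_equiv a ha p = p.1 • a + (p.2 : EuclideanSpace ℝ (Fin n)) := by
  simp [Geo_equiv, MeasurableEquiv.prodCongr]

lemma Geo_equiv_mp {n : ℕ} (a : EuclideanSpace ℝ (Fin n)) (ha : ‖a‖ = 1) :
    MeasurePreserving (Geo_equiv a ha) := by
  have m1 : MeasurePreserving (Prod.map (LinearIsometryEquiv.toSpanUnitSingleton (𝕜 := ℝ) a ha)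
      (id : (ℝ ∙ a)ᗮ → (ℝ ∙ a)ᗮ)) (volume.prod volume) (volume.prod volume) :=
    (LinearIsometryEquiv.measurePreserving
      (LinearIsometryEquiv.toSpanUnitSingleton (𝕜 := ℝ) a ha)).prod (MeasurePreserving.id volume)
  have m2 := WithLp.volume_preserving_toLp (ℝ ∙ a) (ℝ ∙ a)ᗮ
  have m3 := (ℝ ∙ a).orthogonalDecomposition.symm.measurePreserving
  exact m3.comp (m2.comp m1)

lemma Geo_inner {n : ℕ} (a : EuclideanSpace ℝ (Fin n)) (ha : ‖a‖ = 1) (r : ℝ)
    (x : (ℝ ∙ a)ᗮ) : inner ℝ a (r • a + (x : EuclideanSpace ℝ (Fin n))) = r := by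
  have h : inner ℝ a (x : EuclideanSpace ℝ (Fin n)) = 0 :=
    (Submodule.mem_orthogonal_singleton_iff_inner_right).1 x.2
  rw [inner_add_right, h, inner_smul_right, real_inner_self_eq_norm_sq, ha]
  simp

lemma Geo_norm {n : ℕ} (a : EuclideanSpace ℝ (Fin n)) (ha : ‖a‖ = 1) (r : ℝ)
    (x : (ℝ ∙ a)ᗮ) : ‖r • a + (x : EuclideanSpace ℝ (Fin n))‖ ^ 2 = r ^ 2 + ‖x‖ ^ 2 := by
  have h : inner ℝ a (x : EuclideanSpace ℝ (Fin n)) = 0 :=
    (Submodule.mem_orthogonal_singleton_iff_inner_right).1 x.2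
  rw [norm_add_sq_real, inner_smul_left, h, norm_smul, ha]
  simp

/-- The section integral at height `r` (times `exp(-r²/2)`). -/
noncomputable def Geo_f (τ : ℝ) {n : ℕ} (a : EuclideanSpace ℝ (Fin n)) (r : ℝ) : ℝ :=
  ∫ x : (ℝ ∙ a)ᗮ, Geo_F τ (r • a + (x : EuclideanSpace ℝ (Fin n)))

lemma Geo_prod_integrable (τ : ℝ) {n : ℕ} (a : EuclideanSpace ℝ (Fin n)) (ha : ‖a‖ = 1) :
    Integrable (fun p : ℝ × (ℝ ∙ a)ᗮ => Geo_F τ (p.1 • a + (p.2 : EuclideanSpace ℝ (Fin n))))
      (volume.prod volume) := by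
  have h := ((Geo_equiv_mp a ha).integrable_comp_emb (Geo_equiv a ha).measurableEmbedding).2
    (Geo_F_integrable τ n)
  refine h.congr (Filter.Eventually.of_forall fun p => ?_)
  simp only [Function.comp, Geo_equiv_apply]

lemma Geo_f_integrable (τ : ℝ) {n : ℕ} (a : EuclideanSpace ℝ (Fin n)) (ha : ‖a‖ = 1) :
    Integrable (Geo_f τ a) := (Geo_prod_integrable τ a ha).integral_prod_left

lemma Geo_fourier_f {τ : ℝ} (hτ : 0 < τ) {n : ℕ} (a : EuclideanSpace ℝ (Fin n)) (ha : ‖a‖ = 1)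
    (s : ℝ) : ∫ r : ℝ, (Geo_f τ a r : ℂ) * Complex.exp (-(s * r : ℝ) * Complex.I) =
      ∏ i, (psi τ (a i * s) : ℂ) := by
  rw [← Geo_F_fourier hτ a s, ← (Geo_equiv_mp a ha).integral_comp']
  simp only [Geo_equiv_apply, Geo_inner a ha]
  rw [Measure.volume_eq_prod, integral_prod]
  · congr 1
    funext r
    change _ = ∫ y : (ℝ ∙ a)ᗮ, (Geo_F τ (r • a + (y : EuclideanSpace ℝ (Fin n))) : ℂ) *
      Complex.exp (-(s * r : ℝ) * Complex.I)
    rw [integral_mul_const]
    congr 1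
    unfold Geo_f
    exact (integral_ofReal).symm
  · refine (Geo_prod_integrable τ a ha).ofReal.mul_bdd (c := 1) ?_ ?_
    · exact (by fun_prop : Continuous fun p : ℝ × (ℝ ∙ a)ᗮ =>
        Complex.exp (-(s * p.1 : ℝ) * Complex.I)).aestronglyMeasurable
    · refine Filter.Eventually.of_forall fun p => ?_
      have : -((s * p.1 : ℝ) : ℂ) * Complex.I = ((-(s * p.1) : ℝ) : ℂ) * Complex.I := by
        push_cast; ring
      rw [this, Complex.norm_exp_ofReal_mul_I]

/-- the Gaussian weight on a subspace is integrable -/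
lemma Geo_gauss_integrable {n : ℕ} (H : Submodule ℝ (EuclideanSpace ℝ (Fin n))) :
    Integrable (fun x : H => Real.exp (-‖x‖ ^ 2 / 2)) := by
  have h := (GaussianFourier.integrable_cexp_neg_mul_sq_norm_add (V := H) (b := 1 / 2)
    (by norm_num) 0 0).norm
  refine h.congr (Filter.Eventually.of_forall fun x => ?_)
  simp only [zero_mul, add_zero]
  rw [Complex.norm_exp]
  congr 1
  have : (-(1 / 2 : ℂ) * (‖x‖ : ℂ) ^ 2) = ((-(1 / 2) * ‖x‖ ^ 2 : ℝ) : ℂ) := by push_cast; ring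
  rw [this, Complex.ofReal_re]
  ring

/-- the section measure as an integral -/
lemma Geo_secMeas {n : ℕ} {t : ℝ} (a : EuclideanSpace ℝ (Fin n)) (ha : ‖a‖ = 1) :
    secMeas t a = (2 * π) ^ (-((n : ℝ) - 1) / 2) * Geo_f (t / 2) a 0 := by
  have hn : Module.finrank ℝ (ℝ ∙ a)ᗮ + 1 = n := by
    have h := Submodule.finrank_add_finrank_orthogonal (ℝ ∙ a)
    rw [finrank_span_singleton (by rintro rfl; simp at ha), finrank_euclideanSpace,
      Fintype.card_fin] at h
    omega
  have hn' : (Module.finrank ℝ (ℝ ∙ a)ᗮ : ℝ) = (n : ℝ) - 1 := by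
    have h' := congrArg (Nat.cast (R := ℝ)) hn
    push_cast at h'
    linarith
  set S : Set ((ℝ ∙ a)ᗮ) := {x | ∀ i, |(x : EuclideanSpace ℝ (Fin n)) i| ≤ t / 2} with hS
  have hSm : MeasurableSet S := by
    have : S = ⋂ i, {x : (ℝ ∙ a)ᗮ | |(x : EuclideanSpace ℝ (Fin n)) i| ≤ t / 2} := by
      ext x; simp [hS]
    rw [this]
    refine MeasurableSet.iInter fun i => ?_
    exact (isClosed_le (by fun_prop) continuous_const).measurableSet
  unfold secMeas gaussOn
  rw [withDensity_apply _ hSm, hn']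
  set c := (2 * π) ^ (-((n : ℝ) - 1) / 2) with hc
  have hc0 : 0 ≤ c := by positivity
  have hint : Integrable (fun x : (ℝ ∙ a)ᗮ => c * Real.exp (-‖x‖ ^ 2 / 2)) :=
    (Geo_gauss_integrable _).const_mul c
  rw [← ofReal_integral_eq_lintegral_ofReal hint.integrableOn
    (Filter.Eventually.of_forall fun x => mul_nonneg hc0 (Real.exp_pos _).le),
    ENNReal.toReal_ofReal (integral_nonneg fun x => mul_nonneg hc0 (Real.exp_pos _).le),
    integral_const_mul]
  congr 1
  unfold Geo_f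
  rw [← integral_indicator hSm]
  congr 1
  funext x
  rw [zero_smul, zero_add, Geo_F_eq]
  by_cases hx : ∀ i, |(x : EuclideanSpace ℝ (Fin n)) i| ≤ t / 2
  · rw [if_pos hx, indicator_of_mem (show x ∈ S from hx)]
    rfl
  · rw [if_neg hx, indicator_of_notMem (show x ∉ S from hx)]

/-- coordinates are not constant on parts of positive measure of `a^⊥` -/
lemma Geo_null {n : ℕ} (a : EuclideanSpace ℝ (Fin n)) (h2 : TwoNz (fun i => a i)) (k : Fin n)
    (c : ℝ) : (volume : Measure ((ℝ ∙ a)ᗮ)) {x | (x : EuclideanSpace ℝ (Fin n)) k = c} = 0 := by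
  obtain ⟨j, hjk, haj⟩ : ∃ j, j ≠ k ∧ a j ≠ 0 := by
    obtain ⟨i, j, hij, hi, hj⟩ := h2
    by_cases h : i = k
    · exact ⟨j, by rintro rfl; exact hij h, hj⟩
    · exact ⟨i, h, hi⟩
  -- a vector of `a^⊥` with nonzero `k`-th coordinate
  set v : EuclideanSpace ℝ (Fin n) :=
    a j • EuclideanSpace.single k (1 : ℝ) - a k • EuclideanSpace.single j (1 : ℝ) with hv
  have hvH : v ∈ (ℝ ∙ a)ᗮ := by
    rw [Submodule.mem_orthogonal_singleton_iff_inner_right, hv, inner_sub_right, inner_smul_right,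
      inner_smul_right]
    simp [EuclideanSpace.inner_single_right]
    ring
  have hvk : v k = a j := by
    simp [hv, hjk.symm]
  set ℓ : (ℝ ∙ a)ᗮ →ₗ[ℝ] ℝ :=
    (EuclideanSpace.proj (𝕜 := ℝ) k).toLinearMap ∘ₗ ((ℝ ∙ a)ᗮ).subtype with hℓ
  have hℓx : ∀ x : (ℝ ∙ a)ᗮ, ℓ x = (x : EuclideanSpace ℝ (Fin n)) k := fun x => rfl
  have hker : LinearMap.ker ℓ ≠ ⊤ := by
    intro h
    have : (⟨v, hvH⟩ : (ℝ ∙ a)ᗮ) ∈ LinearMap.ker ℓ := by rw [h]; trivial
    rw [LinearMap.mem_ker, hℓx] at this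
    exact haj (hvk ▸ this)
  have h0 := Measure.addHaar_submodule (volume : Measure ((ℝ ∙ a)ᗮ)) _ hker
  by_cases hne : ∃ p : (ℝ ∙ a)ᗮ, (p : EuclideanSpace ℝ (Fin n)) k = c
  · obtain ⟨p, hp⟩ := hne
    have : {x : (ℝ ∙ a)ᗮ | (x : EuclideanSpace ℝ (Fin n)) k = c} =
        (fun x => x + (-p)) ⁻¹' (LinearMap.ker ℓ : Set ((ℝ ∙ a)ᗮ)) := by
      have e : ∀ x : (ℝ ∙ a)ᗮ, ℓ (x + -p) = (x : EuclideanSpace ℝ (Fin n)) k - c := by
        intro x
        rw [map_add, map_neg, hℓx, hℓx, hp, sub_eq_add_neg]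
      ext x
      change (x : EuclideanSpace ℝ (Fin n)) k = c ↔ ℓ (x + -p) = 0
      rw [e, sub_eq_zero]
    rw [this, measure_preimage_add_right]
    exact h0
  · push Not at hne
    have : {x : (ℝ ∙ a)ᗮ | (x : EuclideanSpace ℝ (Fin n)) k = c} = ∅ := by
      ext x
      simp only [mem_ofPred_eq, mem_empty_iff_false, iff_false]
      exact hne x
    rw [this, measure_empty]

lemma Geo_f_continuousAt {τ : ℝ} {n : ℕ} (a : EuclideanSpace ℝ (Fin n)) (ha : ‖a‖ = 1)
    (h2 : TwoNz (fun i => a i)) : ContinuousAt (Geo_f τ a) 0 := by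
  unfold Geo_f
  apply continuousAt_of_dominated (bound := fun x => Real.exp (-‖x‖ ^ 2 / 2))
  · refine Filter.Eventually.of_forall fun r => ?_
    refine ((Geo_F_meas τ).comp ?_).aestronglyMeasurable
    exact (by fun_prop : Continuous fun x : (ℝ ∙ a)ᗮ =>
      r • a + (x : EuclideanSpace ℝ (Fin n))).measurable
  · refine Filter.Eventually.of_forall fun r => Filter.Eventually.of_forall fun x => ?_
    rw [Real.norm_of_nonneg (Geo_F_nonneg _ _), Geo_F_eq]
    split_ifs
    · apply Real.exp_le_exp.2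
      rw [Geo_norm a ha]
      have : 0 ≤ r ^ 2 := sq_nonneg r
      linarith
    · exact (Real.exp_pos _).le
  · exact Geo_gauss_integrable _
  · have hnull : ∀ᵐ x : (ℝ ∙ a)ᗮ, ∀ i, (x : EuclideanSpace ℝ (Fin n)) i ≠ τ ∧
        (x : EuclideanSpace ℝ (Fin n)) i ≠ -τ := by
      rw [ae_all_iff]
      intro i
      have e1 : ∀ᵐ x : (ℝ ∙ a)ᗮ, (x : EuclideanSpace ℝ (Fin n)) i ≠ τ := by
        rw [ae_iff]; simpa using Geo_null a h2 i τ
      have e2 : ∀ᵐ x : (ℝ ∙ a)ᗮ, (x : EuclideanSpace ℝ (Fin n)) i ≠ -τ := by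
        rw [ae_iff]; simpa using Geo_null a h2 i (-τ)
      exact e1.and e2
    filter_upwards [hnull] with x hx
    unfold Geo_F
    apply tendsto_finsetProd
    intro i _
    have hcont : ContinuousAt (Geo_h τ) ((x : EuclideanSpace ℝ (Fin n)) i) := by
      rcases lt_trichotomy |(x : EuclideanSpace ℝ (Fin n)) i| τ with h | h | h
      · refine (E_continuous.continuousAt).congr ?_
        have : ∀ᶠ y in nhds ((x : EuclideanSpace ℝ (Fin n)) i), |y| < τ :=
          (continuous_abs.continuousAt).eventually (gt_mem_nhds h)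
        filter_upwards [this] with y hy
        unfold Geo_h
        rw [if_pos hy.le]
      · exfalso
        rcases abs_choice ((x : EuclideanSpace ℝ (Fin n)) i) with h' | h'
        · exact (hx i).1 (by rw [← h', h])
        · exact (hx i).2 (by rw [← h, h', neg_neg])
      · refine (continuousAt_const (y := (0 : ℝ))).congr ?_
        have : ∀ᶠ y in nhds ((x : EuclideanSpace ℝ (Fin n)) i), τ < |y| :=
          (continuous_abs.continuousAt).eventually (lt_mem_nhds h)
        filter_upwards [this] with y hy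
        unfold Geo_h
        rw [if_neg (not_le.2 hy)]
    have hlin : ContinuousAt (fun r : ℝ => (r • a + (x : EuclideanSpace ℝ (Fin n))) i) 0 :=
      (by fun_prop : Continuous fun r : ℝ => (r • a + (x : EuclideanSpace ℝ (Fin n))) i).continuousAt
    have h0 : ((0 : ℝ) • a + (x : EuclideanSpace ℝ (Fin n))) i =
        (x : EuclideanSpace ℝ (Fin n)) i := by simp
    have := ContinuousAt.comp (f := fun r : ℝ => (r • a + (x : EuclideanSpace ℝ (Fin n))) i)
      (g := Geo_h τ) (x := 0) (by rw [h0]; exact hcont) hlin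
    exact this


open FourierTransform in
/-- Fourier inversion at the continuity point `0`. -/
lemma Geo_f_zero {τ : ℝ} (hτ : 0 < τ) {n : ℕ} (a : EuclideanSpace ℝ (Fin n)) (ha : ‖a‖ = 1)
    (h2 : TwoNz (fun i => a i)) : Geo_f τ a 0 = (1 / (2 * π)) * Phi τ (fun i => a i) := by
  set f : ℝ → ℂ := fun r => (Geo_f τ a r : ℂ) with hf
  have hfi : Integrable f := (Geo_f_integrable τ a ha).ofReal
  have hF : 𝓕 f = fun ξ : ℝ => ((∏ i, psi τ (a i * (2 * π * ξ)) : ℝ) : ℂ) := by
    funext ξ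
    rw [Real.fourier_real_eq_integral_exp_smul]
    have h := Geo_fourier_f hτ a ha (2 * π * ξ)
    push_cast
    rw [← h]
    congr 1
    funext r
    rw [smul_eq_mul, mul_comm]
    congr 2
    push_cast
    ring
  have hPhi := Phi_integrable hτ h2
  have hP2 : Integrable (fun ξ : ℝ => ∏ i, psi τ (a i * (2 * π * ξ))) :=
    hPhi.comp_mul_left' (R := 2 * π) (by positivity)
  have hFi : Integrable (𝓕 f) := by
    rw [hF]
    exact hP2.ofReal
  have hinv := hfi.fourierInv_fourier_eq hFi (v := 0)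
    (Complex.continuous_ofReal.continuousAt.comp (Geo_f_continuousAt a ha h2))
  rw [Real.fourierInv_eq', hF] at hinv
  simp only [inner_zero_right, mul_zero, Complex.ofReal_zero, zero_mul, Complex.exp_zero,
    one_smul] at hinv
  have h4 : ∫ ξ : ℝ, ((∏ i, psi τ (a i * (2 * π * ξ)) : ℝ) : ℂ) =
      ((∫ ξ : ℝ, ∏ i, psi τ (a i * (2 * π * ξ)) : ℝ) : ℂ) := integral_ofReal
  rw [h4] at hinv
  have h3 : ∫ ξ : ℝ, ∏ i, psi τ (a i * (2 * π * ξ)) = (1 / (2 * π)) * Phi τ (fun i => a i) := by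
    have := Measure.integral_comp_mul_left (fun s : ℝ => ∏ i, psi τ (a i * s)) (2 * π)
    rw [this, abs_of_pos (by positivity), smul_eq_mul, one_div]
    rfl
  rw [h3] at hinv
  have h5 : ((Geo_f τ a 0 : ℝ) : ℂ) = (((1 / (2 * π)) * Phi τ (fun i => a i) : ℝ) : ℂ) := hinv.symm
  exact Complex.ofReal_injective h5

/-- two nonzero coordinates -/
theorem secMeas_eq {n : ℕ} {t : ℝ} (ht : 0 < t) {a : EuclideanSpace ℝ (Fin n)} (ha : ‖a‖ = 1)
    (h2 : TwoNz (fun i => a i)) :
    secMeas t a = (2 * π) ^ (-((n : ℝ) + 1) / 2) * F0 (t / 2) (fun i => a i) := by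
  rw [Geo_secMeas a ha, Geo_f_zero (by linarith) a ha h2]
  have h1 : Real.sqrt (∑ i, a i ^ 2) = 1 := by
    rw [← ha, EuclideanSpace.norm_eq]
    simp
  unfold F0
  rw [h1, one_mul, ← mul_assoc]
  congr 1
  rw [one_div, ← Real.rpow_neg_one (2 * π), ← Real.rpow_add (by positivity)]
  congr 1
  ring

/-- a coordinate vector -/
theorem secMeas_coord {n : ℕ} {t : ℝ} (ht : 0 < t) {a : EuclideanSpace ℝ (Fin n)} (ha : ‖a‖ = 1)
    (h2 : ¬ TwoNz (fun i => a i)) :
    secMeas t a = (2 * G (t / 2) / Real.sqrt (2 * π)) ^ (n - 1) := by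
  -- the nonzero coordinate
  obtain ⟨k, hk⟩ : ∃ k, a k ≠ 0 := by
    by_contra h
    push Not at h
    have : a = 0 := by ext i; simpa using h i
    rw [this] at ha
    simp at ha
  have hz : ∀ j, j ≠ k → a j = 0 := by
    intro j hj
    by_contra h
    exact h2 ⟨j, k, hj, h, hk⟩
  have hn : 0 < n := k.pos
  set τ := t / 2 with hτdef
  have hτ : 0 < τ := by positivity
  have hak : |a k| = 1 := by
    have h := ha
    rw [EuclideanSpace.norm_eq, Finset.sum_eq_single k] at h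
    · rw [Real.sqrt_sq (norm_nonneg _)] at h
      exact h
    · intro j _ hj
      rw [hz j hj]; simp
    · intro h'; exact absurd (Finset.mem_univ k) h'
  -- elements of the hyperplane have zero `k`-th coordinate
  have hxk : ∀ x : (ℝ ∙ a)ᗮ, (x : EuclideanSpace ℝ (Fin n)) k = 0 := by
    intro x
    have h : inner ℝ a (x : EuclideanSpace ℝ (Fin n)) = 0 :=
      (Submodule.mem_orthogonal_singleton_iff_inner_right).1 x.2
    rw [PiLp.inner_apply, Finset.sum_eq_single k] at h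
    · simp only [RCLike.inner_apply, conj_trivial, mul_eq_zero] at h
      tauto
    · intro j _ hj
      rw [hz j hj]; simp
    · intro h'; exact absurd (Finset.mem_univ k) h'
  have hE0 : E 0 = 1 := by simp [E]
  have hh0 : Geo_h τ 0 = 1 := by
    unfold Geo_h
    rw [if_pos (by simpa using hτ.le), hE0]
  have hprod : ∀ (r : ℝ) (x : (ℝ ∙ a)ᗮ), Geo_F τ (r • a + (x : EuclideanSpace ℝ (Fin n))) =
      Geo_h τ r * Geo_F τ (x : EuclideanSpace ℝ (Fin n)) := by
    intro r x
    unfold Geo_F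
    rw [← Finset.mul_prod_erase Finset.univ _ (Finset.mem_univ k),
      ← Finset.mul_prod_erase Finset.univ (fun i => Geo_h τ ((x : EuclideanSpace ℝ (Fin n)) i))
        (Finset.mem_univ k), hxk, hh0, one_mul]
    congr 1
    · have h1 : (r • a + (x : EuclideanSpace ℝ (Fin n))) k = r * a k := by
        simp [hxk]
      rw [h1]
      have h3 : |r * a k| = |r| := by rw [abs_mul, hak, mul_one]
      have h4 : (r * a k) ^ 2 = r ^ 2 := by rw [← sq_abs, h3, sq_abs]
      unfold Geo_h E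
      rw [h3, h4]
    · refine Finset.prod_congr rfl fun j hj => ?_
      have hj' : j ≠ k := Finset.ne_of_mem_erase hj
      congr 1
      simp [hz j hj']
  have hint := Geo_F_integral hτ n
  rw [← (Geo_equiv_mp a ha).integral_comp'] at hint
  simp only [Geo_equiv_apply] at hint
  rw [Measure.volume_eq_prod, integral_prod _ (Geo_prod_integrable τ a ha)] at hint
  simp only [hprod] at hint
  simp only [integral_const_mul] at hint
  rw [integral_mul_const] at hint
  have h1 : ∫ y : ℝ, Geo_h τ y = 2 * G τ := by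
    rw [Geo_h_eq, integral_indicator measurableSet_Icc, integral_Icc_eq_integral_Ioc,
      ← intervalIntegral.integral_of_le (by linarith), ← psi_zero_eq]
    simp [psi]
  have hG : 0 < 2 * G τ := by rw [← psi_zero_eq]; exact psi_zero_pos hτ
  have hf0 : Geo_f τ a 0 = ∫ x : (ℝ ∙ a)ᗮ, Geo_F τ (x : EuclideanSpace ℝ (Fin n)) := by
    unfold Geo_f
    simp only [zero_smul, zero_add]
  rw [h1, ← hf0] at hint
  obtain ⟨m, rfl⟩ : ∃ m, n = m + 1 := ⟨n - 1, by omega⟩
  have hfm : Geo_f τ a 0 = (2 * G τ) ^ m := by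
    rw [pow_succ'] at hint
    exact mul_left_cancel₀ hG.ne' hint
  have e : (2 * π) ^ (-(((m + 1 : ℕ) : ℝ) - 1) / 2) = (Real.sqrt (2 * π) ^ m)⁻¹ := by
    rw [Real.sqrt_eq_rpow, ← Real.rpow_natCast, ← Real.rpow_mul (by positivity),
      ← Real.rpow_neg (by positivity)]
    congr 1
    push_cast
    ring
  rw [Geo_secMeas a ha, ← hτdef, hfm, div_pow, Nat.add_sub_cancel, e, mul_comm, ← div_eq_mul_inv]

end GCube
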