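import Pool.Agent.Lib.H83.Classify
import Pool.Agent.Lib.H83.Geo
import Pool.Agent.Lib.H83.Two

/-!
Final assembly: values of the section measure for the two types of unit vectors and the classification of maximisers.
-/

open MeasureTheory Set
open scoped Real

namespace GCube

/-- `(1/√(2π)) ∫_{-x}^x e^{-u²/2} du` -/
noncomputable def Fin_g (x : ℝ) : ℝ := (Real.sqrt (2 * π))⁻¹ * ∫ u in (-x)..x, Real.exp (-u ^ 2 / 2)

/-- `(1/√(2π)) ∫_{-t/2}^{t/2} e^{-u²/2} cos(su) du` -/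
noncomputable def Fin_c (t s : ℝ) : ℝ :=
  (Real.sqrt (2 * π))⁻¹ * ∫ u in (-(t / 2))..(t / 2), Real.exp (-u ^ 2 / 2) * Real.cos (s * u)

noncomputable def Fin_pair (n : ℕ) (t : ℝ) : ℝ := Fin_g (t / Real.sqrt 2) * Fin_g (t / 2) ^ (n - 2)

noncomputable def Fin_diag (n : ℕ) (t : ℝ) : ℝ := Real.sqrt (n / (2 * π)) * ∫ s : ℝ, Fin_c t s ^ n

lemma Fin_g_eq (x : ℝ) : Fin_g x = 2 * G x / Real.sqrt (2 * π) := by
  unfold Fin_g
  have h : ∫ u in (-x)..x, Real.exp (-u ^ 2 / 2) = 2 * G x := by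
    have h1 : ∀ u : ℝ, Real.exp (-u ^ 2 / 2) = E u := fun u => rfl
    simp only [h1]
    unfold G
    exact psi_symm_even E_continuous E_neg x
  rw [h]
  ring

lemma Fin_c_eq (t s : ℝ) : Fin_c t s = psi (t / 2) s / Real.sqrt (2 * π) := by
  unfold Fin_c psi
  have h1 : ∀ u : ℝ, Real.exp (-u ^ 2 / 2) = E u := fun u => rfl
  simp only [h1]
  ring

lemma Fin_sqrt_pow (n : ℕ) : (2 * π) ^ (-((n : ℝ) + 1) / 2) =
    (Real.sqrt (2 * π))⁻¹ ^ n * (Real.sqrt (2 * π))⁻¹ := by
  have h : (Real.sqrt (2 * π))⁻¹ = (2 * π) ^ (-(1 : ℝ) / 2) := by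
    rw [Real.sqrt_eq_rpow, ← Real.rpow_neg (by positivity)]
    congr 1
    ring
  rw [h, ← pow_succ, ← Real.rpow_natCast, ← Real.rpow_mul (by positivity)]
  congr 1
  push_cast
  ring

/-- value of `F0` at vectors of pair type -/
lemma Fin_F0_pair {τ : ℝ} (hτ : 0 < τ) {n : ℕ} {a : Fin n → ℝ} {c : ℝ} (hc : 0 < c) {i j : Fin n}
    (hij : i ≠ j) (hi : |a i| = c) (hj : |a j| = c) (hk : ∀ k, k ≠ i → k ≠ j → a k = 0) :
    F0 τ a = 4 * π * (2 * G τ) ^ (n - 2) * G (τ * Real.sqrt 2) := by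
  have e1 : F0 τ (fun k => c⁻¹ * |a k|) = F0 τ a := by
    rw [F0_smul (fun k => |a k|) (inv_pos.2 hc), F0_abs]
  rw [← e1, F0_two hτ (a := fun k => c⁻¹ * |a k|) hij (by simp [hi, hc.ne']) (by simp [hj, hc.ne'])
    (by simp [hj, hc.ne']) (fun k hki hkj => by simp [hk k hki hkj])]
  simp only [hj, inv_mul_cancel₀ hc.ne']
  norm_num

/-- value of `F0` at vectors of diagonal type -/
lemma Fin_F0_diag {τ : ℝ} {n : ℕ} {a : Fin n → ℝ} {c : ℝ} (hc : 0 < c) (ha : ∀ i, |a i| = c) :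
    F0 τ a = Real.sqrt n * ∫ s : ℝ, psi τ s ^ n := by
  have e1 : F0 τ (fun k => c⁻¹ * |a k|) = F0 τ a := by
    rw [F0_smul (fun k => |a k|) (inv_pos.2 hc), F0_abs]
  rw [← e1]
  have e2 : (fun k => c⁻¹ * |a k|) = fun _ : Fin n => (1 : ℝ) := by
    funext k
    rw [ha k, inv_mul_cancel₀ hc.ne']
  rw [e2]
  unfold F0 Phi
  simp

lemma Fin_value_pair {n : ℕ} (hn : 2 ≤ n) {t : ℝ} (ht : 0 < t) :
    (2 * π) ^ (-((n : ℝ) + 1) / 2) *
      (4 * π * (2 * G (t / 2)) ^ (n - 2) * G (t / 2 * Real.sqrt 2)) = Fin_pair n t := by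
  unfold Fin_pair
  rw [Fin_g_eq, Fin_g_eq, Fin_sqrt_pow]
  have h2 : t / Real.sqrt 2 = t / 2 * Real.sqrt 2 := by
    have := Real.mul_self_sqrt (show (0 : ℝ) ≤ 2 by norm_num)
    field_simp
    nlinarith
  rw [h2]
  obtain ⟨m, rfl⟩ : ∃ m, n = m + 2 := ⟨n - 2, by omega⟩
  have hs : 0 < Real.sqrt (2 * π) := Real.sqrt_pos.2 (by positivity)
  have hs2 : Real.sqrt (2 * π) ^ 2 = 2 * π := Real.sq_sqrt (by positivity)
  rw [Nat.add_sub_cancel, div_pow, pow_add, inv_pow, inv_pow]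
  have h3 : 4 * π = 2 * Real.sqrt (2 * π) ^ 2 := by rw [hs2]; ring
  rw [h3]
  field_simp

lemma Fin_value_diag {n : ℕ} {t : ℝ} :
    (2 * π) ^ (-((n : ℝ) + 1) / 2) * (Real.sqrt n * ∫ s : ℝ, psi (t / 2) s ^ n) = Fin_diag n t := by
  unfold Fin_diag
  simp only [Fin_c_eq, div_pow]
  rw [integral_div, Fin_sqrt_pow, Real.sqrt_div (by positivity), inv_pow]
  ring

lemma Fin_norm_sq {n : ℕ} {a : EuclideanSpace ℝ (Fin n)} (ha : ‖a‖ = 1) : ∑ i, a i ^ 2 = 1 := by
  have h := EuclideanSpace.real_norm_sq_eq a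
  rw [ha] at h
  simpa using h.symm

theorem Fin_pair_sec {n : ℕ} {t : ℝ} (ht : 0 < t) {a : EuclideanSpace ℝ (Fin n)} (ha : ‖a‖ = 1)
    {i j : Fin n} (hij : i ≠ j) (hi : |a i| = 1 / Real.sqrt 2) (hj : |a j| = 1 / Real.sqrt 2)
    (hk : ∀ k, k ≠ i → k ≠ j → a k = 0) : secMeas t a = Fin_pair n t := by
  have hn : 2 ≤ n := by
    have h1 := i.isLt
    have h2 := j.isLt
    have h3 : (i : ℕ) ≠ j := fun h => hij (Fin.ext h)
    omega
  have hs : 0 < 1 / Real.sqrt 2 := by positivity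
  have h2 : TwoNz (fun i => a i) := by
    refine ⟨i, j, hij, fun h => ?_, fun h => ?_⟩
    · have h' : a i = 0 := h
      rw [h', abs_zero] at hi
      exact hs.ne hi
    · have h' : a j = 0 := h
      rw [h', abs_zero] at hj
      exact hs.ne hj
  rw [secMeas_eq ht ha h2, Fin_F0_pair (half_pos ht) hs hij hi hj hk]
  exact Fin_value_pair hn ht

theorem Fin_diag_sec {n : ℕ} (hn : 2 ≤ n) {t : ℝ} (ht : 0 < t) {a : EuclideanSpace ℝ (Fin n)}
    (ha : ‖a‖ = 1) (hd : ∀ i, |a i| = 1 / Real.sqrt n) : secMeas t a = Fin_diag n t := by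
  have hn0 : (0 : ℝ) < n := by positivity
  have hs : 0 < 1 / Real.sqrt n := by positivity
  have hne : ∀ i, a i ≠ 0 := fun i h => by
    have := hd i
    rw [h, abs_zero] at this
    exact hs.ne this
  have h2 : TwoNz (fun i => a i) := ⟨⟨0, by omega⟩, ⟨1, by omega⟩, by simp, hne _, hne _⟩
  rw [secMeas_eq ht ha h2, Fin_F0_diag hs hd]
  exact Fin_value_diag

/-- maximisers -/
theorem Fin_main {n : ℕ} (hn : 2 ≤ n) {t : ℝ} (ht : 124 / 100 ≤ t) :
    ∀ a : EuclideanSpace ℝ (Fin n), ‖a‖ = 1 →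
      secMeas t a ≤ max (Fin_pair n t) (Fin_diag n t) ∧
      (secMeas t a = max (Fin_pair n t) (Fin_diag n t) →
        (∃ i j, i ≠ j ∧ |a i| = 1 / Real.sqrt 2 ∧ |a j| = 1 / Real.sqrt 2 ∧
          ∀ k, k ≠ i → k ≠ j → a k = 0) ∨ ∀ i, |a i| = 1 / Real.sqrt n) := by
  have ht0 : 0 < t := by linarith
  have hτ : (62 / 100 : ℝ) ≤ t / 2 := by linarith
  have hτ0 : 0 < t / 2 := by linarith
  obtain ⟨b, hb⟩ := exists_IsMx hτ0 hn
  have hcpos : (0 : ℝ) < (2 * π) ^ (-((n : ℝ) + 1) / 2) := by positivity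
  have hpv := Fin_value_pair hn ht0
  have hdv := Fin_value_diag (n := n) (t := t)
  have hle : (2 * π) ^ (-((n : ℝ) + 1) / 2) * F0 (t / 2) b ≤ max (Fin_pair n t) (Fin_diag n t) := by
    rcases classify hτ hn hb with ⟨c, hc, h⟩ | ⟨c, hc, i, j, hij, hi, hj, hk⟩
    · rw [Fin_F0_diag hc h, hdv]
      exact le_max_right _ _
    · rw [Fin_F0_pair hτ0 hc hij hi hj hk, hpv]
      exact le_max_left _ _
  have hG0 : 0 < G (t / 2) := by
    have h := psi_zero_pos hτ0
    rw [psi_zero_eq] at h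
    linarith
  intro a ha
  by_cases h2 : TwoNz (fun i => a i)
  · have hab : F0 (t / 2) (fun i => a i) ≤ F0 (t / 2) b := hb.2 _ h2
    have hsec := secMeas_eq ht0 ha h2
    refine ⟨?_, fun heq => ?_⟩
    · rw [hsec]
      exact (mul_le_mul_of_nonneg_left hab hcpos.le).trans hle
    · have hge : F0 (t / 2) b ≤ F0 (t / 2) (fun i => a i) := by
        rw [hsec] at heq
        rw [← heq] at hle
        exact le_of_mul_le_mul_left hle hcpos
      have hm : IsMx (t / 2) (fun i => a i) := ⟨h2, fun d hd => (hb.2 d hd).trans hge⟩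
      have hns := Fin_norm_sq ha
      rcases classify hτ hn hm with ⟨c, hc, h⟩ | ⟨c, hc, i, j, hij, hi, hj, hk⟩
      · right
        have h3 : (n : ℝ) * c ^ 2 = 1 := by
          rw [← hns]
          have : ∀ i, a i ^ 2 = c ^ 2 := fun i => by rw [← sq_abs, h i]
          simp only [this]
          simp
        have hn0 : (0 : ℝ) < n := by positivity
        have hc2 : c = 1 / Real.sqrt n := by
          rw [eq_div_iff (by positivity)]
          have h4 : (c * Real.sqrt n) ^ 2 = 1 := by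
            rw [mul_pow, Real.sq_sqrt hn0.le]; linarith
          have h5 : 0 ≤ c * Real.sqrt n := by positivity
          nlinarith [sq_nonneg (c * Real.sqrt n - 1), sq_nonneg (c * Real.sqrt n + 1)]
        intro i
        rw [← hc2]
        exact h i
      · left
        have hmem : j ∈ Finset.univ.erase i := Finset.mem_erase.2 ⟨hij.symm, Finset.mem_univ j⟩
        have h3 : 2 * c ^ 2 = 1 := by
          rw [← hns, ← Finset.add_sum_erase Finset.univ _ (Finset.mem_univ i),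
            ← Finset.add_sum_erase (Finset.univ.erase i) _ hmem]
          rw [Finset.sum_eq_zero (s := (Finset.univ.erase i).erase j)]
          · rw [← sq_abs (a i), ← sq_abs (a j), hi, hj]; ring
          · intro k hk'
            rw [Finset.mem_erase, Finset.mem_erase] at hk'
            have := hk k hk'.2.1 hk'.1
            rw [this]
            ring
        have hc2 : c = 1 / Real.sqrt 2 := by
          rw [eq_div_iff (by positivity)]
          have h4 : (c * Real.sqrt 2) ^ 2 = 1 := by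
            rw [mul_pow, Real.sq_sqrt (by norm_num)]; linarith
          have h5 : 0 ≤ c * Real.sqrt 2 := by positivity
          nlinarith [sq_nonneg (c * Real.sqrt 2 - 1), sq_nonneg (c * Real.sqrt 2 + 1)]
        exact ⟨i, j, hij, by rw [← hc2]; exact hi, by rw [← hc2]; exact hj, hk⟩
  · -- coordinate vectors are never maximal
    have hlt : secMeas t a < Fin_pair n t := by
      rw [secMeas_coord ht0 ha h2]
      unfold Fin_pair
      rw [Fin_g_eq, Fin_g_eq]
      obtain ⟨m, rfl⟩ : ∃ m, n = m + 2 := ⟨n - 2, by omega⟩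
      have e1 : m + 2 - 1 = m + 1 := by omega
      rw [e1, Nat.add_sub_cancel, pow_succ']
      have hs : 0 < Real.sqrt (2 * π) := Real.sqrt_pos.2 (by positivity)
      refine mul_lt_mul_of_pos_right ?_ (by positivity)
      refine div_lt_div_of_pos_right ?_ hs
      have : G (t / 2) < G (t / Real.sqrt 2) := by
        apply Classify_G_lt
        have h1 : Real.sqrt 2 < 2 := by
          rw [Real.sqrt_lt' (by norm_num)]; norm_num
        exact div_lt_div_of_pos_left ht0 (by positivity) h1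
      linarith
    exact ⟨hlt.le.trans (le_max_left _ _), fun heq => absurd heq (ne_of_lt (hlt.trans_le (le_max_left _ _)))⟩

end GCube
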