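import Pool.Agent.Lib.H83.Psi

/-!
Chunk INV: Fourier inversion for two explicit continuous compactly supported functions.
Use `MeasureTheory.Integrable.fourierInv_fourier_eq` (or the `Continuous` version).
-/

open MeasureTheory Set
open scoped Real FourierTransform

namespace GCube

theorem inv_fourier_eq (f P Q : ℝ → ℝ) (hi : Integrable f)
    (hP : ∀ s, ∫ x, f x * Real.cos (s * x) = P s) (hQ : ∀ s, ∫ x, f x * Real.sin (s * x) = Q s)
    (w : ℝ) : 𝓕 (fun x => (f x : ℂ)) w = (P (2 * π * w) : ℂ) - Complex.I * (Q (2 * π * w) : ℂ) := by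
  rw [Real.fourier_real_eq_integral_exp_smul]
  have h1 : ∀ v : ℝ, Complex.exp (↑(-2 * π * v * w) * Complex.I) • (f v : ℂ) =
      ((f v * Real.cos (2 * π * w * v) : ℝ) : ℂ) - Complex.I * ((f v * Real.sin (2 * π * w * v) : ℝ) : ℂ) := by
    intro v
    rw [Complex.exp_mul_I, smul_eq_mul, ← Complex.ofReal_cos, ← Complex.ofReal_sin]
    have : -2 * π * v * w = -(2 * π * w * v) := by ring
    rw [this, Real.cos_neg, Real.sin_neg]
    push_cast
    ring
  simp_rw [h1]
  have hc1 : Integrable (fun v : ℝ => f v * Real.cos (2 * π * w * v)) := by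
    refine hi.mul_bdd (c := 1) ?_ ?_
    · exact (by fun_prop : Continuous fun v : ℝ => Real.cos (2 * π * w * v)).aestronglyMeasurable
    · filter_upwards with v
      rw [Real.norm_eq_abs]
      exact Real.abs_cos_le_one _
  have hs1 : Integrable (fun v : ℝ => f v * Real.sin (2 * π * w * v)) := by
    refine hi.mul_bdd (c := 1) ?_ ?_
    · exact (by fun_prop : Continuous fun v : ℝ => Real.sin (2 * π * w * v)).aestronglyMeasurable
    · filter_upwards with v
      rw [Real.norm_eq_abs]
      exact Real.abs_sin_le_one _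
  rw [integral_sub hc1.ofReal (hs1.ofReal.const_mul _), integral_const_mul, integral_complex_ofReal,
    integral_complex_ofReal, hP, hQ]

theorem inv_general (f P Q : ℝ → ℝ) (hc : Continuous f) (hi : Integrable f)
    (hP : ∀ s, ∫ x, f x * Real.cos (s * x) = P s) (hQ : ∀ s, ∫ x, f x * Real.sin (s * x) = Q s)
    (hPi : Integrable P) (hQi : Integrable Q) (x : ℝ) :
    f x = (1 / (2 * π)) * ∫ s : ℝ, (P s * Real.cos (s * x) + Q s * Real.sin (s * x)) := by
  have hF := inv_fourier_eq f P Q hi hP hQ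
  have h2π : (2 * π : ℝ) ≠ 0 := by positivity
  have hFi : Integrable (𝓕 (fun x => (f x : ℂ))) := by
    have : 𝓕 (fun x => (f x : ℂ)) = fun w => (P (2 * π * w) : ℂ) - Complex.I * (Q (2 * π * w) : ℂ) :=
      funext hF
    rw [this]
    exact (hPi.comp_mul_left' h2π).ofReal.sub (((hQi.comp_mul_left' h2π).ofReal).const_mul _)
  have h := congrFun (Continuous.fourierInv_fourier_eq (Complex.continuous_ofReal.comp hc)
    (hi.ofReal (𝕜 := ℂ)) hFi) x
  rw [Real.fourierInv_eq'] at h
  have h3 : ∀ v : ℝ, Complex.exp (↑(2 * π * inner ℝ v x) * Complex.I) •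
      𝓕 ((fun x : ℝ => (x : ℂ)) ∘ f) v =
      ((P (2 * π * v) * Real.cos (2 * π * v * x) + Q (2 * π * v) * Real.sin (2 * π * v * x) : ℝ) : ℂ) +
      Complex.I * ((P (2 * π * v) * Real.sin (2 * π * v * x) - Q (2 * π * v) * Real.cos (2 * π * v * x) : ℝ) : ℂ) := by
    intro v
    have : 𝓕 ((fun x : ℝ => (x : ℂ)) ∘ f) v = _ := hF v
    rw [this, Complex.exp_mul_I, smul_eq_mul, ← Complex.ofReal_cos, ← Complex.ofReal_sin]
    have : 2 * π * inner ℝ v x = 2 * π * v * x := by
      simp; ring
    rw [this]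
    push_cast
    linear_combination (-(Q (2 * π * v) : ℂ) * Complex.sin (2 * π * v * x)) * Complex.I_sq
  simp_rw [h3] at h
  have bc : ∀ g : ℝ → ℝ, Integrable g → Integrable (fun s => g s * Real.cos (s * x)) := by
    intro g hg
    refine hg.mul_bdd (c := 1) ?_ ?_
    · exact (by fun_prop : Continuous fun v : ℝ => Real.cos (v * x)).aestronglyMeasurable
    · filter_upwards with v
      rw [Real.norm_eq_abs]
      exact Real.abs_cos_le_one _
  have bs : ∀ g : ℝ → ℝ, Integrable g → Integrable (fun s => g s * Real.sin (s * x)) := by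
    intro g hg
    refine hg.mul_bdd (c := 1) ?_ ?_
    · exact (by fun_prop : Continuous fun v : ℝ => Real.sin (v * x)).aestronglyMeasurable
    · filter_upwards with v
      rw [Real.norm_eq_abs]
      exact Real.abs_sin_le_one _
  have i1 : Integrable (fun v : ℝ => P (2 * π * v) * Real.cos (2 * π * v * x) +
      Q (2 * π * v) * Real.sin (2 * π * v * x)) :=
    ((bc P hPi).add (bs Q hQi)).comp_mul_left' h2π
  have i2 : Integrable (fun v : ℝ => P (2 * π * v) * Real.sin (2 * π * v * x) -
      Q (2 * π * v) * Real.cos (2 * π * v * x)) :=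
    ((bs P hPi).sub (bc Q hQi)).comp_mul_left' h2π
  rw [integral_add i1.ofReal (i2.ofReal.const_mul _), integral_const_mul, integral_complex_ofReal,
    integral_complex_ofReal] at h
  have h4 := congrArg Complex.re h
  simp only [Complex.add_re, Complex.ofReal_re, Complex.mul_re, Complex.I_re, Complex.I_im,
    Complex.ofReal_im, zero_mul, mul_zero, sub_zero, add_zero, Function.comp_apply] at h4
  rw [← h4]
  have h5 := Measure.integral_comp_mul_left
    (fun s => P s * Real.cos (s * x) + Q s * Real.sin (s * x)) (2 * π)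
  rw [h5, abs_of_pos (by positivity), smul_eq_mul, one_div]

/-- truncated Gaussian of half width `a τ` -/
noncomputable def inv_hI (τ a z : ℝ) : ℝ := if |z| ≤ a * τ then E (z / a) else 0

lemma inv_hI_eq_indicator (τ a : ℝ) : inv_hI τ a = (Icc (-(a * τ)) (a * τ)).indicator (fun z => E (z / a)) := by
  funext z
  unfold inv_hI Set.indicator
  simp only [mem_Icc, abs_le]

lemma inv_hI_measurable (τ a : ℝ) : Measurable (inv_hI τ a) := by
  rw [inv_hI_eq_indicator]
  exact (E_continuous.comp (continuous_id.div_const a)).measurable.indicator measurableSet_Icc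

lemma inv_E_le_one (x : ℝ) : E x ≤ 1 := by
  unfold E
  rw [Real.exp_le_one_iff]
  have := sq_nonneg x
  linarith

lemma inv_hI_abs_le (τ a z : ℝ) : |inv_hI τ a z| ≤ 1 := by
  unfold inv_hI
  split_ifs
  · rw [abs_of_pos (E_pos _)]; exact inv_E_le_one _
  · simp

lemma inv_hI_even (τ a z : ℝ) : inv_hI τ a (-z) = inv_hI τ a z := by
  unfold inv_hI
  rw [abs_neg, neg_div, E_neg]

lemma inv_hI_integrable (τ a : ℝ) : Integrable (inv_hI τ a) := by
  rw [inv_hI_eq_indicator, integrable_indicator_iff measurableSet_Icc]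
  exact (E_continuous.comp (continuous_id.div_const a)).continuousOn.integrableOn_Icc

lemma inv_hI_integral {τ a : ℝ} (hτ : 0 < τ) (ha : 0 < a) (φ : ℝ → ℝ) :
    ∫ z, inv_hI τ a z * φ z = a * ∫ t in (-τ)..τ, E t * φ (a * t) := by
  have h1 : ∀ z, inv_hI τ a z * φ z = (Icc (-(a * τ)) (a * τ)).indicator (fun z => E (z / a) * φ z) z := by
    intro z
    rw [inv_hI_eq_indicator]
    by_cases hz : z ∈ Icc (-(a * τ)) (a * τ)
    · rw [indicator_of_mem hz, indicator_of_mem hz]
    · rw [indicator_of_notMem hz, indicator_of_notMem hz, zero_mul]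
  simp_rw [h1]
  rw [integral_indicator measurableSet_Icc, integral_Icc_eq_integral_Ioc,
    ← intervalIntegral.integral_of_le (by nlinarith)]
  have h2 := intervalIntegral.mul_integral_comp_mul_left (f := fun z => E (z / a) * φ z)
    (a := -τ) (b := τ) (c := a)
  rw [mul_neg] at h2
  rw [← h2]
  congr 1
  apply intervalIntegral.integral_congr
  intro t _
  simp only
  rw [mul_div_cancel_left₀ _ ha.ne']

lemma inv_integral_E_sin (τ k : ℝ) : ∫ t in (-τ)..τ, E t * Real.sin (k * t) = 0 := by
  have h := intervalIntegral.integral_comp_neg (f := fun t => E t * Real.sin (k * t)) (a := -τ) (b := τ)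
  rw [neg_neg] at h
  have h2 : ∀ t, E (-t) * Real.sin (k * -t) = -(E t * Real.sin (k * t)) := by
    intro t
    rw [E_neg, mul_neg, Real.sin_neg]; ring
  simp_rw [h2] at h
  rw [intervalIntegral.integral_neg] at h
  linarith

lemma inv_hI_cos {τ a : ℝ} (hτ : 0 < τ) (ha : 0 < a) (s c : ℝ) :
    ∫ z, inv_hI τ a (z - c) * Real.cos (s * z) = a * psi τ (a * s) * Real.cos (s * c) := by
  have h0 := integral_sub_right_eq_self (μ := (volume : Measure ℝ))
    (fun z => inv_hI τ a z * Real.cos (s * (z + c))) c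
  simp only [sub_add_cancel] at h0
  rw [h0, inv_hI_integral hτ ha]
  have h1 : ∀ t, E t * Real.cos (s * (a * t + c)) =
      Real.cos (s * c) * (E t * Real.cos (a * s * t)) - Real.sin (s * c) * (E t * Real.sin (a * s * t)) := by
    intro t
    rw [show s * (a * t + c) = a * s * t + s * c by ring, Real.cos_add]; ring
  simp_rw [h1]
  rw [intervalIntegral.integral_sub, intervalIntegral.integral_const_mul,
    intervalIntegral.integral_const_mul, inv_integral_E_sin]
  · unfold psi; ring
  · exact (by have := E_continuous; fun_prop : Continuous fun t =>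
      Real.cos (s * c) * (E t * Real.cos (a * s * t))).intervalIntegrable _ _
  · exact (by have := E_continuous; fun_prop : Continuous fun t =>
      Real.sin (s * c) * (E t * Real.sin (a * s * t))).intervalIntegrable _ _

lemma inv_hI_sin {τ a : ℝ} (hτ : 0 < τ) (ha : 0 < a) (s c : ℝ) :
    ∫ z, inv_hI τ a (z - c) * Real.sin (s * z) = a * psi τ (a * s) * Real.sin (s * c) := by
  have h0 := integral_sub_right_eq_self (μ := (volume : Measure ℝ))
    (fun z => inv_hI τ a z * Real.sin (s * (z + c))) c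
  simp only [sub_add_cancel] at h0
  rw [h0, inv_hI_integral hτ ha]
  have h1 : ∀ t, E t * Real.sin (s * (a * t + c)) =
      Real.cos (s * c) * (E t * Real.sin (a * s * t)) + Real.sin (s * c) * (E t * Real.cos (a * s * t)) := by
    intro t
    rw [show s * (a * t + c) = a * s * t + s * c by ring, Real.sin_add]; ring
  simp_rw [h1]
  rw [intervalIntegral.integral_add, intervalIntegral.integral_const_mul,
    intervalIntegral.integral_const_mul, inv_integral_E_sin]
  · unfold psi; ring
  · exact (by have := E_continuous; fun_prop : Continuous fun t =>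
      Real.cos (s * c) * (E t * Real.sin (a * s * t))).intervalIntegrable _ _
  · exact (by have := E_continuous; fun_prop : Continuous fun t =>
      Real.sin (s * c) * (E t * Real.cos (a * s * t))).intervalIntegrable _ _

/-- density at `x` of `a Y + b Y'` with `Y, Y'` independent of (unnormalised) density `E 1_{[-τ,τ]}`. -/
noncomputable def rho (τ a b x : ℝ) : ℝ :=
  (1 / a) * ∫ t in (-τ)..τ, E t * (if |x - b * t| ≤ a * τ then E ((x - b * t) / a) else 0)

lemma inv_rho_eq (τ a b x : ℝ) : rho τ a b x = (1 / a) * ∫ t in (-τ)..τ, E t * inv_hI τ a (x - b * t) := rfl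

lemma inv_rho_eq_conv {τ a b : ℝ} (hτ : 0 < τ) (hb : 0 < b) (x : ℝ) :
    rho τ a b x = (1 / (a * b)) * ∫ u, inv_hI τ b u * inv_hI τ a (x - u) := by
  rw [inv_hI_integral hτ hb (fun u => inv_hI τ a (x - u)), inv_rho_eq]
  field_simp

lemma inv_conv_prod_integrable (τ a b : ℝ) :
    Integrable (fun p : ℝ × ℝ => inv_hI τ b p.2 * inv_hI τ a (p.1 - p.2))
      ((volume : Measure ℝ).prod (volume : Measure ℝ)) :=
  (inv_hI_integrable τ b).convolution_integrand (ContinuousLinearMap.mul ℝ ℝ) (inv_hI_integrable τ a)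

lemma inv_rho_integrable {τ a b : ℝ} (hτ : 0 < τ) (hb : 0 < b) : Integrable (rho τ a b) := by
  have : rho τ a b = fun x => (1 / (a * b)) * ∫ u, inv_hI τ b u * inv_hI τ a (x - u) :=
    funext (inv_rho_eq_conv hτ hb)
  rw [this]
  exact ((inv_conv_prod_integrable τ a b).integral_prod_left).const_mul _

lemma inv_rho_transform {τ a b : ℝ} (hτ : 0 < τ) (hb : 0 < b) (φ : ℝ → ℝ) (hφc : Continuous φ)
    (hφ : ∀ x, |φ x| ≤ 1) :
    ∫ x, rho τ a b x * φ x = (1 / (a * b)) * ∫ u, inv_hI τ b u * ∫ x, inv_hI τ a (x - u) * φ x := by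
  have h1 : ∀ x, rho τ a b x * φ x = (1 / (a * b)) * ∫ u, inv_hI τ b u * inv_hI τ a (x - u) * φ x := by
    intro x
    rw [inv_rho_eq_conv hτ hb, mul_assoc, integral_mul_const]
  simp_rw [h1]
  rw [integral_const_mul]
  congr 1
  have hI2 : Integrable (fun p : ℝ × ℝ => inv_hI τ b p.2 * inv_hI τ a (p.1 - p.2) * φ p.1)
      ((volume : Measure ℝ).prod (volume : Measure ℝ)) := by
    refine (inv_conv_prod_integrable τ a b).mul_bdd (c := 1) ?_ ?_
    · exact (hφc.comp continuous_fst).aestronglyMeasurable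
    · filter_upwards with p
      rw [Real.norm_eq_abs]; exact hφ _
  rw [integral_integral_swap hI2]
  congr 1
  funext u
  rw [← integral_const_mul]
  congr 1
  funext x
  ring

lemma rho_continuous {τ a b : ℝ} (hτ : 0 < τ) (ha : 0 < a) (hb : 0 < b) : Continuous (rho τ a b) := by
  have h0 : rho τ a b = fun x => (1 / a) * ∫ t in (-τ)..τ, E t * inv_hI τ a (x - b * t) := rfl
  rw [h0]
  refine continuous_const.mul ?_
  rw [continuous_iff_continuousAt]
  intro x₀
  refine intervalIntegral.continuousAt_of_dominated_interval (bound := fun _ => 1) ?_ ?_ ?_ ?_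
  · filter_upwards with x
    exact ((E_continuous.measurable).mul ((inv_hI_measurable τ a).comp
      (by fun_prop : Measurable fun t : ℝ => x - b * t))).aestronglyMeasurable
  · filter_upwards with x
    filter_upwards with t _
    rw [Real.norm_eq_abs, abs_mul, abs_of_pos (E_pos t)]
    exact mul_le_one₀ (inv_E_le_one t) (abs_nonneg _) (inv_hI_abs_le _ _ _)
  · exact intervalIntegrable_const
  · have hnull : volume ({(x₀ - a * τ) / b, (x₀ + a * τ) / b} : Set ℝ) = 0 :=
      (Set.toFinite _).measure_zero _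
    have hae : ∀ᵐ t ∂(volume : Measure ℝ), t ∉ ({(x₀ - a * τ) / b, (x₀ + a * τ) / b} : Set ℝ) :=
      measure_eq_zero_iff_ae_notMem.mp hnull
    filter_upwards [hae] with t ht _
    simp only [mem_insert_iff, mem_singleton_iff, not_or] at ht
    refine ContinuousAt.mul continuousAt_const ?_
    have hne : |x₀ - b * t| ≠ a * τ := by
      intro h
      rcases abs_eq (by positivity : (0:ℝ) ≤ a * τ) |>.mp h with h | h
      · exact ht.1 (by field_simp; linarith)
      · exact ht.2 (by field_simp; linarith)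
    have hcomp : ContinuousAt (fun x : ℝ => |x - b * t|) x₀ := by fun_prop
    rcases lt_or_gt_of_ne hne with h | h
    · have : (fun x => inv_hI τ a (x - b * t)) =ᶠ[nhds x₀] fun x => E ((x - b * t) / a) := by
        filter_upwards [hcomp.eventually_lt_const h] with x hx
        unfold inv_hI
        rw [if_pos hx.le]
      refine ContinuousAt.congr ?_ this.symm
      exact (E_continuous.comp (by fun_prop : Continuous fun x : ℝ => (x - b * t) / a)).continuousAt
    · have : (fun x => inv_hI τ a (x - b * t)) =ᶠ[nhds x₀] fun x => 0 := by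
        filter_upwards [hcomp.eventually_const_lt h] with x hx
        unfold inv_hI
        rw [if_neg (not_le.mpr hx)]
      exact ContinuousAt.congr continuousAt_const this.symm

/-- Fourier inversion for `rho`, `a, b > 0`. -/
theorem inv_rho {τ a b : ℝ} (hτ : 0 < τ) (ha : 0 < a) (hb : 0 < b) (x : ℝ) :
    rho τ a b x = (1 / (2 * π)) * ∫ s : ℝ, psi τ (a * s) * psi τ (b * s) * Real.cos (s * x) := by
  have hP : ∀ s, ∫ x, rho τ a b x * Real.cos (s * x) = psi τ (a * s) * psi τ (b * s) := by
    intro s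
    rw [inv_rho_transform hτ hb (fun x => Real.cos (s * x)) (by fun_prop)
      (fun x => Real.abs_cos_le_one _)]
    simp_rw [inv_hI_cos hτ ha]
    have h1 : ∀ u, inv_hI τ b u * (a * psi τ (a * s) * Real.cos (s * u)) =
        a * psi τ (a * s) * (inv_hI τ b (u - 0) * Real.cos (s * u)) := by
      intro u; rw [sub_zero]; ring
    simp_rw [h1]
    rw [integral_const_mul, inv_hI_cos hτ hb]
    simp only [mul_zero, Real.cos_zero]
    field_simp
  have hQ : ∀ s, ∫ x, rho τ a b x * Real.sin (s * x) = 0 := by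
    intro s
    rw [inv_rho_transform hτ hb (fun x => Real.sin (s * x)) (by fun_prop)
      (fun x => Real.abs_sin_le_one _)]
    simp_rw [inv_hI_sin hτ ha]
    have h1 : ∀ u, inv_hI τ b u * (a * psi τ (a * s) * Real.sin (s * u)) =
        a * psi τ (a * s) * (inv_hI τ b (u - 0) * Real.sin (s * u)) := by
      intro u; rw [sub_zero]; ring
    simp_rw [h1]
    rw [integral_const_mul, inv_hI_sin hτ hb]
    simp
  have hPi : Integrable (fun s => psi τ (a * s) * psi τ (b * s)) := by
    have h := Phi_integrable hτ (a := ![a, b]) ⟨0, 1, by simp, by simpa using ha.ne',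
      by simpa using hb.ne'⟩
    simpa [Fin.prod_univ_two] using h
  have h := inv_general (rho τ a b) _ (fun _ => 0) (rho_continuous hτ ha hb) (inv_rho_integrable hτ hb)
    hP hQ hPi (integrable_zero _ _ _) x
  rw [h]
  congr 1
  congr 1
  funext s
  ring

lemma inv_rho_even {τ a b : ℝ} (hτ : 0 < τ) (ha : 0 < a) (hb : 0 < b) (x : ℝ) :
    rho τ a b (-x) = rho τ a b x := by
  rw [inv_rho hτ ha hb, inv_rho hτ ha hb]
  congr 1; congr 1; funext s
  rw [mul_neg, Real.cos_neg]

lemma inv_rho_one_pos {τ : ℝ} (hτ : 0 < τ) {x : ℝ} (hx : 0 ≤ x) : rho τ 1 1 x = rX τ x := by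
  rw [inv_rho_eq_conv hτ one_pos]
  unfold rX
  by_cases h2 : |x| ≤ 2 * τ
  · rw [if_pos h2, abs_of_nonneg hx]
    rw [abs_of_nonneg hx] at h2
    have h1 : ∀ u, inv_hI τ 1 u * inv_hI τ 1 (x - u) =
        (Icc (x - τ) τ).indicator (fun u => Real.exp (-(x ^ 2) / 4) * Real.exp (-((u - x / 2) ^ 2))) u := by
      intro u
      unfold inv_hI
      rw [one_mul]
      by_cases hu : u ∈ Icc (x - τ) τ
      · rw [indicator_of_mem hu, if_pos (by rw [abs_le]; constructor <;> linarith [hu.1, hu.2]),
          if_pos (by rw [abs_le]; constructor <;> linarith [hu.1, hu.2]), ← Real.exp_add]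
        unfold E
        rw [← Real.exp_add]
        congr 1
        ring
      · rw [indicator_of_notMem hu]
        by_cases h3 : |u| ≤ τ
        · rw [if_neg (c := |x - u| ≤ τ), mul_zero]
          intro h4
          rw [abs_le] at h3 h4
          exact hu ⟨by linarith [h4.2], h3.2⟩
        · rw [if_neg h3, zero_mul]
    simp_rw [h1]
    rw [integral_indicator measurableSet_Icc, integral_Icc_eq_integral_Ioc,
      ← intervalIntegral.integral_of_le (by linarith), intervalIntegral.integral_const_mul]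
    have h5 := intervalIntegral.integral_comp_sub_right (f := fun u => Real.exp (-(u ^ 2)))
      (a := x - τ) (b := τ) (x / 2)
    rw [h5]
    have h6 : x - τ - x / 2 = -(τ - x / 2) := by ring
    rw [h6]
    have hint : ∀ p q : ℝ, IntervalIntegrable (fun u => Real.exp (-(u ^ 2))) volume p q :=
      fun p q => (by fun_prop : Continuous fun u : ℝ => Real.exp (-(u ^ 2))).intervalIntegrable _ _
    have h7 := intervalIntegral.integral_add_adjacent_intervals (hint (-(τ - x / 2)) 0)
      (hint 0 (τ - x / 2))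
    have h8 := intervalIntegral.integral_comp_neg (f := fun u => Real.exp (-(u ^ 2)))
      (a := 0) (b := τ - x / 2)
    simp only [neg_sq, neg_zero] at h8
    rw [← h7, ← h8]
    unfold EE
    ring
  · rw [if_neg h2]
    rw [abs_of_nonneg hx] at h2
    push Not at h2
    have h1 : ∀ u, inv_hI τ 1 u * inv_hI τ 1 (x - u) = 0 := by
      intro u
      unfold inv_hI
      rw [one_mul]
      by_cases h3 : |u| ≤ τ
      · rw [if_neg (c := |x - u| ≤ τ), mul_zero]
        intro h4
        rw [abs_le] at h3 h4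
        linarith [h4.2, h3.2]
      · rw [if_neg h3, zero_mul]
    simp_rw [h1]
    simp

/-- `rho` for `a = b = 1`. -/
theorem rho_one {τ : ℝ} (hτ : 0 < τ) (x : ℝ) : rho τ 1 1 x = rX τ x := by
  rcases le_total 0 x with hx | hx
  · exact inv_rho_one_pos hτ hx
  · rw [← inv_rho_even hτ one_pos one_pos, inv_rho_one_pos hτ (by linarith)]
    unfold rX
    rw [abs_neg, neg_sq]

/-- value at `0`: `rho τ 1 y 0 = 2 G(τ √(1+y²)) / √(1+y²)` for `0 ≤ y ≤ 1`. -/
theorem rho_zero {τ y : ℝ} (hτ : 0 < τ) (hy0 : 0 < y) (hy1 : y ≤ 1) :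
    rho τ 1 y 0 = 2 * G (τ * Real.sqrt (1 + y ^ 2)) / Real.sqrt (1 + y ^ 2) := by
  set k := Real.sqrt (1 + y ^ 2) with hk
  have hk0 : 0 < k := Real.sqrt_pos.mpr (by positivity)
  have hk2 : k ^ 2 = 1 + y ^ 2 := Real.sq_sqrt (by positivity)
  rw [inv_rho_eq, one_div, inv_one, one_mul]
  have h1 : ∫ t in (-τ)..τ, E t * inv_hI τ 1 (0 - y * t) = ∫ t in (-τ)..τ, E (k * t) := by
    apply intervalIntegral.integral_congr
    intro t ht
    rw [uIcc_of_le (by linarith)] at ht
    simp only
    unfold inv_hI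
    rw [if_pos]
    · unfold E
      rw [← Real.exp_add]
      congr 1
      rw [mul_pow, hk2]
      ring
    · rw [one_mul, zero_sub, abs_neg, abs_mul, abs_of_pos hy0]
      have : |t| ≤ τ := abs_le.mpr ht
      nlinarith [abs_nonneg t]
  rw [h1, intervalIntegral.integral_comp_mul_left (f := E) hk0.ne']
  have hint : ∀ p q : ℝ, IntervalIntegrable E volume p q :=
    fun p q => E_continuous.intervalIntegrable _ _
  have h7 := intervalIntegral.integral_add_adjacent_intervals (hint (-(τ * k)) 0) (hint 0 (τ * k))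
  have h8 := intervalIntegral.integral_comp_neg (f := E) (a := 0) (b := τ * k)
  simp only [E_neg, neg_zero] at h8
  have h9 : k * -τ = -(τ * k) := by ring
  rw [h9, mul_comm k τ, ← h7, ← h8, smul_eq_mul]
  unfold G
  field_simp
  ring

lemma inv_Cpos_zero (τ y : ℝ) (hτ : 0 < τ) (hy1 : y < 1) : Cpos τ y 0 = 0 := by
  unfold Cpos
  rw [if_pos (by nlinarith)]
  rw [zero_sub, zero_add, E_neg, sub_self]

lemma inv_Cpos_supp {τ y : ℝ} (hτ : 0 < τ) (hy0 : 0 < y) (hy1 : y < 1) {x : ℝ}
    (hx : (1 + y) * τ ≤ x) : Cpos τ y x = 0 := by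
  unfold Cpos
  have h1 : ¬ x ≤ (1 - y) * τ := by nlinarith
  rw [if_neg h1]
  split_ifs with h2
  · have h3 : x = (1 + y) * τ := le_antisymm h2 hx
    have h4 : (x - τ) / y = τ := by rw [h3]; field_simp; ring
    have h5 : x - y * τ = τ := by rw [h3]; ring
    rw [h4, h5, sub_self]
  · rfl

lemma inv_Cpos_continuous {τ y : ℝ} (hτ : 0 < τ) (hy0 : 0 < y) (hy1 : y < 1) :
    Continuous (Cpos τ y) := by
  have hE := E_continuous
  unfold Cpos
  refine Continuous.if_le ?_ ?_ continuous_id continuous_const ?_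
  · exact (hE.comp (by fun_prop)).sub (hE.comp (by fun_prop))
  · refine Continuous.if_le ?_ continuous_const continuous_id continuous_const ?_
    · exact (hE.comp (by fun_prop)).sub (hE.comp (by fun_prop))
    · intro x hx
      have h4 : (x - τ) / y = τ := by rw [hx]; field_simp; ring
      have h5 : x - y * τ = τ := by rw [hx]; ring
      rw [h4, h5, sub_self]
  · intro x hx
    rw [if_pos (by rw [hx]; nlinarith)]
    have h4 : (x - τ) / y = -τ := by rw [hx]; field_simp; ring
    have h5 : x + y * τ = τ := by rw [hx]; ring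
    rw [h4, h5, E_neg]

lemma C_continuous {τ y : ℝ} (hτ : 0 < τ) (hy0 : 0 < y) (hy1 : y < 1) : Continuous (C τ y) := by
  unfold C
  refine Continuous.if_le (inv_Cpos_continuous hτ hy0 hy1)
    ((inv_Cpos_continuous hτ hy0 hy1).comp continuous_neg).neg continuous_const continuous_id ?_
  intro x hx
  subst hx
  rw [neg_zero, inv_Cpos_zero τ y hτ hy1, neg_zero]

lemma C_odd (τ y x : ℝ) (hτ : 0 < τ) (hy0 : 0 < y) (hy1 : y < 1) : C τ y (-x) = - C τ y x := by
  unfold C
  rcases lt_trichotomy x 0 with h | h | h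
  · rw [if_pos (by linarith), if_neg (by linarith), neg_neg]
  · subst h
    simp [inv_Cpos_zero τ y hτ hy1]
  · rw [if_neg (by linarith), if_pos h.le, neg_neg]

lemma C_supp {τ y : ℝ} (hτ : 0 < τ) (hy0 : 0 < y) (hy1 : y < 1) {x : ℝ} (hx : (1 + y) * τ ≤ |x|) :
    C τ y x = 0 := by
  unfold C
  split_ifs with h
  · rw [abs_of_nonneg h] at hx
    exact inv_Cpos_supp hτ hy0 hy1 hx
  · push Not at h
    rw [abs_of_neg h] at hx
    rw [inv_Cpos_supp hτ hy0 hy1 hx, neg_zero]

/-- combination of four truncated Gaussians -/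
noncomputable def inv_CS4 (τ y z : ℝ) : ℝ :=
  inv_hI τ 1 (z - y * τ) - inv_hI τ 1 (z - -(y * τ)) - inv_hI τ y (z - τ) + inv_hI τ y (z - -τ)

lemma inv_CS4_odd (τ y z : ℝ) : inv_CS4 τ y (-z) = - inv_CS4 τ y z := by
  unfold inv_CS4
  rw [show -z - y * τ = -(z - -(y * τ)) by ring, show -z - -(y * τ) = -(z - y * τ) by ring,
    show -z - τ = -(z - -τ) by ring, show -z - -τ = -(z - τ) by ring, inv_hI_even, inv_hI_even, inv_hI_even,
    inv_hI_even]
  ring

lemma inv_Cpos_eq {τ y : ℝ} (hτ : 0 < τ) (hy0 : 0 < y) (hy1 : y < 1) {z : ℝ} (hz : 0 ≤ z)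
    (hne : z ≠ (1 - y) * τ) : Cpos τ y z = inv_CS4 τ y z := by
  have hyτ : 0 < y * τ := by positivity
  have hyτ1 : y * τ < τ := by nlinarith
  unfold Cpos inv_CS4 inv_hI
  simp only [one_mul, div_one, sub_neg_eq_add]
  rw [if_neg (c := |z + τ| ≤ y * τ) (by rw [abs_of_nonneg (by linarith)]; linarith)]
  by_cases h1 : z ≤ (1 - y) * τ
  · have h1' : z < (1 - y) * τ := lt_of_le_of_ne h1 hne
    rw [if_pos h1, if_pos (c := |z - y * τ| ≤ τ) (by rw [abs_le]; constructor <;> nlinarith),
      if_pos (c := |z + y * τ| ≤ τ) (by rw [abs_le]; constructor <;> nlinarith),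
      if_neg (c := |z - τ| ≤ y * τ) (by rw [abs_le, not_and_or]; left; nlinarith)]
    ring
  · rw [if_neg h1]
    push Not at h1
    by_cases h2 : z ≤ (1 + y) * τ
    · rw [if_pos h2, if_pos (c := |z - y * τ| ≤ τ) (by rw [abs_le]; constructor <;> nlinarith),
        if_neg (c := |z + y * τ| ≤ τ) (by rw [abs_le, not_and_or]; right; nlinarith),
        if_pos (c := |z - τ| ≤ y * τ) (by rw [abs_le]; constructor <;> nlinarith)]
      ring
    · rw [if_neg h2]
      push Not at h2
      rw [if_neg (c := |z - y * τ| ≤ τ) (by rw [abs_le, not_and_or]; right; nlinarith),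
        if_neg (c := |z + y * τ| ≤ τ) (by rw [abs_le, not_and_or]; right; nlinarith),
        if_neg (c := |z - τ| ≤ y * τ) (by rw [abs_le, not_and_or]; right; nlinarith)]
      ring

lemma inv_C_ae {τ y : ℝ} (hτ : 0 < τ) (hy0 : 0 < y) (hy1 : y < 1) : C τ y =ᵐ[volume] inv_CS4 τ y := by
  have hnull : volume ({(1 - y) * τ, -((1 - y) * τ)} : Set ℝ) = 0 :=
    (Set.toFinite _).measure_zero _
  have hae : ∀ᵐ t ∂(volume : Measure ℝ), t ∉ ({(1 - y) * τ, -((1 - y) * τ)} : Set ℝ) :=
    measure_eq_zero_iff_ae_notMem.mp hnull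
  filter_upwards [hae] with z hz
  simp only [mem_insert_iff, mem_singleton_iff, not_or] at hz
  unfold C
  split_ifs with h
  · exact inv_Cpos_eq hτ hy0 hy1 h hz.1
  · push Not at h
    rw [inv_Cpos_eq hτ hy0 hy1 (by linarith) (by intro h2; exact hz.2 (by linarith)), inv_CS4_odd, neg_neg]

lemma inv_hI_shift_integrable (τ a c : ℝ) : Integrable (fun z => inv_hI τ a (z - c)) :=
  (inv_hI_integrable τ a).comp_sub_right c

lemma inv_CS4_integrable (τ y : ℝ) : Integrable (inv_CS4 τ y) :=
  (((inv_hI_shift_integrable τ 1 (y * τ)).sub (inv_hI_shift_integrable τ 1 (-(y * τ)))).sub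
    (inv_hI_shift_integrable τ y τ)).add (inv_hI_shift_integrable τ y (-τ))

lemma inv_C_integrable {τ y : ℝ} (hτ : 0 < τ) (hy0 : 0 < y) (hy1 : y < 1) : Integrable (C τ y) :=
  (inv_CS4_integrable τ y).congr (inv_C_ae hτ hy0 hy1).symm

lemma inv_C_transform {τ y : ℝ} (hτ : 0 < τ) (hy0 : 0 < y) (hy1 : y < 1) (φ : ℝ → ℝ)
    (hφc : Continuous φ) (hφ : ∀ x, |φ x| ≤ 1) :
    ∫ x, C τ y x * φ x = (∫ x, inv_hI τ 1 (x - y * τ) * φ x) - (∫ x, inv_hI τ 1 (x - -(y * τ)) * φ x) -
      (∫ x, inv_hI τ y (x - τ) * φ x) + ∫ x, inv_hI τ y (x - -τ) * φ x := by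
  have h1 : ∫ x, C τ y x * φ x = ∫ x, inv_CS4 τ y x * φ x := by
    apply integral_congr_ae
    filter_upwards [inv_C_ae hτ hy0 hy1] with x hx
    rw [hx]
  have hi : ∀ a c, Integrable (fun x => inv_hI τ a (x - c) * φ x) := by
    intro a c
    refine (inv_hI_shift_integrable τ a c).mul_bdd (c := 1) hφc.aestronglyMeasurable ?_
    filter_upwards with p
    rw [Real.norm_eq_abs]; exact hφ _
  rw [h1]
  have h2 : ∀ x, inv_CS4 τ y x * φ x = inv_hI τ 1 (x - y * τ) * φ x - inv_hI τ 1 (x - -(y * τ)) * φ x -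
      inv_hI τ y (x - τ) * φ x + inv_hI τ y (x - -τ) * φ x := by
    intro x; unfold inv_CS4; ring
  simp_rw [h2]
  have e1 := integral_sub (hi 1 (y * τ)) (hi 1 (-(y * τ)))
  have e2 := integral_sub ((hi 1 (y * τ)).sub (hi 1 (-(y * τ)))) (hi y τ)
  have e3 := integral_add (((hi 1 (y * τ)).sub (hi 1 (-(y * τ)))).sub (hi y τ)) (hi y (-τ))
  simp only [Pi.sub_apply] at e1 e2 e3
  rw [e3, e2, e1]

/-- sine transform of `C_y`. -/
theorem sin_transform_C {τ y : ℝ} (hτ : 0 < τ) (hy0 : 0 < y) (hy1 : y < 1) (s : ℝ) :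
    ∫ x : ℝ, C τ y x * Real.sin (s * x) =
      2 * Real.sin (y * τ * s) * psi τ s - 2 * y * Real.sin (τ * s) * psi τ (y * s) := by
  rw [inv_C_transform hτ hy0 hy1 (fun x => Real.sin (s * x)) (by fun_prop)
    (fun x => Real.abs_sin_le_one _)]
  rw [inv_hI_sin hτ one_pos, inv_hI_sin hτ one_pos, inv_hI_sin hτ hy0, inv_hI_sin hτ hy0]
  simp only [mul_neg, Real.sin_neg, one_mul]
  rw [show s * (y * τ) = y * τ * s by ring, mul_comm s τ]
  ring

theorem inv_cos_transform_C {τ y : ℝ} (hτ : 0 < τ) (hy0 : 0 < y) (hy1 : y < 1) (s : ℝ) :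
    ∫ x : ℝ, C τ y x * Real.cos (s * x) = 0 := by
  rw [inv_C_transform hτ hy0 hy1 (fun x => Real.cos (s * x)) (by fun_prop)
    (fun x => Real.abs_cos_le_one _)]
  rw [inv_hI_cos hτ one_pos, inv_hI_cos hτ one_pos, inv_hI_cos hτ hy0, inv_hI_cos hτ hy0]
  simp only [mul_neg, Real.cos_neg, one_mul]
  ring

lemma inv_C_hat_integrable {τ y : ℝ} (hτ : 0 < τ) (hy0 : 0 < y) : Integrable (fun s =>
    2 * Real.sin (y * τ * s) * psi τ s - 2 * y * Real.sin (τ * s) * psi τ (y * s)) := by
  obtain ⟨c, hc, hW⟩ := W_bound hτ hy0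
  have hEp := E_pos τ
  have hpc := psi_continuous τ
  have hcc := chi_continuous τ
  have hWc : Continuous (W τ y) := by
    unfold W
    fun_prop
  have h1 : ∀ s, 2 * Real.sin (y * τ * s) * psi τ s - 2 * y * Real.sin (τ * s) * psi τ (y * s) =
      y * s * W τ y s / E τ := by
    intro s
    rw [W_eq]
    field_simp
  simp_rw [h1]
  refine Integrable.mono' (integrable_inv_one_add_sq.const_mul (2 * c * y / E τ)) ?_ ?_
  · exact (by fun_prop : Continuous fun s => y * s * W τ y s / E τ).aestronglyMeasurable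
  · filter_upwards with s
    rw [Real.norm_eq_abs, abs_div, abs_of_pos hEp, abs_mul, abs_mul, abs_of_pos hy0]
    have h2 := (hW s).1
    have h3 := (hW s).2
    have h4 : |s| * |W τ y s| * (1 + s ^ 2) ≤ 2 * c := by
      rw [← sq_abs s]
      have hs := abs_nonneg s
      have hw := abs_nonneg (W τ y s)
      rcases le_total (|s|) 1 with h | h
      · nlinarith [mul_nonneg hs hw, mul_le_mul h h2 hw (by norm_num : (0:ℝ) ≤ 1)]
      · have h5 : |s| * |W τ y s| ≤ |s| ^ 3 * |W τ y s| := by
          apply mul_le_mul_of_nonneg_right _ hw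
          nlinarith [mul_nonneg hs hs]
        nlinarith
    have h6 : (0:ℝ) < 1 + s ^ 2 := by positivity
    rw [div_mul_eq_mul_div]
    apply div_le_div_of_nonneg_right _ hEp.le
    rw [← div_eq_mul_inv, le_div_iff₀ h6]
    calc y * |s| * |W τ y s| * (1 + s ^ 2) = y * (|s| * |W τ y s| * (1 + s ^ 2)) := by ring
      _ ≤ y * (2 * c) := by apply mul_le_mul_of_nonneg_left h4 hy0.le
      _ = 2 * c * y := by ring

/-- Fourier inversion for `C_y`. -/
theorem inv_C {τ y : ℝ} (hτ : 0 < τ) (hy0 : 0 < y) (hy1 : y < 1) (x : ℝ) :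
    C τ y x = (1 / (2 * π)) *
      ∫ s : ℝ, (2 * Real.sin (y * τ * s) * psi τ s - 2 * y * Real.sin (τ * s) * psi τ (y * s))
        * Real.sin (s * x) := by
  have h := inv_general (C τ y) (fun _ => 0) _ (C_continuous hτ hy0 hy1) (inv_C_integrable hτ hy0 hy1)
    (inv_cos_transform_C hτ hy0 hy1) (sin_transform_C hτ hy0 hy1) (integrable_zero _ _ _)
    (inv_C_hat_integrable hτ hy0) x
  rw [h]
  congr 1
  congr 1
  funext s
  ring

end GCube
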