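import Pool.Agent.Lib.H83.CFKap
import Pool.Agent.Lib.H83.CFFar
import Pool.Agent.Lib.H83.CFInt

/-!
Chunk LA1: large `τ` (`τ ≥ 3.6`): `Pn` and `Xn` are close to the Gaussian `E(x/τ)`. Notation `e = E(x/τ)`, `g = E τ`.

* `E 3.6 = e^{-6.48} = 0.0015338…`; `τ³E(τ)` and `τ E(τ)` are decreasing for `τ ≥ √3`. `G(τ) ≥ G(3.6) ≥ 1.2527` and `G(τ) ≤ √(π/2) = 1.2533…`
  (`∫_0^∞ E = √(π/2)`, `∫_τ^∞ E ≤ E(τ)/τ ≤ 0.00043`). `hn = E/N_0 = τ E(τ)/G(τ) ≤ 0.00552/1.2527`. `sg = 1 - hn = τ² m2`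
  (`sg_eq`). `τ³ N_2 = sg G(τ) ≥ 0.9955·1.2527 = 1.24706…`.
* `la_P`: `∫_0^∞ E(t) cos(st) dt = √(π/2) e^{-s²/2}`; with `T(s) = ∫_τ^∞ E(t) cos(st) dt`, `|T(s)| ≤ T(0) ≤ g/τ`:
  `Pn - e = (e T(0) - T(s))/(√(π/2) - T(0))`, `s = x/τ`, so `|Pn - e| ≤ 2(g/τ)/1.25 ≤ g`.
* `la_X`: `Xn = (Pn - hn S)/sg`, `|Xn - e| = |(Pn - e) + hn (e - S)|/sg ≤ (0.00154 + 0.0045·1.22)/0.9955 ≤ 0.01` (`S ≥ -0.22`: `abs_sinc_22`,
  `sinc ≥ 0` on `[0,π]`).
* `la_P_inv`: `psi_eq_Pn`, `abs_psi_le_inv`, `psi τ 0 = 2 G τ ≥ 2.5`.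
* `LA_A`: `k y² ≥ 0.8 - y² ≥ 0.8 - 0.6724/12.96 ≥ 0.748`, `τ² m2 ≥ 0.9955`. `LA_pow`: `Pn_exp_anti`.
-/

open MeasureTheory Set
open scoped Real

namespace GCube

structure LAH (τ y : ℝ) (k : ℕ) : Prop where
  hτ : 36 / 10 ≤ τ
  hy0 : 0 < y
  hyt : y * τ ≤ 82 / 100
  hk : 8 / 10 ≤ (k + 1) * y ^ 2

theorem LA1_exp : (64936 / 100 : ℝ) ≤ Real.exp (648 / 100) := by
  have h1 : (2.7182818283 : ℝ) < Real.exp 1 := Real.exp_one_gt_d9
  have h2 : Real.exp (648 / 100) = Real.exp 1 ^ 6 * Real.exp (48 / 100) := by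
    rw [← Real.exp_nat_mul, ← Real.exp_add]
    norm_num
  have h3 : (2.7182818283 : ℝ) ^ 6 ≤ Real.exp 1 ^ 6 := pow_le_pow_left₀ (by norm_num) h1.le 6
  have h4 : (1.6136 : ℝ) ≤ Real.exp (48 / 100) := by
    have := Real.sum_le_exp_of_nonneg (x := 48 / 100) (by norm_num) 4
    simp only [Finset.sum_range_succ, Finset.sum_range_zero, Nat.factorial] at this
    norm_num at this ⊢
    linarith
  rw [h2]
  calc (64936 / 100 : ℝ) ≤ 2.7182818283 ^ 6 * 1.6136 := by norm_num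
    _ ≤ _ := mul_le_mul h3 h4 (by norm_num) (by positivity)

theorem LA1_E36 : E (36 / 10) ≤ 154 / 100000 := by
  have h := LA1_exp
  have h1 : E (36 / 10) = (Real.exp (648 / 100))⁻¹ := by
    unfold E
    rw [← Real.exp_neg]
    norm_num
  rw [h1]
  rw [inv_le_comm₀ (Real.exp_pos _) (by norm_num)]
  refine le_trans ?_ h
  norm_num

theorem LA1_E3 {τ : ℝ} (hτ : 36 / 10 ≤ τ) : τ ^ 3 * E τ ≤ (36 / 10) ^ 3 * E (36 / 10) := by
  set u : ℝ := τ ^ 2 / (36 / 10) ^ 2 with hu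
  have hu1 : 1 ≤ u := by
    rw [hu, le_div_iff₀ (by norm_num)]
    nlinarith
  have h1 : E (36 / 10) = E τ * (Real.exp (324 / 100 * (u - 1))) ^ 2 := by
    rw [← Real.exp_nat_mul]
    unfold E
    rw [← Real.exp_add]
    congr 1
    rw [hu]
    push_cast
    ring
  have h2 : u ≤ Real.exp (324 / 100 * (u - 1)) := by
    have := Real.add_one_le_exp (324 / 100 * (u - 1))
    linarith
  have h3 : u ^ 2 ≤ Real.exp (324 / 100 * (u - 1)) ^ 2 := pow_le_pow_left₀ (by linarith) h2 2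
  rw [h1]
  have hE := E_pos τ
  have h4 : τ ^ 3 ≤ (36 / 10) ^ 3 * u ^ 2 := by
    have e : (36 / 10) ^ 3 * u ^ 2 = τ ^ 3 * (τ / (36 / 10)) := by
      rw [hu]
      ring
    rw [e]
    refine le_mul_of_one_le_right (by positivity) ?_
    rw [le_div_iff₀ (by norm_num)]
    linarith
  calc τ ^ 3 * E τ ≤ (36 / 10) ^ 3 * u ^ 2 * E τ := mul_le_mul_of_nonneg_right h4 hE.le
    _ ≤ (36 / 10) ^ 3 * Real.exp (324 / 100 * (u - 1)) ^ 2 * E τ := by
      refine mul_le_mul_of_nonneg_right ?_ hE.le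
      exact mul_le_mul_of_nonneg_left h3 (by norm_num)
    _ = _ := by ring

theorem la_E {τ : ℝ} (hτ : 36 / 10 ≤ τ) : E τ ≤ 154 / 100000 := by
  refine le_trans ?_ LA1_E36
  unfold E
  rw [Real.exp_le_exp]
  nlinarith

theorem la_E3 {τ : ℝ} (hτ : 36 / 10 ≤ τ) : τ ^ 3 * E τ ≤ 72 / 1000 := by
  refine (LA1_E3 hτ).trans ?_
  have := LA1_E36
  calc (36 / 10 : ℝ) ^ 3 * E (36 / 10) ≤ (36 / 10) ^ 3 * (154 / 100000) :=
        mul_le_mul_of_nonneg_left this (by norm_num)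
    _ ≤ _ := by norm_num

theorem LA1_E_exp (x : ℝ) : E x = Real.exp (-(1 / 2) * x ^ 2) := by
  unfold E
  congr 1
  ring

theorem LA1_E_int : Integrable E := by
  have h : E = fun x => Real.exp (-(1 / 2) * x ^ 2) := funext LA1_E_exp
  rw [h]
  exact integrable_exp_neg_mul_sq (by norm_num)

theorem LA1_Ecos_int (s : ℝ) : Integrable (fun t => E t * Real.cos (s * t)) := by
  refine LA1_E_int.mono' (psi_integrand_cont s).aestronglyMeasurable (Filter.Eventually.of_forall fun t => ?_)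
  rw [Real.norm_eq_abs, abs_mul, abs_of_pos (E_pos t)]
  exact mul_le_of_le_one_right (E_pos t).le (Real.abs_cos_le_one _)

theorem LA1_cos (s : ℝ) : ∫ t : ℝ, E t * Real.cos (s * t) = Real.sqrt (2 * π) * E s := by
  have h := fourierIntegral_gaussian (b := (1 / 2 : ℂ)) (by norm_num) (s : ℂ)
  have h2 := congrArg Complex.re h
  have hf : ∀ x : ℝ, (Complex.exp (Complex.I * s * x) * Complex.exp (-(1 / 2) * x ^ 2)).re =
      E x * Real.cos (s * x) := by
    intro x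
    have e1 : Complex.exp (-(1 / 2) * (x : ℂ) ^ 2) = ((E x : ℝ) : ℂ) := by
      rw [LA1_E_exp, Complex.ofReal_exp]
      congr 1
      push_cast
      ring
    have e2 : Complex.exp (Complex.I * s * x) = Complex.exp (((s * x : ℝ) : ℂ) * Complex.I) := by
      congr 1
      push_cast
      ring
    rw [e1, e2, mul_comm, Complex.re_ofReal_mul, Complex.exp_ofReal_mul_I_re]
  have hint : Integrable (fun x : ℝ => Complex.exp (Complex.I * s * x) *
      Complex.exp (-(1 / 2) * x ^ 2)) := by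
    have hcont : Continuous (fun x : ℝ => Complex.exp (Complex.I * s * x) *
      Complex.exp (-(1 / 2) * (x : ℂ) ^ 2)) := by fun_prop
    refine LA1_E_int.mono' hcont.aestronglyMeasurable (Filter.Eventually.of_forall fun x => ?_)
    rw [norm_mul]
    have e1 : Complex.exp (-(1 / 2) * (x : ℂ) ^ 2) = ((E x : ℝ) : ℂ) := by
      rw [LA1_E_exp, Complex.ofReal_exp]
      congr 1
      push_cast
      ring
    have e2 : Complex.exp (Complex.I * s * x) = Complex.exp (((s * x : ℝ) : ℂ) * Complex.I) := by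
      congr 1
      push_cast
      ring
    rw [e1, e2, Complex.norm_exp_ofReal_mul_I, one_mul, Complex.norm_real, Real.norm_eq_abs,
      abs_of_pos (E_pos x)]
  have h3 : (∫ x : ℝ, Complex.exp (Complex.I * s * x) * Complex.exp (-(1 / 2) * x ^ 2)).re =
      ∫ x : ℝ, E x * Real.cos (s * x) := by
    have := integral_re (𝕜 := ℂ) hint
    simp only [RCLike.re_to_complex] at this
    rw [← this]
    exact integral_congr_ae (Filter.Eventually.of_forall fun x => hf x)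
  rw [h3] at h2
  rw [h2]
  have e3 : ((π : ℂ) / (1 / 2)) ^ (1 / 2 : ℂ) = ((Real.sqrt (2 * π) : ℝ) : ℂ) := by
    rw [Real.sqrt_eq_rpow, Complex.ofReal_cpow (by positivity)]
    congr 1
    · push_cast
      ring
    · push_cast
      ring
  have e4 : Complex.exp (-(s : ℂ) ^ 2 / (4 * (1 / 2))) = ((E s : ℝ) : ℂ) := by
    rw [LA1_E_exp, Complex.ofReal_exp]
    congr 1
    push_cast
    ring
  rw [e3, e4, ← Complex.ofReal_mul, Complex.ofReal_re]

theorem LA1_half (s : ℝ) : ∫ t in Ioi (0 : ℝ), E t * Real.cos (s * t) = Real.sqrt (2 * π) / 2 * E s := by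
  have h := integral_comp_abs (f := fun t => E t * Real.cos (s * t))
  have h2 : ∫ t : ℝ, E |t| * Real.cos (s * |t|) = ∫ t : ℝ, E t * Real.cos (s * t) := by
    refine integral_congr_ae (Filter.Eventually.of_forall fun t => ?_)
    show E |t| * Real.cos (s * |t|) = E t * Real.cos (s * t)
    rcases abs_choice t with h | h
    · rw [h]
    · rw [h, E_neg, mul_neg, Real.cos_neg]
  rw [h2, LA1_cos] at h
  linarith

theorem LA1_split (τ s : ℝ) (hτ : 0 ≤ τ) : ∫ t in (0 : ℝ)..τ, E t * Real.cos (s * t) =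
    Real.sqrt (2 * π) / 2 * E s - ∫ t in Ioi τ, E t * Real.cos (s * t) := by
  have h := intervalIntegral.integral_Ioi_sub_Ioi (a := 0) (b := τ)
    (f := fun t => E t * Real.cos (s * t)) (LA1_Ecos_int s).integrableOn hτ
  rw [← LA1_half, ← h]

theorem LA1_tail {τ : ℝ} (hτ : 0 < τ) : ∫ t in Ioi τ, E t ≤ E τ / τ := by
  have hd : ∀ t ∈ Ici τ, HasDerivAt (fun t => -(E t / τ)) (t * E t / τ) t := by
    intro t _
    exact ((psi_hasDerivAt_E t).div_const τ).fun_neg.congr_deriv (by ring)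
  have hlim : Filter.Tendsto (fun t => -(E t / τ)) Filter.atTop (nhds (-(0 / τ))) := by
    refine (Filter.Tendsto.div_const ?_ τ).neg
    have h := Real.tendsto_exp_atBot.comp (Filter.tendsto_neg_atTop_atBot.comp
      (Filter.Tendsto.atTop_div_const (r := (2 : ℝ)) (by norm_num)
        (Filter.tendsto_pow_atTop (α := ℝ) (n := 2) (by norm_num))))
    refine h.congr fun t => ?_
    unfold E
    simp only [Function.comp]
    congr 1
    ring
  have hpos : ∀ t ∈ Ioi τ, 0 ≤ t * E t / τ := by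
    intro t ht
    have : (0 : ℝ) < t := hτ.trans ht
    have := E_pos t
    positivity
  have hint := integrableOn_Ioi_deriv_of_nonneg' hd hpos hlim
  have heq := integral_Ioi_of_hasDerivAt_of_nonneg' hd hpos hlim
  have h1 : ∫ t in Ioi τ, E t ≤ ∫ t in Ioi τ, t * E t / τ := by
    refine setIntegral_mono_on LA1_E_int.integrableOn hint measurableSet_Ioi fun t ht => ?_
    rw [le_div_iff₀ hτ, mul_comm]
    exact mul_le_mul_of_nonneg_right (le_of_lt ht) (E_pos t).le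
  rw [heq] at h1
  refine h1.trans (le_of_eq ?_)
  simp

theorem LA1_tail_nonneg (τ : ℝ) : 0 ≤ ∫ t in Ioi τ, E t :=
  setIntegral_nonneg measurableSet_Ioi fun t _ => (E_pos t).le

theorem LA1_tail_abs (τ s : ℝ) : |∫ t in Ioi τ, E t * Real.cos (s * t)| ≤ ∫ t in Ioi τ, E t := by
  rw [← Real.norm_eq_abs]
  refine norm_integral_le_of_norm_le LA1_E_int.integrableOn ?_
  refine Filter.Eventually.of_forall fun t => ?_
  rw [Real.norm_eq_abs, abs_mul, abs_of_pos (E_pos t)]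
  exact mul_le_of_le_one_right (E_pos t).le (Real.abs_cos_le_one _)

theorem LA1_G_eq {τ : ℝ} (hτ : 0 ≤ τ) : G τ = Real.sqrt (2 * π) / 2 - ∫ t in Ioi τ, E t := by
  have h := LA1_split τ 0 hτ
  have hE0 : E 0 = 1 := by simp [E]
  simp only [zero_mul, Real.cos_zero, mul_one, hE0] at h
  exact h

theorem LA1_sqrt : (125331 / 100000 : ℝ) ≤ Real.sqrt (2 * π) / 2 ∧ Real.sqrt (2 * π) / 2 ≤ 12534 / 10000 := by
  have h1 := Real.pi_gt_d6
  have h2 := Real.pi_lt_d6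
  constructor
  · have : (250662 / 100000 : ℝ) ≤ Real.sqrt (2 * π) := by
      apply Real.le_sqrt_of_sq_le
      norm_num
      linarith
    linarith
  · have : Real.sqrt (2 * π) ≤ 25068 / 10000 := by
      rw [Real.sqrt_le_left (by norm_num)]
      norm_num
      linarith
    linarith

theorem la_G {τ : ℝ} (hτ : 36 / 10 ≤ τ) : 12527 / 10000 ≤ G τ ∧ G τ ≤ 12534 / 10000 := by
  have hτ0 : 0 < τ := by linarith
  have h1 := LA1_tail hτ0
  have h2 := LA1_tail_nonneg τ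
  have h3 := LA1_sqrt
  have h4 := la_E hτ
  rw [LA1_G_eq hτ0.le]
  have h5 : E τ / τ ≤ 43 / 100000 := by
    rw [div_le_iff₀ hτ0]
    linarith
  constructor
  · linarith [h3.1]
  · linarith [h3.2]

theorem LA1_N0 {τ : ℝ} (hτ : 0 < τ) : G τ = τ * Nm τ 0 := by
  have h1 := psi_zero_eq τ
  have h2 := CFBasic_psi0 τ
  linarith

theorem la_hn {τ : ℝ} (hτ : 36 / 10 ≤ τ) : hn τ ≤ 45 / 10000 := by
  have hτ0 : 0 < τ := by linarith
  have h1 := la_E3 hτ
  have h2 := (la_G hτ).1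
  have hN := Nm_pos τ 0
  rw [LA1_N0 hτ0] at h2
  unfold hn
  rw [div_le_iff₀ hN]
  have hE := E_pos τ
  have h3 : τ * E τ ≤ 72 / 1000 / (36 / 10) ^ 2 := by
    rw [le_div_iff₀ (by norm_num)]
    refine le_trans ?_ h1
    have h4 : (36 / 10 : ℝ) ^ 2 ≤ τ ^ 2 := pow_le_pow_left₀ (by norm_num) hτ 2
    calc τ * E τ * (36 / 10) ^ 2 ≤ τ * E τ * τ ^ 2 := mul_le_mul_of_nonneg_left h4 (by positivity)
      _ = _ := by ring
  have h5 : τ * E τ ≤ τ * (45 / 10000 * Nm τ 0) := by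
    norm_num at h3
    linarith
  exact le_of_mul_le_mul_left h5 hτ0

theorem la_m2 {τ : ℝ} (hτ : 36 / 10 ≤ τ) : 9955 / 10000 ≤ τ ^ 2 * m2 τ := by
  rw [← sg_eq]
  unfold sg
  have := la_hn hτ
  linarith

theorem la_N2 {τ : ℝ} (hτ : 36 / 10 ≤ τ) : 1247 / 1000 ≤ τ ^ 3 * Nm τ 2 := by
  have hτ0 : 0 < τ := by linarith
  have h1 := la_m2 hτ
  have h2 := (la_G hτ).1
  have hN := Nm_pos τ 0
  rw [LA1_N0 hτ0] at h2
  have h3 : τ ^ 3 * Nm τ 2 = (τ ^ 2 * m2 τ) * (τ * Nm τ 0) := by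
    unfold m2
    field_simp
  rw [h3]
  calc (1247 / 1000 : ℝ) ≤ 9955 / 10000 * (12527 / 10000) := by norm_num
    _ ≤ _ := mul_le_mul h1 h2 (by norm_num) (by linarith)

theorem LA1_Pn {τ : ℝ} (hτ : 0 < τ) (x : ℝ) :
    G τ * Pn τ x = ∫ t in (0 : ℝ)..τ, E t * Real.cos (x / τ * t) := by
  rw [LA1_N0 hτ]
  unfold Pn
  have hN := (Nm_pos τ 0).ne'
  have h := intervalIntegral.smul_integral_comp_mul_left
    (f := fun t => E t * Real.cos (x / τ * t)) (a := 0) (b := 1) τ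
  simp only [mul_zero, mul_one, smul_eq_mul] at h
  rw [← h]
  have e : (fun ξ : ℝ => E (τ * ξ) * Real.cos (x / τ * (τ * ξ))) =
      fun ξ => E (τ * ξ) * Real.cos (x * ξ) := by
    funext ξ
    congr 2
    field_simp
  rw [e]
  generalize (∫ ξ in (0 : ℝ)..1, E (τ * ξ) * Real.cos (x * ξ)) = I
  field_simp

theorem la_P {τ : ℝ} (hτ : 36 / 10 ≤ τ) (x : ℝ) : |Pn τ x - E (x / τ)| ≤ E τ := by
  have hτ0 : 0 < τ := by linarith
  have h1 := LA1_Pn hτ0 x
  have hG := la_G hτ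
  rw [LA1_split τ (x / τ) hτ0.le] at h1
  have h2 := LA1_G_eq hτ0.le
  have h3 := LA1_tail hτ0
  have h4 := LA1_tail_nonneg τ
  have h5 := LA1_tail_abs τ (x / τ)
  have hE1 := psi_E_le_one (x / τ)
  have hE0 := E_pos (x / τ)
  set T0 := ∫ t in Ioi τ, E t
  set Ts := ∫ t in Ioi τ, E t * Real.cos (x / τ * t)
  have h6 : G τ * (Pn τ x - E (x / τ)) = T0 * E (x / τ) - Ts := by
    rw [mul_sub, h1, h2]
    ring
  have h7 : |G τ * (Pn τ x - E (x / τ))| ≤ 2 * T0 := by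
    rw [h6]
    refine (abs_sub _ _).trans ?_
    rw [abs_mul, abs_of_nonneg h4, abs_of_pos hE0]
    have : T0 * E (x / τ) ≤ T0 := mul_le_of_le_one_right h4 hE1
    linarith
  have hG0 : 0 < G τ := by linarith [hG.1]
  rw [abs_mul, abs_of_pos hG0] at h7
  have h8 : T0 ≤ E τ / (36 / 10) := by
    refine h3.trans ?_
    exact div_le_div_of_nonneg_left (E_pos τ).le (by norm_num) hτ
  have h9 : 12527 / 10000 * |Pn τ x - E (x / τ)| ≤ G τ * |Pn τ x - E (x / τ)| :=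
    mul_le_mul_of_nonneg_right hG.1 (abs_nonneg _)
  have hE := E_pos τ
  linarith

theorem la_X {τ : ℝ} (hτ : 36 / 10 ≤ τ) (x : ℝ) : |Xn τ x - E (x / τ)| ≤ 1 / 100 := by
  have hτ0 : 0 < τ := by linarith
  have h1 := Pn_eq hτ0 x
  have h2 := la_P hτ x
  have h3 := la_hn hτ
  have h3' := hn_pos τ
  have h4 : sg τ = 1 - hn τ := rfl
  have h5 := la_E hτ
  have hE1 := psi_E_le_one (x / τ)
  have hE0 := E_pos (x / τ)
  have hS1 : -(22 / 100) ≤ Real.sinc x := by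
    have key : ∀ z : ℝ, 0 ≤ z → -(22 / 100) ≤ Real.sinc z := by
      intro z hz
      rcases le_total π z with h | h
      · have := abs_sinc_22 h
        exact (abs_le.1 this).1
      · have := sinc_nonneg hz h
        linarith
    rcases le_total 0 x with h | h
    · exact key x h
    · have := key (-x) (by linarith)
      rwa [Real.sinc_neg] at this
  have hS2 : Real.sinc x ≤ 1 := by
    have := Real.abs_sinc_le_one x
    exact (abs_le.1 this).2
  have h6 : sg τ * (Xn τ x - E (x / τ)) = (Pn τ x - E (x / τ)) + hn τ * (E (x / τ) - Real.sinc x) := by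
    rw [h1, h4]
    ring
  have h7 : |sg τ * (Xn τ x - E (x / τ))| ≤ E τ + hn τ * (122 / 100) := by
    rw [h6]
    refine (abs_add_le _ _).trans (add_le_add h2 ?_)
    rw [abs_mul, abs_of_pos h3']
    refine mul_le_mul_of_nonneg_left ?_ h3'.le
    rw [abs_le]
    constructor <;> linarith
  have hsg : 9955 / 10000 ≤ sg τ := by
    rw [h4]
    linarith
  rw [abs_mul, abs_of_pos (by linarith : 0 < sg τ)] at h7
  have h9 : 9955 / 10000 * |Xn τ x - E (x / τ)| ≤ sg τ * |Xn τ x - E (x / τ)| :=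
    mul_le_mul_of_nonneg_right hsg (abs_nonneg _)
  linarith

theorem la_P_inv {τ : ℝ} (hτ : 36 / 10 ≤ τ) {u : ℝ} (hu : 0 < u) : |Pn τ u| ≤ 8 / 10 * τ / u := by
  have hτ0 : 0 < τ := by linarith
  have hs : u / τ ≠ 0 := by positivity
  have h1 := abs_psi_le_inv hτ0 hs
  have h2 := psi_eq_Pn hτ0 (u / τ)
  rw [mul_div_cancel₀ u hτ0.ne'] at h2
  rw [h2, psi_zero_eq, abs_mul, abs_of_pos (by positivity : 0 < u / τ)] at h1
  have hG := (la_G hτ).1
  rw [abs_of_pos (by linarith : 0 < 2 * G τ)] at h1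
  have h3 : 2 * (12527 / 10000) * |Pn τ u| ≤ 2 * G τ * |Pn τ u| :=
    mul_le_mul_of_nonneg_right (by linarith) (abs_nonneg _)
  have h4 : 2 / (u / τ) = 2 * (τ / u) := by
    field_simp
  rw [h4] at h1
  have h5 : 0 < τ / u := by positivity
  have h6 : 8 / 10 * τ / u = 8 / 10 * (τ / u) := by ring
  rw [h6]
  nlinarith [abs_nonneg (Pn τ u)]

theorem LA_A {τ y : ℝ} {k : ℕ} (h : LAH τ y k) : 3723 / 10000 ≤ τ ^ 2 * (m2 τ * k * y ^ 2 / 2) := by
  obtain ⟨hτ, hy0, hyt, hk⟩ := h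
  have hτ0 : 0 < τ := by linarith
  have hm := la_m2 hτ
  have hy : y ≤ 82 / 100 / (36 / 10) := by
    rw [le_div_iff₀ (by norm_num)]
    refine le_trans ?_ hyt
    exact mul_le_mul_of_nonneg_left hτ hy0.le
  have hy2 : y ^ 2 ≤ (82 / 100 / (36 / 10)) ^ 2 := pow_le_pow_left₀ hy0.le hy 2
  have hky : 748 / 1000 ≤ k * y ^ 2 := by
    have e : ((k : ℝ) + 1) * y ^ 2 = k * y ^ 2 + y ^ 2 := by ring
    rw [e] at hk
    norm_num at hy2 ⊢
    linarith
  have e : τ ^ 2 * (m2 τ * k * y ^ 2 / 2) = (τ ^ 2 * m2 τ) * (k * y ^ 2) / 2 := by ring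
  rw [e]
  have h1 : 9955 / 10000 * (748 / 1000) ≤ (τ ^ 2 * m2 τ) * (k * y ^ 2) :=
    mul_le_mul hm hky (by norm_num) (by linarith)
  norm_num at h1 ⊢
  linarith

theorem LA_pow {τ y : ℝ} {k : ℕ} (h : LAH τ y k) {x x' : ℝ} (h0 : 0 ≤ x) (h1 : x ≤ x')
    (h2 : y * x' ≤ π) : Pn τ (y * x') ^ k * Real.exp (m2 τ * k * y ^ 2 / 2 * (x' ^ 2 - x ^ 2)) ≤
      Pn τ (y * x) ^ k := by
  obtain ⟨hτ, hy0, hyt, hk⟩ := h
  have hτ0 : 0 < τ := by linarith
  have hy1 : y * x ≤ y * x' := mul_le_mul_of_nonneg_left h1 hy0.le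
  have hx' : 0 ≤ x' := h0.trans h1
  have ha := Pn_exp_anti hτ0 (a := y * x) (b := y * x') ⟨by positivity, hy1.trans h2⟩
    ⟨by positivity, h2⟩ hy1
  simp only at ha
  have hp : 0 ≤ Pn τ (y * x') := (Pn_pos hτ0 (by positivity) h2).le
  have h3 := pow_le_pow_left₀ (mul_nonneg hp (Real.exp_pos _).le) ha k
  rw [mul_pow (Pn τ (y * x')), mul_pow (Pn τ (y * x)), ← Real.exp_nat_mul, ← Real.exp_nat_mul] at h3
  have h4 : Real.exp (m2 τ * k * y ^ 2 / 2 * (x' ^ 2 - x ^ 2)) =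
      Real.exp (k * (m2 τ * (y * x') ^ 2 / 2)) * Real.exp (-(k * (m2 τ * (y * x) ^ 2 / 2))) := by
    rw [← Real.exp_add]
    congr 1
    ring
  rw [h4, ← mul_assoc]
  calc Pn τ (y * x') ^ k * Real.exp (k * (m2 τ * (y * x') ^ 2 / 2)) *
        Real.exp (-(k * (m2 τ * (y * x) ^ 2 / 2)))
      ≤ Pn τ (y * x) ^ k * Real.exp (k * (m2 τ * (y * x) ^ 2 / 2)) *
        Real.exp (-(k * (m2 τ * (y * x) ^ 2 / 2))) :=
        mul_le_mul_of_nonneg_right h3 (Real.exp_pos _).le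
    _ = Pn τ (y * x) ^ k := by
        rw [mul_assoc, ← Real.exp_add, add_neg_cancel, Real.exp_zero, mul_one]

end GCube
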