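import Pool.Agent.Lib.H83.LAGauss
import Pool.Agent.Lib.H83.CFPrim

/-!
Chunk LA2: the main part `[0, 1.6 τ]` for `τ ≥ 3.6`. `s = x/τ`, `e = E s`, `S_y = sinc(yx)`, `u = yx ≤ 0.82 s ≤ 1.312`.

`kap ≥ 0` on `[0, 1.6τ]`:
* on `[0,π]`: `kap_lower`, all factors are `≥ 0` (`sinc_nonneg`, `j2_nonneg`, `mu < 1`, `y ≤ 1`).
* on `[π, 2π]` (and `x ≤ 1.6τ`): `sin x ≤ 0`, so `S ≤ 0`, `X_y ≥ 0`, `P ≥ e - g > 0`, `X ≥ e - 0.01 ≥ E(1.6) - 0.01 = 0.268`, `S_y ≥ 0`:
  `kap = x² P (X S_y - S X_y) ≥ x² P X S_y ≥ 0`.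
* `x ≥ 2π`: `|S| ≤ 1/x ≤ 0.1592`, `X_y ≤ 1`, `X S_y ≥ 0.268 · 0.7366 ≥ 0.197` (`S_y ≥ sinc(1.312) ≥ 0.7366`).
For `x ≥ π`, `x ≤ 1.4 τ` in both cases `kap ≥ x² (e - 0.01) ((e - 0.01) sinc(0.82 s) - 0.1592)` as the last bracket is positive. On the cells
`s ∈ [0.875,1], [1,1.2], [1.2,1.4]` (`0.875·3.6 = 3.15 > π`): `e - 0.01 ≥ .5965, .4767, .3653`, `sinc(.82 s) ≥ .8916, .8462, .7943`, bracket
`≥ .3726, .2442, .1309`, product `≥ .2223, .1164, .0478`, `∫ s² ≥ .1100, .2426, .3386`, weight (`LA_pow` with `x' = 1.6τ`, `LA_A`)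
`exp(0.3723 (2.56 - s²)) ≥ 1.787, 1.517, 1.250`: sum `≥ .0437 + .0428 + .0202 = .1067 ≥ 0.08`.
(The first two cells suffice.)
-/

open MeasureTheory Set
open scoped Real

namespace GCube

private theorem LA2_cont (τ y : ℝ) (k : ℕ) : Continuous fun x => kap τ y x * Pn τ (y * x) ^ k :=
  (kap_cont τ y).mul (((Pn_cont τ).comp (continuous_const.mul continuous_id)).pow k)

private theorem LA2_sinc_ge {q u0 : ℚ} (h : q ≤ CF.snL u0) (h0 : 0 ≤ u0) (h1 : u0 ≤ 3) {u : ℝ}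
    (hu0 : 0 ≤ u) (hu : u ≤ u0) : ((q : ℚ) : ℝ) ≤ Real.sinc u := by
  have e1 : ((q : ℚ) : ℝ) ≤ ((CF.snL u0 : ℚ) : ℝ) := by exact_mod_cast h
  refine e1.trans ((CF.snL_le h0).trans ?_)
  have h1' : (u0 : ℝ) ≤ 3 := by exact_mod_cast h1
  apply sinc_anti
  · exact ⟨hu0, by linarith⟩
  · exact ⟨by exact_mod_cast h0, by linarith⟩
  · exact hu

private theorem LA2_E_ge {q s0 : ℚ} (h : q ≤ CF.emL (s0 ^ 2 / 2)) {s : ℝ} (hs : 0 ≤ s)
    (hs0 : s ≤ s0) : ((q : ℚ) : ℝ) ≤ E s := by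
  have e1 : ((q : ℚ) : ℝ) ≤ ((CF.emL (s0 ^ 2 / 2) : ℚ) : ℝ) := by exact_mod_cast h
  refine e1.trans ((CF.emL_le (by positivity)).trans ?_)
  unfold E
  apply Real.exp_le_exp.2
  push_cast
  have := pow_le_pow_left₀ hs hs0 2
  linarith

/-- the lower bound of the kernel for `x ≥ π` -/
private theorem LA2_pt {τ y : ℝ} {k : ℕ} (h : LAH τ y k) {x : ℝ} (hπ : π ≤ x) {e S : ℝ}
    (hx : x ≤ 16 / 10 * τ) (he : e ≤ E (x / τ)) (he0 : 1 / 100 ≤ e) (hS0 : 0 ≤ S)
    (hS : S ≤ Real.sinc (y * x)) (hb : 0 ≤ (e - 1 / 100) * S - 1592 / 10000) :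
    x ^ 2 * ((e - 1 / 100) * ((e - 1 / 100) * S - 1592 / 10000)) ≤ kap τ y x := by
  have hτ := h.hτ
  have hy0 := h.hy0
  have hyt := h.hyt
  have hτ0 : 0 < τ := by linarith
  have hπ0 := Real.pi_pos
  have hx0 : 0 < x := hπ0.trans_le hπ
  have hu0 : 0 ≤ y * x := by positivity
  have hu : y * x ≤ 44 / 10 := by
    calc y * x ≤ y * (16 / 10 * τ) := mul_le_mul_of_nonneg_left hx hy0.le
      _ = 16 / 10 * (y * τ) := by ring
      _ ≤ 44 / 10 := by linarith
  have hXy0 := Xn_nonneg (τ := τ) hu0 hu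
  have hXy1 : Xn τ (y * x) ≤ 1 := (le_abs_self _).trans (abs_Xn_le_one τ _)
  have hP : e - 1 / 100 ≤ Pn τ x := by
    have h1 := la_P hτ x
    have h2 := la_E hτ
    rw [abs_le] at h1
    linarith [h1.1]
  have hX : e - 1 / 100 ≤ Xn τ x := by
    have h1 := la_X hτ x
    rw [abs_le] at h1
    linarith [h1.1]
  have hXS : (e - 1 / 100) * S ≤ Xn τ x * Real.sinc (y * x) :=
    mul_le_mul hX hS hS0 (by linarith)
  -- the bracket
  have hsx : Real.sinc x * Xn τ (y * x) ≤ 1592 / 10000 := by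
    rcases le_total x (2 * π) with h2 | h2
    · have h3 : Real.sinc x ≤ 0 := by
        rw [Real.sinc_of_ne_zero hx0.ne']
        apply div_nonpos_of_nonpos_of_nonneg _ hx0.le
        have h4 := Real.sin_nonneg_of_nonneg_of_le_pi (x := x - π) (by linarith) (by linarith)
        rw [Real.sin_sub_pi] at h4
        linarith
      have := mul_nonpos_of_nonpos_of_nonneg h3 hXy0
      linarith
    · have h3 := abs_sinc_inv hx0
      have h4 : 1 / x ≤ 1592 / 10000 := by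
        rw [div_le_iff₀ hx0]
        linarith [Real.pi_gt_d4]
      have h5 : |Real.sinc x * Xn τ (y * x)| ≤ 1592 / 10000 * 1 := by
        rw [abs_mul]
        exact mul_le_mul (h3.trans h4) (abs_Xn_le_one τ _) (abs_nonneg _) (by norm_num)
      have := le_abs_self (Real.sinc x * Xn τ (y * x))
      linarith
  have hbr : (e - 1 / 100) * S - 1592 / 10000 ≤
      Xn τ x * Real.sinc (y * x) - Real.sinc x * Xn τ (y * x) := by linarith
  unfold kap
  rw [mul_assoc]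
  apply mul_le_mul_of_nonneg_left _ (by positivity)
  exact mul_le_mul hP hbr hb (by linarith)

private theorem LA2_nonneg {τ y : ℝ} {k : ℕ} (h : LAH τ y k) {x : ℝ} (h0 : 0 ≤ x)
    (hx : x ≤ 16 / 10 * τ) : 0 ≤ kap τ y x * Pn τ (y * x) ^ k := by
  have hτ := h.hτ
  have hy0 := h.hy0
  have hyt := h.hyt
  have hτ0 : 0 < τ := by linarith
  have hyx : y * x ≤ 1312 / 1000 := by
    calc y * x ≤ y * (16 / 10 * τ) := mul_le_mul_of_nonneg_left hx hy0.le
      _ = 16 / 10 * (y * τ) := by ring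
      _ ≤ 1312 / 1000 := by linarith
  have hu0 : 0 ≤ y * x := by positivity
  have hπ3 := Real.pi_gt_three
  have hP : 0 < Pn τ (y * x) := Pn_pos hτ0 hu0 (by linarith)
  apply mul_nonneg _ (pow_pos hP k).le
  have hy1 : y ≤ 1 := by nlinarith
  rcases le_total x π with h1 | h1
  · have e1 := kap_lower hτ0 hy0.le hy1 h0 h1
    refine le_trans ?_ e1
    have hmu : 0 < 1 - mu τ := by
      have := mu_lt_one τ
      linarith
    have hsg := sg_pos hτ0
    have hj : 0 ≤ j2 x := j2_nonneg h0 (by linarith [Real.pi_lt_d2])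
    have hsin : 0 ≤ Real.sin x := Real.sin_nonneg_of_nonneg_of_le_pi h0 h1
    have hS : 0 ≤ Real.sinc (y * x) := sinc_nonneg hu0 (by linarith)
    have hy2 : 0 ≤ 1 - y ^ 2 := by nlinarith
    positivity
  · have hE : (((278 / 1000 : ℚ)) : ℝ) ≤ E (x / τ) :=
      LA2_E_ge (s0 := 16 / 10) (by decide +kernel) (by positivity) (by
        push_cast
        rw [div_le_iff₀ hτ0]
        exact hx)
    have hS : (((7366 / 10000 : ℚ)) : ℝ) ≤ Real.sinc (y * x) :=
      LA2_sinc_ge (u0 := 1312 / 1000) (by decide +kernel) (by norm_num) (by norm_num) hu0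
        (by push_cast; linarith)
    push_cast at hE hS
    have e1 := LA2_pt h h1 hx hE (by norm_num) (by norm_num) hS (by norm_num)
    refine le_trans ?_ e1
    positivity

/-- one cell -/
private theorem LA2_cell {τ y : ℝ} {k : ℕ} (h : LAH τ y k) {a b : ℝ} {e S w : ℚ}
    (ha : 875 / 1000 ≤ a) (hab : a ≤ b) (hb : b ≤ 16 / 10)
    (hE : ∀ s : ℝ, 0 ≤ s → s ≤ b → ((e : ℚ) : ℝ) ≤ E s)
    (hS : ∀ u : ℝ, 0 ≤ u → u ≤ 82 / 100 * b → ((S : ℚ) : ℝ) ≤ Real.sinc u)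
    (he0 : 1 / 100 ≤ e) (hS0 : 0 ≤ S) (hbr : 0 ≤ (e - 1 / 100) * S - 1592 / 10000)
    (hw0 : 0 ≤ w) (hw : (w : ℝ) ≤ Real.exp (3723 / 10000 * (256 / 100 - b ^ 2))) :
    ((e : ℝ) - 1 / 100) * ((e - 1 / 100) * S - 1592 / 10000) * w * ((b ^ 3 - a ^ 3) / 3) * τ ^ 3 *
      Pn τ (y * (16 / 10 * τ)) ^ k ≤ ∫ x in (a * τ)..(b * τ), kap τ y x * Pn τ (y * x) ^ k := by
  have hτ := h.hτ
  have hy0 := h.hy0
  have hyt := h.hyt
  have hτ0 : 0 < τ := by linarith
  have he0' : (1 / 100 : ℝ) ≤ e := by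
    have : (((1 / 100 : ℚ)) : ℝ) ≤ e := by exact_mod_cast he0
    push_cast at this
    exact this
  have hS0' : (0 : ℝ) ≤ S := by exact_mod_cast hS0
  have hbr' : (0 : ℝ) ≤ ((e : ℝ) - 1 / 100) * S - 1592 / 10000 := by
    have : (0 : ℝ) ≤ (((e - 1 / 100) * S - 1592 / 10000 : ℚ) : ℝ) := by exact_mod_cast hbr
    push_cast at this
    exact this
  have hw0' : (0 : ℝ) ≤ w := by exact_mod_cast hw0
  have hle : a * τ ≤ b * τ := mul_le_mul_of_nonneg_right hab hτ0.le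
  have hρ : 0 < Pn τ (y * (16 / 10 * τ)) ^ k :=
    pow_pos (Pn_pos hτ0 (by positivity) (by nlinarith [Real.pi_gt_three])) k
  have hpt : ∀ x ∈ Icc (a * τ) (b * τ),
      ((e : ℝ) - 1 / 100) * ((e - 1 / 100) * S - 1592 / 10000) * w *
        Pn τ (y * (16 / 10 * τ)) ^ k * x ^ 2 ≤ kap τ y x * Pn τ (y * x) ^ k := by
    intro x hx
    have hxπ : π ≤ x := by
      have h1 : 315 / 100 ≤ a * τ := by nlinarith
      linarith [hx.1, Real.pi_lt_d2]
    have hx0 : 0 < x := Real.pi_pos.trans_le hxπ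
    have hxb : x / τ ≤ b := by
      rw [div_le_iff₀ hτ0]
      exact hx.2
    have hx16 : x ≤ 16 / 10 * τ := hx.2.trans (mul_le_mul_of_nonneg_right hb hτ0.le)
    have hyx : y * x ≤ 82 / 100 * b := by
      calc y * x ≤ y * (b * τ) := mul_le_mul_of_nonneg_left hx.2 hy0.le
        _ = y * τ * b := by ring
        _ ≤ 82 / 100 * b := mul_le_mul_of_nonneg_right hyt (by linarith)
    have hu0 : 0 ≤ y * x := by positivity
    have e1 := LA2_pt h hxπ hx16 (hE _ (by positivity) hxb) he0' hS0' (hS _ hu0 hyx) hbr'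
    have hpow := LA_pow h (x := x) (x' := 16 / 10 * τ) hx0.le hx16 (by nlinarith [Real.pi_gt_three])
    have hA := LA_A h
    have e2 : 3723 / 10000 * (256 / 100 - b ^ 2) ≤
        m2 τ * k * y ^ 2 / 2 * ((16 / 10 * τ) ^ 2 - x ^ 2) := by
      have h1 : 0 ≤ 256 / 100 - (x / τ) ^ 2 := by
        have h3 : 0 ≤ x / τ := by positivity
        have h4 : x / τ ≤ 16 / 10 := hxb.trans hb
        nlinarith
      have h2 : m2 τ * k * y ^ 2 / 2 * ((16 / 10 * τ) ^ 2 - x ^ 2) =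
          (τ ^ 2 * (m2 τ * k * y ^ 2 / 2)) * (256 / 100 - (x / τ) ^ 2) := by
        field_simp
        ring
      have h3 : (x / τ) ^ 2 ≤ b ^ 2 := pow_le_pow_left₀ (by positivity) hxb 2
      rw [h2]
      calc 3723 / 10000 * (256 / 100 - b ^ 2) ≤ 3723 / 10000 * (256 / 100 - (x / τ) ^ 2) := by
            linarith
        _ ≤ _ := mul_le_mul_of_nonneg_right hA h1
    have e3 : (w : ℝ) * Pn τ (y * (16 / 10 * τ)) ^ k ≤ Pn τ (y * x) ^ k := by
      refine le_trans ?_ hpow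
      rw [mul_comm]
      exact mul_le_mul_of_nonneg_left (hw.trans (Real.exp_le_exp.2 e2)) hρ.le
    have hnn : 0 ≤ x ^ 2 * (((e : ℝ) - 1 / 100) * ((e - 1 / 100) * S - 1592 / 10000)) := by
      have : (0 : ℝ) ≤ (e : ℝ) - 1 / 100 := by linarith
      positivity
    have e4 := mul_le_mul e1 e3 (by positivity) (hnn.trans e1)
    refine le_trans (le_of_eq ?_) e4
    ring
  have hc : Continuous fun x : ℝ => ((e : ℝ) - 1 / 100) * ((e - 1 / 100) * S - 1592 / 10000) * w *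
        Pn τ (y * (16 / 10 * τ)) ^ k * x ^ 2 := by fun_prop
  have hint := intervalIntegral.integral_mono_on (μ := volume) hle
    (hc.intervalIntegrable _ _) ((LA2_cont τ y k).intervalIntegrable _ _) hpt
  refine le_trans (le_of_eq ?_) hint
  rw [intervalIntegral.integral_const_mul, integral_pow]
  push_cast
  ring

theorem LA_M {τ y : ℝ} {k : ℕ} (h : LAH τ y k) :
    8 / 100 * τ ^ 3 * Pn τ (y * (16 / 10 * τ)) ^ k ≤
      ∫ x in (0 : ℝ)..(16 / 10 * τ), kap τ y x * Pn τ (y * x) ^ k := by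
  have hτ := h.hτ
  have hy0 := h.hy0
  have hyt := h.hyt
  have hτ0 : 0 < τ := by linarith
  have hρ : 0 < Pn τ (y * (16 / 10 * τ)) ^ k :=
    pow_pos (Pn_pos hτ0 (by positivity) (by nlinarith [Real.pi_gt_three])) k
  have hc := LA2_cont τ y k
  have h0 : 0 ≤ ∫ x in (0 : ℝ)..(875 / 1000 * τ), kap τ y x * Pn τ (y * x) ^ k :=
    intervalIntegral.integral_nonneg (by positivity) fun x hx =>
      LA2_nonneg h hx.1 (hx.2.trans (by linarith))
  have h3 : 0 ≤ ∫ x in (12 / 10 * τ)..(16 / 10 * τ), kap τ y x * Pn τ (y * x) ^ k :=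
    intervalIntegral.integral_nonneg (by linarith) fun x hx =>
      LA2_nonneg h (by linarith [hx.1]) hx.2
  have h1 := LA2_cell h (a := 875 / 1000) (b := 1) (e := 6065 / 10000) (S := 8916 / 10000)
    (w := 1787 / 1000) le_rfl (by norm_num) (by norm_num)
    (fun s hs0 hs => LA2_E_ge (s0 := 1) (by decide +kernel) hs0 (by push_cast; exact hs))
    (fun u hu0 hu => LA2_sinc_ge (u0 := 82 / 100) (by decide +kernel) (by norm_num) (by norm_num) hu0
      (by push_cast; linarith)) (by norm_num) (by norm_num) (by norm_num) (by norm_num)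
    (by
      have e1 := CF.Tq_le_exp (w := 3723 / 10000 * (256 / 100 - 1 ^ 2)) (by norm_num)
      have e2 : (((1787 / 1000 : ℚ)) : ℝ) ≤ ((CF.Tq (3723 / 10000 * (256 / 100 - 1 ^ 2)) : ℚ) : ℝ) := by
        exact_mod_cast (by decide +kernel : (1787 / 1000 : ℚ) ≤ CF.Tq (3723 / 10000 * (256 / 100 - 1 ^ 2)))
      refine e2.trans (e1.trans (le_of_eq ?_))
      push_cast
      rfl)
  have h2 := LA2_cell h (a := 1) (b := 12 / 10) (e := 4867 / 10000) (S := 8462 / 10000)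
    (w := 1517 / 1000) (by norm_num) (by norm_num) (by norm_num)
    (fun s hs0 hs => LA2_E_ge (s0 := 12 / 10) (by decide +kernel) hs0 (by push_cast; exact hs))
    (fun u hu0 hu => LA2_sinc_ge (u0 := 984 / 1000) (by decide +kernel) (by norm_num) (by norm_num) hu0
      (by push_cast; linarith)) (by norm_num) (by norm_num) (by norm_num) (by norm_num)
    (by
      have e1 := CF.Tq_le_exp (w := 3723 / 10000 * (256 / 100 - (12 / 10) ^ 2)) (by norm_num)
      have e2 : (((1517 / 1000 : ℚ)) : ℝ) ≤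
          ((CF.Tq (3723 / 10000 * (256 / 100 - (12 / 10) ^ 2)) : ℚ) : ℝ) := by
        exact_mod_cast
          (by decide +kernel : (1517 / 1000 : ℚ) ≤ CF.Tq (3723 / 10000 * (256 / 100 - (12 / 10) ^ 2)))
      refine e2.trans (e1.trans (le_of_eq ?_))
      push_cast
      rfl)
  have e1 := intervalIntegral.integral_add_adjacent_intervals (μ := volume)
    (hc.intervalIntegrable (0 : ℝ) (875 / 1000 * τ)) (hc.intervalIntegrable (875 / 1000 * τ) (1 * τ))
  have e2 := intervalIntegral.integral_add_adjacent_intervals (μ := volume)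
    (hc.intervalIntegrable (0 : ℝ) (1 * τ)) (hc.intervalIntegrable (1 * τ) (12 / 10 * τ))
  have e3 := intervalIntegral.integral_add_adjacent_intervals (μ := volume)
    (hc.intervalIntegrable (0 : ℝ) (12 / 10 * τ)) (hc.intervalIntegrable (12 / 10 * τ) (16 / 10 * τ))
  rw [← e3, ← e2, ← e1]
  push_cast at h1 h2
  have hτρ : 0 < τ ^ 3 * Pn τ (y * (16 / 10 * τ)) ^ k := by positivity
  linarith

end GCube
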