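import Pool.Agent.Lib.H83.Cmem

/-!
Chunk LS, part 1: the function `𝔉(s) = K_{U_s C}(τ) + 𝔈(s)`, `𝔈(s) = ∫_{τ-s}^{τ+s} C`, is nonnegative on
`[0,τ]`.
-/

open MeasureTheory Set
open scoped Real

namespace GCube

lemma ls_hasDerivAt_E (x : ℝ) : HasDerivAt E (-(x * E x)) x := by
  unfold E
  have h : HasDerivAt (fun x : ℝ => -(x ^ 2) / 2) (-x) x := by
    have := ((hasDerivAt_pow 2 x).neg).div_const 2
    refine this.congr_deriv ?_
    ring
  refine h.exp.congr_deriv ?_
  ring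

lemma ls_hasDerivAt_G (x : ℝ) : HasDerivAt G (E x) x :=
  intervalIntegral.integral_hasDerivAt_right (E_continuous.intervalIntegrable _ _)
    (E_continuous.stronglyMeasurableAtFilter _ _) E_continuous.continuousAt

lemma ls_G_neg (x : ℝ) : G (-x) = - G x := by
  unfold G
  have h8 := intervalIntegral.integral_comp_neg (f := E) (a := 0) (b := x)
  simp only [E_neg, neg_zero] at h8
  rw [h8, intervalIntegral.integral_symm]

lemma ls_G_mono : Monotone G :=
  monotone_of_deriv_nonneg (fun x => (ls_hasDerivAt_G x).differentiableAt)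
    (fun x => by rw [(ls_hasDerivAt_G x).deriv]; exact (E_pos x).le)

/-- primitive of `C_y` -/
noncomputable def lsPhi (τ y x : ℝ) : ℝ := ∫ u in (0 : ℝ)..x, C τ y u
/-- primitive of `lsPhi` -/
noncomputable def lsN (τ y x : ℝ) : ℝ := ∫ u in (0 : ℝ)..x, lsPhi τ y u
/-- primitive of `x lsPhi` -/
noncomputable def lsM (τ y x : ℝ) : ℝ := ∫ u in (0 : ℝ)..x, u * lsPhi τ y u

variable {τ y : ℝ}

lemma lsPhi_deriv (hτ : 0 < τ) (hy0 : 0 < y) (hy1 : y < 1) (x : ℝ) :
    HasDerivAt (lsPhi τ y) (C τ y x) x :=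
  intervalIntegral.integral_hasDerivAt_right ((C_continuous hτ hy0 hy1).intervalIntegrable _ _)
    ((C_continuous hτ hy0 hy1).stronglyMeasurableAtFilter _ _) (C_continuous hτ hy0 hy1).continuousAt

lemma lsPhi_cont (hτ : 0 < τ) (hy0 : 0 < y) (hy1 : y < 1) : Continuous (lsPhi τ y) :=
  continuous_iff_continuousAt.mpr fun x => (lsPhi_deriv hτ hy0 hy1 x).continuousAt

lemma lsN_deriv (hτ : 0 < τ) (hy0 : 0 < y) (hy1 : y < 1) (x : ℝ) :
    HasDerivAt (lsN τ y) (lsPhi τ y x) x :=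
  intervalIntegral.integral_hasDerivAt_right ((lsPhi_cont hτ hy0 hy1).intervalIntegrable _ _)
    ((lsPhi_cont hτ hy0 hy1).stronglyMeasurableAtFilter _ _) (lsPhi_cont hτ hy0 hy1).continuousAt

lemma lsM_deriv (hτ : 0 < τ) (hy0 : 0 < y) (hy1 : y < 1) (x : ℝ) :
    HasDerivAt (lsM τ y) (x * lsPhi τ y x) x := by
  have hc : Continuous fun u => u * lsPhi τ y u := continuous_id.mul (lsPhi_cont hτ hy0 hy1)
  exact intervalIntegral.integral_hasDerivAt_right (hc.intervalIntegrable _ _)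
    (hc.stronglyMeasurableAtFilter _ _) hc.continuousAt

lemma ls_C_int (hτ : 0 < τ) (hy0 : 0 < y) (hy1 : y < 1) (a b : ℝ) :
    ∫ u in a..b, C τ y u = lsPhi τ y b - lsPhi τ y a := by
  exact intervalIntegral.integral_eq_sub_of_hasDerivAt
    (fun x _ => lsPhi_deriv hτ hy0 hy1 x) ((C_continuous hτ hy0 hy1).intervalIntegrable _ _)

lemma lsPhi_even (hτ : 0 < τ) (hy0 : 0 < y) (hy1 : y < 1) (x : ℝ) :
    lsPhi τ y (-x) = lsPhi τ y x := by
  unfold lsPhi
  have h8 := intervalIntegral.integral_comp_neg (f := C τ y) (a := 0) (b := x)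
  simp only [C_odd τ y _ hτ hy0 hy1, neg_zero, intervalIntegral.integral_neg] at h8
  rw [intervalIntegral.integral_symm (-x) 0, ← h8, neg_neg]

lemma lsN_odd (hτ : 0 < τ) (hy0 : 0 < y) (hy1 : y < 1) (x : ℝ) :
    lsN τ y (-x) = - lsN τ y x := by
  unfold lsN
  have h8 := intervalIntegral.integral_comp_neg (f := lsPhi τ y) (a := 0) (b := x)
  simp only [lsPhi_even hτ hy0 hy1, neg_zero] at h8
  rw [h8, intervalIntegral.integral_symm]

lemma lsM_even (hτ : 0 < τ) (hy0 : 0 < y) (hy1 : y < 1) (x : ℝ) :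
    lsM τ y (-x) = lsM τ y x := by
  unfold lsM
  have h8 := intervalIntegral.integral_comp_neg (f := fun u => u * lsPhi τ y u) (a := 0) (b := x)
  simp only [lsPhi_even hτ hy0 hy1, neg_zero, neg_mul, intervalIntegral.integral_neg] at h8
  rw [intervalIntegral.integral_symm (-x) 0, ← h8, neg_neg]

lemma ls_K_eq (hτ : 0 < τ) (hy0 : 0 < y) (hy1 : y < 1) (x : ℝ) :
    K (C τ y) x = x * lsPhi τ y x - lsN τ y x := by
  unfold K
  have hc : Continuous fun u => u * C τ y u := continuous_id.mul (C_continuous hτ hy0 hy1)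
  rw [intervalIntegral.integral_eq_sub_of_hasDerivAt (f := fun x => x * lsPhi τ y x - lsN τ y x)
    ?_ (hc.intervalIntegrable _ _)]
  · simp [lsN]
  · intro u _
    have := ((hasDerivAt_id u).mul (lsPhi_deriv hτ hy0 hy1 u)).sub (lsN_deriv hτ hy0 hy1 u)
    refine this.congr_deriv ?_
    simp

/-- the function `V` -/
lemma ls_V_eq (hτ : 0 < τ) (hy0 : 0 < y) (hy1 : y < 1) (s : ℝ) :
    K (fun x => ∫ u in (x - s)..(x + s), C τ y u) τ =
      lsM τ y (τ + s) - lsM τ y (τ - s) - s * (lsN τ y (τ + s) + lsN τ y (τ - s)) := by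
  unfold K
  simp_rw [ls_C_int hτ hy0 hy1]
  have hP := lsPhi_cont hτ hy0 hy1
  have hc : Continuous fun x => x * (lsPhi τ y (x + s) - lsPhi τ y (x - s)) := by fun_prop
  rw [intervalIntegral.integral_eq_sub_of_hasDerivAt
    (f := fun x => lsM τ y (x + s) - s * lsN τ y (x + s) - (lsM τ y (x - s) + s * lsN τ y (x - s)))
    ?_ (hc.intervalIntegrable _ _)]
  · simp only [zero_add, zero_sub, lsM_even hτ hy0 hy1, lsN_odd hτ hy0 hy1]
    ring
  · intro x _
    have h1 : HasDerivAt (fun x => x + s) 1 x := (hasDerivAt_id x).add_const s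
    have h2 : HasDerivAt (fun x => x - s) 1 x := (hasDerivAt_id x).sub_const s
    have a1 := (lsM_deriv hτ hy0 hy1 (x + s)).comp x h1
    have a2 := (lsN_deriv hτ hy0 hy1 (x + s)).comp x h1
    have a3 := (lsM_deriv hτ hy0 hy1 (x - s)).comp x h2
    have a4 := (lsN_deriv hτ hy0 hy1 (x - s)).comp x h2
    have := (a1.sub (a2.const_mul s)).sub (a3.add (a4.const_mul s))
    refine this.congr_deriv ?_
    ring

/-- derivative of `𝔉` -/
lemma ls_F_deriv (hτ : 0 < τ) (hy0 : 0 < y) (hy1 : y < 1) (s : ℝ) :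
    HasDerivAt (fun s => K (fun x => ∫ u in (x - s)..(x + s), C τ y u) τ +
      ∫ u in (τ - s)..(τ + s), C τ y u)
      ((K (C τ y) (τ - s) + C τ y (τ - s)) + (K (C τ y) (τ + s) + C τ y (τ + s)) -
        s * ∫ u in (τ - s)..(τ + s), C τ y u) s := by
  simp_rw [ls_V_eq hτ hy0 hy1, ls_C_int hτ hy0 hy1, ls_K_eq hτ hy0 hy1]
  have h1 : HasDerivAt (fun s => τ + s) 1 s := (hasDerivAt_id s).const_add τ
  have h2 : HasDerivAt (fun s => τ - s) (-1) s := (hasDerivAt_id s).const_sub τ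
  have a1 := (lsM_deriv hτ hy0 hy1 (τ + s)).comp s h1
  have a2 := (lsM_deriv hτ hy0 hy1 (τ - s)).comp s h2
  have a3 := (lsN_deriv hτ hy0 hy1 (τ + s)).comp s h1
  have a4 := (lsN_deriv hτ hy0 hy1 (τ - s)).comp s h2
  have a5 := (lsPhi_deriv hτ hy0 hy1 (τ + s)).comp s h1
  have a6 := (lsPhi_deriv hτ hy0 hy1 (τ - s)).comp s h2
  have := ((a1.sub a2).sub ((hasDerivAt_id s).mul (a3.add a4))).add (a5.sub a6)
  refine this.congr_deriv ?_
  simp only [id_eq, Function.comp_apply, Pi.add_apply]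
  ring

lemma ls_Cpos_of_nonneg {z : ℝ} (hz : 0 ≤ z) : C τ y z = Cpos τ y z := by
  unfold C; rw [if_pos hz]

lemma ls_C1 {z : ℝ} (hz : 0 ≤ z) (hz1 : z ≤ (1 - y) * τ) :
    C τ y z = E (z - y * τ) - E (z + y * τ) := by
  rw [ls_Cpos_of_nonneg hz]; unfold Cpos; rw [if_pos hz1]

lemma ls_C2 (hτ : 0 < τ) (hy0 : 0 < y) (hy1 : y < 1) {z : ℝ} (hz1 : (1 - y) * τ ≤ z)
    (hz2 : z ≤ (1 + y) * τ) : C τ y z = E (z - y * τ) - E ((z - τ) / y) := by
  have hz : 0 ≤ z := le_trans (by nlinarith) hz1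
  rcases eq_or_lt_of_le hz1 with h | h
  · rw [ls_C1 hz h.ge, ← h]
    congr 1
    rw [show ((1 - y) * τ - τ) / y = -((1 - y) * τ + y * τ) by field_simp; ring, E_neg]
  · rw [ls_Cpos_of_nonneg hz]; unfold Cpos; rw [if_neg (not_le.mpr h), if_pos hz2]

lemma ls_K1 (hτ : 0 < τ) (hy0 : 0 < y) (hy1 : y < 1) {x : ℝ} (hx : 0 ≤ x)
    (hx1 : x ≤ (1 - y) * τ) :
    K (C τ y) x + C τ y x = y * τ * (G (x - y * τ) + G (x + y * τ)) := by
  have hE := E_continuous
  have h1 : K (C τ y) x = ∫ z in (0 : ℝ)..x, z * (E (z - y * τ) - E (z + y * τ)) := by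
    unfold K
    apply intervalIntegral.integral_congr
    intro z hz
    rw [uIcc_of_le hx] at hz
    simp only
    rw [ls_C1 hz.1 (hz.2.trans hx1)]
  rw [h1, ls_C1 hx hx1]
  rw [intervalIntegral.integral_eq_sub_of_hasDerivAt
    (f := fun z => y * τ * (G (z - y * τ) + G (z + y * τ)) - (E (z - y * τ) - E (z + y * τ)))
    ?_ ((by fun_prop : Continuous fun z => z * (E (z - y * τ) - E (z + y * τ))).intervalIntegrable
      _ _)]
  · simp only [zero_sub, zero_add, ls_G_neg, E_neg]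
    ring
  · intro z _
    have h1 : HasDerivAt (fun z => z - y * τ) 1 z := (hasDerivAt_id z).sub_const _
    have h2 : HasDerivAt (fun z => z + y * τ) 1 z := (hasDerivAt_id z).add_const _
    have a1 := (ls_hasDerivAt_G (z - y * τ)).comp z h1
    have a2 := (ls_hasDerivAt_G (z + y * τ)).comp z h2
    have a3 := (ls_hasDerivAt_E (z - y * τ)).comp z h1
    have a4 := (ls_hasDerivAt_E (z + y * τ)).comp z h2
    have := ((a1.add a2).const_mul (y * τ)).sub (a3.sub a4)
    refine this.congr_deriv ?_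
    ring

lemma ls_K2 (hτ : 0 < τ) (hy0 : 0 < y) (hy1 : y < 1) {x : ℝ} (hx1 : (1 - y) * τ ≤ x)
    (hx2 : x ≤ (1 + y) * τ) :
    K (C τ y) x + C τ y x = y * τ * (G (x - y * τ) - G ((x - τ) / y)) -
      (1 - y ^ 2) * (E ((x - τ) / y) - E τ) := by
  have hE := E_continuous
  have hc : Continuous fun u => u * C τ y u := continuous_id.mul (C_continuous hτ hy0 hy1)
  have h0 : 0 ≤ (1 - y) * τ := by nlinarith
  have hsplit : K (C τ y) x = K (C τ y) ((1 - y) * τ) + ∫ z in ((1 - y) * τ)..x, z * C τ y z := by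
    unfold K
    rw [intervalIntegral.integral_add_adjacent_intervals (hc.intervalIntegrable _ _)
      (hc.intervalIntegrable _ _)]
  have h1 : ∫ z in ((1 - y) * τ)..x, z * C τ y z =
      ∫ z in ((1 - y) * τ)..x, z * (E (z - y * τ) - E ((z - τ) / y)) := by
    apply intervalIntegral.integral_congr
    intro z hz
    rw [uIcc_of_le hx1] at hz
    simp only
    rw [ls_C2 hτ hy0 hy1 hz.1 (hz.2.trans hx2)]
  have hK1 := ls_K1 hτ hy0 hy1 h0 le_rfl
  rw [ls_C1 h0 le_rfl] at hK1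
  have h2 : ∫ z in ((1 - y) * τ)..x, z * (E (z - y * τ) - E ((z - τ) / y)) =
      (y * τ * (G (x - y * τ) - G ((x - τ) / y)) - (1 - y ^ 2) * (E ((x - τ) / y) - E τ) -
        (E (x - y * τ) - E ((x - τ) / y))) -
      (y * τ * (G ((1 - y) * τ - y * τ) - G (((1 - y) * τ - τ) / y)) -
        (1 - y ^ 2) * (E (((1 - y) * τ - τ) / y) - E τ) -
        (E ((1 - y) * τ - y * τ) - E (((1 - y) * τ - τ) / y))) := by
    refine intervalIntegral.integral_eq_sub_of_hasDerivAt
      (f := fun x => y * τ * (G (x - y * τ) - G ((x - τ) / y)) -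
        (1 - y ^ 2) * (E ((x - τ) / y) - E τ) - (E (x - y * τ) - E ((x - τ) / y)))
      ?_ ((by fun_prop : Continuous fun z =>
        z * (E (z - y * τ) - E ((z - τ) / y))).intervalIntegrable _ _)
    intro z _
    have h1 : HasDerivAt (fun z => z - y * τ) 1 z := (hasDerivAt_id z).sub_const _
    have h2 : HasDerivAt (fun z => (z - τ) / y) (1 / y) z :=
      ((hasDerivAt_id z).sub_const _).div_const y
    have a1 := (ls_hasDerivAt_G (z - y * τ)).comp z h1
    have a2 := (ls_hasDerivAt_G ((z - τ) / y)).comp z h2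
    have a3 := (ls_hasDerivAt_E (z - y * τ)).comp z h1
    have a4 := (ls_hasDerivAt_E ((z - τ) / y)).comp z h2
    have := ((((a1.sub a2).const_mul (y * τ)).sub ((a4.sub_const (E τ)).const_mul (1 - y ^ 2)))).sub
      (a3.sub a4)
    refine this.congr_deriv ?_
    field_simp
    ring
  rw [hsplit, h1, h2, ls_C2 hτ hy0 hy1 hx1 hx2]
  have e1 : ((1 - y) * τ - τ) / y = -τ := by field_simp; ring
  have e2 : (1 - y) * τ + y * τ = τ := by ring
  rw [e1, ls_G_neg, E_neg]
  rw [e2] at hK1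
  linarith

lemma ls_K3 (hτ : 0 < τ) (hy0 : 0 < y) (hy1 : y < 1) {x : ℝ} (hx2 : (1 + y) * τ ≤ x) :
    K (C τ y) x + C τ y x = 0 := by
  have hc : Continuous fun u => u * C τ y u := continuous_id.mul (C_continuous hτ hy0 hy1)
  have h0 : 0 ≤ (1 + y) * τ := by positivity
  have hsplit : K (C τ y) x = K (C τ y) ((1 + y) * τ) + ∫ z in ((1 + y) * τ)..x, z * C τ y z := by
    unfold K
    rw [intervalIntegral.integral_add_adjacent_intervals (hc.intervalIntegrable _ _)
      (hc.intervalIntegrable _ _)]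
  have h1 : ∫ z in ((1 + y) * τ)..x, z * C τ y z = 0 := by
    rw [intervalIntegral.integral_congr (g := fun _ => (0:ℝ))]
    · simp
    · intro z hz
      rw [uIcc_of_le hx2] at hz
      simp only
      rw [C_supp hτ hy0 hy1 (hz.1.trans (le_abs_self z)), mul_zero]
  have hK2 := ls_K2 hτ hy0 hy1 (x := (1 + y) * τ) (by nlinarith) le_rfl
  rw [C_supp hτ hy0 hy1 (le_abs_self _)] at hK2
  have e1 : ((1 + y) * τ - τ) / y = τ := by field_simp; ring
  have e2 : (1 + y) * τ - y * τ = τ := by ring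
  rw [e1, e2] at hK2
  rw [hsplit, h1, C_supp hτ hy0 hy1 (hx2.trans (le_abs_self x))]
  linarith

lemma ls_G_add {a : ℝ} (ha : 0 ≤ a) (s : ℝ) : 2 * E s * G a ≤ G (a + s) + G (a - s) := by
  have hm : MonotoneOn (fun a => G (a + s) + G (a - s) - 2 * E s * G a) (Ici 0) := by
    have hd : ∀ x, HasDerivAt (fun a => G (a + s) + G (a - s) - 2 * E s * G a)
        (E (x + s) * 1 + E (x - s) * 1 - 2 * E s * E x) x := by
      intro x
      have h1 : HasDerivAt (fun x => x + s) 1 x := (hasDerivAt_id x).add_const s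
      have h2 : HasDerivAt (fun x => x - s) 1 x := (hasDerivAt_id x).sub_const s
      exact (((ls_hasDerivAt_G (x + s)).comp x h1).add ((ls_hasDerivAt_G (x - s)).comp x h2)).sub
        ((ls_hasDerivAt_G x).const_mul (2 * E s))
    refine monotoneOn_of_deriv_nonneg (convex_Ici 0)
      (fun x _ => (hd x).continuousAt.continuousWithinAt)
      (fun x _ => (hd x).differentiableAt.differentiableWithinAt) ?_
    intro x _
    rw [(hd x).deriv]
    have e1 : E (x + s) = E x * E s * Real.exp (-(x * s)) := by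
      unfold E; rw [← Real.exp_add, ← Real.exp_add]; congr 1; ring
    have e2 : E (x - s) = E x * E s * Real.exp (x * s) := by
      unfold E; rw [← Real.exp_add, ← Real.exp_add]; congr 1; ring
    rw [e1, e2]
    have h3 : 0 < E x * E s := mul_pos (E_pos _) (E_pos _)
    have h4 := Real.add_one_le_exp (x * s)
    have h5 := Real.add_one_le_exp (-(x * s))
    nlinarith
  have h := hm (mem_Ici.mpr le_rfl) (mem_Ici.mpr ha) ha
  simp only [zero_add, zero_sub, ls_G_neg] at h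
  have hG0 : G 0 = 0 := by simp [G]
  rw [hG0] at h
  linarith

lemma ls_Xi_nonneg (hτ : 0 < τ) (hy0 : 0 < y) (hy1 : y < 1) (h : Kap τ y) {s : ℝ}
    (hs0 : 0 ≤ s) (hsτ : s ≤ τ) :
    0 ≤ (K (C τ y) (τ - s) + C τ y (τ - s)) + (K (C τ y) (τ + s) + C τ y (τ + s)) := by
  have hyτ : 0 < y * τ := by positivity
  rcases le_total s (y * τ) with hs | hs
  · rw [ls_K2 hτ hy0 hy1 (by linarith) (by linarith), ls_K2 hτ hy0 hy1 (by linarith) (by linarith)]
    have e1 : (τ - s - τ) / y = -(s / y) := by ring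
    have e2 : (τ + s - τ) / y = s / y := by ring
    rw [e1, e2, ls_G_neg, E_neg]
    have e3 : τ - s - y * τ = (1 - y) * τ - s := by ring
    have e4 : τ + s - y * τ = (1 - y) * τ + s := by ring
    rw [e3, e4]
    have h1 := ls_G_add (a := (1 - y) * τ) (by nlinarith) s
    have hEs := E_pos s
    have hEτ := E_pos τ
    have h2 : E (s / y) ≤ E s := by
      unfold E
      apply Real.exp_le_exp.mpr
      have : s ≤ s / y := by
        rw [le_div_iff₀ hy0]; nlinarith
      have : s ^ 2 ≤ (s / y) ^ 2 := by gcongr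
      linarith
    have h3 : E s ≤ 1 := by
      unfold E
      rw [Real.exp_le_one_iff]
      have := sq_nonneg s
      linarith
    have h4 : E (s / y) - E τ ≤ (1 - E τ) * E s := by nlinarith
    have h5 : 0 < 1 - y ^ 2 := by nlinarith
    unfold Kap at h
    have h6 : (1 - y ^ 2) * (E (s / y) - E τ) ≤ (1 - y ^ 2) * ((1 - E τ) * E s) :=
      mul_le_mul_of_nonneg_left h4 h5.le
    have h7 : y * τ * (2 * E s * G ((1 - y) * τ)) ≤
        y * τ * (G ((1 - y) * τ + s) + G ((1 - y) * τ - s)) :=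
      mul_le_mul_of_nonneg_left h1 hyτ.le
    have h8 : (1 - y ^ 2) * (1 - E τ) * E s ≤ y * τ * G ((1 - y) * τ) * E s :=
      mul_le_mul_of_nonneg_right h hEs.le
    nlinarith
  · rw [ls_K1 hτ hy0 hy1 (by linarith) (by linarith), ls_K3 hτ hy0 hy1 (by linarith), add_zero]
    apply mul_nonneg hyτ.le
    have : G (-(τ - s - y * τ)) ≤ G (τ - s + y * τ) := ls_G_mono (by linarith)
    rw [ls_G_neg] at this
    linarith

theorem ls_F_nonneg {τ y : ℝ} (hτ : 0 < τ) (hy0 : 0 < y) (hy1 : y < 1) (h : Kap τ y) {s : ℝ}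
    (hs0 : 0 ≤ s) (hsτ : s ≤ τ) :
    0 ≤ K (fun x => ∫ u in (x - s)..(x + s), C τ y u) τ + ∫ u in (τ - s)..(τ + s), C τ y u := by
  have hd := ls_F_deriv hτ hy0 hy1
  set F : ℝ → ℝ := fun s => K (fun x => ∫ u in (x - s)..(x + s), C τ y u) τ +
      ∫ u in (τ - s)..(τ + s), C τ y u with hF
  have hS := C_inS hτ hy0 hy1
  have hP : ∀ x, HasDerivAt (fun s => Real.exp (s ^ 2 / 2) * F s)
      (Real.exp (x ^ 2 / 2) * x * F x + Real.exp (x ^ 2 / 2) *
        ((K (C τ y) (τ - x) + C τ y (τ - x)) + (K (C τ y) (τ + x) + C τ y (τ + x)) -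
        x * ∫ u in (τ - x)..(τ + x), C τ y u)) x := by
    intro x
    have h1 : HasDerivAt (fun s : ℝ => s ^ 2 / 2) x x := by
      have := (hasDerivAt_pow 2 x).div_const 2
      refine this.congr_deriv ?_
      ring
    exact h1.exp.mul (hd x)
  have hm : MonotoneOn (fun s => Real.exp (s ^ 2 / 2) * F s) (Icc 0 τ) := by
    refine monotoneOn_of_deriv_nonneg (convex_Icc 0 τ)
      (fun x _ => (hP x).continuousAt.continuousWithinAt)
      (fun x _ => (hP x).differentiableAt.differentiableWithinAt) ?_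
    intro x hx
    rw [interior_Icc] at hx
    rw [(hP x).deriv]
    have hV := K_box_nonneg hS.cont hS.odd hS.Knn hx.1.le hx.2.le
    have hX := ls_Xi_nonneg hτ hy0 hy1 h hx.1.le hx.2.le
    have he := Real.exp_pos (x ^ 2 / 2)
    have : Real.exp (x ^ 2 / 2) * x * F x + Real.exp (x ^ 2 / 2) *
        ((K (C τ y) (τ - x) + C τ y (τ - x)) + (K (C τ y) (τ + x) + C τ y (τ + x)) -
        x * ∫ u in (τ - x)..(τ + x), C τ y u) = Real.exp (x ^ 2 / 2) *
        (x * K (fun z => ∫ u in (z - x)..(z + x), C τ y u) τ +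
        ((K (C τ y) (τ - x) + C τ y (τ - x)) + (K (C τ y) (τ + x) + C τ y (τ + x)))) := by
      rw [hF]; ring
    rw [this]
    exact mul_nonneg he.le (add_nonneg (mul_nonneg hx.1.le hV) hX)
  have h0 := hm (left_mem_Icc.mpr hτ.le) (show s ∈ Icc 0 τ from ⟨hs0, hsτ⟩) hs0
  have hF0 : F 0 = 0 := by
    simp [hF, K]
  simp only [hF0, mul_zero] at h0
  exact nonneg_of_mul_nonneg_right h0 (Real.exp_pos _)

end GCube
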