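import Pool.Agent.Lib.H83.CFCheck

/-!
Checker for the polynomial-majorant part (`PM`): definitions only.
A row: `τ ∈ [t1,t2]`, `rX τ v ≥ a0 - a2 v²`, `v E(τ-v) ≤ b0 + b2 v²`.
-/

namespace GCube

namespace CF

/-- `EEL r ≤ EE r` for `r ≥ 0` : `EE r = r ∫_0^1 exp(-r²ξ²) dξ` -/
def EEL (r : ℚ) : ℚ := rd (r * nmS 0 (r ^ 2) 0 60)

/-- lower bound of `rX t v`, `0 ≤ v ≤ 2t` -/
def rXL (t v : ℚ) : ℚ := rd (2 * max 0 (emL (v ^ 2 / 4)) * EEL (t - v / 2))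

structure PRow where
  t1 : ℚ
  t2 : ℚ
  a0 : ℚ
  a2 : ℚ
  b0 : ℚ
  b2 : ℚ
  vs : List ℕ
  us : List ℕ

/-- `a0 - a2 v² ≤ rX t1 v` on `[v/1000, ∞)`, `v :: l` increasing points in units of `1/1000` -/
def okV (r : PRow) : ℕ → List ℕ → Bool
  | v, [] => decide (r.a0 ≤ r.a2 * (v / 1000) ^ 2)
  | v, w :: l => decide (v ≤ w) && decide (w / 1000 ≤ 2 * r.t1) &&
      decide (r.a0 - r.a2 * (v / 1000) ^ 2 ≤ rXL r.t1 (w / 1000)) && okV r w l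

/-- `u E(t1-u) ≤ b0 + b2 u²` on `[u/1000, t1]` -/
def okU (r : PRow) : ℕ → List ℕ → Bool
  | u, [] => decide (r.t1 ≤ u / 1000)
  | u, w :: l => decide (u ≤ w) && decide (w / 1000 ≤ r.t1) &&
      decide (w / 1000 * emU ((r.t1 - w / 1000) ^ 2 / 2) ≤ r.b0 + r.b2 * (u / 1000) ^ 2) && okU r w l

def pSg (r : PRow) : ℚ := ru (1 - emL (r.t2 ^ 2 / 2) / nmU 0 r.t2)
def pM2 (r : PRow) : ℚ := rd (nmL 2 r.t2 / nmU 0 r.t2)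
def pQ (r : PRow) : ℚ := emL (2 * r.t2 ^ 2 / 3)

/-- common part -/
def okP (r : PRow) : Bool :=
  decide (0 < r.t1) && decide (r.t1 ≤ r.t2) && decide (0 ≤ r.a0) && decide (0 ≤ r.a2) && decide (0 ≤ r.b0) &&
    decide (0 ≤ r.b2) && decide (1 ≤ r.b2 * r.t1) && okV r 0 r.vs && okU r 0 r.us

/-- `k = 1`, `z = y²` -/
def Ftwo (r : PRow) (z : ℚ) : ℚ :=
  z * (r.a0 - r.a2 * z * (r.t2 ^ 2 + 3 * pSg r)) - nmU 0 r.t1 * (r.b0 + 2 * r.b2 * z * pSg r)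
/-- `yτ ≤ 0.82`, `z = (k+1)y²/2` -/
def Fmid (r : PRow) (z : ℚ) : ℚ :=
  z * (r.a0 - r.a2 * (6724 / 10000 * (1 - 3 * pM2 r) + 6 * z * pSg r)) -
    nmU 0 r.t1 * (r.b0 + 2 * r.b2 * z * pSg r)

def okMid (r : PRow) : Bool := okP r && decide (0 < pQ r) && decide (0 < Fmid r (pQ r)) && decide (0 < Fmid r (32 / 100))
def okTwo (r : PRow) (Y : ℚ) (n : ℕ) : Bool :=
  okP r && okY r.t1 r.t2 Y n && decide (0 < Ftwo r (pQ r)) && decide (0 < Ftwo r (Y ^ 2))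

end CF

end GCube
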