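import Pool.Agent.Lib.H83.Gthree

/-!
Definitions for the `PM` part.
-/

open MeasureTheory Set
open scoped Real

namespace GCube

noncomputable def phiX (τ v : ℝ) : ℝ := v * rX τ v
noncomputable def fX (τ v : ℝ) : ℝ := if |v| ≤ 2 * τ then |v| * E (τ - |v|) else 0

end GCube
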