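import Pool.Agent.Lib.H83.PMDefs

/-!
Chunk PMF2: first integral. `ψ = psi τ`, `χ = chi τ`.

`∫ phiX(v) sin(sv) dv = -(ψ²)'(s) = 2 s ψ χ` (cosine transform of `rX` is `ψ²`: `rX = rho τ 1 1` (`rho_one`), `inv_rho_transform`, or the convolution
formulas `classP_kk`, `classP_conv`; differentiate under the integral, or directly: `phiX(v) = ∫ v k(t) k(v-t) dt`, `v = t + (v-t)`, so
the sine transform is `2 (∫ t E(t) sin(st) dt) ψ(s)` and `∫ t E(t) sin(st) dt = s χ(s)`). `phiX` is continuous with compact support.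
`inv_general` with `P = 0`, `Q(s) = 2 s ψ χ` (integrable: `O(s^{-2})`), then `Gthree_Yl` with `φ = sin` at `x = yτ`.
-/

open MeasureTheory Set
open scoped Real

namespace GCube

theorem PMFormB_rX_cont {τ : ℝ} (hτ : 0 < τ) : Continuous (rX τ) := by
  have h : rX τ = rho τ 1 1 := funext fun x => (rho_one hτ x).symm
  rw [h]
  exact rho_continuous hτ one_pos one_pos

theorem PMFormB_rX_zero {τ v : ℝ} (hv : 2 * τ < |v|) : rX τ v = 0 := by
  unfold rX
  rw [if_neg (not_le.mpr hv)]

theorem PMFormB_supp {τ : ℝ} {f : ℝ → ℝ} (h : ∀ v, 2 * τ < |v| → f v = 0) : HasCompactSupport f := by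
  refine HasCompactSupport.intro (isCompact_Icc (a := -(2 * τ)) (b := 2 * τ)) fun x hx => h x ?_
  rw [mem_Icc, ← abs_le] at hx
  exact not_le.mp hx

theorem PMFormB_rX_cos {τ : ℝ} (hτ : 0 < τ) (s : ℝ) :
    ∫ x, rX τ x * Real.cos (s * x) = psi τ s * psi τ s := by
  have h0 : ∀ x, rX τ x = rho τ 1 1 x := fun x => (rho_one hτ x).symm
  simp only [h0]
  rw [inv_rho_transform hτ one_pos (fun x => Real.cos (s * x)) (by fun_prop)
    (fun x => Real.abs_cos_le_one _)]
  simp_rw [inv_hI_cos hτ one_pos]
  have h1 : ∀ u, inv_hI τ 1 u * (1 * psi τ (1 * s) * Real.cos (s * u)) =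
      1 * psi τ (1 * s) * (inv_hI τ 1 (u - 0) * Real.cos (s * u)) := by
    intro u; rw [sub_zero]; ring
  simp_rw [h1]
  rw [integral_const_mul, inv_hI_cos hτ one_pos]
  simp

theorem PMFormB_sin {τ : ℝ} (hτ : 0 < τ) (s : ℝ) :
    ∫ x, phiX τ x * Real.sin (s * x) = 2 * (s * psi τ s * chi τ s) := by
  have hr := PMFormB_rX_cont hτ
  have hphi : Continuous (phiX τ) := by
    unfold phiX
    fun_prop
  have hphi0 : ∀ v, 2 * τ < |v| → phiX τ v = 0 := by
    intro v hv
    unfold phiX
    rw [PMFormB_rX_zero hv, mul_zero]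
  have hint : Integrable fun v => |phiX τ v| :=
    (hphi.integrable_of_hasCompactSupport (PMFormB_supp hphi0)).abs
  have hrint : Integrable (rX τ) :=
    hr.integrable_of_hasCompactSupport (PMFormB_supp fun v hv => PMFormB_rX_zero hv)
  have key := hasDerivAt_integral_of_dominated_loc_of_deriv_le (μ := volume) (x₀ := s) (s := univ)
    (F := fun s x => rX τ x * Real.cos (s * x))
    (F' := fun s x => -(phiX τ x * Real.sin (s * x))) (bound := fun x => |phiX τ x|)
    Filter.univ_mem
    (Filter.Eventually.of_forall fun x => by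
      have : Continuous fun v => rX τ v * Real.cos (x * v) := by fun_prop
      exact this.aestronglyMeasurable)
    (by
      refine hrint.mul_bdd (c := 1) ?_ ?_
      · have : Continuous fun v : ℝ => Real.cos (s * v) := by fun_prop
        exact this.aestronglyMeasurable
      · filter_upwards with v
        rw [Real.norm_eq_abs]
        exact Real.abs_cos_le_one _)
    (by
      have : Continuous fun v => -(phiX τ v * Real.sin (s * v)) := by fun_prop
      exact this.aestronglyMeasurable)
    (by
      filter_upwards with v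
      intro x _
      rw [norm_neg, norm_mul, Real.norm_eq_abs, Real.norm_eq_abs]
      exact mul_le_of_le_one_right (abs_nonneg _) (Real.abs_sin_le_one _))
    hint
    (by
      filter_upwards with v
      intro x _
      have h1 : HasDerivAt (fun x => Real.cos (x * v)) (-Real.sin (x * v) * v) x :=
        (((hasDerivAt_id' x).mul_const v).cos).congr_deriv (by ring)
      refine (h1.const_mul (rX τ v)).congr_deriv ?_
      unfold phiX
      ring)
  have h2 := key.2
  have h3 : (fun s => ∫ x, rX τ x * Real.cos (s * x)) = fun s => psi τ s * psi τ s :=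
    funext (PMFormB_rX_cos hτ)
  rw [h3] at h2
  have h4 := (hasDerivAt_psi τ s).mul (hasDerivAt_psi τ s)
  have h5 := h2.unique h4
  rw [integral_neg] at h5
  linarith

theorem PMFormB_cos (τ s : ℝ) : ∫ x, phiX τ x * Real.cos (s * x) = 0 := by
  have h := integral_neg_eq_self (fun x => phiX τ x * Real.cos (s * x)) (volume : Measure ℝ)
  have h1 : ∀ x, phiX τ (-x) * Real.cos (s * -x) = -(phiX τ x * Real.cos (s * x)) := by
    intro x
    have h2 : rX τ (-x) = rX τ x := by
      unfold rX
      rw [abs_neg, neg_sq]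
    unfold phiX
    rw [h2, mul_neg, Real.cos_neg]
    ring
  simp only [h1] at h
  rw [integral_neg] at h
  linarith

theorem PMFormB_Hint {τ : ℝ} (hτ : 0 < τ) : Integrable fun s => 2 * (s * psi τ s * chi τ s) := by
  have hp := psi_zero_pos hτ
  have hc1 := psi_continuous τ
  have hc2 := chi_continuous τ
  have hA : 0 < 4 * τ + 2 * τ ^ 3 := by positivity
  have hps : ∀ s, |s * psi τ s| ≤ 2 := by
    intro s
    by_cases hs : s = 0
    · subst hs
      simp
    · have h := abs_psi_le_inv hτ hs
      have hp : 0 < |s| := abs_pos.mpr hs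
      rw [le_div_iff₀ hp] at h
      rw [abs_mul, mul_comm]
      exact h
  have hch : ∀ s, s ^ 2 * |chi τ s| ≤ 4 * τ + 2 * τ ^ 3 := by
    intro s
    by_cases hs : s = 0
    · subst hs
      simpa using hA.le
    · have h := abs_chi_le_inv hτ hs
      have hp : 0 < s ^ 2 := by positivity
      rw [le_div_iff₀ hp] at h
      rw [mul_comm]
      exact h
  refine Integrable.const_mul ?_ 2
  refine psi_integrable_of_decay (c := 2 * (τ ^ 2 * psi τ 0) + 2 * (4 * τ + 2 * τ ^ 3))
    (by fun_prop) ?_ ?_
  · intro s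
    rw [abs_mul]
    have h1 := hps s
    have h2 := abs_chi_le hτ s
    calc |s * psi τ s| * |chi τ s| ≤ 2 * (τ ^ 2 * psi τ 0) := by gcongr
      _ ≤ _ := by linarith
  · intro s
    rw [abs_mul]
    have h1 := hps s
    have h2 := hch s
    calc s ^ 2 * (|s * psi τ s| * |chi τ s|) = |s * psi τ s| * (s ^ 2 * |chi τ s|) := by ring
      _ ≤ 2 * (4 * τ + 2 * τ ^ 3) := by gcongr
      _ ≤ _ := by
        have : 0 ≤ 2 * (τ ^ 2 * psi τ 0) := by positivity
        linarith

theorem PM_A {τ y : ℝ} (hτ : 0 < τ) (hy0 : 0 < y) (k : ℕ) :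
    ∫ s : ℝ, s * psi τ s * chi τ s * Real.sin (y * τ * s) * psi τ (y * s) ^ k =
      π * Yl τ (List.replicate k y) (phiX τ) (y * τ) := by
  have hr := PMFormB_rX_cont hτ
  have hphi : Continuous (phiX τ) := by
    unfold phiX
    fun_prop
  have hphi0 : ∀ v, 2 * τ < |v| → phiX τ v = 0 := by
    intro v hv
    unfold phiX
    rw [PMFormB_rX_zero hv, mul_zero]
  have hint : Integrable (phiX τ) := hphi.integrable_of_hasCompactSupport (PMFormB_supp hphi0)
  have hf : ∀ x, phiX τ x = (1 / (2 * π)) * ∫ s : ℝ, 2 * (s * psi τ s * chi τ s) * Real.sin (s * x) := by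
    intro x
    have h := inv_general (phiX τ) (fun _ => 0) (fun s => 2 * (s * psi τ s * chi τ s)) hphi hint
      (PMFormB_cos τ) (PMFormB_sin hτ) (integrable_zero _ _ _) (PMFormB_Hint hτ) x
    rw [h]
    congr 1
    congr 1
    funext s
    ring
  have h := Gthree_Yl hτ Real.continuous_sin Real.abs_sin_le_one (Gthree_Ysin τ) (PMFormB_Hint hτ)
    hf (List.replicate k y) (y * τ)
  rw [h]
  have e : ∀ s : ℝ, 2 * (s * psi τ s * chi τ s) * psiProd τ (List.replicate k y) s *
      Real.sin (s * (y * τ)) =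
      2 * (s * psi τ s * chi τ s * Real.sin (y * τ * s) * psi τ (y * s) ^ k) := by
    intro s
    have e1 : psiProd τ (List.replicate k y) s = psi τ (y * s) ^ k := by
      unfold psiProd
      rw [List.map_replicate, List.prod_replicate]
    rw [e1, show s * (y * τ) = y * τ * s by ring]
    ring
  simp only [e]
  rw [integral_const_mul]
  have hpi := Real.pi_pos
  generalize (∫ s : ℝ, s * psi τ s * chi τ s * Real.sin (y * τ * s) * psi τ (y * s) ^ k) = I
  field_simp

end GCube
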