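import Pool.Agent.Lib.H83.PMDefs

/-!
Chunk PMF3: second integral. `ψ = psi τ`, `χ = chi τ`, index `y` = argument `y s`.

`(ψ_y^(k+1))' = -(k+1) y² s χ_y ψ_y^k` (`hasDerivAt_psi`), integrate by parts on `ℝ`
(`MeasureTheory.integral_mul_deriv_eq_deriv_mul_of_integrable`; everything is `O(s^{-2})`, `sin(τs) ψ ψ_y^(k+1) → 0`):
left side `= 1/((k+1)y²) ∫ (sin(τs) ψ)' ψ_y^(k+1)`, `(sin(τs)ψ)' = τ cos(τs) ψ - s sin(τs) χ`.
`2 (sin(τs) ψ)' = ∫ fX(v) cos(sv) dv`: `fX(v) = |v| E(τ-|v|) 1_{|v| ≤ 2τ}`, so `∫ fX(v) cos(sv) dv = 2 ∫_{-τ}^{τ} (τ+t) E(t) cos(s(τ+t)) dt`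
`= 2 [τ cos(τs) ψ - sin(τs) ∫ t E(t) sin(st) dt]`, `∫ t E(t) sin(st) dt = s χ(s)`.
`fX` has jumps at `±2τ`: apply `inv_general` (with `Q = 0`) to the continuous function `f₁ = Yop τ y fX`, whose cosine transform is
`P(s) = ψ_y · 2 (sin(τs) ψ)'` (Fubini; integrable `O(s^{-2})`), and `Gthree_Yl` with `φ = cos`, list `y^k`;
`Yl(y^(k+1)) fX = Yl(y^k) (Yop τ y fX)` (`List.replicate_succ'`, `List.foldr_append`).
-/

open MeasureTheory Set
open scoped Real

namespace GCube

theorem PMFormC_fX_eq {τ : ℝ} (hτ : 0 < τ) (v : ℝ) :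
    fX τ v = v * (inv_hI τ 1 (v - τ) - inv_hI τ 1 (v + τ)) := by
  unfold fX inv_hI
  simp only [one_mul, div_one]
  rcases lt_trichotomy v 0 with h | h | h
  · rw [if_neg (c := |v - τ| ≤ τ) (by rw [abs_of_neg (by linarith)]; linarith)]
    by_cases h2 : |v| ≤ 2 * τ
    · rw [if_pos h2, if_pos (by rw [abs_of_neg h] at h2; rw [abs_le]; constructor <;> linarith),
        abs_of_neg h, show τ - -v = v + τ by ring]
      ring
    · rw [if_neg h2, if_neg (by
        rw [abs_of_neg h] at h2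
        rw [abs_le]
        intro hc
        exact h2 (by linarith [hc.1]))]
      ring
  · subst h
    simp [hτ.le]
  · rw [if_neg (c := |v + τ| ≤ τ) (by rw [abs_of_pos (by linarith)]; linarith)]
    by_cases h2 : |v| ≤ 2 * τ
    · rw [if_pos h2, if_pos (by rw [abs_of_pos h] at h2; rw [abs_le]; constructor <;> linarith),
        abs_of_pos h, show τ - v = -(v - τ) by ring, E_neg]
      ring
    · rw [if_neg h2, if_neg (by
        rw [abs_of_pos h] at h2
        rw [abs_le]
        intro hc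
        exact h2 (by linarith [hc.2]))]
      ring

theorem PMFormC_meas (τ : ℝ) : Measurable (fX τ) := by
  unfold fX
  refine Measurable.ite ?_ ?_ measurable_const
  · exact measurableSet_le (by fun_prop) measurable_const
  · have : Continuous fun v : ℝ => |v| * E (τ - |v|) :=
      continuous_abs.mul (E_continuous.comp (continuous_const.sub continuous_abs))
    exact this.measurable

theorem PMFormC_even (τ v : ℝ) : fX τ (-v) = fX τ v := by
  unfold fX
  rw [abs_neg]

theorem PMFormC_bdd {τ : ℝ} (hτ : 0 < τ) (v : ℝ) : |fX τ v| ≤ 2 * τ := by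
  unfold fX
  split_ifs with h
  · rw [abs_mul, abs_abs, abs_of_pos (E_pos _)]
    calc |v| * E (τ - |v|) ≤ (2 * τ) * 1 :=
          mul_le_mul h (inv_E_le_one _) (E_pos _).le (by positivity)
      _ = 2 * τ := by ring
  · rw [abs_zero]
    positivity

theorem PMFormC_hI_int (τ : ℝ) {g : ℝ → ℝ} (hg : Continuous g) :
    Integrable fun z => inv_hI τ 1 z * g z := by
  have e : (fun z => inv_hI τ 1 z * g z) =
      (Icc (-(1 * τ)) (1 * τ)).indicator fun z => E (z / 1) * g z := by
    funext z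
    rw [inv_hI_eq_indicator]
    by_cases hz : z ∈ Icc (-(1 * τ)) (1 * τ)
    · rw [indicator_of_mem hz, indicator_of_mem hz]
    · rw [indicator_of_notMem hz, indicator_of_notMem hz, zero_mul]
  rw [e, integrable_indicator_iff measurableSet_Icc]
  exact ((E_continuous.comp (continuous_id.div_const 1)).mul hg).continuousOn.integrableOn_Icc

theorem PMFormC_shift (τ c : ℝ) {g : ℝ → ℝ} (hg : Continuous g) :
    Integrable fun z => inv_hI τ 1 (z - c) * g z := by
  have h := (PMFormC_hI_int τ (g := fun z => g (z + c)) (hg.comp (by fun_prop))).comp_sub_right c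
  simpa using h

theorem PMFormC_shift_eq {τ : ℝ} (hτ : 0 < τ) (c : ℝ) (g : ℝ → ℝ) :
    ∫ z, inv_hI τ 1 (z - c) * g z = ∫ t in (-τ)..τ, E t * g (t + c) := by
  have h0 := integral_sub_right_eq_self (μ := (volume : Measure ℝ))
    (fun z => inv_hI τ 1 z * g (z + c)) c
  simp only [sub_add_cancel] at h0
  rw [h0, inv_hI_integral hτ one_pos (fun z => g (z + c))]
  simp only [one_mul]

theorem PMFormC_int {τ : ℝ} (hτ : 0 < τ) : Integrable (fX τ) := by
  have h1 := PMFormC_shift τ τ (g := fun v => v) continuous_id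
  have h2 := PMFormC_shift τ (-τ) (g := fun v => v) continuous_id
  refine (h1.sub h2).congr ?_
  filter_upwards with v
  rw [PMFormC_fX_eq hτ]
  simp only [Pi.sub_apply, sub_neg_eq_add]
  ring

theorem PMFormC_transform {τ : ℝ} (hτ : 0 < τ) {φ : ℝ → ℝ} (hφ : Continuous φ) :
    ∫ v, fX τ v * φ v = ∫ t in (-τ)..τ, E t * ((t + τ) * φ (t + τ) - (t - τ) * φ (t - τ)) := by
  have h1 := PMFormC_shift τ τ (g := fun v => v * φ v) (continuous_id.mul hφ)
  have h2 := PMFormC_shift τ (-τ) (g := fun v => v * φ v) (continuous_id.mul hφ)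
  have e : (fun v => fX τ v * φ v) =
      fun v => inv_hI τ 1 (v - τ) * (v * φ v) - inv_hI τ 1 (v - -τ) * (v * φ v) := by
    funext v
    rw [PMFormC_fX_eq hτ, sub_neg_eq_add]
    ring
  rw [e, integral_sub h1 h2, PMFormC_shift_eq hτ, PMFormC_shift_eq hτ,
    ← intervalIntegral.integral_sub]
  · congr 1
    funext t
    rw [← sub_eq_add_neg]
    ring
  · exact (E_continuous.mul (((continuous_id.mul hφ)).comp
      (by fun_prop : Continuous fun t : ℝ => t + τ))).intervalIntegrable _ _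
  · exact (E_continuous.mul (((continuous_id.mul hφ)).comp
      (by fun_prop : Continuous fun t : ℝ => t + -τ))).intervalIntegrable _ _

/-- derivative of `sin(τ s) ψ(s)` -/
noncomputable def PMFormC_M (τ s : ℝ) : ℝ :=
  τ * Real.cos (τ * s) * psi τ s - s * Real.sin (τ * s) * chi τ s

theorem PMFormC_cos {τ : ℝ} (hτ : 0 < τ) (s : ℝ) :
    ∫ v, fX τ v * Real.cos (s * v) = 2 * PMFormC_M τ s := by
  rw [PMFormC_transform hτ (by fun_prop : Continuous fun v : ℝ => Real.cos (s * v))]
  have hE := E_continuous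
  have e : (fun t => E t * ((t + τ) * Real.cos (s * (t + τ)) - (t - τ) * Real.cos (s * (t - τ)))) =
      fun t => 2 * τ * Real.cos (τ * s) * (E t * Real.cos (s * t)) -
        2 * s * Real.sin (τ * s) * (t ^ 2 * E t * Real.sinc (s * t)) := by
    funext t
    have h1 := psi_mul_sinc (s * t)
    rw [show s * (t + τ) = s * t + τ * s by ring, show s * (t - τ) = s * t - τ * s by ring,
      Real.cos_add, Real.cos_sub]
    have h2 : 2 * s * Real.sin (τ * s) * (t ^ 2 * E t * Real.sinc (s * t)) =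
        2 * Real.sin (τ * s) * t * E t * (s * t * Real.sinc (s * t)) := by ring
    rw [h2, h1]
    ring
  rw [e, intervalIntegral.integral_sub, intervalIntegral.integral_const_mul,
    intervalIntegral.integral_const_mul]
  · unfold PMFormC_M psi chi
    ring
  · exact (continuous_const.mul (psi_integrand_cont s)).intervalIntegrable _ _
  · exact (continuous_const.mul (psi_chi_integrand_cont s)).intervalIntegrable _ _

theorem PMFormC_sin (τ s : ℝ) : ∫ v, fX τ v * Real.sin (s * v) = 0 := by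
  have h := integral_neg_eq_self (fun x => fX τ x * Real.sin (s * x)) (volume : Measure ℝ)
  have h1 : ∀ x, fX τ (-x) * Real.sin (s * -x) = -(fX τ x * Real.sin (s * x)) := by
    intro x
    rw [PMFormC_even, mul_neg, Real.sin_neg]
    ring
  simp only [h1] at h
  rw [integral_neg] at h
  linarith

theorem PMFormC_Yop {τ y : ℝ} (hτ : 0 < τ) (hy0 : 0 < y) (x : ℝ) :
    Yop τ y (fX τ) x = (1 / y) * ∫ u, inv_hI τ y u * fX τ (x - u) := by
  have h1 := integral_neg_eq_self (fun u => inv_hI τ y u * fX τ (x - u)) (volume : Measure ℝ)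
  simp only [inv_hI_even, sub_neg_eq_add] at h1
  rw [← h1, inv_hI_integral hτ hy0 (fun u => fX τ (x + u))]
  unfold Yop
  field_simp

theorem PMFormC_prod {τ : ℝ} (hτ : 0 < τ) (y : ℝ) :
    Integrable (fun p : ℝ × ℝ => inv_hI τ y p.2 * fX τ (p.1 - p.2))
      ((volume : Measure ℝ).prod (volume : Measure ℝ)) :=
  (inv_hI_integrable τ y).convolution_integrand (ContinuousLinearMap.mul ℝ ℝ) (PMFormC_int hτ)

theorem PMFormC_Yint {τ y : ℝ} (hτ : 0 < τ) (hy0 : 0 < y) : Integrable (Yop τ y (fX τ)) := by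
  have : Yop τ y (fX τ) = fun x => (1 / y) * ∫ u, inv_hI τ y u * fX τ (x - u) :=
    funext (PMFormC_Yop hτ hy0)
  rw [this]
  exact ((PMFormC_prod hτ y).integral_prod_left).const_mul _

theorem PMFormC_Ytrans {τ y : ℝ} (hτ : 0 < τ) (hy0 : 0 < y) (φ : ℝ → ℝ) (hφc : Continuous φ)
    (hφ : ∀ x, |φ x| ≤ 1) :
    ∫ x, Yop τ y (fX τ) x * φ x =
      (1 / y) * ∫ u, inv_hI τ y u * ∫ x, fX τ (x - u) * φ x := by
  have h1 : ∀ x, Yop τ y (fX τ) x * φ x =
      (1 / y) * ∫ u, inv_hI τ y u * fX τ (x - u) * φ x := by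
    intro x
    rw [PMFormC_Yop hτ hy0, mul_assoc, integral_mul_const]
  simp_rw [h1]
  rw [integral_const_mul]
  congr 1
  have hI2 : Integrable (fun p : ℝ × ℝ => inv_hI τ y p.2 * fX τ (p.1 - p.2) * φ p.1)
      ((volume : Measure ℝ).prod (volume : Measure ℝ)) := by
    refine (PMFormC_prod hτ y).mul_bdd (c := 1) ?_ ?_
    · exact (hφc.comp continuous_fst).aestronglyMeasurable
    · filter_upwards with p
      rw [Real.norm_eq_abs]; exact hφ _
  rw [integral_integral_swap hI2]
  congr 1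
  funext u
  rw [← integral_const_mul]
  congr 1
  funext x
  ring

theorem PMFormC_mulint {τ : ℝ} (hτ : 0 < τ) {φ : ℝ → ℝ} (hφc : Continuous φ)
    (hφ : ∀ x, |φ x| ≤ 1) : Integrable fun v => fX τ v * φ v := by
  refine (PMFormC_int hτ).mul_bdd (c := 1) hφc.aestronglyMeasurable ?_
  filter_upwards with p
  rw [Real.norm_eq_abs]
  exact hφ _

theorem PMFormC_cos_shift {τ : ℝ} (hτ : 0 < τ) (s u : ℝ) :
    ∫ x, fX τ (x - u) * Real.cos (s * x) = Real.cos (s * u) * (2 * PMFormC_M τ s) := by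
  have h0 := integral_sub_right_eq_self (μ := (volume : Measure ℝ))
    (fun z => fX τ z * Real.cos (s * (z + u))) u
  simp only [sub_add_cancel] at h0
  rw [h0]
  have e : (fun z => fX τ z * Real.cos (s * (z + u))) = fun z =>
      Real.cos (s * u) * (fX τ z * Real.cos (s * z)) -
        Real.sin (s * u) * (fX τ z * Real.sin (s * z)) := by
    funext z
    rw [mul_add, Real.cos_add]
    ring
  rw [e, integral_sub, integral_const_mul, integral_const_mul, PMFormC_cos hτ, PMFormC_sin]
  · ring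
  · exact (PMFormC_mulint hτ (by fun_prop) fun x => Real.abs_cos_le_one _).const_mul _
  · exact (PMFormC_mulint hτ (by fun_prop) fun x => Real.abs_sin_le_one _).const_mul _

theorem PMFormC_sin_shift {τ : ℝ} (hτ : 0 < τ) (s u : ℝ) :
    ∫ x, fX τ (x - u) * Real.sin (s * x) = Real.sin (s * u) * (2 * PMFormC_M τ s) := by
  have h0 := integral_sub_right_eq_self (μ := (volume : Measure ℝ))
    (fun z => fX τ z * Real.sin (s * (z + u))) u
  simp only [sub_add_cancel] at h0
  rw [h0]
  have e : (fun z => fX τ z * Real.sin (s * (z + u))) = fun z =>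
      Real.cos (s * u) * (fX τ z * Real.sin (s * z)) +
        Real.sin (s * u) * (fX τ z * Real.cos (s * z)) := by
    funext z
    rw [mul_add, Real.sin_add]
    ring
  rw [e, integral_add, integral_const_mul, integral_const_mul, PMFormC_cos hτ, PMFormC_sin]
  · ring
  · exact (PMFormC_mulint hτ (by fun_prop) fun x => Real.abs_sin_le_one _).const_mul _
  · exact (PMFormC_mulint hτ (by fun_prop) fun x => Real.abs_cos_le_one _).const_mul _

theorem PMFormC_Ycos {τ y : ℝ} (hτ : 0 < τ) (hy0 : 0 < y) (s : ℝ) :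
    ∫ x, Yop τ y (fX τ) x * Real.cos (s * x) = psi τ (y * s) * (2 * PMFormC_M τ s) := by
  rw [PMFormC_Ytrans hτ hy0 (fun x => Real.cos (s * x)) (by fun_prop)
    (fun x => Real.abs_cos_le_one _)]
  simp_rw [PMFormC_cos_shift hτ]
  have h1 : ∀ u, inv_hI τ y u * (Real.cos (s * u) * (2 * PMFormC_M τ s)) =
      (2 * PMFormC_M τ s) * (inv_hI τ y (u - 0) * Real.cos (s * u)) := by
    intro u
    rw [sub_zero]
    ring
  simp_rw [h1]
  rw [integral_const_mul, inv_hI_cos hτ hy0]
  simp only [mul_zero, Real.cos_zero]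
  field_simp

theorem PMFormC_Ysin {τ y : ℝ} (hτ : 0 < τ) (hy0 : 0 < y) (s : ℝ) :
    ∫ x, Yop τ y (fX τ) x * Real.sin (s * x) = 0 := by
  rw [PMFormC_Ytrans hτ hy0 (fun x => Real.sin (s * x)) (by fun_prop)
    (fun x => Real.abs_sin_le_one _)]
  simp_rw [PMFormC_sin_shift hτ]
  have h1 : ∀ u, inv_hI τ y u * (Real.sin (s * u) * (2 * PMFormC_M τ s)) =
      (2 * PMFormC_M τ s) * (inv_hI τ y (u - 0) * Real.sin (s * u)) := by
    intro u
    rw [sub_zero]
    ring
  simp_rw [h1]
  rw [integral_const_mul, inv_hI_sin hτ hy0]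
  simp

theorem PMFormC_contAt {τ v : ℝ} (hv : |v| ≠ 2 * τ) : ContinuousAt (fX τ) v := by
  have hcomp : ContinuousAt (fun x : ℝ => |x|) v := continuous_abs.continuousAt
  rcases lt_or_gt_of_ne hv with h | h
  · have : fX τ =ᶠ[nhds v] fun x => |x| * E (τ - |x|) := by
      filter_upwards [hcomp.eventually_lt_const h] with x hx
      unfold fX
      rw [if_pos hx.le]
    refine ContinuousAt.congr ?_ this.symm
    exact (continuous_abs.mul (E_continuous.comp (continuous_const.sub continuous_abs))).continuousAt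
  · have : fX τ =ᶠ[nhds v] fun x => 0 := by
      filter_upwards [hcomp.eventually_const_lt h] with x hx
      unfold fX
      rw [if_neg (not_le.mpr hx)]
    exact ContinuousAt.congr continuousAt_const this.symm

theorem PMFormC_Ycont {τ y : ℝ} (hτ : 0 < τ) (hy0 : 0 < y) : Continuous (Yop τ y (fX τ)) := by
  have h0 : Yop τ y (fX τ) = fun x => ∫ t in (-τ)..τ, E t * fX τ (x + y * t) := rfl
  rw [h0, continuous_iff_continuousAt]
  intro x₀
  refine intervalIntegral.continuousAt_of_dominated_interval (bound := fun _ => 2 * τ) ?_ ?_ ?_ ?_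
  · filter_upwards with x
    exact ((E_continuous.measurable).mul ((PMFormC_meas τ).comp
      (by fun_prop : Measurable fun t : ℝ => x + y * t))).aestronglyMeasurable
  · filter_upwards with x
    filter_upwards with t _
    rw [Real.norm_eq_abs, abs_mul, abs_of_pos (E_pos t)]
    calc E t * |fX τ (x + y * t)| ≤ 1 * (2 * τ) :=
          mul_le_mul (inv_E_le_one t) (PMFormC_bdd hτ _) (abs_nonneg _) zero_le_one
      _ = 2 * τ := one_mul _
  · exact intervalIntegrable_const
  · have hnull : volume ({(2 * τ - x₀) / y, (-(2 * τ) - x₀) / y} : Set ℝ) = 0 :=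
      (Set.toFinite _).measure_zero _
    have hae : ∀ᵐ t ∂(volume : Measure ℝ), t ∉ ({(2 * τ - x₀) / y, (-(2 * τ) - x₀) / y} : Set ℝ) :=
      measure_eq_zero_iff_ae_notMem.mp hnull
    filter_upwards [hae] with t ht _
    simp only [mem_insert_iff, mem_singleton_iff, not_or] at ht
    refine ContinuousAt.mul continuousAt_const ?_
    have hne : |x₀ + y * t| ≠ 2 * τ := by
      intro h
      rcases abs_eq (by positivity : (0:ℝ) ≤ 2 * τ) |>.mp h with h | h
      · exact ht.1 (by field_simp; linarith)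
      · exact ht.2 (by field_simp; linarith)
    have h2 : ContinuousAt (fX τ) (x₀ + y * t) := PMFormC_contAt hne
    exact ContinuousAt.comp (f := fun x : ℝ => x + y * t) (x := x₀) h2 (by fun_prop)

theorem PMFormC_spsi {τ : ℝ} (hτ : 0 < τ) (s : ℝ) : |s| * |psi τ s| ≤ 2 := by
  by_cases hs : s = 0
  · subst hs
    simp
  · have h := abs_psi_le_inv hτ hs
    have hp : 0 < |s| := abs_pos.mpr hs
    rw [le_div_iff₀ hp] at h
    rw [mul_comm]
    exact h

theorem PMFormC_schi {τ : ℝ} (hτ : 0 < τ) (s : ℝ) : s ^ 2 * |chi τ s| ≤ 4 * τ + 2 * τ ^ 3 := by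
  by_cases hs : s = 0
  · subst hs
    have : 0 ≤ 4 * τ + 2 * τ ^ 3 := by positivity
    simpa using this
  · have h := abs_chi_le_inv hτ hs
    have hp : 0 < s ^ 2 := by positivity
    rw [le_div_iff₀ hp] at h
    rw [mul_comm]
    exact h

theorem PMFormC_M_bdd {τ : ℝ} (hτ : 0 < τ) : ∃ c : ℝ, 0 < c ∧ ∀ s, |PMFormC_M τ s| ≤ c ∧
    |s| * |PMFormC_M τ s| ≤ c := by
  have hp := psi_zero_pos hτ
  have hA : 0 < 4 * τ + 2 * τ ^ 3 := by positivity
  refine ⟨τ * psi τ 0 + τ * 2 + ((4 * τ + 2 * τ ^ 3) + τ ^ 2 * psi τ 0), by positivity, fun s => ?_⟩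
  have h1 := PMFormC_spsi hτ s
  have h2 := PMFormC_schi hτ s
  have h3 := abs_psi_le hτ s
  have h4 := abs_chi_le hτ s
  have hs0 := abs_nonneg s
  have hc0 := abs_nonneg (chi τ s)
  have h5 : |PMFormC_M τ s| ≤ τ * |psi τ s| + |s| * |chi τ s| := by
    unfold PMFormC_M
    refine (abs_sub _ _).trans ?_
    rw [abs_mul, abs_mul, abs_mul, abs_mul, abs_of_pos hτ]
    have e1 := Real.abs_cos_le_one (τ * s)
    have e2 := Real.abs_sin_le_one (τ * s)
    calc τ * |Real.cos (τ * s)| * |psi τ s| + |s| * |Real.sin (τ * s)| * |chi τ s|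
        ≤ τ * 1 * |psi τ s| + |s| * 1 * |chi τ s| := by gcongr
      _ = _ := by ring
  have e3 : s ^ 2 = |s| ^ 2 := (sq_abs s).symm
  rw [e3] at h2
  have h6 : |s| * |chi τ s| ≤ (4 * τ + 2 * τ ^ 3) + τ ^ 2 * psi τ 0 := by
    by_cases h : |s| ≤ 1
    · have : |s| * |chi τ s| ≤ 1 * |chi τ s| := mul_le_mul_of_nonneg_right h hc0
      linarith
    · rw [not_le] at h
      have : |s| * |chi τ s| ≤ |s| ^ 2 * |chi τ s| := by
        refine mul_le_mul_of_nonneg_right ?_ hc0
        nlinarith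
      have h8 : 0 ≤ τ ^ 2 * psi τ 0 := by positivity
      linarith
  constructor
  · have h7 : τ * |psi τ s| ≤ τ * psi τ 0 := by gcongr
    have h8 : 0 ≤ τ * 2 := by positivity
    linarith
  · have h7 : |s| * |PMFormC_M τ s| ≤ |s| * (τ * |psi τ s| + |s| * |chi τ s|) := by gcongr
    have h8 : |s| * (τ * |psi τ s| + |s| * |chi τ s|) =
        τ * (|s| * |psi τ s|) + |s| ^ 2 * |chi τ s| := by ring
    have h9 : τ * (|s| * |psi τ s|) ≤ τ * 2 := by gcongr
    have h10 : 0 ≤ τ * psi τ 0 := by positivity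
    have h11 : 0 ≤ τ ^ 2 * psi τ 0 := by positivity
    linarith

theorem PMFormC_Mcont (τ : ℝ) : Continuous (PMFormC_M τ) := by
  unfold PMFormC_M
  have hc1 := psi_continuous τ
  have hc2 := chi_continuous τ
  fun_prop

theorem PMFormC_int_of {τ y : ℝ} (hτ : 0 < τ) (hy0 : 0 < y) (k : ℕ) {g : ℝ → ℝ}
    (hg : Continuous g) {c : ℝ} (hc : ∀ s, |g s| ≤ c ∧ |s| * |g s| ≤ c) :
    Integrable fun s => g s * psi τ (y * s) ^ (k + 1) := by
  have hp := psi_zero_pos hτ
  have hc1 := psi_continuous τ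
  have hc3 : Continuous fun s : ℝ => psi τ (y * s) := hc1.comp (by fun_prop)
  have hc0 : 0 ≤ c := (abs_nonneg _).trans (hc 0).1
  refine psi_integrable_of_decay (c := c * psi τ 0 ^ (k + 1) + c * (2 / y) * psi τ 0 ^ k)
    (by fun_prop) ?_ ?_
  · intro s
    rw [abs_mul, abs_pow]
    have h1 := (hc s).1
    have h2 := abs_psi_le hτ (y * s)
    calc |g s| * |psi τ (y * s)| ^ (k + 1) ≤ c * psi τ 0 ^ (k + 1) := by gcongr
      _ ≤ _ := by
        have : 0 ≤ c * (2 / y) * psi τ 0 ^ k := by positivity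
        linarith
  · intro s
    rw [abs_mul, abs_pow]
    have h1 := (hc s).2
    have h2 := abs_psi_le hτ (y * s)
    have h3 := PMFormC_spsi hτ (y * s)
    rw [abs_mul, abs_of_pos hy0] at h3
    have h4 : |s| * |psi τ (y * s)| ≤ 2 / y := by
      rw [le_div_iff₀ hy0]
      calc |s| * |psi τ (y * s)| * y = y * |s| * |psi τ (y * s)| := by ring
        _ ≤ 2 := h3
    have e3 : s ^ 2 = |s| ^ 2 := (sq_abs s).symm
    rw [e3]
    calc |s| ^ 2 * (|g s| * |psi τ (y * s)| ^ (k + 1))
        = (|s| * |g s|) * (|s| * |psi τ (y * s)|) * |psi τ (y * s)| ^ k := by ring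
      _ ≤ c * (2 / y) * psi τ 0 ^ k := by
          have := abs_nonneg s
          gcongr
      _ ≤ _ := by
        have : 0 ≤ c * psi τ 0 ^ (k + 1) := by positivity
        linarith

theorem PM_B {τ y : ℝ} (hτ : 0 < τ) (hy0 : 0 < y) (k : ℕ) :
    ∫ s : ℝ, s * Real.sin (τ * s) * psi τ s * chi τ (y * s) * psi τ (y * s) ^ k =
      π / ((k + 1) * y ^ 2) * Yl τ (List.replicate (k + 1) y) (fX τ) 0 := by
  obtain ⟨c, hc, hM⟩ := PMFormC_M_bdd hτ
  have hp := psi_zero_pos hτ
  have hc1 := psi_continuous τ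
  have hc2 := chi_continuous τ
  have hMc := PMFormC_Mcont τ
  -- Fourier inversion
  have hP : Integrable fun s => psi τ (y * s) * (2 * PMFormC_M τ s) := by
    have h := (PMFormC_int_of hτ hy0 0 hMc hM).const_mul 2
    refine h.congr ?_
    filter_upwards with s
    ring
  have hf : ∀ x, Yop τ y (fX τ) x = (1 / (2 * π)) *
      ∫ s : ℝ, psi τ (y * s) * (2 * PMFormC_M τ s) * Real.cos (s * x) := by
    intro x
    have h := inv_general (Yop τ y (fX τ)) (fun s => psi τ (y * s) * (2 * PMFormC_M τ s))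
      (fun _ => 0) (PMFormC_Ycont hτ hy0) (PMFormC_Yint hτ hy0) (PMFormC_Ycos hτ hy0)
      (PMFormC_Ysin hτ hy0) hP (integrable_zero _ _ _) x
    rw [h]
    congr 1
    congr 1
    funext s
    ring
  have h1 := Gthree_Yl hτ Real.continuous_cos Real.abs_cos_le_one (Gthree_Ycos τ) hP hf
    (List.replicate k y) 0
  have h2 : Yl τ (List.replicate (k + 1) y) (fX τ) 0 =
      Yl τ (List.replicate k y) (Yop τ y (fX τ)) 0 := by
    unfold Yl
    rw [List.replicate_succ', List.foldr_append]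
    rfl
  have e : ∀ s : ℝ, psi τ (y * s) * (2 * PMFormC_M τ s) * psiProd τ (List.replicate k y) s *
      Real.cos (s * 0) = 2 * (PMFormC_M τ s * psi τ (y * s) ^ (k + 1)) := by
    intro s
    have e1 : psiProd τ (List.replicate k y) s = psi τ (y * s) ^ k := by
      unfold psiProd
      rw [List.map_replicate, List.prod_replicate]
    rw [e1, mul_zero, Real.cos_zero]
    ring
  rw [h2, h1]
  simp only [e]
  rw [integral_const_mul]
  -- integration by parts
  have hu : ∀ s, HasDerivAt (fun s => Real.sin (τ * s) * psi τ s) (PMFormC_M τ s) s := by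
    intro s
    have h3 : HasDerivAt (fun s => Real.sin (τ * s)) (Real.cos (τ * s) * τ) s :=
      (((hasDerivAt_id' s).const_mul τ).sin).congr_deriv (by ring)
    refine (h3.mul (hasDerivAt_psi τ s)).congr_deriv ?_
    unfold PMFormC_M
    ring
  have hv : ∀ s, HasDerivAt (fun s => psi τ (y * s) ^ (k + 1))
      (-((k + 1) * y ^ 2) * (s * chi τ (y * s) * psi τ (y * s) ^ k)) s := by
    intro s
    have h3 : HasDerivAt (fun s => psi τ (y * s)) (-(y * s * chi τ (y * s)) * y) s := by
      have h4 : HasDerivAt (fun s : ℝ => y * s) y s := by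
        simpa using (hasDerivAt_id' s).const_mul y
      exact (hasDerivAt_psi τ (y * s)).comp s h4
    refine (h3.pow (k + 1)).congr_deriv ?_
    push_cast
    ring
  have hus : ∀ s : ℝ, |Real.sin (τ * s) * psi τ s| ≤ psi τ 0 + 2 ∧
      |s| * |Real.sin (τ * s) * psi τ s| ≤ psi τ 0 + 2 := by
    intro s
    have h3 := Real.abs_sin_le_one (τ * s)
    have h4 := abs_psi_le hτ s
    have h5 := PMFormC_spsi hτ s
    rw [abs_mul]
    constructor
    · calc |Real.sin (τ * s)| * |psi τ s| ≤ 1 * psi τ 0 := by gcongr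
        _ ≤ _ := by linarith
    · calc |s| * (|Real.sin (τ * s)| * |psi τ s|) = |Real.sin (τ * s)| * (|s| * |psi τ s|) := by ring
        _ ≤ 1 * 2 := by
            have := abs_nonneg s
            gcongr
        _ ≤ _ := by linarith
  have hi1 : Integrable (fun s => PMFormC_M τ s * psi τ (y * s) ^ (k + 1)) :=
    PMFormC_int_of hτ hy0 k hMc hM
  have hi2 : Integrable (fun s => (Real.sin (τ * s) * psi τ s) * psi τ (y * s) ^ (k + 1)) :=
    PMFormC_int_of hτ hy0 k (by fun_prop) hus
  have hi3 : Integrable (fun s => (Real.sin (τ * s) * psi τ s) *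
      (-((k + 1) * y ^ 2) * (s * chi τ (y * s) * psi τ (y * s) ^ k))) := by
    have hc3 : Continuous fun s : ℝ => psi τ (y * s) := hc1.comp (by fun_prop)
    have hc4 : Continuous fun s : ℝ => chi τ (y * s) := hc2.comp (by fun_prop)
    have hA : 0 < 4 * τ + 2 * τ ^ 3 := by positivity
    have h0 : Integrable fun s : ℝ =>
        Real.sin (τ * s) * psi τ s * (s * chi τ (y * s) * psi τ (y * s) ^ k) := by
      refine psi_integrable_of_decay (c := 2 * (τ ^ 2 * psi τ 0) * psi τ 0 ^ k +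
        2 * ((4 * τ + 2 * τ ^ 3) / y ^ 2) * psi τ 0 ^ k) (by fun_prop) ?_ ?_
      · intro s
        have h3 := Real.abs_sin_le_one (τ * s)
        have h5 := PMFormC_spsi hτ s
        have h6 := abs_chi_le hτ (y * s)
        have h7 : |psi τ (y * s)| ^ k ≤ psi τ 0 ^ k := pow_le_pow_left₀ (abs_nonneg _) (abs_psi_le hτ _) k
        have e4 : |Real.sin (τ * s) * psi τ s * (s * chi τ (y * s) * psi τ (y * s) ^ k)| =
            |Real.sin (τ * s)| * (|s| * |psi τ s|) * |chi τ (y * s)| * |psi τ (y * s)| ^ k := by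
          rw [abs_mul, abs_mul, abs_mul, abs_mul, abs_pow]
          ring
        rw [e4]
        calc |Real.sin (τ * s)| * (|s| * |psi τ s|) * |chi τ (y * s)| * |psi τ (y * s)| ^ k
            ≤ 1 * 2 * (τ ^ 2 * psi τ 0) * psi τ 0 ^ k := by gcongr
          _ ≤ _ := by
            have : 0 ≤ 2 * ((4 * τ + 2 * τ ^ 3) / y ^ 2) * psi τ 0 ^ k := by positivity
            linarith
      · intro s
        have h3 := Real.abs_sin_le_one (τ * s)
        have h5 := PMFormC_spsi hτ s
        have h6 := PMFormC_schi hτ (y * s)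
        have h7 : |psi τ (y * s)| ^ k ≤ psi τ 0 ^ k := pow_le_pow_left₀ (abs_nonneg _) (abs_psi_le hτ _) k
        have e4 : s ^ 2 * |Real.sin (τ * s) * psi τ s * (s * chi τ (y * s) * psi τ (y * s) ^ k)| =
            |Real.sin (τ * s)| * (|s| * |psi τ s|) * (((y * s) ^ 2 * |chi τ (y * s)|) / y ^ 2) *
              |psi τ (y * s)| ^ k := by
          rw [abs_mul, abs_mul, abs_mul, abs_mul, abs_pow]
          field_simp
        rw [e4]
        calc |Real.sin (τ * s)| * (|s| * |psi τ s|) * (((y * s) ^ 2 * |chi τ (y * s)|) / y ^ 2) *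
              |psi τ (y * s)| ^ k
            ≤ 1 * 2 * ((4 * τ + 2 * τ ^ 3) / y ^ 2) * psi τ 0 ^ k := by gcongr
          _ ≤ _ := by
            have : 0 ≤ 2 * (τ ^ 2 * psi τ 0) * psi τ 0 ^ k := by positivity
            linarith
    refine (h0.const_mul (-((k + 1) * y ^ 2))).congr ?_
    filter_upwards with s
    ring
  have hparts := integral_mul_deriv_eq_deriv_mul_of_integrable (fun s _ => hu s)
    (fun s _ => hv s) hi3 hi1 hi2
  have e5 : (fun s => (Real.sin (τ * s) * psi τ s) *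
      (-((k + 1) * y ^ 2) * (s * chi τ (y * s) * psi τ (y * s) ^ k))) =
      fun s => -((k + 1) * y ^ 2) *
        (s * Real.sin (τ * s) * psi τ s * chi τ (y * s) * psi τ (y * s) ^ k) := by
    funext s
    ring
  rw [e5, integral_const_mul] at hparts
  have hpi := Real.pi_pos
  have hk : (0 : ℝ) < (k : ℝ) + 1 := by positivity
  generalize (∫ s : ℝ, s * Real.sin (τ * s) * psi τ s * chi τ (y * s) * psi τ (y * s) ^ k) = I at *
  generalize (∫ s : ℝ, PMFormC_M τ s * psi τ (y * s) ^ (k + 1)) = J at *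
  field_simp
  linarith

end GCube
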