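import Pool.Agent.Lib.H83.PMFormA
import Pool.Agent.Lib.H83.PMFormB
import Pool.Agent.Lib.H83.PMFormC

/-!
Second physical form of `D(y; 1 :: y^k)` (assembly).
-/

open MeasureTheory Set
open scoped Real

namespace GCube

theorem D_eq_PM {τ y : ℝ} (hτ : 0 < τ) (hy0 : 0 < y) (k : ℕ) :
    D τ y (1 :: List.replicate k y) = 2 * π * E τ / ((k + 1) * y ^ 2) *
      ((k + 1) * y * Yl τ (List.replicate k y) (phiX τ) (y * τ) -
        Yl τ (List.replicate (k + 1) y) (fX τ) 0) := by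
  rw [D_eq_AB hτ hy0 k, PM_A hτ hy0 k, PM_B hτ hy0 k]
  have hk : (k : ℝ) + 1 ≠ 0 := by positivity
  field_simp

end GCube
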