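import Pool.Agent.Lib.H83.PMDefs

/-!
Chunk PMF1: the two integrals (checked numerically).

`ψ = psi τ`, `χ = chi τ`, `g = E τ`, index `y` = argument `y s`. From `psi_eq`: `s ψ(s) = 2 g sin(τs) + s χ(s)`,
`y s ψ_y = 2 g sin(yτs) + y s χ_y`, so by `W_eq`
`s² W ψ = 2g [ψ² s sin(yτs)/y - s sin(τs) ψ ψ_y] = 2g [ (1/y) s ψ χ sin(yτs) - s sin(τs) ψ χ_y ]`
(the two terms `(2g/y) ψ sin(τs) sin(yτs)` cancel). Both terms are `O(s^{-2})` (`abs_psi_le_inv`, `abs_chi_le_inv`), also for `k = 0`, so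
both are integrable (`psi_integrable_of_decay`).
-/

open MeasureTheory Set
open scoped Real

namespace GCube

theorem PMFormA_psi {τ : ℝ} (hτ : 0 < τ) (s : ℝ) : |s * psi τ s| ≤ 2 := by
  by_cases hs : s = 0
  · subst hs
    simp
  · have h := abs_psi_le_inv hτ hs
    have hp : 0 < |s| := abs_pos.mpr hs
    rw [le_div_iff₀ hp] at h
    rw [abs_mul, mul_comm]
    exact h

theorem PMFormA_chi {τ : ℝ} (hτ : 0 < τ) (s : ℝ) : s ^ 2 * |chi τ s| ≤ 4 * τ + 2 * τ ^ 3 := by
  by_cases hs : s = 0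
  · subst hs
    have : 0 ≤ 4 * τ + 2 * τ ^ 3 := by positivity
    simpa using this
  · have h := abs_chi_le_inv hτ hs
    have hp : 0 < s ^ 2 := by positivity
    rw [le_div_iff₀ hp] at h
    rw [mul_comm]
    exact h

theorem PMFormA_pow {τ y : ℝ} (hτ : 0 < τ) (k : ℕ) (s : ℝ) : |psi τ (y * s) ^ k| ≤ psi τ 0 ^ k := by
  rw [abs_pow]
  exact pow_le_pow_left₀ (abs_nonneg _) (abs_psi_le hτ _) k

theorem PM_A_int {τ y : ℝ} (hτ : 0 < τ) (hy0 : 0 < y) (k : ℕ) :
    Integrable fun s : ℝ => s * psi τ s * chi τ s * Real.sin (y * τ * s) * psi τ (y * s) ^ k := by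
  have hp := psi_zero_pos hτ
  have hc1 := psi_continuous τ
  have hc2 := chi_continuous τ
  have hc3 : Continuous fun s : ℝ => psi τ (y * s) := hc1.comp (by fun_prop)
  have hA : 0 < 4 * τ + 2 * τ ^ 3 := by positivity
  refine psi_integrable_of_decay (c := 2 * (τ ^ 2 * psi τ 0) * psi τ 0 ^ k +
    2 * (4 * τ + 2 * τ ^ 3) * psi τ 0 ^ k) (by fun_prop) ?_ ?_
  · intro s
    have e : s * psi τ s * chi τ s * Real.sin (y * τ * s) * psi τ (y * s) ^ k =
      (s * psi τ s) * chi τ s * Real.sin (y * τ * s) * psi τ (y * s) ^ k := by ring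
    rw [e, abs_mul, abs_mul, abs_mul]
    have h1 := PMFormA_psi hτ s
    have h2 := abs_chi_le hτ s
    have h3 := Real.abs_sin_le_one (y * τ * s)
    have h4 := PMFormA_pow (y := y) hτ k s
    calc |s * psi τ s| * |chi τ s| * |Real.sin (y * τ * s)| * |psi τ (y * s) ^ k|
        ≤ 2 * (τ ^ 2 * psi τ 0) * 1 * psi τ 0 ^ k := by gcongr
      _ ≤ _ := by
        have : 0 ≤ 2 * (4 * τ + 2 * τ ^ 3) * psi τ 0 ^ k := by positivity
        linarith
  · intro s
    have e : s ^ 2 * |s * psi τ s * chi τ s * Real.sin (y * τ * s) * psi τ (y * s) ^ k| =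
      |s * psi τ s| * (s ^ 2 * |chi τ s|) * |Real.sin (y * τ * s)| * |psi τ (y * s) ^ k| := by
      rw [show s * psi τ s * chi τ s * Real.sin (y * τ * s) * psi τ (y * s) ^ k =
        (s * psi τ s) * chi τ s * Real.sin (y * τ * s) * psi τ (y * s) ^ k by ring,
        abs_mul, abs_mul, abs_mul]
      ring
    rw [e]
    have h1 := PMFormA_psi hτ s
    have h2 := PMFormA_chi hτ s
    have h3 := Real.abs_sin_le_one (y * τ * s)
    have h4 := PMFormA_pow (y := y) hτ k s
    calc |s * psi τ s| * (s ^ 2 * |chi τ s|) * |Real.sin (y * τ * s)| * |psi τ (y * s) ^ k|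
        ≤ 2 * (4 * τ + 2 * τ ^ 3) * 1 * psi τ 0 ^ k := by gcongr
      _ ≤ _ := by
        have : 0 ≤ 2 * (τ ^ 2 * psi τ 0) * psi τ 0 ^ k := by positivity
        linarith

theorem PM_B_int {τ y : ℝ} (hτ : 0 < τ) (hy0 : 0 < y) (k : ℕ) :
    Integrable fun s : ℝ => s * Real.sin (τ * s) * psi τ s * chi τ (y * s) * psi τ (y * s) ^ k := by
  have hp := psi_zero_pos hτ
  have hc1 := psi_continuous τ
  have hc2 := chi_continuous τ
  have hc3 : Continuous fun s : ℝ => psi τ (y * s) := hc1.comp (by fun_prop)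
  have hc4 : Continuous fun s : ℝ => chi τ (y * s) := hc2.comp (by fun_prop)
  have hA : 0 < 4 * τ + 2 * τ ^ 3 := by positivity
  refine psi_integrable_of_decay (c := 2 * (τ ^ 2 * psi τ 0) * psi τ 0 ^ k +
    2 * ((4 * τ + 2 * τ ^ 3) / y ^ 2) * psi τ 0 ^ k) (by fun_prop) ?_ ?_
  · intro s
    rw [show s * Real.sin (τ * s) * psi τ s * chi τ (y * s) * psi τ (y * s) ^ k =
      (s * psi τ s) * Real.sin (τ * s) * chi τ (y * s) * psi τ (y * s) ^ k by ring,
      abs_mul, abs_mul, abs_mul]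
    have h1 := PMFormA_psi hτ s
    have h2 := abs_chi_le hτ (y * s)
    have h3 := Real.abs_sin_le_one (τ * s)
    have h4 := PMFormA_pow (y := y) hτ k s
    calc |s * psi τ s| * |Real.sin (τ * s)| * |chi τ (y * s)| * |psi τ (y * s) ^ k|
        ≤ 2 * 1 * (τ ^ 2 * psi τ 0) * psi τ 0 ^ k := by gcongr
      _ ≤ _ := by
        have : 0 ≤ 2 * ((4 * τ + 2 * τ ^ 3) / y ^ 2) * psi τ 0 ^ k := by positivity
        linarith
  · intro s
    have e : s ^ 2 * |s * Real.sin (τ * s) * psi τ s * chi τ (y * s) * psi τ (y * s) ^ k| =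
      |s * psi τ s| * |Real.sin (τ * s)| * (((y * s) ^ 2 * |chi τ (y * s)|) / y ^ 2) *
        |psi τ (y * s) ^ k| := by
      rw [show s * Real.sin (τ * s) * psi τ s * chi τ (y * s) * psi τ (y * s) ^ k =
        (s * psi τ s) * Real.sin (τ * s) * chi τ (y * s) * psi τ (y * s) ^ k by ring,
        abs_mul, abs_mul, abs_mul]
      field_simp
    rw [e]
    have h1 := PMFormA_psi hτ s
    have h2 := PMFormA_chi hτ (y * s)
    have h3 := Real.abs_sin_le_one (τ * s)
    have h4 := PMFormA_pow (y := y) hτ k s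
    calc |s * psi τ s| * |Real.sin (τ * s)| * (((y * s) ^ 2 * |chi τ (y * s)|) / y ^ 2) *
        |psi τ (y * s) ^ k|
        ≤ 2 * 1 * ((4 * τ + 2 * τ ^ 3) / y ^ 2) * psi τ 0 ^ k := by gcongr
      _ ≤ _ := by
        have : 0 ≤ 2 * (τ ^ 2 * psi τ 0) * psi τ 0 ^ k := by positivity
        linarith

theorem PMFormA_prod (τ y : ℝ) (k : ℕ) (s : ℝ) :
    psiProd τ (List.replicate k y) s = psi τ (y * s) ^ k := by
  unfold psiProd
  rw [List.map_replicate, List.prod_replicate]

theorem D_eq_AB {τ y : ℝ} (hτ : 0 < τ) (hy0 : 0 < y) (k : ℕ) :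
    D τ y (1 :: List.replicate k y) = 2 * E τ *
      ((1 / y) * (∫ s : ℝ, s * psi τ s * chi τ s * Real.sin (y * τ * s) * psi τ (y * s) ^ k) -
        ∫ s : ℝ, s * Real.sin (τ * s) * psi τ s * chi τ (y * s) * psi τ (y * s) ^ k) := by
  have hpt : ∀ s, s ^ 2 * W τ y s * psiProd τ (1 :: List.replicate k y) s =
      2 * E τ * ((1 / y) * (s * psi τ s * chi τ s * Real.sin (y * τ * s) * psi τ (y * s) ^ k) -
        s * Real.sin (τ * s) * psi τ s * chi τ (y * s) * psi τ (y * s) ^ k) := by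
    intro s
    have h1 := W_eq τ y s
    have h2 : s * psi τ s = 2 * E τ * Real.sin (τ * s) + s * chi τ s := by
      rw [psi_eq τ s, ← psi_mul_sinc (τ * s)]
      ring
    have h3 : y * s * psi τ (y * s) = 2 * E τ * Real.sin (y * τ * s) + y * s * chi τ (y * s) := by
      rw [psi_eq τ (y * s), show y * τ * s = τ * (y * s) by ring, ← psi_mul_sinc (τ * (y * s))]
      ring
    rw [psi_psiProd_cons, one_mul, PMFormA_prod]
    have h4 : y * (s ^ 2 * W τ y s * psi τ s) = y * (2 * E τ * ((1 / y) *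
        (s * psi τ s * chi τ s * Real.sin (y * τ * s)) -
        s * Real.sin (τ * s) * psi τ s * chi τ (y * s))) := by
      have h5 : y * (s ^ 2 * W τ y s * psi τ s) = s * psi τ s * (y * s * W τ y s) := by ring
      rw [h5, h1]
      have h6 : y * (2 * E τ * ((1 / y) *
        (s * psi τ s * chi τ s * Real.sin (y * τ * s)) -
        s * Real.sin (τ * s) * psi τ s * chi τ (y * s))) =
        2 * E τ * psi τ s * ((s * chi τ s) * Real.sin (y * τ * s) -
          Real.sin (τ * s) * (y * s * chi τ (y * s))) := by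
        field_simp
      rw [h6]
      have h7 : s * chi τ s = s * psi τ s - 2 * E τ * Real.sin (τ * s) := by linarith
      have h8 : y * s * chi τ (y * s) = y * s * psi τ (y * s) - 2 * E τ * Real.sin (y * τ * s) := by
        linarith
      rw [h7, h8]
      ring
    have h9 := mul_left_cancel₀ hy0.ne' h4
    calc s ^ 2 * W τ y s * (psi τ s * psi τ (y * s) ^ k)
        = (s ^ 2 * W τ y s * psi τ s) * psi τ (y * s) ^ k := by ring
      _ = _ := by
        rw [h9]
        ring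
  unfold D
  simp only [hpt]
  rw [integral_const_mul, integral_sub ((PM_A_int hτ hy0 k).const_mul _) (PM_B_int hτ hy0 k),
    integral_const_mul]

end GCube
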