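import Pool.Agent.Lib.H83.Defs

/-!
Chunk PSI: elementary facts on `psi`, `chi`, `W`.
All are one dimensional calculus (integration by parts, continuity, bounds).
-/

open MeasureTheory Set
open scoped Real

namespace GCube

lemma E_pos (x : ℝ) : 0 < E x := Real.exp_pos _

lemma E_neg (x : ℝ) : E (-x) = E x := by simp [E]

lemma E_continuous : Continuous E := by
  unfold E; fun_prop

lemma psi_E_le_one (x : ℝ) : E x ≤ 1 := by
  unfold E
  rw [Real.exp_le_one_iff]
  nlinarith [sq_nonneg x]

lemma psi_hasDerivAt_E (x : ℝ) : HasDerivAt E (-(x * E x)) x := by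
  have h : HasDerivAt (fun x : ℝ => -(x ^ 2) / 2) (-x) x :=
    (((hasDerivAt_pow 2 x).neg).div_const 2).congr_deriv (by norm_num; ring)
  have h2 : HasDerivAt (fun x : ℝ => Real.exp (-(x ^ 2) / 2)) (Real.exp (-(x ^ 2) / 2) * -x) x :=
    h.exp
  exact h2.congr_deriv (by unfold E; ring)

lemma psi_even (τ s : ℝ) : psi τ (-s) = psi τ s := by
  unfold psi
  congr 1
  ext t
  rw [neg_mul, Real.cos_neg]

lemma psi_integrand_cont (s : ℝ) : Continuous (fun t => E t * Real.cos (s * t)) := by
  have := E_continuous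
  fun_prop

lemma psi_continuous (τ : ℝ) : Continuous (psi τ) := by
  unfold psi
  apply intervalIntegral.continuous_parametric_intervalIntegral_of_continuous'
  have := E_continuous
  unfold Function.uncurry
  fun_prop

lemma psi_zero_pos {τ : ℝ} (hτ : 0 < τ) : 0 < psi τ 0 := by
  unfold psi
  apply intervalIntegral.intervalIntegral_pos_of_pos_on
  · exact (psi_integrand_cont 0).intervalIntegrable _ _
  · intro x _
    simp [E_pos]
  · linarith

lemma psi_symm_even {f : ℝ → ℝ} (hf : Continuous f) (hev : ∀ x, f (-x) = f x) (τ : ℝ) :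
    ∫ t in (-τ)..τ, f t = 2 * ∫ t in (0 : ℝ)..τ, f t := by
  have h1 : ∫ t in (-τ)..τ, f t = (∫ t in (-τ)..0, f t) + ∫ t in (0 : ℝ)..τ, f t :=
    (intervalIntegral.integral_add_adjacent_intervals (hf.intervalIntegrable _ _)
      (hf.intervalIntegrable _ _)).symm
  have h2 : ∫ t in (-τ)..0, f t = ∫ t in (0 : ℝ)..τ, f t := by
    have := intervalIntegral.integral_comp_neg (a := 0) (b := τ) f
    simp only [hev, neg_zero] at this
    exact this.symm
  rw [h1, h2]
  ring

lemma psi_zero_eq (τ : ℝ) : psi τ 0 = 2 * G τ := by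
  unfold psi G
  rw [← psi_symm_even E_continuous E_neg τ]
  simp

lemma abs_psi_le {τ : ℝ} (hτ : 0 < τ) (s : ℝ) : |psi τ s| ≤ psi τ 0 := by
  unfold psi
  have h1 := intervalIntegral.abs_integral_le_integral_abs (μ := volume)
    (f := fun t => E t * Real.cos (s * t)) (a := -τ) (b := τ) (by linarith)
  refine h1.trans ?_
  apply intervalIntegral.integral_mono_on (by linarith)
  · exact (psi_integrand_cont s).abs.intervalIntegrable _ _
  · exact (psi_integrand_cont 0).intervalIntegrable _ _
  · intro x _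
    rw [abs_mul, abs_of_pos (E_pos x)]
    simp only [zero_mul, Real.cos_zero, mul_one]
    have := Real.abs_cos_le_one (s * x)
    nlinarith [E_pos x]

lemma chi_even (τ s : ℝ) : chi τ (-s) = chi τ s := by
  unfold chi
  congr 1
  ext t
  rw [neg_mul, Real.sinc_neg]

lemma psi_chi_integrand_cont (s : ℝ) : Continuous (fun t => t ^ 2 * E t * Real.sinc (s * t)) := by
  have := E_continuous
  have := Real.continuous_sinc
  fun_prop

lemma chi_continuous (τ : ℝ) : Continuous (chi τ) := by
  unfold chi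
  apply intervalIntegral.continuous_parametric_intervalIntegral_of_continuous'
  have := E_continuous
  have := Real.continuous_sinc
  unfold Function.uncurry
  fun_prop

lemma psi_mul_sinc (x : ℝ) : x * Real.sinc x = Real.sin x := by
  by_cases h : x = 0
  · simp [h]
  · rw [Real.sinc_of_ne_zero h]
    field_simp

lemma psi_hasDerivAt_mul_sinc (s t : ℝ) :
    HasDerivAt (fun t => t * Real.sinc (s * t)) (Real.cos (s * t)) t := by
  by_cases h : s = 0
  · subst h
    simpa using hasDerivAt_id' t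
  · have h1 : (fun t => t * Real.sinc (s * t)) = fun t => Real.sin (s * t) / s := by
      ext t
      rw [eq_div_iff h, ← psi_mul_sinc (s * t)]
      ring
    rw [h1]
    have h2 : HasDerivAt (fun t => Real.sin (s * t)) (Real.cos (s * t) * s) t :=
      (((hasDerivAt_id' t).const_mul s).sin).congr_deriv (by ring)
    exact (h2.div_const s).congr_deriv (by field_simp)

/-- `ψ(s) = 2 g τ sinc(τ s) + χ(s)`. -/
lemma psi_eq (τ s : ℝ) : psi τ s = 2 * τ * E τ * Real.sinc (τ * s) + chi τ s := by
  have hd : ∀ t ∈ uIcc (-τ) τ, HasDerivAt (fun t => t * Real.sinc (s * t) * E t)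
      (E t * Real.cos (s * t) - t ^ 2 * E t * Real.sinc (s * t)) t := by
    intro t _
    exact ((psi_hasDerivAt_mul_sinc s t).mul (psi_hasDerivAt_E t)).congr_deriv (by ring)
  have h := intervalIntegral.integral_eq_sub_of_hasDerivAt hd
    (((psi_integrand_cont s).sub (psi_chi_integrand_cont s)).intervalIntegrable _ _)
  rw [intervalIntegral.integral_sub ((psi_integrand_cont s).intervalIntegrable _ _)
    ((psi_chi_integrand_cont s).intervalIntegrable _ _)] at h
  have e : s * -τ = -(τ * s) := by ring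
  have e' : s * τ = τ * s := by ring
  rw [E_neg, e, e', Real.sinc_neg] at h
  unfold psi chi
  linarith

/-- `b s ψ(bs) = 2 (g sin(bτs) + ∫_0^τ t E(t) sin(b t s) dt)`. -/
lemma mul_psi (τ b s : ℝ) :
    b * s * psi τ (b * s) =
      2 * (E τ * Real.sin (b * τ * s) + ∫ t in (0 : ℝ)..τ, t * E t * Real.sin (b * t * s)) := by
  rw [psi_eq]
  have h1 : b * s * chi τ (b * s) = 2 * ∫ t in (0 : ℝ)..τ, t * E t * Real.sin (b * t * s) := by
    unfold chi
    rw [← psi_symm_even, ← intervalIntegral.integral_const_mul]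
    · apply intervalIntegral.integral_congr
      intro t _
      simp only
      have := psi_mul_sinc (b * s * t)
      have e : b * t * s = b * s * t := by ring
      rw [e, ← this]
      ring
    · have := E_continuous
      fun_prop
    · intro x
      have e : b * -x * s = -(b * x * s) := by ring
      rw [E_neg, e, Real.sin_neg]
      ring
  have h2 := psi_mul_sinc (τ * (b * s))
  have e : b * τ * s = τ * (b * s) := by ring
  rw [mul_add, h1, e, ← h2]
  ring

lemma psi_int_tE (τ : ℝ) : ∫ t in (0 : ℝ)..τ, t * E t = 1 - E τ := by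
  have hd : ∀ t ∈ uIcc 0 τ, HasDerivAt (fun t => - E t) (t * E t) t := by
    intro t _
    exact ((psi_hasDerivAt_E t).neg).congr_deriv (by ring)
  have hc : Continuous (fun t => t * E t) := by
    have := E_continuous
    fun_prop
  have h := intervalIntegral.integral_eq_sub_of_hasDerivAt hd (hc.intervalIntegrable _ _)
  rw [h]
  have : E 0 = 1 := by simp [E]
  rw [this]
  ring

/-- integrate by parts: `ψ(s) = 2 (g sin(τs) + ∫_0^τ t E(t) sin(st) dt)/s`, and `g + ∫_0^τ tE = 1`. -/
lemma abs_psi_le_inv {τ : ℝ} (hτ : 0 < τ) {s : ℝ} (hs : s ≠ 0) : |psi τ s| ≤ 2 / |s| := by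
  have hspos : 0 < |s| := abs_pos.mpr hs
  rw [le_div_iff₀ hspos, ← abs_mul]
  have h := mul_psi τ 1 s
  simp only [one_mul] at h
  have e : psi τ s * s = s * psi τ s := by ring
  rw [e, h]
  have hc : Continuous (fun t => t * E t * Real.sin (t * s)) := by
    have := E_continuous
    fun_prop
  have hc2 : Continuous (fun t => t * E t) := by
    have := E_continuous
    fun_prop
  have h1 : |∫ t in (0 : ℝ)..τ, t * E t * Real.sin (t * s)| ≤ 1 - E τ := by
    rw [← psi_int_tE τ]
    refine (intervalIntegral.abs_integral_le_integral_abs hτ.le).trans ?_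
    apply intervalIntegral.integral_mono_on hτ.le
    · exact hc.abs.intervalIntegrable _ _
    · exact hc2.intervalIntegrable _ _
    · intro x hx
      rw [abs_mul, abs_of_nonneg (mul_nonneg hx.1 (E_pos x).le)]
      have := Real.abs_sin_le_one (x * s)
      have h3 := mul_nonneg hx.1 (E_pos x).le
      nlinarith
  have h2 : |E τ * Real.sin (τ * s)| ≤ E τ := by
    rw [abs_mul, abs_of_pos (E_pos τ)]
    have := Real.abs_sin_le_one (τ * s)
    nlinarith [E_pos τ]
  rw [abs_mul, abs_of_pos (by norm_num : (0 : ℝ) < 2)]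
  have h3 := abs_add_le (E τ * Real.sin (τ * s)) (∫ t in (0 : ℝ)..τ, t * E t * Real.sin (t * s))
  linarith

lemma hasDerivAt_psi (τ s : ℝ) : HasDerivAt (psi τ) (-(s * chi τ s)) s := by
  have key := intervalIntegral.hasDerivAt_integral_of_dominated_loc_of_deriv_le
    (μ := volume) (a := -τ) (b := τ) (x₀ := s) (s := univ)
    (F := fun s t => E t * Real.cos (s * t))
    (F' := fun s t => - (t * E t * Real.sin (s * t))) (bound := fun t => |t|) Filter.univ_mem
    (Filter.Eventually.of_forall fun x => (psi_integrand_cont x).aestronglyMeasurable)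
    ((psi_integrand_cont s).intervalIntegrable _ _)
    (by
      have := E_continuous
      have h : Continuous (fun t => - (t * E t * Real.sin (s * t))) := by fun_prop
      exact h.aestronglyMeasurable)
    (by
      apply Filter.Eventually.of_forall
      intro t _ x _
      rw [norm_neg, norm_mul, norm_mul, Real.norm_eq_abs, Real.norm_eq_abs, Real.norm_eq_abs,
        abs_of_pos (E_pos t)]
      have h1 := Real.abs_sin_le_one (x * t)
      have h2 := psi_E_le_one t
      have h3 := E_pos t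
      have h4 := abs_nonneg t
      have h5 := abs_nonneg (Real.sin (x * t))
      calc |t| * E t * |Real.sin (x * t)| ≤ |t| * E t * 1 := by gcongr
        _ ≤ |t| * 1 * 1 := by gcongr
        _ = |t| := by ring)
    (continuous_abs.intervalIntegrable _ _)
    (by
      apply Filter.Eventually.of_forall
      intro t _ x _
      have h1 : HasDerivAt (fun x => Real.cos (x * t)) (-Real.sin (x * t) * t) x :=
        (((hasDerivAt_id' x).mul_const t).cos).congr_deriv (by ring)
      exact (h1.const_mul (E t)).congr_deriv (by ring))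
  have h2 : HasDerivAt (psi τ) _ s := key.2
  refine h2.congr_deriv ?_
  unfold chi
  rw [intervalIntegral.integral_neg, ← intervalIntegral.integral_const_mul]
  congr 1
  apply intervalIntegral.integral_congr
  intro t _
  simp only
  rw [← psi_mul_sinc (s * t)]
  ring

lemma abs_chi_le {τ : ℝ} (hτ : 0 < τ) (s : ℝ) : |chi τ s| ≤ τ ^ 2 * psi τ 0 := by
  unfold chi psi
  rw [← intervalIntegral.integral_const_mul]
  refine (intervalIntegral.abs_integral_le_integral_abs (by linarith)).trans ?_
  apply intervalIntegral.integral_mono_on (by linarith)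
  · exact (psi_chi_integrand_cont s).abs.intervalIntegrable _ _
  · exact (continuous_const.mul (psi_integrand_cont 0)).intervalIntegrable _ _
  · intro x hx
    rw [abs_mul, abs_mul, abs_of_pos (E_pos x), abs_of_nonneg (sq_nonneg x)]
    simp only [zero_mul, Real.cos_zero, mul_one]
    have h1 : |Real.sinc (s * x)| ≤ 1 := Real.abs_sinc_le_one _
    have h2 : x ^ 2 ≤ τ ^ 2 := by
      apply sq_le_sq'
      · exact hx.1
      · exact hx.2
    have h3 := E_pos x
    calc x ^ 2 * E x * |Real.sinc (s * x)| ≤ x ^ 2 * E x * 1 := by gcongr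
      _ ≤ τ ^ 2 * E x * 1 := by gcongr
      _ = τ ^ 2 * E x := by ring

lemma psi_sq_mul_chi (τ s : ℝ) :
    s ^ 2 * chi τ s = - (2 * τ * E τ * Real.cos (τ * s)) +
      ∫ t in (-τ)..τ, (1 - t ^ 2) * E t * Real.cos (s * t) := by
  have hc1 : Continuous (fun t => (1 - t ^ 2) * E t * Real.cos (s * t)) := by
    have := E_continuous
    fun_prop
  have hc2 : Continuous (fun t => s ^ 2 * (t ^ 2 * E t * Real.sinc (s * t))) :=
    continuous_const.mul (psi_chi_integrand_cont s)
  have hd : ∀ t ∈ uIcc (-τ) τ, HasDerivAt (fun t => - (t * E t * Real.cos (s * t)))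
      (s ^ 2 * (t ^ 2 * E t * Real.sinc (s * t)) - (1 - t ^ 2) * E t * Real.cos (s * t)) t := by
    intro t _
    have h1 : HasDerivAt (fun t => Real.cos (s * t)) (-Real.sin (s * t) * s) t :=
      (((hasDerivAt_id' t).const_mul s).cos).congr_deriv (by ring)
    refine ((((hasDerivAt_id' t).mul (psi_hasDerivAt_E t)).mul h1).neg).congr_deriv ?_
    have h3 : Real.sin (s * t) = s * t * Real.sinc (s * t) := (psi_mul_sinc (s * t)).symm
    simp only [Pi.mul_apply, h3]
    ring
  have h := intervalIntegral.integral_eq_sub_of_hasDerivAt hd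
    ((hc2.sub hc1).intervalIntegrable _ _)
  rw [intervalIntegral.integral_sub (hc2.intervalIntegrable _ _) (hc1.intervalIntegrable _ _),
    intervalIntegral.integral_const_mul] at h
  have e : s * -τ = -(τ * s) := by ring
  have e' : s * τ = τ * s := by ring
  rw [E_neg, e, e', Real.cos_neg] at h
  unfold chi
  linarith

lemma abs_chi_le_inv {τ : ℝ} (hτ : 0 < τ) {s : ℝ} (hs : s ≠ 0) :
    |chi τ s| ≤ (4 * τ + 2 * τ ^ 3) / s ^ 2 := by
  have hspos : 0 < s ^ 2 := by positivity
  rw [le_div_iff₀ hspos]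
  have e : |chi τ s| * s ^ 2 = |s ^ 2 * chi τ s| := by
    rw [abs_mul, abs_of_pos hspos]
    ring
  rw [e, psi_sq_mul_chi]
  have hc1 : Continuous (fun t => (1 - t ^ 2) * E t * Real.cos (s * t)) := by
    have := E_continuous
    fun_prop
  have h1 : |∫ t in (-τ)..τ, (1 - t ^ 2) * E t * Real.cos (s * t)| ≤
      ∫ t in (-τ)..τ, (1 + τ ^ 2) := by
    refine (intervalIntegral.abs_integral_le_integral_abs (by linarith)).trans ?_
    apply intervalIntegral.integral_mono_on (by linarith)
    · exact hc1.abs.intervalIntegrable _ _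
    · exact continuous_const.intervalIntegrable _ _
    · intro x hx
      rw [abs_mul, abs_mul, abs_of_pos (E_pos x)]
      have h1 : |Real.cos (s * x)| ≤ 1 := Real.abs_cos_le_one _
      have h2 : x ^ 2 ≤ τ ^ 2 := sq_le_sq' hx.1 hx.2
      have h3 := E_pos x
      have h4 := psi_E_le_one x
      have h5 : |1 - x ^ 2| ≤ 1 + τ ^ 2 := by
        rw [abs_le]
        constructor <;> nlinarith [sq_nonneg x]
      calc |1 - x ^ 2| * E x * |Real.cos (s * x)| ≤ |1 - x ^ 2| * E x * 1 := by gcongr
        _ ≤ |1 - x ^ 2| * 1 * 1 := by gcongr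
        _ ≤ 1 + τ ^ 2 := by linarith
  rw [intervalIntegral.integral_const, smul_eq_mul] at h1
  have h2 : |-(2 * τ * E τ * Real.cos (τ * s))| ≤ 2 * τ := by
    rw [abs_neg, abs_mul, abs_of_nonneg (by have := E_pos τ; positivity)]
    have h1 : |Real.cos (τ * s)| ≤ 1 := Real.abs_cos_le_one _
    have h3 := E_pos τ
    have h4 := psi_E_le_one τ
    calc 2 * τ * E τ * |Real.cos (τ * s)| ≤ 2 * τ * E τ * 1 := by gcongr
      _ ≤ 2 * τ * 1 * 1 := by gcongr
      _ = 2 * τ := by ring
  have h3 := abs_add_le (-(2 * τ * E τ * Real.cos (τ * s)))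
    (∫ t in (-τ)..τ, (1 - t ^ 2) * E t * Real.cos (s * t))
  nlinarith

/-- `y s² W = g (2 s) ( sin(yτs) ψ(s) - y sin(τs) ψ(ys) )`, i.e. `(y s / g) W = Ĉ_y(s)`. -/
lemma W_eq (τ y s : ℝ) :
    y * s * W τ y s =
      E τ * (2 * Real.sin (y * τ * s) * psi τ s - 2 * y * Real.sin (τ * s) * psi τ (y * s)) := by
  unfold W
  have h1 : chi τ s = psi τ s - 2 * τ * E τ * Real.sinc (τ * s) := by
    rw [psi_eq]
    ring
  have h2 : chi τ (y * s) = psi τ (y * s) - 2 * τ * E τ * Real.sinc (τ * (y * s)) := by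
    rw [psi_eq]
    ring
  have h3 := psi_mul_sinc (τ * s)
  have h4 := psi_mul_sinc (τ * (y * s))
  have e : y * τ * s = τ * (y * s) := by ring
  rw [h1, h2, e, ← h3, ← h4]
  ring

/-- locally uniform version, used to differentiate along the exchange path. -/
lemma psi_W_bound_aux {τ y₀ : ℝ} (hτ : 0 < τ) (hy : 0 < y₀) :
    ∃ c : ℝ, 0 < c ∧ ∀ y s, y₀ ≤ y → |W τ y s| ≤ c ∧ |s| ^ 3 * |W τ y s| ≤ c := by
  have hp := psi_zero_pos hτ
  set A : ℝ := 4 * τ + 2 * τ ^ 3 with hA
  have hApos : 0 < A := by positivity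
  refine ⟨2 * τ ^ 2 * psi τ 0 ^ 2 + (2 * A / y₀ + 2 * A / y₀ ^ 2), by positivity, ?_⟩
  intro y s hys
  have hypos : 0 < y := lt_of_lt_of_le hy hys
  have hb1 : |W τ y s| ≤ |chi τ s| * |psi τ (y * s)| + |psi τ s| * |chi τ (y * s)| := by
    unfold W
    have := abs_sub (chi τ s * psi τ (y * s)) (psi τ s * chi τ (y * s))
    rw [abs_mul, abs_mul] at this
    exact this
  constructor
  · have h1 := abs_chi_le hτ s
    have h2 := abs_psi_le hτ (y * s)
    have h3 := abs_psi_le hτ s
    have h4 := abs_chi_le hτ (y * s)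
    have h5 : |chi τ s| * |psi τ (y * s)| ≤ (τ ^ 2 * psi τ 0) * psi τ 0 := by gcongr
    have h6 : |psi τ s| * |chi τ (y * s)| ≤ psi τ 0 * (τ ^ 2 * psi τ 0) := by gcongr
    have h7 : 0 ≤ 2 * A / y₀ + 2 * A / y₀ ^ 2 := by positivity
    nlinarith
  · by_cases hs : s = 0
    · subst hs
      simp only [abs_zero]
      have h7 : 0 ≤ 2 * A / y₀ + 2 * A / y₀ ^ 2 := by positivity
      have h8 : 0 ≤ 2 * τ ^ 2 * psi τ 0 ^ 2 := by positivity
      linarith [show (0 : ℝ) ^ 3 * |W τ y 0| = 0 by ring]
    · have hspos : 0 < |s| := abs_pos.mpr hs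
      have hys' : y * s ≠ 0 := mul_ne_zero hypos.ne' hs
      have h1 := abs_chi_le_inv hτ hs
      have h2 := abs_psi_le_inv hτ hys'
      have h3 := abs_psi_le_inv hτ hs
      have h4 := abs_chi_le_inv hτ hys'
      rw [← hA] at h1 h4
      rw [abs_mul, abs_of_pos hypos] at h2
      have e1 : s ^ 2 = |s| ^ 2 := (sq_abs s).symm
      rw [e1] at h1
      have e2 : (y * s) ^ 2 = y ^ 2 * |s| ^ 2 := by rw [mul_pow, e1]
      rw [e2] at h4
      have h5 : |chi τ s| * |psi τ (y * s)| ≤ (A / |s| ^ 2) * (2 / (y * |s|)) := by gcongr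
      have h6 : |psi τ s| * |chi τ (y * s)| ≤ (2 / |s|) * (A / (y ^ 2 * |s| ^ 2)) := by gcongr
      have h7 : |s| ^ 3 * |W τ y s| ≤
          |s| ^ 3 * ((A / |s| ^ 2) * (2 / (y * |s|)) + (2 / |s|) * (A / (y ^ 2 * |s| ^ 2))) := by
        gcongr
        linarith
      have h8 : |s| ^ 3 * ((A / |s| ^ 2) * (2 / (y * |s|)) + (2 / |s|) * (A / (y ^ 2 * |s| ^ 2)))
          = 2 * A / y + 2 * A / y ^ 2 := by
        field_simp
      rw [h8] at h7
      have h9 : 2 * A / y ≤ 2 * A / y₀ := by gcongr
      have h10 : 2 * A / y ^ 2 ≤ 2 * A / y₀ ^ 2 := by gcongr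
      have h11 : 0 ≤ 2 * τ ^ 2 * psi τ 0 ^ 2 := by positivity
      linarith

/-- decay of `W` (for a fixed `y > 0`). -/
lemma W_bound {τ y : ℝ} (hτ : 0 < τ) (hy : 0 < y) :
    ∃ c : ℝ, 0 < c ∧ ∀ s, |W τ y s| ≤ c ∧ |s| ^ 3 * |W τ y s| ≤ c := by
  obtain ⟨c, hc, h⟩ := psi_W_bound_aux hτ hy
  exact ⟨c, hc, fun s => h y s le_rfl⟩

/-- locally uniform version, used to differentiate along the exchange path. -/
lemma W_bound_unif {τ y₀ : ℝ} (hτ : 0 < τ) (hy : 0 < y₀) :
    ∃ c : ℝ, 0 < c ∧ ∀ y s, y₀ ≤ y → y ≤ 1 → |W τ y s| ≤ c ∧ |s| ^ 3 * |W τ y s| ≤ c := by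
  obtain ⟨c, hc, h⟩ := psi_W_bound_aux hτ hy
  exact ⟨c, hc, fun y s h1 _ => h y s h1⟩

lemma psiProd_continuous (τ : ℝ) (l : List ℝ) : Continuous (psiProd τ l) := by
  unfold psiProd
  induction l with
  | nil => simpa using continuous_const
  | cons b l ih =>
    simp only [List.map_cons, List.prod_cons]
    have := psi_continuous τ
    exact (this.comp (continuous_const.mul continuous_id)).mul ih

lemma psi_psiProd_cons (τ b : ℝ) (l : List ℝ) (s : ℝ) :
    psiProd τ (b :: l) s = psi τ (b * s) * psiProd τ l s := by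
  simp [psiProd]

lemma abs_psiProd_le {τ : ℝ} (hτ : 0 < τ) (l : List ℝ) (s : ℝ) :
    |psiProd τ l s| ≤ psi τ 0 ^ l.length := by
  induction l with
  | nil => simp [psiProd]
  | cons b l ih =>
    rw [psi_psiProd_cons, abs_mul, List.length_cons, pow_succ, mul_comm]
    have h1 := abs_psi_le hτ (b * s)
    have h2 := psi_zero_pos hτ
    gcongr

lemma psiProd_perm {τ : ℝ} {l l' : List ℝ} (h : l.Perm l') (s : ℝ) : psiProd τ l s = psiProd τ l' s := by
  unfold psiProd
  exact (h.map _).prod_eq

lemma D_perm {τ y : ℝ} {l l' : List ℝ} (h : l.Perm l') : D τ y l = D τ y l' := by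
  unfold D
  congr 1
  ext s
  rw [psiProd_perm h]

lemma psi_W_continuous (τ y : ℝ) : Continuous (W τ y) := by
  unfold W
  have h1 := psi_continuous τ
  have h2 := chi_continuous τ
  have h3 : Continuous (fun s : ℝ => y * s) := by fun_prop
  exact (h2.mul (h1.comp h3)).sub (h1.mul (h2.comp h3))

/-- a continuous function with `|f| ≤ c` and `s^2 |f| ≤ c` is integrable -/
lemma psi_integrable_of_decay {f : ℝ → ℝ} (hf : Continuous f) {c : ℝ}
    (h1 : ∀ s, |f s| ≤ c) (h2 : ∀ s, s ^ 2 * |f s| ≤ c) : Integrable f := by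
  have hg : Integrable (fun s : ℝ => (2 * c) * (1 + s ^ 2)⁻¹) :=
    integrable_inv_one_add_sq.const_mul _
  refine hg.mono' hf.aestronglyMeasurable ?_
  apply Filter.Eventually.of_forall
  intro s
  rw [Real.norm_eq_abs]
  have h3 : (0 : ℝ) < 1 + s ^ 2 := by positivity
  rw [← div_eq_mul_inv, le_div_iff₀ h3]
  nlinarith [h1 s, h2 s]

/-- integrability of the exchange integrand if at least one `b` in the list is nonzero -/
lemma D_integrable {τ y : ℝ} (hτ : 0 < τ) (hy : 0 < y) {l : List ℝ} (hl : ∃ b ∈ l, b ≠ 0) :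
    Integrable (fun s => s ^ 2 * W τ y s * psiProd τ l s) := by
  obtain ⟨b, hb, hb0⟩ := hl
  obtain ⟨c, hc, hW⟩ := W_bound hτ hy
  have hp := psi_zero_pos hτ
  set M : ℝ := psi τ 0 ^ l.length with hM
  set M' : ℝ := psi τ 0 ^ (l.erase b).length with hM'
  have hMpos : 0 < M := by positivity
  have hM'pos : 0 < M' := by positivity
  have hbpos : 0 < |b| := abs_pos.mpr hb0
  have hcont : Continuous (fun s => s ^ 2 * W τ y s * psiProd τ l s) :=
    ((continuous_pow 2).mul (psi_W_continuous τ y)).mul (psiProd_continuous τ l)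
  have hfirst : ∀ s : ℝ, s ^ 2 * |W τ y s| ≤ c := by
    intro s
    obtain ⟨h1, h2⟩ := hW s
    have e : s ^ 2 = |s| ^ 2 := (sq_abs s).symm
    rw [e]
    by_cases hs : |s| ≤ 1
    · have : |s| ^ 2 ≤ 1 := by
        have := abs_nonneg s
        nlinarith
      nlinarith [abs_nonneg (W τ y s)]
    · push Not at hs
      have : |s| ^ 2 ≤ |s| ^ 3 := by
        have h0 : 0 ≤ |s| ^ 2 := by positivity
        nlinarith
      nlinarith [abs_nonneg (W τ y s)]
  apply psi_integrable_of_decay hcont (c := c * M + c * (2 / |b|) * M')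
  · intro s
    rw [abs_mul, abs_mul, abs_of_nonneg (sq_nonneg s)]
    have h1 := hfirst s
    have h2 := abs_psiProd_le hτ l s
    rw [← hM] at h2
    have h3 : s ^ 2 * |W τ y s| * |psiProd τ l s| ≤ c * M := by gcongr
    have h4 : 0 ≤ c * (2 / |b|) * M' := by positivity
    linarith
  · intro s
    rw [abs_mul, abs_mul, abs_of_nonneg (sq_nonneg s)]
    by_cases hs : s = 0
    · subst hs
      have h4 : 0 ≤ c * (2 / |b|) * M' := by positivity
      have h5 : 0 ≤ c * M := by positivity
      nlinarith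
    · have hspos : 0 < |s| := abs_pos.mpr hs
      have h1 := (hW s).2
      have h2 : |psiProd τ l s| ≤ (2 / (|b| * |s|)) * M' := by
        rw [psiProd_perm (List.perm_cons_erase hb), psi_psiProd_cons, abs_mul]
        have h3 := abs_psi_le_inv hτ (mul_ne_zero hb0 hs)
        rw [abs_mul] at h3
        have h4 := abs_psiProd_le hτ (l.erase b) s
        rw [← hM'] at h4
        gcongr
      have e : s ^ 2 = |s| ^ 2 := (sq_abs s).symm
      rw [e]
      have h3 : |s| ^ 2 * (|s| ^ 2 * |W τ y s| * |psiProd τ l s|) ≤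
          |s| ^ 2 * (|s| ^ 2 * |W τ y s| * ((2 / (|b| * |s|)) * M')) := by gcongr
      have h4 : |s| ^ 2 * (|s| ^ 2 * |W τ y s| * ((2 / (|b| * |s|)) * M')) =
          (|s| ^ 3 * |W τ y s|) * (2 / |b|) * M' := by
        field_simp
      have h5 : (|s| ^ 3 * |W τ y s|) * (2 / |b|) * M' ≤ c * (2 / |b|) * M' := by gcongr
      have h6 : 0 ≤ c * M := by positivity
      linarith

lemma Phi_integrable {τ : ℝ} (hτ : 0 < τ) {n : ℕ} {a : Fin n → ℝ} (ha : TwoNz a) :
    Integrable (fun s => ∏ i, psi τ (a i * s)) := by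
  classical
  obtain ⟨i, j, hij, hi, hj⟩ := ha
  have hp := psi_zero_pos hτ
  have hcont : Continuous (fun s => ∏ i, psi τ (a i * s)) := by
    apply continuous_finsetProd
    intro k _
    exact (psi_continuous τ).comp (continuous_const.mul continuous_id)
  have hipos : 0 < |a i| := abs_pos.mpr hi
  have hjpos : 0 < |a j| := abs_pos.mpr hj
  set N : ℕ := ((Finset.univ.erase i).erase j).card with hN
  set M : ℝ := psi τ 0 ^ (Fintype.card (Fin n)) with hM
  set M' : ℝ := psi τ 0 ^ N with hM'
  have hMpos : 0 < M := by positivity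
  have hM'pos : 0 < M' := by positivity
  apply psi_integrable_of_decay hcont (c := M + (2 / |a i|) * (2 / |a j|) * M')
  · intro s
    rw [Finset.abs_prod]
    have h1 : ∏ k, |psi τ (a k * s)| ≤ ∏ k : Fin n, psi τ 0 := by
      apply Finset.prod_le_prod
      · intro k _
        exact abs_nonneg _
      · intro k _
        exact abs_psi_le hτ _
    rw [Finset.prod_const, Finset.card_univ, ← hM] at h1
    have h4 : 0 ≤ (2 / |a i|) * (2 / |a j|) * M' := by positivity
    linarith
  · intro s
    by_cases hs : s = 0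
    · subst hs
      have h4 : 0 ≤ (2 / |a i|) * (2 / |a j|) * M' := by positivity
      have : (0 : ℝ) ^ 2 * |∏ k, psi τ (a k * 0)| = 0 := by ring
      rw [this]
      linarith
    · have hspos : 0 < |s| := abs_pos.mpr hs
      rw [Finset.abs_prod, ← Finset.mul_prod_erase Finset.univ _ (Finset.mem_univ i),
        ← Finset.mul_prod_erase (Finset.univ.erase i) (fun k => |psi τ (a k * s)|) (a := j)
          (Finset.mem_erase.mpr ⟨hij.symm, Finset.mem_univ j⟩)]
      have h1 : ∏ k ∈ (Finset.univ.erase i).erase j, |psi τ (a k * s)| ≤ M' := by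
        have : ∏ k ∈ (Finset.univ.erase i).erase j, |psi τ (a k * s)| ≤
            ∏ k ∈ (Finset.univ.erase i).erase j, psi τ 0 := by
          apply Finset.prod_le_prod
          · intro k _
            exact abs_nonneg _
          · intro k _
            exact abs_psi_le hτ _
        rw [Finset.prod_const, ← hN, ← hM'] at this
        exact this
      have h1' : 0 ≤ ∏ k ∈ (Finset.univ.erase i).erase j, |psi τ (a k * s)| :=
        Finset.prod_nonneg fun k _ => abs_nonneg _
      have h2 := abs_psi_le_inv hτ (mul_ne_zero hi hs)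
      have h3 := abs_psi_le_inv hτ (mul_ne_zero hj hs)
      rw [abs_mul] at h2 h3
      have e : s ^ 2 = |s| ^ 2 := (sq_abs s).symm
      rw [e]
      generalize hQ : (∏ k ∈ (Finset.univ.erase i).erase j, |psi τ (a k * s)|) = Q at h1 h1' ⊢
      clear_value M M' N
      have h4 : |s| ^ 2 * (|psi τ (a i * s)| * (|psi τ (a j * s)| * Q)) ≤
          |s| ^ 2 * ((2 / (|a i| * |s|)) * ((2 / (|a j| * |s|)) * M')) := by gcongr
      have h5 : |s| ^ 2 * ((2 / (|a i| * |s|)) * ((2 / (|a j| * |s|)) * M')) =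
          (2 / |a i|) * (2 / |a j|) * M' := by
        field_simp
      linarith

/-- scaling -/
lemma Phi_smul {τ : ℝ} {n : ℕ} (a : Fin n → ℝ) {c : ℝ} (hc : 0 < c) :
    Phi τ (fun i => c * a i) = Phi τ a / c := by
  let f : ℝ → ℝ := fun s => ∏ i, psi τ (a i * s)
  have h : ∫ s : ℝ, f (c * s) = |c⁻¹| • ∫ s : ℝ, f s := Measure.integral_comp_mul_left f c
  have e : (fun s : ℝ => ∏ i, psi τ (c * a i * s)) = fun s : ℝ => f (c * s) := by
    funext s
    have e2 : ∀ i, c * a i * s = a i * (c * s) := fun i => by ring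
    simp only [e2]
    rfl
  have e3 : Phi τ (fun i => c * a i) = ∫ s : ℝ, f (c * s) := by
    rw [← e]
    rfl
  have e4 : Phi τ a = ∫ s : ℝ, f s := rfl
  rw [e3, e4, h, abs_of_pos (inv_pos.mpr hc), smul_eq_mul]
  ring

lemma F0_smul {τ : ℝ} {n : ℕ} (a : Fin n → ℝ) {c : ℝ} (hc : 0 < c) :
    F0 τ (fun i => c * a i) = F0 τ a := by
  unfold F0
  rw [Phi_smul a hc]
  have h : ∑ i, (c * a i) ^ 2 = c ^ 2 * ∑ i, a i ^ 2 := by
    rw [Finset.mul_sum]
    apply Finset.sum_congr rfl
    intro i _
    ring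
  rw [h, Real.sqrt_mul (sq_nonneg c), Real.sqrt_sq hc.le]
  field_simp

lemma F0_abs {τ : ℝ} {n : ℕ} (a : Fin n → ℝ) : F0 τ (fun i => |a i|) = F0 τ a := by
  unfold F0 Phi
  have h : ∀ s : ℝ, ∏ i, psi τ (|a i| * s) = ∏ i, psi τ (a i * s) := by
    intro s
    apply Finset.prod_congr rfl
    intro i _
    rcases abs_choice (a i) with h | h
    · rw [h]
    · rw [h, neg_mul, psi_even]
  simp only [h, sq_abs]

end GCube
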