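import Pool.Agent.Lib.H83.ThElem

/-!
Chunk XB1 (M): the barrier `5 Av < δ²`, `δ = hn + τ² - 1`, for `τ ≥ 0.62`.

Put `x = τ²`, `a = hn τ`, `δ = a + x - 1 = a + τ² - 1`. From `hasDerivAt_hn`: `τ a' = -a δ`, so `τ δ' = 2x - aδ`, and (ring, with
`a = 1 - x + δ`) `Av = 2 - (1+x)a - a² = 2x - (3-x)δ - δ²`, `2x - aδ = Av + 2δ`, `τ Av' = a (δ² - Av)`.
So for `V = δ²/5 - Av`: `τ V' = (2/5) δ (Av + 2δ) - a δ² + a Av`, and at a point with `V = 0` (i.e. `Av = δ²/5`)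
`τ V' = (2/25) δ³ + (4/5) δ² (1 - a) > 0` (`δ > 0` because `Av > 0` implies... or directly: `δ > 0` since
`δ = hn + τ² - 1 = τ² - sg τ` and `sg τ = τ² m2 τ ≤ τ²/3`, `PMSound_m2_le`; `a < 1`: `hn_lt_one`).
At `τ = 0.62`: `V > 0` (0.00117; use `ct2_emL/ct2_emU`, `CF.nmL_le`, `CF.le_nmU` with the rational bounds of `E`, `Nm`,
`norm_num`/`decide +kernel`). A continuous function `V` on `[0.62,∞)` with `V(0.62) > 0` whose derivative is `> 0` at every
zero stays positive (first zero argument: at the first zero `t`, `V > 0` before `t` gives `V'(t) ≤ 0`).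
-/

open MeasureTheory Set
open scoped Real

namespace GCube

theorem Av_delta (τ : ℝ) : Av τ = 2 * τ ^ 2 - (3 - τ ^ 2) * (hn τ + τ ^ 2 - 1) - (hn τ + τ ^ 2 - 1) ^ 2 := by
  unfold Av
  ring

theorem delta_pos {τ : ℝ} (hτ : 0 < τ) : 0 < hn τ + τ ^ 2 - 1 := by
  have h1 : sg τ = τ ^ 2 * m2 τ := sg_eq τ
  have h2 := PMSound_m2_le τ hτ.le
  have h3 : hn τ + τ ^ 2 - 1 = τ ^ 2 - sg τ := by unfold sg; ring
  rw [h3, h1]
  have : 0 < τ ^ 2 := by positivity
  nlinarith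

theorem hasDerivAt_Av {τ : ℝ} (hτ : 0 < τ) :
    HasDerivAt Av (hn τ * ((hn τ + τ ^ 2 - 1) ^ 2 - Av τ) / τ) τ := by
  have h := hasDerivAt_hn hτ
  have h1 : HasDerivAt (fun t : ℝ => 1 + t ^ 2) (2 * τ) τ := by
    have := (hasDerivAt_pow 2 τ).const_add 1
    simpa using this
  have h2 : HasDerivAt (fun t => 2 - (1 + t ^ 2) * hn t - hn t ^ 2)
      (-(2 * τ * hn τ + (1 + τ ^ 2) * (hn τ * (1 - τ ^ 2 - hn τ) / τ)) -
        2 * hn τ * (hn τ * (1 - τ ^ 2 - hn τ) / τ)) τ := by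
    have h3 := (h1.fun_mul h).const_sub 2
    have h4 := h.fun_pow 2
    refine (h3.fun_sub h4).congr_deriv ?_
    push_cast
    ring
  have e : Av = fun t => 2 - (1 + t ^ 2) * hn t - hn t ^ 2 := rfl
  rw [e]
  refine h2.congr_deriv ?_
  field_simp
  ring

/-- first zero argument -/
theorem XB1_barrier {f f' : ℝ → ℝ} {a : ℝ} (hc : ∀ t, a ≤ t → HasDerivAt f (f' t) t) (ha : 0 < f a)
    (h : ∀ t, a ≤ t → f t = 0 → 0 < f' t) : ∀ t, a ≤ t → 0 < f t := by
  by_contra hcon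
  push Not at hcon
  obtain ⟨t1, ht1, hf1⟩ := hcon
  have hcont : ContinuousOn f (Icc a t1) := fun t ht => (hc t ht.1).continuousAt.continuousWithinAt
  have hcl : IsClosed (Icc a t1 ∩ f ⁻¹' (Iic 0)) := hcont.preimage_isClosed_of_isClosed isClosed_Icc isClosed_Iic
  have hcomp : IsCompact (Icc a t1 ∩ f ⁻¹' (Iic 0)) := isCompact_Icc.of_isClosed_subset hcl inter_subset_left
  obtain ⟨t0, ht0, hmin⟩ := hcomp.exists_isLeast ⟨t1, ⟨ht1, le_rfl⟩, hf1⟩
  have hat : a < t0 := by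
    rcases ht0.1.1.eq_or_lt with h' | h'
    · exfalso
      have : f t0 ≤ 0 := ht0.2
      rw [← h'] at this
      linarith
    · exact h'
  have hpos : ∀ t, a ≤ t → t < t0 → 0 < f t := by
    intro t h1 h2
    by_contra h3
    have : t0 ≤ t := hmin ⟨⟨h1, h2.le.trans ht0.1.2⟩, not_lt.1 h3⟩
    linarith
  have hd := hc t0 hat.le
  have hlim := hd.continuousAt.continuousWithinAt (s := Iio t0)
  have h0 : f t0 = 0 := by
    refine le_antisymm ht0.2 ?_
    refine ge_of_tendsto hlim.tendsto ?_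
    filter_upwards [Ioo_mem_nhdsLT hat] with t ht
    exact (hpos t ht.1.le ht.2).le
  have h1 := h t0 hat.le h0
  have h2 := (hasDerivAt_iff_tendsto_slope.1 hd).eventually_const_lt h1
  have h3 : ∀ᶠ t in nhdsWithin t0 (Iio t0), 0 < slope f t0 t :=
    h2.filter_mono (nhdsWithin_mono _ fun x hx => (ne_of_lt hx : x ≠ t0))
  obtain ⟨t, ht, ht2⟩ := (h3.and (Ioo_mem_nhdsLT hat)).exists
  rw [slope_def_field, h0, sub_zero] at ht
  have h4 := hpos t ht2.1.le ht2.2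
  have h5 : t - t0 < 0 := by linarith [ht2.2]
  have := div_neg_of_pos_of_neg h4 h5
  linarith

theorem XB1_start : 5 * Av (62 / 100) < (hn (62 / 100) + (62 / 100) ^ 2 - 1) ^ 2 := by
  have e1 := @ct2_emL (62 / 100)
  have e2 := @ct2_emU (62 / 100)
  have n1 := CF.nmL_le 0 (t := 62 / 100) (by norm_num)
  have n2 := CF.le_nmU 0 (t := 62 / 100) (by norm_num)
  have q1 : (8251 / 10000 : ℚ) ≤ CF.emL ((62 / 100) ^ 2 / 2) := by decide +kernel
  have q2 : CF.emU ((62 / 100) ^ 2 / 2) ≤ (82515 / 100000 : ℚ) := by decide +kernel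
  have q3 : (93946 / 100000 : ℚ) ≤ CF.nmL 0 (62 / 100) := by decide +kernel
  have q4 : CF.nmU 0 (62 / 100) ≤ (93948 / 100000 : ℚ) := by decide +kernel
  have r1 : ((8251 / 10000 : ℚ) : ℝ) ≤ CF.emL ((62 / 100) ^ 2 / 2) := by exact_mod_cast q1
  have r2 : (CF.emU ((62 / 100) ^ 2 / 2) : ℝ) ≤ ((82515 / 100000 : ℚ) : ℝ) := by exact_mod_cast q2
  have r3 : ((93946 / 100000 : ℚ) : ℝ) ≤ CF.nmL 0 (62 / 100) := by exact_mod_cast q3
  have r4 : (CF.nmU 0 (62 / 100) : ℝ) ≤ ((93948 / 100000 : ℚ) : ℝ) := by exact_mod_cast q4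
  push_cast at e1 e2 n1 n2 r1 r2 r3 r4
  have hN := Nm_pos (62 / 100) 0
  have ha1 : (87825 / 100000 : ℝ) ≤ hn (62 / 100) := by
    unfold hn
    rw [le_div_iff₀ hN]
    nlinarith
  have ha2 : hn (62 / 100) ≤ 87833 / 100000 := by
    unfold hn
    rw [div_le_iff₀ hN]
    nlinarith
  unfold Av
  nlinarith

theorem Av_lt {τ : ℝ} (hτ : 62 / 100 ≤ τ) : 5 * Av τ < (hn τ + τ ^ 2 - 1) ^ 2 := by
  have h := XB1_barrier (f := fun t => (hn t + t ^ 2 - 1) ^ 2 - 5 * Av t)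
    (f' := fun t => 2 * (hn t + t ^ 2 - 1) * (hn t * (1 - t ^ 2 - hn t) / t + 2 * t) -
      5 * (hn t * ((hn t + t ^ 2 - 1) ^ 2 - Av t) / t)) (a := 62 / 100) ?_ ?_ ?_ τ hτ
  · linarith
  · intro t ht
    have ht0 : 0 < t := by linarith
    have h1 : HasDerivAt (fun t : ℝ => hn t + t ^ 2 - 1) (hn t * (1 - t ^ 2 - hn t) / t + 2 * t) t := by
      have := ((hasDerivAt_hn ht0).fun_add (hasDerivAt_pow 2 t)).sub_const 1
      simpa using this
    have h2 := (h1.fun_pow 2).fun_sub ((hasDerivAt_Av ht0).const_mul 5)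
    refine h2.congr_deriv ?_
    push_cast
    ring
  · have := XB1_start
    linarith
  · intro t ht h0
    have ht0 : 0 < t := by linarith
    have hd := delta_pos ht0
    have ha := hn_lt_one ht0
    have ha0 := hn_pos t
    have hA := Av_delta t
    set δ := hn t + t ^ 2 - 1 with hδ
    have e1 : Av t = δ ^ 2 / 5 := by linarith
    have e2 : hn t = 1 - t ^ 2 + δ := by rw [hδ]; ring
    have e3 : 2 * t ^ 2 - hn t * δ = Av t + 2 * δ := by rw [hA, e2]; ring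
    have e4 : 2 * δ * (hn t * (1 - t ^ 2 - hn t) / t + 2 * t) - 5 * (hn t * (δ ^ 2 - Av t) / t) =
        (2 * δ * (2 * t ^ 2 - hn t * δ) - 5 * hn t * (δ ^ 2 - Av t)) / t := by
      have : 1 - t ^ 2 - hn t = -δ := by rw [hδ]; ring
      rw [this]
      field_simp
      ring
    rw [e4]
    apply div_pos _ ht0
    rw [e3, e1]
    have h5 : 0 < δ ^ 2 * (1 - hn t) := mul_pos (by positivity) (by linarith)
    have h6 : 0 < δ ^ 3 := by positivity
    nlinarith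

end GCube
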