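import Pool.Agent.Lib.H83.CFCheck

/-!
Rational checkers of stage 4 (definitions only). Break points are in units of `1/2000`.
-/

namespace GCube

namespace TH

/-- bounds of `hn t`, `hn (√2 t)`, `ct t ^ 2`, `t > 0` -/
def aL (t : ℚ) : ℚ := CF.rd (CF.emL (t ^ 2 / 2) / CF.nmU 0 t)
def aU (t : ℚ) : ℚ := CF.ru (CF.emU (t ^ 2 / 2) / CF.nmL 0 t)
def eeL (t : ℚ) : ℚ := CF.rd (CF.nmS 0 (t ^ 2) 0 40)
def eeU (t : ℚ) : ℚ := CF.ru (CF.nmS 0 (t ^ 2) 0 41)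
def bU (t : ℚ) : ℚ := CF.ru (CF.emU (t ^ 2) / eeL t)
def cL (t : ℚ) : ℚ := CF.rd (eeL t ^ 2 / (t ^ 2 * CF.nmU 0 t ^ 4))
def cU (t : ℚ) : ℚ := CF.ru (eeU t ^ 2 / (t ^ 2 * CF.nmL 0 t ^ 4))
/-- bounds of `Av`, `Bv` -/
def AL (t : ℚ) : ℚ := 2 - (1 + t ^ 2) * aU t - aU t ^ 2
def AU (t : ℚ) : ℚ := 2 - (1 + t ^ 2) * aL t - aL t ^ 2
def BU (t : ℚ) : ℚ := 1 - 2 * aL t + bU t
def FsQ (s : ℚ) : ℚ := (1 - 3 * s) / ((1 - s) * (1 - 5 * s + s ^ 2))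
/-- lower bound of `sn n` on `[t1,t2]` -/
def sL (n : ℕ) (t1 t2 : ℚ) : ℚ := 8 * (1 - aU t1) * cL t2 / (9 * n)

/-- sanity of a point -/
def okP (t : ℚ) : Bool :=
  decide (62 / 100 ≤ t) && decide (t ≤ 14 / 10) && decide (0 < CF.nmL 0 t) && decide (0 < eeL t) &&
    decide (0 ≤ aL t) && decide (aU t ≤ 1) && decide (0 ≤ cL t) && decide (0 ≤ AL t)

/-- `Bv - κ < 8/9 ct² Av F(sn n)` on `[t1,t2]` (`n = 0`: `F` replaced by `1`) -/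
def okK (n : ℕ) (κ t1 t2 : ℚ) : Bool :=
  okP t1 && okP t2 && decide (t1 ≤ t2) &&
    (if n = 0 then decide (BU t2 - κ < 8 / 9 * (cL t1 * AL t1))
     else decide (0 ≤ sL n t1 t2) && decide (sL n t1 t2 ≤ 15 / 100) &&
      decide (BU t2 - κ < 8 / 9 * (cL t1 * AL t1) * FsQ (sL n t1 t2)))

/-- all consecutive intervals of the list (units `1/2000`) -/
def okKL (n : ℕ) (κ : ℚ) : ℕ → List ℕ → Bool
  | _, [] => true
  | t, u :: l => okK n κ (t / 2000) (u / 2000) && okKL n κ u l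

/-- side conditions on `[t1,t2]`: `sg ct² ≤ 2/5`, `(22/10) ct² Av ≤ sg` -/
def okS (t1 t2 : ℚ) : Bool :=
  okP t1 && okP t2 && decide (t1 ≤ t2) && decide ((1 - aL t2) * cU t1 ≤ 2 / 5) &&
    decide (22 / 10 * (cU t2 * AU t2) ≤ 1 - aU t1)
def okSL : ℕ → List ℕ → Bool
  | _, [] => true
  | t, u :: l => okS (t / 2000) (u / 2000) && okSL u l

end TH

end GCube
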