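import Pool.Agent.Lib.H83.ThDefs

/-!
Chunk XA3 (S/M): elementary derivatives and formulas.

`hn = τE/G` (`G = τ Nm τ 0`, `YK_G_eq`), so `hn' = hn (1/τ - τ - E/G) = hn (1 - τ² - hn)/τ`.
`EE τ = G(√2 τ)/√2`, hence `EE τ = τ Nm (√2τ) 0` and `hn(√2τ) = E(√2τ)/Nm (√2τ) 0 = τ E(τ)²/EE τ`.
`ct' = ct (E²/EE - 2E/G) = ct (hn(√2τ) - 2 hn)/τ`.
`Av_eq`: `∫_0^τ x⁴E = 3∫_0^τ x²E - τ³E`, `∫_0^τ x²E = G - τE`, so `m₄ = (3G - 3τE - τ³E)/G = 3 - 3hn - τ² hn`, and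
`Av = m₄ - (1-hn)²`. `Av_pos`: Cauchy-Schwarz (variance of `x²`): `∫_0^τ (x² - sg)² E > 0`.
`ct_sq_le`: `ct² τ² = Nm(√2τ)0²/(Nm τ 0)⁴ ≤ 1/(Nm τ 0)²` and `Nm τ 0 ≥ 1 - τ²/6 ≥ 0.673` for `τ ≤ 1.4`.
-/

open MeasureTheory Set
open scoped Real

namespace GCube

theorem XA3_Gpos {τ : ℝ} (hτ : 0 < τ) : 0 < G τ := by
  have := psi_zero_pos hτ
  rw [psi_zero_eq] at this
  linarith

theorem XA3_hn {τ : ℝ} (hτ : 0 < τ) : hn τ = τ * E τ / G τ := by
  unfold hn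
  rw [YK_G_eq]
  have := Nm_pos τ 0
  field_simp

theorem hasDerivAt_hn {τ : ℝ} (hτ : 0 < τ) : HasDerivAt hn (hn τ * (1 - τ ^ 2 - hn τ) / τ) τ := by
  have hG := XA3_Gpos hτ
  have h1 : HasDerivAt (fun t => t * E t / G t)
      (((1 * E τ + τ * (-(τ * E τ))) * G τ - τ * E τ * E τ) / G τ ^ 2) τ :=
    ((hasDerivAt_id' τ).mul (cm_hasDerivAt_E τ)).div (cm_hasDerivAt_G τ) hG.ne'
  have h2 : hn =ᶠ[nhds τ] fun t => t * E t / G t := by
    filter_upwards [eventually_gt_nhds hτ] with t ht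
    exact XA3_hn ht
  refine (h1.congr_of_eventuallyEq h2).congr_deriv ?_
  rw [XA3_hn hτ]
  field_simp
  ring

theorem EE_eq_G (τ : ℝ) : EE τ = G (Real.sqrt 2 * τ) / Real.sqrt 2 := by
  unfold EE G
  have h2 : (Real.sqrt 2) ≠ 0 := by positivity
  have hs : Real.sqrt 2 ^ 2 = 2 := Real.sq_sqrt (by norm_num)
  have h := intervalIntegral.integral_comp_mul_left (a := (0 : ℝ)) (b := τ) E h2
  rw [mul_zero, smul_eq_mul] at h
  rw [div_eq_inv_mul, ← h]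
  refine intervalIntegral.integral_congr fun u _ => ?_
  simp only [E]
  rw [mul_pow, hs]
  congr 1
  ring

theorem XA3_EEpos {τ : ℝ} (hτ : 0 < τ) : 0 < EE τ := by
  rw [EE_eq_G]
  exact div_pos (XA3_Gpos (by positivity)) (by positivity)

theorem XA3_E2 (τ : ℝ) : E (Real.sqrt 2 * τ) = E τ ^ 2 := by
  have hs : Real.sqrt 2 ^ 2 = 2 := Real.sq_sqrt (by norm_num)
  unfold E
  rw [← Real.exp_nat_mul, mul_pow, hs]
  congr 1
  push_cast
  ring

theorem hn_sqrt2 {τ : ℝ} (hτ : 0 < τ) : hn (Real.sqrt 2 * τ) = τ * E τ ^ 2 / EE τ := by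
  rw [XA3_hn (by positivity), XA3_E2, EE_eq_G]
  have h2 : (0 : ℝ) < Real.sqrt 2 := by positivity
  field_simp

theorem ct_eq {τ : ℝ} (hτ : 0 < τ) : ct τ = Nm (Real.sqrt 2 * τ) 0 / (τ * Nm τ 0 ^ 2) := by
  unfold ct
  rw [EE_eq_G, YK_G_eq (Real.sqrt 2 * τ), YK_G_eq τ]
  have h2 : (0 : ℝ) < Real.sqrt 2 := by positivity
  have := Nm_pos τ 0
  field_simp

theorem ct_pos {τ : ℝ} (hτ : 0 < τ) : 0 < ct τ :=
  div_pos (XA3_EEpos hτ) (pow_pos (XA3_Gpos hτ) 2)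

theorem hasDerivAt_ct {τ : ℝ} (hτ : 0 < τ) :
    HasDerivAt ct (ct τ * (hn (Real.sqrt 2 * τ) - 2 * hn τ) / τ) τ := by
  have hG := XA3_Gpos hτ
  have hE := XA3_EEpos hτ
  have h1 : HasDerivAt ct ((Real.exp (-(τ ^ 2)) * G τ ^ 2 - EE τ * (2 * G τ * E τ)) / (G τ ^ 2) ^ 2) τ := by
    have h0 : HasDerivAt (fun t => G t ^ 2) (2 * G τ * E τ) τ := by
      have := (cm_hasDerivAt_G τ).fun_pow 2
      simpa using this
    exact (UTwo_EE_hasDerivAt τ).fun_div h0 (pow_pos hG 2).ne'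
  refine h1.congr_deriv ?_
  rw [hn_sqrt2 hτ, XA3_hn hτ]
  have e : Real.exp (-(τ ^ 2)) = E τ ^ 2 := by
    unfold E
    rw [← Real.exp_nat_mul]
    congr 1
    push_cast
    ring
  rw [e]
  unfold ct
  field_simp

theorem sg_eq_int {τ : ℝ} (hτ : 0 < τ) : sg τ * G τ = ∫ x in (0 : ℝ)..τ, x ^ 2 * E x := by
  have h1 : ∀ x : ℝ, HasDerivAt (fun x => G x - x * E x) (x ^ 2 * E x) x := by
    intro x
    have := (cm_hasDerivAt_G x).sub ((hasDerivAt_id' x).mul (cm_hasDerivAt_E x))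
    refine this.congr_deriv ?_
    ring
  rw [intervalIntegral.integral_eq_sub_of_hasDerivAt (fun x _ => h1 x)
    (((continuous_pow 2).mul E_continuous).intervalIntegrable _ _)]
  unfold sg
  rw [XA3_hn hτ, cm_G_zero]
  have := XA3_Gpos hτ
  field_simp
  ring

theorem XA3_four {τ : ℝ} : ∫ x in (0 : ℝ)..τ, x ^ 4 * E x = 3 * (∫ x in (0 : ℝ)..τ, x ^ 2 * E x) - τ ^ 3 * E τ := by
  have h1 : ∀ x : ℝ, HasDerivAt (fun x => - (x ^ 3 * E x)) (x ^ 4 * E x - 3 * (x ^ 2 * E x)) x := by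
    intro x
    have := ((hasDerivAt_pow 3 x).mul (cm_hasDerivAt_E x)).neg
    refine this.congr_deriv ?_
    push_cast
    ring
  have hc4 : Continuous fun x => x ^ 4 * E x := (continuous_pow 4).mul E_continuous
  have hc2 : Continuous fun x => 3 * (x ^ 2 * E x) := continuous_const.mul ((continuous_pow 2).mul E_continuous)
  have h2 := intervalIntegral.integral_eq_sub_of_hasDerivAt (a := (0 : ℝ)) (b := τ) (fun x _ => h1 x)
    ((hc4.sub hc2).intervalIntegrable _ _)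
  rw [intervalIntegral.integral_sub (hc4.intervalIntegrable _ _) (hc2.intervalIntegrable _ _),
    intervalIntegral.integral_const_mul] at h2
  simp only [ne_eq, OfNat.ofNat_ne_zero, not_false_eq_true, zero_pow, zero_mul, neg_zero, sub_zero] at h2
  linarith

theorem Av_eq {τ : ℝ} (hτ : 0 < τ) : Av τ = (∫ x in (0 : ℝ)..τ, x ^ 4 * E x) / G τ - sg τ ^ 2 := by
  rw [XA3_four, ← sg_eq_int hτ]
  have hG := XA3_Gpos hτ
  have h1 : τ ^ 3 * E τ = τ ^ 2 * (hn τ * G τ) := by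
    rw [XA3_hn hτ]
    field_simp
  rw [h1]
  unfold Av sg
  field_simp
  ring

theorem Av_pos {τ : ℝ} (hτ : 0 < τ) : 0 < Av τ := by
  have hG := XA3_Gpos hτ
  have hc4 : Continuous fun x => x ^ 4 * E x := (continuous_pow 4).mul E_continuous
  have hc2 : Continuous fun x => 2 * sg τ * (x ^ 2 * E x) :=
    continuous_const.mul ((continuous_pow 2).mul E_continuous)
  have hc0 : Continuous fun x => sg τ ^ 2 * E x := continuous_const.mul E_continuous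
  have h1 : ∫ x in (0 : ℝ)..τ, (x ^ 2 - sg τ) ^ 2 * E x = G τ * Av τ := by
    have e : ∀ x : ℝ, (x ^ 2 - sg τ) ^ 2 * E x = x ^ 4 * E x - 2 * sg τ * (x ^ 2 * E x) + sg τ ^ 2 * E x := by
      intro x; ring
    simp only [e]
    have hc42 : Continuous fun x => x ^ 4 * E x - 2 * sg τ * (x ^ 2 * E x) := hc4.sub hc2
    rw [intervalIntegral.integral_add (hc42.intervalIntegrable _ _) (hc0.intervalIntegrable _ _),
      intervalIntegral.integral_sub (hc4.intervalIntegrable _ _) (hc2.intervalIntegrable _ _),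
      intervalIntegral.integral_const_mul, intervalIntegral.integral_const_mul, ← sg_eq_int hτ, Av_eq hτ]
    have : ∫ x in (0 : ℝ)..τ, E x = G τ := rfl
    rw [this]
    field_simp
    ring
  have h2 : 0 < ∫ x in (0 : ℝ)..τ, (x ^ 2 - sg τ) ^ 2 * E x := by
    have hc : Continuous fun x => (x ^ 2 - sg τ) ^ 2 * E x := by
      have := E_continuous
      fun_prop
    refine intervalIntegral.integral_pos hτ hc.continuousOn (fun x _ => mul_nonneg (sq_nonneg _) (E_pos x).le) ?_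
    refine ⟨0, ⟨le_rfl, hτ.le⟩, ?_⟩
    have h3 := sg_pos hτ
    have h4 := E_pos 0
    have h5 : (0 : ℝ) ^ 2 - sg τ ≠ 0 := by
      intro h
      rw [zero_pow two_ne_zero, zero_sub, neg_eq_zero] at h
      exact h3.ne' h
    exact mul_pos (by positivity) h4
  rw [h1] at h2
  exact (pos_iff_pos_of_mul_pos h2).1 hG

theorem ct_sq_le {τ : ℝ} (hτ : 0 < τ) (h : τ ≤ 14 / 10) : ct τ ^ 2 * τ ^ 2 ≤ 23 / 10 := by
  rw [ct_eq hτ]
  have h0 := Nm_pos τ 0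
  have h1 := Nm_pos (Real.sqrt 2 * τ) 0
  have h2 : Nm (Real.sqrt 2 * τ) 0 ≤ Nm τ 0 := by
    refine Nm_anti hτ.le ?_
    have : (1 : ℝ) ≤ Real.sqrt 2 := by
      rw [Real.one_le_sqrt]; norm_num
    nlinarith
  have h3 : 1 - τ ^ 2 / 6 ≤ Nm τ 0 := by
    unfold Nm
    have e : (1 : ℝ) - τ ^ 2 / 6 = ∫ ξ in (0 : ℝ)..1, (1 - τ ^ 2 / 2 * ξ ^ 2) := by
      rw [intervalIntegral.integral_sub ((by fun_prop : Continuous fun _ : ℝ => (1 : ℝ)).intervalIntegrable _ _)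
        ((by fun_prop : Continuous fun ξ : ℝ => τ ^ 2 / 2 * ξ ^ 2).intervalIntegrable _ _),
        intervalIntegral.integral_const_mul, integral_pow]
      simp
      ring
    rw [e]
    have hEc := E_continuous
    refine intervalIntegral.integral_mono_on zero_le_one
      ((by fun_prop : Continuous fun ξ : ℝ => (1 - τ ^ 2 / 2 * ξ ^ 2)).intervalIntegrable _ _)
      ((by fun_prop : Continuous fun ξ : ℝ => ξ ^ 0 * E (τ * ξ)).intervalIntegrable _ _) fun ξ _ => ?_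
    rw [pow_zero, one_mul]
    unfold E
    have := Real.add_one_le_exp (-((τ * ξ) ^ 2) / 2)
    nlinarith
  have h4 : (673 / 1000 : ℝ) ≤ Nm τ 0 := by
    have : τ ^ 2 ≤ (14 / 10) ^ 2 := pow_le_pow_left₀ hτ.le h 2
    linarith
  have e : (Nm (Real.sqrt 2 * τ) 0 / (τ * Nm τ 0 ^ 2)) ^ 2 * τ ^ 2 =
      (Nm (Real.sqrt 2 * τ) 0) ^ 2 / Nm τ 0 ^ 4 := by
    field_simp
  rw [e, div_le_iff₀ (by positivity)]
  have h5 : Nm (Real.sqrt 2 * τ) 0 ^ 2 ≤ Nm τ 0 ^ 2 := pow_le_pow_left₀ h1.le h2 2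
  have h6 : (673 / 1000 : ℝ) ^ 2 ≤ Nm τ 0 ^ 2 := pow_le_pow_left₀ (by norm_num) h4 2
  nlinarith [sq_nonneg (Nm τ 0)]

end GCube
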