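import Pool.Agent.Lib.H83.ThPos
import Pool.Agent.Lib.H83.ThElem

/-!
Chunk XCL (S/M): consequences of the classification.

`F0_values`: `F0 τ a` for `a = 1` on `m` coordinates, `0` elsewhere (`a = fun i : Fin n => if (i : ℕ) < m then 1 else 0`, `m ≥ 2`):
`∑ a² = m`, `∏ psi τ (a_i s) = ψ(s)^m ψ(0)^(n-m)`, `ψ(0) = 2G`: `F0 = √m In m (2G)^(n-m) = 2π (2G)^n pn m`.
Pair value (`Fin_F0_pair`): `4π (2G)^(n-2) G(τ√2) = 2π (2G)^n p2` (`EE_eq_G`).
`closure`: `b` a maximiser (`exists_IsMx`, `n ≥ 4`), of diagonal or pair type by `classify`, so `F0 b = 2π(2G)^n pn n` or `2π(2G)^n p2`. The vector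
`a` above (`3 ≤ m < n`) satisfies `F0 a ≤ F0 b`; if equality then `a` is a maximiser (`IsMx`), but `classify` excludes it (it has a zero
coordinate and three nonzero ones). So `pn m < max (pn n) p2`, and `p2 ≤ pn m` gives `pn m < pn n`.
`Fin_diag_eq`, `Fin_pair_eq`: `Fin_value_diag`, `Fin_value_pair` with `τ = t/2`.
-/

open MeasureTheory Set
open scoped Real

namespace GCube

theorem XCL_diag (n : ℕ) {τ : ℝ} (hτ : 0 < τ) :
    Real.sqrt n * (∫ s : ℝ, psi τ s ^ n) = 2 * π * (2 * G τ) ^ n * pn n τ := by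
  unfold pn In
  have hG := XA3_Gpos hτ
  have hpi := Real.pi_pos
  have hG2 : (2 * G τ) ^ n ≠ 0 := (pow_pos (by linarith) n).ne'
  field_simp

theorem XCL_pair {n : ℕ} (h2 : 2 ≤ n) {τ : ℝ} (hτ : 0 < τ) :
    4 * π * (2 * G τ) ^ (n - 2) * G (τ * Real.sqrt 2) = 2 * π * (2 * G τ) ^ n * p2 τ := by
  obtain ⟨k, rfl⟩ := Nat.exists_eq_add_of_le' h2
  rw [Nat.add_sub_cancel]
  unfold p2 ct
  rw [EE_eq_G, mul_comm τ (Real.sqrt 2), pow_add]
  have hG := XA3_Gpos hτ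
  have hs : Real.sqrt 2 ≠ 0 := by positivity
  have h4 := Real.sq_sqrt (show (0 : ℝ) ≤ 2 by norm_num)
  have e : G (Real.sqrt 2 * τ) / Real.sqrt 2 / G τ ^ 2 / Real.sqrt 2 = G (Real.sqrt 2 * τ) / (2 * G τ ^ 2) := by
    rw [div_div, div_div, div_eq_div_iff (by positivity) (by positivity)]
    have : Real.sqrt 2 * (G τ ^ 2 * Real.sqrt 2) = Real.sqrt 2 ^ 2 * G τ ^ 2 := by ring
    rw [this, h4]
  rw [e]
  field_simp
  ring

theorem XCL_sub {m n : ℕ} (hmn : m ≤ n) {τ : ℝ} (hτ : 0 < τ) :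
    F0 τ (fun i : Fin n => if (i : ℕ) < m then (1 : ℝ) else 0) = 2 * π * (2 * G τ) ^ n * pn m τ := by
  obtain ⟨r, rfl⟩ := Nat.exists_eq_add_of_le hmn
  have h1 : ∑ i : Fin (m + r), (if (i : ℕ) < m then (1 : ℝ) else 0) ^ 2 = m := by
    rw [Fin.sum_univ_eq_sum_range (fun i : ℕ => (if i < m then (1 : ℝ) else 0) ^ 2) (m + r), Finset.sum_range_add]
    have e1 : ∑ x ∈ Finset.range m, (if x < m then (1 : ℝ) else 0) ^ 2 = ∑ x ∈ Finset.range m, 1 :=
      Finset.sum_congr rfl fun x hx => by rw [if_pos (Finset.mem_range.1 hx)]; norm_num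
    have e2 : ∑ x ∈ Finset.range r, (if m + x < m then (1 : ℝ) else 0) ^ 2 = 0 :=
      Finset.sum_eq_zero fun x _ => by rw [if_neg (by omega)]; norm_num
    rw [e1, e2]
    simp
  have h2 : ∀ s : ℝ, ∏ i : Fin (m + r), psi τ ((if (i : ℕ) < m then (1 : ℝ) else 0) * s) =
      psi τ s ^ m * (2 * G τ) ^ r := by
    intro s
    rw [Fin.prod_univ_eq_prod_range (fun i : ℕ => psi τ ((if i < m then (1 : ℝ) else 0) * s)) (m + r),
      Finset.prod_range_add]
    have e1 : ∏ x ∈ Finset.range m, psi τ ((if x < m then (1 : ℝ) else 0) * s) = ∏ x ∈ Finset.range m, psi τ s :=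
      Finset.prod_congr rfl fun x hx => by rw [if_pos (Finset.mem_range.1 hx), one_mul]
    have e2 : ∏ x ∈ Finset.range r, psi τ ((if m + x < m then (1 : ℝ) else 0) * s) =
        ∏ x ∈ Finset.range r, (2 * G τ) :=
      Finset.prod_congr rfl fun x _ => by rw [if_neg (by omega), zero_mul, psi_zero_eq]
    rw [e1, e2]
    simp
  unfold F0 Phi
  rw [h1]
  simp only [h2]
  rw [integral_mul_const, ← mul_assoc, XCL_diag m hτ, pow_add]
  ring

theorem closure_lt {τ : ℝ} (hτ : 62 / 100 ≤ τ) {m n : ℕ} (h3 : 3 ≤ m) (hmn : m < n) (h : p2 τ ≤ pn m τ) :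
    pn m τ < pn n τ := by
  have hτ0 : 0 < τ := by linarith
  have hn2 : 2 ≤ n := by omega
  have hG := XA3_Gpos hτ0
  have hpi := Real.pi_pos
  have hc : 0 < 2 * π * (2 * G τ) ^ n := by
    have : 0 < (2 * G τ) ^ n := pow_pos (by linarith) n
    positivity
  obtain ⟨b, hb⟩ := exists_IsMx hτ0 hn2
  have hone : ∀ k : ℕ, ∀ hk : k < m, (fun i : Fin n => if (i : ℕ) < m then (1 : ℝ) else 0) ⟨k, by omega⟩ = 1 := by
    intro k hk
    simp [hk]
  have htz : TwoNz (fun i : Fin n => if (i : ℕ) < m then (1 : ℝ) else 0) := by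
    refine ⟨⟨0, by omega⟩, ⟨1, by omega⟩, by simp, ?_, ?_⟩
    · rw [hone 0 (by omega)]; exact one_ne_zero
    · rw [hone 1 (by omega)]; exact one_ne_zero
  have hlt : F0 τ (fun i : Fin n => if (i : ℕ) < m then (1 : ℝ) else 0) < F0 τ b := by
    refine lt_of_le_of_ne (hb.2 _ htz) fun heq => ?_
    have hm : IsMx τ (fun i : Fin n => if (i : ℕ) < m then (1 : ℝ) else 0) :=
      ⟨htz, fun d hd => (hb.2 d hd).trans heq.symm.le⟩
    rcases classify hτ hn2 hm with ⟨c, hc, h⟩ | ⟨c, hc, i, j, hij, hi, hj, hk⟩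
    · have h5 := h ⟨m, hmn⟩
      simp at h5
      linarith
    · have hz : ∀ k : ℕ, ∀ hk' : k < m, k = (i : ℕ) ∨ k = (j : ℕ) := by
        intro k hk'
        by_contra hcon
        push Not at hcon
        have h6 := hk ⟨k, by omega⟩ (fun h => hcon.1 (by rw [← h])) (fun h => hcon.2 (by rw [← h]))
        have h7 := hone k hk'
        simp only at h7
        rw [h7] at h6
        exact one_ne_zero h6
      have h0 := hz 0 (by omega)
      have h1 := hz 1 (by omega)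
      have h2 := hz 2 (by omega)
      omega
  rw [XCL_sub hmn.le hτ0] at hlt
  rcases classify hτ hn2 hb with ⟨c, hc', h'⟩ | ⟨c, hc', i, j, hij, hi, hj, hk⟩
  · rw [Fin_F0_diag hc' h', XCL_diag n hτ0] at hlt
    exact lt_of_mul_lt_mul_left hlt hc.le
  · rw [Fin_F0_pair hτ0 hc' hij hi hj hk, XCL_pair hn2 hτ0] at hlt
    have := lt_of_mul_lt_mul_left hlt hc.le
    linarith

theorem Fin_diag_eq {n : ℕ} {t : ℝ} (ht : 0 < t) : Fin_diag n t =
    (2 * π) ^ (-((n : ℝ) + 1) / 2) * (2 * π * (2 * G (t / 2)) ^ n) * pn n (t / 2) := by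
  rw [← Fin_value_diag, XCL_diag n (half_pos ht)]
  ring

theorem Fin_pair_eq {n : ℕ} (h2 : 2 ≤ n) {t : ℝ} (ht : 0 < t) : Fin_pair n t =
    (2 * π) ^ (-((n : ℝ) + 1) / 2) * (2 * π * (2 * G (t / 2)) ^ n) * p2 (t / 2) := by
  rw [← Fin_value_pair h2 ht, XCL_pair h2 (half_pos ht)]
  ring

end GCube
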