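import Pool.Agent.Lib.H83.Final
import Pool.Agent.Lib.H83.CFFar
import Pool.Agent.Lib.H83.CFMono
import Pool.Agent.Lib.H83.CFTab

/-!
Stage 4 (uniqueness of the threshold `t_n`): definitions.

`h = E/(2G)` on `[-τ,τ]` (truncated normalised Gaussian), `f_n` = density of the sum of `n` copies.
* `In n τ = ∫ ψ^n = 2π (2G)^n f_n(0)`, `J2 n τ = ∫ ψ₂ ψ^(n-1)`, `ψ₂` = cosine transform of `t² E`.
* `pn n τ = √n f_n(0)`, `p2 τ = √2 ∫ h²` : the diagonal beats the pair iff `p2 ≤ pn`.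
* `sg τ = σ² = 1 - hn τ` (variance of `h`), `hn τ = τ E/G`, `hn(√2 τ) = τ E²/EE`.
* `Av = m₄ - σ⁴` (`m₄ = ∫ x⁴ h`), `Bv = 2σ² - σ²(√2τ)`, `ct = EE/G²`, `p2² = ct²/2`.
* `Dn = nσ² - E|X|²` on the section: `τ d/dτ log (pn/p2) = Dn - Bv`.
-/

open MeasureTheory Set
open scoped Real

namespace GCube

noncomputable def In (n : ℕ) (τ : ℝ) : ℝ := ∫ s : ℝ, psi τ s ^ n
noncomputable def psi2 (τ s : ℝ) : ℝ := ∫ t in (-τ)..τ, t ^ 2 * E t * Real.cos (s * t)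
noncomputable def J2 (n : ℕ) (τ : ℝ) : ℝ := ∫ s : ℝ, psi2 τ s * psi τ s ^ (n - 1)
noncomputable def pn (n : ℕ) (τ : ℝ) : ℝ := Real.sqrt n * In n τ / (2 * π * (2 * G τ) ^ n)
noncomputable def ct (τ : ℝ) : ℝ := EE τ / G τ ^ 2
noncomputable def p2 (τ : ℝ) : ℝ := ct τ / Real.sqrt 2
noncomputable def Av (τ : ℝ) : ℝ := 2 - (1 + τ ^ 2) * hn τ - hn τ ^ 2
noncomputable def Bv (τ : ℝ) : ℝ := 1 - 2 * hn τ + hn (Real.sqrt 2 * τ)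
noncomputable def Dn (n : ℕ) (τ : ℝ) : ℝ := n * (sg τ - J2 n τ / In n τ)
noncomputable def sn (n : ℕ) (τ : ℝ) : ℝ := 8 * sg τ * ct τ ^ 2 / (9 * n)
noncomputable def Fs (s : ℝ) : ℝ := (1 - 3 * s) / ((1 - s) * (1 - 5 * s + s ^ 2))
/-- lower bound of `Dn` -/
noncomputable def Kn (n : ℕ) (τ : ℝ) : ℝ := 8 / 9 * (ct τ ^ 2 * Av τ) * Fs (sn n τ)

/-- clamp to `[-τ, τ]` -/
noncomputable def cl (τ x : ℝ) : ℝ := max (-τ) (min τ x)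
/-- primitive of `φ 1_{[-τ,τ]}` -/
noncomputable def Phi1 (τ : ℝ) (φ : ℝ → ℝ) (x : ℝ) : ℝ := ∫ t in (0 : ℝ)..cl τ x, φ t
noncomputable def fv (τ t : ℝ) : ℝ := (sg τ - t ^ 2) * E t
/-- the odd test function of the dual bound -/
noncomputable def qf (τ R γ x : ℝ) : ℝ :=
  Phi1 τ (fv τ) x + 2 * γ * G τ / R * x - 2 * γ * Phi1 τ E x

/-- `√3 r₃(0) - 4 √2 EE G`, `r₃(0) = In 3/(2π)`: has the sign of `pn 3 - p2` -/
noncomputable def W3 (τ : ℝ) : ℝ := Real.sqrt 3 * (In 3 τ / (2 * π)) - 4 * Real.sqrt 2 * (EE τ * G τ)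
noncomputable def b3 (τ : ℝ) : ℝ :=
  3 * Real.sqrt 3 * (Real.exp (-(τ ^ 2) / 4) * EE (τ / 2)) - Real.sqrt 2 * (E τ * G τ + EE τ)

end GCube
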