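import Pool.Agent.Lib.H83.ThDefs

/-!
Chunk XA1 (M/L): derivative of `In` in `τ`.

`∂_τ ψ(τ,s) = 2 E(τ) cos(sτ)`, so `In' = ∫ n ψ^(n-1) 2 E(τ) cos(sτ) ds` (`hasDerivAt_integral_of_dominated_loc_of_deriv_le`;
`|ψ| ≤ 3`, `|s ψ| ≤ 2` for all `τ > 0`). Integrating `(t E(t) cos(st))'` over `[-τ,τ]`:
`2 τ E(τ) cos(sτ) = ψ - ψ₂ - s² χ = ψ - ψ₂ + s ψ'(s)`; multiply by `n ψ^(n-1)` and integrate, `∫ s (ψ^n)' = - ∫ ψ^n`:
`τ In' = n In - n J2 - In`.
-/

open MeasureTheory Set
open scoped Real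

namespace GCube

theorem XA1_ident (τ s : ℝ) :
    2 * τ * E τ * Real.cos (s * τ) = psi τ s - psi2 τ s - s ^ 2 * chi τ s := by
  have hE := E_continuous
  have hs := psi_chi_integrand_cont s
  have hd : ∀ t ∈ uIcc (-τ) τ, HasDerivAt (fun t => t * E t * Real.cos (s * t))
      (E t * Real.cos (s * t) - t ^ 2 * E t * Real.cos (s * t) - s ^ 2 * (t ^ 2 * E t * Real.sinc (s * t))) t := by
    intro t _
    have h1 : HasDerivAt (fun t => t * E t) (1 * E t + t * (-(t * E t))) t :=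
      (hasDerivAt_id' t).mul (psi_hasDerivAt_E t)
    have h2 : HasDerivAt (fun t => Real.cos (s * t)) (-Real.sin (s * t) * s) t :=
      (((hasDerivAt_id' t).const_mul s).cos).congr_deriv (by ring)
    refine (h1.mul h2).congr_deriv ?_
    rw [← psi_mul_sinc (s * t)]
    ring
  have hc1 : Continuous fun t => E t * Real.cos (s * t) := by fun_prop
  have hc2 : Continuous fun t => t ^ 2 * E t * Real.cos (s * t) := by fun_prop
  have hi : IntervalIntegrable (fun t => E t * Real.cos (s * t) - t ^ 2 * E t * Real.cos (s * t) -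
      s ^ 2 * (t ^ 2 * E t * Real.sinc (s * t))) volume (-τ) τ :=
    ((hc1.sub hc2).sub (hs.const_mul _)).intervalIntegrable _ _
  have h := intervalIntegral.integral_eq_sub_of_hasDerivAt hd hi
  have hc12 : Continuous fun t => E t * Real.cos (s * t) - t ^ 2 * E t * Real.cos (s * t) := hc1.sub hc2
  rw [intervalIntegral.integral_sub (hc12.intervalIntegrable _ _)
    ((hs.const_mul _).intervalIntegrable _ _), intervalIntegral.integral_sub (hc1.intervalIntegrable _ _)
    (hc2.intervalIntegrable _ _), intervalIntegral.integral_const_mul, E_neg, mul_neg, Real.cos_neg] at h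
  unfold psi psi2 chi
  linarith

theorem XA1_psi_tau (s τ : ℝ) : HasDerivAt (fun τ => psi τ s) (2 * E τ * Real.cos (s * τ)) τ := by
  have hc := psi_integrand_cont s
  have e : (fun τ => psi τ s) = fun τ => 2 * ∫ t in (0 : ℝ)..τ, E t * Real.cos (s * t) := by
    funext x
    unfold psi
    exact psi_symm_even hc (fun t => by rw [E_neg, mul_neg, Real.cos_neg]) x
  rw [e]
  have h := (hc.integral_hasStrictDerivAt 0 τ).hasDerivAt.const_mul 2
  exact h.congr_deriv (by ring)

theorem XA1_G_le {τ : ℝ} (hτ : 0 < τ) : G τ ≤ 12534 / 10000 := by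
  have h1 := LA1_G_eq hτ.le
  have h2 := LA1_tail_nonneg τ
  have h3 := LA1_sqrt.2
  linarith

theorem XA1_abs {τ : ℝ} (hτ : 0 < τ) (s : ℝ) : |psi τ s| ≤ 3 := by
  have h1 := abs_psi_le hτ s
  rw [psi_zero_eq] at h1
  have h2 := XA1_G_le hτ
  linarith

theorem XA1_sabs {τ : ℝ} (hτ : 0 < τ) (s : ℝ) : |s * psi τ s| ≤ 2 := by
  rcases eq_or_ne s 0 with rfl | hs
  · simp
  · have h := abs_psi_le_inv hτ hs
    have hs' : 0 < |s| := abs_pos.2 hs
    rw [le_div_iff₀ hs'] at h
    rw [abs_mul]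
    linarith

theorem XA1_pow {τ : ℝ} (hτ : 0 < τ) (k : ℕ) (s : ℝ) : |psi τ s| ^ (k + 2) ≤ 3 ^ k * 13 * (1 + s ^ 2)⁻¹ := by
  have h3 := XA1_abs hτ s
  have h4 : s ^ 2 * psi τ s ^ 2 ≤ 4 := by
    have h5 := pow_le_pow_left₀ (abs_nonneg _) (XA1_sabs hτ s) 2
    rw [sq_abs, mul_pow] at h5
    linarith
  have h5 : psi τ s ^ 2 ≤ 9 := by
    have h := pow_le_pow_left₀ (abs_nonneg _) h3 2
    rw [sq_abs] at h
    linarith
  have hpos : 0 < 1 + s ^ 2 := by positivity
  rw [← div_eq_mul_inv, le_div_iff₀ hpos]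
  have e : |psi τ s| ^ (k + 2) * (1 + s ^ 2) = |psi τ s| ^ k * (psi τ s ^ 2 + s ^ 2 * psi τ s ^ 2) := by
    have h := sq_abs (psi τ s)
    rw [← h]
    ring
  rw [e]
  exact mul_le_mul (pow_le_pow_left₀ (abs_nonneg _) h3 k) (by linarith) (by positivity) (by positivity)

theorem XA1_pow_int {τ : ℝ} (hτ : 0 < τ) (k : ℕ) : Integrable fun s : ℝ => psi τ s ^ (k + 2) := by
  refine (integrable_inv_one_add_sq.const_mul (3 ^ k * 13)).mono' ((psi_continuous τ).pow _).aestronglyMeasurable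
    (Filter.Eventually.of_forall fun s => ?_)
  rw [Real.norm_eq_abs, abs_pow]
  exact XA1_pow hτ k s

theorem XA1_raw (k : ℕ) {τ : ℝ} (hτ : 0 < τ) :
    HasDerivAt (In (k + 3)) (∫ s : ℝ, ((k : ℝ) + 3) * psi τ s ^ (k + 2) * (2 * E τ * Real.cos (s * τ))) τ := by
  have hE := E_continuous
  have key := hasDerivAt_integral_of_dominated_loc_of_deriv_le
    (μ := volume) (x₀ := τ) (s := Ioi (0 : ℝ))
    (F := fun τ s => psi τ s ^ (k + 3))
    (F' := fun τ s => ((k : ℝ) + 3) * psi τ s ^ (k + 2) * (2 * E τ * Real.cos (s * τ)))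
    (bound := fun s => ((k : ℝ) + 3) * (3 ^ k * 13 * (1 + s ^ 2)⁻¹) * 2) (Ioi_mem_nhds hτ)
    (Filter.Eventually.of_forall fun x => ((psi_continuous x).pow _).aestronglyMeasurable)
    (XA1_pow_int hτ (k + 1))
    (by
      have h1 := psi_continuous τ
      exact Continuous.aestronglyMeasurable (by fun_prop))
    (by
      refine Filter.Eventually.of_forall fun s x hx => ?_
      have hk : (0 : ℝ) ≤ (k : ℝ) + 3 := by positivity
      rw [norm_mul, norm_mul, norm_pow, Real.norm_eq_abs, Real.norm_eq_abs, Real.norm_eq_abs, abs_of_nonneg hk]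
      have h1 := XA1_pow hx k s
      have h2 : |2 * E x * Real.cos (s * x)| ≤ 2 := by
        rw [abs_mul, abs_mul, abs_of_pos (E_pos x), abs_of_pos (by norm_num : (0 : ℝ) < 2)]
        have h3 := Real.abs_cos_le_one (s * x)
        have h4 := psi_E_le_one x
        have h5 := E_pos x
        have h6 : E x * |Real.cos (s * x)| ≤ 1 * 1 := mul_le_mul h4 h3 (abs_nonneg _) (by norm_num)
        linarith
      exact mul_le_mul (mul_le_mul_of_nonneg_left h1 hk) h2 (abs_nonneg _) (by positivity))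
    (((integrable_inv_one_add_sq.const_mul (3 ^ k * 13)).const_mul ((k : ℝ) + 3)).mul_const 2)
    (by
      refine Filter.Eventually.of_forall fun s x hx => ?_
      have h := (XA1_psi_tau s x).pow (k + 3)
      refine h.congr_deriv ?_
      push_cast
      ring)
  exact key.2

theorem XA1_psi2_cont (τ : ℝ) : Continuous (psi2 τ) := by
  have hE := E_continuous
  unfold psi2
  apply intervalIntegral.continuous_parametric_intervalIntegral_of_continuous'
  unfold Function.uncurry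
  fun_prop

theorem XA1_psi2_le {τ : ℝ} (hτ : 0 < τ) (s : ℝ) : |psi2 τ s| ≤ ∫ t in (-τ)..τ, t ^ 2 * E t := by
  have hE := E_continuous
  unfold psi2
  refine (intervalIntegral.abs_integral_le_integral_abs (by linarith)).trans ?_
  refine intervalIntegral.integral_mono_on (by linarith) ?_ ?_ fun t _ => ?_
  · exact (by fun_prop : Continuous fun t => |t ^ 2 * E t * Real.cos (s * t)|).intervalIntegrable _ _
  · exact (by fun_prop : Continuous fun t => t ^ 2 * E t).intervalIntegrable _ _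
  · have h1 : 0 ≤ t ^ 2 * E t := mul_nonneg (sq_nonneg t) (E_pos t).le
    rw [abs_mul, abs_of_nonneg h1]
    exact mul_le_of_le_one_right h1 (Real.abs_cos_le_one _)

theorem XA1_J_int {τ : ℝ} (hτ : 0 < τ) (k : ℕ) : Integrable fun s : ℝ => psi2 τ s * psi τ s ^ (k + 2) := by
  refine (XA1_pow_int hτ k).bdd_mul (c := ∫ t in (-τ)..τ, t ^ 2 * E t)
    (XA1_psi2_cont τ).aestronglyMeasurable (Filter.Eventually.of_forall fun s => ?_)
  rw [Real.norm_eq_abs]
  exact XA1_psi2_le hτ s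

theorem XA1_C_int {τ : ℝ} (hτ : 0 < τ) (k : ℕ) :
    Integrable fun s : ℝ => (2 * τ * E τ * Real.cos (s * τ)) * psi τ s ^ (k + 2) := by
  refine (XA1_pow_int hτ k).bdd_mul (c := 2 * τ * E τ)
    (Continuous.aestronglyMeasurable (by fun_prop)) (Filter.Eventually.of_forall fun s => ?_)
  have h : 0 ≤ 2 * τ * E τ := by
    have := E_pos τ
    positivity
  rw [Real.norm_eq_abs, abs_mul, abs_of_nonneg h]
  exact mul_le_of_le_one_right h (Real.abs_cos_le_one _)

theorem XA1_chi_int {τ : ℝ} (hτ : 0 < τ) (k : ℕ) :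
    Integrable fun s : ℝ => s * (((k : ℝ) + 3) * psi τ s ^ (k + 2) * (-(s * chi τ s))) := by
  have h := (((XA1_C_int hτ k).sub (XA1_pow_int hτ (k + 1))).add (XA1_J_int hτ k)).const_mul ((k : ℝ) + 3)
  refine h.congr (Filter.Eventually.of_forall fun s => ?_)
  simp only [Pi.add_apply, Pi.sub_apply]
  rw [XA1_ident τ s]
  ring

theorem XA1_parts {τ : ℝ} (hτ : 0 < τ) (k : ℕ) :
    ∫ s : ℝ, s * (((k : ℝ) + 3) * psi τ s ^ (k + 2) * (-(s * chi τ s))) = - In (k + 3) τ := by
  have h := integral_mul_deriv_eq_deriv_mul_of_integrable (u := fun s : ℝ => s) (v := fun s : ℝ => psi τ s ^ (k + 3))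
    (u' := fun _ => 1) (v' := fun s => ((k : ℝ) + 3) * psi τ s ^ (k + 2) * (-(s * chi τ s)))
    (fun x _ => hasDerivAt_id' x)
    (fun x _ => ((hasDerivAt_psi τ x).pow (k + 3)).congr_deriv (by push_cast; ring))
    (XA1_chi_int hτ k)
    (by
      have h1 := XA1_pow_int hτ (k + 1)
      refine h1.congr (Filter.Eventually.of_forall fun s => ?_)
      simp [Pi.mul_apply])
    (by
      have h1 : Integrable fun s : ℝ => (s * psi τ s) * psi τ s ^ (k + 2) := by
        have hc := psi_continuous τ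
        refine (XA1_pow_int hτ k).bdd_mul (c := 2)
          (Continuous.aestronglyMeasurable (by fun_prop)) (Filter.Eventually.of_forall fun s => ?_)
        rw [Real.norm_eq_abs]
        exact XA1_sabs hτ s
      refine h1.congr (Filter.Eventually.of_forall fun s => ?_)
      simp only [Pi.mul_apply]
      ring)
  rw [h]
  simp [In]

theorem hasDerivAt_In {n : ℕ} (h3 : 3 ≤ n) {τ : ℝ} (hτ : 0 < τ) :
    HasDerivAt (In n) (((n - 1) * In n τ - n * J2 n τ) / τ) τ := by
  obtain ⟨k, rfl⟩ := Nat.exists_eq_add_of_le' h3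
  refine (XA1_raw k hτ).congr_deriv ?_
  rw [eq_div_iff hτ.ne', ← integral_mul_const]
  have e : ∀ s : ℝ, ((k : ℝ) + 3) * psi τ s ^ (k + 2) * (2 * E τ * Real.cos (s * τ)) * τ =
      ((k : ℝ) + 3) * psi τ s ^ (k + 3) - ((k : ℝ) + 3) * (psi2 τ s * psi τ s ^ (k + 2)) +
        s * (((k : ℝ) + 3) * psi τ s ^ (k + 2) * (-(s * chi τ s))) := by
    intro s
    have h := XA1_ident τ s
    have : ((k : ℝ) + 3) * psi τ s ^ (k + 2) * (2 * E τ * Real.cos (s * τ)) * τ =
      ((k : ℝ) + 3) * psi τ s ^ (k + 2) * (2 * τ * E τ * Real.cos (s * τ)) := by ring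
    rw [this, h]
    ring
  simp only [e]
  have i1 : Integrable fun s : ℝ => ((k : ℝ) + 3) * psi τ s ^ (k + 3) := (XA1_pow_int hτ (k + 1)).const_mul _
  have i2 : Integrable fun s : ℝ => ((k : ℝ) + 3) * (psi2 τ s * psi τ s ^ (k + 2)) := (XA1_J_int hτ k).const_mul _
  have i3 : Integrable fun s : ℝ => ((k : ℝ) + 3) * psi τ s ^ (k + 3) -
      ((k : ℝ) + 3) * (psi2 τ s * psi τ s ^ (k + 2)) := i1.sub i2
  rw [integral_add i3 (XA1_chi_int hτ k), integral_sub i1 i2, integral_const_mul,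
    integral_const_mul, XA1_parts hτ k]
  unfold In J2
  rw [show k + 3 - 1 = k + 2 from rfl]
  push_cast
  ring

end GCube
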