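import Pool.Agent.Lib.H83.ThElem
import Pool.Agent.Lib.H83.ThCheck

/-!
Chunk XN1 (S/M): soundness of the point bounds.

`t > 0` rational. `hn t = E t/Nm t 0`, `CF.emL_le`, `CF.le_emU` (`w = t²/2`), `CF.nmL_le`, `CF.le_nmU`, `rd q ≤ q ≤ ru q`
(`cpr_rd` and its negative). `Nm (√2 t) 0 = ∫_0^1 exp(-t²ξ²) dξ`, between `nmS 0 (t²) 0 40` and `nmS 0 (t²) 0 41` (same proof as
`EEL_le`, `cpr_nm_int`, `cpr_em_ps`, `AIneq.ps_le_exp`). `hn(√2 t) = exp(-t²)/Nm (√2 t) 0`. `ct t ² = Nm(√2t)0²/(t² Nm t 0 ⁴)` (`ct_eq`).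
`Av`: decreasing in `hn ≥ 0`.
-/

open MeasureTheory Set
open scoped Real

namespace GCube

theorem XN1_ok {t : ℚ} (h : TH.okP t = true) : 62 / 100 ≤ t ∧ t ≤ 14 / 10 ∧ 0 < CF.nmL 0 t ∧ 0 < TH.eeL t ∧
    0 ≤ TH.aL t ∧ TH.aU t ≤ 1 ∧ 0 ≤ TH.cL t ∧ 0 ≤ TH.AL t := by
  unfold TH.okP at h
  simp only [Bool.and_eq_true, decide_eq_true_eq] at h
  obtain ⟨⟨⟨⟨⟨⟨⟨h1, h2⟩, h3⟩, h4⟩, h5⟩, h6⟩, h7⟩, h8⟩ := h
  exact ⟨h1, h2, h3, h4, h5, h6, h7, h8⟩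

theorem TH_hn {t : ℚ} (h : TH.okP t = true) : ((TH.aL t : ℚ) : ℝ) ≤ hn t ∧ hn t ≤ ((TH.aU t : ℚ) : ℝ) := by
  obtain ⟨h1, _, h3, _, _, _, _, _⟩ := XN1_ok h
  have ht : 0 ≤ t := by linarith
  have hN := Nm_pos (t : ℝ) 0
  have hNL : ((CF.nmL 0 t : ℚ) : ℝ) ≤ Nm t 0 := CF.nmL_le 0 ht
  have hNU : Nm t 0 ≤ ((CF.nmU 0 t : ℚ) : ℝ) := CF.le_nmU 0 ht
  have hEL := @ct2_emL t
  have hEU := @ct2_emU t
  have h3' : (0 : ℝ) < ((CF.nmL 0 t : ℚ) : ℝ) := by exact_mod_cast h3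
  constructor
  · unfold TH.aL hn
    refine (CF.cpr_rd _).trans ?_
    push_cast
    have hU0 : (0 : ℝ) < ((CF.nmU 0 t : ℚ) : ℝ) := hN.trans_le hNU
    calc ((CF.emL (t ^ 2 / 2) : ℚ) : ℝ) / ((CF.nmU 0 t : ℚ) : ℝ) ≤ E t / ((CF.nmU 0 t : ℚ) : ℝ) :=
          div_le_div_of_nonneg_right hEL hU0.le
      _ ≤ E t / Nm t 0 := div_le_div_of_nonneg_left (E_pos _).le hN hNU
  · unfold TH.aU hn
    refine le_trans ?_ (CF.cpr_ru _)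
    push_cast
    calc E t / Nm t 0 ≤ E t / ((CF.nmL 0 t : ℚ) : ℝ) := div_le_div_of_nonneg_left (E_pos _).le h3' hNL
      _ ≤ ((CF.emU (t ^ 2 / 2) : ℚ) : ℝ) / ((CF.nmL 0 t : ℚ) : ℝ) := div_le_div_of_nonneg_right hEU h3'.le

theorem XN1_sqrt (x : ℝ) : Nm (Real.sqrt 2 * x) 0 = ∫ ξ in (0 : ℝ)..1, Real.exp (-(x ^ 2 * ξ ^ 2)) := by
  have hs : Real.sqrt 2 ^ 2 = 2 := Real.sq_sqrt (by norm_num)
  unfold Nm
  refine intervalIntegral.integral_congr fun ξ _ => ?_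
  simp only [pow_zero, one_mul, E]
  rw [mul_pow, mul_pow, hs]
  congr 1
  ring

theorem TH_ee {t : ℚ} (_ht : 0 < t) : ((TH.eeL t : ℚ) : ℝ) ≤ Nm (Real.sqrt 2 * t) 0 ∧
    Nm (Real.sqrt 2 * t) 0 ≤ ((TH.eeU t : ℚ) : ℝ) := by
  rw [XN1_sqrt]
  have hc : ∀ cnt, Continuous (fun ξ : ℝ => CF.cprEm (((t ^ 2 : ℚ) : ℝ) * ξ ^ 2) 0 cnt) := fun cnt =>
    (CF.cprEm_cont cnt 0).comp (by fun_prop : Continuous (fun ξ : ℝ => ((t ^ 2 : ℚ) : ℝ) * ξ ^ 2))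
  have hI : ∀ cnt, ((CF.nmS 0 (t ^ 2) 0 cnt : ℚ) : ℝ) = ∫ ξ in (0 : ℝ)..1, CF.cprEm (((t ^ 2 : ℚ) : ℝ) * ξ ^ 2) 0 cnt := by
    intro cnt
    rw [CF.cpr_nm_int]
    simp
  constructor
  · unfold TH.eeL
    refine (CF.cpr_rd _).trans ?_
    rw [hI]
    refine intervalIntegral.integral_mono_on zero_le_one ((hc 40).intervalIntegrable _ _)
      ((by fun_prop : Continuous fun ξ : ℝ => Real.exp (-((t : ℝ) ^ 2 * ξ ^ 2))).intervalIntegrable _ _) fun ξ _ => ?_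
    rw [CF.cpr_em_ps]
    push_cast
    exact AIneq.ps_le_exp (by decide) (by positivity)
  · unfold TH.eeU
    refine le_trans ?_ (CF.cpr_ru _)
    rw [hI]
    refine intervalIntegral.integral_mono_on zero_le_one
      ((by fun_prop : Continuous fun ξ : ℝ => Real.exp (-((t : ℝ) ^ 2 * ξ ^ 2))).intervalIntegrable _ _)
      ((hc 41).intervalIntegrable _ _) fun ξ _ => ?_
    rw [CF.cpr_em_ps]
    push_cast
    exact AIneq.exp_le_ps (by decide) (by positivity)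

theorem TH_hn2 {t : ℚ} (h : TH.okP t = true) : hn (Real.sqrt 2 * t) ≤ ((TH.bU t : ℚ) : ℝ) := by
  obtain ⟨h1, _, _, h4, _, _, _, _⟩ := XN1_ok h
  have ht : 0 < t := by linarith
  obtain ⟨hL, _⟩ := TH_ee ht
  have h4' : (0 : ℝ) < ((TH.eeL t : ℚ) : ℝ) := by exact_mod_cast h4
  have hE : E (Real.sqrt 2 * t) ≤ ((CF.emU (t ^ 2) : ℚ) : ℝ) := by
    have h := CF.le_emU (w := t ^ 2) (by positivity)
    rw [XA3_E2]
    refine le_trans (le_of_eq ?_) h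
    unfold E
    rw [← Real.exp_nat_mul]
    congr 1
    push_cast
    ring
  unfold TH.bU hn
  refine le_trans ?_ (CF.cpr_ru _)
  push_cast
  calc E (Real.sqrt 2 * t) / Nm (Real.sqrt 2 * t) 0 ≤ E (Real.sqrt 2 * t) / ((TH.eeL t : ℚ) : ℝ) :=
        div_le_div_of_nonneg_left (E_pos _).le h4' hL
    _ ≤ ((CF.emU (t ^ 2) : ℚ) : ℝ) / ((TH.eeL t : ℚ) : ℝ) := div_le_div_of_nonneg_right hE h4'.le

theorem TH_ct {t : ℚ} (h : TH.okP t = true) : ((TH.cL t : ℚ) : ℝ) ≤ ct t ^ 2 ∧ ct t ^ 2 ≤ ((TH.cU t : ℚ) : ℝ) := by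
  obtain ⟨h1, _, h3, h4, _, _, _, _⟩ := XN1_ok h
  have ht : 0 < t := by linarith
  have ht' : (0 : ℝ) < t := by exact_mod_cast ht
  obtain ⟨hL, hU⟩ := TH_ee ht
  have h3' : (0 : ℝ) < ((CF.nmL 0 t : ℚ) : ℝ) := by exact_mod_cast h3
  have h4' : (0 : ℝ) < ((TH.eeL t : ℚ) : ℝ) := by exact_mod_cast h4
  have hNL : ((CF.nmL 0 t : ℚ) : ℝ) ≤ Nm t 0 := CF.nmL_le 0 ht.le
  have hNU : Nm t 0 ≤ ((CF.nmU 0 t : ℚ) : ℝ) := CF.le_nmU 0 ht.le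
  have hN := Nm_pos (t : ℝ) 0
  have hN2 := Nm_pos (Real.sqrt 2 * t) 0
  have hU0 : (0 : ℝ) < ((CF.nmU 0 t : ℚ) : ℝ) := hN.trans_le hNU
  have e : ct t ^ 2 = Nm (Real.sqrt 2 * t) 0 ^ 2 / ((t : ℝ) ^ 2 * Nm t 0 ^ 4) := by
    rw [ct_eq ht', div_pow, mul_pow]
    congr 2
    ring
  rw [e]
  constructor
  · unfold TH.cL
    refine (CF.cpr_rd _).trans ?_
    push_cast
    gcongr
  · unfold TH.cU
    refine le_trans ?_ (CF.cpr_ru _)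
    push_cast
    gcongr

theorem TH_Av {t : ℚ} (h : TH.okP t = true) : ((TH.AL t : ℚ) : ℝ) ≤ Av t ∧ Av t ≤ ((TH.AU t : ℚ) : ℝ) := by
  obtain ⟨_, _, _, _, h5, _, _, _⟩ := XN1_ok h
  obtain ⟨hL, hU⟩ := TH_hn h
  have h5' : (0 : ℝ) ≤ ((TH.aL t : ℚ) : ℝ) := by exact_mod_cast h5
  have ht2 : (0 : ℝ) ≤ 1 + (t : ℝ) ^ 2 := by positivity
  constructor
  · unfold TH.AL Av
    push_cast
    have a1 := mul_le_mul_of_nonneg_left hU ht2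
    have a2 := pow_le_pow_left₀ (h5'.trans hL) hU 2
    linarith
  · unfold TH.AU Av
    push_cast
    have a1 := mul_le_mul_of_nonneg_left hL ht2
    have a2 := pow_le_pow_left₀ h5' hL 2
    linarith

theorem TH_Bv {t : ℚ} (h : TH.okP t = true) : Bv t ≤ ((TH.BU t : ℚ) : ℝ) := by
  have h1 := (TH_hn h).1
  have h2 := TH_hn2 h
  unfold TH.BU Bv
  push_cast
  linarith

end GCube
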