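import Pool.Agent.Lib.H83.ThMono
import Pool.Agent.Lib.H83.ThNumA

/-!
Chunk XN2 (M): soundness of the interval checks and the tables.

`Fs s = (1-3s)/(1-6s+6s²-s³)`: `Fs s ≤ Fs t` for `0 ≤ s ≤ t ≤ 0.15`: cross multiplied,
`(1-3t)(1-6s+6s²-s³) - (1-3s)(1-6t+6t²-t³) = (t-s) [3 - 6(s+t) + ... ]`; or by the derivative, numerator `3 - 12s + 21s² - 6s³ > 0`.
`Fs 0 = 1`.
`okSL_sound`: on `[t1,t2]`: `sg τ ≤ sg t2 ≤ 1 - aL t2`, `ct τ ≤ ct t1` (`ct_anti`), so `sg ct² ≤ 2/5`;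
`ct² Av (τ) ≤ ct² Av (t2) ≤ cU AU` (`c2A_mono`), `sg τ ≥ sg t1 ≥ 1 - aU t1`.
`okK_sound`: `Bv τ ≤ Bv t2 ≤ BU t2` (`Bv_mono`), `ct² Av (τ) ≥ ct² Av (t1) ≥ cL t1 AL t1 ≥ 0` (`c2A_mono`),
`sn m τ ≥ sn n τ ≥ sL n t1 t2` (`sg τ ≥ 1 - aU t1`, `ct τ² ≥ ct t2² ≥ cL t2`), `sn m τ ≤ 0.15` (`side1`), `Fs_mono` / `1 ≤ Fs`.
The lists are in units of `1/2000`: `1240 = 0.62`, `1960 = 0.98`, `2080 = 1.04`, `2140 = 1.07`, `2200 = 1.10`, `2290 = 1.145`,
`2340 = 1.17`, `2440 = 1.22`, `2600 = 1.30`, `2800 = 1.40`. Each table is `by decide +kernel` (1 s each, checked):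
`okSL 1240 [1360, 1500, 1660, 1840, 2040, 2240, 2480, 2800]`
`okKL 0 0 1240 [1506, 1685, 1799, 1871, 1915, 1941, 1960]`, `okKL 7 0 1960 [2025, 2066, 2080]`,
`okKL 6 0 2080 [2112, 2133, 2140]`, `okKL 5 0 2140 [2168, 2185, 2196, 2200]`,
`okKL 4 0 2200 [2234, 2256, 2271, 2281, 2287, 2290]`, `okKL 3 0 2290 [2345, 2383, 2410, 2428, 2440]`,
`okKL 5 (7/1000) 2140 [2200, 2238, 2261, 2276, 2286, 2290]`, `okKL 4 (55/10000) 2290 [2315, 2332, 2340]`,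
`okKL 4 (2/100) 2340 [2403, 2440]`, `okKL 4 (4/100) 2440 [2536, 2600]`, `okKL 4 (7/100) 2600 [2725, 2800]`.
-/

open MeasureTheory Set
open scoped Real

namespace GCube

theorem XN2_D {s : ℝ} (h0 : 0 ≤ s) (h2 : s ≤ 15 / 100) : 0 < (1 - s) * (1 - 5 * s + s ^ 2) :=
  mul_pos (by linarith) (by nlinarith)

theorem Fs_mono {s t : ℝ} (h0 : 0 ≤ s) (h1 : s ≤ t) (h2 : t ≤ 15 / 100) : Fs s ≤ Fs t := by
  have hs := XN2_D h0 (h1.trans h2)
  have ht := XN2_D (h0.trans h1) h2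
  unfold Fs
  rw [div_le_div_iff₀ hs ht]
  have e : (1 - 3 * t) * ((1 - s) * (1 - 5 * s + s ^ 2)) - (1 - 3 * s) * ((1 - t) * (1 - 5 * t + t ^ 2)) =
      (t - s) * (3 - 6 * (s + t) + (t ^ 2 + 19 * (t * s) + s ^ 2) - 3 * (t * s * (t + s))) := by ring
  have h3 : 0 ≤ t := h0.trans h1
  have h4 : s ≤ 15 / 100 := h1.trans h2
  have h5 : 0 ≤ t * s := mul_nonneg h3 h0
  have h6 : t * s * (t + s) ≤ t * s * 1 := mul_le_mul_of_nonneg_left (by linarith) h5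
  have h7 : 0 ≤ (t - s) * (3 - 6 * (s + t) + (t ^ 2 + 19 * (t * s) + s ^ 2) - 3 * (t * s * (t + s))) := by
    refine mul_nonneg (by linarith) ?_
    have := sq_nonneg t
    have := sq_nonneg s
    linarith
  linarith

theorem XN2_Fs_zero : Fs 0 = 1 := by
  unfold Fs
  norm_num

theorem XN2_S1 {t1 t2 : ℚ} (h : TH.okS t1 t2 = true) {τ : ℝ} (h1 : (t1 : ℝ) ≤ τ) (h2 : τ ≤ t2) :
    sg τ * ct τ ^ 2 ≤ 2 / 5 ∧ 22 / 10 * (ct τ ^ 2 * Av τ) ≤ sg τ := by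
  unfold TH.okS at h
  simp only [Bool.and_eq_true, decide_eq_true_eq] at h
  obtain ⟨⟨⟨⟨hp1, hp2⟩, _⟩, hc1⟩, hc2⟩ := h
  obtain ⟨k1, _, _, _, _, k6, _, _⟩ := XN1_ok hp1
  obtain ⟨_, _, _, _, _, _, _, l8⟩ := XN1_ok hp2
  have k1' : (62 / 100 : ℝ) ≤ t1 := by
    have := (Rat.cast_le (K := ℝ)).mpr k1
    push_cast at this
    exact this
  have ht1 : (0 : ℝ) < t1 := by linarith
  have hτ : 0 < τ := ht1.trans_le h1
  obtain ⟨_, aU1⟩ := TH_hn hp1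
  obtain ⟨aL2, aU2⟩ := TH_hn hp2
  obtain ⟨_, cU1⟩ := TH_ct hp1
  obtain ⟨_, cU2⟩ := TH_ct hp2
  obtain ⟨AL2, AU2⟩ := TH_Av hp2
  have hc1' : (1 - ((TH.aL t2 : ℚ) : ℝ)) * ((TH.cU t1 : ℚ) : ℝ) ≤ 2 / 5 := by
    have := (Rat.cast_le (K := ℝ)).mpr hc1
    push_cast at this
    exact this
  have hc2' : 22 / 10 * (((TH.cU t2 : ℚ) : ℝ) * ((TH.AU t2 : ℚ) : ℝ)) ≤ 1 - ((TH.aU t1 : ℚ) : ℝ) := by
    have := (Rat.cast_le (K := ℝ)).mpr hc2
    push_cast at this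
    exact this
  have hct : ct τ ^ 2 ≤ ct t1 ^ 2 := pow_le_pow_left₀ (ct_pos hτ).le (ct_anti ht1 h1) 2
  constructor
  · have hsg : sg τ ≤ 1 - ((TH.aL t2 : ℚ) : ℝ) := by
      refine (sg_mono hτ.le h2).trans ?_
      unfold sg
      linarith
    have h0 : 0 ≤ 1 - ((TH.aL t2 : ℚ) : ℝ) := (sg_pos hτ).le.trans hsg
    calc sg τ * ct τ ^ 2 ≤ (1 - ((TH.aL t2 : ℚ) : ℝ)) * ((TH.cU t1 : ℚ) : ℝ) :=
          mul_le_mul hsg (hct.trans cU1) (sq_nonneg _) h0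
      _ ≤ 2 / 5 := hc1'
  · have hm := c2A_mono (show τ ∈ Ici (62 / 100 : ℝ) from k1'.trans h1)
      (show (t2 : ℝ) ∈ Ici (62 / 100 : ℝ) from (k1'.trans h1).trans h2) h2
    simp only at hm
    have hsg : 1 - ((TH.aU t1 : ℚ) : ℝ) ≤ sg τ := by
      refine le_trans ?_ (sg_mono ht1.le h1)
      unfold sg
      linarith
    have hA2 : 0 < Av (t2 : ℝ) := Av_pos (hτ.trans_le h2)
    have h3 : ct (t2 : ℝ) ^ 2 * Av t2 ≤ ((TH.cU t2 : ℚ) : ℝ) * ((TH.AU t2 : ℚ) : ℝ) :=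
      mul_le_mul cU2 AU2 hA2.le ((sq_nonneg _).trans cU2)
    linarith

theorem okSL_sound {t : ℕ} {l : List ℕ} (h : TH.okSL t l = true) {τ : ℝ} (h0 : l ≠ [] ∨ (t : ℝ) / 2000 < τ)
    (h1 : (t : ℝ) / 2000 ≤ τ) (h2 : τ ≤ ((l.getLastD t : ℕ) : ℝ) / 2000) :
    sg τ * ct τ ^ 2 ≤ 2 / 5 ∧ 22 / 10 * (ct τ ^ 2 * Av τ) ≤ sg τ := by
  induction l generalizing t with
  | nil =>
    rcases h0 with h0 | h0
    · exact absurd rfl h0
    · simp only [List.getLastD_nil] at h2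
      linarith
  | cons u l ih =>
    unfold TH.okSL at h
    rw [Bool.and_eq_true] at h
    obtain ⟨ha, hb⟩ := h
    rcases le_or_gt τ ((u : ℝ) / 2000) with h3 | h3
    · refine XN2_S1 ha ?_ ?_
      · push_cast
        exact h1
      · push_cast
        exact h3
    · refine ih hb (Or.inr h3) h3.le ?_
      rw [List.getLastD_cons] at h2
      exact h2

theorem XN2_tabS : TH.okSL 1240 [1360, 1500, 1660, 1840, 2040, 2240, 2480, 2800] = true := by decide +kernel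

theorem side1 {τ : ℝ} (h1 : 62 / 100 ≤ τ) (h2 : τ ≤ 14 / 10) : sg τ * ct τ ^ 2 ≤ 2 / 5 := by
  refine (okSL_sound XN2_tabS (Or.inl (by simp)) ?_ ?_).1
  · push_cast
    linarith
  · simp only [List.getLastD_cons, List.getLastD_nil]
    push_cast
    linarith

theorem side2 {τ : ℝ} (h1 : 62 / 100 ≤ τ) (h2 : τ ≤ 14 / 10) : 22 / 10 * (ct τ ^ 2 * Av τ) ≤ sg τ := by
  refine (okSL_sound XN2_tabS (Or.inl (by simp)) ?_ ?_).2
  · push_cast
    linarith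
  · simp only [List.getLastD_cons, List.getLastD_nil]
    push_cast
    linarith

theorem XN2_K1 {n : ℕ} {κ t1 t2 : ℚ} (h : TH.okK n κ t1 t2 = true) {m : ℕ} (h3 : 3 ≤ m)
    (hm : n = 0 ∨ m ≤ n) {τ : ℝ} (h1 : (t1 : ℝ) ≤ τ) (h2 : τ ≤ t2) : Bv τ - κ < Kn m τ := by
  unfold TH.okK at h
  simp only [Bool.and_eq_true, decide_eq_true_eq] at h
  obtain ⟨⟨⟨hp1, hp2⟩, _⟩, hc⟩ := h
  obtain ⟨k1, _, _, _, _, k6, k7, k8⟩ := XN1_ok hp1
  obtain ⟨_, l2, _, _, _, _, l7, _⟩ := XN1_ok hp2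
  have k1' : (62 / 100 : ℝ) ≤ t1 := by
    have := (Rat.cast_le (K := ℝ)).mpr k1
    push_cast at this
    exact this
  have l2' : (t2 : ℝ) ≤ 14 / 10 := by
    have := (Rat.cast_le (K := ℝ)).mpr l2
    push_cast at this
    exact this
  have ht1 : (0 : ℝ) < t1 := by linarith
  have hτ : 0 < τ := ht1.trans_le h1
  have hB : Bv τ ≤ ((TH.BU t2 : ℚ) : ℝ) := (Bv_mono (show τ ∈ Ici (62 / 100 : ℝ) from k1'.trans h1)
    (show (t2 : ℝ) ∈ Ici (62 / 100 : ℝ) from (k1'.trans h1).trans h2) h2).trans (TH_Bv hp2)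
  have hcA := c2A_mono (show (t1 : ℝ) ∈ Ici (62 / 100 : ℝ) from k1')
    (show τ ∈ Ici (62 / 100 : ℝ) from k1'.trans h1) h1
  simp only at hcA
  have k7' : (0 : ℝ) ≤ ((TH.cL t1 : ℚ) : ℝ) := by exact_mod_cast k7
  have k8' : (0 : ℝ) ≤ ((TH.AL t1 : ℚ) : ℝ) := by exact_mod_cast k8
  have l7' : (0 : ℝ) ≤ ((TH.cL t2 : ℚ) : ℝ) := by exact_mod_cast l7
  obtain ⟨_, aU1⟩ := TH_hn hp1
  obtain ⟨cL1, _⟩ := TH_ct hp1
  obtain ⟨cL2, _⟩ := TH_ct hp2
  obtain ⟨AL1, _⟩ := TH_Av hp1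
  have hX : ((TH.cL t1 : ℚ) : ℝ) * ((TH.AL t1 : ℚ) : ℝ) ≤ ct τ ^ 2 * Av τ :=
    (mul_le_mul cL1 AL1 k8' (sq_nonneg _)).trans hcA
  have hX0 : 0 ≤ ((TH.cL t1 : ℚ) : ℝ) * ((TH.AL t1 : ℚ) : ℝ) := mul_nonneg k7' k8'
  have hs1 := side1 (k1'.trans h1) (h2.trans l2')
  have hsg0 := (sg_pos hτ).le
  have hm3 : (3 : ℝ) ≤ m := by exact_mod_cast h3
  have hsn0 : 0 ≤ sn m τ := by
    unfold sn
    positivity
  have hsn1 : sn m τ ≤ 15 / 100 := by
    unfold sn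
    rw [div_le_iff₀ (by linarith)]
    nlinarith
  unfold Kn
  by_cases hn : n = 0
  · rw [if_pos hn, decide_eq_true_eq] at hc
    have hc' := (Rat.cast_lt (K := ℝ)).mpr hc
    push_cast at hc'
    have hF : 1 ≤ Fs (sn m τ) := by
      rw [← XN2_Fs_zero]
      exact Fs_mono le_rfl hsn0 hsn1
    have h5 : ct τ ^ 2 * Av τ * 1 ≤ ct τ ^ 2 * Av τ * Fs (sn m τ) :=
      mul_le_mul_of_nonneg_left hF (hX0.trans hX)
    nlinarith
  · have hmn : m ≤ n := hm.resolve_left hn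
    rw [if_neg hn] at hc
    simp only [Bool.and_eq_true, decide_eq_true_eq] at hc
    obtain ⟨⟨hs0, hs15⟩, hc⟩ := hc
    have hc' := (Rat.cast_lt (K := ℝ)).mpr hc
    push_cast at hc'
    have hs0' : (0 : ℝ) ≤ ((TH.sL n t1 t2 : ℚ) : ℝ) := by exact_mod_cast hs0
    have e : ((TH.FsQ (TH.sL n t1 t2) : ℚ) : ℝ) = Fs ((TH.sL n t1 t2 : ℚ) : ℝ) := by
      unfold TH.FsQ Fs
      push_cast
      rfl
    rw [e] at hc'
    have hle : ((TH.sL n t1 t2 : ℚ) : ℝ) ≤ sn m τ := by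
      unfold TH.sL sn
      push_cast
      have hk : (0 : ℝ) ≤ 1 - ((TH.aU t1 : ℚ) : ℝ) := by
        have : ((TH.aU t1 : ℚ) : ℝ) ≤ 1 := by exact_mod_cast k6
        linarith
      have hsg : 1 - ((TH.aU t1 : ℚ) : ℝ) ≤ sg τ := by
        refine le_trans ?_ (sg_mono ht1.le h1)
        unfold sg
        linarith
      have hct : ((TH.cL t2 : ℚ) : ℝ) ≤ ct τ ^ 2 :=
        cL2.trans (pow_le_pow_left₀ (ct_pos (hτ.trans_le h2)).le (ct_anti hτ h2) 2)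
      have hmn' : (m : ℝ) ≤ n := by exact_mod_cast hmn
      have h9 : 8 * (1 - ((TH.aU t1 : ℚ) : ℝ)) * ((TH.cL t2 : ℚ) : ℝ) ≤ 8 * sg τ * ct τ ^ 2 :=
        mul_le_mul (by linarith) hct l7' (by positivity)
      refine div_le_div₀ (by positivity) h9 (by linarith) (by linarith)
    have hF : Fs ((TH.sL n t1 t2 : ℚ) : ℝ) ≤ Fs (sn m τ) := Fs_mono hs0' hle hsn1
    have hF0 : 0 ≤ Fs ((TH.sL n t1 t2 : ℚ) : ℝ) := by
      have := Fs_mono le_rfl hs0' (hle.trans hsn1)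
      rw [XN2_Fs_zero] at this
      linarith
    have h5 : ((TH.cL t1 : ℚ) : ℝ) * ((TH.AL t1 : ℚ) : ℝ) * Fs ((TH.sL n t1 t2 : ℚ) : ℝ) ≤
        ct τ ^ 2 * Av τ * Fs (sn m τ) := mul_le_mul hX hF hF0 (hX0.trans hX)
    nlinarith

theorem okKL_sound {n : ℕ} {κ : ℚ} {t : ℕ} {l : List ℕ} (h : TH.okKL n κ t l = true) {m : ℕ} (h3 : 3 ≤ m)
    (hm : n = 0 ∨ m ≤ n) {τ : ℝ} (h0 : l ≠ [] ∨ (t : ℝ) / 2000 < τ) (h1 : (t : ℝ) / 2000 ≤ τ)
    (h2 : τ ≤ ((l.getLastD t : ℕ) : ℝ) / 2000) :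
    Bv τ - κ < Kn m τ := by
  induction l generalizing t with
  | nil =>
    rcases h0 with h0 | h0
    · exact absurd rfl h0
    · simp only [List.getLastD_nil] at h2
      linarith
  | cons u l ih =>
    unfold TH.okKL at h
    rw [Bool.and_eq_true] at h
    obtain ⟨ha, hb⟩ := h
    rcases le_or_gt τ ((u : ℝ) / 2000) with h4 | h4
    · refine XN2_K1 ha h3 hm ?_ ?_
      · push_cast
        exact h1
      · push_cast
        exact h4
    · refine ih hb (Or.inr h4) h4.le ?_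
      rw [List.getLastD_cons] at h2
      exact h2

theorem XN2_t0 : TH.okKL 0 0 1240 [1506, 1685, 1799, 1871, 1915, 1941, 1960] = true := by decide +kernel
theorem XN2_t7 : TH.okKL 7 0 1960 [2025, 2066, 2080] = true := by decide +kernel
theorem XN2_t6 : TH.okKL 6 0 2080 [2112, 2133, 2140] = true := by decide +kernel
theorem XN2_t5 : TH.okKL 5 0 2140 [2168, 2185, 2196, 2200] = true := by decide +kernel
theorem XN2_t4 : TH.okKL 4 0 2200 [2234, 2256, 2271, 2281, 2287, 2290] = true := by decide +kernel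
theorem XN2_t3 : TH.okKL 3 0 2290 [2345, 2383, 2410, 2428, 2440] = true := by decide +kernel
theorem XN2_t5k : TH.okKL 5 (7/1000) 2140 [2200, 2238, 2261, 2276, 2286, 2290] = true := by decide +kernel
theorem XN2_t4a : TH.okKL 4 (55/10000) 2290 [2315, 2332, 2340] = true := by decide +kernel
theorem XN2_t4b : TH.okKL 4 (2/100) 2340 [2403, 2440] = true := by decide +kernel
theorem XN2_t4c : TH.okKL 4 (4/100) 2440 [2536, 2600] = true := by decide +kernel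
theorem XN2_t4d : TH.okKL 4 (7/100) 2600 [2725, 2800] = true := by decide +kernel

theorem tab0 {m : ℕ} (h3 : 3 ≤ m) {τ : ℝ} (h1 : 62 / 100 ≤ τ) (h2 : τ ≤ 98 / 100) : Bv τ < Kn m τ := by
  have := okKL_sound XN2_t0 h3 (Or.inl rfl) (Or.inl (by simp)) (τ := τ) (by push_cast; linarith)
    (by simp only [List.getLastD_cons, List.getLastD_nil]; push_cast; linarith)
  push_cast at this
  linarith
theorem tab7 {m : ℕ} (h3 : 3 ≤ m) (h7 : m ≤ 7) {τ : ℝ} (h1 : 98 / 100 ≤ τ) (h2 : τ ≤ 104 / 100) :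
    Bv τ < Kn m τ := by
  have := okKL_sound XN2_t7 h3 (Or.inr h7) (Or.inl (by simp)) (τ := τ) (by push_cast; linarith)
    (by simp only [List.getLastD_cons, List.getLastD_nil]; push_cast; linarith)
  push_cast at this
  linarith
theorem tab6 {m : ℕ} (h3 : 3 ≤ m) (h6 : m ≤ 6) {τ : ℝ} (h1 : 104 / 100 ≤ τ) (h2 : τ ≤ 107 / 100) :
    Bv τ < Kn m τ := by
  have := okKL_sound XN2_t6 h3 (Or.inr h6) (Or.inl (by simp)) (τ := τ) (by push_cast; linarith)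
    (by simp only [List.getLastD_cons, List.getLastD_nil]; push_cast; linarith)
  push_cast at this
  linarith
theorem tab5 {m : ℕ} (h3 : 3 ≤ m) (h5 : m ≤ 5) {τ : ℝ} (h1 : 107 / 100 ≤ τ) (h2 : τ ≤ 11 / 10) :
    Bv τ < Kn m τ := by
  have := okKL_sound XN2_t5 h3 (Or.inr h5) (Or.inl (by simp)) (τ := τ) (by push_cast; linarith)
    (by simp only [List.getLastD_cons, List.getLastD_nil]; push_cast; linarith)
  push_cast at this
  linarith
theorem tab4 {m : ℕ} (h3 : 3 ≤ m) (h4 : m ≤ 4) {τ : ℝ} (h1 : 11 / 10 ≤ τ) (h2 : τ ≤ 1145 / 1000) :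
    Bv τ < Kn m τ := by
  have := okKL_sound XN2_t4 h3 (Or.inr h4) (Or.inl (by simp)) (τ := τ) (by push_cast; linarith)
    (by simp only [List.getLastD_cons, List.getLastD_nil]; push_cast; linarith)
  push_cast at this
  linarith
theorem tab3 {τ : ℝ} (h1 : 1145 / 1000 ≤ τ) (h2 : τ ≤ 122 / 100) : Bv τ < Kn 3 τ := by
  have := okKL_sound XN2_t3 (m := 3) le_rfl (Or.inr le_rfl) (Or.inl (by simp)) (τ := τ) (by push_cast; linarith)
    (by simp only [List.getLastD_cons, List.getLastD_nil]; push_cast; linarith)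
  push_cast at this
  linarith
theorem tab5k {τ : ℝ} (h1 : 107 / 100 ≤ τ) (h2 : τ ≤ 1145 / 1000) : Bv τ - 7 / 1000 < Kn 5 τ := by
  have := okKL_sound XN2_t5k (m := 5) (by norm_num) (Or.inr le_rfl) (Or.inl (by simp)) (τ := τ)
    (by push_cast; linarith) (by simp only [List.getLastD_cons, List.getLastD_nil]; push_cast; linarith)
  push_cast at this
  linarith
theorem tab4a {τ : ℝ} (h1 : 1145 / 1000 ≤ τ) (h2 : τ ≤ 117 / 100) : Bv τ - 55 / 10000 < Kn 4 τ := by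
  have := okKL_sound XN2_t4a (m := 4) (by norm_num) (Or.inr le_rfl) (Or.inl (by simp)) (τ := τ)
    (by push_cast; linarith) (by simp only [List.getLastD_cons, List.getLastD_nil]; push_cast; linarith)
  push_cast at this
  linarith
theorem tab4b {τ : ℝ} (h1 : 117 / 100 ≤ τ) (h2 : τ ≤ 122 / 100) : Bv τ - 2 / 100 < Kn 4 τ := by
  have := okKL_sound XN2_t4b (m := 4) (by norm_num) (Or.inr le_rfl) (Or.inl (by simp)) (τ := τ)
    (by push_cast; linarith) (by simp only [List.getLastD_cons, List.getLastD_nil]; push_cast; linarith)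
  push_cast at this
  linarith
theorem tab4c {τ : ℝ} (h1 : 122 / 100 ≤ τ) (h2 : τ ≤ 13 / 10) : Bv τ - 4 / 100 < Kn 4 τ := by
  have := okKL_sound XN2_t4c (m := 4) (by norm_num) (Or.inr le_rfl) (Or.inl (by simp)) (τ := τ)
    (by push_cast; linarith) (by simp only [List.getLastD_cons, List.getLastD_nil]; push_cast; linarith)
  push_cast at this
  linarith
theorem tab4d {τ : ℝ} (h1 : 13 / 10 ≤ τ) (h2 : τ ≤ 14 / 10) : Bv τ - 7 / 100 < Kn 4 τ := by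
  have := okKL_sound XN2_t4d (m := 4) (by norm_num) (Or.inr le_rfl) (Or.inl (by simp)) (τ := τ)
    (by push_cast; linarith) (by simp only [List.getLastD_cons, List.getLastD_nil]; push_cast; linarith)
  push_cast at this
  linarith

end GCube
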