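import Pool.Agent.Lib.H83.ThDefs

/-!
Chunk XA2 (S/M): positivity of `In` and the formulas with `Pn`.

`In_pos`: `In n τ = 2π Yl τ (replicate (n-2) 1) (rX τ) 0` by `inv_Yl_rho` (with `a = b = 1`, `rho_one`); `rX ≥ 0` is continuous
and positive near `0`, and `Yop τ 1` preserves `continuous, ≥ 0 everywhere, > 0 on a neighbourhood of 0`.
`In_eq_Pn`: `psi_eq_Pn` and the substitution `u = τ s` (`Measure.integral_comp_mul_left`), `psi_zero_eq`.
`pn_eq_Pn`: from `In_eq_Pn`.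
-/

open MeasureTheory Set
open scoped Real

namespace GCube

theorem XA2_rX_nonneg (τ v : ℝ) : 0 ≤ rX τ v := by
  unfold rX
  split_ifs with h
  · have h1 : 0 ≤ EE (τ - |v| / 2) := by
      unfold EE
      exact intervalIntegral.integral_nonneg (by linarith) fun u _ => (Real.exp_pos _).le
    positivity
  · exact le_rfl

theorem XA2_Yop {τ : ℝ} (hτ : 0 < τ) {f : ℝ → ℝ} (hf : Continuous f) (h0 : ∀ x, 0 ≤ f x) (hp : 0 < f 0) :
    Continuous (Yop τ 1 f) ∧ (∀ x, 0 ≤ Yop τ 1 f x) ∧ 0 < Yop τ 1 f 0 := by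
  refine ⟨RegionA_Yop_continuous τ 1 hf, fun x => ?_, ?_⟩
  · unfold Yop
    exact intervalIntegral.integral_nonneg (by linarith) fun u _ => mul_nonneg (E_pos _).le (h0 _)
  · unfold Yop
    have hE := E_continuous
    refine intervalIntegral.integral_pos (by linarith) ?_ (fun u _ => mul_nonneg (E_pos _).le (h0 _)) ?_
    · exact Continuous.continuousOn (by fun_prop)
    · refine ⟨0, ⟨by linarith, hτ.le⟩, mul_pos (E_pos _) ?_⟩
      simpa using hp

theorem XA2_Yl {τ : ℝ} (hτ : 0 < τ) (k : ℕ) :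
    Continuous (Yl τ (List.replicate k 1) (rX τ)) ∧ (∀ x, 0 ≤ Yl τ (List.replicate k 1) (rX τ) x) ∧
      0 < Yl τ (List.replicate k 1) (rX τ) 0 := by
  induction k with
  | zero =>
      refine ⟨RegionA_rX_continuous hτ, XA2_rX_nonneg τ, ?_⟩
      change 0 < rX τ 0
      rw [RegionA_rX_zero hτ]
      have := RegionA_EE_pos hτ
      linarith
  | succ k ih =>
      have e : Yl τ (List.replicate (k + 1) 1) (rX τ) = Yop τ 1 (Yl τ (List.replicate k 1) (rX τ)) := by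
        rw [List.replicate_succ]; rfl
      rw [e]
      exact XA2_Yop hτ ih.1 ih.2.1 ih.2.2

theorem In_pos {n : ℕ} (h2 : 2 ≤ n) {τ : ℝ} (hτ : 0 < τ) : 0 < In n τ := by
  obtain ⟨k, rfl⟩ := Nat.exists_eq_add_of_le' h2
  have h := (XA2_Yl hτ k).2.2
  have h0 : rho τ 1 1 = rX τ := funext fun x => rho_one hτ x
  rw [← h0, inv_Yl_rho hτ one_pos one_pos] at h
  have e : ∀ s : ℝ, psi τ (1 * s) * psi τ (1 * s) * psiProd τ (List.replicate k 1) s * Real.cos (s * 0) =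
      psi τ s ^ (k + 2) := by
    intro s
    unfold psiProd
    rw [List.map_replicate, List.prod_replicate, one_mul, mul_zero, Real.cos_zero]
    ring
  simp only [e] at h
  have hpi := Real.pi_pos
  unfold In
  by_contra hc
  push Not at hc
  have : 1 / (2 * π) * ∫ s : ℝ, psi τ s ^ (k + 2) ≤ 0 :=
    mul_nonpos_of_nonneg_of_nonpos (by positivity) hc
  linarith

theorem XA2_psi {τ : ℝ} (hτ : 0 < τ) (s : ℝ) : psi τ s = 2 * G τ * Pn τ (τ * s) := by
  rw [psi_eq_Pn hτ, psi_zero_eq]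

theorem XA2_Gpos {τ : ℝ} (hτ : 0 < τ) : 0 < G τ := by
  have h := psi_zero_pos hτ
  rw [psi_zero_eq] at h
  linarith

theorem In_eq_Pn (n : ℕ) {τ : ℝ} (hτ : 0 < τ) : In n τ = (2 * G τ) ^ n / τ * ∫ u : ℝ, Pn τ u ^ n := by
  unfold In
  have e : ∀ s : ℝ, psi τ s ^ n = (2 * G τ) ^ n * (Pn τ (τ * s)) ^ n := by
    intro s
    rw [XA2_psi hτ, mul_pow]
  simp only [e]
  rw [integral_const_mul, Measure.integral_comp_mul_left (fun u => Pn τ u ^ n) τ, abs_of_pos (inv_pos.2 hτ), smul_eq_mul]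
  field_simp

theorem pn_eq_Pn (n : ℕ) {τ : ℝ} (hτ : 0 < τ) :
    pn n τ = Real.sqrt n / (2 * π * τ) * ∫ u : ℝ, Pn τ u ^ n := by
  unfold pn
  rw [In_eq_Pn n hτ]
  have hG := XA2_Gpos hτ
  have hpi := Real.pi_pos
  have hG2 : (2 * G τ) ^ n ≠ 0 := (pow_pos (by linarith) n).ne'
  field_simp

theorem pn_pos {n : ℕ} (h2 : 2 ≤ n) {τ : ℝ} (hτ : 0 < τ) : 0 < pn n τ := by
  unfold pn
  have hI := In_pos h2 hτ
  have hG := XA2_Gpos hτ
  have hn : 0 < Real.sqrt n := Real.sqrt_pos.2 (by exact_mod_cast (by omega : 0 < n))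
  have hpi := Real.pi_pos
  have hG2 : 0 < (2 * G τ) ^ n := pow_pos (by linarith) n
  positivity

theorem pn_abs_int {n : ℕ} (h2 : 2 ≤ n) {τ : ℝ} (hτ : 0 < τ) : Integrable (fun u : ℝ => Pn τ u ^ n) := by
  have h := Phi_integrable hτ (n := n) (a := fun _ => 1)
    ⟨⟨0, by omega⟩, ⟨1, by omega⟩, by simp, one_ne_zero, one_ne_zero⟩
  simp only [one_mul, Finset.prod_const, Finset.card_univ, Fintype.card_fin] at h
  have h2 := (h.comp_mul_left' (inv_ne_zero hτ.ne')).const_mul (((2 * G τ) ^ n)⁻¹)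
  refine h2.congr (Filter.Eventually.of_forall fun u => ?_)
  have hG := XA2_Gpos hτ
  have hG2 : (2 * G τ) ^ n ≠ 0 := (pow_pos (by linarith) n).ne'
  simp only
  rw [XA2_psi hτ, mul_inv_cancel_left₀ hτ.ne', mul_pow _ (Pn τ u), inv_mul_cancel_left₀ hG2]

end GCube
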