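import Pool.Agent.Lib.H83.ThQe
import Pool.Agent.Lib.H83.ThNumB
import Pool.Agent.Lib.H83.ThPos

/-!
Chunk XD (S/M): `Kn n τ ≤ Dn n τ` where `p2 ≤ pn n`.

Put `ρ = 3√n/(4 p2)`, so `ρ² = 9n/(8 ct²)`; `s = sn n τ = sg/ρ² = 8 sg ct²/(9n) ≤ 8·(2/5)/27 < 0.1186` (`side1`, `n ≥ 3`);
`R = ρ (1 - s)`; `R² - 3 sg = ρ² ((1-s)² - 3s) = ρ² (1 - 5s + s²) ≥ (27/(8ct²))·0.421 ≥ 1.42/ct²`;
`γ = (3/2) Av/(R² - 3 sg)`, so `2γ ≤ 2.12 ct² Av ≤ sg` (`side2`), `γ > 0` (`Av_pos`).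
`R ≥ τ`: `R² ≥ (27/(8ct²))(0.8814)² ≥ 2.6/ct² ≥ τ²` (`ct_sq_le`). So `QH τ R γ`.
`dual_raw` divided by `In n > 0` : `sg - J2/In > γ (2 - 2π(2G)^n/(R In))`, and `2π(2G)^n/In = √n/pn ≤ √n/p2 = 4ρ/3`. So
`Dn ≥ n γ (2 - 4/(3(1-s))) = n γ (2/3)(1 - 3s)/(1 - s) = (8/9) ct² Av (1-3s)/((1-s)(1-5s+s²)) = Kn`
(`n γ = (3/2) n Av · 8ct²/(9n(1-5s+s²))`).
-/

open MeasureTheory Set
open scoped Real

namespace GCube

theorem Kn_le_Dn {n : ℕ} (h3 : 3 ≤ n) {τ : ℝ} (h1 : 62 / 100 ≤ τ) (h2 : τ ≤ 14 / 10) (hp : p2 τ ≤ pn n τ) :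
    Kn n τ ≤ Dn n τ := by
  have hτ : 0 < τ := by linarith
  have hn3 : (3 : ℝ) ≤ n := by exact_mod_cast h3
  have hn0 : (0 : ℝ) < n := by linarith
  have hc := ct_pos hτ
  have hsg := sg_pos hτ
  have hA := Av_pos hτ
  have hs1 := side1 h1 h2
  have hs2 := side2 h1 h2
  have hct := ct_sq_le hτ h2
  have hI := In_pos (n := n) (by omega) hτ
  have hG := XA3_Gpos hτ
  have hπ := Real.pi_pos
  set c := ct τ with hcdef
  set s := sn n τ with hsdef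
  have hs_eq : s * (9 * n) = 8 * sg τ * c ^ 2 := by
    rw [hsdef]; unfold sn; rw [← hcdef]; field_simp
  have hs0 : 0 < s := by
    by_contra h
    push Not at h
    have : 0 < 8 * sg τ * c ^ 2 := by positivity
    rw [← hs_eq] at this
    nlinarith
  have hsle : s ≤ 16 / 135 := by
    have h5 : s * (9 * n) ≤ 8 * (2 / 5) := by rw [hs_eq]; nlinarith
    nlinarith
  -- the radius
  set ρ := 3 * Real.sqrt n / (4 * p2 τ) with hρ
  have hsq2 : (0 : ℝ) < Real.sqrt 2 := by positivity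
  have hsq2' : Real.sqrt 2 ^ 2 = 2 := Real.sq_sqrt (by norm_num)
  have hsqn : (0 : ℝ) < Real.sqrt n := Real.sqrt_pos.mpr hn0
  have hsqn' : Real.sqrt n ^ 2 = n := Real.sq_sqrt hn0.le
  have hp2 : 0 < p2 τ := div_pos hc hsq2
  have hp2sq : p2 τ ^ 2 = c ^ 2 / 2 := by
    unfold p2; rw [div_pow, hsq2']
  have hρ0 : 0 < ρ := by positivity
  have hρ2 : ρ ^ 2 * (8 * c ^ 2) = 9 * n := by
    rw [hρ, div_pow, mul_pow, mul_pow, hsqn', hp2sq]
    field_simp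
    ring
  have hsρ : s * ρ ^ 2 = sg τ := by
    have : s * ρ ^ 2 * (8 * c ^ 2) = sg τ * (8 * c ^ 2) := by
      calc s * ρ ^ 2 * (8 * c ^ 2) = s * (ρ ^ 2 * (8 * c ^ 2)) := by ring
        _ = s * (9 * n) := by rw [hρ2]
        _ = sg τ * (8 * c ^ 2) := by rw [hs_eq]; ring
    exact mul_right_cancel₀ (by positivity) this
  set q := 1 - 5 * s + s ^ 2 with hq
  have hq0 : 421 / 1000 ≤ q := by rw [hq]; nlinarith
  set R := ρ * (1 - s) with hR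
  have h1s : 0 < 1 - s := by linarith
  have hR0 : 0 < R := mul_pos hρ0 h1s
  have hRq : R ^ 2 - 3 * sg τ = ρ ^ 2 * q := by
    rw [hR, hq, ← hsρ]; ring
  have hRq0 : 0 < ρ ^ 2 * q := by positivity
  set γ := 3 / 2 * Av τ / (ρ ^ 2 * q) with hγ
  have hγ0 : 0 < γ := by positivity
  have hρc : 27 ≤ ρ ^ 2 * (8 * c ^ 2) := by rw [hρ2]; linarith
  have hQH : QH τ R γ := by
    refine ⟨hτ, by nlinarith, ?_, hγ0, ?_, ?_⟩
    · -- τ ≤ R
      apply (pow_le_pow_iff_left₀ hτ.le hR0.le two_ne_zero).mp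
      have h5 : τ ^ 2 * c ^ 2 ≤ R ^ 2 * c ^ 2 := by
        have h6 : R ^ 2 * c ^ 2 = (ρ ^ 2 * (8 * c ^ 2)) * (1 - s) ^ 2 / 8 := by rw [hR]; ring
        rw [h6]
        have h7 : (88 / 100 : ℝ) ^ 2 ≤ (1 - s) ^ 2 := pow_le_pow_left₀ (by norm_num) (by linarith) 2
        nlinarith
      exact le_of_mul_le_mul_right h5 (by positivity)
    · -- 2γ ≤ sg
      have h5 : 2 * γ = 3 * Av τ / (ρ ^ 2 * q) := by rw [hγ]; ring
      rw [h5, div_le_iff₀ hRq0]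
      have h6 : 0 < c ^ 2 := by positivity
      have h7 : 3 * Av τ * c ^ 2 ≤ sg τ * (ρ ^ 2 * q) * c ^ 2 := by
        have h8 : 27 / 8 * (421 / 1000) ≤ (ρ ^ 2 * c ^ 2) * q := by
          have : 27 / 8 ≤ ρ ^ 2 * c ^ 2 := by linarith
          nlinarith
        calc 3 * Av τ * c ^ 2 ≤ 3 * (10 / 22 * sg τ) := by nlinarith
          _ ≤ sg τ * (27 / 8 * (421 / 1000)) := by nlinarith
          _ ≤ sg τ * ((ρ ^ 2 * c ^ 2) * q) := mul_le_mul_of_nonneg_left h8 hsg.le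
          _ = sg τ * (ρ ^ 2 * q) * c ^ 2 := by ring
      exact le_of_mul_le_mul_right h7 h6
    · rw [hRq, hγ]; field_simp
  have hraw := dual_raw hQH h3
  -- the bound for 2π(2G)^n / In
  have hpn : 2 * π * (2 * G τ) ^ n / In n τ ≤ 4 * ρ / 3 := by
    have h5 : 4 * ρ / 3 = Real.sqrt n / p2 τ := by
      rw [hρ]; field_simp
    have h6 : 2 * π * (2 * G τ) ^ n / In n τ = Real.sqrt n / pn n τ := by
      unfold pn
      field_simp
    rw [h5, h6]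
    exact div_le_div_of_nonneg_left hsqn.le hp2 hp
  have hD : γ * (2 - 4 / (3 * (1 - s))) ≤ sg τ - J2 n τ / In n τ := by
    have h5 : γ * (2 - (2 * π * (2 * G τ) ^ n / In n τ) / R) ≤ sg τ - J2 n τ / In n τ := by
      have h6 : γ * (2 - (2 * π * (2 * G τ) ^ n / In n τ) / R) =
          (γ * (2 * In n τ - 2 * π * (2 * G τ) ^ n / R)) / In n τ := by
        field_simp
      have h7 : sg τ - J2 n τ / In n τ = (sg τ * In n τ - J2 n τ) / In n τ := by field_simp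
      rw [h6, h7]
      exact div_le_div_of_nonneg_right hraw.le hI.le
    refine le_trans (mul_le_mul_of_nonneg_left ?_ hγ0.le) h5
    have h8 : (2 * π * (2 * G τ) ^ n / In n τ) / R ≤ 4 / (3 * (1 - s)) := by
      rw [div_le_div_iff₀ hR0 (by positivity)]
      calc 2 * π * (2 * G τ) ^ n / In n τ * (3 * (1 - s)) ≤ 4 * ρ / 3 * (3 * (1 - s)) :=
            mul_le_mul_of_nonneg_right hpn (by positivity)
        _ = 4 * R := by rw [hR]; ring
    linarith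
  have hK : Kn n τ = n * (γ * (2 - 4 / (3 * (1 - s)))) := by
    have h5 : n * γ = 4 / 3 * (c ^ 2 * Av τ) / q := by
      rw [hγ]
      have h6 : (n : ℝ) = ρ ^ 2 * (8 * c ^ 2) / 9 := by rw [hρ2]; ring
      rw [h6]
      field_simp
      ring
    rw [← mul_assoc, h5]
    unfold Kn Fs
    rw [← hcdef, ← hsdef, ← hq]
    have hqne : q ≠ 0 := by linarith
    field_simp
    ring
  rw [hK]
  unfold Dn
  exact mul_le_mul_of_nonneg_left hD hn0.le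

end GCube
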