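import Pool.Agent.Lib.H83.ThPos

/-!
Chunk XL (M/L): local limit theorem at `0`.

`pn_eq_Pn` and `u = v/√n`: `pn n τ = (1/(2πτ)) ∫ Pn τ (v/√n)^n dv`. Pointwise `Pn τ (v/√n)^n → exp(-m2 v²/2)`:
`|Pn τ u - (1 - m2 u²/2)| ≤ u⁴/24` (`|cos x - 1 + x²/2| ≤ x⁴/24`, average), `(1 + z_n/n)^n → exp z`.
Domination for `n ≥ 3`: with `c = m2/4` and some `δ ∈ (0,1]`: `|Pn τ u| ≤ exp(-c u²)` for `|u| ≤ δ` (from `1 - m2u²/2 + u⁴/24 ≤ 1 - cu²`; also
`Pn ≥ 0` there), so `|Pn(v/√n)|^n ≤ exp(-c v²)` for `|v| ≤ δ√n`; for `|u| ≥ δ`: `|Pn τ u| ≤ q < 1` (`|Pn u| ≤ 1/(u Nm τ 0)` → 0,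
continuity, `|Pn u| < 1` for `u ≠ 0`; or: `CFShape`) and `|Pn τ u| ≤ C/|u|`, so
`|Pn(v/√n)|^n ≤ q^(n-2) C² n/v² ≤ C'/v² ≤ C''/(1+v²)` for `|v| ≥ δ√n ≥ δ`.
Limit `(1/(2πτ)) √(2π/m2) = 1/√(2π τ² m2) = 1/√(2π sg)` (`sg_eq`).
-/

open MeasureTheory Set Filter
open scoped Real Topology

namespace GCube

theorem XL_int {f : ℝ → ℝ} (hf : Continuous f) : IntervalIntegrable f volume 0 1 :=
  hf.intervalIntegrable _ _

theorem XL_E_mono (τ : ℝ) {x : ℝ} (h0 : 0 ≤ x) (h1 : x ≤ 1) : E τ ≤ E (τ * x) := by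
  unfold E
  apply Real.exp_le_exp.mpr
  have : (τ * x) ^ 2 ≤ τ ^ 2 := by
    rw [mul_pow]
    have : x ^ 2 ≤ 1 := by nlinarith
    nlinarith [sq_nonneg τ]
  linarith

theorem XL_Nm_le_one (τ : ℝ) : Nm τ 0 ≤ 1 := by
  unfold Nm
  have h := intervalIntegral.integral_mono_on (μ := volume) (a := (0 : ℝ)) (b := 1) zero_le_one
    (XL_int (CFBasic_cont τ 0)) (XL_int continuous_const) (g := fun _ => (1 : ℝ)) (by
      intro x _
      rw [pow_zero, one_mul]
      exact psi_E_le_one _)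
  simpa using h

theorem XL_sinc_int (u : ℝ) : ∫ ξ in (0 : ℝ)..1, Real.cos (u * ξ) = Real.sinc u := by
  by_cases hu : u = 0
  · subst hu
    simp
  · have h := intervalIntegral.mul_integral_comp_mul_left (f := Real.cos) (a := 0) (b := 1) u
    rw [mul_zero, mul_one, integral_cos, Real.sin_zero, sub_zero] at h
    rw [Real.sinc_of_ne_zero hu, eq_div_iff hu, mul_comm]
    exact h

theorem XL_near (τ : ℝ) {u : ℝ} (hu : |u| ≤ 1) :
    |Pn τ u - (1 - m2 τ * u ^ 2 / 2)| ≤ u ^ 4 := by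
  have hN := Nm_pos τ 0
  have hEc := E_continuous
  have c1 : Continuous fun ξ : ℝ => E (τ * ξ) * Real.cos (u * ξ) := by fun_prop
  have c2 : Continuous fun ξ : ℝ => ξ ^ 0 * E (τ * ξ) := CFBasic_cont τ 0
  have c3 : Continuous fun ξ : ℝ => ξ ^ 2 * E (τ * ξ) := CFBasic_cont τ 2
  have e : Pn τ u - (1 - m2 τ * u ^ 2 / 2) =
      (∫ ξ in (0 : ℝ)..1, E (τ * ξ) * (Real.cos (u * ξ) - (1 - (u * ξ) ^ 2 / 2))) / Nm τ 0 := by
    have e1 : (∫ ξ in (0 : ℝ)..1, E (τ * ξ) * (Real.cos (u * ξ) - (1 - (u * ξ) ^ 2 / 2))) =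
        (∫ ξ in (0 : ℝ)..1, E (τ * ξ) * Real.cos (u * ξ)) - Nm τ 0 + u ^ 2 / 2 * Nm τ 2 := by
      unfold Nm
      rw [← intervalIntegral.integral_const_mul, ← intervalIntegral.integral_sub (XL_int c1)
        (XL_int c2), ← intervalIntegral.integral_add ((XL_int c1).sub (XL_int c2))
        ((XL_int c3).const_mul _)]
      refine intervalIntegral.integral_congr fun x _ => ?_
      show E (τ * x) * (Real.cos (u * x) - (1 - (u * x) ^ 2 / 2)) =
        E (τ * x) * Real.cos (u * x) - x ^ 0 * E (τ * x) + u ^ 2 / 2 * (x ^ 2 * E (τ * x))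
      ring
    rw [e1]
    unfold Pn m2
    generalize (∫ ξ in (0 : ℝ)..1, E (τ * ξ) * Real.cos (u * ξ)) = I
    field_simp
    ring
  rw [e, abs_div, abs_of_pos hN, div_le_iff₀ hN]
  refine (intervalIntegral.abs_integral_le_integral_abs zero_le_one).trans ?_
  have h4 : ∫ ξ in (0 : ℝ)..1, |E (τ * ξ) * (Real.cos (u * ξ) - (1 - (u * ξ) ^ 2 / 2))| ≤
      ∫ ξ in (0 : ℝ)..1, u ^ 4 * (ξ ^ 0 * E (τ * ξ)) := by
    refine intervalIntegral.integral_mono_on zero_le_one (XL_int (by fun_prop))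
      ((XL_int c2).const_mul _) fun x hx => ?_
    rw [abs_mul, abs_of_pos (E_pos _), pow_zero, one_mul, mul_comm]
    refine mul_le_mul_of_nonneg_right ?_ (E_pos _).le
    have hx1 : |x| ≤ 1 := by
      rw [abs_of_nonneg hx.1]
      exact hx.2
    have hux : |u * x| ≤ 1 := by
      rw [abs_mul]
      exact mul_le_one₀ hu (abs_nonneg _) hx1
    have h5 := Real.cos_bound hux
    have h6 : |u * x| ^ 4 ≤ u ^ 4 := by
      rw [abs_mul, mul_pow]
      have h7 : |x| ^ 4 ≤ 1 := pow_le_one₀ (abs_nonneg _) hx1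
      have h8 : |u| ^ 4 = u ^ 4 := by
        rw [← abs_pow, abs_of_nonneg (by positivity)]
      rw [h8]
      have h9 : 0 ≤ u ^ 4 := by positivity
      nlinarith
    have h10 : 0 ≤ |u * x| ^ 4 := by positivity
    linarith
  rw [intervalIntegral.integral_const_mul] at h4
  exact h4

theorem XL_gap (τ : ℝ) (u : ℝ) :
    |Pn τ u| ≤ 1 - hn τ * (1 - |Real.sinc u|) := by
  have hN := Nm_pos τ 0
  have hEc := E_continuous
  have c1 : Continuous fun ξ : ℝ => E (τ * ξ) * Real.cos (u * ξ) := by fun_prop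
  have c2 : Continuous fun ξ : ℝ => ξ ^ 0 * E (τ * ξ) := CFBasic_cont τ 0
  have hs := XL_sinc_int u
  have hPN : Pn τ u * Nm τ 0 = ∫ ξ in (0 : ℝ)..1, E (τ * ξ) * Real.cos (u * ξ) := by
    unfold Pn
    exact div_mul_cancel₀ _ hN.ne'
  have hhN : hn τ * Nm τ 0 = E τ := by
    unfold hn
    field_simp
  have ha : E τ * (1 - Real.sinc u) ≤ Nm τ 0 - Pn τ u * Nm τ 0 := by
    rw [hPN]
    unfold Nm
    rw [← intervalIntegral.integral_sub (XL_int c2) (XL_int c1), ← hs]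
    have : E τ * (1 - ∫ ξ in (0 : ℝ)..1, Real.cos (u * ξ)) =
        ∫ ξ in (0 : ℝ)..1, E τ * (1 - Real.cos (u * ξ)) := by
      rw [intervalIntegral.integral_const_mul, intervalIntegral.integral_sub
        (XL_int continuous_const) (XL_int (by fun_prop))]
      simp
    rw [this]
    refine intervalIntegral.integral_mono_on zero_le_one (XL_int (by fun_prop))
      ((XL_int c2).sub (XL_int c1)) fun x hx => ?_
    have h1 := XL_E_mono τ hx.1 hx.2
    have h2 := Real.cos_le_one (u * x)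
    rw [pow_zero, one_mul]
    nlinarith
  have hb : E τ * (1 + Real.sinc u) ≤ Nm τ 0 + Pn τ u * Nm τ 0 := by
    rw [hPN]
    unfold Nm
    rw [← intervalIntegral.integral_add (XL_int c2) (XL_int c1), ← hs]
    have : E τ * (1 + ∫ ξ in (0 : ℝ)..1, Real.cos (u * ξ)) =
        ∫ ξ in (0 : ℝ)..1, E τ * (1 + Real.cos (u * ξ)) := by
      rw [intervalIntegral.integral_const_mul, intervalIntegral.integral_add
        (XL_int continuous_const) (XL_int (by fun_prop))]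
      simp
    rw [this]
    refine intervalIntegral.integral_mono_on zero_le_one (XL_int (by fun_prop))
      ((XL_int c2).add (XL_int c1)) fun x hx => ?_
    have h1 := XL_E_mono τ hx.1 hx.2
    have h2 := Real.neg_one_le_cos (u * x)
    rw [pow_zero, one_mul]
    nlinarith
  have hE := E_pos τ
  have h1 := le_abs_self (Real.sinc u)
  have h2 := neg_abs_le (Real.sinc u)
  rw [← hhN] at ha hb
  have ha' : hn τ * (1 - Real.sinc u) ≤ 1 - Pn τ u := by
    have : hn τ * (1 - Real.sinc u) * Nm τ 0 ≤ (1 - Pn τ u) * Nm τ 0 := by linarith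
    exact le_of_mul_le_mul_right this hN
  have hb' : hn τ * (1 + Real.sinc u) ≤ 1 + Pn τ u := by
    have : hn τ * (1 + Real.sinc u) * Nm τ 0 ≤ (1 + Pn τ u) * Nm τ 0 := by linarith
    exact le_of_mul_le_mul_right this hN
  have hh := hn_pos τ
  rw [abs_le]
  constructor
  · nlinarith
  · nlinarith

theorem XL_decay (τ u : ℝ) : (u * Pn τ u * Nm τ 0) ^ 2 ≤ 1 := by
  have hN := Nm_pos τ 0
  have hEc := E_continuous
  have hPN : u * Pn τ u * Nm τ 0 = ∫ ξ in (0 : ℝ)..1, u * (E (τ * ξ) * Real.cos (u * ξ)) := by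
    unfold Pn
    rw [intervalIntegral.integral_const_mul, mul_assoc, div_mul_cancel₀ _ hN.ne']
  have c1 : Continuous fun ξ : ℝ => u * (E (τ * ξ) * Real.cos (u * ξ)) := by fun_prop
  have c2 : Continuous fun ξ : ℝ => τ ^ 2 * ξ * E (τ * ξ) * Real.sin (u * ξ) := by fun_prop
  have c3 : Continuous fun ξ : ℝ => τ ^ 2 * ξ * E (τ * ξ) := by fun_prop
  have hd : ∀ t ∈ uIcc (0 : ℝ) 1, HasDerivAt (fun t => E (τ * t) * Real.sin (u * t))
      (u * (E (τ * t) * Real.cos (u * t)) - τ ^ 2 * t * E (τ * t) * Real.sin (u * t)) t := by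
    intro t _
    have h1 := CFBasic_hasDerivAt_E τ t
    have h2 : HasDerivAt (fun t => Real.sin (u * t)) (Real.cos (u * t) * u) t :=
      ((hasDerivAt_id' t).const_mul u).sin.congr_deriv (by ring)
    exact (h1.mul h2).congr_deriv (by ring)
  have h := intervalIntegral.integral_eq_sub_of_hasDerivAt hd ((XL_int c1).sub (XL_int c2))
  rw [intervalIntegral.integral_sub (XL_int c1) (XL_int c2)] at h
  have hd3 : ∀ t ∈ uIcc (0 : ℝ) 1, HasDerivAt (fun t => -E (τ * t)) (τ ^ 2 * t * E (τ * t)) t := by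
    intro t _
    exact (CFBasic_hasDerivAt_E τ t).neg.congr_deriv (by ring)
  have h3 := intervalIntegral.integral_eq_sub_of_hasDerivAt hd3 (XL_int c3)
  have hE0 : E (τ * 0) = 1 := by
    unfold E
    norm_num
  rw [mul_one, hE0] at h3
  simp only [mul_one, mul_zero, Real.sin_zero, sub_zero] at h
  rw [← hPN] at h
  have h4 : |∫ ξ in (0 : ℝ)..1, τ ^ 2 * ξ * E (τ * ξ) * Real.sin (u * ξ)| ≤ 1 - E τ := by
    have : 1 - E τ = ∫ ξ in (0 : ℝ)..1, τ ^ 2 * ξ * E (τ * ξ) := by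
      rw [h3]
      ring
    rw [this]
    refine (intervalIntegral.abs_integral_le_integral_abs zero_le_one).trans ?_
    refine intervalIntegral.integral_mono_on zero_le_one (XL_int c2.abs) (XL_int c3) fun x hx => ?_
    have h5 : 0 ≤ τ ^ 2 * x * E (τ * x) := by
      have := hx.1
      have := (E_pos (τ * x)).le
      positivity
    rw [abs_mul, abs_of_nonneg h5]
    exact mul_le_of_le_one_right h5 (Real.abs_sin_le_one _)
  have hE := E_pos τ
  have h6 : |E τ * Real.sin u| ≤ E τ := by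
    rw [abs_mul, abs_of_pos hE]
    exact mul_le_of_le_one_right hE.le (Real.abs_sin_le_one _)
  have h7 : u * Pn τ u * Nm τ 0 = E τ * Real.sin u +
      ∫ ξ in (0 : ℝ)..1, τ ^ 2 * ξ * E (τ * ξ) * Real.sin (u * ξ) := by
    linarith
  have h8 : |u * Pn τ u * Nm τ 0| ≤ 1 := by
    rw [h7]
    refine (abs_add_le _ _).trans ?_
    linarith
  rw [← sq_abs]
  exact pow_le_one₀ (abs_nonneg _) h8

theorem XL_sinc_one {x : ℝ} (hx : |x| ≤ 1) : |Real.sinc x| ≤ 1 - 11 / 96 * x ^ 2 := by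
  by_cases h0 : x = 0
  · subst h0
    simp
  have hpos : 0 < |x| := abs_pos.mpr h0
  have h1 := Real.sin_bound hx
  rw [Real.sinc_of_ne_zero h0, abs_div, div_le_iff₀ hpos]
  have h2 : |Real.sin x| ≤ |x - x ^ 3 / 6| + |x| ^ 4 * (5 / 96) := by
    have h15 : |x| ^ 5 / 100 ≤ |x| ^ 4 * (5 / 96) := by
      have : |x| ^ 5 = |x| ^ 4 * |x| := by ring
      rw [this]
      have h16 : |x| ^ 4 * |x| ≤ |x| ^ 4 * 1 := mul_le_mul_of_nonneg_left hx (by positivity)
      have h17 : 0 ≤ |x| ^ 4 := by positivity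
      linarith
    calc |Real.sin x| = |(x - x ^ 3 / 6) + (Real.sin x - (x - x ^ 3 / 6))| := by ring_nf
      _ ≤ |x - x ^ 3 / 6| + |Real.sin x - (x - x ^ 3 / 6)| := abs_add_le _ _
      _ ≤ _ := by linarith
  have h3 : |x - x ^ 3 / 6| = |x| * (1 - |x| ^ 2 / 6) := by
    have : x - x ^ 3 / 6 = x * (1 - x ^ 2 / 6) := by ring
    rw [this, abs_mul, sq_abs]
    congr 1
    rw [abs_of_nonneg]
    have : x ^ 2 ≤ 1 := by
      rw [← sq_abs]
      exact pow_le_one₀ (abs_nonneg _) hx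
    linarith
  rw [h3] at h2
  rw [← sq_abs]
  have h4 : |x| ^ 4 ≤ |x| * |x| ^ 2 := by
    have : |x| ^ 4 = |x| * (|x| ^ 2 * |x|) := by ring
    rw [this]
    have h5 : |x| ^ 2 * |x| ≤ |x| ^ 2 * 1 := mul_le_mul_of_nonneg_left hx (by positivity)
    rw [mul_one] at h5
    exact mul_le_mul_of_nonneg_left h5 hpos.le
  nlinarith

theorem XL_sinc_half (u : ℝ) : |Real.sinc u| ≤ |Real.sinc (u / 2)| := by
  by_cases h0 : u = 0
  · subst h0
    simp
  have h2 : u / 2 ≠ 0 := by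
    intro h
    exact h0 (by linarith)
  have e : Real.sinc u = Real.sinc (u / 2) * Real.cos (u / 2) := by
    rw [Real.sinc_of_ne_zero h0, Real.sinc_of_ne_zero h2]
    have : Real.sin u = 2 * Real.sin (u / 2) * Real.cos (u / 2) := by
      rw [← Real.sin_two_mul]
      congr 1
      ring
    rw [this]
    field_simp
  rw [e, abs_mul]
  exact mul_le_of_le_one_right (abs_nonneg _) (Real.abs_cos_le_one _)

theorem XL_sinc_two {u : ℝ} (hu : |u| ≤ 2) : |Real.sinc u| ≤ 1 - u ^ 2 / 40 := by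
  have h1 := XL_sinc_half u
  have h2 : |u / 2| ≤ 1 := by
    rw [abs_div]
    norm_num
    linarith
  have h3 := XL_sinc_one h2
  nlinarith [sq_nonneg u]

theorem XL_sinc_far {u : ℝ} (hu : 2 ≤ |u|) : |Real.sinc u| ≤ 1 / 2 := by
  have h0 : u ≠ 0 := by
    intro h
    rw [h, abs_zero] at hu
    linarith
  rw [Real.sinc_of_ne_zero h0, abs_div, div_le_iff₀ (by linarith)]
  have := Real.abs_sin_le_one u
  linarith

theorem XL_kappa {τ : ℝ} (hτ : 0 < τ) : ∃ κ : ℝ, 0 < κ ∧ ∀ u, Pn τ u ^ 2 * (1 + κ * u ^ 2) ≤ 1 := by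
  have hN := Nm_pos τ 0
  have hN1 := XL_Nm_le_one τ
  have hh := hn_pos τ
  have hh1 := hn_lt_one hτ
  refine ⟨hn τ * Nm τ 0 ^ 2 / 40, by positivity, fun u => ?_⟩
  have hN2 : Nm τ 0 ^ 2 ≤ 1 := pow_le_one₀ hN.le hN1
  have hP1 := abs_Pn_le_one τ u
  have hP0 := abs_nonneg (Pn τ u)
  have hg := XL_gap τ u
  rcases le_total |u| 2 with h2 | h2
  · have h3 := XL_sinc_two h2
    have h4 : |Pn τ u| ≤ 1 - hn τ * Nm τ 0 ^ 2 / 40 * u ^ 2 := by
      have h5 : |Pn τ u| ≤ 1 - hn τ * (u ^ 2 / 40) := by nlinarith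
      have h6 : hn τ * Nm τ 0 ^ 2 / 40 * u ^ 2 ≤ hn τ * (u ^ 2 / 40) := by
        have : 0 ≤ hn τ * u ^ 2 := by positivity
        nlinarith
      linarith
    have h7 : Pn τ u ^ 2 ≤ |Pn τ u| := by
      rw [← sq_abs]
      nlinarith
    set K := hn τ * Nm τ 0 ^ 2 / 40 * u ^ 2 with hK
    have hK0 : 0 ≤ K := by positivity
    calc Pn τ u ^ 2 * (1 + K) ≤ (1 - K) * (1 + K) :=
          mul_le_mul_of_nonneg_right (h7.trans h4) (by linarith)
      _ ≤ 1 := by nlinarith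
  · have h3 := XL_sinc_far h2
    have h4 : |Pn τ u| ≤ 1 - hn τ / 2 := by nlinarith
    have h5 : Pn τ u ^ 2 ≤ 1 - hn τ / 2 := by
      rw [← sq_abs]
      nlinarith
    have h6 := XL_decay τ u
    have h7 : Pn τ u ^ 2 * (hn τ * Nm τ 0 ^ 2 / 40 * u ^ 2) =
        hn τ / 40 * (u * Pn τ u * Nm τ 0) ^ 2 := by ring
    have h8 : hn τ / 40 * (u * Pn τ u * Nm τ 0) ^ 2 ≤ hn τ / 40 :=
      mul_le_of_le_one_right (by positivity) h6
    rw [mul_add, mul_one, h7]
    linarith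

theorem XL_dom {τ κ : ℝ} (hκ : 0 < κ) (h : ∀ u, Pn τ u ^ 2 * (1 + κ * u ^ 2) ≤ 1) {n : ℕ}
    (hn : 2 ≤ n) (v : ℝ) :
    |Pn τ (v / Real.sqrt n) ^ n| ≤ (1 + (Real.sqrt (κ / 3) * v) ^ 2)⁻¹ := by
  have hn0 : (0 : ℝ) < n := by
    have : 0 < n := by omega
    exact_mod_cast this
  have h1 := h (v / Real.sqrt n)
  rw [div_pow, Real.sq_sqrt hn0.le] at h1
  set p := |Pn τ (v / Real.sqrt n)| with hp
  have hp0 : 0 ≤ p := abs_nonneg _
  have hp2 : Pn τ (v / Real.sqrt n) ^ 2 = p ^ 2 := (sq_abs _).symm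
  rw [hp2] at h1
  set x := κ * (v ^ 2 / n) with hx
  have hx0 : 0 ≤ x := by positivity
  have e1 : (Real.sqrt (κ / 3) * v) ^ 2 = κ / 3 * v ^ 2 := by
    rw [mul_pow, Real.sq_sqrt (by positivity)]
  rw [abs_pow, ← hp, e1]
  have hpos : 0 < 1 + κ / 3 * v ^ 2 := by positivity
  rw [← one_div, le_div_iff₀ hpos]
  have h2 : (p ^ 2 * (1 + x)) ^ n ≤ 1 := pow_le_one₀ (by positivity) h1
  have h3 : (1 + κ / 3 * v ^ 2) ^ 2 ≤ (1 + x) ^ n := by
    have hk : 2 * (n / 2) ≤ n := by omega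
    have hk3 : n ≤ 3 * (n / 2) := by omega
    have hk3' : (n : ℝ) ≤ 3 * ((n / 2 : ℕ) : ℝ) := by exact_mod_cast hk3
    have h4 : (1 + x) ^ (2 * (n / 2)) ≤ (1 + x) ^ n := pow_le_pow_right₀ (by linarith) hk
    refine le_trans ?_ h4
    rw [mul_comm 2, pow_mul]
    refine pow_le_pow_left₀ hpos.le ?_ 2
    have h5 := one_add_mul_le_pow (show (-2 : ℝ) ≤ x by linarith) (n / 2)
    refine le_trans ?_ h5
    have h6 : κ / 3 * v ^ 2 ≤ ((n / 2 : ℕ) : ℝ) * x := by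
      have h7 : κ / 3 * v ^ 2 = (n / 3 : ℝ) * x := by
        rw [hx]
        field_simp
      rw [h7]
      exact mul_le_mul_of_nonneg_right (by linarith) hx0
    linarith
  have h8 : (p ^ n * (1 + κ / 3 * v ^ 2)) ^ 2 ≤ 1 := by
    calc (p ^ n * (1 + κ / 3 * v ^ 2)) ^ 2 = (p ^ 2) ^ n * (1 + κ / 3 * v ^ 2) ^ 2 := by ring
      _ ≤ (p ^ 2) ^ n * (1 + x) ^ n := mul_le_mul_of_nonneg_left h3 (by positivity)
      _ = (p ^ 2 * (1 + x)) ^ n := (mul_pow _ _ _).symm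
      _ ≤ 1 := h2
  have h9 : 0 ≤ p ^ n * (1 + κ / 3 * v ^ 2) := by positivity
  nlinarith

theorem XL_pt (τ v : ℝ) : Tendsto (fun n : ℕ => Pn τ (v / Real.sqrt n) ^ n) atTop
    (𝓝 (Real.exp (-(m2 τ / 2) * v ^ 2))) := by
  have hg : Tendsto (fun n : ℕ => (n : ℝ) * (Pn τ (v / Real.sqrt n) - 1)) atTop
      (𝓝 (-(m2 τ / 2) * v ^ 2)) := by
    rw [tendsto_iff_norm_sub_tendsto_zero]
    have hlim : Tendsto (fun n : ℕ => v ^ 4 / (n : ℝ)) atTop (𝓝 0) :=
      tendsto_const_div_atTop_nhds_zero_nat _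
    refine squeeze_zero' (Eventually.of_forall fun n => norm_nonneg _) ?_ hlim
    have hev : ∀ᶠ n : ℕ in atTop, v ^ 2 + 1 ≤ (n : ℝ) :=
      tendsto_natCast_atTop_atTop.eventually_ge_atTop _
    filter_upwards [hev] with n hn
    have hn0 : (0 : ℝ) < n := by nlinarith [sq_nonneg v]
    have hs : 0 < Real.sqrt n := Real.sqrt_pos.mpr hn0
    have hu : |v / Real.sqrt n| ≤ 1 := by
      rw [abs_div, abs_of_pos hs, div_le_one hs]
      refine Real.le_sqrt_of_sq_le ?_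
      rw [sq_abs]
      linarith
    have h1 := XL_near τ hu
    have e2 : (v / Real.sqrt n) ^ 2 = v ^ 2 / n := by
      rw [div_pow, Real.sq_sqrt hn0.le]
    have e4 : (v / Real.sqrt n) ^ 4 = v ^ 4 / n ^ 2 := by
      have : (v / Real.sqrt n) ^ 4 = ((v / Real.sqrt n) ^ 2) ^ 2 := by ring
      rw [this, e2, div_pow]
      ring
    rw [e2, e4] at h1
    rw [Real.norm_eq_abs]
    have e : (n : ℝ) * (Pn τ (v / Real.sqrt n) - 1) - -(m2 τ / 2) * v ^ 2 =
        n * (Pn τ (v / Real.sqrt n) - (1 - m2 τ * (v ^ 2 / n) / 2)) := by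
      field_simp
      ring
    rw [e, abs_mul, abs_of_pos hn0]
    calc (n : ℝ) * |Pn τ (v / Real.sqrt n) - (1 - m2 τ * (v ^ 2 / n) / 2)| ≤
          n * (v ^ 4 / n ^ 2) := mul_le_mul_of_nonneg_left h1 hn0.le
      _ = v ^ 4 / n := by field_simp
  have h := Real.tendsto_one_add_pow_exp_of_tendsto hg
  refine h.congr fun n => ?_
  rw [add_sub_cancel]

theorem XL_main {τ : ℝ} (hτ : 0 < τ) :
    Tendsto (fun n : ℕ => Real.sqrt n / (2 * π * τ) * ∫ u : ℝ, Pn τ u ^ n) atTop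
      (𝓝 (1 / Real.sqrt (2 * π * sg τ))) := by
  obtain ⟨κ, hκ, hK⟩ := XL_kappa hτ
  have hm := m2_pos τ
  have hint : Tendsto (fun n : ℕ => ∫ v : ℝ, Pn τ (v / Real.sqrt n) ^ n) atTop
      (𝓝 (∫ v : ℝ, Real.exp (-(m2 τ / 2) * v ^ 2))) := by
    refine tendsto_integral_filter_of_dominated_convergence
      (fun v => (1 + (Real.sqrt (κ / 3) * v) ^ 2)⁻¹) ?_ ?_ ?_ ?_
    · refine Eventually.of_forall fun n => ?_
      exact (((Pn_cont τ).comp (continuous_id.div_const _)).pow n).aestronglyMeasurable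
    · filter_upwards [eventually_ge_atTop 2] with n hn
      refine Eventually.of_forall fun v => ?_
      rw [Real.norm_eq_abs]
      exact XL_dom hκ hK hn v
    · exact integrable_inv_one_add_sq.comp_mul_left' (Real.sqrt_pos.mpr (by positivity)).ne'
    · exact Eventually.of_forall fun v => XL_pt τ v
  rw [integral_gaussian] at hint
  have h2 := hint.const_mul (1 / (2 * π * τ))
  have hval : 1 / (2 * π * τ) * Real.sqrt (π / (m2 τ / 2)) = 1 / Real.sqrt (2 * π * sg τ) := by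
    rw [sg_eq]
    have hpi := Real.pi_pos
    have e1 : 2 * π * (τ ^ 2 * m2 τ) = (2 * π * τ) ^ 2 * (m2 τ / (2 * π)) := by
      field_simp
    have e2 : π / (m2 τ / 2) = (m2 τ / (2 * π))⁻¹ := by
      field_simp
    rw [e1, e2, Real.sqrt_mul (by positivity), Real.sqrt_sq (by positivity), Real.sqrt_inv]
    rw [one_div, one_div, mul_inv (2 * π * τ)]
  rw [hval] at h2
  refine h2.congr' ?_
  filter_upwards [eventually_ge_atTop 1] with n hn
  have hn0 : (0 : ℝ) < n := by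
    have : 0 < n := by omega
    exact_mod_cast this
  have hs : 0 < Real.sqrt n := Real.sqrt_pos.mpr hn0
  have h3 := Measure.integral_comp_div (fun u : ℝ => Pn τ u ^ n) (Real.sqrt n)
  rw [h3, abs_of_pos hs, smul_eq_mul]
  ring

theorem pn_tendsto {τ : ℝ} (hτ : 0 < τ) :
    Tendsto (fun n : ℕ => pn n τ) atTop (𝓝 (1 / Real.sqrt (2 * π * sg τ))) := by
  refine (XL_main hτ).congr fun n => ?_
  exact (pn_eq_Pn n hτ).symm

end GCube
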