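import Pool.Agent.Lib.H83.ThDer
import Pool.Agent.Lib.H83.ThPos
import Pool.Agent.Lib.H83.ThElem

/-!
Chunk XE (S/M): logarithmic derivative of `pn/p2`, and two comparison lemmas.

`log (pn/p2) = const + log In n - n log (2G) - log ct`. Derivatives (times `τ`): `(n-1) - n J2/In`, `n τE/G = n hn`,
`hn(√2τ) - 2hn`. Sum: `n - 1 - nJ2/In - n hn - hn(√2τ) + 2 hn = n(sg - J2/In) - (1 - 2hn + hn(√2τ)) = Dn - Bv`.
`XE_flow`: `g' > 0` wherever `g ≥ 0` on `[a,b]`, `g a ≥ 0` implies `g > 0` on `(a,b]`: if `g a = 0` then `g > 0` just after `a`; at the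
first later zero `t` one has `g > 0` on `(a,t)`, so `g'(t) ≤ 0`, contradiction.
`XE_drop`: `g' ≥ -k` wherever `g ≥ 0`, `g a ≥ m`, `k (b-a) < m`: then `g t ≥ m - k(t-a) > 0`: let `h t = g t + k(t-a) - m`; if `h t < 0` for
some `t`, take the last `t0 < t` with `h t0 ≥ 0`, i.e. `h t0 = 0` (sup of the set where `h ≥ 0` on `[a,t]`); near `t0` on the right `g > 0`
(since `g t0 = m - k(t0-a) > 0`), so `h' ≥ 0` there and `h ≥ 0` there, contradiction.
-/

open MeasureTheory Set
open scoped Real

namespace GCube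

theorem hasDerivAt_log {n : ℕ} (h3 : 3 ≤ n) {τ : ℝ} (hτ : 0 < τ) :
    HasDerivAt (fun τ => Real.log (pn n τ / p2 τ)) ((Dn n τ - Bv τ) / τ) τ := by
  have hG := XA3_Gpos hτ
  have hI := In_pos (n := n) (by omega) hτ
  have hc := ct_pos hτ
  have h2 : (0 : ℝ) < Real.sqrt 2 := by positivity
  have hn0 : (0 : ℝ) < Real.sqrt n := by
    apply Real.sqrt_pos.2
    have : 0 < n := by omega
    exact_mod_cast this
  have h1 : HasDerivAt (fun t => Real.log (In n t) - n * Real.log (G t) - Real.log (ct t) +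
      Real.log (Real.sqrt n * Real.sqrt 2 / (2 * π * 2 ^ n)))
      (((n - 1) * In n τ - n * J2 n τ) / τ / In n τ - n * (E τ / G τ) -
        ct τ * (hn (Real.sqrt 2 * τ) - 2 * hn τ) / τ / ct τ) τ :=
    ((((hasDerivAt_In h3 hτ).log hI.ne').sub (((cm_hasDerivAt_G τ).log hG.ne').const_mul (n : ℝ))).sub
      ((hasDerivAt_ct hτ).log hc.ne')).add_const _
  have h4 : (fun t => Real.log (pn n t / p2 t)) =ᶠ[nhds τ]
      fun t => Real.log (In n t) - n * Real.log (G t) - Real.log (ct t) +
      Real.log (Real.sqrt n * Real.sqrt 2 / (2 * π * 2 ^ n)) := by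
    filter_upwards [eventually_gt_nhds hτ] with t ht
    have hG' := XA3_Gpos ht
    have hI' := In_pos (n := n) (by omega) ht
    have hc' := ct_pos ht
    have hpi := Real.pi_pos
    have e1 : pn n t / p2 t = In n t / G t ^ n / ct t *
        (Real.sqrt n * Real.sqrt 2 / (2 * π * 2 ^ n)) := by
      unfold pn p2
      rw [mul_pow]
      field_simp
    rw [e1, Real.log_mul (by positivity) (by positivity), Real.log_div (by positivity) hc'.ne',
      Real.log_div hI'.ne' (by positivity), Real.log_pow]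
  refine (h1.congr_of_eventuallyEq h4).congr_deriv ?_
  have e2 : E τ / G τ = hn τ / τ := by
    rw [XA3_hn hτ]
    field_simp
  rw [e2]
  unfold Dn Bv sg
  field_simp
  ring

theorem XE_flow {g g' : ℝ → ℝ} {a b : ℝ} (hd : ∀ t ∈ Icc a b, HasDerivAt g (g' t) t) (ha : 0 ≤ g a)
    (h : ∀ t ∈ Icc a b, 0 ≤ g t → 0 < g' t) : ∀ t, a < t → t ≤ b → 0 < g t := by
  have h0 : ∀ ⦃x⦄, x ∈ Icc a b → -g x ≤ 0 := by
    refine image_le_of_deriv_right_lt_deriv_boundary (f := fun x => -g x) (f' := fun x => -g' x)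
      (B := fun _ => 0) (B' := fun _ => 0) ?_ ?_ ?_ ?_ ?_
    · exact fun x hx => (hd x hx).continuousAt.continuousWithinAt.neg
    · exact fun x hx => ((hd x ⟨hx.1, hx.2.le⟩).neg).hasDerivWithinAt
    · simpa using ha
    · exact fun x => hasDerivAt_const x 0
    · intro x hx hx0
      have h1 : g x = 0 := by simpa using hx0
      have h2 := h x ⟨hx.1, hx.2.le⟩ h1.ge
      simpa using h2
  have hmono : StrictMonoOn g (Icc a b) := by
    refine strictMonoOn_of_deriv_pos (convex_Icc a b)
      (fun x hx => (hd x hx).continuousAt.continuousWithinAt) ?_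
    intro x hx
    rw [interior_Icc] at hx
    have hx' : x ∈ Icc a b := ⟨hx.1.le, hx.2.le⟩
    rw [(hd x hx').deriv]
    have := h0 hx'
    exact h x hx' (by linarith)
  intro t hat htb
  exact lt_of_le_of_lt ha (hmono ⟨le_refl a, by linarith⟩ ⟨hat.le, htb⟩ hat)

theorem XE_drop {g g' : ℝ → ℝ} {a b m k : ℝ} (hd : ∀ t ∈ Icc a b, HasDerivAt g (g' t) t) (ha : m ≤ g a)
    (hk : 0 ≤ k) (hm : k * (b - a) < m) (h : ∀ t ∈ Icc a b, 0 ≤ g t → -k ≤ g' t) :
    ∀ t ∈ Icc a b, 0 < g t := by
  intro t ht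
  rcases (le_trans ht.1 ht.2).lt_or_eq with hab | hab
  · obtain ⟨ε, hε, hεm⟩ : ∃ ε : ℝ, 0 < ε ∧ (k + ε) * (b - a) < m := by
      refine ⟨(m - k * (b - a)) / (2 * (b - a)), div_pos (by linarith) (by linarith), ?_⟩
      have h1 : 0 < b - a := by linarith
      have h2 : (m - k * (b - a)) / (2 * (b - a)) * (b - a) = (m - k * (b - a)) / 2 := by
        field_simp
      rw [add_mul, h2]
      linarith
    have hpos : ∀ x ∈ Icc a b, 0 < m - (k + ε) * (x - a) := by
      intro x hx
      have h1 : (k + ε) * (x - a) ≤ (k + ε) * (b - a) :=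
        mul_le_mul_of_nonneg_left (by linarith [hx.2]) (by linarith)
      linarith
    have h0 : ∀ ⦃x⦄, x ∈ Icc a b → -g x ≤ -(m - (k + ε) * (x - a)) := by
      refine image_le_of_deriv_right_lt_deriv_boundary (f := fun x => -g x) (f' := fun x => -g' x)
        (B := fun x => -(m - (k + ε) * (x - a))) (B' := fun _ => k + ε) ?_ ?_ ?_ ?_ ?_
      · exact fun x hx => (hd x hx).continuousAt.continuousWithinAt.neg
      · exact fun x hx => ((hd x ⟨hx.1, hx.2.le⟩).neg).hasDerivWithinAt
      · simp only [sub_self, mul_zero, sub_zero]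
        linarith
      · intro x
        have h1 := ((((hasDerivAt_id' x).sub_const a).const_mul (k + ε)).const_sub m).neg
        rw [mul_one, neg_neg] at h1
        exact h1
      · intro x hx hx0
        have hx' : x ∈ Icc a b := ⟨hx.1, hx.2.le⟩
        have h1 : g x = m - (k + ε) * (x - a) := by
          linarith
        have h2 := h x hx' (by rw [h1]; exact (hpos x hx').le)
        linarith
    have h1 := h0 ht
    have h2 := hpos t ht
    linarith
  · have h1 : t = a := le_antisymm (by linarith [ht.2]) ht.1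
    rw [h1]
    rw [← hab, sub_self, mul_zero] at hm
    linarith

end GCube
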