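import Pool.Agent.Lib.H83.ThCheck

/-!
Rational checker for lower bounds of `pn n t / p2 t` at rational points `t` (definitions only).
-/

namespace GCube

namespace TP

def r16 (q : ℚ) : ℚ := (⌊q * 10000000000000000⌋ : ℚ) / 10000000000000000
def u16 (q : ℚ) : ℚ := -r16 (-q)

/-- bounds of `Nm t (2k) / Nm t 0` -/
def mL (t : ℚ) (k : ℕ) : ℚ := r16 (CF.nmS (2 * k) (t ^ 2 / 2) 0 30 / CF.nmS 0 (t ^ 2 / 2) 0 31)
def mU (t : ℚ) (k : ℕ) : ℚ := u16 (CF.nmS (2 * k) (t ^ 2 / 2) 0 31 / CF.nmS 0 (t ^ 2 / 2) 0 30)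

/-- coefficients (in `u²`) of the Taylor polynomial of `Pn t`, from index `k` on, `c` terms -/
def co (t : ℚ) : ℕ → ℕ → List ℚ
  | _, 0 => []
  | k, c + 1 => ((-1) ^ k * mL t k / (Nat.factorial (2 * k) : ℚ)) :: co t (k + 1) c

def padd : List ℚ → List ℚ → List ℚ
  | [], q => q
  | p, [] => p
  | a :: p, b :: q => (a + b) :: padd p q

def pmul : List ℚ → List ℚ → List ℚ
  | [], _ => []
  | a :: p, q => padd (q.map fun b => a * b) (0 :: pmul p q)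

def ppow (p : List ℚ) : ℕ → List ℚ
  | 0 => [1]
  | n + 1 => pmul p (ppow p n)

/-- `∑ c_j S^(2j+1)/(2j+1)`, first index `j` -/
def pint (S : ℚ) : ℕ → List ℚ → ℚ
  | _, [] => 0
  | j, c :: l => c * S ^ (2 * j + 1) / (2 * j + 1) + pint S (j + 1) l

/-- `mU - mL ≤ d` for `k < K` -/
def okd (t : ℚ) (K : ℕ) (d : ℚ) : Bool := (List.range K).all fun k => decide (mU t k - mL t k ≤ d)
/-- error of the Taylor polynomial on `[0,S]` -/
def eps (S : ℚ) (K : ℕ) (d : ℚ) : ℚ :=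
  d * ((List.range K).map fun k => S ^ (2 * k) / (Nat.factorial (2 * k) : ℚ)).sum +
    S ^ (2 * K) / (Nat.factorial (2 * K) : ℚ)

/-- `|Pn t u| ≤ kap/u` for `u ≥ S` -/
def kap (t S : ℚ) : ℚ :=
  TH.aU t + (1 - TH.aL t) * ((CF.emU (t ^ 2 / 2) + (|1 - t ^ 2| * CF.emU (t ^ 2 / 2) +
    (1 - (1 - t ^ 2) * (if t ≤ 1 then CF.emL (t ^ 2 / 2) else CF.emU (t ^ 2 / 2)))) / S) / CF.nmL 2 t) / S

/-- lower bound of `∫_0^∞ Pn^n` -/
def low (n : ℕ) (t S : ℚ) (K : ℕ) (d : ℚ) : ℚ :=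
  pint S 0 (ppow (co t 0 K) n) - S * n * eps S K d * (1 + eps S K d) ^ (n - 1) -
    (if n % 2 = 0 then 0 else kap t S ^ n / (S ^ (n - 1) * (n - 1)))

/-- `(1 + m) p2 ≤ pn` -/
def okPt (n : ℕ) (t S : ℚ) (K : ℕ) (d m : ℚ) : Bool :=
  TH.okP t && decide (3 ≤ n) && decide (0 < S) && decide (0 ≤ d) && okd t K d && decide (0 ≤ m) &&
    decide (0 < CF.nmL 2 t) && decide (0 ≤ low n t S K d) &&
    decide ((1 + m) ^ 2 * CF.pU ^ 2 * TH.eeU t ^ 2 ≤ 2 * n * low n t S K d ^ 2 * CF.nmL 0 t ^ 4)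

end TP

end GCube
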