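import Pool.Agent.Lib.H83.ThNumA
import Pool.Agent.Lib.H83.ThPtCheck
import Pool.Agent.Lib.H83.ThPos

/-!
Chunk XP3 (S/M): the tail.

`Pn = hn sinc + sg Xn` (`Pn_eq`), `|sinc u| ≤ 1/u`, `xXn_bound`: `|Xn u| ≤ (E/N₂ + (|1-t²|E/N₂ + TVb/N₂)/u)/u²`, `N₂ = Nm t 2`. For `u ≥ S`:
`|Pn t u| ≤ kap/u` (`TH_hn`, `CF.le_emU`, `CF.emL_le`, `CF.nmL_le`; `TVb t = 1 - (1-t²)E(t)` since `t² ≤ 3`).
`n ≥ 3`: `∫_S^∞ Pn^n ≥ 0` for `n` even (integrable: `pn_abs_int`), and `≥ -∫_S^∞ (kap/u)^n = -kap^n/(S^(n-1)(n-1))` for `n` odd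
(`integral_Ioi_rpow` or `integral_Ioi_pow...`).
-/

open MeasureTheory Set
open scoped Real

namespace GCube

theorem XP3_sinc {u : ℝ} (hu : 0 < u) : |Real.sinc u| ≤ 1 / u := by
  rw [Real.sinc_of_ne_zero hu.ne', abs_div, abs_of_pos hu]
  exact div_le_div_of_nonneg_right (Real.abs_sin_le_one u) hu.le

theorem TP_kap {t S : ℚ} (h : TH.okP t = true) (hN : 0 < CF.nmL 2 t) (hS : 0 < S) {u : ℝ} (hu : (S : ℝ) ≤ u) :
    |Pn t u| ≤ ((TP.kap t S : ℚ) : ℝ) / u := by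
  obtain ⟨k1, k2, _, _, k5, _, _, _⟩ := XN1_ok h
  have ht : 0 < t := by linarith
  have ht' : (0 : ℝ) < t := by exact_mod_cast ht
  have hS' : (0 : ℝ) < S := by exact_mod_cast hS
  have hu0 : 0 < u := hS'.trans_le hu
  have hN' : (0 : ℝ) < ((CF.nmL 2 t : ℚ) : ℝ) := by exact_mod_cast hN
  have hNL : ((CF.nmL 2 t : ℚ) : ℝ) ≤ Nm t 2 := CF.nmL_le 2 ht.le
  have hN2 := Nm_pos (t : ℝ) 2
  obtain ⟨aL, aU⟩ := TH_hn h
  have hEL := @ct2_emL t
  have hEU := @ct2_emU t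
  have hE0 := E_pos (t : ℝ)
  have hsg := sg_pos ht'
  have k2' : (t : ℝ) ≤ 14 / 10 := by
    have := (Rat.cast_le (K := ℝ)).mpr k2
    push_cast at this
    exact this
  set eU : ℝ := ((CF.emU (t ^ 2 / 2) : ℚ) : ℝ) with heU
  set eL : ℝ := ((CF.emL (t ^ 2 / 2) : ℚ) : ℝ) with heL
  set TV : ℝ := 1 - (1 - (t : ℝ) ^ 2) * (if t ≤ 1 then eL else eU) with hTV
  have hTVb : TVb t ≤ TV := by
    unfold TVb
    rw [if_pos (by nlinarith), hTV]
    by_cases h1 : t ≤ 1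
    · rw [if_pos h1]
      have h1' : (t : ℝ) ≤ 1 := by exact_mod_cast h1
      have h2 : 0 ≤ 1 - (t : ℝ) ^ 2 := by nlinarith
      have := mul_le_mul_of_nonneg_left hEL h2
      linarith
    · rw [if_neg h1]
      have h1' : (1 : ℝ) < t := by exact_mod_cast (not_le.1 h1)
      have h2 : 0 ≤ (t : ℝ) ^ 2 - 1 := by nlinarith
      have := mul_le_mul_of_nonneg_left hEU h2
      linarith
  have hTV0 : 0 ≤ TVb t := by
    unfold TVb
    rw [if_pos (by nlinarith)]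
    have h2 := psi_E_le_one (t : ℝ)
    nlinarith [mul_nonneg (sq_nonneg (t : ℝ)) hE0.le]
  have hA : |u * Xn t u| ≤ ((eU + (|1 - (t : ℝ) ^ 2| * eU + TV) / S) / ((CF.nmL 2 t : ℚ) : ℝ)) / u := by
    refine (xXn_bound ht' hu0).trans ?_
    refine div_le_div_of_nonneg_right ?_ hu0.le
    have e1 : E t / Nm t 2 * |Real.cos u| ≤ E t / Nm t 2 :=
      mul_le_of_le_one_right (by positivity) (Real.abs_cos_le_one u)
    have e2 : |1 - (t : ℝ) ^ 2| * E t / Nm t 2 * |Real.sin u| ≤ |1 - (t : ℝ) ^ 2| * E t / Nm t 2 :=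
      mul_le_of_le_one_right (by positivity) (Real.abs_sin_le_one u)
    have e3 : (|1 - (t : ℝ) ^ 2| * E t / Nm t 2 * |Real.sin u| + TVb t / Nm t 2) / u ≤
        (|1 - (t : ℝ) ^ 2| * E t / Nm t 2 + TVb t / Nm t 2) / S := by
      refine (div_le_div_of_nonneg_right (add_le_add e2 le_rfl) hu0.le).trans ?_
      exact div_le_div_of_nonneg_left (by positivity) hS' hu
    calc E t / Nm t 2 * |Real.cos u| + (|1 - (t : ℝ) ^ 2| * E t / Nm t 2 * |Real.sin u| + TVb t / Nm t 2) / u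
        ≤ E t / Nm t 2 + (|1 - (t : ℝ) ^ 2| * E t / Nm t 2 + TVb t / Nm t 2) / S := add_le_add e1 e3
      _ = (E t + (|1 - (t : ℝ) ^ 2| * E t + TVb t) / S) / Nm t 2 := by field_simp
      _ ≤ (eU + (|1 - (t : ℝ) ^ 2| * eU + TV) / S) / Nm t 2 := by gcongr
      _ ≤ (eU + (|1 - (t : ℝ) ^ 2| * eU + TV) / S) / ((CF.nmL 2 t : ℚ) : ℝ) := by
          refine div_le_div_of_nonneg_left ?_ hN' hNL
          have hTV1 := hTV0.trans hTVb
          have hEU0 := hE0.le.trans hEU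
          positivity
  set Z : ℝ := (eU + (|1 - (t : ℝ) ^ 2| * eU + TV) / S) / ((CF.nmL 2 t : ℚ) : ℝ) with hZ
  have hZ0 : 0 ≤ Z := by
    have hTV1 := hTV0.trans hTVb
    have hEU0 := hE0.le.trans hEU
    positivity
  have hX : |Xn t u| ≤ Z / S / u := by
    have h1 : |u * Xn t u| = u * |Xn t u| := by rw [abs_mul, abs_of_pos hu0]
    rw [h1] at hA
    have h2 : |Xn t u| ≤ Z / u / u := by
      rw [le_div_iff₀ hu0]
      linarith
    refine h2.trans (div_le_div_of_nonneg_right ?_ hu0.le)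
    exact div_le_div_of_nonneg_left hZ0 hS' hu
  have hkap : ((TP.kap t S : ℚ) : ℝ) = ((TH.aU t : ℚ) : ℝ) + (1 - ((TH.aL t : ℚ) : ℝ)) * Z / S := by
    rw [hZ, hTV, heU, heL]
    unfold TP.kap
    by_cases h1 : t ≤ 1
    · rw [if_pos h1, if_pos h1]
      push_cast
      ring
    · rw [if_neg h1, if_neg h1]
      push_cast
      ring
  rw [hkap, Pn_eq ht']
  have hh := hn_pos (t : ℝ)
  have hsgL : sg t ≤ 1 - ((TH.aL t : ℚ) : ℝ) := by
    unfold sg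
    linarith
  calc |hn t * Real.sinc u + sg t * Xn t u| ≤ |hn t * Real.sinc u| + |sg t * Xn t u| := abs_add_le _ _
    _ = hn t * |Real.sinc u| + sg t * |Xn t u| := by
        rw [abs_mul, abs_mul, abs_of_pos hh, abs_of_pos hsg]
    _ ≤ ((TH.aU t : ℚ) : ℝ) * (1 / u) + (1 - ((TH.aL t : ℚ) : ℝ)) * (Z / S / u) :=
        add_le_add (mul_le_mul aU (XP3_sinc hu0) (abs_nonneg _) (hh.le.trans aU))
          (mul_le_mul hsgL hX (abs_nonneg _) (hsg.le.trans hsgL))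
    _ = (((TH.aU t : ℚ) : ℝ) + (1 - ((TH.aL t : ℚ) : ℝ)) * Z / S) / u := by
        field_simp

theorem XP3_int {n : ℕ} (h3 : 3 ≤ n) {S : ℝ} (hS : 0 < S) (κ : ℝ) :
    IntegrableOn (fun u : ℝ => (κ / u) ^ n) (Ioi S) ∧
      ∫ u in Ioi S, (κ / u) ^ n = κ ^ n / (S ^ (n - 1) * (n - 1)) := by
  have hn1 : (1 : ℝ) < n := by exact_mod_cast (by omega : 1 < n)
  have e : ∀ u ∈ Ioi S, (κ / u) ^ n = κ ^ n * u ^ (-(n : ℝ)) := by
    intro u hu
    have hu0 : 0 < u := hS.trans hu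
    rw [Real.rpow_neg hu0.le, Real.rpow_natCast, div_pow, div_eq_mul_inv]
  have hi : IntegrableOn (fun u : ℝ => κ ^ n * u ^ (-(n : ℝ))) (Ioi S) :=
    (integrableOn_Ioi_rpow_of_lt (by linarith) hS).const_mul _
  constructor
  · exact hi.congr_fun (fun u hu => (e u hu).symm) measurableSet_Ioi
  · rw [setIntegral_congr_fun measurableSet_Ioi e, integral_const_mul, integral_Ioi_rpow_of_lt (by linarith) hS]
    have h1 : -(n : ℝ) + 1 = -((n - 1 : ℕ) : ℝ) := by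
      rw [Nat.cast_sub (by omega)]
      push_cast
      ring
    rw [h1, Real.rpow_neg hS.le, Real.rpow_natCast, Nat.cast_sub (by omega)]
    push_cast
    have h2 : (n : ℝ) - 1 ≠ 0 := by linarith
    field_simp

theorem TP_tail {n : ℕ} (h3 : 3 ≤ n) {t S : ℚ} (h : TH.okP t = true) (hN : 0 < CF.nmL 2 t) (hS : 0 < S) :
    -(((if n % 2 = 0 then 0 else TP.kap t S ^ n / (S ^ (n - 1) * (n - 1)) : ℚ)) : ℝ) ≤
      ∫ u in Ioi (S : ℝ), Pn t u ^ n := by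
  obtain ⟨k1, _, _, _, _, _, _, _⟩ := XN1_ok h
  have ht : 0 < t := by linarith
  have ht' : (0 : ℝ) < t := by exact_mod_cast ht
  have hS' : (0 : ℝ) < S := by exact_mod_cast hS
  by_cases hev : n % 2 = 0
  · rw [if_pos hev]
    push_cast
    rw [neg_zero]
    exact setIntegral_nonneg measurableSet_Ioi fun u _ => (Nat.even_iff.2 hev).pow_nonneg _
  · rw [if_neg hev]
    obtain ⟨h1, h2⟩ := XP3_int h3 hS' ((TP.kap t S : ℚ) : ℝ)
    push_cast
    rw [← h2, ← integral_neg]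
    refine setIntegral_mono_on h1.neg (pn_abs_int (by omega) ht').integrableOn measurableSet_Ioi fun u hu => ?_
    have hk := TP_kap h hN hS (le_of_lt hu)
    have h4 : |Pn t u ^ n| ≤ (((TP.kap t S : ℚ) : ℝ) / u) ^ n := by
      rw [abs_pow]
      exact pow_le_pow_left₀ (abs_nonneg _) hk n
    exact (abs_le.1 h4).1

end GCube
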