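import Pool.Agent.Lib.H83.ThPtB
import Pool.Agent.Lib.H83.ThPtC

/-!
Chunk XP4 (S): assembly of the point checks.

`pn_eq_Pn`: `pn = √n/(2πt) ∫_ℝ Pn^n = √n/(πt) I`, `I = ∫_0^∞ Pn^n` (`Pn` even: `Pn_even`), `I ≥ low` (`TP_main`, `TP_tail`);
`p2 = ct/√2 = Nm(√2t)0/(√2 t (Nm t 0)²)` (`ct_eq`). So `(1+m) p2 ≤ pn` iff `(1+m) π Nm(√2t)0 ≤ √(2n) I (Nm t 0)²`; square the rational
inequality (`π ≤ CF.pU`, `TH_ee`, `CF.nmL_le`).
The eight checks are `by decide +kernel` (3 s each, checked).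
-/

open MeasureTheory Set
open scoped Real

namespace GCube

theorem XP4_half {n : ℕ} {τ S : ℝ} (h2 : 2 ≤ n) (hτ : 0 < τ) (hS : 0 < S) :
    ∫ u : ℝ, Pn τ u ^ n = 2 * ((∫ u in (0 : ℝ)..S, Pn τ u ^ n) + ∫ u in Ioi S, Pn τ u ^ n) := by
  have hi := pn_abs_int h2 hτ
  have heven : ∀ x, Pn τ x ^ n = Pn τ |x| ^ n := by
    intro x
    rcases le_total 0 x with h | h
    · rw [abs_of_nonneg h]
    · rw [abs_of_nonpos h, Pn_even]
  have h1 : ∫ x : ℝ, Pn τ x ^ n = 2 * ∫ x in Ioi (0 : ℝ), Pn τ x ^ n := by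
    rw [← integral_comp_abs (f := fun x => Pn τ x ^ n)]
    exact integral_congr_ae (Filter.Eventually.of_forall fun x => heven x)
  rw [h1, intervalIntegral.integral_of_le hS.le]
  congr 1
  rw [← setIntegral_union (Ioc_disjoint_Ioi le_rfl) measurableSet_Ioi hi.integrableOn hi.integrableOn,
    Ioc_union_Ioi_eq_Ioi hS.le]

theorem okPt_sound {n : ℕ} {t S : ℚ} {K : ℕ} {d m : ℚ} (h : TP.okPt n t S K d m = true) :
    (1 + m) * p2 t ≤ pn n t := by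
  unfold TP.okPt at h
  simp only [Bool.and_eq_true, decide_eq_true_eq] at h
  obtain ⟨⟨⟨⟨⟨⟨⟨⟨hp, h3⟩, hS⟩, hd0⟩, hd⟩, hm⟩, hN2⟩, hlow⟩, hc⟩ := h
  obtain ⟨k1, k2, k3, k4, _, _, _, _⟩ := XN1_ok hp
  have ht : 0 < t := by linarith
  have ht' : (0 : ℝ) < t := by exact_mod_cast ht
  have hS' : (0 : ℝ) < S := by exact_mod_cast hS
  have k3' : (0 : ℝ) < ((CF.nmL 0 t : ℚ) : ℝ) := by exact_mod_cast k3
  have hNL : ((CF.nmL 0 t : ℚ) : ℝ) ≤ Nm t 0 := CF.nmL_le 0 ht.le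
  have hN := Nm_pos (t : ℝ) 0
  obtain ⟨_, hU⟩ := TH_ee ht
  have hNE := Nm_pos (Real.sqrt 2 * t) 0
  have hm' : (0 : ℝ) ≤ m := by exact_mod_cast hm
  have hlow' : (0 : ℝ) ≤ ((TP.low n t S K d : ℚ) : ℝ) := by exact_mod_cast hlow
  have h1 := TP_main (n := n) (by omega) ht k2 hS hd hd0
  have h2 := TP_tail h3 hp hN2 hS
  set I : ℝ := (∫ u in (0 : ℝ)..S, Pn t u ^ n) + ∫ u in Ioi (S : ℝ), Pn t u ^ n with hI
  have hIlow : ((TP.low n t S K d : ℚ) : ℝ) ≤ I := by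
    have e : ((TP.low n t S K d : ℚ) : ℝ) =
        ((TP.pint S 0 (TP.ppow (TP.co t 0 K) n) - S * n * TP.eps S K d * (1 + TP.eps S K d) ^ (n - 1) : ℚ) : ℝ) +
        -(((if n % 2 = 0 then 0 else TP.kap t S ^ n / (S ^ (n - 1) * (n - 1)) : ℚ)) : ℝ) := by
      unfold TP.low
      rw [Rat.cast_sub, ← sub_eq_add_neg]
    rw [e, hI]
    exact add_le_add h1 h2
  have hπ := CF.lt_pU
  have hπ0 := Real.pi_pos
  have hpn : pn n t = Real.sqrt n / (π * t) * I := by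
    rw [pn_eq_Pn n ht', XP4_half (by omega) ht' hS', ← hI]
    field_simp
  have hs2 : (0 : ℝ) < Real.sqrt 2 := by positivity
  have hp2 : p2 t = Nm (Real.sqrt 2 * t) 0 / (Real.sqrt 2 * t * Nm t 0 ^ 2) := by
    unfold p2
    rw [ct_eq ht']
    field_simp
  rw [hpn, hp2]
  have hI0 : 0 ≤ I := hlow'.trans hIlow
  have key : (1 + (m : ℝ)) * π * Nm (Real.sqrt 2 * t) 0 ≤ Real.sqrt 2 * Real.sqrt n * I * Nm t 0 ^ 2 := by
    refine le_of_sq_le_sq ?_ (by positivity)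
    have hc' := (Rat.cast_le (K := ℝ)).mpr hc
    push_cast at hc'
    have hn0 : (0 : ℝ) ≤ n := Nat.cast_nonneg n
    calc ((1 + (m : ℝ)) * π * Nm (Real.sqrt 2 * t) 0) ^ 2 =
          (1 + (m : ℝ)) ^ 2 * π ^ 2 * Nm (Real.sqrt 2 * t) 0 ^ 2 := by ring
      _ ≤ (1 + (m : ℝ)) ^ 2 * ((CF.pU : ℚ) : ℝ) ^ 2 * ((TH.eeU t : ℚ) : ℝ) ^ 2 := by gcongr
      _ ≤ 2 * n * ((TP.low n t S K d : ℚ) : ℝ) ^ 2 * ((CF.nmL 0 t : ℚ) : ℝ) ^ 4 := hc'
      _ ≤ 2 * n * I ^ 2 * Nm t 0 ^ 4 := by gcongr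
      _ = (Real.sqrt 2 * Real.sqrt n * I * Nm t 0 ^ 2) ^ 2 := by
          have e1 : Real.sqrt 2 ^ 2 = 2 := Real.sq_sqrt (by norm_num)
          have e2 : Real.sqrt n ^ 2 = n := Real.sq_sqrt hn0
          calc (2 : ℝ) * n * I ^ 2 * Nm t 0 ^ 4 = Real.sqrt 2 ^ 2 * Real.sqrt n ^ 2 * I ^ 2 * Nm t 0 ^ 4 := by
                rw [e1, e2]
            _ = _ := by ring
  have e1 : (1 + (m : ℝ)) * (Nm (Real.sqrt 2 * t) 0 / (Real.sqrt 2 * t * Nm t 0 ^ 2)) =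
      ((1 + (m : ℝ)) * π * Nm (Real.sqrt 2 * t) 0) / (π * Real.sqrt 2 * t * Nm t 0 ^ 2) := by
    field_simp
  have e2 : Real.sqrt n / (π * t) * I =
      (Real.sqrt 2 * Real.sqrt n * I * Nm t 0 ^ 2) / (π * Real.sqrt 2 * t * Nm t 0 ^ 2) := by
    field_simp
  rw [e1, e2]
  exact div_le_div_of_nonneg_right key (by positivity)

theorem pt7 : (1 + 3 / 1000) * p2 (98 / 100) ≤ pn 7 (98 / 100) := by
  have h := okPt_sound (n := 7) (t := 98 / 100) (S := 4) (K := 11) (d := 1 / 1000000000000) (m := 3 / 1000)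
    (by decide +kernel)
  push_cast at h
  exact h

theorem pt6 : (1 + 4 / 1000) * p2 (104 / 100) ≤ pn 6 (104 / 100) := by
  have h := okPt_sound (n := 6) (t := 104 / 100) (S := 4) (K := 11) (d := 1 / 1000000000000) (m := 4 / 1000)
    (by decide +kernel)
  push_cast at h
  exact h

theorem pt5 : (1 + 15 / 10000) * p2 (107 / 100) ≤ pn 5 (107 / 100) := by
  have h := okPt_sound (n := 5) (t := 107 / 100) (S := 5) (K := 13) (d := 1 / 1000000000000) (m := 15 / 10000)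
    (by decide +kernel)
  push_cast at h
  exact h

theorem pt4a : (1 + 25 / 100000) * p2 (1145 / 1000) ≤ pn 4 (1145 / 1000) := by
  have h := okPt_sound (n := 4) (t := 1145 / 1000) (S := 5) (K := 13) (d := 1 / 1000000000000) (m := 25 / 100000)
    (by decide +kernel)
  push_cast at h
  exact h

theorem pt4b : (1 + 15 / 10000) * p2 (117 / 100) ≤ pn 4 (117 / 100) := by
  have h := okPt_sound (n := 4) (t := 117 / 100) (S := 5) (K := 13) (d := 1 / 1000000000000) (m := 15 / 10000)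
    (by decide +kernel)
  push_cast at h
  exact h

theorem pt4c : (1 + 4 / 1000) * p2 (122 / 100) ≤ pn 4 (122 / 100) := by
  have h := okPt_sound (n := 4) (t := 122 / 100) (S := 5) (K := 13) (d := 1 / 1000000000000) (m := 4 / 1000)
    (by decide +kernel)
  push_cast at h
  exact h

theorem pt4d : (1 + 8 / 1000) * p2 (13 / 10) ≤ pn 4 (13 / 10) := by
  have h := okPt_sound (n := 4) (t := 13 / 10) (S := 5) (K := 13) (d := 1 / 1000000000000) (m := 8 / 1000)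
    (by decide +kernel)
  push_cast at h
  exact h

theorem pt3 : (1 + 1 / 1000) * p2 (14 / 10) ≤ pn 3 (14 / 10) := by
  have h := okPt_sound (n := 3) (t := 14 / 10) (S := 10) (K := 22) (d := 1 / 1000000000000) (m := 1 / 1000)
    (by decide +kernel)
  push_cast at h
  exact h

end GCube
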