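import Pool.Agent.Lib.H83.ThDefs

/-!
Chunk XW3 (M): `W3 τ → 0` for `τ → ∞`.

`EE τ → √π/2`, `G τ → √(2π)/2` (`integral_gaussian`, `integral_gaussian_Ioi`, `LA1_G_eq`), `ψ(τ,s) → √(2π) E(s)` (`LA1_cos`), and for `τ ≥ 1`
`|ψ(τ,s)| ≤ min(√(2π), 2/|s|)` (`abs_psi_le`, `psi_zero_eq`, `abs_psi_le_inv`), so by dominated convergence
`In 3 τ → ∫ (2π)^(3/2) exp(-3s²/2) ds = (2π)^(3/2) √(2π/3) = 4π²/√3`, and `W3 → √3 · 2π/√3 - 4√2 · (√π/2) (√(2π)/2) = 2π - 2π = 0`.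
-/

open MeasureTheory Set Filter
open scoped Real Topology

namespace GCube

theorem XW3_EE : Tendsto EE atTop (𝓝 (Real.sqrt π / 2)) := by
  have h := integral_gaussian_Ioi 1
  have hi : Integrable fun x : ℝ => Real.exp (-1 * x ^ 2) := integrable_exp_neg_mul_sq one_pos
  have ht := intervalIntegral_tendsto_integral_Ioi (0 : ℝ) hi.integrableOn (tendsto_id (α := ℝ) (x := atTop))
  rw [h, div_one] at ht
  refine ht.congr fun x => ?_
  unfold EE
  simp [neg_mul]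

theorem XW3_G : Tendsto G atTop (𝓝 (Real.sqrt (2 * π) / 2)) := by
  have h := integral_gaussian_Ioi (1 / 2)
  have hi : Integrable fun x : ℝ => Real.exp (-(1 / 2) * x ^ 2) := integrable_exp_neg_mul_sq (by norm_num)
  have ht := intervalIntegral_tendsto_integral_Ioi (0 : ℝ) hi.integrableOn (tendsto_id (α := ℝ) (x := atTop))
  rw [h, show π / (1 / 2) = 2 * π by ring] at ht
  refine ht.congr fun x => ?_
  unfold G
  refine intervalIntegral.integral_congr fun u _ => ?_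
  exact (LA1_E_exp u).symm

theorem XW3_psi (s : ℝ) : Tendsto (fun τ => psi τ s) atTop (𝓝 (Real.sqrt (2 * π) * E s)) := by
  rw [← LA1_cos]
  exact intervalIntegral_tendsto_integral (LA1_Ecos_int s) tendsto_neg_atTop_atBot tendsto_id

theorem XW3_G_le {τ : ℝ} (hτ : 0 < τ) : G τ ≤ 12534 / 10000 := by
  have h1 := LA1_G_eq hτ.le
  have h2 := LA1_tail_nonneg τ
  have h3 := LA1_sqrt.2
  linarith

theorem XW3_bound {τ : ℝ} (hτ : 0 < τ) (s : ℝ) : ‖psi τ s ^ 3‖ ≤ 39 * (1 + s ^ 2)⁻¹ := by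
  have h1 := abs_psi_le hτ s
  rw [psi_zero_eq] at h1
  have h2 := XW3_G_le hτ
  have h3 : |psi τ s| ≤ 3 := by linarith
  have h4 : s ^ 2 * psi τ s ^ 2 ≤ 4 := by
    rcases eq_or_ne s 0 with rfl | hs
    · simp
    · have h := abs_psi_le_inv hτ hs
      have hs' : 0 < |s| := abs_pos.2 hs
      rw [le_div_iff₀ hs'] at h
      have h5 : (|psi τ s| * |s|) ^ 2 ≤ 2 ^ 2 := pow_le_pow_left₀ (by positivity) h 2
      rw [mul_pow, sq_abs, sq_abs] at h5
      nlinarith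
  have h5 : psi τ s ^ 2 ≤ 9 := by
    have h := pow_le_pow_left₀ (abs_nonneg _) h3 2
    rw [sq_abs] at h
    linarith
  have hpos : 0 < 1 + s ^ 2 := by positivity
  rw [Real.norm_eq_abs, abs_pow, ← div_eq_mul_inv, le_div_iff₀ hpos]
  have e : |psi τ s| ^ 3 * (1 + s ^ 2) = |psi τ s| * (psi τ s ^ 2 + s ^ 2 * psi τ s ^ 2) := by
    have h := sq_abs (psi τ s)
    rw [← h]
    ring
  rw [e]
  have h6 : psi τ s ^ 2 + s ^ 2 * psi τ s ^ 2 ≤ 13 := by linarith
  calc |psi τ s| * (psi τ s ^ 2 + s ^ 2 * psi τ s ^ 2) ≤ 3 * 13 :=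
        mul_le_mul h3 h6 (by positivity) (by norm_num)
    _ = 39 := by norm_num

theorem XW3_In : Tendsto (In 3) atTop (𝓝 (∫ s : ℝ, (Real.sqrt (2 * π) * E s) ^ 3)) := by
  unfold In
  refine tendsto_integral_filter_of_dominated_convergence (fun s : ℝ => 39 * (1 + s ^ 2)⁻¹) ?_ ?_
    (integrable_inv_one_add_sq.const_mul 39) ?_
  · exact Eventually.of_forall fun τ => ((psi_continuous τ).pow 3).aestronglyMeasurable
  · filter_upwards [eventually_gt_atTop 0] with τ hτ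
    exact Eventually.of_forall fun s => XW3_bound hτ s
  · exact Eventually.of_forall fun s => (XW3_psi s).pow 3

theorem XW3_val : ∫ s : ℝ, (Real.sqrt (2 * π) * E s) ^ 3 = (2 * π) * (2 * π) / Real.sqrt 3 := by
  have e : ∀ s : ℝ, (Real.sqrt (2 * π) * E s) ^ 3 = Real.sqrt (2 * π) ^ 3 * Real.exp (-(3 / 2) * s ^ 2) := by
    intro s
    rw [mul_pow, LA1_E_exp, ← Real.exp_nat_mul]
    congr 2
    push_cast
    ring
  simp only [e]
  rw [integral_const_mul, integral_gaussian, show π / (3 / 2) = (2 * π) / 3 by ring,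
    Real.sqrt_div (by positivity)]
  have h := Real.sq_sqrt (show (0 : ℝ) ≤ 2 * π by positivity)
  have e2 : Real.sqrt (2 * π) ^ 3 * (Real.sqrt (2 * π) / Real.sqrt 3) =
      (Real.sqrt (2 * π) ^ 2) * (Real.sqrt (2 * π) ^ 2) / Real.sqrt 3 := by ring
  rw [e2, h]

theorem W3_tendsto : Tendsto W3 atTop (𝓝 0) := by
  have h1 := XW3_In
  rw [XW3_val] at h1
  have h2 : Tendsto W3 atTop (𝓝 (Real.sqrt 3 * ((2 * π) * (2 * π) / Real.sqrt 3 / (2 * π)) -
      4 * Real.sqrt 2 * (Real.sqrt π / 2 * (Real.sqrt (2 * π) / 2)))) := by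
    unfold W3
    exact ((h1.div_const _).const_mul _).sub ((XW3_EE.mul XW3_G).const_mul _)
  have e : Real.sqrt 3 * ((2 * π) * (2 * π) / Real.sqrt 3 / (2 * π)) -
      4 * Real.sqrt 2 * (Real.sqrt π / 2 * (Real.sqrt (2 * π) / 2)) = 0 := by
    have hpi := Real.pi_pos
    have h3 : Real.sqrt 3 ≠ 0 := by positivity
    have ha : Real.sqrt 3 * ((2 * π) * (2 * π) / Real.sqrt 3 / (2 * π)) = 2 * π := by
      field_simp
    have hb : Real.sqrt (2 * π) = Real.sqrt 2 * Real.sqrt π := Real.sqrt_mul (by norm_num) π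
    have h4 := Real.sq_sqrt (show (0 : ℝ) ≤ 2 by norm_num)
    have h5 := Real.sq_sqrt hpi.le
    rw [ha, hb]
    have : 4 * Real.sqrt 2 * (Real.sqrt π / 2 * (Real.sqrt 2 * Real.sqrt π / 2)) =
        Real.sqrt 2 ^ 2 * Real.sqrt π ^ 2 := by ring
    rw [this, h4, h5]
    ring
  rwa [e] at h2

end GCube
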