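import Pool.Agent.Lib.H83.PMCheck
import Pool.Agent.Lib.H83.ThCheck

/-!
Rational checker for the sign of `b3` (definitions only). Break points in units of `1/1000`.
-/

namespace GCube

namespace TW

/-- `EE r ≤ EEU r`, `r ≥ 0` -/
def EEU (r : ℚ) : ℚ := CF.ru (r * CF.nmS 0 (r ^ 2) 0 61)

/-- `b3 ≥ bLow t1 t2` on `[t1,t2]` -/
def bLow (t1 t2 : ℚ) : ℚ :=
  3 * (1732050 / 1000000) * (CF.emL (t2 ^ 2 / 4) * CF.EEL (t1 / 2)) -
    1414214 / 1000000 * (CF.emU (t1 ^ 2 / 2) * (t2 * CF.nmU 0 t2) + EEU t2)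

/-- `b3 ≤ bUp t1 t2` on `[t1,t2]` -/
def bUp (t1 t2 : ℚ) : ℚ :=
  3 * (1732051 / 1000000) * (CF.emU (t1 ^ 2 / 4) * EEU (t2 / 2)) -
    1414213 / 1000000 * (CF.emL (t2 ^ 2 / 2) * (t1 * CF.nmL 0 t1) + CF.EEL t1)

def okLow (m : ℚ) : ℕ → List ℕ → Bool
  | _, [] => true
  | t, u :: l => decide (0 < t) && decide (t ≤ u) && decide (0 ≤ CF.emL ((u / 1000) ^ 2 / 4)) &&
      decide (m < bLow (t / 1000) (u / 1000)) && okLow m u l

def okUp (m : ℚ) : ℕ → List ℕ → Bool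
  | _, [] => true
  | t, u :: l => decide (0 < t) && decide (t ≤ u) && decide (0 ≤ CF.emL ((u / 1000) ^ 2 / 2)) &&
      decide (0 ≤ CF.nmL 0 (t / 1000)) && decide (bUp (t / 1000) (u / 1000) < m) && okUp m u l

end TW

end GCube
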