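import Pool.Agent.Lib.H83.ThNumA
import Pool.Agent.Lib.H83.ThWCheck
import Pool.Agent.Lib.H83.ThW3

/-!
Chunk XW2 (S/M): signs of `b3 τ = 3√3 exp(-τ²/4) EE(τ/2) - √2 (E(τ)G(τ) + EE(τ))`.

On `[t1,t2]`: `exp(-τ²/4)`, `E` decreasing, `EE`, `G` increasing; `EEL_le`, `EE r ≤ EEU r` (like `EEL_le`, odd count), `G t = t Nm t 0`,
`1.732050 ≤ √3 ≤ 1.732051`, `1.414213 ≤ √2 ≤ 1.414214`. Tables (`by decide +kernel`, checked):
`TW.okLow 0 1200 [1263, 1333, 1409, 1489, 1568, 1643, 1710, 1766, 1810, 1844, 1868, 1880]`, `TW.okLow (-5/100) 1880 [1921, 1950]`,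
`TW.okUp 0 1950 [1965, 1990, 2034, 2119, 2300]`.
`τ ≥ 2.3`: `b3 ≤ 3√3 exp(-1.3225) √π/2 - √2 EE(2.3) < 0` (1.2271 < 1.2518; `EE ≤ √π/2`: `integral_gaussian`, `E G ≥ 0`).
-/

open MeasureTheory Set
open scoped Real

namespace GCube

open CF

theorem XW2_EEU {r : ℚ} (hr : 0 ≤ r) : EE r ≤ ((TW.EEU r : ℚ) : ℝ) := by
  have hr' : (0 : ℝ) ≤ (r : ℝ) := by exact_mod_cast hr
  unfold TW.EEU
  refine le_trans ?_ (cpr_ru _)
  push_cast
  rw [cpr_nm_int, PMSound_EE_eq]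
  apply mul_le_mul_of_nonneg_left _ hr'
  have hc := cprEm_cont 61 0
  apply intervalIntegral.integral_mono_on zero_le_one
  · exact (by fun_prop : Continuous fun ξ : ℝ => Real.exp (-((r : ℝ) ^ 2 * ξ ^ 2))).intervalIntegrable _ _
  · have hc2 : Continuous (fun ξ : ℝ => cprEm (((r ^ 2 : ℚ) : ℝ) * ξ ^ 2) 0 61) :=
      hc.comp (by fun_prop : Continuous (fun ξ : ℝ => ((r ^ 2 : ℚ) : ℝ) * ξ ^ 2))
    exact (by fun_prop : Continuous fun ξ : ℝ => ξ ^ (2 * 0 + 0) *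
      cprEm (((r ^ 2 : ℚ) : ℝ) * ξ ^ 2) 0 61).intervalIntegrable _ _
  · intro ξ _
    have e : 2 * 0 + 0 = 0 := by omega
    rw [e, cpr_em_ps, pow_zero, one_mul]
    push_cast
    exact AIneq.exp_le_ps (by decide) (by positivity)

theorem XW2_s3 : (1732050 / 1000000 : ℝ) ≤ Real.sqrt 3 ∧ Real.sqrt 3 ≤ 1732051 / 1000000 :=
  ⟨Real.le_sqrt_of_sq_le (by norm_num), Real.sqrt_le_iff.2 ⟨by norm_num, by norm_num⟩⟩

theorem XW2_s2 : (1414213 / 1000000 : ℝ) ≤ Real.sqrt 2 ∧ Real.sqrt 2 ≤ 1414214 / 1000000 :=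
  ⟨Real.le_sqrt_of_sq_le (by norm_num), Real.sqrt_le_iff.2 ⟨by norm_num, by norm_num⟩⟩

theorem XW2_G {t : ℝ} (ht : 0 ≤ t) : 0 ≤ G t := by
  have h := ls_G_mono ht
  have h0 : G 0 = 0 := by unfold G; simp
  linarith

theorem XW2_exp {t : ℚ} : Real.exp (-((t : ℝ) ^ 2) / 4) ≤ ((emU (t ^ 2 / 4) : ℚ) : ℝ) ∧
    ((emL (t ^ 2 / 4) : ℚ) : ℝ) ≤ Real.exp (-((t : ℝ) ^ 2) / 4) := by
  have h1 := le_emU (w := t ^ 2 / 4) (by positivity)
  have h2 := emL_le (w := t ^ 2 / 4) (by positivity)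
  push_cast at h1 h2
  have e : -((t : ℝ) ^ 2) / 4 = -((t : ℝ) ^ 2 / 4) := by ring
  rw [e]
  exact ⟨h1, h2⟩

theorem XW2_E {t : ℚ} : E (t : ℝ) ≤ ((emU (t ^ 2 / 2) : ℚ) : ℝ) ∧
    ((emL (t ^ 2 / 2) : ℚ) : ℝ) ≤ E (t : ℝ) := by
  have h1 := le_emU (w := t ^ 2 / 2) (by positivity)
  have h2 := emL_le (w := t ^ 2 / 2) (by positivity)
  push_cast at h1 h2
  have e : E (t : ℝ) = Real.exp (-((t : ℝ) ^ 2 / 2)) := by
    unfold E
    congr 1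
    ring
  rw [e]
  exact ⟨h1, h2⟩

theorem XW2_expmono {a b : ℝ} (ha : 0 ≤ a) (hab : a ≤ b) : Real.exp (-(b ^ 2) / 4) ≤ Real.exp (-(a ^ 2) / 4) := by
  apply Real.exp_le_exp.2
  have := pow_le_pow_left₀ ha hab 2
  linarith

theorem XW2_Emono {a b : ℝ} (ha : 0 ≤ a) (hab : a ≤ b) : E b ≤ E a := by
  unfold E
  apply Real.exp_le_exp.2
  have := pow_le_pow_left₀ ha hab 2
  linarith

theorem XW2_low {t1 t2 : ℚ} (h0 : 0 < t1) (h12 : t1 ≤ t2) (hL : 0 ≤ emL (t2 ^ 2 / 4)) {τ : ℝ}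
    (h1 : (t1 : ℝ) ≤ τ) (h2 : τ ≤ t2) : ((TW.bLow t1 t2 : ℚ) : ℝ) ≤ b3 τ := by
  have h0' : (0 : ℝ) < (t1 : ℝ) := by exact_mod_cast h0
  have hτ : 0 < τ := h0'.trans_le h1
  have ht2 : (0 : ℝ) < (t2 : ℝ) := hτ.trans_le h2
  have ht2' : 0 < t2 := h0.trans_le h12
  have hL' : (0 : ℝ) ≤ ((emL (t2 ^ 2 / 4) : ℚ) : ℝ) := by exact_mod_cast hL
  have a1 : ((emL (t2 ^ 2 / 4) : ℚ) : ℝ) ≤ Real.exp (-(τ ^ 2) / 4) :=
    XW2_exp.2.trans (XW2_expmono hτ.le h2)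
  have a2 : ((EEL (t1 / 2) : ℚ) : ℝ) ≤ EE (τ / 2) := by
    have h := EEL_le (r := t1 / 2) (by positivity)
    push_cast at h
    exact h.trans (UThree_EE_mono (by linarith))
  have a3 : 0 ≤ EE (τ / 2) := UThree_EE_nonneg (by linarith)
  have a4 : ((emL (t2 ^ 2 / 4) : ℚ) : ℝ) * ((EEL (t1 / 2) : ℚ) : ℝ) ≤ Real.exp (-(τ ^ 2) / 4) * EE (τ / 2) :=
    (mul_le_mul_of_nonneg_left a2 hL').trans (mul_le_mul_of_nonneg_right a1 a3)
  have a5 : 0 ≤ Real.exp (-(τ ^ 2) / 4) * EE (τ / 2) := mul_nonneg (Real.exp_pos _).le a3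
  have a6 := mul_le_mul_of_nonneg_right XW2_s3.1 a5
  have b1 : E τ ≤ ((emU (t1 ^ 2 / 2) : ℚ) : ℝ) := (XW2_Emono h0'.le h1).trans XW2_E.1
  have b2 : G τ ≤ (t2 : ℝ) * ((nmU 0 t2 : ℚ) : ℝ) := by
    refine (ls_G_mono h2).trans ?_
    rw [LA1_N0 ht2]
    exact mul_le_mul_of_nonneg_left (le_nmU 0 ht2'.le) ht2.le
  have b3' : EE τ ≤ ((TW.EEU t2 : ℚ) : ℝ) := (UThree_EE_mono h2).trans (XW2_EEU ht2'.le)
  have b4 : E τ * G τ ≤ ((emU (t1 ^ 2 / 2) : ℚ) : ℝ) * ((t2 : ℝ) * ((nmU 0 t2 : ℚ) : ℝ)) :=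
    mul_le_mul b1 b2 (XW2_G hτ.le) ((E_pos _).le.trans b1)
  have b5 : 0 ≤ E τ * G τ + EE τ := add_nonneg (mul_nonneg (E_pos _).le (XW2_G hτ.le)) (UThree_EE_nonneg hτ.le)
  have b6 := mul_le_mul_of_nonneg_right XW2_s2.2 b5
  unfold TW.bLow b3
  push_cast
  linarith

theorem XW2_up {t1 t2 : ℚ} (h0 : 0 < t1) (h12 : t1 ≤ t2) (hL : 0 ≤ emL (t2 ^ 2 / 2)) (hN : 0 ≤ nmL 0 t1) {τ : ℝ}
    (h1 : (t1 : ℝ) ≤ τ) (h2 : τ ≤ t2) : b3 τ ≤ ((TW.bUp t1 t2 : ℚ) : ℝ) := by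
  have h0' : (0 : ℝ) < (t1 : ℝ) := by exact_mod_cast h0
  have hτ : 0 < τ := h0'.trans_le h1
  have ht2 : (0 : ℝ) < (t2 : ℝ) := hτ.trans_le h2
  have ht2' : 0 < t2 := h0.trans_le h12
  have hL' : (0 : ℝ) ≤ ((emL (t2 ^ 2 / 2) : ℚ) : ℝ) := by exact_mod_cast hL
  have hN' : (0 : ℝ) ≤ ((nmL 0 t1 : ℚ) : ℝ) := by exact_mod_cast hN
  have a1 : Real.exp (-(τ ^ 2) / 4) ≤ ((emU (t1 ^ 2 / 4) : ℚ) : ℝ) :=
    (XW2_expmono h0'.le h1).trans XW2_exp.1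
  have a2 : EE (τ / 2) ≤ ((TW.EEU (t2 / 2) : ℚ) : ℝ) := by
    have h := XW2_EEU (r := t2 / 2) (by positivity)
    push_cast at h
    exact (UThree_EE_mono (by linarith)).trans h
  have a3 : 0 ≤ EE (τ / 2) := UThree_EE_nonneg (by linarith)
  have a4 : Real.exp (-(τ ^ 2) / 4) * EE (τ / 2) ≤ ((emU (t1 ^ 2 / 4) : ℚ) : ℝ) * ((TW.EEU (t2 / 2) : ℚ) : ℝ) :=
    mul_le_mul a1 a2 a3 ((Real.exp_pos _).le.trans a1)
  have a5 : 0 ≤ Real.exp (-(τ ^ 2) / 4) * EE (τ / 2) := mul_nonneg (Real.exp_pos _).le a3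
  have a6 := mul_le_mul_of_nonneg_right XW2_s3.2 a5
  have b1 : ((emL (t2 ^ 2 / 2) : ℚ) : ℝ) ≤ E τ := XW2_E.2.trans (XW2_Emono hτ.le h2)
  have b2 : (t1 : ℝ) * ((nmL 0 t1 : ℚ) : ℝ) ≤ G τ := by
    refine le_trans ?_ (ls_G_mono h1)
    rw [LA1_N0 h0']
    exact mul_le_mul_of_nonneg_left (nmL_le 0 h0.le) h0'.le
  have b3' : ((EEL t1 : ℚ) : ℝ) ≤ EE τ := (EEL_le h0.le).trans (UThree_EE_mono h1)
  have b4 : ((emL (t2 ^ 2 / 2) : ℚ) : ℝ) * ((t1 : ℝ) * ((nmL 0 t1 : ℚ) : ℝ)) ≤ E τ * G τ :=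
    mul_le_mul b1 b2 (mul_nonneg h0'.le hN') (E_pos _).le
  have b5 : 0 ≤ E τ * G τ + EE τ := add_nonneg (mul_nonneg (E_pos _).le (XW2_G hτ.le)) (UThree_EE_nonneg hτ.le)
  have b6 := mul_le_mul_of_nonneg_right XW2_s2.1 b5
  unfold TW.bUp b3
  push_cast
  linarith

theorem XW2_okLow {m : ℚ} {t : ℕ} {l : List ℕ} (h : TW.okLow m t l = true) {τ : ℝ} (h0 : l ≠ [] ∨ (t : ℝ) / 1000 < τ)
    (h1 : (t : ℝ) / 1000 ≤ τ) (h2 : τ ≤ ((l.getLastD t : ℕ) : ℝ) / 1000) : (m : ℝ) < b3 τ := by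
  induction l generalizing t with
  | nil =>
    rcases h0 with h0 | h0
    · exact absurd rfl h0
    · simp only [List.getLastD_nil] at h2
      linarith
  | cons u l ih =>
    unfold TW.okLow at h
    simp only [Bool.and_eq_true, decide_eq_true_eq] at h
    obtain ⟨⟨⟨⟨ha, hb⟩, hc⟩, hd⟩, he⟩ := h
    rcases le_or_gt τ ((u : ℝ) / 1000) with h3 | h3
    · have h4 := XW2_low (t1 := (t : ℚ) / 1000) (t2 := (u : ℚ) / 1000) (by
          have : (0 : ℚ) < t := by exact_mod_cast ha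
          positivity) (by
          have : (t : ℚ) ≤ u := by exact_mod_cast hb
          linarith) hc (τ := τ) (by push_cast; exact h1) (by push_cast; exact h3)
      have h5 : (m : ℝ) < ((TW.bLow ((t : ℚ) / 1000) ((u : ℚ) / 1000) : ℚ) : ℝ) := by exact_mod_cast hd
      exact h5.trans_le h4
    · refine ih he (Or.inr h3) h3.le ?_
      rw [List.getLastD_cons] at h2
      exact h2

theorem XW2_okUp {m : ℚ} {t : ℕ} {l : List ℕ} (h : TW.okUp m t l = true) {τ : ℝ} (h0 : l ≠ [] ∨ (t : ℝ) / 1000 < τ)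
    (h1 : (t : ℝ) / 1000 ≤ τ) (h2 : τ ≤ ((l.getLastD t : ℕ) : ℝ) / 1000) : b3 τ < (m : ℝ) := by
  induction l generalizing t with
  | nil =>
    rcases h0 with h0 | h0
    · exact absurd rfl h0
    · simp only [List.getLastD_nil] at h2
      linarith
  | cons u l ih =>
    unfold TW.okUp at h
    simp only [Bool.and_eq_true, decide_eq_true_eq] at h
    obtain ⟨⟨⟨⟨⟨ha, hb⟩, hc⟩, hc2⟩, hd⟩, he⟩ := h
    rcases le_or_gt τ ((u : ℝ) / 1000) with h3 | h3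
    · have h4 := XW2_up (t1 := (t : ℚ) / 1000) (t2 := (u : ℚ) / 1000) (by
          have : (0 : ℚ) < t := by exact_mod_cast ha
          positivity) (by
          have : (t : ℚ) ≤ u := by exact_mod_cast hb
          linarith) hc hc2 (τ := τ) (by push_cast; exact h1) (by push_cast; exact h3)
      have h5 : ((TW.bUp ((t : ℚ) / 1000) ((u : ℚ) / 1000) : ℚ) : ℝ) < (m : ℝ) := by exact_mod_cast hd
      exact h4.trans_lt h5
    · refine ih he (Or.inr h3) h3.le ?_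
      rw [List.getLastD_cons] at h2
      exact h2

theorem XW2_tab1 : TW.okLow 0 1200 [1263, 1333, 1409, 1489, 1568, 1643, 1710, 1766, 1810, 1844, 1868, 1880] = true := by
  decide +kernel

theorem XW2_tab2 : TW.okLow (-5 / 100) 1880 [1921, 1950] = true := by decide +kernel

theorem XW2_tab3 : TW.okUp 0 1950 [1965, 1990, 2034, 2119, 2300] = true := by decide +kernel

theorem b3_pos {τ : ℝ} (h1 : 12 / 10 ≤ τ) (h2 : τ ≤ 188 / 100) : 0 < b3 τ := by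
  have h := XW2_okLow XW2_tab1 (τ := τ) (Or.inl (by simp)) (by push_cast; linarith)
    (by simp only [List.getLastD_cons, List.getLastD_nil]; push_cast; linarith)
  simpa using h

theorem b3_mid {τ : ℝ} (h1 : 188 / 100 ≤ τ) (h2 : τ ≤ 195 / 100) : -(5 / 100) ≤ b3 τ := by
  have h := XW2_okLow XW2_tab2 (τ := τ) (Or.inl (by simp)) (by push_cast; linarith)
    (by simp only [List.getLastD_cons, List.getLastD_nil]; push_cast; linarith)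
  push_cast at h
  linarith

theorem XW2_EE_le (x : ℝ) : EE x ≤ 88625 / 100000 := by
  have h := UThree_EE_mono.ge_of_tendsto XW3_EE x
  have h2 : Real.sqrt π ≤ 17725 / 10000 :=
    Real.sqrt_le_iff.2 ⟨by norm_num, by nlinarith [Real.pi_lt_d4]⟩
  linarith

theorem XW2_n1 : emU (13225 / 10000) ≤ 267 / 1000 := by decide +kernel

theorem XW2_n2 : 885 / 1000 ≤ EEL (23 / 10) := by decide +kernel

theorem XW2_far {τ : ℝ} (h : 23 / 10 ≤ τ) : b3 τ < 0 := by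
  have hτ : 0 < τ := by linarith
  have a1 : Real.exp (-(τ ^ 2) / 4) ≤ 267 / 1000 := by
    have h1 := le_emU (w := 13225 / 10000) (by norm_num)
    have h2 : ((emU (13225 / 10000) : ℚ) : ℝ) ≤ ((267 / 1000 : ℚ) : ℝ) := by exact_mod_cast XW2_n1
    have h3 := XW2_expmono (a := 23 / 10) (by norm_num) h
    have e : -(((13225 / 10000 : ℚ)) : ℝ) = -((23 / 10 : ℝ) ^ 2) / 4 := by push_cast; norm_num
    rw [e] at h1
    push_cast at h2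
    linarith
  have a2 := XW2_EE_le (τ / 2)
  have a3 : 0 ≤ EE (τ / 2) := UThree_EE_nonneg (by linarith)
  have a4 : Real.exp (-(τ ^ 2) / 4) * EE (τ / 2) ≤ 267 / 1000 * (88625 / 100000) :=
    mul_le_mul a1 a2 a3 (by norm_num)
  have a5 : 0 ≤ Real.exp (-(τ ^ 2) / 4) * EE (τ / 2) := mul_nonneg (Real.exp_pos _).le a3
  have a6 := mul_le_mul_of_nonneg_right XW2_s3.2 a5
  have b1 : 885 / 1000 ≤ EE τ := by
    have h1 := EEL_le (r := 23 / 10) (by norm_num)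
    have h2 : ((885 / 1000 : ℚ) : ℝ) ≤ ((EEL (23 / 10) : ℚ) : ℝ) := by exact_mod_cast XW2_n2
    have h3 : EE ((23 / 10 : ℚ) : ℝ) ≤ EE τ := UThree_EE_mono (by push_cast; exact h)
    push_cast at h2 h1 h3
    linarith
  have b2 : 0 ≤ E τ * G τ := mul_nonneg (E_pos _).le (XW2_G hτ.le)
  have b5 : 0 ≤ E τ * G τ + EE τ := by linarith
  have b6 := mul_le_mul_of_nonneg_right XW2_s2.1 b5
  unfold b3
  linarith

theorem b3_neg {τ : ℝ} (h1 : 195 / 100 ≤ τ) : b3 τ < 0 := by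
  rcases le_or_gt τ (23 / 10) with h2 | h2
  · have h := XW2_okUp XW2_tab3 (τ := τ) (Or.inl (by simp)) (by push_cast; linarith)
      (by simp only [List.getLastD_cons, List.getLastD_nil]; push_cast; linarith)
    simpa using h
  · exact XW2_far h2.le

end GCube
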