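import Pool.Agent.Lib.H83.ThW1
import Pool.Agent.Lib.H83.ThW2
import Pool.Agent.Lib.H83.ThW3
import Pool.Agent.Lib.H83.ThPtD

/-!
Chunk XW4 (S): `n = 3`.

`W3_mono`: `b3_pos`. `W3_pos`: on `[1.4,1.88]` increasing from `W3(1.4) = 8G³(pn 3 - p2) ≥ 8G³ · p2/1000 = (8/√2) G EE/1000 > 0.005 - 0.0005`
(`pt3`, `pn_three`; `G(1.4) ≥ 1.05`, `EE(1.4) ≥ 0.84`, e.g. from `CF.nmL_le`, `EEL_le`); on `[1.88,1.95]`
`W3 ≥ W3(1.88) - 0.07 · 4 E(1.88) · 0.05 ≥ 0.0045 - 0.0025 > 0` (`b3_mid`, `E(1.88) ≤ 0.1709`); on `[1.95,∞)` strictly decreasing (`b3_neg`)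
with limit `0` (`W3_tendsto`), hence `> 0`.
-/

open MeasureTheory Set
open scoped Real

namespace GCube

theorem W3_mono : StrictMonoOn W3 (Icc (12 / 10) (188 / 100)) := by
  refine strictMonoOn_of_deriv_pos (convex_Icc _ _) ?_ ?_
  · intro t ht
    have ht0 : (0 : ℝ) < t := lt_of_lt_of_le (by norm_num) ht.1
    exact (hasDerivAt_W3 ht0).continuousAt.continuousWithinAt
  · intro t ht
    rw [interior_Icc] at ht
    have ht0 : (0 : ℝ) < t := lt_trans (by norm_num) ht.1
    rw [(hasDerivAt_W3 ht0).deriv]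
    have := b3_pos ht.1.le ht.2.le
    have := E_pos t
    positivity

theorem XW4_start : 49 / 10000 ≤ W3 (14 / 10) := by
  have hτ : (0 : ℝ) < 14 / 10 := by norm_num
  have h1 := pn_three hτ
  have h2 := pt3
  have hG := XA3_Gpos hτ
  have hG1 : 104 / 100 ≤ G (14 / 10) := by
    have h := CF.nmL_le 0 (t := 14 / 10) (by norm_num)
    have h3 : (3 / 4 : ℚ) ≤ CF.nmL 0 (14 / 10) := by decide +kernel
    have h4 := (Rat.cast_le (K := ℝ)).mpr h3
    push_cast at h h4
    rw [YK_G_eq]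
    linarith
  have hE1 : 84 / 100 ≤ EE (14 / 10) := by
    have h := EEL_le (r := 14 / 10) (by norm_num)
    have h3 : (84 / 100 : ℚ) ≤ CF.EEL (14 / 10) := by decide +kernel
    have h4 := (Rat.cast_le (K := ℝ)).mpr h3
    push_cast at h h4
    linarith
  have h3 : p2 (14 / 10) / 1000 ≤ W3 (14 / 10) / (8 * G (14 / 10) ^ 3) := by
    rw [← h1]
    linarith
  rw [le_div_iff₀ (by positivity)] at h3
  refine le_trans ?_ h3
  unfold p2 ct
  have hs : (0 : ℝ) < Real.sqrt 2 := by positivity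
  have e : EE (14 / 10) / G (14 / 10) ^ 2 / Real.sqrt 2 / 1000 * (8 * G (14 / 10) ^ 3) =
      4 * Real.sqrt 2 * (EE (14 / 10) * G (14 / 10)) / 1000 := by
    have hs2 : Real.sqrt 2 ^ 2 = 2 := Real.sq_sqrt (by norm_num)
    field_simp
    rw [hs2]
    ring
  rw [e]
  have hs3 : (1414 / 1000 : ℝ) ≤ Real.sqrt 2 := Real.le_sqrt_of_sq_le (by norm_num)
  have h5 : (84 / 100 : ℝ) * (104 / 100) ≤ EE (14 / 10) * G (14 / 10) :=
    mul_le_mul hE1 hG1 (by norm_num) (by linarith)
  nlinarith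

theorem XW4_E : E (188 / 100) ≤ 1 / 4 := by
  unfold E
  rw [show -((188 / 100 : ℝ) ^ 2) / 2 = -(17672 / 10000) by norm_num, Real.exp_neg]
  have h := Real.quadratic_le_exp_of_nonneg (x := 17672 / 10000) (by norm_num)
  rw [inv_eq_one_div]
  exact one_div_le_one_div_of_le (by norm_num) (by linarith)

theorem XW4_mid {τ : ℝ} (h1 : 188 / 100 ≤ τ) (h2 : τ ≤ 195 / 100) : 0 < W3 τ := by
  have hm : MonotoneOn (fun t => W3 t + t / 20) (Icc (188 / 100) (195 / 100)) := by
    refine monotoneOn_of_deriv_nonneg (convex_Icc _ _) ?_ ?_ ?_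
    · intro t ht
      have ht0 : (0 : ℝ) < t := lt_of_lt_of_le (by norm_num) ht.1
      exact ((hasDerivAt_W3 ht0).continuousAt.add (continuousAt_id.div_const 20)).continuousWithinAt
    · intro t ht
      rw [interior_Icc] at ht
      have ht0 : (0 : ℝ) < t := lt_trans (by norm_num) ht.1
      exact ((hasDerivAt_W3 ht0).differentiableAt.add (differentiableAt_id.div_const 20)).differentiableWithinAt
    · intro t ht
      rw [interior_Icc] at ht
      have ht0 : (0 : ℝ) < t := lt_trans (by norm_num) ht.1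
      have hd : HasDerivAt (fun t => W3 t + t / 20) (4 * E t * b3 t + 1 / 20) t :=
        (hasDerivAt_W3 ht0).add ((hasDerivAt_id' t).div_const 20)
      rw [hd.deriv]
      have hb := b3_mid ht.1.le ht.2.le
      have hE : E t ≤ 1 / 4 := by
        refine le_trans ?_ XW4_E
        unfold E
        apply Real.exp_le_exp.mpr
        have := ht.1
        nlinarith
      have hE0 := E_pos t
      nlinarith
  have h3 := hm (show (188 / 100 : ℝ) ∈ Icc (188 / 100 : ℝ) (195 / 100) by constructor <;> norm_num) ⟨h1, h2⟩ h1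
  simp only at h3
  have h4 := W3_mono.monotoneOn (show (14 / 10 : ℝ) ∈ Icc (12 / 10 : ℝ) (188 / 100) by constructor <;> norm_num)
    (show (188 / 100 : ℝ) ∈ Icc (12 / 10 : ℝ) (188 / 100) by constructor <;> norm_num) (by norm_num)
  have h5 := XW4_start
  linarith

theorem XW4_big {τ : ℝ} (h : 195 / 100 ≤ τ) : 0 < W3 τ := by
  have ha : StrictAntiOn W3 (Ici (195 / 100)) := by
    refine strictAntiOn_of_deriv_neg (convex_Ici _) ?_ ?_
    · intro t ht
      have ht0 : (0 : ℝ) < t := lt_of_lt_of_le (by norm_num) ht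
      exact (hasDerivAt_W3 ht0).continuousAt.continuousWithinAt
    · intro t ht
      rw [interior_Ici] at ht
      have ht0 : (0 : ℝ) < t := lt_trans (by norm_num) ht
      rw [(hasDerivAt_W3 ht0).deriv]
      have h1 := b3_neg (le_of_lt ht)
      have h2 := E_pos t
      exact mul_neg_of_pos_of_neg (by positivity) h1
  have h1 : W3 (τ + 1) < W3 τ := ha h (show (195 / 100 : ℝ) ≤ τ + 1 by linarith) (by linarith)
  have h2 : 0 ≤ W3 (τ + 1) := by
    refine le_of_tendsto W3_tendsto ?_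
    filter_upwards [Filter.eventually_ge_atTop (τ + 1)] with s hs
    exact ha.antitoneOn (show (195 / 100 : ℝ) ≤ τ + 1 by linarith) (show (195 / 100 : ℝ) ≤ s by linarith) hs
  linarith

theorem W3_pos {τ : ℝ} (h : 14 / 10 ≤ τ) : 0 < W3 τ := by
  rcases le_total τ (188 / 100) with h1 | h1
  · have h4 := W3_mono.monotoneOn (show (14 / 10 : ℝ) ∈ Icc (12 / 10 : ℝ) (188 / 100) by constructor <;> norm_num)
      (show τ ∈ Icc (12 / 10 : ℝ) (188 / 100) from ⟨by linarith, h1⟩) h
    have h5 := XW4_start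
    linarith
  · rcases le_total τ (195 / 100) with h2 | h2
    · exact XW4_mid h1 h2
    · exact XW4_big h2

theorem p2_lt_pn3 {τ : ℝ} (h : 14 / 10 ≤ τ) : p2 τ < pn 3 τ := by
  have hτ : 0 < τ := by linarith
  have h1 := pn_three hτ
  have h2 := W3_pos h
  have hG := XA3_Gpos hτ
  have h3 : 0 < W3 τ / (8 * G τ ^ 3) := by positivity
  linarith

end GCube
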