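import Pool.Agent.Lib.H83.ThDual
import Pool.Agent.Lib.H83.ThLog
import Pool.Agent.Lib.H83.ThW4
import Pool.Agent.Lib.H83.ThLimA
import Pool.Agent.Lib.H83.ThClo

/-!
Final assembly of stage 4: the thresholds.
-/

open MeasureTheory Set Filter
open scoped Real Topology

namespace GCube

/-- start: `p_∞(0.62) < p2(0.62)` -/
theorem start_num : 1 < π * (sg (62 / 100) * ct (62 / 100) ^ 2) := by
  have hP : TH.okP (62 / 100) = true := by decide +kernel
  have h1 := (TH_hn hP).2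
  have h2 := (TH_ct hP).1
  have hq : (1 : ℚ) < 3141592 / 1000000 * ((1 - TH.aU (62 / 100)) * TH.cL (62 / 100)) := by decide +kernel
  have hq1 : TH.aU (62 / 100) ≤ 1 := by decide +kernel
  have hq2 : 0 ≤ TH.cL (62 / 100) := by decide +kernel
  have hr : (1 : ℝ) < 3141592 / 1000000 * ((1 - ((TH.aU (62 / 100) : ℚ) : ℝ)) * ((TH.cL (62 / 100) : ℚ) : ℝ)) := by
    have h := (Rat.cast_lt (K := ℝ)).2 hq
    push_cast at h
    exact h
  have hr1 : (0 : ℝ) ≤ 1 - ((TH.aU (62 / 100) : ℚ) : ℝ) := by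
    have : ((TH.aU (62 / 100) : ℚ) : ℝ) ≤ 1 := by exact_mod_cast hq1
    linarith
  have hr2 : (0 : ℝ) ≤ ((TH.cL (62 / 100) : ℚ) : ℝ) := by exact_mod_cast hq2
  push_cast at h1 h2
  have hπ : (3141592 / 1000000 : ℝ) ≤ π := by
    have := Real.pi_gt_d6
    norm_num at this ⊢
    linarith
  have hs : 1 - ((TH.aU (62 / 100) : ℚ) : ℝ) ≤ sg (62 / 100) := by unfold sg; linarith
  calc (1 : ℝ) < 3141592 / 1000000 * ((1 - ((TH.aU (62 / 100) : ℚ) : ℝ)) * ((TH.cL (62 / 100) : ℚ) : ℝ)) := hr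
    _ ≤ π * (sg (62 / 100) * ct (62 / 100) ^ 2) := by
        apply mul_le_mul hπ (mul_le_mul hs h2 hr2 (hr1.trans hs)) (mul_nonneg hr1 hr2) Real.pi_pos.le

theorem p2_pos {τ : ℝ} (hτ : 0 < τ) : 0 < p2 τ := div_pos (ct_pos hτ) (by positivity)

/-- `p2 < p_∞` -/
theorem Fin_lim_iff {τ : ℝ} (hτ : 0 < τ) :
    p2 τ < 1 / Real.sqrt (2 * π * sg τ) ↔ π * (sg τ * ct τ ^ 2) < 1 := by
  have hs := sg_pos hτ
  have hc := ct_pos hτ
  have h2 : 0 < Real.sqrt 2 := by positivity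
  have h3 : 0 < Real.sqrt (2 * π * sg τ) := Real.sqrt_pos.2 (by positivity)
  unfold p2
  rw [div_lt_div_iff₀ h2 h3, one_mul]
  have e : ct τ * Real.sqrt (2 * π * sg τ) < Real.sqrt 2 ↔
      (ct τ * Real.sqrt (2 * π * sg τ)) ^ 2 < Real.sqrt 2 ^ 2 :=
    (pow_lt_pow_iff_left₀ (by positivity) h2.le two_ne_zero).symm
  rw [e, mul_pow, Real.sq_sqrt (by positivity), Real.sq_sqrt (by norm_num)]
  constructor <;> intro h <;> nlinarith

/-- the diagonal wins for some `n` iff `p2 < p_∞` -/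
theorem Fin_exists_iff {τ : ℝ} (hτ : 62 / 100 ≤ τ) :
    (∃ n, 3 ≤ n ∧ p2 τ ≤ pn n τ) ↔ π * (sg τ * ct τ ^ 2) < 1 := by
  have hτ0 : 0 < τ := by linarith
  rw [← Fin_lim_iff hτ0]
  constructor
  · rintro ⟨n, h3, h⟩
    have h1 := closure_lt hτ h3 (Nat.lt_succ_self n) h
    have h2 : p2 τ < pn (n + 1) τ := lt_of_le_of_lt h h1
    refine lt_of_lt_of_le h2 ?_
    refine ge_of_tendsto (pn_tendsto hτ0) ?_
    filter_upwards [eventually_ge_atTop (n + 1)] with m hm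
    rcases hm.eq_or_lt with h' | h'
    · rw [h']
    · exact (closure_lt hτ (by omega) h' h2.le).le
  · intro h
    have h1 := (pn_tendsto hτ0).eventually_const_lt h
    obtain ⟨n, hn1, hn2⟩ := (h1.and (eventually_ge_atTop 3)).exists
    exact ⟨n, hn2, hn1.le⟩

theorem Fin_start {n : ℕ} (h3 : 3 ≤ n) : pn n (62 / 100) < p2 (62 / 100) := by
  by_contra h
  rw [not_lt] at h
  have h1 := (Fin_exists_iff (τ := 62 / 100) le_rfl).1 ⟨n, h3, h⟩
  have h2 := start_num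
  linarith

theorem Fin_log_nonneg {n : ℕ} (h3 : 3 ≤ n) {τ : ℝ} (hτ : 0 < τ) :
    0 ≤ Real.log (pn n τ / p2 τ) ↔ p2 τ ≤ pn n τ := by
  have h1 := p2_pos hτ
  have h2 := pn_pos (n := n) (by omega) hτ
  rw [Real.log_nonneg_iff (div_pos h2 h1), le_div_iff₀ h1, one_mul]

theorem Fin_log_pos {n : ℕ} (h3 : 3 ≤ n) {τ : ℝ} (hτ : 0 < τ) :
    0 < Real.log (pn n τ / p2 τ) ↔ p2 τ < pn n τ := by
  have h1 := p2_pos hτ
  have h2 := pn_pos (n := n) (by omega) hτ
  rw [Real.log_pos_iff (div_pos h2 h1).le, lt_div_iff₀ h1, one_mul]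

theorem Fin_flow {n : ℕ} (h3 : 3 ≤ n) {a b : ℝ} (ha : 62 / 100 ≤ a) (hb : b ≤ 14 / 10)
    (hK : ∀ τ, a ≤ τ → τ ≤ b → Bv τ < Kn n τ) (h : p2 a ≤ pn n a) {τ : ℝ} (h1 : a < τ) (h2 : τ ≤ b) :
    p2 τ < pn n τ := by
  have ha0 : 0 < a := by linarith
  rw [← Fin_log_pos h3 (ha0.trans h1)]
  refine XE_flow (g := fun τ => Real.log (pn n τ / p2 τ)) (g' := fun τ => (Dn n τ - Bv τ) / τ) (a := a) (b := b)
    ?_ ?_ ?_ τ h1 h2
  · intro t ht
    exact hasDerivAt_log h3 (ha0.trans_le ht.1)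
  · exact (Fin_log_nonneg h3 ha0).2 h
  · intro t ht hg
    have ht0 : 0 < t := ha0.trans_le ht.1
    have h4 := (Fin_log_nonneg h3 ht0).1 hg
    have h5 := Kn_le_Dn h3 (ha.trans ht.1) (ht.2.trans hb) h4
    have h6 := hK t ht.1 ht.2
    exact div_pos (by linarith) ht0

theorem Fin_drop {n : ℕ} (h3 : 3 ≤ n) {a b κ m : ℝ} (ha : 62 / 100 ≤ a) (hb : b ≤ 14 / 10)
    (hκ : 0 ≤ κ) (hm : 0 < m) (hK : ∀ τ, a ≤ τ → τ ≤ b → Bv τ - κ < Kn n τ) (h : (1 + m) * p2 a ≤ pn n a)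
    (hd : κ / a * (b - a) < m / (1 + m)) {τ : ℝ} (h1 : a ≤ τ) (h2 : τ ≤ b) : p2 τ < pn n τ := by
  have ha0 : 0 < a := by linarith
  rw [← Fin_log_pos h3 (ha0.trans_le h1)]
  refine XE_drop (g := fun τ => Real.log (pn n τ / p2 τ)) (g' := fun τ => (Dn n τ - Bv τ) / τ) (a := a) (b := b)
    (m := m / (1 + m)) (k := κ / a) ?_ ?_ (by positivity) hd ?_ τ ⟨h1, h2⟩
  · intro t ht
    exact hasDerivAt_log h3 (ha0.trans_le ht.1)
  · have h4 : 1 + m ≤ pn n a / p2 a := by rwa [le_div_iff₀ (p2_pos ha0)]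
    have h5 : Real.log (1 + m) ≤ Real.log (pn n a / p2 a) := Real.log_le_log (by linarith) h4
    have h6 := Real.one_sub_inv_le_log_of_pos (x := 1 + m) (by linarith)
    have h7 : m / (1 + m) = 1 - (1 + m)⁻¹ := by
      field_simp
      ring
    rw [h7]
    linarith
  · intro t ht hg
    have ht0 : 0 < t := ha0.trans_le ht.1
    have h4 := (Fin_log_nonneg h3 ht0).1 hg
    have h5 := Kn_le_Dn h3 (ha.trans ht.1) (ht.2.trans hb) h4
    have h6 := hK t ht.1 ht.2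
    rw [le_div_iff₀ ht0]
    have h7 : -κ ≤ Dn n t - Bv t := by linarith
    have h8 : κ ≤ κ / a * t := by
      rw [div_mul_eq_mul_div, le_div_iff₀ ha0]
      exact mul_le_mul_of_nonneg_left ht.1 hκ
    linarith

theorem Fin_r7 {τ : ℝ} (h1 : 98 / 100 ≤ τ) (h2 : τ ≤ 104 / 100) : p2 τ < pn 7 τ := by
  have h0 : p2 (98 / 100) < pn 7 (98 / 100) := by
    have := pt7
    have := p2_pos (τ := 98 / 100) (by norm_num)
    linarith
  rcases h1.eq_or_lt with h | h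
  · rw [← h]; exact h0
  · exact Fin_flow (by norm_num) (a := 98 / 100) (b := 104 / 100) (by norm_num) (by norm_num)
      (fun t ha hb => tab7 (by norm_num) le_rfl ha hb) h0.le h h2

theorem Fin_r6 {τ : ℝ} (h1 : 104 / 100 ≤ τ) (h2 : τ ≤ 107 / 100) : p2 τ < pn 6 τ := by
  have h0 : p2 (104 / 100) < pn 6 (104 / 100) := by
    have := pt6
    have := p2_pos (τ := 104 / 100) (by norm_num)
    linarith
  rcases h1.eq_or_lt with h | h
  · rw [← h]; exact h0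
  · exact Fin_flow (by norm_num) (a := 104 / 100) (b := 107 / 100) (by norm_num) (by norm_num)
      (fun t ha hb => tab6 (by norm_num) le_rfl ha hb) h0.le h h2

theorem Fin_r5 {τ : ℝ} (h1 : 107 / 100 ≤ τ) (h2 : τ ≤ 1145 / 1000) : p2 τ < pn 5 τ :=
  Fin_drop (by norm_num) (a := 107 / 100) (b := 1145 / 1000) (κ := 7 / 1000) (m := 15 / 10000) (by norm_num)
    (by norm_num) (by norm_num) (by norm_num) (fun _ ha hb => tab5k ha hb) pt5 (by norm_num) h1 h2

theorem Fin_r4 {τ : ℝ} (h1 : 1145 / 1000 ≤ τ) (h2 : τ ≤ 14 / 10) : p2 τ < pn 4 τ := by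
  rcases le_total τ (117 / 100) with h | h
  · exact Fin_drop (by norm_num) (a := 1145 / 1000) (b := 117 / 100) (κ := 55 / 10000) (m := 25 / 100000)
      (by norm_num) (by norm_num) (by norm_num) (by norm_num) (fun _ ha hb => tab4a ha hb) pt4a (by norm_num) h1 h
  rcases le_total τ (122 / 100) with h' | h'
  · exact Fin_drop (by norm_num) (a := 117 / 100) (b := 122 / 100) (κ := 2 / 100) (m := 15 / 10000)
      (by norm_num) (by norm_num) (by norm_num) (by norm_num) (fun _ ha hb => tab4b ha hb) pt4b (by norm_num) h h'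
  rcases le_total τ (13 / 10) with h'' | h''
  · exact Fin_drop (by norm_num) (a := 122 / 100) (b := 13 / 10) (κ := 4 / 100) (m := 4 / 1000)
      (by norm_num) (by norm_num) (by norm_num) (by norm_num) (fun _ ha hb => tab4c ha hb) pt4c (by norm_num) h' h''
  · exact Fin_drop (by norm_num) (a := 13 / 10) (b := 14 / 10) (κ := 7 / 100) (m := 8 / 1000)
      (by norm_num) (by norm_num) (by norm_num) (by norm_num) (fun _ ha hb => tab4d ha hb) pt4d (by norm_num) h'' h2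

theorem Fin_up {τ : ℝ} (hτ : 62 / 100 ≤ τ) {m n : ℕ} (h3 : 3 ≤ m) (hmn : m ≤ n) (h : p2 τ < pn m τ) :
    p2 τ < pn n τ := by
  rcases hmn.eq_or_lt with h' | h'
  · rw [← h']; exact h
  · exact h.trans (closure_lt hτ h3 h' h.le)

theorem Fin_pos3 {n : ℕ} (h : 3 ≤ n) {τ : ℝ} (h1 : 14 / 10 ≤ τ) : p2 τ < pn n τ :=
  Fin_up (by linarith) le_rfl h (p2_lt_pn3 h1)

theorem Fin_pos4 {n : ℕ} (h : 4 ≤ n) {τ : ℝ} (h1 : 1145 / 1000 ≤ τ) : p2 τ < pn n τ := by
  rcases le_total τ (14 / 10) with h2 | h2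
  · exact Fin_up (by linarith) (by norm_num) h (Fin_r4 h1 h2)
  · exact Fin_pos3 (by omega) h2

theorem Fin_pos5 {n : ℕ} (h : 5 ≤ n) {τ : ℝ} (h1 : 107 / 100 ≤ τ) : p2 τ < pn n τ := by
  rcases le_total τ (1145 / 1000) with h2 | h2
  · exact Fin_up (by linarith) (by norm_num) h (Fin_r5 h1 h2)
  · exact Fin_pos4 (by omega) h2

theorem Fin_pos6 {n : ℕ} (h : 6 ≤ n) {τ : ℝ} (h1 : 104 / 100 ≤ τ) : p2 τ < pn n τ := by
  rcases le_total τ (107 / 100) with h2 | h2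
  · exact Fin_up (by linarith) (by norm_num) h (Fin_r6 h1 h2)
  · exact Fin_pos5 (by omega) h2

theorem Fin_pos7 {n : ℕ} (h : 7 ≤ n) {τ : ℝ} (h1 : 98 / 100 ≤ τ) : p2 τ < pn n τ := by
  rcases le_total τ (104 / 100) with h2 | h2
  · exact Fin_up (by linarith) (by norm_num) h (Fin_r7 h1 h2)
  · exact Fin_pos6 (by omega) h2

/-- persistence with a border `c` -/
theorem Fin_persist_aux {n : ℕ} (h3 : 3 ≤ n) {c : ℝ} (hc : c ≤ 14 / 10)
    (hK : ∀ τ, 62 / 100 ≤ τ → τ ≤ c → Bv τ < Kn n τ) (hp : ∀ τ, c ≤ τ → p2 τ < pn n τ) {τ1 τ2 : ℝ}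
    (h1 : 62 / 100 ≤ τ1) (h12 : τ1 < τ2) (h : p2 τ1 ≤ pn n τ1) : p2 τ2 < pn n τ2 := by
  rcases le_total τ2 c with h2 | h2
  · exact Fin_flow h3 h1 (h2.trans hc) (fun t ha hb => hK t (h1.trans ha) (hb.trans h2)) h h12 le_rfl
  · exact hp τ2 h2

theorem Fin_W3_iff {τ : ℝ} (hτ : 0 < τ) : (0 < W3 τ ↔ p2 τ < pn 3 τ) ∧ (0 ≤ W3 τ ↔ p2 τ ≤ pn 3 τ) := by
  have h := pn_three hτ
  have hG : 0 < 8 * G τ ^ 3 := by
    have h1 : 0 < G τ := by
      have := psi_zero_pos hτ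
      rw [psi_zero_eq] at this
      linarith
    positivity
  have h2 : W3 τ = (pn 3 τ - p2 τ) * (8 * G τ ^ 3) := by
    rw [h, div_mul_cancel₀ _ hG.ne']
  rw [h2]
  constructor
  · rw [mul_pos_iff_of_pos_right hG]; exact sub_pos
  · rw [mul_nonneg_iff_of_pos_right hG]; exact sub_nonneg

theorem Fin_K5 {n : ℕ} (h3 : 3 ≤ n) (h4 : n ≤ 5) {τ : ℝ} (h1 : 62 / 100 ≤ τ) (h2 : τ ≤ 107 / 100) :
    Bv τ < Kn n τ := by
  rcases le_total τ (98 / 100) with h | h
  · exact tab0 h3 h1 h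
  rcases le_total τ (104 / 100) with h' | h'
  · exact tab7 h3 (by omega) h h'
  · exact tab6 h3 (by omega) h' h2

theorem Fin_K4 {n : ℕ} (h3 : 3 ≤ n) (h4 : n ≤ 4) {τ : ℝ} (h1 : 62 / 100 ≤ τ) (h2 : τ ≤ 1145 / 1000) :
    Bv τ < Kn n τ := by
  rcases le_total τ (107 / 100) with h | h
  · exact Fin_K5 h3 (by omega) h1 h
  rcases le_total τ (11 / 10) with h' | h'
  · exact tab5 h3 (by omega) h h'
  · exact tab4 h3 h4 h' h2

theorem Fin_persist {n : ℕ} (h3 : 3 ≤ n) {τ1 τ2 : ℝ} (h1 : 62 / 100 ≤ τ1) (h12 : τ1 < τ2)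
    (h : p2 τ1 ≤ pn n τ1) : p2 τ2 < pn n τ2 := by
  rcases (by omega : 7 ≤ n ∨ n = 6 ∨ n = 5 ∨ n = 4 ∨ n = 3) with hn | hn | hn | hn | hn
  · exact Fin_persist_aux h3 (c := 98 / 100) (by norm_num) (fun t ha hb => tab0 h3 ha hb)
      (fun t ht => Fin_pos7 hn ht) h1 h12 h
  · subst hn
    refine Fin_persist_aux h3 (c := 104 / 100) (by norm_num) (fun t ha hb => ?_)
      (fun t ht => Fin_pos6 le_rfl ht) h1 h12 h
    rcases le_total t (98 / 100) with h' | h'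
    · exact tab0 h3 ha h'
    · exact tab7 h3 (by norm_num) h' hb
  · subst hn
    exact Fin_persist_aux h3 (c := 107 / 100) (by norm_num) (fun t ha hb => Fin_K5 h3 le_rfl ha hb)
      (fun t ht => Fin_pos5 le_rfl ht) h1 h12 h
  · subst hn
    exact Fin_persist_aux h3 (c := 1145 / 1000) (by norm_num) (fun t ha hb => Fin_K4 h3 le_rfl ha hb)
      (fun t ht => Fin_pos4 le_rfl ht) h1 h12 h
  · subst hn
    have hK : ∀ t, 62 / 100 ≤ t → t ≤ 122 / 100 → Bv t < Kn 3 t := by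
      intro t ha hb
      rcases le_total t (1145 / 1000) with h' | h'
      · exact Fin_K4 le_rfl (by norm_num) ha h'
      · exact tab3 h' hb
    rcases le_or_gt τ2 (122 / 100) with h2 | h2
    · exact Fin_flow le_rfl h1 (by linarith) (fun t ha hb => hK t (h1.trans ha) (hb.trans h2)) h h12 le_rfl
    rcases le_or_gt (14 / 10) τ2 with h4 | h4
    · exact p2_lt_pn3 h4
    rcases lt_or_ge τ1 (122 / 100) with h5 | h5
    · have h6 : p2 (122 / 100) < pn 3 (122 / 100) :=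
        Fin_flow le_rfl h1 (by norm_num) (fun t ha hb => hK t (h1.trans ha) hb) h h5 le_rfl
      have h7 := (Fin_W3_iff (τ := 122 / 100) (by norm_num)).1.2 h6
      have h8 := W3_mono (a := 122 / 100) (b := τ2) ⟨by norm_num, by norm_num⟩ ⟨by linarith, by linarith⟩ h2
      exact (Fin_W3_iff (by linarith)).1.1 (h7.trans h8)
    · have h7 := (Fin_W3_iff (τ := τ1) (by linarith)).2.2 h
      have h8 := W3_mono (a := τ1) (b := τ2) ⟨by linarith, by linarith⟩ ⟨by linarith, by linarith⟩ h12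
      exact (Fin_W3_iff (by linarith)).1.1 (lt_of_le_of_lt h7 h8)

theorem pn_cont {n : ℕ} (h3 : 3 ≤ n) {τ : ℝ} (hτ : 0 < τ) : ContinuousAt (pn n) τ := by
  unfold pn
  have h1 := (hasDerivAt_In h3 hτ).continuousAt
  have hG : ContinuousAt G τ := (cm_hasDerivAt_G τ).continuousAt
  have hGp : 0 < G τ := by
    have := psi_zero_pos hτ
    rw [psi_zero_eq] at this
    linarith
  refine ContinuousAt.div (h1.const_mul _) ?_ (by positivity)
  exact ((hG.const_mul 2).pow n).const_mul _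

theorem p2_cont {τ : ℝ} (hτ : 0 < τ) : ContinuousAt p2 τ :=
  (hasDerivAt_ct hτ).continuousAt.div_const _

theorem Fin_exists_threshold {n : ℕ} (h3 : 3 ≤ n) : ∃ T : ℝ, 62 / 100 < T ∧ T < 14 / 10 ∧ pn n T = p2 T := by
  have hc : ContinuousOn (fun τ => pn n τ - p2 τ) (Icc (62 / 100) (14 / 10)) := by
    intro t ht
    have ht0 : 0 < t := by linarith [ht.1]
    exact ((pn_cont h3 ht0).sub (p2_cont ht0)).continuousWithinAt
  have h1 := Fin_start h3
  have h2 := Fin_pos3 h3 (τ := 14 / 10) le_rfl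
  obtain ⟨T, hT, hT2⟩ := intermediate_value_Ioo (by norm_num : (62 / 100 : ℝ) ≤ 14 / 10) hc
    (show (0 : ℝ) ∈ Ioo (pn n (62 / 100) - p2 (62 / 100)) (pn n (14 / 10) - p2 (14 / 10)) from
      ⟨by linarith, by linarith⟩)
  exact ⟨T, hT.1, hT.2, by simpa [sub_eq_zero] using hT2⟩

/-- thresholds in the variable `τ` -/
theorem Fin_thresholds : ∃ (T : ℕ → ℝ) (L : ℝ), 62 / 100 < L ∧
    (∀ n, 3 ≤ n → L < T n ∧ T n < 14 / 10 ∧ T (n + 1) < T n) ∧ Tendsto T atTop (𝓝 L) ∧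
    (∀ τ, 62 / 100 ≤ τ → (L < τ ↔ π * (sg τ * ct τ ^ 2) < 1)) ∧
    ∀ n, 3 ≤ n → ∀ τ, 62 / 100 ≤ τ → (τ < T n → pn n τ < p2 τ) ∧ (τ = T n → pn n τ = p2 τ) ∧
      (T n < τ → p2 τ < pn n τ) := by
  have hex : ∀ n : ℕ, ∃ T : ℝ, 3 ≤ n → 62 / 100 < T ∧ T < 14 / 10 ∧ pn n T = p2 T := by
    intro n
    by_cases h3 : 3 ≤ n
    · obtain ⟨T, hT⟩ := Fin_exists_threshold h3
      exact ⟨T, fun _ => hT⟩
    · exact ⟨0, fun h => absurd h h3⟩
  choose T hT using hex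
  have htri : ∀ n, 3 ≤ n → ∀ τ, 62 / 100 ≤ τ → (τ < T n → pn n τ < p2 τ) ∧ (τ = T n → pn n τ = p2 τ) ∧
      (T n < τ → p2 τ < pn n τ) := by
    intro n h3 τ hτ
    refine ⟨fun h => ?_, fun h => ?_, fun h => ?_⟩
    · by_contra h'
      rw [not_lt] at h'
      have := Fin_persist h3 hτ h h'
      rw [(hT n h3).2.2] at this
      exact lt_irrefl _ this
    · rw [h]; exact (hT n h3).2.2
    · exact Fin_persist h3 (hT n h3).1.le h (hT n h3).2.2.ge
  have hanti : ∀ n, 3 ≤ n → T (n + 1) < T n := by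
    intro n h3
    have h1 := closure_lt (hT n h3).1.le h3 (Nat.lt_succ_self n) (hT n h3).2.2.ge
    rw [(hT n h3).2.2] at h1
    by_contra h
    rw [not_lt] at h
    rcases h.eq_or_lt with h' | h'
    · have := (htri (n + 1) (by omega) (T n) (hT n h3).1.le).2.1 h'
      linarith
    · have := (htri (n + 1) (by omega) (T n) (hT n h3).1.le).1 h'
      linarith
  -- the shifted sequence
  have hS : StrictAnti (fun k => T (k + 3)) := strictAnti_nat_of_succ_lt fun k => by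
    have := hanti (k + 3) (by omega)
    exact this
  have hbdd : BddBelow (range fun k => T (k + 3)) :=
    ⟨62 / 100, by rintro _ ⟨k, rfl⟩; exact (hT (k + 3) (by omega)).1.le⟩
  set L := ⨅ k, T (k + 3) with hL
  have hlim : Tendsto (fun k => T (k + 3)) atTop (𝓝 L) := tendsto_atTop_ciInf hS.antitone hbdd
  have hlimT : Tendsto T atTop (𝓝 L) := (tendsto_add_atTop_iff_nat 3).1 hlim
  have hLT : ∀ n, 3 ≤ n → L < T n := by
    intro n h3
    obtain ⟨k, rfl⟩ : ∃ k, n = k + 3 := ⟨n - 3, by omega⟩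
    have h1 : L ≤ T (k + 1 + 3) := ciInf_le hbdd (k + 1)
    exact lt_of_le_of_lt h1 (hS (Nat.lt_succ_self k))
  have hchar : ∀ τ, 62 / 100 ≤ τ → (L < τ ↔ π * (sg τ * ct τ ^ 2) < 1) := by
    intro τ hτ
    rw [← Fin_exists_iff hτ]
    constructor
    · intro h
      obtain ⟨k, hk⟩ := exists_lt_of_ciInf_lt (hL ▸ h)
      exact ⟨k + 3, by omega, ((htri (k + 3) (by omega) τ hτ).2.2 hk).le⟩
    · rintro ⟨n, h3, h⟩
      have h1 : T n ≤ τ := by
        by_contra h'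
        rw [not_le] at h'
        have := (htri n h3 τ hτ).1 h'
        linarith
      exact (hLT n h3).trans_le h1
  have hL0 : 62 / 100 ≤ L := le_ciInf fun k => (hT (k + 3) (by omega)).1.le
  have hL1 : 62 / 100 < L := by
    rcases hL0.eq_or_lt with h | h
    · exfalso
      have hcont : ContinuousAt (fun τ => π * (sg τ * ct τ ^ 2)) (62 / 100) := by
        have h1 := (hasDerivAt_hn (τ := 62 / 100) (by norm_num)).continuousAt
        have h2 := (hasDerivAt_ct (τ := 62 / 100) (by norm_num)).continuousAt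
        have h3 : ContinuousAt sg (62 / 100) := by
          have e : sg = fun τ => 1 - hn τ := rfl
          rw [e]
          exact continuousAt_const.sub h1
        exact continuousAt_const.mul (h3.mul (h2.pow 2))
      have h1 := hcont.eventually_const_lt start_num
      have h2 : ∀ᶠ t in 𝓝[>] (62 / 100 : ℝ), 1 < π * (sg t * ct t ^ 2) := h1.filter_mono nhdsWithin_le_nhds
      obtain ⟨t, ht1, ht2⟩ := (h2.and self_mem_nhdsWithin).exists
      have ht3 : (62 / 100 : ℝ) < t := ht2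
      have := (hchar t ht3.le).1 (h ▸ ht3)
      linarith
    · exact h
  exact ⟨T, L, hL1, fun n h3 => ⟨hLT n h3, (hT n h3).2.1, hanti n h3⟩, hlimT, hchar, htri⟩

end GCube
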