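import Pool.Agent.Lib.H83.ThBar

/-!
Chunk XB2 (M): monotonicity of `Bv`, `ct² Av`, `ct`.

`c2A_mono`: `τ (log(ct² Av))' = 2 (b - 2a) + a (δ² - Av)/Av` with `a = hn τ`, `b = hn(√2τ) > 0`; since `5 Av < δ²`
(`Av_lt`) and `0 < Av`: `a (δ² - Av)/Av > 4a`, so the derivative is `> 2b > 0`. (In Lean: derivative of `ct² Av` is
`ct²/τ * (2(b-2a) Av + a(δ² - Av)) ≥ 0`; `monotoneOn_of_deriv_nonneg`.)
`Bv_mono`: `Bv = 1 - 2 a(τ) + a(√2τ)`, `τ Bv' = 2 a δ (τ) - (a δ)(√2 τ)` (chain rule, `hasDerivAt_hn`, `δ(t) = hn t + t² - 1`).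
Let `P(t) = hn t δ(t)/t²`. `t P' = [ -aδ·δ + a(2t² - aδ) - 2aδ ]/t²  = -(a/t²) (δ² - Av) < 0` for `t ≥ 0.62`
(use `2t² - aδ = Av + 2δ`, `Av_delta`; `Av < δ²`). So `P` is antitone on `[0.62,∞)` and
`(aδ)(√2τ) = 2τ² P(√2τ) ≤ 2τ² P(τ) = 2 (aδ)(τ)`.
`ct_anti`: `hn(√2τ) ≤ hn τ ≤ 2 hn τ` (`hn_anti`).
-/

open MeasureTheory Set
open scoped Real

namespace GCube

theorem XB2_hasDeriv {τ : ℝ} (hτ : 0 < τ) : HasDerivAt (fun τ => ct τ ^ 2 * Av τ)
    (ct τ ^ 2 / τ * (2 * (hn (Real.sqrt 2 * τ) - 2 * hn τ) * Av τ +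
      hn τ * ((hn τ + τ ^ 2 - 1) ^ 2 - Av τ))) τ := by
  refine (((hasDerivAt_ct hτ).fun_pow 2).fun_mul (hasDerivAt_Av hτ)).congr_deriv ?_
  push_cast
  ring

theorem c2A_mono : MonotoneOn (fun τ => ct τ ^ 2 * Av τ) (Ici (62 / 100)) := by
  refine monotoneOn_of_deriv_nonneg (convex_Ici _) ?_ ?_ ?_
  · intro t ht
    have ht0 : (0 : ℝ) < t := lt_of_lt_of_le (by norm_num) ht
    exact (XB2_hasDeriv ht0).continuousAt.continuousWithinAt
  · intro t ht
    rw [interior_Ici] at ht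
    have ht0 : (0 : ℝ) < t := lt_trans (by norm_num) ht
    exact (XB2_hasDeriv ht0).differentiableAt.differentiableWithinAt
  · intro t ht
    rw [interior_Ici] at ht
    have ht0 : (0 : ℝ) < t := lt_trans (by norm_num) ht
    rw [(XB2_hasDeriv ht0).deriv]
    have h1 := Av_lt (le_of_lt ht)
    have h2 := Av_pos ht0
    have h3 := hn_pos t
    have h4 := hn_pos (Real.sqrt 2 * t)
    refine mul_nonneg (div_nonneg (sq_nonneg _) ht0.le) ?_
    nlinarith [mul_pos h3 h2, mul_pos h4 h2]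

/-- `P(t) = hn t δ(t)/t²` is antitone -/
theorem XB2_P {s t : ℝ} (hs : 62 / 100 ≤ s) (hst : s ≤ t) :
    hn t * (hn t + t ^ 2 - 1) / t ^ 2 ≤ hn s * (hn s + s ^ 2 - 1) / s ^ 2 := by
  have hd : ∀ x : ℝ, 0 < x → HasDerivAt (fun t => hn t * (hn t + t ^ 2 - 1) / t ^ 2)
      (hn x / x ^ 3 * (Av x - (hn x + x ^ 2 - 1) ^ 2)) x := by
    intro x hx
    have h1 : HasDerivAt (fun t : ℝ => hn t + t ^ 2 - 1) (hn x * (1 - x ^ 2 - hn x) / x + 2 * x) x := by
      have := ((hasDerivAt_hn hx).fun_add (hasDerivAt_pow 2 x)).sub_const 1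
      simpa using this
    have h2 : HasDerivAt (fun t : ℝ => t ^ 2) (2 * x) x := by
      simpa using hasDerivAt_pow 2 x
    have h3 := (((hasDerivAt_hn hx).fun_mul h1).fun_div h2 (pow_pos hx 2).ne')
    refine h3.congr_deriv ?_
    unfold Av
    field_simp
    ring
  have hanti : AntitoneOn (fun t => hn t * (hn t + t ^ 2 - 1) / t ^ 2) (Ici (62 / 100)) := by
    refine antitoneOn_of_deriv_nonpos (convex_Ici _) ?_ ?_ ?_
    · intro t ht
      have ht0 : (0 : ℝ) < t := lt_of_lt_of_le (by norm_num) ht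
      exact (hd t ht0).continuousAt.continuousWithinAt
    · intro t ht
      rw [interior_Ici] at ht
      have ht0 : (0 : ℝ) < t := lt_trans (by norm_num) ht
      exact (hd t ht0).differentiableAt.differentiableWithinAt
    · intro t ht
      rw [interior_Ici] at ht
      have ht0 : (0 : ℝ) < t := lt_trans (by norm_num) ht
      rw [(hd t ht0).deriv]
      have h1 := Av_lt (le_of_lt ht)
      have h2 := Av_pos ht0
      have h3 := hn_pos t
      exact mul_nonpos_of_nonneg_of_nonpos (by positivity) (by linarith)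
  exact hanti hs (hs.trans hst) hst

theorem XB2_Bderiv {τ : ℝ} (hτ : 0 < τ) : HasDerivAt Bv
    ((2 * (hn τ * (hn τ + τ ^ 2 - 1)) - hn (Real.sqrt 2 * τ) *
      (hn (Real.sqrt 2 * τ) + (Real.sqrt 2 * τ) ^ 2 - 1)) / τ) τ := by
  have h2 : (0 : ℝ) < Real.sqrt 2 := by positivity
  have h3 : HasDerivAt (fun t : ℝ => Real.sqrt 2 * t) (Real.sqrt 2) τ := by
    simpa using (hasDerivAt_id τ).const_mul (Real.sqrt 2)
  have h4 := (hasDerivAt_hn (τ := Real.sqrt 2 * τ) (by positivity)).comp τ h3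
  have h5 := (((hasDerivAt_hn hτ).const_mul 2).const_sub 1).fun_add h4
  have e : Bv = fun t => 1 - 2 * hn t + (hn ∘ fun t => Real.sqrt 2 * t) t := rfl
  rw [e]
  refine h5.congr_deriv ?_
  field_simp
  ring

theorem Bv_mono : MonotoneOn Bv (Ici (62 / 100)) := by
  refine monotoneOn_of_deriv_nonneg (convex_Ici _) ?_ ?_ ?_
  · intro t ht
    have ht0 : (0 : ℝ) < t := lt_of_lt_of_le (by norm_num) ht
    exact (XB2_Bderiv ht0).continuousAt.continuousWithinAt
  · intro t ht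
    rw [interior_Ici] at ht
    have ht0 : (0 : ℝ) < t := lt_trans (by norm_num) ht
    exact (XB2_Bderiv ht0).differentiableAt.differentiableWithinAt
  · intro t ht
    rw [interior_Ici] at ht
    have ht0 : (0 : ℝ) < t := lt_trans (by norm_num) ht
    rw [(XB2_Bderiv ht0).deriv]
    refine div_nonneg ?_ ht0.le
    have hs2 : Real.sqrt 2 ^ 2 = 2 := Real.sq_sqrt (by norm_num)
    have h1s : (1 : ℝ) ≤ Real.sqrt 2 := by
      rw [Real.one_le_sqrt]; norm_num
    have h := XB2_P (s := t) (t := Real.sqrt 2 * t) (le_of_lt ht) (by nlinarith)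
    rw [div_le_div_iff₀ (by positivity) (by positivity)] at h
    have e : (Real.sqrt 2 * t) ^ 2 = 2 * t ^ 2 := by rw [mul_pow, hs2]
    have ht2 : 0 < t ^ 2 := by positivity
    rw [e] at h ⊢
    have h' : (hn (Real.sqrt 2 * t) * (hn (Real.sqrt 2 * t) + 2 * t ^ 2 - 1)) * t ^ 2 ≤
        (2 * (hn t * (hn t + t ^ 2 - 1))) * t ^ 2 := by linarith
    have := le_of_mul_le_mul_right h' ht2
    linarith

theorem ct_anti {s t : ℝ} (hs : 0 < s) (h : s ≤ t) : ct t ≤ ct s := by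
  have hanti : AntitoneOn ct (Ici s) := by
    refine antitoneOn_of_deriv_nonpos (convex_Ici _) ?_ ?_ ?_
    · intro x hx
      exact (hasDerivAt_ct (hs.trans_le hx)).continuousAt.continuousWithinAt
    · intro x hx
      rw [interior_Ici] at hx
      exact (hasDerivAt_ct (hs.trans hx)).differentiableAt.differentiableWithinAt
    · intro x hx
      rw [interior_Ici] at hx
      have hx0 : 0 < x := hs.trans hx
      rw [(hasDerivAt_ct hx0).deriv]
      have h1s : (1 : ℝ) ≤ Real.sqrt 2 := by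
        rw [Real.one_le_sqrt]; norm_num
      have h1 : hn (Real.sqrt 2 * x) ≤ hn x := hn_anti hx0.le (by nlinarith)
      have h2 := hn_pos x
      have h3 := ct_pos hx0
      exact div_nonpos_of_nonpos_of_nonneg (mul_nonpos_of_nonneg_of_nonpos h3.le (by linarith)) hx0.le
  exact hanti (mem_Ici.2 le_rfl) h h

theorem sg_mono {s t : ℝ} (hs : 0 ≤ s) (h : s ≤ t) : sg s ≤ sg t := by
  have := hn_anti hs h
  unfold sg
  linarith

end GCube
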