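import Pool.Agent.Lib.H83.ThFin

/-!
Output form of the thresholds in the variable `t = 2τ`.
-/

open MeasureTheory Set Filter
open scoped Real Topology

namespace GCube

/-- variance of the standard Gaussian conditioned on `[-t/2, t/2]` -/
noncomputable def Fin_var (t : ℝ) : ℝ :=
  (∫ u in (-(t / 2))..(t / 2), u ^ 2 * Real.exp (-u ^ 2 / 2)) /
    ∫ u in (-(t / 2))..(t / 2), Real.exp (-u ^ 2 / 2)

theorem Fin_var_eq {t : ℝ} (ht : 0 < t) : Fin_var t = sg (t / 2) := by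
  have hτ : 0 < t / 2 := half_pos ht
  have hG : 0 < G (t / 2) := by
    have := psi_zero_pos hτ
    rw [psi_zero_eq] at this
    linarith
  unfold Fin_var
  have h1 : ∀ u : ℝ, Real.exp (-u ^ 2 / 2) = E u := fun u => rfl
  simp only [h1]
  have h2 : ∫ u in (-(t / 2))..(t / 2), E u = 2 * G (t / 2) := by
    unfold G
    exact psi_symm_even E_continuous E_neg _
  have h3 : ∫ u in (-(t / 2))..(t / 2), u ^ 2 * E u = 2 * ∫ u in (0 : ℝ)..(t / 2), u ^ 2 * E u :=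
    psi_symm_even (f := fun u => u ^ 2 * E u) ((continuous_pow 2).mul E_continuous)
      (fun x => by simp only [E_neg]; ring) _
  rw [h2, h3, ← sg_eq_int hτ]
  field_simp

theorem Fin_cond_iff {t : ℝ} (ht : 0 < t) :
    Real.sqrt (Fin_var t) * Fin_g (t / Real.sqrt 2) < Fin_g (t / 2) ^ 2 ↔
      π * (sg (t / 2) * ct (t / 2) ^ 2) < 1 := by
  have hτ : 0 < t / 2 := half_pos ht
  have hG : 0 < G (t / 2) := by
    have := psi_zero_pos hτ
    rw [psi_zero_eq] at this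
    linarith
  have hs := sg_pos hτ
  have hc := ct_pos hτ
  rw [Fin_var_eq ht, Fin_g_eq, Fin_g_eq]
  have h2 : t / Real.sqrt 2 = Real.sqrt 2 * (t / 2) := by
    have := Real.mul_self_sqrt (show (0 : ℝ) ≤ 2 by norm_num)
    field_simp
    nlinarith
  have h4 : G (Real.sqrt 2 * (t / 2)) = Real.sqrt 2 * EE (t / 2) := by
    rw [EE_eq_G]
    field_simp
  rw [h2, h4]
  have hE : EE (t / 2) = ct (t / 2) * G (t / 2) ^ 2 := by
    unfold ct
    field_simp
  rw [hE]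
  set g := G (t / 2)
  set c := ct (t / 2)
  set s := sg (t / 2)
  have hP : 0 < Real.sqrt (2 * π) := Real.sqrt_pos.2 (by positivity)
  have hP2 : Real.sqrt (2 * π) ^ 2 = 2 * π := Real.sq_sqrt (by positivity)
  have hr2 : 0 < Real.sqrt 2 := by positivity
  have hr22 : Real.sqrt 2 ^ 2 = 2 := Real.sq_sqrt (by norm_num)
  have hss : 0 < Real.sqrt s := Real.sqrt_pos.2 hs
  have hss2 : Real.sqrt s ^ 2 = s := Real.sq_sqrt hs.le
  have e1 : Real.sqrt s * (2 * (Real.sqrt 2 * (c * g ^ 2)) / Real.sqrt (2 * π)) < (2 * g / Real.sqrt (2 * π)) ^ 2 ↔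
      Real.sqrt s * c * (Real.sqrt 2 * Real.sqrt (2 * π)) < 2 := by
    have hg2 : 0 < 2 * g ^ 2 / Real.sqrt (2 * π) ^ 2 := by positivity
    have e3 : Real.sqrt s * (2 * (Real.sqrt 2 * (c * g ^ 2)) / Real.sqrt (2 * π)) =
        (Real.sqrt s * c * (Real.sqrt 2 * Real.sqrt (2 * π))) * (2 * g ^ 2 / Real.sqrt (2 * π) ^ 2) := by
      field_simp
    have e4 : (2 * g / Real.sqrt (2 * π)) ^ 2 = 2 * (2 * g ^ 2 / Real.sqrt (2 * π) ^ 2) := by
      rw [div_pow]
      ring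
    rw [e3, e4, mul_lt_mul_iff_left₀ hg2]
  rw [e1]
  have hX : 0 ≤ Real.sqrt s * c * (Real.sqrt 2 * Real.sqrt (2 * π)) := by positivity
  have e5 : (Real.sqrt s * c * (Real.sqrt 2 * Real.sqrt (2 * π))) ^ 2 = 4 * (π * (s * c ^ 2)) := by
    rw [mul_pow, mul_pow, mul_pow, hss2, hr22, hP2]
    ring
  constructor
  · intro h
    have h5 : (Real.sqrt s * c * (Real.sqrt 2 * Real.sqrt (2 * π))) ^ 2 < 2 ^ 2 := by
      exact pow_lt_pow_left₀ h hX two_ne_zero
    rw [e5] at h5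
    linarith
  · intro h
    have h5 : (Real.sqrt s * c * (Real.sqrt 2 * Real.sqrt (2 * π))) ^ 2 < 2 ^ 2 := by
      rw [e5]
      linarith
    exact lt_of_pow_lt_pow_left₀ 2 (by norm_num) h5

theorem Fin_compare {n : ℕ} (h2 : 2 ≤ n) {t : ℝ} (ht : 0 < t) :
    (Fin_diag n t < Fin_pair n t ↔ pn n (t / 2) < p2 (t / 2)) ∧
      (Fin_diag n t = Fin_pair n t ↔ pn n (t / 2) = p2 (t / 2)) ∧
      (Fin_pair n t < Fin_diag n t ↔ p2 (t / 2) < pn n (t / 2)) := by
  have hG : 0 < G (t / 2) := by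
    have := psi_zero_pos (half_pos ht)
    rw [psi_zero_eq] at this
    linarith
  have hK : 0 < (2 * π) ^ (-((n : ℝ) + 1) / 2) * (2 * π * (2 * G (t / 2)) ^ n) := by positivity
  rw [Fin_diag_eq ht, Fin_pair_eq h2 ht]
  exact ⟨mul_lt_mul_iff_right₀ hK, mul_right_inj' hK.ne', mul_lt_mul_iff_right₀ hK⟩

/-- thresholds in the variable `t` -/
theorem Fin_thresholds_t : ∃ (T : ℕ → ℝ) (L : ℝ), 124 / 100 < L ∧
    (∀ n, 3 ≤ n → L < T n ∧ T n < 28 / 10 ∧ T (n + 1) < T n) ∧ Tendsto T atTop (𝓝 L) ∧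
    (∀ t, 124 / 100 ≤ t → (L < t ↔ Real.sqrt (Fin_var t) * Fin_g (t / Real.sqrt 2) < Fin_g (t / 2) ^ 2)) ∧
    ∀ n, 3 ≤ n → ∀ t, 124 / 100 ≤ t → (t < T n → Fin_diag n t < Fin_pair n t) ∧
      (t = T n → Fin_diag n t = Fin_pair n t) ∧ (T n < t → Fin_pair n t < Fin_diag n t) := by
  obtain ⟨T, L, h1, h2, h3, h4, h5⟩ := Fin_thresholds
  refine ⟨fun n => 2 * T n, 2 * L, by linarith, fun n hn => ?_, h3.const_mul 2, fun t ht => ?_, fun n hn t ht => ?_⟩
  · obtain ⟨a, b, c⟩ := h2 n hn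
    refine ⟨by linarith, by linarith, by linarith⟩
  · rw [Fin_cond_iff (by linarith), ← h4 (t / 2) (by linarith)]
    constructor <;> intro h <;> linarith
  · have hc := Fin_compare (n := n) (by omega) (t := t) (by linarith)
    obtain ⟨a, b, c⟩ := h5 n hn (t / 2) (by linarith)
    refine ⟨fun h => hc.1.2 (a (by linarith)), fun h => hc.2.1.2 (b (by linarith)), fun h => hc.2.2.2 (c (by linarith))⟩

end GCube
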