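import Pool.Agent.Lib.H83.ThDefs
import Pool.Agent.Lib.H83.ThPtCheck
import Pool.Agent.Lib.H83.CFTrig

/-!
Chunk XP1 (M): Taylor polynomial of `Pn t`.

`evalQ l v = ∑ l_j v^j`. `|cos v - ∑_{k<K} (-1)^k v^(2k)/(2k)!| ≤ v^(2K)/(2K)!` (induction on `K` by two integrations, or Mathlib's
Taylor bounds for `cos`; see also `CFTrig_sign` in `CFTrig.lean`: alternating bounds of `cos`). Multiply by `E(tξ)`, `v = uξ`, integrate over
`ξ ∈ [0,1]` and divide by `Nm t 0`: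
`|Pn t u - ∑_{k<K} (-1)^k (Nm t (2k)/Nm t 0) u^(2k)/(2k)!| ≤ u^(2K)/(2K)!` (`Nm t (2K) ≤ Nm t 0`).
`mL t k ≤ Nm t (2k)/Nm t 0 ≤ mU t k` (`nmS j w 0 30 ≤ ∫ ξ^j exp(-wξ²) ≤ nmS j w 0 31`, as in `CF.nmL_le`, `CF.le_nmU`; here the counts are
`30` and `31`; positivity of `nmS 0 w 0 30` for `w = t²/2 ≤ 0.98`: `nmS 0 w 0 30 ≥ 1 - w/3 > 0` or via `okd`/`0 < nmL`; you may use the
hypothesis `hpos`), and `mU - mL ≤ d` by `okd`. Sum of the errors: `d ∑_{k<K} S^(2k)/(2k)!`.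
-/

open MeasureTheory Set
open scoped Real

namespace GCube

noncomputable def evalQ : List ℚ → ℝ → ℝ
  | [], _ => 0
  | c :: l, v => c + v * evalQ l v

theorem XP1_cos_pos (K : ℕ) {v : ℝ} (hv : 0 ≤ v) :
    |Real.cos v - CF.CFTrig_cp K v| ≤ v ^ (2 * K) / (Nat.factorial (2 * K) : ℝ) := by
  cases K with
  | zero =>
    have h : CF.CFTrig_cp 0 v = 0 := by unfold CF.CFTrig_cp; simp
    rw [h, sub_zero]
    simpa using Real.abs_cos_le_one v
  | succ n =>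
    have h1 := (CF.CFTrig_sign n).1 v hv
    have h2 := (CF.CFTrig_sign (n + 1)).1 v hv
    have e : CF.CFTrig_cp (n + 1 + 1) v = CF.CFTrig_cp (n + 1) v +
        (-1 : ℝ) ^ (n + 1) * v ^ (2 * (n + 1)) / ((2 * (n + 1)).factorial : ℝ) := by
      unfold CF.CFTrig_cp
      rw [Finset.sum_range_succ]
    rw [e] at h2
    have hs : (-1 : ℝ) ^ (n + 1) * (-1 : ℝ) ^ (n + 1) = 1 := by
      rw [← mul_pow]
      norm_num
    have e3 : |Real.cos v - CF.CFTrig_cp (n + 1) v| = (-1 : ℝ) ^ (n + 1) * (Real.cos v - CF.CFTrig_cp (n + 1) v) := by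
      rw [← abs_of_nonneg h1, abs_mul, abs_pow, abs_neg, abs_one, one_pow, one_mul]
    rw [e3]
    have e4 : (-1 : ℝ) ^ (n + 1 + 1) * (Real.cos v - (CF.CFTrig_cp (n + 1) v +
        (-1 : ℝ) ^ (n + 1) * v ^ (2 * (n + 1)) / ((2 * (n + 1)).factorial : ℝ))) =
        ((-1 : ℝ) ^ (n + 1) * (-1 : ℝ) ^ (n + 1)) * (v ^ (2 * (n + 1)) / ((2 * (n + 1)).factorial : ℝ)) -
          (-1 : ℝ) ^ (n + 1) * (Real.cos v - CF.CFTrig_cp (n + 1) v) := by ring
    rw [e4, hs] at h2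
    linarith

theorem XP1_cp_neg (K : ℕ) (v : ℝ) : CF.CFTrig_cp K (-v) = CF.CFTrig_cp K v := by
  unfold CF.CFTrig_cp
  refine Finset.sum_congr rfl fun k _ => ?_
  rw [Even.neg_pow (even_two_mul k)]

theorem XP1_cos (K : ℕ) (v : ℝ) :
    |Real.cos v - CF.CFTrig_cp K v| ≤ v ^ (2 * K) / (Nat.factorial (2 * K) : ℝ) := by
  rcases le_total 0 v with h | h
  · exact XP1_cos_pos K h
  · have h2 := XP1_cos_pos K (v := -v) (by linarith)
    rwa [Real.cos_neg, XP1_cp_neg, Even.neg_pow (even_two_mul K)] at h2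

theorem TP_cos (K : ℕ) (v : ℝ) :
    |Real.cos v - ∑ k ∈ Finset.range K, (-1) ^ k * v ^ (2 * k) / (Nat.factorial (2 * k) : ℝ)| ≤
      v ^ (2 * K) / (Nat.factorial (2 * K) : ℝ) := XP1_cos K v

theorem XP1_r16 (q : ℚ) : TP.r16 q ≤ q := by
  unfold TP.r16
  have h := Int.floor_le (q * 10000000000000000)
  rw [div_le_iff₀ (by norm_num)]
  exact h

theorem XP1_u16 (q : ℚ) : q ≤ TP.u16 q := by
  unfold TP.u16
  have h := XP1_r16 (-q)
  linarith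

theorem XP1_nmS {w : ℚ} (h0 : 0 ≤ w) (h1 : w ≤ 1) (j cnt : ℕ) : ∀ n : ℕ,
    0 ≤ CF.nmS j w n cnt ∧ CF.nmS j w n cnt ≤ 1 / (2 * n + j + 1) := by
  induction cnt with
  | zero => intro n; simp only [CF.nmS]; exact ⟨le_rfl, by positivity⟩
  | succ cnt ih =>
    intro n
    obtain ⟨h2, h3⟩ := ih (n + 1)
    have e : CF.nmS j w n (cnt + 1) = 1 / (2 * n + j + 1) - w / (n + 1) * CF.nmS j w (n + 1) cnt := rfl
    have h4 : w / ((n : ℚ) + 1) ≤ 1 := by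
      rw [div_le_one (by positivity)]
      have : (0 : ℚ) ≤ n := by positivity
      linarith
    have h5 : 0 ≤ w / ((n : ℚ) + 1) := by positivity
    have h6 : w / ((n : ℚ) + 1) * CF.nmS j w (n + 1) cnt ≤ 1 * (1 / (2 * ((n + 1 : ℕ) : ℚ) + j + 1)) :=
      mul_le_mul h4 h3 h2 (by norm_num)
    have h7 : 1 / (2 * ((n + 1 : ℕ) : ℚ) + j + 1) ≤ 1 / (2 * (n : ℚ) + j + 1) := by
      apply one_div_le_one_div_of_le (by positivity)
      push_cast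
      linarith
    have h8 : 0 ≤ w / ((n : ℚ) + 1) * CF.nmS j w (n + 1) cnt := mul_nonneg h5 h2
    rw [e]
    constructor <;> linarith

theorem XP1_nmS_pos {w : ℚ} (h0 : 0 ≤ w) (h1 : w ≤ 1) : 0 < CF.nmS 0 w 0 30 := by
  have e : CF.nmS 0 w 0 30 = 1 / (2 * ((0 : ℕ) : ℚ) + ((0 : ℕ) : ℚ) + 1) - w / (((0 : ℕ) : ℚ) + 1) * CF.nmS 0 w (0 + 1) 29 := rfl
  obtain ⟨h2, h3⟩ := XP1_nmS h0 h1 0 29 (0 + 1)
  rw [e]
  push_cast at h3 ⊢
  nlinarith

theorem XP1_low (j : ℕ) (t : ℚ) : ((CF.nmS j (t ^ 2 / 2) 0 30 : ℚ) : ℝ) ≤ Nm t j := by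
  unfold Nm
  rw [CF.cpr_nm_int]
  have hE := E_continuous
  have hc := CF.cprEm_cont 30 0
  apply intervalIntegral.integral_mono_on zero_le_one
  · have hc2 : Continuous (fun ξ : ℝ => CF.cprEm (((t ^ 2 / 2 : ℚ) : ℝ) * ξ ^ 2) 0 30) :=
      hc.comp (by fun_prop : Continuous (fun ξ : ℝ => ((t ^ 2 / 2 : ℚ) : ℝ) * ξ ^ 2))
    exact (by fun_prop : Continuous fun ξ : ℝ => ξ ^ (2 * 0 + j) *
      CF.cprEm (((t ^ 2 / 2 : ℚ) : ℝ) * ξ ^ 2) 0 30).intervalIntegrable _ _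
  · exact (by fun_prop : Continuous fun ξ : ℝ => ξ ^ j * E (t * ξ)).intervalIntegrable _ _
  · intro ξ hξ
    have e : 2 * 0 + j = j := by omega
    rw [e, CF.cpr_em_ps, CF.cpr_E]
    apply mul_le_mul_of_nonneg_left _ (pow_nonneg hξ.1 j)
    push_cast
    exact AIneq.ps_le_exp (by decide) (by positivity)

theorem XP1_up (j : ℕ) (t : ℚ) : Nm t j ≤ ((CF.nmS j (t ^ 2 / 2) 0 31 : ℚ) : ℝ) := by
  unfold Nm
  rw [CF.cpr_nm_int]
  have hE := E_continuous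
  have hc := CF.cprEm_cont 31 0
  apply intervalIntegral.integral_mono_on zero_le_one
  · exact (by fun_prop : Continuous fun ξ : ℝ => ξ ^ j * E (t * ξ)).intervalIntegrable _ _
  · have hc2 : Continuous (fun ξ : ℝ => CF.cprEm (((t ^ 2 / 2 : ℚ) : ℝ) * ξ ^ 2) 0 31) :=
      hc.comp (by fun_prop : Continuous (fun ξ : ℝ => ((t ^ 2 / 2 : ℚ) : ℝ) * ξ ^ 2))
    exact (by fun_prop : Continuous fun ξ : ℝ => ξ ^ (2 * 0 + j) *
      CF.cprEm (((t ^ 2 / 2 : ℚ) : ℝ) * ξ ^ 2) 0 31).intervalIntegrable _ _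
  · intro ξ hξ
    have e : 2 * 0 + j = j := by omega
    rw [e, CF.cpr_em_ps, CF.cpr_E]
    apply mul_le_mul_of_nonneg_left _ (pow_nonneg hξ.1 j)
    push_cast
    exact AIneq.exp_le_ps (by decide) (by positivity)

theorem TP_mom {t : ℚ} (h0 : 0 < t) (h1 : t ≤ 14 / 10) (k : ℕ) :
    ((TP.mL t k : ℚ) : ℝ) ≤ Nm t (2 * k) / Nm t 0 ∧ Nm t (2 * k) / Nm t 0 ≤ ((TP.mU t k : ℚ) : ℝ) := by
  have hw0 : 0 ≤ t ^ 2 / 2 := by positivity
  have hw1 : t ^ 2 / 2 ≤ 1 := by nlinarith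
  have hN := Nm_pos (t : ℝ) 0
  have hK := Nm_pos (t : ℝ) (2 * k)
  have a1 := XP1_low (2 * k) t
  have a2 := XP1_up (2 * k) t
  have b1 := XP1_low 0 t
  have b2 := XP1_up 0 t
  have b3 : (0 : ℝ) < ((CF.nmS 0 (t ^ 2 / 2) 0 30 : ℚ) : ℝ) := by exact_mod_cast XP1_nmS_pos hw0 hw1
  constructor
  · have h : ((TP.mL t k : ℚ) : ℝ) ≤
        ((CF.nmS (2 * k) (t ^ 2 / 2) 0 30 / CF.nmS 0 (t ^ 2 / 2) 0 31 : ℚ) : ℝ) := by
      exact_mod_cast XP1_r16 _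
    refine h.trans ?_
    rw [Rat.cast_div]
    refine (div_le_div_of_nonneg_right a1 (hN.le.trans b2)).trans ?_
    exact div_le_div_of_nonneg_left hK.le hN b2
  · have h : ((CF.nmS (2 * k) (t ^ 2 / 2) 0 31 / CF.nmS 0 (t ^ 2 / 2) 0 30 : ℚ) : ℝ) ≤
        ((TP.mU t k : ℚ) : ℝ) := by
      exact_mod_cast XP1_u16 _
    refine le_trans ?_ h
    rw [Rat.cast_div]
    refine (div_le_div_of_nonneg_right a2 hN.le).trans ?_
    exact div_le_div_of_nonneg_left (hK.le.trans a2) b3 b1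

theorem XP1_co (t : ℚ) (c : ℕ) : ∀ (k : ℕ) (v : ℝ), evalQ (TP.co t k c) v =
    ∑ i ∈ Finset.range c, (-1 : ℝ) ^ (k + i) * ((TP.mL t (k + i) : ℚ) : ℝ) /
      (Nat.factorial (2 * (k + i)) : ℝ) * v ^ i := by
  induction c with
  | zero => intro k v; simp [TP.co, evalQ]
  | succ c ih =>
    intro k v
    rw [Finset.sum_range_succ']
    simp only [TP.co, evalQ]
    rw [ih (k + 1) v, Finset.mul_sum, add_comm]
    congr 1
    · refine Finset.sum_congr rfl fun i _ => ?_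
      rw [show k + 1 + i = k + (i + 1) by ring]
      ring
    · push_cast
      simp

theorem XP1_listsum (f : ℕ → ℚ) (K : ℕ) : ((List.range K).map f).sum = ∑ k ∈ Finset.range K, f k := by
  induction K with
  | zero => simp
  | succ K ih => rw [List.range_succ, List.map_append, List.sum_append, ih, Finset.sum_range_succ]; simp

theorem XP1_int (t u : ℝ) (K : ℕ) (hu : 0 ≤ u) :
    |Pn t u - ∑ k ∈ Finset.range K, (-1 : ℝ) ^ k * (Nm t (2 * k) / Nm t 0) * u ^ (2 * k) /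
      (Nat.factorial (2 * k) : ℝ)| ≤ u ^ (2 * K) / (Nat.factorial (2 * K) : ℝ) := by
  have hE := E_continuous
  have hN := Nm_pos t 0
  have hcp : Continuous (CF.CFTrig_cp K) := by
    unfold CF.CFTrig_cp
    fun_prop
  have hc1 : Continuous fun ξ : ℝ => E (t * ξ) * Real.cos (u * ξ) := by fun_prop
  have hc2 : Continuous fun ξ : ℝ => E (t * ξ) * CF.CFTrig_cp K (u * ξ) := by fun_prop
  have h1 : ∫ ξ in (0 : ℝ)..1, E (t * ξ) * CF.CFTrig_cp K (u * ξ) =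
      ∑ k ∈ Finset.range K, (-1 : ℝ) ^ k * Nm t (2 * k) * u ^ (2 * k) / (Nat.factorial (2 * k) : ℝ) := by
    have e : ∀ ξ : ℝ, E (t * ξ) * CF.CFTrig_cp K (u * ξ) = ∑ k ∈ Finset.range K,
        ((-1 : ℝ) ^ k * u ^ (2 * k) / (Nat.factorial (2 * k) : ℝ)) * (ξ ^ (2 * k) * E (t * ξ)) := by
      intro ξ
      unfold CF.CFTrig_cp
      rw [Finset.mul_sum]
      refine Finset.sum_congr rfl fun k _ => ?_
      ring
    simp only [e]
    rw [intervalIntegral.integral_finset_sum]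
    · refine Finset.sum_congr rfl fun k _ => ?_
      rw [intervalIntegral.integral_const_mul]
      unfold Nm
      ring
    · intro k _
      exact (by fun_prop : Continuous fun ξ : ℝ => ((-1 : ℝ) ^ k * u ^ (2 * k) /
        (Nat.factorial (2 * k) : ℝ)) * (ξ ^ (2 * k) * E (t * ξ))).intervalIntegrable _ _
  have h2 : |(∫ ξ in (0 : ℝ)..1, E (t * ξ) * Real.cos (u * ξ)) -
      ∫ ξ in (0 : ℝ)..1, E (t * ξ) * CF.CFTrig_cp K (u * ξ)| ≤
      u ^ (2 * K) / (Nat.factorial (2 * K) : ℝ) * Nm t 0 := by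
    rw [← intervalIntegral.integral_sub (hc1.intervalIntegrable _ _) (hc2.intervalIntegrable _ _)]
    refine (intervalIntegral.abs_integral_le_integral_abs zero_le_one).trans ?_
    unfold Nm
    rw [← intervalIntegral.integral_const_mul]
    refine intervalIntegral.integral_mono_on zero_le_one ?_ ?_ fun ξ hξ => ?_
    · exact (hc1.sub hc2).abs.intervalIntegrable _ _
    · exact (by fun_prop : Continuous fun ξ : ℝ => u ^ (2 * K) / (Nat.factorial (2 * K) : ℝ) *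
        (ξ ^ 0 * E (t * ξ))).intervalIntegrable _ _
    · rw [← mul_sub, abs_mul, abs_of_pos (E_pos _)]
      have h3 := XP1_cos K (u * ξ)
      have h4 : (u * ξ) ^ (2 * K) ≤ u ^ (2 * K) :=
        pow_le_pow_left₀ (mul_nonneg hu hξ.1) (mul_le_of_le_one_right hu hξ.2) _
      have h5 : (u * ξ) ^ (2 * K) / (Nat.factorial (2 * K) : ℝ) ≤ u ^ (2 * K) / (Nat.factorial (2 * K) : ℝ) :=
        div_le_div_of_nonneg_right h4 (by positivity)
      have h6 := mul_le_mul_of_nonneg_left (h3.trans h5) (E_pos (t * ξ)).le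
      rw [pow_zero, one_mul]
      linarith
  rw [h1] at h2
  have h3 : Pn t u = (∫ ξ in (0 : ℝ)..1, E (t * ξ) * Real.cos (u * ξ)) / Nm t 0 := rfl
  have h4 : ∑ k ∈ Finset.range K, (-1 : ℝ) ^ k * (Nm t (2 * k) / Nm t 0) * u ^ (2 * k) /
      (Nat.factorial (2 * k) : ℝ) = (∑ k ∈ Finset.range K, (-1 : ℝ) ^ k * Nm t (2 * k) * u ^ (2 * k) /
      (Nat.factorial (2 * k) : ℝ)) / Nm t 0 := by
    rw [Finset.sum_div]
    refine Finset.sum_congr rfl fun k _ => ?_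
    ring
  rw [h3, h4, ← sub_div, abs_div, abs_of_pos hN, div_le_iff₀ hN]
  exact h2

theorem TP_taylor {t S d : ℚ} {K : ℕ} (h0 : 0 < t) (h1 : t ≤ 14 / 10) (hd : TP.okd t K d = true) (hd0 : 0 ≤ d)
    {u : ℝ} (hu0 : 0 ≤ u) (hu : u ≤ S) :
    |Pn t u - evalQ (TP.co t 0 K) (u ^ 2)| ≤ ((TP.eps S K d : ℚ) : ℝ) := by
  have hd0' : (0 : ℝ) ≤ (d : ℝ) := by exact_mod_cast hd0
  have a1 := XP1_int t u K hu0
  have a2 : u ^ (2 * K) / (Nat.factorial (2 * K) : ℝ) ≤ (S : ℝ) ^ (2 * K) / (Nat.factorial (2 * K) : ℝ) :=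
    div_le_div_of_nonneg_right (pow_le_pow_left₀ hu0 hu _) (by positivity)
  have hd' : ∀ k < K, TP.mU t k - TP.mL t k ≤ d := by
    intro k hk
    unfold TP.okd at hd
    rw [List.all_eq_true] at hd
    have := hd k (List.mem_range.2 hk)
    exact of_decide_eq_true this
  have a3 : |(∑ k ∈ Finset.range K, (-1 : ℝ) ^ k * (Nm t (2 * k) / Nm t 0) * u ^ (2 * k) /
      (Nat.factorial (2 * k) : ℝ)) - evalQ (TP.co t 0 K) (u ^ 2)| ≤
      (d : ℝ) * ∑ k ∈ Finset.range K, (S : ℝ) ^ (2 * k) / (Nat.factorial (2 * k) : ℝ) := by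
    rw [XP1_co, ← Finset.sum_sub_distrib, Finset.mul_sum]
    refine (Finset.abs_sum_le_sum_abs _ _).trans (Finset.sum_le_sum fun k hk => ?_)
    obtain ⟨m1, m2⟩ := TP_mom h0 h1 k
    have m3 : ((TP.mU t k : ℚ) : ℝ) - ((TP.mL t k : ℚ) : ℝ) ≤ d := by
      exact_mod_cast hd' k (Finset.mem_range.1 hk)
    rw [zero_add]
    have e : (-1 : ℝ) ^ k * (Nm t (2 * k) / Nm t 0) * u ^ (2 * k) / (Nat.factorial (2 * k) : ℝ) -
        (-1 : ℝ) ^ k * ((TP.mL t k : ℚ) : ℝ) / (Nat.factorial (2 * k) : ℝ) * (u ^ 2) ^ k =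
        (-1 : ℝ) ^ k * ((Nm t (2 * k) / Nm t 0 - ((TP.mL t k : ℚ) : ℝ)) *
          (u ^ (2 * k) / (Nat.factorial (2 * k) : ℝ))) := by
      rw [← pow_mul]
      ring
    rw [e, abs_mul, abs_pow, abs_neg, abs_one, one_pow, one_mul]
    have h5 : 0 ≤ u ^ (2 * k) / (Nat.factorial (2 * k) : ℝ) := by positivity
    rw [abs_of_nonneg (mul_nonneg (by linarith) h5)]
    refine mul_le_mul (by linarith) ?_ h5 hd0'
    exact div_le_div_of_nonneg_right (pow_le_pow_left₀ hu0 hu _) (by positivity)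
  have a4 := abs_sub_le (Pn t u) (∑ k ∈ Finset.range K, (-1 : ℝ) ^ k * (Nm t (2 * k) / Nm t 0) * u ^ (2 * k) /
      (Nat.factorial (2 * k) : ℝ)) (evalQ (TP.co t 0 K) (u ^ 2))
  unfold TP.eps
  rw [XP1_listsum]
  push_cast
  linarith

end GCube
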