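import Pool.Agent.Lib.H83.ThPtA

/-!
Chunk XP2 (S/M): polynomial arithmetic and the integral over `[0,S]`.

`evalQ_padd`, `evalQ_pmul`, `evalQ_ppow`: inductions. `int_evalQ`: `∫_0^S u^(2j) evalQ l (u²) du = pint S j l`.
`TP_main`: `|a^n - b^n| ≤ n |a - b| (1+ε)^(n-1)` for `|a| ≤ 1`, `|b| ≤ 1 + ε` (`abs_Pn_le_one`), so
`∫_0^S Pn^n ≥ ∫_0^S (evalQ co (u²))^n - S n ε (1+ε)^(n-1)`.
-/

open MeasureTheory Set
open scoped Real

namespace GCube

theorem evalQ_padd (p q : List ℚ) (v : ℝ) : evalQ (TP.padd p q) v = evalQ p v + evalQ q v := by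
  induction p generalizing q with
  | nil => simp [TP.padd, evalQ]
  | cons a p ih =>
    cases q with
    | nil => simp [TP.padd, evalQ]
    | cons b q =>
      simp only [TP.padd, evalQ, ih q]
      push_cast
      ring

theorem evalQ_smul (a : ℚ) (q : List ℚ) (v : ℝ) : evalQ (q.map fun b => a * b) v = a * evalQ q v := by
  induction q with
  | nil => simp [evalQ]
  | cons b q ih =>
    simp only [List.map_cons, evalQ, ih]
    push_cast
    ring

theorem evalQ_pmul (p q : List ℚ) (v : ℝ) : evalQ (TP.pmul p q) v = evalQ p v * evalQ q v := by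
  induction p with
  | nil => simp [TP.pmul, evalQ]
  | cons a p ih =>
    simp only [TP.pmul, evalQ_padd, evalQ_smul, evalQ, ih]
    push_cast
    ring

theorem evalQ_ppow (p : List ℚ) (n : ℕ) (v : ℝ) : evalQ (TP.ppow p n) v = evalQ p v ^ n := by
  induction n with
  | zero => simp [TP.ppow, evalQ]
  | succ n ih => rw [TP.ppow, evalQ_pmul, ih]; ring

theorem evalQ_cont (l : List ℚ) : Continuous (evalQ l) := by
  induction l with
  | nil => exact continuous_const
  | cons c l ih =>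
    have : evalQ (c :: l) = fun v => (c : ℝ) + v * evalQ l v := rfl
    rw [this]
    fun_prop

theorem int_evalQ (l : List ℚ) (S : ℚ) (j : ℕ) :
    ∫ u in (0 : ℝ)..S, u ^ (2 * j) * evalQ l (u ^ 2) = ((TP.pint S j l : ℚ) : ℝ) := by
  induction l generalizing j with
  | nil => simp [TP.pint, evalQ]
  | cons c l ih =>
    have hc := evalQ_cont l
    have e : ∀ u : ℝ, u ^ (2 * j) * evalQ (c :: l) (u ^ 2) =
        (c : ℝ) * u ^ (2 * j) + u ^ (2 * (j + 1)) * evalQ l (u ^ 2) := by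
      intro u
      simp only [evalQ]
      ring
    simp only [e]
    rw [intervalIntegral.integral_add
      ((by fun_prop : Continuous fun u : ℝ => (c : ℝ) * u ^ (2 * j)).intervalIntegrable _ _)
      ((by fun_prop : Continuous fun u : ℝ => u ^ (2 * (j + 1)) * evalQ l (u ^ 2)).intervalIntegrable _ _),
      intervalIntegral.integral_const_mul, integral_pow, ih (j + 1)]
    simp only [TP.pint]
    push_cast
    simp
    ring

theorem XP2_pow {a b ε : ℝ} {n : ℕ} (ha : |a| ≤ 1) (hab : |a - b| ≤ ε) :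
    b ^ n - n * ε * (1 + ε) ^ (n - 1) ≤ a ^ n := by
  have hε : 0 ≤ ε := (abs_nonneg _).trans hab
  have hb : |b| ≤ 1 + ε := by
    have h := abs_sub_abs_le_abs_sub b a
    rw [abs_sub_comm] at h
    linarith
  have h := abs_pow_sub_pow_le a b n
  have hm : max |a| |b| ≤ 1 + ε := max_le (by linarith) hb
  have h2 : |a - b| * n * max |a| |b| ^ (n - 1) ≤ ε * n * (1 + ε) ^ (n - 1) :=
    mul_le_mul (mul_le_mul_of_nonneg_right hab (by positivity))
      (pow_le_pow_left₀ (le_max_of_le_left (abs_nonneg _)) hm _)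
      (pow_nonneg (le_max_of_le_left (abs_nonneg _)) _) (by positivity)
  have h3 := neg_abs_le (a ^ n - b ^ n)
  have e : (n : ℝ) * ε * (1 + ε) ^ (n - 1) = ε * n * (1 + ε) ^ (n - 1) := by ring
  rw [e]
  linarith

theorem TP_main {n : ℕ} {t S d : ℚ} {K : ℕ} (hn1 : 1 ≤ n) (h0 : 0 < t) (h1 : t ≤ 14 / 10) (hS : 0 < S)
    (hd : TP.okd t K d = true) (hd0 : 0 ≤ d) :
    ((TP.pint S 0 (TP.ppow (TP.co t 0 K) n) - S * n * TP.eps S K d * (1 + TP.eps S K d) ^ (n - 1) : ℚ) : ℝ) ≤
      ∫ u in (0 : ℝ)..S, Pn t u ^ n := by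
  have hS' : (0 : ℝ) ≤ (S : ℝ) := by exact_mod_cast hS.le
  have hP := Pn_cont (t : ℝ)
  have hc := evalQ_cont (TP.co t 0 K)
  have hI := int_evalQ (TP.ppow (TP.co t 0 K) n) S 0
  simp only [mul_zero, pow_zero, one_mul, evalQ_ppow] at hI
  have h2 : ∫ u in (0 : ℝ)..S, (evalQ (TP.co t 0 K) (u ^ 2) ^ n -
      (n : ℝ) * ((TP.eps S K d : ℚ) : ℝ) * (1 + ((TP.eps S K d : ℚ) : ℝ)) ^ (n - 1)) ≤
      ∫ u in (0 : ℝ)..S, Pn t u ^ n := by
    refine intervalIntegral.integral_mono_on hS' ?_ ?_ fun u hu => ?_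
    · exact (by fun_prop : Continuous fun u : ℝ => evalQ (TP.co t 0 K) (u ^ 2) ^ n -
        (n : ℝ) * ((TP.eps S K d : ℚ) : ℝ) * (1 + ((TP.eps S K d : ℚ) : ℝ)) ^ (n - 1)).intervalIntegrable _ _
    · exact (by fun_prop : Continuous fun u : ℝ => Pn t u ^ n).intervalIntegrable _ _
    · exact XP2_pow (abs_Pn_le_one _ _) (TP_taylor h0 h1 hd hd0 hu.1 hu.2)
  refine le_trans (le_of_eq ?_) h2
  rw [intervalIntegral.integral_sub
    ((by fun_prop : Continuous fun u : ℝ => evalQ (TP.co t 0 K) (u ^ 2) ^ n).intervalIntegrable _ _)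
    (intervalIntegrable_const), hI, intervalIntegral.integral_const]
  push_cast
  rw [smul_eq_mul, sub_zero]
  ring

end GCube
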