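import Pool.Agent.Lib.H83.ThElem

/-!
Chunk XC1 (M): the test function `qf`: `K ≥ 0`.

Hypotheses (`QH`): `0 < τ`, `τ² ≤ 2`, `τ ≤ R`, `0 < γ`, `2γ ≤ sg τ`, `γ (R² - 3 sg τ) = (3/2) Av τ`. Write `σ² = sg τ`, `κ = 2γG/R`.
`Phi1 τ φ` is continuous, odd for `φ` even, equal to `∫_0^x φ` on `[-τ,τ]` and constant beyond.
`∫_0^τ fv = σ²G - ∫x²E = 0` (`sg_eq_int`). So `qf x = κ x - 2γG = 2γG (x/R - 1)` for `x ≥ τ` (`qf_far`), which is `≥ 0` for `x ≥ R`.
On `[0,τ]`: `q = ∫_0^x fv + κx - 2γ ∫_0^x E`, `q' = (σ² - x²)E + κ - 2γE`, `q'' = xE(x² + 2γ - 2 - σ²) ≤ 0`: `q` is concave on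
`[0,τ]`, `q(0) = 0`, `q'(0) = σ² - 2γ + κ > 0` (so `q > 0` near `0+`).
`K q τ = ∫_0^τ u q = ½ G Av + κτ³/3 - γG(τ² - σ²)` (parts: `∫_0^τ u ∫_0^u fv = -½∫u² fv = ½(∫x⁴E - σ²∫x²E) = ½ G Av` by `Av_eq`;
`∫_0^τ u ∫_0^u E = ½(τ²G - σ²G)`), hence for `r ≥ τ`, using `½ Av + γσ² = γR²/3`:
`K q r = γG (R²/3 + 2r³/(3R) - r²) = γG/(3R) (r - R)² (2r + R) ≥ 0`.
For `0 ≤ r ≤ τ`: if `q(r) ≥ 0` then `q ≥ 0` on `[0,r]` (concavity, `q 0 = 0`) and `K q r ≥ 0`; if `q(r) < 0` then `q < 0` on `[r,τ]`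
(concavity) so `K q r ≥ K q τ ≥ 0`.
-/

open MeasureTheory Set
open scoped Real

namespace GCube

structure QH (τ R γ : ℝ) : Prop where
  τpos : 0 < τ
  τsq : τ ^ 2 ≤ 2
  hR : τ ≤ R
  γpos : 0 < γ
  γle : 2 * γ ≤ sg τ
  eq : γ * (R ^ 2 - 3 * sg τ) = 3 / 2 * Av τ

theorem XC1_cl_cont (τ : ℝ) : Continuous (cl τ) := by
  unfold cl
  fun_prop

theorem Phi1_cont {τ : ℝ} {φ : ℝ → ℝ} (hφ : Continuous φ) : Continuous (Phi1 τ φ) := by
  have h : Continuous fun y => ∫ t in (0 : ℝ)..y, φ t :=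
    intervalIntegral.continuous_primitive (fun a b => hφ.intervalIntegrable a b) 0
  exact h.comp (XC1_cl_cont τ)

theorem XC1_cl_neg {τ : ℝ} (hτ : 0 ≤ τ) (x : ℝ) : cl τ (-x) = - cl τ x := by
  unfold cl
  rcases le_total τ x with h | h
  · have e1 : min τ (-x) = -x := min_eq_right (by linarith)
    have e2 : max (-τ) (-x) = -τ := max_eq_left (by linarith)
    have e3 : max (-τ) τ = τ := max_eq_right (by linarith)
    rw [min_eq_left h, e1, e2, e3]
  · rcases le_total (-τ) x with h' | h'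
    · have e1 : min τ (-x) = -x := min_eq_right (by linarith)
      have e2 : max (-τ) (-x) = -x := max_eq_right (by linarith)
      rw [min_eq_right h, max_eq_right h', e1, e2]
    · have e1 : min τ (-x) = τ := min_eq_left (by linarith)
      have e3 : max (-τ) τ = τ := max_eq_right (by linarith)
      rw [min_eq_right h, max_eq_left h', e1, e3, neg_neg]

theorem XC1_int_neg {φ : ℝ → ℝ} (he : ∀ x, φ (-x) = φ x) (c : ℝ) :
    ∫ t in (0 : ℝ)..(-c), φ t = - ∫ t in (0 : ℝ)..c, φ t := by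
  have h := intervalIntegral.integral_comp_neg (a := 0) (b := c) φ
  simp only [he, neg_zero] at h
  rw [intervalIntegral.integral_symm, ← h]

theorem Phi1_odd {τ : ℝ} (hτ : 0 ≤ τ) {φ : ℝ → ℝ} (he : ∀ x, φ (-x) = φ x) (x : ℝ) :
    Phi1 τ φ (-x) = - Phi1 τ φ x := by
  unfold Phi1
  rw [XC1_cl_neg hτ, XC1_int_neg he]

theorem Phi1_eq {τ x : ℝ} {φ : ℝ → ℝ} (hx : |x| ≤ τ) : Phi1 τ φ x = ∫ t in (0 : ℝ)..x, φ t := by
  unfold Phi1 cl
  rw [abs_le] at hx
  rw [min_eq_right hx.2, max_eq_right hx.1]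

theorem Phi1_far {τ x : ℝ} (hτ : 0 ≤ τ) {φ : ℝ → ℝ} (hx : τ ≤ x) : Phi1 τ φ x = ∫ t in (0 : ℝ)..τ, φ t := by
  unfold Phi1 cl
  rw [min_eq_left hx, max_eq_right (by linarith)]

theorem XC1_fv_cont (τ : ℝ) : Continuous (fv τ) := by
  unfold fv
  have := E_continuous
  fun_prop

theorem XC1_fv_even (τ x : ℝ) : fv τ (-x) = fv τ x := by
  unfold fv
  rw [E_neg]
  ring

theorem qf_cont (τ R γ : ℝ) : Continuous (qf τ R γ) := by
  unfold qf
  have h1 := Phi1_cont (τ := τ) (XC1_fv_cont τ)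
  have h2 := Phi1_cont (τ := τ) E_continuous
  fun_prop

theorem qf_odd {τ : ℝ} (hτ : 0 ≤ τ) (R γ x : ℝ) : qf τ R γ (-x) = - qf τ R γ x := by
  unfold qf
  rw [Phi1_odd hτ (XC1_fv_even τ), Phi1_odd hτ E_neg]
  ring

/-- the smooth expression on `[0,τ]` -/
noncomputable def XC1_P (τ R γ x : ℝ) : ℝ :=
  (∫ t in (0 : ℝ)..x, fv τ t) + 2 * γ * G τ / R * x - 2 * γ * G x

theorem XC1_P_eq {τ R γ x : ℝ} (h0 : 0 ≤ x) (h1 : x ≤ τ) : qf τ R γ x = XC1_P τ R γ x := by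
  unfold qf XC1_P
  rw [Phi1_eq (by rw [abs_of_nonneg h0]; exact h1), Phi1_eq (by rw [abs_of_nonneg h0]; exact h1)]
  rfl

theorem XC1_P_deriv (τ R γ x : ℝ) :
    HasDerivAt (XC1_P τ R γ) (fv τ x + 2 * γ * G τ / R - 2 * γ * E x) x := by
  have h1 : HasDerivAt (fun y => ∫ t in (0 : ℝ)..y, fv τ t) (fv τ x) x :=
    ((XC1_fv_cont τ).integral_hasStrictDerivAt 0 x).hasDerivAt
  have h2 := (hasDerivAt_id' x).const_mul (2 * γ * G τ / R)
  have h3 := (cm_hasDerivAt_G x).const_mul (2 * γ)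
  have h4 := (h1.fun_add h2).fun_sub h3
  refine h4.congr_deriv ?_
  ring

theorem XC1_P_deriv2 (τ R γ x : ℝ) :
    HasDerivAt (fun x => fv τ x + 2 * γ * G τ / R - 2 * γ * E x) (x * E x * (x ^ 2 + 2 * γ - 2 - sg τ)) x := by
  have h1 : HasDerivAt (fun x : ℝ => sg τ - x ^ 2) (-(2 * x)) x := by
    have := (hasDerivAt_pow 2 x).const_sub (sg τ)
    simpa using this
  have h2 := h1.fun_mul (cm_hasDerivAt_E x)
  have h3 := (h2.add_const (2 * γ * G τ / R)).fun_sub ((cm_hasDerivAt_E x).const_mul (2 * γ))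
  refine h3.congr_deriv ?_
  ring

theorem XC1_P_zero (τ R γ : ℝ) : XC1_P τ R γ 0 = 0 := by
  simp [XC1_P, cm_G_zero]

theorem XC1_concave {τ R γ : ℝ} (h : QH τ R γ) : ConcaveOn ℝ (Icc 0 τ) (XC1_P τ R γ) := by
  have hc : Continuous (XC1_P τ R γ) := continuous_iff_continuousAt.2 fun x => (XC1_P_deriv τ R γ x).continuousAt
  refine AntitoneOn.concaveOn_of_deriv (convex_Icc _ _) hc.continuousOn
    (fun x _ => (XC1_P_deriv τ R γ x).differentiableAt.differentiableWithinAt) ?_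
  have he : deriv (XC1_P τ R γ) = fun x => fv τ x + 2 * γ * G τ / R - 2 * γ * E x :=
    funext fun x => (XC1_P_deriv τ R γ x).deriv
  rw [he, interior_Icc]
  refine antitoneOn_of_deriv_nonpos (convex_Ioo _ _) ?_ ?_ ?_
  · exact fun x _ => (XC1_P_deriv2 τ R γ x).continuousAt.continuousWithinAt
  · exact fun x _ => (XC1_P_deriv2 τ R γ x).differentiableAt.differentiableWithinAt
  · intro x hx
    rw [interior_Ioo] at hx
    rw [(XC1_P_deriv2 τ R γ x).deriv]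
    have h1 := h.τsq
    have h2 := h.γle
    have h3 : x ^ 2 ≤ τ ^ 2 := pow_le_pow_left₀ hx.1.le hx.2.le 2
    exact mul_nonpos_of_nonneg_of_nonpos (mul_nonneg hx.1.le (E_pos x).le) (by linarith)

/-- `x P(y) ≤ y P(x)` for `0 ≤ x ≤ y ≤ τ` -/
theorem XC1_ray {τ R γ x y : ℝ} (h : QH τ R γ) (h0 : 0 ≤ x) (h1 : x ≤ y) (h2 : y ≤ τ) :
    x * XC1_P τ R γ y ≤ y * XC1_P τ R γ x := by
  rcases (h0.trans h1).eq_or_lt with h3 | h3
  · have : x = 0 := by linarith
    rw [this, ← h3, zero_mul]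
  have hy : y ≠ 0 := h3.ne'
  have hxy : 0 ≤ 1 - x / y := by rw [sub_nonneg, div_le_one h3]; exact h1
  have hc := (XC1_concave h).2 (⟨le_rfl, h.τpos.le⟩ : (0 : ℝ) ∈ Icc 0 τ) (⟨h3.le, h2⟩ : y ∈ Icc 0 τ)
    hxy (by positivity : 0 ≤ x / y) (by ring)
  simp only [smul_eq_mul, mul_zero, XC1_P_zero, zero_add] at hc
  rw [div_mul_cancel₀ _ hy] at hc
  have h4 : y * (x / y * XC1_P τ R γ y) = x * XC1_P τ R γ y := by field_simp
  rw [← h4]
  exact mul_le_mul_of_nonneg_left hc h3.le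

theorem XC1_fv_int {τ : ℝ} (hτ : 0 < τ) : ∫ t in (0 : ℝ)..τ, fv τ t = 0 := by
  have hc2 : Continuous fun x => x ^ 2 * E x := (continuous_pow 2).mul E_continuous
  have hc0 : Continuous fun x => sg τ * E x := continuous_const.mul E_continuous
  have e : ∀ x : ℝ, fv τ x = sg τ * E x - x ^ 2 * E x := fun x => by unfold fv; ring
  simp only [e]
  rw [intervalIntegral.integral_sub (hc0.intervalIntegrable _ _) (hc2.intervalIntegrable _ _),
    intervalIntegral.integral_const_mul, ← sg_eq_int hτ]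
  have : ∫ x in (0 : ℝ)..τ, E x = G τ := rfl
  rw [this]
  ring

theorem qf_far {τ R γ x : ℝ} (h : QH τ R γ) (hx : τ ≤ x) : qf τ R γ x = 2 * γ * G τ * (x / R - 1) := by
  unfold qf
  rw [Phi1_far h.τpos.le hx, Phi1_far h.τpos.le hx, XC1_fv_int h.τpos]
  have : ∫ x in (0 : ℝ)..τ, E x = G τ := rfl
  rw [this]
  ring

theorem XC1_Rpos {τ R γ : ℝ} (h : QH τ R γ) : 0 < R := h.τpos.trans_le h.hR

theorem qf_near {τ R γ : ℝ} (h : QH τ R γ) : ∃ ε, 0 < ε ∧ ∀ x, 0 < x → x < ε → 0 < qf τ R γ x := by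
  have hG : 0 < G τ := XA3_Gpos h.τpos
  have hR := XC1_Rpos h
  have hd := XC1_P_deriv τ R γ 0
  have hE0 : E 0 = 1 := by simp [E]
  have hfv0 : fv τ 0 = sg τ := by simp [fv, hE0]
  have hpos : 0 < fv τ 0 + 2 * γ * G τ / R - 2 * γ * E 0 := by
    rw [hfv0, hE0]
    have h1 := h.γle
    have h2 := h.γpos
    have : 0 < 2 * γ * G τ / R := by positivity
    linarith
  have h2 := (hasDerivAt_iff_tendsto_slope.1 hd).eventually_const_lt hpos
  have h3 : ∀ᶠ t in nhdsWithin (0 : ℝ) (Ioi 0), 0 < slope (XC1_P τ R γ) 0 t :=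
    h2.filter_mono (nhdsWithin_mono _ fun (x : ℝ) (hx : 0 < x) => (ne_of_gt hx : x ≠ 0))
  obtain ⟨ε, hε, hε2⟩ := mem_nhdsGT_iff_exists_Ioo_subset.1 h3
  refine ⟨min ε τ, lt_min hε h.τpos, fun x hx0 hx1 => ?_⟩
  rw [XC1_P_eq hx0.le (hx1.le.trans (min_le_right _ _))]
  have h4 : 0 < slope (XC1_P τ R γ) 0 x := hε2 ⟨hx0, hx1.trans_le (min_le_left _ _)⟩
  rw [slope_def_field, XC1_P_zero, sub_zero, sub_zero] at h4
  exact (div_pos_iff_of_pos_right hx0).1 h4

theorem XC1_uq_cont (τ R γ : ℝ) : Continuous fun u => u * qf τ R γ u := continuous_id.mul (qf_cont τ R γ)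

theorem XC1_K_tau {τ R γ : ℝ} (h : QH τ R γ) : K (qf τ R γ) τ =
    1 / 2 * (Av τ * G τ) + γ * sg τ * G τ + 2 * γ * G τ / R * τ ^ 3 / 3 - γ * G τ * τ ^ 2 := by
  have hτ := h.τpos
  have hG := XA3_Gpos hτ
  have hR := XC1_Rpos h
  have hcf := XC1_fv_cont τ
  have hEc := E_continuous
  have h1 : K (qf τ R γ) τ = ∫ u in (0 : ℝ)..τ, u * XC1_P τ R γ u := by
    unfold K
    refine intervalIntegral.integral_congr fun u hu => ?_
    rw [uIcc_of_le hτ.le] at hu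
    rw [XC1_P_eq hu.1 hu.2]
  have hd : ∀ x : ℝ, HasDerivAt (fun x => x ^ 2 / 2 * XC1_P τ R γ x)
      (x * XC1_P τ R γ x + x ^ 2 / 2 * (fv τ x + 2 * γ * G τ / R - 2 * γ * E x)) x := by
    intro x
    have h2 : HasDerivAt (fun x : ℝ => x ^ 2 / 2) x x := by
      have := (hasDerivAt_pow 2 x).div_const 2
      simpa using this
    exact h2.fun_mul (XC1_P_deriv τ R γ x)
  have hPc : Continuous (XC1_P τ R γ) := continuous_iff_continuousAt.2 fun x => (XC1_P_deriv τ R γ x).continuousAt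
  have hc1 : Continuous fun x => x * XC1_P τ R γ x := continuous_id.mul hPc
  have hc2 : Continuous fun x => x ^ 2 / 2 * (fv τ x + 2 * γ * G τ / R - 2 * γ * E x) := by fun_prop
  have h3 := intervalIntegral.integral_eq_sub_of_hasDerivAt (a := (0 : ℝ)) (b := τ) (fun x _ => hd x)
    ((hc1.add hc2).intervalIntegrable _ _)
  rw [intervalIntegral.integral_add (hc1.intervalIntegrable _ _) (hc2.intervalIntegrable _ _)] at h3
  have h4 : ∫ x in (0 : ℝ)..τ, x ^ 2 / 2 * (fv τ x + 2 * γ * G τ / R - 2 * γ * E x) =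
      -(1 / 2 * (Av τ * G τ)) + γ * G τ / R * (τ ^ 3 / 3) - γ * (sg τ * G τ) := by
    have e : ∀ x : ℝ, x ^ 2 / 2 * (fv τ x + 2 * γ * G τ / R - 2 * γ * E x) =
        (sg τ / 2 - γ) * (x ^ 2 * E x) - 1 / 2 * (x ^ 4 * E x) + γ * G τ / R * x ^ 2 := by
      intro x
      unfold fv
      ring
    simp only [e]
    have c2 : Continuous fun x => (sg τ / 2 - γ) * (x ^ 2 * E x) := by fun_prop
    have c4 : Continuous fun x => 1 / 2 * (x ^ 4 * E x) := by fun_prop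
    have c0 : Continuous fun x => γ * G τ / R * x ^ 2 := by fun_prop
    have c24 : Continuous fun x => (sg τ / 2 - γ) * (x ^ 2 * E x) - 1 / 2 * (x ^ 4 * E x) := c2.sub c4
    rw [intervalIntegral.integral_add (c24.intervalIntegrable _ _) (c0.intervalIntegrable _ _),
      intervalIntegral.integral_sub (c2.intervalIntegrable _ _) (c4.intervalIntegrable _ _),
      intervalIntegral.integral_const_mul, intervalIntegral.integral_const_mul,
      intervalIntegral.integral_const_mul, integral_pow, ← sg_eq_int hτ]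
    have h5 : ∫ x in (0 : ℝ)..τ, x ^ 4 * E x = (Av τ + sg τ ^ 2) * G τ := by
      rw [Av_eq hτ]
      field_simp
      ring
    rw [h5]
    push_cast
    ring
  have h6 : XC1_P τ R γ τ = 2 * γ * G τ / R * τ - 2 * γ * G τ := by
    unfold XC1_P
    rw [XC1_fv_int hτ]
    ring
  rw [h4, h6] at h3
  simp only [ne_eq, OfNat.ofNat_ne_zero, not_false_eq_true, zero_pow, zero_div, zero_mul, sub_zero] at h3
  rw [h1]
  have h7 : ∫ u in (0 : ℝ)..τ, u * XC1_P τ R γ u = τ ^ 2 / 2 * (2 * γ * G τ / R * τ - 2 * γ * G τ) -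
      (-(1 / 2 * (Av τ * G τ)) + γ * G τ / R * (τ ^ 3 / 3) - γ * (sg τ * G τ)) := by linarith
  rw [h7]
  field_simp
  ring

theorem XC1_K_far {τ R γ r : ℝ} (h : QH τ R γ) (hr : τ ≤ r) : 0 ≤ K (qf τ R γ) r := by
  have hτ := h.τpos
  have hG := XA3_Gpos hτ
  have hR := XC1_Rpos h
  have hγ := h.γpos
  have h1 : K (qf τ R γ) r = K (qf τ R γ) τ + ∫ u in τ..r, u * qf τ R γ u := by
    unfold K
    exact (intervalIntegral.integral_add_adjacent_intervals
      ((XC1_uq_cont τ R γ).intervalIntegrable _ _) ((XC1_uq_cont τ R γ).intervalIntegrable _ _)).symm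
  have h2 : ∫ u in τ..r, u * qf τ R γ u = 2 * γ * G τ / R * ((r ^ 3 - τ ^ 3) / 3) -
      2 * γ * G τ * ((r ^ 2 - τ ^ 2) / 2) := by
    have e : ∫ u in τ..r, u * qf τ R γ u = ∫ u in τ..r, (2 * γ * G τ / R * u ^ 2 - 2 * γ * G τ * u ^ 1) := by
      refine intervalIntegral.integral_congr fun u hu => ?_
      rw [uIcc_of_le hr] at hu
      rw [qf_far h hu.1]
      ring
    rw [e, intervalIntegral.integral_sub
      ((by fun_prop : Continuous fun u : ℝ => 2 * γ * G τ / R * u ^ 2).intervalIntegrable _ _)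
      ((by fun_prop : Continuous fun u : ℝ => 2 * γ * G τ * u ^ 1).intervalIntegrable _ _),
      intervalIntegral.integral_const_mul, intervalIntegral.integral_const_mul, integral_pow, integral_pow]
    push_cast
    ring
  have heq := h.eq
  have h3 : 1 / 2 * Av τ + γ * sg τ = γ * R ^ 2 / 3 := by linarith
  have h4 : K (qf τ R γ) r = γ * G τ / (3 * R) * ((r - R) ^ 2 * (2 * r + R)) := by
    rw [h1, h2, XC1_K_tau h]
    have h5 : 1 / 2 * (Av τ * G τ) + γ * sg τ * G τ = γ * R ^ 2 / 3 * G τ := by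
      rw [← h3]; ring
    rw [h5]
    field_simp
    ring
  rw [h4]
  have : 0 < r := hτ.trans_le hr
  positivity

theorem qf_K {τ R γ x : ℝ} (h : QH τ R γ) (hx : 0 ≤ x) : 0 ≤ K (qf τ R γ) x := by
  rcases le_total τ x with h1 | h1
  · exact XC1_K_far h h1
  have hτ := h.τpos
  rcases le_or_gt 0 (XC1_P τ R γ x) with h2 | h2
  · unfold K
    refine intervalIntegral.integral_nonneg hx fun u hu => ?_
    rw [XC1_P_eq hu.1 (hu.2.trans h1)]
    have h3 := XC1_ray h hu.1 hu.2 h1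
    rcases hx.eq_or_lt with h4 | h4
    · have : u = 0 := by have := hu.1; have := hu.2; linarith
      rw [this]
      simp
    · have h5 : 0 ≤ x * XC1_P τ R γ u := (mul_nonneg hu.1 h2).trans h3
      exact mul_nonneg hu.1 ((mul_nonneg_iff_of_pos_left h4).1 h5)
  · have h3 : K (qf τ R γ) τ = K (qf τ R γ) x + ∫ u in x..τ, u * qf τ R γ u := by
      unfold K
      exact (intervalIntegral.integral_add_adjacent_intervals
        ((XC1_uq_cont τ R γ).intervalIntegrable _ _) ((XC1_uq_cont τ R γ).intervalIntegrable _ _)).symm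
    have h4 := XC1_K_far h le_rfl
    have h5 : ∫ u in x..τ, u * qf τ R γ u ≤ 0 := by
      rw [← neg_nonneg, ← intervalIntegral.integral_neg]
      refine intervalIntegral.integral_nonneg h1 fun u hu => ?_
      rw [neg_nonneg]
      have hu0 : 0 ≤ u := hx.trans hu.1
      rw [XC1_P_eq hu0 hu.2]
      have hx0 : 0 < x := by
        rcases hx.eq_or_lt with h6 | h6
        · rw [← h6, XC1_P_zero] at h2
          exact absurd h2 (lt_irrefl _)
        · exact h6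
      have h6 := XC1_ray h hx hu.1 hu.2
      have h7 : x * XC1_P τ R γ u ≤ 0 := h6.trans (mul_nonpos_of_nonneg_of_nonpos hu0 h2.le)
      have h8 : XC1_P τ R γ u ≤ 0 := by
        by_contra h9
        have := mul_pos hx0 (not_le.1 h9)
        linarith
      exact mul_nonpos_of_nonneg_of_nonpos hu0 h8
    linarith

end GCube
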