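import Pool.Agent.Lib.H83.ThQa

/-!
Chunk XC2 (S/M): cut-off of `qf` and manipulation of `Lf τ 1 (Yl ...)`.

`qf_InP`: `f x = qf x * max 0 (min 1 (M + 1 - |x|))`: continuous, odd, zero for `|x| ≥ M + 1`, equal to `qf` for `|x| ≤ M`;
`K f r = K qf r` for `r ≤ M`, and for `r ≥ M`, `K f r = K qf M + ∫_M^r u f ≥ 0` since `f ≥ 0` on `[M,∞)` (`M ≥ R ≥ τ`, `qf_far`).
`K > 0` near `0` by `qf_near`.
`Lf_Yl_congr`: `Yl τ (replicate k 1) f x` only uses `f` on `[x - kτ, x + kτ]` (induction), `Lf` uses `[0,τ]`.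
`Lf_Yl_comb`: `Yl` and `Lf` are linear on continuous functions (`Yop` of a continuous function is continuous:
`classP_Yop_continuous`).
`Lf_Yl_id`: `Yop τ 1 id x = 2 G τ x` (`E` even), `Lf τ 1 id = τE + ∫_0^τ t²E = ∫_0^τ E = G τ`.
-/

open MeasureTheory Set
open scoped Real

namespace GCube

/-- cut-off -/
noncomputable def XC2_c (M x : ℝ) : ℝ := max 0 (min 1 (M + 1 - |x|))

theorem XC2_c_cont (M : ℝ) : Continuous (XC2_c M) := by
  unfold XC2_c
  fun_prop

theorem XC2_c_one {M x : ℝ} (h : |x| ≤ M) : XC2_c M x = 1 := by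
  unfold XC2_c
  rw [min_eq_left (by linarith), max_eq_right zero_le_one]

theorem XC2_c_zero {M x : ℝ} (h : M + 1 ≤ |x|) : XC2_c M x = 0 := by
  unfold XC2_c
  exact max_eq_left ((min_le_right _ _).trans (by linarith))

theorem XC2_c_nonneg (M x : ℝ) : 0 ≤ XC2_c M x := le_max_left _ _

theorem qf_InP {τ R γ M : ℝ} (h : QH τ R γ) (hM : R ≤ M) :
    ∃ f : ℝ → ℝ, InP f ∧ ∀ x, |x| ≤ M → f x = qf τ R γ x := by
  have hR := XC1_Rpos h
  have hM0 : 0 < M := hR.trans_le hM
  have hG := XA3_Gpos h.τpos
  have hγ := h.γpos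
  set f : ℝ → ℝ := fun x => qf τ R γ x * XC2_c M x with hf
  have hfc : Continuous f := (qf_cont τ R γ).mul (XC2_c_cont M)
  have hfeq : ∀ x, |x| ≤ M → f x = qf τ R γ x := fun x hx => by
    simp only [hf]
    rw [XC2_c_one hx, mul_one]
  have hK1 : ∀ r, 0 ≤ r → r ≤ M → K f r = K (qf τ R γ) r := by
    intro r hr hrM
    unfold K
    refine intervalIntegral.integral_congr fun u hu => ?_
    rw [uIcc_of_le hr] at hu
    rw [hfeq u (by rw [abs_of_nonneg hu.1]; exact hu.2.trans hrM)]
  have hnn : ∀ x, M ≤ x → 0 ≤ f x := by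
    intro x hx
    refine mul_nonneg ?_ (XC2_c_nonneg M x)
    rw [qf_far h (h.hR.trans (hM.trans hx))]
    refine mul_nonneg (by positivity) ?_
    rw [sub_nonneg, one_le_div hR]
    exact hM.trans hx
  refine ⟨f, ⟨hfc, ?_, ⟨M + 1, ?_⟩, ?_, ?_⟩, hfeq⟩
  · intro x
    simp only [hf]
    rw [qf_odd h.τpos.le]
    unfold XC2_c
    rw [abs_neg]
    ring
  · intro x hx
    simp only [hf]
    rw [XC2_c_zero hx, mul_zero]
  · intro x hx
    rcases le_total x M with h1 | h1
    · rw [hK1 x hx h1]
      exact qf_K h hx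
    · have huc : Continuous fun u => u * f u := continuous_id.mul hfc
      have h2 : K f x = K f M + ∫ u in M..x, u * f u := by
        unfold K
        exact (intervalIntegral.integral_add_adjacent_intervals
          (huc.intervalIntegrable _ _) (huc.intervalIntegrable _ _)).symm
      rw [h2, hK1 M hM0.le le_rfl]
      have h3 := qf_K h hM0.le
      have h4 : 0 ≤ ∫ u in M..x, u * f u := by
        refine intervalIntegral.integral_nonneg h1 fun u hu => ?_
        exact mul_nonneg (hM0.le.trans hu.1) (hnn u hu.1)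
      linarith
  · obtain ⟨ε, hε, hpos⟩ := qf_near h
    refine ⟨min ε M, lt_min hε hM0, fun x hx hx2 => ?_⟩
    rw [hK1 x hx.le (hx2.le.trans (min_le_right _ _))]
    unfold K
    refine intervalIntegral.intervalIntegral_pos_of_pos_on ?_ (fun u hu => ?_) hx
    · exact (XC1_uq_cont τ R γ).intervalIntegrable _ _
    · exact mul_pos hu.1 (hpos u hu.1 (hu.2.trans (hx2.trans_le (min_le_left _ _))))

theorem XC2_Yl_congr {τ : ℝ} (hτ : 0 ≤ τ) {f g : ℝ → ℝ} (k : ℕ) : ∀ (r : ℝ),
    (∀ x, |x| ≤ r + k * τ → f x = g x) → ∀ x, |x| ≤ r →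
      Yl τ (List.replicate k 1) f x = Yl τ (List.replicate k 1) g x := by
  induction k with
  | zero =>
    intro r h x hx
    simp only [List.replicate_zero, Yl, List.foldr_nil]
    exact h x (by simpa using hx)
  | succ k ih =>
    intro r h x hx
    simp only [List.replicate_succ, Yl, List.foldr_cons] at ih ⊢
    unfold Yop
    refine intervalIntegral.integral_congr fun t ht => ?_
    rw [uIcc_of_le (by linarith)] at ht
    congr 1
    refine ih (r + τ) (fun y hy => h y ?_) _ ?_
    · push_cast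
      linarith
    · rw [one_mul]
      have := abs_add_le x t
      have h2 : |t| ≤ τ := abs_le.2 ht
      linarith

theorem Lf_Yl_congr {τ : ℝ} (hτ : 0 ≤ τ) {f g : ℝ → ℝ} (k : ℕ)
    (h : ∀ x, |x| ≤ (k + 1) * τ → f x = g x) :
    Lf τ 1 (Yl τ (List.replicate k 1) f) = Lf τ 1 (Yl τ (List.replicate k 1) g) := by
  have h1 := XC2_Yl_congr hτ (f := f) (g := g) k τ (fun x hx => h x (by linarith))
  unfold Lf
  rw [one_mul, h1 τ (by rw [abs_of_nonneg hτ])]
  congr 1
  refine intervalIntegral.integral_congr fun t ht => ?_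
  rw [uIcc_of_le hτ] at ht
  rw [one_mul, h1 t (by rw [abs_of_nonneg ht.1]; exact ht.2)]

theorem XC2_Yl_cont {τ : ℝ} {f : ℝ → ℝ} (hf : Continuous f) (k : ℕ) :
    Continuous (Yl τ (List.replicate k 1) f) := by
  induction k with
  | zero => simpa [Yl] using hf
  | succ k ih =>
    simp only [List.replicate_succ, Yl, List.foldr_cons] at ih ⊢
    exact classP_Yop_continuous 1 ih

theorem XC2_Yl_comb {τ : ℝ} {f g h : ℝ → ℝ} (hf : Continuous f) (hg : Continuous g)
    (hh : Continuous h) (a b : ℝ) (k : ℕ) : ∀ x,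
    Yl τ (List.replicate k 1) (fun x => f x + a * g x - b * h x) x =
      Yl τ (List.replicate k 1) f x + a * Yl τ (List.replicate k 1) g x -
        b * Yl τ (List.replicate k 1) h x := by
  induction k with
  | zero => intro x; simp [Yl]
  | succ k ih =>
    intro x
    have c1 := XC2_Yl_cont (τ := τ) hf k
    have c2 := XC2_Yl_cont (τ := τ) hg k
    have c3 := XC2_Yl_cont (τ := τ) hh k
    simp only [List.replicate_succ, Yl, List.foldr_cons] at ih c1 c2 c3 ⊢
    have hE := E_continuous
    have hY : ∀ (F : ℝ → ℝ) (x : ℝ), Yop τ 1 F x = ∫ t in (-τ)..τ, E t * F (x + 1 * t) := fun _ _ => rfl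
    rw [hY, hY, hY, hY]
    have e : ∀ t, E t * (List.foldr (Yop τ) (fun x => f x + a * g x - b * h x) (List.replicate k 1)) (x + 1 * t) =
        E t * (List.foldr (Yop τ) f (List.replicate k 1)) (x + 1 * t) +
        a * (E t * (List.foldr (Yop τ) g (List.replicate k 1)) (x + 1 * t)) -
        b * (E t * (List.foldr (Yop τ) h (List.replicate k 1)) (x + 1 * t)) := by
      intro t
      rw [ih]
      ring
    simp only [e]
    set F := List.foldr (Yop τ) f (List.replicate k 1)
    set G' := List.foldr (Yop τ) g (List.replicate k 1)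
    set H := List.foldr (Yop τ) h (List.replicate k 1)
    have i1 : Continuous fun t => E t * F (x + 1 * t) := by fun_prop
    have i2 : Continuous fun t => a * (E t * G' (x + 1 * t)) := by fun_prop
    have i3 : Continuous fun t => b * (E t * H (x + 1 * t)) := by fun_prop
    have i12 : Continuous fun t => E t * F (x + 1 * t) + a * (E t * G' (x + 1 * t)) := i1.add i2
    rw [intervalIntegral.integral_sub (i12.intervalIntegrable _ _) (i3.intervalIntegrable _ _),
      intervalIntegral.integral_add (i1.intervalIntegrable _ _) (i2.intervalIntegrable _ _),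
      intervalIntegral.integral_const_mul, intervalIntegral.integral_const_mul]

theorem Lf_Yl_comb {τ : ℝ} (hτ : 0 ≤ τ) {f g h : ℝ → ℝ} (hf : Continuous f) (hg : Continuous g)
    (hh : Continuous h) (a b : ℝ) (k : ℕ) :
    Lf τ 1 (Yl τ (List.replicate k 1) (fun x => f x + a * g x - b * h x)) =
      Lf τ 1 (Yl τ (List.replicate k 1) f) + a * Lf τ 1 (Yl τ (List.replicate k 1) g) -
        b * Lf τ 1 (Yl τ (List.replicate k 1) h) := by
  have c1 := XC2_Yl_cont (τ := τ) hf k
  have c2 := XC2_Yl_cont (τ := τ) hg k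
  have c3 := XC2_Yl_cont (τ := τ) hh k
  have hE := E_continuous
  have h1 := XC2_Yl_comb (τ := τ) hf hg hh a b k
  unfold Lf
  simp only [h1]
  set F := Yl τ (List.replicate k 1) f
  set G' := Yl τ (List.replicate k 1) g
  set H := Yl τ (List.replicate k 1) h
  have e : ∀ t, t * E t * (F (1 * t) + a * G' (1 * t) - b * H (1 * t)) =
      t * E t * F (1 * t) + a * (t * E t * G' (1 * t)) - b * (t * E t * H (1 * t)) := by
    intro t; ring
  simp only [e]
  have i1 : Continuous fun t => t * E t * F (1 * t) := by fun_prop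
  have i2 : Continuous fun t => a * (t * E t * G' (1 * t)) := by fun_prop
  have i3 : Continuous fun t => b * (t * E t * H (1 * t)) := by fun_prop
  have i12 : Continuous fun t => t * E t * F (1 * t) + a * (t * E t * G' (1 * t)) := i1.add i2
  rw [intervalIntegral.integral_sub (i12.intervalIntegrable _ _) (i3.intervalIntegrable _ _),
    intervalIntegral.integral_add (i1.intervalIntegrable _ _) (i2.intervalIntegrable _ _),
    intervalIntegral.integral_const_mul, intervalIntegral.integral_const_mul]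
  ring

theorem XC2_Yl_id {τ : ℝ} (k : ℕ) : ∀ x,
    Yl τ (List.replicate k 1) (fun x => x) x = (2 * G τ) ^ k * x := by
  induction k with
  | zero => intro x; simp [Yl]
  | succ k ih =>
    intro x
    simp only [List.replicate_succ, Yl, List.foldr_cons] at ih ⊢
    have hY : ∀ (F : ℝ → ℝ) (x : ℝ), Yop τ 1 F x = ∫ t in (-τ)..τ, E t * F (x + 1 * t) := fun _ _ => rfl
    rw [hY]
    simp only [ih]
    have hE := E_continuous
    have e : ∀ t, E t * ((2 * G τ) ^ k * (x + 1 * t)) =
        (2 * G τ) ^ k * x * E t + (2 * G τ) ^ k * (t * E t) := by intro t; ring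
    simp only [e]
    have i1 : Continuous fun t => (2 * G τ) ^ k * x * E t := by fun_prop
    have i2 : Continuous fun t => (2 * G τ) ^ k * (t * E t) := by fun_prop
    rw [intervalIntegral.integral_add (i1.intervalIntegrable _ _) (i2.intervalIntegrable _ _),
      intervalIntegral.integral_const_mul, intervalIntegral.integral_const_mul]
    have h1 : ∫ t in (-τ)..τ, E t = 2 * G τ := psi_symm_even E_continuous E_neg τ
    have h2 : ∫ t in (-τ)..τ, t * E t = 0 := by
      have h := intervalIntegral.integral_comp_neg (a := -τ) (b := τ) fun t => t * E t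
      rw [neg_neg] at h
      have h3 : ∀ t, -t * E (-t) = -(t * E t) := by intro t; rw [E_neg]; ring
      simp only [h3] at h
      rw [intervalIntegral.integral_neg] at h
      linarith
    rw [h1, h2]
    ring

theorem Lf_Yl_id {τ : ℝ} (hτ : 0 < τ) (k : ℕ) :
    Lf τ 1 (Yl τ (List.replicate k 1) (fun x => x)) = (2 * G τ) ^ k * G τ := by
  unfold Lf
  simp only [XC2_Yl_id]
  have e : ∀ t, t * E t * ((2 * G τ) ^ k * (1 * t)) = (2 * G τ) ^ k * (t ^ 2 * E t) := by intro t; ring
  simp only [e]
  rw [intervalIntegral.integral_const_mul, ← sg_eq_int hτ]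
  unfold sg
  rw [XA3_hn hτ]
  have := XA3_Gpos hτ
  field_simp
  ring

end GCube
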