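import Pool.Agent.Lib.H83.ThDefs

/-!
Chunk XC3 (M): `Lf` of iterated `Yop` of a primitive.

`Lf_prim`: `Γ(x) = ∫_0^x g`, `g` continuous (even): `Lf τ 1 Γ = E(τ)Γ(τ) + ∫_0^τ tEΓ = ∫_0^τ E g` (parts, `(-E)' = tE`).
`Yop_prim`: `Yop τ 1 Γ x = ∫_{-τ}^{τ} E(t) Γ(x+t) dt` is odd for `g` even, with derivative `Yop τ 1 g x`, so
`Yop τ 1 Γ = ∫_0^x Yop τ 1 g`, and `Yop τ 1 g` is continuous and even. Induction gives `Lf_Yl_prim`.
-/

open MeasureTheory Set
open scoped Real

namespace GCube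

theorem Lf_prim {τ : ℝ} (hτ : 0 < τ) {g : ℝ → ℝ} (hg : Continuous g) :
    Lf τ 1 (fun x => ∫ t in (0 : ℝ)..x, g t) = ∫ t in (0 : ℝ)..τ, E t * g t := by
  have _ := hτ
  have hE := E_continuous
  have hΓ : ∀ x, HasDerivAt (fun x => ∫ t in (0 : ℝ)..x, g t) (g x) x := fun x =>
    (hg.integral_hasStrictDerivAt 0 x).hasDerivAt
  have hΓc : Continuous fun x => ∫ t in (0 : ℝ)..x, g t := continuous_iff_continuousAt.2 fun x => (hΓ x).continuousAt
  have hd : ∀ x, HasDerivAt (fun x => -(E x * ∫ t in (0 : ℝ)..x, g t))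
      (x * E x * (∫ t in (0 : ℝ)..x, g t) - E x * g x) x := by
    intro x
    have := ((cm_hasDerivAt_E x).fun_mul (hΓ x)).fun_neg
    refine this.congr_deriv ?_
    ring
  have c1 : Continuous fun x => x * E x * (∫ t in (0 : ℝ)..x, g t) := by fun_prop
  have c2 : Continuous fun x => E x * g x := by fun_prop
  have h := intervalIntegral.integral_eq_sub_of_hasDerivAt (a := (0 : ℝ)) (b := τ) (fun x _ => hd x)
    ((c1.sub c2).intervalIntegrable _ _)
  rw [intervalIntegral.integral_sub (c1.intervalIntegrable _ _) (c2.intervalIntegrable _ _)] at h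
  simp only [intervalIntegral.integral_same, mul_zero, neg_zero, sub_zero] at h
  unfold Lf
  simp only [one_mul]
  linarith

theorem XC3_even {τ : ℝ} {g : ℝ → ℝ} (he : ∀ x, g (-x) = g x) (x : ℝ) :
    Yop τ 1 g (-x) = Yop τ 1 g x := by
  unfold Yop
  have h := intervalIntegral.integral_comp_neg (fun t => E t * g (x + 1 * t)) (a := -τ) (b := τ)
  rw [neg_neg] at h
  rw [← h]
  refine intervalIntegral.integral_congr fun t _ => ?_
  rw [E_neg, show x + 1 * -t = -(-x + 1 * t) by ring, he]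

theorem XC3_Yop {τ : ℝ} {g : ℝ → ℝ} (hg : Continuous g) (he : ∀ x, g (-x) = g x) (x : ℝ) :
    Yop τ 1 (fun x => ∫ t in (0 : ℝ)..x, g t) x = ∫ t in (0 : ℝ)..x, Yop τ 1 g t := by
  have hE := E_continuous
  have hΓ : ∀ x, HasDerivAt (fun x => ∫ t in (0 : ℝ)..x, g t) (g x) x := fun x =>
    (hg.integral_hasStrictDerivAt 0 x).hasDerivAt
  have hΓc : Continuous fun x => ∫ t in (0 : ℝ)..x, g t := continuous_iff_continuousAt.2 fun x => (hΓ x).continuousAt
  have hodd : ∀ x, ∫ t in (0 : ℝ)..(-x), g t = -∫ t in (0 : ℝ)..x, g t := by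
    intro x
    have h := intervalIntegral.integral_comp_neg (a := 0) (b := x) g
    simp only [he, neg_zero] at h
    rw [intervalIntegral.integral_symm, ← h]
  have h1 : ∫ t in (0 : ℝ)..x, Yop τ 1 g t =
      ∫ t in (-τ)..τ, E t * ((∫ u in (0 : ℝ)..(x + 1 * t), g u) - ∫ u in (0 : ℝ)..t, g u) := by
    unfold Yop
    rw [ClassS_swap (k := fun u t => E t * g (u + 1 * t)) (by unfold Function.uncurry; fun_prop)]
    refine intervalIntegral.integral_congr fun t _ => ?_
    rw [intervalIntegral.integral_const_mul, one_mul, intervalIntegral.integral_comp_add_right, zero_add,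
      intervalIntegral.integral_interval_sub_left (hg.intervalIntegrable _ _) (hg.intervalIntegrable _ _)]
  have h2 : ∫ t in (-τ)..τ, E t * ∫ u in (0 : ℝ)..t, g u = 0 := by
    have h := intervalIntegral.integral_comp_neg (a := -τ) (b := τ) fun t => E t * ∫ u in (0 : ℝ)..t, g u
    rw [neg_neg] at h
    simp only [E_neg, hodd, mul_neg] at h
    rw [intervalIntegral.integral_neg] at h
    linarith
  rw [h1]
  have e : ∀ t, E t * ((∫ u in (0 : ℝ)..(x + 1 * t), g u) - ∫ u in (0 : ℝ)..t, g u) =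
      E t * (∫ u in (0 : ℝ)..(x + 1 * t), g u) - E t * ∫ u in (0 : ℝ)..t, g u := fun t => by ring
  simp only [e]
  have c1 : Continuous fun t => E t * (∫ u in (0 : ℝ)..(x + 1 * t), g u) :=
    hE.mul (hΓc.comp (by fun_prop : Continuous fun t : ℝ => x + 1 * t))
  have c2 : Continuous fun t => E t * ∫ u in (0 : ℝ)..t, g u := hE.mul hΓc
  rw [intervalIntegral.integral_sub (c1.intervalIntegrable _ _) (c2.intervalIntegrable _ _), h2, sub_zero]
  rfl

theorem XC3_Yl_comm {τ : ℝ} (f : ℝ → ℝ) (k : ℕ) :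
    Yl τ (List.replicate (k + 1) 1) f = Yl τ (List.replicate k 1) (Yop τ 1 f) := by
  induction k with
  | zero => simp [Yl]
  | succ k ih =>
    have e1 : Yl τ (List.replicate (k + 1 + 1) 1) f = Yop τ 1 (Yl τ (List.replicate (k + 1) 1) f) := by
      simp only [List.replicate_succ, Yl, List.foldr_cons]
    have e2 : Yl τ (List.replicate (k + 1) 1) (Yop τ 1 f) = Yop τ 1 (Yl τ (List.replicate k 1) (Yop τ 1 f)) := by
      simp only [List.replicate_succ, Yl, List.foldr_cons]
    rw [e1, e2, ih]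

theorem Lf_Yl_prim {τ : ℝ} (hτ : 0 < τ) {g : ℝ → ℝ} (hg : Continuous g) (he : ∀ x, g (-x) = g x) (k : ℕ) :
    Lf τ 1 (Yl τ (List.replicate k 1) (fun x => ∫ t in (0 : ℝ)..x, g t)) =
      ∫ t in (0 : ℝ)..τ, E t * Yl τ (List.replicate k 1) g t := by
  induction k generalizing g with
  | zero =>
    simp only [List.replicate_zero, Yl, List.foldr_nil]
    exact Lf_prim hτ hg
  | succ k ih =>
    rw [XC3_Yl_comm, XC3_Yl_comm]
    have h1 : Yop τ 1 (fun x => ∫ t in (0 : ℝ)..x, g t) = fun x => ∫ t in (0 : ℝ)..x, Yop τ 1 g t :=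
      funext fun x => XC3_Yop hg he x
    rw [h1]
    exact ih (classP_Yop_continuous 1 hg) (fun x => XC3_even he x)

end GCube
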