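import Pool.Agent.Lib.H83.ThQa
import Pool.Agent.Lib.H83.ThQc

/-!
Chunk XC4 (M/L): the functional of a clamped primitive.

`e₁ = inv_hI τ 1 = E 1_{[-τ,τ]}`; for `φ` continuous, even, `g₁(x) = ∫_{-τ}^{τ} φ(t) e₁(x - t) dt` is continuous (dominated
convergence, as in `rho_continuous`) and even.
`XC4_prim`: `Yop τ 1 (Phi1 τ φ) x = ∫_0^x g₁`. Proof: `Yop τ 1 (Phi1 τ φ) x = ∫_{-τ}^{τ} E(v) ∫_0^{cl(x+v)} φ`; the difference of the
values at `x` and `0` is `∫ E(v) ∫_{v}^{x+v} φ 1_{[-τ,τ]}(w) dw dv = ∫_0^x ∫ E(v) (φ 1)(y+v) dv dy` (substitution `w = y + v`, Fubini) and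
`∫_{-τ}^{τ} E(v) (φ 1_{[-τ,τ]})(y+v) dv = g₁(y)` (substitution, `e₁` even); the value at `0` is `0` (odd).
`XC4_YY`: `Yl τ (replicate (k+1) 1) g₁ x`... : `Yop τ 1 g₁ x = ∫_{-τ}^{τ} φ(t) rX τ (x - t) dt` (Fubini, `Yop τ 1 e₁ = rX`:
`classP_kk` or `rho_one`), and `Yop` commutes with `∫ φ(t) (·)(x - t) dt` for continuous functions (Fubini), so
`Yl τ (replicate (k+1) 1) g₁ x = ∫_{-τ}^{τ} φ(t) (Yl τ (replicate k 1) (rX τ)) (x - t) dt`.
`Lf_Yl_Phi1`: `Lf τ 1 (Yl^{k+1} (Phi1 τ φ)) = Lf τ 1 (Yl^k (∫_0^x g₁)) = ∫_0^τ E (Yl^k g₁)` (`Lf_Yl_prim`)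
`= ½ Yop τ 1 (Yl^k g₁) 0 = ½ ∫_{-τ}^{τ} φ(t) (Yl^k rX)(-t) dt = ∫_0^τ φ (Yl^k rX)` (evenness; `Yl^{k+1} = Yop ∘ Yl^k = Yl^k ∘ Yop` for
`replicate`).
-/

open MeasureTheory Set
open scoped Real

namespace GCube

/-- `φ 1_{[-τ,τ]}` -/
noncomputable def XC4_t (τ : ℝ) (φ : ℝ → ℝ) : ℝ → ℝ := (Icc (-τ) τ).indicator φ

noncomputable def XC4_g (τ : ℝ) (φ : ℝ → ℝ) (s : ℝ) : ℝ := ∫ w in (-τ)..τ, φ w * classP_k τ (w - s)

/-- the operator `Z F (x) = ∫_{-τ}^{τ} φ(w) F(w - x) dw` -/
noncomputable def XC4_Z (τ : ℝ) (φ F : ℝ → ℝ) (x : ℝ) : ℝ := ∫ w in (-τ)..τ, φ w * F (w - x)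

theorem XC4_t_of {τ x : ℝ} {φ : ℝ → ℝ} (h : |x| ≤ τ) : XC4_t τ φ x = φ x :=
  indicator_of_mem (show x ∈ Icc (-τ) τ from abs_le.1 h) φ

theorem XC4_t_zero {τ x : ℝ} {φ : ℝ → ℝ} (h : τ < |x|) : XC4_t τ φ x = 0 := by
  apply indicator_of_notMem
  intro h2
  exact absurd (abs_le.2 h2) (not_le.2 h)

theorem XC4_t_even {τ : ℝ} {φ : ℝ → ℝ} (he : ∀ x, φ (-x) = φ x) (x : ℝ) : XC4_t τ φ (-x) = XC4_t τ φ x := by
  rcases le_or_gt |x| τ with h | h
  · rw [XC4_t_of h, XC4_t_of (by rwa [abs_neg]), he]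
  · rw [XC4_t_zero h, XC4_t_zero (by rwa [abs_neg])]

theorem XC4_t_nice {τ : ℝ} (hτ : 0 ≤ τ) {φ : ℝ → ℝ} (hφ : Continuous φ) : CNice (XC4_t τ φ) := by
  obtain ⟨C, hC⟩ := (isCompact_Icc (a := -τ) (b := τ)).exists_bound_of_continuousOn hφ.continuousOn
  have hC0 : 0 ≤ C := (norm_nonneg _).trans (hC 0 ⟨by linarith, hτ⟩)
  refine ⟨hφ.measurable.indicator measurableSet_Icc, ⟨C, hC0, fun x => ?_⟩, ⟨τ, hτ, fun x hx => XC4_t_zero hx⟩⟩
  rcases le_or_gt |x| τ with h | h
  · rw [XC4_t_of h]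
    exact hC x (abs_le.1 h)
  · rw [XC4_t_zero h, abs_zero]; exact hC0

theorem XC4_Phi1 {τ : ℝ} (hτ : 0 ≤ τ) {φ : ℝ → ℝ} (hφ : Continuous φ) (he : ∀ x, φ (-x) = φ x) (y : ℝ) :
    Phi1 τ φ y = ∫ w in (0 : ℝ)..y, XC4_t τ φ w := by
  have hpos : ∀ y, 0 ≤ y → Phi1 τ φ y = ∫ w in (0 : ℝ)..y, XC4_t τ φ w := by
    intro y hy
    rcases le_total y τ with h | h
    · rw [Phi1_eq (by rw [abs_of_nonneg hy]; exact h)]
      refine intervalIntegral.integral_congr fun w hw => ?_
      rw [uIcc_of_le hy] at hw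
      rw [XC4_t_of (by rw [abs_of_nonneg hw.1]; exact hw.2.trans h)]
    · rw [Phi1_far hτ h]
      have hi := (XC4_t_nice hτ hφ).integrable
      rw [← intervalIntegral.integral_add_adjacent_intervals (b := τ) hi.intervalIntegrable hi.intervalIntegrable]
      have h1 : ∫ w in τ..y, XC4_t τ φ w = 0 := by
        rw [intervalIntegral.integral_of_le h]
        have : ∫ w in Ioc τ y, XC4_t τ φ w = ∫ w in Ioc τ y, (0 : ℝ) := by
          refine setIntegral_congr_fun measurableSet_Ioc fun w hw => ?_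
          exact XC4_t_zero (by rw [abs_of_pos (hτ.trans_lt hw.1)]; exact hw.1)
        rw [this]
        simp
      rw [h1, add_zero]
      refine intervalIntegral.integral_congr fun w hw => ?_
      rw [uIcc_of_le hτ] at hw
      rw [XC4_t_of (by rw [abs_of_nonneg hw.1]; exact hw.2)]
  rcases le_total 0 y with h | h
  · exact hpos y h
  · have h1 := hpos (-y) (by linarith)
    rw [Phi1_odd hτ he, XC1_int_neg (XC4_t_even he)] at h1
    linarith

theorem XC4_g_eq {τ : ℝ} (hτ : 0 ≤ τ) {φ : ℝ → ℝ} (s : ℝ) :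
    XC4_g τ φ s = ∫ v in (-τ)..τ, E v * XC4_t τ φ (s + v) := by
  rw [← classP_k_int hτ fun v => XC4_t τ φ (s + v)]
  have h1 := integral_sub_right_eq_self (μ := volume) (fun v => classP_k τ v * XC4_t τ φ (s + v)) s
  rw [← h1]
  unfold XC4_g
  rw [intervalIntegral.integral_of_le (by linarith), ← integral_Icc_eq_integral_Ioc,
    ← integral_indicator measurableSet_Icc]
  refine integral_congr_ae (Filter.Eventually.of_forall fun w => ?_)
  simp only
  rw [show s + (w - s) = w by ring]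
  unfold XC4_t
  by_cases h : w ∈ Icc (-τ) τ
  · rw [indicator_of_mem h, indicator_of_mem h]; ring
  · rw [indicator_of_notMem h, indicator_of_notMem h, mul_zero]

theorem XC4_prim {τ : ℝ} (hτ : 0 ≤ τ) {φ : ℝ → ℝ} (hφ : Continuous φ) (he : ∀ x, φ (-x) = φ x) (x : ℝ) :
    Yop τ 1 (Phi1 τ φ) x = ∫ s in (0 : ℝ)..x, XC4_g τ φ s := by
  have hE := E_continuous
  have hPc := Phi1_cont (τ := τ) hφ
  have hn := XC4_t_nice hτ hφ
  have hi := hn.integrable
  obtain ⟨M, hM0, hM⟩ := hn.bdd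
  have h1 : ∀ v, Phi1 τ φ (x + 1 * v) - Phi1 τ φ v = ∫ s in (0 : ℝ)..x, XC4_t τ φ (s + v) := by
    intro v
    rw [XC4_Phi1 hτ hφ he, XC4_Phi1 hτ hφ he, intervalIntegral.integral_comp_add_right, zero_add, one_mul,
      intervalIntegral.integral_interval_sub_left hi.intervalIntegrable hi.intervalIntegrable]
  have h2 : ∫ v in (-τ)..τ, E v * Phi1 τ φ v = 0 := by
    have h := intervalIntegral.integral_comp_neg (a := -τ) (b := τ) fun v => E v * Phi1 τ φ v
    rw [neg_neg] at h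
    simp only [E_neg, Phi1_odd hτ he, mul_neg] at h
    rw [intervalIntegral.integral_neg] at h
    linarith
  have h3 : Yop τ 1 (Phi1 τ φ) x = ∫ v in (-τ)..τ, E v * ∫ s in (0 : ℝ)..x, XC4_t τ φ (s + v) := by
    simp only [← h1]
    have e : ∀ v, E v * (Phi1 τ φ (x + 1 * v) - Phi1 τ φ v) =
        E v * Phi1 τ φ (x + 1 * v) - E v * Phi1 τ φ v := fun v => by ring
    simp only [e]
    have c1 : Continuous fun v => E v * Phi1 τ φ (x + 1 * v) := by fun_prop
    have c2 : Continuous fun v => E v * Phi1 τ φ v := by fun_prop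
    rw [intervalIntegral.integral_sub (c1.intervalIntegrable _ _) (c2.intervalIntegrable _ _), h2, sub_zero]
    rfl
  rw [h3]
  simp only [← intervalIntegral.integral_const_mul]
  rw [intervalIntegral_intervalIntegral_swap]
  · refine intervalIntegral.integral_congr fun s _ => ?_
    exact (XC4_g_eq hτ s).symm
  · have hmeas : Measurable (Function.uncurry fun v s => E v * XC4_t τ φ (s + v)) := by
      have := hn.meas
      have := hE.measurable
      unfold Function.uncurry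
      fun_prop
    apply Measure.integrableOn_of_bounded (M := M)
    · rw [Measure.volume_eq_prod, Measure.prod_prod]
      refine ENNReal.mul_ne_top ?_ ?_
      · simp [uIoc]
      · simp [uIoc]
    · exact hmeas.aestronglyMeasurable
    · refine Filter.Eventually.of_forall fun z => ?_
      simp only [Function.uncurry]
      rw [Real.norm_eq_abs, abs_mul, abs_of_pos (E_pos _)]
      calc E z.1 * |XC4_t τ φ (z.2 + z.1)| ≤ 1 * M :=
            mul_le_mul (psi_E_le_one _) (hM _) (abs_nonneg _) zero_le_one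
        _ = M := one_mul M

theorem XC4_g_cont {τ : ℝ} (hτ : 0 ≤ τ) {φ : ℝ → ℝ} (hφ : Continuous φ) : Continuous (XC4_g τ φ) := by
  obtain ⟨C, hC⟩ := (isCompact_Icc (a := -τ) (b := τ)).exists_bound_of_continuousOn hφ.continuousOn
  have hkm := (classP_k_nice hτ).meas
  rw [continuous_iff_continuousAt]
  intro s0
  unfold XC4_g
  refine intervalIntegral.continuousAt_of_dominated_interval (bound := fun _ => C) ?_ ?_ ?_ ?_
  · filter_upwards with s
    have := hφ.measurable
    exact (by fun_prop : Measurable fun w => φ w * classP_k τ (w - s)).aestronglyMeasurable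
  · filter_upwards with s
    filter_upwards with w hw
    rw [uIoc_of_le (by linarith)] at hw
    have h1 := hC w ⟨hw.1.le, hw.2⟩
    rw [norm_mul]
    have h2 : ‖classP_k τ (w - s)‖ ≤ 1 := by
      rw [Real.norm_eq_abs]
      rcases le_or_gt |w - s| τ with h | h
      · rw [classP_k_of h, abs_of_pos (E_pos _)]
        exact psi_E_le_one _
      · rw [classP_k_zero h, abs_zero]; exact zero_le_one
    calc ‖φ w‖ * ‖classP_k τ (w - s)‖ ≤ C * 1 :=
          mul_le_mul h1 h2 (norm_nonneg _) ((norm_nonneg _).trans h1)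
      _ = C := mul_one C
  · exact intervalIntegrable_const
  · have hnull : volume ({s0 - τ, s0 + τ} : Set ℝ) = 0 := (Set.toFinite _).measure_zero _
    have hae : ∀ᵐ w ∂(volume : Measure ℝ), w ∉ ({s0 - τ, s0 + τ} : Set ℝ) := measure_eq_zero_iff_ae_notMem.mp hnull
    filter_upwards [hae] with w hw _
    simp only [mem_insert_iff, mem_singleton_iff, not_or] at hw
    refine ContinuousAt.mul continuousAt_const ?_
    have hne : |w - s0| ≠ τ := by
      intro h
      rcases abs_eq hτ |>.mp h with h | h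
      · exact hw.2 (by linarith)
      · exact hw.1 (by linarith)
    have hcomp : ContinuousAt (fun s : ℝ => |w - s|) s0 := by fun_prop
    rcases lt_or_gt_of_ne hne with h | h
    · have h1 : (fun s => classP_k τ (w - s)) =ᶠ[nhds s0] fun s => E (w - s) := by
        filter_upwards [hcomp.eventually_lt_const h] with s hs
        exact classP_k_of hs.le
      refine ContinuousAt.congr ?_ h1.symm
      exact (E_continuous.comp (by fun_prop : Continuous fun s : ℝ => w - s)).continuousAt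
    · have h1 : (fun s => classP_k τ (w - s)) =ᶠ[nhds s0] fun _ => 0 := by
        filter_upwards [hcomp.eventually_const_lt h] with s hs
        exact classP_k_zero hs
      exact ContinuousAt.congr continuousAt_const h1.symm

theorem XC4_g_even {τ : ℝ} {φ : ℝ → ℝ} (he : ∀ x, φ (-x) = φ x) (s : ℝ) :
    XC4_g τ φ (-s) = XC4_g τ φ s := by
  unfold XC4_g
  have h := intervalIntegral.integral_comp_neg (fun w => φ w * classP_k τ (w - s)) (a := -τ) (b := τ)
  rw [neg_neg] at h
  rw [← h]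
  refine intervalIntegral.integral_congr fun w _ => ?_
  rw [he, show -w - s = -(w - -s) by ring, classP_k_even]

theorem XC4_Y_g {τ : ℝ} (hτ : 0 ≤ τ) {φ : ℝ → ℝ} (hφ : Continuous φ) (x : ℝ) :
    Yop τ 1 (XC4_g τ φ) x = XC4_Z τ φ (rX τ) x := by
  have hE := E_continuous
  obtain ⟨C, hC⟩ := (isCompact_Icc (a := -τ) (b := τ)).exists_bound_of_continuousOn hφ.continuousOn
  have hkm := (classP_k_nice hτ).meas
  unfold Yop XC4_g
  simp only [← intervalIntegral.integral_const_mul]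
  rw [intervalIntegral_intervalIntegral_swap]
  · unfold XC4_Z
    refine intervalIntegral.integral_congr fun w _ => ?_
    have e : ∀ t, E t * (φ w * classP_k τ (w - (x + 1 * t))) = φ w * (E t * classP_k τ (w - x - t)) := by
      intro t
      rw [show w - (x + 1 * t) = w - x - t by ring]
      ring
    simp only [e]
    rw [intervalIntegral.integral_const_mul, ← classP_k_int hτ fun t => classP_k τ (w - x - t), classP_kk]
  · have hmeas : Measurable (Function.uncurry fun t w => E t * (φ w * classP_k τ (w - (x + 1 * t)))) := by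
      have := hφ.measurable
      have := hE.measurable
      unfold Function.uncurry
      fun_prop
    apply Measure.integrableOn_of_bounded (M := C)
    · rw [Measure.volume_eq_prod, Measure.prod_prod]
      refine ENNReal.mul_ne_top ?_ ?_
      · simp [uIoc]
      · simp [uIoc]
    · exact hmeas.aestronglyMeasurable
    · rw [ae_restrict_iff' (measurableSet_uIoc.prod measurableSet_uIoc)]
      refine Filter.Eventually.of_forall fun z hz => ?_
      rw [uIoc_of_le (by linarith : -τ ≤ τ)] at hz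
      have h1 := hC z.2 ⟨hz.2.1.le, hz.2.2⟩
      simp only [Function.uncurry]
      rw [norm_mul, norm_mul, Real.norm_eq_abs (E z.1), abs_of_pos (E_pos _)]
      have h2 : ‖classP_k τ (z.2 - (x + 1 * z.1))‖ ≤ 1 := by
        rw [Real.norm_eq_abs]
        rcases le_or_gt |z.2 - (x + 1 * z.1)| τ with h | h
        · rw [classP_k_of h, abs_of_pos (E_pos _)]
          exact psi_E_le_one _
        · rw [classP_k_zero h, abs_zero]; exact zero_le_one
      have h3 : ‖φ z.2‖ * ‖classP_k τ (z.2 - (x + 1 * z.1))‖ ≤ C * 1 :=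
        mul_le_mul h1 h2 (norm_nonneg _) ((norm_nonneg _).trans h1)
      calc E z.1 * (‖φ z.2‖ * ‖classP_k τ (z.2 - (x + 1 * z.1))‖) ≤ 1 * (C * 1) :=
            mul_le_mul (psi_E_le_one _) h3 (by positivity) zero_le_one
        _ = C := by ring

theorem XC4_Y_Z {τ : ℝ} {φ F : ℝ → ℝ} (hφ : Continuous φ) (hF : Continuous F) (x : ℝ) :
    Yop τ 1 (XC4_Z τ φ F) x = XC4_Z τ φ (Yop τ 1 F) x := by
  have hE := E_continuous
  unfold XC4_Z Yop
  simp only [← intervalIntegral.integral_const_mul]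
  rw [ClassS_swap (k := fun t w => E t * (φ w * F (w - (x + 1 * t)))) (by unfold Function.uncurry; fun_prop)]
  refine intervalIntegral.integral_congr fun w _ => ?_
  have h := intervalIntegral.integral_comp_neg (fun t => E t * (φ w * F (w - (x + 1 * t)))) (a := -τ) (b := τ)
  rw [neg_neg] at h
  rw [← h]
  refine intervalIntegral.integral_congr fun t _ => ?_
  rw [E_neg, show w - (x + 1 * -t) = w - x + 1 * t by ring]
  ring

theorem XC4_Z_cont {τ : ℝ} {φ F : ℝ → ℝ} (hφ : Continuous φ) (hF : Continuous F) :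
    Continuous (XC4_Z τ φ F) := by
  unfold XC4_Z
  apply intervalIntegral.continuous_parametric_intervalIntegral_of_continuous'
  unfold Function.uncurry
  fun_prop

theorem XC4_Yl_Z {τ : ℝ} {φ F : ℝ → ℝ} (hφ : Continuous φ) (hF : Continuous F) (k : ℕ) :
    Yl τ (List.replicate k 1) (XC4_Z τ φ F) = XC4_Z τ φ (Yl τ (List.replicate k 1) F) := by
  induction k generalizing F with
  | zero => simp [Yl]
  | succ k ih =>
    have h : Yop τ 1 (XC4_Z τ φ F) = XC4_Z τ φ (Yop τ 1 F) := funext fun x => XC4_Y_Z hφ hF x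
    rw [XC3_Yl_comm, XC3_Yl_comm, h]
    exact ih (classP_Yop_continuous 1 hF)

theorem XC4_even {τ : ℝ} {g : ℝ → ℝ} (he : ∀ x, g (-x) = g x) (k : ℕ) : ∀ x,
    Yl τ (List.replicate k 1) g (-x) = Yl τ (List.replicate k 1) g x := by
  induction k generalizing g with
  | zero => simpa [Yl] using he
  | succ k ih =>
    intro x
    rw [XC3_Yl_comm]
    exact ih (fun x => XC3_even he x) x

theorem XC4_cont {τ : ℝ} {f : ℝ → ℝ} (hf : Continuous f) (k : ℕ) :
    Continuous (Yl τ (List.replicate k 1) f) := by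
  induction k generalizing f with
  | zero => simpa [Yl] using hf
  | succ k ih =>
    rw [XC3_Yl_comm]
    exact ih (classP_Yop_continuous 1 hf)

theorem Lf_Yl_Phi1 {τ : ℝ} (hτ : 0 < τ) {φ : ℝ → ℝ} (hφ : Continuous φ) (he : ∀ x, φ (-x) = φ x) (k : ℕ) :
    Lf τ 1 (Yl τ (List.replicate (k + 1) 1) (Phi1 τ φ)) =
      ∫ t in (0 : ℝ)..τ, φ t * Yl τ (List.replicate k 1) (rX τ) t := by
  have hE := E_continuous
  have hgc := XC4_g_cont hτ.le hφ
  have hge := XC4_g_even (τ := τ) he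
  have hrc : Continuous (rX τ) := UThree_rX_continuous τ
  have h0 : Yop τ 1 (Phi1 τ φ) = fun x => ∫ s in (0 : ℝ)..x, XC4_g τ φ s := funext fun x => XC4_prim hτ.le hφ he x
  rw [XC3_Yl_comm, h0, Lf_Yl_prim hτ hgc hge]
  have h1 : ∫ t in (-τ)..τ, E t * Yl τ (List.replicate k 1) (XC4_g τ φ) t =
      2 * ∫ t in (0 : ℝ)..τ, E t * Yl τ (List.replicate k 1) (XC4_g τ φ) t :=
    psi_symm_even (f := fun t => E t * Yl τ (List.replicate k 1) (XC4_g τ φ) t)
      (hE.mul (XC4_cont hgc k)) (fun x => by simp only [E_neg, XC4_even hge k]) τ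
  have h2 : ∫ t in (-τ)..τ, E t * Yl τ (List.replicate k 1) (XC4_g τ φ) t =
      Yl τ (List.replicate (k + 1) 1) (XC4_g τ φ) 0 := by
    have e : Yl τ (List.replicate (k + 1) 1) (XC4_g τ φ) 0 =
        ∫ t in (-τ)..τ, E t * Yl τ (List.replicate k 1) (XC4_g τ φ) (0 + 1 * t) := by
      simp only [List.replicate_succ, Yl, List.foldr_cons]
      rfl
    rw [e]
    simp only [zero_add, one_mul]
  have h3 : Yl τ (List.replicate (k + 1) 1) (XC4_g τ φ) 0 =
      ∫ w in (-τ)..τ, φ w * Yl τ (List.replicate k 1) (rX τ) w := by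
    have h0 : Yop τ 1 (XC4_g τ φ) = XC4_Z τ φ (rX τ) := funext fun x => XC4_Y_g hτ.le hφ x
    rw [XC3_Yl_comm, h0, XC4_Yl_Z hφ hrc]
    unfold XC4_Z
    simp only [sub_zero]
  have h4 : ∫ w in (-τ)..τ, φ w * Yl τ (List.replicate k 1) (rX τ) w =
      2 * ∫ w in (0 : ℝ)..τ, φ w * Yl τ (List.replicate k 1) (rX τ) w :=
    psi_symm_even (f := fun w => φ w * Yl τ (List.replicate k 1) (rX τ) w)
      (hφ.mul (XC4_cont hrc k)) (fun x => by
        simp only [he, XC4_even (UThree_rX_even τ) k]) τ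
  linarith

end GCube
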