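import Pool.Agent.Lib.H83.ThQb
import Pool.Agent.Lib.H83.ThQd

/-!
Chunk XC5 (M): Fourier form and the dual bound.

`Yl_rX_fourier`: `Yl τ (replicate k 1) (rX τ) t = (1/2π) ∫ ψ(s)^(k+2) cos(s t) ds` (`inv_Yl_rho` with `a = b = 1`, `rho_one`,
`psiProd` of `replicate`).
`fourier_E`: `∫_0^τ E (Yl^k rX) = (1/2π) ∫ ψ^(k+2) (∫_0^τ E(t) cos(st) dt) ds = (1/4π) In (k+3)` (`Gthree_swap`).
`fourier_fv`: `∫_0^τ fv (Yl^k rX) = (1/4π) (sg In (k+3) - J2 (k+3))`.
`dual_raw`: `n = k + 3`; `f` from `qf_InP` with `M = max R ((k+2+1)τ)`; `InP.block` (`c = 1`, `m = k`) gives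
`0 < Lf τ 1 (Yl τ (replicate (k+1) 1) f) = Lf τ 1 (Yl τ (replicate (k+1) 1) (qf τ R γ))` (`Lf_Yl_congr`), and by `Lf_Yl_comb`,
`Lf_Yl_Phi1`, `Lf_Yl_id` this is `(1/4π)(sg In n - J2 n) + (2γG/R)(2G)^(k+1) G - 2γ (1/4π) In n`. Multiply by `4π`.
-/

open MeasureTheory Set
open scoped Real

namespace GCube

theorem XC5_prod (τ s : ℝ) (k : ℕ) : psiProd τ (List.replicate k 1) s = psi τ s ^ k := by
  unfold psiProd
  rw [List.map_replicate, List.prod_replicate, one_mul]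

theorem XC5_pow_int {τ : ℝ} (hτ : 0 < τ) (k : ℕ) : Integrable fun s : ℝ => psi τ s ^ (k + 2) := by
  have h := Phi_integrable hτ (n := k + 2) (a := fun _ => 1)
    ⟨⟨0, by omega⟩, ⟨1, by omega⟩, by simp, one_ne_zero, one_ne_zero⟩
  simpa using h

theorem Yl_rX_fourier {τ : ℝ} (hτ : 0 < τ) (k : ℕ) (t : ℝ) :
    Yl τ (List.replicate k 1) (rX τ) t = (1 / (2 * π)) * ∫ s : ℝ, psi τ s ^ (k + 2) * Real.cos (s * t) := by
  have h0 : rho τ 1 1 = rX τ := funext fun x => rho_one hτ x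
  rw [← h0, inv_Yl_rho hτ one_pos one_pos]
  congr 1
  refine integral_congr_ae (Filter.Eventually.of_forall fun s => ?_)
  simp only [one_mul, XC5_prod]
  ring

theorem XC5_swap {τ : ℝ} (hτ : 0 < τ) (k : ℕ) {w : ℝ → ℝ} (hw : Continuous w) :
    ∫ t in (0 : ℝ)..τ, w t * Yl τ (List.replicate k 1) (rX τ) t =
      (1 / (2 * π)) * ∫ s : ℝ, psi τ s ^ (k + 2) * ∫ t in (0 : ℝ)..τ, w t * Real.cos (s * t) := by
  simp only [Yl_rX_fourier hτ]
  have e : ∀ t, w t * ((1 / (2 * π)) * ∫ s : ℝ, psi τ s ^ (k + 2) * Real.cos (s * t)) =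
      (1 / (2 * π)) * (w t * ∫ s : ℝ, psi τ s ^ (k + 2) * Real.cos (s * t)) := fun t => by ring
  simp only [e]
  rw [intervalIntegral.integral_const_mul]
  congr 1
  exact Gthree_swap (φ := fun t s => Real.cos (s * t)) (XC5_pow_int hτ k) hw
    (by unfold Function.uncurry; fun_prop) (fun t s => Real.abs_cos_le_one _) hτ.le

theorem XC5_half {τ s : ℝ} {w : ℝ → ℝ} (hw : Continuous w) (he : ∀ x, w (-x) = w x) :
    ∫ t in (0 : ℝ)..τ, w t * Real.cos (s * t) = (∫ t in (-τ)..τ, w t * Real.cos (s * t)) / 2 := by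
  have h := psi_symm_even (f := fun t => w t * Real.cos (s * t)) (by fun_prop)
    (fun x => by simp only [he, mul_neg, Real.cos_neg]) τ
  linarith

theorem fourier_E {τ : ℝ} (hτ : 0 < τ) (k : ℕ) :
    ∫ t in (0 : ℝ)..τ, E t * Yl τ (List.replicate k 1) (rX τ) t = In (k + 3) τ / (4 * π) := by
  rw [XC5_swap hτ k E_continuous]
  have e : ∀ s, psi τ s ^ (k + 2) * ∫ t in (0 : ℝ)..τ, E t * Real.cos (s * t) = psi τ s ^ (k + 3) * (1 / 2) := by
    intro s
    rw [XC5_half E_continuous E_neg]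
    unfold psi
    ring
  simp only [e]
  rw [integral_mul_const]
  unfold In
  field_simp
  ring

theorem XC5_psi2 (τ s : ℝ) : psi2 τ s = ∫ t in (-τ)..τ, t ^ 2 * E t * Real.cos (s * t) := rfl

theorem XC5_psi2_cont (τ : ℝ) : Continuous (psi2 τ) := by
  have hE := E_continuous
  unfold psi2
  apply intervalIntegral.continuous_parametric_intervalIntegral_of_continuous'
  unfold Function.uncurry
  fun_prop

theorem XC5_psi2_le {τ : ℝ} (hτ : 0 < τ) (s : ℝ) : |psi2 τ s| ≤ ∫ t in (-τ)..τ, t ^ 2 * E t := by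
  have hE := E_continuous
  unfold psi2
  refine (intervalIntegral.abs_integral_le_integral_abs (by linarith)).trans ?_
  refine intervalIntegral.integral_mono_on (by linarith) ?_ ?_ fun t _ => ?_
  · exact (by fun_prop : Continuous fun t => |t ^ 2 * E t * Real.cos (s * t)|).intervalIntegrable _ _
  · exact (by fun_prop : Continuous fun t => t ^ 2 * E t).intervalIntegrable _ _
  · have h1 : 0 ≤ t ^ 2 * E t := mul_nonneg (sq_nonneg t) (E_pos t).le
    rw [abs_mul, abs_of_nonneg h1]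
    exact mul_le_of_le_one_right h1 (Real.abs_cos_le_one _)

theorem XC5_J_int {τ : ℝ} (hτ : 0 < τ) (k : ℕ) : Integrable fun s : ℝ => psi2 τ s * psi τ s ^ (k + 2) := by
  refine (XC5_pow_int hτ k).bdd_mul (c := ∫ t in (-τ)..τ, t ^ 2 * E t)
    (XC5_psi2_cont τ).aestronglyMeasurable (Filter.Eventually.of_forall fun s => ?_)
  rw [Real.norm_eq_abs]
  exact XC5_psi2_le hτ s

theorem fourier_fv {τ : ℝ} (hτ : 0 < τ) (k : ℕ) :
    ∫ t in (0 : ℝ)..τ, fv τ t * Yl τ (List.replicate k 1) (rX τ) t =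
      (sg τ * In (k + 3) τ - J2 (k + 3) τ) / (4 * π) := by
  have hE := E_continuous
  rw [XC5_swap hτ k (XC1_fv_cont τ)]
  have e : ∀ s, psi τ s ^ (k + 2) * ∫ t in (0 : ℝ)..τ, fv τ t * Real.cos (s * t) =
      (sg τ * psi τ s ^ (k + 3) - psi2 τ s * psi τ s ^ (k + 2)) * (1 / 2) := by
    intro s
    rw [XC5_half (XC1_fv_cont τ) (XC1_fv_even τ)]
    have h1 : ∫ t in (-τ)..τ, fv τ t * Real.cos (s * t) = sg τ * psi τ s - psi2 τ s := by
      unfold psi psi2 fv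
      rw [← intervalIntegral.integral_const_mul, ← intervalIntegral.integral_sub]
      · refine intervalIntegral.integral_congr fun t _ => ?_
        ring
      · exact (by fun_prop : Continuous fun t => sg τ * (E t * Real.cos (s * t))).intervalIntegrable _ _
      · exact (by fun_prop : Continuous fun t => t ^ 2 * E t * Real.cos (s * t)).intervalIntegrable _ _
    rw [h1]
    ring
  simp only [e]
  rw [integral_mul_const, integral_sub ((XC5_pow_int hτ (k + 1)).const_mul _) (XC5_J_int hτ k), integral_const_mul]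
  unfold In J2
  rw [show k + 3 - 1 = k + 2 by omega, show k + 1 + 2 = k + 3 by ring]
  field_simp
  ring

theorem dual_raw {τ R γ : ℝ} (h : QH τ R γ) {n : ℕ} (h3 : 3 ≤ n) :
    γ * (2 * In n τ - 2 * π * (2 * G τ) ^ n / R) < sg τ * In n τ - J2 n τ := by
  obtain ⟨k, rfl⟩ : ∃ k, n = k + 3 := ⟨n - 3, by omega⟩
  have hτ := h.τpos
  have hR := XC1_Rpos h
  obtain ⟨f, hf, hfq⟩ := qf_InP h (M := max R ((k + 2) * τ)) (le_max_left _ _)
  have h1 := InP.block hτ one_pos hf k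
  rw [Lf_Yl_congr hτ.le (g := qf τ R γ) (k + 1) (fun x hx => hfq x (hx.trans ((le_of_eq (by push_cast; ring)).trans
    (le_max_right _ _))))] at h1
  have h2 := Lf_Yl_comb (τ := τ) hτ.le (f := Phi1 τ (fv τ)) (g := fun x => x) (h := Phi1 τ E)
    (Phi1_cont (XC1_fv_cont τ)) continuous_id (Phi1_cont E_continuous) (2 * γ * G τ / R) (2 * γ) (k + 1)
  have h3' : (fun x => Phi1 τ (fv τ) x + 2 * γ * G τ / R * x - 2 * γ * Phi1 τ E x) = qf τ R γ := rfl
  rw [h3'] at h2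
  rw [h2, Lf_Yl_Phi1 hτ (XC1_fv_cont τ) (XC1_fv_even τ), Lf_Yl_Phi1 hτ E_continuous E_neg, Lf_Yl_id hτ,
    fourier_fv hτ, fourier_E hτ] at h1
  have hπ := Real.pi_pos
  have h4 : 0 < 4 * π * ((sg τ * In (k + 3) τ - J2 (k + 3) τ) / (4 * π) +
      2 * γ * G τ / R * ((2 * G τ) ^ (k + 1) * G τ) - 2 * γ * (In (k + 3) τ / (4 * π))) := by positivity
  have h5 : 4 * π * ((sg τ * In (k + 3) τ - J2 (k + 3) τ) / (4 * π) +
      2 * γ * G τ / R * ((2 * G τ) ^ (k + 1) * G τ) - 2 * γ * (In (k + 3) τ / (4 * π))) =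
      sg τ * In (k + 3) τ - J2 (k + 3) τ - γ * (2 * In (k + 3) τ - 2 * π * (2 * G τ) ^ (k + 3) / R) := by
    field_simp
    ring
  rw [h5] at h4
  linarith

end GCube
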