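import Pool.Agent.Lib.H83.ThDer
import Pool.Agent.Lib.H83.ThElem

/-!
Chunk XW1 (M): derivative of `W3`, sign of `pn 3 - p2`.

`hasDerivAt_In3`: `∂_τ ψ(τ,s) = 2 E(τ) cos(sτ)` (derivative of `∫_{-τ}^{τ} E(t) cos(st) dt = 2∫_0^τ`), so
`In 3' = ∫ 3 ψ² · 2E(τ) cos(sτ) ds = 6 E(τ) · 2π rX τ τ` (`hasDerivAt_integral_of_dominated_loc_of_deriv_le`, bound `C/(1+s²)` from
`abs_psi_le`, `abs_psi_le_inv`, monotonicity of `psi τ 0 = 2G τ`; then `inv_rho` with `a = b = 1`, `rho_one`).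
`W3' = √3 · 6 E(τ) rX τ τ - 4√2 (E(τ)² G + EE E(τ))`, `rX τ τ = 2 exp(-τ²/4) EE(τ/2)`, `EE' = exp(-τ²) = E(τ)²`: `= 4 E b3`.
`pn_three`: `pn 3 - p2 = W3/(8G³)` (`EE/(√2 G²) = 4√2 EE G/(8G³)`).
-/

open MeasureTheory Set
open scoped Real

namespace GCube

theorem hasDerivAt_In3 {τ : ℝ} (hτ : 0 < τ) : HasDerivAt (In 3) (6 * E τ * (2 * π * rX τ τ)) τ := by
  refine (XA1_raw 0 hτ).congr_deriv ?_
  have h := inv_rho hτ one_pos one_pos τ
  rw [rho_one hτ] at h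
  have e : ∀ s : ℝ, (((0 : ℕ) : ℝ) + 3) * psi τ s ^ (0 + 2) * (2 * E τ * Real.cos (s * τ)) =
      (6 * E τ) * (psi τ (1 * s) * psi τ (1 * s) * Real.cos (s * τ)) := by
    intro s
    rw [one_mul]
    push_cast
    ring
  simp only [e]
  rw [integral_const_mul, h]
  have hpi : 2 * π ≠ 0 := by positivity
  rw [← mul_assoc (2 * π), mul_one_div_cancel hpi, one_mul]

theorem XW1_rX {τ : ℝ} (hτ : 0 < τ) : rX τ τ = 2 * Real.exp (-(τ ^ 2) / 4) * EE (τ / 2) := by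
  unfold rX
  rw [if_pos (by rw [abs_of_pos hτ]; linarith), abs_of_pos hτ, show τ - τ / 2 = τ / 2 by ring]

theorem XW1_E_sq (τ : ℝ) : Real.exp (-(τ ^ 2)) = E τ * E τ := by
  unfold E
  rw [← Real.exp_add]
  congr 1
  ring

theorem hasDerivAt_W3 {τ : ℝ} (hτ : 0 < τ) : HasDerivAt W3 (4 * E τ * b3 τ) τ := by
  have hG : HasDerivAt G (E τ) τ := (E_continuous.integral_hasStrictDerivAt 0 τ).hasDerivAt
  have hEE := RegionA_EE_deriv τ
  have h := ((hasDerivAt_In3 hτ).div_const (2 * π)).const_mul (Real.sqrt 3)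
  have h2 := (hEE.mul hG).const_mul (4 * Real.sqrt 2)
  have h3 := h.sub h2
  refine h3.congr_deriv ?_
  unfold b3
  rw [XW1_rX hτ, XW1_E_sq]
  have hpi := Real.pi_pos
  field_simp
  ring

theorem pn_three {τ : ℝ} (hτ : 0 < τ) : pn 3 τ - p2 τ = W3 τ / (8 * G τ ^ 3) := by
  unfold pn p2 ct W3
  have hG : 0 < G τ := by
    have h := psi_zero_pos hτ
    rw [psi_zero_eq] at h
    linarith
  have hpi := Real.pi_pos
  have h2 : Real.sqrt 2 ≠ 0 := by positivity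
  have h4 := Real.sq_sqrt (show (0 : ℝ) ≤ 2 by norm_num)
  push_cast
  have e : EE τ / G τ ^ 2 / Real.sqrt 2 = 4 * Real.sqrt 2 * (EE τ * G τ) / (8 * G τ ^ 3) := by
    rw [div_div, div_eq_div_iff (by positivity) (by positivity)]
    have : 4 * Real.sqrt 2 * (EE τ * G τ) * (G τ ^ 2 * Real.sqrt 2) =
        4 * (Real.sqrt 2 ^ 2) * (EE τ * G τ ^ 3) := by ring
    rw [this, h4]
    ring
  rw [e]
  field_simp
  ring

end GCube
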