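import Pool.Agent.Lib.H83.U3cM

/-!
Chunk UC3: `etaY(x)/x` is strictly decreasing on `(0, yτ]` under `U3cond τ y`.

`etaY' (x) = 2g² E(x/y)/y + M(x)`, `M(x) = ∫_{-τ}^τ E(t) m(|x-yt|) dt`, `m = U3c_m τ`, `g = E τ` (differentiate `etaY_near`).
Case 1: `M` is nonincreasing (`U3c_even_avg`, `U3c_m_case1`), the first term strictly decreasing: `etaY` is strictly concave on `[0,yτ]`,
`etaY(0) = 0`, so `etaY(x)/x` is strictly decreasing.
Case 2 (`2yτ ≤ 1.64`): `m1(v) = m(v) - 0.3 g v + 0.1 v²` is nonincreasing on `[0,2yτ]` (`U3c_m_case2`),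
`M(x) = ∫E m1(|x-yt|) + 0.3 g ∫E(t)|x-yt| - 0.1 ∫ E(t)(x-yt)²`. So it is enough that
`N(x) = 2g² E(x/y)/y + 0.3 g ∫E(t)|x-yt| dt - 0.1 ∫E(t)(x-yt)² dt` is strictly decreasing on `[0,yτ]`: with `z = x/y ∈ (0,τ)`,
`ψ0 = psi τ 0 = ∫E`, `N' = -2g² z E(z)/y² + 0.6 g G(z) - 0.2 ψ0 y z ≤ z(0.6 g - 2g³/y² - 0.4 y) < 0` (`E(z) ≥ g`, `G(z) ≤ z`, `ψ0 ≥ 2` as
`ψ0 = 2 G(τ) ≥ 2 G(1.4) > 2`): if `y ≥ 1.5 g` then `0.4 y ≥ 0.6 g`, else `2g³/y² ≥ 0.88 g`.
(`d/dx ∫_{-τ}^τ E(t)|x-yt| dt = 2 G(x/y)` for `0 ≤ x ≤ yτ`.)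
-/

open MeasureTheory Set
open scoped Real

namespace GCube

def U3cond (τ y : ℝ) : Prop :=
  (τ ^ 2 ≤ 2 ∧ τ ^ 2 * (1 - 5 * y + 7 * y ^ 2) ≤ 2 ∧ y ^ 2 * τ ^ 2 ≤ 3 / 2) ∨
    (2 ≤ τ ^ 2 ∧ y * τ ≤ 82 / 100)

lemma UC3_conv {τ y : ℝ} (hτ : 0 < τ) {k : ℝ → ℝ} (hk : Continuous k) (x : ℝ) :
    HasDerivAt (fun x => ∫ t in (-τ)..τ, E t * ∫ u in (0 : ℝ)..(x - y * t), k u)
      (∫ t in (-τ)..τ, E t * k (x - y * t)) x := by
  have hEc : Continuous E := E_continuous
  have hKc : Continuous (fun v => ∫ u in (0 : ℝ)..v, k u) :=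
    intervalIntegral.continuous_primitive (fun a b => hk.intervalIntegrable a b) 0
  have hKd : ∀ v, HasDerivAt (fun v => ∫ u in (0 : ℝ)..v, k u) (k v) v := fun v =>
    intervalIntegral.integral_hasDerivAt_right (hk.intervalIntegrable _ _)
      (hk.stronglyMeasurableAtFilter _ _) hk.continuousAt
  set R := |x| + 1 + |y| * τ with hR
  obtain ⟨C, hC⟩ := (isCompact_Icc (a := -R) (b := R)).exists_bound_of_continuousOn hk.continuousOn
  refine (intervalIntegral.hasDerivAt_integral_of_dominated_loc_of_deriv_le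
      (F := fun x t => E t * ∫ u in (0 : ℝ)..(x - y * t), k u)
      (F' := fun x t => E t * k (x - y * t))
      (s := Metric.ball x 1) (bound := fun t => E t * C)
      (Metric.ball_mem_nhds x one_pos) ?_ ?_ ?_ ?_ ?_ ?_).2
  · refine Filter.Eventually.of_forall fun z => Continuous.aestronglyMeasurable ?_
    exact hEc.mul (hKc.comp (by fun_prop))
  · exact (hEc.mul (hKc.comp (by fun_prop : Continuous fun t : ℝ => x - y * t))).intervalIntegrable _ _
  · exact (hEc.mul (hk.comp (by fun_prop : Continuous fun t : ℝ => x - y * t))).aestronglyMeasurable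
  · refine Filter.Eventually.of_forall fun t ht z hz => ?_
    rw [uIoc_of_le (by linarith)] at ht
    rw [norm_mul, Real.norm_eq_abs, abs_of_pos (E_pos t)]
    apply mul_le_mul_of_nonneg_left _ (E_pos t).le
    apply hC
    rw [Metric.mem_ball, Real.dist_eq] at hz
    have h1 : |z| ≤ |x| + 1 := by
      have := abs_sub_abs_le_abs_sub z x
      linarith
    have h2 : |y * t| ≤ |y| * τ := by
      rw [abs_mul]
      apply mul_le_mul_of_nonneg_left _ (abs_nonneg _)
      rw [abs_le]
      exact ⟨ht.1.le, ht.2⟩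
    have h3 : |z - y * t| ≤ R := by
      refine (abs_sub _ _).trans ?_
      rw [hR]
      linarith
    rw [abs_le] at h3
    exact h3
  · exact (hEc.mul continuous_const).intervalIntegrable _ _
  · refine Filter.Eventually.of_forall fun t _ z _ => ?_
    have h4 : HasDerivAt (fun z : ℝ => z - y * t) 1 z := (hasDerivAt_id' z).sub_const (y * t)
    have h5 := ((hKd (z - y * t)).comp z h4).const_mul (E t)
    refine h5.congr_deriv ?_
    ring

lemma UC3_G_lower {r : ℝ} (hr : 0 ≤ r) : r - r ^ 3 / 6 ≤ G r := by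
  have hd : ∀ x : ℝ, HasDerivAt (fun x => G x - x + x ^ 3 / 6) (E x - 1 + x ^ 2 / 2) x := by
    intro x
    have h3 : HasDerivAt (fun x : ℝ => x ^ 3 / 6) (x ^ 2 / 2) x := by
      have := (hasDerivAt_pow 3 x).div_const 6
      refine this.congr_deriv ?_
      norm_num
      ring
    exact ((UThree_G_hasDerivAt x).sub (hasDerivAt_id' x)).add h3
  have hm : Monotone (fun x => G x - x + x ^ 3 / 6) :=
    monotone_of_deriv_nonneg (fun x => (hd x).differentiableAt) (fun x => by
      rw [(hd x).deriv]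
      unfold E
      have := Real.add_one_le_exp (-(x ^ 2) / 2)
      linarith)
  have := hm hr
  have hG0 : G 0 = 0 := by simp [G]
  simp only [hG0] at this
  norm_num at this
  linarith

lemma UC3_tE_int (a b : ℝ) : ∫ t in a..b, t * E t = E a - E b := by
  have hEc : Continuous E := E_continuous
  have hd : ∀ t : ℝ, HasDerivAt (fun t => -E t) (t * E t) t := by
    intro t
    refine (UThree_E_hasDerivAt t).neg.congr_deriv ?_
    ring
  rw [intervalIntegral.integral_eq_sub_of_hasDerivAt (fun t _ => hd t)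
    ((continuous_id.mul hEc).intervalIntegrable _ _)]
  ring

/-- `∫ E |x - y t| = 2 x G(x/y) + 2 y (E(x/y) - E τ)` -/
lemma UC3_abs {τ y x : ℝ} (hτ : 0 < τ) (hy : 0 < y) (h0 : 0 ≤ x) (h1 : x ≤ y * τ) :
    ∫ t in (-τ)..τ, E t * |x - y * t| = 2 * x * G (x / y) + 2 * y * (E (x / y) - E τ) := by
  have hEc : Continuous E := E_continuous
  have hxy0 : 0 ≤ x / y := by positivity
  have hxy1 : x / y ≤ τ := by rw [div_le_iff₀ hy]; linarith
  have hc : Continuous fun t : ℝ => E t * |x - y * t| := by fun_prop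
  rw [← intervalIntegral.integral_add_adjacent_intervals (b := x / y)
    (hc.intervalIntegrable _ _) (hc.intervalIntegrable _ _)]
  have e1 : ∫ t in (-τ)..(x / y), E t * |x - y * t| =
      ∫ t in (-τ)..(x / y), (x * E t - y * (t * E t)) := by
    apply intervalIntegral.integral_congr
    intro t ht
    rw [uIcc_of_le (by linarith)] at ht
    have : 0 ≤ x - y * t := by
      have := ht.2
      rw [le_div_iff₀ hy] at this
      linarith
    simp only
    rw [abs_of_nonneg this]
    ring
  have e2 : ∫ t in (x / y)..τ, E t * |x - y * t| =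
      ∫ t in (x / y)..τ, (y * (t * E t) - x * E t) := by
    apply intervalIntegral.integral_congr
    intro t ht
    rw [uIcc_of_le hxy1] at ht
    have : x - y * t ≤ 0 := by
      have := ht.1
      rw [div_le_iff₀ hy] at this
      linarith
    simp only
    rw [abs_of_nonpos this]
    ring
  have i1 : ∀ a b : ℝ, IntervalIntegrable (fun t => x * E t) volume a b := fun a b =>
    (continuous_const.mul hEc).intervalIntegrable _ _
  have i2 : ∀ a b : ℝ, IntervalIntegrable (fun t => y * (t * E t)) volume a b := fun a b =>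
    (continuous_const.mul (continuous_id'.mul hEc)).intervalIntegrable _ _
  rw [e1, e2, intervalIntegral.integral_sub (i1 _ _) (i2 _ _),
    intervalIntegral.integral_sub (i2 _ _) (i1 _ _), intervalIntegral.integral_const_mul,
    intervalIntegral.integral_const_mul, intervalIntegral.integral_const_mul,
    intervalIntegral.integral_const_mul, UC3_tE_int, UC3_tE_int, UC1_G_add, UC1_G_add, UC1_G_neg,
    UC1_E_even]
  ring

lemma UC3_sq {τ y x : ℝ} :
    ∫ t in (-τ)..τ, E t * (x - y * t) ^ 2 = 2 * G τ * x ^ 2 + y ^ 2 * ∫ t in (-τ)..τ, t ^ 2 * E t := by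
  have hEc : Continuous E := E_continuous
  have e : (fun t : ℝ => E t * (x - y * t) ^ 2) =
      fun t => (x ^ 2 * E t - 2 * x * y * (t * E t)) + y ^ 2 * (t ^ 2 * E t) := by
    funext t
    ring
  have i1 : IntervalIntegrable (fun t => x ^ 2 * E t) volume (-τ) τ :=
    (continuous_const.mul hEc).intervalIntegrable _ _
  have i2 : IntervalIntegrable (fun t => 2 * x * y * (t * E t)) volume (-τ) τ :=
    (continuous_const.mul (continuous_id'.mul hEc)).intervalIntegrable _ _
  have i3 : IntervalIntegrable (fun t => y ^ 2 * (t ^ 2 * E t)) volume (-τ) τ :=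
    (continuous_const.mul ((continuous_pow 2).mul hEc)).intervalIntegrable _ _
  rw [e, intervalIntegral.integral_add (i1.sub i2) i3, intervalIntegral.integral_sub i1 i2,
    intervalIntegral.integral_const_mul, intervalIntegral.integral_const_mul,
    intervalIntegral.integral_const_mul, UC3_tE_int, UC1_G_add, UC1_G_neg, UC1_E_even]
  ring

lemma UC3_E_strictAnti : StrictAntiOn E (Ici 0) := by
  intro a ha b hb hab
  unfold E
  apply Real.exp_lt_exp.mpr
  have : a ^ 2 < b ^ 2 := pow_lt_pow_left₀ hab ha (by norm_num)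
  linarith

lemma UC3_G_mono : Monotone G :=
  monotone_of_deriv_nonneg (fun x => (UThree_G_hasDerivAt x).differentiableAt)
    (fun x => by rw [(UThree_G_hasDerivAt x).deriv]; exact (E_pos x).le)

/-- the explicit part in case 2 -/
noncomputable def UC3_N (τ y x : ℝ) : ℝ :=
  2 * E τ ^ 2 * (E (x / y) / y) + 3 / 10 * E τ * (2 * x * G (x / y) + 2 * y * (E (x / y) - E τ)) -
    1 / 10 * (2 * G τ * x ^ 2 + y ^ 2 * ∫ t in (-τ)..τ, t ^ 2 * E t)

lemma UC3_N_hasDerivAt {τ y : ℝ} (hy : 0 < y) (x : ℝ) : HasDerivAt (UC3_N τ y)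
    (2 * E τ ^ 2 * (-(x / y) * E (x / y) / y / y) + 3 / 10 * E τ * (2 * G (x / y)) -
      1 / 10 * (2 * G τ * (2 * x))) x := by
  unfold UC3_N
  have hz : HasDerivAt (fun x : ℝ => x / y) (1 / y) x := (hasDerivAt_id' x).div_const y
  have hE := (UThree_E_hasDerivAt (x / y)).comp x hz
  have hG := (UThree_G_hasDerivAt (x / y)).comp x hz
  have h1 := (hE.div_const y).const_mul (2 * E τ ^ 2)
  have hx2 : HasDerivAt (fun x : ℝ => 2 * x) 2 x := by
    simpa using (hasDerivAt_id' x).const_mul 2
  have h2 := ((hx2.mul hG).add ((hE.sub_const (E τ)).const_mul (2 * y))).const_mul (3 / 10 * E τ)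
  have h3 := (((hasDerivAt_pow 2 x).const_mul (2 * G τ)).add_const
    (y ^ 2 * ∫ t in (-τ)..τ, t ^ 2 * E t)).const_mul (1 / 10)
  refine ((h1.add h2).sub h3).congr_deriv ?_
  simp only [Function.comp_apply]
  norm_num
  field_simp
  ring

lemma UC3_N_anti {τ y : ℝ} (hτ : 0 < τ) (hy : 0 < y) (h : 2 ≤ τ ^ 2) :
    StrictAntiOn (UC3_N τ y) (Icc 0 (y * τ)) := by
  apply strictAntiOn_of_deriv_neg (convex_Icc _ _)
  · exact fun x _ => (UC3_N_hasDerivAt hy x).continuousAt.continuousWithinAt
  · intro x hx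
    rw [interior_Icc] at hx
    rw [(UC3_N_hasDerivAt hy x).deriv]
    have hx0 := hx.1
    have hx1 := hx.2
    set z := x / y with hz
    have hxz : x = y * z := by rw [hz]; field_simp
    have hz0 : 0 < z := by rw [hz]; positivity
    have hz1 : z ≤ τ := by rw [hz, div_le_iff₀ hy]; linarith
    have hg : 0 < E τ := E_pos τ
    have hEz : E τ ≤ E z := by
      unfold E
      apply Real.exp_le_exp.mpr
      have : z ^ 2 ≤ τ ^ 2 := pow_le_pow_left₀ hz0.le hz1 2
      linarith
    have hGz : G z ≤ z := UThree_G_le hz0.le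
    have hτ2 : 1414 / 1000 ≤ τ := by nlinarith
    have hGτ : (94 / 100 : ℝ) ≤ G τ := by
      refine le_trans ?_ (UC3_G_mono hτ2)
      refine le_trans ?_ (UC3_G_lower (by norm_num))
      norm_num
    rw [hxz]
    set g := E τ with hgdef
    have key : 0 < 2 * g ^ 3 / y ^ 2 - 6 / 10 * g + 4 / 10 * (94 / 100) * y := by
      rcases le_or_gt (16 / 10 * g) y with h1 | h1
      · have : 0 < 2 * g ^ 3 / y ^ 2 := by positivity
        nlinarith
      · have h2 : 6 / 10 * g ≤ 2 * g ^ 3 / y ^ 2 := by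
          rw [le_div_iff₀ (by positivity)]
          have h3 : y ^ 2 ≤ (16 / 10 * g) ^ 2 := pow_le_pow_left₀ hy.le h1.le 2
          have h4 : g * y ^ 2 ≤ g * (16 / 10 * g) ^ 2 := mul_le_mul_of_nonneg_left h3 hg.le
          nlinarith [pow_pos hg 3]
        nlinarith
    have t1 : 2 * g ^ 2 * (-z * E z / y / y) ≤ -(z * (2 * g ^ 3 / y ^ 2)) := by
      have e1 : 2 * g ^ 2 * (-z * E z / y / y) = -(z * (2 * g ^ 2 * E z / y ^ 2)) := by
        field_simp
      rw [e1]
      apply neg_le_neg
      apply mul_le_mul_of_nonneg_left _ hz0.le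
      apply div_le_div_of_nonneg_right _ (by positivity)
      have := mul_le_mul_of_nonneg_left hEz (by positivity : 0 ≤ 2 * g ^ 2)
      nlinarith
    have t2 : 3 / 10 * g * (2 * G z) ≤ z * (6 / 10 * g) := by nlinarith
    have t3 : z * (4 / 10 * (94 / 100) * y) ≤ 1 / 10 * (2 * G τ * (2 * (y * z))) := by
      have h5 : 0 < y * z := by positivity
      nlinarith
    have := mul_pos hz0 key
    nlinarith

theorem etaY_near_strict {τ y : ℝ} (hτ : 0 < τ) (hy : 0 < y) (hy1 : y < 1) (h : U3cond τ y) :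
    StrictAntiOn (fun x => etaY τ y x / x) (Ioc 0 (y * τ)) := by
  have hEc : Continuous E := E_continuous
  have hyτ : 0 < y * τ := by positivity
  set f : ℝ → ℝ := fun x => 2 * E τ ^ 2 * G (x / y) +
      ∫ t in (-τ)..τ, E t * ∫ u in (0 : ℝ)..(x - y * t), U3c_m τ |u| with hf
  set f' : ℝ → ℝ := fun x => 2 * E τ ^ 2 * (E (x / y) / y) +
      ∫ t in (-τ)..τ, E t * U3c_m τ |x - y * t| with hf'
  have hmc : Continuous (fun u => U3c_m τ |u|) := (UC1_m_cont τ).comp continuous_abs
  have hfd : ∀ x, HasDerivAt f (f' x) x := by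
    intro x
    have hz : HasDerivAt (fun x : ℝ => x / y) (1 / y) x := (hasDerivAt_id' x).div_const y
    have hG := ((UThree_G_hasDerivAt (x / y)).comp x hz).const_mul (2 * E τ ^ 2)
    have h2 := UC3_conv (y := y) hτ hmc x
    refine (hG.add h2).congr_deriv ?_
    rw [hf']
    simp only
    ring
  have hf0 : f 0 = 0 := by
    rw [hf]
    have hG0 : G 0 = 0 := by simp [G]
    simp only [zero_div, hG0, mul_zero, zero_add, zero_sub]
    have h1 := intervalIntegral.integral_comp_neg (a := -τ) (b := τ)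
      (fun t => E t * ∫ u in (0 : ℝ)..(-(y * t)), U3c_m τ |u|)
    rw [neg_neg] at h1
    have h2 : ∫ t in (-τ)..τ, E (-t) * ∫ u in (0 : ℝ)..(-(y * -t)), U3c_m τ |u| =
        ∫ t in (-τ)..τ, -(E t * ∫ u in (0 : ℝ)..(-(y * t)), U3c_m τ |u|) := by
      congr 1
      funext t
      rw [UC1_E_even]
      have e1 : -(y * -t) = -(-(y * t)) := by ring
      rw [e1, UC1_P_odd τ (-(y * t))]
      ring
    rw [h2, intervalIntegral.integral_neg] at h1
    linarith
  have hanti : StrictAntiOn f' (Icc 0 (y * τ)) := by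
    rcases h with h | ⟨h2, h3⟩
    · have h1 := U3c_even_avg (μ := fun u => U3c_m τ |u|) hτ hy hmc (fun x => by rw [abs_neg]) (by
        intro a ha b hb hab
        simp only
        rw [abs_of_nonneg ha.1, abs_of_nonneg hb.1]
        exact U3c_m_case1 hτ hy hy1 h ha hb hab)
      intro a ha b hb hab
      have h4 := h1 ha hb hab.le
      simp only at h4
      rw [hf']
      simp only
      have h5 : E (b / y) < E (a / y) := by
        apply UC3_E_strictAnti
        · exact div_nonneg ha.1 hy.le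
        · exact div_nonneg hb.1 hy.le
        · exact div_lt_div_of_pos_right hab hy
      have h6 : 2 * E τ ^ 2 * (E (b / y) / y) < 2 * E τ ^ 2 * (E (a / y) / y) := by
        apply mul_lt_mul_of_pos_left _ (by have := E_pos τ; positivity)
        exact div_lt_div_of_pos_right h5 hy
      linarith
    · set m1 : ℝ → ℝ := fun v => U3c_m τ |v| - 3 / 10 * E τ * |v| + 1 / 10 * |v| ^ 2 with hm1
      have hm1c : Continuous m1 := by
        rw [hm1]
        fun_prop
      have h1 := U3c_even_avg (μ := m1) hτ hy hm1c (fun x => by rw [hm1]; simp only; rw [abs_neg]) (by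
        intro a ha b hb hab
        rw [hm1]
        simp only
        rw [abs_of_nonneg ha.1, abs_of_nonneg hb.1]
        have hle : 2 * y * τ ≤ 164 / 100 := by linarith
        exact U3c_m_case2 hτ h2 ⟨ha.1, ha.2.trans hle⟩ ⟨hb.1, hb.2.trans hle⟩ hab)
      have hN := UC3_N_anti hτ hy h2
      have heq : ∀ x ∈ Icc 0 (y * τ), f' x = (∫ t in (-τ)..τ, E t * m1 (x - y * t)) + UC3_N τ y x := by
        intro x hx
        rw [hf', hm1]
        simp only
        have i1 : IntervalIntegrable (fun t => E t * U3c_m τ |x - y * t|) volume (-τ) τ :=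
          (hEc.mul (hmc.comp (by fun_prop : Continuous fun t : ℝ => x - y * t))).intervalIntegrable _ _
        have i2 : IntervalIntegrable (fun t => 3 / 10 * E τ * (E t * |x - y * t|)) volume (-τ) τ :=
          (by fun_prop : Continuous fun t : ℝ => 3 / 10 * E τ * (E t * |x - y * t|)).intervalIntegrable _ _
        have i3 : IntervalIntegrable (fun t => 1 / 10 * (E t * (x - y * t) ^ 2)) volume (-τ) τ :=
          (by fun_prop : Continuous fun t : ℝ => 1 / 10 * (E t * (x - y * t) ^ 2)).intervalIntegrable _ _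
        have e : (fun t : ℝ => E t * (U3c_m τ |x - y * t| - 3 / 10 * E τ * |x - y * t| +
            1 / 10 * |x - y * t| ^ 2)) = fun t => (E t * U3c_m τ |x - y * t| -
            3 / 10 * E τ * (E t * |x - y * t|)) + 1 / 10 * (E t * (x - y * t) ^ 2) := by
          funext t
          rw [sq_abs]
          ring
        rw [e, intervalIntegral.integral_add (i1.sub i2) i3, intervalIntegral.integral_sub i1 i2,
          intervalIntegral.integral_const_mul, intervalIntegral.integral_const_mul,
          UC3_abs hτ hy hx.1 hx.2, UC3_sq]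
        unfold UC3_N
        ring
      intro a ha b hb hab
      rw [heq a ha, heq b hb]
      have h4 := h1 ha hb hab.le
      simp only at h4
      have h5 := hN ha hb hab
      linarith
  have hconc : StrictConcaveOn ℝ (Icc 0 (y * τ)) f := by
    apply StrictAntiOn.strictConcaveOn_of_deriv (convex_Icc _ _)
    · exact fun x _ => (hfd x).continuousAt.continuousWithinAt
    · intro a ha b hb hab
      rw [(hfd a).deriv, (hfd b).deriv]
      exact hanti (interior_subset ha) (interior_subset hb) hab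
  intro a ha b hb hab
  simp only
  have hfa : etaY τ y a = f a := etaY_near hτ hy hy1 ha.1.le ha.2
  have hfb : etaY τ y b = f b := etaY_near hτ hy hy1 hb.1.le hb.2
  rw [hfa, hfb]
  have ha0 := ha.1
  have hb0 := hb.1
  have hl : 0 < a / b := by positivity
  have hl1 : a / b < 1 := by rw [div_lt_one hb0]; exact hab
  have h3 := hconc.2 (⟨le_rfl, hyτ.le⟩ : (0:ℝ) ∈ Icc 0 (y * τ)) (⟨hb0.le, hb.2⟩ : b ∈ Icc 0 (y * τ))
    hb0.ne (by linarith : 0 < 1 - a / b) hl (by ring)
  simp only [smul_eq_mul, mul_zero, zero_add, hf0] at h3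
  have h4 : a / b * b = a := by field_simp
  rw [h4] at h3
  rw [div_lt_div_iff₀ hb0 ha0]
  have h5 : a / b * f b * b < f a * b := mul_lt_mul_of_pos_right h3 hb0
  have h6 : a / b * f b * b = f b * a := by field_simp
  linarith

end GCube
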