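import Pool.Agent.Lib.H83.U3cFar
import Pool.Agent.Lib.H83.U3cStrict
import Pool.Agent.Lib.H83.YK

/-!
Chunk UD (short): `U3cond τ y → U3ok τ y`, and `U3cond` for all relevant `y`.

`U3c`: as `InP.Lf3` (file `ClassP`): `Lf_Y1Y`, `abel_pos` with `etaY(x)/x` nonincreasing on `(0,(2+y)τ]` (glue `etaY_near_strict` on
`(0,yτ]` and `etaY_far_anti` on `[yτ,∞)`), strictly on `(0, min(ε, yτ)]`, nonnegative (`etaY_nonneg`).
`U3cond_of_notKap`: for `τ² ≥ 2` (then `τ ≥ 1.4`) `YK_tail`. For `τ² ≤ 2` (`τ ≤ 1.4143`): `okY_lt` with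
(.62,.88,.838), (.88,1.1,.721), (1.1,1.4143,.629) (checked: `CF.okY (62/100) (88/100) (838/1000) 26`, `CF.okY (88/100) (110/100) (721/1000) 22`,
`CF.okY (110/100) (14143/10000) (629/1000) 32` are true, `by decide +kernel`), so `y < Y` and
`1 - 5y + 7y² ≤ max(1, 1 - 5Y + 7Y²)`: `.88²·1.7258 < 2`, `1.21·1.034 < 2`, `2·max(1,.6245) ≤ 2`; `y²τ² ≤ 1.5` clear.
-/

open MeasureTheory Set
open scoped Real

namespace GCube

/-- `R³`-unimodality of `X + X' + yX''` in functional form -/
def U3ok (τ y : ℝ) : Prop := ∀ f : ℝ → ℝ, InP f → 0 < Lf τ 1 (Yop τ 1 (Yop τ y f))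

theorem U3c {τ y : ℝ} (hτ : 0 < τ) (hy : 0 < y) (hy1 : y < 1) (h : U3cond τ y) : U3ok τ y := by
  intro f hf
  obtain ⟨ε, hε, hKp⟩ := hf.Kpos
  rw [Lf_Y1Y hτ hy hf.cont hf.odd]
  have hL : 0 < (2 + y) * τ := by positivity
  have hyτ : 0 < y * τ := by positivity
  have hyL : y * τ ≤ (2 + y) * τ := by nlinarith
  have hnear := etaY_near_strict hτ hy hy1 h
  have hfar := etaY_far_anti hτ hy hy1
  have hanti : AntitoneOn (fun x => etaY τ y x / x) (Ioc 0 ((2 + y) * τ)) := by
    intro a ha b hb hab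
    rcases le_total b (y * τ) with h1 | h1
    · exact hnear.antitoneOn ⟨ha.1, hab.trans h1⟩ ⟨hb.1, h1⟩ hab
    · rcases le_total (y * τ) a with h2 | h2
      · exact hfar h2 h1 hab
      · exact (hfar (mem_Ici.2 le_rfl) h1 h1).trans
          (hnear.antitoneOn ⟨ha.1, h2⟩ ⟨hyτ, le_rfl⟩ h2)
  have h1 : ∫ x in (0 : ℝ)..((2 + y) * τ), etaY τ y x * f x =
      ∫ x in (0 : ℝ)..((2 + y) * τ), etaY τ y x / x * (x * f x) := by
    rw [intervalIntegral.integral_of_le hL.le, intervalIntegral.integral_of_le hL.le]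
    refine setIntegral_congr_fun measurableSet_Ioc fun x hx => ?_
    have := hx.1.ne'
    field_simp
  have hi : IntervalIntegrable (fun x => etaY τ y x / x * (x * f x)) volume 0 ((2 + y) * τ) := by
    have h2 : IntervalIntegrable (fun x => etaY τ y x * f x) volume 0 ((2 + y) * τ) :=
      ((etaY_cont hτ hy).mul hf.cont).intervalIntegrable _ _
    rw [intervalIntegrable_iff_integrableOn_Ioc_of_le hL.le] at h2 ⊢
    refine h2.congr_fun (fun x hx => ?_) measurableSet_Ioc
    have := hx.1.ne'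
    simp only
    field_simp
  rw [h1]
  have hε' : 0 < min ε (y * τ) := by positivity
  refine abel_pos hε' ((min_le_right _ _).trans hyL) hanti
    (hnear.mono (Ioc_subset_Ioc_right (min_le_right _ _)))
    (fun x hx => div_nonneg (etaY_nonneg hτ hy hx.1.le) hx.1.le) (classP_K_cont hf.cont _ _) hi
    (fun ρ hρ _ => hf.Knn ρ hρ) (fun ρ hρ hρ2 => hKp ρ hρ (hρ2.trans_le (min_le_left _ _)))

theorem U3cond_of_notKap {τ y : ℝ} (hτ : 62 / 100 ≤ τ) (hy0 : 0 < y) (hy1 : y < 1)
    (hK : ¬ Kap τ y) : U3cond τ y := by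
  rcases le_total 2 (τ ^ 2) with h2 | h2
  · right
    refine ⟨h2, YK_tail ?_ hy0 hy1 hK⟩
    by_contra hc
    push Not at hc
    nlinarith
  · left
    refine ⟨h2, ?_⟩
    rcases le_or_gt τ (88 / 100) with h3 | h3
    · have h4 := okY_lt (t1 := 62 / 100) (t2 := 88 / 100) (Y := 838 / 1000) (n := 26)
        (by decide +kernel) (by push_cast; linarith) (by push_cast; linarith) hy1 hK
      push_cast at h4
      have h5 : τ ^ 2 ≤ 7744 / 10000 := by nlinarith
      have h6 : 1 - 5 * y + 7 * y ^ 2 ≤ 18 / 10 := by nlinarith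
      have h7 : y ^ 2 ≤ 1 := by nlinarith
      constructor
      · nlinarith [mul_le_mul_of_nonneg_left h6 (sq_nonneg τ)]
      · nlinarith [mul_le_mul_of_nonneg_left h7 (sq_nonneg τ)]
    · rcases le_or_gt τ (110 / 100) with h3' | h3'
      · have h4 := okY_lt (t1 := 88 / 100) (t2 := 110 / 100) (Y := 721 / 1000) (n := 22)
          (by decide +kernel) (by push_cast; linarith) (by push_cast; linarith) hy1 hK
        push_cast at h4
        have h5 : τ ^ 2 ≤ 121 / 100 := by nlinarith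
        have h6 : 1 - 5 * y + 7 * y ^ 2 ≤ 12 / 10 := by nlinarith
        have h7 : y ^ 2 ≤ 1 := by nlinarith
        constructor
        · nlinarith [mul_le_mul_of_nonneg_left h6 (sq_nonneg τ)]
        · nlinarith [mul_le_mul_of_nonneg_left h7 (sq_nonneg τ)]
      · have h3'' : τ ≤ 14143 / 10000 := by nlinarith
        have h4 := okY_lt (t1 := 110 / 100) (t2 := 14143 / 10000) (Y := 629 / 1000) (n := 32)
          (by decide +kernel) (by push_cast; linarith) (by push_cast; linarith) hy1 hK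
        push_cast at h4
        have h6 : 1 - 5 * y + 7 * y ^ 2 ≤ 1 := by nlinarith
        have h7 : y ^ 2 ≤ 4 / 10 := by nlinarith
        constructor
        · nlinarith [mul_le_mul_of_nonneg_left h6 (sq_nonneg τ)]
        · nlinarith [mul_le_mul_of_nonneg_left h7 (sq_nonneg τ)]

end GCube
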