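import Pool.Agent.Lib.H83.Exch
import Pool.Agent.Lib.H83.U3cMain

/-!
Chunk TR (short): exchange inequality with two large equal coordinates and `r` equal middle ones, all other coordinates `≤ y`.

`D_cons` with `b = c := e/y0`: `D = const · Lf τ c (Yop τ c (Yl τ (y0-copies…)))`. `f0 := Yl τ l (C τ y)` is in `InP` (see `D_pos_P`, file
`Exch`). Scale by `c` (`InP.scale`, as in `InP.block`; `e/c = y0`): it remains `0 < Lf τ 1 (Yop τ 1 (Yl τ (replicate r y0) f1))`,
`f1 = f0(c ·) ∈ InP`. If `r` is even, `Yl τ (replicate r y0) f1 ∈ InP` (`classP_even_pow` after scaling) and `InP.Lf2` applies. If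
`r = 2m+1`, `Yl τ (replicate r y0) f1 = Yop τ y0 (Yl τ (replicate (2m) y0) f1)` and `hU` applies.
-/

open MeasureTheory Set
open scoped Real

namespace GCube

/-- scaling of blocks of equal coordinates -/
theorem Triple_Yl_scale (τ c b : ℝ) (f : ℝ → ℝ) (j : ℕ) (x : ℝ) :
    Yl τ (List.replicate j (c * b)) f (c * x) =
      Yl τ (List.replicate j b) (fun x => f (c * x)) x := by
  induction j generalizing x with
  | zero => simp [Yl]
  | succ j ih =>
    simp only [List.replicate_succ, Yl, List.foldr_cons] at ih ⊢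
    unfold Yop
    refine intervalIntegral.integral_congr fun t _ => ?_
    have e1 : c * x + c * b * t = c * (x + b * t) := by ring
    show E t * _ = E t * _
    rw [e1]
    congr 1
    exact ih (x + b * t)

/-- an even number of equal positive coordinates preserves the class `P` -/
theorem Triple_even {τ b : ℝ} (hτ : 0 < τ) (hb : 0 < b) {f : ℝ → ℝ} (hf : InP f) (k : ℕ) :
    InP (Yl τ (List.replicate (2 * k) b) f) := by
  have h1 : InP (Yl τ (List.replicate (2 * k) 1) (fun x => f (b * x))) :=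
    classP_even_pow hτ (InP.scale hb hf) k
  have h2 : Yl τ (List.replicate (2 * k) b) f =
      fun x => Yl τ (List.replicate (2 * k) 1) (fun x => f (b * x)) (b⁻¹ * x) := by
    funext x
    rw [← classP_Yl_scale, ← mul_assoc, mul_inv_cancel₀ hb.ne', one_mul]
  rw [h2]
  exact InP.scale (inv_pos.2 hb) h1

theorem D_pos_triple {τ y0 y e : ℝ} (hτ : 0 < τ) (hy00 : 0 < y0) (hU : U3ok τ y0) (hy0 : 0 < y)
    (hy1 : y < 1) (he : 0 < e) (r : ℕ) {l : List ℝ} (hl : ∀ b ∈ l, 0 ≤ b ∧ b ≤ y) :
    0 < D τ y (e / y0 :: e / y0 :: (List.replicate r e ++ l)) := by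
  obtain ⟨c, hc⟩ : ∃ c : ℝ, c = e / y0 := ⟨_, rfl⟩
  have hcpos : 0 < c := by rw [hc]; positivity
  have hce : c * y0 = e := by rw [hc]; field_simp
  rw [← hc, D_cons hτ hy0 hy1 hcpos]
  have hα : 0 < y * τ := mul_pos hy0 hτ
  refine mul_pos (Exch_const_pos hy0 hcpos) ?_
  obtain ⟨f0, hf0⟩ : ∃ f0 : ℝ → ℝ, f0 = Yl τ l (C τ y) := ⟨_, rfl⟩
  have hf0P : InP f0 := by
    rw [hf0]
    refine InS.toInP hα (InS.Yl hτ hα ?_ (C_inS hτ hy0 hy1))
    intro b hb
    exact ⟨(hl b hb).1, mul_le_mul_of_nonneg_right (hl b hb).2 hτ.le⟩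
  have e2 : Yl τ (c :: (List.replicate r e ++ l)) (C τ y) =
      Yop τ c (Yl τ (List.replicate r e) f0) := by
    rw [hf0]
    unfold Yl
    rw [List.foldr_cons, List.foldr_append]
  rw [e2]
  obtain ⟨f1, hf1⟩ : ∃ f1 : ℝ → ℝ, f1 = fun x => f0 (c * x) := ⟨_, rfl⟩
  have hf1P : InP f1 := by rw [hf1]; exact InP.scale hcpos hf0P
  have hY : ∀ x, Yop τ c (Yl τ (List.replicate r e) f0) (c * x) =
      Yop τ 1 (Yl τ (List.replicate r y0) f1) x := by
    intro x
    unfold Yop
    refine intervalIntegral.integral_congr fun t _ => ?_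
    have h3 : c * x + c * t = c * (x + 1 * t) := by ring
    show E t * _ = E t * _
    rw [h3, ← hce, hf1]
    congr 1
    exact Triple_Yl_scale τ c y0 f0 r (x + 1 * t)
  have h1 : Lf τ c (Yop τ c (Yl τ (List.replicate r e) f0)) =
      Lf τ 1 (Yop τ 1 (Yl τ (List.replicate r y0) f1)) := by
    unfold Lf
    rw [hY, one_mul]
    congr 1
    refine intervalIntegral.integral_congr fun t _ => ?_
    show t * E t * _ = t * E t * _
    rw [hY, one_mul]
  rw [h1]
  rcases Nat.even_or_odd' r with ⟨k, hk | hk⟩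
  · rw [hk]
    exact InP.Lf2 hτ (Triple_even hτ hy00 hf1P k)
  · have h2 : Yl τ (List.replicate r y0) f1 =
        Yop τ y0 (Yl τ (List.replicate (2 * k) y0) f1) := by
      rw [hk]
      simp only [List.replicate_succ, Yl, List.foldr_cons]
    rw [h2]
    exact hU _ (Triple_even hτ hy00 hf1P k)

end GCube
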