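import Pool.Agent.Lib.H83.U3cForm

/-!
Chunk UB: `etaY(x)/x` is nonincreasing on `[yτ, ∞)`.

`U3c_avg`: for `0 < ρ < τ`, `x ↦ (rX(x-ρ) - rX(x+ρ))/x` is nonincreasing on `[ρ,∞)`. On `[2τ+ρ,∞)` it is `0`; on `[2τ-ρ, 2τ+ρ]`
(note `ρ ≤ 2τ-ρ`) it is `rX(x-ρ)/x`, a quotient of a nonincreasing nonnegative and an increasing function; on `[ρ, 2τ-ρ]` differentiate
(interior points, `rX' = -η`, `η = etaX`): `x² f' = x(η(x+ρ) - η(x-ρ)) - (rX(x-ρ) - rX(x+ρ))`. With `h = η(v)/v`
nonincreasing on `(0,2τ]` (`U2_anti`) and `h* = h(x+ρ)`: `η(x+ρ) - η(x-ρ) ≤ (x+ρ) h* - (x-ρ) h* = 2ρ h*` and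
`rX(x-ρ) - rX(x+ρ) = ∫_{x-ρ}^{x+ρ} v h(v) dv ≥ 2xρ h*`. So `f' ≤ 0`.
`etaY_far_anti`: divide `etaY_eq` by `x`; for `x ≥ yτ`, `t ∈ [0,τ]` apply `U3c_avg` with `ρ = y t` (`y < 1`).
-/

open MeasureTheory Set
open scoped Real

namespace GCube

theorem U3cFar_near {τ ρ : ℝ} (hτ : 0 < τ) (h0 : 0 < ρ) :
    AntitoneOn (fun x => (rX τ (x - ρ) - rX τ (x + ρ)) / x) (Icc ρ (2 * τ - ρ)) := by
  have hrc := UThree_rX_continuous τ
  have hd : ∀ x ∈ Ioo ρ (2 * τ - ρ), HasDerivAt (fun x => (rX τ (x - ρ) - rX τ (x + ρ)) / x)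
      (((-(etaX τ (x - ρ)) - -(etaX τ (x + ρ))) * x - (rX τ (x - ρ) - rX τ (x + ρ)) * 1) /
        x ^ 2) x := by
    intro x hx
    have hx0 : x ≠ 0 := by
      have := hx.1
      linarith
    have h1 : HasDerivAt (fun x => rX τ (x - ρ)) (-(etaX τ (x - ρ))) x :=
      (rX_hasDerivAt hτ (by linarith [hx.1]) (by linarith [hx.2])).comp_sub_const x ρ
    have h2 : HasDerivAt (fun x => rX τ (x + ρ)) (-(etaX τ (x + ρ))) x :=
      (rX_hasDerivAt hτ (by linarith [hx.1]) (by linarith [hx.2])).comp_add_const x ρ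
    exact (h1.sub h2).div (hasDerivAt_id' x) hx0
  refine antitoneOn_of_deriv_nonpos (convex_Icc _ _) ?_ ?_ ?_
  · refine ContinuousOn.div (by fun_prop) (by fun_prop) fun x hx => ?_
    have := hx.1
    linarith
  · rw [interior_Icc]
    intro x hx
    exact (hd x hx).differentiableAt.differentiableWithinAt
  · rw [interior_Icc]
    intro x hx
    rw [(hd x hx).deriv]
    have hxρ := hx.1
    have hx2 := hx.2
    have hx0 : 0 < x := by linarith
    apply div_nonpos_of_nonpos_of_nonneg _ (by positivity)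
    have hanti := (U2_anti hτ).antitoneOn
    set hs := etaX τ (x + ρ) / (x + ρ) with hhs
    have hs1 : etaX τ (x + ρ) = (x + ρ) * hs := by
      rw [hhs]
      field_simp
    have hle : ∀ v : ℝ, 0 < v → v ≤ x + ρ → v * hs ≤ etaX τ v := by
      intro v hv hv2
      have h3 := hanti (show v ∈ Ioc 0 (2 * τ) from ⟨hv, by linarith⟩)
        (show x + ρ ∈ Ioc 0 (2 * τ) from ⟨by linarith, by linarith⟩) hv2
      simp only at h3
      rw [le_div_iff₀ hv] at h3
      linarith
    have h4 : (x - ρ) * hs ≤ etaX τ (x - ρ) := hle _ (by linarith) (by linarith)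
    have h5 : AntitoneOn (fun v => rX τ v + hs * v ^ 2 / 2) (Icc (x - ρ) (x + ρ)) := by
      have hd2 : ∀ v ∈ Ioo (x - ρ) (x + ρ), HasDerivAt (fun v => rX τ v + hs * v ^ 2 / 2)
          (-(etaX τ v) + hs * v) v := by
        intro v hv
        have h6 := rX_hasDerivAt hτ (x := v) (by linarith [hv.1]) (by linarith [hv.2])
        have h7 : HasDerivAt (fun v : ℝ => hs * v ^ 2 / 2) (hs * v) v := by
          refine (((hasDerivAt_pow 2 v).const_mul hs).div_const 2).congr_deriv ?_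
          norm_num
          ring
        exact h6.add h7
      refine antitoneOn_of_deriv_nonpos (convex_Icc _ _) ?_ ?_ ?_
      · fun_prop
      · rw [interior_Icc]
        intro v hv
        exact (hd2 v hv).differentiableAt.differentiableWithinAt
      · rw [interior_Icc]
        intro v hv
        rw [(hd2 v hv).deriv]
        have := hle v (by linarith [hv.1]) hv.2.le
        linarith
    have h8 := h5 (left_mem_Icc.2 (by linarith)) (right_mem_Icc.2 (by linarith))
      (by linarith : x - ρ ≤ x + ρ)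
    simp only at h8
    rw [hs1]
    have h9 : rX τ (x + ρ) + 2 * x * ρ * hs ≤ rX τ (x - ρ) := by
      have e : hs * (x + ρ) ^ 2 / 2 - hs * (x - ρ) ^ 2 / 2 = 2 * x * ρ * hs := by ring
      linarith
    have h10 : (-(etaX τ (x - ρ)) - -((x + ρ) * hs)) * x ≤ 2 * x * ρ * hs := by
      have : -(etaX τ (x - ρ)) - -((x + ρ) * hs) ≤ 2 * ρ * hs := by linarith
      calc _ ≤ (2 * ρ * hs) * x := mul_le_mul_of_nonneg_right this hx0.le
        _ = _ := by ring
    linarith

theorem U3cFar_mid {τ ρ : ℝ} (h0 : 0 < ρ) (h1 : ρ < τ) :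
    AntitoneOn (fun x => (rX τ (x - ρ) - rX τ (x + ρ)) / x) (Ici (2 * τ - ρ)) := by
  intro a ha b hb hab
  rw [mem_Ici] at ha hb
  have hz : ∀ c : ℝ, 2 * τ - ρ ≤ c → rX τ (c + ρ) = 0 := by
    intro c hc
    apply UThree_rX_zero
    rw [abs_of_nonneg (by linarith)]
    linarith
  simp only
  rw [hz a ha, hz b hb, sub_zero, sub_zero]
  have h2 : rX τ (b - ρ) ≤ rX τ (a - ρ) := by
    apply UThree_rX_anti
    rw [abs_of_nonneg (by linarith), abs_of_nonneg (by linarith)]
    linarith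
  have h3 := UThree_rX_nonneg τ (a - ρ)
  exact div_le_div₀ h3 h2 (by linarith) hab

theorem U3c_avg {τ ρ : ℝ} (hτ : 0 < τ) (h0 : 0 < ρ) (h1 : ρ < τ) :
    AntitoneOn (fun x => (rX τ (x - ρ) - rX τ (x + ρ)) / x) (Ici ρ) := by
  have h2 := (U3cFar_near hτ h0).union_right (U3cFar_mid h0 h1)
    (isGreatest_Icc (by linarith)) isLeast_Ici
  rwa [Icc_union_Ici_eq_Ici (by linarith)] at h2

theorem etaY_far_anti {τ y : ℝ} (hτ : 0 < τ) (hy : 0 < y) (hy1 : y < 1) :
    AntitoneOn (fun x => etaY τ y x / x) (Ici (y * τ)) := by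
  have hrc := UThree_rX_continuous τ
  have hE : Continuous E := E_continuous
  have hyτ : 0 < y * τ := by positivity
  have hyτ1 : y * τ < τ := by nlinarith
  have key : ∀ x : ℝ, y * (etaY τ y x / x) = E τ * ((rX τ (x - y * τ) - rX τ (x + y * τ)) / x) +
      ∫ t in (0 : ℝ)..τ, t * E t * ((rX τ (x - y * t) - rX τ (x + y * t)) / x) := by
    intro x
    have h1 : ∫ t in (0 : ℝ)..τ, t * E t * ((rX τ (x - y * t) - rX τ (x + y * t)) / x) =
        (∫ t in (0 : ℝ)..τ, t * E t * (rX τ (x - y * t) - rX τ (x + y * t))) / x := by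
      rw [← intervalIntegral.integral_div]
      refine intervalIntegral.integral_congr fun t _ => ?_
      ring
    rw [h1, ← mul_div_assoc, etaY_eq hτ hy]
    ring
  intro a ha b hb hab
  rw [mem_Ici] at ha hb
  have ha0 : 0 < a := by linarith
  have hb0 : 0 < b := by linarith
  simp only
  refine le_of_mul_le_mul_left ?_ hy
  rw [key, key]
  have h2 : E τ * ((rX τ (b - y * τ) - rX τ (b + y * τ)) / b) ≤
      E τ * ((rX τ (a - y * τ) - rX τ (a + y * τ)) / a) :=
    mul_le_mul_of_nonneg_left (U3c_avg hτ hyτ hyτ1 ha hb hab) (E_pos τ).le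
  have h3 : ∫ t in (0 : ℝ)..τ, t * E t * ((rX τ (b - y * t) - rX τ (b + y * t)) / b) ≤
      ∫ t in (0 : ℝ)..τ, t * E t * ((rX τ (a - y * t) - rX τ (a + y * t)) / a) := by
    apply intervalIntegral.integral_mono_on hτ.le
    · exact Continuous.intervalIntegrable (by fun_prop) _ _
    · exact Continuous.intervalIntegrable (by fun_prop) _ _
    · intro t ht
      apply mul_le_mul_of_nonneg_left _ (mul_nonneg ht.1 (E_pos t).le)
      rcases eq_or_lt_of_le ht.1 with h4 | h4
      · rw [← h4]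
        simp
      · have h5 : y * t ≤ y * τ := mul_le_mul_of_nonneg_left ht.2 hy.le
        exact U3c_avg hτ (by positivity) (by linarith) (mem_Ici.2 (by linarith))
          (mem_Ici.2 (by linarith)) hab
  linarith

end GCube
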