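import Pool.Agent.Lib.H83.ClassP

/-!
Chunk UA: the formula `L_1(Y_1 Y_y f) = ∫_0^{(2+y)τ} etaY f`.

`etaO` = odd extension of `etaX`, `etaY(x) = ∫_{-τ}^τ E(t) etaO(x - y t) dt`.

* `rX' = -etaO` off the points `0, ±2τ` (`rX_hasDerivAt`/`UThree_S_hasDerivAt` on `(0,2τ)`, evenness, zero outside).
* `etaY_eq`: `t ↦ E(t) rX(x - y t)` is continuous with derivative `-t E(t) rX(x - y t) + y E(t) etaO(x - y t)` off at most three
  points (`MeasureTheory.integral_eq_of_hasDerivAt_off_countable_of_le`); integrate over `[-τ,τ]`, fold `t ↦ -t`.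
* `etaY_nonneg`: `|x - yt| ≤ |x + yt|` for `x, t ≥ 0`, `UThree_rX_anti`. `etaY_zero`: all four `rX` vanish (`UThree_rX_zero`).
* `Lf_Y1Y`: `Lf_Y1` gives `∫_0^{2τ} etaX · (Y_y f) = (1/2) ∫ etaO (Y_y f)` (both odd) `= (1/2) ∫∫ etaO(v) E(t) f(v + y t) dt dv`
  `= (1/2) ∫ f(x) etaY(x) dx` (Fubini as in `classP_conv`, `x = v + yt`, bounded functions with compact support), fold.
-/

open MeasureTheory Set
open scoped Real

namespace GCube

/-- odd extension of `etaX` -/
noncomputable def etaO (τ v : ℝ) : ℝ := if 0 ≤ v then etaX τ v else - etaX τ (-v)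

noncomputable def etaY (τ y x : ℝ) : ℝ := ∫ t in (-τ)..τ, E t * etaO τ (x - y * t)

theorem U3cForm_etaX_nonpos {τ v : ℝ} (hv : v ≤ 0) : etaX τ v = 0 := by
  unfold etaX
  rw [if_neg]
  intro h
  linarith [h.1]

theorem U3cForm_etaX_large {τ v : ℝ} (hv : 2 * τ < v) : etaX τ v = 0 := by
  unfold etaX
  rw [if_neg]
  intro h
  linarith [h.2]

theorem U3cForm_etaO_eq (τ v : ℝ) : etaO τ v = etaX τ v - etaX τ (-v) := by
  unfold etaO
  split_ifs with h
  · rw [U3cForm_etaX_nonpos (v := -v) (by linarith)]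
    ring
  · rw [U3cForm_etaX_nonpos (v := v) (by linarith)]
    ring

theorem U3cForm_etaO_odd (τ v : ℝ) : etaO τ (-v) = - etaO τ v := by
  rw [U3cForm_etaO_eq, U3cForm_etaO_eq, neg_neg]
  ring

theorem U3cForm_etaO_nice {τ : ℝ} (hτ : 0 ≤ τ) : CNice (etaO τ) := by
  have h := classP_etaX_nice hτ
  obtain ⟨M, hM0, hM⟩ := h.bdd
  obtain ⟨R, hR0, hR⟩ := h.supp
  refine ⟨?_, ⟨M + M, by linarith, fun x => ?_⟩, ⟨R, hR0, fun x hx => ?_⟩⟩
  · have e : etaO τ = fun v => etaX τ v - etaX τ (-v) := funext (U3cForm_etaO_eq τ)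
    rw [e]
    exact h.meas.sub (h.meas.comp measurable_neg)
  · rw [U3cForm_etaO_eq]
    exact (abs_sub _ _).trans (add_le_add (hM _) (hM _))
  · rw [U3cForm_etaO_eq, hR x hx, hR (-x) (by rwa [abs_neg])]
    ring

theorem rX_hasDerivAt_O {τ v : ℝ} (hτ : 0 < τ) (h0 : v ≠ 0) (h1 : |v| ≠ 2 * τ) :
    HasDerivAt (rX τ) (-(etaO τ v)) v := by
  have main : ∀ v : ℝ, 0 < v → |v| ≠ 2 * τ → HasDerivAt (rX τ) (-(etaX τ v)) v := by
    intro v hv h1
    rw [abs_of_pos hv] at h1
    rcases lt_or_gt_of_ne h1 with h | h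
    · exact rX_hasDerivAt hτ hv h
    · rw [U3cForm_etaX_large h, neg_zero]
      refine (hasDerivAt_const v (0 : ℝ)).congr_of_eventuallyEq ?_
      filter_upwards [Ioi_mem_nhds h] with z hz
      have hz' : 2 * τ < z := hz
      exact UThree_rX_zero (by rw [abs_of_pos (by linarith)]; exact hz'.le)
  rcases lt_or_gt_of_ne h0 with hv | hv
  · have h2 := main (-v) (by linarith) (by rwa [abs_neg])
    have h3 : HasDerivAt (fun z : ℝ => -z) (-1) v := hasDerivAt_neg' v
    have h4 := h2.comp v h3
    have h5 : (rX τ ∘ fun z : ℝ => -z) = rX τ := by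
      funext z
      simp only [Function.comp]
      exact UThree_rX_even τ z
    rw [h5] at h4
    refine h4.congr_deriv ?_
    rw [U3cForm_etaO_eq, U3cForm_etaX_nonpos hv.le]
    ring
  · have h2 := main v hv h1
    refine h2.congr_deriv ?_
    rw [U3cForm_etaO_eq, U3cForm_etaX_nonpos (v := -v) (by linarith)]
    ring

theorem U3cForm_comp_integrable {τ y x : ℝ} (hτ : 0 < τ) (a b : ℝ) :
    IntervalIntegrable (fun t => E t * etaO τ (x - y * t)) volume a b := by
  have h := U3cForm_etaO_nice hτ.le
  obtain ⟨M, hM0, hM⟩ := h.bdd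
  have hm : Measurable (fun t => etaO τ (x - y * t)) := h.meas.comp (by fun_prop)
  rw [intervalIntegrable_iff]
  apply Measure.integrableOn_of_bounded (M := M)
  · simp [uIoc]
  · exact (E_continuous.measurable.mul hm).aestronglyMeasurable
  · refine Filter.Eventually.of_forall fun t => ?_
    rw [Real.norm_eq_abs, abs_mul, abs_of_pos (E_pos t)]
    calc E t * |etaO τ (x - y * t)| ≤ 1 * M :=
          mul_le_mul (UThree_E_le_one t) (hM _) (abs_nonneg _) zero_le_one
      _ = M := one_mul M

theorem etaY_eq {τ y x : ℝ} (hτ : 0 < τ) (hy : 0 < y) :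
    y * etaY τ y x = E τ * (rX τ (x - y * τ) - rX τ (x + y * τ)) +
      ∫ t in (0 : ℝ)..τ, t * E t * (rX τ (x - y * t) - rX τ (x + y * t)) := by
  have hrc := UThree_rX_continuous τ
  have hE : Continuous E := E_continuous
  have hcont : Continuous fun t : ℝ => E t * rX τ (x - y * t) := by fun_prop
  have hc2 : Continuous fun t : ℝ => t * E t * rX τ (x - y * t) := by fun_prop
  have hc3 : Continuous fun t : ℝ => -(t * E t * rX τ (x + y * t)) := by fun_prop
  set s : Set ℝ := {x / y, (x - 2 * τ) / y, (x + 2 * τ) / y} with hs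
  have hsc : s.Countable := (Set.toFinite s).countable
  have hd : ∀ t ∈ Ioo (-τ) τ \ s, HasDerivAt (fun t => E t * rX τ (x - y * t))
      (-(t * E t * rX τ (x - y * t)) + y * (E t * etaO τ (x - y * t))) t := by
    rintro t ⟨-, ht⟩
    rw [hs] at ht
    simp only [mem_insert_iff, mem_singleton_iff, not_or] at ht
    obtain ⟨h1, h2, h3⟩ := ht
    have e1 : x - y * t ≠ 0 := by
      intro h
      apply h1
      field_simp
      linarith
    have e2 : |x - y * t| ≠ 2 * τ := by
      intro h
      rcases abs_cases (x - y * t) with ⟨h4, -⟩ | ⟨h4, -⟩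
      · apply h2
        field_simp
        linarith
      · apply h3
        field_simp
        linarith
    have h5 : HasDerivAt (fun t : ℝ => x - y * t) (-y) t := by
      simpa using ((hasDerivAt_id t).const_mul y).const_sub x
    have h6 := (rX_hasDerivAt_O hτ e1 e2).comp t h5
    refine ((UThree_E_hasDerivAt t).mul h6).congr_deriv ?_
    simp only [Function.comp]
    ring
  have hi1 : IntervalIntegrable (fun t => -(t * E t * rX τ (x - y * t))) volume (-τ) τ :=
    hc2.neg.intervalIntegrable _ _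
  have hi2 : IntervalIntegrable (fun t => y * (E t * etaO τ (x - y * t))) volume (-τ) τ :=
    (U3cForm_comp_integrable hτ _ _).const_mul y
  have h := MeasureTheory.integral_eq_of_hasDerivAt_off_countable_of_le
    (fun t => E t * rX τ (x - y * t)) _ (by linarith : -τ ≤ τ) hsc hcont.continuousOn hd
    (hi1.add hi2)
  rw [intervalIntegral.integral_add hi1 hi2, intervalIntegral.integral_neg,
    intervalIntegral.integral_const_mul, E_neg] at h
  have h7 : ∫ t in (-τ)..τ, t * E t * rX τ (x - y * t) =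
      ∫ t in (0 : ℝ)..τ, t * E t * (rX τ (x - y * t) - rX τ (x + y * t)) := by
    rw [← intervalIntegral.integral_add_adjacent_intervals (hc2.intervalIntegrable (-τ) 0)
      (hc2.intervalIntegrable 0 τ)]
    have h8 : ∫ t in (-τ)..(0 : ℝ), t * E t * rX τ (x - y * t) =
        ∫ t in (0 : ℝ)..τ, -(t * E t * rX τ (x + y * t)) := by
      have h9 := intervalIntegral.integral_comp_neg (fun t => t * E t * rX τ (x - y * t))
        (a := 0) (b := τ)
      rw [neg_zero] at h9
      rw [← h9]
      refine intervalIntegral.integral_congr fun t _ => ?_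
      rw [E_neg]
      have : x - y * -t = x + y * t := by ring
      rw [this]
      ring
    rw [h8, ← intervalIntegral.integral_add (hc3.intervalIntegrable _ _)
      (hc2.intervalIntegrable _ _)]
    refine intervalIntegral.integral_congr fun t _ => ?_
    ring
  unfold etaY
  rw [← h7]
  have h10 : x - y * -τ = x + y * τ := by ring
  rw [h10] at h
  linarith

theorem etaY_cont {τ y : ℝ} (hτ : 0 < τ) (hy : 0 < y) : Continuous (etaY τ y) := by
  have hrc := UThree_rX_continuous τ
  have hE : Continuous E := E_continuous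
  have h1 : etaY τ y = fun x => (1 / y) * (E τ * (rX τ (x - y * τ) - rX τ (x + y * τ)) +
      ∫ t in (0 : ℝ)..τ, t * E t * (rX τ (x - y * t) - rX τ (x + y * t))) := by
    funext x
    rw [← etaY_eq hτ hy]
    field_simp
  rw [h1]
  have h2 : Continuous fun x : ℝ => ∫ t in (0 : ℝ)..τ, t * E t *
      (rX τ (x - y * t) - rX τ (x + y * t)) := by
    apply intervalIntegral.continuous_parametric_intervalIntegral_of_continuous'
    unfold Function.uncurry
    fun_prop
  fun_prop

theorem etaY_nonneg {τ y x : ℝ} (hτ : 0 < τ) (hy : 0 < y) (hx : 0 ≤ x) : 0 ≤ etaY τ y x := by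
  have key : ∀ t : ℝ, 0 ≤ t → 0 ≤ rX τ (x - y * t) - rX τ (x + y * t) := by
    intro t ht
    have h1 : 0 ≤ y * t := by positivity
    have : rX τ (x + y * t) ≤ rX τ (x - y * t) := by
      apply UThree_rX_anti
      rw [abs_of_nonneg (by linarith : (0 : ℝ) ≤ x + y * t), abs_le]
      constructor <;> linarith
    linarith
  have h2 := etaY_eq (x := x) hτ hy
  have h3 : 0 ≤ ∫ t in (0 : ℝ)..τ, t * E t * (rX τ (x - y * t) - rX τ (x + y * t)) :=
    intervalIntegral.integral_nonneg hτ.le
      (fun t ht => mul_nonneg (mul_nonneg ht.1 (E_pos t).le) (key t ht.1))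
  have h4 : 0 ≤ E τ * (rX τ (x - y * τ) - rX τ (x + y * τ)) :=
    mul_nonneg (E_pos τ).le (key τ hτ.le)
  have h5 : 0 ≤ y * etaY τ y x := by rw [h2]; linarith
  exact nonneg_of_mul_nonneg_right h5 hy

theorem etaY_zero {τ y x : ℝ} (hτ : 0 < τ) (hy : 0 < y) (hx : (2 + y) * τ ≤ x) : etaY τ y x = 0 := by
  have key : ∀ t : ℝ, 0 ≤ t → t ≤ τ → rX τ (x - y * t) - rX τ (x + y * t) = 0 := by
    intro t ht ht2
    have h1 : 0 ≤ y * t := by positivity
    have h2 : y * t ≤ y * τ := mul_le_mul_of_nonneg_left ht2 hy.le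
    rw [UThree_rX_zero, UThree_rX_zero, sub_zero]
    · rw [abs_of_nonneg (by nlinarith)]
      nlinarith
    · rw [abs_of_nonneg (by nlinarith)]
      nlinarith
  have h2 := etaY_eq (x := x) hτ hy
  rw [key τ hτ.le le_rfl, mul_zero, zero_add] at h2
  have h3 : ∫ t in (0 : ℝ)..τ, t * E t * (rX τ (x - y * t) - rX τ (x + y * t)) = 0 := by
    rw [intervalIntegral.integral_congr (g := fun _ => (0 : ℝ))]
    · simp
    · intro t ht
      rw [uIcc_of_le hτ.le] at ht
      simp only
      rw [key t ht.1 ht.2, mul_zero]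
  rw [h3] at h2
  exact (mul_eq_zero.mp h2).resolve_left hy.ne'

theorem U3cForm_etaY_odd {τ y : ℝ} (x : ℝ) : etaY τ y (-x) = - etaY τ y x := by
  unfold etaY
  have h := intervalIntegral.integral_comp_neg (fun t => E t * etaO τ (-x - y * t))
    (a := -τ) (b := τ)
  rw [neg_neg] at h
  rw [← h, ← intervalIntegral.integral_neg]
  refine intervalIntegral.integral_congr fun t _ => ?_
  rw [E_neg, ← mul_neg, ← U3cForm_etaO_odd]
  congr 2
  ring

theorem Lf_Y1Y {τ y : ℝ} (hτ : 0 < τ) (hy : 0 < y) {f : ℝ → ℝ} (hc : Continuous f)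
    (ho : ∀ x, f (-x) = - f x) :
    Lf τ 1 (Yop τ 1 (Yop τ y f)) = ∫ x in (0 : ℝ)..((2 + y) * τ), etaY τ y x * f x := by
  have hYc := classP_Yop_continuous (τ := τ) y hc
  have hYo : ∀ x, Yop τ y f (-x) = - Yop τ y f x := classP_Yop_odd y ho
  have hO := U3cForm_etaO_nice hτ.le
  have hk := classP_k_nice hτ.le
  -- scaled kernel
  set b : ℝ → ℝ := fun u => classP_k τ (u / y) / y with hb
  have hbn : CNice b := by
    obtain ⟨M, hM0, hM⟩ := hk.bdd
    obtain ⟨R, hR0, hR⟩ := hk.supp
    refine ⟨?_, ⟨M / y, by positivity, fun x => ?_⟩, ⟨y * R, by positivity, fun x hx => ?_⟩⟩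
    · have := hk.meas
      fun_prop
    · rw [hb]
      simp only
      rw [abs_div, abs_of_pos hy]
      exact div_le_div_of_nonneg_right (hM _) hy.le
    · rw [hb]
      simp only
      rw [hR, zero_div]
      rw [abs_div, abs_of_pos hy, lt_div_iff₀ hy]
      linarith
  -- `Yop` as a convolution
  have hY : ∀ v, Yop τ y f v = ∫ u, b u * f (v + u) := by
    intro v
    have h1 : ∫ u, b u * f (v + u) = ∫ t, classP_k τ t * f (v + y * t) := by
      have h2 := Measure.integral_comp_mul_left (fun u => b u * f (v + u)) y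
      rw [smul_eq_mul, abs_of_pos (inv_pos.mpr hy)] at h2
      have h3 : ∫ u, b u * f (v + u) = y * ∫ t, b (y * t) * f (v + y * t) := by
        rw [h2, ← mul_assoc, mul_inv_cancel₀ hy.ne', one_mul]
      rw [h3, ← integral_const_mul]
      refine integral_congr_ae (Filter.Eventually.of_forall fun t => ?_)
      simp only [hb]
      rw [mul_div_cancel_left₀ _ hy.ne']
      field_simp
    rw [h1, classP_k_int hτ.le fun t => f (v + y * t)]
    rfl
  -- the convolution of the kernels
  have hconv : ∀ x, ∫ t, etaO τ t * b (x - t) = etaY τ y x := by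
    intro x
    rw [classP_conv_comm]
    have h2 := Measure.integral_comp_mul_left (fun u => b u * etaO τ (x - u)) y
    rw [smul_eq_mul, abs_of_pos (inv_pos.mpr hy)] at h2
    have h3 : ∫ u, b u * etaO τ (x - u) = y * ∫ t, b (y * t) * etaO τ (x - y * t) := by
      rw [h2, ← mul_assoc, mul_inv_cancel₀ hy.ne', one_mul]
    rw [h3, ← integral_const_mul]
    have h4 : ∫ t, y * (b (y * t) * etaO τ (x - y * t)) =
        ∫ t, classP_k τ t * etaO τ (x - y * t) := by
      refine integral_congr_ae (Filter.Eventually.of_forall fun t => ?_)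
      simp only [hb]
      rw [mul_div_cancel_left₀ _ hy.ne']
      field_simp
    rw [h4, classP_k_int hτ.le fun t => etaO τ (x - y * t)]
    rfl
  rw [Lf_Y1 hτ hYc hYo]
  have h1 : ∫ v, etaO τ v * Yop τ y f v = 2 * ∫ x in (0 : ℝ)..(2 * τ), etaX τ x * Yop τ y f x := by
    have hn := (hO.mul_cont hYc).integrable
    rw [classP_fold hn (R := 2 * τ) (by linarith), ← intervalIntegral.integral_const_mul]
    · rw [intervalIntegral.integral_of_le (by linarith),
        intervalIntegral.integral_of_le (by linarith)]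
      refine setIntegral_congr_fun measurableSet_Ioc fun x hx => ?_
      rw [hYo, U3cForm_etaO_odd, U3cForm_etaO_eq,
        U3cForm_etaX_nonpos (v := -x) (by linarith [hx.1])]
      ring
    · intro x hx
      have : etaO τ x = 0 := by
        rw [U3cForm_etaO_eq]
        rcases abs_cases x with ⟨h4, -⟩ | ⟨h4, -⟩
        · rw [U3cForm_etaX_large (v := x) (by linarith),
            U3cForm_etaX_nonpos (v := -x) (by linarith [abs_nonneg x])]
          ring
        · rw [U3cForm_etaX_large (v := -x) (by linarith),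
            U3cForm_etaX_nonpos (v := x) (by linarith [abs_nonneg x])]
          ring
      rw [this, zero_mul]
  have h2 : ∫ v, etaO τ v * Yop τ y f v = ∫ x, etaY τ y x * f x := by
    simp only [hY]
    rw [classP_conv hO hbn hc]
    simp only [hconv]
  have hYn : Integrable fun x => etaY τ y x * f x := by
    have hcy : Continuous fun x => etaY τ y x * f x := (etaY_cont hτ hy).mul hc
    refine hcy.integrable_of_hasCompactSupport ?_
    refine HasCompactSupport.intro (K := Icc (-((2 + y) * τ)) ((2 + y) * τ)) isCompact_Icc ?_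
    intro x hx
    have h3 : etaY τ y x = 0 := by
      rcases le_total 0 x with h0 | h0
      · refine etaY_zero hτ hy ?_
        by_contra hcon
        exact hx ⟨by nlinarith, by linarith⟩
      · have h4 := U3cForm_etaY_odd (τ := τ) (y := y) (-x)
        rw [neg_neg] at h4
        rw [h4, etaY_zero hτ hy, neg_zero]
        by_contra hcon
        exact hx ⟨by linarith, by nlinarith⟩
    rw [h3, zero_mul]
  have h3 : ∫ x, etaY τ y x * f x = 2 * ∫ x in (0 : ℝ)..((2 + y) * τ), etaY τ y x * f x := by
    rw [classP_fold hYn (R := (2 + y) * τ) (by positivity),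
      ← intervalIntegral.integral_const_mul]
    · refine intervalIntegral.integral_congr fun x _ => ?_
      rw [U3cForm_etaY_odd, ho]
      ring
    · intro x hx
      have h4 : etaY τ y x = 0 := by
        rcases abs_cases x with ⟨h5, -⟩ | ⟨h5, -⟩
        · exact etaY_zero hτ hy (by linarith)
        · have h6 := U3cForm_etaY_odd (τ := τ) (y := y) (-x)
          rw [neg_neg] at h6
          rw [h6, etaY_zero hτ hy (by linarith), neg_zero]
      rw [h4, zero_mul]
  linarith

end GCube
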