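import Pool.Agent.Lib.H83.U3cNear

/-!
Chunk UC2: the derivative of `U3c_m`.

`m = U3c_m`, `m'(v) = S(v) v (v²/8 - 3/4) + g E(τ-v)(τ² - 2 - (5/2)τv + (7/4)v²)`, `S = UThree_S τ` (`UThree_q_hasDerivAt`), `g = E τ`.
Case 1 (`τ² ≤ 2`): on `[0,2yτ]`, `v² ≤ 6`, and the convex quadratic is `≤ 0` at `0` and at `2yτ`
(`τ² - 2 - 5yτ² + 7y²τ²`), so `m' ≤ 0`.
Case 2 (`τ² ≥ 2`): on `[0,1.64]`, `m'(v) ≤ 0.3 g - 0.2 v`: with `z = τ - v` the second term is
`g E(z)(z² - zv/2 + v²/4 - 2)`; for `z ≥ 0.82` the bracket is `≤ z² - 2` (`v²/4 - zv/2 = v(v - 2z)/4 ≤ 0`) and `E(z)(z²-2) ≤ 2e^{-2} ≤ 0.28`; for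
`z ≤ 0.82` (`z ≥ √2 - 1.64 > -0.23`) the bracket is `≤ 0`. And `S(v)(3/4 - v²/8) ≥ 0.2`: decreasing in `v`, increasing in `τ`; at
`v = 1.64`, `τ = √2`: `2 e^{-0.6724} EE(0.594) · 0.4138 = 0.2243` (`EE(r) ≥ r - r³/3`).
-/

open MeasureTheory Set
open scoped Real

namespace GCube

lemma UC2_Ed (τ v : ℝ) : HasDerivAt (fun v => E (τ - v)) ((τ - v) * E (τ - v)) v := by
  unfold E
  have h : HasDerivAt (fun v : ℝ => -((τ - v) ^ 2) / 2) (τ - v) v := by
    have h1 := ((hasDerivAt_id' v).const_sub τ)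
    have h2 := ((h1.pow 2).neg).div_const 2
    refine h2.congr_deriv ?_
    norm_num
  refine (h.exp).congr_deriv ?_
  ring

lemma UC2_m_hasDerivAt (τ v : ℝ) : HasDerivAt (U3c_m τ)
    (UThree_S τ v * (v * (v ^ 2 / 8 - 3 / 4)) +
      E τ * (E (τ - v) * (τ ^ 2 - 2 - 5 / 2 * τ * v + 7 / 4 * v ^ 2))) v := by
  unfold U3c_m
  have h1 := (UThree_q_hasDerivAt τ v).neg
  have h2 : HasDerivAt (fun v : ℝ => τ - 3 * v / 2) (-(3 / 2)) v := by
    have := (((hasDerivAt_id' v).const_mul 3).div_const 2).const_sub τ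
    refine this.congr_deriv ?_
    ring
  have h3 := ((UC2_Ed τ v).const_mul (E τ)).mul h2
  refine (h1.add h3).congr_deriv ?_
  ring

theorem U3c_m_case1 {τ y : ℝ} (hτ : 0 < τ) (hy : 0 < y) (hy1 : y < 1)
    (h : τ ^ 2 ≤ 2 ∧ τ ^ 2 * (1 - 5 * y + 7 * y ^ 2) ≤ 2 ∧ y ^ 2 * τ ^ 2 ≤ 3 / 2) :
    AntitoneOn (U3c_m τ) (Icc 0 (2 * y * τ)) := by
  apply antitoneOn_of_deriv_nonpos (convex_Icc _ _) (UC1_m_cont τ).continuousOn
  · intro v _
    exact (UC2_m_hasDerivAt τ v).differentiableAt.differentiableWithinAt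
  · intro v hv
    rw [interior_Icc] at hv
    rw [(UC2_m_hasDerivAt τ v).deriv]
    obtain ⟨h1, h2, h3⟩ := h
    have hv0 := hv.1
    have hv1 := hv.2
    have hyτ : 0 < y * τ := by positivity
    have hS : 0 ≤ UThree_S τ v := UThree_S_nonneg hv0.le (by nlinarith)
    have hvv : v ^ 2 ≤ 6 := by
      have : v ^ 2 ≤ (2 * y * τ) ^ 2 := pow_le_pow_left₀ hv0.le hv1.le 2
      nlinarith
    have hq : τ ^ 2 - 2 - 5 / 2 * τ * v + 7 / 4 * v ^ 2 ≤ 0 := by
      set V := 2 * y * τ with hV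
      have hV0 : 0 < V := by rw [hV]; positivity
      have e1 : τ ^ 2 - 2 - 5 / 2 * τ * V + 7 / 4 * V ^ 2 ≤ 0 := by
        rw [hV]; nlinarith
      -- V * Q(v) ≤ (V - v) Q(0) + v Q(V)
      have e2 : V * (τ ^ 2 - 2 - 5 / 2 * τ * v + 7 / 4 * v ^ 2) =
          (V - v) * (τ ^ 2 - 2) + v * (τ ^ 2 - 2 - 5 / 2 * τ * V + 7 / 4 * V ^ 2) -
          7 / 4 * (V * v * (V - v)) := by ring
      have e3 : (V - v) * (τ ^ 2 - 2) ≤ 0 :=
        mul_nonpos_of_nonneg_of_nonpos (by linarith) (by linarith)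
      have e4 : v * (τ ^ 2 - 2 - 5 / 2 * τ * V + 7 / 4 * V ^ 2) ≤ 0 :=
        mul_nonpos_of_nonneg_of_nonpos hv0.le e1
      have e5 : 0 ≤ V * v * (V - v) := by
        apply mul_nonneg (by positivity); linarith
      by_contra hcon
      push Not at hcon
      have := mul_pos hV0 hcon
      linarith
    have t1 : UThree_S τ v * (v * (v ^ 2 / 8 - 3 / 4)) ≤ 0 := by
      apply mul_nonpos_of_nonneg_of_nonpos hS
      apply mul_nonpos_of_nonneg_of_nonpos hv0.le
      linarith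
    have t2 : E τ * (E (τ - v) * (τ ^ 2 - 2 - 5 / 2 * τ * v + 7 / 4 * v ^ 2)) ≤ 0 := by
      have a1 : 0 ≤ E τ := by unfold E; positivity
      have a2 : 0 ≤ E (τ - v) := by unfold E; positivity
      exact mul_nonpos_of_nonneg_of_nonpos a1 (mul_nonpos_of_nonneg_of_nonpos a2 hq)
    linarith

lemma UC2_EE_lower {r : ℝ} (hr : 0 ≤ r) : r - r ^ 3 / 3 ≤ EE r := by
  have hd : ∀ x : ℝ, HasDerivAt (fun x => EE x - x + x ^ 3 / 3) (Real.exp (-(x ^ 2)) - 1 + x ^ 2) x := by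
    intro x
    have h3 : HasDerivAt (fun x : ℝ => x ^ 3 / 3) (x ^ 2) x := by
      have := (hasDerivAt_pow 3 x).div_const 3
      refine this.congr_deriv ?_
      norm_num
    exact ((UTwo_EE_hasDerivAt x).sub (hasDerivAt_id' x)).add h3
  have hm : Monotone (fun x => EE x - x + x ^ 3 / 3) :=
    monotone_of_deriv_nonneg (fun x => (hd x).differentiableAt) (fun x => by
      rw [(hd x).deriv]
      have := Real.add_one_le_exp (-(x ^ 2))
      linarith)
  have := hm hr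
  simp only [UThree_EE_zero] at this
  norm_num at this
  linarith

theorem U3c_m_case2 {τ : ℝ} (hτ : 0 < τ) (h : 2 ≤ τ ^ 2) :
    AntitoneOn (fun v => U3c_m τ v - 3 / 10 * E τ * v + 1 / 10 * v ^ 2) (Icc 0 (164 / 100)) := by
  have hd : ∀ v : ℝ, HasDerivAt (fun v => U3c_m τ v - 3 / 10 * E τ * v + 1 / 10 * v ^ 2)
      ((UThree_S τ v * (v * (v ^ 2 / 8 - 3 / 4)) +
      E τ * (E (τ - v) * (τ ^ 2 - 2 - 5 / 2 * τ * v + 7 / 4 * v ^ 2))) - 3 / 10 * E τ +
      1 / 5 * v) v := by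
    intro v
    have h1 : HasDerivAt (fun v : ℝ => 3 / 10 * E τ * v) (3 / 10 * E τ) v := by
      simpa using (hasDerivAt_id' v).const_mul (3 / 10 * E τ)
    have h2 : HasDerivAt (fun v : ℝ => 1 / 10 * v ^ 2) (1 / 5 * v) v := by
      have := (hasDerivAt_pow 2 v).const_mul (1 / 10)
      refine this.congr_deriv ?_
      norm_num
      ring
    exact ((UC2_m_hasDerivAt τ v).sub h1).add h2
  apply antitoneOn_of_deriv_nonpos (convex_Icc _ _)
  · exact fun v _ => (hd v).continuousAt.continuousWithinAt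
  · exact fun v _ => (hd v).differentiableAt.differentiableWithinAt
  · intro v hv
    rw [interior_Icc] at hv
    rw [(hd v).deriv]
    have hv0 := hv.1
    have hv1 := hv.2
    have hτ2 : 1414 / 1000 ≤ τ := by nlinarith
    have g0 : 0 ≤ E τ := by unfold E; positivity
    -- claim B
    have hvv : v ^ 2 ≤ (164 / 100) ^ 2 := pow_le_pow_left₀ hv0.le hv1.le 2
    have hEE : (524 / 1000 : ℝ) ≤ EE (τ - v / 2) := by
      have h1 : (594 / 1000 : ℝ) ≤ τ - v / 2 := by linarith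
      refine le_trans ?_ (UThree_EE_mono h1)
      refine le_trans ?_ (UC2_EE_lower (by norm_num))
      norm_num
    have hexp : (478 / 1000 : ℝ) ≤ Real.exp (-(v ^ 2) / 4) := by
      have h1 : (8319 / 10000 : ℝ) ≤ Real.exp (-(v ^ 2) / 16) := by
        have := Real.add_one_le_exp (-(v ^ 2) / 16)
        nlinarith
      have h2 : Real.exp (-(v ^ 2) / 4) = (Real.exp (-(v ^ 2) / 16)) ^ 4 := by
        rw [← Real.exp_nat_mul]; congr 1; push_cast; ring
      rw [h2]
      refine le_trans ?_ (pow_le_pow_left₀ (by norm_num) h1 4)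
      norm_num
    have hS : (500 / 1000 : ℝ) ≤ UThree_S τ v := by
      unfold UThree_S
      have := mul_le_mul hexp hEE (by norm_num) (by positivity)
      nlinarith
    have hB : UThree_S τ v * (v * (v ^ 2 / 8 - 3 / 4)) ≤ -(1 / 5 * v) := by
      have h1 : (4138 / 10000 : ℝ) ≤ 3 / 4 - v ^ 2 / 8 := by nlinarith
      have h2 : (1 / 5 : ℝ) ≤ UThree_S τ v * (3 / 4 - v ^ 2 / 8) := by
        have := mul_le_mul hS h1 (by norm_num) (by linarith)
        linarith
      have h3 : UThree_S τ v * (v * (v ^ 2 / 8 - 3 / 4)) = -(v * (UThree_S τ v * (3 / 4 - v ^ 2 / 8))) := by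
        ring
      rw [h3]
      nlinarith
    -- claim A
    have hA : E (τ - v) * (τ ^ 2 - 2 - 5 / 2 * τ * v + 7 / 4 * v ^ 2) ≤ 3 / 10 := by
      set z := τ - v with hz
      have e1 : τ ^ 2 - 2 - 5 / 2 * τ * v + 7 / 4 * v ^ 2 = z ^ 2 - z * v / 2 + v ^ 2 / 4 - 2 := by
        rw [hz]; ring
      rw [e1]
      have a2 : 0 ≤ E z := by unfold E; positivity
      have hz0 : -(23 / 100) ≤ z := by rw [hz]; linarith
      rcases le_or_gt (82 / 100) z with hz1 | hz1
      · have h1 : z ^ 2 - z * v / 2 + v ^ 2 / 4 - 2 ≤ z ^ 2 - 2 := by nlinarith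
        refine (mul_le_mul_of_nonneg_left h1 a2).trans ?_
        have h2 : E z * (z ^ 2 - 2) ≤ 2 * Real.exp (-2) := by
          unfold E
          have h3 := Real.add_one_le_exp ((z ^ 2 - 4) / 2)
          have h4 : Real.exp (-(z ^ 2) / 2) * Real.exp ((z ^ 2 - 4) / 2) = Real.exp (-2) := by
            rw [← Real.exp_add]; congr 1; ring
          have h5 : Real.exp (-(z ^ 2) / 2) * ((z ^ 2 - 4) / 2 + 1) ≤ Real.exp (-2) := by
            rw [← h4]
            exact mul_le_mul_of_nonneg_left h3 (Real.exp_pos _).le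
          nlinarith
        refine h2.trans ?_
        have h6 : Real.exp (-2) ≤ 15 / 100 := by
          rw [Real.exp_neg, inv_le_comm₀ (Real.exp_pos _) (by norm_num)]
          have : Real.exp 2 = (Real.exp 1) ^ 2 := by
            rw [← Real.exp_nat_mul]; norm_num
          rw [this]
          have h7 := Real.exp_one_gt_d9
          refine le_trans ?_ (pow_le_pow_left₀ (by norm_num) h7.le 2)
          norm_num
        linarith
      · have h1 : z ^ 2 - z * v / 2 + v ^ 2 / 4 - 2 ≤ 0 := by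
          have q1 : z ^ 2 ≤ 1 := by nlinarith
          have q2 : -(z * v) ≤ 23 / 100 * (164 / 100) := by
            rcases le_total 0 z with h0 | h0
            · nlinarith [mul_nonneg h0 hv0.le]
            · nlinarith
          nlinarith
        have := mul_nonpos_of_nonneg_of_nonpos a2 h1
        linarith
    have hA2 : E τ * (E (τ - v) * (τ ^ 2 - 2 - 5 / 2 * τ * v + 7 / 4 * v ^ 2)) ≤ 3 / 10 * E τ := by
      have := mul_le_mul_of_nonneg_left hA g0
      linarith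
    linarith

end GCube
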