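import Pool.Agent.Lib.H83.U3cForm

/-!
Chunk UC1: `etaY` on `[0, yτ]`, and averages of even functions.

`e = UThree_e τ` equals `etaX` on `(0,2τ]`, `e(0) = g²`, `g = E τ`, `e' = U3c_m` (`UThree_e_hasDerivAt`).
* `etaY_near`: for `0 ≤ x ≤ yτ`, `|t| ≤ τ` we have `|x - yt| ≤ 2yτ < 2τ` and for `v ≠ 0`, `|v| < 2τ`:
  `etaO(v) = sign(v) e(|v|) = g² sign(v) + P(v)`, `P(v) = ∫_0^v U3c_m |u| du` (odd). `∫_{-τ}^τ E(t) sign(x - yt) dt = 2 G(x/y)`.
* `U3c_even_avg`: with `u = x - yt`: `M(x) = (1/y) ∫ κ(u - x) μ(u) du`, `κ(u) = E(u/y) 1_{|u| ≤ yτ}` even, nonincreasing in `|u|`.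
  For `x < x'`, `c = (x+x')/2`, `d = (x'-x)/2`: `M(x) - M(x') = (1/y) ∫_0^∞ (κ(s-d) - κ(s+d)) (μ(c-s) - μ(c+s)) ds ≥ 0`,
  because `|c-s| ≤ c+s` and the first factor vanishes unless `c+s ≤ yτ+x' ≤ 2yτ`.
-/

open MeasureTheory Set
open scoped Real

namespace GCube

/-- `e'` -/
noncomputable def U3c_m (τ v : ℝ) : ℝ := -(UThree_q τ v) + E τ * E (τ - v) * (τ - 3 * v / 2)

lemma UC1_E_cont : Continuous E := by
  unfold E
  fun_prop

lemma UC1_E_even (t : ℝ) : E (-t) = E t := by
  unfold E
  simp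

lemma UC1_m_cont (τ : ℝ) : Continuous (U3c_m τ) := by
  have h1 : Continuous (UThree_q τ) :=
    continuous_iff_continuousAt.2 fun v => (UThree_q_hasDerivAt τ v).continuousAt
  have h2 := UC1_E_cont
  unfold U3c_m
  fun_prop

lemma UC1_P_cont (τ : ℝ) : Continuous (fun v => ∫ u in (0 : ℝ)..v, U3c_m τ |u|) := by
  apply intervalIntegral.continuous_primitive
  intro a b
  exact ((UC1_m_cont τ).comp continuous_abs).intervalIntegrable _ _

lemma UC1_P_odd (τ v : ℝ) : ∫ u in (0 : ℝ)..(-v), U3c_m τ |u| = -∫ u in (0 : ℝ)..v, U3c_m τ |u| := by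
  have h := intervalIntegral.integral_comp_neg (a := 0) (b := v) (fun u => U3c_m τ |u|)
  simp only [abs_neg, neg_zero] at h
  rw [h, intervalIntegral.integral_symm]

lemma UC1_e_zero (τ : ℝ) : UThree_e τ 0 = E τ ^ 2 := by
  unfold UThree_e
  simp
  ring

lemma UC1_e_eq {τ v : ℝ} (hv : 0 ≤ v) :
    UThree_e τ v = E τ ^ 2 + ∫ u in (0 : ℝ)..v, U3c_m τ |u| := by
  have h := intervalIntegral.integral_eq_sub_of_hasDerivAt (a := 0) (b := v)
    (fun u _ => UThree_e_hasDerivAt τ u) ((UC1_m_cont τ).intervalIntegrable _ _)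
  rw [UC1_e_zero] at h
  have h2 : ∫ u in (0 : ℝ)..v, U3c_m τ |u| = ∫ u in (0 : ℝ)..v,
      (-(UThree_q τ u) + E τ * E (τ - u) * (τ - 3 * u / 2)) := by
    apply intervalIntegral.integral_congr
    intro u hu
    rw [uIcc_of_le hv] at hu
    simp only
    rw [abs_of_nonneg hu.1]
    rfl
  rw [h2, h]
  ring

lemma UC1_etaO_pos {τ v : ℝ} (hv : 0 < v) (hv2 : v ≤ 2 * τ) :
    etaO τ v = E τ ^ 2 + ∫ u in (0 : ℝ)..v, U3c_m τ |u| := by
  unfold etaO
  rw [if_pos hv.le, ← UC1_e_eq hv.le]
  unfold etaX UThree_e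
  rw [if_pos ⟨hv, hv2⟩, UThree_rX_eq hv.le hv2]

lemma UC1_etaO_neg {τ v : ℝ} (hv : v < 0) (hv2 : -(2 * τ) ≤ v) :
    etaO τ v = -(E τ ^ 2) + ∫ u in (0 : ℝ)..v, U3c_m τ |u| := by
  have h := UC1_etaO_pos (τ := τ) (v := -v) (by linarith) (by linarith)
  rw [UC1_P_odd] at h
  unfold etaO at h ⊢
  rw [if_pos (by linarith : (0:ℝ) ≤ -v)] at h
  rw [if_neg (by linarith : ¬ (0:ℝ) ≤ v)]
  linarith

lemma UC1_G_add (a b : ℝ) : ∫ t in a..b, E t = G b - G a := by
  unfold G
  rw [intervalIntegral.integral_interval_sub_left (UC1_E_cont.intervalIntegrable _ _)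
    (UC1_E_cont.intervalIntegrable _ _)]

lemma UC1_G_neg (a : ℝ) : G (-a) = - G a := by
  have h := intervalIntegral.integral_comp_neg (a := 0) (b := a) E
  simp only [UC1_E_even, neg_zero] at h
  unfold G
  rw [h, intervalIntegral.integral_symm]

theorem etaY_near {τ y x : ℝ} (hτ : 0 < τ) (hy : 0 < y) (hy1 : y < 1) (h0 : 0 ≤ x) (h1 : x ≤ y * τ) :
    etaY τ y x = 2 * E τ ^ 2 * G (x / y) +
      ∫ t in (-τ)..τ, E t * ∫ u in (0 : ℝ)..(x - y * t), U3c_m τ |u| := by
  have hxy0 : 0 ≤ x / y := by positivity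
  have hxy1 : x / y ≤ τ := by rw [div_le_iff₀ hy]; linarith
  have hne : ∀ᵐ t : ℝ, t ≠ x / y := by
    rw [ae_iff]
    simp
  set P : ℝ → ℝ := fun t => ∫ u in (0 : ℝ)..(x - y * t), U3c_m τ |u| with hP
  have hPc : Continuous P := (UC1_P_cont τ).comp (by fun_prop : Continuous fun t : ℝ => x - y * t)
  have hEc := UC1_E_cont
  have i1 : ∀ a b : ℝ, IntervalIntegrable (fun t => E t * (E τ ^ 2)) volume a b := fun a b =>
    (by fun_prop : Continuous fun t => E t * (E τ ^ 2)).intervalIntegrable _ _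
  have i2 : ∀ a b : ℝ, IntervalIntegrable (fun t => E t * P t) volume a b := fun a b =>
    (hEc.mul hPc).intervalIntegrable _ _
  have i3 : ∀ a b : ℝ, IntervalIntegrable (fun t => E t * (-(E τ ^ 2))) volume a b := fun a b =>
    (by fun_prop : Continuous fun t => E t * (-(E τ ^ 2))).intervalIntegrable _ _
  have c1 : ∀ᵐ t : ℝ, t ∈ uIoc (-τ) (x / y) → E t * etaO τ (x - y * t) = E t * (E τ ^ 2) + E t * P t := by
    filter_upwards [hne] with t ht hmem
    rw [uIoc_of_le (by linarith)] at hmem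
    have hlt : t < x / y := lt_of_le_of_ne hmem.2 ht
    have hpos : 0 < x - y * t := by
      rw [lt_div_iff₀ hy] at hlt
      linarith
    have hle : x - y * t ≤ 2 * τ := by
      have := hmem.1
      nlinarith
    rw [UC1_etaO_pos hpos hle]
    ring
  have c2 : ∀ᵐ t : ℝ, t ∈ uIoc (x / y) τ → E t * etaO τ (x - y * t) = E t * (-(E τ ^ 2)) + E t * P t := by
    filter_upwards [hne] with t ht hmem
    rw [uIoc_of_le hxy1] at hmem
    have hlt : x / y < t := hmem.1
    have hpos : x - y * t < 0 := by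
      rw [div_lt_iff₀ hy] at hlt
      linarith
    have hle : -(2 * τ) ≤ x - y * t := by
      have := hmem.2
      nlinarith
    rw [UC1_etaO_neg hpos hle]
    ring
  have j1 : IntervalIntegrable (fun t => E t * etaO τ (x - y * t)) volume (-τ) (x / y) := by
    refine ((i1 (-τ) (x / y)).add (i2 _ _)).congr_ae ?_
    rw [Filter.EventuallyEq, ae_restrict_iff' measurableSet_uIoc]
    filter_upwards [c1] with t ht hmem
    exact (ht hmem).symm
  have j2 : IntervalIntegrable (fun t => E t * etaO τ (x - y * t)) volume (x / y) τ := by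
    refine ((i3 (x / y) τ).add (i2 _ _)).congr_ae ?_
    rw [Filter.EventuallyEq, ae_restrict_iff' measurableSet_uIoc]
    filter_upwards [c2] with t ht hmem
    exact (ht hmem).symm
  unfold etaY
  rw [← intervalIntegral.integral_add_adjacent_intervals j1 j2,
    intervalIntegral.integral_congr_ae c1, intervalIntegral.integral_congr_ae c2,
    intervalIntegral.integral_add (i1 _ _) (i2 _ _), intervalIntegral.integral_add (i3 _ _) (i2 _ _),
    intervalIntegral.integral_mul_const, intervalIntegral.integral_mul_const, UC1_G_add, UC1_G_add,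
    UC1_G_neg]
  have := intervalIntegral.integral_add_adjacent_intervals (i2 (-τ) (x / y)) (i2 (x / y) τ)
  rw [← this]
  ring

lemma UC1_b_int (τ α β y : ℝ) {μ : ℝ → ℝ} (hc : Continuous μ) :
    Integrable (fun t => UThree_b τ (t + α) * μ (β - y * t)) := by
  have h : (fun t => UThree_b τ (t + α) * μ (β - y * t)) =
      (Icc (-τ - α) (τ - α)).indicator (fun t => E (t + α) * μ (β - y * t)) := by
    funext t
    unfold UThree_b
    by_cases ht : t ∈ Icc (-τ - α) (τ - α)
    · rw [indicator_of_mem ht, indicator_of_mem]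
      exact ⟨by linarith [ht.1], by linarith [ht.2]⟩
    · rw [indicator_of_notMem ht, indicator_of_notMem, zero_mul]
      intro h2
      exact ht ⟨by linarith [h2.1], by linarith [h2.2]⟩
  rw [h, integrable_indicator_iff measurableSet_Icc]
  have hE := UC1_E_cont
  exact (by fun_prop : Continuous fun t => E (t + α) * μ (β - y * t)).integrableOn_Icc

lemma UC1_b_anti (τ : ℝ) {u v : ℝ} (h : |u| ≤ |v|) : UThree_b τ v ≤ UThree_b τ u := by
  unfold UThree_b
  by_cases hv : v ∈ Icc (-τ) τ
  · have hu : u ∈ Icc (-τ) τ := by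
      rw [mem_Icc, ← abs_le] at hv ⊢
      exact h.trans hv
    rw [indicator_of_mem hv, indicator_of_mem hu]
    unfold E
    apply Real.exp_le_exp.mpr
    have := sq_le_sq.mpr h
    linarith
  · rw [indicator_of_notMem hv]
    apply indicator_nonneg
    intro t _
    unfold E
    positivity

lemma UC1_b_zero (τ : ℝ) {u : ℝ} (h : τ < |u|) : UThree_b τ u = 0 := by
  unfold UThree_b
  rw [indicator_of_notMem]
  rw [mem_Icc, ← abs_le]
  linarith

theorem U3c_even_avg {τ y : ℝ} (hτ : 0 < τ) (hy : 0 < y) {μ : ℝ → ℝ} (hc : Continuous μ)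
    (he : ∀ x, μ (-x) = μ x) (hm : AntitoneOn μ (Icc 0 (2 * y * τ))) :
    AntitoneOn (fun x => ∫ t in (-τ)..τ, E t * μ (x - y * t)) (Icc 0 (y * τ)) := by
  intro x hx x' hx' hxx
  simp only
  have hform : ∀ z : ℝ, ∫ t in (-τ)..τ, E t * μ (z - y * t) =
      ∫ t : ℝ, UThree_b τ (t + 0) * μ (z - y * t) := by
    intro z
    rw [intervalIntegral.integral_of_le (by linarith), ← integral_Icc_eq_integral_Ioc,
      ← integral_indicator measurableSet_Icc]
    congr 1
    funext t
    unfold UThree_b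
    rw [add_zero]
    by_cases ht : t ∈ Icc (-τ) τ
    · rw [indicator_of_mem ht, indicator_of_mem ht]
    · rw [indicator_of_notMem ht, indicator_of_notMem ht, zero_mul]
  rw [hform, hform]
  set δ := (x' - x) / y with hδ
  set c := (x + x') / 2 with hcdef
  have hδ0 : 0 ≤ δ := div_nonneg (by linarith) hy.le
  have hyδ : y * δ = x' - x := by rw [hδ]; field_simp
  -- shift both to the centre
  have s1 : ∫ t : ℝ, UThree_b τ (t + 0) * μ (x - y * t) =
      ∫ r : ℝ, UThree_b τ (r + (-(δ / 2))) * μ (c - y * r) := by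
    rw [← integral_add_right_eq_self (fun t : ℝ => UThree_b τ (t + 0) * μ (x - y * t)) (-(δ / 2))]
    congr 1
    funext r
    rw [add_zero]
    congr 2
    rw [hcdef]
    have : y * (r + -(δ / 2)) = y * r - (y * δ) / 2 := by ring
    rw [this, hyδ]
    ring
  have s2 : ∫ t : ℝ, UThree_b τ (t + 0) * μ (x' - y * t) =
      ∫ r : ℝ, UThree_b τ (r + δ / 2) * μ (c - y * r) := by
    rw [← integral_add_right_eq_self (fun t : ℝ => UThree_b τ (t + 0) * μ (x' - y * t)) (δ / 2)]
    congr 1
    funext r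
    rw [add_zero]
    congr 2
    rw [hcdef]
    have : y * (r + δ / 2) = y * r + (y * δ) / 2 := by ring
    rw [this, hyδ]
    ring
  rw [s1, s2, ← sub_nonneg, ← integral_sub (UC1_b_int τ _ c y hc) (UC1_b_int τ _ c y hc)]
  set h : ℝ → ℝ := fun r => UThree_b τ (r + (-(δ / 2))) - UThree_b τ (r + δ / 2) with hh
  have hodd : ∀ r, h (-r) = - h r := by
    intro r
    rw [hh]
    simp only
    have e1 : UThree_b τ (-r + -(δ / 2)) = UThree_b τ (r + δ / 2) := by
      rw [← UThree_b_neg]; congr 1; ring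
    have e2 : UThree_b τ (-r + δ / 2) = UThree_b τ (r + -(δ / 2)) := by
      rw [← UThree_b_neg]; congr 1; ring
    rw [e1, e2]
    ring
  have e0 : ∫ r : ℝ, (UThree_b τ (r + (-(δ / 2))) * μ (c - y * r) -
      UThree_b τ (r + δ / 2) * μ (c - y * r)) = ∫ r : ℝ, h r * μ (c - y * r) := by
    congr 1
    funext r
    rw [hh]
    ring
  have hint : Integrable (fun r => h r * μ (c - y * r)) := by
    have := (UC1_b_int τ (-(δ / 2)) c y hc).sub (UC1_b_int τ (δ / 2) c y hc)
    refine this.congr (Filter.Eventually.of_forall fun r => ?_)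
    rw [hh]
    simp only [Pi.sub_apply]
    ring
  have hint2 : Integrable (fun r => h r * μ (c + y * r)) := by
    have := hint.comp_neg
    have h3 := this.neg
    refine h3.congr (Filter.Eventually.of_forall fun r => ?_)
    simp only [Pi.neg_apply]
    rw [hodd]
    have : c - y * -r = c + y * r := by ring
    rw [this]
    ring
  have hneg : ∫ r : ℝ, h r * μ (c - y * r) = - ∫ r : ℝ, h r * μ (c + y * r) := by
    rw [← integral_neg_eq_self (fun r : ℝ => h r * μ (c - y * r)), ← integral_neg]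
    congr 1
    funext r
    rw [hodd]
    have : c - y * -r = c + y * r := by ring
    rw [this]
    ring
  rw [e0]
  have hhalf : ∫ r : ℝ, h r * μ (c - y * r) =
      (1 / 2) * ∫ r : ℝ, (h r * μ (c - y * r) - h r * μ (c + y * r)) := by
    rw [integral_sub hint hint2]
    linarith
  rw [hhalf]
  apply mul_nonneg (by norm_num)
  apply integral_nonneg
  have key : ∀ r : ℝ, 0 ≤ r → 0 ≤ h r * μ (c - y * r) - h r * μ (c + y * r) := by
    intro r hr
    have hle : |r + -(δ / 2)| ≤ |r + δ / 2| := by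
      rw [abs_of_nonneg (by linarith : 0 ≤ r + δ / 2), abs_le]
      constructor <;> linarith
    have hh0 : 0 ≤ h r := by
      rw [hh]
      simp only
      linarith [UC1_b_anti τ hle]
    rw [← mul_sub]
    rcases lt_or_ge τ |r + -(δ / 2)| with hbig | hsmall
    · have z1 := UC1_b_zero τ hbig
      have z2 := UC1_b_zero τ (lt_of_lt_of_le hbig hle)
      have : h r = 0 := by rw [hh]; simp only; rw [z1, z2]; ring
      rw [this, zero_mul]
    · apply mul_nonneg hh0
      rw [abs_le] at hsmall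
      have hc0 : 0 ≤ c := by rw [hcdef]; linarith [hx.1, hx'.1]
      have hb : c + y * r ≤ 2 * y * τ := by
        have : r ≤ τ + δ / 2 := by linarith [hsmall.2]
        have h2 : y * r ≤ y * τ + (y * δ) / 2 := by nlinarith
        rw [hyδ] at h2
        rw [hcdef]
        linarith [hx'.2]
      have hyr : 0 ≤ y * r := by positivity
      have habs : μ (c - y * r) = μ |c - y * r| := by
        rcases abs_choice (c - y * r) with h4 | h4
        · rw [h4]
        · rw [h4, he]
      rw [habs, sub_nonneg]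
      apply hm
      · refine ⟨abs_nonneg _, ?_⟩
        rw [abs_le]
        constructor <;> linarith
      · exact ⟨by linarith, hb⟩
      · rw [abs_le]
        constructor <;> linarith
  intro r
  simp only [Pi.zero_apply]
  rcases le_total 0 r with hr | hr
  · exact key r hr
  · have := key (-r) (by linarith)
    rw [hodd] at this
    have e1 : c - y * -r = c + y * r := by ring
    have e2 : c + y * -r = c - y * r := by ring
    rw [e1, e2] at this
    linarith

end GCube
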