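import Pool.Agent.Lib.H83.Psi

/-!
Chunk U2: the sum of two truncated Gaussians is `R³`-unimodal: `etaX(x)/x` is nonincreasing.

`etaX(x)/x = rX(x)/2 + g E(τ-x)/x` on `(0,2τ]`. Derivative:
`-etaX/2 + gE(τ-x)[(τ-x)x-1]/x²`. With `r = τ - x/2`, `rX = 2 e^{-x²/4} EE(r)`, `gE(τ-x) = e^{-x²/4} e^{-r²}`
the claim is `(x/2) e^{r²} EE(r) ≥ r/x - 1 - 1/x²`, and `e^{r²}EE(r) ≥ r + (2/3) r³ ≥ (8/27) r³ ≥ 2r/x² - 2/x³`.
-/

open MeasureTheory Set
open scoped Real

namespace GCube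

lemma UTwo_EE_hasDerivAt (r : ℝ) : HasDerivAt EE (Real.exp (-(r ^ 2))) r := by
  have hc : Continuous fun u : ℝ => Real.exp (-(u ^ 2)) := by fun_prop
  exact (hc.integral_hasStrictDerivAt 0 r).hasDerivAt

lemma UTwo_EE_lower {r : ℝ} (hr : 0 ≤ r) : (r + 2 / 3 * r ^ 3) * Real.exp (-(r ^ 2)) ≤ EE r := by
  have hd : ∀ x : ℝ, HasDerivAt (fun x => EE x - (x + 2 / 3 * x ^ 3) * Real.exp (-(x ^ 2)))
      (4 / 3 * x ^ 4 * Real.exp (-(x ^ 2))) x := by
    intro x
    have h1 := UTwo_EE_hasDerivAt x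
    have h2 : HasDerivAt (fun x : ℝ => x + 2 / 3 * x ^ 3) (1 + 2 / 3 * (3 * x ^ 2)) x := by
      have h := (hasDerivAt_id' x).add ((hasDerivAt_pow 3 x).const_mul (2 / 3 : ℝ))
      refine h.congr_deriv ?_
      norm_num
    have h3 : HasDerivAt (fun x : ℝ => Real.exp (-(x ^ 2))) (Real.exp (-(x ^ 2)) * (-(2 * x))) x := by
      have := ((hasDerivAt_pow 2 x).neg).exp
      simpa using this
    have h4 := h1.sub (h2.mul h3)
    refine h4.congr_deriv ?_
    ring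
  have hm : MonotoneOn (fun x => EE x - (x + 2 / 3 * x ^ 3) * Real.exp (-(x ^ 2))) (Ici 0) := by
    refine monotoneOn_of_deriv_nonneg (convex_Ici 0)
      (fun x _ => (hd x).continuousAt.continuousWithinAt)
      (fun x _ => (hd x).differentiableAt.differentiableWithinAt) ?_
    intro x _
    rw [(hd x).deriv]
    positivity
  have h := hm (mem_Ici.2 le_rfl) (mem_Ici.2 hr) hr
  have h0 : EE 0 = 0 := by simp [EE]
  simp only [h0] at h
  norm_num at h
  linarith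

lemma UTwo_exp_eq (τ x : ℝ) :
    E τ * E (τ - x) = Real.exp (-(x ^ 2) / 4) * Real.exp (-((τ - x / 2) ^ 2)) := by
  unfold E
  rw [← Real.exp_add, ← Real.exp_add]
  congr 1
  ring

/-- the smooth expression of `rX` on `[0, 2τ]` -/
lemma UTwo_rX_eq {τ x : ℝ} (hx : 0 ≤ x) (hx2 : x ≤ 2 * τ) :
    rX τ x = 2 * Real.exp (-(x ^ 2) / 4) * EE (τ - x / 2) := by
  unfold rX
  rw [abs_of_nonneg hx, if_pos hx2]

lemma UTwo_smooth (τ x : ℝ) :
    HasDerivAt (fun x => 2 * Real.exp (-(x ^ 2) / 4) * EE (τ - x / 2))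
      (-(x / 2 * (2 * Real.exp (-(x ^ 2) / 4) * EE (τ - x / 2)) + E τ * E (τ - x))) x := by
  have h1 : HasDerivAt (fun x : ℝ => 2 * Real.exp (-(x ^ 2) / 4))
      (2 * (Real.exp (-(x ^ 2) / 4) * (-(2 * x) / 4))) x := by
    have := (((hasDerivAt_pow 2 x).neg.div_const 4).exp).const_mul (2 : ℝ)
    simpa using this
  have h2 : HasDerivAt (fun x : ℝ => EE (τ - x / 2))
      (Real.exp (-((τ - x / 2) ^ 2)) * (-(1 / 2))) x := by
    have h3 : HasDerivAt (fun x : ℝ => τ - x / 2) (-(1 / 2)) x := by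
      have := ((hasDerivAt_id x).div_const 2).const_sub τ
      simpa using this
    exact (UTwo_EE_hasDerivAt (τ - x / 2)).comp x h3
  refine (h1.mul h2).congr_deriv ?_
  rw [UTwo_exp_eq]
  ring

lemma rX_hasDerivAt {τ x : ℝ} (hτ : 0 < τ) (hx : 0 < x) (hx2 : x < 2 * τ) :
    HasDerivAt (rX τ) (-(etaX τ x)) x := by
  have h := UTwo_smooth τ x
  have he : etaX τ x = x / 2 * (2 * Real.exp (-(x ^ 2) / 4) * EE (τ - x / 2)) + E τ * E (τ - x) := by
    unfold etaX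
    rw [if_pos ⟨hx, hx2.le⟩, UTwo_rX_eq hx.le hx2.le]
  rw [he]
  refine h.congr_of_eventuallyEq ?_
  filter_upwards [Ioo_mem_nhds hx hx2] with y hy
  exact UTwo_rX_eq hy.1.le hy.2.le

theorem U2_anti {τ : ℝ} (hτ : 0 < τ) : StrictAntiOn (fun x => etaX τ x / x) (Ioc 0 (2 * τ)) := by
  have heq : ∀ x ∈ Ioc 0 (2 * τ), etaX τ x / x =
      (2 * Real.exp (-(x ^ 2) / 4) * EE (τ - x / 2)) / 2 +
        Real.exp (-(x ^ 2) / 4) * Real.exp (-((τ - x / 2) ^ 2)) / x := by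
    intro x hx
    unfold etaX
    rw [if_pos ⟨hx.1, hx.2⟩, UTwo_rX_eq hx.1.le hx.2, UTwo_exp_eq]
    have := hx.1.ne'
    field_simp
  have hd : ∀ x : ℝ, 0 < x → HasDerivAt (fun x => (2 * Real.exp (-(x ^ 2) / 4) * EE (τ - x / 2)) / 2 +
        Real.exp (-(x ^ 2) / 4) * Real.exp (-((τ - x / 2) ^ 2)) / x)
      (Real.exp (-(x ^ 2) / 4) * (-(x / 2) * EE (τ - x / 2) +
        Real.exp (-((τ - x / 2) ^ 2)) * ((τ - x / 2) / x - 1 - 1 / x ^ 2))) x := by
    intro x hx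
    have h1 := (UTwo_smooth τ x).div_const 2
    have h2 : HasDerivAt (fun x : ℝ => Real.exp (-(x ^ 2) / 4) * Real.exp (-((τ - x / 2) ^ 2)))
        (Real.exp (-(x ^ 2) / 4) * Real.exp (-((τ - x / 2) ^ 2)) * (τ - x)) x := by
      have h3 : HasDerivAt (fun x : ℝ => Real.exp (-(x ^ 2) / 4))
          (Real.exp (-(x ^ 2) / 4) * (-(2 * x) / 4)) x := by
        have := ((hasDerivAt_pow 2 x).neg.div_const 4).exp
        simpa using this
      have h4 : HasDerivAt (fun x : ℝ => Real.exp (-((τ - x / 2) ^ 2)))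
          (Real.exp (-((τ - x / 2) ^ 2)) * (-(2 * (τ - x / 2) * (-(1 / 2))))) x := by
        have h5 : HasDerivAt (fun x : ℝ => τ - x / 2) (-(1 / 2)) x := by
          have := ((hasDerivAt_id x).div_const 2).const_sub τ
          simpa using this
        have := ((h5.pow 2).neg).exp
        simpa using this
      refine (h3.mul h4).congr_deriv ?_
      ring
    have h6 := h2.div (hasDerivAt_id x) hx.ne'
    refine (h1.add h6).congr_deriv ?_
    rw [UTwo_exp_eq]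
    simp only [id]
    field_simp
    ring
  refine strictAntiOn_of_deriv_neg (convex_Ioc 0 (2 * τ)) ?_ ?_
  · exact ContinuousOn.congr (fun x hx => (hd x hx.1).continuousAt.continuousWithinAt) heq
  · intro x hx
    rw [interior_Ioc] at hx
    have hev : (fun x => etaX τ x / x) =ᶠ[nhds x] fun x =>
        (2 * Real.exp (-(x ^ 2) / 4) * EE (τ - x / 2)) / 2 +
        Real.exp (-(x ^ 2) / 4) * Real.exp (-((τ - x / 2) ^ 2)) / x := by
      filter_upwards [Ioo_mem_nhds hx.1 hx.2] with y hy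
      exact heq y ⟨hy.1, hy.2.le⟩
    rw [hev.deriv_eq, (hd x hx.1).deriv]
    have hx0 : 0 < x := hx.1
    have hr : 0 ≤ τ - x / 2 := by have := hx.2; linarith
    set r := τ - x / 2 with hrdef
    have hE := UTwo_EE_lower hr
    have hpos : 0 < Real.exp (-(r ^ 2)) := Real.exp_pos _
    have key : r / x - 1 - 1 / x ^ 2 < x / 2 * (r + 2 / 3 * r ^ 3) := by
      have hx2 : 0 < x ^ 2 := by positivity
      rw [← sub_pos]
      have e : x / 2 * (r + 2 / 3 * r ^ 3) - (r / x - 1 - 1 / x ^ 2) =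
          (x ^ 2 / 2 * (r * x) + (r * x) ^ 3 / 3 + x ^ 2 + 1 - r * x) / x ^ 2 := by
        field_simp
        ring
      rw [e]
      apply div_pos _ hx2
      have hp : 0 ≤ r * x := mul_nonneg hr hx0.le
      nlinarith [mul_nonneg (sq_nonneg (r * x - 1)) (by linarith : 0 ≤ r * x + 2),
        mul_nonneg hx2.le hp]
    have h1 : x / 2 * ((r + 2 / 3 * r ^ 3) * Real.exp (-(r ^ 2))) ≤ x / 2 * EE r :=
      mul_le_mul_of_nonneg_left hE (by positivity)
    have h2 : (r / x - 1 - 1 / x ^ 2) * Real.exp (-(r ^ 2)) <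
        x / 2 * (r + 2 / 3 * r ^ 3) * Real.exp (-(r ^ 2)) := mul_lt_mul_of_pos_right key hpos
    have h3 : -(x / 2) * EE r + Real.exp (-(r ^ 2)) * (r / x - 1 - 1 / x ^ 2) < 0 := by
      nlinarith [h1, h2]
    exact mul_neg_of_pos_of_neg (Real.exp_pos _) h3

end GCube
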